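import Mathlib
import Pool.Agent.PTDM.C09
import Pool.Agent.PTDM.C21
import Pool.Agent.PTDM.C23
import Pool.Agent.PTDM.C27
import Pool.Agent.PTDM.C28
import Pool.Agent.PTDM.C39

/-! Parts: PTKX.StL, PTKX.StN, PTKX.StG, PTKX.IF4, PTKX.LFV, PTKX.NFX, PTKX.NMN, PTKX.NRK -/

section

/-!
# The average rank of prime twists: the local terms over `K = Q(w)`

The classes `b`, `x` are now elements of `Z[w]` (`Eis`) and not rational integers. The statements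
of this file are those of `PT/Stmts1.lean` and `PT3/Stmts.lean` with `Eis` in place of `ℤ`; the
proofs are the same ones (copy the file named in the docstring and replace `ℤ` by `Eis`, casts
disappear). They were checked numerically.

Everything in `PT`, `PTE`, `PT3`, `PTL`, `PTN` is proved and may be imported, or taken as a
hypothesis of your theorem (for example `(hSTM : STM) (hSPP : SPP) (hSSL : SSL) (hSLC : SLC)`,
`(hLCL : LCL)`, `(hSCJ : SCJ)`); statements `Stmt_...` of `PTK` may be hypotheses too, if your docstring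
says so.
-/

set_option autoImplicit false

namespace Pool.Agent.PTK

open Pool.Agent.Lib_helper18 Pool.Agent.Lib_helper18.Eis Pool.Agent.Lib_helper84.Cub
open Pool.Agent.PT

/-! ### Definitions -/

/-- the linear form `p + q w^i r` -/
def LfE (p q : Eis) (i : ℕ) (r : Eis) : Eis := p + q * w ^ i * r

/-- the symbol of `B` with `α = [(p + q w² r)(p' + q' w r)] / [(p + q w r)(p' + q' w² r)]` -/
def ASE (s : Eis → Eis → ZMod 3) (B : Eis) (p q p' q' r : Eis) : ZMod 3 :=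
  s B (LfE p q 2 r) + s B (LfE p' q' 1 r) - s B (LfE p q 1 r) - s B (LfE p' q' 2 r)

/-- `G_i = q p' - w^i p q'` -/
def GfE (p q p' q' : Eis) (i : ℕ) : Eis := q * p' - w ^ i * p * q'

/-- `D_i = X u + w^i v Y` -/
def DfE (X Y u v : Eis) (i : ℕ) : Eis := X * u + w ^ i * v * Y

/-- The local term of the point `(X, Y)`. -/
def SVE (s : Eis → Eis → ZMod 3) (x p q p' q' X Y : Eis) : ZMod 3 :=
  (s (DfE X Y p' p 1) (p ^ 3 - x * p' ^ 3) - s (DfE X Y p' p 2) (p ^ 3 - x * p' ^ 3) -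
    s (DfE X Y p' p 1) (X ^ 3 + x * Y ^ 3) + s (DfE X Y p' p 2) (X ^ 3 + x * Y ^ 3)) -
  (s (DfE X Y q' q 1) (x * q' ^ 3 - q ^ 3) - s (DfE X Y q' q 2) (x * q' ^ 3 - q ^ 3) -
    s (DfE X Y q' q 1) (X ^ 3 + x * Y ^ 3) + s (DfE X Y q' q 2) (X ^ 3 + x * Y ^ 3))

/-- `b` is a cube in the completion at `π` -/
def LCE (π b : Eis) : Prop := ∀ N : ℕ, ∃ r : Eis, π ^ N ∣ r ^ 3 - b

/-- `η = (p + q T)/(p' + q' T)` has norm `x` from `K(b^(1/3))`. -/
structure SolWE (b x p q p' q' : Eis) : Prop where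
  eq : p ^ 3 + b * q ^ 3 = x * (p' ^ 3 + b * q' ^ 3)
  n1 : p ^ 3 + b * q ^ 3 ≠ 0

/-- `SolWE` with nondegeneracy conditions (automatic when `b` and `x` are not cubes). -/
structure SolE (b x p q p' q' : Eis) : Prop extends SolWE b x p q p' q' where
  n2 : p ^ 3 - x * p' ^ 3 ≠ 0
  g1 : GfE p q p' q' 1 ≠ 0
  g2 : GfE p q p' q' 2 ≠ 0

/-- nondegeneracy of the point `(X, Y)` with respect to `(p, q, p', q')` -/
structure DNE (X Y p q p' q' : Eis) : Prop where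
  d1 : DfE X Y p' p 1 ≠ 0
  d2 : DfE X Y p' p 2 ≠ 0
  d3 : DfE X Y q' q 1 ≠ 0
  d4 : DfE X Y q' q 2 ≠ 0

/-- `(X, Y)` is a point of class `x` on the curve `X³ + Y³ = B` (over `K`). -/
structure PtE (B x X Y : Eis) : Prop where
  hX : X ≠ 0
  hY : Y ≠ 0
  eq : ∃ c : Eis, c ≠ 0 ∧ x * (X ^ 3 + x * Y ^ 3) = B * c ^ 3

/-! ### Identities for a symbol -/

/-- PTK_IF1: `α_b α_x = w⁻¹ k_0` modulo cubes. Copy of `PT/IF1.lean` (in the integral case the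
numbers `Gf .. 1`, `Gf .. 2` are never `0`; here this is assumed in `SolE`). -/
def Stmt_IF1 : Prop := ∀ (π : Eis) (s : Eis → Eis → ZMod 3) (e : ℕ), LSym π s e →
  ∀ b x p q p' q' : Eis, b ≠ 0 → x ≠ 0 → SolE b x p q p' q' →
  ∃ N0 : ℕ, ∀ r ξ : Eis, π ^ N0 ∣ r ^ 3 - b → π ^ N0 ∣ ξ ^ 3 - x →
    ∀ B : Eis, B ≠ 0 → ASE s B p q p' q' r + ASE s B p (-p') (-q) q' ξ =
      s B (GfE p q p' q' 1) - s B (GfE p q p' q' 2) + s w B

/-- PTK_IF2: `(x, α_b) = (x, k_0) + (w, x)`. Copy of `PT/IF2.lean`. -/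
def Stmt_IF2 : Prop := ∀ (π : Eis) (s : Eis → Eis → ZMod 3) (e : ℕ), LSym π s e →
  ∀ b x p q p' q' : Eis, b ≠ 0 → x ≠ 0 → SolE b x p q p' q' →
  ∃ N0 : ℕ, ∀ r : Eis, π ^ N0 ∣ r ^ 3 - b →
    ASE s x p q p' q' r = s x (GfE p q p' q' 1) - s x (GfE p q p' q' 2) + s w x

/-- PTK_IF4: the local term of a point when `x` is a local cube. Copy of `PT/IF4.lean` (there the
`D_i` never vanish; here this is the hypothesis `DNE`). -/
def Stmt_IF4 : Prop := ∀ (π : Eis) (s : Eis → Eis → ZMod 3) (e : ℕ), LSym π s e →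
  ∀ b x p q p' q' X Y : Eis, b ≠ 0 → x ≠ 0 → SolE b x p q p' q' → X ≠ 0 → Y ≠ 0 →
    X ^ 3 + x * Y ^ 3 ≠ 0 → DNE X Y p q p' q' →
  ∃ N0 : ℕ, ∀ ξ : Eis, π ^ N0 ∣ ξ ^ 3 - x →
    SVE s x p q p' q' X Y =
      ASE s (X ^ 3 + x * Y ^ 3) p (-p') (-q) q' ξ + s (LfE X Y 1 ξ) b - s (LfE X Y 2 ξ) b

/-- PTK_IF4B: `(F_1/F_2, n_0) = (w, n_0)`. Copy of `PT/IF4B.lean`. -/
def Stmt_IF4B : Prop := ∀ (π : Eis) (s : Eis → Eis → ZMod 3) (e : ℕ), LSym π s e →
  ∀ x X Y : Eis, x ≠ 0 → X ≠ 0 → Y ≠ 0 → X ^ 3 + x * Y ^ 3 ≠ 0 →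
  ∃ N0 : ℕ, ∀ ξ : Eis, π ^ N0 ∣ ξ ^ 3 - x →
    s (LfE X Y 1 ξ) (X ^ 3 + x * Y ^ 3) - s (LfE X Y 2 ξ) (X ^ 3 + x * Y ^ 3) =
      s w (X ^ 3 + x * Y ^ 3)

/-! ### Tame places -/

/-- PTK_F6R: the local term of a point at a tame place where `x` has valuation prime to `3`.
Copy of `PT/F6R.lean`. -/
def Stmt_F6R : Prop := ∀ (π : PP) (b x p q p' q' X Y : Eis), b ≠ 0 → x ≠ 0 →
  SolE b x p q p' q' → X ≠ 0 → Y ≠ 0 → DNE X Y p q p' q' → ¬ 3 ∣ V π.1 x →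
    (3 ∣ V π.1 (X ^ 3 + x * Y ^ 3) → SVE (tm π.1) x p q p' q' X Y = 0) ∧
    (¬ 3 ∣ V π.1 (X ^ 3 + x * Y ^ 3) → SVE (tm π.1) x p q p' q' X Y = - tm π.1 w b)

/-- PTK_F7U: the local term of a point at a tame place where `x` has valuation divisible by `3` and is
not a cube. Copy of `PT/F7U.lean`. -/
def Stmt_F7U : Prop := ∀ (π : PP) (b x p q p' q' X Y : Eis), b ≠ 0 → x ≠ 0 →
  SolE b x p q p' q' → X ≠ 0 → Y ≠ 0 → DNE X Y p q p' q' → 3 ∣ V π.1 x → ch π.1 x ≠ 0 →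
    SVE (tm π.1) x p q p' q' X Y = 0

/-- PTK_LFV: the valuations of the linear forms of a point when `x` is a local cube.
Proof. Let `π' = π.1`, `V = V π'`, `n₀ = X³ + x Y³ ≠ 0`, `3 ∣ V x`, `3 ∣ V n₀`, `ξ³ = x` up to `π' ^ N0`,
`N0` large (larger than `V x` and `V n₀ + 3 V X + 3 V Y + V x`); then `V ξ³ = V x`. With
`F_i = X + Y w^i ξ`: `F_0 F_1 F_2 = X³ + Y³ ξ³` has the valuation of `n₀` (differences by a multiple
of `π' ^ N0`). If `V X ≠ V (Y ξ)` then all `V F_i` are `min (V X) (V (Y ξ))`. Otherwise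
`X = π' ^ a X'`, `Y ξ = π' ^ a Z'` with units `X'`, `Z'`; `F_i = π' ^ a (X' + w^i Z')`; two of the
`X' + w^i Z'` cannot both be divisible by `π'` (their difference is `(w^i - w^j) Z'`, and
`w^i - w^j` divides `3`), so at most one `V F_i` is different from `a`, it is `a + k`, and
`3 a + k = V n₀` gives `3 ∣ k`. -/
def Stmt_LFV : Prop := ∀ (π : PP) (x X Y : Eis), x ≠ 0 → X ≠ 0 → Y ≠ 0 →
  X ^ 3 + x * Y ^ 3 ≠ 0 → 3 ∣ V π.1 x → 3 ∣ V π.1 (X ^ 3 + x * Y ^ 3) →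
  ∃ N0 : ℕ, ∀ ξ : Eis, π.1 ^ N0 ∣ ξ ^ 3 - x →
    (V π.1 (LfE X Y 1 ξ) : ZMod 3) = (V π.1 (LfE X Y 2 ξ) : ZMod 3)

/-! ### Local cubes -/

/-- PTK_LCI: local cubes. Copy of `PT/LCI.lean` (first and third part); second part: if
`λ ∤ b` and `b c³ = a³` modulo `λ⁴` with `c`, `a` prime to `λ` then `b` is a cube in the completion at
`λ`. Proof of the second part: cubes of elements prime to `λ` are `± 1` modulo `λ⁴` (see
`NCNT.cube_mod_nine` in PT/NCNT.lean; `λ⁴ = w² 9`), so `b = ± 1` modulo `λ⁴`; since `-1` is a cube let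
`b = 1` modulo `λ⁴`. By induction there is `r_N = 1` modulo `λ²` with `λ ^ (N + 4) ∣ r_N³ - b`:
`r_0 = 1`, and for `r' = r + λ ^ (N + 2) t`, `r'³ = r³ + 3 r² λ ^ (N + 2) t + ...`, `3 = - w² λ²`
(`three_eq`), the further terms are divisible by `λ ^ (N + 5)`; `r² = 1` modulo `λ`; choose `t`. -/
def Stmt_LCI : Prop :=
  (∀ (π : PP) (b : Eis), b ≠ 0 → (LCE π.1 b ↔ 3 ∣ V π.1 b ∧ ch π.1 b = 0)) ∧
  (∀ b a c : Eis, ¬ lam ∣ a → ¬ lam ∣ c → lam ^ 4 ∣ b * c ^ 3 - a ^ 3 → LCE lam b) ∧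
  (∀ (π : Eis) (s : Eis → Eis → ZMod 3) (e : ℕ) (b a : Eis), LSym π s e → LCE π b →
    b ≠ 0 → a ≠ 0 → s b a = 0)

/-! ### The place above `3` -/

/-- PTK_SVF: the sum of the local terms. Copy of the last part of `PT/LFIN.lean` (product formula
`SSL`, fourth part, for every term). -/
def Stmt_SVF : Prop := ∀ b x p q p' q' X Y : Eis, b ≠ 0 → x ≠ 0 → SolE b x p q p' q' →
  X ≠ 0 → Y ≠ 0 → X ^ 3 + x * Y ^ 3 ≠ 0 → DNE X Y p q p' q' →
  (Function.support fun v : Pl => SVE (sy v) x p q p' q' X Y).Finite ∧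
    ∑ᶠ v : Pl, SVE (sy v) x p q p' q' X Y = 0

/-- PTK_IIAG: the local term of a point at `λ` when `b` is a cube. Copy of `PT3/IIAG.lean`
(hypotheses `Stmt_LCI`, `Stmt_IF1`, `Stmt_IF2`, `Stmt_IF4`, `Stmt_F6R`, `Stmt_F7U`, `Stmt_SVF`). -/
def Stmt_IIAG : Prop := ∀ r x p q p' q' X Y : Eis, r ≠ 0 → x ≠ 0 → SolE (r ^ 3) x p q p' q' →
  X ≠ 0 → Y ≠ 0 → X ^ 3 + x * Y ^ 3 ≠ 0 → DNE X Y p q p' q' →
  SVE sl x p q p' q' X Y =
    sl (X ^ 3 + x * Y ^ 3) (GfE p q p' q' 1) - sl (X ^ 3 + x * Y ^ 3) (GfE p q p' q' 2) +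
      sl w (X ^ 3 + x * Y ^ 3) - ASE sl (X ^ 3 + x * Y ^ 3) p q p' q' r

/-- PTK_IIA: the local term of a point at `λ` when `b` is a local cube. Copy of `PT3/IIA.lean`
(hypothesis `Stmt_IIAG`). -/
def Stmt_IIA : Prop := ∀ b x p q p' q' X Y : Eis, b ≠ 0 → x ≠ 0 → LCE lam b →
  SolE b x p q p' q' → X ≠ 0 → Y ≠ 0 → X ^ 3 + x * Y ^ 3 ≠ 0 → DNE X Y p q p' q' →
  ∃ N0 : ℕ, ∀ r : Eis, lam ^ N0 ∣ r ^ 3 - b →
  SVE sl x p q p' q' X Y =
    sl (X ^ 3 + x * Y ^ 3) (GfE p q p' q' 1) - sl (X ^ 3 + x * Y ^ 3) (GfE p q p' q' 2) +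
      sl w (X ^ 3 + x * Y ^ 3) - ASE sl (X ^ 3 + x * Y ^ 3) p q p' q' r

/-! ### The global relation -/

/-- The cubic residue symbol modulo the inert prime `Q` of
`[(p + q w² r)(p' + q' w r)] / [(p + q w r)(p' + q' w² r)]`. -/
noncomputable def TAUE (Q : ℕ) (p q p' q' r : Eis) : ZMod 3 :=
  sym (Q : Eis) (LfE p q 2 r) + sym (Q : Eis) (LfE p' q' 1 r) -
    sym (Q : Eis) (LfE p q 1 r) - sym (Q : Eis) (LfE p' q' 2 r)

/-- The general hypotheses: `x` is the base and `b` the norm. Then `SolE b x p (-p') (-q) q'` (check: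
`eq` is the same equation, `n1` and `n2` are exchanged, `GfE` is unchanged), and the local term of a
point `(X, Y)` of class `x` is `SVE (sy v) x p (-p') (-q) q' X Y`. -/
structure HypD (N : ℕ) (b x p q p' q' : Eis) : Prop where
  N0 : 0 < N
  sol : SolE x b p q p' q'
  hb : b ≠ 0
  hx : x ≠ 0
  lc : LCE lam b
  unr : ∀ π : PP, ¬ π.1 ∣ (N : Eis) → ¬ π.1 ∣ b ∧ ¬ π.1 ∣ x
  cf : ∀ π : PP, V π.1 (N : Eis) ≤ 2

/-- the hypotheses on the point: `B = N Q^E` -/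
structure HypP (N : ℕ) (b x p q p' q' : Eis) (E Q : ℕ) (X Y : Eis) : Prop where
  hE : E = 1 ∨ E = 2
  hQ : Q.Prime
  sb : ∀ σ : PP, tm σ.1 b ((N : Eis) * (Q : Eis) ^ E) = 0
  sx : ∀ σ : PP, tm σ.1 x ((N : Eis) * (Q : Eis) ^ E) = 0
  pt : PtE ((N : Eis) * (Q : Eis) ^ E) x X Y
  dn : DNE X Y p (-p') (-q) q'

/-- PTK_DP1: the local terms of a point at a place `π` dividing `f` depend on `Q^E` only through a
character of `Q`. (`Q` is prime to `f`, so `π ∤ Q`.)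
Proof. Hypotheses you may use: `Stmt_IF4`, `Stmt_IF4B`, `Stmt_F6R`, `Stmt_F7U`, `Stmt_LFV`, `Stmt_LCI`.
Put `B = N Q^E`, `n₀ = X³ + x Y³`, `x n₀ = B c³`, `s = tm π.1`, `V = V π.1`, `ch = ch π.1`.
(a) `3 ∣ V x`, `ch x = 0` (`x` is a local cube). By `IF4` (for `SolE b x p (-p') (-q) q'`), for all good `ξ`
(`π ^ N0 ∣ ξ³ - x`): `SVE = ASE s n₀ p q p' q' ξ + s F_1 b - s F_2 b`, `F_i = LfE X Y i ξ`. `s n₀ a = s B a` for
`a ≠ 0` as `x` is a local cube. The other terms are a constant: if `π ∣ N` and `3 ∤ V b` then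
`s b a = i s B a` for all `a ≠ 0` with `i = V b / V B` in `ZMod 3` (`V B = V N = 1, 2`; `s b B = 0`; a general
fact on `tm`: it depends only on the vectors `(V, ch)`), so by `IF4B`, `s F_1 b - s F_2 b = i (s F_1 B - s F_2 B) =
i (s F_1 n₀ - s F_2 n₀) = i s w n₀ = i s w B = V(b) ch w`; if `π ∣ N` and `3 ∣ V b` then `V B ch b = 0`, so
`b` is a local cube and the terms are `0` (`LCI`); if `π ∤ N` then `V b = V B = 0`,
`3 ∣ V n₀`, and they are `- (V F_1 - V F_2) ch b = 0` by `LFV`. So for all good `ξ` the number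
`ASE s B p q p' q' ξ = s B (..)` is the same (namely `SVE - constant`). Fix once and for all `ξ₀` with
`π ^ N1 ∣ ξ₀³ - x`, `N1` so large that `ASE s a p q p' q' ξ = ASE s a p q p' q' ξ₀` for all `a ≠ 0` and all
`ξ` congruent to `ξ₀` modulo `π ^ N1` (continuity in the second variable; the `LfE` at `ξ₀` are not `0`
since their product is `p³ + x q³` modulo `π ^ N1`); for every `N0` there is a `ξ` with `π ^ N0 ∣ ξ³ - x`
congruent to `ξ₀` (Hensel; or: a sequence of approximations has infinitely many terms close to one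
of `w^i ξ₀`, multiply them by `w^(-i)`). See `PTL/DC.lean: place_LC` which is this argument in the
rational case. Then `ASE s B ξ₀ = ASE s N ξ₀ + E ASE s Q ξ₀` and `ASE s Q ξ₀ = k ch Q`, `k` an integer,
is a character of `Q` modulo `f`.
(b) `3 ∤ V x`: then `π ∣ N`; `F6R`: `V n₀ = V N - V x` modulo `3`, so the value is a constant.
(c) `3 ∣ V x`, `ch x ≠ 0`: `0` by `F7U`. -/
def Stmt_DP1 : Prop := ∀ (N : ℕ) (b x p q p' q' : Eis), HypD N b x p q p' q' →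
  ∀ (π : PP) (f : ℕ), 1 < f → π.1 ∣ (f : Eis) →
    ∃ (C : ZMod 3) (Φ : (ZMod f)ˣ →* Multiplicative (ZMod 3)),
    ∀ (E Q : ℕ) (hQ : Q.Coprime f) (X Y : Eis), HypP N b x p q p' q' E Q X Y →
      SVE (tm π.1) x p (-p') (-q) q' X Y = C + E * (Φ (ZMod.unitOfCoprime Q hQ)).toAdd

/-- PTK_DP2: the same at `λ`.
Proof. Hypotheses you may use: `Stmt_IIA`, `Stmt_IF2`. By `IIA` for `SolE b x p (-p') (-q) q'` (`b` is a local
cube): for all good `r` (`λ ^ N0 ∣ r³ - b`), `SVE = R n₀` with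
`R a = sl a G_1 - sl a G_2 + sl w a - ASE sl a p (-p') (-q) q' r`; `R` is additive in `a`, `R x = 0` by `IF2`,
`R (c³) = 0`, so `R n₀ = R B = R N + E R Q`, and `R Q` depends only on `Q` modulo `9` (`SLC`: exponent
`4`, `λ⁴ ∣ 9`). The value is the same for all good `r`; fix `r₀` as in `DP1`. -/
def Stmt_DP2 : Prop := ∀ (N : ℕ) (b x p q p' q' : Eis), HypD N b x p q p' q' →
  ∀ f : ℕ, 1 < f → 9 ∣ f → ∃ (C : ZMod 3) (Φ : (ZMod f)ˣ →* Multiplicative (ZMod 3)),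
    ∀ (E Q : ℕ) (hQ : Q.Coprime f) (X Y : Eis), HypP N b x p q p' q' E Q X Y →
      SVE sl x p (-p') (-q) q' X Y = C + E * (Φ (ZMod.unitOfCoprime Q hQ)).toAdd

/-- PTK_DP3: the local terms vanish outside.
Proof. As `DP1`, (a), (c) (`π ∤ N`): `B`, `b`, `x` are prime to `π`. If `x` is a local cube, `SVE = ASE s B p q p' q' ξ`
for a good `ξ`; the `LfE` are prime to `π` because their product over `i = 0, 1, 2` is `p³ + x q³`, resp.
`p'³ + x q'³`, modulo `π`; so all symbols are `0`. -/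
def Stmt_DP3 : Prop := ∀ (N : ℕ) (b x p q p' q' : Eis), HypD N b x p q p' q' →
  ∀ (π : PP) (E Q : ℕ) (X Y : Eis), HypP N b x p q p' q' E Q X Y →
    ¬ π.1 ∣ (N : Eis) → ¬ π.1 ∣ (Q : Eis) →
    ¬ π.1 ∣ (p ^ 3 + x * q ^ 3) * (p' ^ 3 + x * q' ^ 3) →
    SVE (tm π.1) x p (-p') (-q) q' X Y = 0

/-- PTK_DP4: the local term at `Q`.
Proof. `V x = V b = 0`, `V B = E` at `π = Q`; `tm x B = 0`, `tm b B = 0` give `sym Q x = sym Q b = 0`: `x` and
`b` are local cubes (`LCI`). By `IF4` for a good `ξ'`: `SVE = ASE s B p q p' q' ξ'` (the terms with `b` vanish).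
The `LfE` are prime to `Q` (as in `DP3`), so `s B (LfE ..) = - E sym Q (LfE ..)` and the value is
`- E TAUE Q p q p' q' ξ'`. `ξ'³ = ξ³` modulo `Q`, so `ξ' = w^i ξ` modulo `Q` (`Q` is a prime of `Z[w]`, and
`∏ (ξ' - w^i ξ) = ξ'³ - ξ³`), and `TAUE` does not depend on `i`: with `l_i = p + q w^i ξ`, `l'_i` similar,
`∏ l_i = b ∏ l'_i` modulo `Q`, `sym Q b = 0`; `TAUE(ξ) = l_2 + l'_1 - l_1 - l'_2` (symbols),
`TAUE(w ξ) = l_0 + l'_2 - l_2 - l'_0`, difference `l_0 + l_1 - 2 l_2 - (l'_0 + l'_1 - 2 l'_2)`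
`= ∑ l_i - ∑ l'_i = 0` modulo `3`. -/
def Stmt_DP4 : Prop := ∀ (N : ℕ) (b x p q p' q' : Eis), HypD N b x p q p' q' →
  ∀ (π : PP) (E Q : ℕ) (X Y ξ : Eis), HypP N b x p q p' q' E Q X Y → Q % 3 = 2 →
    π.1 = (Q : Eis) → ¬ π.1 ∣ (N : Eis) →
    ¬ π.1 ∣ (p ^ 3 + x * q ^ 3) * (p' ^ 3 + x * q' ^ 3) → (Q : Eis) ∣ ξ ^ 3 - x →
    SVE (tm π.1) x p (-p') (-q) q' X Y = - (E * TAUE Q p q p' q' ξ)

/-- PTK_DCK: the relation for the Frobenius invariant of `Q`.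
Proof. Hypotheses: `Stmt_DP1`, …, `Stmt_DP4`, `Stmt_SVF` (for `SolE b x p (-p') (-q) q'`). Copy the structure of
the last part of `PT3/DCOT.lean: main`: `M` is a rational integer divisible by `N` and by
`(p³ + x q³)(p'³ + x q'³)` (times its conjugate); `f₀ = 9 |M|`; `C`, `Φ` are the sums, resp. products, of
those of the places dividing `M` and of `λ`. `DNE`: for `Q > N₀` the `D_i` do not vanish. Let
`(P, Q₁, P', Q₁') = (p, -p', -q, q')`, `D_i = X P' + w^i P Y`, `D'_i = X Q₁' + w^i Q₁ Y`. If `D_i = 0` then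
`(X P')³ = - (P Y)³`, and `P' ≠ 0`, `P ≠ 0` (otherwise both are `0`, against `n2` of the solution
`SolE b x P Q₁ P' Q₁'`: `P³ - x P'³ ≠ 0`), so `P'³ (X³ + x Y³) = - Y³ (P³ - x P'³)`, and with
`x (X³ + x Y³) = B c³`: `B (c P')³ = - x Y³ (P³ - x P'³)`. The valuation at `Q` of the left side is `E` modulo `3`,
that of the right side is `0` modulo `3` if `Q` does not divide `x (P³ - x P'³)`. The same for
`D'_i` with `x Q₁'³ - Q₁³` (`P³ - x P'³ = b (x Q₁'³ - Q₁³)`). -/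
def Stmt_DCK : Prop := ∀ (N : ℕ) (b x p q p' q' : Eis), HypD N b x p q p' q' →
  ∃ f₀ : ℕ, 0 < f₀ ∧ ∀ f : ℕ, 0 < f → f₀ ∣ f →
  ∃ (C : ZMod 3) (Φ : (ZMod f)ˣ →* Multiplicative (ZMod 3)) (N₀ : ℕ),
    ∀ (E Q : ℕ) (hQ : Q.Coprime f), (E = 1 ∨ E = 2) → Q.Prime → N₀ < Q → Q % 3 = 2 →
      (∀ σ : PP, tm σ.1 b ((N : Eis) * (Q : Eis) ^ E) = 0) →
      (∀ σ : PP, tm σ.1 x ((N : Eis) * (Q : Eis) ^ E) = 0) →
      ∀ X Y ξ : Eis, PtE ((N : Eis) * (Q : Eis) ^ E) x X Y → (Q : Eis) ∣ ξ ^ 3 - x →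
        C + E * ((Φ (ZMod.unitOfCoprime Q hQ)).toAdd - TAUE Q p q p' q' ξ) = 0

end Pool.Agent.PTK


end

section

/-!
# The average rank of prime twists: the norm theorem for `K(x^(1/3)) / K`, `K = Q(w)`

The statements are those of `PT/Stmts3.lean` with `x` in `Z[w]` in place of a rational integer, and
without complex conjugation on `L`. The proofs are those of the files `PT/N*.lean` (copy the file named in
the docstring; replace `ℤ` by `Eis`, `CubF` by `CubE`, `LC` by `LCE`, and remove `c`). General lemmas of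
those files (for example in the namespace `Pool.Agent.PT.NTR`, as far as they do not mention `CubF`) can be
imported. `HERBQ`, `SUN`, `KUM`, `NAUX` (PT/Stmts3.lean) are general and proved.
-/

set_option autoImplicit false

open NumberField IsDedekindDomain Finset
open scoped nonZeroDivisors Pointwise

namespace Pool.Agent.PTK

open Pool.Agent.Lib_helper18 Pool.Agent.Lib_helper18.Eis Pool.Agent.Lib_helper84.Cub
open Pool.Agent.PT

/-- The data of the field `L = K(x^(1/3))`. -/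
structure CubE (x : Eis) (L : Type) [Field L] [NumberField L] (ι : Eis →+* L) (θ : L)
    (σ : L ≃ₐ[ℚ] L) : Prop where
  inj : Function.Injective ι
  cube : θ ^ 3 = ι x
  sθ : σ θ = ι w * θ
  sι : ∀ a : Eis, σ (ι a) = ι a
  rep : ∀ z : L, ∃ (m : ℤ) (a b d : Eis), m ≠ 0 ∧ (m : L) * z = ι a + ι b * θ + ι d * θ ^ 2
  lin : ∀ a b d : Eis, ι a + ι b * θ + ι d * θ ^ 2 = 0 → a = 0 ∧ b = 0 ∧ d = 0

/-- PTK_NFL: existence of the field. Copy of `PT/NFLD.lean`. (Irreducibility of `T³ - x` over the fraction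
field of `Eis`: if `b³ = x` for a fraction `b = u / v` then `u³ = x v³`, so `v³ ∣ u³`, `v ∣ u`
(`Eis` is a principal ideal domain, `pow_dvd_pow_iff` for `GCDMonoid` or by valuations), so `x` is a
cube.) -/
def Stmt_NFL : Prop := ∀ x : Eis, x ≠ 0 → (¬ ∃ c : Eis, c ^ 3 = x) →
  ∃ (L : Type) (_ : Field L) (_ : NumberField L) (ι : Eis →+* L) (θ : L) (σ : L ≃ₐ[ℚ] L),
    CubE x L ι θ σ

/-- PTK_NRK: the unit rank. Copy of `PT/NRK.lean`. -/
def Stmt_NRK : Prop := ∀ (x : Eis) (L : Type) [Field L] [NumberField L] (ι : Eis →+* L) (θ : L)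
  (σ : L ≃ₐ[ℚ] L), CubE x L ι θ σ → NumberField.Units.rank L = 2

/-- PTK_NHN: Hilbert 90. Copy of `PT/NHN.lean`. -/
def Stmt_NHN : Prop := ∀ (x : Eis) (L : Type) [Field L] [NumberField L] (ι : Eis →+* L) (θ : L)
  (σ : L ≃ₐ[ℚ] L), x ≠ 0 → CubE x L ι θ σ →
  (∀ z : L, σ (σ (σ z)) = z) ∧
  (∀ z : L, σ z = z → ∃ a b : Eis, b ≠ 0 ∧ z * ι b = ι a) ∧
  ∀ u : Lˣ, ∏ i ∈ range 3, σ ^ i • u = 1 → ∃ v : Lˣ, u = v / σ • v

/-- PTK_NTR: the primes of `L` above the primes of `Z[w]`. Copy of `PT/NTR.lean` (most lemmas of the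
namespace `Pool.Agent.PT.NTR` are general and can be cited). The only use of `c` there is
`not_isUnit_io`; here: if `ι u z = 1` with `z` integral, `u = uni v`, then `z` is integral over `Eis` and in the
fraction field, so in `ι Eis` (`Eis` is integrally closed), and `u` would be a unit; or: the norm
`N_{L/ℚ}(z)` is an integer and `N(ι u) N(z) = 1`; `N(ι u) = ± (norm u)³`. -/
def Stmt_NTR : Prop := ∀ (x : Eis) (L : Type) [Field L] [NumberField L] (ι : Eis →+* L) (θ : L)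
  (σ : L ≃ₐ[ℚ] L), x ≠ 0 → ¬ lam ∣ x → CubE x L ι θ σ →
  (∀ (P : HeightOneSpectrum (𝓞 L)) (a : Eis), P.valuation L (ι a) ≤ 1) ∧
  (∀ P : HeightOneSpectrum (𝓞 L), ∃ v : Pl, P ∈ Abv ι v ∧
    ∀ a : Eis, P.valuation L (ι a) < 1 → uni v ∣ a) ∧
  (∀ P : HeightOneSpectrum (𝓞 L), ∃ P' : HeightOneSpectrum (𝓞 L),
    ∀ z : L, P'.valuation L (σ z) = P.valuation L z) ∧
  (∀ v : Pl, (Abv ι v).Finite ∧ (Abv ι v).Nonempty) ∧
  (∀ (v : Pl) (P P' : HeightOneSpectrum (𝓞 L)), P ∈ Abv ι v → P' ∈ Abv ι v →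
    ∃ i : ℕ, ∀ z : L, P'.valuation L ((σ ^ i) z) = P.valuation L z) ∧
  (∀ (π : PP) (P : HeightOneSpectrum (𝓞 L)), ¬ π.1 ∣ x → P ∈ Abv ι (some π) →
    P.valuation L (ι π.1) = WithZero.exp (-1 : ℤ))

open Classical in
/-- PTK_NCN: the number of primes above a place. Copy of `PT/NCNT.lean` (with `Stmt_LCI`, first and
second part, in `local_cube`). -/
def Stmt_NCN : Prop := ∀ (x : Eis) (L : Type) [Field L] [NumberField L] (ι : Eis →+* L) (θ : L)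
  (σ : L ≃ₐ[ℚ] L), x ≠ 0 → ¬ lam ∣ x → (∀ π : PP, V π.1 x ≤ 2) →
  CubE x L ι θ σ → ∀ v : Pl, Nat.card (Abv ι v) = if LCE (uni v) x then 3 else 1

/-- PTK_NFX: the fixed `S`-units. Copy of `PT/NFIX.lean`. -/
def Stmt_NFX : Prop := ∀ (x : Eis) (L : Type) [Field L] [NumberField L] (ι : Eis →+* L) (θ : L)
  (σ : L ≃ₐ[ℚ] L), x ≠ 0 → ¬ lam ∣ x → CubE x L ι θ σ → ∀ S : Finset Pl,
  (∀ (u : Lˣ) (a : Eis), (u : L) = ι a → (∀ v : Pl, uni v ∣ a → v ∈ S) → u ∈ SF ι σ S) ∧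
  (∀ u ∈ SF ι σ S, ∃ a b : Eis, a ≠ 0 ∧ b ≠ 0 ∧ (u : L) * ι b = ι a) ∧
  Module.finrank ℤ (Additive (SF ι σ S)) = S.card

/-- PTK_NHO: the first cohomology of the `S`-units. Copy of `PT/NHO.lean`. -/
def Stmt_NHO : Prop := ∀ (x : Eis) (L : Type) [Field L] [NumberField L] (ι : Eis →+* L) (θ : L)
  (σ : L ≃ₐ[ℚ] L), x ≠ 0 → ¬ lam ∣ x → CubE x L ι θ σ → ∀ S : Finset Pl,
  none ∈ S → (∀ π : PP, π.1 ∣ x → some π ∈ S) →
  (∀ u ∈ SU ι S, σ • u ∈ SU ι S) ∧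
  ∀ u ∈ SU ι S, ∏ i ∈ range 3, σ ^ i • u = 1 → ∃ v ∈ SU ι S, u = v / σ • v

/-- PTK_NNS: norms have trivial symbols with `x`. Copy of `PT/NNS.lean`. -/
def Stmt_NNS : Prop := ∀ (x : Eis) (L : Type) [Field L] [NumberField L] (ι : Eis →+* L) (θ : L)
  (σ : L ≃ₐ[ℚ] L), x ≠ 0 → CubE x L ι θ σ →
  ∀ (π : Eis) (s : Eis → Eis → ZMod 3) (e : ℕ), LSym π s e →
  ∀ (z : L) (a b : Eis), z ≠ 0 → a ≠ 0 → b ≠ 0 → z * σ z * σ (σ z) * ι b = ι a →
    s a x = s b x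

open Classical in
/-- PTK_NGN: a set of places and sufficiently many units with independent symbols. Copy of the part of
`PT/NGEN.lean` where `x` is a cube modulo `9` (here `x = ± 1` modulo `λ⁴`, so `LCE lam x` by `Stmt_LCI` with
`c = 1`, `a = ± 1`; `x` is primary up to sign: `Prim x`). -/
def Stmt_NGN : Prop := ∀ (x : Eis) (S₀ : Finset Pl), x ≠ 0 → lam ^ 4 ∣ x ^ 2 - 1 →
  (∀ π : PP, V π.1 x ≤ 2) → (¬ ∃ c : Eis, c ^ 3 = x) → none ∈ S₀ →
  (∀ π : PP, π.1 ∣ x → some π ∈ S₀) →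
  (∀ π : PP, some π ∈ S₀ → ¬ LCE π.1 x → π.1 ∣ x) →
  ∃ (S : Finset Pl) (e : ℕ) (d : Fin e → Eis), S₀ ⊆ S ∧ (∀ v ∈ S, v ∉ S₀ → LCE (uni v) x) ∧
    (S.filter fun v => ¬ LCE (uni v) x).card = e + 1 ∧
    (∀ i, d i ≠ 0) ∧ (∀ i (v : Pl), uni v ∣ d i → v ∈ S) ∧
    (∀ n m : Fin e → ℕ, ∏ i, d i ^ n i = ∏ i, d i ^ m i → n = m) ∧
    (∀ n : Fin e → ZMod 3, (∀ v : Pl, ∑ i, n i * sy v (d i) x = 0) → n = 0)

/-- PTK_NMN: the norm theorem for `L / K`. Copy of `PT/NMAIN.lean` (hypotheses: the `Stmt_N..` above,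
`HERBQ`, `SUN`). -/
def Stmt_NMN : Prop := ∀ (x : Eis) (L : Type) [Field L] [NumberField L] (ι : Eis →+* L) (θ : L)
  (σ : L ≃ₐ[ℚ] L), x ≠ 0 → lam ^ 4 ∣ x ^ 2 - 1 → (∀ π : PP, V π.1 x ≤ 2) →
  (¬ ∃ c : Eis, c ^ 3 = x) → CubE x L ι θ σ →
  ∀ y : Eis, y ≠ 0 → (∀ π : PP, tm π.1 x y = 0) →
    (∀ π : PP, π.1 ∣ y → ¬ LCE π.1 x → π.1 ∣ x) →
    ∃ z : L, z ≠ 0 ∧ z * σ z * σ (σ z) = ι y

/-- PTK_NDS: the solution as a quotient of linear forms. As the end of `PT/NDESC.lean`, directly over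
`Eis` (no descent): `m z = ι a + ι b θ + ι d θ²`; choose `(γ, δ) ≠ (0, 0)` in `Eis` with `b δ + d γ = 0`; then
`m z (γ + δ θ) = (a γ + d δ x) + (a δ + b γ) θ`, take norms:
`m³ y (γ³ + x δ³) = (a γ + d δ x)³ + x (a δ + b γ)³`. So `p = a γ + d δ x`, `q = a δ + b γ`,
`p' = m γ`, `q' = m δ`. -/
def Stmt_NDS : Prop := ∀ (x : Eis) (L : Type) [Field L] [NumberField L] (ι : Eis →+* L) (θ : L)
  (σ : L ≃ₐ[ℚ] L), x ≠ 0 → CubE x L ι θ σ → ∀ (y : Eis) (z : L), y ≠ 0 → z ≠ 0 →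
    z * σ z * σ (σ z) = ι y → ∃ p q p' q' : Eis, SolWE x y p q p' q'

/-- PTK_HNE: the Hasse norm theorem used in the sequel. `NFL`, `NMN`, `NDS`. For the additional
conditions of `SolE`: `n2`: if `p³ = y p'³` then `p' = 0` (otherwise `y` is a cube: `p'³ ∣ p³`), `p = 0`, so
`x q³ = x y q'³` and `y` would be a cube again (`q' ≠ 0` by `n1`). `g1`, `g2`: if `q p' = w^i p q'`: if `p' ≠ 0` and
`q' ≠ 0` then `p = t p'`, `w^i q = …`: `q³ p'³ = p³ q'³` and so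
`p³ + x q³ = (p / p')³ (p'³ + x q'³)`, i.e. `y p'³ = p³`, against `n2`; `p' = 0` implies `p q' = 0`, `q' ≠ 0`, `p = 0`,
against `n2`; `q' = 0` implies `q p' = 0`, `p' ≠ 0`, `q = 0`, and `p³ = y p'³`. -/
def Stmt_HNE : Prop := ∀ x y : Eis, x ≠ 0 → lam ^ 4 ∣ x ^ 2 - 1 → (¬ ∃ c : Eis, c ^ 3 = x) →
  (∀ π : PP, V π.1 x ≤ 2) → y ≠ 0 → (¬ ∃ c : Eis, c ^ 3 = y) → (∀ π : PP, tm π.1 x y = 0) →
  (∀ π : PP, π.1 ∣ y → ¬ LCE π.1 x → π.1 ∣ x) →
  ∃ p q p' q' : Eis, SolE x y p q p' q'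

end Pool.Agent.PTK


end

section

/-!
# The average rank of prime twists: the governing field over `K = Q(w)`

The base class `x` and the norms `b j` (`j : Fin s`) are elements of `Z[w]`. The statements are variants of
those of `PT/Stmts4.lean`; only the pairs `(x, b j)` occur. `ι : Eis →+* L` is the embedding of `Z[w]`
into the governing field `L`.
-/

set_option autoImplicit false

open NumberField IsDedekindDomain Finset
open scoped nonZeroDivisors Pointwise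

namespace Pool.Agent.PTK

open Pool.Agent.Lib_helper18 Pool.Agent.Lib_helper18.Eis Pool.Agent.Lib_helper84.Cub
open Pool.Agent.PT Pool.Agent.PTL

/-- the numerator of `α` -/
def aNE {L : Type} [Field L] (ι : Eis →+* L) (p q p' q' : Eis) (ρ : L) : L :=
  (ι p + ι q * ι w ^ 2 * ρ) * (ι p' + ι q' * ι w * ρ)

/-- the denominator of `α` -/
def aDE {L : Type} [Field L] (ι : Eis →+* L) (p q p' q' : Eis) (ρ : L) : L :=
  (ι p + ι q * ι w * ρ) * (ι p' + ι q' * ι w ^ 2 * ρ)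

/-- A system: base class `x`, norms `b j`; all classes satisfy `z * conj z = t³` (then complex conjugation
acts trivially on the Galois group of `K(x^(1/3), b_j^(1/3)) / K`). -/
structure SysK {s : ℕ} (x : Eis) (b p q p' q' : Fin s → Eis) : Prop where
  ind : ∀ (c₀ : ℕ) (c : Fin s → ℕ), (¬ 3 ∣ c₀ ∨ ∃ i, ¬ 3 ∣ c i) →
    ¬ ∃ t : Eis, t ^ 3 = x ^ c₀ * ∏ i, b i ^ c i
  sol : ∀ j, SolE x (b j) (p j) (q j) (p' j) (q' j)
  cx : ∃ t : Eis, x * conj x = t ^ 3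
  cb : ∀ j, ∃ t : Eis, b j * conj (b j) = t ^ 3

/-- The governing field. -/
structure GovK {s : ℕ} (x : Eis) (b p q p' q' : Fin s → Eis) (f : ℕ)
    (L : Type) [Field L] [NumberField L] (ζ : L) (ι : Eis →+* L) : Prop where
  gal : IsGalois ℚ L
  prim : IsPrimitiveRoot ζ f
  nine : 9 ∣ f
  hω : ι w = ζ ^ (f / 3)
  rx : ∃ θ : L, θ ^ 3 = ι x
  rb : ∀ j, ∃ θ : L, θ ^ 3 = ι (b j)
  A : ∀ (j : Fin s) (ρ : L), ρ ^ 3 = ι x → ∃ A : L,
    A ^ 3 * aDE ι (p j) (q j) (p' j) (q' j) ρ = aNE ι (p j) (q j) (p' j) (q' j) ρ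
  D : ∀ (j : Fin s) (ρ : L), ρ ^ 3 = ι x →
    aDE ι (p j) (q j) (p' j) (q' j) ρ ≠ 0 ∧ aNE ι (p j) (q j) (p' j) (q' j) ρ ≠ 0

/-- PTK_GZK: existence of the governing field. As `PT/GZERO.lean` (`GZERO.exists_field`). `ι` is
`GFR.lift (ζ ^ (f / 3)) rel` (`PT/GFR.lean`: `lift z hz : Eis →+* S` maps `w` to `z`), and the embedding of `L`
into the algebraic closure is compatible with it. -/
def Stmt_GZK : Prop := ∀ (s : ℕ) (x : Eis) (b p q p' q' : Fin s → Eis) (f : ℕ),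
  SysK x b p q p' q' → 0 < f → 9 ∣ f →
  ∃ (L : Type) (_ : Field L) (_ : NumberField L) (ζ : L) (ι : Eis →+* L),
    GovK x b p q p' q' f L ζ ι

/-- `g²` fixes the cube roots of `x` and of the `b j`. -/
def FxK {s : ℕ} (x : Eis) (b : Fin s → Eis) {L : Type} [Field L] [NumberField L] (ι : Eis →+* L)
    (g : L ≃ₐ[ℚ] L) : Prop :=
  (∀ ρ : L, ρ ^ 3 = ι x → g (g ρ) = ρ) ∧ ∀ (j : Fin s) (ρ : L), ρ ^ 3 = ι (b j) → g (g ρ) = ρ

/-- The relation between `g` and `t = t_j(g)`: `g² A = ω^t A` for all `A` with `A³ = α_j(ρ)`, `ρ³ = x`. -/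
def IsTK {s : ℕ} (x : Eis) (p q p' q' : Fin s → Eis) {L : Type} [Field L]
    [NumberField L] (ι : Eis →+* L) (g : L ≃ₐ[ℚ] L) (j : Fin s) (t : ZMod 3) : Prop :=
  ∀ ρ A : L, ρ ^ 3 = ι x →
    A ^ 3 * aDE ι (p j) (q j) (p' j) (q' j) ρ = aNE ι (p j) (q j) (p' j) (q' j) ρ →
    g (g A) = ι w ^ t.val * A

/-- PTK_GTK: existence, uniqueness and properties of `t`.
Proof (see `PT/GT.lean`, `PT/GC.lean` for similar computations). Put `ω = ι w`, `h = g²`: `h` fixes `ω`, so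
`h (ι a) = ι a` (`ι a = re + im ω`). (1) For one pair `(ρ, A)`: `h` fixes `α(ρ)`, so `h A = ω^t A`, `A ≠ 0`; the
same `t` for `ω^i A`. For `ω ρ`: by the computation of `GC.movA` a cube root `A'` of `α(ω ρ)` satisfies
`A' (p + q ω² ρ) = ω^e A θ (p' + q' ω² ρ)` with `θ³ = b_j` (coefficients through `ι`; the norm relation
`∏ (p + q ω^i ρ) = b_j ∏ (p' + q' ω^i ρ)`, `SolE.eq`), and `h θ = θ`, `h ρ = ρ`; so `h A' = ω^t A'`. Uniqueness: there
is a root `ρ` (`rx`) and an `A`; `ω^t A = ω^t' A` implies `t = t'`. (2) Let `τ ω = ω` first: for a pair `(ρ, A)`,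
`(τ⁻¹ ρ, τ⁻¹ A)` is a pair, so `(τ g τ⁻¹)² A = τ (h (τ⁻¹ A)) = ω^t A`, and in the same way for the roots. If
`τ ω = ω²` (the only other case) then `τ = τ' g` with `τ' = τ g⁻¹`, `τ' ω = ω`, and `τ g τ⁻¹ = τ' g τ'⁻¹`.
(3) `(g^k)² = h^k`, and `g^k ω = ω²` for odd `k`. -/
def Stmt_GTK : Prop := ∀ (s : ℕ) (x : Eis) (b p q p' q' : Fin s → Eis) (f : ℕ)
  (L : Type) [Field L] [NumberField L] (ζ : L) (ι : Eis →+* L), SysK x b p q p' q' →
  GovK x b p q p' q' f L ζ ι →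
  ∀ j,
  (∀ g : L ≃ₐ[ℚ] L, g (ι w) = ι w ^ 2 → FxK x b ι g → ∃! t : ZMod 3, IsTK x p q p' q' ι g j t) ∧
  (∀ (g τ : L ≃ₐ[ℚ] L) (t : ZMod 3), g (ι w) = ι w ^ 2 → FxK x b ι g →
    IsTK x p q p' q' ι g j t →
    FxK x b ι (τ * g * τ⁻¹) ∧ IsTK x p q p' q' ι (τ * g * τ⁻¹) j t) ∧
  (∀ (g : L ≃ₐ[ℚ] L) (t : ZMod 3) (k : ℕ), g (ι w) = ι w ^ 2 → FxK x b ι g → Odd k →
    IsTK x p q p' q' ι g j t → FxK x b ι (g ^ k) ∧ IsTK x p q p' q' ι (g ^ k) j (k * t))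

/-- PTK_GKK: Kummer theory over `K`.
Proof. `KUM` (PT/Stmts3.lean, `KUM_thm`) for `F = IntermediateField.adjoin ℚ {ι w}` (all of it is
`{ι a / m}`), `L / F` Galois. Independence: if `∏ (ι x)^.. ∏ (ι (b i))^.. = β³` with `β ∈ F` then
`β = ι u / ι v` (`u, v ∈ Eis`, `v ≠ 0`), so `u³ = v³ x^.. ∏ b_i^..`, `v ∣ u` and the product is the cube of an
element of `Eis`, against `SysK.ind`. -/
def Stmt_GKK : Prop := ∀ (s : ℕ) (x : Eis) (b p q p' q' : Fin s → Eis) (f : ℕ)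
  (L : Type) [Field L] [NumberField L] (ζ : L) (ι : Eis →+* L), SysK x b p q p' q' →
  GovK x b p q p' q' f L ζ ι →
  ∀ (a₀ : ZMod 3) (a : Fin s → ZMod 3), ∃ g : L ≃ₐ[ℚ] L, g (ι w) = ι w ∧
    (∀ ρ : L, ρ ^ 3 = ι x → g ρ = ι w ^ a₀.val * ρ) ∧
    ∀ (j : Fin s) (ρ : L), ρ ^ 3 = ι (b j) → g ρ = ι w ^ (a j).val * ρ

/-- PTK_GCK: the commutators.
Proof. Hypothesis `Stmt_GKK`. Put `ω = ι w`. Lemma (from `GC.mv`, `GC.fx`, `GC.comm_apply` in PT/GC.lean; the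
coefficients are now `ι p`, … instead of integers): let `σ, τ` fix `ω`, `σ ρ = ω ρ` for the roots of `x`, `σ θ = θ` for the
roots of all `b i`, `τ ρ = ρ` for the roots of `x`, `τ θ = ω^(a i) θ` for the roots of `b i`. Then for every pair
`(ρ, A)` for `j`: `τ (σ A) = ω^(a j) σ (τ A)`, so `(σ τ)⁻¹ (τ σ) A = ω^(a j) A`. Given `v`, take `σ`, `τ` from `GKK` with
`a = v`, and `z = (σ τ)⁻¹ (τ σ)`. `z` fixes the roots (both `σ` and `τ` act on them by constants), and `z ζ = ζ`: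
`σ ζ` and `τ ζ` are powers of `ζ`, so they commute on `ζ`. Last clause: let `g ω = ω²`. Put `σ' = g⁻¹ σ g`,
`τ' = g⁻¹ τ g`, `z' = g⁻¹ z g = (σ' τ')⁻¹ (τ' σ')`. `σ'` acts on the roots as `σ`: for `ρ³ = ι x`: `(g ρ)³ = g (ι x) =
ι (conj x)` (`ι a = re + im ω`, `conj`: `w ↦ w²`), and `x conj x = t³`, so `g ρ = ω^k ι t / ρ`, `σ (g ρ) = ω^k ι t / (ω ρ) =
ω⁻¹ (g ρ)`, `g⁻¹ (ω⁻¹ g ρ) = ω ρ` (`g⁻¹ ω⁻¹ = ω`); in the same way for `θ³ = ι (b i)`: `σ' θ = θ`; and for `τ'`. So by the lemma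
`z' A = ω^(v j) A`, and `z (g A) = g (z' A) = g (ω^(v j) A) = ω^(- v j) g A`. -/
def Stmt_GCK : Prop := ∀ (s : ℕ) (x : Eis) (b p q p' q' : Fin s → Eis) (f : ℕ)
  (L : Type) [Field L] [NumberField L] (ζ : L) (ι : Eis →+* L), SysK x b p q p' q' →
  GovK x b p q p' q' f L ζ ι →
  ∀ v : Fin s → ZMod 3, ∃ z : L ≃ₐ[ℚ] L, z ζ = ζ ∧ (∀ ρ : L, ρ ^ 3 = ι x → z ρ = ρ) ∧
    (∀ (j : Fin s) (ρ : L), ρ ^ 3 = ι (b j) → z ρ = ρ) ∧
    ∀ (j : Fin s) (ρ A : L), ρ ^ 3 = ι x →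
      A ^ 3 * aDE ι (p j) (q j) (p' j) (q' j) ρ = aNE ι (p j) (q j) (p' j) (q' j) ρ →
      z A = ι w ^ (v j).val * A ∧
      ∀ g : L ≃ₐ[ℚ] L, g (ι w) = ι w ^ 2 → z (g A) = ι w ^ (- v j).val * g A

/-- PTK_GFK: Frobenius elements and `t`.
Proof. As `PT/GFR.lean` (`GFR.exists_frob_gen` gives the first part). Let `Q = 2 (mod 3)`, `φ` a Frobenius
element for `P`, `κ = 𝓞 L / P`, `z` the image of `ω`. `φ ω = ω²` as in GFR. `h = φ²`: `mk (h y) = (mk y) ^ (Q²)` for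
`y ∈ 𝓞 L`. The homomorphism `Eis → κ`, `a ↦ mk (ι a)`, has kernel `(Q)` (`Q` is a prime of `Eis` and `κ` is a
field), and `sym (Q : Eis) a` is characterised by `a ^ ((Q² - 1) / 3) = w ^ (sym Q a)` modulo `Q` for `Q ∤ a`
(library of helper18; see how GFR uses it). (a) Let `ρ³ = ι x`, `sym Q x = 0`, `Q` large (`Q ∤ x`):
`mk (h ρ) = (mk ρ) ^ (Q²) = mk ρ · (mk (ι x)) ^ ((Q² - 1) / 3) = mk ρ`, and `h ρ = ω^i ρ`, so `ω^i = 1` in `κ`, `i = 0`. The
same for `b j`. (b) Let `Q ∣ r³ - x`. The roots of `T³ = x` in `κ` are the images of `ω^i ρ`; so there is a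
root `ρ` with `mk ρ = mk (ι r)`. For `A` with `A³ aD = aN`: `y = A aD` is integral, `y³ = aN aD²`, `h y = ω^t y` (`h` fixes
`aD`, since `h` fixes `ρ` and `ι a`) and `mk (h y) = (mk y)^(Q²) = mk y · (mk (aN aD²)) ^ ((Q² - 1) / 3)`, and
`mk (aN aD²)` is the image of `(LfE p q 2 r) (LfE p' q' 1 r) ((LfE p q 1 r) (LfE p' q' 2 r))²`, prime to `Q` for large `Q`
(the product of the `LfE p q i r`, `i = 0, 1, 2`, is `p³ + x q³` modulo `Q`). So `ω^t = ω^(TAUE)` in `κ`. -/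
def Stmt_GFK : Prop := ∀ (s : ℕ) (x : Eis) (b p q p' q' : Fin s → Eis) (f : ℕ)
  (L : Type) [Field L] [NumberField L] (ζ : L) (ι : Eis →+* L), SysK x b p q p' q' →
  GovK x b p q p' q' f L ζ ι →
  ∃ N₀ : ℕ, ∀ Q : ℕ, Q.Prime → N₀ < Q → ∀ (P : Ideal (𝓞 L)), P.IsPrime → (Q : 𝓞 L) ∈ P →
    (∀ g : L ≃ₐ[ℚ] L, MulAction.stabilizer (L ≃ₐ[ℚ] L) P = Subgroup.zpowers g →
      ∃ k : ℕ, k.Coprime (orderOf g) ∧ IsArithFrobAt ℤ (g ^ k) P) ∧
    ∀ φ : L ≃ₐ[ℚ] L, IsArithFrobAt ℤ φ P → Q % 3 = 2 → φ (ι w) = ι w ^ 2 ∧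
      (sym (Q : Eis) x = 0 → (∀ j, sym (Q : Eis) (b j) = 0) → FxK x b ι φ ∧
        ∀ (j : Fin s) (r : Eis) (t : ZMod 3), (Q : Eis) ∣ r ^ 3 - x →
          IsTK x p q p' q' ι φ j t → t = TAUE Q (p j) (q j) (p' j) (q' j) r)

/-- PTK_GAK: summary of the governing field.
Proof. As `PT/GALD.lean`, with `GZK`, `GTK`, `GCK`, `GFK`, `GCHI`. `F g : g (ι w) = ι w ^ 2 ∧ FxK x b ι g` (if `M2 (χ g)`
then `g (ι w) = ι w ^ 2`, as in GALD), `t g j` the number of `GTK` if `F g`, `0` otherwise. Equidistribution: let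
`z` be from `GCK` for the vector `2 (v' - v) = -(v' - v)`; `g ↦ g z` is a bijection of the first set onto the second one:
`χ (g z) = χ g` (`z ζ = ζ`), `F (g z)`: on roots `ρ`: `(g z)² ρ = g z g ρ`, and `g ρ = ω^k ι t / ρ` (see `GCK`) is fixed by `z`
(or: `g ρ` is a root of `conj x`, which is a quotient), so it is `g² ρ`. `(g z)² A = g (z (g (z A)))`, with `z A = ω^u A`:
`g (z A) = ω^(-u) g A`, `z (ω^(-u) g A) = ω^(-u) ω^(-u) g A`, `g` of it is `ω^(2u) g² A = ω^(2u + t) A`. So `t (g z) = t g + 2 u`. -/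
def Stmt_GAK : Prop := ∀ (s : ℕ) (x : Eis) (b p q p' q' : Fin s → Eis) (f : ℕ),
  SysK x b p q p' q' → 0 < f → 9 ∣ f →
  ∃ (L : Type) (_ : Field L) (_ : NumberField L) (_ : IsGalois ℚ L)
    (χ : (L ≃ₐ[ℚ] L) →* (ZMod f)ˣ) (F : (L ≃ₐ[ℚ] L) → Prop)
    (t : (L ≃ₐ[ℚ] L) → Fin s → ZMod 3) (N₀ : ℕ),
    Function.Surjective χ ∧
    (∀ g τ : L ≃ₐ[ℚ] L, M2 (χ g) → F g → F (τ * g * τ⁻¹) ∧ t (τ * g * τ⁻¹) = t g) ∧
    (∀ (g : L ≃ₐ[ℚ] L) (k : ℕ), M2 (χ g) → F g → Odd k → F (g ^ k) ∧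
      t (g ^ k) = (k : ZMod 3) • t g) ∧
    (∀ (a : (ZMod f)ˣ) (v v' : Fin s → ZMod 3), M2 a →
      Nat.card {g : L ≃ₐ[ℚ] L // χ g = a ∧ F g ∧ t g = v} =
        Nat.card {g : L ≃ₐ[ℚ] L // χ g = a ∧ F g ∧ t g = v'}) ∧
    ∀ (Q : ℕ) (hQ : Q.Coprime f), Q.Prime → N₀ < Q → ∀ (P : Ideal (𝓞 L)) (g : L ≃ₐ[ℚ] L),
      P.IsPrime → (Q : 𝓞 L) ∈ P →
      MulAction.stabilizer (L ≃ₐ[ℚ] L) P = Subgroup.zpowers g →
      ∃ k : ℕ, k.Coprime (orderOf g) ∧ χ (g ^ k) = ZMod.unitOfCoprime Q hQ ∧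
        (Q % 3 = 2 → sym (Q : Eis) x = 0 → (∀ j, sym (Q : Eis) (b j) = 0) → F (g ^ k) ∧
          ∀ (j : Fin s) (r : Eis), (Q : Eis) ∣ r ^ 3 - x →
            t (g ^ k) j = TAUE Q (p j) (q j) (p' j) (q' j) r)

/-! ### Densities -/

/-- PTK_DNS: upper bound for the density of a set of primes whose Frobenius elements are in a
subset stable under passing to another generator of a conjugate cyclic subgroup.
Proof. This is the proof of `BD.dens` in PTL/BD.lean (read it) in an abstract form: the complement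
`InU g ∧ ¬ B g`, `InU g : M2 (χ g) ∧ (κ (χ g) = c ∨ κ (χ g) = -c)` (`BD.InU` or `BDENS.InU`), is stable too (two
generators of the same cyclic group: `χ h = χ g ^ k` with `k` odd and prime to `3`… as in `BDENS.stable`), the
lower bound `RI.FROBD_thm` for it, and `DIR` for the residue classes of `InU`. -/
def Stmt_DNS : Prop := ∀ (f m : ℕ) (κ : (ZMod f)ˣ →* Multiplicative (Fin (m + 1) → ZMod 3))
  (c : Fin (m + 1) → ZMod 3) (L : Type) [Field L] [NumberField L] [IsGalois ℚ L]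
  (χ : (L ≃ₐ[ℚ] L) →* (ZMod f)ˣ) (B : (L ≃ₐ[ℚ] L) → Prop) (S : Set ℕ) (N₀ : ℕ),
  0 < f → 9 ∣ f → Function.Surjective χ →
  (∀ g h τ : L ≃ₐ[ℚ] L, B g → Subgroup.zpowers h = Subgroup.zpowers (τ * g * τ⁻¹) → B h) →
  (∀ g, B g → M2 (χ g) ∧ ((κ (χ g)).toAdd = c ∨ (κ (χ g)).toAdd = -c)) →
  (∀ (Q : ℕ) (hQ : Q.Coprime f), Q.Prime → N₀ < Q → ∀ (P : Ideal (𝓞 L)) (g : L ≃ₐ[ℚ] L),
    P.IsPrime → (Q : 𝓞 L) ∈ P → MulAction.stabilizer (L ≃ₐ[ℚ] L) P = Subgroup.zpowers g →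
    (∃ k : ℕ, k.Coprime (orderOf g) ∧ χ (g ^ k) = ZMod.unitOfCoprime Q hQ) ∧ (Q ∈ S → B g)) →
  (∀ (Q : ℕ) (hQ : Q.Coprime f), Q.Prime → N₀ < Q → Q ∈ S → Q % 3 = 2 ∧
    ((κ (ZMod.unitOfCoprime Q hQ)).toAdd = c ∨ (κ (ZMod.unitOfCoprime Q hQ)).toAdd = -c)) →
  ∃ K : ℝ, ∀ σ : ℝ, 1 < σ → σ ≤ 2 → BDENS.sm S σ ≤
    (Nat.card {g : L ≃ₐ[ℚ] L // B g} : ℝ) / Nat.card (L ≃ₐ[ℚ] L) * Real.log (1 / (σ - 1)) + K

/-- the primes `Q` with prescribed `TAUE`, exponent `1`, class `c` -/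
def SPK {s f m : ℕ} (x : Eis) (b p q p' q' : Fin s → Eis)
    (κ : (ZMod f)ˣ →* Multiplicative (Fin (m + 1) → ZMod 3)) (c : Fin (m + 1) → ZMod 3)
    (C : Fin s → ZMod 3) (Φ : (ZMod f)ˣ →* Multiplicative (Fin s → ZMod 3)) : Set ℕ :=
  {Q : ℕ | ∃ hQ : Q.Coprime f, Q % 3 = 2 ∧ (κ (ZMod.unitOfCoprime Q hQ)).toAdd = c ∧
    sym (Q : Eis) x = 0 ∧ (∀ j, sym (Q : Eis) (b j) = 0) ∧
    ∀ (j : Fin s) (r : Eis), (Q : Eis) ∣ r ^ 3 - x →
      TAUE Q (p j) (q j) (p' j) (q' j) r = C j + (Φ (ZMod.unitOfCoprime Q hQ)).toAdd j}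

/-- the primes `Q` with prescribed `TAUE`, exponent `2`, class `-c` -/
def SMK {s f m : ℕ} (x : Eis) (b p q p' q' : Fin s → Eis)
    (κ : (ZMod f)ˣ →* Multiplicative (Fin (m + 1) → ZMod 3)) (c : Fin (m + 1) → ZMod 3)
    (C : Fin s → ZMod 3) (Φ : (ZMod f)ˣ →* Multiplicative (Fin s → ZMod 3)) : Set ℕ :=
  {Q : ℕ | ∃ hQ : Q.Coprime f, Q % 3 = 2 ∧ (κ (ZMod.unitOfCoprime Q hQ)).toAdd = -c ∧
    sym (Q : Eis) x = 0 ∧ (∀ j, sym (Q : Eis) (b j) = 0) ∧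
    ∀ (j : Fin s) (r : Eis), (Q : Eis) ∣ r ^ 3 - x →
      TAUE Q (p j) (q j) (p' j) (q' j) r = - C j + (Φ (ZMod.unitOfCoprime Q hQ)).toAdd j}

/-- PTK_BDK: the bound for the density, both exponents together.
Proof. As `BDE_thm` (PTL/BD.lean, read it), with `GAK`, `DNS`. A root `r` of `r³ = x` modulo `Q` exists
because `sym Q x = 0` (`Q ∤ x` for large `Q`; `LCI`-like: an element of the field `Eis / Q` with trivial symbol
is a cube; `Stmt_LCI`, first part, and the prime `π : PP` with `π.1 = Q`, `SPP`).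
`XP g : M2 (χ g) ∧ F g ∧ κ (χ g) = c ∧ t g = C + Φ (χ g)`, `XM g : M2 (χ g) ∧ F g ∧ κ (χ g) = -c ∧
t g = - C + Φ (χ g)`. If `h = g' ^ k`, `g' = τ g τ⁻¹`, `k` odd and prime to `3` (two generators of a cyclic group whose
order is divisible by `2` and, if necessary, made prime to `3`; see `BDENS.exists_pow`) then for
`k = 1 (mod 3)`, `XP` and `XM` are preserved, for `k = 2 (mod 3)` they are exchanged (`t (g'^k) = k t`,
`Φ (χ g' ^ k) = k Φ`, `κ` the same): so `XP ∨ XM` and `XP ∧ XM` are stable. `F` is preserved (`GAK`; and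
`F h → F g'` as `g'` is a power of `h`). Counting: for every unit `a` with `M2 a` the sets
`{g // χ g = a ∧ F g ∧ t g = v}` have the same size for all `3^s` vectors `v`, so
`3^s #{g // χ g = a ∧ F g ∧ t g = v} ≤ #{g // χ g = a} = #G / φ(f)`; sum over the
`φ(f) / (2 · 3^(m+1))` units `a` with `M2 a`, `κ a = c`: `3^s · 2 · 3^(m+1) #XP ≤ #G`, the same for `XM`. `DNS` for
`S = SPK ∪ SMK`, `B = XP ∨ XM` and `S = SPK ∩ SMK`, `B = XP ∧ XM`; `BD.sm_union_inter`, `BD.card_incl`: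
the sum is at most `(2 / (3^s · 2 · 3^(m+1))) log + K`. -/
def Stmt_BDK : Prop := ∀ (s : ℕ) (x : Eis) (b p q p' q' : Fin s → Eis) (f m : ℕ)
  (κ : (ZMod f)ˣ →* Multiplicative (Fin (m + 1) → ZMod 3)) (c : Fin (m + 1) → ZMod 3)
  (C : Fin s → ZMod 3) (Φ : (ZMod f)ˣ →* Multiplicative (Fin s → ZMod 3)),
  SysK x b p q p' q' → 0 < f → 9 ∣ f →
  (∀ c : Fin (m + 1) → ZMod 3,
    Nat.card {a : (ZMod f)ˣ // M2 a ∧ (κ a).toAdd = c} * (2 * 3 ^ (m + 1)) = f.totient) →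
  ∃ K : ℝ, ∀ σ : ℝ, 1 < σ → σ ≤ 2 →
    BDENS.sm (SPK x b p q p' q' κ c C Φ) σ + BDENS.sm (SMK x b p q p' q' κ c C Φ) σ ≤
      1 / 3 ^ s / 3 ^ (m + 1) * Real.log (1 / (σ - 1)) + K

end Pool.Agent.PTK


end

section

/-!
# IF4: the local term of a point over `K` when `x` is a local cube
-/

set_option autoImplicit false

namespace Pool.Agent.PTK

open Pool.Agent.Lib_helper18 Pool.Agent.Lib_helper18.Eis Pool.Agent.Lib_helper84.Cub
open Pool.Agent.PT Pool.Agent.PT.IF4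

theorem IF4_thm (hSTAR : STAR) : Stmt_IF4 := by
  intro π s e hs b x p q p' q' X Y cb cx hsol hX hY cn0 hD
  have hN12 : p ^ 3 - x * p' ^ 3 = b * (x * q' ^ 3 - q ^ 3) := by linear_combination hsol.eq
  have cN1 : p ^ 3 - x * p' ^ 3 ≠ 0 := hsol.n2
  have cN2 : x * q' ^ 3 - q ^ 3 ≠ 0 := by
    intro h
    rw [h, mul_zero] at hN12
    exact cN1 hN12
  refine ⟨V π (X ^ 3 + x * Y ^ 3) + V π (p ^ 3 - x * p' ^ 3) +
    V π (x * q' ^ 3 - q ^ 3) + V π x + e + 1, ?_⟩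
  intro ξ hξ
  set N : ℕ := V π (X ^ 3 + x * Y ^ 3) + V π (p ^ 3 - x * p' ^ 3) +
    V π (x * q' ^ 3 - q ^ 3) + V π x + e + 1 with hN
  have hξ0 : ξ ≠ 0 := by
    intro h
    have := (approx hs cx (N := N) (by omega) hξ).1
    apply this
    rw [h]
    ring
  -- the products
  have eF : LfE X Y 0 ξ * LfE X Y 1 ξ * LfE X Y 2 ξ = X ^ 3 + (ξ * Y) ^ 3 := by
    rw [← prod3]
    simp only [LfE]
    ring
  have eG : LfE p (-p') 0 ξ * LfE p (-p') 1 ξ * LfE p (-p') 2 ξ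
      = p ^ 3 + (ξ * (-p')) ^ 3 := by
    rw [← prod3]
    simp only [LfE]
    ring
  have eG' : LfE (-q) q' 0 ξ * LfE (-q) q' 1 ξ * LfE (-q) q' 2 ξ
      = (-q) ^ 3 + (ξ * q') ^ 3 := by
    rw [← prod3]
    simp only [LfE]
    ring
  obtain ⟨hF0, hF⟩ := approx hs cn0 (a' := X ^ 3 + (ξ * Y) ^ 3) (N := N)
    (by omega) (by
      have e1 : X ^ 3 + (ξ * Y) ^ 3 - (X ^ 3 + x * Y ^ 3)
          = (ξ ^ 3 - x) * Y ^ 3 := by ring
      rw [e1]
      exact Dvd.dvd.mul_right hξ _)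
  obtain ⟨hG0, hG⟩ := approx hs cN1 (a' := p ^ 3 + (ξ * (-p')) ^ 3) (N := N)
    (by omega) (by
      have e1 : p ^ 3 + (ξ * (-p')) ^ 3 - (p ^ 3 - x * p' ^ 3)
          = (ξ ^ 3 - x) * (-p' ^ 3) := by ring
      rw [e1]
      exact Dvd.dvd.mul_right hξ _)
  obtain ⟨hG0', hG'⟩ := approx hs cN2 (a' := (-q) ^ 3 + (ξ * q') ^ 3) (N := N)
    (by omega) (by
      have e1 : (-q) ^ 3 + (ξ * q') ^ 3 - (x * q' ^ 3 - q ^ 3)
          = (ξ ^ 3 - x) * (q' ^ 3) := by ring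
      rw [e1]
      exact Dvd.dvd.mul_right hξ _)
  have nF : ∀ i, LfE X Y i ξ ≠ 0 := by
    intro i
    have := lin_ne _ _ hF0 i
    intro h
    apply this
    rw [← h]
    simp only [LfE]
    ring
  have nG : ∀ i, LfE p (-p') i ξ ≠ 0 := by
    intro i
    have := lin_ne _ _ hG0 i
    intro h
    apply this
    rw [← h]
    simp only [LfE]
    ring
  have nG' : ∀ i, LfE (-q) q' i ξ ≠ 0 := by
    intro i
    have := lin_ne _ _ hG0' i
    intro h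
    apply this
    rw [← h]
    simp only [LfE]
    ring
  obtain ⟨nD1, nD2, nD1', nD2'⟩ := hD
  have S1 := (hSTAR π s e hs X Y p (-p') ξ (fun i => LfE X Y i ξ) (fun i => LfE p (-p') i ξ)
    (fun i => -DfE X Y p' p i) (fun i => by simp only [LfE]; ring)
    (fun i => by simp only [LfE]; ring)
    (fun i => by simp only [DfE]; ring) hξ0 nF).2 nG (neg_ne_zero.2 nD1)
    (neg_ne_zero.2 nD2)
  have S2 := (hSTAR π s e hs X Y (-q) q' ξ (fun i => LfE X Y i ξ) (fun i => LfE (-q) q' i ξ)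
    (fun i => DfE X Y q' q i) (fun i => by simp only [LfE]; ring)
    (fun i => by simp only [LfE]; ring)
    (fun i => by simp only [DfE]; ring) hξ0 nF).2 nG' nD1' nD2'
  simp only [eF, eG, eG'] at S1 S2
  have hw : w ≠ 0 := by
    intro h
    have := congrArg Eis.im h
    simp at this
  rw [s_neg hs nD1 hG0, s_neg hs nD2 hG0, s_neg hs nD1 hF0, s_neg hs nD2 hF0,
    (hG _ nD1).2, (hG _ nD2).2, (hF _ nD1).2, (hF _ nD2).2, (hF _ hw).2, (hF _ (nG 2)).1,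
    (hF _ (nG 1)).1, (hG _ (nF 1)).2, (hG _ (nF 2)).2] at S1
  rw [(hG' _ nD1').2, (hG' _ nD2').2, (hF _ nD1').2, (hF _ nD2').2, (hF _ hw).2,
    (hF _ (nG' 2)).1, (hF _ (nG' 1)).1, (hG' _ (nF 1)).2, (hG' _ (nF 2)).2] at S2
  have hb1 : ∀ i, s (LfE X Y i ξ) (p ^ 3 - x * p' ^ 3)
      = s (LfE X Y i ξ) b + s (LfE X Y i ξ) (x * q' ^ 3 - q ^ 3) := by
    intro i
    rw [← mul_right hs (nF i) cb cN2, hN12]
  rw [hb1 1, hb1 2] at S1
  unfold SVE ASE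
  linear_combination S1 - S2

end Pool.Agent.PTK


end

section

/-!
# LFV: the valuations of the linear forms of a point when `x` is a local cube
-/

set_option autoImplicit false

namespace Pool.Agent.PTK

open Pool.Agent.Lib_helper18 Pool.Agent.Lib_helper18.Eis Pool.Agent.Lib_helper84.Cub
open Pool.Agent.PT

namespace LFV

theorem prod3 (X T : Eis) :
    (X + w ^ 0 * T) * (X + w ^ 1 * T) * (X + w ^ 2 * T) = X ^ 3 + T ^ 3 := by
  have h1 := w_rel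
  have h2 := w_cube
  linear_combination (X + T) * X * T * h1 + (X + T) * T ^ 2 * h2

/-- Two of the three linear forms cannot both be divisible by `l`. -/
theorem two_forms {l X T : Eis} (hl : Prime l) (h3 : ¬ l ∣ 3) (h : ¬ (l ∣ X ∧ l ∣ T))
    {i j : ℕ} (hij : (i : ZMod 3) ≠ j) (hi : l ∣ X + w ^ i * T) (hj : l ∣ X + w ^ j * T) :
    False := by
  have h1 : l ∣ (w ^ i - w ^ j) * T := by
    have e : (w ^ i - w ^ j) * T = (X + w ^ i * T) - (X + w ^ j * T) := by ring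
    rw [e]
    exact dvd_sub hi hj
  rcases hl.dvd_or_dvd h1 with h2 | h2
  · exact hij (w_pow_sub_dvd h3 h2)
  · refine h ⟨?_, h2⟩
    exact (dvd_add_left (h2.mul_left _)).1 hi

end LFV

open _root_.Pool.Agent.PTK.LFV in
theorem LFV_thm (hSPP : SPP) : Stmt_LFV := by
  intro π x X Y hx hX hY hn _ hn3
  have hπ := π.2.1
  have h3 := (hSPP.2.2.2.1 π).1
  refine ⟨V π.1 x + V π.1 (X ^ 3 + x * Y ^ 3) + 1, fun ξ hξ => ?_⟩
  set N0 : ℕ := V π.1 x + V π.1 (X ^ 3 + x * Y ^ 3) + 1 with hN0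
  have hξ' : π.1 ^ N0 ∣ x - ξ ^ 3 := by
    rw [← dvd_neg, neg_sub]
    exact hξ
  obtain ⟨hξ3, -⟩ := V_congr hπ hξ' hx (by omega)
  have hξ0 : ξ ≠ 0 := by
    rintro rfl
    exact hξ3 (by ring)
  have hT0 : Y * ξ ≠ 0 := mul_ne_zero hY hξ0
  -- the product
  have hd : π.1 ^ N0 ∣ (X ^ 3 + x * Y ^ 3) - (X ^ 3 + (Y * ξ) ^ 3) := by
    have e : (X ^ 3 + x * Y ^ 3) - (X ^ 3 + (Y * ξ) ^ 3) = (x - ξ ^ 3) * Y ^ 3 := by ring
    rw [e]
    exact Dvd.dvd.mul_right hξ' _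
  obtain ⟨hne, hV⟩ := V_congr hπ hd hn (by omega)
  -- the common power
  set m : ℕ := min (V π.1 X) (V π.1 (Y * ξ)) with hm
  obtain ⟨X', hX'⟩ : π.1 ^ m ∣ X :=
    (pow_dvd_pow _ (min_le_left _ _)).trans (pow_multiplicity_dvd _ _)
  obtain ⟨T', hT'⟩ : π.1 ^ m ∣ Y * ξ :=
    (pow_dvd_pow _ (min_le_right _ _)).trans (pow_multiplicity_dvd _ _)
  have hnd : ¬ (π.1 ∣ X' ∧ π.1 ∣ T') := by
    rintro ⟨⟨a, ha⟩, b, hb⟩
    have h4 : m + 1 ≤ V π.1 X := (fin hπ hX).le_multiplicity_of_pow_dvd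
      ⟨a, by rw [hX', ha, pow_succ]; ring⟩
    have h5 : m + 1 ≤ V π.1 (Y * ξ) := (fin hπ hT0).le_multiplicity_of_pow_dvd
      ⟨b, by rw [hT', hb, pow_succ]; ring⟩
    have h6 : m + 1 ≤ m := by
      conv_rhs => rw [hm]
      exact le_min h4 h5
    omega
  have hF : ∀ i : ℕ, X + w ^ i * (Y * ξ) = π.1 ^ m * (X' + w ^ i * T') := by
    intro i
    rw [hX', hT']
    ring
  have hprod := prod3 X (Y * ξ)
  have hpne : (X + w ^ 0 * (Y * ξ)) * (X + w ^ 1 * (Y * ξ)) * (X + w ^ 2 * (Y * ξ)) ≠ 0 := by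
    rw [hprod]
    exact hne
  have n0 : X + w ^ 0 * (Y * ξ) ≠ 0 := fun h => hpne (by rw [h, zero_mul, zero_mul])
  have n1 : X + w ^ 1 * (Y * ξ) ≠ 0 := fun h => hpne (by rw [h, mul_zero, zero_mul])
  have n2 : X + w ^ 2 * (Y * ξ) ≠ 0 := fun h => hpne (by rw [h, mul_zero])
  have hVF : ∀ i : ℕ, X + w ^ i * (Y * ξ) ≠ 0 →
      V π.1 (X + w ^ i * (Y * ξ)) = m + V π.1 (X' + w ^ i * T') := by
    intro i hi
    have h4 : X' + w ^ i * T' ≠ 0 := by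
      intro h
      apply hi
      rw [hF, h, mul_zero]
    rw [hF, V_mul hπ (pow_ne_zero _ hπ.ne_zero) h4, V_pow hπ hπ.ne_zero, V_self, mul_one]
  have hsum : 3 ∣ V π.1 (X' + w ^ 0 * T') + V π.1 (X' + w ^ 1 * T') + V π.1 (X' + w ^ 2 * T') := by
    have h4 : V π.1 ((X + w ^ 0 * (Y * ξ)) * (X + w ^ 1 * (Y * ξ)) * (X + w ^ 2 * (Y * ξ))) =
        V π.1 (X ^ 3 + x * Y ^ 3) := by
      rw [hprod, hV]
    rw [V_mul hπ (mul_ne_zero n0 n1) n2, V_mul hπ n0 n1, hVF 0 n0, hVF 1 n1, hVF 2 n2] at h4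
    omega
  have z : ∀ i j : ℕ, (i : ZMod 3) ≠ j → V π.1 (X' + w ^ i * T') ≠ 0 →
      V π.1 (X' + w ^ j * T') = 0 := by
    intro i j hij hi
    by_contra hj
    have h4 : π.1 ∣ X' + w ^ i * T' := by
      by_contra h
      exact hi (V_eq_zero h)
    have h5 : π.1 ∣ X' + w ^ j * T' := by
      by_contra h
      exact hj (V_eq_zero h)
    exact two_forms hπ h3 hnd hij h4 h5
  have e : ∀ i : ℕ, LfE X Y i ξ = X + w ^ i * (Y * ξ) := by
    intro i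
    unfold LfE
    ring
  rw [e, e, hVF 1 n1, hVF 2 n2, ZMod.natCast_eq_natCast_iff']
  have d01 : ((0 : ℕ) : ZMod 3) ≠ ((1 : ℕ) : ZMod 3) := by decide
  have d02 : ((0 : ℕ) : ZMod 3) ≠ ((2 : ℕ) : ZMod 3) := by decide
  have d12 : ((1 : ℕ) : ZMod 3) ≠ ((2 : ℕ) : ZMod 3) := by decide
  by_cases h4 : V π.1 (X' + w ^ 1 * T') = 0
  · by_cases h5 : V π.1 (X' + w ^ 2 * T') = 0
    · rw [h4, h5]
    · have h6 := z 2 0 d02.symm h5
      rw [h4, h6] at hsum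
      omega
  · have h5 := z 1 2 d12 h4
    have h6 := z 1 0 d01.symm h4
    rw [h5, h6] at hsum
    omega

end Pool.Agent.PTK


end

section

/-!
# PTK_NFX: the fixed `S`-units
-/

set_option autoImplicit false

namespace Pool.Agent.PTK

open Pool.Agent.Lib_helper18 Pool.Agent.Lib_helper18.Eis Pool.Agent.Lib_helper84.Cub
open Pool.Agent.PT
open IsDedekindDomain NumberField

namespace NFX

open Pool.Agent.PT.NFIX (uni_prime lam_dvd_three uni_assoc dvd_lam_of_dvd_three exists_place dvd_of_V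
  unit_pow_six V_sub)

section

variable {x : Eis} {L : Type} [Field L] [NumberField L] {ι : Eis →+* L} {θ : L}
  {σ : L ≃ₐ[ℚ] L}

/-- the valuations at the primes above a place -/
theorem val_lt_iff (hSPP : SPP) (hNTR : Stmt_NTR) (hx0 : x ≠ 0) (hx3 : ¬ lam ∣ x)
    (hC : CubE x L ι θ σ) {v : Pl} {P : HeightOneSpectrum (𝓞 L)} (hP : P ∈ Abv ι v) (a : Eis) :
    P.valuation L (ι a) < 1 ↔ uni v ∣ a := by
  have hN := hNTR x L ι θ σ hx0 hx3 hC
  obtain ⟨v', hP', h'⟩ := hN.2.1 P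
  have hv : v' = v := uni_assoc hSPP
    ((uni_prime v').associated_of_dvd (uni_prime v) (h' _ hP))
  subst hv
  refine ⟨h' a, ?_⟩
  rintro ⟨d, rfl⟩
  rw [map_mul, map_mul]
  exact lt_of_le_of_lt (mul_le_of_le_one_right' (hN.1 P d)) hP

theorem abv_unique (hSPP : SPP) (hNTR : Stmt_NTR) (hx0 : x ≠ 0) (hx3 : ¬ lam ∣ x)
    (hC : CubE x L ι θ σ) {v v' : Pl} {P : HeightOneSpectrum (𝓞 L)} (hP : P ∈ Abv ι v)
    (hP' : P ∈ Abv ι v') : v = v' :=
  uni_assoc hSPP ((uni_prime v).associated_of_dvd (uni_prime v')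
    ((val_lt_iff hSPP hNTR hx0 hx3 hC hP _).1 hP'))

theorem val_eq (hSPP : SPP) (hNTR : Stmt_NTR) (hx0 : x ≠ 0) (hx3 : ¬ lam ∣ x)
    (hC : CubE x L ι θ σ) {v : Pl} {P : HeightOneSpectrum (𝓞 L)} (hP : P ∈ Abv ι v) {a : Eis}
    (ha : a ≠ 0) : P.valuation L (ι a) = P.valuation L (ι (uni v)) ^ V (uni v) a := by
  have hN := hNTR x L ι θ σ hx0 hx3 hC
  obtain ⟨d, hd, hnd⟩ := V_split (uni_prime v) ha
  have h1 : P.valuation L (ι d) = 1 := by
    refine le_antisymm (hN.1 P d) (not_lt.1 fun h => hnd ?_)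
    exact (val_lt_iff hSPP hNTR hx0 hx3 hC hP d).1 h
  conv_lhs => rw [hd]
  rw [map_mul, map_pow, map_mul, map_pow, h1, mul_one]

/-- the valuations of an `S`-unit outside of `S` -/
theorem V_eq_of_unit (hSPP : SPP) (hNTR : Stmt_NTR) (hx0 : x ≠ 0) (hx3 : ¬ lam ∣ x)
    (hC : CubE x L ι θ σ) {S : Finset Pl} {u : Lˣ} (hu : u ∈ SU ι S) {a b : Eis} (ha : a ≠ 0)
    (hb : b ≠ 0) (h : (u : L) * ι b = ι a) {v : Pl} (hv : v ∉ S) :
    V (uni v) a = V (uni v) b := by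
  have hN := hNTR x L ι θ σ hx0 hx3 hC
  obtain ⟨P, hP⟩ := (hN.2.2.2.1 v).2
  have hPS : P ∉ ⋃ v ∈ S, Abv ι v := by
    simp only [Set.mem_iUnion, not_exists]
    intro v' hv' hP'
    have := abv_unique hSPP hNTR hx0 hx3 hC hP hP'
    subst this
    exact hv hv'
  have h1 : P.valuation L (u : L) = 1 := hu P hPS
  have h2 := congrArg (P.valuation L) h
  rw [map_mul, h1, one_mul, val_eq hSPP hNTR hx0 hx3 hC hP ha,
    val_eq hSPP hNTR hx0 hx3 hC hP hb] at h2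
  have h0 : P.valuation L (ι (uni v)) ≠ 0 := by
    rw [Valuation.ne_zero_iff]
    intro h3
    exact (uni_prime v).ne_zero (hC.inj (h3.trans (map_zero ι).symm))
  have h3 : P.valuation L (ι (uni v)) < 1 := hP
  exact (pow_right_injective₀ (zero_lt_iff.2 h0) h3.ne h2).symm

end

end NFX

open Pool.Agent.PTK.NFX in
open Pool.Agent.PT.NFIX (uni_prime lam_dvd_three uni_assoc dvd_lam_of_dvd_three exists_place dvd_of_V
  unit_pow_six V_sub) in
/-- the fixed `S`-units. -/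
theorem NFX_thm (hSPP : SPP) (hNHN : Stmt_NHN) (hNTR : Stmt_NTR) : Stmt_NFX := by
  classical
  intro x L _ _ ι θ σ hx0 hx3 hC S
  have hN := hNTR x L ι θ σ hx0 hx3 hC
  have hinj := hC.inj
  -- elements of `Z[w]`
  have h1 : ∀ (u : Lˣ) (a : Eis), (u : L) = ι a → (∀ v : Pl, uni v ∣ a → v ∈ S) →
      u ∈ SF ι σ S := by
    intro u a hu ha
    refine ⟨?_, ?_⟩
    · intro P hP
      change P.valuation L (u : L) = 1
      rw [hu]
      refine le_antisymm (hN.1 P a) (not_lt.1 fun hlt => hP ?_)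
      obtain ⟨v, hPv, hv⟩ := hN.2.1 P
      exact Set.mem_iUnion₂.2 ⟨v, ha v (hv a hlt), hPv⟩
    · apply Units.ext
      change σ (u : L) = u
      rw [hu, hC.sι]
  have h2 : ∀ u ∈ SF ι σ S, ∃ a b : Eis, a ≠ 0 ∧ b ≠ 0 ∧ (u : L) * ι b = ι a := by
    rintro u ⟨-, hu⟩
    have hσ : σ (u : L) = u := congrArg Units.val hu
    obtain ⟨a, b, hb, hab⟩ := (hNHN x L ι θ σ hx0 hC).2.1 u hσ
    refine ⟨a, b, ?_, hb, hab⟩
    rintro rfl
    rw [map_zero] at hab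
    rcases mul_eq_zero.1 hab with h | h
    · exact u.ne_zero h
    · exact hb (hinj (h.trans (map_zero ι).symm))
  refine ⟨h1, h2, ?_⟩
  -- the valuation map
  choose! A B hA hB hAB using h2
  let F : Additive (SF ι σ S) →+ (S → ℤ) :=
    { toFun := fun u v => (V (uni v) (A u.toMul) : ℤ) - V (uni v) (B u.toMul)
      map_zero' := by
        funext v
        have h3 : ((1 : SF ι σ S) : Lˣ) ∈ SF ι σ S := (1 : SF ι σ S).2
        have h4 : (((1 : SF ι σ S) : Lˣ) : L) * ι 1 = ι 1 := by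
          rw [map_one, mul_one]
          rfl
        have := V_sub hinj (hA _ h3) (hB _ h3) one_ne_zero one_ne_zero (hAB _ h3) h4
          (uni_prime v)
        change (V (uni v) (A ((1 : SF ι σ S) : Lˣ)) : ℤ) - V (uni v) (B ((1 : SF ι σ S) : Lˣ)) = 0
        rw [this, sub_self]
      map_add' := by
        intro u u'
        funext v
        have hu := u.toMul.2
        have hu' := u'.toMul.2
        have huu := (u.toMul * u'.toMul).2
        have h4 : (((u.toMul * u'.toMul : SF ι σ S) : Lˣ) : L) *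
            ι (B u.toMul * B u'.toMul) = ι (A u.toMul * A u'.toMul) := by
          rw [map_mul, map_mul, ← hAB _ hu, ← hAB _ hu']
          change ((u.toMul : Lˣ) : L) * ((u'.toMul : Lˣ) : L) * _ = _
          ring
        have h5 := V_sub hinj (hA _ huu) (hB _ huu) (mul_ne_zero (hA _ hu) (hA _ hu'))
          (mul_ne_zero (hB _ hu) (hB _ hu')) (hAB _ huu) h4 (uni_prime v)
        rw [V_mul (uni_prime v) (hA _ hu) (hA _ hu'), V_mul (uni_prime v) (hB _ hu) (hB _ hu')]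
          at h5
        change (V (uni v) (A ((u.toMul * u'.toMul : SF ι σ S) : Lˣ)) : ℤ) -
          V (uni v) (B ((u.toMul * u'.toMul : SF ι σ S) : Lˣ)) =
          ((V (uni v) (A u.toMul) : ℤ) - V (uni v) (B u.toMul)) +
          ((V (uni v) (A u'.toMul) : ℤ) - V (uni v) (B u'.toMul))
        rw [h5]
        push_cast
        ring }
  have hF : ∀ (u : SF ι σ S) (v : S), F (Additive.ofMul u) v =
      (V (uni v) (A (u : Lˣ)) : ℤ) - V (uni v) (B (u : Lˣ)) := fun _ _ => rfl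
  let G : Additive (SF ι σ S) →ₗ[ℤ] (S → ℤ) := F.toIntLinearMap
  have hG : ∀ u, G u = F u := fun _ => rfl
  -- surjectivity
  have hsurj : Function.Surjective G := by
    rw [← LinearMap.range_eq_top, ← top_le_iff, ← (Pi.basisFun ℤ S).span_eq, Submodule.span_le]
    rintro _ ⟨v, rfl⟩
    rw [Pi.basisFun_apply]
    have hne : ι (uni v) ≠ 0 := fun h => (uni_prime v).ne_zero (hinj (h.trans (map_zero ι).symm))
    have hmem : Units.mk0 (ι (uni v)) hne ∈ SF ι σ S := by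
      refine h1 _ (uni v) rfl fun v' hv' => ?_
      have := uni_assoc hSPP ((uni_prime v').associated_of_dvd (uni_prime v) hv')
      rw [this]
      exact v.2
    refine ⟨Additive.ofMul ⟨_, hmem⟩, ?_⟩
    funext v'
    rw [hG, hF]
    have h3 : ((Units.mk0 (ι (uni v)) hne : Lˣ) : L) * ι 1 = ι (uni v) := by
      rw [map_one, mul_one]
      rfl
    rw [V_sub hinj (hA _ hmem) (hB _ hmem) (uni_prime v).ne_zero one_ne_zero (hAB _ hmem) h3
      (uni_prime v'), V_eq_zero (fun h => (uni_prime v').not_isUnit (isUnit_of_dvd_one h))]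
    by_cases hvv : v' = v
    · subst hvv
      rw [V_self, Pi.single_eq_same]
      norm_num
    · rw [Pi.single_eq_of_ne hvv, V_eq_zero]
      · norm_num
      · intro h
        exact hvv (Subtype.ext (uni_assoc hSPP
          ((uni_prime v').associated_of_dvd (uni_prime v) h)))
  -- the kernel
  have hker : Module.rank ℤ (LinearMap.ker G) = 0 := by
    rw [rank_eq_zero_iff]
    rintro ⟨u, hu⟩
    refine ⟨6, by norm_num, ?_⟩
    apply Subtype.ext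
    have hu0 : G u = 0 := hu
    have hmem := u.toMul.2
    have hVS : ∀ v : Pl, V (uni v) (A u.toMul) = V (uni v) (B u.toMul) := by
      intro v
      by_cases hv : v ∈ S
      · have h3 := congrFun hu0 ⟨v, hv⟩
        have h4 : (V (uni v) (A u.toMul) : ℤ) - V (uni v) (B u.toMul) = 0 := h3
        omega
      · exact V_eq_of_unit hSPP hNTR hx0 hx3 hC hmem.1 (hA _ hmem) (hB _ hmem) (hAB _ hmem) hv
    obtain ⟨d, hd⟩ := dvd_of_V hSPP (hB _ hmem) (hA _ hmem) fun v => (hVS v).symm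
    obtain ⟨d', hd'⟩ := dvd_of_V hSPP (hA _ hmem) (hB _ hmem) hVS
    have hdd : d * d' = 1 := by
      have h3 : B u.toMul * (d * d') = B u.toMul * 1 := by
        rw [← mul_assoc, ← hd, ← hd', mul_one]
      exact mul_left_cancel₀ (hB _ hmem) h3
    have hud : ((u.toMul : Lˣ) : L) = ι d := by
      have h3 := hAB _ hmem
      have h4 : ι (B u.toMul) ≠ 0 := fun h => hB _ hmem (hinj (h.trans (map_zero ι).symm))
      rw [hd, map_mul, mul_comm (ι _)] at h3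
      exact mul_right_cancel₀ h4 h3
    have h6 : u.toMul ^ 6 = 1 := by
      apply Subtype.ext
      apply Units.ext
      change ((u.toMul : Lˣ) : L) ^ 6 = 1
      rw [hud, ← map_pow, unit_pow_six (IsUnit.of_mul_eq_one _ hdd), map_one]
    change (6 : ℤ) • u = 0
    exact_mod_cast congrArg Additive.ofMul h6
  have hrank : Module.rank ℤ (Additive (SF ι σ S)) = S.card := by
    rw [LinearMap.rank_eq_of_surjective hsurj, hker, add_zero, rank_fun']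
    simp
  rw [Module.finrank, hrank]
  exact Cardinal.toNat_natCast _

end Pool.Agent.PTK


end

section

/-!
# PTK, module NMN: the norm theorem for `K(x^(1/3)) / K`, `K = Q(w)` (helper54)

Copy of `PT/NMAIN.lean`.
-/

set_option autoImplicit false

open NumberField IsDedekindDomain Finset
open scoped nonZeroDivisors Pointwise

namespace Pool.Agent.PTK

open Pool.Agent.Lib_helper18 Pool.Agent.Lib_helper18.Eis Pool.Agent.Lib_helper84.Cub
open Pool.Agent.PT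

open Pool.Agent.PT.NMAIN

/-- NMN. -/
theorem NMN_thm (hSTM : STM) (hSPP : SPP) (hSSL : SSL) (hSLC : SLC)
    (hHERBQ : HERBQ) (hSUN : SUN) (hNRK : Stmt_NRK) (hNHN : Stmt_NHN) (hNTR : Stmt_NTR)
    (hNCN : Stmt_NCN) (hNFX : Stmt_NFX) (hNHO : Stmt_NHO) (hNNS : Stmt_NNS)
    (hNGN : Stmt_NGN) : Stmt_NMN := by
  classical
  intro x L _ _ ι θ σ hxE hx4 hV hcube hF y hyE htm hyLC
  have hx3 : ¬ lam ∣ x := by
    intro h
    have h1 : lam ∣ x ^ 2 - 1 := (dvd_pow_self lam (by norm_num)).trans hx4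
    have h2 : lam ∣ x ^ 2 := h.trans (dvd_pow_self x (by norm_num))
    have h3 : lam ∣ 1 := by
      have h4 := dvd_sub h2 h1
      have h5 : x ^ 2 - (x ^ 2 - 1) = 1 := by ring
      rwa [h5] at h4
    exact prime_lam.not_isUnit (isUnit_of_dvd_one h3)
  have hι := hF.inj
  have hι0 : ∀ a : Eis, a ≠ 0 → ι a ≠ 0 := fun a ha h => ha (hι (by rw [h, map_zero]))
  -- the set of places
  obtain ⟨S₀, hS₀⟩ : ∃ S₀ : Finset Pl, ∀ v, v ∈ S₀ ↔ v = none ∨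
      ∃ π : PP, v = some π ∧ (π.1 ∣ x ∨ π.1 ∣ y) := by
    have hfin : ({v : Pl | v = none ∨ ∃ π : PP, v = some π ∧
        (π.1 ∣ x ∨ π.1 ∣ y)}).Finite := by
      have h1 := (hSPP.2.2.1 x hxE).union (hSPP.2.2.1 y hyE)
      refine ((h1.image some).insert none).subset ?_
      rintro v (rfl | ⟨π, rfl, h⟩)
      · exact Set.mem_insert _ _
      · exact Set.mem_insert_of_mem _ ⟨π, h, rfl⟩
    exact ⟨hfin.toFinset, fun v => hfin.mem_toFinset⟩
  obtain ⟨S, e, d, hSS, hSLC', hcard, hd0, hdS, hdind, hdsym⟩ := hNGN x S₀ hxE hx4 hV hcube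
    ((hS₀ none).2 (Or.inl rfl)) (fun π h => (hS₀ _).2 (Or.inr ⟨π, rfl, Or.inl h⟩)) (by
      intro π h hLC
      rcases (hS₀ _).1 h with h1 | ⟨π', h1, h2⟩
      · exact absurd h1 (by simp)
      · have h3 : π = π' := Option.some.inj h1
        subst h3
        rcases h2 with h2 | h2
        · exact h2
        · exact hyLC π h2 hLC)
  have hnone : none ∈ S := hSS ((hS₀ none).2 (Or.inl rfl))
  have hxS : ∀ π : PP, π.1 ∣ x → some π ∈ S := fun π h =>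
    hSS ((hS₀ _).2 (Or.inr ⟨π, rfl, Or.inl h⟩))
  have hyS : ∀ v : Pl, uni v ∣ y → v ∈ S := by
    intro v hv
    cases v with
    | none => exact hnone
    | some π => exact hSS ((hS₀ _).2 (Or.inr ⟨π, rfl, Or.inr hv⟩))
  obtain ⟨H1, H2, -⟩ := hNHN x L ι θ σ hxE hF
  obtain ⟨-, T2, -, T4, -, -⟩ := hNTR x L ι θ σ hxE hx3 hF
  obtain ⟨X1, X2, X3⟩ := hNFX x L ι θ σ hxE hx3 hF S
  obtain ⟨O1, O2⟩ := hNHO x L ι θ σ hxE hx3 hF S hnone hxS
  have hNC := hNCN x L ι θ σ hxE hx3 hV hF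
  have hσ3 : σ ^ 3 = 1 := by
    ext z
    change σ (σ (σ z)) = z
    exact H1 z
  -- norms
  have hNval : ∀ u : Lˣ, ((∏ i ∈ range 3, σ ^ i • u : Lˣ) : L) = u * σ u * σ (σ u) := by
    intro u
    rw [prod_range_succ, prod_range_succ, prod_range_succ, prod_range_zero, one_mul]
    rfl
  have hN : ∀ u : Lˣ, ∃ a b : Eis, a ≠ 0 ∧ b ≠ 0 ∧
      ((∏ i ∈ range 3, σ ^ i • u : Lˣ) : L) * ι b = ι a := by
    intro u
    have h1 : σ ((∏ i ∈ range 3, σ ^ i • u : Lˣ) : L) = ((∏ i ∈ range 3, σ ^ i • u : Lˣ) : L) := by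
      rw [hNval, map_mul, map_mul, H1]
      ring
    obtain ⟨a, b, hb, hab⟩ := H2 _ h1
    refine ⟨a, b, ?_, hb, hab⟩
    rintro rfl
    rw [map_zero] at hab
    exact (mul_ne_zero (Units.ne_zero _) (hι0 b hb)) hab
  -- the units
  have hd' : ∀ i, ∃ u : Lˣ, (u : L) = ι (d i) := fun i => ⟨Units.mk0 _ (hι0 _ (hd0 i)), rfl⟩
  choose d' hd' using hd'
  have hpsi := fun {u : Lˣ} {a b : Eis} (ha : a ≠ 0) (hb : b ≠ 0) (h : (u : L) * ι b = ι a) v =>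
    psi_eq (L := L) (ι := ι) hSTM hSPP hSSL hι hxE ha hb h v
  have hpsi1 : ∀ (u : Lˣ) (a : Eis), a ≠ 0 → (u : L) = ι a → ∀ v, psi ι x u v = sy v a x := by
    intro u a ha h v
    rw [hpsi (u := u) ha one_ne_zero (by rw [map_one, mul_one, h]),
      sy_one hSTM hSPP hSSL v _ hxE, sub_zero]
  -- the set of primes
  obtain ⟨A, hA⟩ : ∃ A : Finset (HeightOneSpectrum (𝓞 L)),
      (A : Set (HeightOneSpectrum (𝓞 L))) = ⋃ v ∈ S, Abv ι v := by
    have hfin : (⋃ v ∈ S, Abv ι v).Finite := S.finite_toSet.biUnion fun v _ => (T4 v).1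
    exact ⟨hfin.toFinset, hfin.coe_toFinset⟩
  obtain ⟨U1, U2⟩ := hSUN L A
  rw [hA] at U1 U2
  have hAcard : A.card + 2 * (e + 1) = 3 * S.card := by
    have h1 : A = S.biUnion fun v => (T4 v).1.toFinset := by
      ext P
      rw [Finset.mem_biUnion, ← Finset.mem_coe, hA, Set.mem_iUnion₂]
      constructor
      · rintro ⟨v, hv, hP⟩
        exact ⟨v, hv, (T4 v).1.mem_toFinset.2 hP⟩
      · rintro ⟨v, hv, hP⟩
        exact ⟨v, hv, (T4 v).1.mem_toFinset.1 hP⟩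
    rw [h1, Finset.card_biUnion]
    · have h2 : ∀ v ∈ S, (T4 v).1.toFinset.card = if LCE (uni v) x then 3 else 1 := by
        intro v _
        rw [← hNC v, Nat.card_coe_set_eq, Set.ncard_eq_toFinset_card _ (T4 v).1]
      rw [Finset.sum_congr rfl h2, ← hcard, Finset.card_filter, Finset.mul_sum,
        ← Finset.sum_add_distrib, Finset.card_eq_sum_ones, Finset.mul_sum]
      refine Finset.sum_congr rfl fun v _ => ?_
      by_cases h : LCE (uni v) x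
      · rw [if_pos h, if_neg (not_not.2 h)]
        rfl
      · rw [if_neg h, if_pos h]
        rfl
    · intro v _ v' _ hne
      rw [Function.onFun, Finset.disjoint_left]
      intro P hP hP'
      rw [(T4 v).1.mem_toFinset] at hP
      rw [(T4 v').1.mem_toFinset] at hP'
      obtain ⟨v0, -, h0⟩ := T2 P
      have e1 := uni_inj hSPP (h0 _ hP)
      have e2 := uni_inj hSPP (h0 _ hP')
      exact hne (e1.symm.trans e2)
  obtain ⟨y', hy'⟩ : ∃ u : Lˣ, (u : L) = ι y := ⟨Units.mk0 _ (hι0 _ hyE), rfl⟩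
  have : Fact (Nat.Prime 3) := ⟨Nat.prime_three⟩
  have key := hHERBQ 3 Lˣ (L ≃ₐ[ℚ] L) σ (SU ι S) (SF ι σ S) Pl (psi ι x) e d' hσ3 U1 O1
    (fun u => Iff.rfl) O2 ?_ ?_ ?_ ?_ ?_ ?_ y' (X1 y' _ hy' hyS) ?_
  · obtain ⟨η, -, hη⟩ := key
    refine ⟨(η : L), η.ne_zero, ?_⟩
    rw [← hNval, ← hη, hy']
  · -- multiplicativity
    intro u hu u' hu'
    obtain ⟨a, b, ha, hb, hab⟩ := X2 u hu
    obtain ⟨a', b', ha', hb', hab'⟩ := X2 u' hu'
    funext v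
    rw [Pi.add_apply, hpsi ha hb hab, hpsi ha' hb' hab',
      hpsi (u := u * u') (mul_ne_zero ha ha') (mul_ne_zero hb hb') (by
        rw [Units.val_mul, map_mul, map_mul, ← hab, ← hab']
        ring),
      sy_mul hSTM hSPP hSSL v _ _ _ ha ha' hxE, sy_mul hSTM hSPP hSSL v _ _ _ hb hb' hxE]
    ring
  · -- norms have trivial symbols
    intro u _
    obtain ⟨a, b, ha, hb, hab⟩ := hN u
    funext v
    rw [hpsi ha hb hab]
    obtain ⟨e', he'⟩ := sy_lsym hSTM hSPP hSLC v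
    rw [Pi.zero_apply, sub_eq_zero]
    exact hNNS x L ι θ σ hxE hF (uni v) (sy v) e' he' (u : L) a b u.ne_zero ha hb
      (by rw [← hNval]; exact hab)
  · -- the units are in `E'`
    intro i
    exact X1 (d' i) (d i) (hd' i) (hdS i)
  · -- multiplicative independence
    intro n hn
    have h1 : (fun i => (n i).toNat) = fun i => (-n i).toNat := by
      apply hdind
      apply hι
      have h2 : ∏ i, (d' i) ^ ((n i).toNat) = ∏ i, (d' i) ^ ((-n i).toNat) := by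
        rw [← div_eq_one, ← Finset.prod_div_distrib, ← hn]
        refine Finset.prod_congr rfl fun i _ => ?_
        rw [← zpow_natCast, ← zpow_natCast, div_eq_mul_inv, ← zpow_sub]
        congr 1
        omega
      have h3 := congrArg (fun u : Lˣ => (u : L)) h2
      simp only [Units.coe_prod, Units.val_pow_eq_pow_val, hd'] at h3
      rw [map_prod, map_prod]
      simp only [map_pow]
      exact h3
    funext i
    have h2 : (n i).toNat = (-n i).toNat := congrFun h1 i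
    rw [Pi.zero_apply]
    omega
  · -- independence of the symbols
    intro n hn
    apply hdsym n
    intro v
    have h1 := congrFun hn v
    rw [Finset.sum_apply] at h1
    rw [← Pi.zero_apply (M := fun _ : Pl => ZMod 3) v, ← h1]
    refine Finset.sum_congr rfl fun i _ => ?_
    rw [Pi.smul_apply, smul_eq_mul, hpsi1 (d' i) (d i) (hd0 i) (hd' i)]
  · -- ranks
    change Module.finrank ℤ (Additive (SU ι S)) + 3 * e = 3 * Module.finrank ℤ (Additive (SF ι σ S)) + e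
    have h1 : Module.finrank ℤ (Additive (SU ι S)) = 2 + A.card := by
      rw [← hNRK x L ι θ σ hF]
      exact U2
    rw [h1, X3]
    omega
  · -- the symbols of `y`
    funext v
    rw [hpsi1 y' _ hyE hy', Pi.zero_apply]
    have h1 : ∀ π : PP, tm π.1 y x = 0 := by
      intro π
      have h2 := htm π
      rw [tm] at h2 ⊢
      linear_combination -h2
    cases v with
    | none =>
      change -∑ᶠ π : PP, tm π.1 y x = 0
      rw [finsum_eq_zero_of_forall_eq_zero h1, neg_zero]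
    | some π => exact h1 π

end Pool.Agent.PTK


end

section

/-!
# PTK_NRK: the unit rank
-/

set_option autoImplicit false

open NumberField IsDedekindDomain Finset
open scoped nonZeroDivisors Pointwise

namespace Pool.Agent.PTK

open Pool.Agent.Lib_helper18 Pool.Agent.Lib_helper18.Eis Pool.Agent.Lib_helper84.Cub
open Pool.Agent.PT

namespace NRK

/-- the basis of `L` over `ℚ` -/
def bv {L : Type} [Field L] (ι : Eis →+* L) (θ : L) : Fin 6 → L :=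
  ![1, ι w, θ, ι w * θ, θ ^ 2, ι w * θ ^ 2]

theorem iota_eq {L : Type} [Field L] (ι : Eis →+* L) (a : Eis) :
    ι a = (a.re : L) + (a.im : L) * ι w := by
  conv_lhs => rw [eq_re_add_im a]
  simp

theorem bv_indep {x : Eis} {L : Type} [Field L] [NumberField L] {ι : Eis →+* L} {θ : L}
    {σ : L ≃ₐ[ℚ] L} (h : CubE x L ι θ σ) : LinearIndependent ℚ (bv ι θ) := by
  rw [← LinearIndependent.iff_fractionRing ℤ ℚ, Fintype.linearIndependent_iff]
  intro g hg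
  rw [Fin.sum_univ_six] at hg
  simp only [bv, Matrix.cons_val, zsmul_eq_mul] at hg
  obtain ⟨h1, h2, h3⟩ := h.lin ⟨g 0, g 1⟩ ⟨g 2, g 3⟩ ⟨g 4, g 5⟩ (by
    rw [iota_eq ι ⟨g 0, g 1⟩, iota_eq ι ⟨g 2, g 3⟩, iota_eq ι ⟨g 4, g 5⟩]
    simp only
    rw [← hg]
    ring)
  have e1 := congrArg Eis.re h1
  have e2 := congrArg Eis.im h1
  have e3 := congrArg Eis.re h2
  have e4 := congrArg Eis.im h2
  have e5 := congrArg Eis.re h3
  have e6 := congrArg Eis.im h3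
  simp only [zero_re, zero_im] at e1 e2 e3 e4 e5 e6
  intro i
  fin_cases i <;> assumption

theorem bv_span {x : Eis} {L : Type} [Field L] [NumberField L] {ι : Eis →+* L} {θ : L}
    {σ : L ≃ₐ[ℚ] L} (h : CubE x L ι θ σ) : ⊤ ≤ Submodule.span ℚ (Set.range (bv ι θ)) := by
  intro z _
  obtain ⟨m, a, b, d, hm, hz⟩ := h.rep z
  have hmL : (m : L) ≠ 0 := Int.cast_ne_zero.mpr hm
  have hz' : z = ((m : ℚ)⁻¹) • ((a.re : ℚ) • bv ι θ 0 + (a.im : ℚ) • bv ι θ 1 +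
      (b.re : ℚ) • bv ι θ 2 + (b.im : ℚ) • bv ι θ 3 +
      (d.re : ℚ) • bv ι θ 4 + (d.im : ℚ) • bv ι θ 5) := by
    simp only [bv, Matrix.cons_val, Algebra.smul_def, map_inv₀, map_intCast]
    rw [iota_eq ι a, iota_eq ι b, iota_eq ι d] at hz
    field_simp
    rw [mul_comm z, hz]
    ring
  have hmem : ∀ i, bv ι θ i ∈ Submodule.span ℚ (Set.range (bv ι θ)) := fun i =>
    Submodule.subset_span ⟨i, rfl⟩
  rw [hz']
  refine Submodule.smul_mem _ _ ?_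
  refine Submodule.add_mem _ (Submodule.add_mem _ (Submodule.add_mem _ (Submodule.add_mem _
    (Submodule.add_mem _ ?_ ?_) ?_) ?_) ?_) ?_ <;> exact Submodule.smul_mem _ _ (hmem _)

theorem finrank_six {x : Eis} {L : Type} [Field L] [NumberField L] {ι : Eis →+* L} {θ : L}
    {σ : L ≃ₐ[ℚ] L} (h : CubE x L ι θ σ) : Module.finrank ℚ L = 6 := by
  rw [Module.finrank_eq_card_basis (Module.Basis.mk (bv_indep h) (bv_span h))]
  simp

theorem prim {x : Eis} {L : Type} [Field L] [NumberField L] {ι : Eis →+* L} {θ : L}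
    {σ : L ≃ₐ[ℚ] L} (h : CubE x L ι θ σ) : IsPrimitiveRoot (ι w) 3 := by
  have h3 : (ι w) ^ 3 = 1 := by rw [← map_pow, w_cube, map_one]
  have h1 : ι w ≠ 1 := by
    intro he
    rw [← map_one ι] at he
    have := congrArg Eis.im (h.inj he)
    simp at this
  have := orderOf_eq_prime (p := 3) h3 h1
  rw [← this]
  exact IsPrimitiveRoot.orderOf _

end NRK

/-- NRK: the unit rank. -/
theorem NRK_thm : Stmt_NRK := by
  intro x L _ _ ι θ σ h
  have h6 := NRK.finrank_six h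
  have hr : NumberField.InfinitePlace.nrRealPlaces L = 0 :=
    NumberField.InfinitePlace.IsPrimitiveRoot.nrRealPlaces_eq_zero_of_two_lt (by norm_num)
      (NRK.prim h)
  have hc := NumberField.InfinitePlace.card_add_two_mul_card_eq_rank L
  have ht := NumberField.InfinitePlace.card_eq_nrRealPlaces_add_nrComplexPlaces L
  unfold NumberField.Units.rank
  rw [ht]
  omega

end Pool.Agent.PTK


end
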