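import Mathlib.FieldTheory.Finiteness
import Mathlib.LinearAlgebra.Dual.Lemmas
import Mathlib.LinearAlgebra.Matrix.DotProduct
import Mathlib.LinearAlgebra.Matrix.Dual
import Mathlib.LinearAlgebra.Matrix.ToLin
import Pool.Agent.PTDM.C22
import Pool.Agent.PTDM.C23
import Pool.Agent.PTDM.C26
import Pool.Agent.PTDM.C30
import Pool.Agent.PTDM.C45
import Pool.Agent.PTKM.C01
import Pool.Agent.PTKM.C02

/-! Parts: PTKX.DNS, PTKX.DNS1, PTKX.ESR, PTKX.JP2, PTKX.JZ, PTKX.MZF, PTKX.ZAUX, PTKX.ZC, PTKX.ZS, PTKX.ZSU, PTKX.ZT -/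

section

/-!
# PTK_DNS: upper bound for the density of a set of primes (helper71)
-/

set_option autoImplicit false

open NumberField IsDedekindDomain Finset
open scoped nonZeroDivisors Pointwise

namespace Pool.Agent.PTK

open Pool.Agent.Lib_helper18 Pool.Agent.Lib_helper18.Eis Pool.Agent.Lib_helper84.Cub
open Pool.Agent.PT Pool.Agent.PTL

namespace DNS

open BDENS BD

/-- the set of the classes is stable under conjugation and change of generator -/
theorem inU_stable {G : Type} [Group G] [Finite G] {f m : ℕ} (χ : G →* (ZMod f)ˣ)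
    (κ : (ZMod f)ˣ →* Multiplicative (Fin (m + 1) → ZMod 3)) (c : Fin (m + 1) → ZMod 3)
    (hf : 0 < f) (h3 : 3 ∣ f) {g h τ : G} (hg : InU χ κ c g)
    (hz : Subgroup.zpowers h = Subgroup.zpowers (τ * g * τ⁻¹)) : InU χ κ c h := by
  have hM := hg.1
  have hχg : χ (τ * g * τ⁻¹) = χ g := by
    rw [map_mul, map_mul, map_inv, mul_comm (χ τ), mul_inv_cancel_right]
  have hM' : M2 (χ (τ * g * τ⁻¹)) := by
    rw [hχg]
    exact hM
  have he : Even (orderOf (τ * g * τ⁻¹)) := by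
    apply M2_even hf h3 hM'
    rw [← map_pow, pow_orderOf_eq_one, map_one]
  obtain ⟨k, hk, hk3, hh⟩ := exists_pow hz he
  have h1 : χ h = χ g ^ k := by
    rw [hh, map_pow, hχg]
  exact (BD.transfer (s := 0) χ κ c (fun _ _ => 0) 1 0 (fun _ _ _ => 0) hf h3 hk hk3 h1 hM
    (fun j => j.elim0)).1 hg

/-- the conjugate cyclic subgroups, from the other side -/
theorem zpowers_symm {G : Type} [Group G] {g h τ : G}
    (hz : Subgroup.zpowers h = Subgroup.zpowers (τ * g * τ⁻¹)) :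
    Subgroup.zpowers g = Subgroup.zpowers (τ⁻¹ * h * τ⁻¹⁻¹) := by
  have h1 := congrArg (Subgroup.map (MulAut.conj τ⁻¹).toMonoidHom) hz
  rw [MonoidHom.map_zpowers, MonoidHom.map_zpowers] at h1
  have e1 : (MulAut.conj τ⁻¹).toMonoidHom h = τ⁻¹ * h * τ⁻¹⁻¹ := rfl
  have e2 : (MulAut.conj τ⁻¹).toMonoidHom (τ * g * τ⁻¹) = g := by
    show τ⁻¹ * (τ * g * τ⁻¹) * τ⁻¹⁻¹ = g
    group
  rw [e1, e2] at h1
  exact h1.symm

end DNS

open BDENS BD _root_.Pool.Agent.PTK.DNS in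
/-- PTK_DNS: upper bound for the density of a set of primes whose Frobenius elements are in a
subset stable under passing to another generator of a conjugate cyclic subgroup. -/
theorem DNS_thm (hDIR : DIR) : Stmt_DNS := by
  classical
  intro f m κ c L _ _ _ χ B S N₀ hf h9 hχ hB hBU hfrob hS
  have : NeZero f := ⟨hf.ne'⟩
  have h3 : 3 ∣ f := Dvd.dvd.trans (by norm_num) h9
  have hst : ∀ g h τ : L ≃ₐ[ℚ] L, g ∈ {g | InU χ κ c g ∧ ¬ B g} →
      Subgroup.zpowers h = Subgroup.zpowers (τ * g * τ⁻¹) →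
      h ∈ {g | InU χ κ c g ∧ ¬ B g} := fun g h τ hg hz =>
    ⟨inU_stable χ κ c hf h3 hg.1 hz, fun hb => hg.2 (hB h g τ⁻¹ hb (zpowers_symm hz))⟩
  obtain ⟨C1, hC1⟩ := RI.FROBD_thm L _ hst
  choose DC hDC using fun a : (ZMod f)ˣ => hDIR f a hf
  have hT := BD.card_T χ κ c hf hχ B
  obtain ⟨ST, hST⟩ : ∃ ST : Set ℕ, ST = {Q : ℕ | ∃ g ∈ {g | InU χ κ c g ∧
      ¬ B g}, ∃ P : Ideal (𝓞 L), P.IsPrime ∧ (Q : 𝓞 L) ∈ P ∧
      MulAction.stabilizer (L ≃ₐ[ℚ] L) P = Subgroup.zpowers g} := ⟨_, rfl⟩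
  obtain ⟨V, hV⟩ : ∃ V : Finset (ZMod f)ˣ, V = Finset.univ.filter fun a =>
      M2 a ∧ ((κ a).toAdd = c ∨ (κ a).toAdd = -c) := ⟨_, rfl⟩
  have hVc : V.card =
      Nat.card {a : (ZMod f)ˣ // M2 a ∧ ((κ a).toAdd = c ∨ (κ a).toAdd = -c)} := by
    rw [Nat.card_eq_fintype_card, Fintype.card_subtype, hV]
  have hM : ∀ (Q : ℕ) (hQ : Q.Coprime f), M2 (ZMod.unitOfCoprime Q hQ) ↔ Q % 3 = 2 := by
    intro Q hQ
    unfold M2
    rw [ZMod.coe_unitOfCoprime, ZMod.val_natCast, Nat.mod_mod_of_dvd _ h3]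
  have hcop : ∀ n : ℕ, n.Prime → n ∉ Finset.range (max N₀ f + 1) → n.Coprime f ∧ N₀ < n := by
    intro n hn hA
    rw [Finset.mem_range, not_lt] at hA
    refine ⟨(Nat.Prime.coprime_iff_not_dvd hn).2 fun h => ?_, ?_⟩
    · have h1 := Nat.le_of_dvd hf h
      have h2 := le_max_right N₀ f
      omega
    · have h2 := le_max_left N₀ f
      omega
  have hSTe : ∀ n : ℕ, n.Prime → n ∉ Finset.range (max N₀ f + 1) → n ∈ ST →
      n ∉ S ∧ ∃ (hQ : n.Coprime f) (g : L ≃ₐ[ℚ] L), InU χ κ c g ∧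
        χ g = ZMod.unitOfCoprime n hQ := by
    intro n hn hA hnST
    rw [hST] at hnST
    obtain ⟨g, hg, P, hP, hnP, hstab⟩ := hnST
    obtain ⟨hQ, hN⟩ := hcop n hn hA
    obtain ⟨⟨k, hk, hχk⟩, hkB⟩ := hfrob n hQ hn hN P g hP hnP hstab
    refine ⟨fun hnS => hg.2 (hkB hnS), hQ, g ^ k, ?_, hχk⟩
    refine (hst g (g ^ k) 1 hg ?_).1
    rw [one_mul, inv_one, mul_one]
    exact zpowers_pow_eq hk
  refine ⟨2 * (Finset.range (max N₀ f + 1)).card + ∑ a ∈ V, DC a + C1, fun σ h1 h2 => ?_⟩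
  have key := sm_add_le S ST {Q : ℕ | ∃ a ∈ V, (Q : ZMod f) = a}
    (Finset.range (max N₀ f + 1)) ?_ ?_ h1
  · have cov := sm_cover {Q : ℕ | ∃ a ∈ V, (Q : ZMod f) = a} V (fun n _ hn => hn) h1
    have hfr := hC1 σ h1 h2
    have hfr' : ((Nat.card {g : L ≃ₐ[ℚ] L // InU χ κ c g ∧ ¬ B g} : ℝ) /
        Nat.card (L ≃ₐ[ℚ] L)) * Real.log (1 / (σ - 1)) - C1 ≤ sm ST σ := by
      rw [hST]
      exact hfr
    have hsum : ∑ a ∈ V, ∑' q : {q : ℕ // q.Prime ∧ (q : ZMod f) = a}, (q : ℝ) ^ (-σ) ≤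
        ∑ a ∈ V, ((1 / (f.totient : ℝ)) * Real.log (1 / (σ - 1)) + DC a) :=
      Finset.sum_le_sum fun a _ => hDC a σ h1 h2
    rw [Finset.sum_add_distrib, Finset.sum_const, nsmul_eq_mul, hVc] at hsum
    have hlog : 0 ≤ Real.log (1 / (σ - 1)) := by
      apply Real.log_nonneg
      rw [le_div_iff₀ (by linarith)]
      linarith
    have hmul := mul_le_mul_of_nonneg_right hT hlog
    rw [sub_mul, mul_assoc] at hmul
    linarith
  · intro n hn hA hnB
    obtain ⟨hQ, hN⟩ := hcop n hn hA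
    obtain ⟨hn3, hnc⟩ := hS n hQ hn hN hnB
    constructor
    · refine ⟨ZMod.unitOfCoprime n hQ, ?_, ZMod.coe_unitOfCoprime n hQ⟩
      rw [hV]
      exact Finset.mem_filter.2 ⟨Finset.mem_univ _, (hM n hQ).2 hn3, hnc⟩
    · intro hnST
      exact (hSTe n hn hA hnST).1 hnB
  · intro n hn hA hnST
    obtain ⟨-, hQ', g, hgU, hχg⟩ := hSTe n hn hA hnST
    refine ⟨ZMod.unitOfCoprime n hQ', ?_, ZMod.coe_unitOfCoprime n hQ'⟩
    rw [hV]
    have h5 := hgU
    unfold InU at h5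
    rw [hχg] at h5
    exact Finset.mem_filter.2 ⟨Finset.mem_univ _, h5⟩

end Pool.Agent.PTK


end

section

/-!
# PTK_DNS1: upper bound for the density of a set of primes `Q = 1 (mod 3)` (helper67)

As `PTK/DNS.lean`, with `M1` in place of `M2`.
-/

set_option autoImplicit false

open NumberField IsDedekindDomain Finset
open scoped nonZeroDivisors Pointwise

namespace Pool.Agent.PTK

open Pool.Agent.Lib_helper18 Pool.Agent.Lib_helper18.Eis Pool.Agent.Lib_helper84.Cub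
open Pool.Agent.PT Pool.Agent.PTE Pool.Agent.PTL Pool.Agent.PTN

namespace DNS1

open BDENS BDU

/-- the set of the classes is stable under conjugation and change of generator -/
theorem inU_stable {G : Type} [Group G] [Finite G] {f m : ℕ} (χ : G →* (ZMod f)ˣ)
    (κ : (ZMod f)ˣ →* Multiplicative (Fin (m + 1) → ZMod 3)) (c : Fin (m + 1) → ZMod 3)
    (hf : 0 < f) (h3 : 3 ∣ f) {g h τ : G} (hg : BDU.InU χ κ c g)
    (hz : Subgroup.zpowers h = Subgroup.zpowers (τ * g * τ⁻¹)) : BDU.InU χ κ c h := by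
  have hM := hg.1
  have hχg : χ (τ * g * τ⁻¹) = χ g := by
    rw [map_mul, map_mul, map_inv, mul_comm (χ τ), mul_inv_cancel_right]
  obtain ⟨k, hk3, hh⟩ := exists_pow3 hz
  have h1 : χ h = χ g ^ k := by
    rw [hh, map_pow, hχg]
  exact (BDU.transfer (s := 0) χ κ c (fun _ _ => 0) 1 0 (fun _ => True) (fun _ _ _ => 0) hf h3
    hk3 h1 hM (fun _ => trivial) (fun _ j => j.elim0)).1 hg

end DNS1

open BDENS BDU _root_.Pool.Agent.PTK.DNS1 in
/-- PTK_DNS1: upper bound for the density of a set of primes `Q = 1 (mod 3)` whose Frobenius elements are in a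
subset stable under passing to another generator of a conjugate cyclic subgroup. -/
theorem DNS1_thm (hDIR : DIR) : Stmt_DNS1 := by
  classical
  intro f m κ c L _ _ _ χ B S N₀ hf h9 hχ hB hBU hfrob hS
  have : NeZero f := ⟨hf.ne'⟩
  have h3 : 3 ∣ f := Dvd.dvd.trans (by norm_num) h9
  have hst : ∀ g h τ : L ≃ₐ[ℚ] L, g ∈ {g | BDU.InU χ κ c g ∧ ¬ B g} →
      Subgroup.zpowers h = Subgroup.zpowers (τ * g * τ⁻¹) →
      h ∈ {g | BDU.InU χ κ c g ∧ ¬ B g} := fun g h τ hg hz =>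
    ⟨inU_stable χ κ c hf h3 hg.1 hz, fun hb => hg.2 (hB h g τ⁻¹ hb (DNS.zpowers_symm hz))⟩
  obtain ⟨C1, hC1⟩ := RI.FROBD_thm L _ hst
  choose DC hDC using fun a : (ZMod f)ˣ => hDIR f a hf
  have hT := BDU.card_T χ κ c hf hχ B
  obtain ⟨ST, hST⟩ : ∃ ST : Set ℕ, ST = {Q : ℕ | ∃ g ∈ {g | BDU.InU χ κ c g ∧
      ¬ B g}, ∃ P : Ideal (𝓞 L), P.IsPrime ∧ (Q : 𝓞 L) ∈ P ∧
      MulAction.stabilizer (L ≃ₐ[ℚ] L) P = Subgroup.zpowers g} := ⟨_, rfl⟩
  obtain ⟨V, hV⟩ : ∃ V : Finset (ZMod f)ˣ, V = Finset.univ.filter fun a =>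
      M1 a ∧ ((κ a).toAdd = c ∨ (κ a).toAdd = -c) := ⟨_, rfl⟩
  have hVc : V.card =
      Nat.card {a : (ZMod f)ˣ // M1 a ∧ ((κ a).toAdd = c ∨ (κ a).toAdd = -c)} := by
    rw [Nat.card_eq_fintype_card, Fintype.card_subtype, hV]
  have hM : ∀ (Q : ℕ) (hQ : Q.Coprime f), M1 (ZMod.unitOfCoprime Q hQ) ↔ Q % 3 = 1 := by
    intro Q hQ
    unfold M1
    rw [ZMod.coe_unitOfCoprime, ZMod.val_natCast, Nat.mod_mod_of_dvd _ h3]
  have hcop : ∀ n : ℕ, n.Prime → n ∉ Finset.range (max N₀ f + 1) → n.Coprime f ∧ N₀ < n := by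
    intro n hn hA
    rw [Finset.mem_range, not_lt] at hA
    refine ⟨(Nat.Prime.coprime_iff_not_dvd hn).2 fun h => ?_, ?_⟩
    · have h1 := Nat.le_of_dvd hf h
      have h2 := le_max_right N₀ f
      omega
    · have h2 := le_max_left N₀ f
      omega
  have hSTe : ∀ n : ℕ, n.Prime → n ∉ Finset.range (max N₀ f + 1) → n ∈ ST →
      n ∉ S ∧ ∃ (hQ : n.Coprime f) (g : L ≃ₐ[ℚ] L), BDU.InU χ κ c g ∧
        χ g = ZMod.unitOfCoprime n hQ := by
    intro n hn hA hnST
    rw [hST] at hnST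
    obtain ⟨g, hg, P, hP, hnP, hstab⟩ := hnST
    obtain ⟨hQ, hN⟩ := hcop n hn hA
    obtain ⟨⟨k, hk, hχk⟩, hkB⟩ := hfrob n hQ hn hN P g hP hnP hstab
    refine ⟨fun hnS => hg.2 (hkB hnS), hQ, g ^ k, ?_, hχk⟩
    refine (hst g (g ^ k) 1 hg ?_).1
    rw [one_mul, inv_one, mul_one]
    exact zpowers_pow_eq hk
  refine ⟨2 * (Finset.range (max N₀ f + 1)).card + ∑ a ∈ V, DC a + C1, fun σ h1 h2 => ?_⟩
  have key := sm_add_le S ST {Q : ℕ | ∃ a ∈ V, (Q : ZMod f) = a}
    (Finset.range (max N₀ f + 1)) ?_ ?_ h1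
  · have cov := sm_cover {Q : ℕ | ∃ a ∈ V, (Q : ZMod f) = a} V (fun n _ hn => hn) h1
    have hfr := hC1 σ h1 h2
    have hfr' : ((Nat.card {g : L ≃ₐ[ℚ] L // BDU.InU χ κ c g ∧ ¬ B g} : ℝ) /
        Nat.card (L ≃ₐ[ℚ] L)) * Real.log (1 / (σ - 1)) - C1 ≤ sm ST σ := by
      rw [hST]
      exact hfr
    have hsum : ∑ a ∈ V, ∑' q : {q : ℕ // q.Prime ∧ (q : ZMod f) = a}, (q : ℝ) ^ (-σ) ≤
        ∑ a ∈ V, ((1 / (f.totient : ℝ)) * Real.log (1 / (σ - 1)) + DC a) :=
      Finset.sum_le_sum fun a _ => hDC a σ h1 h2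
    rw [Finset.sum_add_distrib, Finset.sum_const, nsmul_eq_mul, hVc] at hsum
    have hlog : 0 ≤ Real.log (1 / (σ - 1)) := by
      apply Real.log_nonneg
      rw [le_div_iff₀ (by linarith)]
      linarith
    have hmul := mul_le_mul_of_nonneg_right hT hlog
    rw [sub_mul, mul_assoc] at hmul
    linarith
  · intro n hn hA hnB
    obtain ⟨hQ, hN⟩ := hcop n hn hA
    obtain ⟨hn3, hnc⟩ := hS n hQ hn hN hnB
    constructor
    · refine ⟨ZMod.unitOfCoprime n hQ, ?_, ZMod.coe_unitOfCoprime n hQ⟩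
      rw [hV]
      exact Finset.mem_filter.2 ⟨Finset.mem_univ _, (hM n hQ).2 hn3, hnc⟩
    · intro hnST
      exact (hSTe n hn hA hnST).1 hnB
  · intro n hn hA hnST
    obtain ⟨-, hQ', g, hgU, hχg⟩ := hSTe n hn hA hnST
    refine ⟨ZMod.unitOfCoprime n hQ', ?_, ZMod.coe_unitOfCoprime n hQ'⟩
    rw [hV]
    have h5 := hgU
    unfold BDU.InU at h5
    rw [hχg] at h5
    exact Finset.mem_filter.2 ⟨Finset.mem_univ _, h5⟩

end Pool.Agent.PTK


end

section

/-!
# ESR: the recursion for the corank of a random skew-symmetric matrix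
-/

set_option autoImplicit false

namespace Pool.Agent.PTK

open Pool.Agent.PTL

namespace ESR

open Matrix

instance : Fact (Nat.Prime 3) := ⟨Nat.prime_three⟩

variable {s : ℕ}

/-- the large matrix -/
def big (A : Matrix (Fin s) (Fin s) (ZMod 3)) (x : Fin s → ZMod 3) :
    Matrix (Fin (s + 1)) (Fin (s + 1)) (ZMod 3) :=
  Matrix.of (Fin.cons (Fin.cons 0 (-x)) fun i => Fin.cons (x i) (A i))

theorem big_mulVec (A : Matrix (Fin s) (Fin s) (ZMod 3)) (x y : Fin s → ZMod 3) (t : ZMod 3) :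
    (big A x).mulVec (Fin.cons t y) = Fin.cons (-(x ⬝ᵥ y)) fun i => x i * t + A.mulVec y i := by
  funext i
  refine Fin.cases ?_ (fun i => ?_) i
  · simp [big, Matrix.mulVec, dotProduct, Fin.sum_univ_succ]
  · simp [big, Matrix.mulVec, dotProduct, Fin.sum_univ_succ]

theorem big_ker (A : Matrix (Fin s) (Fin s) (ZMod 3)) (x y : Fin s → ZMod 3) (t : ZMod 3) :
    (big A x).mulVec (Fin.cons t y) = 0 ↔ x ⬝ᵥ y = 0 ∧ t • x + A.mulVec y = 0 := by
  rw [big_mulVec]
  constructor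
  · intro h
    refine ⟨?_, ?_⟩
    · have h1 := congrFun h 0
      simpa using h1
    · funext i
      have h1 := congrFun h i.succ
      simp only [Fin.cons_succ, Pi.zero_apply] at h1
      simp only [Pi.add_apply, Pi.smul_apply, smul_eq_mul, Pi.zero_apply]
      rw [mul_comm]
      exact h1
  · rintro ⟨h1, h2⟩
    funext i
    refine Fin.cases ?_ (fun i => ?_) i
    · simp [h1]
    · have h3 := congrFun h2 i
      simp only [Pi.add_apply, Pi.smul_apply, smul_eq_mul, Pi.zero_apply] at h3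
      simp only [Fin.cons_succ, Pi.zero_apply]
      rw [mul_comm]
      exact h3

/-- the number of the vectors in the kernel -/
theorem card_ker (n : ℕ) (A : Matrix (Fin n) (Fin n) (ZMod 3)) :
    Nat.card {x : Fin n → ZMod 3 // A.mulVec x = 0} = 3 ^ (n - A.rank) := by
  have hker : Module.finrank (ZMod 3) (LinearMap.ker A.mulVecLin) = n - A.rank := by
    have h1 := LinearMap.finrank_range_add_finrank_ker A.mulVecLin
    rw [Module.finrank_fintype_fun_eq_card, Fintype.card_fin] at h1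
    have h2 : Module.finrank (ZMod 3) (LinearMap.range A.mulVecLin) = A.rank := rfl
    omega
  have h1 := Module.natCard_eq_pow_finrank (K := ZMod 3) (V := LinearMap.ker A.mulVecLin)
  rw [Nat.card_zmod, hker] at h1
  exact h1

theorem skew_dot {A : Matrix (Fin s) (Fin s) (ZMod 3)} (hA : A.transpose = -A)
    (y z : Fin s → ZMod 3) : A.mulVec z ⬝ᵥ y = -(z ⬝ᵥ A.mulVec y) := by
  rw [dotProduct_comm, dotProduct_mulVec, ← mulVec_transpose, hA, neg_mulVec, neg_dotProduct,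
    dotProduct_comm]

theorem alt_dot {A : Matrix (Fin s) (Fin s) (ZMod 3)} (hA : A.transpose = -A)
    (z : Fin s → ZMod 3) : z ⬝ᵥ A.mulVec z = 0 := by
  have h1 := skew_dot hA z z
  rw [dotProduct_comm] at h1
  revert h1
  generalize z ⬝ᵥ A.mulVec z = d
  revert d
  decide

/-- the column is in the range -/
theorem case1 {A : Matrix (Fin s) (Fin s) (ZMod 3)} (hA : A.transpose = -A)
    (z : Fin s → ZMod 3) :
    s + 1 - (big A (A.mulVec z)).rank = s - A.rank + 1 := by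
  have h1 : Nat.card {v : Fin (s + 1) → ZMod 3 // (big A (A.mulVec z)).mulVec v = 0} =
      Nat.card (ZMod 3 × {y : Fin s → ZMod 3 // A.mulVec y = 0}) := by
    refine Nat.card_congr
      { toFun := fun v => (v.1 0, ⟨Fin.tail v.1 + v.1 0 • z, ?_⟩)
        invFun := fun w => ⟨Fin.cons w.1 (w.2.1 - w.1 • z), ?_⟩
        left_inv := ?_
        right_inv := ?_ }
    · have h2 := v.2
      rw [← Fin.cons_self_tail v.1, big_ker] at h2
      rw [mulVec_add, mulVec_smul, add_comm]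
      simpa using h2.2
    · rw [big_ker, skew_dot hA, mulVec_sub, mulVec_smul, w.2.2, zero_sub, dotProduct_neg,
        dotProduct_smul, alt_dot hA]
      simp
    · intro v
      refine Subtype.ext ?_
      simp only [add_sub_cancel_right]
      exact Fin.cons_self_tail v.1
    · intro w
      refine Prod.ext (by simp) (Subtype.ext ?_)
      simp
  rw [card_ker, Nat.card_prod, card_ker, Nat.card_zmod, mul_comm, ← pow_succ] at h1
  exact Nat.pow_right_injective (by norm_num : 2 ≤ 3) h1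

/-- the dot product with `x` on the kernel -/
def phi (A : Matrix (Fin s) (Fin s) (ZMod 3)) (x : Fin s → ZMod 3) :
    Module.Dual (ZMod 3) (LinearMap.ker A.mulVecLin) :=
  (dotProductBilin (ZMod 3) (ZMod 3) x).comp (Submodule.subtype _)

theorem phi_ne {A : Matrix (Fin s) (Fin s) (ZMod 3)} (hA : A.transpose = -A)
    {x : Fin s → ZMod 3} (hx : ∀ z, A.mulVec z ≠ x) : phi A x ≠ 0 := by
  intro h
  have h1 : (dotProductBilin (ZMod 3) (ZMod 3) x : Module.Dual (ZMod 3) (Fin s → ZMod 3)) ∈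
      (LinearMap.ker A.mulVecLin).dualAnnihilator := by
    rw [Submodule.mem_dualAnnihilator]
    intro y hy
    exact LinearMap.congr_fun h ⟨y, hy⟩
  rw [← LinearMap.range_dualMap_eq_dualAnnihilator_ker] at h1
  obtain ⟨ψ, hψ⟩ := h1
  obtain ⟨w, rfl⟩ := (dotProductEquiv (ZMod 3) (Fin s)).surjective ψ
  refine hx (-w) ?_
  have h2 : ∀ y, x ⬝ᵥ y = (A.mulVec (-w)) ⬝ᵥ y := by
    intro y
    have h3 := LinearMap.congr_fun hψ y
    have h4 : w ⬝ᵥ A.mulVec y = x ⬝ᵥ y := by simpa using h3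
    rw [skew_dot hA, neg_dotProduct, neg_neg, h4]
  exact (dotProduct_eq _ _ h2).symm

/-- the column is not in the range -/
theorem case2 {A : Matrix (Fin s) (Fin s) (ZMod 3)} (hA : A.transpose = -A)
    {x : Fin s → ZMod 3} (hx : ∀ z, A.mulVec z ≠ x) :
    s + 1 - (big A x).rank = s - A.rank - 1 := by
  have h1 : Nat.card {v : Fin (s + 1) → ZMod 3 // (big A x).mulVec v = 0} =
      Nat.card (LinearMap.ker (phi A x)) := by
    have ht : ∀ v : {v : Fin (s + 1) → ZMod 3 // (big A x).mulVec v = 0},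
        v.1 0 = 0 ∧ A.mulVec (Fin.tail v.1) = 0 ∧ x ⬝ᵥ Fin.tail v.1 = 0 := by
      intro v
      have h2 := v.2
      rw [← Fin.cons_self_tail v.1, big_ker] at h2
      have h3 : v.1 0 = 0 := by
        by_contra h0
        refine hx (-(v.1 0)⁻¹ • Fin.tail v.1) ?_
        have h4 : A.mulVec (Fin.tail v.1) = -(v.1 0 • x) := by
          rw [eq_neg_iff_add_eq_zero, add_comm]
          exact h2.2
        rw [mulVec_smul, h4, smul_neg, neg_smul, neg_neg, smul_smul, inv_mul_cancel₀ h0,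
          one_smul]
      refine ⟨h3, ?_, h2.1⟩
      have h4 := h2.2
      rwa [h3, zero_smul, zero_add] at h4
    refine Nat.card_congr
      { toFun := fun v => ⟨⟨Fin.tail v.1, (ht v).2.1⟩, (ht v).2.2⟩
        invFun := fun w => ⟨Fin.cons 0 w.1.1, ?_⟩
        left_inv := ?_
        right_inv := ?_ }
    · rw [big_ker, zero_smul, zero_add]
      exact ⟨w.2, w.1.2⟩
    · intro v
      refine Subtype.ext ?_
      have h3 := Fin.cons_self_tail v.1
      rw [(ht v).1] at h3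
      exact h3
    · intro w
      refine Subtype.ext (Subtype.ext ?_)
      simp
  have h2 := Module.Dual.finrank_ker_add_one_of_ne_zero (phi_ne hA hx)
  have h3 : Module.finrank (ZMod 3) (LinearMap.ker A.mulVecLin) = s - A.rank := by
    have h1 := LinearMap.finrank_range_add_finrank_ker A.mulVecLin
    rw [Module.finrank_fintype_fun_eq_card, Fintype.card_fin] at h1
    have h2 : Module.finrank (ZMod 3) (LinearMap.range A.mulVecLin) = A.rank := rfl
    omega
  have h4 := Module.natCard_eq_pow_finrank (K := ZMod 3) (V := LinearMap.ker (phi A x))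
  rw [Nat.card_zmod] at h4
  rw [card_ker, h4] at h1
  have h5 := Nat.pow_right_injective (by norm_num : 2 ≤ 3) h1
  omega

/-- the number of the columns in the range -/
theorem card_range (A : Matrix (Fin s) (Fin s) (ZMod 3)) :
    Nat.card {x : Fin s → ZMod 3 // ∃ z, A.mulVec z = x} = 3 ^ A.rank := by
  have h1 := Module.natCard_eq_pow_finrank (K := ZMod 3) (V := LinearMap.range A.mulVecLin)
  rw [Nat.card_zmod] at h1
  exact h1

/-- the skew-symmetric matrices -/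
abbrev Sk (s : ℕ) := {M : Matrix (Fin s) (Fin s) (ZMod 3) // M.transpose = -M}

/-- the sum over the columns -/
theorem sum_col {A : Matrix (Fin s) (Fin s) (ZMod 3)} (hA : A.transpose = -A) (F : ℕ → ℝ) :
    ∑ x : Fin s → ZMod 3, F (s + 1 - (big A x).rank) =
      3 ^ s * ((1 - 1 / 3 ^ (s - A.rank)) * F (s - A.rank - 1) +
        1 / 3 ^ (s - A.rank) * F (s - A.rank + 1)) := by
  classical
  have h1 : ∀ x : Fin s → ZMod 3, F (s + 1 - (big A x).rank) =
      F (s - A.rank - 1) + if ∃ z, A.mulVec z = x then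
        F (s - A.rank + 1) - F (s - A.rank - 1) else 0 := by
    intro x
    split_ifs with h
    · obtain ⟨z, rfl⟩ := h
      rw [case1 hA]
      ring
    · rw [case2 hA fun z hz => h ⟨z, hz⟩, add_zero]
  rw [Finset.sum_congr rfl fun x _ => h1 x, Finset.sum_add_distrib, Finset.sum_const,
    Finset.sum_ite, Finset.sum_const_zero, add_zero, Finset.sum_const]
  have h2 := card_range A
  rw [Nat.card_eq_fintype_card, Fintype.card_subtype] at h2
  rw [h2]
  have h3 : A.rank ≤ s := by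
    have h4 := A.rank_le_card_height
    rwa [Fintype.card_fin] at h4
  have h5 : (3 : ℝ) ^ s = 3 ^ (s - A.rank) * 3 ^ A.rank := by
    rw [← pow_add]
    congr 1
    omega
  rw [Finset.card_univ, Fintype.card_fun, Fintype.card_fin, ZMod.card, nsmul_eq_mul, nsmul_eq_mul]
  push_cast
  rw [h5]
  field_simp
  ring

theorem big_skew {A : Matrix (Fin s) (Fin s) (ZMod 3)} (hA : A.transpose = -A)
    (x : Fin s → ZMod 3) : (big A x).transpose = -(big A x) := by
  have hsk : ∀ i j, A j i = - A i j := fun i j => by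
    have h1 := congrFun (congrFun hA i) j
    rw [transpose_apply, neg_apply] at h1
    exact h1
  ext i j
  refine Fin.cases ?_ (fun i => ?_) i <;> refine Fin.cases ?_ (fun j => ?_) j
  · simp [big]
  · simp [big]
  · simp [big]
  · simp [big, hsk i j]

/-- a matrix of size `s + 1` -/
def eqv (s : ℕ) : Sk (s + 1) ≃ Sk s × (Fin s → ZMod 3) where
  toFun M := (⟨fun i j => M.1 i.succ j.succ, by
    ext i j
    have h1 := congrFun (congrFun M.2 i.succ) j.succ
    rw [transpose_apply, neg_apply] at h1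
    exact h1⟩, fun i => M.1 i.succ 0)
  invFun z := ⟨big z.1.1 z.2, big_skew z.1.2 z.2⟩
  left_inv M := by
    have hsk : ∀ i j, M.1 j i = - M.1 i j := fun i j => by
      have h1 := congrFun (congrFun M.2 i) j
      rw [transpose_apply, neg_apply] at h1
      exact h1
    have hd : ∀ j, M.1 j j = 0 := fun j => by
      have h1 := hsk j j
      revert h1
      generalize M.1 j j = d
      revert d
      decide
    refine Subtype.ext ?_
    ext i j
    refine Fin.cases ?_ (fun i => ?_) i <;> refine Fin.cases ?_ (fun j => ?_) j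
    · simp [big, hd]
    · simp [big, hsk j.succ 0]
    · simp [big]
    · simp [big]
  right_inv z := by
    refine Prod.ext (Subtype.ext ?_) ?_
    · ext i j
      simp [big]
    · funext i
      simp [big]

end ESR

open _root_.Pool.Agent.PTK.ESR in
theorem ESR_thm : Stmt_ESR := by
  classical
  intro s F
  unfold Esk
  have : Fintype (Sk s) := Fintype.ofFinite _
  have : Fintype (Sk (s + 1)) := Fintype.ofFinite _
  rw [finsum_eq_sum_of_fintype, finsum_eq_sum_of_fintype, Nat.card_congr (eqv s), Nat.card_prod,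
    ← (eqv s).symm.sum_comp, Fintype.sum_prod_type]
  have h1 : ∀ A : Sk s, ∑ x : Fin s → ZMod 3, F (s + 1 - ((eqv s).symm (A, x)).1.rank) =
      3 ^ s * ((1 - 1 / 3 ^ (s - A.1.rank)) * F (s - A.1.rank - 1) +
        1 / 3 ^ (s - A.1.rank) * F (s - A.1.rank + 1)) := fun A => sum_col A.2 F
  rw [Finset.sum_congr rfl fun A _ => h1 A, ← Finset.mul_sum]
  have h2 : (Nat.card (Fin s → ZMod 3) : ℝ) = 3 ^ s := by
    rw [Nat.card_eq_fintype_card, Fintype.card_fun, Fintype.card_fin, ZMod.card]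
    push_cast
    rfl
  rw [Nat.cast_mul, h2, mul_comm (Nat.card (Sk s) : ℝ), mul_div_mul_left _ _ (by positivity)]

end Pool.Agent.PTK


end

section

/-!
# PTK_JP2: joint averages, `q = 2 (mod 3)`
-/

set_option autoImplicit false

open NumberField IsDedekindDomain Finset
open scoped nonZeroDivisors Pointwise

namespace Pool.Agent.PTK

open Pool.Agent.Lib_helper18 Pool.Agent.Lib_helper18.Eis Pool.Agent.Lib_helper84.Cub
open Pool.Agent.PT Pool.Agent.PTE Pool.Agent.PT3 Pool.Agent.PTL Pool.Agent.PTN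

namespace JP2

theorem Esk_nonneg (s : ℕ) (F : ℕ → ℝ) (hF : ∀ c, 0 ≤ F c) : 0 ≤ Esk s F := by
  unfold Esk
  haveI := Fintype.ofFinite {M : Matrix (Fin s) (Fin s) (ZMod 3) // M.transpose = -M}
  rw [finsum_eq_sum_of_fintype]
  exact div_nonneg (Finset.sum_nonneg fun M _ => hF _) (Nat.cast_nonneg _)

end JP2

open _root_.Pool.Agent.PTK.JP2 in
theorem JP2_thm (hWSM : Stmt_WSM) (hKUM : Stmt_KUM) (hMT2 : Stmt_MT2) : Stmt_JP2 := by
  intro h n m k π p e r f w0 c s τ b X Y P Q P' Q' hNF hh hS k₀ F hF hF0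
  have hFn : ∀ c, 0 ≤ F c := fun c => hF0.trans (hF (Nat.zero_le c))
  refine hWSM h n m k π p e r f w0 c hNF hh k₀
    (fun E => {q | q % 3 = 2 ∧ InCT E π w0 c q})
    (fun E q => F (kS h n b X Y P Q P' Q' E q)) (Esk s F / 3 ^ (m + 1))
    (div_nonneg (Esk_nonneg s F hFn) (by positivity)) (fun E q => hFn _) ?_
  intro M N y α β hT
  have h1 := hKUM
    (fun E => {q | q ∈ {q | q % 3 = 2 ∧ InCT E π w0 c q} ∧
      ∀ j, Occ (BB h n E q) (zN π e (y (α j)))})
    (fun E q => kS h n b X Y P Q P' Q' E q) s 0 (1 / 3 ^ N / 3 ^ (m + 1)) (by positivity)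
    (fun E q _ _ _ _ => Nat.sub_le _ _) ?_ F hF hF0
  · have e1 : Esk s F * (1 / 3 ^ N / 3 ^ (m + 1)) = Esk s F / 3 ^ (m + 1) / 3 ^ N := by
      field_simp
    rw [e1] at h1
    exact h1
  · intro t
    obtain ⟨K, hK⟩ := hMT2 h n m k π p e r f w0 c s τ b X Y P Q P' Q' hNF hh hS M N y α β hT t
    refine ⟨K, fun σ h1 h2 => ?_⟩
    have h3 := hK σ h1 h2
    have hset : ∀ E : ℕ, {q | q ∈ {q | q ∈ {q | q % 3 = 2 ∧ InCT E π w0 c q} ∧
        ∀ j, Occ (BB h n E q) (zN π e (y (α j)))} ∧ t ≤ kS h n b X Y P Q P' Q' E q} =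
        {q | q ∈ QM h n π e w0 c y α 2 E ∧ t ≤ kS h n b X Y P Q P' Q' E q} := by
      intro E
      ext q
      exact and_congr_left fun _ => and_assoc
    rw [← hset, ← hset] at h3
    exact h3

end Pool.Agent.PTK


end

section

/-!
# JZ: existence of the joint governing field
-/

set_option autoImplicit false

open NumberField IsDedekindDomain Finset
open scoped nonZeroDivisors Pointwise

namespace Pool.Agent.PTK

open Pool.Agent.Lib_helper18 Pool.Agent.Lib_helper18.Eis Pool.Agent.Lib_helper84.Cub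
open Pool.Agent.PT Pool.Agent.PTE Pool.Agent.PT3 Pool.Agent.PTL Pool.Agent.PTN

namespace JZ

/-- ring homomorphisms from the Eisenstein integers to fields of characteristic zero are injective -/
theorem inj0 {L : Type} [Field L] [CharZero L] (ι : Eis →+* L) : Function.Injective ι := by
  rw [injective_iff_map_eq_zero]
  intro a ha
  have h1 : ι (a * conj a) = 0 := by rw [map_mul, ha, zero_mul]
  rw [mul_conj, map_intCast] at h1
  have h2 : a.norm = 0 := by exact_mod_cast h1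
  exact norm_eq_zero.1 h2

theorem ne_of_prodE {L : Type} [Field L] [CharZero L] (ι : Eis →+* L) {p q p' q' x : Eis} {ρ : L}
    (h1 : p ^ 3 + x * q ^ 3 ≠ 0) (h2 : p' ^ 3 + x * q' ^ 3 ≠ 0) (hρ : ρ ^ 3 = ι x) :
    aDE ι p q p' q' ρ ≠ 0 ∧ aNE ι p q p' q' ρ ≠ 0 := by
  have hω : ι w ^ 2 + ι w + 1 = 0 := by
    rw [← map_pow, ← map_add, ← map_one ι, ← map_add, w_rel, map_zero]
  have h3 : ι w ^ 3 = 1 := by linear_combination (ι w - 1) * hω
  have key : aDE ι p q p' q' ρ * aNE ι p q p' q' ρ *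
      ((ι p + ι q * ρ) * (ι p' + ι q' * ρ)) =
      ι (p ^ 3 + x * q ^ 3) * ι (p' ^ 3 + x * q' ^ 3) := by
    have e1 : ∀ u v : L, (u + v * ι w ^ 2 * ρ) * (u + v * ι w * ρ) * (u + v * ρ) =
        u ^ 3 + v ^ 3 * ρ ^ 3 := by
      intro u v
      linear_combination (u ^ 2 * v * ρ + u * v ^ 2 * ρ ^ 2 * ι w) * hω + v ^ 3 * ρ ^ 3 * h3
    have e2 := e1 (ι p) (ι q)
    have e3 := e1 (ι p') (ι q')
    rw [hρ] at e2 e3
    unfold aDE aNE
    rw [map_add, map_add, map_mul, map_mul, map_pow, map_pow, map_pow, map_pow]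
    linear_combination ((ι p' + ι q' * ι w ^ 2 * ρ) * (ι p' + ι q' * ι w * ρ) *
      (ι p' + ι q' * ρ)) * e2 + ((ι p) ^ 3 + ι q ^ 3 * ι x) * e3
  have hi := inj0 ι
  have hne : ι (p ^ 3 + x * q ^ 3) * ι (p' ^ 3 + x * q' ^ 3) ≠ 0 :=
    mul_ne_zero ((map_ne_zero_iff ι hi).2 h1) ((map_ne_zero_iff ι hi).2 h2)
  rw [← key] at hne
  exact ⟨left_ne_zero_of_mul (left_ne_zero_of_mul hne),
    right_ne_zero_of_mul (left_ne_zero_of_mul hne)⟩

theorem fin_roots (c : AlgebraicClosure ℚ) : {ρ : AlgebraicClosure ℚ | ρ ^ 3 = c}.Finite := by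
  classical
  refine (Polynomial.nthRoots 3 c).toFinset.finite_toSet.subset ?_
  intro ρ hρ
  simp only [Finset.mem_coe, Multiset.mem_toFinset]
  exact (Polynomial.mem_nthRoots (by norm_num)).2 hρ

end JZ

open _root_.Pool.Agent.PTK.JZ Pool.Agent.PT.GZERO in
/-- JZ: existence of the joint governing field. -/
theorem JZ_thm : Stmt_JZ := by
  intro s k b p q p' q' x u P Q P' Q' f hSys hSysK hf h9
  have : NeZero (f : AlgebraicClosure ℚ) := ⟨Nat.cast_ne_zero.2 hf.ne'⟩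
  have : NeZero f := ⟨hf.ne'⟩
  obtain ⟨ζ, hζ⟩ := HasEnoughRootsOfUnity.exists_primitiveRoot (AlgebraicClosure ℚ) f
  have hω := rel_of_prim (prim_pow hf h9 hζ)
  set ι₀ : Eis →+* AlgebraicClosure ℚ := GFR.lift (ζ ^ (f / 3)) hω with hι₀
  -- the plus part
  have hN : ∀ j i, j ≠ i → p j i ^ 3 + b j * q j i ^ 3 ≠ 0 ∧
      p' j i ^ 3 + b j * q' j i ^ 3 ≠ 0 := by
    intro j i hji
    have h1 := hSys.sol j i hji
    refine ⟨h1.n1, fun h2 => h1.n1 ?_⟩
    rw [h1.eq, h2, mul_zero]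
  have hA : ∀ (j i : Fin s) (ρ : AlgebraicClosure ℚ), ∃ A : AlgebraicClosure ℚ, j ≠ i →
      ρ ^ 3 = (b j : AlgebraicClosure ℚ) →
      A ^ 3 * aD (ζ ^ (f / 3)) (p j i) (q j i) (p' j i) (q' j i) ρ =
        aN (ζ ^ (f / 3)) (p j i) (q j i) (p' j i) (q' j i) ρ := by
    intro j i ρ
    obtain ⟨A, hA⟩ := IsAlgClosed.exists_pow_nat_eq
      (aN (ζ ^ (f / 3)) (p j i) (q j i) (p' j i) (q' j i) ρ /
        aD (ζ ^ (f / 3)) (p j i) (q j i) (p' j i) (q' j i) ρ) (n := 3) (by norm_num)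
    refine ⟨A, fun hji hρ => ?_⟩
    rw [hA, div_mul_cancel₀]
    exact (ne_of_prod hω (hN j i hji).1 (hN j i hji).2 hρ).1
  choose A hA using hA
  -- the minus part
  have hNK : ∀ j, P j ^ 3 + x * Q j ^ 3 ≠ 0 ∧ P' j ^ 3 + x * Q' j ^ 3 ≠ 0 := by
    intro j
    have h1 := hSysK.sol j
    refine ⟨h1.n1, fun h2 => h1.n1 ?_⟩
    rw [h1.eq, h2, mul_zero]
  have hB : ∀ (j : Fin k) (ρ : AlgebraicClosure ℚ), ∃ A : AlgebraicClosure ℚ, ρ ^ 3 = ι₀ x →
      A ^ 3 * aDE ι₀ (P j) (Q j) (P' j) (Q' j) ρ = aNE ι₀ (P j) (Q j) (P' j) (Q' j) ρ := by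
    intro j ρ
    obtain ⟨A, hA⟩ := IsAlgClosed.exists_pow_nat_eq
      (aNE ι₀ (P j) (Q j) (P' j) (Q' j) ρ / aDE ι₀ (P j) (Q j) (P' j) (Q' j) ρ) (n := 3)
      (by norm_num)
    refine ⟨A, fun hρ => ?_⟩
    rw [hA, div_mul_cancel₀]
    exact (ne_of_prodE ι₀ (hNK j).1 (hNK j).2 hρ).1
  choose B hB using hB
  have hroot : ∀ c : AlgebraicClosure ℚ, ∃ θ : AlgebraicClosure ℚ, θ ^ 3 = c :=
    fun c => IsAlgClosed.exists_pow_nat_eq _ (by norm_num)
  obtain ⟨L, iF, iN, iG, ι, hι⟩ := exists_field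
    ({ζ} ∪ ((⋃ j : Fin s, {ρ | ρ ^ 3 = (b j : AlgebraicClosure ℚ)}) ∪
      ({ρ | ρ ^ 3 = ι₀ x} ∪ ((⋃ j : Fin k, {ρ | ρ ^ 3 = ι₀ (u j)}) ∪
        ((⋃ j : Fin s, ⋃ i : Fin s, A j i '' {ρ | ρ ^ 3 = (b j : AlgebraicClosure ℚ)}) ∪
          ⋃ j : Fin k, B j '' {ρ | ρ ^ 3 = ι₀ x})))))
    ((Set.finite_singleton ζ).union ((Set.finite_iUnion fun j => fin_roots _).union
      ((fin_roots _).union ((Set.finite_iUnion fun j => fin_roots _).union
        ((Set.finite_iUnion fun j => Set.finite_iUnion fun i => (fin_roots _).image _).union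
          (Set.finite_iUnion fun j => (fin_roots _).image _))))))
  have hinj : Function.Injective ι := ι.injective
  obtain ⟨z, hz⟩ := hι ζ (Or.inl rfl)
  have hzp : IsPrimitiveRoot z f := by
    refine IsPrimitiveRoot.of_map_of_injective (f := ι) ?_ hinj
    rw [hz]
    exact hζ
  have hzω : ι (z ^ (f / 3)) = ζ ^ (f / 3) := by rw [map_pow, hz]
  have hrel := rel_of_prim (prim_pow hf h9 hzp)
  set κ : Eis →+* L := GFR.lift (z ^ (f / 3)) hrel with hκ
  have hκw : κ w = z ^ (f / 3) := GFR.lift_w _ _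
  have hcomp : ∀ a : Eis, ι (κ a) = ι₀ a := by
    intro a
    change ι ((a.re : L) + (a.im : L) * z ^ (f / 3)) =
      (a.re : AlgebraicClosure ℚ) + (a.im : AlgebraicClosure ℚ) * ζ ^ (f / 3)
    rw [map_add, map_mul, map_intCast, map_intCast, hzω]
  have hNmap : ∀ (u v u' v' : ℤ) (ρ : L), ι (aN (z ^ (f / 3)) u v u' v' ρ) =
      aN (ζ ^ (f / 3)) u v u' v' (ι ρ) := by
    intro u v u' v' ρ
    unfold aN
    simp only [map_mul, map_add, map_pow, map_intCast, hz]
  have hDmap : ∀ (u v u' v' : ℤ) (ρ : L), ι (aD (z ^ (f / 3)) u v u' v' ρ) =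
      aD (ζ ^ (f / 3)) u v u' v' (ι ρ) := by
    intro u v u' v' ρ
    unfold aD
    simp only [map_mul, map_add, map_pow, map_intCast, hz]
  have hNmapE : ∀ (a c a' c' : Eis) (ρ : L), ι (aNE κ a c a' c' ρ) =
      aNE ι₀ a c a' c' (ι ρ) := by
    intro a c a' c' ρ
    unfold aNE
    simp only [map_mul, map_add, map_pow, hcomp]
  have hDmapE : ∀ (a c a' c' : Eis) (ρ : L), ι (aDE κ a c a' c' ρ) =
      aDE ι₀ a c a' c' (ι ρ) := by
    intro a c a' c' ρ
    unfold aDE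
    simp only [map_mul, map_add, map_pow, hcomp]
  refine ⟨L, iF, iN, z, κ, ?_, ?_⟩
  · rw [hκw]
    refine ⟨iG, hzp, h9, rfl, hrel, ?_, ?_, ?_⟩
    · intro j
      obtain ⟨θ, hθ⟩ := hroot (b j : AlgebraicClosure ℚ)
      obtain ⟨y, hy⟩ := hι θ (Or.inr (Or.inl (Set.mem_iUnion.2 ⟨j, hθ⟩)))
      refine ⟨y, hinj ?_⟩
      rw [map_pow, hy, hθ, map_intCast]
    · intro j i hji ρ hρ
      have hρ' : (ι ρ) ^ 3 = (b j : AlgebraicClosure ℚ) := by rw [← map_pow, hρ, map_intCast]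
      obtain ⟨y, hy⟩ := hι (A j i (ι ρ)) (Or.inr (Or.inr (Or.inr (Or.inr (Or.inl
        (Set.mem_iUnion.2 ⟨j, Set.mem_iUnion.2 ⟨i, ⟨ι ρ, hρ', rfl⟩⟩⟩))))))
      refine ⟨y, hinj ?_⟩
      rw [map_mul, map_pow, hy, hDmap, hNmap]
      exact hA j i (ι ρ) hji hρ'
    · intro j i hji ρ hρ
      exact ne_of_prod hrel (hN j i hji).1 (hN j i hji).2 hρ
  · refine ⟨iG, hzp, h9, hκw, ?_, ?_, ?_, ?_⟩
    · obtain ⟨θ, hθ⟩ := hroot (ι₀ x)
      obtain ⟨y, hy⟩ := hι θ (Or.inr (Or.inr (Or.inl hθ)))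
      refine ⟨y, hinj ?_⟩
      rw [map_pow, hy, hθ, hcomp]
    · intro j
      obtain ⟨θ, hθ⟩ := hroot (ι₀ (u j))
      obtain ⟨y, hy⟩ := hι θ (Or.inr (Or.inr (Or.inr (Or.inl (Set.mem_iUnion.2 ⟨j, hθ⟩)))))
      refine ⟨y, hinj ?_⟩
      rw [map_pow, hy, hθ, hcomp]
    · intro j ρ hρ
      have hρ' : (ι ρ) ^ 3 = ι₀ x := by rw [← map_pow, hρ, hcomp]
      obtain ⟨y, hy⟩ := hι (B j (ι ρ)) (Or.inr (Or.inr (Or.inr (Or.inr (Or.inr
        (Set.mem_iUnion.2 ⟨j, ⟨ι ρ, hρ', rfl⟩⟩))))))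
      refine ⟨y, hinj ?_⟩
      rw [map_mul, map_pow, hy, hDmapE, hNmapE]
      exact hB j (ι ρ) hρ'
    · intro j ρ hρ
      exact ne_of_prodE κ (hNK j).1 (hNK j).2 hρ

end Pool.Agent.PTK


end

section

/-!
# MZF: existence of the joint governing field, several base classes
-/

set_option autoImplicit false

open NumberField IsDedekindDomain Finset
open scoped nonZeroDivisors Pointwise

namespace Pool.Agent.PTK

open Pool.Agent.Lib_helper18 Pool.Agent.Lib_helper18.Eis Pool.Agent.Lib_helper84.Cub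
open Pool.Agent.PT Pool.Agent.PTE Pool.Agent.PT3 Pool.Agent.PTL Pool.Agent.PTN

open JZ Pool.Agent.PT.GZERO in
/-- MZF: existence of the joint governing field. -/
theorem MZF_thm : Stmt_MZF := by
  intro s M N b p q p' q' z α β P Q P' Q' f hSys hSysZ hf h9
  have : NeZero (f : AlgebraicClosure ℚ) := ⟨Nat.cast_ne_zero.2 hf.ne'⟩
  have : NeZero f := ⟨hf.ne'⟩
  obtain ⟨ζ, hζ⟩ := HasEnoughRootsOfUnity.exists_primitiveRoot (AlgebraicClosure ℚ) f
  have hω := rel_of_prim (prim_pow hf h9 hζ)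
  set ι₀ : Eis →+* AlgebraicClosure ℚ := GFR.lift (ζ ^ (f / 3)) hω with hι₀
  -- the plus part
  have hN : ∀ j i, j ≠ i → p j i ^ 3 + b j * q j i ^ 3 ≠ 0 ∧
      p' j i ^ 3 + b j * q' j i ^ 3 ≠ 0 := by
    intro j i hji
    have h1 := hSys.sol j i hji
    refine ⟨h1.n1, fun h2 => h1.n1 ?_⟩
    rw [h1.eq, h2, mul_zero]
  have hA : ∀ (j i : Fin s) (ρ : AlgebraicClosure ℚ), ∃ A : AlgebraicClosure ℚ, j ≠ i →
      ρ ^ 3 = (b j : AlgebraicClosure ℚ) →
      A ^ 3 * aD (ζ ^ (f / 3)) (p j i) (q j i) (p' j i) (q' j i) ρ =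
        aN (ζ ^ (f / 3)) (p j i) (q j i) (p' j i) (q' j i) ρ := by
    intro j i ρ
    obtain ⟨A, hA⟩ := IsAlgClosed.exists_pow_nat_eq
      (aN (ζ ^ (f / 3)) (p j i) (q j i) (p' j i) (q' j i) ρ /
        aD (ζ ^ (f / 3)) (p j i) (q j i) (p' j i) (q' j i) ρ) (n := 3) (by norm_num)
    refine ⟨A, fun hji hρ => ?_⟩
    rw [hA, div_mul_cancel₀]
    exact (ne_of_prod hω (hN j i hji).1 (hN j i hji).2 hρ).1
  choose A hA using hA
  -- the minus part
  have hNK : ∀ r, P r ^ 3 + z (α r) * Q r ^ 3 ≠ 0 ∧ P' r ^ 3 + z (α r) * Q' r ^ 3 ≠ 0 := by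
    intro r
    have h1 := hSysZ.sol r
    refine ⟨h1.n1, fun h2 => h1.n1 ?_⟩
    rw [h1.eq, h2, mul_zero]
  have hB : ∀ (r : Fin N) (ρ : AlgebraicClosure ℚ), ∃ A : AlgebraicClosure ℚ,
      ρ ^ 3 = ι₀ (z (α r)) →
      A ^ 3 * aDE ι₀ (P r) (Q r) (P' r) (Q' r) ρ = aNE ι₀ (P r) (Q r) (P' r) (Q' r) ρ := by
    intro r ρ
    obtain ⟨A, hA⟩ := IsAlgClosed.exists_pow_nat_eq
      (aNE ι₀ (P r) (Q r) (P' r) (Q' r) ρ / aDE ι₀ (P r) (Q r) (P' r) (Q' r) ρ) (n := 3)
      (by norm_num)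
    refine ⟨A, fun hρ => ?_⟩
    rw [hA, div_mul_cancel₀]
    exact (ne_of_prodE ι₀ (hNK r).1 (hNK r).2 hρ).1
  choose B hB using hB
  have hroot : ∀ c : AlgebraicClosure ℚ, ∃ θ : AlgebraicClosure ℚ, θ ^ 3 = c :=
    fun c => IsAlgClosed.exists_pow_nat_eq _ (by norm_num)
  obtain ⟨L, iF, iN, iG, ι, hι⟩ := exists_field
    ({ζ} ∪ ((⋃ j : Fin s, {ρ | ρ ^ 3 = (b j : AlgebraicClosure ℚ)}) ∪
      ((⋃ j : Fin M, {ρ | ρ ^ 3 = ι₀ (z j)}) ∪
        ((⋃ j : Fin s, ⋃ i : Fin s, A j i '' {ρ | ρ ^ 3 = (b j : AlgebraicClosure ℚ)}) ∪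
          ⋃ r : Fin N, B r '' {ρ | ρ ^ 3 = ι₀ (z (α r))}))))
    ((Set.finite_singleton ζ).union ((Set.finite_iUnion fun j => fin_roots _).union
      ((Set.finite_iUnion fun j => fin_roots _).union
        ((Set.finite_iUnion fun j => Set.finite_iUnion fun i => (fin_roots _).image _).union
          (Set.finite_iUnion fun j => (fin_roots _).image _)))))
  have hinj : Function.Injective ι := ι.injective
  obtain ⟨y₀, hz⟩ := hι ζ (Or.inl rfl)
  have hzp : IsPrimitiveRoot y₀ f := by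
    refine IsPrimitiveRoot.of_map_of_injective (f := ι) ?_ hinj
    rw [hz]
    exact hζ
  have hzω : ι (y₀ ^ (f / 3)) = ζ ^ (f / 3) := by rw [map_pow, hz]
  have hrel := rel_of_prim (prim_pow hf h9 hzp)
  set κ : Eis →+* L := GFR.lift (y₀ ^ (f / 3)) hrel with hκ
  have hκw : κ w = y₀ ^ (f / 3) := GFR.lift_w _ _
  have hcomp : ∀ a : Eis, ι (κ a) = ι₀ a := by
    intro a
    change ι ((a.re : L) + (a.im : L) * y₀ ^ (f / 3)) =
      (a.re : AlgebraicClosure ℚ) + (a.im : AlgebraicClosure ℚ) * ζ ^ (f / 3)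
    rw [map_add, map_mul, map_intCast, map_intCast, hzω]
  have hNmap : ∀ (u v u' v' : ℤ) (ρ : L), ι (aN (y₀ ^ (f / 3)) u v u' v' ρ) =
      aN (ζ ^ (f / 3)) u v u' v' (ι ρ) := by
    intro u v u' v' ρ
    unfold aN
    simp only [map_mul, map_add, map_pow, map_intCast, hz]
  have hDmap : ∀ (u v u' v' : ℤ) (ρ : L), ι (aD (y₀ ^ (f / 3)) u v u' v' ρ) =
      aD (ζ ^ (f / 3)) u v u' v' (ι ρ) := by
    intro u v u' v' ρ
    unfold aD
    simp only [map_mul, map_add, map_pow, map_intCast, hz]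
  have hNmapE : ∀ (a c a' c' : Eis) (ρ : L), ι (aNE κ a c a' c' ρ) =
      aNE ι₀ a c a' c' (ι ρ) := by
    intro a c a' c' ρ
    unfold aNE
    simp only [map_mul, map_add, map_pow, hcomp]
  have hDmapE : ∀ (a c a' c' : Eis) (ρ : L), ι (aDE κ a c a' c' ρ) =
      aDE ι₀ a c a' c' (ι ρ) := by
    intro a c a' c' ρ
    unfold aDE
    simp only [map_mul, map_add, map_pow, hcomp]
  refine ⟨L, iF, iN, y₀, κ, ?_, ?_⟩
  · rw [hκw]
    refine ⟨iG, hzp, h9, rfl, hrel, ?_, ?_, ?_⟩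
    · intro j
      obtain ⟨θ, hθ⟩ := hroot (b j : AlgebraicClosure ℚ)
      obtain ⟨y, hy⟩ := hι θ (Or.inr (Or.inl (Set.mem_iUnion.2 ⟨j, hθ⟩)))
      refine ⟨y, hinj ?_⟩
      rw [map_pow, hy, hθ, map_intCast]
    · intro j i hji ρ hρ
      have hρ' : (ι ρ) ^ 3 = (b j : AlgebraicClosure ℚ) := by rw [← map_pow, hρ, map_intCast]
      obtain ⟨y, hy⟩ := hι (A j i (ι ρ)) (Or.inr (Or.inr (Or.inr (Or.inl
        (Set.mem_iUnion.2 ⟨j, Set.mem_iUnion.2 ⟨i, ⟨ι ρ, hρ', rfl⟩⟩⟩)))))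
      refine ⟨y, hinj ?_⟩
      rw [map_mul, map_pow, hy, hDmap, hNmap]
      exact hA j i (ι ρ) hji hρ'
    · intro j i hji ρ hρ
      exact ne_of_prod hrel (hN j i hji).1 (hN j i hji).2 hρ
  · refine ⟨iG, hzp, h9, hκw, ?_, ?_, ?_⟩
    · intro j
      obtain ⟨θ, hθ⟩ := hroot (ι₀ (z j))
      obtain ⟨y, hy⟩ := hι θ (Or.inr (Or.inr (Or.inl (Set.mem_iUnion.2 ⟨j, hθ⟩))))
      refine ⟨y, hinj ?_⟩
      rw [map_pow, hy, hθ, hcomp]
    · intro r ρ hρ
      have hρ' : (ι ρ) ^ 3 = ι₀ (z (α r)) := by rw [← map_pow, hρ, hcomp]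
      obtain ⟨y, hy⟩ := hι (B r (ι ρ)) (Or.inr (Or.inr (Or.inr (Or.inr
        (Set.mem_iUnion.2 ⟨r, ⟨ι ρ, hρ', rfl⟩⟩)))))
      refine ⟨y, hinj ?_⟩
      rw [map_mul, map_pow, hy, hDmapE, hNmapE]
      exact hB r (ι ρ) hρ'
    · intro r ρ hρ
      exact ne_of_prodE κ (hNK r).1 (hNK r).2 hρ

end Pool.Agent.PTK


end

section

/-!
# The average rank of prime twists: tools for the symbols of the classes (`ZC`, `ZS`, `ZT`)
-/

set_option autoImplicit false

namespace Pool.Agent.PTK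

open Pool.Agent.Lib_helper18 Pool.Agent.Lib_helper18.Eis Pool.Agent.Lib_helper84.Cub
open Pool.Agent.PT Pool.Agent.PTE Pool.Agent.PT3 Pool.Agent.PT.EHYP Pool.Agent.PT3.HYPT

namespace ZAUX

/-- the conjugate place -/
lemma tm_conj_int (hSTM : STM) (hSPP : SPP) (hSCJ : SCJ) {σ κ : PP} (hκ : κ.1 = conj σ.1)
    {z t : Eis} (hz : z ≠ 0) (hzt : z * conj z = t ^ 3) {x : ℤ} (hx : x ≠ 0) :
    tm κ.1 z (x : Eis) = tm σ.1 z (x : Eis) := by
  have hx0 : (x : Eis) ≠ 0 := int_ne hx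
  have h3 := (hSPP.2.2.2.1 σ).1
  have h3' := (hSPP.2.2.2.1 κ).1
  have hcz : conj z ≠ 0 := by
    intro h0
    apply hz
    have h1 := congrArg conj h0
    rwa [conj_conj, map_zero] at h1
  have ht : t ≠ 0 := by
    rintro rfl
    rw [zero_pow (by norm_num)] at hzt
    exact mul_ne_zero hz hcz hzt
  have hc := hSCJ.1 σ.1 z (x : Eis) σ.2.1 h3 hz hx0
  rw [conj_intCast, ← hκ] at hc
  have hA := add3_tm hSTM κ.2.1 h3' hx0
  have h1 := hA z (conj z) hz hcz
  have h2 := hA.pow ht 3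
  simp only at h1 h2
  rw [hzt, h2] at h1
  have h4 := three_zero (tm κ.1 t (x : Eis))
  push_cast at h1
  linear_combination h4 - h1 - hc

/-- the conjugate place, two elements -/
lemma tm_conj_two (hSTM : STM) (hSPP : SPP) (hSCJ : SCJ) {σ κ : PP} (hκ : κ.1 = conj σ.1)
    {z t z' t' : Eis} (hz : z ≠ 0) (hzt : z * conj z = t ^ 3) (hz' : z' ≠ 0)
    (hzt' : z' * conj z' = t' ^ 3) : tm κ.1 z z' = - tm σ.1 z z' := by
  have h3 := (hSPP.2.2.2.1 σ).1
  have h3' := (hSPP.2.2.2.1 κ).1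
  have hne : ∀ a : Eis, a ≠ 0 → conj a ≠ 0 := by
    intro a ha h0
    apply ha
    have h1 := congrArg conj h0
    rwa [conj_conj, map_zero] at h1
  have ht : ∀ a s : Eis, a ≠ 0 → a * conj a = s ^ 3 → s ≠ 0 := by
    rintro a s ha h rfl
    rw [zero_pow (by norm_num)] at h
    exact mul_ne_zero ha (hne a ha) h
  have hc := hSCJ.1 σ.1 z z' σ.2.1 h3 hz hz'
  rw [← hκ] at hc
  have hs := hSTM κ.1 κ.2.1 h3'
  have hA : ∀ a s b : Eis, a ≠ 0 → a * conj a = s ^ 3 → b ≠ 0 →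
      tm κ.1 (conj a) b = - tm κ.1 a b := by
    intro a s b ha has hb
    have hA := add3_tm hSTM κ.2.1 h3' hb
    have h1 := hA a (conj a) ha (hne a ha)
    have h2 := hA.pow (ht a s ha has) 3
    simp only at h1 h2
    rw [has, h2] at h1
    have h4 := three_zero (tm κ.1 s b)
    push_cast at h1
    linear_combination h4 - h1
  rw [hA z t _ hz hzt (hne z' hz'), hs.skew (conj z') z (hne z' hz') hz,
    hA z' t' z hz' hzt' hz, hs.skew z z' hz hz'] at hc
  linear_combination hc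

/-- a sum over the places -/
lemma sum_places (hSPP : SPP) {n m k : ℕ} {π : Fin m → PP} {p e : Fin m → ℕ} {r f : Fin k → ℕ}
    (hn : NF n π p e r f) (T : Finset PP) (F : PP → ZMod 3)
    (hT : ∀ ρ ∈ T, (∀ i, ρ ≠ π i) ∧ ∀ i, ρ.1 ≠ conj (π i).1)
    (hF : ∀ i (κ : PP), κ.1 = conj (π i).1 → F κ = F (π i))
    (h0 : ∀ σ : PP, σ ∉ T → (∀ i, σ ≠ π i) → (∀ i, σ.1 ≠ conj (π i).1) → F σ = 0) :
    ∑ᶠ σ : PP, F σ = - ∑ i, F (π i) + ∑ ρ ∈ T, F ρ := by
  classical
  choose κ hκ using fun i => (hSPP.2.2.2.1 (π i)).2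
  have hg : Function.Injective (Sum.elim π κ) := by
    rintro (i | i) (j | j) hij
    · have h1 : π i = π j := hij
      rw [assoc_iff hn i j (by rw [h1])]
    · have h1 : π i = κ j := hij
      exact absurd (by rw [h1, hκ j]) (not_assoc hn i j)
    · have h1 : κ i = π j := hij
      exact absurd (by rw [← h1, hκ i]) (not_assoc hn j i)
    · have h1 : κ i = κ j := hij
      have h2 : conj (π i).1 = conj (π j).1 := by rw [← hκ i, ← hκ j, h1]
      have h3 : (π i).1 = (π j).1 := by rw [← conj_conj (π i).1, h2, conj_conj]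
      rw [assoc_iff hn i j (by rw [h3])]
  have hdis : Disjoint (Finset.univ.image (Sum.elim π κ)) T := by
    rw [Finset.disjoint_left]
    intro σ hσ hσT
    obtain ⟨y, -, hy⟩ := Finset.mem_image.1 hσ
    obtain ⟨g1, g2⟩ := hT σ hσT
    rcases y with i | i
    · exact g1 i hy.symm
    · apply g2 i
      have h1 : κ i = σ := hy
      rw [← h1, hκ i]
  have hsup : Function.support F ⊆
      (((Finset.univ.image (Sum.elim π κ)) ∪ T : Finset PP) : Set PP) := by
    intro σ hσ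
    by_contra hnm
    apply hσ
    rw [Finset.mem_coe, Finset.mem_union, not_or] at hnm
    have hn' : ∀ y, Sum.elim π κ y ≠ σ := by
      intro y hy
      apply hnm.1
      rw [Finset.mem_image]
      exact ⟨y, Finset.mem_univ _, hy⟩
    refine h0 σ hnm.2 (fun i hi => hn' (Sum.inl i) hi.symm) fun i hi => hn' (Sum.inr i) ?_
    refine hSPP.2.1 _ _ ?_
    change Associated (κ i).1 σ.1
    rw [hκ i, ← hi]
  rw [finsum_eq_sum_of_support_subset _ hsup, Finset.sum_union hdis,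
    Finset.sum_image fun a _ b _ hab => hg hab, Fintype.sum_sum_type]
  have h1 : ∑ i, F (Sum.elim π κ (Sum.inr i)) = ∑ i, F (Sum.elim π κ (Sum.inl i)) :=
    Finset.sum_congr rfl fun i _ => hF i (κ i) (hκ i)
  rw [h1]
  change ∑ i, F (π i) + ∑ i, F (π i) + _ = _
  have h2 := three_zero (∑ i, F (π i))
  linear_combination h2

/-- The product formula for a class and a rational integer. -/
lemma prodz (hSTM : STM) (hSPP : SPP) (hSCJ : SCJ) {n m k : ℕ} {π : Fin m → PP}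
    {p e : Fin m → ℕ} {r f : Fin k → ℕ} (hn : NF n π p e r f) (T : Finset PP)
    (hT : ∀ ρ ∈ T, (∀ i, ρ ≠ π i) ∧ ∀ i, ρ.1 ≠ conj (π i).1)
    {z t : Eis} (hz : z ≠ 0) (hzt : z * conj z = t ^ 3)
    (hsupp : ∀ σ : PP, σ.1 ∣ z → ∃ i, σ = π i ∨ σ.1 = conj (π i).1) {x : ℤ} (hx : x ≠ 0)
    (hxT : ∀ σ : PP, σ.1 ∣ (x : Eis) → σ ∈ T ∨ ∃ i, σ = π i ∨ σ.1 = conj (π i).1) :
    sl z (x : Eis) = ∑ i, tm (π i).1 z (x : Eis) - ∑ ρ ∈ T, tm ρ.1 z (x : Eis) := by
  unfold sl
  rw [sum_places hSPP hn T (fun σ => tm σ.1 z (x : Eis)) hT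
    (fun i κ hκ => tm_conj_int hSTM hSPP hSCJ hκ hz hzt hx) (by
      intro σ hσT h1 h2
      have hno : ¬ ∃ i, σ = π i ∨ σ.1 = conj (π i).1 := by
        rintro ⟨i, h | h⟩
        · exact h1 i h
        · exact h2 i h
      exact DCONST.tm_zero (fun h => hno (hsupp σ h)) (fun h => by
        rcases hxT σ h with h3 | h3
        · exact hσT h3
        · exact hno h3))]
  ring

/-- the classes `zN` -/
structure Cls {m : ℕ} (π : Fin m → PP) (e : Fin m → ℕ) (y : Fin (m + 1) → ZMod 3) : Prop where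
  ne : zN π e y ≠ 0
  nrm : ∃ t : Eis, zN π e y * conj (zN π e y) = t ^ 3
  supp : ∀ σ : PP, σ.1 ∣ zN π e y → ∃ i, σ = π i ∨ σ.1 = conj (π i).1
  val : ∀ i, (V (π i).1 (zN π e y) : ZMod 3) = (e i : ZMod 3) * y i.succ
  four : - sl (zN π e y) 4 = y 0

lemma cls (hZA : Stmt_ZA) {n m k : ℕ} {π : Fin m → PP} {p e : Fin m → ℕ} {r f : Fin k → ℕ}
    (hn : NF n π p e r f) (y : Fin (m + 1) → ZMod 3) : Cls π e y := by
  obtain ⟨h1, -, h3, -, -, h6, -, h8, -, -⟩ := hZA n m k π p e r f hn y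
  refine ⟨h1, h3, fun σ hσ => ?_, fun i => ?_, ?_⟩
  · obtain ⟨i, -, h⟩ := h6 σ hσ
    exact ⟨i, h⟩
  · have h9 := congrFun h8 i.succ
    unfold PTN.NPSI.yv at h9
    rw [Fin.cons_succ] at h9
    have h10 : (e i : ZMod 3) * (e i : ZMod 3) = 1 := by
      rcases hn.pe i with h1 | h1 <;> rw [h1] <;> decide
    rw [← h9]
    linear_combination (-(V (π i).1 (zN π e y) : ZMod 3)) * h10
  · have h9 := congrFun h8 0
    unfold PTN.NPSI.yv at h9
    rwa [Fin.cons_zero] at h9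

end ZAUX

end Pool.Agent.PTK


end

section

/-!
# PTK_ZC: the symbols of the classes of `VS`
-/

set_option autoImplicit false

namespace Pool.Agent.PTK

open Pool.Agent.Lib_helper18 Pool.Agent.Lib_helper18.Eis Pool.Agent.Lib_helper84.Cub
open Pool.Agent.PT Pool.Agent.PTE Pool.Agent.PT3 Pool.Agent.PTN Pool.Agent.PT.EHYP
open Pool.Agent.PT3.HYPT

open ZAUX in
/-- PTK_ZC. -/
theorem ZC_thm (hSTM : STM) (hSPP : SPP) (hSSL : SSL) (hSCJ : SCJ) (hLCL : LCL)
    (hZA : Stmt_ZA) : Stmt_ZC := by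
  classical
  intro h n m k π p e r f w0 c hn hh y hy
  obtain ⟨hz, ⟨t, hzt⟩, hsupp, hval, hfour⟩ := cls hZA hn y
  have hi : ∀ i, Prime (π i).1 := fun i => (π i).2.1
  have h3 : ∀ i, ¬ (π i).1 ∣ 3 := fun i => (hSPP.2.2.2.1 (π i)).1
  have hsl := sl_int hSSL hLCL hz
  -- the value of the symbol at `lam`
  have hslx : ∀ x : ℤ, x ≠ 0 → ¬ (3 : ℤ) ∣ x → sl (zN π e y) (x : Eis) = wt (x ^ 2) * y 0 := by
    intro x hx hx3
    obtain ⟨h1, h2⟩ := hLCL.2.2.2.1 x hx3
    rw [hsl x hx, h1, h2, ← hfour]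
    ring
  -- elements prime to `π i`
  have htm : ∀ i (x : Eis), ¬ (π i).1 ∣ x →
      tm (π i).1 (zN π e y) x = - ((e i : ZMod 3) * y i.succ * sym (π i).1 x) := by
    intro i x hx
    unfold tm
    rw [V_eq_zero hx, ch_of_not_dvd (hi i) hx, hval i]
    simp
  obtain ⟨-, hcol⟩ := hy
  constructor
  · intro i'
    have hcol' := hcol (Sum.inl i'.succ) (fun _ h => by
      rw [Sum.inl.injEq] at h
      exact Fin.succ_ne_zero i' h)
    have h1 : Matrix.vecMul y (PTN.Nm h n π p e r w0 c) (Sum.inl i'.succ) =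
        y 0 * wt ((p i' : ℤ) ^ 2) +
          ∑ i, y i.succ *
          (if i' = i then (e i : ZMod 3) * sym (π i).1 (conj (π i).1) -
            ch (π i).1 ((3 ^ h * n : ℕ) : Eis) - c i
          else (e i : ZMod 3) * sym (π i).1 (p i' : Eis)) := by
      simp [Matrix.vecMul, dotProduct, PTN.Nm, Fin.sum_univ_succ]
    rw [h1] at hcol'
    have hp0 : (p i' : ℤ) ≠ 0 := by exact_mod_cast (hn.pp i').ne_zero
    have hp3 : ¬ (3 : ℤ) ∣ (p i' : ℤ) := fun h5 => by
      have h6 : 3 ∣ p i' := by exact_mod_cast h5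
      have := hn.p1 i'
      omega
    have h2 := prodz hSTM hSPP hSCJ hn ∅ (by simp) hz hzt hsupp hp0 (by
      intro σ hσ
      right
      rw [Int.cast_natCast, hn.pπ i'] at hσ
      refine ⟨i', ?_⟩
      rcases σ.2.1.dvd_or_dvd hσ with h4 | h4
      · left
        exact hSPP.2.1 _ _ (σ.2.1.associated_of_dvd (π i').2.1 h4)
      · right
        obtain ⟨κ, hκ⟩ := (hSPP.2.2.2.1 (π i')).2
        rw [← hκ] at h4 ⊢
        rw [hSPP.2.1 _ _ (σ.2.1.associated_of_dvd κ.2.1 h4)])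
    rw [hslx _ hp0 hp3, Finset.sum_empty, sub_zero] at h2
    have h4 : ∀ i, tm (π i).1 (zN π e y) ((p i' : ℤ) : Eis) =
        (if i' = i then ch (π i).1 (zN π e y) -
          (e i : ZMod 3) * y i.succ * sym (π i).1 (conj (π i).1) else
          - ((e i : ZMod 3) * y i.succ * sym (π i).1 (p i' : Eis))) := by
      intro i
      rw [Int.cast_natCast]
      split_ifs with hii
      · subst hii
        have hcj : ¬ (π i').1 ∣ conj (π i').1 := fun h5 =>
          not_assoc hn i' i' ((hi i').associated_of_dvd (prime_conj (π i').2.1) h5)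
        unfold tm
        rw [hn.pπ i', V_mul (hi i') (hi i').ne_zero (prime_conj (π i').2.1).ne_zero, V_self,
          V_eq_zero hcj, ch_mul (hi i') (h3 i') (hi i').ne_zero
            (prime_conj (π i').2.1).ne_zero, ch_self (hi i') (h3 i'),
          ch_of_not_dvd (hi i') hcj, hval i']
        push_cast
        ring
      · have hnd : ¬ (π i).1 ∣ (p i' : Eis) := by
          rw [hn.pπ i']
          intro h5
          rcases (hi i).dvd_or_dvd h5 with h5 | h5
          · exact hii (assoc_iff hn i i' ((hi i).associated_of_dvd (π i').2.1 h5)).symm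
          · exact not_assoc hn i i' ((hi i).associated_of_dvd (prime_conj (π i').2.1) h5)
        exact htm i _ hnd
    rw [Finset.sum_congr rfl fun i _ => h4 i] at h2
    rw [← Finset.add_sum_erase _ _ (Finset.mem_univ i'), if_pos rfl] at h2 hcol'
    have h5 : ∑ i ∈ Finset.univ.erase i', (if i' = i then ch (π i).1 (zN π e y) -
          (e i : ZMod 3) * y i.succ * sym (π i).1 (conj (π i).1) else
          - ((e i : ZMod 3) * y i.succ * sym (π i).1 (p i' : Eis))) =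
        - ∑ i ∈ Finset.univ.erase i', y i.succ *
          (if i' = i then (e i : ZMod 3) * sym (π i).1 (conj (π i).1) -
            ch (π i).1 ((3 ^ h * n : ℕ) : Eis) - c i
          else (e i : ZMod 3) * sym (π i).1 (p i' : Eis)) := by
      rw [← Finset.sum_neg_distrib]
      refine Finset.sum_congr rfl fun i hi' => ?_
      have h6 : ¬ i' = i := fun h => (Finset.mem_erase.1 hi').1 h.symm
      rw [if_neg h6, if_neg h6]
      ring
    rw [h5] at h2
    linear_combination hcol' - h2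
  · intro j ρ hρ
    have hcol' := hcol (Sum.inr j) (fun _ h => by cases h)
    have h1 : Matrix.vecMul y (PTN.Nm h n π p e r w0 c) (Sum.inr j) =
        y 0 * wt ((r j : ℤ) ^ 2) +
          ∑ i, y i.succ * ((e i : ZMod 3) * sym (π i).1 (r j : Eis)) := by
      simp [Matrix.vecMul, dotProduct, PTN.Nm, Fin.sum_univ_succ]
    rw [h1] at hcol'
    have hr0 : (r j : ℤ) ≠ 0 := by exact_mod_cast (hn.rp j).ne_zero
    have hr3 : ¬ (3 : ℤ) ∣ (r j : ℤ) := fun h5 => by
      have h6 : 3 ∣ r j := by exact_mod_cast h5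
      have := hn.r2 j
      omega
    have hjI := inert hSPP (hn.rp j) (hn.r2 j)
    have hρ1 : ∀ i, ρ ≠ π i := by
      rintro i rfl
      exact not_assoc_nat hn i (r j) (by rw [hρ])
    have hρ2 : ∀ i, ρ.1 ≠ conj (π i).1 := by
      intro i h4
      apply not_assoc_nat hn i (r j)
      have h5 := congrArg conj h4
      rw [conj_conj, hρ, conj_natCast] at h5
      rw [h5]
    have h2 := prodz hSTM hSPP hSCJ hn {ρ} (by
      intro ρ' hρ'
      rw [Finset.mem_singleton] at hρ'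
      subst hρ'
      exact ⟨hρ1, hρ2⟩) hz hzt hsupp hr0 (by
      intro σ hσ
      left
      rw [Finset.mem_singleton]
      rw [Int.cast_natCast, ← hρ] at hσ
      exact hSPP.2.1 _ _ (σ.2.1.associated_of_dvd ρ.2.1 hσ))
    rw [hslx _ hr0 hr3, Finset.sum_singleton] at h2
    have hρz : ¬ ρ.1 ∣ zN π e y := by
      intro h4
      obtain ⟨i, h5 | h5⟩ := hsupp ρ h4
      · exact hρ1 i h5
      · exact hρ2 i h5
    have h4 : tm ρ.1 (zN π e y) ((r j : ℤ) : Eis) = ch ρ.1 (zN π e y) := by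
      unfold tm
      rw [Int.cast_natCast, V_eq_zero hρz, ← hρ, V_self]
      simp
    have h5 : ∀ i, tm (π i).1 (zN π e y) ((r j : ℤ) : Eis) =
        - (y i.succ * ((e i : ZMod 3) * sym (π i).1 (r j : Eis))) := by
      intro i
      rw [Int.cast_natCast, htm i _ (fun h5 =>
        not_assoc_nat hn i (r j) ((hi i).associated_of_dvd hjI.1 h5))]
      ring
    rw [h4, Finset.sum_congr rfl fun i _ => h5 i, Finset.sum_neg_distrib] at h2
    linear_combination h2 - hcol'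

end Pool.Agent.PTK


end

section

/-!
# PTK_ZS: the classes of `VS` are in the minus part of the Selmer group
-/

set_option autoImplicit false

namespace Pool.Agent.PTK

open Pool.Agent.Lib_helper18 Pool.Agent.Lib_helper18.Eis Pool.Agent.Lib_helper84.Cub
open Pool.Agent.PT Pool.Agent.PTE Pool.Agent.PT3 Pool.Agent.PTN Pool.Agent.PT.EHYP
open Pool.Agent.PT3.HYPT

open ZAUX in
/-- PTK_ZS. -/
theorem ZS_thm (hSTM : STM) (hSPP : SPP) (hSSL : SSL) (hSCJ : SCJ) (hLCL : LCL)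
    (hZA : Stmt_ZA) (hZC : Stmt_ZC) : Stmt_ZS := by
  classical
  intro h n m k π p e r f w0 c E q hn hh hE hq hq2 hcl hqn y hy
  obtain ⟨hz, ⟨t, hzt⟩, hsupp, hval, hfour⟩ := cls hZA hn y
  obtain ⟨hZ1, hZ2⟩ := hZC h n m k π p e r f w0 c hn hh y hy
  obtain ⟨hw, hqs⟩ := hcl
  have hD := dat hSPP hn (h := h) hE hq hq2 hqn
  have hq3 : ¬ 3 ∣ q := by omega
  have hqI := inert hSPP hq hq2
  have hn0 := HYPS.n_ne0 hn
  obtain ⟨hlv, hlw⟩ := lvw hLCL hn (h := h) hq hq3 hw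
  have hi : ∀ i, Prime (π i).1 := fun i => (π i).2.1
  have h3 : ∀ i, ¬ (π i).1 ∣ 3 := fun i => (hSPP.2.2.2.1 (π i)).1
  have hB0 := int_ne hD.ne
  have : Fact (Nat.Prime 3) := ⟨Nat.prime_three⟩
  have hqi : ∀ i, ¬ (π i).1 ∣ (q : Eis) := fun i h5 =>
    not_assoc_nat hn i q ((hi i).associated_of_dvd hqI.1 h5)
  have hcB : ∀ i, ch (π i).1 ((BB h n E q : ℤ) : Eis) =
      ch (π i).1 ((3 ^ h * n : ℕ) : Eis) + c i := fun i => by
    have h1 : ((3 ^ h * n : ℕ) : Eis) = 3 ^ h * (n : Eis) := by push_cast; rfl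
    have h2 := (add3_ch (hi i) (h3 i)).pow hqI.1.ne_zero E
    rw [BB_cast, h1, ch_mul (hi i) (h3 i) (mul_ne_zero (pow_ne_zero _ three_ne) hn0)
      (pow_ne_zero _ hqI.1.ne_zero), h2, ch_of_not_dvd (hi i) (hqi i), hqs i]
  -- the place `q`
  obtain ⟨ρ, hρ⟩ := hSPP.2.2.2.2.1 q hq hq2
  -- the symbol at `π i`
  have hpi : ∀ i, tm (π i).1 (zN π e y) ((BB h n E q : ℤ) : Eis) = 0 := by
    intro i
    unfold tm
    rw [hD.vB i, hcB i, hZ1 i, hval i]
    ring
  have hcj : ∀ i (κ : PP), κ.1 = conj (π i).1 →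
      tm κ.1 (zN π e y) ((BB h n E q : ℤ) : Eis) = 0 := by
    intro i κ hκ
    rw [tm_conj_int hSTM hSPP hSCJ hκ hz hzt hD.ne, hpi i]
  -- the symbol at the other places except `q`
  have hoth : ∀ σ : PP, σ ≠ ρ → tm σ.1 (zN π e y) ((BB h n E q : ℤ) : Eis) = 0 := by
    intro σ hσρ
    by_cases hπ : ∃ i, σ = π i ∨ σ.1 = conj (π i).1
    · obtain ⟨i, rfl | h4⟩ := hπ
      · exact hpi i
      · exact hcj i σ h4
    · have hσz : ¬ σ.1 ∣ zN π e y := fun h4 => hπ (hsupp σ h4)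
      by_cases hσB : σ.1 ∣ ((BB h n E q : ℤ) : Eis)
      · rcases (dvd_iff hSPP hE σ).1 hσB with h5 | h5
        · rcases HYPS.cls hSPP hn σ.2.1 h5 with ⟨i, h6 | h6⟩ | ⟨j, h6⟩
          · exact absurd ⟨i, Or.inl (hSPP.2.1 _ _ h6)⟩ hπ
          · exfalso
            apply hπ
            obtain ⟨κ, hκ⟩ := (hSPP.2.2.2.1 (π i)).2
            refine ⟨i, Or.inr ?_⟩
            rw [← hκ] at h6 ⊢
            rw [hSPP.2.1 _ _ h6]
          · obtain ⟨ρj, hρj⟩ := hSPP.2.2.2.2.1 (r j) (hn.rp j) (hn.r2 j)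
            have h7 : σ = ρj := hSPP.2.1 _ _ (by rw [hρj]; exact h6)
            have h8 := hZ2 j σ (by rw [h7, hρj])
            unfold tm
            rw [h8, V_eq_zero hσz]
            simp
        · exfalso
          apply hσρ
          rw [← hρ] at h5
          exact hSPP.2.1 _ _ (σ.2.1.associated_of_dvd ρ.2.1 h5)
      · exact DCONST.tm_zero hσz hσB
  -- the symbol at `lam` with `3`
  have hρ1 : ∀ i, ρ ≠ π i := by
    rintro i rfl
    exact not_assoc_nat hn i q (by rw [hρ])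
  have hρ2 : ∀ i, ρ.1 ≠ conj (π i).1 := by
    intro i h4
    apply not_assoc_nat hn i q
    have h5 := congrArg conj h4
    rw [conj_conj, hρ, conj_natCast] at h5
    rw [h5]
  have hsl3 : sl (zN π e y) 3 = - ∑ i, y i.succ * ((e i : ZMod 3) * sym (π i).1 3) := by
    have h2 := prodz hSTM hSPP hSCJ hn ∅ (by simp) hz hzt hsupp (x := 3) (by norm_num) (by
      intro σ hσ
      exfalso
      push_cast at hσ
      exact (hSPP.2.2.2.1 σ).1 hσ)
    rw [Finset.sum_empty, sub_zero] at h2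
    push_cast at h2
    rw [h2, ← Finset.sum_neg_distrib]
    refine Finset.sum_congr rfl fun i _ => ?_
    unfold tm
    rw [V_eq_zero (h3 i), ch_of_not_dvd (hi i) (h3 i), hval i]
    push_cast
    ring
  have hsl4 : sl (zN π e y) 4 = - y 0 := by rw [← hfour, neg_neg]
  have hcol0 : h ≠ 0 → y 0 * (wt ((n : ℤ) ^ 2) + w0) +
      ∑ i, y i.succ * ((e i : ZMod 3) * sym (π i).1 3) = 0 := by
    intro h0
    have h1 := hy.2 (Sum.inl 0) (fun h4 => absurd h4 h0)
    rw [← h1]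
    simp [Matrix.vecMul, dotProduct, PTN.Nm, Fin.sum_univ_succ]
  have hact : ¬ actR h n w0 → y 0 = 0 := hy.1
  have hslB : sl (zN π e y) ((BB h n E q : ℤ) : Eis) = 0 := by
    rw [sl_int hSSL hLCL hz _ hD.ne, hlv, hlw, hsl3, hsl4]
    obtain rfl | rfl | rfl : h = 0 ∨ h = 1 ∨ h = 2 := by omega
    · by_cases h4 : wt ((n : ℤ) ^ 2) + w0 = 0
      · rw [h4]
        simp
      · have h5 : y 0 = 0 := hact (by
          rintro (h6 | h6)
          · omega
          · exact h4 h6.2)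
        rw [h5]
        simp
    · have h5 : y 0 = 0 := hact (by
        rintro (h6 | h6)
        · omega
        · omega)
      have h6 := hcol0 (by omega)
      rw [h5, zero_mul, zero_add] at h6
      rw [h5, h6]
      simp
    · have h6 := hcol0 (by omega)
      have h7 := three_zero (∑ i, y i.succ * ((e i : ZMod 3) * sym (π i).1 3))
      push_cast
      linear_combination h6 - h7
  have hρB : tm ρ.1 (zN π e y) ((BB h n E q : ℤ) : Eis) = 0 := by
    have h4 : sl (zN π e y) ((BB h n E q : ℤ) : Eis) =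
        - tm ρ.1 (zN π e y) ((BB h n E q : ℤ) : Eis) := by
      unfold sl
      rw [finsum_eq_single _ ρ fun σ hσ => hoth σ hσ]
    rw [hslB] at h4
    exact neg_eq_zero.1 h4.symm
  have hall : ∀ σ : PP, tm σ.1 (zN π e y) ((BB h n E q : ℤ) : Eis) = 0 := by
    intro σ
    by_cases h4 : σ = ρ
    · rw [h4]
      exact hρB
    · exact hoth σ h4
  refine ⟨hz, ⟨t, hzt⟩, hall, ?_, ?_⟩
  · intro σ hσB
    have hσz : ¬ σ.1 ∣ zN π e y := by
      intro h4
      apply hσB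
      obtain ⟨i, h5⟩ := hsupp σ h4
      have hVB : (π i).1 ∣ ((BB h n E q : ℤ) : Eis) := by
        by_contra h6
        have h7 := hD.vB i
        rw [V_eq_zero h6] at h7
        have := hD.e12 i
        omega
      rcases h5 with rfl | h5
      · exact hVB
      · rw [h5]
        have h6 := conj_dvd hVB
        rwa [conj_intCast] at h6
    rw [V_eq_zero hσz]
    exact dvd_zero 3
  · intro hlv1
    rw [hlv] at hlv1
    have h1 : h = 1 := by
      obtain rfl | rfl | rfl : h = 0 ∨ h = 1 ∨ h = 2 := by omega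
      · exact absurd hlv1 (by decide)
      · rfl
      · exact absurd hlv1 (by decide)
    subst h1
    have h5 : y 0 = 0 := hact (by
      rintro (h6 | h6)
      · omega
      · omega)
    have h6 := hcol0 (by omega)
    rw [h5, zero_mul, zero_add] at h6
    exact ⟨by rw [hsl3, h6, neg_zero], by rw [hsl4, h5, neg_zero]⟩

end Pool.Agent.PTK


end

section

/-!
# PTK_ZSU: the classes of `VS` are in the minus part of the Selmer group, `q = 1 (mod 3)`
-/

set_option autoImplicit false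

namespace Pool.Agent.PTK

open Pool.Agent.Lib_helper18 Pool.Agent.Lib_helper18.Eis Pool.Agent.Lib_helper84.Cub
open Pool.Agent.PT Pool.Agent.PTE Pool.Agent.PT3 Pool.Agent.PTN Pool.Agent.PT.EHYP
open Pool.Agent.PT3.HYPT

open ZAUX in
/-- PTK_ZSU. -/
theorem ZSU_thm (hSTM : STM) (hSPP : SPP) (hSSL : SSL) (hSCJ : SCJ) (hLCL : LCL)
    (hZA : Stmt_ZA) (hZC : Stmt_ZC) : Stmt_ZSU := by
  classical
  intro h n m k π p e r f w0 c E q hn hh hE hq hq1 hcl hqn y hy
  obtain ⟨hz, ⟨t, hzt⟩, hsupp, hval, hfour⟩ := cls hZA hn y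
  obtain ⟨hZ1, hZ2⟩ := hZC h n m k π p e r f w0 c hn hh y hy
  -- the place `q`
  obtain ⟨ρ, hρ⟩ := ENF.exists_pi hSPP hq hq1
  obtain ⟨κρ, hκρ⟩ := (hSPP.2.2.2.1 ρ).2
  have hD := NPSU.dat hSPP hLCL hn (h := h) hE hq hq1 hcl hqn hρ
  have h' := HYPU.ext hn hE ρ hq hq1 hqn hρ
  have hlv := hD.bv
  have hlw := hD.bw
  have hi : ∀ i, Prime (π i).1 := fun i => (π i).2.1
  have h3 : ∀ i, ¬ (π i).1 ∣ 3 := fun i => (hSPP.2.2.2.1 (π i)).1
  have hB0 := int_ne hD.ne
  have : Fact (Nat.Prime 3) := ⟨Nat.prime_three⟩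
  have hρκ : ρ ≠ κρ := by
    intro h4
    have h6 := not_assoc h' 0 0
    simp only [Fin.cons_zero] at h6
    apply h6
    rw [← hκρ, ← h4]
  -- the symbol at `π i`
  have hpi : ∀ i, tm (π i).1 (zN π e y) ((BB h n E q : ℤ) : Eis) = 0 := by
    intro i
    unfold tm
    rw [hD.vi i, hD.ci i, hZ1 i, hval i]
    ring
  have hcj : ∀ i (κ : PP), κ.1 = conj (π i).1 →
      tm κ.1 (zN π e y) ((BB h n E q : ℤ) : Eis) = 0 := by
    intro i κ hκ
    rw [tm_conj_int hSTM hSPP hSCJ hκ hz hzt hD.ne, hpi i]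
  -- the symbol at the other places except `q`
  have hoth : ∀ σ : PP, σ ≠ ρ → σ ≠ κρ → tm σ.1 (zN π e y) ((BB h n E q : ℤ) : Eis) = 0 := by
    intro σ hσρ hσκ
    by_cases hπ : ∃ i, σ = π i ∨ σ.1 = conj (π i).1
    · obtain ⟨i, rfl | h4⟩ := hπ
      · exact hpi i
      · exact hcj i σ h4
    · have hσz : ¬ σ.1 ∣ zN π e y := fun h4 => hπ (hsupp σ h4)
      by_cases hσB : σ.1 ∣ ((BB h n E q : ℤ) : Eis)
      · rcases (dvd_iff hSPP hE σ).1 hσB with h5 | h5
        · rcases HYPS.cls hSPP hn σ.2.1 h5 with ⟨i, h6 | h6⟩ | ⟨j, h6⟩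
          · exact absurd ⟨i, Or.inl (hSPP.2.1 _ _ h6)⟩ hπ
          · exfalso
            apply hπ
            obtain ⟨κ, hκ⟩ := (hSPP.2.2.2.1 (π i)).2
            refine ⟨i, Or.inr ?_⟩
            rw [← hκ] at h6 ⊢
            rw [hSPP.2.1 _ _ h6]
          · obtain ⟨ρj, hρj⟩ := hSPP.2.2.2.2.1 (r j) (hn.rp j) (hn.r2 j)
            have h7 : σ = ρj := hSPP.2.1 _ _ (by rw [hρj]; exact h6)
            have h8 := hZ2 j σ (by rw [h7, hρj])
            unfold tm
            rw [h8, V_eq_zero hσz]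
            simp
        · exfalso
          rw [hρ] at h5
          rcases σ.2.1.dvd_or_dvd h5 with h5 | h5
          · exact hσρ (hSPP.2.1 _ _ (σ.2.1.associated_of_dvd ρ.2.1 h5))
          · apply hσκ
            rw [← hκρ] at h5
            exact hSPP.2.1 _ _ (σ.2.1.associated_of_dvd κρ.2.1 h5)
      · exact DCONST.tm_zero hσz hσB
  -- the symbol at `lam` with `3`
  have hsl3 : sl (zN π e y) 3 = - ∑ i, y i.succ * ((e i : ZMod 3) * sym (π i).1 3) := by
    have h2 := prodz hSTM hSPP hSCJ hn ∅ (by simp) hz hzt hsupp (x := 3) (by norm_num) (by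
      intro σ hσ
      exfalso
      push_cast at hσ
      exact (hSPP.2.2.2.1 σ).1 hσ)
    rw [Finset.sum_empty, sub_zero] at h2
    push_cast at h2
    rw [h2, ← Finset.sum_neg_distrib]
    refine Finset.sum_congr rfl fun i _ => ?_
    unfold tm
    rw [V_eq_zero (h3 i), ch_of_not_dvd (hi i) (h3 i), hval i]
    push_cast
    ring
  have hsl4 : sl (zN π e y) 4 = - y 0 := by rw [← hfour, neg_neg]
  have hcol0 : h ≠ 0 → y 0 * (wt ((n : ℤ) ^ 2) + w0) +
      ∑ i, y i.succ * ((e i : ZMod 3) * sym (π i).1 3) = 0 := by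
    intro h0
    have h1 := hy.2 (Sum.inl 0) (fun h4 => absurd h4 h0)
    rw [← h1]
    simp [Matrix.vecMul, dotProduct, PTN.Nm, Fin.sum_univ_succ]
  have hact : ¬ actR h n w0 → y 0 = 0 := hy.1
  have hslB : sl (zN π e y) ((BB h n E q : ℤ) : Eis) = 0 := by
    rw [sl_int hSSL hLCL hz _ hD.ne, hlv, hlw, hsl3, hsl4]
    obtain rfl | rfl | rfl : h = 0 ∨ h = 1 ∨ h = 2 := by omega
    · by_cases h4 : wt ((n : ℤ) ^ 2) + w0 = 0
      · rw [h4]
        simp
      · have h5 : y 0 = 0 := hact (by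
          rintro (h6 | h6)
          · omega
          · exact h4 h6.2)
        rw [h5]
        simp
    · have h5 : y 0 = 0 := hact (by
        rintro (h6 | h6)
        · omega
        · omega)
      have h6 := hcol0 (by omega)
      rw [h5, zero_mul, zero_add] at h6
      rw [h5, h6]
      simp
    · have h6 := hcol0 (by omega)
      have h7 := three_zero (∑ i, y i.succ * ((e i : ZMod 3) * sym (π i).1 3))
      push_cast
      linear_combination h6 - h7
  have hκB : tm κρ.1 (zN π e y) ((BB h n E q : ℤ) : Eis) =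
      tm ρ.1 (zN π e y) ((BB h n E q : ℤ) : Eis) :=
    tm_conj_int hSTM hSPP hSCJ hκρ hz hzt hD.ne
  have hρB : tm ρ.1 (zN π e y) ((BB h n E q : ℤ) : Eis) = 0 := by
    have h4 : sl (zN π e y) ((BB h n E q : ℤ) : Eis) =
        - (tm ρ.1 (zN π e y) ((BB h n E q : ℤ) : Eis) +
          tm κρ.1 (zN π e y) ((BB h n E q : ℤ) : Eis)) := by
      unfold sl
      have hsup : Function.support (fun σ : PP => tm σ.1 (zN π e y) ((BB h n E q : ℤ) : Eis)) ⊆
          (({ρ, κρ} : Finset PP) : Set PP) := by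
        intro σ hσ
        by_contra hnm
        apply hσ
        rw [Finset.mem_coe, Finset.mem_insert, Finset.mem_singleton, not_or] at hnm
        exact hoth σ hnm.1 hnm.2
      rw [finsum_eq_sum_of_support_subset _ hsup, Finset.sum_pair hρκ]
    rw [hslB, hκB] at h4
    have h5 := three_zero (tm ρ.1 (zN π e y) ((BB h n E q : ℤ) : Eis))
    linear_combination h5 - h4
  have hall : ∀ σ : PP, tm σ.1 (zN π e y) ((BB h n E q : ℤ) : Eis) = 0 := by
    intro σ
    by_cases h4 : σ = ρ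
    · rw [h4]
      exact hρB
    · by_cases h5 : σ = κρ
      · rw [h5, hκB]
        exact hρB
      · exact hoth σ h4 h5
  refine ⟨hz, ⟨t, hzt⟩, hall, ?_, ?_⟩
  · intro σ hσB
    have hσz : ¬ σ.1 ∣ zN π e y := by
      intro h4
      apply hσB
      obtain ⟨i, h5⟩ := hsupp σ h4
      have hVB : (π i).1 ∣ ((BB h n E q : ℤ) : Eis) := by
        by_contra h6
        have h7 := hD.vi i
        rw [V_eq_zero h6] at h7
        have := hn.pe i
        omega
      rcases h5 with rfl | h5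
      · exact hVB
      · rw [h5]
        have h6 := conj_dvd hVB
        rwa [conj_intCast] at h6
    rw [V_eq_zero hσz]
    exact dvd_zero 3
  · intro hlv1
    rw [hlv] at hlv1
    have h1 : h = 1 := by
      obtain rfl | rfl | rfl : h = 0 ∨ h = 1 ∨ h = 2 := by omega
      · exact absurd hlv1 (by decide)
      · rfl
      · exact absurd hlv1 (by decide)
    subst h1
    have h5 : y 0 = 0 := hact (by
      rintro (h6 | h6)
      · omega
      · omega)
    have h6 := hcol0 (by omega)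
    rw [h5, zero_mul, zero_add] at h6
    exact ⟨by rw [hsl3, h6, neg_zero], by rw [hsl4, h5, neg_zero]⟩

end Pool.Agent.PTK


end

section

/-!
# PTK_ZT: the symbols of two classes of `VS`
-/

set_option autoImplicit false

namespace Pool.Agent.PTK

open Pool.Agent.Lib_helper18 Pool.Agent.Lib_helper18.Eis Pool.Agent.Lib_helper84.Cub
open Pool.Agent.PT Pool.Agent.PTE Pool.Agent.PT3 Pool.Agent.PTN Pool.Agent.PT.EHYP
open Pool.Agent.PT3.HYPT

open ZAUX in
/-- PTK_ZT. -/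
theorem ZT_thm (hSTM : STM) (hSPP : SPP) (hSCJ : SCJ) (hLCI : Stmt_LCI)
    (hZA : Stmt_ZA) (hZC : Stmt_ZC) : Stmt_ZT := by
  classical
  intro h n m k π p e r f w0 c hn hh y hy y' hy'
  obtain ⟨hz, ⟨t, hzt⟩, hsupp, hval, -⟩ := cls hZA hn y
  obtain ⟨hz', ⟨t', hzt'⟩, hsupp', hval', -⟩ := cls hZA hn y'
  obtain ⟨hZ1, -⟩ := hZC h n m k π p e r f w0 c hn hh y hy
  obtain ⟨hZ1', -⟩ := hZC h n m k π p e r f w0 c hn hh y' hy'
  have hpi : ∀ i, tm (π i).1 (zN π e y) (zN π e y') = 0 := by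
    intro i
    unfold tm
    rw [hval i, hval' i, hZ1 i, hZ1' i]
    ring
  constructor
  · intro σ
    by_cases hπ : ∃ i, σ = π i ∨ σ.1 = conj (π i).1
    · obtain ⟨i, rfl | h4⟩ := hπ
      · exact hpi i
      · rw [tm_conj_two hSTM hSPP hSCJ h4 hz hzt hz' hzt', hpi i, neg_zero]
    · exact DCONST.tm_zero (fun h4 => hπ (hsupp σ h4)) fun h4 => hπ (hsupp' σ h4)
  · intro σ hσ' hσ
    obtain ⟨-, -, -, -, -, h6, -, -, -, -⟩ := hZA n m k π p e r f hn y'
    obtain ⟨-, -, -, -, -, -, h7, -, -, -⟩ := hZA n m k π p e r f hn y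
    obtain ⟨i, -, hi⟩ := h6 σ hσ'
    by_cases hyi : y i.succ = 0
    · exfalso
      apply hσ
      have hV0 : 3 ∣ V (π i).1 (zN π e y) := by
        rw [← ZMod.natCast_eq_zero_iff, hval i, hyi, mul_zero]
      have hc0 : ch (π i).1 (zN π e y) = 0 := by rw [hZ1 i, hyi, zero_mul]
      rcases hi with rfl | hi
      · exact (hLCI.1 (π i) _ hz).2 ⟨hV0, hc0⟩
      · have hp0 : (p i : ℤ) ≠ 0 := by exact_mod_cast (hn.pp i).ne_zero
        have hV1 : 3 ∣ V σ.1 (zN π e y) := by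
          have h8 := V_add_conj (π i).2.1 hz hzt
          rw [hi]
          omega
        refine (hLCI.1 σ _ hz).2 ⟨hV1, ?_⟩
        have h9 := tm_conj_int hSTM hSPP hSCJ hi hz hzt hp0
        have hcj : ¬ (π i).1 ∣ conj (π i).1 := fun h5 =>
          not_assoc hn i i ((π i).2.1.associated_of_dvd (prime_conj (π i).2.1) h5)
        have hVp : V (π i).1 (p i : Eis) = 1 := by
          rw [hn.pπ i, V_mul (π i).2.1 (π i).2.1.ne_zero (prime_conj (π i).2.1).ne_zero, V_self,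
            V_eq_zero hcj]
        have hVσ : V σ.1 (p i : Eis) = 1 := by
          have h10 := V_conj (a := (p i : Eis)) (π i).2.1 (by
            rw [hn.pπ i]
            exact mul_ne_zero (π i).2.1.ne_zero (prime_conj (π i).2.1).ne_zero)
          rw [conj_natCast, ← hi, hVp] at h10
          exact h10
        rw [Int.cast_natCast] at h9
        unfold tm at h9
        rw [hVp, hVσ, hc0, (ZMod.natCast_eq_zero_iff _ 3).2 hV0,
          (ZMod.natCast_eq_zero_iff _ 3).2 hV1] at h9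
        simpa using h9
    · obtain ⟨g1, g2⟩ := h7 i hyi
      rcases hi with rfl | hi
      · exact g1
      · rw [hi]
        exact g2

end Pool.Agent.PTK


end
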