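import Mathlib
import Pool.Agent.PTDM.C22
import Pool.Agent.PTDM.C31
import Pool.Agent.PTDM.C33
import Pool.Agent.PTKM.C01

/-! Parts: PTKX.DPA, PTKX.DCK, PTKX.DP4, PTKX.IF4B, PTKX.NTR -/

section

/-!
# The average rank of prime twists: tools for the local terms (`DP1` to `DP4`)

The lemmas of `PT/DCONST.lean` and `PTL/DC.lean` with `Eis` in place of `ℤ`.
-/

set_option autoImplicit false

namespace Pool.Agent.PTK

open Pool.Agent.Lib_helper18 Pool.Agent.Lib_helper18.Eis Pool.Agent.Lib_helper84.Cub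
open Pool.Agent.PT

namespace DPA

open DCONST

lemma w_pow3 (i : ℕ) : (w ^ i) ^ 3 = 1 := by
  rw [← pow_mul, mul_comm, pow_mul, w_cube, one_pow]

lemma LfE_mul (p q r : Eis) (i : ℕ) :
    LfE p q i r * (p ^ 2 - p * (q * w ^ i * r) + (q * w ^ i * r) ^ 2) =
      p ^ 3 + q ^ 3 * r ^ 3 := by
  have h2 := w_pow3 i
  unfold LfE
  linear_combination (q ^ 3 * r ^ 3) * h2

/-- The linear forms at good approximations have bounded valuation. -/
lemma LfE_ndvd {u b p q r : Eis} (hr : u ∣ r ^ 3 - b) (h : ¬ u ∣ p ^ 3 + b * q ^ 3) (i : ℕ) :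
    ¬ u ∣ LfE p q i r := by
  intro hd
  apply h
  have h1 : p ^ 3 + b * q ^ 3 =
      LfE p q i r * (p ^ 2 - p * (q * w ^ i * r) + (q * w ^ i * r) ^ 2) -
        q ^ 3 * (r ^ 3 - b) := by
    rw [LfE_mul]
    ring
  rw [h1]
  exact dvd_sub (dvd_mul_of_dvd_left hd _) (dvd_mul_of_dvd_right hr _)

lemma LfE_cont {u : Eis} {s : Eis → Eis → ZMod 3} {e : ℕ} (h : LSym u s e) {b p q r r' : Eis}
    {K : ℕ} (hn : ¬ u ^ (K + 1) ∣ p ^ 3 + b * q ^ 3)
    (hr : u ^ (K + 1) ∣ r ^ 3 - b) (hr' : u ^ (K + 1) ∣ r' ^ 3 - b)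
    (hrr : u ^ (K + e) ∣ r' - r) {B : Eis} (hB : B ≠ 0) (i : ℕ) :
    s B (LfE p q i r') = s B (LfE p q i r) := by
  have h1 := LfE_ndvd hr hn i
  have h2 := LfE_ndvd hr' hn i
  refine LSym.cont' h hB (ne_of_ndvd h1) (ne_of_ndvd h2) ?_
  have h3 : LfE p q i r' - LfE p q i r = (q * w ^ i) * (r' - r) := by
    unfold LfE
    ring
  rw [h3]
  refine dvd_mul_of_dvd_right ((pow_dvd_pow u ?_).trans hrr) _
  have := V_le_of_ndvd h.prime h1
  omega

/-- a fixed good approximation of a cube root -/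
lemma exists_root {u : Eis} {s : Eis → Eis → ZMod 3} {e : ℕ} (h : LSym u s e)
    {b p q p' q' : Eis} (hn : p ^ 3 + b * q ^ 3 ≠ 0) (hn' : p' ^ 3 + b * q' ^ 3 ≠ 0)
    (hLC : LCE u b) : ∃ r : Eis, (∀ i, LfE p q i r ≠ 0) ∧ (∀ i, LfE p' q' i r ≠ 0) ∧
      ∀ (B : Eis) (c : ZMod 3) (N0 : ℕ), B ≠ 0 → (∀ r : Eis, u ^ N0 ∣ r ^ 3 - b →
        ASE s B p q p' q' r = c) → ASE s B p q p' q' r = c := by
  have hu := h.prime
  set K := V u (p ^ 3 + b * q ^ 3) + V u (p' ^ 3 + b * q' ^ 3) with hK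
  have k1 : ¬ u ^ (K + 1) ∣ p ^ 3 + b * q ^ 3 :=
    ndvd_pow hu hn (Nat.le_add_right _ _)
  have k2 : ¬ u ^ (K + 1) ∣ p' ^ 3 + b * q' ^ 3 :=
    ndvd_pow hu hn' (Nat.le_add_left _ _)
  choose ρ hρ using hLC
  have hNu : 1 < N u := N_prime hu
  set m := (N u) ^ (K + e) with hm
  have hm0 : m ≠ 0 := pow_ne_zero _ (by omega)
  have : NeZero m := ⟨hm0⟩
  have hum : u ^ (K + e) ∣ ((m : ℤ) : Eis) := by
    have h1 : u ∣ ((N u : ℤ) : Eis) := by
      rw [N_cast, ← mul_conj]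
      exact Dvd.intro _ rfl
    have h2 := pow_dvd_pow_of_dvd h1 (K + e)
    rw [hm]
    push_cast
    push_cast at h2
    exact h2
  obtain ⟨y, hy⟩ := Finite.exists_infinite_fiber
    (fun N : ℕ => (((ρ N).re : ZMod m), ((ρ N).im : ZMod m)))
  have hinf : ((fun N : ℕ => (((ρ N).re : ZMod m), ((ρ N).im : ZMod m))) ⁻¹' {y}).Infinite :=
    Set.infinite_coe_iff.1 hy
  obtain ⟨N1, hN1, hN1'⟩ := hinf.exists_gt K
  have lev : ∀ N, K < N → u ^ (K + 1) ∣ (ρ N) ^ 3 - b :=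
    fun N hN => (pow_dvd_pow u hN).trans (hρ N)
  refine ⟨ρ N1, fun i => ne_of_ndvd (LfE_ndvd (lev N1 hN1') k1 i),
    fun i => ne_of_ndvd (LfE_ndvd (lev N1 hN1') k2 i), ?_⟩
  intro B c N0 hB hc
  obtain ⟨N2, hN2, hN2'⟩ := hinf.exists_gt (max K N0)
  have h2 := hc (ρ N2) ((pow_dvd_pow u ((le_max_right K N0).trans hN2'.le)).trans (hρ N2))
  have hrr : u ^ (K + e) ∣ ρ N1 - ρ N2 := by
    have h3 : (((ρ N2).re : ZMod m), ((ρ N2).im : ZMod m)) =
        (((ρ N1).re : ZMod m), ((ρ N1).im : ZMod m)) := by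
      rw [Set.mem_preimage, Set.mem_singleton_iff] at hN1 hN2
      rw [hN1, hN2]
    rw [Prod.mk.injEq] at h3
    have h4 : (m : ℤ) ∣ (ρ N1).re - (ρ N2).re := (ZMod.intCast_eq_intCast_iff_dvd_sub _ _ _).1 h3.1
    have h5 : (m : ℤ) ∣ (ρ N1).im - (ρ N2).im := (ZMod.intCast_eq_intCast_iff_dvd_sub _ _ _).1 h3.2
    have h6 : ((m : ℤ) : Eis) ∣ ρ N1 - ρ N2 := intCast_dvd_iff.2 ⟨by simpa using h4, by simpa using h5⟩
    exact hum.trans h6
  have l2 := lev N2 ((le_max_left K N0).trans_lt hN2')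
  have l1 := lev N1 hN1'
  rw [← h2]
  unfold ASE
  rw [LfE_cont h k1 l2 l1 hrr hB 2, LfE_cont h k2 l2 l1 hrr hB 1, LfE_cont h k1 l2 l1 hrr hB 1,
    LfE_cont h k2 l2 l1 hrr hB 2]

lemma ASE_mul {u : Eis} {s : Eis → Eis → ZMod 3} {e : ℕ} (h : LSym u s e) {p q p' q' r : Eis}
    (hr : ∀ i, LfE p q i r ≠ 0) (hr' : ∀ i, LfE p' q' i r ≠ 0) {A B : Eis} (hA : A ≠ 0)
    (hB : B ≠ 0) : ASE s (A * B) p q p' q' r = ASE s A p q p' q' r + ASE s B p q p' q' r := by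
  unfold ASE
  rw [h.mul A B _ hA hB (hr 2), h.mul A B _ hA hB (hr' 1), h.mul A B _ hA hB (hr 1),
    h.mul A B _ hA hB (hr' 2)]
  ring

lemma ASE_pow {u : Eis} {s : Eis → Eis → ZMod 3} {e : ℕ} (h : LSym u s e) {p q p' q' r : Eis}
    (hr : ∀ i, LfE p q i r ≠ 0) (hr' : ∀ i, LfE p' q' i r ≠ 0) {B : Eis}
    (hB : B ≠ 0) (E : ℕ) : ASE s (B ^ E) p q p' q' r = E * ASE s B p q p' q' r := by
  induction E with
  | zero =>
    have h1 := ASE_mul h hr hr' (A := 1) (B := 1) one_ne_zero one_ne_zero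
    rw [mul_one] at h1
    rw [pow_zero, Nat.cast_zero, zero_mul]
    exact left_eq_add.1 h1
  | succ E ih =>
    rw [pow_succ, ASE_mul h hr hr' (pow_ne_zero _ hB) hB, ih]
    push_cast
    ring

lemma ASE_cont {u : Eis} {s : Eis → Eis → ZMod 3} {e : ℕ} (h : LSym u s e) {p q p' q' r : Eis}
    (hr : ∀ i, LfE p q i r ≠ 0) (hr' : ∀ i, LfE p' q' i r ≠ 0) {A B : Eis} (hA : A ≠ 0)
    (hd : u ^ (V u A + e) ∣ B - A) : ASE s B p q p' q' r = ASE s A p q p' q' r := by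
  unfold ASE
  rw [h.cont _ _ _ hA (hr 2) hd, h.cont _ _ _ hA (hr' 1) hd,
    h.cont _ _ _ hA (hr 1) hd, h.cont _ _ _ hA (hr' 2) hd]

/-- powers in the first variable -/
lemma s_pow {u : Eis} {s : Eis → Eis → ZMod 3} {e : ℕ} (h : LSym u s e) {a B : Eis}
    (ha : a ≠ 0) (hB : B ≠ 0) (E : ℕ) : s (B ^ E) a = E * s B a := by
  induction E with
  | zero =>
    have h1 := h.mul 1 1 a one_ne_zero one_ne_zero ha
    rw [mul_one] at h1
    rw [pow_zero, Nat.cast_zero, zero_mul]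
    exact left_eq_add.1 h1
  | succ E ih =>
    rw [pow_succ, h.mul _ _ a (pow_ne_zero _ hB) hB ha, ih]
    push_cast
    ring

lemma three_zero (a : ZMod 3) : 3 * a = 0 := by
  have h : (3 : ZMod 3) = 0 := rfl
  rw [h, zero_mul]

lemma s_cube {u : Eis} {s : Eis → Eis → ZMod 3} {e : ℕ} (h : LSym u s e) {a c : Eis}
    (ha : a ≠ 0) (hc : c ≠ 0) : s (c ^ 3) a = 0 := by
  rw [s_pow h ha hc 3]
  exact three_zero _

/-- the symbol does not see cubes and the relation `x n = B c³` -/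
lemma s_rel {u : Eis} {s : Eis → Eis → ZMod 3} {e : ℕ} (h : LSym u s e) {x n B c a : Eis}
    (hx : x ≠ 0) (hn : n ≠ 0) (hB : B ≠ 0) (hc : c ≠ 0) (ha : a ≠ 0)
    (hE : x * n = B * c ^ 3) : s x a + s n a = s B a := by
  rw [← h.mul x n a hx hn ha, hE, h.mul B (c ^ 3) a hB (pow_ne_zero _ hc) ha, s_cube h ha hc,
    add_zero]

lemma ASE_rel {u : Eis} {s : Eis → Eis → ZMod 3} {e : ℕ} (h : LSym u s e) {p q p' q' r : Eis}
    (hr : ∀ i, LfE p q i r ≠ 0) (hr' : ∀ i, LfE p' q' i r ≠ 0) {x n B c : Eis}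
    (hx : x ≠ 0) (hn : n ≠ 0) (hB : B ≠ 0) (hc : c ≠ 0)
    (hE : x * n = B * c ^ 3) :
    ASE s x p q p' q' r + ASE s n p q p' q' r = ASE s B p q p' q' r := by
  unfold ASE
  rw [← s_rel h hx hn hB hc (hr 2) hE, ← s_rel h hx hn hB hc (hr' 1) hE,
    ← s_rel h hx hn hB hc (hr 1) hE, ← s_rel h hx hn hB hc (hr' 2) hE]
  ring

/-- the linear forms do not vanish at good approximations -/
lemma exists_ne {u : Eis} (hu : Prime u) {b p q : Eis} (hn : p ^ 3 + b * q ^ 3 ≠ 0) :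
    ∃ N0 : ℕ, ∀ r : Eis, u ^ N0 ∣ r ^ 3 - b → ∀ i, LfE p q i r ≠ 0 := by
  refine ⟨V u (p ^ 3 + b * q ^ 3) + 1, fun r hr i => ?_⟩
  exact ne_of_ndvd (LfE_ndvd hr (ndvd_pow hu hn le_rfl) i)

/-- numbers prime to `f` -/
lemma V_cop {u : Eis} (hu : Prime u) {f : ℕ} (huf : u ∣ (f : Eis)) {a : ℤ}
    (ha : IsCoprime a (f : ℤ)) : V u (a : Eis) = 0 := by
  apply V_eq_zero
  intro hd
  obtain ⟨x, y, hxy⟩ := ha
  apply hu.not_isUnit
  apply isUnit_of_dvd_one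
  have h1 : (1 : Eis) = (x : Eis) * (a : Eis) + (y : Eis) * (f : Eis) := by
    have h2 := congrArg (fun t : ℤ => (t : Eis)) hxy
    simp only [Int.cast_add, Int.cast_mul, Int.cast_one, Int.cast_natCast] at h2
    exact h2.symm
  rw [h1]
  exact dvd_add (dvd_mul_of_dvd_right hd _) (dvd_mul_of_dvd_right huf _)

lemma ne_cop {f : ℕ} (hf : 1 < f) {a : ℤ} (ha : IsCoprime a (f : ℤ)) : (a : Eis) ≠ 0 := by
  apply DCONST.cast_ne
  rintro rfl
  have h1 := isCoprime_zero_left.1 ha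
  have h2 := Int.isUnit_iff.1 h1
  omega

/-- A function of the first variable `B` which is additive and continuous is, for `B = N Q^E`,
a constant plus `E` times a character of `Q`. -/
lemma exists_char {u : Eis} (hu : Prime u) {e f : ℕ} (he : 1 ≤ e) (hf : 1 < f)
    (huf : u ^ e ∣ (f : Eis)) (R : Eis → ZMod 3)
    (hmul : ∀ A B : Eis, A ≠ 0 → B ≠ 0 → R (A * B) = R A + R B)
    (hcont : ∀ A B : Eis, A ≠ 0 → B ≠ 0 → u ^ (V u A + e) ∣ B - A → R B = R A)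
    {n : Eis} (hn : n ≠ 0) :
    ∃ (C : ZMod 3) (Φ : (ZMod f)ˣ →* Multiplicative (ZMod 3)),
      ∀ (E Q : ℕ) (hQ : Q.Coprime f),
      R (n * (Q : Eis) ^ E) = C + E * (Φ (ZMod.unitOfCoprime Q hQ)).toAdd := by
  have huf1 : u ∣ (f : Eis) := by
    have h1 : u ^ 1 ∣ u ^ e := pow_dvd_pow u he
    rw [pow_one] at h1
    exact h1.trans huf
  have hpow : ∀ (B : Eis), B ≠ 0 → ∀ E : ℕ, R (B ^ E) = E * R B := by
    intro B hB E
    induction E with
    | zero =>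
      have h1 := hmul 1 1 one_ne_zero one_ne_zero
      rw [mul_one] at h1
      rw [pow_zero, Nat.cast_zero, zero_mul]
      exact left_eq_add.1 h1
    | succ E ih =>
      rw [pow_succ, hmul _ _ (pow_ne_zero _ hB) hB, ih]
      push_cast
      ring
  obtain ⟨Φ, hΦ⟩ := exists_hom hf (fun a : ℤ => R (a : Eis)) (by
    intro a c ha hc
    show R ((a * c : ℤ) : Eis) = _
    rw [Int.cast_mul]
    exact hmul _ _ (ne_cop hf ha) (ne_cop hf hc)) (by
    intro a c ha hc hd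
    refine hcont _ _ (ne_cop hf ha) (ne_cop hf hc) ?_
    rw [V_cop hu huf1 ha, zero_add, ← Int.cast_sub]
    have h2 : ((f : ℤ) : Eis) ∣ ((c - a : ℤ) : Eis) := intCast_dvd_intCast.2 hd
    rw [Int.cast_natCast] at h2
    exact huf.trans h2)
  refine ⟨R n, Φ, ?_⟩
  intro E Q hQ
  have hQ0 : ((Q : ℤ) : Eis) ≠ 0 := ne_cop hf (Nat.isCoprime_iff_coprime.2 hQ)
  rw [hΦ, Int.cast_natCast] at *
  rw [hmul _ _ hn (pow_ne_zero _ hQ0), hpow _ hQ0]

/-- places where `b` is a cube -/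
lemma place_LC {u : Eis} {s : Eis → Eis → ZMod 3} {e : ℕ} (h : LSym u s e)
    {b p q p' q' n : Eis} (hn0 : n ≠ 0) (hn : p ^ 3 + b * q ^ 3 ≠ 0)
    (hn' : p' ^ 3 + b * q' ^ 3 ≠ 0) (hLC : LCE u b) {f : ℕ} (hf : 1 < f)
    (huf : u ^ e ∣ (f : Eis)) :
    ∃ (C : ZMod 3) (Φ : (ZMod f)ˣ →* Multiplicative (ZMod 3)),
      ∀ (E Q : ℕ) (hQ : Q.Coprime f) (c : ZMod 3) (N0 : ℕ),
      (∀ r : Eis, u ^ N0 ∣ r ^ 3 - b →
        ASE s (n * (Q : Eis) ^ E) p q p' q' r = c) →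
      c = C + E * (Φ (ZMod.unitOfCoprime Q hQ)).toAdd := by
  obtain ⟨r, hr, hr', H⟩ := exists_root h hn hn' hLC
  obtain ⟨C, Φ, hΦ⟩ := exists_char h.prime h.pos hf huf (fun B => ASE s B p q p' q' r)
    (fun A B hA hB => ASE_mul h hr hr' hA hB) (fun A B hA _ hd => ASE_cont h hr hr' hA hd) hn0
  refine ⟨C, Φ, ?_⟩
  intro E Q hQ c N0 hc
  have hQ0 : (Q : Eis) ≠ 0 := by
    have h1 : ((Q : ℤ) : Eis) ≠ 0 := ne_cop hf (Nat.isCoprime_iff_coprime.2 hQ)
    rwa [Int.cast_natCast] at h1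
  rw [← hΦ E Q hQ]
  exact (H _ c N0 (mul_ne_zero hn0 (pow_ne_zero _ hQ0)) hc).symm

/-- the base and the norm are exchanged -/
lemma SolE_flip {b x p q p' q' : Eis} (h : SolE x b p q p' q') :
    SolE b x p (-p') (-q) q' := by
  refine ⟨⟨?_, ?_⟩, ?_, ?_, ?_⟩
  · linear_combination h.eq
  · intro h0
    apply h.n2
    linear_combination h0
  · intro h0
    apply h.n1
    linear_combination h0
  · intro h0
    apply h.g1
    rw [← h0]
    unfold GfE
    ring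
  · intro h0
    apply h.g2
    rw [← h0]
    unfold GfE
    ring

/-- the second norm -/
lemma SolE_n1' {x b p q p' q' : Eis} (h : SolE x b p q p' q') : p' ^ 3 + x * q' ^ 3 ≠ 0 := by
  intro h0
  apply h.n1
  rw [h.eq, h0, mul_zero]

lemma B_ne {N : ℕ} {b x p q p' q' : Eis} (HD : HypD N b x p q p' q') {E Q : ℕ} {X Y : Eis}
    (HP : HypP N b x p q p' q' E Q X Y) : (N : Eis) * (Q : Eis) ^ E ≠ 0 := by
  have h1 : (N : Eis) ≠ 0 := by
    have h2 : ((N : ℤ) : Eis) ≠ 0 := DCONST.cast_ne (by have := HD.N0; omega)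
    rwa [Int.cast_natCast] at h2
  have h3 : (Q : Eis) ≠ 0 := by
    have h2 : ((Q : ℤ) : Eis) ≠ 0 := DCONST.cast_ne (by have := HP.hQ.pos; omega)
    rwa [Int.cast_natCast] at h2
  exact mul_ne_zero h1 (pow_ne_zero _ h3)

lemma n0_ne {N : ℕ} {b x p q p' q' : Eis} (HD : HypD N b x p q p' q') {E Q : ℕ} {X Y : Eis}
    (HP : HypP N b x p q p' q' E Q X Y) : X ^ 3 + x * Y ^ 3 ≠ 0 := by
  obtain ⟨c, hc, h⟩ := HP.pt.eq
  intro h0
  rw [h0, mul_zero] at h
  exact mul_ne_zero (B_ne HD HP) (pow_ne_zero _ hc) h.symm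

/-- The local term at a tame place where `x` is a local cube. -/
lemma core (hIF4 : Stmt_IF4) (hLCI : Stmt_LCI) {π : PP} (hs : LSym π.1 (tm π.1) 1) {N : ℕ}
    {b x p q p' q' : Eis} (HD : HypD N b x p q p' q') {E Q : ℕ} {X Y : Eis}
    (HP : HypP N b x p q p' q' E Q X Y) (hL : LCE π.1 x) :
    ∃ N0 : ℕ, ∀ ξ : Eis, π.1 ^ N0 ∣ ξ ^ 3 - x →
      (∀ i, LfE X Y i ξ ≠ 0) ∧
      (∀ a : Eis, a ≠ 0 → tm π.1 a (X ^ 3 + x * Y ^ 3) = tm π.1 a ((N : Eis) * (Q : Eis) ^ E)) ∧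
      SVE (tm π.1) x p (-p') (-q) q' X Y =
        ASE (tm π.1) ((N : Eis) * (Q : Eis) ^ E) p q p' q' ξ +
          tm π.1 (LfE X Y 1 ξ) b - tm π.1 (LfE X Y 2 ξ) b := by
  have hB := B_ne HD HP
  have hn0 := n0_ne HD HP
  obtain ⟨c, hc, hE⟩ := HP.pt.eq
  obtain ⟨N1, H1⟩ := exists_ne hs.prime (b := x) HD.sol.n1
  obtain ⟨N2, H2⟩ := exists_ne hs.prime (b := x) (SolE_n1' HD.sol)
  obtain ⟨N3, H3⟩ := exists_ne hs.prime (b := x) (p := X) (q := Y) hn0
  obtain ⟨N4, H4⟩ := hIF4 π.1 (tm π.1) 1 hs b x p (-p') (-q) q' X Y HD.hb HD.hx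
    (SolE_flip HD.sol) HP.pt.hX HP.pt.hY hn0 HP.dn
  refine ⟨N1 + N2 + N3 + N4, fun ξ hξ => ?_⟩
  have g1 := H1 ξ ((pow_dvd_pow _ (by omega)).trans hξ)
  have g2 := H2 ξ ((pow_dvd_pow _ (by omega)).trans hξ)
  have g3 := H3 ξ ((pow_dvd_pow _ (by omega)).trans hξ)
  have g4 := H4 ξ ((pow_dvd_pow _ (by omega)).trans hξ)
  have hx0 : ∀ a : Eis, a ≠ 0 → tm π.1 x a = 0 := fun a ha =>
    hLCI.2.2 π.1 (tm π.1) 1 x a hs hL HD.hx ha
  have hrel : ∀ a : Eis, a ≠ 0 →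
      tm π.1 (X ^ 3 + x * Y ^ 3) a = tm π.1 ((N : Eis) * (Q : Eis) ^ E) a := by
    intro a ha
    have h1 := s_rel hs HD.hx hn0 hB hc ha hE
    rw [hx0 a ha, zero_add] at h1
    exact h1
  refine ⟨g3, ?_, ?_⟩
  · intro a ha
    rw [hs.skew (X ^ 3 + x * Y ^ 3) a hn0 ha, hs.skew ((N : Eis) * (Q : Eis) ^ E) a hB ha, hrel a ha]
  · rw [g4, neg_neg, neg_neg]
    unfold ASE
    rw [hrel _ (g1 2), hrel _ (g2 1), hrel _ (g1 1), hrel _ (g2 2)]

/-- the tame symbol with an element proportional to `B` -/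
lemma tm_prop {π a b B : Eis} (hb : tm π b B = 0) :
    (V π B : ZMod 3) * tm π a b = (V π b : ZMod 3) * tm π a B := by
  have h1 : (V π B : ZMod 3) * ch π b = (V π b : ZMod 3) * ch π B := by
    unfold tm at hb
    linear_combination hb
  unfold tm
  linear_combination (- (V π a : ZMod 3)) * h1

end DPA

end Pool.Agent.PTK


end

section

/-!
# PTK_DCK: the relation for the Frobenius invariant of `Q`
-/

set_option autoImplicit false

namespace Pool.Agent.PTK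

open Pool.Agent.Lib_helper18 Pool.Agent.Lib_helper18.Eis Pool.Agent.Lib_helper84.Cub
open Pool.Agent.PT

namespace DCK

open DPA

lemma nat_ne {n : ℕ} (h : n ≠ 0) : (n : Eis) ≠ 0 := by
  have h2 : ((n : ℤ) : Eis) ≠ 0 := DCONST.cast_ne (by omega)
  rwa [Int.cast_natCast] at h2

lemma dvd_natAbs_norm (a : Eis) : a ∣ ((a.norm.natAbs : ℕ) : Eis) := by
  have h1 : ((a.norm.natAbs : ℕ) : ℤ) = a.norm := Int.natAbs_of_nonneg (norm_nonneg a)
  have h2 : ((a.norm.natAbs : ℕ) : Eis) = ((a.norm : ℤ) : Eis) := by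
    rw [← h1, Int.cast_natCast]
    simp
  rw [h2, ← mul_conj]
  exact Dvd.intro _ rfl

/-- the forms of a point do not vanish -/
lemma dne_aux {π : PP} {E : ℕ} (hE : E = 1 ∨ E = 2) {B N c x X Y u v : Eis}
    (hB : B = N * π.1 ^ E) (hN : ¬ π.1 ∣ N) (hx : ¬ π.1 ∣ x) (hc : c ≠ 0) (hY : Y ≠ 0)
    (hpt : x * (X ^ 3 + x * Y ^ 3) = B * c ^ 3) (hM : ¬ π.1 ∣ v ^ 3 + x * u ^ 3)
    (i : ℕ) : X * u - w ^ i * v * Y ≠ 0 := by
  intro h0
  have hM0 : v ^ 3 + x * u ^ 3 ≠ 0 := DCONST.ne_of_ndvd hM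
  have hw := w_pow3 i
  have h1 : X ^ 3 * u ^ 3 = v ^ 3 * Y ^ 3 := by
    have h2 : (X * u) ^ 3 = (w ^ i * v * Y) ^ 3 := by rw [sub_eq_zero.1 h0]
    linear_combination h2 + (v ^ 3 * Y ^ 3) * hw
  have hu : u ≠ 0 := by
    rintro rfl
    have h3 : v ^ 3 * Y ^ 3 = 0 := by rw [← h1]; ring
    rcases mul_eq_zero.1 h3 with h4 | h4
    · apply hM0
      rw [h4]
      ring
    · exact hY (pow_eq_zero_iff (by norm_num) |>.1 h4)
  have h5 : B * (c * u) ^ 3 = x * Y ^ 3 * (v ^ 3 + x * u ^ 3) := by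
    linear_combination (- u ^ 3) * hpt + x * h1
  have hπ := π.2.1
  have hN0 : N ≠ 0 := DCONST.ne_of_ndvd hN
  have hx0 : x ≠ 0 := DCONST.ne_of_ndvd hx
  have hcu : c * u ≠ 0 := mul_ne_zero hc hu
  have hB0 : B ≠ 0 := by
    rw [hB]
    exact mul_ne_zero hN0 (pow_ne_zero _ hπ.ne_zero)
  have h6 := congrArg (V π.1) h5
  rw [V_mul hπ hB0 (pow_ne_zero _ hcu), V_pow hπ hcu,
    V_mul hπ (mul_ne_zero hx0 (pow_ne_zero _ hY)) hM0, V_mul hπ hx0 (pow_ne_zero _ hY),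
    V_pow hπ hY, V_eq_zero hx, V_eq_zero hM, hB,
    V_mul_not_dvd hπ hN (pow_ne_zero _ hπ.ne_zero), V_pow hπ hπ.ne_zero, V_self] at h6
  omega

end DCK

open DPA _root_.Pool.Agent.PTK.DCK in
/-- PTK_DCK. -/
theorem DCK_thm (hSPP : SPP) (hDP1 : Stmt_DP1) (hDP2 : Stmt_DP2) (hDP3 : Stmt_DP3)
    (hDP4 : Stmt_DP4) (hSVF : Stmt_SVF) : Stmt_DCK := by
  intro N b x p q p' q' HD
  have hn1 := HD.sol.n1
  have hn2 := SolE_n1' HD.sol
  obtain ⟨m1, hm1⟩ : ∃ m : ℕ, m = (p ^ 3 + x * q ^ 3).norm.natAbs := ⟨_, rfl⟩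
  obtain ⟨m2, hm2⟩ : ∃ m : ℕ, m = (p' ^ 3 + x * q' ^ 3).norm.natAbs := ⟨_, rfl⟩
  have hm1d : p ^ 3 + x * q ^ 3 ∣ (m1 : Eis) := by rw [hm1]; exact dvd_natAbs_norm _
  have hm2d : p' ^ 3 + x * q' ^ 3 ∣ (m2 : Eis) := by rw [hm2]; exact dvd_natAbs_norm _
  have hm1p : 0 < m1 := by
    rw [hm1]
    exact Int.natAbs_pos.2 (norm_pos hn1).ne'
  have hm2p : 0 < m2 := by
    rw [hm2]
    exact Int.natAbs_pos.2 (norm_pos hn2).ne'
  obtain ⟨M, hMdef⟩ : ∃ M : ℕ, M = N * m1 * m2 := ⟨_, rfl⟩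
  have hMp : 0 < M := by
    rw [hMdef]
    exact Nat.mul_pos (Nat.mul_pos HD.N0 hm1p) hm2p
  have hMe : (M : Eis) = (N : Eis) * (m1 : Eis) * (m2 : Eis) := by
    rw [hMdef]
    push_cast
    ring
  have hM0 : (M : Eis) ≠ 0 := nat_ne hMp.ne'
  have dN : (N : Eis) ∣ (M : Eis) := by
    rw [hMe, mul_assoc]
    exact Dvd.intro _ rfl
  have d1 : p ^ 3 + x * q ^ 3 ∣ (M : Eis) := by
    rw [hMe]
    exact dvd_mul_of_dvd_left (dvd_mul_of_dvd_right hm1d _) _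
  have d2 : p' ^ 3 + x * q' ^ 3 ∣ (M : Eis) := by
    rw [hMe]
    exact dvd_mul_of_dvd_right hm2d _
  have hfin := hSPP.2.2.1 (M : Eis) hM0
  refine ⟨9 * M, by omega, ?_⟩
  intro f hf0 hf
  have h9 : 9 ∣ f := (Dvd.intro _ rfl).trans hf
  have hf1 : 1 < f := by
    have := Nat.le_of_dvd hf0 h9
    omega
  have hMf : M ∣ f := (Dvd.intro_left 9 rfl).trans hf
  have hMfe : (M : Eis) ∣ (f : Eis) := by
    obtain ⟨k, hk⟩ := hMf
    rw [hk]
    push_cast
    exact Dvd.intro _ rfl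
  obtain ⟨C₀, Φ₀, H₀⟩ := hDP2 N b x p q p' q' HD f hf1 h9
  have hpl : ∀ π : PP, ∃ (c : ZMod 3) (Φ : (ZMod f)ˣ →* Multiplicative (ZMod 3)),
      π.1 ∣ (M : Eis) → ∀ (E Q : ℕ) (hQ : Q.Coprime f) (X Y : Eis),
        HypP N b x p q p' q' E Q X Y →
        SVE (tm π.1) x p (-p') (-q) q' X Y = c + E * (Φ (ZMod.unitOfCoprime Q hQ)).toAdd := by
    intro π
    by_cases hπM : π.1 ∣ (M : Eis)
    · obtain ⟨C, Φ, H⟩ := hDP1 N b x p q p' q' HD π f hf1 (hπM.trans hMfe)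
      exact ⟨C, Φ, fun _ => H⟩
    · exact ⟨0, 1, fun h => absurd h hπM⟩
  choose c Φ H using hpl
  refine ⟨C₀ + ∑ π ∈ hfin.toFinset, c π, Φ₀ * ∏ π ∈ hfin.toFinset, Φ π, 0, ?_⟩
  intro E Q hQ hE hQp _ hQ3 hsb hsx X Y ξ hpt hξ
  obtain ⟨πQ, hπQ⟩ := hSPP.2.2.2.2.1 Q hQp hQ3
  have hQM : ¬ πQ.1 ∣ (M : Eis) := by
    intro h
    rw [hπQ] at h
    have h1 : ((Q : ℤ) : Eis) ∣ ((M : ℤ) : Eis) := by
      rw [Int.cast_natCast, Int.cast_natCast]
      exact h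
    have h2 : Q ∣ M := Int.natCast_dvd_natCast.1 (intCast_dvd_intCast.1 h1)
    have h3 := Nat.Coprime.eq_one_of_dvd hQ (h2.trans hMf)
    exact hQp.one_lt.ne' h3
  have hQN : ¬ πQ.1 ∣ (N : Eis) := fun h => hQM (h.trans dN)
  obtain ⟨hQb, hQx⟩ := HD.unr πQ hQN
  obtain ⟨k, hk, hkE⟩ := hpt.eq
  have hBe : (N : Eis) * (Q : Eis) ^ E = (N : Eis) * πQ.1 ^ E := by rw [hπQ]
  have hdn : DNE X Y p (-p') (-q) q' := by
    have hA := fun i => dne_aux (π := πQ) hE (X := X) (Y := Y) (u := q) (v := p) hBe hQN hQx hk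
      hpt.hY hkE (fun h => hQM (h.trans d1)) i
    have hA' := fun i => dne_aux (π := πQ) hE (X := X) (Y := Y) (u := q') (v := p') hBe hQN hQx hk
      hpt.hY hkE (fun h => hQM (h.trans d2)) i
    refine ⟨?_, ?_, ?_, ?_⟩
    · intro h
      apply hA 1
      unfold DfE at h
      linear_combination - h
    · intro h
      apply hA 2
      unfold DfE at h
      linear_combination - h
    · intro h
      apply hA' 1
      unfold DfE at h
      linear_combination h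
    · intro h
      apply hA' 2
      unfold DfE at h
      linear_combination h
  have HP : HypP N b x p q p' q' E Q X Y := ⟨hE, hQp, hsb, hsx, hpt, hdn⟩
  have hn0 := n0_ne HD HP
  obtain ⟨-, hsum0⟩ := hSVF b x p (-p') (-q) q' X Y HD.hb HD.hx (SolE_flip HD.sol) hpt.hX hpt.hY
    hn0 hdn
  -- the place `Q`
  have hTQ : SVE (tm πQ.1) x p (-p') (-q) q' X Y = - (E * TAUE Q p q p' q' ξ) := by
    refine hDP4 N b x p q p' q' HD πQ E Q X Y ξ HP hQ3 hπQ hQN ?_ hξ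
    intro h
    rcases πQ.2.1.dvd_or_dvd h with h1 | h1
    · exact hQM (h1.trans d1)
    · exact hQM (h1.trans d2)
  -- the sum
  have hQS : πQ ∉ hfin.toFinset := by
    rw [Set.Finite.mem_toFinset]
    exact hQM
  classical
  have hsupp : (Function.support fun v : Pl => SVE (sy v) x p (-p') (-q) q' X Y) ⊆
      ((insert none (insert (some πQ) (hfin.toFinset.image some)) : Finset Pl) : Set Pl) := by
    intro v hv
    by_contra hnv
    apply hv
    rcases v with _ | π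
    · exact absurd (Finset.mem_coe.2 (Finset.mem_insert_self _ _)) hnv
    · have hnM : ¬ π.1 ∣ (M : Eis) := by
        intro h
        apply hnv
        rw [Finset.mem_coe]
        refine Finset.mem_insert_of_mem (Finset.mem_insert_of_mem (Finset.mem_image_of_mem _ ?_))
        rw [Set.Finite.mem_toFinset]
        exact h
      have hπne : π ≠ πQ := by
        rintro rfl
        apply hnv
        rw [Finset.mem_coe]
        exact Finset.mem_insert_of_mem (Finset.mem_insert_self _ _)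
      have hπQnd : ¬ π.1 ∣ (Q : Eis) := by
        rw [← hπQ]
        intro h
        exact hπne (hSPP.2.1 π πQ (π.2.1.associated_of_dvd πQ.2.1 h))
      refine hDP3 N b x p q p' q' HD π E Q X Y HP (fun h => hnM (h.trans dN)) hπQnd ?_
      intro h
      rcases π.2.1.dvd_or_dvd h with h1 | h1
      · exact hnM (h1.trans d1)
      · exact hnM (h1.trans d2)
  have hn_notin : (none : Pl) ∉ insert (some πQ) (hfin.toFinset.image some) := by
    simp
  have hQ_notin : (some πQ : Pl) ∉ hfin.toFinset.image some := by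
    intro h
    obtain ⟨y, hy, hy'⟩ := Finset.mem_image.1 h
    rw [Option.some.injEq] at hy'
    rw [hy'] at hy
    exact hQS hy
  have hsum : ∑ π ∈ hfin.toFinset, SVE (sy (some π)) x p (-p') (-q) q' X Y =
      ∑ π ∈ hfin.toFinset, (c π + E * (Φ π (ZMod.unitOfCoprime Q hQ)).toAdd) := by
    refine Finset.sum_congr rfl ?_
    intro π hπ
    rw [Set.Finite.mem_toFinset] at hπ
    exact H π hπ E Q hQ X Y HP
  rw [finsum_eq_sum_of_support_subset _ hsupp, Finset.sum_insert hn_notin,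
    Finset.sum_insert hQ_notin, Finset.sum_image (fun _ _ _ _ h => Option.some_injective _ h),
    hsum] at hsum0
  have e1 : SVE (sy none) x p (-p') (-q) q' X Y =
      C₀ + E * (Φ₀ (ZMod.unitOfCoprime Q hQ)).toAdd := H₀ E Q hQ X Y HP
  have e2 : SVE (sy (some πQ)) x p (-p') (-q) q' X Y = - (E * TAUE Q p q p' q' ξ) := hTQ
  rw [e1, e2, Finset.sum_add_distrib, ← Finset.mul_sum] at hsum0
  rw [MonoidHom.mul_apply, MonoidHom.finsetProd_apply, toAdd_mul, toAdd_prod]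
  linear_combination hsum0

end Pool.Agent.PTK


end

section

/-!
# PTK_DP4: the local term of a point at `Q`
-/

set_option autoImplicit false

namespace Pool.Agent.PTK

open Pool.Agent.Lib_helper18 Pool.Agent.Lib_helper18.Eis Pool.Agent.Lib_helper84.Cub
open Pool.Agent.PT

namespace DP4

open DPA

/-- the symbol at an inert prime -/
lemma tm_inert {Q : Eis} {n : Eis} (hQ : Prime Q) (hn : ¬ Q ∣ n) {L : Eis}
    (hL : ¬ Q ∣ L) (E : ℕ) : tm Q (n * Q ^ E) L = - (E * sym Q L) := by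
  have h1 : V Q (n * Q ^ E) = E := by
    rw [V_mul_not_dvd hQ hn (pow_ne_zero _ hQ.ne_zero), V_pow hQ hQ.ne_zero, V_self, mul_one]
  have h2 : up Q L = L := by
    unfold up
    rw [V_eq_zero hL, pow_zero, EuclideanDomain.div_one]
  unfold tm
  rw [V_eq_zero hL, h1]
  unfold ch
  rw [h2]
  simp

lemma LfE_per (p q r : Eis) (i : ℕ) : LfE p q (i + 3) r = LfE p q i r := by
  unfold LfE
  rw [pow_add, w_cube, mul_one]

lemma LfE_shift (p q r : Eis) (i : ℕ) : LfE p q i (w * r) = LfE p q (i + 1) r := by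
  unfold LfE
  ring

lemma LfE_prod (p q r : Eis) : LfE p q 0 r * LfE p q 1 r * LfE p q 2 r = p ^ 3 + q ^ 3 * r ^ 3 := by
  have h1 : w ^ 3 = 1 := w_cube
  have h2 : w ^ 2 + w + 1 = 0 := w_rel
  unfold LfE
  linear_combination (q ^ 3 * r ^ 3) * h1 + (p ^ 2 * q * r + p * q ^ 2 * r ^ 2 * w) * h2

end DP4

open DPA _root_.Pool.Agent.PTK.DP4 in
/-- PTK_DP4. -/
theorem DP4_thm (hSTM : STM) (hSPP : SPP) (hIF4 : Stmt_IF4) (hLCI : Stmt_LCI) : Stmt_DP4 := by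
  intro N b x p q p' q' HD π E Q X Y ξ HP hQ3 hπQ hπN hπM hξ
  have h3 : ¬ π.1 ∣ 3 := (hSPP.2.2.2.1 π).1
  have hs : LSym π.1 (tm π.1) 1 := hSTM π.1 π.2.1 h3
  obtain ⟨hπb, hπx⟩ := HD.unr π hπN
  have hVx0 : V π.1 x = 0 := V_eq_zero hπx
  have hVb0 : V π.1 b = 0 := V_eq_zero hπb
  have hB := B_ne HD HP
  have hn0 := n0_ne HD HP
  have hVB : V π.1 ((N : Eis) * (Q : Eis) ^ E) = E := by
    rw [← hπQ, V_mul_not_dvd π.2.1 hπN (pow_ne_zero _ π.2.1.ne_zero), V_pow π.2.1 π.2.1.ne_zero,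
      V_self, mul_one]
  have hE0 : (E : ZMod 3) ≠ 0 := by
    rcases HP.hE with h | h
    · rw [h]; decide
    · rw [h]; decide
  have hcub : ∀ a : Eis, V π.1 a = 0 → tm π.1 a ((N : Eis) * (Q : Eis) ^ E) = 0 →
      ch π.1 a = 0 := by
    intro a ha h
    unfold tm at h
    rw [hVB, ha] at h
    simp only [Nat.cast_zero, zero_mul, sub_zero] at h
    exact (mul_eq_zero.1 h).resolve_left hE0
  have hLx : LCE π.1 x := (hLCI.1 π x HD.hx).2 ⟨by rw [hVx0]; exact dvd_zero 3,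
    hcub x hVx0 (HP.sx π)⟩
  have hcb := hcub b hVb0 (HP.sb π)
  have hLb : LCE π.1 b := (hLCI.1 π b HD.hb).2 ⟨by rw [hVb0]; exact dvd_zero 3, hcb⟩
  obtain ⟨N1, H1⟩ := core hIF4 hLCI hs HD HP hLx
  obtain ⟨ξ', hξ'⟩ := hLx (N1 + 1)
  obtain ⟨hF, -, h1⟩ := H1 ξ' ((pow_dvd_pow _ (by omega)).trans hξ')
  have h4 : π.1 ∣ ξ' ^ 3 - x := by
    have h4 : π.1 ^ 1 ∣ ξ' ^ 3 - x := (pow_dvd_pow _ (by omega)).trans hξ'
    rwa [pow_one] at h4
  have hb0 : ∀ i, tm π.1 (LfE X Y i ξ') b = 0 := by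
    intro i
    rw [hs.skew b (LfE X Y i ξ') HD.hb (hF i),
      hLCI.2.2 π.1 (tm π.1) 1 b _ hs hLb HD.hb (hF i), neg_zero]
  have hM1 : ¬ π.1 ∣ p ^ 3 + x * q ^ 3 := fun h => hπM (dvd_mul_of_dvd_left h _)
  have hM2 : ¬ π.1 ∣ p' ^ 3 + x * q' ^ 3 := fun h => hπM (dvd_mul_of_dvd_right h _)
  have k1 := LfE_ndvd (p := p) (q := q) h4 hM1
  have k2 := LfE_ndvd (p := p') (q := q') h4 hM2
  have hQe : (Q : Eis) = π.1 := hπQ.symm
  rw [hQe] at hξ
  rw [h1, hb0, hb0, add_zero, sub_zero]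
  have h5 : ASE (tm π.1) ((N : Eis) * (Q : Eis) ^ E) p q p' q' ξ' = - (E * TAUE Q p q p' q' ξ') := by
    unfold ASE TAUE
    rw [hQe, tm_inert π.2.1 hπN (k1 2), tm_inert π.2.1 hπN (k2 1), tm_inert π.2.1 hπN (k1 1),
      tm_inert π.2.1 hπN (k2 2)]
    ring
  rw [h5]
  congr 2
  -- independence of the cube root
  have hcongr : ∀ r r' : Eis, π.1 ∣ r - r' → TAUE Q p q p' q' r = TAUE Q p q p' q' r' := by
    intro r r' hr
    have h6 : ∀ (g h : Eis) (i : ℕ), sym (Q : Eis) (LfE g h i r) = sym (Q : Eis) (LfE g h i r') := by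
      intro g h i
      apply sym_congr
      have h7 : LfE g h i r - LfE g h i r' = (h * w ^ i) * (r - r') := by
        unfold LfE
        ring
      rw [h7, hQe]
      exact dvd_mul_of_dvd_right hr _
    unfold TAUE
    rw [h6, h6, h6, h6]
  have hshift : ∀ r : Eis, π.1 ∣ r ^ 3 - x → TAUE Q p q p' q' (w * r) = TAUE Q p q p' q' r := by
    intro r hr
    have m1 := LfE_ndvd (p := p) (q := q) hr hM1
    have m2 := LfE_ndvd (p := p') (q := q') hr hM2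
    have h8 : sym π.1 (LfE p q 0 r) + sym π.1 (LfE p q 1 r) + sym π.1 (LfE p q 2 r) =
        sym π.1 b + (sym π.1 (LfE p' q' 0 r) + sym π.1 (LfE p' q' 1 r) +
          sym π.1 (LfE p' q' 2 r)) := by
      rw [← sym_mul π.2.1 h3 (m1 0) (m1 1), ← sym_mul π.2.1 h3 (π.2.1.not_dvd_mul (m1 0) (m1 1)) (m1 2),
        ← sym_mul π.2.1 h3 (m2 0) (m2 1), ← sym_mul π.2.1 h3 (π.2.1.not_dvd_mul (m2 0) (m2 1)) (m2 2),
        ← sym_mul π.2.1 h3 hπb (π.2.1.not_dvd_mul (π.2.1.not_dvd_mul (m2 0) (m2 1)) (m2 2))]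
      apply sym_congr
      rw [LfE_prod, LfE_prod]
      have h9 : p ^ 3 + q ^ 3 * r ^ 3 - b * (p' ^ 3 + q' ^ 3 * r ^ 3) =
          (q ^ 3 - b * q' ^ 3) * (r ^ 3 - x) := by
        linear_combination HD.sol.eq
      rw [h9]
      exact dvd_mul_of_dvd_right hr _
    have h10 : sym π.1 b = 0 := by
      have h11 := hcb
      unfold ch up at h11
      rwa [hVb0, pow_zero, EuclideanDomain.div_one] at h11
    unfold TAUE
    rw [LfE_shift, LfE_shift, LfE_shift, LfE_shift, hQe]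
    have e1 : LfE p q (2 + 1) r = LfE p q 0 r := LfE_per p q r 0
    have e2 : LfE p' q' (2 + 1) r = LfE p' q' 0 r := LfE_per p' q' r 0
    rw [e1, e2]
    rw [h10] at h8
    have h12 : (3 : ZMod 3) = 0 := rfl
    linear_combination h8 - (sym π.1 (LfE p q 2 r) - sym π.1 (LfE p' q' 2 r)) * h12
  have hdiv : π.1 ∣ (ξ' - ξ) * (ξ' - w * ξ) * (ξ' - w * (w * ξ)) := by
    have h13 : (ξ' - ξ) * (ξ' - w * ξ) * (ξ' - w * (w * ξ)) = (ξ' ^ 3 - x) - (ξ ^ 3 - x) := by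
      have h1 : w ^ 3 = 1 := w_cube
      have h2 : w ^ 2 + w + 1 = 0 := w_rel
      linear_combination (- ξ ^ 3) * h1 + (- ξ' ^ 2 * ξ + ξ' * ξ ^ 2 * w) * h2
    rw [h13]
    exact dvd_sub h4 hξ
  have hw3 : ∀ r : Eis, π.1 ∣ r ^ 3 - x → π.1 ∣ (w * r) ^ 3 - x := by
    intro r hr
    rwa [mul_pow, w_cube, one_mul]
  rcases π.2.1.dvd_or_dvd hdiv with h | h
  · rcases π.2.1.dvd_or_dvd h with h | h
    · exact hcongr _ _ h
    · rw [hcongr _ _ h, hshift ξ hξ]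
  · rw [hcongr _ _ h, hshift (w * ξ) (hw3 ξ hξ), hshift ξ hξ]

end Pool.Agent.PTK


end

section

/-!
# IF4B: the symbol of `F_1 / F_2` and `n_0` over `K`
-/

set_option autoImplicit false

namespace Pool.Agent.PTK

open Pool.Agent.Lib_helper18 Pool.Agent.Lib_helper18.Eis Pool.Agent.Lib_helper84.Cub
open Pool.Agent.PT Pool.Agent.PT.IF4B

theorem IF4B_thm (hSTAR : STAR) : Stmt_IF4B := by
  intro π s e hs x X Y hx' _ _ hn'
  have hw : w ≠ 0 := by
    intro h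
    have h1 := congrArg Eis.im h
    simp at h1
  set n0 : Eis := X ^ 3 + x * Y ^ 3 with hn0
  refine ⟨V π n0 + V π x + e + 1, fun ξ hξ => ?_⟩
  have hξ0 : ξ ≠ 0 := by
    intro h
    rw [h] at hξ
    refine not_dvd hs.prime hx' (N := V π n0 + V π x + e + 1) (by omega) ?_
    have h1 : (0 : Eis) ^ 3 - x = -x := by ring
    rw [h1, dvd_neg] at hξ
    exact hξ
  have hprod := prod_eq X ξ Y
  have hdvd : π ^ (V π n0 + V π x + e + 1) ∣ X ^ 3 + ξ ^ 3 * Y ^ 3 - n0 := by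
    have h1 : X ^ 3 + ξ ^ 3 * Y ^ 3 - n0 = (ξ ^ 3 - x) * Y ^ 3 := by
      rw [hn0]
      ring
    rw [h1]
    exact Dvd.dvd.mul_right hξ _
  have hne : X ^ 3 + ξ ^ 3 * Y ^ 3 ≠ 0 := by
    intro h
    rw [h, zero_sub, dvd_neg] at hdvd
    exact not_dvd hs.prime hn' (by omega) hdvd
  set F : ℕ → Eis := fun i => X + w ^ i * ξ * Y with hF
  have hF3 : F 0 * F 1 * F 2 = X ^ 3 + ξ ^ 3 * Y ^ 3 := hprod
  have hF0 : F 0 ≠ 0 := by
    intro h
    rw [h, zero_mul, zero_mul] at hF3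
    exact hne hF3.symm
  have hF1 : F 1 ≠ 0 := by
    intro h
    rw [h, mul_zero, zero_mul] at hF3
    exact hne hF3.symm
  have hF2 : F 2 ≠ 0 := by
    intro h
    rw [h, mul_zero] at hF3
    exact hne hF3.symm
  have hFi : ∀ i, F i ≠ 0 := by
    intro i
    have h1 : F i = F (i % 3) := by
      simp only [hF]
      rw [w_pow i]
    rw [h1]
    have h2 : i % 3 < 3 := Nat.mod_lt _ (by norm_num)
    interval_cases i % 3
    · exact hF0
    · exact hF1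
    · exact hF2
  have h1 := (hSTAR π s e hs X Y 0 0 ξ F (fun _ => 0) (fun _ => 0)
    (fun _ => rfl) (fun i => by simp) (fun i => by simp) hξ0 hFi).1
  have hcont : ∀ b : Eis, b ≠ 0 → s b (F 0 * F 1 * F 2) = s b n0 := by
    intro b hb
    rw [hs.skew _ b (hF3 ▸ hne) hb, hs.skew n0 b hn' hb, hF3]
    congr 1
    refine hs.cont n0 _ b hn' hb ((pow_dvd_pow π ?_).trans hdvd)
    omega
  rw [hcont _ hF1, hcont _ hF2, hcont _ hw] at h1
  have h2 : ∀ i, LfE X Y i ξ = F i := by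
    intro i
    simp only [LfE, hF]
    ring
  rw [h2, h2]
  exact h1

end Pool.Agent.PTK


end

section

/-!
# PTK_NTR: the primes of `L = K(x^(1/3))` above the primes of `Z[w]`
-/

set_option autoImplicit false

open NumberField IsDedekindDomain Finset
open scoped nonZeroDivisors Pointwise

namespace Pool.Agent.PTK

open Pool.Agent.Lib_helper18 Pool.Agent.Lib_helper18.Eis Pool.Agent.Lib_helper84.Cub
open Pool.Agent.PT

namespace NTR

open Pool.Agent.PT.NTR (uni_prime isIntegral_io io coe_io val_le_one val_lt_iff exists_place lt_iff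
  eq_one_of reduce exists_map io_ne_zero abv_finite transitive trace_dvd)

variable {L : Type} [Field L] [NumberField L]

/-- `Z[w]` is integrally closed -/
theorem isUnit_of_int {ι : Eis →+* L} (hinj : Function.Injective ι) {u : Eis} {z : L}
    (hz : IsIntegral ℤ z) (h : ι u * z = 1) : IsUnit u := by
  have hu : u ≠ 0 := by
    rintro rfl
    rw [map_zero, zero_mul] at h
    exact zero_ne_one h
  let f : FractionRing Eis →+* L := IsFractionRing.lift hinj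
  have hf : ∀ a : Eis, f (algebraMap Eis (FractionRing Eis) a) = ι a := fun a =>
    IsFractionRing.lift_algebraMap hinj a
  have huK : algebraMap Eis (FractionRing Eis) u ≠ 0 := by
    rw [Ne, IsFractionRing.to_map_eq_zero_iff]
    exact hu
  have h1 : f ((algebraMap Eis (FractionRing Eis) u)⁻¹) = z := by
    rw [map_inv₀, hf]
    exact (eq_inv_of_mul_eq_one_right h).symm
  have h3 : IsIntegral Eis ((algebraMap Eis (FractionRing Eis) u)⁻¹) := by
    obtain ⟨q, hq, hq0⟩ := hz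
    refine ⟨q.map (Int.castRingHom Eis), hq.map _, ?_⟩
    rw [Polynomial.eval₂_map]
    apply f.injective
    rw [Polynomial.hom_eval₂, h1, map_zero, ← hq0]
    congr 1
    exact RingHom.ext_int _ _
  obtain ⟨y, hy⟩ := IsIntegrallyClosed.isIntegral_iff.mp h3
  have h4 : algebraMap Eis (FractionRing Eis) (u * y) = algebraMap Eis (FractionRing Eis) 1 := by
    rw [map_mul, hy, map_one, mul_inv_cancel₀ huK]
  have h5 : u * y = 1 := IsFractionRing.injective Eis (FractionRing Eis) h4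
  exact IsUnit.of_mul_eq_one y h5

theorem not_isUnit_io {ι : Eis →+* L} (hinj : Function.Injective ι) (v : Pl) :
    ¬ IsUnit (io ι (uni v)) := by
  intro hu
  obtain ⟨z, hz⟩ := hu.exists_right_inv
  have h1 : ι (uni v) * (z : L) = 1 := by
    have := congrArg (algebraMap (𝓞 L) L) hz
    rw [map_mul, map_one] at this
    exact this
  exact (uni_prime v).not_isUnit (isUnit_of_int hinj z.2 h1)

theorem abv_nonempty {ι : Eis →+* L} (hinj : Function.Injective ι) (v : Pl) :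
    (Abv ι v).Nonempty := by
  obtain ⟨M, hM, hmem⟩ := exists_max_ideal_of_mem_nonunits
    (show io ι (uni v) ∈ nonunits (𝓞 L) from not_isUnit_io hinj v)
  have h0 : M ≠ ⊥ := by
    intro h
    rw [h, Ideal.mem_bot] at hmem
    exact io_ne_zero hinj (uni_prime v).ne_zero hmem
  refine ⟨⟨M, hM.isPrime, h0⟩, ?_⟩
  show HeightOneSpectrum.valuation L _ (ι (uni v)) < 1
  rw [Pool.Agent.PT.NTR.val_lt_iff]
  exact hmem

theorem reduced (hSPP : SPP) {x : Eis} {ι : Eis →+* L} {θ : L} {σ : L ≃ₐ[ℚ] L}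
    (hF : CubE x L ι θ σ)
    (hσ3 : ∀ z : L, σ (σ (σ z)) = z)
    (hfix : ∀ z : L, σ z = z → ∃ a b : Eis, b ≠ 0 ∧ z * ι b = ι a)
    {π : PP} {P : HeightOneSpectrum (𝓞 L)} (hx : ¬ π.1 ∣ x)
    (hP : P ∈ Abv ι (some π)) {y u : L} (hy : IsIntegral ℤ y) (hu : IsIntegral ℤ u)
    (hyu : y ^ 2 = ι π.1 * u) : ∃ t : L, IsIntegral ℤ t ∧ y = ι π.1 * t := by
  have hinj := hF.inj
  have hθi : IsIntegral ℤ θ := by
    refine IsIntegral.of_pow (n := 3) (by norm_num) ?_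
    rw [hF.cube]
    exact isIntegral_io ι x
  have hint : ∀ (Q : HeightOneSpectrum (𝓞 L)) (y : L), IsIntegral ℤ y → Q.valuation L y ≤ 1 :=
    fun Q y hy => Q.valuation_le_one (⟨y, hy⟩ : 𝓞 L)
  have hσi : ∀ z : L, IsIntegral ℤ z → IsIntegral ℤ (σ z) := fun z hz => map_isIntegral_int σ hz
  have hPlt : P.valuation L (ι π.1) < 1 := hP
  -- small valuations of all conjugates
  have key : ∀ z t : L, IsIntegral ℤ t → z ^ 2 = ι π.1 * t → P.valuation L z < 1 := by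
    intro z t ht hzt
    have h1 : P.valuation L z ^ 2 < 1 := by
      rw [← map_pow, hzt, map_mul]
      exact mul_lt_one_of_lt_of_le hPlt (hint P t ht)
    by_contra hcon
    push Not at hcon
    exact absurd (one_le_pow₀ hcon (n := 2)) (not_le.mpr h1)
  have hy1 : σ y ^ 2 = ι π.1 * σ u := by
    rw [← map_pow, hyu, map_mul, hF.sι]
  have hy2 : σ (σ y) ^ 2 = ι π.1 * σ (σ u) := by
    rw [← map_pow, hy1, map_mul, hF.sι]
  have k0 := key y u hu hyu
  have k1 := key (σ y) (σ u) (hσi _ hu) hy1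
  have k2 := key (σ (σ y)) (σ (σ u)) (hσi _ (hσi _ hu)) hy2
  have htr : ∀ t : L, IsIntegral ℤ t → ∃ s : L, IsIntegral ℤ s ∧
      y * t + σ (y * t) + σ (σ (y * t)) = ι π.1 * s := by
    intro t ht
    refine trace_dvd hSPP hinj hσ3 hfix hP (hy.mul ht) ?_ ?_ ?_
    · rw [map_mul]
      exact mul_lt_one_of_lt_of_le k0 (hint P t ht)
    · rw [map_mul, map_mul]
      exact mul_lt_one_of_lt_of_le k1 (hint P _ (hσi _ ht))
    · rw [map_mul, map_mul, map_mul]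
      exact mul_lt_one_of_lt_of_le k2 (hint P _ (hσi _ (hσi _ ht)))
  obtain ⟨s0, hs0, e0⟩ := htr 1 isIntegral_one
  obtain ⟨s1, hs1, e1⟩ := htr θ hθi
  obtain ⟨s2, hs2, e2⟩ := htr (θ ^ 2) (hθi.pow 2)
  have hw : ι w ^ 2 + ι w + 1 = 0 := by
    rw [← map_pow, ← map_one ι, ← map_add, ← map_add, w_rel, map_zero]
  have hw3 : ι w ^ 3 = 1 := by rw [← map_pow, w_cube, map_one]
  have hcube := hF.cube
  have hmain : 3 * ι x * y = ι π.1 * (ι x * s0 + θ * s2 + θ ^ 2 * s1) := by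
    have h1 : 3 * ι x * y = ι x * (y * 1 + σ (y * 1) + σ (σ (y * 1))) +
        θ * (y * θ ^ 2 + σ (y * θ ^ 2) + σ (σ (y * θ ^ 2))) +
        θ ^ 2 * (y * θ + σ (y * θ) + σ (σ (y * θ))) := by
      simp only [map_mul, map_pow, hF.sθ, hF.sι, mul_one]
      rw [← hcube]
      have hw4 : ι w ^ 4 = ι w := by
        calc ι w ^ 4 = ι w ^ 3 * ι w := by ring
          _ = ι w := by rw [hw3, one_mul]
      have e1' : θ ^ 3 * (σ y * (ι w ^ 2 + ι w + 1)) = 0 := by rw [hw]; ring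
      have e2' : θ ^ 3 * (σ (σ y) * (ι w ^ 4 + ι w ^ 2 + 1)) = 0 := by
        rw [hw4]
        have : ι w + ι w ^ 2 + 1 = 0 := by rw [← hw]; ring
        rw [this]; ring
      linear_combination (-1 : L) * e1' - e2'
    rw [h1, e0, e1, e2]
    ring
  have h3 : ¬ π.1 ∣ (3 * x : Eis) := by
    intro h
    rcases π.2.1.dvd_or_dvd h with h | h
    · exact (hSPP.2.2.2.1 π).1 h
    · exact hx h
  obtain ⟨m, n, hmn⟩ := (π.2.1.coprime_iff_not_dvd.mpr h3 : IsCoprime π.1 (3 * x : Eis))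
  have hxi : IsIntegral ℤ (ι x) := isIntegral_io ι x
  refine ⟨ι m * y + ι n * (ι x * s0 + θ * s2 + θ ^ 2 * s1), ?_, ?_⟩
  · exact ((isIntegral_io ι m).mul hy).add ((isIntegral_io ι n).mul
      (((hxi.mul hs0).add (hθi.mul hs2)).add ((hθi.pow 2).mul hs1)))
  · have h5 : y = y * ι (m * π.1 + n * (3 * x : Eis)) := by rw [hmn, map_one, mul_one]
    have h6 : ι (m * π.1 + n * (3 * x : Eis)) = ι m * ι π.1 + ι n * (3 * ι x) := by
      simp only [map_add, map_mul, map_ofNat]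
    rw [h6] at h5
    calc y = y * (ι m * ι π.1 + ι n * (3 * ι x)) := h5
      _ = ι m * ι π.1 * y + ι n * (3 * ι x * y) := by ring
      _ = _ := by rw [hmain]; ring

theorem unram (hSPP : SPP) {x : Eis} {ι : Eis →+* L} {θ : L} {σ : L ≃ₐ[ℚ] L}
    (hF : CubE x L ι θ σ)
    (hσ3 : ∀ z : L, σ (σ (σ z)) = z)
    (hfix : ∀ z : L, σ z = z → ∃ a b : Eis, b ≠ 0 ∧ z * ι b = ι a)
    (π : PP) (P : HeightOneSpectrum (𝓞 L)) (hx : ¬ π.1 ∣ x)
    (hP : P ∈ Abv ι (some π)) : P.valuation L (ι π.1) = WithZero.exp (-1 : ℤ) := by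
  have hinj := hF.inj
  have hp0 : io ι π.1 ≠ 0 := io_ne_zero hinj π.2.1.ne_zero
  set p := io ι π.1 with hp
  have hnot : p ∉ P.asIdeal ^ 2 := by
    intro hmem
    have hdvd : P.asIdeal ^ 2 ∣ Ideal.span {p} := Ideal.dvd_span_singleton.mpr hmem
    obtain ⟨J', hJ'⟩ := hdvd
    set J : Ideal (𝓞 L) := P.asIdeal * J' with hJ
    have hpJ : Ideal.span {p} = P.asIdeal * J := by rw [hJ', hJ, pow_two, mul_assoc]
    have hJ2 : J * J ≤ Ideal.span {p} := by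
      have h1 : J * J = Ideal.span {p} * J' := by
        rw [hJ', hJ]; ring
      rw [h1]
      exact Ideal.mul_le_left
    have hpne : Ideal.span {p} ≠ (0 : Ideal (𝓞 L)) := fun h => hp0 (Ideal.span_singleton_eq_bot.mp h)
    have hJ0 : J ≠ 0 := by
      intro h
      rw [h, mul_zero] at hpJ
      exact hpne hpJ
    have hnle : ¬ J ≤ Ideal.span {p} := by
      intro hle
      have h1 : J = P.asIdeal * J := le_antisymm (by rw [← hpJ]; exact hle) Ideal.mul_le_right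
      have h2 : (1 : Ideal (𝓞 L)) * J = P.asIdeal * J := by rw [one_mul]; exact h1
      have h3 : (1 : Ideal (𝓞 L)) = P.asIdeal := mul_right_cancel₀ hJ0 h2
      exact P.isPrime.ne_top (by rw [← h3, Ideal.one_eq_top])
    obtain ⟨y, hyJ, hyp⟩ := Set.not_subset.mp hnle
    have hy2 : y * y ∈ Ideal.span {p} := hJ2 (Ideal.mul_mem_mul hyJ hyJ)
    obtain ⟨u, hu⟩ := Ideal.mem_span_singleton.mp hy2
    have hu' : (y : L) ^ 2 = ι π.1 * (u : L) := by
      have := congrArg (algebraMap (𝓞 L) L) hu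
      rw [map_mul, map_mul, ← pow_two] at this
      exact this
    obtain ⟨t, ht, hyt⟩ := reduced hSPP hF hσ3 hfix hx hP y.2 u.2 hu'
    apply hyp
    show y ∈ Ideal.span {p}
    rw [Ideal.mem_span_singleton]
    set t' : 𝓞 L := ⟨t, ht⟩ with ht'
    exact ⟨t', RingOfIntegers.ext (hyt.trans (map_mul (algebraMap (𝓞 L) L) p t').symm)⟩
  have hval : P.valuation L (ι π.1) = P.intValuation p := P.valuation_of_algebraMap p
  rw [hval, P.intValuation_eq_exp_neg_multiplicity hp0]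
  have hlt : P.intValuation p < 1 := by rw [← hval]; exact hP
  set k := multiplicity P.asIdeal (Ideal.span {p}) with hk
  have hk' := P.intValuation_eq_exp_neg_multiplicity hp0
  rw [← hk] at hk'
  have hk1 : 1 ≤ k := by
    by_contra h
    have h0 : k = 0 := by omega
    rw [h0] at hk'
    rw [hk'] at hlt
    simp at hlt
  have hk2 : k < 2 := by
    by_contra h
    push Not at h
    apply hnot
    rw [← P.intValuation_le_pow_iff_mem, hk', WithZero.exp_le_exp]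
    push_cast
    omega
  have hk3 : k = 1 := by omega
  rw [hk3]
  norm_num

end NTR

theorem NTR_thm (hSPP : SPP) (hNHN : Stmt_NHN) : Stmt_NTR := by
  intro x L _ _ ι θ σ hx0 hx3 hF
  obtain ⟨hσ3, hfix, -⟩ := hNHN x L ι θ σ hx0 hF
  exact ⟨fun P a => Pool.Agent.PT.NTR.val_le_one ι P a,
    fun P => Pool.Agent.PT.NTR.exists_place hSPP ι P,
    fun P => Pool.Agent.PT.NTR.exists_map σ P,
    fun v => ⟨Pool.Agent.PT.NTR.abv_finite hF.inj v, NTR.abv_nonempty hF.inj v⟩,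
    fun v P P' hP hP' => Pool.Agent.PT.NTR.transitive hSPP hF.inj hσ3 hfix v P P' hP hP',
    fun π P hπ hP => NTR.unram hSPP hF hσ3 hfix π P hπ hP⟩

end Pool.Agent.PTK


end
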