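import Mathlib
import Pool.Agent.PTDM.C24
import Pool.Agent.PTDM.C26
import Pool.Agent.PTDM.C28
import Pool.Agent.PTDM.C41
import Pool.Agent.PTDM.C42
import Pool.Agent.PTDM.C45
import Pool.Agent.PTKM.C01
import Pool.Agent.PTKM.C02
import Pool.Agent.PTKM.C04

/-! Parts: PTKX.DP1, PTKX.DP3, PTKX.DP4U, PTKX.DX4, PTKX.ESB, PTKX.ESZ, PTKX.GFZ, PTKX.LAM, PTKX.LTE, PTKX.MSPU, PTKX.NDS, PTKX.NHN, PTKX.WSM, PTKX.CTZ, PTKX.ZPV -/

section

/-!
# PTK_DP1: the local terms of a point at a place dividing `f`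
-/

set_option autoImplicit false

namespace Pool.Agent.PTK

open Pool.Agent.Lib_helper18 Pool.Agent.Lib_helper18.Eis Pool.Agent.Lib_helper84.Cub
open Pool.Agent.PT

namespace DP1

open DPA

lemma dvd3_iff (n : ℕ) : 3 ∣ n ↔ (n : ZMod 3) = 0 := (ZMod.natCast_eq_zero_iff n 3).symm

lemma V_B {π : PP} {f : ℕ} (hπf : π.1 ∣ (f : Eis)) {N : ℕ} {b x p q p' q' : Eis}
    (HD : HypD N b x p q p' q') {E Q : ℕ} {X Y : Eis} (HP : HypP N b x p q p' q' E Q X Y)
    (hQ : Q.Coprime f) : V π.1 ((N : Eis) * (Q : Eis) ^ E) = V π.1 (N : Eis) := by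
  have hB := B_ne HD HP
  have hN : (N : Eis) ≠ 0 := left_ne_zero_of_mul hB
  have hQE := right_ne_zero_of_mul hB
  have hQ0 : (Q : Eis) ≠ 0 := by
    have h2 : ((Q : ℤ) : Eis) ≠ 0 := DCONST.cast_ne (by have := HP.hQ.pos; omega)
    rwa [Int.cast_natCast] at h2
  have h1 := V_cop π.2.1 hπf (Nat.isCoprime_iff_coprime.2 hQ)
  rw [Int.cast_natCast] at h1
  rw [V_mul π.2.1 hN hQE, V_pow π.2.1 hQ0, h1, mul_zero, add_zero]

end DP1

open DPA _root_.Pool.Agent.PTK.DP1 in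
/-- PTK_DP1. -/
theorem DP1_thm (hSTM : STM) (hSPP : SPP) (hIF4 : Stmt_IF4) (hIF4B : Stmt_IF4B)
    (hF6R : Stmt_F6R) (hF7U : Stmt_F7U) (hLFV : Stmt_LFV) (hLCI : Stmt_LCI) : Stmt_DP1 := by
  intro N b x p q p' q' HD π f hf hπf
  have hs : LSym π.1 (tm π.1) 1 := hSTM π.1 π.2.1 (hSPP.2.2.2.1 π).1
  have hN : (N : Eis) ≠ 0 := by
    have h2 : ((N : ℤ) : Eis) ≠ 0 := DCONST.cast_ne (by have := HD.N0; omega)
    rwa [Int.cast_natCast] at h2
  by_cases hVx : 3 ∣ V π.1 x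
  · by_cases hcx : ch π.1 x = 0
    · -- `x` is a local cube
      have hL : LCE π.1 x := (hLCI.1 π x HD.hx).2 ⟨hVx, hcx⟩
      obtain ⟨C, Φ, H⟩ := place_LC hs hN HD.sol.n1 (SolE_n1' HD.sol) hL hf (by rwa [pow_one])
      classical
      refine ⟨C + (if π.1 ∣ (N : Eis) ∧ ¬ 3 ∣ V π.1 b then (V π.1 b : ZMod 3) * ch π.1 w else 0),
        Φ, ?_⟩
      intro E Q hQ X Y HP
      have hB := B_ne HD HP
      have hn0 := n0_ne HD HP
      have hVB := V_B hπf HD HP hQ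
      obtain ⟨N0, H0⟩ := core hIF4 hLCI hs HD HP hL
      -- the terms with `b`
      have hterm : ∃ N1 : ℕ, ∀ ξ : Eis, π.1 ^ N1 ∣ ξ ^ 3 - x →
          tm π.1 (LfE X Y 1 ξ) b - tm π.1 (LfE X Y 2 ξ) b =
            if π.1 ∣ (N : Eis) ∧ ¬ 3 ∣ V π.1 b then (V π.1 b : ZMod 3) * ch π.1 w else 0 := by
        by_cases hπN : π.1 ∣ (N : Eis)
        · have hVN : (V π.1 ((N : Eis) * (Q : Eis) ^ E) : ZMod 3) ≠ 0 := by
            rw [hVB]
            have h1 := HD.cf π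
            have h2 : V π.1 (N : Eis) ≠ 0 := fun h => (V_eq_zero_iff.1 h) hπN
            rw [Ne, ← dvd3_iff]
            omega
          by_cases hVb : 3 ∣ V π.1 b
          · -- `b` is a local cube
            have hcb : ch π.1 b = 0 := by
              have h1 := HP.sb π
              unfold tm at h1
              rw [(dvd3_iff _).1 hVb, zero_mul, sub_zero] at h1
              exact (mul_eq_zero.1 h1).resolve_left hVN
            have hLb : LCE π.1 b := (hLCI.1 π b HD.hb).2 ⟨hVb, hcb⟩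
            refine ⟨N0, fun ξ hξ => ?_⟩
            obtain ⟨hF, -, -⟩ := H0 ξ hξ
            have h0 : ∀ i, tm π.1 (LfE X Y i ξ) b = 0 := by
              intro i
              rw [hs.skew b (LfE X Y i ξ) HD.hb (hF i),
                hLCI.2.2 π.1 (tm π.1) 1 b _ hs hLb HD.hb (hF i), neg_zero]
            rw [h0, h0, if_neg (by tauto), sub_zero]
          · obtain ⟨N2, H2⟩ := hIF4B π.1 (tm π.1) 1 hs x X Y HD.hx HP.pt.hX HP.pt.hY hn0
            refine ⟨N0 + N2, fun ξ hξ => ?_⟩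
            obtain ⟨hF, hrel, -⟩ := H0 ξ ((pow_dvd_pow _ (by omega)).trans hξ)
            have h2 := H2 ξ ((pow_dvd_pow _ (by omega)).trans hξ)
            rw [if_pos ⟨hπN, hVb⟩]
            have hw0 : w ≠ 0 := by
              intro h
              have := congrArg Eis.im h
              simp at this
            rw [hrel _ (hF 1), hrel _ (hF 2), hrel _ hw0] at h2
            have hw : tm π.1 w ((N : Eis) * (Q : Eis) ^ E) =
                (V π.1 ((N : Eis) * (Q : Eis) ^ E) : ZMod 3) * ch π.1 w := by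
              unfold tm
              rw [V_eq_zero (not_dvd_w π.2.1)]
              simp
            rw [hw] at h2
            refine mul_left_cancel₀ hVN ?_
            rw [mul_sub, tm_prop (HP.sb π), tm_prop (HP.sb π), ← mul_sub, h2]
            ring
        · -- `π` does not divide `N`
          obtain ⟨hπb, hπx⟩ := HD.unr π hπN
          have hVx0 : V π.1 x = 0 := V_eq_zero hπx
          have hVb0 : V π.1 b = 0 := V_eq_zero hπb
          have hVB0 : V π.1 ((N : Eis) * (Q : Eis) ^ E) = 0 := by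
            rw [hVB]
            exact V_eq_zero hπN
          obtain ⟨c, hc, hE⟩ := HP.pt.eq
          have hVn : 3 ∣ V π.1 (X ^ 3 + x * Y ^ 3) := by
            have h1 := congrArg (V π.1) hE
            rw [V_mul π.2.1 HD.hx hn0, V_mul π.2.1 hB (pow_ne_zero _ hc), V_pow π.2.1 hc, hVx0,
              hVB0] at h1
            omega
          obtain ⟨N2, H2⟩ := hLFV π x X Y HD.hx HP.pt.hX HP.pt.hY hn0 hVx hVn
          refine ⟨N2, fun ξ hξ => ?_⟩
          rw [if_neg (by tauto)]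
          unfold tm
          rw [H2 ξ hξ, hVb0]
          simp
      obtain ⟨N1, H1⟩ := hterm
      have h3 := H E Q hQ (SVE (tm π.1) x p (-p') (-q) q' X Y -
        (if π.1 ∣ (N : Eis) ∧ ¬ 3 ∣ V π.1 b then (V π.1 b : ZMod 3) * ch π.1 w else 0))
        (N0 + N1) (fun ξ hξ => by
          obtain ⟨-, -, h4⟩ := H0 ξ ((pow_dvd_pow _ (by omega)).trans hξ)
          rw [h4, ← H1 ξ ((pow_dvd_pow _ (by omega)).trans hξ)]
          ring)
      linear_combination h3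
    · -- `x` is not a local cube
      refine ⟨0, 1, ?_⟩
      intro E Q hQ X Y HP
      rw [hF7U π b x p (-p') (-q) q' X Y HD.hb HD.hx (SolE_flip HD.sol) HP.pt.hX HP.pt.hY HP.dn
        hVx hcx]
      simp
  · -- the valuation of `x` is prime to `3`
    classical
    refine ⟨if (V π.1 (N : Eis) : ZMod 3) = (V π.1 x : ZMod 3) then 0 else - tm π.1 w b, 1, ?_⟩
    intro E Q hQ X Y HP
    have hB := B_ne HD HP
    have hn0 := n0_ne HD HP
    have hVB := V_B hπf HD HP hQ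
    obtain ⟨c, hc, hE⟩ := HP.pt.eq
    have h1 := congrArg (V π.1) hE
    rw [V_mul π.2.1 HD.hx hn0, V_mul π.2.1 hB (pow_ne_zero _ hc), V_pow π.2.1 hc, hVB] at h1
    have h2 : (V π.1 x : ZMod 3) + (V π.1 (X ^ 3 + x * Y ^ 3) : ZMod 3) =
        (V π.1 (N : Eis) : ZMod 3) := by
      have h3 := congrArg (fun n : ℕ => (n : ZMod 3)) h1
      simp only [Nat.cast_add, Nat.cast_mul] at h3
      rw [h3]
      have h4 : ((3 : ℕ) : ZMod 3) = 0 := rfl
      rw [h4, zero_mul, add_zero]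
    obtain ⟨k1, k2⟩ := hF6R π b x p (-p') (-q) q' X Y HD.hb HD.hx (SolE_flip HD.sol) HP.pt.hX
      HP.pt.hY HP.dn hVx
    by_cases hv : (V π.1 (N : Eis) : ZMod 3) = (V π.1 x : ZMod 3)
    · rw [if_pos hv, k1 ((dvd3_iff _).2 (by linear_combination h2 + hv))]
      simp
    · rw [if_neg hv, k2 (fun h => hv (by
        rw [dvd3_iff] at h
        rw [h] at h2
        linear_combination - h2))]
      simp

end Pool.Agent.PTK


end

section

/-!
# PTK_DP3: the local terms of a point vanish outside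
-/

set_option autoImplicit false

namespace Pool.Agent.PTK

open Pool.Agent.Lib_helper18 Pool.Agent.Lib_helper18.Eis Pool.Agent.Lib_helper84.Cub
open Pool.Agent.PT

open DPA in
/-- PTK_DP3. -/
theorem DP3_thm (hSTM : STM) (hSPP : SPP) (hIF4 : Stmt_IF4) (hF7U : Stmt_F7U)
    (hLFV : Stmt_LFV) (hLCI : Stmt_LCI) : Stmt_DP3 := by
  intro N b x p q p' q' HD π E Q X Y HP hπN hπQ hπM
  have hs : LSym π.1 (tm π.1) 1 := hSTM π.1 π.2.1 (hSPP.2.2.2.1 π).1
  obtain ⟨hπb, hπx⟩ := HD.unr π hπN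
  have hVx0 : V π.1 x = 0 := V_eq_zero hπx
  have hVb0 : V π.1 b = 0 := V_eq_zero hπb
  have hVx : 3 ∣ V π.1 x := by rw [hVx0]; exact dvd_zero 3
  by_cases hcx : ch π.1 x = 0
  · have hL : LCE π.1 x := (hLCI.1 π x HD.hx).2 ⟨hVx, hcx⟩
    have hB := B_ne HD HP
    have hn0 := n0_ne HD HP
    have hπB : ¬ π.1 ∣ (N : Eis) * (Q : Eis) ^ E := by
      intro h
      rcases π.2.1.dvd_or_dvd h with h1 | h1
      · exact hπN h1
      · exact hπQ (π.2.1.dvd_of_dvd_pow h1)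
    have hVB0 : V π.1 ((N : Eis) * (Q : Eis) ^ E) = 0 := V_eq_zero hπB
    obtain ⟨c, hc, hE⟩ := HP.pt.eq
    have hVn : 3 ∣ V π.1 (X ^ 3 + x * Y ^ 3) := by
      have h1 := congrArg (V π.1) hE
      rw [V_mul π.2.1 HD.hx hn0, V_mul π.2.1 hB (pow_ne_zero _ hc), V_pow π.2.1 hc, hVx0,
        hVB0] at h1
      omega
    obtain ⟨N1, H1⟩ := core hIF4 hLCI hs HD HP hL
    obtain ⟨N2, H2⟩ := hLFV π x X Y HD.hx HP.pt.hX HP.pt.hY hn0 hVx hVn
    obtain ⟨ξ, hξ⟩ := hL (N1 + N2 + 1)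
    obtain ⟨-, -, h1⟩ := H1 ξ ((pow_dvd_pow _ (by omega)).trans hξ)
    have h2 := H2 ξ ((pow_dvd_pow _ (by omega)).trans hξ)
    have h3 : π.1 ∣ ξ ^ 3 - x := by
      have h4 : π.1 ^ 1 ∣ ξ ^ 3 - x := (pow_dvd_pow _ (by omega)).trans hξ
      rwa [pow_one] at h4
    have k1 := LfE_ndvd (p := p) (q := q) h3 (fun h => hπM (dvd_mul_of_dvd_left h _))
    have k2 := LfE_ndvd (p := p') (q := q') h3 (fun h => hπM (dvd_mul_of_dvd_right h _))
    have h5 : tm π.1 (LfE X Y 1 ξ) b - tm π.1 (LfE X Y 2 ξ) b = 0 := by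
      unfold tm
      rw [h2, hVb0]
      simp
    rw [h1, add_sub_assoc, h5, add_zero]
    unfold ASE
    rw [DCONST.tm_zero hπB (k1 2), DCONST.tm_zero hπB (k2 1), DCONST.tm_zero hπB (k1 1),
      DCONST.tm_zero hπB (k2 2)]
    simp
  · exact hF7U π b x p (-p') (-q) q' X Y HD.hb HD.hx (SolE_flip HD.sol) HP.pt.hX HP.pt.hY HP.dn
      hVx hcx

end Pool.Agent.PTK


end

section

/-!
# PTK_DP4U: the local term of a point at a prime factor of `Q`, `Q = 1 (mod 3)`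
-/

set_option autoImplicit false

namespace Pool.Agent.PTK

open Pool.Agent.Lib_helper18 Pool.Agent.Lib_helper18.Eis Pool.Agent.Lib_helper84.Cub
open Pool.Agent.PT

namespace DP4U

open DPA

/-- the symbol at a prime factor of `B` -/
lemma tm_val {π B L : Eis} {E : ℕ} (h1 : V π B = E) (hL : ¬ π ∣ L) :
    tm π B L = - (E * sym π L) := by
  have h2 : up π L = L := by
    unfold up
    rw [V_eq_zero hL, pow_zero, EuclideanDomain.div_one]
  unfold tm
  rw [V_eq_zero hL, h1]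
  unfold ch
  rw [h2]
  simp

/-- a rational prime divisible by `π` has valuation `1` -/
lemma V_one (hSPP : SPP) {π : PP} {Q : ℕ} (hQ : Q.Prime) (h : π.1 ∣ (Q : Eis)) :
    V π.1 (Q : Eis) = 1 := by
  obtain ⟨r, hr, hc⟩ := hSPP.2.2.2.2.2 π
  have hb : EADM.Below π r := ⟨hr, hc⟩
  have h1 : r = Q := (Nat.prime_dvd_prime_iff_eq hr hQ).1 ((hb.dvd_nat Q).1 h)
  rw [← h1]
  exact hb.V_self

end DP4U

open DPA DP4 _root_.Pool.Agent.PTK.DP4U in
/-- PTK_DP4U. -/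
theorem DP4U_thm (hSTM : STM) (hSPP : SPP) (hIF4 : Stmt_IF4) (hLCI : Stmt_LCI) : Stmt_DP4U := by
  intro N b x p q p' q' HD π E Q X Y ξ HP hQ3 hπQ hπN hπM hξ
  have h3 : ¬ π.1 ∣ 3 := (hSPP.2.2.2.1 π).1
  have hs : LSym π.1 (tm π.1) 1 := hSTM π.1 π.2.1 h3
  obtain ⟨hπb, hπx⟩ := HD.unr π hπN
  have hVx0 : V π.1 x = 0 := V_eq_zero hπx
  have hVb0 : V π.1 b = 0 := V_eq_zero hπb
  have hB := B_ne HD HP
  have hn0 := n0_ne HD HP
  have hQ1 := V_one hSPP HP.hQ hπQ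
  have hQ0 : (Q : Eis) ≠ 0 := EADM.natCast_ne HP.hQ.ne_zero
  have hVB : V π.1 ((N : Eis) * (Q : Eis) ^ E) = E := by
    rw [V_mul_not_dvd π.2.1 hπN (pow_ne_zero _ hQ0), V_pow π.2.1 hQ0, hQ1, mul_one]
  have hE0 : (E : ZMod 3) ≠ 0 := by
    rcases HP.hE with h | h
    · rw [h]; decide
    · rw [h]; decide
  have hcub : ∀ a : Eis, V π.1 a = 0 → tm π.1 a ((N : Eis) * (Q : Eis) ^ E) = 0 →
      ch π.1 a = 0 := by
    intro a ha h
    unfold tm at h
    rw [hVB, ha] at h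
    simp only [Nat.cast_zero, zero_mul, sub_zero] at h
    exact (mul_eq_zero.1 h).resolve_left hE0
  have hLx : LCE π.1 x := (hLCI.1 π x HD.hx).2 ⟨by rw [hVx0]; exact dvd_zero 3,
    hcub x hVx0 (HP.sx π)⟩
  have hcb := hcub b hVb0 (HP.sb π)
  have hLb : LCE π.1 b := (hLCI.1 π b HD.hb).2 ⟨by rw [hVb0]; exact dvd_zero 3, hcb⟩
  obtain ⟨N1, H1⟩ := core hIF4 hLCI hs HD HP hLx
  obtain ⟨ξ', hξ'⟩ := hLx (N1 + 1)
  obtain ⟨hF, -, h1⟩ := H1 ξ' ((pow_dvd_pow _ (by omega)).trans hξ')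
  have h4 : π.1 ∣ ξ' ^ 3 - x := by
    have h4 : π.1 ^ 1 ∣ ξ' ^ 3 - x := (pow_dvd_pow _ (by omega)).trans hξ'
    rwa [pow_one] at h4
  have hb0 : ∀ i, tm π.1 (LfE X Y i ξ') b = 0 := by
    intro i
    rw [hs.skew b (LfE X Y i ξ') HD.hb (hF i),
      hLCI.2.2 π.1 (tm π.1) 1 b _ hs hLb HD.hb (hF i), neg_zero]
  have hM1 : ¬ π.1 ∣ p ^ 3 + x * q ^ 3 := fun h => hπM (dvd_mul_of_dvd_left h _)
  have hM2 : ¬ π.1 ∣ p' ^ 3 + x * q' ^ 3 := fun h => hπM (dvd_mul_of_dvd_right h _)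
  have k1 := LfE_ndvd (p := p) (q := q) h4 hM1
  have k2 := LfE_ndvd (p := p') (q := q') h4 hM2
  rw [h1, hb0, hb0, add_zero, sub_zero]
  have h5 : ASE (tm π.1) ((N : Eis) * (Q : Eis) ^ E) p q p' q' ξ' =
      - (E * TAUP π.1 p q p' q' ξ') := by
    unfold ASE TAUP
    rw [tm_val hVB (k1 2), tm_val hVB (k2 1), tm_val hVB (k1 1), tm_val hVB (k2 2)]
    ring
  rw [h5]
  congr 2
  -- independence of the cube root
  have hcongr : ∀ r r' : Eis, π.1 ∣ r - r' → TAUP π.1 p q p' q' r = TAUP π.1 p q p' q' r' := by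
    intro r r' hr
    have h6 : ∀ (g h : Eis) (i : ℕ), sym π.1 (LfE g h i r) = sym π.1 (LfE g h i r') := by
      intro g h i
      apply sym_congr
      have h7 : LfE g h i r - LfE g h i r' = (h * w ^ i) * (r - r') := by
        unfold LfE
        ring
      rw [h7]
      exact dvd_mul_of_dvd_right hr _
    unfold TAUP
    rw [h6, h6, h6, h6]
  have hshift : ∀ r : Eis, π.1 ∣ r ^ 3 - x →
      TAUP π.1 p q p' q' (w * r) = TAUP π.1 p q p' q' r := by
    intro r hr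
    have m1 := LfE_ndvd (p := p) (q := q) hr hM1
    have m2 := LfE_ndvd (p := p') (q := q') hr hM2
    have h8 : sym π.1 (LfE p q 0 r) + sym π.1 (LfE p q 1 r) + sym π.1 (LfE p q 2 r) =
        sym π.1 b + (sym π.1 (LfE p' q' 0 r) + sym π.1 (LfE p' q' 1 r) +
          sym π.1 (LfE p' q' 2 r)) := by
      rw [← sym_mul π.2.1 h3 (m1 0) (m1 1), ← sym_mul π.2.1 h3 (π.2.1.not_dvd_mul (m1 0) (m1 1)) (m1 2),
        ← sym_mul π.2.1 h3 (m2 0) (m2 1), ← sym_mul π.2.1 h3 (π.2.1.not_dvd_mul (m2 0) (m2 1)) (m2 2),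
        ← sym_mul π.2.1 h3 hπb (π.2.1.not_dvd_mul (π.2.1.not_dvd_mul (m2 0) (m2 1)) (m2 2))]
      apply sym_congr
      rw [LfE_prod, LfE_prod]
      have h9 : p ^ 3 + q ^ 3 * r ^ 3 - b * (p' ^ 3 + q' ^ 3 * r ^ 3) =
          (q ^ 3 - b * q' ^ 3) * (r ^ 3 - x) := by
        linear_combination HD.sol.eq
      rw [h9]
      exact dvd_mul_of_dvd_right hr _
    have h10 : sym π.1 b = 0 := by
      have h11 := hcb
      unfold ch up at h11
      rwa [hVb0, pow_zero, EuclideanDomain.div_one] at h11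
    unfold TAUP
    rw [LfE_shift, LfE_shift, LfE_shift, LfE_shift]
    have e1 : LfE p q (2 + 1) r = LfE p q 0 r := LfE_per p q r 0
    have e2 : LfE p' q' (2 + 1) r = LfE p' q' 0 r := LfE_per p' q' r 0
    rw [e1, e2]
    rw [h10] at h8
    have h12 : (3 : ZMod 3) = 0 := rfl
    linear_combination h8 - (sym π.1 (LfE p q 2 r) - sym π.1 (LfE p' q' 2 r)) * h12
  have hdiv : π.1 ∣ (ξ' - ξ) * (ξ' - w * ξ) * (ξ' - w * (w * ξ)) := by
    have h13 : (ξ' - ξ) * (ξ' - w * ξ) * (ξ' - w * (w * ξ)) = (ξ' ^ 3 - x) - (ξ ^ 3 - x) := by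
      have h1 : w ^ 3 = 1 := w_cube
      have h2 : w ^ 2 + w + 1 = 0 := w_rel
      linear_combination (- ξ ^ 3) * h1 + (- ξ' ^ 2 * ξ + ξ' * ξ ^ 2 * w) * h2
    rw [h13]
    exact dvd_sub h4 hξ
  have hw3 : ∀ r : Eis, π.1 ∣ r ^ 3 - x → π.1 ∣ (w * r) ^ 3 - x := by
    intro r hr
    rwa [mul_pow, w_cube, one_mul]
  rcases π.2.1.dvd_or_dvd hdiv with h | h
  · rcases π.2.1.dvd_or_dvd h with h | h
    · exact hcongr _ _ h
    · rw [hcongr _ _ h, hshift ξ hξ]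
  · rw [hcongr _ _ h, hshift (w * ξ) (hw3 ξ hξ), hshift ξ hξ]

end Pool.Agent.PTK


end

section

/-!
# PTK_DX4: the local term of a point at a prime factor of `Q`, for `HypX`
-/

set_option autoImplicit false

namespace Pool.Agent.PTK

open Pool.Agent.Lib_helper18 Pool.Agent.Lib_helper18.Eis Pool.Agent.Lib_helper84.Cub
open Pool.Agent.PT

namespace DX4

open DPA hiding B_ne n0_ne core
open DP4 DP4U

lemma B_ne {N : ℕ} {b x p q p' q' : Eis} (HD : HypX N b x p q p' q') {E Q : ℕ} {X Y : Eis}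
    (HP : HypP N b x p q p' q' E Q X Y) : (N : Eis) * (Q : Eis) ^ E ≠ 0 := by
  have h1 : (N : Eis) ≠ 0 := by
    have h2 : ((N : ℤ) : Eis) ≠ 0 := DCONST.cast_ne (by have := HD.N0; omega)
    rwa [Int.cast_natCast] at h2
  have h3 : (Q : Eis) ≠ 0 := by
    have h2 : ((Q : ℤ) : Eis) ≠ 0 := DCONST.cast_ne (by have := HP.hQ.pos; omega)
    rwa [Int.cast_natCast] at h2
  exact mul_ne_zero h1 (pow_ne_zero _ h3)

lemma n0_ne {N : ℕ} {b x p q p' q' : Eis} (HD : HypX N b x p q p' q') {E Q : ℕ} {X Y : Eis}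
    (HP : HypP N b x p q p' q' E Q X Y) : X ^ 3 + x * Y ^ 3 ≠ 0 := by
  obtain ⟨c, hc, h⟩ := HP.pt.eq
  intro h0
  rw [h0, mul_zero] at h
  exact mul_ne_zero (B_ne HD HP) (pow_ne_zero _ hc) h.symm

/-- The local term at a tame place where `x` is a local cube. -/
lemma core (hIF4 : Stmt_IF4) (hLCI : Stmt_LCI) {π : PP} (hs : LSym π.1 (tm π.1) 1) {N : ℕ}
    {b x p q p' q' : Eis} (HD : HypX N b x p q p' q') {E Q : ℕ} {X Y : Eis}
    (HP : HypP N b x p q p' q' E Q X Y) (hL : LCE π.1 x) :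
    ∃ N0 : ℕ, ∀ ξ : Eis, π.1 ^ N0 ∣ ξ ^ 3 - x →
      (∀ i, LfE X Y i ξ ≠ 0) ∧
      (∀ a : Eis, a ≠ 0 → tm π.1 a (X ^ 3 + x * Y ^ 3) = tm π.1 a ((N : Eis) * (Q : Eis) ^ E)) ∧
      SVE (tm π.1) x p (-p') (-q) q' X Y =
        ASE (tm π.1) ((N : Eis) * (Q : Eis) ^ E) p q p' q' ξ +
          tm π.1 (LfE X Y 1 ξ) b - tm π.1 (LfE X Y 2 ξ) b := by
  have hB := B_ne HD HP
  have hn0 := n0_ne HD HP
  obtain ⟨c, hc, hE⟩ := HP.pt.eq
  obtain ⟨N1, H1⟩ := exists_ne hs.prime (b := x) HD.sol.n1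
  obtain ⟨N2, H2⟩ := exists_ne hs.prime (b := x) (SolE_n1' HD.sol)
  obtain ⟨N3, H3⟩ := exists_ne hs.prime (b := x) (p := X) (q := Y) hn0
  obtain ⟨N4, H4⟩ := hIF4 π.1 (tm π.1) 1 hs b x p (-p') (-q) q' X Y HD.hb HD.hx
    (SolE_flip HD.sol) HP.pt.hX HP.pt.hY hn0 HP.dn
  refine ⟨N1 + N2 + N3 + N4, fun ξ hξ => ?_⟩
  have g1 := H1 ξ ((pow_dvd_pow _ (by omega)).trans hξ)
  have g2 := H2 ξ ((pow_dvd_pow _ (by omega)).trans hξ)
  have g3 := H3 ξ ((pow_dvd_pow _ (by omega)).trans hξ)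
  have g4 := H4 ξ ((pow_dvd_pow _ (by omega)).trans hξ)
  have hx0 : ∀ a : Eis, a ≠ 0 → tm π.1 x a = 0 := fun a ha =>
    hLCI.2.2 π.1 (tm π.1) 1 x a hs hL HD.hx ha
  have hrel : ∀ a : Eis, a ≠ 0 →
      tm π.1 (X ^ 3 + x * Y ^ 3) a = tm π.1 ((N : Eis) * (Q : Eis) ^ E) a := by
    intro a ha
    have h1 := s_rel hs HD.hx hn0 hB hc ha hE
    rw [hx0 a ha, zero_add] at h1
    exact h1
  refine ⟨g3, ?_, ?_⟩
  · intro a ha
    rw [hs.skew (X ^ 3 + x * Y ^ 3) a hn0 ha, hs.skew ((N : Eis) * (Q : Eis) ^ E) a hB ha, hrel a ha]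
  · rw [g4, neg_neg, neg_neg]
    unfold ASE
    rw [hrel _ (g1 2), hrel _ (g2 1), hrel _ (g1 1), hrel _ (g2 2)]

lemma half (hSTM : STM) (hSPP : SPP) (hIF4 : Stmt_IF4) (hLCI : Stmt_LCI) {N : ℕ}
    {b x p q p' q' : Eis} (HD : HypX N b x p q p' q') (π : PP) {E Q : ℕ} {X Y ξ : Eis}
    (HP : HypP N b x p q p' q' E Q X Y) (hπQ : π.1 ∣ (Q : Eis)) (hπN : ¬ π.1 ∣ (N : Eis))
    (hπM : ¬ π.1 ∣ (p ^ 3 + x * q ^ 3) * (p' ^ 3 + x * q' ^ 3)) (hξ : π.1 ∣ ξ ^ 3 - x) :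
    SVE (tm π.1) x p (-p') (-q) q' X Y = - (E * TAUP π.1 p q p' q' ξ) := by
  have h3 : ¬ π.1 ∣ 3 := (hSPP.2.2.2.1 π).1
  have hs : LSym π.1 (tm π.1) 1 := hSTM π.1 π.2.1 h3
  obtain ⟨hπb, hπx⟩ := HD.unr π hπN
  have hVx0 : V π.1 x = 0 := V_eq_zero hπx
  have hVb0 : V π.1 b = 0 := V_eq_zero hπb
  have hB := B_ne HD HP
  have hn0 := n0_ne HD HP
  have hQ1 := V_one hSPP HP.hQ hπQ
  have hQ0 : (Q : Eis) ≠ 0 := EADM.natCast_ne HP.hQ.ne_zero
  have hVB : V π.1 ((N : Eis) * (Q : Eis) ^ E) = E := by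
    rw [V_mul_not_dvd π.2.1 hπN (pow_ne_zero _ hQ0), V_pow π.2.1 hQ0, hQ1, mul_one]
  have hE0 : (E : ZMod 3) ≠ 0 := by
    rcases HP.hE with h | h
    · rw [h]; decide
    · rw [h]; decide
  have hcub : ∀ a : Eis, V π.1 a = 0 → tm π.1 a ((N : Eis) * (Q : Eis) ^ E) = 0 →
      ch π.1 a = 0 := by
    intro a ha h
    unfold tm at h
    rw [hVB, ha] at h
    simp only [Nat.cast_zero, zero_mul, sub_zero] at h
    exact (mul_eq_zero.1 h).resolve_left hE0
  have hLx : LCE π.1 x := (hLCI.1 π x HD.hx).2 ⟨by rw [hVx0]; exact dvd_zero 3,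
    hcub x hVx0 (HP.sx π)⟩
  have hcb := hcub b hVb0 (HP.sb π)
  have hLb : LCE π.1 b := (hLCI.1 π b HD.hb).2 ⟨by rw [hVb0]; exact dvd_zero 3, hcb⟩
  obtain ⟨N1, H1⟩ := core hIF4 hLCI hs HD HP hLx
  obtain ⟨ξ', hξ'⟩ := hLx (N1 + 1)
  obtain ⟨hF, -, h1⟩ := H1 ξ' ((pow_dvd_pow _ (by omega)).trans hξ')
  have h4 : π.1 ∣ ξ' ^ 3 - x := by
    have h4 : π.1 ^ 1 ∣ ξ' ^ 3 - x := (pow_dvd_pow _ (by omega)).trans hξ'
    rwa [pow_one] at h4
  have hb0 : ∀ i, tm π.1 (LfE X Y i ξ') b = 0 := by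
    intro i
    rw [hs.skew b (LfE X Y i ξ') HD.hb (hF i),
      hLCI.2.2 π.1 (tm π.1) 1 b _ hs hLb HD.hb (hF i), neg_zero]
  have hM1 : ¬ π.1 ∣ p ^ 3 + x * q ^ 3 := fun h => hπM (dvd_mul_of_dvd_left h _)
  have hM2 : ¬ π.1 ∣ p' ^ 3 + x * q' ^ 3 := fun h => hπM (dvd_mul_of_dvd_right h _)
  have k1 := LfE_ndvd (p := p) (q := q) h4 hM1
  have k2 := LfE_ndvd (p := p') (q := q') h4 hM2
  rw [h1, hb0, hb0, add_zero, sub_zero]
  have h5 : ASE (tm π.1) ((N : Eis) * (Q : Eis) ^ E) p q p' q' ξ' =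
      - (E * TAUP π.1 p q p' q' ξ') := by
    unfold ASE TAUP
    rw [tm_val hVB (k1 2), tm_val hVB (k2 1), tm_val hVB (k1 1), tm_val hVB (k2 2)]
    ring
  rw [h5]
  congr 2
  -- independence of the cube root
  have hcongr : ∀ r r' : Eis, π.1 ∣ r - r' → TAUP π.1 p q p' q' r = TAUP π.1 p q p' q' r' := by
    intro r r' hr
    have h6 : ∀ (g h : Eis) (i : ℕ), sym π.1 (LfE g h i r) = sym π.1 (LfE g h i r') := by
      intro g h i
      apply sym_congr
      have h7 : LfE g h i r - LfE g h i r' = (h * w ^ i) * (r - r') := by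
        unfold LfE
        ring
      rw [h7]
      exact dvd_mul_of_dvd_right hr _
    unfold TAUP
    rw [h6, h6, h6, h6]
  have hshift : ∀ r : Eis, π.1 ∣ r ^ 3 - x →
      TAUP π.1 p q p' q' (w * r) = TAUP π.1 p q p' q' r := by
    intro r hr
    have m1 := LfE_ndvd (p := p) (q := q) hr hM1
    have m2 := LfE_ndvd (p := p') (q := q') hr hM2
    have h8 : sym π.1 (LfE p q 0 r) + sym π.1 (LfE p q 1 r) + sym π.1 (LfE p q 2 r) =
        sym π.1 b + (sym π.1 (LfE p' q' 0 r) + sym π.1 (LfE p' q' 1 r) +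
          sym π.1 (LfE p' q' 2 r)) := by
      rw [← sym_mul π.2.1 h3 (m1 0) (m1 1), ← sym_mul π.2.1 h3 (π.2.1.not_dvd_mul (m1 0) (m1 1)) (m1 2),
        ← sym_mul π.2.1 h3 (m2 0) (m2 1), ← sym_mul π.2.1 h3 (π.2.1.not_dvd_mul (m2 0) (m2 1)) (m2 2),
        ← sym_mul π.2.1 h3 hπb (π.2.1.not_dvd_mul (π.2.1.not_dvd_mul (m2 0) (m2 1)) (m2 2))]
      apply sym_congr
      rw [LfE_prod, LfE_prod]
      have h9 : p ^ 3 + q ^ 3 * r ^ 3 - b * (p' ^ 3 + q' ^ 3 * r ^ 3) =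
          (q ^ 3 - b * q' ^ 3) * (r ^ 3 - x) := by
        linear_combination HD.sol.eq
      rw [h9]
      exact dvd_mul_of_dvd_right hr _
    have h10 : sym π.1 b = 0 := by
      have h11 := hcb
      unfold ch up at h11
      rwa [hVb0, pow_zero, EuclideanDomain.div_one] at h11
    unfold TAUP
    rw [LfE_shift, LfE_shift, LfE_shift, LfE_shift]
    have e1 : LfE p q (2 + 1) r = LfE p q 0 r := LfE_per p q r 0
    have e2 : LfE p' q' (2 + 1) r = LfE p' q' 0 r := LfE_per p' q' r 0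
    rw [e1, e2]
    rw [h10] at h8
    have h12 : (3 : ZMod 3) = 0 := rfl
    linear_combination h8 - (sym π.1 (LfE p q 2 r) - sym π.1 (LfE p' q' 2 r)) * h12
  have hdiv : π.1 ∣ (ξ' - ξ) * (ξ' - w * ξ) * (ξ' - w * (w * ξ)) := by
    have h13 : (ξ' - ξ) * (ξ' - w * ξ) * (ξ' - w * (w * ξ)) = (ξ' ^ 3 - x) - (ξ ^ 3 - x) := by
      have h1 : w ^ 3 = 1 := w_cube
      have h2 : w ^ 2 + w + 1 = 0 := w_rel
      linear_combination (- ξ ^ 3) * h1 + (- ξ' ^ 2 * ξ + ξ' * ξ ^ 2 * w) * h2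
    rw [h13]
    exact dvd_sub h4 hξ
  have hw3 : ∀ r : Eis, π.1 ∣ r ^ 3 - x → π.1 ∣ (w * r) ^ 3 - x := by
    intro r hr
    rwa [mul_pow, w_cube, one_mul]
  rcases π.2.1.dvd_or_dvd hdiv with h | h
  · rcases π.2.1.dvd_or_dvd h with h | h
    · exact hcongr _ _ h
    · rw [hcongr _ _ h, hshift ξ hξ]
  · rw [hcongr _ _ h, hshift (w * ξ) (hw3 ξ hξ), hshift ξ hξ]


end DX4

/-- PTK_DX4. -/
theorem DX4_thm (hSTM : STM) (hSPP : SPP) (hIF4 : Stmt_IF4) (hLCI : Stmt_LCI) : Stmt_DX4 := by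
  intro N b x p q p' q' HD π E Q X Y ξ HP hπN hπM
  refine ⟨?_, ?_⟩
  · intro _ hπQ hξ
    have h := DX4.half hSTM hSPP hIF4 hLCI HD π (ξ := ξ) HP (by rw [hπQ]) hπN hπM
      (by rw [hπQ]; exact hξ)
    rw [h]
    unfold TAUE TAUP
    rw [hπQ]
  · intro _ hπQ hξ
    exact DX4.half hSTM hSPP hIF4 hLCI HD π HP hπQ hπN hπM hξ

end Pool.Agent.PTK


end

section

/-!
# PTK_ESB: the moments of the corank
-/

set_option autoImplicit false

namespace Pool.Agent.PTK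

open Pool.Agent.PTL

namespace ESB

theorem lin (s : ℕ) (a b : ℝ) (F G : ℕ → ℝ) :
    Esk s (fun c => a * F c + b * G c) = a * Esk s F + b * Esk s G := by
  unfold Esk
  haveI := Fintype.ofFinite {M : Matrix (Fin s) (Fin s) (ZMod 3) // M.transpose = -M}
  rw [finsum_eq_sum_of_fintype, finsum_eq_sum_of_fintype, finsum_eq_sum_of_fintype,
    Finset.sum_add_distrib, ← Finset.mul_sum, ← Finset.mul_sum]
  ring

theorem zero (F : ℕ → ℝ) : Esk 0 F = F 0 := by
  unfold Esk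
  haveI := Fintype.ofFinite {M : Matrix (Fin 0) (Fin 0) (ZMod 3) // M.transpose = -M}
  haveI : Unique {M : Matrix (Fin 0) (Fin 0) (ZMod 3) // M.transpose = -M} :=
    ⟨⟨⟨0, by simp⟩⟩, fun M => Subtype.ext (by ext i; exact i.elim0)⟩
  rw [finsum_eq_sum_of_fintype, Nat.card_unique, Nat.cast_one, div_one, Fintype.sum_unique,
    Nat.zero_sub]

theorem one (s : ℕ) : Esk s (fun _ => (1 : ℝ)) = 1 := by
  unfold Esk
  haveI := Fintype.ofFinite {M : Matrix (Fin s) (Fin s) (ZMod 3) // M.transpose = -M}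
  haveI : Nonempty {M : Matrix (Fin s) (Fin s) (ZMod 3) // M.transpose = -M} :=
    ⟨⟨0, by simp⟩⟩
  rw [finsum_eq_sum_of_fintype]
  simp only [Finset.sum_const, Finset.card_univ, Nat.card_eq_fintype_card, nsmul_eq_mul, mul_one]
  have : (Fintype.card {M : Matrix (Fin s) (Fin s) (ZMod 3) // M.transpose = -M} : ℝ) ≠ 0 := by
    exact_mod_cast Fintype.card_ne_zero
  exact div_self this

theorem MoB_succ (k : ℕ) : MoB (k + 1) = MoB k * (1 + 3 ^ (k + 1)) := by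
  unfold MoB
  rw [Finset.prod_range_succ]

theorem MoB_zero : MoB 0 = 1 := by
  unfold MoB
  rw [Finset.range_zero, Finset.prod_empty]

theorem one_le (k : ℕ) : 1 ≤ MoB k := by
  induction k with
  | zero => rw [MoB_zero]
  | succ k ih =>
    rw [MoB_succ]
    have h : (1 : ℝ) ≤ 1 + 3 ^ (k + 1) := by
      have : (0 : ℝ) < 3 ^ (k + 1) := by positivity
      linarith
    exact one_le_mul_of_one_le_of_one_le ih h

theorem step (hESR : Stmt_ESR) (s k : ℕ) :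
    Esk (s + 1) (fun c => (3 : ℝ) ^ ((k + 1) * c)) =
      1 / 3 ^ (k + 1) * Esk s (fun c => (3 : ℝ) ^ ((k + 1) * c)) +
        (3 ^ (k + 1) - 1 / 3 ^ (k + 1)) * Esk s (fun c => (3 : ℝ) ^ (k * c)) := by
  rw [hESR, ← lin]
  congr 1
  funext c
  have h0 : (3 : ℝ) ^ (k + 1) ≠ 0 := by positivity
  rcases c with _ | c
  · simp
  · have h1 : (3 : ℝ) ^ c ≠ 0 := by positivity
    have h2 : (3 : ℝ) ^ k ≠ 0 := by positivity
    have e1 : (3 : ℝ) ^ ((k + 1) * (c + 1 - 1)) = 3 ^ (k * c) * 3 ^ c := by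
      rw [Nat.add_sub_cancel, ← pow_add]
      congr 1
      ring
    have e2 : (3 : ℝ) ^ ((k + 1) * (c + 1 + 1)) =
        3 ^ (k * c) * 3 ^ c * (3 ^ k) ^ 2 * 9 := by
      rw [show (9 : ℝ) = 3 ^ 2 by norm_num, ← pow_mul, ← pow_add, ← pow_add, ← pow_add]
      congr 1
      ring
    have e3 : (3 : ℝ) ^ ((k + 1) * (c + 1)) = 3 ^ (k * c) * 3 ^ c * 3 ^ k * 3 := by
      rw [← pow_add, ← pow_add, ← pow_succ]
      congr 1
      ring
    have e4 : (3 : ℝ) ^ (k * (c + 1)) = 3 ^ (k * c) * 3 ^ k := by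
      rw [← pow_add]
      congr 1
    have e5 : (3 : ℝ) ^ (c + 1) = 3 ^ c * 3 := pow_succ _ _
    have e6 : (3 : ℝ) ^ (k + 1) = 3 ^ k * 3 := pow_succ _ _
    rw [e1, e2, e3, e4, e5, e6]
    field_simp
    ring

end ESB

open _root_.Pool.Agent.PTK.ESB in
theorem ESB_thm (hESR : Stmt_ESR) : Stmt_ESB := by
  have key : ∀ k s : ℕ, Esk s (fun c => (3 : ℝ) ^ (k * c)) ≤ MoB k := by
    intro k
    induction k with
    | zero =>
      intro s
      have e : (fun c : ℕ => (3 : ℝ) ^ (0 * c)) = fun _ => (1 : ℝ) := by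
        funext c
        rw [zero_mul, pow_zero]
      rw [e, one, MoB_zero]
    | succ k ihk =>
      intro s
      induction s with
      | zero =>
        rw [zero, mul_zero, pow_zero]
        exact one_le _
      | succ s ihs =>
        rw [step hESR]
        have h1 : (1 : ℝ) ≤ 3 ^ (k + 1) := one_le_pow₀ (by norm_num)
        have h2 : (0 : ℝ) ≤ 1 / 3 ^ (k + 1) := by positivity
        have h3 : (1 : ℝ) / 3 ^ (k + 1) ≤ 1 := by
          rw [div_le_one (by positivity)]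
          exact h1
        have h4 := mul_le_mul_of_nonneg_left ihs h2
        have h5 := mul_le_mul_of_nonneg_left (ihk s)
          (show (0 : ℝ) ≤ 3 ^ (k + 1) - 1 / 3 ^ (k + 1) by linarith)
        refine (add_le_add h4 h5).trans (le_of_eq ?_)
        rw [MoB_succ]
        have h6 : (3 : ℝ) ^ (k + 1) ≠ 0 := by positivity
        field_simp
        ring
  intro s k
  exact key k s

end Pool.Agent.PTK


end

section

/-!
# PTK_ESZ: the law of the corank, `q = 1 (mod 3)`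
-/

set_option autoImplicit false

namespace Pool.Agent.PTK

open Pool.Agent.PTL

namespace ESZ

theorem lin (s : ℕ) (a b : ℝ) (F G : ℕ → ℝ) :
    Esk s (fun c => a * F c + b * G c) = a * Esk s F + b * Esk s G := by
  unfold Esk
  haveI := Fintype.ofFinite {M : Matrix (Fin s) (Fin s) (ZMod 3) // M.transpose = -M}
  rw [finsum_eq_sum_of_fintype, finsum_eq_sum_of_fintype, finsum_eq_sum_of_fintype,
    Finset.sum_add_distrib, ← Finset.mul_sum, ← Finset.mul_sum]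
  ring

theorem zero (F : ℕ → ℝ) : Esk 0 F = F 0 := by
  unfold Esk
  haveI := Fintype.ofFinite {M : Matrix (Fin 0) (Fin 0) (ZMod 3) // M.transpose = -M}
  haveI : Unique {M : Matrix (Fin 0) (Fin 0) (ZMod 3) // M.transpose = -M} :=
    ⟨⟨⟨0, by simp⟩⟩, fun M => Subtype.ext (by ext i; exact i.elim0)⟩
  rw [finsum_eq_sum_of_fintype, Nat.card_unique, Nat.cast_one, div_one, Fintype.sum_unique,
    Nat.zero_sub]

end ESZ

open _root_.Pool.Agent.PTK.ESZ in
theorem ESZ_thm (hESR : Stmt_ESR) : Stmt_ESZ := by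
  intro d
  induction d with
  | zero =>
    intro F
    rw [hESR 0 F]
    simp only [zero, pow_zero, div_one, sub_self, zero_mul]
  | succ d ih =>
    intro F
    have h1 : Esk (d + 1 + 1) F = (1 - 1 / 3 ^ d) * Esk d F +
        1 / 3 ^ d * (2 / 3 * Esk d F + 1 / 3 * Esk (d + 1) (fun c => F (c + 1))) := by
      rw [hESR (d + 1) F, ← ih]
      congr 1
      · rcases Nat.eq_zero_or_pos d with rfl | hd
        · rw [pow_zero, div_one, sub_self, zero_mul, zero_mul]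
        · have e : d - 1 + 1 = d := Nat.sub_add_cancel hd
          have e2 := hESR (d - 1) F
          rw [e] at e2
          rw [e2]
      · congr 1
        rw [hESR d (fun c => F (c + 1)), ← lin]
        congr 1
        funext c
        have h3 : (1 - 1 / 3 ^ c) * F (c - 1 + 1) = (1 - 1 / 3 ^ c) * F c := by
          rcases Nat.eq_zero_or_pos c with rfl | hc
          · rw [pow_zero, div_one, sub_self, zero_mul, zero_mul]
          · rw [Nat.sub_add_cancel hc]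
        rw [h3, Nat.add_sub_cancel, pow_succ]
        have h4 : (3 : ℝ) ^ c ≠ 0 := by positivity
        field_simp
        ring
    rw [h1, Nat.add_sub_cancel, pow_succ]
    have h4 : (3 : ℝ) ^ d ≠ 0 := by positivity
    field_simp
    ring

end Pool.Agent.PTK


end

section

/-!
# Frobenius elements when all the `b j` are cubes modulo `Q`, for both prime factors
-/

set_option autoImplicit false

open NumberField IsDedekindDomain Finset
open scoped nonZeroDivisors Pointwise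

namespace Pool.Agent.PTK

open Pool.Agent.Lib_helper18 Pool.Agent.Lib_helper18.Eis Pool.Agent.Lib_helper84.Cub
open Pool.Agent.PT Pool.Agent.PTE Pool.Agent.PT3 Pool.Agent.PTL Pool.Agent.PTN

/-- GFZ: Frobenius elements when all the `b j` are cubes modulo `Q`, `Q = 1 (mod 3)`. -/
theorem GFZ_thm (hSPLT : SPLT) : Stmt_GFZ := by
  classical
  intro s b p q p' q' f L _ _ ζ ω hS hG
  let B : Fin s → Fin s → ℕ := fun j i => (b j).natAbs +
    (p j i ^ 3 + b j * q j i ^ 3).natAbs + (p' j i ^ 3 + b j * q' j i ^ 3).natAbs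
  refine ⟨∑ j, ∑ i, B j i, fun Q hQ hQN hQ3 P hP hQP φ hφ ρ hρQ hsym => ?_⟩
  have hB : ∀ j i, B j i < Q := by
    intro j i
    refine lt_of_le_of_lt ?_ hQN
    have h1 : B j i ≤ ∑ i, B j i :=
      Finset.single_le_sum (f := fun i => B j i) (fun _ _ => Nat.zero_le _) (Finset.mem_univ i)
    refine h1.trans ?_
    exact Finset.single_le_sum (f := fun j => ∑ i, B j i) (fun _ _ => Nat.zero_le _)
      (Finset.mem_univ j)
  have hb : ∀ j, ¬ (Q : ℤ) ∣ b j := fun j =>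
    GFR.not_dvd_of_lt (PTE.GFRS.ne_zero hS j)
      (by have := hB j j; simp only [B] at this; omega)
  have hd1 : ∀ j i : Fin s, j ≠ i →
      ¬ (Q : ℤ) ∣ p j i ^ 3 + b j * q j i ^ 3 ∧
      ¬ (Q : ℤ) ∣ p' j i ^ 3 + b j * q' j i ^ 3 := by
    intro j i hji
    have hsol := hS.sol j i hji
    have h2 : p' j i ^ 3 + b j * q' j i ^ 3 ≠ 0 := by
      intro h0
      refine hsol.n1 ?_
      rw [hsol.eq, h0, mul_zero]
    have hBji := hB j i
    simp only [B] at hBji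
    have e1 := GFR.not_dvd_of_lt (Q := Q) hsol.n1 (by omega)
    have e2 := GFR.not_dvd_of_lt (Q := Q) h2 (by omega)
    exact ⟨e1, e2⟩
  obtain ⟨ωB, ρ₀, F, _, mk, z, ψ, rfl, hρ₀, D⟩ :=
    PTE.GFRS.exists_dat hSPLT SPP_thm hQ hP hQP hQ3 hφ hG.rel
  -- the statement for the prime factor compatible with `P`
  have key1 : (∀ j : Fin s, sym ρ₀.1 (b j : Eis) = 0) →
      ∀ (j : Fin s) (θ : L), θ ^ 3 = (b j : L) → φ θ = θ := by
    intro h1 j θ hθ
    obtain ⟨θB, rfl, hθB⟩ := PTE.GFRS.exists_int hθ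
    by_contra h3
    exact D.sym_ne hθB (hb _)
      (fun h => h3 (congrArg (fun x : 𝓞 L => (x : L)) h)) (h1 j)
  have key2 : (∀ (j : Fin s) (θ : L), θ ^ 3 = (b j : L) → φ θ = θ) →
      ∀ j i : Fin s, j ≠ i → ∀ (r : ℤ) (t : ZMod 3), (Q : ℤ) ∣ r ^ 3 - b j →
      IsTS b p q p' q' (ωB : L) φ j i t →
      t = TAUVS ρ₀.1 (p j i) (q j i) (p' j i) (q' j i) r := by
    intro hF j i hji r t hr ht
    obtain ⟨e1, e2⟩ := hd1 j i hji
    obtain ⟨θ₀, hθ₀⟩ := hG.root j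
    obtain ⟨θ₁, rfl, hθ₁⟩ := PTE.GFRS.exists_int hθ₀
    obtain ⟨θ, hθ, hrθ⟩ := D.exists_root hr hθ₁
    have hθL : (θ : L) ^ 3 = (b j : L) := by
      rw [← map_pow, hθ, map_intCast]
    obtain ⟨A, hA⟩ := hG.A j i hji θ hθL
    exact D.core e1 e2 hr hrθ (hF j θ hθL) hA (ht θ A hθL hA)
  -- the other prime factor
  obtain ⟨-, -, h3, h4, h5, -⟩ := hSPLT.2 Q ρ₀ hQ hQ3 hρ₀
  have hC : GFRU.CJ ρ₀.1 Q := ⟨h4, h5⟩
  rcases h3 ρ ⟨conj ρ.1, hρQ⟩ with h6 | h6
  · rw [h6] at hsym ⊢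
    have hF := key1 hsym
    exact ⟨D.fω, hF, key2 hF⟩
  · rw [h6] at hsym ⊢
    have hF := key1 fun j => by
      have h7 := hsym j
      rwa [hC.int (hb _), neg_eq_zero] at h7
    refine ⟨D.fω, hF, fun j i hji r t hr ht => ?_⟩
    rw [hC.tauvs (hd1 j i hji).1 (hd1 j i hji).2 hr]
    exact key2 hF j i hji r t hr ht

end Pool.Agent.PTK


end

section

/-!
# LAM: the mean corank
-/

set_option autoImplicit false

namespace Pool.Agent.PTK

open Pool.Agent.PTL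

namespace LAM

theorem even_le {s : ℕ} (hs : s % 2 = 0) :
    Esk s (fun c => (c : ℝ)) ≤ 1 / 4 * (4 - 3 / 3 ^ s) + -(1 / 4) := by
  refine AL.Esk_le s (fun c => (c : ℝ)) (1 / 4) (-(1 / 4)) (by norm_num) fun c hc => ?_
  have h2 := AL.pow_even (c := c) (by
    rintro rfl
    omega)
  have h4 : (4 * c + 1 : ℝ) ≤ 3 ^ c := by exact_mod_cast h2
  linarith

theorem odd_le {s : ℕ} (hs : s % 2 = 1) :
    Esk s (fun c => (c : ℝ)) ≤ 1 / 12 * (4 - 3 / 3 ^ s) + 3 / 4 := by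
  refine AL.Esk_le s (fun c => (c : ℝ)) (1 / 12) (3 / 4) (by norm_num) fun c hc => ?_
  have h2 := AL.pow_odd (c := c) (by omega)
  have h4 : (12 * c : ℝ) ≤ 3 ^ c + 9 := by exact_mod_cast h2
  linarith

theorem pow_ge (d : ℕ) (hd : 4 ≤ d) : 81 * (d + 1) ≤ 5 * 3 ^ d := by
  induction d, hd using Nat.le_induction with
  | base => norm_num
  | succ d hd ih =>
    rw [pow_succ]
    omega

theorem le_all (s : ℕ) : Esk s (fun c => (c : ℝ)) ≤ 13 / 12 := by
  refine (AL.Esk_id s).trans ?_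
  split_ifs <;> norm_num

end LAM

open _root_.Pool.Agent.PTK.LAM in
theorem LAM_thm : Stmt_LAM := by
  refine ⟨le_all, ?_⟩
  intro d
  rcases Nat.lt_or_ge d 4 with h | h
  · interval_cases d
    · norm_num
    · have h1 := even_le (s := 0) rfl
      norm_num at h1 ⊢
      linarith
    · have h1 := odd_le (s := 1) rfl
      norm_num at h1 ⊢
      linarith
    · have h1 := even_le (s := 2) rfl
      norm_num at h1 ⊢
      linarith
  · have h1 := le_all (d - 1)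
    have h2 : (0 : ℝ) < 3 ^ d := by positivity
    have h3 : (81 * (d + 1) : ℝ) ≤ 5 * 3 ^ d := by exact_mod_cast pow_ge d h
    have h4 : ((d : ℝ) + 1) / 3 ^ d ≤ 5 / 81 := by
      rw [div_le_div_iff₀ h2 (by norm_num)]
      linarith
    have h5 : (1 : ℝ) / 3 ^ d ≤ 1 := by
      rw [div_le_one h2]
      exact one_le_pow₀ (by norm_num)
    have h6 : (0 : ℝ) < 1 / 3 ^ d := by positivity
    have h7 : (1 - 1 / 3 ^ d) * Esk (d - 1) (fun c => (c : ℝ)) ≤ (1 - 1 / 3 ^ d) * (13 / 12) :=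
      mul_le_mul_of_nonneg_left h1 (by linarith)
    nlinarith

end Pool.Agent.PTK


end

section

/-!
# PTK_LTE (helper44): a test configuration for a subspace
-/

set_option autoImplicit false

open NumberField IsDedekindDomain Finset
open scoped nonZeroDivisors Pointwise

namespace Pool.Agent.PTK

open Pool.Agent.Lib_helper18 Pool.Agent.Lib_helper18.Eis Pool.Agent.Lib_helper84.Cub
open Pool.Agent.PT Pool.Agent.PTE Pool.Agent.PT3 Pool.Agent.PTL Pool.Agent.PTN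

namespace LTE

variable {K E : Type} [Field K] [AddCommGroup E] [Module K E]

/-- a complement of `A` in `B` -/
theorem compl {A B : Submodule K E} (h : A ≤ B) :
    ∃ C : Submodule K E, C ≤ B ∧ Disjoint A C ∧ A ⊔ C = B := by
  obtain ⟨C, hC⟩ := exists_isCompl A
  refine ⟨C ⊓ B, inf_le_right, hC.disjoint.mono_right inf_le_left, ?_⟩
  rw [← sup_inf_assoc_of_le C h, hC.sup_eq_top, top_inf_eq]

theorem finrank_compl [FiniteDimensional K E] {A B C : Submodule K E} (hd : Disjoint A C)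
    (hs : A ⊔ C = B) : Module.finrank K A + Module.finrank K C = Module.finrank K B := by
  have h := Submodule.finrank_sup_add_finrank_inf_eq A C
  rw [hs, hd.eq_bot, finrank_bot, add_zero] at h
  exact h.symm

/-- a basis of `C` -/
theorem fam [FiniteDimensional K E] (C : Submodule K E) :
    ∃ x : Fin (Module.finrank K C) → E, LinearIndependent K x ∧ ∀ i, x i ∈ C := by
  refine ⟨fun i => (Module.finBasis K C i : E), ?_, fun i => (Module.finBasis K C i).2⟩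
  exact (Module.finBasis K C).linearIndependent.map' C.subtype C.ker_subtype

theorem app {a b : ℕ} {x : Fin a → E} {z : Fin b → E} {A B : Submodule K E}
    (hx : LinearIndependent K x) (hz : LinearIndependent K z) (hA : ∀ i, x i ∈ A)
    (hB : ∀ i, z i ∈ B) (hd : Disjoint A B) : LinearIndependent K (Fin.append x z) := by
  have h1 : LinearIndependent K (Sum.elim x z) := by
    refine hx.sum_type hz (hd.mono ?_ ?_)
    · rw [Submodule.span_le]
      rintro _ ⟨i, rfl⟩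
      exact hA i
    · rw [Submodule.span_le]
      rintro _ ⟨i, rfl⟩
      exact hB i
  have h2 : Fin.append x z ∘ finSumFinEquiv = Sum.elim x z := by
    funext i
    rcases i with i | i
    · simp
    · simp
  rw [← h2] at h1
  exact (linearIndependent_equiv finSumFinEquiv).1 h1

theorem app_mem {a b : ℕ} {x : Fin a → E} {z : Fin b → E} {A : Submodule K E}
    (hx : ∀ i, x i ∈ A) (hz : ∀ i, z i ∈ A) (i : Fin (a + b)) : Fin.append x z i ∈ A := by
  refine Fin.addCases (fun i => ?_) (fun i => ?_) i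
  · rw [Fin.append_left]
    exact hx i
  · rw [Fin.append_right]
    exact hz i

theorem app_lt {a b : ℕ} {x : Fin a → E} {z : Fin b → E} {A : Submodule K E} {n : ℕ}
    (hx : ∀ i : Fin a, i.val < n → x i ∈ A) (hz : ∀ i : Fin b, a + i.val < n → z i ∈ A)
    (i : Fin (a + b)) (hi : i.val < n) : Fin.append x z i ∈ A := by
  revert hi
  refine Fin.addCases (fun i => ?_) (fun i => ?_) i
  · intro hi
    rw [Fin.append_left]
    exact hx i (by simpa using hi)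
  · intro hi
    rw [Fin.append_right]
    exact hz i (by simpa using hi)

theorem app_ge {a b : ℕ} {x : Fin a → E} {z : Fin b → E} {A : Submodule K E} {l n : ℕ}
    (hx : ∀ i : Fin a, l ≤ i.val → i.val < n → x i ∈ A)
    (hz : ∀ i : Fin b, l ≤ a + i.val → a + i.val < n → z i ∈ A)
    (i : Fin (a + b)) (hl : l ≤ i.val) (hi : i.val < n) : Fin.append x z i ∈ A := by
  revert hi hl
  refine Fin.addCases (fun i => ?_) (fun i => ?_) i
  · intro hl hi
    rw [Fin.append_left]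
    exact hx i (by simpa using hl) (by simpa using hi)
  · intro hl hi
    rw [Fin.append_right]
    exact hz i (by simpa using hl) (by simpa using hi)

/-- the adapted basis -/
theorem basis [FiniteDimensional K E] {V V₀ U : Submodule K E} (h0 : V₀ ≤ V) (hU : U ≤ V) :
    ∃ (M δ : ℕ) (y : Fin M → E), LinearIndependent K y ∧ (∀ i, y i ∈ V) ∧
      M = Module.finrank K V ∧
      Module.finrank K ↥(U ⊓ V₀) + δ = Module.finrank K U ∧
      δ + Module.finrank K V₀ ≤ M ∧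
      Module.finrank K ↥(U ⊓ V₀) ≤ Module.finrank K V₀ ∧
      (∀ i : Fin M, i.val < δ + Module.finrank K ↥(U ⊓ V₀) → y i ∈ U) ∧
      ∀ i : Fin M, δ ≤ i.val → i.val < δ + Module.finrank K V₀ → y i ∈ V₀ := by
  obtain ⟨C1, hC1, hd1, hs1⟩ := compl (inf_le_left : U ⊓ V₀ ≤ U)
  obtain ⟨C2, hC2, hd2, hs2⟩ := compl (inf_le_right : U ⊓ V₀ ≤ V₀)
  obtain ⟨C3, hC3, hd3, hs3⟩ := compl (sup_le hU h0 : U ⊔ V₀ ≤ V)
  have f1 := finrank_compl hd1 hs1
  have f2 := finrank_compl hd2 hs2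
  have f3 := finrank_compl hd3 hs3
  have f4 := Submodule.finrank_sup_add_finrank_inf_eq U V₀
  obtain ⟨c, hc, hcm⟩ := fam C1
  obtain ⟨b, hb, hbm⟩ := fam (U ⊓ V₀)
  obtain ⟨d, hdl, hdm⟩ := fam C2
  obtain ⟨e, he, hem⟩ := fam C3
  have hx0 : LinearIndependent K (Fin.append b d) := app hb hdl hbm hdm hd2
  have hx0m : ∀ i, Fin.append b d i ∈ V₀ :=
    app_mem (fun i => (hbm i).2) (fun i => hC2 (hdm i))
  have hd13 : Disjoint C1 V₀ := by
    rw [Submodule.disjoint_def]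
    intro x hx hx'
    exact Submodule.disjoint_def.1 hd1 x ⟨hC1 hx, hx'⟩ hx
  have hx1 : LinearIndependent K (Fin.append c (Fin.append b d)) := app hc hx0 hcm hx0m hd13
  have hx1m : ∀ i, Fin.append c (Fin.append b d) i ∈ U ⊔ V₀ :=
    app_mem (fun i => Submodule.mem_sup_left (hC1 (hcm i)))
      (fun i => Submodule.mem_sup_right (hx0m i))
  refine ⟨_, Module.finrank K C1, Fin.append (Fin.append c (Fin.append b d)) e,
    app hx1 he hx1m hem hd3,
    app_mem (fun i => (sup_le hU h0) (hx1m i)) (fun i => hC3 (hem i)), ?_, f1, ?_, ?_, ?_, ?_⟩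
  · omega
  · omega
  · omega
  · refine app_lt (app_lt (fun i _ => hC1 (hcm i)) fun i hi =>
      app_lt (n := Module.finrank K ↥(U ⊓ V₀)) (fun i _ => (hbm i).1) (fun i hi => ?_) i
        (by omega)) fun i hi => ?_
    · exfalso
      omega
    · exfalso
      omega
  · refine app_ge (app_ge (fun i hl _ => ?_) fun i _ _ => hx0m i) fun i _ hi => ?_
    · exfalso
      have := i.2
      omega
    · exfalso
      omega

end LTE

open _root_.Pool.Agent.PTK.LTE in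
theorem LTE_thm : Stmt_LTE := by
  intro M' V V₀ U h0 hU
  obtain ⟨M, δ, y, hli, hyV, hM, hδ, hle, hle0, hyU, hy0⟩ := basis h0 hU
  set a₀ := Module.finrank (ZMod 3) ↥(U ⊓ V₀) with ha₀
  set v₀ := Module.finrank (ZMod 3) V₀ with hv₀
  let T : Type := (Fin δ × Fin v₀) ⊕ (Σ i : Fin a₀, Fin (M - δ - 1 - i))
  let A : T → ℕ := Sum.elim (fun x => x.1.val) (fun x => δ + x.1.val)
  let B : T → ℕ := Sum.elim (fun x => δ + x.2.val) (fun x => δ + x.1.val + 1 + x.2.val)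
  have hAB : ∀ t : T, A t < B t := by
    rintro (⟨i, j⟩ | ⟨i, j⟩)
    · change i.val < δ + j.val
      have := i.2
      omega
    · change δ + i.val < δ + i.val + 1 + j.val
      omega
  have hB : ∀ t : T, B t < M := by
    rintro (⟨i, j⟩ | ⟨i, j⟩)
    · change δ + j.val < M
      have := j.2
      omega
    · change δ + i.val + 1 + j.val < M
      have := j.2
      omega
  have hinj : ∀ t t' : T, A t = A t' → B t = B t' → t = t' := by
    rintro (⟨i, j⟩ | ⟨i, j⟩) (⟨i', j'⟩ | ⟨i', j'⟩) h1 h2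
    · change i.val = i'.val at h1
      change δ + j.val = δ + j'.val at h2
      have e1 : i = i' := Fin.ext h1
      have e2 : j = j' := Fin.ext (by omega)
      rw [e1, e2]
    · exfalso
      change i.val = δ + i'.val at h1
      have := i.2
      omega
    · exfalso
      change δ + i.val = i'.val at h1
      have := i'.2
      omega
    · change δ + i.val = δ + i'.val at h1
      change δ + i.val + 1 + j.val = δ + i'.val + 1 + j'.val at h2
      have e1 : i = i' := Fin.ext (by omega)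
      subst e1
      have e2 : j = j' := Fin.ext (by omega)
      rw [e2]
  have hAU : ∀ t : T, A t < δ + a₀ := by
    rintro (⟨i, j⟩ | ⟨i, j⟩)
    · change i.val < δ + a₀
      have := i.2
      omega
    · change δ + i.val < δ + a₀
      have := i.2
      omega
  have hW : ∀ t : T, (δ ≤ A t ∧ A t < δ + v₀) ∨ (δ ≤ B t ∧ B t < δ + v₀) := by
    rintro (⟨i, j⟩ | ⟨i, j⟩)
    · right
      change δ ≤ δ + j.val ∧ δ + j.val < δ + v₀
      have := j.2
      omega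
    · left
      change δ ≤ δ + i.val ∧ δ + i.val < δ + v₀
      have := i.2
      omega
  let φ : Fin (Fintype.card T) → T := (Fintype.equivFin T).symm
  refine ⟨M, Fintype.card T, y, fun j => ⟨A (φ j), (hAB _).trans (hB _)⟩,
    fun j => ⟨B (φ j), hB _⟩, ⟨hli, hyV, fun j => hAB _, ?_, ?_⟩, ?_, ?_⟩
  · intro j j' h1 h2
    have h3 : φ j = φ j' := hinj _ _ (congrArg Fin.val h1) (congrArg Fin.val h2)
    exact (Fintype.equivFin T).symm.injective h3
  · intro j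
    rcases hW (φ j) with h | h
    · exact Or.inl (hy0 _ h.1 h.2)
    · exact Or.inr (hy0 _ h.1 h.2)
  · intro j
    exact hyU _ (hAU (φ j))
  · have h1 : Fintype.card T = δ * v₀ + ∑ i : Fin a₀, (M - δ - 1 - i.val) := by
      simp only [T, Fintype.card_sum, Fintype.card_prod, Fintype.card_sigma, Fintype.card_fin]
    rw [h1, nUe, nTe, ← ha₀, ← hv₀, ← hM, ← Finset.sum_range fun i => M - δ - 1 - i]
    have h2 : Module.finrank (ZMod 3) U - a₀ = δ := by omega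
    rw [h2]

end Pool.Agent.PTK


end

section

/-!
# PTK: the primes with large corank, `q = 1 (mod 3)`
-/

set_option autoImplicit false

open NumberField IsDedekindDomain Finset
open scoped nonZeroDivisors Pointwise

namespace Pool.Agent.PTK

open Pool.Agent.Lib_helper18 Pool.Agent.Lib_helper18.Eis Pool.Agent.Lib_helper84.Cub
open Pool.Agent.PT Pool.Agent.PTE Pool.Agent.PT3 Pool.Agent.PTL Pool.Agent.PTN

namespace MSPU

theorem BB_eq (h n E q : ℕ) : BB h n E q = ((3 ^ h * n : ℕ) : ℤ) * (q : ℤ) ^ E := by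
  unfold BB
  push_cast
  rfl

theorem cons_eq {m : ℕ} {x y : Fin (m + 1) → ZMod 3} (h0 : x 0 = y 0)
    (h1 : ∀ i : Fin m, x i.succ = y i.succ) : x = y := by
  funext i
  exact Fin.cases h0 h1 i

theorem neg_of_two {x y : ZMod 3} (h : 2 * x = y) : x = -y := by
  revert x y
  decide

/-- the restriction of a system to the first indices -/
theorem sysG_restr {s : ℕ} {b : Fin (s + 1) → ℤ} {P Q P' Q' : Fin (s + 1) → Fin (s + 1) → ℤ}
    (h : SysG b P Q P' Q') : SysG (rv b) (rs P) (rs Q) (rs P') (rs Q') where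
  ind := by
    rintro c ⟨i, hi⟩ ⟨t, ht⟩
    refine h.ind (Fin.snoc (α := fun _ => ℕ) c 0) ⟨i.castSucc, ?_⟩ ⟨t, ?_⟩
    · rw [Fin.snoc_castSucc]
      exact hi
    · rw [ht, Fin.prod_univ_castSucc, Fin.snoc_last, pow_zero, mul_one]
      refine Finset.prod_congr rfl fun j _ => ?_
      rw [Fin.snoc_castSucc]
      rfl
  sol j i hji := h.sol j.castSucc i.castSucc fun h1 => hji (Fin.castSucc_injective _ h1)

theorem sw_restr {s : ℕ} {P Q P' Q' : Fin (s + 1) → Fin (s + 1) → ℤ}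
    (h : SwS P Q P' Q') : SwS (rs P) (rs Q) (rs P') (rs Q') :=
  fun j i hji => h j.castSucc i.castSucc fun h1 => hji (Fin.castSucc_injective _ h1)

end MSPU

open _root_.Pool.Agent.PTK.MSPU in
/-- PTK_MSPU: the primes with large corank are in `SPU`, `SMU`, `q = 1 (mod 3)`. -/
theorem MSPU_thm (hDCOU : DCOU) (hTENT : TENT) (hNADU : Stmt_NADU) (hSPLT : SPLT) :
    Stmt_MSPU := by
  intro h n m k π p e r f w0 c d v δ s τ b X Y P Q P' Q' hNF hh _ hPl
  have hSys := hPl.sys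
  have hSw := hPl.sw
  have hAdN := hPl.adm
  have hn : 0 < n := FINAS.pos_of_nf hNF
  have hN0 : 0 < 3 ^ h * n := Nat.mul_pos (pow_pos (by norm_num) _) hn
  have hb : ∀ i, b i ≠ 0 := fun i => (hAdN i).1.ne
  have hD : ∀ j i : Fin s, ∃ f₀ : ℕ, 0 < f₀ ∧ ∀ F : ℕ, 0 < F → f₀ ∣ F →
      ∃ (C : ZMod 3) (Φ : (ZMod F)ˣ →* Multiplicative (ZMod 3)) (N₀ : ℕ), j ≠ i →
        ∀ (E q : ℕ) (hQ : q.Coprime F) (ρ : PP), (E = 1 ∨ E = 2) → q.Prime → N₀ < q →
          q % 3 = 1 → (q : Eis) = ρ.1 * conj ρ.1 →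
          AG (BB h n E q) (b j.castSucc) → AG (BB h n E q) (b i.castSucc) →
          ∀ t : ℤ, (q : ℤ) ∣ t ^ 3 - b j.castSucc →
          OT (BB h n E q) (b j.castSucc) (X j) (Y j) (b i.castSucc) (rs P j i) (rs Q j i)
            (rs P' j i) (rs Q' j i) = C + E * ((Φ (ZMod.unitOfCoprime q hQ)).toAdd +
              TAUVS ρ.1 (rs P j i) (rs Q j i) (rs P' j i) (rs Q' j i) t) := by
    intro j i
    by_cases hji : j = i
    · exact ⟨1, one_pos, fun F _ _ => ⟨0, 1, 0, fun h => absurd hji h⟩⟩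
    · obtain ⟨f₀, hf₀, hf⟩ := hDCOU (3 ^ h * n) (b j.castSucc) (X j) (Y j) (b i.castSucc)
        (rs P j i) (rs Q j i) (rs P' j i) (rs Q' j i) hN0
        (hSys.sol j.castSucc i.castSucc fun h => hji (Fin.castSucc_injective _ h)) (hb _) (hb _)
      refine ⟨f₀, hf₀, fun F hF hd => ?_⟩
      obtain ⟨C, Φ, N₀, h'⟩ := hf F hF hd
      refine ⟨C, Φ, N₀, fun _ E q hQ ρ hE hqp hqN hq3 hqρ hAj hAi t ht => ?_⟩
      rw [BB_eq] at hAj hAi ⊢
      exact h' E q hQ ρ hE hqp hqN hq3 hqρ hAj hAi t ht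
  choose f₀ hf₀ hD1 using hD
  refine ⟨∏ j, ∏ i, f₀ j i, Finset.prod_pos fun j _ => Finset.prod_pos fun i _ => hf₀ j i,
    fun F hF hdF κ hκ => ?_⟩
  have hfF : ∀ j i, f₀ j i ∣ F := fun j i =>
    ((Finset.dvd_prod_of_mem (fun i => f₀ j i) (mem_univ i)).trans
      (Finset.dvd_prod_of_mem (fun j => ∏ i, f₀ j i) (mem_univ j))).trans hdF
  choose C Φ N₀ hD2 using fun j i => hD1 j i F hF (hfF j i)
  have hN : ∀ j i, N₀ j i ≤ ∑ j, ∑ i, N₀ j i := by
    intro j i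
    exact (Finset.single_le_sum (f := fun i => N₀ j i) (fun i _ => Nat.zero_le _)
      (mem_univ i)).trans (Finset.single_le_sum (f := fun j => ∑ i, N₀ j i)
        (fun j _ => Nat.zero_le _) (mem_univ j))
  obtain ⟨M, hM⟩ : ∃ M, M = n + F + 3 + ∑ j, ∑ i, N₀ j i := ⟨_, rfl⟩
  -- the matrix
  have hmat : ∀ (E q t : ℕ), (E = 1 ∨ E = 2) → q.Prime → M < q → q % 3 = 1 → q ∈ Pat v δ →
      InCT E π w0 c q → t ≤ kU h n b X Y P Q P' Q' E q →
      ∃ (hQ : q.Coprime F) (ρ : PP), (q : Eis) = ρ.1 * conj ρ.1 ∧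
        (∀ j : Fin s, sym ρ.1 (b j.castSucc : Eis) = 0) ∧ sym ρ.1 (b (Fin.last s) : Eis) ≠ 0 ∧
        ∀ τ' : Fin s → Fin s → ZMod 3,
        (∀ j i, j ≠ i → ∀ r : ℤ, (q : ℤ) ∣ r ^ 3 - b j.castSucc →
          τ' j i = TAUVS ρ.1 (rs P j i) (rs Q j i) (rs P' j i) (rs Q' j i) r) →
        t ≤ s - (alt fun j i =>
          C j i + E * ((Φ j i (ZMod.unitOfCoprime q hQ)).toAdd + τ' j i)).rank := by
    intro E q t hE hq hqM hq3 hqP hIn htk
    obtain ⟨ρ, hqρ, hpat⟩ := hqP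
    have hqn : ¬ q ∣ n := fun h => by
      have := Nat.le_of_dvd hn h
      omega
    have hQ : q.Coprime F := by
      rw [Nat.Prime.coprime_iff_not_dvd hq]
      intro h
      have := Nat.le_of_dvd hF h
      omega
    have h3q : 3 < q := by omega
    have hρn : ¬ ρ.1 ∣ (n : Eis) := by
      intro h2
      have h4 := (hSPLT.2 q ρ hq hq3 hqρ).2.2.2.1 (n : ℤ)
      rw [Int.cast_natCast] at h4
      exact hqn (Int.natCast_dvd_natCast.1 (h4.1 h2))
    obtain ⟨hiff, -⟩ := hPl.pat ρ hρn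
    obtain ⟨hb0, hb1⟩ := hiff.2 hpat
    obtain ⟨hBG, hTy, hA⟩ := hNADU h n m k π p e r f w0 c E q ρ hNF hh hE hq hq3 hIn hqn hqρ
    have hAG : ∀ i : Fin s, AG (BB h n E q) (b i.castSucc) := fun i =>
      ((hA _ (hAdN i.castSucc).1.supp).1 ⟨hAdN i.castSucc, hb0 i⟩).1
    have hskew := (hTENT s τ (rv b) X Y _ _ _ _ _ (sysG_restr hSys) (sw_restr hSw) hBG
      hAG (hPl.lam _ hTy) (fun i => hb _)).1
    refine ⟨hQ, ρ, hqρ, hb0, hb1, fun τ' hτ' => ?_⟩
    have hent : ∀ j i, j ≠ i →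
        MaT (rv b) X Y (rs P) (rs Q) (rs P') (rs Q') (BB h n E q) j i =
        C j i + E * ((Φ j i (ZMod.unitOfCoprime q hQ)).toAdd + τ' j i) := by
      intro j i hji
      have hqb : ¬ (q : ℤ) ∣ b j.castSucc := fun h => by
        rcases (hq.dvd_mul).1 ((hAdN j.castSucc).1.supp q hq h) with h1 | h1
        · have := Nat.le_of_dvd (by norm_num) h1
          omega
        · exact hqn h1
      obtain ⟨x, hx⟩ := (hSPLT.2 q ρ hq hq3 hqρ).2.2.2.2.2 _ hqb (hb0 j)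
      unfold MaT
      rw [if_neg hji]
      refine (hD2 j i hji E q hQ ρ hE hq (by have := hN j i; omega) hq3 hqρ (hAG j) (hAG i) x
        hx).trans ?_
      rw [← hτ' j i hji x hx]
    have hMa : MaT (rv b) X Y (rs P) (rs Q) (rs P') (rs Q') (BB h n E q) = alt fun j i =>
        C j i + E * ((Φ j i (ZMod.unitOfCoprime q hQ)).toAdd + τ' j i) := by
      ext j i
      rw [alt]
      rcases lt_trichotomy j i with h | h | h
      · rw [if_pos h, hent j i h.ne]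
      · subst h
        rw [if_neg (lt_irrefl _), if_neg (lt_irrefl _), MaT, if_pos rfl]
      · rw [if_neg (not_lt.2 h.le), if_pos h, hskew j i, hent i j h.ne]
    rw [← hMa]
    exact htk
  refine ⟨C, FINAS.assemble Φ, M, fun q t hq hqM hq3 hqP => ⟨fun hIn htk => ?_,
    fun hIn htk => ?_⟩⟩
  · obtain ⟨hQ, ρ, hqρ, hb0, hb1, hm⟩ := hmat 1 q t (Or.inl rfl) hq hqM hq3 hqP hIn htk
    obtain ⟨hw, hc⟩ := hIn
    refine ⟨hQ, ρ, ⟨hq3, ?_, hqρ, hb0, hb1⟩, fun τ' hτ' => ?_⟩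
    · rw [hκ]
      refine cons_eq ?_ fun i => ?_
      · rw [Fin.cons_zero, Fin.cons_zero]
        rw [pow_one] at hw
        exact hw
      · rw [Fin.cons_succ, Fin.cons_succ, ← hc i, Nat.cast_one, one_mul]
    · have e1 : (fun j i => C j i + ((1 : ℕ) : ZMod 3) *
          ((Φ j i (ZMod.unitOfCoprime q hQ)).toAdd + τ' j i)) =
          C + (FINAS.assemble Φ (ZMod.unitOfCoprime q hQ)).toAdd + τ' := by
        funext j i
        show C j i + ((1 : ℕ) : ZMod 3) * ((Φ j i (ZMod.unitOfCoprime q hQ)).toAdd + τ' j i) =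
          C j i + (Φ j i (ZMod.unitOfCoprime q hQ)).toAdd + τ' j i
        rw [Nat.cast_one]
        ring
      rw [← e1]
      exact hm τ' hτ'
  · obtain ⟨hQ, ρ, hqρ, hb0, hb1, hm⟩ := hmat 2 q t (Or.inr rfl) hq hqM hq3 hqP hIn htk
    obtain ⟨hw, hc⟩ := hIn
    refine ⟨hQ, ρ, ⟨hq3, ?_, hqρ, hb0, hb1⟩, fun τ' hτ' => ?_⟩
    · rw [hκ]
      refine cons_eq ?_ fun i => ?_
      · rw [Fin.cons_zero, Pi.neg_apply, Fin.cons_zero]
        have h3 : ¬ (3 : ℤ) ∣ (q : ℤ) := by omega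
        have h4 := sq_mod_three h3
        have h5 : ((q : ℤ) ^ 2) ^ 2 = (q : ℤ) ^ 2 * (q : ℤ) ^ 2 := by ring
        rw [h5, wt_mul h4 h4] at hw
        exact neg_of_two (by rw [two_mul]; exact hw)
      · rw [Fin.cons_succ, Pi.neg_apply, Fin.cons_succ]
        exact neg_of_two (hc i)
    · have e1 : (fun j i => C j i + ((2 : ℕ) : ZMod 3) *
          ((Φ j i (ZMod.unitOfCoprime q hQ)).toAdd + τ' j i)) =
          C - (FINAS.assemble Φ (ZMod.unitOfCoprime q hQ)).toAdd - τ' := by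
        funext j i
        show C j i + ((2 : ℕ) : ZMod 3) * ((Φ j i (ZMod.unitOfCoprime q hQ)).toAdd + τ' j i) =
          C j i - (Φ j i (ZMod.unitOfCoprime q hQ)).toAdd - τ' j i
        rw [show ((2 : ℕ) : ZMod 3) = -1 from by decide]
        ring
      rw [← e1]
      exact hm τ' hτ'

end Pool.Agent.PTK


end

section

/-!
# PTK, module NDS: the solution as a quotient of linear forms (helper54)
-/

set_option autoImplicit false

open NumberField IsDedekindDomain Finset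
open scoped nonZeroDivisors Pointwise

namespace Pool.Agent.PTK

open Pool.Agent.Lib_helper18 Pool.Agent.Lib_helper18.Eis Pool.Agent.Lib_helper84.Cub
open Pool.Agent.PT

namespace NDS

variable {x : Eis} {L : Type} [Field L] [NumberField L] {ι : Eis →+* L} {θ : L} {σ : L ≃ₐ[ℚ] L}

theorem norm_lin (h : CubE x L ι θ σ) (α β : Eis) :
    (ι α + ι β * θ) * σ (ι α + ι β * θ) * σ (σ (ι α + ι β * θ)) = ι (α ^ 3 + x * β ^ 3) := by
  have hw : ι w ^ 2 + ι w + 1 = 0 := by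
    have : w ^ 2 + w + 1 = (0 : Eis) := by
      decide
    rw [← map_pow, ← map_one ι, ← map_add, ← map_add, this, map_zero]
  have h3 : ι w ^ 3 = 1 := by
    linear_combination (ι w - 1) * hw
  have e1 : σ (ι α + ι β * θ) = ι α + ι β * (ι w * θ) := by
    rw [map_add, map_mul, h.sι, h.sι, h.sθ]
  have e2 : σ (σ (ι α + ι β * θ)) = ι α + ι β * (ι w * (ι w * θ)) := by
    rw [e1, map_add, map_mul, map_mul, h.sι, h.sι, h.sι, h.sθ]
  rw [e2, e1, map_add, map_mul, map_pow, map_pow, ← h.cube]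
  linear_combination (ι α ^ 2 * ι β * θ + ι α * ι β ^ 2 * θ ^ 2 * ι w) * hw
    + ι β ^ 3 * θ ^ 3 * h3

theorem norm_ne (h : CubE x L ι θ σ) {α β : Eis} (hne : ι α + ι β * θ ≠ 0) :
    α ^ 3 + x * β ^ 3 ≠ 0 := by
  intro h0
  have h1 := norm_lin h α β
  rw [h0, map_zero] at h1
  have hs : ∀ y : L, y ≠ 0 → σ y ≠ 0 := fun y hy => (map_ne_zero σ).mpr hy
  exact (mul_ne_zero (mul_ne_zero hne (hs _ hne)) (hs _ (hs _ hne))) h1

end NDS

theorem NDS_thm : Stmt_NDS := by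
  intro x L _ _ ι θ σ _ hF y z hy hz hN
  obtain ⟨m, a, b, d, hm, e⟩ := hF.rep z
  have hmL : (m : L) ≠ 0 := by exact_mod_cast hm
  have hm' : ι (m : Eis) = (m : L) := map_intCast ι m
  have hmE : (m : Eis) ≠ 0 := by
    intro h0
    rw [h0, map_zero] at hm'
    exact hmL hm'.symm
  -- killing the coefficient of `θ ^ 2`
  obtain ⟨γ, δ, hγδ, h2⟩ : ∃ γ δ : Eis, ¬ (γ = 0 ∧ δ = 0) ∧ b * δ + d * γ = 0 := by
    by_cases h3 : b = 0 ∧ d = 0
    · refine ⟨1, 0, by simp, ?_⟩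
      rw [h3.1, h3.2]
      ring
    · refine ⟨b, -d, ?_, by ring⟩
      rintro ⟨h4, h5⟩
      exact h3 ⟨h4, neg_eq_zero.1 h5⟩
  have hlin : ι γ + ι δ * θ ≠ 0 := by
    intro h0
    have h1 := hF.lin γ δ 0 (by rw [map_zero, zero_mul, add_zero]; exact h0)
    exact hγδ ⟨h1.1, h1.2.1⟩
  have h3 : ((m : L) * z) * (ι γ + ι δ * θ) =
      ι (a * γ + d * δ * x) + ι (a * δ + b * γ) * θ := by
    have h4 : ι b * ι δ + ι d * ι γ = 0 := by
      rw [← map_mul, ← map_mul, ← map_add, h2, map_zero]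
    have h5 := hF.cube
    rw [e]
    simp only [map_add, map_mul]
    linear_combination θ ^ 2 * h4 + ι d * ι δ * h5
  have h4 : (m : Eis) ^ 3 * y * (γ ^ 3 + x * δ ^ 3) =
      (a * γ + d * δ * x) ^ 3 + x * (a * δ + b * γ) ^ 3 := by
    apply hF.inj
    rw [← NDS.norm_lin hF (a * γ + d * δ * x) (a * δ + b * γ), ← h3, map_mul, map_mul, map_pow,
      hm', ← NDS.norm_lin hF γ δ, ← hN]
    simp only [map_mul, map_intCast]
    ring
  have h5 := NDS.norm_ne hF hlin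
  refine ⟨a * γ + d * δ * x, a * δ + b * γ, m * γ, m * δ, ?_, ?_⟩
  · rw [← h4]
    ring
  · rw [← h4]
    exact mul_ne_zero (mul_ne_zero (pow_ne_zero 3 hmE) hy) h5

end Pool.Agent.PTK


end

section

/-!
# PTK_NHN: Hilbert 90
-/

set_option autoImplicit false

open NumberField IsDedekindDomain Finset
open scoped nonZeroDivisors Pointwise

namespace Pool.Agent.PTK

open Pool.Agent.Lib_helper18 Pool.Agent.Lib_helper18.Eis Pool.Agent.Lib_helper84.Cub
open Pool.Agent.PT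

namespace NHN

set_option linter.unusedSectionVars false

variable {x : Eis} {L : Type} [Field L] [NumberField L] {ι : Eis →+* L} {θ : L}
  {σ : L ≃ₐ[ℚ] L}

theorem w3 (ι : Eis →+* L) : ι w ^ 3 = 1 := by
  rw [← map_pow, w_cube, map_one]

theorem wrel (ι : Eis →+* L) : ι w ^ 2 + ι w + 1 = 0 := by
  rw [← map_pow, ← map_add, ← map_one ι, ← map_add, w_rel, map_zero]

theorem s1 (h : CubE x L ι θ σ) (a b d : Eis) :
    σ (ι a + ι b * θ + ι d * θ ^ 2) = ι a + ι b * (ι w * θ) + ι d * (ι w * θ) ^ 2 := by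
  rw [map_add, map_add, map_mul, map_mul, map_pow, h.sι, h.sι, h.sι, h.sθ]

theorem s3θ (h : CubE x L ι θ σ) : σ (σ (σ θ)) = θ := by
  rw [h.sθ, map_mul, h.sι, h.sθ, map_mul, map_mul, h.sι, h.sθ]
  linear_combination θ * w3 ι

theorem s3 (h : CubE x L ι θ σ) (z : L) : σ (σ (σ z)) = z := by
  obtain ⟨m, a, b, d, hm, hz⟩ := h.rep z
  have hm' : (m : L) ≠ 0 := Int.cast_ne_zero.2 hm
  have h1 : σ (σ (σ ((m : L) * z))) = (m : L) * z := by
    rw [hz]
    simp only [map_add, map_mul, map_pow, h.sι, s3θ h]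
  rw [map_mul, map_mul, map_mul, map_intCast, map_intCast, map_intCast] at h1
  exact mul_left_cancel₀ hm' h1

theorem fixed (h : CubE x L ι θ σ) {z : L} (hz : σ z = z) :
    ∃ a b : Eis, b ≠ 0 ∧ z * ι b = ι a := by
  obtain ⟨m, a, b, d, hm, hmz⟩ := h.rep z
  have h1 : σ ((m : L) * z) = (m : L) * z := by rw [map_mul, map_intCast, hz]
  rw [hmz, s1 h] at h1
  have h2 : ι 0 + ι (b * (w - 1)) * θ + ι (d * (w ^ 2 - 1)) * θ ^ 2 = 0 := by
    rw [map_zero, map_mul, map_mul, map_sub, map_sub, map_pow, map_one]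
    linear_combination h1
  obtain ⟨-, h3, h4⟩ := h.lin _ _ _ h2
  have hw1 : (w - 1 : Eis) ≠ 0 := by
    intro hc
    have := congrArg Eis.im hc
    simp at this
  have hw2 : (w ^ 2 - 1 : Eis) ≠ 0 := by
    rw [w_sq]
    intro hc
    have := congrArg Eis.im hc
    simp at this
  have hb : b = 0 := (mul_eq_zero.1 h3).resolve_right hw1
  have hd : d = 0 := (mul_eq_zero.1 h4).resolve_right hw2
  have hm' : (m : Eis) ≠ 0 := by
    intro hc
    have h5 := congrArg Eis.re hc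
    rw [intCast_re, zero_re] at h5
    exact hm h5
  refine ⟨a, (m : Eis), hm', ?_⟩
  rw [hb, hd] at hmz
  rw [map_intCast, mul_comm, hmz, map_zero]
  ring

end NHN

theorem NHN_thm : Stmt_NHN := by
  intro x L _ _ ι θ σ hx h
  refine ⟨NHN.s3 h, fun z hz => NHN.fixed h hz, fun u hu => ?_⟩
  have hu' : (u : L) * σ u * σ (σ u) = 1 := by
    have h1 := congrArg (Units.val) hu
    simp only [Finset.prod_range_succ, Finset.prod_range_zero, one_mul, pow_zero, pow_one,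
      one_smul, pow_two, mul_smul] at h1
    simpa using h1
  have hθ : θ ≠ 0 := by
    rintro rfl
    have h1 := h.cube
    rw [zero_pow (by norm_num)] at h1
    exact hx (h.inj (h1.symm.trans (map_zero ι).symm))
  -- the sum
  have key : ∀ e : L, (u : L) * σ (e + u * σ e + u * σ u * σ (σ e)) =
      e + u * σ e + u * σ u * σ (σ e) := by
    intro e
    rw [map_add, map_add, map_mul, map_mul, map_mul, NHN.s3 h]
    linear_combination e * hu'
  have main : ∃ e : L, e + u * σ e + u * σ u * σ (σ e) ≠ 0 := by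
    by_contra hc
    push Not at hc
    have h1 := hc 1
    have h2 := hc θ
    have h3 := hc (θ ^ 2)
    have e1 : σ (σ θ) = ι w ^ 2 * θ := by
      rw [h.sθ, map_mul, h.sι, h.sθ]
      ring
    have e2 : σ (σ (θ ^ 2)) = (ι w ^ 2 * θ) ^ 2 := by rw [map_pow, map_pow, e1]
    have e3 : σ (θ ^ 2) = (ι w * θ) ^ 2 := by rw [map_pow, h.sθ]
    rw [map_one, map_one, mul_one, mul_one] at h1
    rw [e1, h.sθ] at h2
    rw [e2, e3] at h3
    have h2' : 1 + u * ι w + u * σ u * ι w ^ 2 = 0 := by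
      have : θ * (1 + u * ι w + u * σ u * ι w ^ 2) = 0 := by linear_combination h2
      exact (mul_eq_zero.1 this).resolve_left hθ
    have h3' : 1 + u * ι w ^ 2 + u * σ u * ι w ^ 4 = 0 := by
      have : θ ^ 2 * (1 + u * ι w ^ 2 + u * σ u * ι w ^ 4) = 0 := by linear_combination h3
      exact (mul_eq_zero.1 this).resolve_left (pow_ne_zero _ hθ)
    have h4 : (3 : L) = 0 := by
      linear_combination h1 + h2' + h3' - (u : L) * NHN.wrel ι -
        (u : L) * σ u * (NHN.wrel ι + ι w * NHN.w3 ι)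
    exact three_ne_zero h4
  obtain ⟨e, he⟩ := main
  refine ⟨Units.mk0 _ he, ?_⟩
  rw [eq_div_iff_mul_eq']
  ext
  rw [Units.val_mul, AlgEquiv.smul_units_def]
  simp only [Units.coe_map, Units.val_mk0]
  have := key e
  simpa [mul_comm] using this

end Pool.Agent.PTK


end

section

/-!
# PTK_WSM: sums weighted by powers of the number of the classes
-/

set_option autoImplicit false

open NumberField IsDedekindDomain Finset
open scoped nonZeroDivisors Pointwise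

namespace Pool.Agent.PTK

open Pool.Agent.Lib_helper18 Pool.Agent.Lib_helper18.Eis Pool.Agent.Lib_helper84.Cub
open Pool.Agent.PT Pool.Agent.PTE Pool.Agent.PT3 Pool.Agent.PTL Pool.Agent.PTN

namespace WSM

theorem n_pos {n m k : ℕ} {π : Fin m → PP} {p e : Fin m → ℕ} {r f : Fin k → ℕ}
    (h : NF n π p e r f) : 0 < n := by
  rw [h.eq]
  exact Nat.mul_pos (Finset.prod_pos fun i _ => pow_pos (h.pp i).pos _)
    (Finset.prod_pos fun j _ => pow_pos (h.rp j).pos _)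

/-- the number of the tuples with values in a subspace -/
theorem card_tup {M : ℕ} (V W : Submodule (ZMod 3) (Fin M → ZMod 3)) (hW : W ≤ V) (k₀ : ℕ)
    [Fintype (Fin k₀ → V)] [DecidablePred fun Y : Fin k₀ → V => ∀ i, (Y i : Fin M → ZMod 3) ∈ W] :
    Nat.card W ^ k₀ ≤ (Finset.univ.filter fun Y : Fin k₀ → V =>
      ∀ i, (Y i : Fin M → ZMod 3) ∈ W).card := by
  have h1 : Nat.card W ^ k₀ = Nat.card (Fin k₀ → W) := by
    rw [Nat.card_fun, Nat.card_eq_fintype_card (α := Fin k₀), Fintype.card_fin]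
  have h2 : (Finset.univ.filter fun Y : Fin k₀ → V =>
      ∀ i, (Y i : Fin M → ZMod 3) ∈ W).card =
      Nat.card {Y : Fin k₀ → V // ∀ i, (Y i : Fin M → ZMod 3) ∈ W} := by
    rw [Nat.card_eq_fintype_card, Fintype.card_subtype]
  rw [h1, h2]
  refine Nat.card_le_card_of_injective
    (fun Z : Fin k₀ → W => (⟨fun i => ⟨(Z i : Fin M → ZMod 3), hW (Z i).2⟩, fun i => (Z i).2⟩ :
      {Y : Fin k₀ → V // ∀ i, (Y i : Fin M → ZMod 3) ∈ W})) ?_
  intro Z Z' hZ
  funext i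
  have h3 := congrFun (congrArg Subtype.val hZ) i
  exact Subtype.ext (congrArg (fun z : V => (z : Fin M → ZMod 3)) h3)

end WSM

open _root_.Pool.Agent.PTK.WSM in
theorem WSM_thm (hUPS : Stmt_UPS) (hWSB : Stmt_WSB) (hLTE : Stmt_LTE) (hLSM : Stmt_LSM) :
    Stmt_WSM := by
  classical
  intro h n m k π p e r f w0 c hNF hh k₀ S G x₀ hx₀ hG hH
  have hle : V0 h n π p e r w0 c ≤ VS h n π p e r w0 c := fun y hy => hy.1
  obtain ⟨V, hV⟩ : ∃ V, V = VS h n π p e r w0 c := ⟨_, rfl⟩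
  obtain ⟨V₀, hV₀⟩ : ∃ V₀, V₀ = V0 h n π p e r w0 c := ⟨_, rfl⟩
  rw [← hV, ← hV₀] at hle
  rw [← hV, ← hV₀] at hH
  haveI : Fintype (Fin k₀ → V) := Fintype.ofFinite _
  have hU : ∀ Y : Fin k₀ → V, Submodule.span (ZMod 3)
      (Set.range fun i => (Y i : Fin (m + 1) → ZMod 3)) ≤ V := by
    intro Y
    rw [Submodule.span_le]
    rintro _ ⟨i, rfl⟩
    exact (Y i).2
  choose M N y α β hT hy hN using fun Y : Fin k₀ → V => hLTE (m + 1) V V₀ _ hle (hU Y)
  have h1 := hUPS.1 (Fin k₀ → V) S (fun E q => (Nat.card (WqS h n π p e r w0 c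
    (BB h n E q)) : ℝ) ^ k₀ * G E q)
    (fun Y E => {q | q ∈ S E ∧ ∀ j, Occ (BB h n E q) (zN π e (y Y (α Y j)))}) (fun _ => G)
    (fun Y => x₀ / 3 ^ N Y) 1 (max 3 n) one_pos (fun _ => hG) ?_
    (fun Y => hH (M Y) (N Y) (y Y) (α Y) (β Y) (hT Y))
  · refine hUPS.2.1 _ _ _ _ ?_ h1
    rw [div_one]
    have h2 := hLSM (m + 1) V V₀ hle k₀
    rw [finsum_eq_sum_of_fintype] at h2
    have h3 : ∑ Y : Fin k₀ → V, x₀ / 3 ^ N Y = (∑ Y : Fin k₀ → V, (1 : ℝ) /
        3 ^ nUe V V₀ (Submodule.span (ZMod 3)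
          (Set.range fun i => (Y i : Fin (m + 1) → ZMod 3)))) * x₀ := by
      rw [Finset.sum_mul]
      refine Finset.sum_congr rfl fun Y _ => ?_
      rw [hN Y]
      ring
    rw [h3]
    have h4 : vN h n π p e r w0 c - v0N h n π p e r w0 c =
        Module.finrank (ZMod 3) V - Module.finrank (ZMod 3) V₀ := by
      rw [hV, hV₀]
      rfl
    rw [h4]
    exact mul_le_mul_of_nonneg_right h2 hx₀
  · intro E q hE hq hqM hqS
    have hq3 : 3 < q := (le_max_left _ _).trans_lt hqM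
    have hqn : ¬ q ∣ n := fun hd =>
      absurd (Nat.le_of_dvd (n_pos hNF) hd) (not_le.2 ((le_max_right _ _).trans_lt hqM))
    obtain ⟨W, hW⟩ := hWSB h n m k π p e r f w0 c E q hNF hh hE hq hq3 hqn
    have hWV : W ≤ V := by
      intro z hz
      rw [hV]
      exact ((hW z).1 hz).1
    have hcard : Nat.card (WqS h n π p e r w0 c (BB h n E q)) = Nat.card W :=
      Nat.card_congr (Equiv.subtypeEquivRight fun z => (hW z).symm)
    rw [one_mul, hcard]
    refine le_trans (b := ∑ Y : Fin k₀ → V,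
      if ∀ i, (Y i : Fin (m + 1) → ZMod 3) ∈ W then G E q else 0) ?_
      (Finset.sum_le_sum fun Y _ => ?_)
    swap
    · by_cases hY : ∀ i, (Y i : Fin (m + 1) → ZMod 3) ∈ W
      · rw [if_pos hY, if_pos]
        refine ⟨hqS, fun j => ?_⟩
        have h6 : Submodule.span (ZMod 3)
            (Set.range fun i => (Y i : Fin (m + 1) → ZMod 3)) ≤ W := by
          rw [Submodule.span_le]
          rintro _ ⟨i, rfl⟩
          exact hY i
        exact ((hW _).1 (h6 (hy Y j))).2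
      · rw [if_neg hY]
        split_ifs
        · exact hG E q
        · exact le_refl _
    rw [← Finset.sum_filter, Finset.sum_const, nsmul_eq_mul]
    refine mul_le_mul_of_nonneg_right ?_ (hG E q)
    exact_mod_cast card_tup V W hWV k₀

end Pool.Agent.PTK


end

section

/-!
# PTK_CTZ: the joint density for the zero pattern
-/

set_option autoImplicit false

open NumberField IsDedekindDomain Finset
open scoped nonZeroDivisors Pointwise

namespace Pool.Agent.PTK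

open Pool.Agent.Lib_helper18 Pool.Agent.Lib_helper18.Eis Pool.Agent.Lib_helper84.Cub
open Pool.Agent.PT Pool.Agent.PTE Pool.Agent.PT3 Pool.Agent.PTL Pool.Agent.PTN

namespace CTZ

/-- The symbols of a product up to cubes. -/
theorem sym_zero_of (hSPP : SPP) {d : ℕ} (v : Fin d → ℤ) (ρ : PP)
    (hv : ∀ i, ¬ ρ.1 ∣ (v i : Eis)) (hs : ∀ i, sym ρ.1 (v i : Eis) = 0) {b u t : ℤ}
    (g : Fin d → ℕ) (hb : ¬ ρ.1 ∣ (b : Eis)) (hu : ¬ ρ.1 ∣ (u : Eis)) (ht : ¬ ρ.1 ∣ (t : Eis))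
    (h : b * u ^ 3 = (∏ i, v i ^ g i) * t ^ 3) : sym ρ.1 (b : Eis) = 0 := by
  classical
  have hp : Prime ρ.1 := ρ.2.1
  have h3 : ¬ ρ.1 ∣ 3 := (hSPP.2.2.2.1 ρ).1
  have h1 : (b : Eis) * (u : Eis) ^ 3 = (∏ i, (v i : Eis) ^ g i) * (t : Eis) ^ 3 := by
    have h2 := congrArg (fun z : ℤ => (z : Eis)) h
    push_cast at h2
    exact h2
  obtain ⟨h4, h5⟩ := sym_prod_pow hp h3 (fun i => (v i : Eis)) g Finset.univ
    (fun i _ => hv i)
  have hu3 : ¬ ρ.1 ∣ (u : Eis) ^ 3 := fun h => hu (hp.dvd_of_dvd_pow h)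
  have ht3 : ¬ ρ.1 ∣ (t : Eis) ^ 3 := fun h => ht (hp.dvd_of_dvd_pow h)
  have h6 := congrArg (sym ρ.1) h1
  rw [sym_mul hp h3 hb hu3, sym_mul hp h3 h4 ht3, sym_pow hp h3 hu, sym_pow hp h3 ht, h5,
    Finset.sum_eq_zero (fun i _ => by rw [hs i, mul_zero])] at h6
  have h7 : ((3 : ℕ) : ZMod 3) = 0 := by decide
  rw [h7, zero_mul, zero_mul, add_zero, add_zero] at h6
  exact h6

end CTZ

open _root_.Pool.Agent.PTK.CTZ in
/-- PTK_CTZ. -/
theorem CTZ_thm (hSPLT : SPLT) (hSPP : SPP) (hCLSC : CLSC) (hCLSCS : CLSCS) (hPLE : Stmt_PLE)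
    (hSYK : Stmt_SYK) (hMSKU : Stmt_MSKU) (hBDJZ : Stmt_BDJZ) : Stmt_CTZ := by
  classical
  intro h n m k π p e r f w0 c d v hNF hh hHB y hy l u hu hind
  obtain ⟨s, τ, b, X, Y, P, Q, P', Q', hs, hPl⟩ := hPLE h n m k π p e r f w0 c hNF hh
  obtain ⟨P1, Q1, P1', Q1', hSys, hHyp⟩ := hSYK h n m k π p e r f w0 c hNF hh y hy l u hu hind
  obtain ⟨f₀, hf₀, hMS⟩ := hMSKU h n m k π p e r f w0 c hNF hh y hy l u P1 Q1 P1' Q1' hu hSys hHyp
  -- the conductor
  obtain ⟨F, hFpos, hF9, hpF, hFd⟩ : ∃ F : ℕ, 0 < F ∧ 9 ∣ F ∧ (∀ i, p i ∣ F) ∧ f₀ ∣ F := by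
    refine ⟨9 * (∏ i, p i) * f₀, ?_, ?_, ?_, ?_⟩
    · have h1 : 0 < ∏ i, p i := Finset.prod_pos fun i _ => (hNF.pp i).pos
      positivity
    · exact Dvd.dvd.mul_right (Dvd.intro _ rfl) _
    · intro i
      exact Dvd.dvd.mul_right (Dvd.dvd.mul_left (Finset.dvd_prod_of_mem p (mem_univ i)) _) _
    · exact Dvd.intro_left _ rfl
  obtain ⟨κ, hκ1, hκ2⟩ := hCLSC m π p hNF.pp hNF.p1 hNF.pπ hNF.pinj F hFpos hF9 hpF
  obtain ⟨C, Φ, N₀, hC⟩ := hMS F hFpos hFd κ hκ1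
  obtain ⟨K, hK⟩ := hBDJZ s b P Q P' Q' l (zN π e y) (fun j => zN π e (u j)) P1 Q1 P1' Q1' F m κ
    (Fin.cons w0 c) C Φ hPl.sys hSys hFpos hF9 (hCLSCS F m κ hFpos hF9 hκ2)
  -- the basis `b` in terms of `v`
  choose g U W hU hW hrel using fun i => hHB.2.1 (b i) (hPl.adm i)
  have hvne : ∀ i, v i ≠ 0 := fun i => (hHB.1 i).1.ne
  have hbne : ∀ i, b i ≠ 0 := fun i => (hPl.adm i).1.ne
  obtain ⟨M, hM0, hMv, hMb, hMU, hMW⟩ : ∃ M : ℕ, N₀ ≤ M ∧ (∀ i, (v i).natAbs ≤ M) ∧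
      (∀ i, (b i).natAbs ≤ M) ∧ (∀ i, (U i).natAbs ≤ M) ∧ ∀ i, (W i).natAbs ≤ M := by
    refine ⟨N₀ + ∑ i, (v i).natAbs + ∑ i, ((b i).natAbs + (U i).natAbs + (W i).natAbs), ?_, ?_,
      ?_, ?_, ?_⟩
    · omega
    · intro i
      have := Finset.single_le_sum (f := fun i => (v i).natAbs) (fun i _ => Nat.zero_le _)
        (mem_univ i)
      omega
    all_goals
      intro i
      have := Finset.single_le_sum (f := fun i => (b i).natAbs + (U i).natAbs + (W i).natAbs)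
        (fun i _ => Nat.zero_le _) (mem_univ i)
      omega
  have hnd : ∀ (q : ℕ) (z : ℤ), M < q → z ≠ 0 → z.natAbs ≤ M → ¬ (q : ℤ) ∣ z := by
    intro q z hq hz hzM hd
    have h1 := Int.natAbs_dvd_natAbs.2 hd
    have h2 := Nat.le_of_dvd (Int.natAbs_pos.2 hz) h1
    rw [Int.natAbs_natCast] at h2
    omega
  have hZ : ∀ q : ℕ, q.Prime → M < q → q % 3 = 1 → q ∈ ZP v → q ∈ ZP b := by
    intro q hq hqM hq3 hqv ρ hρ i
    obtain ⟨-, -, -, hdv, -, -⟩ := hSPLT.2 q ρ hq hq3 hρ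
    have hn : ∀ z : ℤ, z ≠ 0 → z.natAbs ≤ M → ¬ ρ.1 ∣ (z : Eis) := fun z hz hzM h1 =>
      hnd q z hqM hz hzM ((hdv z).1 h1)
    exact sym_zero_of hSPP v ρ (fun j => hn _ (hvne j) (hMv j)) (hqv ρ hρ) (g i)
      (hn _ (hbne i) (hMb i)) (hn _ (hU i) (hMU i)) (hn _ (hW i) (hMW i)) (hrel i)
  refine ⟨K + 2 * (2 * ((Finset.range (M + 1)).card : ℝ)), fun σ h1 hσ2 => ?_⟩
  have hB := hK σ h1 hσ2
  have hsub1 : ∀ q : ℕ, q.Prime → M < q → q ∈ {q | q ∈ QYU h n π e w0 c y 1 ∧ q ∈ ZP v} →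
      q ∈ ZP b ∩ SPKU (zN π e y) (fun j => zN π e (u j)) P1 Q1 P1' Q1' κ (Fin.cons w0 c) C Φ :=
    fun q hq hqM hqY => ⟨hZ q hq hqM hqY.1.1 hqY.2, (hC q hq (by omega)).1 hqY.1⟩
  have hsub2 : ∀ q : ℕ, q.Prime → M < q → q ∈ {q | q ∈ QYU h n π e w0 c y 2 ∧ q ∈ ZP v} →
      q ∈ ZP b ∩ SMKU (zN π e y) (fun j => zN π e (u j)) P1 Q1 P1' Q1' κ (Fin.cons w0 c) C Φ :=
    fun q hq hqM hqY => ⟨hZ q hq hqM hqY.1.1 hqY.2, (hC q hq (by omega)).2 hqY.1⟩
  have i1 := CL.sm_le_add _ _ M hsub1 h1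
  have i2 := CL.sm_le_add _ _ M hsub2 h1
  rw [← hs]
  linarith

end Pool.Agent.PTK


end

section

/-!
# PTK_ZPV: the zero pattern does not depend on the basis
-/

set_option autoImplicit false

open NumberField IsDedekindDomain Finset
open scoped nonZeroDivisors Pointwise

namespace Pool.Agent.PTK

open Pool.Agent.Lib_helper18 Pool.Agent.Lib_helper18.Eis Pool.Agent.Lib_helper84.Cub
open Pool.Agent.PT Pool.Agent.PTE Pool.Agent.PT3 Pool.Agent.PTL Pool.Agent.PTN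

/-- PTK_ZPV. -/
theorem ZPV_thm (hSPLT : SPLT) (hSPP : SPP) : Stmt_ZPV := by
  classical
  intro h n m k π p e r f w0 c s τ b X Y P Q P' Q' d v _ _ hPl hHB
  -- the basis `b` in terms of `v`
  choose g U W hU hW hrel using fun i => hHB.2.1 (b i) (hPl.adm i)
  have hvne : ∀ i, v i ≠ 0 := fun i => (hHB.1 i).1.ne
  have hbne : ∀ i, b i ≠ 0 := fun i => (hPl.adm i).1.ne
  obtain ⟨M, hM0, hMv, hMb, hMU, hMW⟩ : ∃ M : ℕ, 3 ≤ M ∧ (∀ i, (v i).natAbs ≤ M) ∧
      (∀ i, (b i).natAbs ≤ M) ∧ (∀ i, (U i).natAbs ≤ M) ∧ ∀ i, (W i).natAbs ≤ M := by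
    refine ⟨3 + ∑ i, (v i).natAbs + ∑ i, ((b i).natAbs + (U i).natAbs + (W i).natAbs), ?_, ?_,
      ?_, ?_, ?_⟩
    · omega
    · intro i
      have := Finset.single_le_sum (f := fun i => (v i).natAbs) (fun i _ => Nat.zero_le _)
        (mem_univ i)
      omega
    all_goals
      intro i
      have := Finset.single_le_sum (f := fun i => (b i).natAbs + (U i).natAbs + (W i).natAbs)
        (fun i _ => Nat.zero_le _) (mem_univ i)
      omega
  have hnd : ∀ (q : ℕ) (z : ℤ), M < q → z ≠ 0 → z.natAbs ≤ M → ¬ (q : ℤ) ∣ z := by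
    intro q z hq hz hzM hd
    have h1 := Int.natAbs_dvd_natAbs.2 hd
    have h2 := Nat.le_of_dvd (Int.natAbs_pos.2 hz) h1
    rw [Int.natAbs_natCast] at h2
    omega
  refine ⟨M, fun q hq hqM hqv ρ hρ i => ?_⟩
  have hq0 : q % 3 ≠ 0 := by
    intro h0
    have h1 : q = 3 := ((Nat.prime_dvd_prime_iff_eq Nat.prime_three hq).1
      (Nat.dvd_of_mod_eq_zero h0)).symm
    omega
  have hq2 : q % 3 ≠ 2 := by
    intro h2
    obtain ⟨π₁, hπ₁⟩ := hSPP.2.2.2.2.1 q hq h2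
    obtain ⟨π₂, hπ₂⟩ := (hSPP.2.2.2.1 ρ).2
    have h3 : Irreducible (q : Eis) := by
      rw [← hπ₁]
      exact π₁.2.1.irreducible
    rcases h3.isUnit_or_isUnit hρ with h4 | h4
    · exact ρ.2.1.not_isUnit h4
    · rw [← hπ₂] at h4
      exact π₂.2.1.not_isUnit h4
  have hq3 : q % 3 = 1 := by omega
  obtain ⟨-, -, -, hdv, -, -⟩ := hSPLT.2 q ρ hq hq3 hρ
  have hn : ∀ z : ℤ, z ≠ 0 → z.natAbs ≤ M → ¬ ρ.1 ∣ (z : Eis) := fun z hz hzM h1 =>
    hnd q z hqM hz hzM ((hdv z).1 h1)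
  exact CTZ.sym_zero_of hSPP v ρ (fun j => hn _ (hvne j) (hMv j)) (hqv ρ hρ) (g i)
    (hn _ (hbne i) (hMb i)) (hn _ (hU i) (hMU i)) (hn _ (hW i) (hMW i)) (hrel i)

end Pool.Agent.PTK


end
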