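import Mathlib
import Pool.Agent.PTDM.C02
import Pool.Agent.PTDM.C09
import Pool.Agent.PTDM.C24
import Pool.Agent.PTDM.C30
import Pool.Agent.PTDM.C45
import Pool.Agent.PTDM.C46
import Pool.Agent.PTKM.C01
import Pool.Agent.PTKM.C02
import Pool.Agent.PTKM.C04

/-! Parts: PTKX.DX1, PTKX.F6R, PTKX.KUM, PTKX.LCI, PTKX.WGR, PTKX.WGU, PTKX.ZL -/

section

/-!
# PTK_DX1: the local terms of a point at a place dividing `f` (hypotheses `HypX`)
-/

set_option autoImplicit false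

namespace Pool.Agent.PTK

open Pool.Agent.Lib_helper18 Pool.Agent.Lib_helper18.Eis Pool.Agent.Lib_helper84.Cub
open Pool.Agent.PT

namespace DX1

open DPA hiding B_ne n0_ne core

lemma B_ne {N : ℕ} {b x p q p' q' : Eis} (HD : HypX N b x p q p' q') {E Q : ℕ} {X Y : Eis}
    (HP : HypP N b x p q p' q' E Q X Y) : (N : Eis) * (Q : Eis) ^ E ≠ 0 := by
  have h1 : (N : Eis) ≠ 0 := by
    have h2 : ((N : ℤ) : Eis) ≠ 0 := DCONST.cast_ne (by have := HD.N0; omega)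
    rwa [Int.cast_natCast] at h2
  have h3 : (Q : Eis) ≠ 0 := by
    have h2 : ((Q : ℤ) : Eis) ≠ 0 := DCONST.cast_ne (by have := HP.hQ.pos; omega)
    rwa [Int.cast_natCast] at h2
  exact mul_ne_zero h1 (pow_ne_zero _ h3)

lemma n0_ne {N : ℕ} {b x p q p' q' : Eis} (HD : HypX N b x p q p' q') {E Q : ℕ} {X Y : Eis}
    (HP : HypP N b x p q p' q' E Q X Y) : X ^ 3 + x * Y ^ 3 ≠ 0 := by
  obtain ⟨c, hc, h⟩ := HP.pt.eq
  intro h0
  rw [h0, mul_zero] at h
  exact mul_ne_zero (B_ne HD HP) (pow_ne_zero _ hc) h.symm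

/-- The local term at a tame place where `x` is a local cube. -/
lemma core (hIF4 : Stmt_IF4) (hLCI : Stmt_LCI) {π : PP} (hs : LSym π.1 (tm π.1) 1) {N : ℕ}
    {b x p q p' q' : Eis} (HD : HypX N b x p q p' q') {E Q : ℕ} {X Y : Eis}
    (HP : HypP N b x p q p' q' E Q X Y) (hL : LCE π.1 x) :
    ∃ N0 : ℕ, ∀ ξ : Eis, π.1 ^ N0 ∣ ξ ^ 3 - x →
      (∀ i, LfE X Y i ξ ≠ 0) ∧
      (∀ a : Eis, a ≠ 0 → tm π.1 a (X ^ 3 + x * Y ^ 3) = tm π.1 a ((N : Eis) * (Q : Eis) ^ E)) ∧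
      SVE (tm π.1) x p (-p') (-q) q' X Y =
        ASE (tm π.1) ((N : Eis) * (Q : Eis) ^ E) p q p' q' ξ +
          tm π.1 (LfE X Y 1 ξ) b - tm π.1 (LfE X Y 2 ξ) b := by
  have hB := B_ne HD HP
  have hn0 := n0_ne HD HP
  obtain ⟨c, hc, hE⟩ := HP.pt.eq
  obtain ⟨N1, H1⟩ := exists_ne hs.prime (b := x) HD.sol.n1
  obtain ⟨N2, H2⟩ := exists_ne hs.prime (b := x) (SolE_n1' HD.sol)
  obtain ⟨N3, H3⟩ := exists_ne hs.prime (b := x) (p := X) (q := Y) hn0
  obtain ⟨N4, H4⟩ := hIF4 π.1 (tm π.1) 1 hs b x p (-p') (-q) q' X Y HD.hb HD.hx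
    (SolE_flip HD.sol) HP.pt.hX HP.pt.hY hn0 HP.dn
  refine ⟨N1 + N2 + N3 + N4, fun ξ hξ => ?_⟩
  have g1 := H1 ξ ((pow_dvd_pow _ (by omega)).trans hξ)
  have g2 := H2 ξ ((pow_dvd_pow _ (by omega)).trans hξ)
  have g3 := H3 ξ ((pow_dvd_pow _ (by omega)).trans hξ)
  have g4 := H4 ξ ((pow_dvd_pow _ (by omega)).trans hξ)
  have hx0 : ∀ a : Eis, a ≠ 0 → tm π.1 x a = 0 := fun a ha =>
    hLCI.2.2 π.1 (tm π.1) 1 x a hs hL HD.hx ha
  have hrel : ∀ a : Eis, a ≠ 0 →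
      tm π.1 (X ^ 3 + x * Y ^ 3) a = tm π.1 ((N : Eis) * (Q : Eis) ^ E) a := by
    intro a ha
    have h1 := s_rel hs HD.hx hn0 hB hc ha hE
    rw [hx0 a ha, zero_add] at h1
    exact h1
  refine ⟨g3, ?_, ?_⟩
  · intro a ha
    rw [hs.skew (X ^ 3 + x * Y ^ 3) a hn0 ha, hs.skew ((N : Eis) * (Q : Eis) ^ E) a hB ha, hrel a ha]
  · rw [g4, neg_neg, neg_neg]
    unfold ASE
    rw [hrel _ (g1 2), hrel _ (g2 1), hrel _ (g1 1), hrel _ (g2 2)]

lemma dvd3_iff (n : ℕ) : 3 ∣ n ↔ (n : ZMod 3) = 0 := (ZMod.natCast_eq_zero_iff n 3).symm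

lemma V_B {π : PP} {f : ℕ} (hπf : π.1 ∣ (f : Eis)) {N : ℕ} {b x p q p' q' : Eis}
    (HD : HypX N b x p q p' q') {E Q : ℕ} {X Y : Eis} (HP : HypP N b x p q p' q' E Q X Y)
    (hQ : Q.Coprime f) : V π.1 ((N : Eis) * (Q : Eis) ^ E) = V π.1 (N : Eis) := by
  have hB := B_ne HD HP
  have hN : (N : Eis) ≠ 0 := left_ne_zero_of_mul hB
  have hQE := right_ne_zero_of_mul hB
  have hQ0 : (Q : Eis) ≠ 0 := by
    have h2 : ((Q : ℤ) : Eis) ≠ 0 := DCONST.cast_ne (by have := HP.hQ.pos; omega)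
    rwa [Int.cast_natCast] at h2
  have h1 := V_cop π.2.1 hπf (Nat.isCoprime_iff_coprime.2 hQ)
  rw [Int.cast_natCast] at h1
  rw [V_mul π.2.1 hN hQE, V_pow π.2.1 hQ0, h1, mul_zero, add_zero]

end DX1

open DPA hiding B_ne n0_ne core in
open _root_.Pool.Agent.PTK.DX1 in
/-- PTK_DX1. -/
theorem DX1_thm (hSTM : STM) (hSPP : SPP) (hIF4 : Stmt_IF4) (hIF4B : Stmt_IF4B)
    (hF6R : Stmt_F6R) (hF7U : Stmt_F7U) (hLFV : Stmt_LFV) (hLCI : Stmt_LCI) : Stmt_DX1 := by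
  intro N b x p q p' q' HD π f hf hπf
  have hs : LSym π.1 (tm π.1) 1 := hSTM π.1 π.2.1 (hSPP.2.2.2.1 π).1
  have hN : (N : Eis) ≠ 0 := by
    have h2 : ((N : ℤ) : Eis) ≠ 0 := DCONST.cast_ne (by have := HD.N0; omega)
    rwa [Int.cast_natCast] at h2
  by_cases hVx : 3 ∣ V π.1 x
  · by_cases hcx : ch π.1 x = 0
    · -- `x` is a local cube
      have hL : LCE π.1 x := (hLCI.1 π x HD.hx).2 ⟨hVx, hcx⟩
      obtain ⟨C, Φ, H⟩ := place_LC hs hN HD.sol.n1 (SolE_n1' HD.sol) hL hf (by rwa [pow_one])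
      classical
      refine ⟨C + (if π.1 ∣ (N : Eis) ∧ ¬ 3 ∣ V π.1 b then (V π.1 b : ZMod 3) * ch π.1 w else 0),
        Φ, ?_⟩
      intro E Q hQ X Y HP
      have hB := B_ne HD HP
      have hn0 := n0_ne HD HP
      have hVB := V_B hπf HD HP hQ
      obtain ⟨N0, H0⟩ := core hIF4 hLCI hs HD HP hL
      -- the terms with `b`
      have hterm : ∃ N1 : ℕ, ∀ ξ : Eis, π.1 ^ N1 ∣ ξ ^ 3 - x →
          tm π.1 (LfE X Y 1 ξ) b - tm π.1 (LfE X Y 2 ξ) b =
            if π.1 ∣ (N : Eis) ∧ ¬ 3 ∣ V π.1 b then (V π.1 b : ZMod 3) * ch π.1 w else 0 := by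
        by_cases hπN : π.1 ∣ (N : Eis)
        · have hVN : (V π.1 ((N : Eis) * (Q : Eis) ^ E) : ZMod 3) ≠ 0 := by
            rw [hVB]
            have h1 := HD.cf π
            have h2 : V π.1 (N : Eis) ≠ 0 := fun h => (V_eq_zero_iff.1 h) hπN
            rw [Ne, ← dvd3_iff]
            omega
          by_cases hVb : 3 ∣ V π.1 b
          · -- `b` is a local cube
            have hcb : ch π.1 b = 0 := by
              have h1 := HP.sb π
              unfold tm at h1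
              rw [(dvd3_iff _).1 hVb, zero_mul, sub_zero] at h1
              exact (mul_eq_zero.1 h1).resolve_left hVN
            have hLb : LCE π.1 b := (hLCI.1 π b HD.hb).2 ⟨hVb, hcb⟩
            refine ⟨N0, fun ξ hξ => ?_⟩
            obtain ⟨hF, -, -⟩ := H0 ξ hξ
            have h0 : ∀ i, tm π.1 (LfE X Y i ξ) b = 0 := by
              intro i
              rw [hs.skew b (LfE X Y i ξ) HD.hb (hF i),
                hLCI.2.2 π.1 (tm π.1) 1 b _ hs hLb HD.hb (hF i), neg_zero]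
            rw [h0, h0, if_neg (by tauto), sub_zero]
          · obtain ⟨N2, H2⟩ := hIF4B π.1 (tm π.1) 1 hs x X Y HD.hx HP.pt.hX HP.pt.hY hn0
            refine ⟨N0 + N2, fun ξ hξ => ?_⟩
            obtain ⟨hF, hrel, -⟩ := H0 ξ ((pow_dvd_pow _ (by omega)).trans hξ)
            have h2 := H2 ξ ((pow_dvd_pow _ (by omega)).trans hξ)
            rw [if_pos ⟨hπN, hVb⟩]
            have hw0 : w ≠ 0 := by
              intro h
              have := congrArg Eis.im h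
              simp at this
            rw [hrel _ (hF 1), hrel _ (hF 2), hrel _ hw0] at h2
            have hw : tm π.1 w ((N : Eis) * (Q : Eis) ^ E) =
                (V π.1 ((N : Eis) * (Q : Eis) ^ E) : ZMod 3) * ch π.1 w := by
              unfold tm
              rw [V_eq_zero (not_dvd_w π.2.1)]
              simp
            rw [hw] at h2
            refine mul_left_cancel₀ hVN ?_
            rw [mul_sub, tm_prop (HP.sb π), tm_prop (HP.sb π), ← mul_sub, h2]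
            ring
        · -- `π` does not divide `N`
          obtain ⟨hπb, hπx⟩ := HD.unr π hπN
          have hVx0 : V π.1 x = 0 := V_eq_zero hπx
          have hVb0 : V π.1 b = 0 := V_eq_zero hπb
          have hVB0 : V π.1 ((N : Eis) * (Q : Eis) ^ E) = 0 := by
            rw [hVB]
            exact V_eq_zero hπN
          obtain ⟨c, hc, hE⟩ := HP.pt.eq
          have hVn : 3 ∣ V π.1 (X ^ 3 + x * Y ^ 3) := by
            have h1 := congrArg (V π.1) hE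
            rw [V_mul π.2.1 HD.hx hn0, V_mul π.2.1 hB (pow_ne_zero _ hc), V_pow π.2.1 hc, hVx0,
              hVB0] at h1
            omega
          obtain ⟨N2, H2⟩ := hLFV π x X Y HD.hx HP.pt.hX HP.pt.hY hn0 hVx hVn
          refine ⟨N2, fun ξ hξ => ?_⟩
          rw [if_neg (by tauto)]
          unfold tm
          rw [H2 ξ hξ, hVb0]
          simp
      obtain ⟨N1, H1⟩ := hterm
      have h3 := H E Q hQ (SVE (tm π.1) x p (-p') (-q) q' X Y -
        (if π.1 ∣ (N : Eis) ∧ ¬ 3 ∣ V π.1 b then (V π.1 b : ZMod 3) * ch π.1 w else 0))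
        (N0 + N1) (fun ξ hξ => by
          obtain ⟨-, -, h4⟩ := H0 ξ ((pow_dvd_pow _ (by omega)).trans hξ)
          rw [h4, ← H1 ξ ((pow_dvd_pow _ (by omega)).trans hξ)]
          ring)
      linear_combination h3
    · -- `x` is not a local cube
      refine ⟨0, 1, ?_⟩
      intro E Q hQ X Y HP
      rw [hF7U π b x p (-p') (-q) q' X Y HD.hb HD.hx (SolE_flip HD.sol) HP.pt.hX HP.pt.hY HP.dn
        hVx hcx]
      simp
  · -- the valuation of `x` is prime to `3`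
    classical
    refine ⟨if (V π.1 (N : Eis) : ZMod 3) = (V π.1 x : ZMod 3) then 0 else - tm π.1 w b, 1, ?_⟩
    intro E Q hQ X Y HP
    have hB := B_ne HD HP
    have hn0 := n0_ne HD HP
    have hVB := V_B hπf HD HP hQ
    obtain ⟨c, hc, hE⟩ := HP.pt.eq
    have h1 := congrArg (V π.1) hE
    rw [V_mul π.2.1 HD.hx hn0, V_mul π.2.1 hB (pow_ne_zero _ hc), V_pow π.2.1 hc, hVB] at h1
    have h2 : (V π.1 x : ZMod 3) + (V π.1 (X ^ 3 + x * Y ^ 3) : ZMod 3) =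
        (V π.1 (N : Eis) : ZMod 3) := by
      have h3 := congrArg (fun n : ℕ => (n : ZMod 3)) h1
      simp only [Nat.cast_add, Nat.cast_mul] at h3
      rw [h3]
      have h4 : ((3 : ℕ) : ZMod 3) = 0 := rfl
      rw [h4, zero_mul, add_zero]
    obtain ⟨k1, k2⟩ := hF6R π b x p (-p') (-q) q' X Y HD.hb HD.hx (SolE_flip HD.sol) HP.pt.hX
      HP.pt.hY HP.dn hVx
    by_cases hv : (V π.1 (N : Eis) : ZMod 3) = (V π.1 x : ZMod 3)
    · rw [if_pos hv, k1 ((dvd3_iff _).2 (by linear_combination h2 + hv))]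
      simp
    · rw [if_neg hv, k2 (fun h => hv (by
        rw [dvd3_iff] at h
        rw [h] at h2
        linear_combination - h2))]
      simp

end Pool.Agent.PTK


end

section

/-!
# PTK_F6R: the local term of a point at a tame place where `x` has valuation prime to `3`
-/

set_option autoImplicit false

namespace Pool.Agent.PTK

open Pool.Agent.Lib_helper18 Pool.Agent.Lib_helper18.Eis Pool.Agent.Lib_helper84.Cub
open Pool.Agent.PT

namespace F6R

open Pool.Agent.PT.F6R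

variable {π : Eis} {s : Eis → Eis → ZMod 3}

/-- `v ^ 3` dominates in `v ^ 3 - x u ^ 3`. -/
def DAE (π : Eis) (x u v : Eis) : Prop :=
  v ≠ 0 ∧ (u = 0 ∨ 3 * V π v < V π x + 3 * V π u)

/-- `x u ^ 3` dominates in `v ^ 3 - x u ^ 3`. -/
def DBE (π : Eis) (x u v : Eis) : Prop :=
  u ≠ 0 ∧ (v = 0 ∨ V π x + 3 * V π u < 3 * V π v)

theorem cases_uvE {x u v : Eis} (h3 : ¬ 3 ∣ V π x) (huv : ¬ (u = 0 ∧ v = 0)) :
    DAE π x u v ∨ DBE π x u v := by
  by_cases hu : u = 0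
  · left
    exact ⟨fun hv => huv ⟨hu, hv⟩, Or.inl hu⟩
  · by_cases hv : v = 0
    · right
      exact ⟨hu, Or.inl hv⟩
    · rcases lt_trichotomy (3 * V π v) (V π x + 3 * V π u) with h | h | h
      · left
        exact ⟨hv, Or.inr h⟩
      · exfalso
        apply h3
        omega
      · right
        exact ⟨hu, Or.inr h⟩

theorem V_xuE (hπ : Prime π) {x u : Eis} (hx : x ≠ 0) (hu : u ≠ 0) :
    V π (x * u ^ 3) = V π x + 3 * V π u := by
  rw [V_mul hπ hx (pow_ne_zero _ hu), V_pow hπ hu]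

/-- the symbol when `v ^ 3` dominates -/
theorem sym_DAE (L : LSym π s 1) {x u v : Eis} (hx : x ≠ 0) (h : DAE π x u v) {D : Eis}
    (hD : D ≠ 0) (hM : v ^ 3 - x * u ^ 3 ≠ 0) : s D (v ^ 3 - x * u ^ 3) = 0 := by
  have h1 : v ^ 3 - x * u ^ 3 = v ^ 3 + -(x * u ^ 3) := by ring
  have hv := h.1
  rw [L.skew _ _ hM hD, h1, dom L (pow_ne_zero _ hv) hD, cube_left L hv hD, neg_zero]
  rcases h.2 with rfl | h2
  · left
    ring
  · by_cases hu : u = 0
    · left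
      rw [hu]
      ring
    · right
      rw [V_neg, V_xuE L.prime hx hu, V_pow L.prime hv]
      exact h2

/-- the symbol when `x u ^ 3` dominates -/
theorem sym_DBE (L : LSym π s 1) {x u v : Eis} (hx : x ≠ 0) (h : DBE π x u v) {D : Eis}
    (hD : D ≠ 0) (hM : v ^ 3 - x * u ^ 3 ≠ 0) :
    s D (v ^ 3 - x * u ^ 3) = s D x := by
  have h1 : v ^ 3 - x * u ^ 3 = -(x * u ^ 3) + v ^ 3 := by ring
  have hu := h.1
  have hxu : x * u ^ 3 ≠ 0 := mul_ne_zero hx (pow_ne_zero _ hu)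
  rw [L.skew _ _ hM hD, h1, dom L (neg_ne_zero.mpr hxu) hD, neg_left L hxu hD,
    L.mul _ _ _ hx (pow_ne_zero _ hu) hD, cube_left L hu hD, add_zero, ← L.skew _ _ hx hD]
  rcases h.2 with hv | h2
  · left
    rw [hv]
    ring
  · by_cases hv : v = 0
    · left
      rw [hv]
      ring
    · right
      rw [V_neg, V_xuE L.prime hx h.1, V_pow L.prime hv]
      exact h2

/-- one half of `SVE` -/
def halfE (s : Eis → Eis → ZMod 3) (X Y u v M n : Eis) : ZMod 3 :=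
  s (DfE X Y u v 1) M - s (DfE X Y u v 2) M - s (DfE X Y u v 1) n + s (DfE X Y u v 2) n

/-- Case A: `X ^ 3` dominates in `n₀`. -/
theorem half_caseAE (L : LSym π s 1) {x X Y u v M : Eis} (hx : x ≠ 0) (hX : X ≠ 0) (hY : Y ≠ 0)
    (h3 : ¬ 3 ∣ V π x) (hM : v ^ 3 - x * u ^ 3 ≠ 0) (hD1 : DfE X Y u v 1 ≠ 0)
    (hD2 : DfE X Y u v 2 ≠ 0)
    (hMs : M = v ^ 3 - x * u ^ 3 ∨ M = -(v ^ 3 - x * u ^ 3))
    (hA : 3 * V π X < V π x + 3 * V π Y)
    (hn : X ^ 3 + x * Y ^ 3 ≠ 0) : halfE s X Y u v M (X ^ 3 + x * Y ^ 3) = 0 := by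
  have huv : ¬ (u = 0 ∧ v = 0) := by
    rintro ⟨rfl, rfl⟩
    apply hM
    ring
  have hMM : ∀ D : Eis, D ≠ 0 → s D M = s D (v ^ 3 - x * u ^ 3) := by
    intro D hD
    rcases hMs with rfl | rfl
    · rfl
    · exact neg_right L hM hD
  have hn0 : ∀ D : Eis, D ≠ 0 → s D (X ^ 3 + x * Y ^ 3) = 0 := by
    intro D hD
    rw [L.skew _ _ hn hD, dom L (pow_ne_zero _ hX) hD, cube_left L hX hD, neg_zero]
    right
    rw [V_pow L.prime hX, V_xuE L.prime hx hY]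
    exact hA
  unfold halfE
  rw [hn0 _ hD1, hn0 _ hD2, hMM _ hD1, hMM _ hD2]
  rcases cases_uvE h3 huv with h | h
  · rw [sym_DAE L hx h hD1 hM, sym_DAE L hx h hD2 hM]
    ring
  · rw [sym_DBE L hx h hD1 hM, sym_DBE L hx h hD2 hM]
    have hu := h.1
    have hXu : X * u ≠ 0 := mul_ne_zero hX hu
    have hs : ∀ i : ℕ, s (DfE X Y u v i) x = s (X * u) x := by
      intro i
      unfold DfE
      apply dom L hXu hx
      rcases h.2 with hv | h2
      · left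
        rw [hv]
        ring
      · by_cases hv : v = 0
        · left
          rw [hv]
          ring
        · right
          rw [mul_assoc, V_w L.prime i (mul_ne_zero hv hY),
            V_mul L.prime hX hu, V_mul L.prime hv hY]
          omega
    rw [hs 1, hs 2]
    ring

/-- Case B: `x Y ^ 3` dominates in `n₀`. -/
theorem half_caseBE (L : LSym π s 1) {x X Y u v M : Eis} (hx : x ≠ 0) (hX : X ≠ 0) (hY : Y ≠ 0)
    (hM : v ^ 3 - x * u ^ 3 ≠ 0) (hD1 : DfE X Y u v 1 ≠ 0) (hD2 : DfE X Y u v 2 ≠ 0)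
    (hMs : M = v ^ 3 - x * u ^ 3 ∨ M = -(v ^ 3 - x * u ^ 3))
    (hB : V π x + 3 * V π Y < 3 * V π X)
    (hn : X ^ 3 + x * Y ^ 3 ≠ 0) :
    (DAE π x u v → halfE s X Y u v M (X ^ 3 + x * Y ^ 3) = s w x) ∧
    (DBE π x u v → halfE s X Y u v M (X ^ 3 + x * Y ^ 3) = 0) := by
  have hMM : ∀ D : Eis, D ≠ 0 → s D M = s D (v ^ 3 - x * u ^ 3) := by
    intro D hD
    rcases hMs with rfl | rfl
    · rfl
    · exact neg_right L hM hD
  have hn0 : ∀ D : Eis, D ≠ 0 → s D (X ^ 3 + x * Y ^ 3) = s D x := by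
    intro D hD
    have hxY : x * Y ^ 3 ≠ 0 := mul_ne_zero hx (pow_ne_zero _ hY)
    have e : X ^ 3 + x * Y ^ 3 = x * Y ^ 3 + X ^ 3 := by ring
    rw [L.skew _ _ hn hD, e, dom L hxY hD, L.mul _ _ _ hx (pow_ne_zero _ hY) hD,
      cube_left L hY hD, add_zero, ← L.skew _ _ hx hD]
    right
    rw [V_pow L.prime hX, V_xuE L.prime hx hY]
    exact hB
  unfold halfE
  rw [hn0 _ hD1, hn0 _ hD2, hMM _ hD1, hMM _ hD2]
  constructor
  · intro h
    rw [sym_DAE L hx h hD1 hM, sym_DAE L hx h hD2 hM]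
    have hv := h.1
    have hw : ∀ i : ℕ, (w : Eis) ^ i ≠ 0 := fun i => pow_ne_zero _ w_ne
    have hs : ∀ i : ℕ, s (DfE X Y u v i) x = s (w ^ i) x + s v x + s Y x := by
      intro i
      have h1 : DfE X Y u v i = w ^ i * v * Y + X * u := by
        unfold DfE
        ring
      rw [h1, dom L (mul_ne_zero (mul_ne_zero (hw i) hv) hY) hx,
        L.mul _ _ _ (mul_ne_zero (hw i) hv) hY hx, L.mul _ _ _ (hw i) hv hx]
      rcases h.2 with hu | h2
      · left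
        rw [hu]
        ring
      · by_cases hu : u = 0
        · left
          rw [hu]
          ring
        · right
          rw [mul_assoc, V_w L.prime i (mul_ne_zero hv hY),
            V_mul L.prime hX hu, V_mul L.prime hv hY]
          omega
    have hw1 : s ((w : Eis) ^ 1) x = s w x := by rw [pow_one]
    have hw2 : s ((w : Eis) ^ 2) x = s w x + s w x := by
      rw [pow_two, L.mul _ _ _ w_ne w_ne hx]
    rw [hs 1, hs 2, hw1, hw2]
    ring
  · intro h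
    rw [sym_DBE L hx h hD1 hM, sym_DBE L hx h hD2 hM]
    ring

end F6R

open Pool.Agent.PT.F6R _root_.Pool.Agent.PTK.F6R in
theorem F6R_thm (hSTM : STM) : Stmt_F6R := by
  intro π b x p q p' q' X Y hb hx hSol hX hY hD h3
  have hSPPp : Prime π.1 := π.2.1
  have hπ3 : ¬ π.1 ∣ 3 := not_dvd_three π
  have L : LSym π.1 (tm π.1) 1 := hSTM π.1 hSPPp hπ3
  set s := tm π.1 with hs
  have hN1 := hSol.n2
  have hbN : b * (x * q' ^ 3 - q ^ 3) = p ^ 3 - x * p' ^ 3 := by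
    have h1 := hSol.eq
    linear_combination -h1
  have hN2 : x * q' ^ 3 - q ^ 3 ≠ 0 := by
    intro h
    apply hN1
    rw [← hbN, h, mul_zero]
  have hN2' : q ^ 3 - x * q' ^ 3 ≠ 0 := by
    intro h
    apply hN2
    linear_combination -h
  have hn : X ^ 3 + x * Y ^ 3 ≠ 0 := by
    intro h
    apply h3
    have h1 : X ^ 3 = -(x * Y ^ 3) := by
      linear_combination h
    have h2 := congrArg (V π.1) h1
    rw [V_neg, V_pow L.prime hX, V_xuE L.prime hx hY] at h2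
    omega
  have hSV : SVE s x p q p' q' X Y =
      halfE s X Y p' p (p ^ 3 - x * p' ^ 3) (X ^ 3 + x * Y ^ 3) -
        halfE s X Y q' q (x * q' ^ 3 - q ^ 3) (X ^ 3 + x * Y ^ 3) := rfl
  have hxY : x * Y ^ 3 ≠ 0 := mul_ne_zero hx (pow_ne_zero _ hY)
  rcases lt_trichotomy (3 * V π.1 X) (V π.1 x + 3 * V π.1 Y) with hA | hE | hB
  · -- case A
    have hV : V π.1 (X ^ 3 + x * Y ^ 3) = 3 * V π.1 X := by
      rw [V_dom L (pow_ne_zero _ hX), V_pow L.prime hX]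
      right
      rw [V_pow L.prime hX, V_xuE L.prime hx hY]
      exact hA
    refine ⟨fun _ => ?_, fun h => absurd (by rw [hV]; exact dvd_mul_right 3 _) h⟩
    rw [hSV, half_caseAE L hx hX hY h3 hN1 hD.d1 hD.d2 (Or.inl rfl) hA hn,
      half_caseAE L hx hX hY h3 hN2' hD.d3 hD.d4 (Or.inr (by ring)) hA hn, sub_zero]
  · exfalso
    apply h3
    omega
  · -- case B
    have hV : V π.1 (X ^ 3 + x * Y ^ 3) = V π.1 x + 3 * V π.1 Y := by
      have e : X ^ 3 + x * Y ^ 3 = x * Y ^ 3 + X ^ 3 := by ring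
      rw [e, V_dom L hxY, V_xuE L.prime hx hY]
      right
      rw [V_pow L.prime hX, V_xuE L.prime hx hY]
      exact hB
    refine ⟨fun h => absurd ?_ h3, fun _ => ?_⟩
    · rw [hV] at h
      exact (Nat.dvd_add_left (dvd_mul_right 3 _)).mp h
    · have huv1 : ¬ (p' = 0 ∧ p = 0) := by
        rintro ⟨rfl, rfl⟩
        apply hN1
        ring
      have huv2 : ¬ (q' = 0 ∧ q = 0) := by
        rintro ⟨rfl, rfl⟩
        apply hN2
        ring
      obtain ⟨a1, a2⟩ := half_caseBE L hx hX hY hN1 hD.d1 hD.d2 (Or.inl rfl) hB hn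
      obtain ⟨b1, b2⟩ := half_caseBE L hx hX hY hN2' hD.d3 hD.d4
        (M := x * q' ^ 3 - q ^ 3) (Or.inr (by ring)) hB hn
      have hwb : s w b = s w (p ^ 3 - x * p' ^ 3) - s w (q ^ 3 - x * q' ^ 3) := by
        have h1 : p ^ 3 - x * p' ^ 3 = -(b * (q ^ 3 - x * q' ^ 3)) := by
          rw [← hbN]
          ring
        rw [h1, neg_right L (mul_ne_zero hb hN2') w_ne,
          L.skew _ _ (mul_ne_zero hb hN2') w_ne, L.mul _ _ _ hb hN2' w_ne,
          L.skew w _ w_ne hb, L.skew w _ w_ne hN2']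
        ring
      rw [hSV, hwb]
      rcases cases_uvE h3 huv1 with h | h
      · rcases cases_uvE h3 huv2 with h' | h'
        · rw [a1 h, b1 h', sym_DAE L hx h w_ne hN1, sym_DAE L hx h' w_ne hN2']
          ring
        · rw [a1 h, b2 h', sym_DAE L hx h w_ne hN1, sym_DBE L hx h' w_ne hN2']
          ring
      · rcases cases_uvE h3 huv2 with h' | h'
        · rw [a2 h, b1 h', sym_DBE L hx h w_ne hN1, sym_DAE L hx h' w_ne hN2']
          ring
        · rw [a2 h, b2 h', sym_DBE L hx h w_ne hN1, sym_DBE L hx h' w_ne hN2']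
          ring

end Pool.Agent.PTK


end

section

/-!
# PTK_KUM: from tails to averages, for every monotone function
-/

set_option autoImplicit false

namespace Pool.Agent.PTK

open Pool.Agent.PT Pool.Agent.PTL Pool.Agent.PTN

theorem KUM_thm (hDOMG : Stmt_DOMG) (hLAW : Stmt_LAW) : Stmt_KUM := by
  intro S R s M x hx hR hT F hF h0
  obtain ⟨K, hK⟩ := hDOMG S R (fun t => x * LI s t) M s F hR hT hF h0
  refine ⟨K, fun σ h1 h2 T => ?_⟩
  refine (hK σ h1 h2 T).trans (le_of_eq ?_)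
  have e := hLAW.1 s 0 F
  simp only [Nat.sub_zero, zero_add] at e
  rw [← e]
  have : F 0 * (x * LI s 0) + ∑ t ∈ Finset.range s, (F (t + 1) - F t) * (x * LI s (t + 1)) =
      (F 0 * LI s 0 + ∑ t ∈ Finset.range s, (F (t + 1) - F t) * LI s (t + 1)) * x := by
    rw [add_mul, Finset.sum_mul]
    congr 1
    · ring
    · exact Finset.sum_congr rfl fun t _ => by ring
  rw [this]

end Pool.Agent.PTK


end

section

/-!
# LCI: local cubes in `Z[w]`
-/

set_option autoImplicit false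

namespace Pool.Agent.PTK

open Pool.Agent.Lib_helper18 Pool.Agent.Lib_helper18.Eis Pool.Agent.Lib_helper84.Cub
open Pool.Agent.PT

namespace LCI

open Pool.Agent.PT.LCI (up_eq up_spec ch_mul ch_unit ch_pow three_mul_zmod cont root_ne_zero)

/-- In a finite field with `3 K + 1` elements the elements with `x ^ K = 1` are cubes. -/
theorem fin_cube {F : Type} [Field F] [Finite F] {K : ℕ} (hK : Nat.card F = 3 * K + 1) {x : F}
    (hx : x ≠ 0) (h : x ^ K = 1) : ∃ y : F, y ^ 3 = x := by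
  obtain ⟨g, hg⟩ := IsCyclic.exists_generator (α := Fˣ)
  obtain ⟨u, hu⟩ : ∃ u : Fˣ, (u : F) = x := ⟨Units.mk0 x hx, rfl⟩
  obtain ⟨k, hk⟩ := (Subgroup.mem_zpowers_iff).1 (hg u)
  have hu1 : u ^ K = 1 := by
    apply Units.ext
    rw [Units.val_pow_eq_pow_val, hu, h, Units.val_one]
  have ho : orderOf g = 3 * K := by
    rw [orderOf_eq_card_of_forall_mem_zpowers hg, Nat.card_units, hK, Nat.add_sub_cancel]
  have hK0 : K ≠ 0 := by
    rintro rfl
    have h1 : 1 < Nat.card F := Finite.one_lt_card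
    omega
  have hd : ((3 * K : ℕ) : ℤ) ∣ k * (K : ℤ) := by
    rw [← ho]
    apply orderOf_dvd_iff_zpow_eq_one.2
    rw [zpow_mul, hk, zpow_natCast]
    exact hu1
  have h3k : (3 : ℤ) ∣ k := by
    obtain ⟨c, hc⟩ := hd
    have h5 : (K : ℤ) ≠ 0 := by exact_mod_cast hK0
    refine ⟨c, ?_⟩
    apply mul_right_cancel₀ h5
    push_cast at hc
    linear_combination hc
  obtain ⟨j, hj⟩ := h3k
  refine ⟨((g ^ j : Fˣ) : F), ?_⟩
  rw [← hu, ← hk, hj, ← Units.val_pow_eq_pow_val]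
  congr 1
  rw [← zpow_natCast, ← zpow_mul]
  congr 1
  push_cast
  ring

/-- The integer residue. -/
theorem val_dvd (M : ℕ) [NeZero M] (a : ℤ) : (M : ℤ) ∣ a - ((a : ZMod M).val : ℤ) := by
  rw [← ZMod.intCast_zmod_eq_zero_iff_dvd]
  push_cast
  rw [ZMod.natCast_val, ZMod.cast_id', id, sub_self]

theorem aux1 (x : Eis) (a b : ℤ) : ((a : Eis) + (b : Eis) * w) - x =
    -(((x.re - a : ℤ) : Eis) + ((x.im - b : ℤ) : Eis) * w) := by
  conv_lhs => rw [eq_re_add_im x]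
  push_cast
  ring

theorem aux2 (a b a' b' : ℤ) : ((a : Eis) + (b : Eis) * w) - ((a' : Eis) + (b' : Eis) * w) =
    (⟨a - a', b - b'⟩ : Eis) := by
  ext
  · simp
  · simp

/-- The residue field is finite, with `N π` elements. -/
theorem card_res (hSPP : SPP) (π : PP) (h3 : ¬ π.1 ∣ 3) (I : Ideal Eis)
    (hI : I = Ideal.span {π.1}) [I.IsMaximal] : Finite (Eis ⧸ I) ∧ Nat.card (Eis ⧸ I) = N π.1 := by
  have hπ := π.2.1
  have hmk : ∀ a : Eis, Ideal.Quotient.mk I a = 0 ↔ π.1 ∣ a := by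
    intro a
    rw [Ideal.Quotient.eq_zero_iff_mem, hI, Ideal.mem_span_singleton]
  let _ : Field (Eis ⧸ I) := Ideal.Quotient.field I
  have hM0 : N π.1 ≠ 0 := by
    intro h
    have h1 := three_mul_div hπ h3
    omega
  have : NeZero (N π.1) := ⟨hM0⟩
  have hMd : π.1 ∣ (((N π.1 : ℕ) : ℤ) : Eis) := by
    rw [N_cast, ← mul_conj]
    exact dvd_mul_right _ _
  -- finiteness
  have hfin : Finite (Eis ⧸ I) := by
    refine Finite.of_surjective (fun z : ZMod (N π.1) × ZMod (N π.1) =>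
      Ideal.Quotient.mk I (((z.1.val : ℤ) : Eis) + ((z.2.val : ℤ) : Eis) * w)) ?_
    intro y
    obtain ⟨x, rfl⟩ := Ideal.Quotient.mk_surjective y
    refine ⟨((x.re : ZMod (N π.1)), (x.im : ZMod (N π.1))), ?_⟩
    rw [← sub_eq_zero, ← map_sub, hmk]
    rw [aux1, dvd_neg]
    refine dvd_add ?_ (Dvd.dvd.mul_right ?_ _)
    · exact hMd.trans (intCast_dvd_intCast.2 (val_dvd _ _))
    · exact hMd.trans (intCast_dvd_intCast.2 (val_dvd _ _))
  refine ⟨hfin, le_antisymm ?_ ?_⟩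
  · -- at most `N π` elements
    obtain ⟨g, hg⟩ := IsCyclic.exists_generator (α := (Eis ⧸ I)ˣ)
    have ho : orderOf g = Nat.card (Eis ⧸ I) - 1 := by
      rw [orderOf_eq_card_of_forall_mem_zpowers hg, Nat.card_units]
    obtain ⟨x, hx⟩ := Ideal.Quotient.mk_surjective ((g : (Eis ⧸ I)ˣ) : Eis ⧸ I)
    have h1 : (Ideal.Quotient.mk I x) ^ N π.1 = Ideal.Quotient.mk I x := by
      rw [← sub_eq_zero, ← map_pow, ← map_sub, hmk]
      exact dvd_pow_sub hπ h3
    have h2 : g ^ (N π.1 - 1) = 1 := by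
      have h4 : g ^ (N π.1 - 1) * g = 1 * g := by
        rw [← pow_succ, Nat.sub_add_cancel (Nat.one_le_iff_ne_zero.2 hM0), one_mul]
        apply Units.ext
        rw [Units.val_pow_eq_pow_val, ← hx, h1]
      exact mul_right_cancel h4
    have h5 := orderOf_dvd_of_pow_eq_one h2
    rw [ho] at h5
    have h6 : 0 < N π.1 - 1 := by
      have h7 := three_mul_div hπ h3
      have h8 : N π.1 ≠ 1 := by
        intro h9
        apply hπ.not_isUnit
        rw [isUnit_iff_norm, ← N_cast, h9]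
        rfl
      omega
    have h7 := Nat.le_of_dvd h6 h5
    omega
  · -- at least `N π` elements
    obtain ⟨p, hp, hc⟩ := hSPP.2.2.2.2.2 π
    have : NeZero p := ⟨hp.ne_zero⟩
    have hpi : Prime (p : ℤ) := Nat.prime_iff_prime_int.1 hp
    have hval : ∀ a b : ZMod p, (p : ℤ) ∣ (a.val : ℤ) - (b.val : ℤ) → a = b := by
      intro a b h
      have h1 := (ZMod.intCast_zmod_eq_zero_iff_dvd _ p).2 h
      push_cast at h1
      rw [ZMod.natCast_val, ZMod.natCast_val, ZMod.cast_id', id, id] at h1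
      exact sub_eq_zero.1 h1
    rcases hc with ⟨-, h2⟩ | ⟨-, h2, -, -⟩
    · have hN : N π.1 = Nat.card (ZMod p × ZMod p) := by
        rw [Nat.card_prod, Nat.card_zmod]
        have h5 : ((N π.1 : ℕ) : ℤ) = ((p * p : ℕ) : ℤ) := by
          rw [N_cast, h2, norm_def]
          push_cast
          simp only [natCast_re, natCast_im]
          ring
        exact_mod_cast h5
      rw [hN]
      refine Nat.card_le_card_of_injective (fun z : ZMod p × ZMod p =>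
        Ideal.Quotient.mk I (((z.1.val : ℤ) : Eis) + ((z.2.val : ℤ) : Eis) * w)) ?_
      intro z z' hz
      have h5 := sub_eq_zero.2 hz
      simp only [] at h5
      rw [← map_sub, hmk, h2] at h5
      rw [aux2, ← Int.cast_natCast, intCast_dvd_iff] at h5
      exact Prod.ext (hval _ _ h5.1) (hval _ _ h5.2)
    · have hN : N π.1 = Nat.card (ZMod p) := by
        rw [Nat.card_zmod]
        have h5 : ((N π.1 : ℕ) : ℤ) = (p : ℤ) := by rw [N_cast, h2]
        exact_mod_cast h5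
      rw [hN]
      refine Nat.card_le_card_of_injective (fun z : ZMod p =>
        Ideal.Quotient.mk I ((z.val : ℤ) : Eis)) ?_
      intro z z' hz
      have h5 := sub_eq_zero.2 hz
      simp only [] at h5
      rw [← map_sub, hmk, ← Int.cast_sub] at h5
      apply hval
      obtain ⟨y, hy⟩ := h5
      have h6 := congrArg Eis.norm hy
      rw [Eis.norm_mul, Pool.Agent.PT.LCI.norm_int, h2] at h6
      exact hpi.dvd_of_dvd_pow ⟨_, h6⟩

/-- An element prime to `π` with trivial symbol is a cube modulo `π`. -/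
theorem cube_root (hSPP : SPP) (π : PP) {c : Eis} (hc : ¬ π.1 ∣ c) (hs : sym π.1 c = 0) :
    ∃ r : Eis, π.1 ∣ r ^ 3 - c := by
  have hπ := π.2.1
  have h3 := (hSPP.2.2.2.1 π).1
  have hmax : (Ideal.span {π.1}).IsMaximal := PrincipalIdealRing.isMaximal_of_irreducible
    hπ.irreducible
  generalize hI : Ideal.span {π.1} = I at hmax
  obtain ⟨hfin, hcard⟩ := card_res hSPP π h3 I hI.symm
  have hmk : ∀ a : Eis, Ideal.Quotient.mk I a = 0 ↔ π.1 ∣ a := by
    intro a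
    rw [Ideal.Quotient.eq_zero_iff_mem, ← hI, Ideal.mem_span_singleton]
  let _ : Field (Eis ⧸ I) := Ideal.Quotient.field I
  have h4 := sym_spec hπ h3 hc
  rw [hs, ZMod.val_zero, pow_zero] at h4
  obtain ⟨y, hy⟩ := fin_cube (K := (N π.1 - 1) / 3) (x := Ideal.Quotient.mk I c)
    (by rw [hcard, three_mul_div hπ h3]) (fun h => hc ((hmk c).1 h))
    (by rw [← map_pow, ← sub_eq_zero, ← map_one (Ideal.Quotient.mk I), ← map_sub, hmk]
        exact h4)
  obtain ⟨r, rfl⟩ := Ideal.Quotient.mk_surjective y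
  refine ⟨r, ?_⟩
  rw [← hmk, map_sub, map_pow, hy, sub_self]

theorem first (hSPP : SPP) (π : PP) (b : Eis) (hb0 : b ≠ 0) :
    LCE π.1 b ↔ 3 ∣ V π.1 b ∧ ch π.1 b = 0 := by
  have hπ := π.2.1
  have h3 := (hSPP.2.2.2.1 π).1
  constructor
  · intro h
    obtain ⟨r, hr⟩ := h (V π.1 b + 1)
    have hr0 := root_ne_zero hπ hb0 le_rfl hr
    obtain ⟨h1, h2⟩ := cont hπ hb0 hr
    rw [V_pow hπ hr0] at h1
    rw [ch_pow hπ h3 hr0, three_mul_zmod (dvd_refl 3), zero_mul] at h2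
    exact ⟨⟨_, h1.symm⟩, h2.symm⟩
  · rintro ⟨⟨j, hj⟩, h2⟩ M
    obtain ⟨h4, h5⟩ := up_spec hπ hb0
    obtain ⟨r0, hr0⟩ := cube_root hSPP π h5 h2
    obtain ⟨τ, -, hτ⟩ := hensel hπ h3 h5 hr0 M
    refine ⟨π.1 ^ j * τ, ?_⟩
    have e : (π.1 ^ j * τ) ^ 3 - b = π.1 ^ V π.1 b * (τ ^ 3 - up π.1 b) := by
      conv_lhs => rw [h4]
      rw [hj]
      ring
    rw [e]
    exact ((pow_dvd_pow π.1 (Nat.le_succ M)).trans hτ).mul_left _

/-- Cubes at `λ`: elements `1` modulo `λ⁴`. -/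
theorem lam_cube {b : Eis} (hb : lam ^ 4 ∣ b - 1) : ∀ M : ℕ, ∃ r : Eis, lam ∣ r - 1 ∧
    lam ^ (M + 4) ∣ r ^ 3 - b := by
  intro M
  induction M with
  | zero =>
    refine ⟨1, by rw [sub_self]; exact dvd_zero _, ?_⟩
    rw [zero_add, one_pow, ← dvd_neg, neg_sub]
    exact hb
  | succ M ih =>
    obtain ⟨r, ⟨k, hk⟩, c, hc⟩ := ih
    have h3 : (3 : Eis) = lam ^ 2 * (-w ^ 2) := lam_two
    have hw := w_cube
    refine ⟨r + lam ^ (M + 2) * (w * c), ⟨k + lam ^ (M + 1) * (w * c), ?_⟩,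
      -c * k * (r + 1) - w ^ 2 * lam ^ (M + 1) * r * (w * c) ^ 2 +
        lam ^ (2 * M + 1) * (w * c) ^ 3, ?_⟩
    · rw [pow_succ lam (M + 1)]
      linear_combination hk
    · have e1 : lam ^ (M + 1 + 4) = lam ^ M * lam ^ 5 := by rw [← pow_add]
      have e2 : lam ^ (M + 4) = lam ^ M * lam ^ 4 := by rw [← pow_add]
      have e3 : lam ^ (M + 2) = lam ^ M * lam ^ 2 := by rw [← pow_add]
      have e4 : lam ^ (M + 1) = lam ^ M * lam := by rw [pow_succ]
      have e5 : lam ^ (2 * M + 1) = lam ^ M * lam ^ M * lam := by rw [two_mul, pow_succ, pow_add]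
      rw [e2] at hc
      rw [e1, e3, e4, e5]
      generalize lam ^ M = P at *
      linear_combination hc + (P * lam ^ 2 * r ^ 2 * (w * c) + P ^ 2 * lam ^ 4 * r * (w * c) ^ 2) * h3
        - P * lam ^ 4 * r ^ 2 * c * hw - P * lam ^ 4 * c * (r + 1) * hk

theorem second (b a c : Eis) (ha : ¬ lam ∣ a) (hc : ¬ lam ∣ c) (h : lam ^ 4 ∣ b * c ^ 3 - a ^ 3) :
    LCE lam b := by
  obtain ⟨C, hC, y, hy⟩ := cube_mod_nine ha
  obtain ⟨C', hC', y', hy'⟩ := cube_mod_nine hc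
  have h9 : (9 : Eis) = w * lam ^ 4 := by decide
  have hCC : (C' : Eis) * (C' : Eis) = 1 := by
    rcases hC' with rfl | rfl <;> simp
  have hC2 : (C : Eis) * (C : Eis) = 1 := by
    rcases hC with rfl | rfl <;> simp
  -- `b` is congruent to `C C'`
  have h1 : lam ^ 4 ∣ b - (C : Eis) * C' := by
    obtain ⟨k, hk⟩ := h
    rw [hy, hy'] at hk
    refine ⟨k * C' - b * w * y' * C' + w * y * C', ?_⟩
    linear_combination (C' : Eis) * hk - b * hCC - (b * y' * C' - y * C') * h9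
  -- a cube root of `C C' b`
  have h2 : lam ^ 4 ∣ (C : Eis) * C' * b - 1 := by
    have e : (C : Eis) * C' * b - 1 = (C : Eis) * C' * (b - (C : Eis) * C') := by
      linear_combination (C' : Eis) * C' * hC2 + hCC
    rw [e]
    exact h1.mul_left _
  intro M
  obtain ⟨r, -, hr⟩ := lam_cube h2 M
  refine ⟨(C : Eis) * C' * r, ?_⟩
  have e : ((C : Eis) * C' * r) ^ 3 - b = (C : Eis) * C' * (r ^ 3 - (C : Eis) * C' * b) := by
    have h4 : ((C : Eis) * C') ^ 2 = 1 := by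
      rw [mul_pow, pow_two, pow_two, hC2, hCC, one_mul]
    linear_combination ((C : Eis) * C' * r ^ 3 + b) * h4
  rw [e]
  exact ((pow_dvd_pow lam (by omega)).trans hr).mul_left _

theorem third (π : Eis) (s : Eis → Eis → ZMod 3) (e : ℕ) (b a : Eis) (hs : LSym π s e)
    (h : LCE π b) (hb0 : b ≠ 0) (ha : a ≠ 0) : s b a = 0 := by
  obtain ⟨r, hr⟩ := h (V π b + e)
  have hr0 := root_ne_zero hs.prime hb0 hs.pos hr
  have h1 := hs.cont b (r ^ 3) a hb0 ha hr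
  rw [← h1]
  have h2 := hs.mul r r a hr0 hr0 ha
  have h3 := hs.mul (r * r) r a (mul_ne_zero hr0 hr0) hr0 ha
  have e3 : r ^ 3 = r * r * r := by ring
  rw [e3, h3, h2]
  have h4 : ∀ x : ZMod 3, x + x + x = 0 := by decide
  exact h4 _

end LCI

theorem LCI_thm (hSPP : SPP) : Stmt_LCI :=
  ⟨LCI.first hSPP, LCI.second, fun π s e b a hs h hb ha => LCI.third π s e b a hs h hb ha⟩

end Pool.Agent.PTK


end

section

/-!
# The average rank of prime twists: the number of the vectors is a power of `3` (module WGR)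
-/

set_option autoImplicit false

open NumberField IsDedekindDomain Finset
open scoped nonZeroDivisors Pointwise

namespace Pool.Agent.PTK

open Pool.Agent.Lib_helper18 Pool.Agent.Lib_helper18.Eis Pool.Agent.Lib_helper84.Cub
open Pool.Agent.PT Pool.Agent.PTE Pool.Agent.PT3 Pool.Agent.PTL Pool.Agent.PTN

namespace WGR

theorem zN_zero {m : ℕ} (π : Fin m → PP) (e : Fin m → ℕ) : zN π e 0 = 1 := by
  unfold zN
  simp

theorem occ_one (B : ℤ) : Occ B 1 :=
  ⟨1, 1, 1, Or.inl rfl, one_ne_zero, one_ne_zero, rfl⟩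

end WGR

theorem WGR_thm (hSPP : SPP) (hSSL : SSL) (hSCJ : SCJ) (hLCL : LCL) (hNKIN : Stmt_NKIN)
    (hZA : Stmt_ZA) (hZS : Stmt_ZS) (hS1G : Stmt_S1G) : Stmt_WGR := by
  intro h n m k π p e r f w0 c E q hNF hh hE hq hq3 hq2 hcl hqn
  have : Fact (Nat.Prime 3) := ⟨Nat.prime_three⟩
  have hB0 : BB h n E q ≠ 0 := NBK0.BB_ne hNF hq
  have hcf := NBK0.cubeFree_BB hNF hh hE hq hq3 hqn
  have h3le : 3 ≤ (BB h n E q).natAbs := NBK0.three_le hNF hE hq hq3
  have hnc : ¬ ∃ t : ℤ, t ^ 3 = BB h n E q :=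
    CubeRank.GenPf.not_cube hcf (by rw [Int.abs_eq_natAbs]; exact_mod_cast h3le)
  have h27 := NBK0.not_27 hNF hh hE hq hq3 hqn
  have hA := hZA n m k π p e r f hNF
  have hsub : ∀ y ∈ WqS h n π p e r w0 c (BB h n E q), ∀ y' ∈ WqS h n π p e r w0 c (BB h n E q),
      y + -y' ∈ WqS h n π p e r w0 c (BB h n E q) := by
    rintro y ⟨hy, ζ, g, g', hζ, hg, hg', e1⟩ y' ⟨hy', ζ', g2, g2', hζ', hg2, hg2', e2⟩
    obtain ⟨ζ'', a, b, hζ'', ha, hb, e3⟩ := hS1G _ hB0 hcf hnc ζ ζ' hζ hζ'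
    obtain ⟨-, -, -, -, -, -, -, -, hadd, -⟩ := hA (y + -y')
    obtain ⟨u, v, hu, hv, e4⟩ := hadd y'
    rw [neg_add_cancel_right] at e4
    refine ⟨add_mem hy (neg_mem hy'), ζ'', g2' * a * g * v, u * g' * b * g2, hζ'',
      mul_ne_zero (mul_ne_zero (mul_ne_zero hg2' ha) hg) hv,
      mul_ne_zero (mul_ne_zero (mul_ne_zero hu hg') hb) hg2, ?_⟩
    have hz' : zN π e y' ≠ 0 := (hA y').1
    apply mul_right_cancel₀ hz'
    linear_combination (a ^ 3 * g ^ 3 * v ^ 3 * ζ'') * (-e2) + (g ^ 3 * g2 ^ 3 * v ^ 3) * e3 +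
      (b ^ 3 * g2 ^ 3 * v ^ 3) * e1 - (g' ^ 3 * b ^ 3 * g2 ^ 3) * e4
  have hne : (WqS h n π p e r w0 c (BB h n E q)).Nonempty :=
    ⟨0, zero_mem _, by rw [WGR.zN_zero]; exact WGR.occ_one _⟩
  refine ⟨?_, ?_⟩
  · let W : AddSubgroup (Fin (m + 1) → ZMod 3) :=
      AddSubgroup.ofSub (WqS h n π p e r w0 c (BB h n E q)) hne hsub
    let W' : Submodule (ZMod 3) (Fin (m + 1) → ZMod 3) := AddSubgroup.toZModSubmodule 3 W
    refine ⟨Module.finrank (ZMod 3) W', ?_⟩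
    have h1 := Module.natCard_eq_pow_finrank (K := ZMod 3) (V := W')
    rw [Nat.card_zmod] at h1
    exact h1
  · intro ζ hζ
    have hSel : SelM (BB h n E q) ζ := NBK0.selM_of_S1 hSPP hNKIN hB0 h27 hζ
    have hy := NPSI.yv_mem hSPP hSSL hSCJ hLCL hNF hh hE hq hq2 hcl hqn hSel
    have hSelz := hZS h n m k π p e r f w0 c E q hNF hh hE hq hq2 hcl hqn _ hy
    obtain ⟨-, -, -, -, -, -, -, hyv, -, -⟩ := hA (NPSI.yv π e ζ)
    obtain ⟨g, g', hg, hg', heq⟩ := NPSI.yv_inj hSPP hSSL hLCL hNF hE hq hq2 hqn hSel hSelz hyv.symm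
    exact ⟨_, ⟨hy, ζ, g, g', hζ, hg, hg', heq⟩, g, g', hg, hg', heq⟩

end Pool.Agent.PTK


end

section

/-!
# PTK_WGU: the classes of the rational points, `q = 1 (mod 3)` (helper85)
-/

set_option autoImplicit false

open NumberField IsDedekindDomain Finset
open scoped nonZeroDivisors Pointwise

namespace Pool.Agent.PTK

open Pool.Agent.Lib_helper18 Pool.Agent.Lib_helper18.Eis Pool.Agent.Lib_helper84.Cub
open Pool.Agent.PT Pool.Agent.PTE Pool.Agent.PT3 Pool.Agent.PTL Pool.Agent.PTN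
open Pool.Agent.PT.EHYP

namespace WGU

section
variable {h n m k : ℕ} {π : Fin m → PP} {p e : Fin m → ℕ} {r f : Fin k → ℕ} {w0 : ZMod 3}
  {c : Fin m → ZMod 3} {E q : ℕ} {ρ : PP}

/-- a class of the minus part with valuation divisible by `3` at `ρ` has a vector in `VS` -/
theorem vec (hSTM : STM) (hSPP : SPP) (hSSL : SSL) (hSCJ : SCJ) (hLCL : LCL) (hZA : Stmt_ZA)
    (hZSU : Stmt_ZSU) (hN : NF n π p e r f) (hh : h ≤ 2) (hE : E = 1 ∨ E = 2) (hq : q.Prime)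
    (hq1 : q % 3 = 1) (hcl : InCT E π w0 c q) (hqn : ¬ q ∣ n)
    (hρ : (q : Eis) = ρ.1 * conj ρ.1) (hD : NPSU.Dat h n E q π e w0 c ρ) {z : Eis}
    (hz : SelM (BB h n E q) z) (hV : (V ρ.1 z : ZMod 3) = 0) :
    ∃ y ∈ VS h n π p e r w0 c, ∃ g g' : Eis, g ≠ 0 ∧ g' ≠ 0 ∧
      z * g ^ 3 = zN π e y * g' ^ 3 := by
  have hA := hZA n m k π p e r f hN
  have hy := NPSU.fst_mem (NPSU.mem_YY hSPP hSSL hSCJ hLCL hN hh hE hq hq1 hqn hρ hD hz) hV
  obtain ⟨y, hyd⟩ : ∃ y, y = (NPSU.YY π e ρ z).1 := ⟨_, rfl⟩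
  rw [← hyd] at hy
  obtain ⟨a1, -, -, a4, -, -, -, a8, -, -⟩ := hA y
  have hz' := hZSU h n m k π p e r f w0 c E q hN hh hE hq hq1 hcl hqn y hy
  have hz2 := NPSU.SelM_mul hSTM hSPP hSSL hD.ne hz hz'
  have hne := hz.ne
  have h40 : (4 : Eis) ≠ 0 := by
    have := HYPU.cast_ne (x := 4) (by norm_num)
    exact_mod_cast this
  have h0 : NPSI.yv π e (zN π e y) = (NPSU.YY π e ρ z).1 := a8.trans hyd
  have h3 : -sl (zN π e y) 4 = -sl z 4 := congrFun h0 0
  have h4 : ∀ i : Fin m, (e i : ZMod 3) * (V (π i).1 (zN π e y) : ZMod 3) =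
      (e i : ZMod 3) * (V (π i).1 z : ZMod 3) := fun i => congrFun h0 i.succ
  have h5 : ∀ i : Fin m, (V (π i).1 z : ZMod 3) = (V (π i).1 (zN π e y) : ZMod 3) := by
    intro i
    have h6 := HYPS.e_sq hN i
    linear_combination -(e i : ZMod 3) * h4 i - ((V (π i).1 z : ZMod 3) -
      (V (π i).1 (zN π e y) : ZMod 3)) * h6
  have h2 : (V ρ.1 z : ZMod 3) = (V ρ.1 (zN π e y) : ZMod 3) := by
    rw [hV, V_eq_zero (a4 ρ hD.rn)]
    rfl
  have hVz : ∀ τ : PP, (V τ.1 z : ZMod 3) = (V τ.1 (zN π e y) : ZMod 3) →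
      (V τ.1 (z * zN π e y ^ 2) : ZMod 3) = 0 := by
    intro τ hτ
    rw [V_mul τ.2.1 hne (pow_ne_zero _ a1), V_pow τ.2.1 a1]
    push_cast
    rw [hτ]
    linear_combination three_zero (V τ.1 (zN π e y) : ZMod 3)
  have h6 : sl (z * zN π e y ^ 2) 4 = 0 := by
    have h7 := add3_sl hSSL h40
    have h8 := h7 z (zN π e y ^ 2) hne (pow_ne_zero _ a1)
    have h9 := h7.pow a1 2
    simp only at h8 h9
    rw [h8, h9]
    push_cast
    linear_combination three_zero (sl (zN π e y) 4) + h3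
  obtain ⟨γ, hγ⟩ := NPSU.cube hSPP hSSL hLCL hN hE hq hq1 hqn hρ hD hz2 h6
    (fun i => hVz _ (h5 i)) (hVz _ h2)
  refine ⟨y, hy, zN π e y, γ, a1, ?_, ?_⟩
  · rintro rfl
    rw [zero_pow (by norm_num)] at hγ
    exact mul_ne_zero hne (pow_ne_zero _ a1) hγ
  · rw [← hγ]
    ring

/-- if there is an admissible class with nonzero symbol at `ρ`, the valuations at `ρ` of the
minus part are divisible by `3` -/
theorem val (hSPP : SPP) (hSSL : SSL) (hSCJ : SCJ) (hLCL : LCL) (hV : Stmt_NVEC)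
    (hN : NF n π p e r f) (hh : h ≤ 2) (hE : E = 1 ∨ E = 2) (hq : q.Prime)
    (hq1 : q % 3 = 1) (hqn : ¬ q ∣ n)
    (hρ : (q : Eis) = ρ.1 * conj ρ.1) (hD : NPSU.Dat h n E q π e w0 c ρ)
    (hx : ∃ x : ℤ, AdN h n π w0 c x ∧ sym ρ.1 (x : Eis) ≠ 0) {z : Eis}
    (hz : SelM (BB h n E q) z) : (V ρ.1 z : ZMod 3) = 0 := by
  obtain ⟨hV1, -, -⟩ := hV h n m k π p e r f w0 c hN hh
  obtain ⟨x, hx1, hx2⟩ := hx
  have h1 := (hV1 x hx1.1.ne hx1.1.supp).1 hx1
  have h2 := NPSU.sum_col hSPP hN ρ hD.rn hx1.1.ne hx1.1.supp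
  have h3 := NPSU.mem_YY hSPP hSSL hSCJ hLCL hN hh hE hq hq1 hqn hρ hD hz
  exact NPSU.snd_zero h1 (by rw [h2]; exact hx2) _ h3

end

end WGU

open _root_.Pool.Agent.PTK.WGU in
theorem WGU_thm (hSTM : STM) (hSPP : SPP) (hSSL : SSL) (hSCJ : SCJ) (hLCL : LCL)
    (hNVEC : Stmt_NVEC) (hNKIN : Stmt_NKIN) (hZA : Stmt_ZA) (hZSU : Stmt_ZSU)
    (hS1G : Stmt_S1G) : Stmt_WGU := by
  classical
  intro h n m k π p e r f w0 c E q ρ hNF hh hE hq hq3 hq1 hcl hqn hρ
  have : Fact (Nat.Prime 3) := ⟨Nat.prime_three⟩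
  have hD : NPSU.Dat h n E q π e w0 c ρ := NPSU.dat hSPP hLCL hNF hE hq hq1 hcl hqn hρ
  have hB0 : BB h n E q ≠ 0 := NBK0.BB_ne hNF hq
  have hcf := NBK0.cubeFree_BB hNF hh hE hq hq3 hqn
  have h3le : 3 ≤ (BB h n E q).natAbs := NBK0.three_le hNF hE hq hq3
  have hnc : ¬ ∃ t : ℤ, t ^ 3 = BB h n E q :=
    CubeRank.GenPf.not_cube hcf (by rw [Int.abs_eq_natAbs]; exact_mod_cast h3le)
  have h27 := NBK0.not_27 hNF hh hE hq hq3 hqn
  have hA := hZA n m k π p e r f hNF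
  have hsub : ∀ y ∈ WqS h n π p e r w0 c (BB h n E q), ∀ y' ∈ WqS h n π p e r w0 c (BB h n E q),
      y + -y' ∈ WqS h n π p e r w0 c (BB h n E q) := by
    rintro y ⟨hy, ζ, g, g', hζ, hg, hg', e1⟩ y' ⟨hy', ζ', g2, g2', hζ', hg2, hg2', e2⟩
    obtain ⟨ζ'', a, b, hζ'', ha, hb, e3⟩ := hS1G _ hB0 hcf hnc ζ ζ' hζ hζ'
    obtain ⟨-, -, -, -, -, -, -, -, hadd, -⟩ := hA (y + -y')
    obtain ⟨u, v, hu, hv, e4⟩ := hadd y'
    rw [neg_add_cancel_right] at e4
    refine ⟨add_mem hy (neg_mem hy'), ζ'', g2' * a * g * v, u * g' * b * g2, hζ'',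
      mul_ne_zero (mul_ne_zero (mul_ne_zero hg2' ha) hg) hv,
      mul_ne_zero (mul_ne_zero (mul_ne_zero hu hg') hb) hg2, ?_⟩
    have hz' : zN π e y' ≠ 0 := (hA y').1
    apply mul_right_cancel₀ hz'
    linear_combination (a ^ 3 * g ^ 3 * v ^ 3 * ζ'') * (-e2) + (g ^ 3 * g2 ^ 3 * v ^ 3) * e3 +
      (b ^ 3 * g2 ^ 3 * v ^ 3) * e1 - (g' ^ 3 * b ^ 3 * g2 ^ 3) * e4
  have hne : (WqS h n π p e r w0 c (BB h n E q)).Nonempty :=
    ⟨0, zero_mem _, by rw [WGR.zN_zero]; exact WGR.occ_one _⟩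
  have hsel : ∀ z, S1 (BB h n E q) z → SelM (BB h n E q) z := fun z hz =>
    NBK0.selM_of_S1 hSPP hNKIN hB0 h27 hz
  -- two classes with the same valuation at `ρ`
  have hrel : ∀ z z' : Eis, S1 (BB h n E q) z → S1 (BB h n E q) z' →
      (V ρ.1 z : ZMod 3) = (V ρ.1 z' : ZMod 3) →
      ∃ y ∈ WqS h n π p e r w0 c (BB h n E q), ∃ g g' : Eis, g ≠ 0 ∧ g' ≠ 0 ∧
        z * g ^ 3 = zN π e y * z' * g' ^ 3 := by
    intro z z' hz hz' ht
    obtain ⟨z'', g, g', hz'', hg, hg', e1⟩ := hS1G _ hB0 hcf hnc z z' hz hz'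
    have n1 := (hsel z hz).ne
    have n2 := (hsel z' hz').ne
    have n3 := (hsel z'' hz'').ne
    have hV0 : (V ρ.1 z'' : ZMod 3) = 0 := by
      have h1 := congrArg (V ρ.1) e1
      rw [V_mul ρ.2.1 (mul_ne_zero n3 n2) (pow_ne_zero _ hg), V_mul ρ.2.1 n3 n2,
        V_mul ρ.2.1 n1 (pow_ne_zero _ hg'), V_pow ρ.2.1 hg, V_pow ρ.2.1 hg'] at h1
      have h2 : ((V ρ.1 z'' + V ρ.1 z' + 3 * V ρ.1 g : ℕ) : ZMod 3) =
          ((V ρ.1 z + 3 * V ρ.1 g' : ℕ) : ZMod 3) := by rw [h1]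
      push_cast at h2
      linear_combination h2 + ht - three_zero (V ρ.1 g : ZMod 3) +
        three_zero (V ρ.1 g' : ZMod 3)
    obtain ⟨y, hy, a, b, ha, hb, e2⟩ := vec hSTM hSPP hSSL hSCJ hLCL hZA hZSU hNF hh hE hq hq1
      hcl hqn hρ hD (hsel z'' hz'') hV0
    refine ⟨y, ⟨hy, z'', a, b, hz'', ha, hb, e2⟩, g' * a, b * g, mul_ne_zero hg' ha,
      mul_ne_zero hb hg, ?_⟩
    linear_combination (-(a ^ 3)) * e1 + z' * g ^ 3 * e2
  refine ⟨?_, ?_⟩
  · let W : AddSubgroup (Fin (m + 1) → ZMod 3) :=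
      AddSubgroup.ofSub (WqS h n π p e r w0 c (BB h n E q)) hne hsub
    let W' : Submodule (ZMod 3) (Fin (m + 1) → ZMod 3) := AddSubgroup.toZModSubmodule 3 W
    refine ⟨Module.finrank (ZMod 3) W', ?_⟩
    have h1 := Module.natCard_eq_pow_finrank (K := ZMod 3) (V := W')
    rw [Nat.card_zmod] at h1
    exact h1
  -- representatives
  have hrep : ∀ t : ZMod 3, ∃ zt : Eis, ∀ z, S1 (BB h n E q) z → (V ρ.1 z : ZMod 3) = t →
      ∃ y ∈ WqS h n π p e r w0 c (BB h n E q), ∃ g g' : Eis, g ≠ 0 ∧ g' ≠ 0 ∧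
        z * g ^ 3 = zN π e y * zt * g' ^ 3 := by
    intro t
    by_cases ht : ∃ z, S1 (BB h n E q) z ∧ (V ρ.1 z : ZMod 3) = t
    · obtain ⟨z', hz', ht'⟩ := ht
      exact ⟨z', fun z hz hzt => hrel z z' hz hz' (hzt.trans ht'.symm)⟩
    · exact ⟨1, fun z hz hzt => absurd ⟨z, hz, hzt⟩ ht⟩
  choose zt hzt using hrep
  obtain ⟨y0, hy0⟩ := hne
  have hYex : ∀ z, ∃ y : WqS h n π p e r w0 c (BB h n E q), S1 (BB h n E q) z →
      ∃ g g' : Eis, g ≠ 0 ∧ g' ≠ 0 ∧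
        z * g ^ 3 = zN π e y.1 * zt (V ρ.1 z : ZMod 3) * g' ^ 3 := by
    intro z
    by_cases hz : S1 (BB h n E q) z
    · obtain ⟨y, hy, h1⟩ := hzt _ z hz rfl
      exact ⟨⟨y, hy⟩, fun _ => h1⟩
    · exact ⟨⟨y0, hy0⟩, fun h1 => absurd h1 hz⟩
  choose Y hY using hYex
  have hinj : ∀ z z' : Eis, S1 (BB h n E q) z → S1 (BB h n E q) z' → Y z = Y z' →
      (V ρ.1 z : ZMod 3) = (V ρ.1 z' : ZMod 3) →
      ∃ g g' : Eis, g ≠ 0 ∧ g' ≠ 0 ∧ z * g ^ 3 = z' * g' ^ 3 := by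
    intro z z' hz hz' hyy ht
    obtain ⟨g1, g2, hg1, hg2, e1⟩ := hY z hz
    obtain ⟨g1', g2', hg1', hg2', e2⟩ := hY z' hz'
    rw [← hyy, ← ht] at e2
    refine ⟨g1 * g2', g1' * g2, mul_ne_zero hg1 hg2', mul_ne_zero hg1' hg2, ?_⟩
    linear_combination g2' ^ 3 * e1 - g2 ^ 3 * e2
  have hfin : Finite (WqS h n π p e r w0 c (BB h n E q)) := inferInstance
  by_cases hx : ∃ x : ℤ, AdN h n π w0 c x ∧ sym ρ.1 (x : Eis) ≠ 0
  · refine ⟨WqS h n π p e r w0 c (BB h n E q), hfin, Y, by omega, fun _ => le_refl _, ?_⟩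
    intro z z' hz hz' hyy
    refine hinj z z' hz hz' hyy ?_
    rw [val hSPP hSSL hSCJ hLCL hNVEC hNF hh hE hq hq1 hqn hρ hD hx (hsel z hz),
      val hSPP hSSL hSCJ hLCL hNVEC hNF hh hE hq hq1 hqn hρ hD hx (hsel z' hz')]
  · refine ⟨WqS h n π p e r w0 c (BB h n E q) × ZMod 3, inferInstance,
      fun z => (Y z, (V ρ.1 z : ZMod 3)), ?_, fun h1 => absurd h1 hx, ?_⟩
    · rw [Nat.card_prod, Nat.card_zmod, mul_comm]
    · intro z z' hz hz' hyy
      have h1 := congrArg Prod.fst hyy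
      have h2 := congrArg Prod.snd hyy
      exact hinj z z' hz hz' h1 h2

end Pool.Agent.PTK


end

section

/-!
# Module PTK_ZL: the classes of `V0` are local cubes at `lam` (MP_8e0b0b_nt, by helper62)
-/

set_option autoImplicit false

open NumberField IsDedekindDomain Finset
open scoped nonZeroDivisors Pointwise

namespace Pool.Agent.PTK

open Pool.Agent.Lib_helper18 Pool.Agent.Lib_helper18.Eis Pool.Agent.Lib_helper84.Cub
open Pool.Agent.PT Pool.Agent.PTE Pool.Agent.PT3 Pool.Agent.PTL Pool.Agent.PTN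
open Pool.Agent.PT.EHYP

namespace ZL

theorem three_re : (3 : Eis).re = 3 := by
  rw [three_eq_cast]
  exact intCast_re 3

theorem three_im : (3 : Eis).im = 0 := by
  rw [three_eq_cast]
  exact intCast_im 3

theorem three_ne : (3 : Eis) ≠ 0 := by
  intro h
  have := congrArg Eis.re h
  rw [three_re] at this
  simp at this

theorem prim_PP (σ : PP) : Prim σ.1 := by
  refine ⟨σ.2.2.2, ?_⟩
  have := σ.2.2.1
  omega

theorem wt_zero {n : ℤ} (h : n % 9 = 1) : wt n = 0 := by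
  obtain ⟨k, hk⟩ : ∃ k, n = 1 + 3 * (3 * k) := ⟨n / 9, by omega⟩
  rw [wt_eq hk]
  push_cast
  exact three_zero _

theorem of_wt {n : ℤ} (h3 : n % 3 = 1) (h : wt n = 0) : n % 9 = 1 := by
  obtain ⟨k, hk⟩ : ∃ k, n = 1 + 3 * k := ⟨n / 3, by omega⟩
  rw [wt_eq hk, ZMod.intCast_zmod_eq_zero_iff_dvd] at h
  push_cast at h
  omega

/-- `sl π 3 = sym π 3` -/
theorem sl_three (hSPP : SPP) (σ : PP) : sl σ.1 3 = sym σ.1 3 := by
  have h3 := (hSPP.2.2.2.1 σ).1
  unfold sl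
  rw [finsum_eq_single _ σ]
  · unfold tm
    rw [V_eq_zero h3, V_self, ch_of_not_dvd σ.2.1 h3]
    simp
  · intro τ hτ
    have h4 : ¬ τ.1 ∣ σ.1 := by
      intro h
      exact hτ (hSPP.2.1 τ σ (τ.2.1.associated_of_dvd σ.2.1 h))
    unfold tm
    rw [V_eq_zero (hSPP.2.2.2.1 τ).1, V_eq_zero h4]
    simp

theorem sl_conj_three (hSPP : SPP) (hSCJ : SCJ) (σ : PP) : sl (conj σ.1) 3 = - sym σ.1 3 := by
  have h := hSCJ.2.1 σ.1 3 σ.2.1.ne_zero three_ne
  have e : conj 3 = 3 := conj_natCast 3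
  rw [e] at h
  rw [h, sl_three hSPP]

/-- `sl z 3 = wt (re²)` if the norm is `1` modulo `9` -/
theorem sl_prim (hSSL : SSL) (hSREC : SREC) {z : Eis} (hz : Prim z) (hn : z.norm % 9 = 1) :
    sl z 3 = wt (z.re ^ 2) := by
  have hz0 : z ≠ 0 := by
    rintro rfl
    exact hz.2 (by simp)
  have hF := add3_sl hSSL hz0
  have hlam : lam ≠ 0 := by
    intro h
    have := congrArg Eis.re h
    simp at this
  have e : (3 : Eis) = -1 * (w ^ 2 * lam ^ 2) := by
    ext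
    · rw [three_re]
      simp [pow_two]
    · rw [three_im]
      simp [pow_two]
  have h1 : sl 3 z = 2 * sl w z + 2 * sl lam z := by
    have h2 := hF (-1) (w ^ 2 * lam ^ 2) (by simp)
      (mul_ne_zero (pow_ne_zero _ w_ne) (pow_ne_zero _ hlam))
    have h3 := hF (w ^ 2) (lam ^ 2) (pow_ne_zero _ w_ne) (pow_ne_zero _ hlam)
    have h4 := hF.pow w_ne 2
    have h5 := hF.pow hlam 2
    have h6 := hF.neg_one
    simp only at h2 h3 h4 h5 h6
    rw [e, h2, h3, h4, h5, h6]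
    push_cast
    ring
  have h2 := hSSL.2.1 3 z three_ne hz0
  have h3 := hSSL.2.1 w z w_ne hz0
  have h4 := hSSL.2.1 lam z hlam hz0
  rw [hSREC.2.1 z hz, wt_zero hn] at h3
  rw [hSREC.2.2.1 z hz] at h4
  rw [h2, h1]
  have h5 := three_zero (wt (z.re ^ 2))
  linear_combination (-2) * h3 + (-2) * h4 + h5

theorem final {z : Eis} (hz : Prim z) (hn : z.norm % 9 = 1) (hr : z.re ^ 2 % 9 = 1) :
    lam ^ 4 ∣ z ^ 2 - 1 := by
  obtain ⟨b, hb⟩ := hz.1
  have h3 := hz.2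
  have h1 : (9 : ℤ) ∣ z.im := by
    have e1 : z.norm = z.re ^ 2 - 3 * (z.re * b) + 9 * b ^ 2 := by
      rw [norm_def, hb]
      ring
    have e2 : (3 : ℤ) ∣ z.re * b := by omega
    have e3 : (3 : ℤ) ∣ b := (Int.prime_three.dvd_or_dvd e2).resolve_left h3
    rw [hb]
    obtain ⟨c, rfl⟩ := e3
    exact ⟨c, by ring⟩
  have h9 : ((9 : ℤ) : Eis) ∣ z ^ 2 - 1 := by
    rw [intCast_dvd_iff]
    obtain ⟨c, hc⟩ := h1
    constructor
    · have e1 : (z ^ 2 - 1).re = z.re ^ 2 - 1 - 9 * (z.im * c) := by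
        simp [pow_two]
        rw [hc]
        ring
      rw [e1]
      omega
    · have e1 : (z ^ 2 - 1).im = 9 * (c * (2 * z.re - z.im)) := by
        simp [pow_two]
        rw [hc]
        ring
      rw [e1]
      exact dvd_mul_right _ _
  refine dvd_trans ⟨w, ?_⟩ h9
  have e4 : lam ^ 2 = -3 * w := by
    ext
    · simp [pow_two, three_im]
    · simp [pow_two, three_im, three_re]
  have e5 : lam ^ 4 = 9 * w ^ 2 := by
    have : lam ^ 4 = (lam ^ 2) ^ 2 := by ring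
    rw [this, e4]
    ring
  rw [e5]
  have e6 : w ^ 2 * w = 1 := by
    have := w_cube
    rw [← this]
    ring
  have e7 : ((9 : ℤ) : Eis) = 9 := by push_cast; rfl
  rw [e7, mul_assoc, e6, mul_one]

end ZL

theorem ZL_thm (hSPP : SPP) (hSSL : SSL) (hSREC : SREC) (hSCJ : SCJ) : Stmt_ZL := by
  classical
  intro n m k π p e r f hn y hy0 hsum
  obtain ⟨g, hg⟩ : ∃ g : Fin m → ZMod 3, g = fun i => (e i : ZMod 3) * y i.succ := ⟨_, rfl⟩
  have hz : zN π e y = ∏ i, ((π i).1 ^ (g i).val * conj (π i).1 ^ (2 * g i).val) := by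
    unfold zN
    rw [hy0, neg_zero, ZMod.val_zero, pow_zero, one_mul, hg]
  have hexp : ∀ a : ZMod 3, (a.val = 0 ∧ (2 * a).val = 0) ∨ a.val + (2 * a).val = 3 := by
    decide
  have hcn : ∀ i, (conj (π i).1) ≠ 0 := fun i => (prime_conj (π i).2.1).ne_zero
  have hP : Prim (zN π e y) ∧ (zN π e y).norm % 9 = 1 := by
    rw [hz]
    refine Finset.prod_induction _ (fun x => Prim x ∧ x.norm % 9 = 1) ?_ ?_ ?_
    · rintro a b ⟨ha, ha'⟩ ⟨hb, hb'⟩
      refine ⟨ha.mul hb, ?_⟩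
      rw [Eis.norm_mul, Int.mul_emod, ha', hb']
      norm_num
    · exact ⟨Eis.prim_one, by simp [norm_def]⟩
    · intro i _
      refine ⟨((ZL.prim_PP (π i)).pow _).mul ((ZL.prim_PP (π i)).conj.pow _), ?_⟩
      have h1 : (conj (π i).1).norm = p i := by
        rw [norm_conj, norm_eq hn]
      have hpw : ∀ (x : Eis) (k : ℕ), (x ^ k).norm = x.norm ^ k := by
        intro x k
        induction k with
        | zero => simp [norm_def]
        | succ k ih => rw [pow_succ, Eis.norm_mul, ih, pow_succ]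
      rw [Eis.norm_mul, hpw, hpw, h1, norm_eq hn, ← pow_add]
      rcases hexp (g i) with ⟨h2, h3⟩ | h2
      · rw [h2, h3]
        norm_num
      · rw [h2]
        have h4 := hn.p1 i
        obtain ⟨c, hc⟩ : ∃ c : ℤ, (p i : ℤ) = 1 + 3 * c := ⟨(p i : ℤ) / 3, by omega⟩
        have h5 : (p i : ℤ) ^ 3 = 1 + 9 * (c + 3 * c ^ 2 + 3 * c ^ 3) := by
          rw [hc]
          ring
        rw [h5]
        omega
  have hsl : sl (zN π e y) 3 = 0 := by
    have hF := add3_sl hSSL ZL.three_ne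
    rw [hz]
    have h1 : sl (∏ i, ((π i).1 ^ (g i).val * conj (π i).1 ^ (2 * g i).val)) 3 =
        ∑ i, sl ((π i).1 ^ (g i).val * conj (π i).1 ^ (2 * g i).val) 3 :=
      hF.prod Finset.univ
        (fun i => (π i).1 ^ (g i).val * conj (π i).1 ^ (2 * g i).val) (fun i _ =>
          mul_ne_zero (pow_ne_zero _ (π i).2.1.ne_zero) (pow_ne_zero _ (hcn i)))
    rw [h1]
    have h2 : ∀ i, sl ((π i).1 ^ (g i).val * conj (π i).1 ^ (2 * g i).val) 3 =
        - (g i * sym (π i).1 3) := by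
      intro i
      have h3 : sl ((π i).1 ^ (g i).val * conj (π i).1 ^ (2 * g i).val) 3 =
          sl ((π i).1 ^ (g i).val) 3 + sl (conj (π i).1 ^ (2 * g i).val) 3 :=
        hF ((π i).1 ^ (g i).val) (conj (π i).1 ^ (2 * g i).val)
          (pow_ne_zero _ (π i).2.1.ne_zero) (pow_ne_zero _ (hcn i))
      have h4 : sl ((π i).1 ^ (g i).val) 3 = ((g i).val : ZMod 3) * sl (π i).1 3 :=
        hF.pow (π i).2.1.ne_zero (g i).val
      have h5 : sl (conj (π i).1 ^ (2 * g i).val) 3 =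
          ((2 * g i).val : ZMod 3) * sl (conj (π i).1) 3 := hF.pow (hcn i) (2 * g i).val
      rw [h3, h4, h5, ZL.sl_three hSPP, ZL.sl_conj_three hSPP hSCJ, ZMod.natCast_zmod_val,
        ZMod.natCast_zmod_val]
      ring
    rw [Finset.sum_congr rfl fun i _ => h2 i, Finset.sum_neg_distrib, neg_eq_zero, ← hsum]
    refine Finset.sum_congr rfl fun i _ => ?_
    rw [hg]
    ring
  rw [ZL.sl_prim hSSL hSREC hP.1 hP.2] at hsl
  exact ZL.final hP.1 hP.2 (ZL.of_wt (sq_mod_three hP.1.2) hsl)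

end Pool.Agent.PTK


end
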