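import Mathlib
import Pool.Agent.PTDM.C23
import Pool.Agent.PTDM.C26
import Pool.Agent.PTDM.C32
import Pool.Agent.PTKM.C01

/-! Parts: PTKX.F7U, PTKX.GCK, PTKX.GAK -/

section

/-!
# PTK_F7U: the local term of a point at a tame place where `x` has valuation divisible by `3` and is
not a cube.
-/

set_option autoImplicit false

namespace Pool.Agent.PTK

open Pool.Agent.Lib_helper18 Pool.Agent.Lib_helper18.Eis Pool.Agent.Lib_helper84.Cub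
open Pool.Agent.PT

theorem F7U_thm (hSTM : STM) : Stmt_F7U := by
  intro π b x p q p' q' X Y hb hx hs hX hY hD hV hc
  have h3 := Pool.Agent.PT.F7U.pp_not_dvd_three π
  have hπ := π.2.1
  have S := hSTM π.1 hπ h3
  have hN2 : x * q' ^ 3 - q ^ 3 ≠ 0 := by
    intro h
    apply hs.n2
    have e : p ^ 3 - x * p' ^ 3 = b * (x * q' ^ 3 - q ^ 3) := by linear_combination hs.eq
    rw [e, h, mul_zero]
  have h1 := Pool.Agent.PT.F7U.half hπ h3 S x X Y p p' hx hV hc hX hY hs.n2 hD.d1 hD.d2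
  have hqE : q ^ 3 - x * q' ^ 3 ≠ 0 := by
    intro h
    apply hN2
    linear_combination -h
  have h2 := Pool.Agent.PT.F7U.half hπ h3 S x X Y q q' hx hV hc hX hY hqE hD.d3 hD.d4
  have hneg : ∀ D : Eis, tm π.1 D (x * q' ^ 3 - q ^ 3) = tm π.1 D (q ^ 3 - x * q' ^ 3) := by
    intro D
    have e : x * q' ^ 3 - q ^ 3 = -(q ^ 3 - x * q' ^ 3) := by ring
    rw [e]
    unfold tm
    rw [V_neg, Pool.Agent.PT.F7U.ch_neg hπ h3 S hqE]
  unfold SVE DfE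
  rw [hneg, hneg, h1, h2, sub_zero]

end Pool.Agent.PTK


end

section

/-!
# The average rank of prime twists: the commutators in the governing field over `K`
-/

set_option autoImplicit false

open NumberField IsDedekindDomain Finset
open scoped nonZeroDivisors Pointwise

namespace Pool.Agent.PTK

open Pool.Agent.Lib_helper18 Pool.Agent.Lib_helper18.Eis Pool.Agent.Lib_helper84.Cub
open Pool.Agent.PT Pool.Agent.PTL

namespace GCK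

section alg

variable {L : Type} [Field L]

theorem om (ι : Eis →+* L) : ι w ^ 2 + ι w + 1 = 0 := by
  have h := congrArg ι w_rel
  rwa [map_add, map_add, map_pow, map_one, map_zero] at h

/-- the norm form -/
theorem nrm (ι : Eis →+* L) {ρ : L} {x : Eis} (hρ : ρ ^ 3 = ι x) (p q : Eis) :
    (ι p + ι q * ρ) * ((ι p + ι q * ι w * ρ) * (ι p + ι q * ι w ^ 2 * ρ)) =
      ι (p ^ 3 + x * q ^ 3) := by
  rw [map_add, map_mul, map_pow, map_pow, ← hρ]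
  linear_combination (ι p ^ 2 * ι q * ρ + ι p * ι q ^ 2 * ρ ^ 2 * ι w +
    ι q ^ 3 * ρ ^ 3 * (ι w - 1)) * om ι

end alg

section aut

variable {L : Type} [Field L] [NumberField L]

theorem fix {ι : Eis →+* L} {g : L ≃ₐ[ℚ] L} (hg : g (ι w) = ι w) (a : Eis) : g (ι a) = ι a := by
  rw [eq_re_add_im a, map_add, map_mul, map_add, map_mul, hg]
  simp only [map_intCast]

theorem cj {ι : Eis →+* L} {g : L ≃ₐ[ℚ] L} (hg : g (ι w) = ι w ^ 2) (a : Eis) :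
    g (ι a) = ι (conj a) := by
  conv_lhs => rw [eq_re_add_im a, map_add, map_mul, map_add, map_mul, hg]
  conv_rhs => rw [eq_re_add_im a, map_add, map_mul, map_add, map_mul, conj_w, map_pow]
  simp only [map_intCast]

/-- the nonvanishing of the linear forms -/
def Nz (ι : Eis →+* L) (x p q p' q' : Eis) : Prop := ∀ ρ : L, ρ ^ 3 = ι x →
  aDE ι p q p' q' ρ ≠ 0 ∧ aNE ι p q p' q' ρ ≠ 0

theorem root_mul (ι : Eis →+* L) {ρ : L} {x : Eis} (hρ : ρ ^ 3 = ι x) : (ι w * ρ) ^ 3 = ι x := by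
  rw [mul_pow, GC.om3 (om ι), one_mul, hρ]

theorem ne3 {ι : Eis →+* L} {x p q p' q' : Eis} (h : Nz ι x p q p' q') {ρ : L}
    (hρ : ρ ^ 3 = ι x) :
    (ι p + ι q * ρ) ≠ 0 ∧ (ι p + ι q * ι w * ρ) ≠ 0 ∧ (ι p + ι q * ι w ^ 2 * ρ) ≠ 0 ∧
      (ι p' + ι q' * ρ) ≠ 0 ∧ (ι p' + ι q' * ι w * ρ) ≠ 0 ∧
      (ι p' + ι q' * ι w ^ 2 * ρ) ≠ 0 := by
  have hc := GC.om3 (om ι)
  obtain ⟨h1, h2⟩ := h ρ hρ
  obtain ⟨h3, h4⟩ := h (ι w * ρ) (root_mul ι hρ)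
  unfold aDE at h1 h3
  unfold aNE at h2 h4
  refine ⟨?_, left_ne_zero_of_mul h1, left_ne_zero_of_mul h2, ?_, right_ne_zero_of_mul h2,
    right_ne_zero_of_mul h1⟩
  · have h5 := left_ne_zero_of_mul h4
    have e : ι p + ι q * ι w ^ 2 * (ι w * ρ) = ι p + ι q * ρ := by
      linear_combination (ι q * ρ) * hc
    rwa [e] at h5
  · have h5 := right_ne_zero_of_mul h3
    have e : ι p' + ι q' * ι w ^ 2 * (ι w * ρ) = ι p' + ι q' * ρ := by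
      linear_combination (ι q' * ρ) * hc
    rwa [e] at h5

/-- an automorphism fixing `ω` and `ρ` acts by a root of unity on `A` -/
theorem fixA {ι : Eis →+* L} {x p q p' q' : Eis} (hnz : Nz ι x p q p' q') {ρ A : L}
    (h : L ≃ₐ[ℚ] L) (hρ : ρ ^ 3 = ι x) (hhω : h (ι w) = ι w) (hhρ : h ρ = ρ)
    (hA : A ^ 3 * aDE ι p q p' q' ρ = aNE ι p q p' q' ρ) : ∃ e : ℕ, h A = ι w ^ e * A := by
  have hD := (hnz ρ hρ).1
  have h1 : h (aDE ι p q p' q' ρ) = aDE ι p q p' q' ρ := by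
    unfold aDE
    simp only [map_mul, map_add, map_pow, fix hhω, hhρ]
  have h2 : h (aNE ι p q p' q' ρ) = aNE ι p q p' q' ρ := by
    unfold aNE
    simp only [map_mul, map_add, map_pow, fix hhω, hhρ]
  have h3 := congrArg h hA
  rw [map_mul, map_pow, h1, h2, ← hA] at h3
  exact GC.cube_eq (om ι) (mul_right_cancel₀ hD h3)

/-- an automorphism fixing `ω` and mapping `ρ` to `ωρ` -/
theorem movA {ι : Eis →+* L} {x b p q p' q' : Eis} (hnz : Nz ι x p q p' q') {ρ t A : L}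
    (g : L ≃ₐ[ℚ] L) (hρ : ρ ^ 3 = ι x) (ht : t ^ 3 = ι b) (hs : SolE x b p q p' q')
    (hgω : g (ι w) = ι w) (hgρ : g ρ = ι w * ρ)
    (hA : A ^ 3 * aDE ι p q p' q' ρ = aNE ι p q p' q' ρ) :
    ∃ e : ℕ, g A * (ι p + ι q * ι w ^ 2 * ρ) =
      ι w ^ e * (A * t * (ι p' + ι q' * ι w ^ 2 * ρ)) := by
  have h3 := congrArg g hA
  have hN := nrm ι hρ p q
  have hN' := nrm ι hρ p' q'
  obtain ⟨n1, n2, n3, n4, n5, n6⟩ := ne3 hnz hρ
  have hnz' := mul_ne_zero n4 n2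
  unfold aDE aNE at h3 hA
  simp only [map_mul, map_pow, map_add, fix hgω, hgρ] at h3
  have hc := GC.om3 (om ι)
  have h4 : g A ^ 3 * ((ι p + ι q * ι w ^ 2 * ρ) * (ι p' + ι q' * ρ)) =
      (ι p + ι q * ρ) * (ι p' + ι q' * ι w ^ 2 * ρ) := by
    have e1 : ι p + ι q * ι w * (ι w * ρ) = ι p + ι q * ι w ^ 2 * ρ := by ring
    have e2 : ι p' + ι q' * ι w ^ 2 * (ι w * ρ) = ι p' + ι q' * ρ := by
      linear_combination (ι q' * ρ) * hc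
    have e3 : ι p + ι q * ι w ^ 2 * (ι w * ρ) = ι p + ι q * ρ := by
      linear_combination (ι q * ρ) * hc
    have e4 : ι p' + ι q' * ι w * (ι w * ρ) = ι p' + ι q' * ι w ^ 2 * ρ := by ring
    rw [e1, e2, e3, e4] at h3
    exact h3
  have heq : ι (p ^ 3 + x * q ^ 3) = ι b * ι (p' ^ 3 + x * q' ^ 3) := by
    rw [hs.eq, map_mul]
  rw [← hN, ← hN'] at heq
  apply GC.cube_eq (om ι)
  apply mul_right_cancel₀ hnz'
  rw [mul_pow, mul_pow, mul_pow, ht]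
  calc g A ^ 3 * (ι p + ι q * ι w ^ 2 * ρ) ^ 3 * ((ι p' + ι q' * ρ) * (ι p + ι q * ι w * ρ))
      = (g A ^ 3 * ((ι p + ι q * ι w ^ 2 * ρ) * (ι p' + ι q' * ρ))) *
          ((ι p + ι q * ι w ^ 2 * ρ) ^ 2 * (ι p + ι q * ι w * ρ)) := by ring
    _ = (ι p + ι q * ρ) * ((ι p + ι q * ι w * ρ) * (ι p + ι q * ι w ^ 2 * ρ)) *
          ((ι p' + ι q' * ι w ^ 2 * ρ) * (ι p + ι q * ι w ^ 2 * ρ)) := by rw [h4]; ring
    _ = (A ^ 3 * ((ι p + ι q * ι w * ρ) * (ι p' + ι q' * ι w ^ 2 * ρ))) *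
          (ι b * ((ι p' + ι q' * ι w ^ 2 * ρ) ^ 2 * (ι p' + ι q' * ρ))) := by rw [heq, hA]; ring
    _ = A ^ 3 * ι b * (ι p' + ι q' * ι w ^ 2 * ρ) ^ 3 * ((ι p' + ι q' * ρ) *
          (ι p + ι q * ι w * ρ)) := by ring

theorem mv {ι : Eis →+* L} {x b p q p' q' : Eis} (hnz : Nz ι x p q p' q') {ρ t A : L}
    (g h : L ≃ₐ[ℚ] L) (c : ℕ) (hρ : ρ ^ 3 = ι x) (ht : t ^ 3 = ι b) (hs : SolE x b p q p' q')
    (hgω : g (ι w) = ι w) (hhω : h (ι w) = ι w) (hgρ : g ρ = ι w * ρ)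
    (hhρ : h ρ = ρ) (hht : h t = ι w ^ c * t)
    (hA : A ^ 3 * aDE ι p q p' q' ρ = aNE ι p q p' q' ρ) :
    h (g A) = ι w ^ c * g (h A) := by
  obtain ⟨e, he⟩ := movA hnz g hρ ht hs hgω hgρ hA
  obtain ⟨e', he'⟩ := fixA hnz h hρ hhω hhρ hA
  have hnz' := (ne3 hnz hρ).2.2.1
  apply mul_right_cancel₀ hnz'
  have h1 := congrArg h he
  simp only [map_mul, map_pow, map_add, fix hhω, hhρ, hht, he'] at h1
  rw [h1, he']
  simp only [map_mul, map_pow, hgω]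
  linear_combination (- ι w ^ c * ι w ^ e') * he

/-- the action of an automorphism on the roots -/
def Act {s : ℕ} (ι : Eis →+* L) (x : Eis) (b : Fin s → Eis) (a₀ : ZMod 3) (a : Fin s → ZMod 3)
    (g : L ≃ₐ[ℚ] L) : Prop :=
  g (ι w) = ι w ∧ (∀ ρ : L, ρ ^ 3 = ι x → g ρ = ι w ^ a₀.val * ρ) ∧
    ∀ (j : Fin s) (ρ : L), ρ ^ 3 = ι (b j) → g ρ = ι w ^ (a j).val * ρ

/-- the action of the conjugate on a root -/
theorem cjr {ι : Eis →+* L} {g σ : L ≃ₐ[ℚ] L} (hg : g (ι w) = ι w ^ 2) (hσ : σ (ι w) = ι w)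
    {y t : Eis} (hy : y * conj y = t ^ 3) {ρ : L} (hρ : ρ ^ 3 = ι y) {a : ℕ}
    (ha : σ ρ = ι w ^ a * ρ) : (g⁻¹ * σ * g) ρ = ι w ^ a * ρ := by
  rcases eq_or_ne ρ 0 with rfl | h0
  · rw [map_zero, mul_zero]
  have h1 : (g ρ * ρ) ^ 3 = (ι t) ^ 3 := by
    rw [mul_pow, ← map_pow, hρ, cj hg, ← map_mul, mul_comm (conj y), hy, map_pow]
  obtain ⟨k, hk⟩ := GC.cube_eq (om ι) h1
  have hk' : g ρ * ρ = ι (w ^ k * t) := by rw [hk, map_mul, map_pow]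
  have h2 : σ (g ρ) * (ι w ^ a * ρ) = g ρ * ρ := by
    rw [← ha, ← map_mul, hk', fix hσ]
  have h3 : σ (g ρ) * ι w ^ a = g ρ := by
    apply mul_right_cancel₀ h0
    rw [← h2]
    ring
  have hc := GC.om3 (om ι)
  have h4 : σ (g ρ) = g (ι w ^ a * ρ) := by
    rw [map_mul, map_pow, hg, ← h3]
    have h5 : (ι w ^ 2) ^ a * (σ (g ρ) * ι w ^ a) = (ι w ^ 3) ^ a * σ (g ρ) := by ring
    rw [h3] at h5 ⊢
    rw [h5, hc, one_pow, one_mul]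
  rw [AlgEquiv.mul_apply, AlgEquiv.mul_apply, h4, ← AlgEquiv.mul_apply, inv_mul_cancel]
  rfl

theorem cjAct {s : ℕ} {ι : Eis →+* L} {x : Eis} {b : Fin s → Eis} {a₀ : ZMod 3}
    {a : Fin s → ZMod 3} {g σ : L ≃ₐ[ℚ] L} (hg : g (ι w) = ι w ^ 2)
    (hx : ∃ t : Eis, x * conj x = t ^ 3) (hb : ∀ j, ∃ t : Eis, b j * conj (b j) = t ^ 3)
    (h : Act ι x b a₀ a σ) : Act ι x b a₀ a (g⁻¹ * σ * g) := by
  refine ⟨?_, fun ρ hρ => ?_, fun j ρ hρ => ?_⟩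
  · have h1 : σ (ι w ^ 2) = ι w ^ 2 := by rw [map_pow, h.1]
    rw [AlgEquiv.mul_apply, AlgEquiv.mul_apply, hg, h1, ← hg, ← AlgEquiv.mul_apply,
      inv_mul_cancel]
    rfl
  · obtain ⟨t, ht⟩ := hx
    exact cjr hg h.1 ht hρ (h.2.1 ρ hρ)
  · obtain ⟨t, ht⟩ := hb j
    exact cjr hg h.1 ht hρ (h.2.2 j ρ hρ)

/-- the commutator -/
theorem com {s : ℕ} {ι : Eis →+* L} {x : Eis} {b p q p' q' : Fin s → Eis}
    {v : Fin s → ZMod 3} (hsol : ∀ j, SolE x (b j) (p j) (q j) (p' j) (q' j))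
    (hnz : ∀ j, Nz ι x (p j) (q j) (p' j) (q' j)) (hr : ∀ j, ∃ θ : L, θ ^ 3 = ι (b j))
    {σ τ : L ≃ₐ[ℚ] L} (hσ : Act ι x b 1 0 σ) (hτ : Act ι x b 0 v τ) (j : Fin s) (ρ A : L)
    (hρ : ρ ^ 3 = ι x)
    (hA : A ^ 3 * aDE ι (p j) (q j) (p' j) (q' j) ρ = aNE ι (p j) (q j) (p' j) (q' j) ρ) :
    ((σ * τ)⁻¹ * (τ * σ)) A = ι w ^ (v j).val * A := by
  obtain ⟨θ, hθ⟩ := hr j
  apply GC.comm_apply σ τ _ hσ.1 hτ.1
  refine mv (hnz j) σ τ _ hρ hθ (hsol j) hσ.1 hτ.1 ?_ ?_ (hτ.2.2 j θ hθ) hA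
  · rw [hσ.2.1 ρ hρ, show (1 : ZMod 3).val = 1 from rfl, pow_one]
  · rw [hτ.2.1 ρ hρ, ZMod.val_zero, pow_zero, one_mul]

end aut

theorem val_neg : ∀ v : ZMod 3, (2 * v.val) % 3 = (-v).val % 3 := by decide

end GCK

/-- the commutators in the governing field over `K` -/
theorem GCK_thm (hGKK : Stmt_GKK) : Stmt_GCK := by
  intro s x b p q p' q' f L _ _ ζ ι hS hG v
  have hω := GCK.om ι
  have hf : 0 < f := by
    rcases Nat.eq_zero_or_pos f with h | h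
    · exfalso
      have h1 := hG.hω
      rw [h, Nat.zero_div, pow_zero] at h1
      rw [h1] at hω
      norm_num at hω
    · exact h
  obtain ⟨σ, hσ⟩ := hGKK s x b p q p' q' f L ζ ι hS hG 1 0
  obtain ⟨τ, hτ⟩ := hGKK s x b p q p' q' f L ζ ι hS hG 0 v
  have hσ' : GCK.Act ι x b 1 0 σ := hσ
  have hτ' : GCK.Act ι x b 0 v τ := hτ
  have hnz : ∀ j, GCK.Nz ι x (p j) (q j) (p' j) (q' j) := fun j ρ hρ => hG.D j ρ hρ
  refine ⟨(σ * τ)⁻¹ * (τ * σ), ?_, fun ρ hρ => ?_, fun j ρ hρ => ?_, fun j ρ A hρ hA => ⟨?_, ?_⟩⟩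
  · have hz : ∀ g : L ≃ₐ[ℚ] L, ∃ i : ℕ, g ζ = ζ ^ i := by
      intro g
      have h1 : (g ζ) ^ f = 1 := by rw [← map_pow, hG.prim.pow_eq_one, map_one]
      haveI : NeZero f := ⟨hf.ne'⟩
      obtain ⟨i, _, hi⟩ := hG.prim.eq_pow_of_pow_eq_one h1
      exact ⟨i, hi.symm⟩
    obtain ⟨i, hi⟩ := hz σ
    obtain ⟨j, hj⟩ := hz τ
    have h1 : τ (σ ζ) = ι w ^ 0 * σ (τ ζ) := by
      rw [hi, hj, map_pow, map_pow, hi, hj, pow_zero, one_mul, ← pow_mul, ← pow_mul, mul_comm]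
    rw [GC.comm_apply σ τ 0 hσ'.1 hτ'.1 ζ h1, pow_zero, one_mul]
  · have h1 : τ (σ ρ) = ι w ^ 0 * σ (τ ρ) := by
      rw [hσ'.2.1 ρ hρ, hτ'.2.1 ρ hρ, map_mul, map_mul, map_pow, map_pow, hσ'.1, hτ'.1,
        hσ'.2.1 ρ hρ, hτ'.2.1 ρ hρ]
      ring
    rw [GC.comm_apply σ τ 0 hσ'.1 hτ'.1 ρ h1, pow_zero, one_mul]
  · have h1 : τ (σ ρ) = ι w ^ 0 * σ (τ ρ) := by
      rw [hσ'.2.2 j ρ hρ, hτ'.2.2 j ρ hρ, map_mul, map_mul, map_pow, map_pow, hσ'.1, hτ'.1,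
        hσ'.2.2 j ρ hρ, hτ'.2.2 j ρ hρ]
      ring
    rw [GC.comm_apply σ τ 0 hσ'.1 hτ'.1 ρ h1, pow_zero, one_mul]
  · exact GCK.com hS.sol hnz hG.rb hσ' hτ' j ρ A hρ hA
  · intro g hg
    have h1 := GCK.com hS.sol hnz hG.rb (GCK.cjAct hg hS.cx hS.cb hσ')
      (GCK.cjAct hg hS.cx hS.cb hτ') j ρ A hρ hA
    have h2 : ((g⁻¹ * σ * g) * (g⁻¹ * τ * g))⁻¹ * ((g⁻¹ * τ * g) * (g⁻¹ * σ * g)) =
        g⁻¹ * ((σ * τ)⁻¹ * (τ * σ)) * g := by group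
    rw [h2] at h1
    have h3 := congrArg g h1
    rw [← AlgEquiv.mul_apply, ← mul_assoc, ← mul_assoc, mul_inv_cancel, one_mul,
      AlgEquiv.mul_apply, map_mul, map_pow, hg, ← pow_mul] at h3
    rw [h3, pow_eq_pow_mod _ (GC.om3 hω), GCK.val_neg, ← pow_eq_pow_mod _ (GC.om3 hω)]

end Pool.Agent.PTK


end

section

/-!
# The average rank of prime twists: summary of the governing field over `K`
-/

set_option autoImplicit false

open NumberField IsDedekindDomain Finset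
open scoped nonZeroDivisors Pointwise

namespace Pool.Agent.PTK

open Pool.Agent.Lib_helper18 Pool.Agent.Lib_helper18.Eis Pool.Agent.Lib_helper84.Cub
open Pool.Agent.PT Pool.Agent.PTL

namespace GAK

variable {L : Type} [Field L] [NumberField L]

/-- an automorphism fixes or squares `ω` -/
theorem cases_om (ι : Eis →+* L) (τ : L ≃ₐ[ℚ] L) : τ (ι w) = ι w ∨ τ (ι w) = ι w ^ 2 := by
  have h := GCK.om ι
  have h1 := congrArg τ h
  rw [map_add, map_add, map_pow, map_one, map_zero] at h1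
  have hc := GC.om3 h
  have h2 : (τ (ι w) - ι w) * (τ (ι w) - ι w ^ 2) = 0 := by
    linear_combination h1 + hc - τ (ι w) * h
  rcases mul_eq_zero.1 h2 with h3 | h3
  · exact Or.inl (sub_eq_zero.1 h3)
  · exact Or.inr (sub_eq_zero.1 h3)

theorem om4 (ι : Eis →+* L) : (ι w ^ 2) ^ 2 = ι w := by
  have hc := GC.om3 (GCK.om ι)
  linear_combination ι w * hc

theorem fxk_conj0 {s : ℕ} {x : Eis} {b : Fin s → Eis} {ι : Eis →+* L} {g τ : L ≃ₐ[ℚ] L}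
    (hτ : τ (ι w) = ι w) (h : FxK x b ι g) : FxK x b ι (τ * g * τ⁻¹) := by
  have hτ' : τ⁻¹ (ι w) = ι w := by
    conv_lhs => rw [← hτ]
    rw [← AlgEquiv.mul_apply, inv_mul_cancel]
    rfl
  have key : ∀ y : Eis, (∀ ρ : L, ρ ^ 3 = ι y → g (g ρ) = ρ) →
      ∀ ρ : L, ρ ^ 3 = ι y → (τ * g * τ⁻¹) ((τ * g * τ⁻¹) ρ) = ρ := by
    intro y hy ρ hρ
    have h1 : (τ⁻¹ ρ) ^ 3 = ι y := by rw [← map_pow, hρ, GCK.fix hτ']
    have h2 := hy _ h1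
    have h3 : (τ * g * τ⁻¹) ((τ * g * τ⁻¹) ρ) = τ (g (g (τ⁻¹ ρ))) := by
      rw [← AlgEquiv.mul_apply, show (τ * g * τ⁻¹) * (τ * g * τ⁻¹) = τ * (g * (g * τ⁻¹)) by group]
      rfl
    rw [h3, h2, ← AlgEquiv.mul_apply, mul_inv_cancel]
    rfl
  exact ⟨key x h.1, fun j => key (b j) (h.2 j)⟩

theorem fxk_conj {s : ℕ} {x : Eis} {b : Fin s → Eis} {ι : Eis →+* L} {g : L ≃ₐ[ℚ] L}
    (τ : L ≃ₐ[ℚ] L) (hg : g (ι w) = ι w ^ 2) (h : FxK x b ι g) :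
    FxK x b ι (τ * g * τ⁻¹) := by
  rcases cases_om ι τ with hτ | hτ
  · exact fxk_conj0 hτ h
  · have h1 : g (ι w ^ 2) = ι w := by rw [map_pow, hg, om4]
    have h2 : g⁻¹ (ι w) = ι w ^ 2 := by
      conv_lhs => rw [← h1]
      rw [← AlgEquiv.mul_apply, inv_mul_cancel]
      rfl
    have h3 : (τ * g⁻¹) (ι w) = ι w := by
      rw [AlgEquiv.mul_apply, h2, map_pow, hτ, om4]
    have h4 := fxk_conj0 h3 h
    rwa [show (τ * g⁻¹) * g * (τ * g⁻¹)⁻¹ = τ * g * τ⁻¹ by group] at h4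

theorem pow_fix {g : L ≃ₐ[ℚ] L} {ρ : L} (h : (g * g) ρ = ρ) (k : ℕ) : ((g * g) ^ k) ρ = ρ := by
  induction k with
  | zero => rfl
  | succ k ih => rw [pow_succ, AlgEquiv.mul_apply, h, ih]

theorem fxk_pow {s : ℕ} {x : Eis} {b : Fin s → Eis} {ι : Eis →+* L} {g : L ≃ₐ[ℚ] L}
    (h : FxK x b ι g) (k : ℕ) : FxK x b ι (g ^ k) := by
  have key : ∀ ρ : L, g (g ρ) = ρ → (g ^ k) ((g ^ k) ρ) = ρ := by
    intro ρ hρ
    rw [← AlgEquiv.mul_apply, ← (Commute.refl g).mul_pow k]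
    exact pow_fix hρ k
  exact ⟨fun ρ hρ => key ρ (h.1 ρ hρ), fun j ρ hρ => key ρ (h.2 j ρ hρ)⟩

/-- `z` fixes `ω` and the roots, `g² = 1` on the roots: then `z` fixes `g ρ` -/
theorem fix_g {ι : Eis →+* L} {g z : L ≃ₐ[ℚ] L} (hg : g (ι w) = ι w ^ 2) (hz : z (ι w) = ι w)
    {y t : Eis} (hy : y * conj y = t ^ 3) {ρ : L} (hρ : ρ ^ 3 = ι y) (hzρ : z ρ = ρ) :
    z (g ρ) = g ρ := by
  rcases eq_or_ne ρ 0 with rfl | h0
  · rw [map_zero, map_zero]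
  have h1 : (g ρ * ρ) ^ 3 = (ι t) ^ 3 := by
    rw [mul_pow, ← map_pow, hρ, GCK.cj hg, ← map_mul, mul_comm (conj y), hy, map_pow]
  obtain ⟨k, hk⟩ := GC.cube_eq (GCK.om ι) h1
  have hk' : g ρ * ρ = ι (w ^ k * t) := by rw [hk, map_mul, map_pow]
  apply mul_right_cancel₀ h0
  calc z (g ρ) * ρ = z (g ρ) * z ρ := by rw [hzρ]
    _ = g ρ * ρ := by rw [← map_mul, hk', GCK.fix hz]

theorem fxk_mul {s : ℕ} {x : Eis} {b : Fin s → Eis} {ι : Eis →+* L} {g z : L ≃ₐ[ℚ] L}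
    (hx : ∃ t : Eis, x * conj x = t ^ 3) (hb : ∀ j, ∃ t : Eis, b j * conj (b j) = t ^ 3)
    (hg : g (ι w) = ι w ^ 2) (hz : z (ι w) = ι w) (hzx : ∀ ρ : L, ρ ^ 3 = ι x → z ρ = ρ)
    (hzb : ∀ (j : Fin s) (ρ : L), ρ ^ 3 = ι (b j) → z ρ = ρ) (h : FxK x b ι g) :
    FxK x b ι (g * z) := by
  refine ⟨fun ρ hρ => ?_, fun j ρ hρ => ?_⟩
  · obtain ⟨t, ht⟩ := hx
    rw [AlgEquiv.mul_apply, AlgEquiv.mul_apply, hzx ρ hρ, fix_g hg hz ht hρ (hzx ρ hρ)]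
    exact h.1 ρ hρ
  · obtain ⟨t, ht⟩ := hb j
    rw [AlgEquiv.mul_apply, AlgEquiv.mul_apply, hzb j ρ hρ, fix_g hg hz ht hρ (hzb j ρ hρ)]
    exact h.2 j ρ hρ

theorem inv_fix {z : L ≃ₐ[ℚ] L} {y : L} (h : z y = y) : z⁻¹ y = y := by
  conv_lhs => rw [← h]
  rw [← AlgEquiv.mul_apply, inv_mul_cancel]
  rfl

theorem val_calc : ∀ c d : ZMod 3,
    (2 * (2 * c.val + (-c).val) + d.val) % 3 = (d - c).val % 3 := by decide

end GAK

theorem GAK_thm (hGZK : Stmt_GZK) (hGCHI : GCHI) (hGTK : Stmt_GTK) (hGCK : Stmt_GCK)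
    (hGFK : Stmt_GFK) : Stmt_GAK := by
  classical
  intro s x b p q p' q' f hSys hf h9
  obtain ⟨L, hF, hN, ζ, ι, hG⟩ := hGZK s x b p q p' q' f hSys hf h9
  haveI := hG.gal
  obtain ⟨χ, hχs, hχζ, hχF⟩ := hGCHI L f ζ hf hG.prim
  obtain ⟨N₀, hFr⟩ := hGFK s x b p q p' q' f L ζ ι hSys hG
  have hω3 : ι w ^ 3 = 1 := GC.om3 (GCK.om ι)
  have hf1 : 1 < f := by
    obtain ⟨c, hc⟩ := h9
    omega
  have hT := hGTK s x b p q p' q' f L ζ ι hSys hG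
  -- action on ω
  have hM : ∀ g : L ≃ₐ[ℚ] L, M2 (χ g) → g (ι w) = ι w ^ 2 := by
    intro g hg
    rw [hG.hω, map_pow, hχζ g, ← pow_mul, mul_comm, pow_mul, ← hG.hω]
    apply GALD.om_congr hω3
    unfold M2 at hg
    omega
  let F : (L ≃ₐ[ℚ] L) → Prop := fun g => g (ι w) = ι w ^ 2 ∧ FxK x b ι g
  let t : (L ≃ₐ[ℚ] L) → Fin s → ZMod 3 := fun g j =>
    if h : F g then ((hT j).1 g h.1 h.2).choose else 0
  have ht : ∀ (g : L ≃ₐ[ℚ] L) (j : Fin s), F g → IsTK x p q p' q' ι g j (t g j) := by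
    intro g j h
    have e : t g j = ((hT j).1 g h.1 h.2).choose := dif_pos h
    rw [e]
    exact ((hT j).1 g h.1 h.2).choose_spec.1
  have htu : ∀ (g : L ≃ₐ[ℚ] L) (j : Fin s) (c : ZMod 3), F g →
      IsTK x p q p' q' ι g j c → t g j = c := by
    intro g j c h hc
    exact ((hT j).1 g h.1 h.2).unique (ht g j h) hc
  have hconj : ∀ g τ : L ≃ₐ[ℚ] L, F g → (τ * g * τ⁻¹) (ι w) = ι w ^ 2 := by
    intro g τ hg
    rcases GAK.cases_om ι τ with hτ | hτ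
    · rw [AlgEquiv.mul_apply, AlgEquiv.mul_apply, GAK.inv_fix hτ, hg.1, map_pow, hτ]
    · have h2 : τ⁻¹ (ι w) = ι w ^ 2 := by
        have h1 : τ (ι w ^ 2) = ι w := by rw [map_pow, hτ, GAK.om4]
        conv_lhs => rw [← h1]
        rw [← AlgEquiv.mul_apply, inv_mul_cancel]
        rfl
      rw [AlgEquiv.mul_apply, AlgEquiv.mul_apply, h2, map_pow, hg.1, GAK.om4, hτ]
  refine ⟨L, hF, hN, hG.gal, χ, F, t, N₀, hχs, ?_, ?_, ?_, ?_⟩
  · intro g τ _ hg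
    have hF' : F (τ * g * τ⁻¹) := ⟨hconj g τ hg, GAK.fxk_conj τ hg.1 hg.2⟩
    refine ⟨hF', funext fun j => ?_⟩
    exact htu _ _ _ hF' ((hT j).2.1 g τ _ hg.1 hg.2 (ht g j hg)).2
  · intro g k _ hg hk
    have hF' : F (g ^ k) := by
      refine ⟨?_, GAK.fxk_pow hg.2 k⟩
      rw [GALD.pow_om hω3 g hg.1 k]
      apply GALD.om_congr hω3
      rw [GALD.two_pow_odd hk]
    refine ⟨hF', funext fun j => ?_⟩
    rw [Pi.smul_apply, smul_eq_mul]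
    exact htu _ _ _ hF' ((hT j).2.2 g _ k hg.1 hg.2 hk (ht g j hg)).2
  · intro a v v' ha
    obtain ⟨z, hzζ, hzx, hzb, hzA⟩ := hGCK s x b p q p' q' f L ζ ι hSys hG
      (fun j => v j - v' j)
    have hzω : z (ι w) = ι w := by rw [hG.hω, map_pow, hzζ]
    have hχz : χ z = 1 := by
      have h1 := hχζ z
      rw [hzζ] at h1
      haveI : NeZero f := ⟨hf.ne'⟩
      have h2 : ((χ z : ZMod f)).val = 1 := by
        apply hG.prim.pow_inj (ZMod.val_lt _) hf1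
        rw [← h1, pow_one]
      apply Units.ext
      have h3 := ZMod.natCast_zmod_val (χ z : ZMod f)
      rw [h2] at h3
      rw [← h3]
      simp
    have hFz : ∀ g : L ≃ₐ[ℚ] L, F g → F (g * z) := by
      intro g hg
      refine ⟨?_, GAK.fxk_mul hSys.cx hSys.cb hg.1 hzω hzx hzb hg.2⟩
      rw [AlgEquiv.mul_apply, hzω, hg.1]
    have hFz' : ∀ g : L ≃ₐ[ℚ] L, F (g * z) → F g := by
      intro g hg
      have h1 : F (g * z * z⁻¹) := by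
        refine ⟨?_, GAK.fxk_mul hSys.cx hSys.cb hg.1 (GAK.inv_fix hzω)
          (fun ρ hρ => GAK.inv_fix (hzx ρ hρ)) (fun j ρ hρ => GAK.inv_fix (hzb j ρ hρ)) hg.2⟩
        rw [AlgEquiv.mul_apply, GAK.inv_fix hzω, hg.1]
      rwa [mul_inv_cancel_right] at h1
    have key : ∀ g : L ≃ₐ[ℚ] L, F g → ∀ j, t (g * z) j = t g j - (v j - v' j) := by
      intro g hg j
      apply htu _ _ _ (hFz g hg)
      intro ρ A hρ hA
      obtain ⟨h1, h2⟩ := hzA j ρ A hρ hA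
      have h3 := h2 g hg.1
      have h4 := ht g j hg ρ A hρ hA
      rw [AlgEquiv.mul_apply, AlgEquiv.mul_apply, h1, map_mul, map_pow, hg.1, map_mul, map_pow,
        map_pow, hzω, h3, map_mul, map_mul, map_pow, map_pow, map_pow, hg.1, h4]
      rw [← mul_assoc, ← mul_assoc, ← pow_mul, ← pow_mul, ← pow_mul, ← pow_add, ← pow_add]
      congr 1
      apply GALD.om_congr hω3
      have h5 := GAK.val_calc (v j - v' j) (t g j)
      omega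
    apply Nat.card_congr
    refine Equiv.subtypeEquiv (Equiv.mulRight z) ?_
    intro g
    have hχ : χ (g * z) = χ g := by rw [map_mul, hχz, mul_one]
    show (χ g = a ∧ F g ∧ t g = v) ↔ (χ (g * z) = a ∧ F (g * z) ∧ t (g * z) = v')
    rw [hχ]
    constructor
    · rintro ⟨h1, h2, h3⟩
      refine ⟨h1, hFz g h2, funext fun j => ?_⟩
      rw [key g h2 j, h3]
      ring
    · rintro ⟨h1, h2, h3⟩
      refine ⟨h1, hFz' g h2, funext fun j => ?_⟩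
      have h4 := congrFun h3 j
      rw [key g (hFz' g h2) j] at h4
      linear_combination h4
  · intro Q hQ hQp hN₀ P g hP hQP hst
    haveI := hP
    obtain ⟨h1, h2⟩ := hFr Q hQp hN₀ P hP hQP
    obtain ⟨k, hk, hfr⟩ := h1 g hst
    refine ⟨k, hk, hχF Q hQ hQp P (g ^ k) hP hQP hfr, ?_⟩
    intro hQ3 hx hb
    obtain ⟨h3, h4⟩ := h2 (g ^ k) hfr hQ3
    obtain ⟨h5, h6⟩ := h4 hx hb
    refine ⟨⟨h3, h5⟩, fun j r hr => ?_⟩
    exact h6 j r _ hr (ht (g ^ k) j ⟨h3, h5⟩)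

end Pool.Agent.PTK


end
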