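import Mathlib
import Pool.Agent.PTDM.C23
import Pool.Agent.PTDM.C24
import Pool.Agent.PTDM.C29
import Pool.Agent.PTDM.C32
import Pool.Agent.PTDM.C45
import Pool.Agent.PTDM.C46
import Pool.Agent.PTKM.C01
import Pool.Agent.PTKM.C02
import Pool.Agent.PTKM.C07

/-! Parts: PTKX.GMB, PTKX.GTZ, PTKX.IIA, PTKX.JAU, PTKX.MAU, PTKX.JAZ, PTKX.MAZ, PTKX.JC2, PTKX.MC2, PTKX.ZI -/

section

/-!
# PTK_GMB: the values of `gM`
-/

set_option autoImplicit false

namespace Pool.Agent.PTK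

namespace GMB

theorem gM_succ (k j : ℕ) : gM (k + 1) j =
    (1 + 3 ^ (k + 1) / 3 ^ j) * gM k j + (3 ^ j - 1) * 3 ^ k * gM k (j - 1) := rfl

theorem MoB_succ (k : ℕ) : MoB (k + 1) = MoB k * (1 + 3 ^ (k + 1)) := by
  unfold MoB
  rw [Finset.prod_range_succ]

theorem MoB_zero : MoB 0 = 1 := by
  unfold MoB
  rw [Finset.range_zero, Finset.prod_empty]

theorem one_le (k : ℕ) : 1 ≤ MoB k := by
  induction k with
  | zero => rw [MoB_zero]
  | succ k ih =>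
    rw [MoB_succ]
    have h : (1 : ℝ) ≤ 1 + 3 ^ (k + 1) := by
      have : (0 : ℝ) < 3 ^ (k + 1) := by positivity
      linarith
    exact one_le_mul_of_one_le_of_one_le ih h

theorem z0 (k : ℕ) : gM k 0 = MoB k := by
  induction k with
  | zero => rw [MoB_zero]; rfl
  | succ k ih =>
    rw [gM_succ, MoB_succ, ih, pow_zero, sub_self, zero_mul, zero_mul, div_one]
    ring

theorem z1 (k : ℕ) : gM k 1 = MoB k := by
  induction k with
  | zero => rw [MoB_zero]; rfl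
  | succ k ih =>
    rw [gM_succ, MoB_succ, ih, Nat.sub_self, z0]
    ring

theorem z2 (k : ℕ) : gM (k + 1) 2 = (1 + 3 ^ k / 3) * gM k 2 + 8 * 3 ^ k * MoB k := by
  rw [gM_succ, show (2 - 1 : ℕ) = 1 from rfl, z1]
  ring

theorem lo (k : ℕ) : MoB k ≤ gM k 2 := by
  induction k with
  | zero => rw [MoB_zero]; exact le_refl _
  | succ k ih =>
    rw [z2, MoB_succ]
    have h1 : (0 : ℝ) < 3 ^ k := by positivity
    have h2 := one_le k
    have h3 : 0 ≤ 3 ^ k / 3 * gM k 2 := by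
      apply mul_nonneg
      · positivity
      · linarith
    have h4 : 0 ≤ 3 ^ k * MoB k := by
      apply mul_nonneg h1.le
      linarith
    calc MoB k * (1 + 3 ^ (k + 1)) = MoB k + 3 * (3 ^ k * MoB k) := by ring
      _ ≤ gM k 2 + 3 ^ k / 3 * gM k 2 + 8 * (3 ^ k * MoB k) := by linarith
      _ = (1 + 3 ^ k / 3) * gM k 2 + 8 * 3 ^ k * MoB k := by ring

theorem hi (k : ℕ) : gM k 2 ≤ 3 * MoB k := by
  induction k with
  | zero =>
    rw [MoB_zero]
    show (1 : ℝ) ≤ 3 * 1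
    norm_num
  | succ k ih =>
    rw [z2, MoB_succ]
    have h1 : (0 : ℝ) ≤ 1 + 3 ^ k / 3 := by positivity
    have h2 := mul_le_mul_of_nonneg_left ih h1
    calc (1 + 3 ^ k / 3) * gM k 2 + 8 * 3 ^ k * MoB k
        ≤ (1 + 3 ^ k / 3) * (3 * MoB k) + 8 * 3 ^ k * MoB k := by linarith
      _ = 3 * (MoB k * (1 + 3 ^ (k + 1))) := by ring

theorem sq1 (k : ℕ) : MoB (k + 1) ^ 2 ≤
    64 / 25 * (1 - 1 / (2 * 3 ^ (k + 1))) ^ 2 * 3 ^ ((k + 1) * (k + 2)) := by
  induction k with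
  | zero =>
    rw [MoB_succ, MoB_zero]
    norm_num
  | succ k ih =>
    rw [MoB_succ, mul_pow]
    obtain ⟨y, hy⟩ : ∃ y : ℝ, y = 3 ^ (k + 1) := ⟨_, rfl⟩
    have hy1 : 1 ≤ y := by
      rw [hy]
      exact one_le_pow₀ (by norm_num)
    have e1 : (3 : ℝ) ^ (k + 1 + 1) = 3 * y := by rw [pow_succ, hy]; ring
    have e2 : (3 : ℝ) ^ ((k + 1 + 1) * (k + 1 + 2)) = 3 ^ ((k + 1) * (k + 2)) * (3 * y) ^ 2 := by
      rw [hy, mul_pow, ← pow_mul, ← mul_assoc, ← pow_add, ← pow_add]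
      congr 1
      ring
    rw [e2, e1]
    rw [← hy] at ih
    have h3 : (0 : ℝ) ≤ (1 + 3 * y) ^ 2 := sq_nonneg _
    have h4 := mul_le_mul_of_nonneg_right ih h3
    refine h4.trans ?_
    have h5 : (0 : ℝ) ≤ 3 ^ ((k + 1) * (k + 2)) := by positivity
    have h6 : (1 - 1 / (2 * y)) * (1 + 3 * y) ≤ (1 - 1 / (2 * (3 * y))) * (3 * y) := by
      have e3 : (1 - 1 / (2 * y)) * (1 + 3 * y) = 3 * y - 1 / 2 - 1 / (2 * y) := by
        field_simp
        ring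
      have e4 : (1 - 1 / (2 * (3 * y))) * (3 * y) = 3 * y - 1 / 2 := by
        field_simp
      rw [e3, e4]
      have : 0 ≤ 1 / (2 * y) := by positivity
      linarith
    have h7 : 0 ≤ (1 - 1 / (2 * y)) * (1 + 3 * y) := by
      apply mul_nonneg
      · have : 1 / (2 * y) ≤ 1 := by
          rw [div_le_one (by positivity)]
          linarith
        linarith
      · positivity
    have h8 := pow_le_pow_left₀ h7 h6 2
    have h9 := mul_le_mul_of_nonneg_left h8 h5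
    calc 64 / 25 * (1 - 1 / (2 * y)) ^ 2 * 3 ^ ((k + 1) * (k + 2)) * (1 + 3 * y) ^ 2
        = 64 / 25 * (3 ^ ((k + 1) * (k + 2)) * ((1 - 1 / (2 * y)) * (1 + 3 * y)) ^ 2) := by ring
      _ ≤ 64 / 25 * (3 ^ ((k + 1) * (k + 2)) * ((1 - 1 / (2 * (3 * y))) * (3 * y)) ^ 2) := by
          linarith
      _ = 64 / 25 * (1 - 1 / (2 * (3 * y))) ^ 2 * (3 ^ ((k + 1) * (k + 2)) * (3 * y) ^ 2) := by
          ring

theorem sq (k : ℕ) : MoB k ^ 2 ≤ 64 / 25 * 3 ^ (k * (k + 1)) := by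
  cases k with
  | zero =>
    rw [MoB_zero]
    norm_num
  | succ k =>
    refine (sq1 k).trans ?_
    have h1 : (0 : ℝ) ≤ 3 ^ ((k + 1) * (k + 2)) := by positivity
    have h2 : (0 : ℝ) < 1 / (2 * 3 ^ (k + 1)) := by positivity
    have h3 : (1 : ℝ) / (2 * 3 ^ (k + 1)) ≤ 1 := by
      rw [div_le_one (by positivity)]
      have : (1 : ℝ) ≤ 3 ^ (k + 1) := one_le_pow₀ (by norm_num)
      linarith
    have h4 : (1 - 1 / (2 * 3 ^ (k + 1)) : ℝ) ^ 2 ≤ 1 := by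
      apply pow_le_one₀
      · linarith
      · linarith
    have h5 := mul_le_mul_of_nonneg_right h4 h1
    calc (64 : ℝ) / 25 * (1 - 1 / (2 * 3 ^ (k + 1))) ^ 2 * 3 ^ ((k + 1) * (k + 2))
        = 64 / 25 * ((1 - 1 / (2 * 3 ^ (k + 1))) ^ 2 * 3 ^ ((k + 1) * (k + 2))) := by ring
      _ ≤ 64 / 25 * (1 * 3 ^ ((k + 1) * (k + 2))) := by linarith
      _ = 64 / 25 * 3 ^ ((k + 1) * (k + 1 + 1)) := by ring

end GMB

open _root_.Pool.Agent.PTK.GMB in
theorem GMB_thm : Stmt_GMB := by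
  refine ⟨z0, z1, lo, hi, ?_, one_le, ?_, sq⟩
  · rw [gM_succ]
    show (1 + 3 ^ (0 + 1) / 3 ^ 2) * (1 : ℝ) + (3 ^ 2 - 1) * 3 ^ 0 * 1 = 28 / 3
    norm_num
  · rw [MoB_succ, MoB_zero]
    norm_num

end Pool.Agent.PTK


end

section

/-!
# GTZ (helper44): existence, uniqueness and properties of `t` on the elements fixing all roots of
the `b j`, `Q = 1 (mod 3)`
-/

set_option autoImplicit false
set_option linter.unusedSectionVars false

open NumberField IsDedekindDomain Finset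
open scoped nonZeroDivisors Pointwise

namespace Pool.Agent.PTK

open Pool.Agent.Lib_helper18 Pool.Agent.Lib_helper18.Eis Pool.Agent.Lib_helper84.Cub
open Pool.Agent.PT Pool.Agent.PTE Pool.Agent.PT3 Pool.Agent.PTL Pool.Agent.PTN

open Pool.Agent.PT.GT in
/-- GTZ: existence, uniqueness and properties of `t` on the elements fixing all roots. -/
theorem GTZ_thm : Stmt_GTZ := by
  intro s b p q p' q' f L _ _ ζ ω hS hG
  have rel := hG.rel
  have h3 := cube_one rel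
  have hω0 := ω_ne_zero rel
  refine ⟨?_, ?_⟩
  · intro g τ hg hF
    have hinv : ∀ (j : Fin s) (ρ : L), ρ ^ 3 = (b j : L) → (τ⁻¹ ρ) ^ 3 = (b j : L) := by
      intro j ρ hρ
      rw [← map_pow, hρ, map_intCast]
    refine ⟨?_, ?_⟩
    · rw [GTS.conj_apply]
      have h1 : g (τ⁻¹ ω) = τ⁻¹ ω := by
        rcases map_ω rel (τ⁻¹ : L ≃ₐ[ℚ] L) with h | h
        · rw [h, hg]
        · rw [h, map_pow, hg]
      rw [h1, GTS.apply_inv]
    · intro j ρ hρ
      rw [GTS.conj_apply, hF j _ (hinv _ ρ hρ), GTS.apply_inv]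
  · intro j i hji
    have hsol := hS.sol _ _ hji
    have hAne : ∀ ρ A : L, ρ ^ 3 = (b j : L) →
        A ^ 3 * aD ω (p j i) (q j i)
          (p' j i) (q' j i) ρ =
        aN ω (p j i) (q j i)
          (p' j i) (q' j i) ρ → A ≠ 0 := by
      rintro ρ A hρ hA rfl
      apply (hG.D _ _ hji ρ hρ).2
      rw [← hA]
      ring
    refine ⟨?_, ?_, ?_⟩
    · intro g hg hF
      obtain ⟨ρ, hρ⟩ := hG.root j
      obtain ⟨θ, hθ⟩ := hG.root i
      obtain ⟨A, hA⟩ := hG.A _ _ hji ρ hρ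
      have hA0 := hAne ρ A hρ hA
      obtain ⟨hD, hN⟩ := hG.D _ _ hji ρ hρ
      have hgρ := hF j ρ hρ
      have e1 : (g A) ^ 3 = A ^ 3 := by
        have h1 := congrArg g hA
        rw [map_mul, map_pow, map_aD' hg, map_aN' hg, hgρ, ← hA] at h1
        exact mul_right_cancel₀ hD h1
      obtain ⟨t, ht⟩ := of_cube rel e1
      have hW : GTS.W ω (p j i) (q j i)
          (p' j i) (q' j i) g t ρ := by
        intro A' hA'
        have e2 : A' ^ 3 = A ^ 3 := mul_right_cancel₀ hD (hA'.trans hA.symm)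
        obtain ⟨m, hm⟩ := of_cube rel e2
        rw [hm, map_mul, map_E' hg, ht]
        ring
      refine ⟨t, ?_, ?_⟩
      · intro ρ' A' hρ' hA'
        exact GTS.W_all rel hρ hρ' hθ hsol.toSolW hg (hF j) (hF i θ hθ)
          (hG.A _ _ hji) hW A' hA'
      · intro t' ht'
        have h1 : g A = E ω t' * A := ht' ρ A hρ hA
        rw [ht] at h1
        exact (E_inj rel (mul_right_cancel₀ hA0 h1)).symm
    · intro g τ t hg hF ht ρ A hρ hA
      have hρ' : (τ⁻¹ ρ) ^ 3 = (b j : L) := by rw [← map_pow, hρ, map_intCast]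
      have hA0 := hAne ρ A hρ hA
      have e1 := congrArg (τ⁻¹ : L ≃ₐ[ℚ] L) hA
      rw [map_mul, map_pow] at e1
      rw [GTS.conj_apply]
      change τ (g (τ⁻¹ A)) = E ω t * A
      rcases map_ω rel (τ⁻¹ : L ≃ₐ[ℚ] L) with hτ | hτ
      · rw [map_aD' hτ, map_aN' hτ] at e1
        have h1 : g (τ⁻¹ A) = E ω t * τ⁻¹ A := ht _ _ hρ' e1
        have hτω : τ ω = ω := by
          have := congrArg τ hτ
          rw [GTS.apply_inv] at this
          exact this.symm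
        rw [h1, map_mul, map_E' hτω, GTS.apply_inv]
      · rw [map_aD rel hτ, map_aN rel hτ] at e1
        have hA1 : τ⁻¹ A ≠ 0 := by
          rw [Ne, EmbeddingLike.map_eq_zero_iff]
          exact hA0
        have h1 : g ((τ⁻¹ A)⁻¹) = E ω t * (τ⁻¹ A)⁻¹ := by
          apply ht _ _ hρ'
          rw [inv_pow, ← e1]
          field_simp
        have hτω : τ ω = ω ^ 2 := by
          have h4 := congrArg τ hτ
          rw [GTS.apply_inv, map_pow] at h4
          rcases map_ω rel τ with h5 | h5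
          · exfalso
            rw [h5] at h4
            apply ω_ne_one rel
            have h6 : ω * (ω - 1) = 0 := by linear_combination -h4
            rcases mul_eq_zero.1 h6 with h7 | h7
            · exact absurd h7 hω0
            · exact sub_eq_zero.1 h7
          · exact h5
        have h2 : g (τ⁻¹ A) = E ω (-t) * τ⁻¹ A := by
          rw [map_inv₀] at h1
          rw [E_neg rel]
          have h4 := congrArg (fun x => x⁻¹) h1
          simp only [inv_inv, mul_inv] at h4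
          exact h4
        rw [h2, map_mul, map_E rel hτω, neg_neg, GTS.apply_inv]
    · intro g t k hg ht ρ A hρ hA
      have h1 : g A = E ω t * A := ht ρ A hρ hA
      exact GTS.pow_E rel hg h1 k

end Pool.Agent.PTK


end

section

/-!
# The average rank of prime twists: the local term of a point at `lam` when `b` is a local cube
(classes in `Z[w]`)
-/

set_option autoImplicit false

namespace Pool.Agent.PTK

open Pool.Agent.Lib_helper18 Pool.Agent.Lib_helper18.Eis Pool.Agent.Lib_helper84.Cub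
open Pool.Agent.PT

namespace IIA

/-- close elements have the same symbols -/
theorem close (hL : LSym lam sl 4) {a a0 : Eis} {N : ℕ} (h0 : a0 ≠ 0)
    (hN : V lam a0 + 4 ≤ N) (h : lam ^ N ∣ a - a0) :
    a ≠ 0 ∧ ∀ y : Eis, y ≠ 0 → sl a y = sl a0 y := by
  refine ⟨?_, fun y hy => hL.cont _ _ y h0 hy ((pow_dvd_pow lam hN).trans h)⟩
  rintro rfl
  have h1 : lam ^ N ∣ a0 := by
    have := (dvd_neg (a := lam ^ N)).2 h
    simpa using this
  have h2 := (fin prime_lam h0).le_multiplicity_of_pow_dvd h1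
  unfold V at hN
  omega

theorem cube_close (hL : LSym lam sl 4) {a h0 m : Eis} {N : ℕ} (hh : h0 ≠ 0) (hm : m ≠ 0)
    (hN : V lam (h0 ^ 3 * m) + 4 ≤ N) (h : lam ^ N ∣ a - h0 ^ 3 * m) :
    a ≠ 0 ∧ ∀ y : Eis, y ≠ 0 → sl a y = sl m y := by
  obtain ⟨h1, h2⟩ := close hL (mul_ne_zero (pow_ne_zero 3 hh) hm) hN h
  refine ⟨h1, fun y hy => ?_⟩
  rw [h2 y hy, hL.mul _ _ _ (pow_ne_zero 3 hh) hm hy, LEV.cube_left hL hh hy, zero_add]

/-- linear forms at good approximations of a cube root do not vanish -/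
theorem lf_ne {π : Eis} (hπ : Prime π) {p q r b : Eis} {N : ℕ} (hn : p ^ 3 + b * q ^ 3 ≠ 0)
    (hN : V π (p ^ 3 + b * q ^ 3) < N) (hr : π ^ N ∣ r ^ 3 - b) (i : ℕ) : LfE p q i r ≠ 0 := by
  intro h0
  unfold LfE at h0
  have h1 : q * w ^ i * r = -p := by linear_combination h0
  have h2 : (q * w ^ i * r) ^ 3 = (-p) ^ 3 := by rw [h1]
  have h3 : (w ^ i) ^ 3 = 1 := by rw [← pow_mul, mul_comm, pow_mul, w_cube, one_pow]
  have h4 : p ^ 3 + b * q ^ 3 = (-q ^ 3) * (r ^ 3 - b) := by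
    linear_combination h2 - q ^ 3 * r ^ 3 * h3
  have h5 : π ^ N ∣ p ^ 3 + b * q ^ 3 := by
    rw [h4]
    exact Dvd.dvd.mul_left hr _
  have h6 := (fin hπ hn).le_multiplicity_of_pow_dvd h5
  exact absurd h6 (not_le.2 hN)

end IIA

theorem IIA_thm (hSLC : SLC) (hIIAG : Stmt_IIAG) : Stmt_IIA := by
  intro b x p q p' q' X Y hb hx hLC hS hX hY hn hD
  have hL : LSym lam sl 4 := hSLC
  have heq := hS.eq
  have hn1 := hS.n1
  have hn2 := hS.n2
  have hH0 : p' ^ 3 + b * q' ^ 3 ≠ 0 := by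
    intro h0
    apply hn1
    rw [heq, h0, mul_zero]
  have hn3 : x * q' ^ 3 - q ^ 3 ≠ 0 := by
    intro h0
    apply hn2
    linear_combination heq + b * h0
  obtain ⟨H0, hH0d⟩ : ∃ H0, H0 = p' ^ 3 + b * q' ^ 3 := ⟨_, rfl⟩
  rw [← hH0d] at hH0
  set N0 := V lam (H0 ^ 3 * (X ^ 3 + x * Y ^ 3)) + V lam (H0 ^ 3 * (p ^ 3 - x * p' ^ 3)) +
    V lam (H0 ^ 3 * (x * q' ^ 3 - q ^ 3)) + V lam (p ^ 3 + b * q ^ 3) +
    V lam (p' ^ 3 + b * q' ^ 3) + V lam b + 5 with hN0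
  refine ⟨N0, fun r hr => ?_⟩
  obtain ⟨δ, hδ⟩ : ∃ δ : Eis, δ = r ^ 3 - b := ⟨_, rfl⟩
  have hδd : lam ^ N0 ∣ δ := by
    rw [hδ]
    exact hr
  have cls : ∀ {a a0 c : Eis}, a = a0 + δ * c → lam ^ N0 ∣ a - a0 := by
    intro a a0 c h
    have : a - a0 = δ * c := by
      rw [h]
      ring
    rw [this]
    exact Dvd.dvd.mul_right hδd _
  -- nonvanishing
  have hr0 : r ≠ 0 := by
    have h1 := IIA.close hL (a := r ^ 3) (a0 := b) (N := N0) hb (by omega)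
      (cls (c := 1) (by rw [hδ]; ring))
    intro h0
    apply h1.1
    rw [h0]
    ring
  obtain ⟨F, hF⟩ : ∃ F, F = p ^ 3 + r ^ 3 * q ^ 3 := ⟨_, rfl⟩
  obtain ⟨H, hH⟩ : ∃ H, H = p' ^ 3 + r ^ 3 * q' ^ 3 := ⟨_, rfl⟩
  have hFne : F ≠ 0 := (IIA.close hL (a := F) (a0 := p ^ 3 + b * q ^ 3) (N := N0) hn1 (by omega)
    (cls (c := q ^ 3) (by rw [hδ, hF]; ring))).1
  have hHne : H ≠ 0 := (IIA.close hL (a := H) (a0 := p' ^ 3 + b * q' ^ 3) (N := N0)
    (by rw [← hH0d]; exact hH0) (by omega) (cls (c := q' ^ 3) (by rw [hδ, hH]; ring))).1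
  have hHe : H = H0 + δ * q' ^ 3 := by rw [hH, hδ, hH0d]; ring
  have hFe : F = x * H0 + δ * q ^ 3 := by
    rw [hF, hδ, hH0d]
    linear_combination heq
  -- close numbers
  obtain ⟨k1, k1'⟩ := IIA.cube_close hL (a := (X * H) ^ 3 + F * H ^ 2 * Y ^ 3) (h0 := H0)
    (m := X ^ 3 + x * Y ^ 3) (N := N0) hH0 hn (by omega)
    (cls (c := X ^ 3 * (3 * H0 ^ 2 * q' ^ 3 + 3 * H0 * δ * q' ^ 6 + δ ^ 2 * q' ^ 9) +
      Y ^ 3 * (x * H0 * (2 * H0 * q' ^ 3 + δ * q' ^ 6) +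
        q ^ 3 * (H0 + δ * q' ^ 3) ^ 2)) (by rw [hHe, hFe]; ring))
  obtain ⟨k2, k2'⟩ := IIA.cube_close hL (a := (p * H) ^ 3 - F * H ^ 2 * p' ^ 3) (h0 := H0)
    (m := p ^ 3 - x * p' ^ 3) (N := N0) hH0 hn2 (by omega)
    (cls (c := p ^ 3 * (3 * H0 ^ 2 * q' ^ 3 + 3 * H0 * δ * q' ^ 6 + δ ^ 2 * q' ^ 9) -
      p' ^ 3 * (x * H0 * (2 * H0 * q' ^ 3 + δ * q' ^ 6) +
        q ^ 3 * (H0 + δ * q' ^ 3) ^ 2)) (by rw [hHe, hFe]; ring))
  obtain ⟨k3, k3'⟩ := IIA.cube_close hL (a := F * H ^ 2 * q' ^ 3 - (q * H) ^ 3) (h0 := H0)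
    (m := x * q' ^ 3 - q ^ 3) (N := N0) hH0 hn3 (by omega)
    (cls (c := q' ^ 3 * (x * H0 * (2 * H0 * q' ^ 3 + δ * q' ^ 6) +
        q ^ 3 * (H0 + δ * q' ^ 3) ^ 2) -
      q ^ 3 * (3 * H0 ^ 2 * q' ^ 3 + 3 * H0 * δ * q' ^ 6 + δ ^ 2 * q' ^ 9))
      (by rw [hHe, hFe]; ring))
  have eD : ∀ i, DfE (X * H) Y p' (p * H) i = H * DfE X Y p' p i := by
    intro i
    unfold DfE
    ring
  have eD' : ∀ i, DfE (X * H) Y q' (q * H) i = H * DfE X Y q' q i := by
    intro i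
    unfold DfE
    ring
  have eG : ∀ i, GfE (p * H) (q * H) p' q' i = H * GfE p q p' q' i := by
    intro i
    unfold GfE
    ring
  have eL : ∀ i, LfE (p * H) (q * H) i r = H * LfE p q i r := by
    intro i
    unfold LfE
    ring
  -- the global identity
  have hSt : SolE (r ^ 3) (F * H ^ 2) (p * H) (q * H) p' q' := by
    refine ⟨⟨?_, ?_⟩, k2, ?_, ?_⟩
    · rw [← hH]
      linear_combination (-(H ^ 3)) * hF
    · have : (p * H) ^ 3 + r ^ 3 * (q * H) ^ 3 = F * H ^ 3 := by rw [hF]; ring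
      rw [this]
      exact mul_ne_zero hFne (pow_ne_zero 3 hHne)
    · rw [eG]
      exact mul_ne_zero hHne hS.g1
    · rw [eG]
      exact mul_ne_zero hHne hS.g2
  have hDt : DNE (X * H) Y (p * H) (q * H) p' q' := by
    refine ⟨?_, ?_, ?_, ?_⟩
    · rw [eD]
      exact mul_ne_zero hHne hD.d1
    · rw [eD]
      exact mul_ne_zero hHne hD.d2
    · rw [eD']
      exact mul_ne_zero hHne hD.d3
    · rw [eD']
      exact mul_ne_zero hHne hD.d4
  have key := hIIAG r (F * H ^ 2) (p * H) (q * H) p' q' (X * H) Y hr0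
    (mul_ne_zero hFne (pow_ne_zero 2 hHne)) hSt (mul_ne_zero hX hHne) hY k1 hDt
  -- the forms
  have hLf : ∀ i, LfE p q i r ≠ 0 :=
    IIA.lf_ne prime_lam (N := N0) hn1 (by omega) hr
  have hLf' : ∀ i, LfE p' q' i r ≠ 0 :=
    IIA.lf_ne prime_lam (N := N0) (b := b) (by rw [← hH0d]; exact hH0) (by omega) hr
  -- symbols
  have skl : ∀ {m a : Eis}, a ≠ 0 → m ≠ 0 → (∀ y : Eis, y ≠ 0 → sl a y = sl m y) →
      ∀ y : Eis, y ≠ 0 → sl y a = sl y m := by
    intro m a ha hm h y hy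
    rw [hL.skew _ _ ha hy, hL.skew _ _ hm hy, h y hy]
  have j1 := skl k1 hn k1'
  have j2 := skl k2 hn2 k2'
  have j3 := skl k3 hn3 k3'
  have c1 : ∀ {m : Eis} (hm : m ≠ 0) {u v : Eis} (hu : u ≠ 0) (hv : v ≠ 0),
      sl (H * u) m - sl (H * v) m = sl u m - sl v m := by
    intro m hm u v hu hv
    rw [hL.mul _ _ _ hHne hu hm, hL.mul _ _ _ hHne hv hm]
    ring
  have c2 : ∀ {m : Eis} (hm : m ≠ 0) {u v : Eis} (hu : u ≠ 0) (hv : v ≠ 0),
      sl m (H * u) - sl m (H * v) = sl m u - sl m v := by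
    intro m hm u v hu hv
    rw [LEV.mul_right hL hHne hu hm, LEV.mul_right hL hHne hv hm]
    ring
  unfold SVE ASE at key
  unfold SVE ASE
  rw [eD, eD, eD', eD', eG, eG, eL, eL] at key
  have f1 := hD.d1
  have f2 := hD.d2
  have f3 := hD.d3
  have f4 := hD.d4
  have f5 := hS.g1
  have f6 := hS.g2
  have g1 := c1 k2 f1 f2
  have g2 := c1 k1 f1 f2
  have g3 := c1 k3 f3 f4
  have g4 := c1 k1 f3 f4
  have g5 := c2 k1 f5 f6
  have g6 := c2 k1 (hLf 2) (hLf 1)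
  rw [j2 _ f1, j2 _ f2] at g1
  rw [j1 _ f1, j1 _ f2] at g2
  rw [j3 _ f3, j3 _ f4] at g3
  rw [j1 _ f3, j1 _ f4] at g4
  rw [k1' _ f5, k1' _ f6] at g5
  rw [k1' _ (hLf 2), k1' _ (hLf 1)] at g6
  have g7 := k1' _ (hLf' 1)
  have g8 := k1' _ (hLf' 2)
  have g9 := j1 _ LEV.w_ne
  linear_combination key - g1 + g2 + g3 - g4 + g5 + g9 - g6 - g7 + g8

end Pool.Agent.PTK


end

section

/-!
# The joint governing field: summary for `Q = 1 (mod 3)`, generic pattern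
-/

set_option autoImplicit false

open NumberField IsDedekindDomain Finset
open scoped nonZeroDivisors Pointwise

namespace Pool.Agent.PTK

open Pool.Agent.Lib_helper18 Pool.Agent.Lib_helper18.Eis Pool.Agent.Lib_helper84.Cub
open Pool.Agent.PT Pool.Agent.PTE Pool.Agent.PT3 Pool.Agent.PTL Pool.Agent.PTN
open Pool.Agent.PT.GALD Pool.Agent.PTE.GALDS

namespace JAU

variable {L : Type} [Field L] [NumberField L]

theorem inv_sq {ι : Eis →+* L} {τ : L ≃ₐ[ℚ] L} (hτ : τ (ι w) = ι w ^ 2) :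
    τ⁻¹ (ι w) = ι w ^ 2 := by
  have h1 : τ (ι w ^ 2) = ι w := by rw [map_pow, hτ, GAK.om4]
  conv_lhs => rw [← h1]
  rw [← AlgEquiv.mul_apply, inv_mul_cancel]
  rfl

theorem conj_om {ι : Eis →+* L} {g : L ≃ₐ[ℚ] L} (hg : g (ι w) = ι w) (τ : L ≃ₐ[ℚ] L) :
    (τ * g * τ⁻¹) (ι w) = ι w := by
  rcases GAK.cases_om ι τ with hτ | hτ
  · rw [AlgEquiv.mul_apply, AlgEquiv.mul_apply, GAK.inv_fix hτ, hg, hτ]
  · rw [AlgEquiv.mul_apply, AlgEquiv.mul_apply, inv_sq hτ, map_pow, hg, map_pow, hτ, GAK.om4]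

theorem mul_om {ι : Eis →+* L} {g h : L ≃ₐ[ℚ] L} (hg : g (ι w) = ι w ^ 2)
    (hh : h (ι w) = ι w ^ 2) : (g * h) (ι w) = ι w := by
  rw [AlgEquiv.mul_apply, hh, map_pow, hg, GAK.om4]

theorem pow_fix {g : L ≃ₐ[ℚ] L} {y : L} (h : g y = y) (l : ℕ) : (g ^ l) y = y := by
  induction l with
  | zero => rfl
  | succ l ih => rw [pow_succ, AlgEquiv.mul_apply, h, ih]

theorem neg_val : ∀ a c : ZMod 3, (2 * (-a).val + c.val) % 3 = (c + a).val % 3 := by decide

theorem two_mul_two : ∀ a : ZMod 3, 2 * a + 2 * a = a := by decide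

end JAU

theorem JAU_thm (hJZ : Stmt_JZ) (hGCHI : GCHI) (hGTS : GTS) (hGKUM : GKUM)
    (hGFRU : Stmt_GFRU) (hGTU : Stmt_GTU) (hGFKU : Stmt_GFKU) (hJC1 : Stmt_JC1)
    (hJC2 : Stmt_JC2) : Stmt_JAU := by
  classical
  intro s b p q p' q' k x u P Q P' Q' f hSys hSysK hf h9
  obtain ⟨L, hF, hN, ζ, ι, hJ⟩ := hJZ (s + 1) k b p q p' q' x u P Q P' Q' f hSys hSysK hf h9
  have hG := hJ.plus
  have hGK := hJ.minus
  have hgal := hG.gal
  obtain ⟨χ, hχs, hχζ, hχF⟩ := hGCHI L f ζ hf hG.prim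
  obtain ⟨N₁, hFr⟩ := hGFRU s b p q p' q' f L ζ (ι w) hSys hG
  obtain ⟨N₂, hFrK⟩ := hGFKU k x u P Q P' Q' f L ζ ι hSysK hGK
  have hω3 : ι w ^ 3 = 1 := om_cube hG.rel
  have hf1 : 1 < f := by
    obtain ⟨c, hc⟩ := h9
    omega
  have h3f : 3 ∣ f := (by norm_num : (3 : ℕ) ∣ 9).trans h9
  have hfz : NeZero f := ⟨hf.ne'⟩
  obtain ⟨hT1, hT⟩ := hGTS s b p q p' q' f L ζ (ι w) hSys hG
  obtain ⟨hU1, hU2, hU⟩ := hGTU k x u P Q P' Q' f L ζ ι hSysK hGK
  -- action on ω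
  have hωχ : ∀ g : L ≃ₐ[ℚ] L, g (ι w) = ι w ^ ((χ g : ZMod f)).val := by
    intro g
    rw [hG.hω, map_pow, hχζ g, ← pow_mul, mul_comm, pow_mul, ← hG.hω]
  have hM : ∀ g : L ≃ₐ[ℚ] L, M1 (χ g) → g (ι w) = ι w := by
    intro g hg
    rw [hωχ g]
    conv_rhs => rw [← pow_one (ι w)]
    apply om_congr hω3
    unfold M1 at hg
    omega
  -- an automorphism with `c ω = ω²`
  obtain ⟨c, hc⟩ : ∃ c : L ≃ₐ[ℚ] L, c (ι w) = ι w ^ 2 := by
    have h1 : (f - 1).Coprime f := by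
      have h2 : (f - 1).Coprime (f - 1 + 1) := by simp
      rwa [Nat.sub_add_cancel hf] at h2
    obtain ⟨c, hc⟩ := hχs (ZMod.unitOfCoprime (f - 1) h1)
    refine ⟨c, ?_⟩
    rw [hωχ c, hc, ZMod.coe_unitOfCoprime, ZMod.val_natCast, Nat.mod_eq_of_lt (by omega)]
    apply om_congr hω3
    omega
  have hc' : c⁻¹ (ι w) = ι w ^ 2 := JAU.inv_sq hc
  have hb0 : ∀ j, b j ≠ 0 := by
    intro j h0
    refine hSys.ind (Pi.single j 1) ⟨j, by simp⟩ ⟨0, ?_⟩
    have h1 : ∏ i, b i ^ (Pi.single j 1 : Fin (s + 1) → ℕ) i = 0 := by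
      refine Finset.prod_eq_zero (Finset.mem_univ j) ?_
      rw [Pi.single_eq_same, pow_one, h0]
    rw [h1]
    norm_num
  have hz1 : ∀ z : L ≃ₐ[ℚ] L, z ζ = ζ → z (ι w) = ι w ∧ χ z = 1 := by
    intro z hzζ
    refine ⟨by rw [hG.hω, map_pow, hzζ], ?_⟩
    have h1 := hχζ z
    rw [hzζ] at h1
    have h2 : ((χ z : ZMod f)).val = 1 := by
      apply hG.prim.pow_inj (ZMod.val_lt _) hf1
      rw [← h1, pow_one]
    apply Units.ext
    have h3 := ZMod.natCast_zmod_val (χ z : ZMod f)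
    rw [h2] at h3
    rw [← h3]
    simp
  let t : (L ≃ₐ[ℚ] L) → Fin s → Fin s → ZMod 3 := fun g j i =>
    if h : j ≠ i ∧ g (ι w) = ι w ∧ Fx b g then ((hT j i h.1).1 g h.2.1 h.2.2).choose else 0
  have ht : ∀ (g : L ≃ₐ[ℚ] L) (j i : Fin s), j ≠ i → g (ι w) = ι w → Fx b g →
      IsTS b p q p' q' (ι w) g j.castSucc i.castSucc (t g j i) := by
    intro g j i hji hg hF
    have h : j ≠ i ∧ g (ι w) = ι w ∧ Fx b g := ⟨hji, hg, hF⟩
    have e : t g j i = ((hT j i h.1).1 g h.2.1 h.2.2).choose := dif_pos h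
    rw [e]
    exact ((hT j i h.1).1 g h.2.1 h.2.2).choose_spec.1
  have htu : ∀ (g : L ≃ₐ[ℚ] L) (j i : Fin s) (c : ZMod 3), j ≠ i → g (ι w) = ι w → Fx b g →
      IsTS b p q p' q' (ι w) g j.castSucc i.castSucc c → t g j i = c := by
    intro g j i c hji hg hF hc
    exact ((hT j i hji).1 g hg hF).unique (ht g j i hji hg hF) hc
  -- the minus part
  let F₂ : (L ≃ₐ[ℚ] L) → Prop := fun g => g (ι w) = ι w ∧ FxU x u ι g
  let t₂ : (L ≃ₐ[ℚ] L) → Fin k → ZMod 3 := fun g j =>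
    if h : F₂ g then ((hU j).1 g h.1 h.2).choose else 0
  have ht₂ : ∀ (g : L ≃ₐ[ℚ] L) (j : Fin k), F₂ g → IsTU x P Q P' Q' ι g j (t₂ g j) := by
    intro g j h
    have e : t₂ g j = ((hU j).1 g h.1 h.2).choose := dif_pos h
    rw [e]
    exact ((hU j).1 g h.1 h.2).choose_spec.1
  have htu₂ : ∀ (g : L ≃ₐ[ℚ] L) (j : Fin k) (c : ZMod 3), F₂ g →
      IsTU x P Q P' Q' ι g j c → t₂ g j = c := by
    intro g j c h hc
    exact ((hU j).1 g h.1 h.2).unique (ht₂ g j h) hc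
  have hF₂c : ∀ g τ : L ≃ₐ[ℚ] L, F₂ g → F₂ (τ * g * τ⁻¹) := fun g τ h =>
    ⟨JAU.conj_om h.1 τ, hU1 g τ h.1 h.2⟩
  have htc : ∀ (g τ : L ≃ₐ[ℚ] L) (j : Fin k), F₂ g → τ (ι w) = ι w →
      t₂ (τ * g * τ⁻¹) j = t₂ g j := by
    intro g τ j hg hτ
    exact htu₂ _ _ _ (hF₂c g τ hg) ((hU j).2.1 g τ _ hg.1 hg.2 hτ (ht₂ g j hg))
  let T : (L ≃ₐ[ℚ] L) → Fin k → ZMod 3 := fun g j => t₂ g j + t₂ (c * g * c⁻¹) j
  refine ⟨L, hF, hN, hG.gal, χ, Fx b, t, F₂, T, max N₁ N₂, hχs, ?_, ?_, ?_, ?_, ?_, ?_, ?_⟩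
  · intro g τ hg hFg
    obtain ⟨_, h1, _⟩ := hT1 g (hM g hg) hFg
    obtain ⟨h2, h3⟩ := h1 τ
    refine ⟨h3, fun j i hji => ?_⟩
    exact htu _ _ _ _ hji h2 h3 ((hT j i hji).2.1 g τ _ (hM g hg) hFg (ht g j i hji (hM g hg) hFg))
  · intro g l hg hFg hl
    obtain ⟨_, _, h1⟩ := hT1 g (hM g hg) hFg
    obtain ⟨h2, h3⟩ := h1 l
    refine ⟨h3 hl, fun j i hji => ?_⟩
    exact htu _ _ _ _ hji h2 (h3 hl) ((hT j i hji).2.2 g _ l (hM g hg)
      (ht g j i hji (hM g hg) hFg))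
  · intro g τ _ hg
    refine ⟨hF₂c g τ hg, funext fun j => ?_⟩
    show t₂ (τ * g * τ⁻¹) j + t₂ (c * (τ * g * τ⁻¹) * c⁻¹) j = t₂ g j + t₂ (c * g * c⁻¹) j
    rcases GAK.cases_om ι τ with hτ | hτ
    · rw [htc g τ j hg hτ]
      have e : c * (τ * g * τ⁻¹) * c⁻¹ = (c * τ * c⁻¹) * (c * g * c⁻¹) * (c * τ * c⁻¹)⁻¹ := by
        group
      rw [e, htc (c * g * c⁻¹) (c * τ * c⁻¹) j (hF₂c g c hg) (JAU.conj_om hτ c)]
    · have e1 : τ * g * τ⁻¹ = (τ * c⁻¹) * (c * g * c⁻¹) * (τ * c⁻¹)⁻¹ := by group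
      have e2 : c * (τ * g * τ⁻¹) * c⁻¹ = (c * τ) * g * (c * τ)⁻¹ := by group
      rw [e2, htc g (c * τ) j hg (JAU.mul_om hc hτ), e1,
        htc (c * g * c⁻¹) (τ * c⁻¹) j (hF₂c g c hg) (JAU.mul_om hτ hc')]
      ring
  · intro g l _ hg
    have hpow : ∀ (g : L ≃ₐ[ℚ] L), F₂ g → F₂ (g ^ l) := by
      intro g hg
      exact ⟨JAU.pow_fix hg.1 l, hU2 g l hg.2⟩
    have ht' : ∀ (g : L ≃ₐ[ℚ] L), F₂ g → ∀ j, t₂ (g ^ l) j = l * t₂ g j := by
      intro g hg j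
      exact htu₂ _ _ _ (hpow g hg) ((hU j).2.2 g _ l hg.1 (ht₂ g j hg))
    refine ⟨hpow g hg, funext fun j => ?_⟩
    show t₂ (g ^ l) j + t₂ (c * g ^ l * c⁻¹) j = (l : ZMod 3) * (t₂ g j + t₂ (c * g * c⁻¹) j)
    have e : c * g ^ l * c⁻¹ = (c * g * c⁻¹) ^ l := by rw [conj_pow]
    rw [e, ht' g hg j, ht' _ (hF₂c g c hg) j]
    ring
  · intro a v v' y y' ha
    obtain ⟨z₁, hz₁, hz₁P, hz₁M⟩ := hJC1 (s + 1) k b p q p' q' x u P Q P' Q' f L ζ ι hSys hSysK
      hJ (fun j => 2 * (y' j - y j))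
    obtain ⟨z₂, hz₂, hz₂P, hz₂M⟩ := hJC2 (s + 1) k b p q p' q' x u P Q P' Q' f L ζ ι hSys hSysK
      hJ (fun j i => if h : j ≠ Fin.last s ∧ i ≠ Fin.last s then
        v' (j.castPred h.1) (i.castPred h.2) - v (j.castPred h.1) (i.castPred h.2) else 0)
    obtain ⟨hz₁ω, hχz₁⟩ := hz1 z₁ hz₁.ze
    obtain ⟨hz₂ω, hχz₂⟩ := hz1 z₂ hz₂.ze
    set z := z₁ * z₂ with hz
    have hzω : z (ι w) = ι w := by rw [hz, AlgEquiv.mul_apply, hz₂ω, hz₁ω]
    have hχz : χ z = 1 := by rw [hz, map_mul, hχz₁, hχz₂, mul_one]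
    have hzρ : ∀ (j : Fin (s + 1)) (ρ : L), ρ ^ 3 = (b j : L) → z ρ = ρ := by
      intro j ρ hρ
      rw [hz, AlgEquiv.mul_apply, hz₂.rb j ρ hρ, hz₁.rb j ρ hρ]
    have hzx : ∀ ρ : L, ρ ^ 3 = ι x → z ρ = ρ := by
      intro ρ hρ
      rw [hz, AlgEquiv.mul_apply, hz₂.rx ρ hρ, hz₁.rx ρ hρ]
    have hzu : ∀ (j : Fin k) (ρ : L), ρ ^ 3 = ι (u j) → z ρ = ρ := by
      intro j ρ hρ
      rw [hz, AlgEquiv.mul_apply, hz₂.ru j ρ hρ, hz₁.ru j ρ hρ]
    have hFz : ∀ g : L ≃ₐ[ℚ] L, Fx b (g * z) ↔ Fx b g := by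
      intro g
      have h1 : ∀ (j : Fin (s + 1)) (ρ : L), ρ ^ 3 = (b j : L) → (g * z) ρ = g ρ := by
        intro j ρ hρ
        rw [AlgEquiv.mul_apply, hzρ j ρ hρ]
      unfold Fx
      constructor
      · rintro ⟨h2, h3⟩
        exact ⟨fun j ρ hρ => by rw [← h1 _ ρ hρ]; exact h2 j ρ hρ,
          fun ρ hρ => by rw [← h1 _ ρ hρ]; exact h3 ρ hρ⟩
      · rintro ⟨h2, h3⟩
        exact ⟨fun j ρ hρ => by rw [h1 _ ρ hρ]; exact h2 j ρ hρ,
          fun ρ hρ => by rw [h1 _ ρ hρ]; exact h3 ρ hρ⟩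
    have hF₂z : ∀ g : L ≃ₐ[ℚ] L, F₂ (g * z) ↔ F₂ g := by
      intro g
      have h1 : ∀ ρ : L, ρ ^ 3 = ι x → (g * z) ρ = g ρ := by
        intro ρ hρ
        rw [AlgEquiv.mul_apply, hzx ρ hρ]
      have h2 : ∀ (j : Fin k) (ρ : L), ρ ^ 3 = ι (u j) → (g * z) ρ = g ρ := by
        intro j ρ hρ
        rw [AlgEquiv.mul_apply, hzu j ρ hρ]
      have h3 : (g * z) (ι w) = g (ι w) := by rw [AlgEquiv.mul_apply, hzω]
      show ((g * z) (ι w) = ι w ∧ FxU x u ι (g * z)) ↔ (g (ι w) = ι w ∧ FxU x u ι g)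
      rw [h3]
      unfold FxU
      constructor
      · rintro ⟨h4, h5, h6⟩
        exact ⟨h4, fun ρ hρ => by rw [← h1 ρ hρ]; exact h5 ρ hρ,
          fun j ρ hρ => by rw [← h2 j ρ hρ]; exact h6 j ρ hρ⟩
      · rintro ⟨h4, h5, h6⟩
        exact ⟨h4, fun ρ hρ => by rw [h1 ρ hρ]; exact h5 ρ hρ,
          fun j ρ hρ => by rw [h2 j ρ hρ]; exact h6 j ρ hρ⟩
    have key : ∀ g : L ≃ₐ[ℚ] L, g (ι w) = ι w → Fx b g → ∀ j i, j < i →
        t (g * z) j i = (v' j i - v j i) + t g j i := by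
      intro g hg hFg j i hji
      have hgz : (g * z) (ι w) = ι w := by rw [AlgEquiv.mul_apply, hzω, hg]
      apply htu _ _ _ _ hji.ne hgz ((hFz g).2 hFg)
      intro ρ A hρ hA
      have h1 := ht g j i hji.ne hg hFg ρ A hρ hA
      have hlt : j.castSucc < i.castSucc := Fin.castSucc_lt_castSucc_iff.2 hji
      have h2 := hz₂P j.castSucc i.castSucc ρ A hlt ⟨hρ, hA⟩
      have h2' := hz₁P j.castSucc i.castSucc ρ A hlt.ne ⟨hρ, hA⟩
      have h3 : j.castSucc ≠ Fin.last s ∧ i.castSucc ≠ Fin.last s :=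
        ⟨(Fin.castSucc_lt_last j).ne, (Fin.castSucc_lt_last i).ne⟩
      simp only [dif_pos h3, Fin.castPred_castSucc] at h2
      rw [AlgEquiv.mul_apply, hz, AlgEquiv.mul_apply, h2, map_mul, map_pow, hz₁ω, h2', map_mul,
        map_pow, hg, h1, ← mul_assoc, om_add hω3]
    have key₂ : ∀ g : L ≃ₐ[ℚ] L, F₂ g → T (g * z) = T g + (y' - y) := by
      intro g hg
      funext j
      have hgz : F₂ (g * z) := (hF₂z g).2 hg
      have e1 : t₂ (g * z) j = 2 * (y' j - y j) + t₂ g j := by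
        apply htu₂ _ _ _ hgz
        intro ρ A hA
        have h1 := ht₂ g j hg ρ A hA
        rw [AlgEquiv.mul_apply, hz, AlgEquiv.mul_apply, (hz₂M j ρ A hA).1, (hz₁M j ρ A hA).1,
          map_mul, map_pow, hg.1, h1, ← mul_assoc, om_add hω3]
      have e2 : t₂ (c * (g * z) * c⁻¹) j = t₂ (c * g * c⁻¹) j + 2 * (y' j - y j) := by
        apply htu₂ _ _ _ (hF₂c _ c hgz)
        intro ρ A hA
        have h1 := ht₂ (c * g * c⁻¹) j (hF₂c g c hg) ρ A hA
        have h2 : (c * (g * z) * c⁻¹) A = c (g (z₁ (z₂ (c⁻¹ A)))) := by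
          rw [hz]
          rfl
        have h3 : (c * g * c⁻¹) A = c (g (c⁻¹ A)) := rfl
        rw [h3] at h1
        rw [h2, (hz₂M j ρ A hA).2 c⁻¹ hc', (hz₁M j ρ A hA).2 c⁻¹ hc', map_mul, map_pow, hg.1,
          map_mul, map_pow, hc, h1, ← mul_assoc, ← pow_mul, ← pow_add]
        congr 1
        apply om_congr hω3
        exact JAU.neg_val _ _
      show t₂ (g * z) j + t₂ (c * (g * z) * c⁻¹) j =
        t₂ g j + t₂ (c * g * c⁻¹) j + (y' j - y j)
      rw [e1, e2]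
      have e3 := JAU.two_mul_two (y' j - y j)
      linear_combination e3
    apply Nat.card_congr
    refine Equiv.subtypeEquiv (Equiv.mulRight z) ?_
    intro g
    have hχ : χ (g * z) = χ g := by rw [map_mul, hχz, mul_one]
    show (χ g = a ∧ Fx b g ∧ F₂ g ∧ T g = y ∧ ∀ j i, j < i → t g j i = v j i) ↔
      (χ (g * z) = a ∧ Fx b (g * z) ∧ F₂ (g * z) ∧ T (g * z) = y' ∧
        ∀ j i, j < i → t (g * z) j i = v' j i)
    rw [hχ, hFz g, hF₂z g]
    constructor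
    · rintro ⟨h1, h2, h3, h4, h5⟩
      refine ⟨h1, h2, h3, ?_, fun j i hji => ?_⟩
      · rw [key₂ g h3, h4]
        abel
      · rw [key g (hM g (by rw [h1]; exact ha)) h2 j i hji, h5 j i hji]
        ring
    · rintro ⟨h1, h2, h3, h4, h5⟩
      refine ⟨h1, h2, h3, ?_, fun j i hji => ?_⟩
      · rw [key₂ g h3] at h4
        funext j
        have h6 := congrFun h4 j
        simp only [Pi.add_apply, Pi.sub_apply] at h6
        linear_combination h6
      · have h6 := h5 j i hji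
        rw [key g (hM g (by rw [h1]; exact ha)) h2 j i hji] at h6
        linear_combination h6
  · intro a ha
    choose θ hθ using hG.root
    have hθ0 : ∀ j, θ j ≠ 0 := by
      intro j h0
      have h1 := hθ j
      rw [h0] at h1
      apply hb0 j
      have h2 : ((b j : ℤ) : L) = 0 := by rw [← h1]; norm_num
      exact_mod_cast h2
    have hex : ∀ (g : L ≃ₐ[ℚ] L) (j : Fin (s + 1)), ∃ u : ZMod 3,
        g (θ j) = ι w ^ u.val * θ j := by
      intro g j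
      apply cube_root hG.rel
      rw [← map_pow, hθ j, map_intCast]
    choose uu huu using hex
    have huniq : ∀ (g : L ≃ₐ[ℚ] L) (j : Fin (s + 1)) (u : ZMod 3),
        g (θ j) = ι w ^ u.val * θ j → uu g j = u := by
      intro g j u h
      apply om_zmod_inj hG.rel (hθ0 j)
      rw [← huu g j, h]
    -- criterion for `Fx`
    have hFu : ∀ g : L ≃ₐ[ℚ] L, g (ι w) = ι w → (Fx b g ↔
        (∀ j : Fin s, uu g j.castSucc = 0) ∧ uu g (Fin.last s) ≠ 0) := by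
      intro g hg
      constructor
      · rintro ⟨h1, h2⟩
        refine ⟨fun j => ?_, fun h0 => ?_⟩
        · apply huniq
          rw [h1 j _ (hθ _)]
          simp
        · apply h2 _ (hθ _)
          rw [huu, h0]
          simp
      · rintro ⟨h1, h2⟩
        have h3 : ∀ (j : Fin (s + 1)) (ρ : L), ρ ^ 3 = (b j : L) →
            g ρ = ι w ^ (uu g j).val * ρ := by
          intro j ρ hρ
          obtain ⟨u, hu⟩ := cube_root hG.rel (θ := θ j) (ρ := ρ) (by rw [hρ, hθ])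
          rw [hu, map_mul, map_pow, hg, huu]
          ring
        refine ⟨fun j ρ hρ => ?_, fun ρ hρ h4 => ?_⟩
        · rw [h3 _ ρ hρ, h1 j]
          simp
        · rw [h3 _ ρ hρ] at h4
          have hρ0 : ρ ≠ 0 := by
            intro h0
            rw [h0] at hρ
            apply hb0 (Fin.last s)
            have h5 : ((b (Fin.last s) : ℤ) : L) = 0 := by rw [← hρ]; norm_num
            exact_mod_cast h5
          apply h2
          apply om_zmod_inj hG.rel hρ0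
          rw [h4]
          simp
    have hfib : ∀ w₁ w' : Fin (s + 1) → ZMod 3,
        (univ.filter fun g : L ≃ₐ[ℚ] L => χ g = a ∧ uu g = w₁).card =
        (univ.filter fun g : L ≃ₐ[ℚ] L => χ g = a ∧ uu g = w').card := by
      intro w₁ w'
      obtain ⟨z, hzζ, hzρ⟩ := hGKUM (s + 1) b p q p' q' f L ζ (ι w) hSys hG (w' - w₁)
      obtain ⟨hzω, hχz⟩ := hz1 z hzζ
      have key : ∀ g : L ≃ₐ[ℚ] L, g (ι w) = ι w → uu (g * z) = (w' - w₁) + uu g := by
        intro g hg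
        funext j
        apply huniq
        rw [AlgEquiv.mul_apply, hzρ j _ (hθ j), map_mul, map_pow, hg, huu, ← mul_assoc,
          om_add hω3]
        rfl
      refine Finset.card_bij (fun g _ => g * z) ?_ ?_ ?_
      · intro g hg
        rw [mem_filter] at hg ⊢
        obtain ⟨_, h1, h2⟩ := hg
        refine ⟨mem_univ _, by rw [map_mul, hχz, mul_one, h1], ?_⟩
        rw [key g (hM g (by rw [h1]; exact ha)), h2]
        abel
      · intro g _ g' _ e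
        exact mul_right_cancel e
      · intro g hg
        rw [mem_filter] at hg
        obtain ⟨_, h1, h2⟩ := hg
        have h3 : g * z⁻¹ * z = g := inv_mul_cancel_right g z
        have h4 : χ (g * z⁻¹) = a := by rw [map_mul, map_inv, hχz, inv_one, mul_one, h1]
        refine ⟨g * z⁻¹, ?_, h3⟩
        rw [mem_filter]
        refine ⟨mem_univ _, h4, ?_⟩
        have h5 := key (g * z⁻¹) (hM _ (by rw [h4]; exact ha))
        rw [h3, h2] at h5
        funext j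
        have h7 := congrFun h5 j
        simp only [Pi.add_apply, Pi.sub_apply] at h7
        linear_combination (-1 : ZMod 3) * h7
    have hsub : ∀ (D : Finset (Fin (s + 1) → ZMod 3)),
        (univ.filter fun g : L ≃ₐ[ℚ] L => χ g = a ∧ uu g ∈ D).card =
        D.card * (univ.filter fun g : L ≃ₐ[ℚ] L => χ g = a ∧ uu g = 0).card := by
      intro D
      rw [Finset.card_eq_sum_card_fiberwise (f := uu) (t := D)]
      · rw [← smul_eq_mul, ← Finset.sum_const]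
        refine Finset.sum_congr rfl fun w₁ hw => ?_
        rw [← hfib w₁ 0, Finset.filter_filter]
        congr 1
        apply Finset.filter_congr
        intro g _
        constructor
        · rintro ⟨⟨h1, _⟩, h2⟩
          exact ⟨h1, h2⟩
        · rintro ⟨h1, h2⟩
          exact ⟨⟨h1, by rw [h2]; exact hw⟩, h2⟩
      · intro g hg
        have h1 := (mem_filter.1 (Finset.mem_coe.1 hg)).2.2
        exact h1
    have h1 : Nat.card {g : L ≃ₐ[ℚ] L // χ g = a} =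
        3 ^ (s + 1) * (univ.filter fun g : L ≃ₐ[ℚ] L => χ g = a ∧ uu g = 0).card := by
      rw [Nat.card_eq_fintype_card, Fintype.card_subtype]
      have h2 := hsub univ
      simp only [mem_univ, and_true] at h2
      rw [h2, Finset.card_univ, Fintype.card_fun, ZMod.card, Fintype.card_fin]
    have h2 : Nat.card {g : L ≃ₐ[ℚ] L // χ g = a ∧ Fx b g} =
        2 * (univ.filter fun g : L ≃ₐ[ℚ] L => χ g = a ∧ uu g = 0).card := by
      rw [Nat.card_eq_fintype_card, Fintype.card_subtype]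
      have h2 := hsub (univ.filter fun w₁ : Fin (s + 1) → ZMod 3 =>
        (∀ j : Fin s, w₁ j.castSucc = 0) ∧ w₁ (Fin.last s) ≠ 0)
      rw [card_good] at h2
      rw [← h2]
      congr 1
      apply Finset.filter_congr
      intro g _
      constructor
      · rintro ⟨h3, h4⟩
        refine ⟨h3, mem_filter.2 ⟨mem_univ _, ?_⟩⟩
        exact (hFu g (hM g (by rw [h3]; exact ha))).1 h4
      · rintro ⟨h3, h4⟩
        exact ⟨h3, (hFu g (hM g (by rw [h3]; exact ha))).2 (mem_filter.1 h4).2⟩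
    rw [h1, h2]
    ring
  · intro N hN hNp hN₀ I g hI hNI hst
    have hfin := GFR.quo_finite hNp hI hNI
    obtain ⟨l, hl, hfr⟩ := GFR.exists_frob_gen (R := ℤ) I g hst
    have hχl := hχF N hN hNp I (g ^ l) hI hNI hfr
    refine ⟨l, hl, hχl, fun hN3 ρ hρ => ?_⟩
    obtain ⟨h1, h2⟩ := hFr N hNp (lt_of_le_of_lt (le_max_left _ _) hN₀) hN3 I hI hNI (g ^ l) hfr
      ρ hρ
    have hM1 : M1 (χ (g ^ l)) := by
      unfold M1
      rw [hχl, ZMod.coe_unitOfCoprime, ZMod.val_natCast, Nat.mod_mod_of_dvd _ h3f]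
      exact hN3
    refine ⟨h1, fun hF j i hji r hr => ?_, fun hx hu => ?_⟩
    · exact h2 hF j i hji r _ hr (ht (g ^ l) j i hji (hM _ hM1) hF)
    · obtain ⟨h3, h4, h5⟩ := hFrK N hNp (lt_of_le_of_lt (le_max_right _ _) hN₀) hN3 I hI hNI
        (g ^ l) hfr ρ hρ hx hu
      have h6 : F₂ (g ^ l) := ⟨h3, h4⟩
      refine ⟨h6, fun j r r' hr hr' => ?_⟩
      exact h5 c hc j r r' _ _ hr hr' (ht₂ (g ^ l) j h6) (ht₂ _ j (hF₂c (g ^ l) c h6))

end Pool.Agent.PTK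


end

section

/-!
# All moments: the joint governing field, summary for `Q = 1 (mod 3)`, generic pattern

Copy of `PTK/JAU.lean` for several base classes.
-/

set_option autoImplicit false

open NumberField IsDedekindDomain Finset
open scoped nonZeroDivisors Pointwise

namespace Pool.Agent.PTK

open Pool.Agent.Lib_helper18 Pool.Agent.Lib_helper18.Eis Pool.Agent.Lib_helper84.Cub
open Pool.Agent.PT Pool.Agent.PTE Pool.Agent.PT3 Pool.Agent.PTL Pool.Agent.PTN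
open Pool.Agent.PT.GALD Pool.Agent.PTE.GALDS

namespace MAU

/-- one class of a system, no pairs -/
theorem sysZero {M N : ℕ} {z : Fin M → Eis} {α β : Fin N → Fin M} {P Q P' Q' : Fin N → Eis}
    (hS : SysZ z α β P Q P' Q') (i : Fin M) :
    SysK (z i) (Fin.elim0 : Fin 0 → Eis) Fin.elim0 Fin.elim0 Fin.elim0 Fin.elim0 := by
  refine ⟨fun c₀ c h hc => ?_, fun j => j.elim0, hS.cz i, fun j => j.elim0⟩
  have h1 : ¬ 3 ∣ c₀ := by
    rcases h with h | ⟨j, _⟩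
    · exact h
    · exact j.elim0
  obtain ⟨t, ht⟩ := hc
  refine hS.ind (Pi.single i c₀) ⟨i, by rwa [Pi.single_eq_same]⟩ ⟨t, ht.trans ?_⟩
  have e1 : ∏ j, z j ^ (Pi.single i c₀ : Fin M → ℕ) j = z i ^ c₀ := by
    rw [Finset.prod_eq_single i]
    · rw [Pi.single_eq_same]
    · intro j _ hj
      rw [Pi.single_eq_of_ne hj, pow_zero]
    · intro h
      exact absurd (Finset.mem_univ i) h
  rw [e1]
  simp

theorem govZero {M N : ℕ} {z : Fin M → Eis} {α : Fin N → Fin M} {P Q P' Q' : Fin N → Eis}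
    {f : ℕ} {L : Type} [Field L] [NumberField L] {ζ : L} {ι : Eis →+* L}
    (hG : GovZ z α P Q P' Q' f L ζ ι) (i : Fin M) :
    GovK (z i) (Fin.elim0 : Fin 0 → Eis) Fin.elim0 Fin.elim0 Fin.elim0 Fin.elim0 f L ζ ι :=
  ⟨hG.gal, hG.prim, hG.nine, hG.hω, hG.rz i, fun j => j.elim0, fun j => j.elim0,
    fun j => j.elim0⟩

/-- the relation between `g` and `t_r(g)` -/
def IsTW {M N : ℕ} (z : Fin M → Eis) (α : Fin N → Fin M) (P Q P' Q' : Fin N → Eis) {L : Type}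
    [Field L] [NumberField L] (ι : Eis →+* L) (g : L ≃ₐ[ℚ] L) (r : Fin N) (t : ZMod 3) : Prop :=
  IsTU (z (α r)) (fun _ : Fin 1 => P r) (fun _ => Q r) (fun _ => P' r) (fun _ => Q' r) ι g 0 t

/-- `g` fixes the roots of all classes -/
def FxZ {M : ℕ} (z : Fin M → Eis) {L : Type} [Field L] [NumberField L] (ι : Eis →+* L)
    (g : L ≃ₐ[ℚ] L) : Prop :=
  ∀ (i : Fin M) (ρ : L), ρ ^ 3 = ι (z i) → g ρ = ρ

theorem FxZ.one {M : ℕ} {z : Fin M → Eis} {L : Type} [Field L] [NumberField L] {ι : Eis →+* L}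
    {g : L ≃ₐ[ℚ] L} (h : FxZ z ι g) (i j : Fin M) : FxU (z i) (fun _ : Fin 1 => z j) ι g :=
  ⟨h i, fun _ => h j⟩

theorem FxZ.zero {M : ℕ} {z : Fin M → Eis} {L : Type} [Field L] [NumberField L] {ι : Eis →+* L}
    {g : L ≃ₐ[ℚ] L} (h : FxZ z ι g) (i : Fin M) :
    FxU (z i) (Fin.elim0 : Fin 0 → Eis) ι g :=
  ⟨h i, fun j => j.elim0⟩

end MAU

theorem MAU_thm (hMZF : Stmt_MZF) (hGCHI : GCHI) (hGTS : GTS) (hGKUM : GKUM)
    (hGFRU : Stmt_GFRU) (hGTU : Stmt_GTU) (hGFKU : Stmt_GFKU) (hMC1 : Stmt_MC1)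
    (hMC2 : Stmt_MC2) : Stmt_MAU := by
  classical
  intro s b p q p' q' M N z α β P Q P' Q' f hSys hSysZ hf h9
  obtain ⟨L, hF, hN, ζ, ι, hJ⟩ := hMZF (s + 1) M N b p q p' q' z α β P Q P' Q' f hSys hSysZ hf h9
  have hG := hJ.plus
  have hGK := hJ.minus
  have hgal := hG.gal
  obtain ⟨χ, hχs, hχζ, hχF⟩ := hGCHI L f ζ hf hG.prim
  obtain ⟨N₁, hFr⟩ := hGFRU s b p q p' q' f L ζ (ι w) hSys hG
  have hFrZ := fun r : Fin N => hGFKU 1 (z (α r)) (fun _ => z (β r)) (fun _ => P r) (fun _ => Q r)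
    (fun _ => P' r) (fun _ => Q' r) f L ζ ι (hSysZ.one r) (hGK.one r)
  have hFr0 := fun i : Fin M => hGFKU 0 (z i) Fin.elim0 Fin.elim0 Fin.elim0 Fin.elim0 Fin.elim0
    f L ζ ι (MAU.sysZero hSysZ i) (MAU.govZero hGK i)
  choose N₂ hFrK using hFrZ
  choose N₃ hFr1 using hFr0
  have hω3 : ι w ^ 3 = 1 := om_cube hG.rel
  have hf1 : 1 < f := by
    obtain ⟨c, hc⟩ := h9
    omega
  have h3f : 3 ∣ f := (by norm_num : (3 : ℕ) ∣ 9).trans h9
  have hfz : NeZero f := ⟨hf.ne'⟩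
  obtain ⟨hT1, hT⟩ := hGTS s b p q p' q' f L ζ (ι w) hSys hG
  have hU := fun r : Fin N => hGTU 1 (z (α r)) (fun _ => z (β r)) (fun _ => P r) (fun _ => Q r)
    (fun _ => P' r) (fun _ => Q' r) f L ζ ι (hSysZ.one r) (hGK.one r)
  have hU0 := fun i : Fin M => hGTU 0 (z i) Fin.elim0 Fin.elim0 Fin.elim0 Fin.elim0 Fin.elim0
    f L ζ ι (MAU.sysZero hSysZ i) (MAU.govZero hGK i)
  -- action on ω
  have hωχ : ∀ g : L ≃ₐ[ℚ] L, g (ι w) = ι w ^ ((χ g : ZMod f)).val := by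
    intro g
    rw [hG.hω, map_pow, hχζ g, ← pow_mul, mul_comm, pow_mul, ← hG.hω]
  have hM : ∀ g : L ≃ₐ[ℚ] L, M1 (χ g) → g (ι w) = ι w := by
    intro g hg
    rw [hωχ g]
    conv_rhs => rw [← pow_one (ι w)]
    apply om_congr hω3
    unfold M1 at hg
    omega
  -- an automorphism with `c ω = ω²`
  obtain ⟨c, hc⟩ : ∃ c : L ≃ₐ[ℚ] L, c (ι w) = ι w ^ 2 := by
    have h1 : (f - 1).Coprime f := by
      have h2 : (f - 1).Coprime (f - 1 + 1) := by simp
      rwa [Nat.sub_add_cancel hf] at h2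
    obtain ⟨c, hc⟩ := hχs (ZMod.unitOfCoprime (f - 1) h1)
    refine ⟨c, ?_⟩
    rw [hωχ c, hc, ZMod.coe_unitOfCoprime, ZMod.val_natCast, Nat.mod_eq_of_lt (by omega)]
    apply om_congr hω3
    omega
  have hc' : c⁻¹ (ι w) = ι w ^ 2 := JAU.inv_sq hc
  have hb0 : ∀ j, b j ≠ 0 := by
    intro j h0
    refine hSys.ind (Pi.single j 1) ⟨j, by simp⟩ ⟨0, ?_⟩
    have h1 : ∏ i, b i ^ (Pi.single j 1 : Fin (s + 1) → ℕ) i = 0 := by
      refine Finset.prod_eq_zero (Finset.mem_univ j) ?_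
      rw [Pi.single_eq_same, pow_one, h0]
    rw [h1]
    norm_num
  have hz1 : ∀ y : L ≃ₐ[ℚ] L, y ζ = ζ → y (ι w) = ι w ∧ χ y = 1 := by
    intro y hzζ
    refine ⟨by rw [hG.hω, map_pow, hzζ], ?_⟩
    have h1 := hχζ y
    rw [hzζ] at h1
    have h2 : ((χ y : ZMod f)).val = 1 := by
      apply hG.prim.pow_inj (ZMod.val_lt _) hf1
      rw [← h1, pow_one]
    apply Units.ext
    have h3 := ZMod.natCast_zmod_val (χ y : ZMod f)
    rw [h2] at h3
    rw [← h3]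
    simp
  let t : (L ≃ₐ[ℚ] L) → Fin s → Fin s → ZMod 3 := fun g j i =>
    if h : j ≠ i ∧ g (ι w) = ι w ∧ Fx b g then ((hT j i h.1).1 g h.2.1 h.2.2).choose else 0
  have ht : ∀ (g : L ≃ₐ[ℚ] L) (j i : Fin s), j ≠ i → g (ι w) = ι w → Fx b g →
      IsTS b p q p' q' (ι w) g j.castSucc i.castSucc (t g j i) := by
    intro g j i hji hg hF
    have h : j ≠ i ∧ g (ι w) = ι w ∧ Fx b g := ⟨hji, hg, hF⟩
    have e : t g j i = ((hT j i h.1).1 g h.2.1 h.2.2).choose := dif_pos h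
    rw [e]
    exact ((hT j i h.1).1 g h.2.1 h.2.2).choose_spec.1
  have htu : ∀ (g : L ≃ₐ[ℚ] L) (j i : Fin s) (c : ZMod 3), j ≠ i → g (ι w) = ι w → Fx b g →
      IsTS b p q p' q' (ι w) g j.castSucc i.castSucc c → t g j i = c := by
    intro g j i c hji hg hF hc
    exact ((hT j i hji).1 g hg hF).unique (ht g j i hji hg hF) hc
  -- the minus part
  let F₂ : (L ≃ₐ[ℚ] L) → Prop := fun g => g (ι w) = ι w ∧ MAU.FxZ z ι g
  have hone : ∀ (g : L ≃ₐ[ℚ] L) (r : Fin N), F₂ g →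
      FxU (z (α r)) (fun _ : Fin 1 => z (β r)) ι g := fun g r h => h.2.one (α r) (β r)
  let t₂ : (L ≃ₐ[ℚ] L) → Fin N → ZMod 3 := fun g r =>
    if h : F₂ g then (((hU r).2.2 0).1 g h.1 (hone g r h)).choose else 0
  have ht₂ : ∀ (g : L ≃ₐ[ℚ] L) (r : Fin N), F₂ g →
      MAU.IsTW z α P Q P' Q' ι g r (t₂ g r) := by
    intro g r h
    have e : t₂ g r = (((hU r).2.2 0).1 g h.1 (hone g r h)).choose := dif_pos h
    rw [e]
    exact (((hU r).2.2 0).1 g h.1 (hone g r h)).choose_spec.1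
  have htu₂ : ∀ (g : L ≃ₐ[ℚ] L) (r : Fin N) (c : ZMod 3), F₂ g →
      MAU.IsTW z α P Q P' Q' ι g r c → t₂ g r = c := by
    intro g r c h hc
    exact (((hU r).2.2 0).1 g h.1 (hone g r h)).unique (ht₂ g r h) hc
  have hF₂c : ∀ g τ : L ≃ₐ[ℚ] L, F₂ g → F₂ (τ * g * τ⁻¹) := fun g τ h =>
    ⟨JAU.conj_om h.1 τ, fun i => ((hU0 i).1 g τ h.1 (h.2.zero i)).1⟩
  have htc : ∀ (g τ : L ≃ₐ[ℚ] L) (j : Fin N), F₂ g → τ (ι w) = ι w →
      t₂ (τ * g * τ⁻¹) j = t₂ g j := by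
    intro g τ j hg hτ
    exact htu₂ _ _ _ (hF₂c g τ hg)
      (((hU j).2.2 0).2.1 g τ _ hg.1 (hone g j hg) hτ (ht₂ g j hg))
  let T : (L ≃ₐ[ℚ] L) → Fin N → ZMod 3 := fun g j => t₂ g j + t₂ (c * g * c⁻¹) j
  refine ⟨L, hF, hN, hG.gal, χ, Fx b, t, F₂, T,
    max N₁ (max (univ.sup N₂) (univ.sup N₃)), hχs, ?_, ?_, ?_, ?_, ?_, ?_, ?_⟩
  · intro g τ hg hFg
    obtain ⟨_, h1, _⟩ := hT1 g (hM g hg) hFg
    obtain ⟨h2, h3⟩ := h1 τ
    refine ⟨h3, fun j i hji => ?_⟩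
    exact htu _ _ _ _ hji h2 h3 ((hT j i hji).2.1 g τ _ (hM g hg) hFg (ht g j i hji (hM g hg) hFg))
  · intro g l hg hFg hl
    obtain ⟨_, _, h1⟩ := hT1 g (hM g hg) hFg
    obtain ⟨h2, h3⟩ := h1 l
    refine ⟨h3 hl, fun j i hji => ?_⟩
    exact htu _ _ _ _ hji h2 (h3 hl) ((hT j i hji).2.2 g _ l (hM g hg)
      (ht g j i hji (hM g hg) hFg))
  · intro g τ _ hg
    refine ⟨hF₂c g τ hg, funext fun j => ?_⟩
    show t₂ (τ * g * τ⁻¹) j + t₂ (c * (τ * g * τ⁻¹) * c⁻¹) j = t₂ g j + t₂ (c * g * c⁻¹) j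
    rcases GAK.cases_om ι τ with hτ | hτ
    · rw [htc g τ j hg hτ]
      have e : c * (τ * g * τ⁻¹) * c⁻¹ = (c * τ * c⁻¹) * (c * g * c⁻¹) * (c * τ * c⁻¹)⁻¹ := by
        group
      rw [e, htc (c * g * c⁻¹) (c * τ * c⁻¹) j (hF₂c g c hg) (JAU.conj_om hτ c)]
    · have e1 : τ * g * τ⁻¹ = (τ * c⁻¹) * (c * g * c⁻¹) * (τ * c⁻¹)⁻¹ := by group
      have e2 : c * (τ * g * τ⁻¹) * c⁻¹ = (c * τ) * g * (c * τ)⁻¹ := by group
      rw [e2, htc g (c * τ) j hg (JAU.mul_om hc hτ), e1,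
        htc (c * g * c⁻¹) (τ * c⁻¹) j (hF₂c g c hg) (JAU.mul_om hτ hc')]
      ring
  · intro g l _ hg
    have hpow : ∀ (g : L ≃ₐ[ℚ] L), F₂ g → F₂ (g ^ l) := by
      intro g hg
      exact ⟨JAU.pow_fix hg.1 l, fun i => ((hU0 i).2.1 g l (hg.2.zero i)).1⟩
    have ht' : ∀ (g : L ≃ₐ[ℚ] L), F₂ g → ∀ j, t₂ (g ^ l) j = l * t₂ g j := by
      intro g hg j
      exact htu₂ _ _ _ (hpow g hg) (((hU j).2.2 0).2.2 g _ l hg.1 (ht₂ g j hg))
    refine ⟨hpow g hg, funext fun j => ?_⟩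
    show t₂ (g ^ l) j + t₂ (c * g ^ l * c⁻¹) j = (l : ZMod 3) * (t₂ g j + t₂ (c * g * c⁻¹) j)
    have e : c * g ^ l * c⁻¹ = (c * g * c⁻¹) ^ l := by rw [conj_pow]
    rw [e, ht' g hg j, ht' _ (hF₂c g c hg) j]
    ring
  · intro a v v' y y' ha
    obtain ⟨z₁, hz₁, hz₁P, hz₁M⟩ := hMC1 (s + 1) M N b p q p' q' z α β P Q P' Q' f L ζ ι hSys
      hSysZ hJ (fun j => 2 * (y' j - y j))
    obtain ⟨z₂, hz₂, hz₂P, hz₂M⟩ := hMC2 (s + 1) M N b p q p' q' z α β P Q P' Q' f L ζ ι hSys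
      hSysZ hJ (fun j i => if h : j ≠ Fin.last s ∧ i ≠ Fin.last s then
        v' (j.castPred h.1) (i.castPred h.2) - v (j.castPred h.1) (i.castPred h.2) else 0)
    obtain ⟨hz₁ω, hχz₁⟩ := hz1 z₁ hz₁.ze
    obtain ⟨hz₂ω, hχz₂⟩ := hz1 z₂ hz₂.ze
    set y₀ := z₁ * z₂ with hz
    have hzω : y₀ (ι w) = ι w := by rw [hz, AlgEquiv.mul_apply, hz₂ω, hz₁ω]
    have hχz : χ y₀ = 1 := by rw [hz, map_mul, hχz₁, hχz₂, mul_one]
    have hzρ : ∀ (j : Fin (s + 1)) (ρ : L), ρ ^ 3 = (b j : L) → y₀ ρ = ρ := by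
      intro j ρ hρ
      rw [hz, AlgEquiv.mul_apply, hz₂.rb j ρ hρ, hz₁.rb j ρ hρ]
    have hzu : ∀ (i : Fin M) (ρ : L), ρ ^ 3 = ι (z i) → y₀ ρ = ρ := by
      intro i ρ hρ
      rw [hz, AlgEquiv.mul_apply, hz₂.rz i ρ hρ, hz₁.rz i ρ hρ]
    have hFz : ∀ g : L ≃ₐ[ℚ] L, Fx b (g * y₀) ↔ Fx b g := by
      intro g
      have h1 : ∀ (j : Fin (s + 1)) (ρ : L), ρ ^ 3 = (b j : L) → (g * y₀) ρ = g ρ := by
        intro j ρ hρ
        rw [AlgEquiv.mul_apply, hzρ j ρ hρ]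
      unfold Fx
      constructor
      · rintro ⟨h2, h3⟩
        exact ⟨fun j ρ hρ => by rw [← h1 _ ρ hρ]; exact h2 j ρ hρ,
          fun ρ hρ => by rw [← h1 _ ρ hρ]; exact h3 ρ hρ⟩
      · rintro ⟨h2, h3⟩
        exact ⟨fun j ρ hρ => by rw [h1 _ ρ hρ]; exact h2 j ρ hρ,
          fun ρ hρ => by rw [h1 _ ρ hρ]; exact h3 ρ hρ⟩
    have hF₂z : ∀ g : L ≃ₐ[ℚ] L, F₂ (g * y₀) ↔ F₂ g := by
      intro g
      have h2 : ∀ (j : Fin M) (ρ : L), ρ ^ 3 = ι (z j) → (g * y₀) ρ = g ρ := by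
        intro j ρ hρ
        rw [AlgEquiv.mul_apply, hzu j ρ hρ]
      have h3 : (g * y₀) (ι w) = g (ι w) := by rw [AlgEquiv.mul_apply, hzω]
      show ((g * y₀) (ι w) = ι w ∧ MAU.FxZ z ι (g * y₀)) ↔ (g (ι w) = ι w ∧ MAU.FxZ z ι g)
      rw [h3]
      constructor
      · rintro ⟨h4, h6⟩
        exact ⟨h4, fun j ρ hρ => by rw [← h2 j ρ hρ]; exact h6 j ρ hρ⟩
      · rintro ⟨h4, h6⟩
        exact ⟨h4, fun j ρ hρ => by rw [h2 j ρ hρ]; exact h6 j ρ hρ⟩
    have key : ∀ g : L ≃ₐ[ℚ] L, g (ι w) = ι w → Fx b g → ∀ j i, j < i →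
        t (g * y₀) j i = (v' j i - v j i) + t g j i := by
      intro g hg hFg j i hji
      have hgz : (g * y₀) (ι w) = ι w := by rw [AlgEquiv.mul_apply, hzω, hg]
      apply htu _ _ _ _ hji.ne hgz ((hFz g).2 hFg)
      intro ρ A hρ hA
      have h1 := ht g j i hji.ne hg hFg ρ A hρ hA
      have hlt : j.castSucc < i.castSucc := Fin.castSucc_lt_castSucc_iff.2 hji
      have h2 := hz₂P j.castSucc i.castSucc ρ A hlt ⟨hρ, hA⟩
      have h2' := hz₁P j.castSucc i.castSucc ρ A hlt.ne ⟨hρ, hA⟩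
      have h3 : j.castSucc ≠ Fin.last s ∧ i.castSucc ≠ Fin.last s :=
        ⟨(Fin.castSucc_lt_last j).ne, (Fin.castSucc_lt_last i).ne⟩
      simp only [dif_pos h3, Fin.castPred_castSucc] at h2
      rw [AlgEquiv.mul_apply, hz, AlgEquiv.mul_apply, h2, map_mul, map_pow, hz₁ω, h2', map_mul,
        map_pow, hg, h1, ← mul_assoc, om_add hω3]
    have key₂ : ∀ g : L ≃ₐ[ℚ] L, F₂ g → T (g * y₀) = T g + (y' - y) := by
      intro g hg
      funext j
      have hgz : F₂ (g * y₀) := (hF₂z g).2 hg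
      have e1 : t₂ (g * y₀) j = 2 * (y' j - y j) + t₂ g j := by
        apply htu₂ _ _ _ hgz
        intro ρ A hA
        have h1 := ht₂ g j hg ρ A hA
        rw [AlgEquiv.mul_apply, hz, AlgEquiv.mul_apply, (hz₂M j ρ A hA).1, (hz₁M j ρ A hA).1,
          map_mul, map_pow, hg.1, h1, ← mul_assoc, om_add hω3]
      have e2 : t₂ (c * (g * y₀) * c⁻¹) j = t₂ (c * g * c⁻¹) j + 2 * (y' j - y j) := by
        apply htu₂ _ _ _ (hF₂c _ c hgz)
        intro ρ A hA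
        have h1 := ht₂ (c * g * c⁻¹) j (hF₂c g c hg) ρ A hA
        have h2 : (c * (g * y₀) * c⁻¹) A = c (g (z₁ (z₂ (c⁻¹ A)))) := by
          rw [hz]
          rfl
        have h3 : (c * g * c⁻¹) A = c (g (c⁻¹ A)) := rfl
        rw [h3] at h1
        rw [h2, (hz₂M j ρ A hA).2 c⁻¹ hc', (hz₁M j ρ A hA).2 c⁻¹ hc', map_mul, map_pow, hg.1,
          map_mul, map_pow, hc, h1, ← mul_assoc, ← pow_mul, ← pow_add]
        congr 1
        apply om_congr hω3
        exact JAU.neg_val _ _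
      show t₂ (g * y₀) j + t₂ (c * (g * y₀) * c⁻¹) j =
        t₂ g j + t₂ (c * g * c⁻¹) j + (y' j - y j)
      rw [e1, e2]
      have e3 := JAU.two_mul_two (y' j - y j)
      linear_combination e3
    apply Nat.card_congr
    refine Equiv.subtypeEquiv (Equiv.mulRight y₀) ?_
    intro g
    have hχ : χ (g * y₀) = χ g := by rw [map_mul, hχz, mul_one]
    show (χ g = a ∧ Fx b g ∧ F₂ g ∧ T g = y ∧ ∀ j i, j < i → t g j i = v j i) ↔
      (χ (g * y₀) = a ∧ Fx b (g * y₀) ∧ F₂ (g * y₀) ∧ T (g * y₀) = y' ∧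
        ∀ j i, j < i → t (g * y₀) j i = v' j i)
    rw [hχ, hFz g, hF₂z g]
    constructor
    · rintro ⟨h1, h2, h3, h4, h5⟩
      refine ⟨h1, h2, h3, ?_, fun j i hji => ?_⟩
      · rw [key₂ g h3, h4]
        abel
      · rw [key g (hM g (by rw [h1]; exact ha)) h2 j i hji, h5 j i hji]
        ring
    · rintro ⟨h1, h2, h3, h4, h5⟩
      refine ⟨h1, h2, h3, ?_, fun j i hji => ?_⟩
      · rw [key₂ g h3] at h4
        funext j
        have h6 := congrFun h4 j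
        simp only [Pi.add_apply, Pi.sub_apply] at h6
        linear_combination h6
      · have h6 := h5 j i hji
        rw [key g (hM g (by rw [h1]; exact ha)) h2 j i hji] at h6
        linear_combination h6
  · intro a ha
    choose θ hθ using hG.root
    have hθ0 : ∀ j, θ j ≠ 0 := by
      intro j h0
      have h1 := hθ j
      rw [h0] at h1
      apply hb0 j
      have h2 : ((b j : ℤ) : L) = 0 := by rw [← h1]; norm_num
      exact_mod_cast h2
    have hex : ∀ (g : L ≃ₐ[ℚ] L) (j : Fin (s + 1)), ∃ u : ZMod 3,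
        g (θ j) = ι w ^ u.val * θ j := by
      intro g j
      apply cube_root hG.rel
      rw [← map_pow, hθ j, map_intCast]
    choose uu huu using hex
    have huniq : ∀ (g : L ≃ₐ[ℚ] L) (j : Fin (s + 1)) (u : ZMod 3),
        g (θ j) = ι w ^ u.val * θ j → uu g j = u := by
      intro g j u h
      apply om_zmod_inj hG.rel (hθ0 j)
      rw [← huu g j, h]
    -- criterion for `Fx`
    have hFu : ∀ g : L ≃ₐ[ℚ] L, g (ι w) = ι w → (Fx b g ↔
        (∀ j : Fin s, uu g j.castSucc = 0) ∧ uu g (Fin.last s) ≠ 0) := by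
      intro g hg
      constructor
      · rintro ⟨h1, h2⟩
        refine ⟨fun j => ?_, fun h0 => ?_⟩
        · apply huniq
          rw [h1 j _ (hθ _)]
          simp
        · apply h2 _ (hθ _)
          rw [huu, h0]
          simp
      · rintro ⟨h1, h2⟩
        have h3 : ∀ (j : Fin (s + 1)) (ρ : L), ρ ^ 3 = (b j : L) →
            g ρ = ι w ^ (uu g j).val * ρ := by
          intro j ρ hρ
          obtain ⟨u, hu⟩ := cube_root hG.rel (θ := θ j) (ρ := ρ) (by rw [hρ, hθ])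
          rw [hu, map_mul, map_pow, hg, huu]
          ring
        refine ⟨fun j ρ hρ => ?_, fun ρ hρ h4 => ?_⟩
        · rw [h3 _ ρ hρ, h1 j]
          simp
        · rw [h3 _ ρ hρ] at h4
          have hρ0 : ρ ≠ 0 := by
            intro h0
            rw [h0] at hρ
            apply hb0 (Fin.last s)
            have h5 : ((b (Fin.last s) : ℤ) : L) = 0 := by rw [← hρ]; norm_num
            exact_mod_cast h5
          apply h2
          apply om_zmod_inj hG.rel hρ0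
          rw [h4]
          simp
    have hfib : ∀ w₁ w' : Fin (s + 1) → ZMod 3,
        (univ.filter fun g : L ≃ₐ[ℚ] L => χ g = a ∧ uu g = w₁).card =
        (univ.filter fun g : L ≃ₐ[ℚ] L => χ g = a ∧ uu g = w').card := by
      intro w₁ w'
      obtain ⟨y₀, hzζ, hzρ⟩ := hGKUM (s + 1) b p q p' q' f L ζ (ι w) hSys hG (w' - w₁)
      obtain ⟨hzω, hχz⟩ := hz1 y₀ hzζ
      have key : ∀ g : L ≃ₐ[ℚ] L, g (ι w) = ι w → uu (g * y₀) = (w' - w₁) + uu g := by
        intro g hg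
        funext j
        apply huniq
        rw [AlgEquiv.mul_apply, hzρ j _ (hθ j), map_mul, map_pow, hg, huu, ← mul_assoc,
          om_add hω3]
        rfl
      refine Finset.card_bij (fun g _ => g * y₀) ?_ ?_ ?_
      · intro g hg
        rw [mem_filter] at hg ⊢
        obtain ⟨_, h1, h2⟩ := hg
        refine ⟨mem_univ _, by rw [map_mul, hχz, mul_one, h1], ?_⟩
        rw [key g (hM g (by rw [h1]; exact ha)), h2]
        abel
      · intro g _ g' _ e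
        exact mul_right_cancel e
      · intro g hg
        rw [mem_filter] at hg
        obtain ⟨_, h1, h2⟩ := hg
        have h3 : g * y₀⁻¹ * y₀ = g := inv_mul_cancel_right g y₀
        have h4 : χ (g * y₀⁻¹) = a := by rw [map_mul, map_inv, hχz, inv_one, mul_one, h1]
        refine ⟨g * y₀⁻¹, ?_, h3⟩
        rw [mem_filter]
        refine ⟨mem_univ _, h4, ?_⟩
        have h5 := key (g * y₀⁻¹) (hM _ (by rw [h4]; exact ha))
        rw [h3, h2] at h5
        funext j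
        have h7 := congrFun h5 j
        simp only [Pi.add_apply, Pi.sub_apply] at h7
        linear_combination (-1 : ZMod 3) * h7
    have hsub : ∀ (D : Finset (Fin (s + 1) → ZMod 3)),
        (univ.filter fun g : L ≃ₐ[ℚ] L => χ g = a ∧ uu g ∈ D).card =
        D.card * (univ.filter fun g : L ≃ₐ[ℚ] L => χ g = a ∧ uu g = 0).card := by
      intro D
      rw [Finset.card_eq_sum_card_fiberwise (f := uu) (t := D)]
      · rw [← smul_eq_mul, ← Finset.sum_const]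
        refine Finset.sum_congr rfl fun w₁ hw => ?_
        rw [← hfib w₁ 0, Finset.filter_filter]
        congr 1
        apply Finset.filter_congr
        intro g _
        constructor
        · rintro ⟨⟨h1, _⟩, h2⟩
          exact ⟨h1, h2⟩
        · rintro ⟨h1, h2⟩
          exact ⟨⟨h1, by rw [h2]; exact hw⟩, h2⟩
      · intro g hg
        have h1 := (mem_filter.1 (Finset.mem_coe.1 hg)).2.2
        exact h1
    have h1 : Nat.card {g : L ≃ₐ[ℚ] L // χ g = a} =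
        3 ^ (s + 1) * (univ.filter fun g : L ≃ₐ[ℚ] L => χ g = a ∧ uu g = 0).card := by
      rw [Nat.card_eq_fintype_card, Fintype.card_subtype]
      have h2 := hsub univ
      simp only [mem_univ, and_true] at h2
      rw [h2, Finset.card_univ, Fintype.card_fun, ZMod.card, Fintype.card_fin]
    have h2 : Nat.card {g : L ≃ₐ[ℚ] L // χ g = a ∧ Fx b g} =
        2 * (univ.filter fun g : L ≃ₐ[ℚ] L => χ g = a ∧ uu g = 0).card := by
      rw [Nat.card_eq_fintype_card, Fintype.card_subtype]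
      have h2 := hsub (univ.filter fun w₁ : Fin (s + 1) → ZMod 3 =>
        (∀ j : Fin s, w₁ j.castSucc = 0) ∧ w₁ (Fin.last s) ≠ 0)
      rw [card_good] at h2
      rw [← h2]
      congr 1
      apply Finset.filter_congr
      intro g _
      constructor
      · rintro ⟨h3, h4⟩
        refine ⟨h3, mem_filter.2 ⟨mem_univ _, ?_⟩⟩
        exact (hFu g (hM g (by rw [h3]; exact ha))).1 h4
      · rintro ⟨h3, h4⟩
        exact ⟨h3, (hFu g (hM g (by rw [h3]; exact ha))).2 (mem_filter.1 h4).2⟩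
    rw [h1, h2]
    ring
  · intro q₀ hq hNp hN₀ I g hI hNI hst
    have hfin := GFR.quo_finite hNp hI hNI
    obtain ⟨l, hl, hfr⟩ := GFR.exists_frob_gen (R := ℤ) I g hst
    have hχl := hχF q₀ hq hNp I (g ^ l) hI hNI hfr
    refine ⟨l, hl, hχl, fun hN3 ρ hρ => ?_⟩
    have hb1 : N₁ < q₀ := lt_of_le_of_lt (le_max_left _ _) hN₀
    have hb2 : ∀ r, N₂ r < q₀ := fun r => lt_of_le_of_lt ((Finset.le_sup (mem_univ r)).trans
      ((le_max_left _ _).trans (le_max_right _ _))) hN₀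
    have hb3 : ∀ i, N₃ i < q₀ := fun i => lt_of_le_of_lt ((Finset.le_sup (mem_univ i)).trans
      ((le_max_right _ _).trans (le_max_right _ _))) hN₀
    obtain ⟨h1, h2⟩ := hFr q₀ hNp hb1 hN3 I hI hNI (g ^ l) hfr ρ hρ
    have hM1 : M1 (χ (g ^ l)) := by
      unfold M1
      rw [hχl, ZMod.coe_unitOfCoprime, ZMod.val_natCast, Nat.mod_mod_of_dvd _ h3f]
      exact hN3
    refine ⟨h1, fun hF j i hji r hr => ?_, fun hz => ?_⟩
    · exact h2 hF j i hji r _ hr (ht (g ^ l) j i hji (hM _ hM1) hF)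
    · have h6 : F₂ (g ^ l) := ⟨hM _ hM1, fun i => (hFr1 i q₀ hNp (hb3 i) hN3 I hI hNI (g ^ l) hfr
        ρ hρ (hz i) (fun j => j.elim0)).2.1.1⟩
      refine ⟨h6, fun r ξ ξ' hξ hξ' => ?_⟩
      obtain ⟨_, _, h5⟩ := hFrK r q₀ hNp (hb2 r) hN3 I hI hNI (g ^ l) hfr ρ hρ (hz (α r))
        (fun _ => hz (β r))
      exact h5 c hc 0 ξ ξ' _ _ hξ hξ' (ht₂ (g ^ l) r h6) (ht₂ _ r (hF₂c (g ^ l) c h6))

end Pool.Agent.PTK


end

section

/-!
# The average of `3^r` for prime twists: the joint governing field, all classes cubes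

`Q = 1 (mod 3)` and all rational classes are cubes modulo `Q`.
-/

set_option autoImplicit false

open NumberField IsDedekindDomain Finset
open scoped nonZeroDivisors Pointwise

namespace Pool.Agent.PTK

open Pool.Agent.Lib_helper18 Pool.Agent.Lib_helper18.Eis Pool.Agent.Lib_helper84.Cub
open Pool.Agent.PT Pool.Agent.PTE Pool.Agent.PT3 Pool.Agent.PTL Pool.Agent.PTN
open Pool.Agent.PT.GALD Pool.Agent.PTE.GALDS

namespace JAZ

section aut

variable {L : Type} [Field L] [NumberField L]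

/-- `g` fixes `ω` and the cube roots of all the `b j` -/
def F0 {s : ℕ} (b : Fin s → ℤ) (ι : Eis →+* L) (g : L ≃ₐ[ℚ] L) : Prop :=
  g (ι w) = ι w ∧ ∀ (j : Fin s) (ρ : L), ρ ^ 3 = (b j : L) → g ρ = ρ

theorem inv_sq {ι : Eis →+* L} {τ : L ≃ₐ[ℚ] L} (h : τ (ι w) = ι w ^ 2) :
    τ⁻¹ (ι w) = ι w ^ 2 := by
  have h1 : τ (ι w ^ 2) = ι w := by rw [map_pow, h, GAK.om4]
  conv_lhs => rw [← h1]
  rw [← AlgEquiv.mul_apply, inv_mul_cancel]
  rfl

theorem conj_fix {ι : Eis →+* L} {g : L ≃ₐ[ℚ] L} (τ : L ≃ₐ[ℚ] L) (hg : g (ι w) = ι w) :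
    (τ * g * τ⁻¹) (ι w) = ι w := by
  rcases GAK.cases_om ι τ with hτ | hτ
  · rw [AlgEquiv.mul_apply, AlgEquiv.mul_apply, GAK.inv_fix hτ, hg, hτ]
  · rw [AlgEquiv.mul_apply, AlgEquiv.mul_apply, inv_sq hτ, map_pow, hg, map_pow, hτ, GAK.om4]

theorem conj_pt {g τ : L ≃ₐ[ℚ] L} {ρ : L} (h : g (τ⁻¹ ρ) = τ⁻¹ ρ) : (τ * g * τ⁻¹) ρ = ρ := by
  rw [AlgEquiv.mul_apply, AlgEquiv.mul_apply, h, ← AlgEquiv.mul_apply, mul_inv_cancel]
  rfl

theorem pow_pt {g : L ≃ₐ[ℚ] L} {ρ : L} (h : g ρ = ρ) (l : ℕ) : (g ^ l) ρ = ρ := by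
  induction l with
  | zero => rfl
  | succ l ih => rw [pow_succ, AlgEquiv.mul_apply, h, ih]

theorem F0.conj {s : ℕ} {b : Fin s → ℤ} {ι : Eis →+* L} {g : L ≃ₐ[ℚ] L} (h : F0 b ι g)
    (τ : L ≃ₐ[ℚ] L) : F0 b ι (τ * g * τ⁻¹) := by
  refine ⟨conj_fix τ h.1, fun j ρ hρ => conj_pt (h.2 j _ ?_)⟩
  rw [← map_pow, hρ, map_intCast]

theorem F0.pow {s : ℕ} {b : Fin s → ℤ} {ι : Eis →+* L} {g : L ≃ₐ[ℚ] L} (h : F0 b ι g)
    (l : ℕ) : F0 b ι (g ^ l) :=
  ⟨pow_pt h.1 l, fun j ρ hρ => pow_pt (h.2 j ρ hρ) l⟩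

theorem neg_one_val {f : ℕ} (hf : 1 < f) : (((-1 : (ZMod f)ˣ) : ZMod f)).val = f - 1 := by
  obtain ⟨n, rfl⟩ : ∃ n, f = n + 1 := ⟨f - 1, by omega⟩
  rw [Units.val_neg, Units.val_one]
  exact ZMod.val_neg_one n

theorem two_neg : ∀ v : ZMod 3, (2 * (-v).val) % 3 = v.val % 3 := by decide

/-- the action of the conjugate of `z` -/
theorem conj_z {ι : Eis →+* L} {c z : L ≃ₐ[ℚ] L} (hc : c (ι w) = ι w ^ 2) {v : ZMod 3} {A : L}
    (h : z (c⁻¹ A) = ι w ^ (-v).val * c⁻¹ A) : (c * z * c⁻¹) A = ι w ^ v.val * A := by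
  rw [AlgEquiv.mul_apply, AlgEquiv.mul_apply, h, map_mul, map_pow, hc, ← pow_mul,
    ← AlgEquiv.mul_apply, mul_inv_cancel]
  congr 1
  exact om_congr (GC.om3 (GCK.om ι)) (two_neg v)

theorem three_card : (4 : ZMod 3) = 1 := by decide

end aut

end JAZ

open _root_.Pool.Agent.PTK.JAZ in
theorem JAZ_thm (hJZ : Stmt_JZ) (hGCHI : GCHI) (hGKUM : GKUM) (hGTU : Stmt_GTU)
    (hGFKU : Stmt_GFKU) (hJC1 : Stmt_JC1) (hSPLT : SPLT) (hSPP : SPP) : Stmt_JAZ := by
  classical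
  intro s b p q p' q' k x u P Q P' Q' f hSys hSysK hf h9
  obtain ⟨L, hF, hN, ζ, ι, hG⟩ := hJZ s k b p q p' q' x u P Q P' Q' f hSys hSysK hf h9
  have hGp := hG.plus
  have hGm := hG.minus
  have := hGp.gal
  obtain ⟨χ, hχs, hχζ, hχF⟩ := hGCHI L f ζ hf hGp.prim
  obtain ⟨N₁, hFr⟩ := hGFKU k x u P Q P' Q' f L ζ ι hSysK hGm
  obtain ⟨hT1, hT2, hT⟩ := hGTU k x u P Q P' Q' f L ζ ι hSysK hGm
  have hω3 : ι w ^ 3 = 1 := GC.om3 (GCK.om ι)
  have hf1 : 1 < f := by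
    obtain ⟨c, hc⟩ := h9
    omega
  have h3f : 3 ∣ f := (by norm_num : (3 : ℕ) ∣ 9).trans h9
  have hfz : NeZero f := ⟨hf.ne'⟩
  -- action on ω
  have hωχ : ∀ g : L ≃ₐ[ℚ] L, g (ι w) = ι w ^ ((χ g : ZMod f)).val := by
    intro g
    rw [hGm.hω, map_pow, hχζ g, ← pow_mul, mul_comm, pow_mul, ← hGm.hω]
  have hM : ∀ g : L ≃ₐ[ℚ] L, M1 (χ g) → g (ι w) = ι w := by
    intro g hg
    rw [hωχ g]
    conv_rhs => rw [← pow_one (ι w)]
    apply om_congr hω3
    unfold M1 at hg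
    omega
  obtain ⟨c, hc⟩ : ∃ c : L ≃ₐ[ℚ] L, c (ι w) = ι w ^ 2 := by
    obtain ⟨c, hc⟩ := hχs (-1)
    refine ⟨c, ?_⟩
    rw [hωχ c, hc, neg_one_val hf1]
    apply om_congr hω3
    omega
  have hz1 : ∀ z : L ≃ₐ[ℚ] L, z ζ = ζ → z (ι w) = ι w ∧ χ z = 1 := by
    intro z hzζ
    refine ⟨by rw [hGm.hω, map_pow, hzζ], ?_⟩
    have h1 := hχζ z
    rw [hzζ] at h1
    have h2 : ((χ z : ZMod f)).val = 1 := by
      apply hGp.prim.pow_inj (ZMod.val_lt _) hf1
      rw [← h1, pow_one]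
    apply Units.ext
    have h3 := ZMod.natCast_zmod_val (χ z : ZMod f)
    rw [h2] at h3
    rw [← h3]
    simp
  have hb0 : ∀ j, b j ≠ 0 := PTE.GFRS.ne_zero hSys
  -- the class of the minus part
  let F2 : (L ≃ₐ[ℚ] L) → Prop := fun g => g (ι w) = ι w ∧ FxU x u ι g
  let t : (L ≃ₐ[ℚ] L) → Fin k → ZMod 3 := fun g j =>
    if h : F2 g then ((hT j).1 g h.1 h.2).choose else 0
  have ht : ∀ (g : L ≃ₐ[ℚ] L) (j : Fin k), F2 g → IsTU x P Q P' Q' ι g j (t g j) := by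
    intro g j h
    have e : t g j = ((hT j).1 g h.1 h.2).choose := dif_pos h
    rw [e]
    exact ((hT j).1 g h.1 h.2).choose_spec.1
  have htu : ∀ (g : L ≃ₐ[ℚ] L) (j : Fin k) (a : ZMod 3), F2 g →
      IsTU x P Q P' Q' ι g j a → t g j = a := by
    intro g j a h ha
    exact ((hT j).1 g h.1 h.2).unique (ht g j h) ha
  let T : (L ≃ₐ[ℚ] L) → Fin k → ZMod 3 := fun g j => t g j + t (c * g * c⁻¹) j
  have hF2c : ∀ g τ : L ≃ₐ[ℚ] L, F2 g → F2 (τ * g * τ⁻¹) := fun g τ hg =>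
    ⟨conj_fix τ hg.1, hT1 g τ hg.1 hg.2⟩
  have hF2p : ∀ (g : L ≃ₐ[ℚ] L) (l : ℕ), F2 g → F2 (g ^ l) := fun g l hg =>
    ⟨pow_pt hg.1 l, hT2 g l hg.2⟩
  have htc : ∀ (g σ : L ≃ₐ[ℚ] L) (j : Fin k), F2 g → σ (ι w) = ι w →
      t (σ * g * σ⁻¹) j = t g j := fun g σ j hg hσ =>
    htu _ _ _ (hF2c g σ hg) ((hT j).2.1 g σ _ hg.1 hg.2 hσ (ht g j hg))
  have htp : ∀ (g : L ≃ₐ[ℚ] L) (l : ℕ) (j : Fin k), F2 g → t (g ^ l) j = l * t g j :=
    fun g l j hg => htu _ _ _ (hF2p g l hg) ((hT j).2.2 g _ l hg.1 (ht g j hg))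
  -- the bound
  let B : ℕ := ∑ j, (b j).natAbs
  have hB : ∀ j, (b j).natAbs ≤ B := fun j =>
    Finset.single_le_sum (f := fun j => (b j).natAbs) (fun _ _ => Nat.zero_le _)
      (Finset.mem_univ j)
  refine ⟨L, hF, hN, hGp.gal, χ, F0 b ι, F2, T, max N₁ B, hχs, fun g τ _ h => h.conj τ,
    fun g l _ h => h.pow l, ?_, ?_, ?_, ?_, ?_⟩
  · intro g τ _ hg
    refine ⟨hF2c g τ hg, funext fun j => ?_⟩
    show t (τ * g * τ⁻¹) j + t (c * (τ * g * τ⁻¹) * c⁻¹) j = t g j + t (c * g * c⁻¹) j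
    rcases GAK.cases_om ι τ with hτ | hτ
    · have e : c * (τ * g * τ⁻¹) * c⁻¹ =
          (c * τ * c⁻¹) * (c * g * c⁻¹) * (c * τ * c⁻¹)⁻¹ := by group
      rw [e, htc g τ j hg hτ, htc _ _ j (hF2c g c hg) (conj_fix c hτ)]
    · have e1 : τ * g * τ⁻¹ = (τ * c⁻¹) * (c * g * c⁻¹) * (τ * c⁻¹)⁻¹ := by group
      have e2 : c * (τ * g * τ⁻¹) * c⁻¹ = (c * τ) * g * (c * τ)⁻¹ := by group
      have h1 : (τ * c⁻¹) (ι w) = ι w := by
        rw [AlgEquiv.mul_apply, inv_sq hc, map_pow, hτ, GAK.om4]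
      have h2 : (c * τ) (ι w) = ι w := by
        rw [AlgEquiv.mul_apply, hτ, map_pow, hc, GAK.om4]
      rw [e2, htc g _ j hg h2, e1, htc _ _ j (hF2c g c hg) h1, add_comm]
  · intro g l _ hg
    refine ⟨hF2p g l hg, funext fun j => ?_⟩
    show t (g ^ l) j + t (c * g ^ l * c⁻¹) j = (l : ZMod 3) • (t g j + t (c * g * c⁻¹) j)
    have e : c * g ^ l * c⁻¹ = (c * g * c⁻¹) ^ l := by rw [conj_pow]
    rw [e, htp g l j hg, htp _ l j (hF2c g c hg), smul_eq_mul]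
    ring
  · intro a y y' ha
    obtain ⟨z, hzF, -, hzA⟩ := hJC1 s k b p q p' q' x u P Q P' Q' f L ζ ι hSys hSysK hG
      (fun j => 2 * (y' j - y j))
    obtain ⟨hzω, hχz⟩ := hz1 z hzF.ze
    have hF0z : ∀ g : L ≃ₐ[ℚ] L, F0 b ι (g * z) ↔ F0 b ι g := by
      intro g
      have h1 : ∀ (j : Fin s) (ρ : L), ρ ^ 3 = (b j : L) → (g * z) ρ = g ρ := by
        intro j ρ hρ
        rw [AlgEquiv.mul_apply, hzF.rb j ρ hρ]
      have h2 : (g * z) (ι w) = g (ι w) := by rw [AlgEquiv.mul_apply, hzω]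
      unfold F0
      rw [h2]
      refine and_congr_right fun _ => ?_
      constructor
      · intro h j ρ hρ
        rw [← h1 j ρ hρ]
        exact h j ρ hρ
      · intro h j ρ hρ
        rw [h1 j ρ hρ]
        exact h j ρ hρ
    have hF2z : ∀ g : L ≃ₐ[ℚ] L, F2 (g * z) ↔ F2 g := by
      intro g
      have h1 : ∀ ρ : L, ρ ^ 3 = ι x → (g * z) ρ = g ρ := by
        intro ρ hρ
        rw [AlgEquiv.mul_apply, hzF.rx ρ hρ]
      have h1' : ∀ (j : Fin k) (ρ : L), ρ ^ 3 = ι (u j) → (g * z) ρ = g ρ := by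
        intro j ρ hρ
        rw [AlgEquiv.mul_apply, hzF.ru j ρ hρ]
      have h2 : (g * z) (ι w) = g (ι w) := by rw [AlgEquiv.mul_apply, hzω]
      show ((g * z) (ι w) = ι w ∧ FxU x u ι (g * z)) ↔ (g (ι w) = ι w ∧ FxU x u ι g)
      rw [h2]
      refine and_congr_right fun _ => ?_
      unfold FxU
      constructor
      · rintro ⟨h3, h4⟩
        exact ⟨fun ρ hρ => by rw [← h1 ρ hρ]; exact h3 ρ hρ,
          fun j ρ hρ => by rw [← h1' j ρ hρ]; exact h4 j ρ hρ⟩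
      · rintro ⟨h3, h4⟩
        exact ⟨fun ρ hρ => by rw [h1 ρ hρ]; exact h3 ρ hρ,
          fun j ρ hρ => by rw [h1' j ρ hρ]; exact h4 j ρ hρ⟩
    have key : ∀ g : L ≃ₐ[ℚ] L, F2 g → ∀ j, T (g * z) j = (y' j - y j) + T g j := by
      intro g hg j
      show t (g * z) j + t (c * (g * z) * c⁻¹) j =
        (y' j - y j) + (t g j + t (c * g * c⁻¹) j)
      have e1 : t (g * z) j = 2 * (y' j - y j) + t g j := by
        apply htu _ _ _ ((hF2z g).2 hg)
        intro ρ A hA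
        rw [AlgEquiv.mul_apply, (hzA j ρ A hA).1, map_mul, map_pow, hg.1,
          ht g j hg ρ A hA, ← mul_assoc, om_add hω3]
      have hg' := hF2c g c hg
      have e2 : t (c * (g * z) * c⁻¹) j = 2 * (y' j - y j) + t (c * g * c⁻¹) j := by
        apply htu _ _ _ (hF2c _ c ((hF2z g).2 hg))
        intro ρ A hA
        have h1 := conj_z hc ((hzA j ρ A hA).2 c⁻¹ (inv_sq hc))
        have h2 : c * (g * z) * c⁻¹ = (c * g * c⁻¹) * (c * z * c⁻¹) := by group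
        rw [h2, AlgEquiv.mul_apply, h1, map_mul, map_pow, hg'.1,
          ht _ j hg' ρ A hA, ← mul_assoc, om_add hω3]
      rw [e1, e2]
      linear_combination (y' j - y j) * three_card
    apply Nat.card_congr
    refine Equiv.subtypeEquiv (Equiv.mulRight z) ?_
    intro g
    have hχ : χ (g * z) = χ g := by rw [map_mul, hχz, mul_one]
    show (χ g = a ∧ F0 b ι g ∧ F2 g ∧ T g = y) ↔
      (χ (g * z) = a ∧ F0 b ι (g * z) ∧ F2 (g * z) ∧ T (g * z) = y')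
    rw [hχ, hF0z g, hF2z g]
    refine and_congr_right fun _ => and_congr_right fun _ => and_congr_right fun hg => ?_
    constructor
    · intro h
      funext j
      rw [key g hg j, h]
      ring
    · intro h
      funext j
      have h4 := congrFun h j
      rw [key g hg j] at h4
      linear_combination h4
  · intro a ha
    choose θ hθ using hGp.root
    have hθ0 : ∀ j, θ j ≠ 0 := by
      intro j h0
      have h1 := hθ j
      rw [h0] at h1
      apply hb0 j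
      have h2 : ((b j : ℤ) : L) = 0 := by rw [← h1]; norm_num
      exact_mod_cast h2
    have hex : ∀ (g : L ≃ₐ[ℚ] L) (j : Fin s), ∃ u : ZMod 3, g (θ j) = ι w ^ u.val * θ j := by
      intro g j
      apply cube_root hGp.rel
      rw [← map_pow, hθ j, map_intCast]
    choose uu huu using hex
    have huniq : ∀ (g : L ≃ₐ[ℚ] L) (j : Fin s) (u : ZMod 3), g (θ j) = ι w ^ u.val * θ j →
        uu g j = u := by
      intro g j u h
      apply om_zmod_inj hGp.rel (hθ0 j)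
      rw [← huu g j, h]
    -- criterion for `F0`
    have hFu : ∀ g : L ≃ₐ[ℚ] L, g (ι w) = ι w → (F0 b ι g ↔ uu g = 0) := by
      intro g hg
      constructor
      · rintro ⟨_, h1⟩
        funext j
        apply huniq
        rw [h1 j _ (hθ _)]
        simp
      · intro h1
        refine ⟨hg, fun j ρ hρ => ?_⟩
        obtain ⟨u, hu⟩ := cube_root hGp.rel (θ := θ j) (ρ := ρ) (by rw [hρ, hθ])
        rw [hu, map_mul, map_pow, hg, huu, h1]
        simp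
    have hfib : ∀ w w' : Fin s → ZMod 3,
        (univ.filter fun g : L ≃ₐ[ℚ] L => χ g = a ∧ uu g = w).card =
        (univ.filter fun g : L ≃ₐ[ℚ] L => χ g = a ∧ uu g = w').card := by
      intro v v'
      obtain ⟨z, hzζ, hzρ⟩ := hGKUM s b p q p' q' f L ζ (ι w) hSys hGp (v' - v)
      obtain ⟨hzω, hχz⟩ := hz1 z hzζ
      have key : ∀ g : L ≃ₐ[ℚ] L, g (ι w) = ι w → uu (g * z) = (v' - v) + uu g := by
        intro g hg
        funext j
        apply huniq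
        rw [AlgEquiv.mul_apply, hzρ j _ (hθ j), map_mul, map_pow, hg, huu, ← mul_assoc,
          om_add hω3]
        rfl
      refine Finset.card_bij (fun g _ => g * z) ?_ ?_ ?_
      · intro g hg
        rw [mem_filter] at hg ⊢
        obtain ⟨_, h1, h2⟩ := hg
        refine ⟨mem_univ _, by rw [map_mul, hχz, mul_one, h1], ?_⟩
        rw [key g (hM g (by rw [h1]; exact ha)), h2]
        abel
      · intro g _ g' _ e
        exact mul_right_cancel e
      · intro g hg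
        rw [mem_filter] at hg
        obtain ⟨_, h1, h2⟩ := hg
        have h3 : g * z⁻¹ * z = g := inv_mul_cancel_right g z
        have h4 : χ (g * z⁻¹) = a := by rw [map_mul, map_inv, hχz, inv_one, mul_one, h1]
        refine ⟨g * z⁻¹, ?_, h3⟩
        rw [mem_filter]
        refine ⟨mem_univ _, h4, ?_⟩
        have h5 := key (g * z⁻¹) (hM _ (by rw [h4]; exact ha))
        rw [h3, h2] at h5
        funext j
        have h7 := congrFun h5 j
        simp only [Pi.add_apply, Pi.sub_apply] at h7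
        linear_combination (-1 : ZMod 3) * h7
    have h1 : Nat.card {g : L ≃ₐ[ℚ] L // χ g = a} =
        3 ^ s * (univ.filter fun g : L ≃ₐ[ℚ] L => χ g = a ∧ uu g = 0).card := by
      rw [Nat.card_eq_fintype_card, Fintype.card_subtype,
        Finset.card_eq_sum_card_fiberwise (f := uu) (t := univ) (fun _ _ => by simp)]
      have h2 : ∀ v ∈ (univ : Finset (Fin s → ZMod 3)),
          (Finset.filter (fun g => uu g = v) (univ.filter fun g : L ≃ₐ[ℚ] L => χ g = a)).card =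
          (univ.filter fun g : L ≃ₐ[ℚ] L => χ g = a ∧ uu g = 0).card := by
        intro v _
        rw [Finset.filter_filter]
        exact hfib v 0
      rw [Finset.sum_congr rfl h2, Finset.sum_const, smul_eq_mul, Finset.card_univ,
        Fintype.card_fun, ZMod.card, Fintype.card_fin]
    have h2 : Nat.card {g : L ≃ₐ[ℚ] L // χ g = a ∧ F0 b ι g} =
        (univ.filter fun g : L ≃ₐ[ℚ] L => χ g = a ∧ uu g = 0).card := by
      rw [Nat.card_eq_fintype_card, Fintype.card_subtype]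
      congr 1
      apply Finset.filter_congr
      intro g _
      refine and_congr_right fun h3 => ?_
      exact hFu g (hM g (by rw [h3]; exact ha))
    rw [h1, h2]
  · intro N hN' hNp hN₀ I g hI hNI hst
    have hfin := GFR.quo_finite hNp hI hNI
    obtain ⟨l, hl, hfr⟩ := GFR.exists_frob_gen (R := ℤ) I g hst
    refine ⟨l, hl, hχF N hN' hNp I (g ^ l) hI hNI hfr, fun hN3 ρ hρ => ⟨fun hsym => ?_,
      fun hx hu => ?_⟩⟩
    · -- the rational classes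
      have hb : ∀ j, ¬ (N : ℤ) ∣ b j := fun j =>
        GFR.not_dvd_of_lt (hb0 j)
          (lt_of_le_of_lt ((hB j).trans (le_max_right _ _)) hN₀)
      obtain ⟨ωB, ρ₀, K, _, mk, z, ψ, hωB, hρ₀, D⟩ :=
        PTE.GFRS.exists_dat hSPLT hSPP hNp hI hNI hN3 hfr hGp.rel
      obtain ⟨-, -, h3, h4, h5, -⟩ := hSPLT.2 N ρ₀ hNp hN3 hρ₀
      have hC : GFRU.CJ ρ₀.1 N := ⟨h4, h5⟩
      have hsym' : ∀ j, sym ρ₀.1 (b j : Eis) = 0 := by
        intro j
        rcases h3 ρ ⟨conj ρ.1, hρ⟩ with h6 | h6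
        · rw [← h6]
          exact hsym j
        · have h7 := hC.int (hb j)
          rw [← h6, hsym j] at h7
          exact neg_eq_zero.1 h7.symm
      have hfω := D.fω
      rw [hωB] at hfω
      refine ⟨hfω, fun j θ hθ => ?_⟩
      obtain ⟨θB, rfl, hθB⟩ := PTE.GFRS.exists_int hθ
      by_contra h8
      exact D.sym_ne hθB (hb _)
        (fun h => h8 (congrArg (fun x : 𝓞 L => (x : L)) h)) (hsym' j)
    · obtain ⟨h1, h2, h3⟩ := hFr N hNp (lt_of_le_of_lt (le_max_left _ _) hN₀) hN3 I hI hNI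
        (g ^ l) hfr ρ hρ hx hu
      have h4 : F2 (g ^ l) := ⟨h1, h2⟩
      refine ⟨h4, fun j r r' hr hr' => ?_⟩
      exact h3 c hc j r r' _ _ hr hr' (ht _ j h4) (ht _ j (hF2c _ c h4))

end Pool.Agent.PTK


end

section

/-!
# All moments of `3^r` for prime twists: the joint governing field, all classes cubes

`Q = 1 (mod 3)` and all rational classes are cubes modulo `Q`; several base classes.
-/

set_option autoImplicit false

open NumberField IsDedekindDomain Finset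
open scoped nonZeroDivisors Pointwise

namespace Pool.Agent.PTK

open Pool.Agent.Lib_helper18 Pool.Agent.Lib_helper18.Eis Pool.Agent.Lib_helper84.Cub
open Pool.Agent.PT Pool.Agent.PTE Pool.Agent.PT3 Pool.Agent.PTL Pool.Agent.PTN
open Pool.Agent.PT.GALD Pool.Agent.PTE.GALDS

namespace MAZ

/-- the empty family -/
def nil : Fin 0 → Eis := fun j => j.elim0

theorem sys0 {M N : ℕ} {z : Fin M → Eis} {α β : Fin N → Fin M} {P Q P' Q' : Fin N → Eis}
    (hS : SysZ z α β P Q P' Q') (i : Fin M) : SysK (z i) nil nil nil nil nil := by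
  classical
  refine ⟨fun c₀ c h hc => ?_, fun j => j.elim0, hS.cz i, fun j => j.elim0⟩
  have h3 : ¬ 3 ∣ c₀ := by
    rcases h with h | ⟨j, _⟩
    · exact h
    · exact j.elim0
  refine hS.ind (Pi.single i c₀) ⟨i, by rwa [Pi.single_eq_same]⟩ ?_
  obtain ⟨t, ht⟩ := hc
  refine ⟨t, ht.trans ?_⟩
  rw [Finset.univ_eq_empty, Finset.prod_empty, mul_one,
    Finset.prod_eq_single i (fun j _ hj => by rw [Pi.single_eq_of_ne hj, pow_zero])
      (fun h => absurd (Finset.mem_univ i) h), Pi.single_eq_same]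

theorem gov0 {M N : ℕ} {z : Fin M → Eis} {α : Fin N → Fin M} {P Q P' Q' : Fin N → Eis}
    {f : ℕ} {L : Type} [Field L] [NumberField L] {ζ : L} {ι : Eis →+* L}
    (hG : GovZ z α P Q P' Q' f L ζ ι) (i : Fin M) : GovK (z i) nil nil nil nil nil f L ζ ι :=
  ⟨hG.gal, hG.prim, hG.nine, hG.hω, hG.rz i, fun j => j.elim0, fun j => j.elim0,
    fun j => j.elim0⟩

end MAZ

open JAZ in
theorem MAZ_thm (hMZF : Stmt_MZF) (hMC1 : Stmt_MC1) (hMC2 : Stmt_MC2) (hGTZ : Stmt_GTZ)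
    (hGFZ : Stmt_GFZ) (hGTU : Stmt_GTU) (hGFKU : Stmt_GFKU) (hGCHI : GCHI) (hGKUM : GKUM) :
    Stmt_MAZ := by
  classical
  intro s b p q p' q' M N z α β P Q P' Q' f hSys hSysZ hf h9
  obtain ⟨L, hF, hN, ζ, ι, hG⟩ := hMZF s M N b p q p' q' z α β P Q P' Q' f hSys hSysZ hf h9
  have hGp := hG.plus
  have hGm := hG.minus
  have := hGp.gal
  obtain ⟨χ, hχs, hχζ, hχF⟩ := hGCHI L f ζ hf hGp.prim
  obtain ⟨Nz, hFrZ⟩ := hGFZ s b p q p' q' f L ζ (ι w) hSys hGp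
  have hFr1 := fun i => hGFKU 0 (z i) MAZ.nil MAZ.nil MAZ.nil MAZ.nil MAZ.nil f L ζ ι
    (MAZ.sys0 hSysZ i) (MAZ.gov0 hGm i)
  choose N₁ hFr₁ using hFr1
  have hFr2 := fun r => hGFKU 1 (z (α r)) (fun _ => z (β r)) (fun _ => P r) (fun _ => Q r)
    (fun _ => P' r) (fun _ => Q' r) f L ζ ι (hSysZ.one r) (hGm.one r)
  choose N₂ hFr₂ using hFr2
  have hU := fun r => hGTU 1 (z (α r)) (fun _ => z (β r)) (fun _ => P r) (fun _ => Q r)
    (fun _ => P' r) (fun _ => Q' r) f L ζ ι (hSysZ.one r) (hGm.one r)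
  have hU0 := fun i => hGTU 0 (z i) MAZ.nil MAZ.nil MAZ.nil MAZ.nil MAZ.nil f L ζ ι
    (MAZ.sys0 hSysZ i) (MAZ.gov0 hGm i)
  obtain ⟨hZ0, hZ⟩ := hGTZ s b p q p' q' f L ζ (ι w) hSys hGp
  have hω3 : ι w ^ 3 = 1 := GC.om3 (GCK.om ι)
  have hf1 : 1 < f := by
    obtain ⟨c, hc⟩ := h9
    omega
  have h3f : 3 ∣ f := (by norm_num : (3 : ℕ) ∣ 9).trans h9
  have hfz : NeZero f := ⟨hf.ne'⟩
  -- action on ω
  have hωχ : ∀ g : L ≃ₐ[ℚ] L, g (ι w) = ι w ^ ((χ g : ZMod f)).val := by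
    intro g
    rw [hGm.hω, map_pow, hχζ g, ← pow_mul, mul_comm, pow_mul, ← hGm.hω]
  have hM : ∀ g : L ≃ₐ[ℚ] L, M1 (χ g) → g (ι w) = ι w := by
    intro g hg
    rw [hωχ g]
    conv_rhs => rw [← pow_one (ι w)]
    apply om_congr hω3
    unfold M1 at hg
    omega
  obtain ⟨c, hc⟩ : ∃ c : L ≃ₐ[ℚ] L, c (ι w) = ι w ^ 2 := by
    obtain ⟨c, hc⟩ := hχs (-1)
    refine ⟨c, ?_⟩
    rw [hωχ c, hc, neg_one_val hf1]
    apply om_congr hω3
    omega
  have hz1 : ∀ z : L ≃ₐ[ℚ] L, z ζ = ζ → z (ι w) = ι w ∧ χ z = 1 := by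
    intro z hzζ
    refine ⟨by rw [hGm.hω, map_pow, hzζ], ?_⟩
    have h1 := hχζ z
    rw [hzζ] at h1
    have h2 : ((χ z : ZMod f)).val = 1 := by
      apply hGp.prim.pow_inj (ZMod.val_lt _) hf1
      rw [← h1, pow_one]
    apply Units.ext
    have h3 := ZMod.natCast_zmod_val (χ z : ZMod f)
    rw [h2] at h3
    rw [← h3]
    simp
  have hb0 : ∀ j, b j ≠ 0 := PTE.GFRS.ne_zero hSys
  -- the class of the plus part
  let tt : (L ≃ₐ[ℚ] L) → Fin s → Fin s → ZMod 3 := fun g j i =>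
    if h : j ≠ i ∧ F0 b ι g then ((hZ j i h.1).1 g h.2.1 h.2.2).choose else 0
  have htt : ∀ (g : L ≃ₐ[ℚ] L) (j i : Fin s), j ≠ i → F0 b ι g →
      IsTS b p q p' q' (ι w) g j i (tt g j i) := by
    intro g j i hji hg
    have h : j ≠ i ∧ F0 b ι g := ⟨hji, hg⟩
    have e : tt g j i = ((hZ j i h.1).1 g h.2.1 h.2.2).choose := dif_pos h
    rw [e]
    exact ((hZ j i h.1).1 g h.2.1 h.2.2).choose_spec.1
  have httu : ∀ (g : L ≃ₐ[ℚ] L) (j i : Fin s) (a : ZMod 3), j ≠ i → F0 b ι g →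
      IsTS b p q p' q' (ι w) g j i a → tt g j i = a := by
    intro g j i a hji hg ha
    exact ((hZ j i hji).1 g hg.1 hg.2).unique (htt g j i hji hg) ha
  -- the class of the minus part
  let F2 : (L ≃ₐ[ℚ] L) → Prop := fun g =>
    g (ι w) = ι w ∧ ∀ (i : Fin M) (ρ : L), ρ ^ 3 = ι (z i) → g ρ = ρ
  have hFU : ∀ (g : L ≃ₐ[ℚ] L) (r : Fin N), F2 g →
      FxU (z (α r)) (fun _ : Fin 1 => z (β r)) ι g := fun g r hg =>
    ⟨hg.2 (α r), fun _ => hg.2 (β r)⟩
  let t : (L ≃ₐ[ℚ] L) → Fin N → ZMod 3 := fun g r =>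
    if h : F2 g then (((hU r).2.2 0).1 g h.1 (hFU g r h)).choose else 0
  have ht : ∀ (g : L ≃ₐ[ℚ] L) (r : Fin N), F2 g →
      IsTU (z (α r)) (fun _ : Fin 1 => P r) (fun _ => Q r) (fun _ => P' r) (fun _ => Q' r)
        ι g 0 (t g r) := by
    intro g r h
    have e : t g r = (((hU r).2.2 0).1 g h.1 (hFU g r h)).choose := dif_pos h
    rw [e]
    exact (((hU r).2.2 0).1 g h.1 (hFU g r h)).choose_spec.1
  have htu : ∀ (g : L ≃ₐ[ℚ] L) (r : Fin N) (a : ZMod 3), F2 g →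
      IsTU (z (α r)) (fun _ : Fin 1 => P r) (fun _ => Q r) (fun _ => P' r) (fun _ => Q' r)
        ι g 0 a → t g r = a := by
    intro g r a h ha
    exact (((hU r).2.2 0).1 g h.1 (hFU g r h)).unique (ht g r h) ha
  let T : (L ≃ₐ[ℚ] L) → Fin N → ZMod 3 := fun g r => t g r + t (c * g * c⁻¹) r
  have hF2c : ∀ g τ : L ≃ₐ[ℚ] L, F2 g → F2 (τ * g * τ⁻¹) := fun g τ hg =>
    ⟨conj_fix τ hg.1, fun i => ((hU0 i).1 g τ hg.1 ⟨hg.2 i, fun j => j.elim0⟩).1⟩
  have hF2p : ∀ (g : L ≃ₐ[ℚ] L) (l : ℕ), F2 g → F2 (g ^ l) := fun g l hg =>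
    ⟨pow_pt hg.1 l, fun i ρ hρ => pow_pt (hg.2 i ρ hρ) l⟩
  have htc : ∀ (g σ : L ≃ₐ[ℚ] L) (r : Fin N), F2 g → σ (ι w) = ι w →
      t (σ * g * σ⁻¹) r = t g r := fun g σ r hg hσ =>
    htu _ _ _ (hF2c g σ hg) (((hU r).2.2 0).2.1 g σ _ hg.1 (hFU g r hg) hσ (ht g r hg))
  have htp : ∀ (g : L ≃ₐ[ℚ] L) (l : ℕ) (r : Fin N), F2 g → t (g ^ l) r = l * t g r :=
    fun g l r hg => htu _ _ _ (hF2p g l hg) (((hU r).2.2 0).2.2 g _ l hg.1 (ht g r hg))
  -- the bound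
  have hB1 : ∀ i, N₁ i ≤ ∑ i, N₁ i := fun i =>
    Finset.single_le_sum (f := N₁) (fun _ _ => Nat.zero_le _) (Finset.mem_univ i)
  have hB2 : ∀ r, N₂ r ≤ ∑ r, N₂ r := fun r =>
    Finset.single_le_sum (f := N₂) (fun _ _ => Nat.zero_le _) (Finset.mem_univ r)
  refine ⟨L, hF, hN, hGp.gal, χ, F0 b ι, tt, F2, T, Nz + ∑ i, N₁ i + ∑ r, N₂ r, hχs,
    fun g τ _ h => ⟨h.conj τ, fun j i hji => ?_⟩, fun g l _ h => ⟨h.pow l, fun j i hji => ?_⟩,
    ?_, ?_, ?_, ?_, ?_⟩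
  · exact httu _ _ _ _ hji (h.conj τ) ((hZ j i hji).2.1 g τ _ h.1 h.2 (htt g j i hji h))
  · exact httu _ _ _ _ hji (h.pow l) ((hZ j i hji).2.2 g _ l h.1 (htt g j i hji h))
  · intro g τ _ hg
    refine ⟨hF2c g τ hg, funext fun j => ?_⟩
    show t (τ * g * τ⁻¹) j + t (c * (τ * g * τ⁻¹) * c⁻¹) j = t g j + t (c * g * c⁻¹) j
    rcases GAK.cases_om ι τ with hτ | hτ
    · have e : c * (τ * g * τ⁻¹) * c⁻¹ =
          (c * τ * c⁻¹) * (c * g * c⁻¹) * (c * τ * c⁻¹)⁻¹ := by group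
      rw [e, htc g τ j hg hτ, htc _ _ j (hF2c g c hg) (conj_fix c hτ)]
    · have e1 : τ * g * τ⁻¹ = (τ * c⁻¹) * (c * g * c⁻¹) * (τ * c⁻¹)⁻¹ := by group
      have e2 : c * (τ * g * τ⁻¹) * c⁻¹ = (c * τ) * g * (c * τ)⁻¹ := by group
      have h1 : (τ * c⁻¹) (ι w) = ι w := by
        rw [AlgEquiv.mul_apply, inv_sq hc, map_pow, hτ, GAK.om4]
      have h2 : (c * τ) (ι w) = ι w := by
        rw [AlgEquiv.mul_apply, hτ, map_pow, hc, GAK.om4]
      rw [e2, htc g _ j hg h2, e1, htc _ _ j (hF2c g c hg) h1, add_comm]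
  · intro g l _ hg
    refine ⟨hF2p g l hg, funext fun j => ?_⟩
    show t (g ^ l) j + t (c * g ^ l * c⁻¹) j = (l : ZMod 3) • (t g j + t (c * g * c⁻¹) j)
    have e : c * g ^ l * c⁻¹ = (c * g * c⁻¹) ^ l := by rw [conj_pow]
    rw [e, htp g l j hg, htp _ l j (hF2c g c hg), smul_eq_mul]
    ring
  · intro a v v' y y' ha
    obtain ⟨z₁, hz₁, hz₁P, hz₁M⟩ := hMC1 s M N b p q p' q' z α β P Q P' Q' f L ζ ι hSys hSysZ hG
      (fun j => 2 * (y' j - y j))
    obtain ⟨z₂, hz₂, hz₂P, hz₂M⟩ := hMC2 s M N b p q p' q' z α β P Q P' Q' f L ζ ι hSys hSysZ hG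
      (fun j i => v' j i - v j i)
    obtain ⟨hz₁ω, hχz₁⟩ := hz1 z₁ hz₁.ze
    obtain ⟨hz₂ω, hχz₂⟩ := hz1 z₂ hz₂.ze
    set zz := z₁ * z₂ with hzz
    have hzω : zz (ι w) = ι w := by rw [hzz, AlgEquiv.mul_apply, hz₂ω, hz₁ω]
    have hχz : χ zz = 1 := by rw [hzz, map_mul, hχz₁, hχz₂, mul_one]
    have hzb : ∀ (j : Fin s) (ρ : L), ρ ^ 3 = (b j : L) → zz ρ = ρ := by
      intro j ρ hρ
      rw [hzz, AlgEquiv.mul_apply, hz₂.rb j ρ hρ, hz₁.rb j ρ hρ]
    have hzr : ∀ (i : Fin M) (ρ : L), ρ ^ 3 = ι (z i) → zz ρ = ρ := by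
      intro i ρ hρ
      rw [hzz, AlgEquiv.mul_apply, hz₂.rz i ρ hρ, hz₁.rz i ρ hρ]
    have hF0z : ∀ g : L ≃ₐ[ℚ] L, F0 b ι (g * zz) ↔ F0 b ι g := by
      intro g
      have h1 : ∀ (j : Fin s) (ρ : L), ρ ^ 3 = (b j : L) → (g * zz) ρ = g ρ := by
        intro j ρ hρ
        rw [AlgEquiv.mul_apply, hzb j ρ hρ]
      have h2 : (g * zz) (ι w) = g (ι w) := by rw [AlgEquiv.mul_apply, hzω]
      unfold F0
      rw [h2]
      refine and_congr_right fun _ => ?_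
      constructor
      · intro h j ρ hρ
        rw [← h1 j ρ hρ]
        exact h j ρ hρ
      · intro h j ρ hρ
        rw [h1 j ρ hρ]
        exact h j ρ hρ
    have hF2z : ∀ g : L ≃ₐ[ℚ] L, F2 (g * zz) ↔ F2 g := by
      intro g
      have h1 : ∀ (i : Fin M) (ρ : L), ρ ^ 3 = ι (z i) → (g * zz) ρ = g ρ := by
        intro i ρ hρ
        rw [AlgEquiv.mul_apply, hzr i ρ hρ]
      have h2 : (g * zz) (ι w) = g (ι w) := by rw [AlgEquiv.mul_apply, hzω]
      show ((g * zz) (ι w) = ι w ∧ ∀ (i : Fin M) (ρ : L), ρ ^ 3 = ι (z i) → (g * zz) ρ = ρ) ↔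
        (g (ι w) = ι w ∧ ∀ (i : Fin M) (ρ : L), ρ ^ 3 = ι (z i) → g ρ = ρ)
      rw [h2]
      refine and_congr_right fun _ => ?_
      constructor
      · intro h i ρ hρ
        rw [← h1 i ρ hρ]
        exact h i ρ hρ
      · intro h i ρ hρ
        rw [h1 i ρ hρ]
        exact h i ρ hρ
    have key0 : ∀ g : L ≃ₐ[ℚ] L, F0 b ι g → ∀ j i, j < i →
        tt (g * zz) j i = (v' j i - v j i) + tt g j i := by
      intro g hg j i hji
      apply httu _ _ _ _ hji.ne ((hF0z g).2 hg)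
      intro ρ A hρ hA
      have h1 := htt g j i hji.ne hg ρ A hρ hA
      have h2 := hz₂P j i ρ A hji ⟨hρ, hA⟩
      have h3 := hz₁P j i ρ A hji.ne ⟨hρ, hA⟩
      rw [AlgEquiv.mul_apply, hzz, AlgEquiv.mul_apply, h2, map_mul, map_pow, hz₁ω, h3, map_mul,
        map_pow, hg.1, h1, ← mul_assoc, om_add hω3]
    have key : ∀ g : L ≃ₐ[ℚ] L, F2 g → ∀ j, T (g * zz) j = (y' j - y j) + T g j := by
      intro g hg j
      show t (g * zz) j + t (c * (g * zz) * c⁻¹) j =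
        (y' j - y j) + (t g j + t (c * g * c⁻¹) j)
      have e1 : t (g * zz) j = 2 * (y' j - y j) + t g j := by
        apply htu _ _ _ ((hF2z g).2 hg)
        intro ρ A hA
        have h1 := ht g j hg ρ A hA
        rw [AlgEquiv.mul_apply, hzz, AlgEquiv.mul_apply, (hz₂M j ρ A hA).1, (hz₁M j ρ A hA).1,
          map_mul, map_pow, hg.1, h1, ← mul_assoc, om_add hω3]
      have hg' := hF2c g c hg
      have e2 : t (c * (g * zz) * c⁻¹) j = 2 * (y' j - y j) + t (c * g * c⁻¹) j := by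
        apply htu _ _ _ (hF2c _ c ((hF2z g).2 hg))
        intro ρ A hA
        have h0 : zz (c⁻¹ A) = ι w ^ (-(2 * (y' j - y j))).val * c⁻¹ A := by
          rw [hzz, AlgEquiv.mul_apply, (hz₂M j ρ A hA).2 c⁻¹ (inv_sq hc),
            (hz₁M j ρ A hA).2 c⁻¹ (inv_sq hc)]
        have h1 := conj_z hc h0
        have h2 : c * (g * zz) * c⁻¹ = (c * g * c⁻¹) * (c * zz * c⁻¹) := by group
        rw [h2, AlgEquiv.mul_apply, h1, map_mul, map_pow, hg'.1,
          ht _ j hg' ρ A hA, ← mul_assoc, om_add hω3]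
      rw [e1, e2]
      linear_combination (y' j - y j) * three_card
    apply Nat.card_congr
    refine Equiv.subtypeEquiv (Equiv.mulRight zz) ?_
    intro g
    have hχ : χ (g * zz) = χ g := by rw [map_mul, hχz, mul_one]
    show (χ g = a ∧ F0 b ι g ∧ F2 g ∧ T g = y ∧ ∀ j i, j < i → tt g j i = v j i) ↔
      (χ (g * zz) = a ∧ F0 b ι (g * zz) ∧ F2 (g * zz) ∧ T (g * zz) = y' ∧
        ∀ j i, j < i → tt (g * zz) j i = v' j i)
    rw [hχ, hF0z g, hF2z g]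
    refine and_congr_right fun _ => and_congr_right fun hg0 => and_congr_right fun hg =>
      and_congr ?_ ?_
    · constructor
      · intro h
        funext j
        rw [key g hg j, h]
        ring
      · intro h
        funext j
        have h4 := congrFun h j
        rw [key g hg j] at h4
        linear_combination h4
    · constructor
      · intro h j i hji
        rw [key0 g hg0 j i hji, h j i hji]
        ring
      · intro h j i hji
        have h4 := h j i hji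
        rw [key0 g hg0 j i hji] at h4
        linear_combination h4
  · intro a ha
    choose θ hθ using hGp.root
    have hθ0 : ∀ j, θ j ≠ 0 := by
      intro j h0
      have h1 := hθ j
      rw [h0] at h1
      apply hb0 j
      have h2 : ((b j : ℤ) : L) = 0 := by rw [← h1]; norm_num
      exact_mod_cast h2
    have hex : ∀ (g : L ≃ₐ[ℚ] L) (j : Fin s), ∃ u : ZMod 3, g (θ j) = ι w ^ u.val * θ j := by
      intro g j
      apply cube_root hGp.rel
      rw [← map_pow, hθ j, map_intCast]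
    choose uu huu using hex
    have huniq : ∀ (g : L ≃ₐ[ℚ] L) (j : Fin s) (u : ZMod 3), g (θ j) = ι w ^ u.val * θ j →
        uu g j = u := by
      intro g j u h
      apply om_zmod_inj hGp.rel (hθ0 j)
      rw [← huu g j, h]
    -- criterion for `F0`
    have hFu : ∀ g : L ≃ₐ[ℚ] L, g (ι w) = ι w → (F0 b ι g ↔ uu g = 0) := by
      intro g hg
      constructor
      · rintro ⟨_, h1⟩
        funext j
        apply huniq
        rw [h1 j _ (hθ _)]
        simp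
      · intro h1
        refine ⟨hg, fun j ρ hρ => ?_⟩
        obtain ⟨u, hu⟩ := cube_root hGp.rel (θ := θ j) (ρ := ρ) (by rw [hρ, hθ])
        rw [hu, map_mul, map_pow, hg, huu, h1]
        simp
    have hfib : ∀ w w' : Fin s → ZMod 3,
        (univ.filter fun g : L ≃ₐ[ℚ] L => χ g = a ∧ uu g = w).card =
        (univ.filter fun g : L ≃ₐ[ℚ] L => χ g = a ∧ uu g = w').card := by
      intro v v'
      obtain ⟨z, hzζ, hzρ⟩ := hGKUM s b p q p' q' f L ζ (ι w) hSys hGp (v' - v)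
      obtain ⟨hzω, hχz⟩ := hz1 z hzζ
      have key : ∀ g : L ≃ₐ[ℚ] L, g (ι w) = ι w → uu (g * z) = (v' - v) + uu g := by
        intro g hg
        funext j
        apply huniq
        rw [AlgEquiv.mul_apply, hzρ j _ (hθ j), map_mul, map_pow, hg, huu, ← mul_assoc,
          om_add hω3]
        rfl
      refine Finset.card_bij (fun g _ => g * z) ?_ ?_ ?_
      · intro g hg
        rw [mem_filter] at hg ⊢
        obtain ⟨_, h1, h2⟩ := hg
        refine ⟨mem_univ _, by rw [map_mul, hχz, mul_one, h1], ?_⟩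
        rw [key g (hM g (by rw [h1]; exact ha)), h2]
        abel
      · intro g _ g' _ e
        exact mul_right_cancel e
      · intro g hg
        rw [mem_filter] at hg
        obtain ⟨_, h1, h2⟩ := hg
        have h3 : g * z⁻¹ * z = g := inv_mul_cancel_right g z
        have h4 : χ (g * z⁻¹) = a := by rw [map_mul, map_inv, hχz, inv_one, mul_one, h1]
        refine ⟨g * z⁻¹, ?_, h3⟩
        rw [mem_filter]
        refine ⟨mem_univ _, h4, ?_⟩
        have h5 := key (g * z⁻¹) (hM _ (by rw [h4]; exact ha))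
        rw [h3, h2] at h5
        funext j
        have h7 := congrFun h5 j
        simp only [Pi.add_apply, Pi.sub_apply] at h7
        linear_combination (-1 : ZMod 3) * h7
    have h1 : Nat.card {g : L ≃ₐ[ℚ] L // χ g = a} =
        3 ^ s * (univ.filter fun g : L ≃ₐ[ℚ] L => χ g = a ∧ uu g = 0).card := by
      rw [Nat.card_eq_fintype_card, Fintype.card_subtype,
        Finset.card_eq_sum_card_fiberwise (f := uu) (t := univ) (fun _ _ => by simp)]
      have h2 : ∀ v ∈ (univ : Finset (Fin s → ZMod 3)),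
          (Finset.filter (fun g => uu g = v) (univ.filter fun g : L ≃ₐ[ℚ] L => χ g = a)).card =
          (univ.filter fun g : L ≃ₐ[ℚ] L => χ g = a ∧ uu g = 0).card := by
        intro v _
        rw [Finset.filter_filter]
        exact hfib v 0
      rw [Finset.sum_congr rfl h2, Finset.sum_const, smul_eq_mul, Finset.card_univ,
        Fintype.card_fun, ZMod.card, Fintype.card_fin]
    have h2 : Nat.card {g : L ≃ₐ[ℚ] L // χ g = a ∧ F0 b ι g} =
        (univ.filter fun g : L ≃ₐ[ℚ] L => χ g = a ∧ uu g = 0).card := by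
      rw [Nat.card_eq_fintype_card, Fintype.card_subtype]
      congr 1
      apply Finset.filter_congr
      intro g _
      refine and_congr_right fun h3 => ?_
      exact hFu g (hM g (by rw [h3]; exact ha))
    rw [h1, h2]
  · intro q₀ hq hq₀ hN₀ I g hI hNI hst
    have hfin := GFR.quo_finite hq₀ hI hNI
    obtain ⟨l, hl, hfr⟩ := GFR.exists_frob_gen (R := ℤ) I g hst
    have hχl := hχF q₀ hq hq₀ I (g ^ l) hI hNI hfr
    refine ⟨l, hl, hχl, fun hN3 ρ hρ => ⟨fun hsym => ?_, fun hsym => ?_⟩⟩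
    · -- the rational classes
      obtain ⟨h1, h2, h3⟩ := hFrZ q₀ hq₀ (by omega) hN3 I hI hNI (g ^ l) hfr ρ hρ hsym
      have h4 : F0 b ι (g ^ l) := ⟨h1, h2⟩
      exact ⟨h4, fun j i hji r hr => h3 j i hji r _ hr (htt _ j i hji h4)⟩
    · have hM1 : M1 (χ (g ^ l)) := by
        unfold M1
        rw [hχl, ZMod.coe_unitOfCoprime, ZMod.val_natCast, Nat.mod_mod_of_dvd _ h3f]
        exact hN3
      have h4 : F2 (g ^ l) := by
        refine ⟨hM _ hM1, fun i => ?_⟩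
        have h5 := hB1 i
        exact (hFr₁ i q₀ hq₀ (by omega) hN3 I hI hNI (g ^ l) hfr ρ hρ (hsym i)
          (fun j => j.elim0)).2.1.1
      refine ⟨h4, fun r ξ ξ' hξ hξ' => ?_⟩
      have h5 := hB2 r
      exact (hFr₂ r q₀ hq₀ (by omega) hN3 I hI hNI (g ^ l) hfr ρ hρ (hsym (α r))
        (fun _ => hsym (β r))).2.2 c hc 0 ξ ξ' _ _ hξ hξ' (ht _ r h4)
        (ht _ r (hF2c _ c h4))

end Pool.Agent.PTK


end

section

/-!
# The joint governing field: commutators for the plus part which are trivial on the minus part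
-/

set_option autoImplicit false

open NumberField IsDedekindDomain Finset
open scoped nonZeroDivisors Pointwise

namespace Pool.Agent.PTK

open Pool.Agent.Lib_helper18 Pool.Agent.Lib_helper18.Eis Pool.Agent.Lib_helper84.Cub
open Pool.Agent.PT Pool.Agent.PTE Pool.Agent.PT3 Pool.Agent.PTL Pool.Agent.PTN

namespace JC2

section rel

variable {s : ℕ} {b : Fin s → ℤ} {p q p' q' : Fin s → Fin s → ℤ} {L : Type} [Field L]
    [NumberField L] {ζ ω : L}

/-- `GC.all` with a property `H` of the automorphisms which is closed under products -/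
theorem all (hω : ω ^ 2 + ω + 1 = 0) (hζ : ∀ z : L ≃ₐ[ℚ] L, z ζ = ζ → z ω = ω)
    (H : (L ≃ₐ[ℚ] L) → Prop) (H1 : H 1) (Hm : ∀ z z', H z → H z' → H (z * z'))
    (hel : ∀ j₀ i₀ : Fin s, j₀ < i₀ → ∃ z : L ≃ₐ[ℚ] L,
      GC.R b p q p' q' ζ ω (fun j i => if (j, i) = (j₀, i₀) then 1 else 0) z ∧ H z)
    (v : Fin s → Fin s → ZMod 3) : ∃ z : L ≃ₐ[ℚ] L, GC.R b p q p' q' ζ ω v z ∧ H z := by
  let S : AddSubmonoid (Fin s → Fin s → ZMod 3) :=
    { carrier := {v | ∃ z : L ≃ₐ[ℚ] L, GC.R b p q p' q' ζ ω v z ∧ H z}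
      zero_mem' := ⟨1, GC.R_zero (fun _ _ _ => rfl), H1⟩
      add_mem' := by
        rintro v v' ⟨z, hz, hz1⟩ ⟨z', hz', hz1'⟩
        exact ⟨z * z', GC.R_add hω hζ hz hz', Hm _ _ hz1 hz1'⟩ }
  have h1 : ∀ x : Fin s × Fin s,
      (fun j i => if (j, i) = x then v x.1 x.2 else 0 : Fin s → Fin s → ZMod 3) ∈ S := by
    rintro ⟨j₀, i₀⟩
    by_cases hji : j₀ < i₀
    · have h2 : (fun j i => if (j, i) = (j₀, i₀) then v j₀ i₀ else 0 : Fin s → Fin s → ZMod 3) =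
          (v j₀ i₀).val • (fun j i => if (j, i) = (j₀, i₀) then 1 else 0 :
            Fin s → Fin s → ZMod 3) := by
        funext j i
        rw [Pi.smul_apply, Pi.smul_apply]
        split_ifs with h
        · rw [nsmul_one, ZMod.natCast_val, ZMod.cast_id', id]
        · rw [smul_zero]
      change (fun j i => if (j, i) = (j₀, i₀) then v j₀ i₀ else 0 : Fin s → Fin s → ZMod 3) ∈ S
      rw [h2]
      exact S.nsmul_mem (hel j₀ i₀ hji) _
    · refine ⟨1, GC.R_zero (fun j i hji' => ?_), H1⟩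
      rw [if_neg]
      intro h
      rw [Prod.mk.injEq] at h
      rw [h.1, h.2] at hji'
      exact hji hji'
  have h3 : v = ∑ x : Fin s × Fin s,
      (fun j i => if (j, i) = x then v x.1 x.2 else 0 : Fin s → Fin s → ZMod 3) := by
    funext j i
    rw [Finset.sum_apply, Finset.sum_apply, Finset.sum_ite_eq, if_pos (Finset.mem_univ _)]
  have h4 : v ∈ S := by
    rw [h3]
    exact S.sum_mem (fun x _ => h1 x)
  exact h4

end rel

section com

variable {k : ℕ} {L : Type} [Field L] [NumberField L] {ι : Eis →+* L} {x : Eis}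
  {u P Q P' Q' : Fin k → Eis}

/-- commutators of automorphisms which fix `ω` and the roots of `x` are trivial on `A` -/
theorem comA (hnz : ∀ j, GCK.Nz ι x (P j) (Q j) (P' j) (Q' j)) {σ τ : L ≃ₐ[ℚ] L}
    (hσ : GCK.Act ι x u 0 0 σ) (hτ : GCK.Act ι x u 0 0 τ) (j : Fin k) (ρ A : L)
    (hA : PrM x P Q P' Q' ι j ρ A) : ((σ * τ)⁻¹ * (τ * σ)) A = A := by
  have f0 : ∀ g : L ≃ₐ[ℚ] L, GCK.Act ι x u 0 0 g → g ρ = ρ := by
    intro g hg
    rw [hg.2.1 ρ hA.1, ZMod.val_zero, pow_zero, one_mul]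
  obtain ⟨e, he⟩ := GCK.fixA (hnz j) σ hA.1 hσ.1 (f0 σ hσ) hA.2
  obtain ⟨e', he'⟩ := GCK.fixA (hnz j) τ hA.1 hτ.1 (f0 τ hτ) hA.2
  have h1 : τ (σ A) = ι w ^ 0 * σ (τ A) := by
    rw [he, he', map_mul, map_mul, map_pow, map_pow, hσ.1, hτ.1, he, he', pow_zero, one_mul]
    ring
  rw [GC.comm_apply σ τ 0 hσ.1 hτ.1 A h1, pow_zero, one_mul]

/-- the same for the conjugates of `A` -/
theorem comgA (hnz : ∀ j, GCK.Nz ι x (P j) (Q j) (P' j) (Q' j))
    (hx : ∃ t : Eis, x * conj x = t ^ 3) (hu : ∀ j, ∃ t : Eis, u j * conj (u j) = t ^ 3)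
    {σ τ : L ≃ₐ[ℚ] L} (hσ : GCK.Act ι x u 0 0 σ) (hτ : GCK.Act ι x u 0 0 τ) (j : Fin k)
    (ρ A : L) (hA : PrM x P Q P' Q' ι j ρ A) (g : L ≃ₐ[ℚ] L) (hg : g (ι w) = ι w ^ 2) :
    ((σ * τ)⁻¹ * (τ * σ)) (g A) = g A := by
  have h1 := comA hnz (GCK.cjAct hg hx hu hσ) (GCK.cjAct hg hx hu hτ) j ρ A hA
  have h2 : ((g⁻¹ * σ * g) * (g⁻¹ * τ * g))⁻¹ * ((g⁻¹ * τ * g) * (g⁻¹ * σ * g)) =
      g⁻¹ * ((σ * τ)⁻¹ * (τ * σ)) * g := by group
  rw [h2] at h1
  have h3 := congrArg g h1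
  rw [← AlgEquiv.mul_apply, ← mul_assoc, ← mul_assoc, mul_inv_cancel, one_mul,
    AlgEquiv.mul_apply] at h3
  exact h3

end com

end JC2

/-- commutators for the plus part which are trivial on the minus part -/
theorem JC2_thm (hJKU : Stmt_JKU) : Stmt_JC2 := by
  intro s k b p q p' q' x u P Q P' Q' f L _ _ ζ ι hS hSK hG v
  have hω := GCK.om ι
  have hf : 0 < f := by
    rcases Nat.eq_zero_or_pos f with h | h
    · exfalso
      have h1 := hG.minus.hω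
      rw [h, Nat.zero_div, pow_zero] at h1
      rw [h1] at hω
      norm_num at hω
    · exact h
  have hζ : ∀ z : L ≃ₐ[ℚ] L, z ζ = ζ → z (ι w) = ι w := by
    intro z hz
    rw [hG.minus.hω, map_pow, hz]
  have hnz : ∀ j, GCK.Nz ι x (P j) (Q j) (P' j) (Q' j) := fun j ρ hρ => hG.minus.D j ρ hρ
  choose θ hθ using hG.plus.root
  have hg1 : ∀ i : Fin s, ∃ g : L ≃ₐ[ℚ] L, GCK.Act ι x u 0 0 g ∧
      ∀ (l : Fin s) (ρ : L), ρ ^ 3 = (b l : L) →
        g ρ = ι w ^ ((Pi.single i 1 : Fin s → ZMod 3) l).val * ρ := by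
    intro i
    obtain ⟨g, h0, h1, h2, h3⟩ := hJKU s k b p q p' q' x u P Q P' Q' f L ζ ι hS hSK hG 0 0
      (Pi.single i 1)
    exact ⟨g, ⟨h0, h1, h2⟩, h3⟩
  choose g hgK hgv using hg1
  have hgω : ∀ i, g i (ι w) = ι w := fun i => (hgK i).1
  have hgρ : ∀ (j : Fin s) (ρ : L), ρ ^ 3 = (b j : L) → g j ρ = ι w * ρ := by
    intro j ρ hρ
    rw [hgv j j ρ hρ, Pi.single_eq_same, show (1 : ZMod 3).val = 1 from rfl, pow_one]
  have hgρ' : ∀ (i j : Fin s) (ρ : L), ρ ^ 3 = (b j : L) → j ≠ i → g i ρ = ρ := by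
    intro i j ρ hρ hji
    rw [hgv i j ρ hρ, Pi.single_eq_of_ne hji, ZMod.val_zero, pow_zero, one_mul]
  have hz : ∀ g : L ≃ₐ[ℚ] L, ∃ i : ℕ, g ζ = ζ ^ i := by
    intro g
    have h1 : (g ζ) ^ f = 1 := by rw [← map_pow, hG.minus.prim.pow_eq_one, map_one]
    haveI : NeZero f := ⟨hf.ne'⟩
    obtain ⟨i, _, hi⟩ := hG.minus.prim.eq_pow_of_pow_eq_one h1
    exact ⟨i, hi.symm⟩
  obtain ⟨z, hzR, hz1, hz2, hz3⟩ := JC2.all (b := b) (p := p) (q := q) (p' := p') (q' := q')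
    (ζ := ζ) hω hζ
    (fun z => (∀ ρ : L, ρ ^ 3 = ι x → z ρ = ρ) ∧
      (∀ (j : Fin k) (ρ : L), ρ ^ 3 = ι (u j) → z ρ = ρ) ∧
      ∀ (j : Fin k) (ρ A : L), PrM x P Q P' Q' ι j ρ A → z A = A ∧
        ∀ g : L ≃ₐ[ℚ] L, g (ι w) = ι w ^ 2 → z (g A) = g A)
    ⟨fun _ _ => rfl, fun _ _ _ => rfl, fun _ _ _ _ => ⟨rfl, fun _ _ => rfl⟩⟩
    (by
      rintro z z' ⟨h1, h2, h3⟩ ⟨h1', h2', h3'⟩
      refine ⟨fun ρ hρ => ?_, fun j ρ hρ => ?_, fun j ρ A hA => ⟨?_, fun g hg => ?_⟩⟩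
      · rw [AlgEquiv.mul_apply, h1' ρ hρ, h1 ρ hρ]
      · rw [AlgEquiv.mul_apply, h2' j ρ hρ, h2 j ρ hρ]
      · rw [AlgEquiv.mul_apply, (h3' j ρ A hA).1, (h3 j ρ A hA).1]
      · rw [AlgEquiv.mul_apply, (h3' j ρ A hA).2 g hg, (h3 j ρ A hA).2 g hg])
    (by
      intro j i hji
      refine ⟨(g j * g i)⁻¹ * (g i * g j), ⟨?_, fun l ρ hρ => ?_, fun l k hlk ρ A hρ hA => ?_⟩,
        fun ρ hρ => ?_, fun l ρ hρ => ?_, fun l ρ A hA => ⟨?_, fun τ hτ => ?_⟩⟩
      · obtain ⟨m, hm⟩ := hz (g j)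
        obtain ⟨n, hn⟩ := hz (g i)
        have h1 : g i (g j ζ) = ι w ^ 0 * g j (g i ζ) := by
          rw [hm, hn, map_pow, map_pow, hm, hn, pow_zero, one_mul, ← pow_mul, ← pow_mul, mul_comm]
        rw [GC.comm_apply (g j) (g i) 0 (hgω j) (hgω i) ζ h1, pow_zero, one_mul]
      · have h1 : g i (g j ρ) = ι w ^ 0 * g j (g i ρ) := by
          rw [pow_zero, one_mul]
          by_cases h2 : l = i
          · subst h2
            rw [hgρ l ρ hρ, hgρ' j l ρ hρ (ne_of_gt hji), hgρ l ρ hρ, map_mul, hgω j,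
              hgρ' j l ρ hρ (ne_of_gt hji)]
          · by_cases h3 : l = j
            · subst h3
              rw [hgρ l ρ hρ, hgρ' i l ρ hρ h2, hgρ l ρ hρ, map_mul, hgω i, hgρ' i l ρ hρ h2]
            · rw [hgρ' i l ρ hρ h2, hgρ' j l ρ hρ h3, hgρ' i l ρ hρ h2]
        rw [GC.comm_apply (g j) (g i) 0 (hgω j) (hgω i) ρ h1, pow_zero, one_mul]
      · have hsol := (hS.sol l k hlk.ne).toSolW
        by_cases h2 : (l, k) = (j, i)
        · rw [Prod.mk.injEq] at h2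
          obtain ⟨rfl, rfl⟩ := h2
          simp only [if_true]
          have h1 : g k (g l A) = ι w ^ 1 * g l (g k A) :=
            GC.mv (g l) (g k) 1 hω hρ (hθ k) hsol (hgω l) (hgω k) (hgρ l ρ hρ)
              (hgρ' k l ρ hρ hlk.ne) (by rw [pow_one]; exact hgρ k _ (hθ k)) hA
          exact GC.comm_apply (g l) (g k) 1 (hgω l) (hgω k) A h1
        · simp only [if_neg h2]
          have h1 : g i (g j A) = ι w ^ 0 * g j (g i A) := by
            by_cases h3 : l = j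
            · subst h3
              have h4 : k ≠ i := fun h => h2 (by rw [h])
              exact GC.mv (g l) (g i) 0 hω hρ (hθ k) hsol (hgω l) (hgω i) (hgρ l ρ hρ)
                (hgρ' i l ρ hρ hji.ne)
                (by rw [pow_zero, one_mul]; exact hgρ' i k _ (hθ k) h4) hA
            · by_cases h4 : l = i
              · subst h4
                have h5 : k ≠ j := (hji.trans hlk).ne'
                have h6 := GC.mv (g l) (g j) 0 hω hρ (hθ k) hsol (hgω l) (hgω j) (hgρ l ρ hρ)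
                  (hgρ' j l ρ hρ hji.ne')
                  (by rw [pow_zero, one_mul]; exact hgρ' j k _ (hθ k) h5) hA
                rw [pow_zero, one_mul] at h6 ⊢
                exact h6.symm
              · rw [pow_zero, one_mul]
                exact GC.fx (g j) (g i) hω hρ hsol (hgω j) (hgω i) (hgρ' j l ρ hρ h3)
                  (hgρ' i l ρ hρ h4) hA
          have h5 := GC.comm_apply (g j) (g i) 0 (hgω j) (hgω i) A h1
          rw [ZMod.val_zero]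
          exact h5
      · have f0 : ∀ i, g i ρ = ρ := fun i => by
          rw [(hgK i).2.1 ρ hρ, ZMod.val_zero, pow_zero, one_mul]
        have h1 : g i (g j ρ) = ι w ^ 0 * g j (g i ρ) := by
          rw [f0 i, f0 j, f0 i, pow_zero, one_mul]
        rw [GC.comm_apply (g j) (g i) 0 (hgω j) (hgω i) ρ h1, pow_zero, one_mul]
      · have f0 : ∀ i, g i ρ = ρ := fun i => by
          rw [(hgK i).2.2 l ρ hρ, Pi.zero_apply, ZMod.val_zero, pow_zero, one_mul]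
        have h1 : g i (g j ρ) = ι w ^ 0 * g j (g i ρ) := by
          rw [f0 i, f0 j, f0 i, pow_zero, one_mul]
        rw [GC.comm_apply (g j) (g i) 0 (hgω j) (hgω i) ρ h1, pow_zero, one_mul]
      · exact JC2.comA hnz (hgK j) (hgK i) l ρ A hA
      · exact JC2.comgA hnz hSK.cx hSK.cb (hgK j) (hgK i) l ρ A hA τ hτ)
    v
  exact ⟨z, ⟨hzR.1, hz1, hz2, fun i ρ hρ => hzR.2.1 i ρ hρ⟩,
    fun j i ρ A hji hA => hzR.2.2 j i hji ρ A hA.1 hA.2, hz3⟩

end Pool.Agent.PTK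


end

section

/-!
# The joint governing field with several base classes: commutators for the plus part which are
trivial on the minus part
-/

set_option autoImplicit false

open NumberField IsDedekindDomain Finset
open scoped nonZeroDivisors Pointwise

namespace Pool.Agent.PTK

open Pool.Agent.Lib_helper18 Pool.Agent.Lib_helper18.Eis Pool.Agent.Lib_helper84.Cub
open Pool.Agent.PT Pool.Agent.PTE Pool.Agent.PT3 Pool.Agent.PTL Pool.Agent.PTN

namespace MC2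

variable {M N : ℕ} {L : Type} [Field L] [NumberField L] {ι : Eis →+* L} {z : Fin M → Eis}
  {α β : Fin N → Fin M} {P Q P' Q' : Fin N → Eis}

/-- `g` fixes `ω` and the roots of the classes -/
def Fz (ι : Eis →+* L) (z : Fin M → Eis) (g : L ≃ₐ[ℚ] L) : Prop :=
  g (ι w) = ι w ∧ ∀ (i : Fin M) (ρ : L), ρ ^ 3 = ι (z i) → g ρ = ρ

theorem act {g : L ≃ₐ[ℚ] L} (hg : Fz ι z g) (i j : Fin M) :
    GCK.Act ι (z i) (fun _ : Fin 1 => z j) 0 0 g := by
  refine ⟨hg.1, fun ρ hρ => ?_, fun _ ρ hρ => ?_⟩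
  · rw [hg.2 i ρ hρ, ZMod.val_zero, pow_zero, one_mul]
  · rw [hg.2 j ρ hρ, Pi.zero_apply, ZMod.val_zero, pow_zero, one_mul]

/-- commutators are trivial on the minus part -/
theorem com (hD : ∀ (r : Fin N) (ρ : L), ρ ^ 3 = ι (z (α r)) →
      aDE ι (P r) (Q r) (P' r) (Q' r) ρ ≠ 0 ∧ aNE ι (P r) (Q r) (P' r) (Q' r) ρ ≠ 0)
    (hz : ∀ i, ∃ t : Eis, z i * conj (z i) = t ^ 3)
    {σ τ : L ≃ₐ[ℚ] L} (hσ : Fz ι z σ) (hτ : Fz ι z τ) (r : Fin N) (ρ A : L)
    (hA : PrW z α P Q P' Q' ι r ρ A) : ((σ * τ)⁻¹ * (τ * σ)) A = A ∧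
      ∀ g : L ≃ₐ[ℚ] L, g (ι w) = ι w ^ 2 → ((σ * τ)⁻¹ * (τ * σ)) (g A) = g A := by
  have hnz : ∀ j : Fin 1, GCK.Nz ι (z (α r)) ((fun _ : Fin 1 => P r) j)
      ((fun _ : Fin 1 => Q r) j) ((fun _ : Fin 1 => P' r) j) ((fun _ : Fin 1 => Q' r) j) :=
    fun _ ρ hρ => hD r ρ hρ
  have hA' : PrM (z (α r)) (fun _ : Fin 1 => P r) (fun _ : Fin 1 => Q r)
      (fun _ : Fin 1 => P' r) (fun _ : Fin 1 => Q' r) ι 0 ρ A := hA
  exact ⟨JC2.comA hnz (act hσ (α r) (α r)) (act hτ (α r) (α r)) 0 ρ A hA',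
    fun g hg => JC2.comgA hnz (hz _) (fun _ => hz _) (act hσ (α r) (α r)) (act hτ (α r) (α r))
      0 ρ A hA' g hg⟩

end MC2

/-- commutators for the plus part which are trivial on the minus part -/
theorem MC2_thm (hMKU : Stmt_MKU) : Stmt_MC2 := by
  intro s M N b p q p' q' z α β P Q P' Q' f L _ _ ζ ι hS hSZ hG v
  have hω := GCK.om ι
  have hf : 0 < f := by
    rcases Nat.eq_zero_or_pos f with h | h
    · exfalso
      have h1 := hG.minus.hω
      rw [h, Nat.zero_div, pow_zero] at h1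
      rw [h1] at hω
      norm_num at hω
    · exact h
  have hζ : ∀ z : L ≃ₐ[ℚ] L, z ζ = ζ → z (ι w) = ι w := by
    intro z hz
    rw [hG.minus.hω, map_pow, hz]
  choose θ hθ using hG.plus.root
  have hg1 : ∀ i : Fin s, ∃ g : L ≃ₐ[ℚ] L, MC2.Fz ι z g ∧
      ∀ (l : Fin s) (ρ : L), ρ ^ 3 = (b l : L) →
        g ρ = ι w ^ ((Pi.single i 1 : Fin s → ZMod 3) l).val * ρ := by
    intro i
    obtain ⟨g, h0, h1, h3⟩ := hMKU s M N b p q p' q' z α β P Q P' Q' f L ζ ι hS hSZ hG 0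
      (Pi.single i 1)
    refine ⟨g, ⟨h0, fun l ρ hρ => ?_⟩, h3⟩
    rw [h1 l ρ hρ, Pi.zero_apply, ZMod.val_zero, pow_zero, one_mul]
  choose g hgK hgv using hg1
  have hgω : ∀ i, g i (ι w) = ι w := fun i => (hgK i).1
  have hgρ : ∀ (j : Fin s) (ρ : L), ρ ^ 3 = (b j : L) → g j ρ = ι w * ρ := by
    intro j ρ hρ
    rw [hgv j j ρ hρ, Pi.single_eq_same, show (1 : ZMod 3).val = 1 from rfl, pow_one]
  have hgρ' : ∀ (i j : Fin s) (ρ : L), ρ ^ 3 = (b j : L) → j ≠ i → g i ρ = ρ := by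
    intro i j ρ hρ hji
    rw [hgv i j ρ hρ, Pi.single_eq_of_ne hji, ZMod.val_zero, pow_zero, one_mul]
  have hzi : ∀ g : L ≃ₐ[ℚ] L, ∃ i : ℕ, g ζ = ζ ^ i := by
    intro g
    have h1 : (g ζ) ^ f = 1 := by rw [← map_pow, hG.minus.prim.pow_eq_one, map_one]
    have : NeZero f := ⟨hf.ne'⟩
    obtain ⟨i, _, hi⟩ := hG.minus.prim.eq_pow_of_pow_eq_one h1
    exact ⟨i, hi.symm⟩
  obtain ⟨g₀, hzR, hz2, hz3⟩ := JC2.all (b := b) (p := p) (q := q) (p' := p') (q' := q')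
    (ζ := ζ) hω hζ
    (fun g₀ => (∀ (j : Fin M) (ρ : L), ρ ^ 3 = ι (z j) → g₀ ρ = ρ) ∧
      ∀ (j : Fin N) (ρ A : L), PrW z α P Q P' Q' ι j ρ A → g₀ A = A ∧
        ∀ g : L ≃ₐ[ℚ] L, g (ι w) = ι w ^ 2 → g₀ (g A) = g A)
    ⟨fun _ _ _ => rfl, fun _ _ _ _ => ⟨rfl, fun _ _ => rfl⟩⟩
    (by
      rintro z z' ⟨h2, h3⟩ ⟨h2', h3'⟩
      refine ⟨fun j ρ hρ => ?_, fun j ρ A hA => ⟨?_, fun g hg => ?_⟩⟩
      · rw [AlgEquiv.mul_apply, h2' j ρ hρ, h2 j ρ hρ]
      · rw [AlgEquiv.mul_apply, (h3' j ρ A hA).1, (h3 j ρ A hA).1]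
      · rw [AlgEquiv.mul_apply, (h3' j ρ A hA).2 g hg, (h3 j ρ A hA).2 g hg])
    (by
      intro j i hji
      refine ⟨(g j * g i)⁻¹ * (g i * g j), ⟨?_, fun l ρ hρ => ?_, fun l k hlk ρ A hρ hA => ?_⟩,
        fun l ρ hρ => ?_, fun l ρ A hA => ?_⟩
      · obtain ⟨m, hm⟩ := hzi (g j)
        obtain ⟨n, hn⟩ := hzi (g i)
        have h1 : g i (g j ζ) = ι w ^ 0 * g j (g i ζ) := by
          rw [hm, hn, map_pow, map_pow, hm, hn, pow_zero, one_mul, ← pow_mul, ← pow_mul, mul_comm]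
        rw [GC.comm_apply (g j) (g i) 0 (hgω j) (hgω i) ζ h1, pow_zero, one_mul]
      · have h1 : g i (g j ρ) = ι w ^ 0 * g j (g i ρ) := by
          rw [pow_zero, one_mul]
          by_cases h2 : l = i
          · subst h2
            rw [hgρ l ρ hρ, hgρ' j l ρ hρ (ne_of_gt hji), hgρ l ρ hρ, map_mul, hgω j,
              hgρ' j l ρ hρ (ne_of_gt hji)]
          · by_cases h3 : l = j
            · subst h3
              rw [hgρ l ρ hρ, hgρ' i l ρ hρ h2, hgρ l ρ hρ, map_mul, hgω i, hgρ' i l ρ hρ h2]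
            · rw [hgρ' i l ρ hρ h2, hgρ' j l ρ hρ h3, hgρ' i l ρ hρ h2]
        rw [GC.comm_apply (g j) (g i) 0 (hgω j) (hgω i) ρ h1, pow_zero, one_mul]
      · have hsol := (hS.sol l k hlk.ne).toSolW
        by_cases h2 : (l, k) = (j, i)
        · rw [Prod.mk.injEq] at h2
          obtain ⟨rfl, rfl⟩ := h2
          simp only [if_true]
          have h1 : g k (g l A) = ι w ^ 1 * g l (g k A) :=
            GC.mv (g l) (g k) 1 hω hρ (hθ k) hsol (hgω l) (hgω k) (hgρ l ρ hρ)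
              (hgρ' k l ρ hρ hlk.ne) (by rw [pow_one]; exact hgρ k _ (hθ k)) hA
          exact GC.comm_apply (g l) (g k) 1 (hgω l) (hgω k) A h1
        · simp only [if_neg h2]
          have h1 : g i (g j A) = ι w ^ 0 * g j (g i A) := by
            by_cases h3 : l = j
            · subst h3
              have h4 : k ≠ i := fun h => h2 (by rw [h])
              exact GC.mv (g l) (g i) 0 hω hρ (hθ k) hsol (hgω l) (hgω i) (hgρ l ρ hρ)
                (hgρ' i l ρ hρ hji.ne)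
                (by rw [pow_zero, one_mul]; exact hgρ' i k _ (hθ k) h4) hA
            · by_cases h4 : l = i
              · subst h4
                have h5 : k ≠ j := (hji.trans hlk).ne'
                have h6 := GC.mv (g l) (g j) 0 hω hρ (hθ k) hsol (hgω l) (hgω j) (hgρ l ρ hρ)
                  (hgρ' j l ρ hρ hji.ne')
                  (by rw [pow_zero, one_mul]; exact hgρ' j k _ (hθ k) h5) hA
                rw [pow_zero, one_mul] at h6 ⊢
                exact h6.symm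
              · rw [pow_zero, one_mul]
                exact GC.fx (g j) (g i) hω hρ hsol (hgω j) (hgω i) (hgρ' j l ρ hρ h3)
                  (hgρ' i l ρ hρ h4) hA
          have h5 := GC.comm_apply (g j) (g i) 0 (hgω j) (hgω i) A h1
          rw [ZMod.val_zero]
          exact h5
      · have f0 : ∀ i, g i ρ = ρ := fun i => (hgK i).2 l ρ hρ
        have h1 : g i (g j ρ) = ι w ^ 0 * g j (g i ρ) := by
          rw [f0 i, f0 j, f0 i, pow_zero, one_mul]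
        rw [GC.comm_apply (g j) (g i) 0 (hgω j) (hgω i) ρ h1, pow_zero, one_mul]
      · exact MC2.com hG.minus.D hSZ.cz (hgK j) (hgK i) l ρ A hA)
    v
  exact ⟨g₀, ⟨hzR.1, hz2, fun i ρ hρ => hzR.2.1 i ρ hρ⟩,
    fun j i ρ A hji hA => hzR.2.2 j i hji ρ A hA.1 hA.2, hz3⟩

end Pool.Agent.PTK


end

section

/-!
# Module PTK_ZI: independence of the classes `zN` (MP_8e0b0b_nt, by helper30)
-/

set_option autoImplicit false

open NumberField IsDedekindDomain Finset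
open scoped nonZeroDivisors Pointwise

namespace Pool.Agent.PTK

open Pool.Agent.Lib_helper18 Pool.Agent.Lib_helper18.Eis Pool.Agent.Lib_helper84.Cub
open Pool.Agent.PT Pool.Agent.PTE Pool.Agent.PT3 Pool.Agent.PTL Pool.Agent.PTN

namespace ZI

/-- equality up to cubes -/
def R (a b : Eis) : Prop := ∃ g g' : Eis, g ≠ 0 ∧ g' ≠ 0 ∧ a * g ^ 3 = b * g' ^ 3

lemma R_refl (a : Eis) : R a a := ⟨1, 1, one_ne_zero, one_ne_zero, rfl⟩

lemma R_trans {a b c : Eis} (h : R a b) (h' : R b c) : R a c := by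
  obtain ⟨g, g', h1, h2, h3⟩ := h
  obtain ⟨k, k', h4, h5, h6⟩ := h'
  refine ⟨g * k, g' * k', mul_ne_zero h1 h4, mul_ne_zero h2 h5, ?_⟩
  linear_combination k ^ 3 * h3 + g' ^ 3 * h6

lemma R_mul {a b a' b' : Eis} (h : R a b) (h' : R a' b') : R (a * a') (b * b') := by
  obtain ⟨g, g', h1, h2, h3⟩ := h
  obtain ⟨k, k', h4, h5, h6⟩ := h'
  refine ⟨g * k, g' * k', mul_ne_zero h1 h4, mul_ne_zero h2 h5, ?_⟩
  linear_combination (a' * k ^ 3) * h3 + (b * g' ^ 3) * h6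

lemma zN_zero {m : ℕ} (π : Fin m → PP) (e : Fin m → ℕ) : zN π e 0 = 1 := by
  unfold zN
  simp

lemma cube_of {t a : Eis} (h : R (t ^ 3) a) : ∃ u : Eis, u ^ 3 = a := by
  obtain ⟨g, g', h1, h2, h3⟩ := h
  have h4 : g' ^ 3 ∣ (t * g) ^ 3 := ⟨a, by rw [mul_pow, h3, mul_comm]⟩
  have h5 : g' ∣ t * g := (IsIntegrallyClosed.pow_dvd_pow_iff (three_ne_zero)).1 h4
  obtain ⟨u, hu⟩ := h5
  refine ⟨u, ?_⟩
  have h6 : g' ^ 3 * u ^ 3 = g' ^ 3 * a := by
    rw [← mul_pow, ← hu, mul_pow, h3, mul_comm]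
  exact mul_left_cancel₀ (pow_ne_zero 3 h2) h6

end ZI

theorem ZI_thm (hZA : Stmt_ZA) : Stmt_ZI := by
  classical
  intro n m k π p e r f hNF s Y c ht
  have hadd : ∀ y y' : Fin (m + 1) → ZMod 3, ZI.R (zN π e y * zN π e y') (zN π e (y + y')) := by
    intro y y'
    obtain ⟨-, -, -, -, -, -, -, -, h1, -⟩ := hZA n m k π p e r f hNF y
    exact h1 y'
  have hpow : ∀ (y : Fin (m + 1) → ZMod 3) (a : ℕ), ZI.R (zN π e y ^ a)
      (zN π e ((a : ZMod 3) • y)) := by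
    intro y a
    induction a with
    | zero =>
      rw [pow_zero, Nat.cast_zero, zero_smul, ZI.zN_zero]
      exact ZI.R_refl 1
    | succ a ih =>
      rw [pow_succ, Nat.cast_add, Nat.cast_one, add_smul, one_smul]
      exact ZI.R_trans (ZI.R_mul ih (ZI.R_refl _)) (hadd _ _)
  have hprod : ∀ S : Finset (Fin s), ZI.R (∏ i ∈ S, zN π e (Y i) ^ c i)
      (zN π e (∑ i ∈ S, (c i : ZMod 3) • Y i)) := by
    intro S
    induction S using Finset.induction_on with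
    | empty =>
      rw [Finset.prod_empty, Finset.sum_empty, ZI.zN_zero]
      exact ZI.R_refl 1
    | insert a S ha ih =>
      rw [Finset.prod_insert ha, Finset.sum_insert ha]
      exact ZI.R_trans (ZI.R_mul (hpow _ _) ih) (hadd _ _)
  obtain ⟨t, ht⟩ := ht
  have h1 := hprod Finset.univ
  rw [← ht] at h1
  obtain ⟨-, -, -, -, -, -, -, -, -, h2⟩ := hZA n m k π p e r f hNF (∑ i, (c i : ZMod 3) • Y i)
  exact h2 (ZI.cube_of h1)

end Pool.Agent.PTK


end
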