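import Mathlib.FieldTheory.Finiteness
import Mathlib.LinearAlgebra.FiniteDimensional.Lemmas
import Pool.Agent.PTDM.C22
import Pool.Agent.PTDM.C23
import Pool.Agent.PTDM.C46
import Pool.Agent.PTKM.C01
import Pool.Agent.PTKM.C02
import Pool.Agent.PTKM.C04

/-! Parts: PTKX.DP2, PTKX.GFK, PTKX.GFKU, PTKX.IF2, PTKX.LSM, PTKX.NBX, PTKX.NNS, PTKX.ZA -/

section

/-!
# PTK_DP2: the local term of a point at the place above `3`
-/

set_option autoImplicit false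

namespace Pool.Agent.PTK

open Pool.Agent.Lib_helper18 Pool.Agent.Lib_helper18.Eis Pool.Agent.Lib_helper84.Cub
open Pool.Agent.PT

open DPA in
/-- PTK_DP2. -/
theorem DP2_thm (hSLC : SLC) (hIF2 : Stmt_IF2) (hIIA : Stmt_IIA) : Stmt_DP2 := by
  intro N b x p q p' q' HD f hf h9
  have hs : LSym lam sl 4 := hSLC
  have hlamf : lam ^ 4 ∣ (f : Eis) := by
    have h1 : ((9 : ℤ) : Eis) ∣ ((f : ℤ) : Eis) :=
      intCast_dvd_intCast.2 (by exact_mod_cast h9)
    rw [Int.cast_natCast] at h1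
    refine Dvd.dvd.trans ⟨w ^ 4, ?_⟩ h1
    have h2 : ((9 : ℤ) : Eis) = (3 : Eis) ^ 2 := by norm_num
    rw [h2, three_eq]
    ring
  have hN : (N : Eis) ≠ 0 := by
    have h2 : ((N : ℤ) : Eis) ≠ 0 := DCONST.cast_ne (by have := HD.N0; omega)
    rwa [Int.cast_natCast] at h2
  have hfl := SolE_flip HD.sol
  have hw0 : w ≠ 0 := by
    intro h
    have := congrArg Eis.im h
    simp at this
  -- a fixed approximation of the cube root of `b`
  obtain ⟨r₀, hr, hr', H⟩ := exists_root (p := p) (q := -p') (p' := -q) (q' := q') hs hfl.n1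
    (SolE_n1' (b := x) (x := b) (p := p) (q := -p') (p' := -q) (q' := q') hfl) HD.lc
  have hg1 := hfl.g1
  have hg2 := hfl.g2
  obtain ⟨C, Φ, hΦ⟩ := exists_char hs.prime hs.pos hf hlamf
    (fun B => sl B (GfE p (-p') (-q) q' 1) - sl B (GfE p (-p') (-q) q' 2) - sl B w -
      ASE sl B p (-p') (-q) q' r₀)
    (by
      intro A B hA hB
      show _ = (_ : ZMod 3)
      rw [hs.mul A B _ hA hB hg1, hs.mul A B _ hA hB hg2, hs.mul A B _ hA hB hw0,
        ASE_mul hs hr hr' hA hB]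
      ring)
    (by
      intro A B hA hB hd
      show _ = (_ : ZMod 3)
      rw [hs.cont A B _ hA hg1 hd, hs.cont A B _ hA hg2 hd, hs.cont A B _ hA hw0 hd,
        ASE_cont hs hr hr' hA hd]) hN
  refine ⟨C, Φ, ?_⟩
  intro E Q hQ X Y HP
  have hB := B_ne HD HP
  have hn0 := n0_ne HD HP
  obtain ⟨c, hc, hE⟩ := HP.pt.eq
  rw [← hΦ E Q hQ]
  obtain ⟨N1, H1⟩ := hIIA b x p (-p') (-q) q' X Y HD.hb HD.hx HD.lc hfl HP.pt.hX HP.pt.hY hn0 HP.dn
  obtain ⟨N2, H2⟩ := hIF2 lam sl 4 hs b x p (-p') (-q) q' HD.hb HD.hx hfl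
  obtain ⟨N3, H3⟩ := exists_ne hs.prime (b := b) (p := p) (q := -p') hfl.n1
  obtain ⟨N4, H4⟩ := exists_ne hs.prime (b := b) (p := -q) (q := q')
    (SolE_n1' (b := x) (x := b) (p := p) (q := -p') (p' := -q) (q' := q') hfl)
  have h5 := H ((N : Eis) * (Q : Eis) ^ E)
    (sl ((N : Eis) * (Q : Eis) ^ E) (GfE p (-p') (-q) q' 1) -
      sl ((N : Eis) * (Q : Eis) ^ E) (GfE p (-p') (-q) q' 2) - sl ((N : Eis) * (Q : Eis) ^ E) w -
      SVE sl x p (-p') (-q) q' X Y) (N1 + N2 + N3 + N4) hB (by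
    intro r hr
    have e1 := H1 r ((pow_dvd_pow _ (by omega)).trans hr)
    have e2 := H2 r ((pow_dvd_pow _ (by omega)).trans hr)
    have e3 := H3 r ((pow_dvd_pow _ (by omega)).trans hr)
    have e4 := H4 r ((pow_dvd_pow _ (by omega)).trans hr)
    have e5 := ASE_rel hs e3 e4 HD.hx hn0 hB hc hE
    have e6 := s_rel hs HD.hx hn0 hB hc hg1 hE
    have e7 := s_rel hs HD.hx hn0 hB hc hg2 hE
    have e8 := s_rel hs HD.hx hn0 hB hc hw0 hE
    rw [e1, hs.skew (X ^ 3 + x * Y ^ 3) w hn0 hw0, ← e5, ← e6, ← e7, ← e8, e2,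
      hs.skew x w HD.hx hw0]
    ring)
  show _ = sl ((N : Eis) * (Q : Eis) ^ E) (GfE p (-p') (-q) q' 1) -
    sl ((N : Eis) * (Q : Eis) ^ E) (GfE p (-p') (-q) q' 2) - sl ((N : Eis) * (Q : Eis) ^ E) w -
      ASE sl ((N : Eis) * (Q : Eis) ^ E) p (-p') (-q) q' r₀
  rw [h5]
  ring

end Pool.Agent.PTK


end

section

/-!
# PTK, module GFK: Frobenius elements and `t` (helper92)

Model: `PT/GFR.lean`.
-/

set_option autoImplicit false

open NumberField IsDedekindDomain Finset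
open scoped nonZeroDivisors Pointwise

namespace Pool.Agent.PTK

open Pool.Agent.Lib_helper18 Pool.Agent.Lib_helper18.Eis Pool.Agent.Lib_helper84.Cub
open Pool.Agent.PT Pool.Agent.PTL

namespace GFK

theorem hom_eq {S : Type*} [CommRing S] (κ : Eis →+* S) (a : Eis) :
    κ a = (a.re : S) + (a.im : S) * κ w := by
  have h : a = (a.re : Eis) + (a.im : Eis) * w := by
    ext <;> simp
  conv_lhs => rw [h]
  rw [map_add, map_mul, map_intCast, map_intCast]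

theorem hom_rel {S : Type*} [CommRing S] (κ : Eis →+* S) : κ w ^ 2 + κ w + 1 = 0 := by
  have := congrArg κ w_rel
  rwa [map_add, map_add, map_pow, map_one, map_zero] at this

theorem lf_prod (p q r : Eis) : LfE p q 0 r * LfE p q 1 r * LfE p q 2 r =
    p ^ 3 + q ^ 3 * r ^ 3 := by
  have h1 := w_rel
  have h2 := w_cube
  simp only [LfE]
  linear_combination (p ^ 2 * q * r + p * q ^ 2 * r ^ 2) * h1 +
    (p * q ^ 2 * r ^ 2 + q ^ 3 * r ^ 3) * h2

/-- the linear forms are prime to `Q` -/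
theorem lf_not_dvd {Q : ℕ} {x p q r : Eis} (hb : ¬ (Q : Eis) ∣ p ^ 3 + x * q ^ 3)
    (hr : (Q : Eis) ∣ r ^ 3 - x) : ¬ (Q : Eis) ∣ LfE p q 1 r ∧ ¬ (Q : Eis) ∣ LfE p q 2 r := by
  have key : ¬ (Q : Eis) ∣ LfE p q 0 r * LfE p q 1 r * LfE p q 2 r := by
    rw [lf_prod]
    intro h
    refine hb ?_
    have h2 : p ^ 3 + x * q ^ 3 = p ^ 3 + q ^ 3 * r ^ 3 - (r ^ 3 - x) * q ^ 3 := by ring
    rw [h2]
    exact dvd_sub h (Dvd.dvd.mul_right hr _)
  exact ⟨fun h => key (Dvd.dvd.mul_right (Dvd.dvd.mul_left h _) _),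
    fun h => key (Dvd.dvd.mul_left h _)⟩

theorem N_Q (Q : ℕ) : N (Q : Eis) = Q * Q := by
  have h3 := N_cast (Q : Eis)
  rw [Eis.norm_natCast] at h3
  have h4 : ((N (Q : Eis) : ℕ) : ℤ) = ((Q * Q : ℕ) : ℤ) := by
    rw [h3]
    push_cast
    ring
  exact_mod_cast h4

theorem not_dvd_of_lt {Q : ℕ} {z : Eis} (hz : z ≠ 0) (h : N z < Q) : ¬ (Q : Eis) ∣ z := by
  rintro ⟨d, rfl⟩
  have hd : d ≠ 0 := by
    rintro rfl
    exact hz (mul_zero _)
  have h1 := N_pos hd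
  rw [N_mul, N_Q] at h
  rcases Nat.eq_zero_or_pos Q with h0 | h0
  · rw [h0] at h
    omega
  · have h2 : 1 ≤ Q * N d := Nat.mul_pos h0 h1
    nlinarith

/-- the general comparison modulo `P` -/
theorem key {L : Type} [Field L] [NumberField L] {Q : ℕ} (hQ : Q.Prime)
    {P : Ideal (𝓞 L)} (hP : P.IsPrime) (hQP : (Q : 𝓞 L) ∈ P) (hQ3 : Q % 3 = 2)
    {φ : L ≃ₐ[ℚ] L} (hφ : IsArithFrobAt ℤ φ P) (κ : Eis →+* 𝓞 L) {E : Eis}
    (hE : ¬ (Q : Eis) ∣ E) {y : 𝓞 L}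
    (hy : Ideal.Quotient.mk P y ^ 3 = Ideal.Quotient.mk P (κ E)) {k : ℕ}
    (hk : φ • (φ • y) = κ w ^ k * y) : (k : ZMod 3) = sym (Q : Eis) E := by
  have hfin := GFR.quo_finite hQ hP hQP
  have hmax : P.IsMaximal :=
    Ideal.Quotient.maximal_of_isField _ (Finite.isField_of_domain (𝓞 L ⧸ P))
  let _ : Field (𝓞 L ⧸ P) := Ideal.Quotient.field P
  have hq := prime_inert hQ hQ3
  have hq3 := n3 hQ hQ3
  let ψ : Eis →+* 𝓞 L ⧸ P := (Ideal.Quotient.mk P).comp κ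
  set z : 𝓞 L ⧸ P := ψ w with hz
  have hzrel : z ^ 2 + z + 1 = 0 := hom_rel ψ
  have hz3 := GFR.omega_cube hzrel
  have h3Q : ¬ (Q : ℤ) ∣ 3 := by
    intro h3
    have h4 : Q ∣ 3 := by exact_mod_cast h3
    have h5 := (Nat.prime_dvd_prime_iff_eq hQ Nat.prime_three).1 h4
    omega
  have hz1 : z ≠ 1 := by
    intro h3
    rw [h3] at hzrel
    refine h3Q ((GFR.int_mk hQ hP hQP 3).1 ?_)
    push_cast
    linear_combination hzrel
  have hψQ : ψ (Q : Eis) = 0 := by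
    rw [map_natCast, ← map_natCast (Ideal.Quotient.mk P)]
    exact Ideal.Quotient.eq_zero_iff_mem.2 hQP
  have hsym := map_pow_eq hq hq3 hE ψ hψQ
  set a := Ideal.Quotient.mk P y with ha
  have hmkA : a ^ 3 = ψ E := hy
  rw [← hmkA, ← hz] at hsym
  have hN := N_Q Q
  have hM : 3 * ((N (Q : Eis) - 1) / 3) + 1 = Q * Q := by
    rw [three_mul_div hq hq3, hN]
  have ha0 : a ≠ 0 := by
    intro h3
    rw [h3] at hsym
    have h5 : 0 < (N (Q : Eis) - 1) / 3 := by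
      have h6 := hQ.two_le
      by_contra h7
      have h8 : (N (Q : Eis) - 1) / 3 = 0 := by omega
      rw [h8] at hM
      nlinarith
    have h6 : z ≠ 0 := by
      intro h7
      rw [h7] at hz3
      norm_num at hz3
    rw [zero_pow (by norm_num), zero_pow h5.ne'] at hsym
    exact pow_ne_zero _ h6 hsym.symm
  have hfinal : z ^ k = z ^ (sym (Q : Eis) E).val := by
    have h3 := congrArg (Ideal.Quotient.mk P) hk
    have h4 : Ideal.Quotient.mk P (κ w) = z := rfl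
    rw [GFR.frob_mk hQ hP hQP hφ, GFR.frob_mk hQ hP hQP hφ, map_mul, map_pow, h4, ← ha, ← pow_mul,
      ← hM, pow_succ, pow_mul, hsym] at h3
    exact (mul_right_cancel₀ ha0 h3).symm
  have horder : orderOf z = 3 := by
    have := Fact.mk Nat.prime_three
    exact orderOf_eq_prime hz3 hz1
  have h3 := IsPrimitiveRoot.orderOf z
  rw [horder] at h3
  rw [GFR.pow_mod3 hz3 k] at hfinal
  have h4 : k % 3 = (sym (Q : Eis) E).val :=
    h3.pow_inj (Nat.mod_lt k (by norm_num)) (ZMod.val_lt _) hfinal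
  rw [← ZMod.natCast_mod k 3, h4, ZMod.natCast_val, ZMod.cast_id', id_eq]

theorem cube_eq {F : Type*} [Field F] {ω y ρ : F} (hω : ω ^ 2 + ω + 1 = 0)
    (h : y ^ 3 = ρ ^ 3) : y = ρ ∨ y = ω * ρ ∨ y = ω ^ 2 * ρ := by
  have hω3 := GFR.omega_cube hω
  have h2 : (y - ρ) * ((y - ω * ρ) * (y - ω ^ 2 * ρ)) = 0 := by
    linear_combination h + (-y ^ 2 * ρ + y * ρ ^ 2) * hω + (y * ρ ^ 2 - ρ ^ 3) * hω3
  rcases mul_eq_zero.1 h2 with h3 | h3
  · exact Or.inl (sub_eq_zero.1 h3)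
  rcases mul_eq_zero.1 h3 with h4 | h4
  · exact Or.inr (Or.inl (sub_eq_zero.1 h4))
  · exact Or.inr (Or.inr (sub_eq_zero.1 h4))

/-- the lift of `ι` to the ring of integers -/
theorem exists_lift {L : Type} [Field L] [NumberField L] (ι : Eis →+* L) :
    ∃ κ : Eis →+* 𝓞 L, ∀ a, ((κ a : 𝓞 L) : L) = ι a := by
  let ωB : 𝓞 L := ⟨ι w, GFR.isIntegral_omega (hom_rel ι)⟩
  have hωB : ωB ^ 2 + ωB + 1 = 0 := by
    apply RingOfIntegers.coe_injective
    change ι w ^ 2 + ι w + 1 = 0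
    exact hom_rel ι
  refine ⟨GFR.lift ωB hωB, fun a => ?_⟩
  have h1 := hom_eq ((algebraMap (𝓞 L) L).comp (GFR.lift ωB hωB)) a
  have h2 := hom_eq ι a
  have h3 : ((algebraMap (𝓞 L) L).comp (GFR.lift ωB hωB)) w = ι w := by
    rw [RingHom.comp_apply, GFR.lift_w]
    rfl
  rw [h3] at h1
  rw [h2, ← h1]
  rfl

section Main

variable {L : Type} [Field L] [NumberField L] {Q : ℕ} (hQ : Q.Prime)
    {P : Ideal (𝓞 L)} (hP : P.IsPrime) (hQP : (Q : 𝓞 L) ∈ P) (hQ3 : Q % 3 = 2)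
    {φ : L ≃ₐ[ℚ] L} (hφ : IsArithFrobAt ℤ φ P) (ι : Eis →+* L)

include hQ hP hQP hQ3 hφ

theorem sq_w : φ (φ (ι w)) = ι w := by
  have h1 := GFR.frob_omega hQ hP hQP hQ3 hφ (hom_rel ι)
  have h3 := GFR.omega_cube (hom_rel ι)
  rw [h1, map_pow, h1]
  linear_combination ι w * h3

theorem sq_a (a : Eis) : φ (φ (ι a)) = ι a := by
  have h := sq_w hQ hP hQP hQ3 hφ ι
  rw [hom_eq ι a]
  simp only [map_add, map_mul, map_intCast, h]

/-- a root of an element with trivial symbol is fixed by the square of the Frobenius element -/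
theorem fix {c : Eis} (hc : ¬ (Q : Eis) ∣ c) (hs : sym (Q : Eis) c = 0) {ρ : L}
    (hρ : ρ ^ 3 = ι c) : φ (φ ρ) = ρ := by
  obtain ⟨κ, hκ⟩ := exists_lift ι
  have hint : IsIntegral ℤ ρ := by
    refine IsIntegral.of_pow (n := 3) (by norm_num) ?_
    rw [hρ, ← hκ]
    exact RingOfIntegers.isIntegral_coe _
  let y : 𝓞 L := ⟨ρ, hint⟩
  have hy : y ^ 3 = κ c := by
    apply RingOfIntegers.coe_injective
    change ρ ^ 3 = ((κ c : 𝓞 L) : L)
    rw [hκ, hρ]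
  have hcube : (φ (φ ρ)) ^ 3 = ρ ^ 3 := by
    rw [← map_pow, ← map_pow, hρ, sq_a hQ hP hQP hQ3 hφ]
  have hrel := hom_rel ι
  obtain ⟨k, hk⟩ : ∃ k : ℕ, φ (φ ρ) = ι w ^ k * ρ := by
    rcases cube_eq hrel hcube with h | h | h
    · exact ⟨0, by rw [h, pow_zero, one_mul]⟩
    · exact ⟨1, by rw [h, pow_one]⟩
    · exact ⟨2, h⟩
  have hkk : φ • (φ • y) = κ w ^ k * y := by
    apply RingOfIntegers.coe_injective
    rw [map_mul, map_pow]
    change φ (φ ρ) = ((κ w : 𝓞 L) : L) ^ k * ρ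
    rw [hκ, hk]
  have h1 := key hQ hP hQP hQ3 hφ κ hc (y := y) (by rw [← map_pow, hy]) hkk
  rw [hs] at h1
  have h2 : 3 ∣ k := (ZMod.natCast_eq_zero_iff k 3).1 h1
  obtain ⟨m, rfl⟩ := h2
  rw [hk, pow_mul, GFR.omega_cube hrel, one_pow, one_mul]

theorem core {x p q p' q' r : Eis} (h0 : ¬ (Q : Eis) ∣ x) (hsx : sym (Q : Eis) x = 0)
    (h1 : ¬ (Q : Eis) ∣ p ^ 3 + x * q ^ 3)
    (h2 : ¬ (Q : Eis) ∣ p' ^ 3 + x * q' ^ 3) (hr : (Q : Eis) ∣ r ^ 3 - x)
    (hroot : ∃ θ : L, θ ^ 3 = ι x)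
    (hA : ∀ ρ : L, ρ ^ 3 = ι x → ∃ A : L, A ^ 3 * aDE ι p q p' q' ρ = aNE ι p q p' q' ρ)
    {t : ZMod 3} (ht : ∀ ρ A : L, ρ ^ 3 = ι x →
      A ^ 3 * aDE ι p q p' q' ρ = aNE ι p q p' q' ρ → φ (φ A) = ι w ^ t.val * A) :
    t = TAUE Q p q p' q' r := by
  obtain ⟨κ, hκ⟩ := exists_lift ι
  have hrel := hom_rel ι
  have hω3 := GFR.omega_cube hrel
  have hfin := GFR.quo_finite hQ hP hQP
  have hmax : P.IsMaximal :=
    Ideal.Quotient.maximal_of_isField _ (Finite.isField_of_domain (𝓞 L ⧸ P))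
  let _ : Field (𝓞 L ⧸ P) := Ideal.Quotient.field P
  have hq := prime_inert hQ hQ3
  have hq3 := n3 hQ hQ3
  let ψ : Eis →+* 𝓞 L ⧸ P := (Ideal.Quotient.mk P).comp κ
  have hψrel : ψ w ^ 2 + ψ w + 1 = 0 := hom_rel ψ
  have hψ3 := GFR.omega_cube hψrel
  have hψQ : ψ (Q : Eis) = 0 := by
    rw [map_natCast, ← map_natCast (Ideal.Quotient.mk P)]
    exact Ideal.Quotient.eq_zero_iff_mem.2 hQP
  have hψr : ψ r ^ 3 = ψ x := by
    obtain ⟨d, hd⟩ := hr
    have h3 := congrArg ψ hd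
    rw [map_sub, map_pow, map_mul, hψQ, zero_mul] at h3
    exact sub_eq_zero.1 h3
  -- a root of `x` congruent to `r`
  obtain ⟨ρB, hρB, hρr⟩ : ∃ ρB : 𝓞 L, ρB ^ 3 = κ x ∧ Ideal.Quotient.mk P ρB = ψ r := by
    obtain ⟨θ, hθ⟩ := hroot
    have hint : IsIntegral ℤ θ := by
      refine IsIntegral.of_pow (n := 3) (by norm_num) ?_
      rw [hθ, ← hκ]
      exact RingOfIntegers.isIntegral_coe _
    let θB : 𝓞 L := ⟨θ, hint⟩
    have hθB : θB ^ 3 = κ x := by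
      apply RingOfIntegers.coe_injective
      change θ ^ 3 = ((κ x : 𝓞 L) : L)
      rw [hκ, hθ]
    have hκ3 : κ w ^ 3 = 1 := GFR.omega_cube (hom_rel κ)
    have hc3 : (ψ r) ^ 3 = (Ideal.Quotient.mk P θB) ^ 3 := by
      rw [hψr, ← map_pow, hθB]
      rfl
    rcases cube_eq hψrel hc3 with h | h | h
    · exact ⟨θB, hθB, h.symm⟩
    · refine ⟨κ w * θB, ?_, ?_⟩
      · rw [mul_pow, hκ3, one_mul, hθB]
      · rw [map_mul, h]
        rfl
    · refine ⟨κ w ^ 2 * θB, ?_, ?_⟩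
      · rw [mul_pow, ← pow_mul, mul_comm 2 3, pow_mul, hκ3, one_pow, one_mul, hθB]
      · rw [map_mul, map_pow, h]
        rfl
  have hρ : (ρB : L) ^ 3 = ι x := by
    rw [← hκ, ← hρB]
    rfl
  obtain ⟨A, hAA⟩ := hA (ρB : L) hρ
  -- the elements of the ring of integers
  let dD : 𝓞 L := (κ p + κ q * κ w * ρB) * (κ p' + κ q' * κ w ^ 2 * ρB)
  let dN : 𝓞 L := (κ p + κ q * κ w ^ 2 * ρB) * (κ p' + κ q' * κ w * ρB)
  have hdD : algebraMap (𝓞 L) L dD = aDE ι p q p' q' (ρB : L) := by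
    simp only [dD, aDE, map_mul, map_add, map_pow, hκ]
  have hdN : algebraMap (𝓞 L) L dN = aNE ι p q p' q' (ρB : L) := by
    simp only [dN, aNE, map_mul, map_add, map_pow, hκ]
  have hA' : (A * aDE ι p q p' q' (ρB : L)) ^ 3 = algebraMap (𝓞 L) L (dN * dD ^ 2) := by
    rw [map_mul, map_pow, hdD, hdN, ← hAA]
    ring
  have hAint : IsIntegral ℤ (A * aDE ι p q p' q' (ρB : L)) := by
    refine IsIntegral.of_pow (n := 3) (by norm_num) ?_
    rw [hA']
    exact RingOfIntegers.isIntegral_coe _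
  let AB : 𝓞 L := ⟨A * aDE ι p q p' q' (ρB : L), hAint⟩
  have hAB : AB ^ 3 = dN * dD ^ 2 := by
    apply RingOfIntegers.coe_injective
    rw [← hA']
    rfl
  have hφρ : φ (φ (ρB : L)) = ρB := fix hQ hP hQP hQ3 hφ ι h0 hsx hρ
  have hφD : φ (φ (aDE ι p q p' q' (ρB : L))) = aDE ι p q p' q' (ρB : L) := by
    simp only [aDE, map_mul, map_add, map_pow, sq_a hQ hP hQP hQ3 hφ, hφρ]
  have hφφ : φ • (φ • AB) = κ w ^ t.val * AB := by
    apply RingOfIntegers.coe_injective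
    rw [map_mul, map_pow]
    change φ (φ (A * aDE ι p q p' q' (ρB : L))) =
      ((κ w : 𝓞 L) : L) ^ t.val * (A * aDE ι p q p' q' (ρB : L))
    rw [hκ, map_mul, map_mul, hφD, ht _ A hρ hAA]
    ring
  obtain ⟨e1, e2⟩ := lf_not_dvd h1 hr
  obtain ⟨e1', e2'⟩ := lf_not_dvd h2 hr
  set E : Eis := LfE p q 2 r * LfE p' q' 1 r * (LfE p q 1 r * LfE p' q' 2 r) ^ 2 with hE
  have hEd : ¬ (Q : Eis) ∣ E := by
    intro h3
    rcases hq.dvd_or_dvd h3 with h4 | h4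
    · rcases hq.dvd_or_dvd h4 with h5 | h5
      · exact e2 h5
      · exact e1' h5
    · rcases hq.dvd_or_dvd (hq.dvd_of_dvd_pow h4) with h5 | h5
      · exact e1 h5
      · exact e2' h5
  have hmkA : Ideal.Quotient.mk P AB ^ 3 = Ideal.Quotient.mk P (κ E) := by
    rw [← map_pow, hAB, hE]
    have hψκ : ∀ a : Eis, Ideal.Quotient.mk P (κ a) = ψ a := fun a => rfl
    simp only [dD, dN, LfE, map_mul, map_add, map_pow, hρr, pow_one, hψκ]
  have hsym := key hQ hP hQP hQ3 hφ κ hEd hmkA hφφ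
  rw [ZMod.natCast_val, ZMod.cast_id', id_eq] at hsym
  rw [hsym, hE]
  have g1 : ¬ (Q : Eis) ∣ LfE p q 2 r * LfE p' q' 1 r := fun h3 =>
    (hq.dvd_or_dvd h3).elim e2 e1'
  have g2 : ¬ (Q : Eis) ∣ LfE p q 1 r * LfE p' q' 2 r := fun h3 =>
    (hq.dvd_or_dvd h3).elim e1 e2'
  have g3 : ¬ (Q : Eis) ∣ (LfE p q 1 r * LfE p' q' 2 r) ^ 2 := fun h3 =>
    g2 (hq.dvd_of_dvd_pow h3)
  rw [sym_mul hq hq3 g1 g3, sym_mul hq hq3 e2 e1', sym_pow hq hq3 g2, sym_mul hq hq3 e1 e2']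
  unfold TAUE
  have h2z : ((2 : ℕ) : ZMod 3) = -1 := by decide
  rw [h2z]
  ring

end Main

end GFK

open _root_.Pool.Agent.PTK.GFK

theorem GFK_thm : Stmt_GFK := by
  classical
  intro s x b p q p' q' f L _ _ ζ ι hS hG
  have hgal := hG.gal
  let B : Fin s → ℕ := fun j => N (b j) + N (p j ^ 3 + x * q j ^ 3) +
    N (p' j ^ 3 + x * q' j ^ 3)
  refine ⟨N x + ∑ j, B j, fun Q hQ hQN P hP hQP => ⟨fun g hg => ?_, fun φ hφ hQ3 => ?_⟩⟩
  · have hfin := GFR.quo_finite hQ hP hQP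
    exact GFR.exists_frob_gen (R := ℤ) P g hg
  · have hφω := GFR.frob_omega hQ hP hQP hQ3 hφ (hom_rel ι)
    refine ⟨hφω, fun hsx hsb => ?_⟩
    have hx0 : x ≠ 0 := by
      intro h0
      refine hS.ind 1 (fun _ => 0) (Or.inl (by norm_num)) ⟨0, ?_⟩
      rw [h0]
      simp
    have hxQ : ¬ (Q : Eis) ∣ x := not_dvd_of_lt hx0 (by omega)
    have hBj : ∀ j, B j < Q := by
      intro j
      have h1 : B j ≤ ∑ i, B i :=
        Finset.single_le_sum (f := B) (fun _ _ => Nat.zero_le _) (Finset.mem_univ j)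
      omega
    have hb0 : ∀ j, b j ≠ 0 := by
      intro j h0
      refine hS.ind 0 (Pi.single j 1) (Or.inr ⟨j, by simp⟩) ⟨0, ?_⟩
      have h1 : ∏ i, b i ^ (Pi.single j 1 : Fin s → ℕ) i = 0 := by
        refine Finset.prod_eq_zero (Finset.mem_univ j) ?_
        rw [Pi.single_eq_same, pow_one, h0]
      rw [h1]
      simp
    have hbQ : ∀ j, ¬ (Q : Eis) ∣ b j := by
      intro j
      have h1 := hBj j
      simp only [B] at h1
      exact not_dvd_of_lt (hb0 j) (by omega)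
    refine ⟨⟨fun ρ hρ => fix hQ hP hQP hQ3 hφ ι hxQ hsx hρ,
      fun j ρ hρ => fix hQ hP hQP hQ3 hφ ι (hbQ j) (hsb j) hρ⟩, fun j r t hr ht => ?_⟩
    have h1 := hBj j
    simp only [B] at h1
    have hsol := hS.sol j
    have hn1 : p j ^ 3 + x * q j ^ 3 ≠ 0 := hsol.n1
    have hn2 : p' j ^ 3 + x * q' j ^ 3 ≠ 0 := by
      intro h0
      refine hn1 ?_
      have h3 := hsol.eq
      rw [h0, mul_zero] at h3
      exact h3
    exact core hQ hP hQP hQ3 hφ ι hxQ hsx (not_dvd_of_lt hn1 (by omega))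
      (not_dvd_of_lt hn2 (by omega)) hr hG.rx (fun ρ hρ => hG.A j ρ hρ) ht

end Pool.Agent.PTK


end

section

/-!
# PTK, module GFKU: Frobenius elements and `t`, primes `= 1 (mod 3)` (helper88)

Models: `PTK/GFK.lean`, `PTE/GFRS.lean`.
-/

set_option autoImplicit false

open NumberField IsDedekindDomain Finset
open scoped nonZeroDivisors Pointwise

namespace Pool.Agent.PTK

open Pool.Agent.Lib_helper18 Pool.Agent.Lib_helper18.Eis Pool.Agent.Lib_helper84.Cub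
open Pool.Agent.PT Pool.Agent.PTE Pool.Agent.PT3 Pool.Agent.PTL Pool.Agent.PTN

namespace GFKU

open Pool.Agent.PTE.GFRS (Dat cases_root)

/-- the data at the prime `P`, for a given prime `ρ` below `P` -/
theorem exists_dat (hSPLT : SPLT) (hSPP : SPP) {L : Type} [Field L] [NumberField L] {Q : ℕ}
    (hQ : Q.Prime) {P : Ideal (𝓞 L)} (hP : P.IsPrime) (hQP : (Q : 𝓞 L) ∈ P) (hQ3 : Q % 3 = 1)
    {φ : L ≃ₐ[ℚ] L} (hφ : IsArithFrobAt ℤ φ P) (κ : Eis →+* 𝓞 L) {ρ : PP}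
    (hρQ : (Q : Eis) = ρ.1 * conj ρ.1) (hρP : κ ρ.1 ∈ P) :
    ∃ (F : Type) (_ : Field F) (mk : 𝓞 L →+* F) (z : F) (ψ : Eis →+* F),
      (∀ a, mk (κ a) = ψ a) ∧ Dat Q φ (κ w) ρ.1 mk z ψ := by
  have hfin := GFR.quo_finite hQ hP hQP
  have hmax : P.IsMaximal :=
    Ideal.Quotient.maximal_of_isField _ (Finite.isField_of_domain (𝓞 L ⧸ P))
  let _ : Field (𝓞 L ⧸ P) := Ideal.Quotient.field P
  have h3 : κ w ^ 2 + κ w + 1 = 0 := GFK.hom_rel κ
  let ψ : Eis →+* 𝓞 L ⧸ P := (Ideal.Quotient.mk P).comp κ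
  set z : 𝓞 L ⧸ P := ψ w with hz
  have hzrel : z ^ 2 + z + 1 = 0 := GFK.hom_rel ψ
  have h3Q : ¬ (Q : ℤ) ∣ 3 := by
    intro h3
    have h4 : Q ∣ 3 := by exact_mod_cast h3
    have h5 := (Nat.prime_dvd_prime_iff_eq hQ Nat.prime_three).1 h4
    omega
  have hz1 : z ≠ 1 := by
    intro h3
    rw [h3] at hzrel
    refine h3Q ((GFR.int_mk hQ hP hQP 3).1 ?_)
    push_cast
    linear_combination hzrel
  have hN : N ρ.1 = Q := by
    have h1 := mul_conj ρ.1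
    rw [← hρQ] at h1
    have h2 : ((Q : ℤ) : Eis) = ((ρ.1.norm : ℤ) : Eis) := by
      rw [Int.cast_natCast]
      exact h1
    have h3 : (Q : ℤ) = ρ.1.norm := by
      have h4 := congrArg Eis.re h2
      simpa using h4
    have h4 := N_cast ρ.1
    rw [← h3] at h4
    exact_mod_cast h4
  have hωL : ((κ w : 𝓞 L) : L) ^ 2 + ((κ w : 𝓞 L) : L) + 1 = 0 := by
    have h4 := congrArg (fun x : 𝓞 L => (x : L)) h3
    simpa using h4
  exact ⟨𝓞 L ⧸ P, inferInstance, Ideal.Quotient.mk P, z, ψ, fun a => rfl,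
    { hQ := hQ
      rel := hzrel
      ne1 := hz1
      ωz := rfl
      ψw := rfl
      ψρ := Ideal.Quotient.eq_zero_iff_mem.2 hρP
      i0 := fun n => GFR.int_mk hQ hP hQP n
      fr := fun x => GFR.frob_mk hQ hP hQP hφ x
      fω := PTE.GFRS.frob_omega hQ hP hQP hQ3 hφ hωL
      rω := h3
      hq := ρ.2.1
      h3 := (hSPP.2.2.2.1 ρ).1
      hN := hN
      hd := (hSPLT.2 Q ρ hQ hQ3 hρQ).2.2.2.1 }⟩

/-- the linear forms are prime to `ρ` -/
theorem lf_not_dvd {ρ x p q r : Eis} (hb : ¬ ρ ∣ p ^ 3 + x * q ^ 3)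
    (hr : ρ ∣ r ^ 3 - x) : ¬ ρ ∣ LfE p q 1 r ∧ ¬ ρ ∣ LfE p q 2 r := by
  have key : ¬ ρ ∣ LfE p q 0 r * LfE p q 1 r * LfE p q 2 r := by
    rw [GFK.lf_prod]
    intro h
    refine hb ?_
    have h2 : p ^ 3 + x * q ^ 3 = p ^ 3 + q ^ 3 * r ^ 3 - (r ^ 3 - x) * q ^ 3 := by ring
    rw [h2]
    exact dvd_sub h (Dvd.dvd.mul_right hr _)
  exact ⟨fun h => key (Dvd.dvd.mul_right (Dvd.dvd.mul_left h _) _),
    fun h => key (Dvd.dvd.mul_left h _)⟩

section Main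

variable {L : Type} [Field L] [NumberField L] {F : Type} [Field F] {Q : ℕ}
  {φ : L ≃ₐ[ℚ] L} {κ : Eis →+* 𝓞 L} {ρ : Eis} {mk : 𝓞 L →+* F} {z : F} {ψ : Eis →+* F}
  (D : Dat Q φ (κ w) ρ mk z ψ) (hψ : ∀ a, mk (κ a) = ψ a)

include D

theorem psi_ne {e : Eis} (he : ¬ ρ ∣ e) : ψ e ≠ 0 := by
  intro h0
  have h4 := map_pow_eq D.hq D.h3 he ψ D.ψρ
  rw [h0, D.ψw] at h4
  have h5 := D.three_mul
  have h6 := D.hQ.two_le
  rw [zero_pow (by omega)] at h4
  exact pow_ne_zero _ D.z0 h4.symm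

variable (ι : Eis →+* L) (hκ : ∀ a, ((κ a : 𝓞 L) : L) = ι a)

include hκ

theorem fw : φ (ι w) = ι w := by
  have h := D.fω
  rwa [hκ] at h

theorem fa (a : Eis) : φ (ι a) = ι a := by
  have h := fw D ι hκ
  rw [GFK.hom_eq ι a]
  simp only [map_add, map_mul, map_intCast, h]

include hψ

/-- a root of an element with trivial symbol is fixed -/
theorem fix {c : Eis} (hc : ¬ ρ ∣ c) (hs : sym ρ c = 0) {θ : L} (hθ : θ ^ 3 = ι c) :
    φ θ = θ := by
  have hint : IsIntegral ℤ θ := by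
    refine IsIntegral.of_pow (n := 3) (by norm_num) ?_
    rw [hθ, ← hκ]
    exact RingOfIntegers.isIntegral_coe _
  let y : 𝓞 L := ⟨θ, hint⟩
  have hy : y ^ 3 = κ c := by
    apply RingOfIntegers.coe_injective
    change θ ^ 3 = ((κ c : 𝓞 L) : L)
    rw [hκ, hθ]
  have hmy : mk y ^ 3 = ψ c := by rw [← map_pow, hy, hψ]
  have hmy0 : mk y ≠ 0 := by
    intro h0
    rw [h0, zero_pow (by norm_num)] at hmy
    exact psi_ne D hc hmy.symm
  have hcube : (φ • y) ^ 3 = y ^ 3 := by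
    rw [hy]
    apply RingOfIntegers.coe_injective
    change (φ θ) ^ 3 = ((κ c : 𝓞 L) : L)
    rw [hκ, ← map_pow, hθ, fa D ι hκ]
  obtain ⟨k, hk⟩ := cases_root D.rω hcube
  have h1 : mk (φ • y) = mk y := by
    rw [D.fr, D.pow_Q hc hmy, hs, ZMod.val_zero, pow_zero, one_mul]
  rw [hk, map_mul, map_pow, D.ωz] at h1
  have h2 : z ^ k = 1 := by
    refine mul_right_cancel₀ hmy0 ?_
    rw [h1, one_mul]
  have h3 : 3 ∣ k := by
    rw [← D.order]
    exact orderOf_dvd_of_pow_eq_one h2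
  obtain ⟨l, rfl⟩ := h3
  have h4 : φ • y = y := by
    rw [hk, pow_mul, GFR.omega_cube D.rω, one_pow, one_mul]
  exact congrArg (fun x : 𝓞 L => (x : L)) h4

theorem core {x p q p' q' r : Eis} (h0 : ¬ ρ ∣ x) (hsx : sym ρ x = 0)
    (h1 : ¬ ρ ∣ p ^ 3 + x * q ^ 3)
    (h2 : ¬ ρ ∣ p' ^ 3 + x * q' ^ 3) (hr : ρ ∣ r ^ 3 - x)
    (hroot : ∃ θ : L, θ ^ 3 = ι x)
    (hA : ∀ θ : L, θ ^ 3 = ι x → ∃ A : L, A ^ 3 * aDE ι p q p' q' θ = aNE ι p q p' q' θ)
    {t : ZMod 3} (ht : ∀ θ A : L, θ ^ 3 = ι x →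
      A ^ 3 * aDE ι p q p' q' θ = aNE ι p q p' q' θ → φ A = ι w ^ t.val * A) :
    t = TAUP ρ p q p' q' r := by
  have hψr : ψ r ^ 3 = ψ x := by
    obtain ⟨d, hd⟩ := hr
    have h3 := congrArg ψ hd
    rw [map_sub, map_pow, map_mul, D.ψρ, zero_mul] at h3
    exact sub_eq_zero.1 h3
  -- a root of `x` congruent to `r`
  obtain ⟨ρB, hρB, hρr⟩ : ∃ ρB : 𝓞 L, ρB ^ 3 = κ x ∧ mk ρB = ψ r := by
    obtain ⟨θ, hθ⟩ := hroot
    have hint : IsIntegral ℤ θ := by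
      refine IsIntegral.of_pow (n := 3) (by norm_num) ?_
      rw [hθ, ← hκ]
      exact RingOfIntegers.isIntegral_coe _
    let θB : 𝓞 L := ⟨θ, hint⟩
    have hθB : θB ^ 3 = κ x := by
      apply RingOfIntegers.coe_injective
      change θ ^ 3 = ((κ x : 𝓞 L) : L)
      rw [hκ, hθ]
    have hc3 : (ψ r) ^ 3 = (mk θB) ^ 3 := by
      rw [hψr, ← map_pow, hθB, hψ]
    obtain ⟨k, hk⟩ := cases_root D.rel hc3
    refine ⟨κ w ^ k * θB, ?_, ?_⟩
    · rw [mul_pow, ← pow_mul, mul_comm k 3, pow_mul, GFR.omega_cube D.rω, one_pow, one_mul, hθB]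
    · rw [map_mul, map_pow, D.ωz, hk]
  have hρ : (ρB : L) ^ 3 = ι x := by
    rw [← hκ, ← hρB]
    rfl
  obtain ⟨A, hAA⟩ := hA (ρB : L) hρ
  -- the elements of the ring of integers
  let dD : 𝓞 L := (κ p + κ q * κ w * ρB) * (κ p' + κ q' * κ w ^ 2 * ρB)
  let dN : 𝓞 L := (κ p + κ q * κ w ^ 2 * ρB) * (κ p' + κ q' * κ w * ρB)
  have hdD : algebraMap (𝓞 L) L dD = aDE ι p q p' q' (ρB : L) := by
    simp only [dD, aDE, map_mul, map_add, map_pow, hκ]
  have hdN : algebraMap (𝓞 L) L dN = aNE ι p q p' q' (ρB : L) := by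
    simp only [dN, aNE, map_mul, map_add, map_pow, hκ]
  have hA' : (A * aDE ι p q p' q' (ρB : L)) ^ 3 = algebraMap (𝓞 L) L (dN * dD ^ 2) := by
    rw [map_mul, map_pow, hdD, hdN, ← hAA]
    ring
  have hAint : IsIntegral ℤ (A * aDE ι p q p' q' (ρB : L)) := by
    refine IsIntegral.of_pow (n := 3) (by norm_num) ?_
    rw [hA']
    exact RingOfIntegers.isIntegral_coe _
  let AB : 𝓞 L := ⟨A * aDE ι p q p' q' (ρB : L), hAint⟩
  have hAB : AB ^ 3 = dN * dD ^ 2 := by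
    apply RingOfIntegers.coe_injective
    rw [← hA']
    rfl
  have hφρ : φ (ρB : L) = ρB := fix D hψ ι hκ h0 hsx hρ
  have hφD : φ (aDE ι p q p' q' (ρB : L)) = aDE ι p q p' q' (ρB : L) := by
    simp only [aDE, map_mul, map_add, map_pow, fa D ι hκ, hφρ]
  have hφφ : φ • AB = κ w ^ t.val * AB := by
    apply RingOfIntegers.coe_injective
    rw [map_mul, map_pow]
    change φ (A * aDE ι p q p' q' (ρB : L)) =
      ((κ w : 𝓞 L) : L) ^ t.val * (A * aDE ι p q p' q' (ρB : L))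
    rw [hκ, map_mul, hφD, ht _ A hρ hAA]
    ring
  have hq := D.hq
  obtain ⟨e1, e2⟩ := lf_not_dvd h1 hr
  obtain ⟨e1', e2'⟩ := lf_not_dvd h2 hr
  set E : Eis := LfE p q 2 r * LfE p' q' 1 r * (LfE p q 1 r * LfE p' q' 2 r) ^ 2 with hE
  have hEd : ¬ ρ ∣ E := by
    intro h3
    rcases hq.dvd_or_dvd h3 with h4 | h4
    · rcases hq.dvd_or_dvd h4 with h5 | h5
      · exact e2 h5
      · exact e1' h5
    · rcases hq.dvd_or_dvd (hq.dvd_of_dvd_pow h4) with h5 | h5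
      · exact e1 h5
      · exact e2' h5
  have hmkA : mk AB ^ 3 = ψ E := by
    rw [← map_pow, hAB, hE]
    simp only [dD, dN, LfE, map_mul, map_add, map_pow, hρr, pow_one, hψ]
  have ha0 : mk AB ≠ 0 := by
    intro h3
    rw [h3, zero_pow (by norm_num)] at hmkA
    exact psi_ne D hEd hmkA.symm
  have hfinal : z ^ t.val = z ^ (sym ρ E).val := by
    have h3 := congrArg mk hφφ
    rw [D.fr, D.pow_Q hEd hmkA, map_mul, map_pow, D.ωz] at h3
    exact (mul_right_cancel₀ ha0 h3).symm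
  have ht' : t = sym ρ E := D.pow_inj hfinal
  rw [ht', hE]
  have g1 : ¬ ρ ∣ LfE p q 2 r * LfE p' q' 1 r := fun h3 =>
    (hq.dvd_or_dvd h3).elim e2 e1'
  have g2 : ¬ ρ ∣ LfE p q 1 r * LfE p' q' 2 r := fun h3 =>
    (hq.dvd_or_dvd h3).elim e1 e2'
  have g3 : ¬ ρ ∣ (LfE p q 1 r * LfE p' q' 2 r) ^ 2 := fun h3 =>
    g2 (hq.dvd_of_dvd_pow h3)
  rw [sym_mul hq D.h3 g1 g3, sym_mul hq D.h3 e2 e1', sym_pow hq D.h3 g2,
    sym_mul hq D.h3 e1 e2']
  unfold TAUP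
  have h2z : ((2 : ℕ) : ZMod 3) = -1 := by decide
  rw [h2z]
  ring

end Main

/-- The element `z` is not zero and has a small norm. -/
def Sm (Q : ℕ) (z : Eis) : Prop := z ≠ 0 ∧ N z < Q

theorem N_eq {Q : ℕ} {ρ : Eis} (h : (Q : Eis) = ρ * conj ρ) : N ρ = Q := by
  have h1 := mul_conj ρ
  rw [← h] at h1
  have h2 : ((Q : ℤ) : Eis) = ((ρ.norm : ℤ) : Eis) := by
    rw [Int.cast_natCast]
    exact h1
  have h3 : (Q : ℤ) = ρ.norm := by
    have h4 := congrArg Eis.re h2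
    simpa using h4
  have h4 := N_cast ρ
  rw [← h3] at h4
  exact_mod_cast h4

theorem Sm.not_dvd {Q : ℕ} {ρ z : Eis} (h : Sm Q z) (hρ : (Q : Eis) = ρ * conj ρ) : ¬ ρ ∣ z := by
  rintro ⟨d, rfl⟩
  have hd : d ≠ 0 := by
    rintro rfl
    exact h.1 (mul_zero _)
  have h1 := N_pos hd
  have h2 := h.2
  rw [N_mul, N_eq hρ] at h2
  nlinarith

end GFKU

open _root_.Pool.Agent.PTK.GFKU

theorem GFKU_thm (hSPP : SPP) (_hSCJ : SCJ) (hSPLT : SPLT) : Stmt_GFKU := by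
  classical
  intro k x u P Q P' Q' f L _ _ ζ ι hS hG
  have hgal := hG.gal
  obtain ⟨κ, hκ⟩ := GFK.exists_lift ι
  let B : Fin k → ℕ := fun j => N (u j) + N (P j ^ 3 + x * Q j ^ 3) +
    N (P' j ^ 3 + x * Q' j ^ 3)
  refine ⟨N x + ∑ j, B j, fun n hn hnN hn3 I hI hnI φ hφ ρ hρ hsx hsu => ?_⟩
  -- the elements with a small norm
  have hx0 : x ≠ 0 := by
    intro h0
    refine hS.ind 1 (fun _ => 0) (Or.inl (by norm_num)) ⟨0, ?_⟩
    rw [h0]
    simp
  have hu0 : ∀ j, u j ≠ 0 := by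
    intro j h0
    refine hS.ind 0 (Pi.single j 1) (Or.inr ⟨j, by simp⟩) ⟨0, ?_⟩
    have h1 : ∏ i, u i ^ (Pi.single j 1 : Fin k → ℕ) i = 0 := by
      refine Finset.prod_eq_zero (Finset.mem_univ j) ?_
      rw [Pi.single_eq_same, pow_one, h0]
    rw [h1]
    simp
  have hBj : ∀ j, B j < n := by
    intro j
    have h1 : B j ≤ ∑ i, B i :=
      Finset.single_le_sum (f := B) (fun _ _ => Nat.zero_le _) (Finset.mem_univ j)
    omega
  have sx : Sm n x := ⟨hx0, by omega⟩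
  have su : ∀ j, Sm n (u j) := fun j => ⟨hu0 j, by have := hBj j; simp only [B] at this; omega⟩
  have s1 : ∀ j, Sm n (P j ^ 3 + x * Q j ^ 3) := fun j =>
    ⟨(hS.sol j).n1, by have := hBj j; simp only [B] at this; omega⟩
  have s2 : ∀ j, Sm n (P' j ^ 3 + x * Q' j ^ 3) := by
    intro j
    refine ⟨?_, by have := hBj j; simp only [B] at this; omega⟩
    intro h0
    refine (hS.sol j).n1 ?_
    rw [(hS.sol j).eq, h0, mul_zero]
  -- the other prime
  obtain ⟨hna, ⟨ρ', hρ'⟩, hdv, -, hcj, -⟩ := hSPLT.2 n ρ hn hn3 hρ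
  have hρ'n : (n : Eis) = ρ'.1 * conj ρ'.1 := by
    rw [hρ', conj_conj, mul_comm]
    exact hρ
  have hconj : ∀ a : Eis, Sm n a → sym ρ.1 a = 0 → (∃ t : Eis, a * conj a = t ^ 3) →
      sym ρ'.1 a = 0 := by
    intro a ha hs ⟨t, ht⟩
    have hda := ha.not_dvd hρ
    have hda' := ha.not_dvd hρ'n
    have hdc : ¬ ρ.1 ∣ conj a := by
      intro h
      have h1 : conj ρ.1 ∣ a := by
        have h2 := map_dvd conj h
        rwa [conj_conj] at h2
      rw [hρ'] at hda'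
      exact hda' h1
    have h3 := (hSPP.2.2.2.1 ρ).1
    have h4 : ¬ ρ.1 ∣ t := by
      intro h
      have h5 : ρ.1 ∣ a * conj a := by
        rw [ht]
        exact Dvd.dvd.pow h (by norm_num)
      exact (ρ.2.1.dvd_or_dvd h5).elim hda hdc
    have h5 : sym ρ.1 (a * conj a) = 0 := by
      rw [ht, sym_pow ρ.2.1 h3 h4]
      have h6 : ((3 : ℕ) : ZMod 3) = 0 := by decide
      rw [h6, zero_mul]
    rw [sym_mul ρ.2.1 h3 hda hdc, hs, zero_add] at h5
    have h6 := hcj (conj a) hdc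
    rw [conj_conj, h5, neg_zero] at h6
    rw [hρ']
    exact h6
  have hsx' := hconj x sx hsx hS.cx
  have hsu' : ∀ j, sym ρ'.1 (u j) = 0 := fun j => hconj (u j) (su j) (hsu j) (hS.cb j)
  -- the statement for one prime ideal
  have main : ∀ (J : Ideal (𝓞 L)) (σ : L ≃ₐ[ℚ] L) (π : PP), J.IsPrime → (n : 𝓞 L) ∈ J →
      IsArithFrobAt ℤ σ J → (n : Eis) = π.1 * conj π.1 → κ π.1 ∈ J → sym π.1 x = 0 →
      (∀ j, sym π.1 (u j) = 0) →
      (σ (ι w) = ι w ∧ FxU x u ι σ) ∧ ∀ (j : Fin k) (r : Eis) (t : ZMod 3), π.1 ∣ r ^ 3 - x →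
        IsTU x P Q P' Q' ι σ j t → t = TAUP π.1 (P j) (Q j) (P' j) (Q' j) r := by
    intro J σ π hJ hnJ hσ hπ hπJ hsx hsu
    obtain ⟨F, _, mk, z, ψ, hψ, D⟩ := GFKU.exists_dat hSPLT hSPP hn hJ hnJ hn3 hσ κ hπ hπJ
    refine ⟨⟨fw D ι hκ, fun θ hθ => fix D hψ ι hκ (sx.not_dvd hπ) hsx hθ,
      fun j θ hθ => fix D hψ ι hκ ((su j).not_dvd hπ) (hsu j) hθ⟩, fun j r t hr ht => ?_⟩
    exact core D hψ ι hκ (sx.not_dvd hπ) hsx ((s1 j).not_dvd hπ) ((s2 j).not_dvd hπ) hr hG.rx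
      (fun θ hθ => hG.A j θ hθ) (fun θ A h1 h2 => ht θ A ⟨h1, h2⟩)
  -- the conjugate prime ideal
  have hcon : ∀ (c : L ≃ₐ[ℚ] L), c (ι w) = ι w ^ 2 → ∀ a : Eis, κ (conj a) ∈ I →
      κ a ∈ c • I := by
    intro c hc a ha
    have h1 : c • (κ (conj a)) = κ a := by
      apply RingOfIntegers.coe_injective
      change c ((κ (conj a) : 𝓞 L) : L) = ((κ a : 𝓞 L) : L)
      rw [hκ, hκ, GFK.hom_eq ι (conj a)]
      have h2 := GFK.hom_eq (ι.comp conj) (conj a)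
      rw [RingHom.comp_apply, RingHom.comp_apply, conj_conj, conj_w, map_pow] at h2
      rw [map_add, map_mul, map_intCast, map_intCast, hc]
      exact h2.symm
    rw [← h1]
    exact Ideal.smul_mem_pointwise_smul c _ I ha
  have hP : ∀ (c : L ≃ₐ[ℚ] L), (c • I).IsPrime ∧ (n : 𝓞 L) ∈ c • I := by
    intro c
    refine ⟨inferInstance, ?_⟩
    have h1 : c • (n : 𝓞 L) = (n : 𝓞 L) := by
      apply RingOfIntegers.coe_injective
      have h7 : ((n : 𝓞 L) : L) = (n : L) := map_natCast (algebraMap (𝓞 L) L) n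
      change c (((n : 𝓞 L)) : L) = (((n : 𝓞 L)) : L)
      rw [h7, map_natCast]
    rw [← h1]
    exact Ideal.smul_mem_pointwise_smul c _ I hnI
  have hmem : κ ρ.1 ∈ I ∨ κ ρ'.1 ∈ I := by
    refine hI.mem_or_mem ?_
    rw [← map_mul, hρ', ← hρ, map_natCast]
    exact hnI
  rcases hmem with hm | hm
  · obtain ⟨⟨a1, a2⟩, a3⟩ := main I φ ρ hI hnI hφ hρ hm hsx hsu
    refine ⟨a1, a2, fun c hc j r r' t t' hr hr' ht ht' => ?_⟩
    have hm' : κ ρ'.1 ∈ c • I := hcon c hc _ (by rw [hρ', conj_conj]; exact hm)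
    obtain ⟨-, b3⟩ := main (c • I) (c * φ * c⁻¹) ρ' (hP c).1 (hP c).2 (hφ.conj c) hρ'n hm'
      hsx' hsu'
    rw [← hρ'] at hr' ⊢
    rw [a3 j r t hr ht, b3 j r' t' hr' ht']
  · obtain ⟨⟨a1, a2⟩, a3⟩ := main I φ ρ' hI hnI hφ hρ'n hm hsx' hsu'
    refine ⟨a1, a2, fun c hc j r r' t t' hr hr' ht ht' => ?_⟩
    have hm' : κ ρ.1 ∈ c • I := hcon c hc _ (by rw [← hρ']; exact hm)
    obtain ⟨-, b3⟩ := main (c • I) (c * φ * c⁻¹) ρ (hP c).1 (hP c).2 (hφ.conj c) hρ hm'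
      hsx hsu
    rw [← hρ'] at hr' ⊢
    rw [a3 j r' t hr' ht, b3 j r t' hr ht', add_comm]

end Pool.Agent.PTK


end

section

/-!
# PTK_IF2: `(x, α_b) = (x, k_0) + (w, x)`
-/

set_option autoImplicit false

namespace Pool.Agent.PTK

open Pool.Agent.Lib_helper18 Pool.Agent.Lib_helper18.Eis Pool.Agent.Lib_helper84.Cub
open Pool.Agent.PT hiding IF2

namespace IF2

theorem not_dvd {π a : Eis} (hπ : Prime π) (ha : a ≠ 0) {N : ℕ} (hN : V π a < N) :
    ¬ π ^ N ∣ a := by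
  intro h
  have h1 := (fin hπ ha).le_multiplicity_of_pow_dvd h
  unfold V at hN
  omega

theorem near_ne {π a a' : Eis} (hπ : Prime π) (ha : a ≠ 0) {N : ℕ} (hN : V π a < N)
    (h : π ^ N ∣ a' - a) : a' ≠ 0 := by
  rintro rfl
  rw [zero_sub, dvd_neg] at h
  exact not_dvd hπ ha hN h

theorem wi_cube (i : ℕ) : (w ^ i) ^ 3 = 1 := by
  rw [← pow_mul, mul_comm, pow_mul, w_cube, one_pow]

theorem w_ne : w ≠ 0 := by
  intro h
  have := congrArg Eis.im h
  simp at this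

/-- each linear form divides the norm form -/
theorem form_dvd (X Y ξ : Eis) (i : ℕ) : X + w ^ i * ξ * Y ∣ X ^ 3 + ξ ^ 3 * Y ^ 3 := by
  refine ⟨X ^ 2 - X * (w ^ i * ξ * Y) + (w ^ i * ξ * Y) ^ 2, ?_⟩
  have h := wi_cube i
  have : (X + w ^ i * ξ * Y) * (X ^ 2 - X * (w ^ i * ξ * Y) + (w ^ i * ξ * Y) ^ 2) =
      X ^ 3 + (w ^ i) ^ 3 * ξ ^ 3 * Y ^ 3 := by ring
  rw [this, h, one_mul]

theorem form_prod (X Y ξ : Eis) : (X + w ^ 0 * ξ * Y) * (X + w ^ 1 * ξ * Y) *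
    (X + w ^ 2 * ξ * Y) = X ^ 3 + ξ ^ 3 * Y ^ 3 := by
  linear_combination (X ^ 2 * ξ * Y + X * ξ ^ 2 * Y ^ 2 * w) * w_rel +
    (ξ ^ 3 * Y ^ 3) * w_cube

section

variable {π : Eis} {s : Eis → Eis → ZMod 3} {e : ℕ}

theorem mul_right (hS : LSym π s e) {a b c : Eis} (ha : a ≠ 0) (hb : b ≠ 0) (hc : c ≠ 0) :
    s c (a * b) = s c a + s c b := by
  rw [hS.skew (a * b) c (mul_ne_zero ha hb) hc, hS.mul a b c ha hb hc, hS.skew c a hc ha,
    hS.skew c b hc hb]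
  ring

theorem cont_right (hS : LSym π s e) {a a' b : Eis} (ha : a ≠ 0) (ha' : a' ≠ 0) (hb : b ≠ 0)
    (h : π ^ (V π a + e) ∣ a' - a) : s b a' = s b a := by
  rw [hS.skew a' b ha' hb, hS.cont a a' b ha hb h, hS.skew b a hb ha]
  ring

end

end IF2

open _root_.Pool.Agent.PTK.IF2 in
theorem IF2_thm (hSTAR : STAR) : Stmt_IF2 := by
  intro π s e hS b x p q p' q' hb hx hsol
  set n0 : Eis := p' ^ 3 + b * q' ^ 3 with hn0def
  set g0 : Eis := p ^ 3 + b * q ^ 3 with hg0def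
  have hg0 : g0 = x * n0 := by
    rw [hn0def, hg0def]
    exact hsol.eq
  have hg0ne : g0 ≠ 0 := by
    rw [hg0def]
    exact hsol.n1
  have hn0ne : n0 ≠ 0 := by
    intro h
    apply hg0ne
    rw [hg0, h, mul_zero]
  have hxe : x ≠ 0 := hx
  have hbe : b ≠ 0 := hb
  have hD1 := hsol.g1
  have hD2 := hsol.g2
  refine ⟨V π b + V π n0 + V π g0 + e + 1, ?_⟩
  intro r hr
  set N0 := V π b + V π n0 + V π g0 + e + 1 with hN0
  have hr0 : r ≠ 0 := by
    rintro h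
    have : r ^ 3 ≠ 0 := near_ne hS.prime hbe (by omega) hr
    exact this (by rw [h]; ring)
  have hFdvd : π ^ N0 ∣ (p' ^ 3 + r ^ 3 * q' ^ 3) - n0 := by
    have : (p' ^ 3 + r ^ 3 * q' ^ 3) - n0 =
        (r ^ 3 - b) * q' ^ 3 := by rw [hn0def]; ring
    rw [this]
    exact hr.mul_right _
  have hGdvd : π ^ N0 ∣ (p ^ 3 + r ^ 3 * q ^ 3) - g0 := by
    have : (p ^ 3 + r ^ 3 * q ^ 3) - g0 =
        (r ^ 3 - b) * q ^ 3 := by rw [hg0def]; ring
    rw [this]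
    exact hr.mul_right _
  set n1 : Eis := p' ^ 3 + r ^ 3 * q' ^ 3 with hn1
  set g1 : Eis := p ^ 3 + r ^ 3 * q ^ 3 with hg1
  have hn1ne : n1 ≠ 0 := near_ne hS.prime hn0ne (by omega) hFdvd
  have hg1ne : g1 ≠ 0 := near_ne hS.prime hg0ne (by omega) hGdvd
  let F : ℕ → Eis := fun i => p' + w ^ i * r * q'
  let G : ℕ → Eis := fun i => p + w ^ i * r * q
  have hF : ∀ i, F i ≠ 0 := fun i => ne_zero_of_dvd_ne_zero hn1ne (form_dvd _ _ _ i)
  have hG : ∀ i, G i ≠ 0 := fun i => ne_zero_of_dvd_ne_zero hg1ne (form_dvd _ _ _ i)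
  have hFL : ∀ i, LfE p' q' i r = F i := fun i => by unfold LfE; ring
  have hGL : ∀ i, LfE p q i r = G i := fun i => by unfold LfE; ring
  have hFp : F 0 * F 1 * F 2 = n1 := form_prod _ _ _
  have hGp : G 0 * G 1 * G 2 = g1 := form_prod _ _ _
  -- replace `n1`, `g1` by the integers `n0`, `g0`
  have cn : ∀ c : Eis, c ≠ 0 → s c n1 = s c n0 := fun c hc =>
    cont_right hS hn0ne hn1ne hc ((pow_dvd_pow π (by omega)).trans hFdvd)
  have cn' : ∀ c : Eis, c ≠ 0 → s n1 c = s n0 c := fun c hc =>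
    hS.cont _ _ _ hn0ne hc ((pow_dvd_pow π (by omega)).trans hFdvd)
  have cg : ∀ c : Eis, c ≠ 0 → s c g1 = s c x + s c n0 := fun c hc => by
    rw [cont_right hS hg0ne hg1ne hc ((pow_dvd_pow π (by omega)).trans hGdvd), hg0,
      mul_right hS hxe hn0ne hc]
  obtain ⟨s1, s2⟩ := hSTAR π s e hS p' q' p q r F G
    (GfE p q p' q') (fun i => rfl) (fun i => rfl) (fun i => by unfold GfE; ring) hr0 hF
  obtain ⟨t1, _⟩ := hSTAR π s e hS p q p q r G G
    (fun i => p * q - w ^ i * p * q) (fun i => rfl) (fun i => rfl) (fun i => rfl) hr0 hG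
  have s3 := s2 hG hD1 hD2
  rw [hFp, cn _ (hF 1), cn _ (hF 2), cn _ w_ne] at s1
  rw [hGp, cg _ (hG 1), cg _ (hG 2), cg _ w_ne] at t1
  rw [hFp, hGp, cg _ hD1, cg _ hD2, cn _ hD1, cn _ hD2, cn _ w_ne, cn' _ (hG 2), cn' _ (hG 1),
    cg _ (hF 1), cg _ (hF 2), hS.skew _ _ (hG 2) hn0ne, hS.skew _ _ (hG 1) hn0ne] at s3
  unfold ASE
  rw [hFL, hFL, hGL, hGL, hS.skew _ _ (hG 2) hxe, hS.skew _ _ (hF 1) hxe, hS.skew _ _ (hG 1) hxe,
    hS.skew _ _ (hF 2) hxe, hS.skew _ _ hD1 hxe, hS.skew _ _ hD2 hxe]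
  have h3 : (3 : ZMod 3) = 0 := rfl
  linear_combination s3 + s1 + t1 + s w n0 * h3

end Pool.Agent.PTK


end

section

/-!
# LSM: the sum over the tuples
-/

set_option autoImplicit false

open Finset

namespace Pool.Agent.PTK

namespace LSM

instance : Fact (Nat.Prime 3) := ⟨Nat.prime_three⟩

variable {M' : ℕ}

/-- a subspace -/
abbrev Sub (M' : ℕ) := Submodule (ZMod 3) (Fin M' → ZMod 3)

/-- the dimension -/
noncomputable abbrev dm (W : Sub M') : ℕ := Module.finrank (ZMod 3) W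

theorem gM_nonneg (k : ℕ) : ∀ j, 0 ≤ gM k j := by
  induction k with
  | zero => exact fun j => by simp [gM]
  | succ k ih =>
    intro j
    have h1 := ih j
    have h2 := ih (j - 1)
    have h3 : (1 : ℝ) ≤ 3 ^ j := one_le_pow₀ (by norm_num)
    have h4 : (0 : ℝ) ≤ 3 ^ j - 1 := by linarith
    unfold gM
    positivity

theorem dm_sup (U W : Sub M') : dm (U ⊔ W) + dm (U ⊓ W) = dm U + dm W :=
  Submodule.finrank_sup_add_finrank_inf_eq U W

theorem dm_single (U : Sub M') {y : Fin M' → ZMod 3} (hy : y ∉ U) :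
    dm (U ⊔ Submodule.span (ZMod 3) {y}) = dm U + 1 := by
  have h0 : y ≠ 0 := by
    rintro rfl
    exact hy U.zero_mem
  have h1 := dm_sup U (Submodule.span (ZMod 3) {y})
  have h2 : dm (Submodule.span (ZMod 3) {y}) = 1 := finrank_span_singleton h0
  have h3 : U ⊓ Submodule.span (ZMod 3) {y} = ⊥ := by
    rw [← disjoint_iff]
    exact (Submodule.disjoint_span_singleton' h0).2 hy
  have h4 : dm (U ⊓ Submodule.span (ZMod 3) {y}) = 0 := by
    rw [h3]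
    exact finrank_bot _ _
  omega

theorem sum_mem (V W : Sub M') (hW : W ≤ V) (c : ℝ) [Fintype V] [DecidablePred fun y : V => (y : Fin M' → ZMod 3) ∈ W] :
    ∑ y : V, (if (y : Fin M' → ZMod 3) ∈ W then c else 0) = 3 ^ dm W * c := by
  rw [Finset.sum_ite, Finset.sum_const_zero, add_zero, Finset.sum_const, nsmul_eq_mul]
  congr 1
  have h1 : Nat.card {y : V // (y : Fin M' → ZMod 3) ∈ W} = Nat.card W :=
    Nat.card_congr
      { toFun := fun y => ⟨y.1.1, y.2⟩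
        invFun := fun y => ⟨⟨y.1, hW y.2⟩, y.2⟩
        left_inv := fun _ => rfl
        right_inv := fun _ => rfl }
  have h2 := Module.natCard_eq_pow_finrank (K := ZMod 3) (V := W)
  rw [Nat.card_zmod, ← h1, Nat.card_eq_fintype_card, Fintype.card_subtype] at h2
  exact_mod_cast h2

theorem nTe_two {a₀ δ v v₀ : ℕ} : nTe (a₀ + 1) δ v v₀ = nTe a₀ δ v v₀ + (v - δ - 1 - a₀) := by
  unfold nTe
  rw [sum_range_succ]
  ring

theorem nTe_three {a₀ δ v v₀ : ℕ} (h : δ + 1 + a₀ ≤ v) :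
    nTe a₀ (δ + 1) v v₀ + a₀ = nTe a₀ δ v v₀ + v₀ := by
  unfold nTe
  have h1 : ∑ i ∈ range a₀, (v - δ - 1 - i) = ∑ i ∈ range a₀, (v - (δ + 1) - 1 - i) + a₀ := by
    have h2 : ∀ i ∈ range a₀, v - δ - 1 - i = (v - (δ + 1) - 1 - i) + 1 := by
      intro i hi
      rw [Finset.mem_range] at hi
      omega
    rw [Finset.sum_congr rfl h2, Finset.sum_add_distrib, Finset.sum_const, Finset.card_range]
    simp
  rw [h1]
  ring

/-- the bound in the claim -/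
noncomputable def bd (V V₀ : Sub M') (k : ℕ) (U : Sub M') : ℝ :=
  3 ^ (dm U * k) * gM k (dm V - dm V₀ - (dm U - dm (U ⊓ V₀))) / 3 ^ nUe V V₀ U

theorem step (V V₀ : Sub M') (hV : V₀ ≤ V) (k : ℕ) (U : Sub M') (hU : U ≤ V) [Fintype V] :
    ∑ y : V, bd V V₀ k (U ⊔ Submodule.span (ZMod 3) {(y : Fin M' → ZMod 3)}) ≤
      bd V V₀ (k + 1) U := by
  classical
  have e1 := dm_sup U V₀
  have e2 : dm (U ⊔ V₀) ≤ dm V := Submodule.finrank_mono (sup_le hU hV)
  have e3 : dm (U ⊓ V₀) ≤ dm U := Submodule.finrank_mono inf_le_left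
  have e4 : dm (U ⊓ V₀) ≤ dm V₀ := Submodule.finrank_mono inf_le_right
  obtain ⟨δ, hδ⟩ : ∃ δ, dm U = dm (U ⊓ V₀) + δ := ⟨dm U - dm (U ⊓ V₀), by omega⟩
  obtain ⟨j, hj⟩ : ∃ j, dm V = dm V₀ + δ + j := ⟨dm V - (dm V₀ + δ), by omega⟩
  set a₀ := dm (U ⊓ V₀) with ha₀
  have hj1 : dm V - dm V₀ - (dm U - a₀) = j := by omega
  set c := 3 ^ (dm U * k) / (3 : ℝ) ^ nUe V V₀ U with hc
  have hc0 : 0 < c := by positivity
  have key : ∀ y : V, bd V V₀ k (U ⊔ Submodule.span (ZMod 3) {(y : Fin M' → ZMod 3)}) ≤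
      (if (y : Fin M' → ZMod 3) ∈ U then c * gM k j else 0) +
      (if (y : Fin M' → ZMod 3) ∈ U ⊔ V₀ then
        c * 3 ^ k * gM k j * 3 ^ (dm U + 1) / 3 ^ j / 3 ^ (dm V₀ + δ) - 
          c * 3 ^ k * gM k (j - 1) * 3 ^ dm U / 3 ^ (dm V₀ + δ) else 0) +
      c * 3 ^ k * gM k (j - 1) * 3 ^ dm U / 3 ^ (dm V₀ + δ) := by
    intro y
    have hg1 := gM_nonneg k j
    have hg2 := gM_nonneg k (j - 1)
    by_cases h1 : (y : Fin M' → ZMod 3) ∈ U
    · have h2 : U ⊔ Submodule.span (ZMod 3) {(y : Fin M' → ZMod 3)} = U := by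
        rw [sup_eq_left, Submodule.span_singleton_le_iff_mem]
        exact h1
      rw [if_pos h1, if_pos (Submodule.mem_sup_left h1), h2]
      have h3 : bd V V₀ k U = c * gM k j := by
        unfold bd
        rw [← ha₀, hj1, hc]
        ring
      rw [h3]
      have h4 : 0 ≤ c * 3 ^ k * gM k j * 3 ^ (dm U + 1) / 3 ^ j / 3 ^ (dm V₀ + δ) := by positivity
      linarith
    · have h2 := dm_single U h1
      have h3 : U ⊔ Submodule.span (ZMod 3) {(y : Fin M' → ZMod 3)} ⊔ V₀ =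
          (U ⊔ V₀) ⊔ Submodule.span (ZMod 3) {(y : Fin M' → ZMod 3)} := sup_right_comm _ _ _
      have h4 := dm_sup (U ⊔ Submodule.span (ZMod 3) {(y : Fin M' → ZMod 3)}) V₀
      rw [h3] at h4
      rw [if_neg h1, zero_add]
      by_cases h5 : (y : Fin M' → ZMod 3) ∈ U ⊔ V₀
      · have h6 : (U ⊔ V₀) ⊔ Submodule.span (ZMod 3) {(y : Fin M' → ZMod 3)} = U ⊔ V₀ := by
          rw [sup_eq_left, Submodule.span_singleton_le_iff_mem]
          exact h5
        rw [h6] at h4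
        rw [if_pos h5, sub_add_cancel]
        have h7 : dm ((U ⊔ Submodule.span (ZMod 3) {(y : Fin M' → ZMod 3)}) ⊓ V₀) = a₀ + 1 := by
          omega
        have h8 : a₀ + 1 ≤ dm V₀ := by
          rw [← h7]
          exact Submodule.finrank_mono inf_le_right
        have h9 : nUe V V₀ (U ⊔ Submodule.span (ZMod 3) {(y : Fin M' → ZMod 3)}) =
            nUe V V₀ U + (dm V₀ + j - 1 - a₀) := by
          unfold nUe
          change nTe (dm ((U ⊔ Submodule.span (ZMod 3) {(y : Fin M' → ZMod 3)}) ⊓ V₀))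
            (dm (U ⊔ Submodule.span (ZMod 3) {(y : Fin M' → ZMod 3)}) -
              dm ((U ⊔ Submodule.span (ZMod 3) {(y : Fin M' → ZMod 3)}) ⊓ V₀)) (dm V) (dm V₀) =
            nTe (dm (U ⊓ V₀)) (dm U - dm (U ⊓ V₀)) (dm V) (dm V₀) + (dm V₀ + j - 1 - a₀)
          rw [h7, h2, ← ha₀]
          have i1 : dm U + 1 - (a₀ + 1) = δ := by omega
          have i2 : dm U - a₀ = δ := by omega
          rw [i1, i2, nTe_two]
          congr 1
          omega
        unfold bd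
        rw [h7, h2, h9]
        have i1 : dm V - dm V₀ - (dm U + 1 - (a₀ + 1)) = j := by omega
        rw [i1, hc]
        have i2 : (3 : ℝ) ^ (dm V₀ + δ) * 3 ^ j = 3 ^ (dm U + 1) * 3 ^ (dm V₀ + j - 1 - a₀) := by
          rw [← pow_add, ← pow_add]
          congr 1
          omega
        rw [add_mul, one_mul, pow_add 3 (dm U * k) k, pow_add 3 (nUe V V₀ U)]
        refine le_of_eq ?_
        rw [div_div _ ((3 : ℝ) ^ j) _, mul_comm ((3 : ℝ) ^ j), i2]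
        field_simp
      · have h6 := dm_single _ h5
        rw [h6] at h4
        rw [if_neg h5, zero_add]
        have h7 : dm ((U ⊔ Submodule.span (ZMod 3) {(y : Fin M' → ZMod 3)}) ⊓ V₀) = a₀ := by
          omega
        have h8 : dm (U ⊔ V₀) + 1 ≤ dm V := by
          rw [← h6]
          refine Submodule.finrank_mono (sup_le (sup_le hU hV) ?_)
          rw [Submodule.span_singleton_le_iff_mem]
          exact y.2
        have h9 : nUe V V₀ (U ⊔ Submodule.span (ZMod 3) {(y : Fin M' → ZMod 3)}) + a₀ =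
            nUe V V₀ U + dm V₀ := by
          unfold nUe
          change nTe (dm ((U ⊔ Submodule.span (ZMod 3) {(y : Fin M' → ZMod 3)}) ⊓ V₀))
            (dm (U ⊔ Submodule.span (ZMod 3) {(y : Fin M' → ZMod 3)}) -
              dm ((U ⊔ Submodule.span (ZMod 3) {(y : Fin M' → ZMod 3)}) ⊓ V₀)) (dm V) (dm V₀) + a₀ =
            nTe (dm (U ⊓ V₀)) (dm U - dm (U ⊓ V₀)) (dm V) (dm V₀) + dm V₀
          rw [h7, h2, ← ha₀]
          have i1 : dm U + 1 - a₀ = δ + 1 := by omega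
          have i2 : dm U - a₀ = δ := by omega
          rw [i1, i2, nTe_three]
          omega
        unfold bd
        rw [h7, h2]
        have i1 : dm V - dm V₀ - (dm U + 1 - a₀) = j - 1 := by omega
        rw [i1, hc]
        have i2 : (3 : ℝ) ^ nUe V V₀ (U ⊔ Submodule.span (ZMod 3) {(y : Fin M' → ZMod 3)}) * 3 ^ a₀ =
            3 ^ nUe V V₀ U * 3 ^ dm V₀ := by
          rw [← pow_add, ← pow_add, h9]
        rw [hδ, pow_add 3 (dm V₀) δ, pow_add 3 a₀ δ, add_mul (a₀ + δ) 1 k, one_mul, pow_add 3 _ k]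
        refine le_of_eq ?_
        have i3 : (3 : ℝ) ^ nUe V V₀ (U ⊔ Submodule.span (ZMod 3) {(y : Fin M' → ZMod 3)}) =
            3 ^ nUe V V₀ U * 3 ^ dm V₀ / 3 ^ a₀ := by
          rw [eq_div_iff (by positivity)]
          exact i2
        rw [i3]
        field_simp
  refine (Finset.sum_le_sum fun y _ => key y).trans (le_of_eq ?_)
  rw [Finset.sum_add_distrib, Finset.sum_add_distrib, sum_mem V U hU, sum_mem V (U ⊔ V₀) (sup_le hU hV),
    Finset.sum_const, Finset.card_univ, nsmul_eq_mul]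
  have hcard : (Fintype.card V : ℝ) = 3 ^ dm V := by
    have h2 := Module.natCard_eq_pow_finrank (K := ZMod 3) (V := V)
    rw [Nat.card_zmod, Nat.card_eq_fintype_card] at h2
    exact_mod_cast h2
  have hs : dm (U ⊔ V₀) = dm V₀ + δ := by omega
  rw [hcard, hs, hj]
  unfold bd
  rw [← ha₀, hj1]
  have hg : gM (k + 1) j = (1 + 3 ^ (k + 1) / 3 ^ j) * gM k j + (3 ^ j - 1) * 3 ^ k * gM k (j - 1) := rfl
  rw [hg, hc, pow_add 3 (dm V₀ + δ) j, mul_add (dm U) k 1, mul_one, pow_add 3 (dm U * k) (dm U),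
    pow_add 3 k 1, pow_add 3 (dm U) 1, pow_one]
  field_simp
  ring

theorem span_cons {V : Sub M'} (U : Sub M') (k : ℕ) (y : V) (Y : Fin k → V) :
    U ⊔ Submodule.span (ZMod 3) (Set.range fun i => ((Fin.cons y Y : Fin (k + 1) → V) i :
      Fin M' → ZMod 3)) =
    (U ⊔ Submodule.span (ZMod 3) {(y : Fin M' → ZMod 3)}) ⊔
      Submodule.span (ZMod 3) (Set.range fun i => (Y i : Fin M' → ZMod 3)) := by
  rw [sup_assoc, ← Submodule.span_union]
  congr 2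
  ext z
  simp [Fin.exists_fin_succ, eq_comm]

theorem claim (V V₀ : Sub M') (hV : V₀ ≤ V) [Fintype V] (k : ℕ) : ∀ U : Sub M', U ≤ V →
    ∑ Y : Fin k → V, (1 : ℝ) / 3 ^ nUe V V₀ (U ⊔ Submodule.span (ZMod 3)
      (Set.range fun i => (Y i : Fin M' → ZMod 3))) ≤ bd V V₀ k U := by
  induction k with
  | zero =>
    intro U hU
    have h1 : ∀ Y : Fin 0 → V, U ⊔ Submodule.span (ZMod 3)
        (Set.range fun i => (Y i : Fin M' → ZMod 3)) = U := by
      intro Y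
      rw [Set.range_eq_empty, Submodule.span_empty, sup_bot_eq]
    simp only [h1]
    simp [bd, gM]
  | succ k ih =>
    intro U hU
    rw [← (Fin.consEquiv fun _ => V).sum_comp, Fintype.sum_prod_type]
    refine le_trans (Finset.sum_le_sum fun y _ => ?_) (step V V₀ hV k U hU)
    have h2 : U ⊔ Submodule.span (ZMod 3) {(y : Fin M' → ZMod 3)} ≤ V := by
      refine sup_le hU ?_
      rw [Submodule.span_singleton_le_iff_mem]
      exact y.2
    refine le_trans (le_of_eq ?_) (ih _ h2)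
    refine Finset.sum_congr rfl fun Y _ => ?_
    have h3 := span_cons U k y Y
    change (1 : ℝ) / 3 ^ nUe V V₀ (U ⊔ Submodule.span (ZMod 3) (Set.range fun i =>
      ((Fin.cons y Y : Fin (k + 1) → V) i : Fin M' → ZMod 3))) = _
    rw [h3]

end LSM

open _root_.Pool.Agent.PTK.LSM in
theorem LSM_thm : Stmt_LSM := by
  classical
  intro M' V V₀ hV k
  have : Fintype V := Fintype.ofFinite _
  rw [finsum_eq_sum_of_fintype]
  have h1 := claim V V₀ hV k ⊥ bot_le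
  simp only [bot_sup_eq] at h1
  refine h1.trans (le_of_eq ?_)
  have h2 : dm (⊥ : Sub M') = 0 := finrank_bot _ _
  have h3 : dm ((⊥ : Sub M') ⊓ V₀) = 0 := by
    rw [bot_inf_eq]
    exact h2
  have h4 : nUe V V₀ ⊥ = 0 := by
    unfold nUe
    change nTe (dm ((⊥ : Sub M') ⊓ V₀)) (dm (⊥ : Sub M') - dm ((⊥ : Sub M') ⊓ V₀)) (dm V) (dm V₀) = 0
    rw [h2, h3]
    simp [nTe]
  unfold bd
  rw [h4, h2, h3]
  simp

end Pool.Agent.PTK


end

section

/-!
# PTK_NBX: the bound for the rank, `q = 1 (mod 3)`, all rational classes cubes modulo `q`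
-/

set_option autoImplicit false

namespace Pool.Agent.PTK

open Pool.Agent.Lib_helper18 Pool.Agent.Lib_helper18.Eis Pool.Agent.Lib_helper84.Cub
open Pool.Agent.PT Pool.Agent.PTE Pool.Agent.PT3 Pool.Agent.PTL Pool.Agent.PTN

open Pool.Agent.PTN.NBKU in
/-- PTK_NBX: the bound for the rank, `q = 1 (mod 3)`, all rational classes cubes modulo `q`, with
the matrix.
Proof. As `NBU_thm` (PTK/NBU.lean) with `b` in place of `rv b` and the first bound of `WGU` for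
`Nat.card W`. -/
theorem NBX_thm (hK : Stmt_KID) (_hI : Stmt_NKIN) (hA : Stmt_NADU) (hL : Stmt_NPLU)
    (hTENT : TENT) (_hSPP : SPP) (hSPLT : SPLT) (hWGU : Stmt_WGU) : Stmt_NBX := by
  classical
  intro h n m k π p e r f w0 c s τ b X Y P Q P' Q' E q hN hh hPl hE hq hq3 hq1 hIn hqn hZP
  obtain ⟨ρ, hqρ⟩ := hSPLT.1 q hq hq1
  have h0 : ∀ i, sym ρ.1 (b i : Eis) = 0 := hZP ρ hqρ
  have hgen := hPl.gen
  have hAd := hPl.adm
  have hSys := hPl.sys
  have hSw := hPl.sw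
  have hT := hPl.lam
  have hq3' : q ≠ 3 := by omega
  have hB0 : BB h n E q ≠ 0 := BB_ne hN hq
  have hcf := cubeFree (h := h) hN hh hE hq hq3' hqn
  have habs := abs_ge (h := h) hN hE hq hq3
  have hnc : ¬ ∃ t : ℤ, t ^ 3 = BB h n E q := by
    apply CubeRank.GenPf.not_cube hcf
    have h2 : ((BB h n E q).natAbs : ℤ) = |BB h n E q| := Int.natCast_natAbs _
    rw [← h2]
    exact_mod_cast habs
  obtain ⟨hBG, hTy, hAdm⟩ := hA h n m k π p e r f w0 c E q ρ hN hh hE hq hq1 hIn hqn hqρ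
  obtain ⟨⟨dd, hdd⟩, W, _, Ψ₁, hW, -, hΨ₁⟩ := hWGU h n m k π p e r f w0 c E q ρ hN hh hE hq hq3 hq1
    hIn hqn hqρ
  unfold kS
  rw [hdd] at hW ⊢
  rw [Nat.log_pow (by norm_num : 1 < 3)]
  set B := BB h n E q with hBdef
  set M := MaT b X Y P Q P' Q' B with hM
  have hsupp : ∀ i : Fin s, ∀ l : ℕ, l.Prime → (l : ℤ) ∣ b i → l ∣ 3 * n := fun i =>
    (hAd i).1.supp
  have hAG : ∀ i : Fin s, AG B (b i) := fun i =>
    ((hAdm (b i) (hsupp _)).1 ⟨hAd _, h0 i⟩).1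
  have hne : ∀ i : Fin s, b i ≠ 0 := fun i => (hAd i).1.ne
  have hker := (hTENT s τ b X Y _ _ _ _ B hSys hSw hBG hAG (hT B hTy) hne).2
  -- the class of a point of the isogenous curve
  have hz : ∀ z : ℤ, S2 B z → ∃ (g : Fin s → ℕ) (u v : ℤ) (j : ℕ), u ≠ 0 ∧ v ≠ 0 ∧
      z * B ^ j * u ^ 3 = (∏ i, b i ^ g i) * v ^ 3 ∧
      ∀ j, ∑ i, M j i * (g i : ZMod 3) = 0 := by
    rintro z (rfl | ⟨A, m', hA0, hsum, hprod, hcop, rfl⟩)
    · exact ⟨fun _ => 0, 1, 1, 0, one_ne_zero, one_ne_zero, by simp, fun j => by simp⟩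
    · obtain ⟨z', X1, Y1, u, v, j, hu, hv, hz', hPt, hAGz, hLoc, hs⟩ :=
        hL h n m k π p e r f E q A m' hN hh hE hq hq3' hqn hA0 hsum hprod hcop
      obtain ⟨g1, -⟩ := (hAdm z' hs).2 ⟨hAGz, hLoc⟩
      obtain ⟨g, u', v', hu', hv', hg⟩ := hgen z' g1
      refine ⟨g, v * u', v' * u, j, mul_ne_zero hv hu', mul_ne_zero hv' hu, ?_, ?_⟩
      · have e1 : A 0 ^ 2 * A 1 * B ^ j * (v * u') ^ 3 =
            (A 0 ^ 2 * A 1 * B ^ j * v ^ 3) * u' ^ 3 := by ring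
        rw [e1, ← hz']
        linear_combination (u ^ 3) * hg
      · by_cases hex : ∃ i, ¬ 3 ∣ g i
        · exact hker g _ _ hex (pt_transport hPt hu' hv' hg)
        · push Not at hex
          intro j
          refine Finset.sum_eq_zero (fun i _ => ?_)
          rw [(ZMod.natCast_eq_zero_iff (g i) 3).2 (hex i), mul_zero]
  choose! g u v j hu hv hzg hzM using hz
  let Ψ₂ : ℤ → LinearMap.ker M.mulVecLin := fun z =>
    if hS : S2 B z then ⟨fun i => (g z i : ZMod 3), by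
      rw [LinearMap.mem_ker]
      funext j'
      exact hzM z hS j'⟩ else 0
  have hΨ₂ : ∀ z z', S2 B z → S2 B z' → Ψ₂ z = Ψ₂ z' →
      ∃ (u v : ℤ) (j : ℕ), u ≠ 0 ∧ v ≠ 0 ∧ z * u ^ 3 = z' * B ^ j * v ^ 3 := by
    intro z z' hS hS' hΨ
    have h2 : ∀ i, (g z i : ZMod 3) = g z' i := by
      intro i
      have h3 := congrArg (fun x : LinearMap.ker M.mulVecLin => (x : Fin s → ZMod 3) i) hΨ
      simp only [Ψ₂, dif_pos hS, dif_pos hS'] at h3
      exact h3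
    obtain ⟨A, A', hA0, hA0', hAA⟩ := BKER.prod_cube b hne (g z) (g z') h2
    refine ⟨B ^ j z * (u z * A * v z'), u z' * A' * v z, j z' + 2 * j z,
      mul_ne_zero (pow_ne_zero _ hB0) (mul_ne_zero (mul_ne_zero (hu z hS) hA0) (hv z' hS')),
      mul_ne_zero (mul_ne_zero (hu z' hS') hA0') (hv z hS), ?_⟩
    have e1 := hzg z hS
    have e2 := hzg z' hS'
    generalize (∏ i, b i ^ g z i) = w1 at *
    generalize (∏ i, b i ^ g z' i) = w2 at *
    rw [pow_add, mul_comm 2 (j z), pow_mul]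
    generalize B ^ j z = β at *
    generalize B ^ j z' = β' at *
    linear_combination (β ^ 2 * A ^ 3 * v z' ^ 3) * e1 - (β ^ 2 * A' ^ 3 * v z ^ 3) * e2 +
      (β ^ 2 * v z ^ 3 * v z' ^ 3) * hAA
  obtain ⟨hfin, hidx⟩ := hK B hB0 hcf hnc W (LinearMap.ker M.mulVecLin) Ψ₁ Ψ₂ hΨ₁ hΨ₂
  have hkerd : Module.finrank (ZMod 3) (LinearMap.ker M.mulVecLin) = s - M.rank := by
    have h2 := LinearMap.finrank_range_add_finrank_ker M.mulVecLin
    rw [Module.finrank_fintype_fun_eq_card, Fintype.card_fin] at h2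
    have h3 : Module.finrank (ZMod 3) (LinearMap.range M.mulVecLin) = M.rank := rfl
    omega
  rw [Module.natCard_eq_pow_finrank (K := ZMod 3) (V := LinearMap.ker M.mulVecLin), Nat.card_zmod,
    hkerd] at hidx
  refine CubeRank.gen' B hcf habs _ hfin (hidx.trans ?_)
  rw [pow_add, pow_succ, mul_comm (3 ^ dd) 3]
  exact Nat.mul_le_mul_right _ hW

end Pool.Agent.PTK


end

section

/-!
# PTK, module NNS: norms have trivial symbols with the base class (helper54)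

Copy of `PT/NNS.lean`.
-/

set_option autoImplicit false

open NumberField IsDedekindDomain Finset
open scoped nonZeroDivisors Pointwise

namespace Pool.Agent.PTK

open Pool.Agent.Lib_helper18 Pool.Agent.Lib_helper18.Eis Pool.Agent.Lib_helper84.Cub
open Pool.Agent.PT

namespace NNS

variable {x : Eis} {L : Type} [Field L] [NumberField L] {ι : Eis →+* L} {θ : L} {σ : L ≃ₐ[ℚ] L}

lemma norm_lin (h : CubE x L ι θ σ) (α β : Eis) :
    (ι α + ι β * θ) * σ (ι α + ι β * θ) * σ (σ (ι α + ι β * θ)) = ι (α ^ 3 + x * β ^ 3) := by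
  have hw : ι w ^ 2 + ι w + 1 = 0 := by
    have : w ^ 2 + w + 1 = (0 : Eis) := by
      decide
    rw [← map_pow, ← map_one ι, ← map_add, ← map_add, this, map_zero]
  have h3 : ι w ^ 3 = 1 := by
    linear_combination (ι w - 1) * hw
  have e1 : σ (ι α + ι β * θ) = ι α + ι β * (ι w * θ) := by
    rw [map_add, map_mul, h.sι, h.sι, h.sθ]
  have e2 : σ (σ (ι α + ι β * θ)) = ι α + ι β * (ι w * (ι w * θ)) := by
    rw [e1, map_add, map_mul, map_mul, h.sι, h.sι, h.sι, h.sθ]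
  rw [e2, e1, map_add, map_mul, map_pow, map_pow, ← h.cube]
  linear_combination (ι α ^ 2 * ι β * θ + ι α * ι β ^ 2 * θ ^ 2 * ι w) * hw
    + ι β ^ 3 * θ ^ 3 * h3

lemma norm_ne (h : CubE x L ι θ σ) {α β : Eis} (hne : ι α + ι β * θ ≠ 0) :
    α ^ 3 + x * β ^ 3 ≠ 0 := by
  intro h0
  have h1 := norm_lin h α β
  rw [h0, map_zero] at h1
  have hs : ∀ y : L, y ≠ 0 → σ y ≠ 0 := fun y hy => (map_ne_zero σ).mpr hy
  exact (mul_ne_zero (mul_ne_zero hne (hs _ hne)) (hs _ (hs _ hne))) h1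

end NNS

theorem NNS_thm : Stmt_NNS := by
  intro x L _ _ ι θ σ hxE hF π s e hs z a b hz ha hb hzab
  obtain ⟨m, a0, b0, d0, hm, hrep⟩ := hF.rep z
  have hmL : (m : L) ≠ 0 := by exact_mod_cast hm
  have hmE : (m : Eis) ≠ 0 := by
    intro h0
    have h1 : ι (m : Eis) = (m : L) := map_intCast ι m
    rw [h0, map_zero] at h1
    exact hmL h1.symm
  obtain ⟨γ, δ, α, β, hγδ, hαβ⟩ : ∃ γ δ α β : Eis, ι γ + ι δ * θ ≠ 0 ∧
      z * (ι γ + ι δ * θ) * (m : L) = ι α + ι β * θ := by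
    by_cases hbd : b0 = 0 ∧ d0 = 0
    · refine ⟨1, 0, a0, 0, ?_, ?_⟩
      · simp
      · rw [hbd.1, hbd.2] at hrep
        simp only [map_zero, zero_mul, add_zero, map_one, mul_one] at hrep ⊢
        rw [mul_comm]; exact hrep
    · refine ⟨b0, -d0, a0 * b0 - d0 ^ 2 * x, b0 ^ 2 - a0 * d0, ?_, ?_⟩
      · intro h0
        have h1 := hF.lin b0 (-d0) 0 (by rw [map_zero, zero_mul, add_zero]; exact h0)
        exact hbd ⟨h1.1, neg_eq_zero.mp h1.2.1⟩
      · rw [map_sub, map_sub, map_neg, map_mul, map_mul, map_mul, map_pow, map_pow, ← hF.cube]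
        linear_combination (ι b0 - ι d0 * θ) * hrep
  have hαβ0 : ι α + ι β * θ ≠ 0 := by
    rw [← hαβ]
    exact mul_ne_zero (mul_ne_zero hz hγδ) hmL
  have hN1 := NNS.norm_ne hF hγδ
  have hN2 := NNS.norm_ne hF hαβ0
  have hkey : a * ((m : Eis) ^ 3 * (γ ^ 3 + x * δ ^ 3)) = b * (α ^ 3 + x * β ^ 3) := by
    apply hF.inj
    have hm' : ι (m : Eis) = (m : L) := map_intCast ι m
    have hsm : ∀ k : ℤ, σ (k : L) = (k : L) := fun k => map_intCast σ k
    rw [map_mul, map_mul, map_mul, map_pow, hm', ← NNS.norm_lin hF γ δ, ← NNS.norm_lin hF α β, ← hαβ,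
      ← hzab]
    simp only [map_mul, hsm]
    ring
  have hl : s (a * ((m : Eis) ^ 3 * (γ ^ 3 + x * δ ^ 3))) x = s a x := by
    rw [hs.mul _ _ _ ha (mul_ne_zero (pow_ne_zero 3 hmE) hN1) hxE,
      hs.mul _ _ _ (pow_ne_zero 3 hmE) hN1 hxE, Pool.Agent.PT.NNS.cube_left hs hmE hxE,
      Pool.Agent.PT.NNS.norm_symbol hs hxE hN1, add_zero, add_zero]
  have hr : s (b * (α ^ 3 + x * β ^ 3)) x = s b x := by
    rw [hs.mul _ _ _ hb hN2 hxE, Pool.Agent.PT.NNS.norm_symbol hs hxE hN2, add_zero]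
  rw [← hl, hkey, hr]

end Pool.Agent.PTK


end

section

/-!
# The average rank of prime twists, ZA: general properties of `zN`
-/

set_option autoImplicit false

open NumberField IsDedekindDomain Finset
open scoped nonZeroDivisors Pointwise

namespace Pool.Agent.PTK

open Pool.Agent.Lib_helper18 Pool.Agent.Lib_helper18.Eis Pool.Agent.Lib_helper84.Cub
open Pool.Agent.PT Pool.Agent.PTE Pool.Agent.PT3 Pool.Agent.PTL Pool.Agent.PTN

namespace ZA

open Pool.Agent.PT.EHYP Pool.Agent.PT3.HYPT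

variable {n m k : ℕ} {π : Fin m → PP} {p e : Fin m → ℕ} {r f : Fin k → ℕ}

/-- products of powers of the primes -/
noncomputable def pr (π : Fin m → PP) (c : ℕ) (g h : Fin m → ℕ) : Eis :=
  w ^ c * ∏ i, ((π i).1 ^ g i * conj (π i).1 ^ h i)

theorem f_ne (π : Fin m → PP) (g h : Fin m → ℕ) (i : Fin m) :
    (π i).1 ^ g i * conj (π i).1 ^ h i ≠ 0 :=
  mul_ne_zero (pow_ne_zero _ (π i).2.1.ne_zero) (pow_ne_zero _ (prime_conj (π i).2.1).ne_zero)

theorem pr_ne (π : Fin m → PP) (c : ℕ) (g h : Fin m → ℕ) : pr π c g h ≠ 0 :=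
  mul_ne_zero (pow_ne_zero _ w_ne) (Finset.prod_ne_zero_iff.2 fun i _ => f_ne π g h i)

theorem prim_i (π : Fin m → PP) (i : Fin m) : Prim (π i).1 := by
  have h := (π i).2.2
  exact ⟨h.2, by omega⟩

theorem prim_c (π : Fin m → PP) (i : Fin m) : Prim (conj (π i).1) := by
  obtain ⟨h1, h2⟩ := (π i).2.2
  refine ⟨?_, ?_⟩
  · rw [conj_im]
    omega
  · rw [conj_re]
    omega

theorem lam_ndvd (π : Fin m → PP) (c : ℕ) (g h : Fin m → ℕ) : ¬ lam ∣ pr π c g h := by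
  have hl : Prime lam := prime_lam
  intro hd
  rcases hl.dvd_or_dvd hd with h1 | h1
  · exact not_dvd_of_isUnit hl (isUnit_w.pow c) h1
  · obtain ⟨i, -, hi⟩ := hl.exists_mem_finset_dvd h1
    rcases hl.dvd_or_dvd hi with h2 | h2
    · exact (prim_i π i).not_lam_dvd (hl.dvd_of_dvd_pow h2)
    · exact (prim_c π i).not_lam_dvd (hl.dvd_of_dvd_pow h2)

theorem pr_mul (π : Fin m → PP) (c c' : ℕ) (g h g' h' : Fin m → ℕ) :
    pr π c g h * pr π c' g' h' = pr π (c + c') (fun i => g i + g' i) (fun i => h i + h' i) := by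
  unfold pr
  rw [pow_add, mul_mul_mul_comm, ← Finset.prod_mul_distrib]
  congr 1
  refine Finset.prod_congr rfl fun i _ => ?_
  rw [pow_add, pow_add]
  ring

theorem pr_cube (π : Fin m → PP) (c : ℕ) (g h : Fin m → ℕ) :
    pr π (3 * c) (fun i => 3 * g i) (fun i => 3 * h i) = pr π c g h ^ 3 := by
  unfold pr
  rw [mul_pow, ← Finset.prod_pow, ← pow_mul, mul_comm 3 c]
  congr 1
  refine Finset.prod_congr rfl fun i _ => ?_
  change (π i).1 ^ (3 * g i) * conj (π i).1 ^ (3 * h i) = _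
  rw [mul_pow, ← pow_mul, ← pow_mul, mul_comm 3 (g i), mul_comm 3 (h i)]

theorem pr_conj (π : Fin m → PP) (c : ℕ) (g h : Fin m → ℕ) :
    conj (pr π c g h) = pr π (2 * c) h g := by
  unfold pr
  rw [map_mul, map_pow, conj_w, map_prod, ← pow_mul]
  congr 1
  refine Finset.prod_congr rfl fun i _ => ?_
  rw [map_mul, map_pow, map_pow, conj_conj, mul_comm]

theorem sl_pr (hSSL : SSL) (hSREC : SREC) (hLCL : LCL) (π : Fin m → PP) (c : ℕ)
    (g h : Fin m → ℕ) : sl (pr π c g h) 4 = c := by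
  have h4 : (4 : Eis) ≠ 0 := by
    intro h
    have := congrArg Eis.re h
    rw [ofNat_re, zero_re] at this
    norm_num at this
  have hp4 : Prim 4 := ⟨by rw [ofNat_im]; exact dvd_zero _, by rw [ofNat_re]; norm_num⟩
  have hF := add3_sl hSSL h4
  have hw : sl w 4 = 1 := by
    have h1 := hLCL.2.2.2.2.1 4 (by norm_num)
    push_cast at h1
    rw [h1, (lw_four hLCL).2, neg_neg]
  have k1 := hF _ _ (pow_ne_zero c w_ne) (Finset.prod_ne_zero_iff.2 fun i _ => f_ne π g h i :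
    (∏ i, ((π i).1 ^ g i * conj (π i).1 ^ h i)) ≠ 0)
  have k2 := hF.pow w_ne c
  have k3 := hF.prod Finset.univ _ fun i _ => f_ne π g h i
  simp only at k1 k2 k3
  unfold pr
  rw [k1, k2, k3, hw, mul_one, Finset.sum_eq_zero, add_zero]
  intro i _
  have k4 := hF _ _ (pow_ne_zero (g i) (π i).2.1.ne_zero)
    (pow_ne_zero (h i) (prime_conj (π i).2.1).ne_zero)
  have k5 := hF.pow (π i).2.1.ne_zero (g i)
  have k6 := hF.pow (prime_conj (π i).2.1).ne_zero (h i)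
  simp only at k4 k5 k6
  rw [k4, k5, k6, hSREC.1 _ _ (prim_i π i) hp4, hSREC.1 _ _ (prim_c π i) hp4, mul_zero, mul_zero,
    add_zero]

theorem V_pr {l : Eis} (hl : Prime l) (π : Fin m → PP) (c : ℕ) (g h : Fin m → ℕ) :
    V l (pr π c g h) = ∑ i, (g i * V l (π i).1 + h i * V l (conj (π i).1)) := by
  unfold pr
  rw [V_mul hl (pow_ne_zero _ w_ne) (Finset.prod_ne_zero_iff.2 fun i _ => f_ne π g h i),
    V_eq_zero (not_dvd_of_isUnit hl (isUnit_w.pow c)), zero_add,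
    V_prod hl _ _ fun i _ => f_ne π g h i]
  refine Finset.sum_congr rfl fun i _ => ?_
  rw [V_mul hl (pow_ne_zero _ (π i).2.1.ne_zero)
    (pow_ne_zero _ (prime_conj (π i).2.1).ne_zero), V_pow hl (π i).2.1.ne_zero,
    V_pow hl (prime_conj (π i).2.1).ne_zero]

theorem V_i (hn : NF n π p e r f) (c : ℕ) (g h : Fin m → ℕ) (i : Fin m) :
    V (π i).1 (pr π c g h) = g i := by
  rw [V_pr (π i).2.1, Finset.sum_eq_single i]
  · rw [V_self_i hn, V_conj_i hn, if_pos rfl, mul_one, mul_zero, add_zero]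
  · intro j _ hj
    rw [V_self_i hn, V_conj_i hn, if_neg hj, mul_zero, mul_zero, add_zero]
  · intro h
    exact absurd (Finset.mem_univ i) h

theorem V_ci (hn : NF n π p e r f) (c : ℕ) (g h : Fin m → ℕ) (i : Fin m) :
    V (conj (π i).1) (pr π c g h) = h i := by
  rw [V_pr (prime_conj (π i).2.1), Finset.sum_eq_single i]
  · rw [V_conj_self hn, V_conj_conj hn, if_pos rfl, mul_one, mul_zero, zero_add]
  · intro j _ hj
    rw [V_conj_self hn, V_conj_conj hn, if_neg hj, mul_zero, mul_zero, add_zero]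
  · intro h
    exact absurd (Finset.mem_univ i) h

theorem dvd_pr (hSPP : SPP) (π : Fin m → PP) (c : ℕ) (g h : Fin m → ℕ) (σ : PP)
    (hd : σ.1 ∣ pr π c g h) : ∃ i, (g i ≠ 0 ∧ σ = π i) ∨ (h i ≠ 0 ∧ σ.1 = conj (π i).1) := by
  have hl := σ.2.1
  rcases hl.dvd_or_dvd hd with h1 | h1
  · exact absurd h1 (not_dvd_of_isUnit hl (isUnit_w.pow c))
  · obtain ⟨i, -, hi⟩ := hl.exists_mem_finset_dvd h1
    refine ⟨i, ?_⟩
    rcases hl.dvd_or_dvd hi with h2 | h2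
    · left
      refine ⟨fun h0 => ?_, ?_⟩
      · rw [h0, pow_zero] at h2
        exact not_dvd_of_isUnit hl isUnit_one h2
      · exact hSPP.2.1 _ _ (hl.associated_of_dvd (π i).2.1 (hl.dvd_of_dvd_pow h2))
    · right
      refine ⟨fun h0 => ?_, ?_⟩
      · rw [h0, pow_zero] at h2
        exact not_dvd_of_isUnit hl isUnit_one h2
      · obtain ⟨π', hπ'⟩ := (hSPP.2.2.2.1 (π i)).2
        rw [← hπ']
        have h3 : Associated σ.1 π'.1 := by
          rw [hπ']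
          exact hl.associated_of_dvd (prime_conj (π i).2.1) (hl.dvd_of_dvd_pow h2)
        rw [hSPP.2.1 _ _ h3]

theorem zN_eq (π : Fin m → PP) (e : Fin m → ℕ) (y : Fin (m + 1) → ZMod 3) :
    zN π e y = pr π (- y 0).val (fun i => ((e i : ZMod 3) * y i.succ).val)
      (fun i => (2 * ((e i : ZMod 3) * y i.succ)).val) := rfl

theorem three_dvd (a : ZMod 3) : 3 ∣ a.val + (2 * a).val := by
  revert a
  decide

theorem carry (a b : ZMod 3) : ∃ c : ℕ, a.val + b.val = (a + b).val + 3 * c := by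
  refine ⟨(a.val + b.val) / 3, ?_⟩
  revert a b
  decide

theorem val_le (a : ZMod 3) : a.val ≤ 2 := by
  revert a
  decide

theorem e_sq' (hn : NF n π p e r f) (i : Fin m) : (e i : ZMod 3) * (e i : ZMod 3) = 1 := by
  rcases hn.pe i with h | h
  · rw [h]
    decide
  · rw [h]
    decide

theorem pd_n (hn : NF n π p e r f) (i : Fin m) : (p i : Eis) ∣ (n : Eis) := by
  have h1 : p i ∣ n := by
    rw [hn.eq]
    refine Dvd.dvd.mul_right ?_ _
    have h1 : p i ^ e i ∣ ∏ i, p i ^ e i := Finset.dvd_prod_of_mem _ (Finset.mem_univ i)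
    refine (dvd_pow_self _ ?_).trans h1
    have := hn.pe i
    omega
  obtain ⟨d, hd⟩ := h1
  exact ⟨(d : Eis), by rw [hd]; push_cast; rfl⟩

end ZA

theorem ZA_thm (hSPP : SPP) (hSSL : SSL) (hSREC : SREC) (hLCL : LCL) : Stmt_ZA := by
  intro n m k π p e r f hn y
  have hyv : NPSI.yv π e (zN π e y) = y := by
    funext j
    refine Fin.cases ?_ (fun i => ?_) j
    · change - sl (zN π e y) 4 = y 0
      rw [ZA.zN_eq, ZA.sl_pr hSSL hSREC hLCL, ZMod.natCast_zmod_val, neg_neg]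
    · change (e i : ZMod 3) * (V (π i).1 (zN π e y) : ZMod 3) = y i.succ
      rw [ZA.zN_eq, ZA.V_i hn, ZMod.natCast_zmod_val, ← mul_assoc, ZA.e_sq' hn, one_mul]
  refine ⟨?_, ?_, ?_, ?_, ?_, ?_, ?_, hyv, ?_, ?_⟩
  · rw [ZA.zN_eq]
    exact ZA.pr_ne _ _ _ _
  · rw [ZA.zN_eq]
    exact ZA.lam_ndvd _ _ _ _
  · rw [ZA.zN_eq, ZA.pr_conj, ZA.pr_mul]
    have h1 := fun i : Fin m => ZA.three_dvd ((e i : ZMod 3) * y i.succ)
    choose c hc using h1
    refine ⟨ZA.pr π (- y 0).val c c, ?_⟩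
    rw [← ZA.pr_cube]
    congr 1
    · omega
    · funext i
      exact hc i
    · funext i
      rw [add_comm]
      exact hc i
  · intro σ hσ hd
    rw [ZA.zN_eq] at hd
    obtain ⟨i, hi⟩ := ZA.dvd_pr hSPP _ _ _ _ _ hd
    apply hσ
    refine Dvd.dvd.trans ?_ (ZA.pd_n hn i)
    rw [hn.pπ i]
    rcases hi with ⟨-, hi⟩ | ⟨-, hi⟩
    · rw [hi]
      exact dvd_mul_right _ _
    · rw [hi]
      exact dvd_mul_left _ _
  · intro σ
    rw [ZA.zN_eq]
    by_cases hd : σ.1 ∣ ZA.pr π (- y 0).val (fun i => ((e i : ZMod 3) * y i.succ).val)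
      (fun i => (2 * ((e i : ZMod 3) * y i.succ)).val)
    · obtain ⟨i, hi⟩ := ZA.dvd_pr hSPP _ _ _ _ _ hd
      rcases hi with ⟨-, hi⟩ | ⟨-, hi⟩
      · rw [hi, ZA.V_i hn]
        exact ZA.val_le _
      · rw [hi, ZA.V_ci hn]
        exact ZA.val_le _
    · rw [V_eq_zero hd]
      exact Nat.zero_le _
  · intro σ hd
    rw [ZA.zN_eq] at hd
    obtain ⟨i, hi⟩ := ZA.dvd_pr hSPP _ _ _ _ _ hd
    refine ⟨i, ?_⟩
    rcases hi with ⟨h0, hi⟩ | ⟨h0, hi⟩
    · refine ⟨fun h1 => h0 ?_, Or.inl hi⟩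
      rw [h1, mul_zero]
      rfl
    · refine ⟨fun h1 => h0 ?_, Or.inr hi⟩
      rw [h1, mul_zero, mul_zero]
      rfl
  · intro i hi
    have h1 : (e i : ZMod 3) * y i.succ ≠ 0 := by
      intro h
      apply hi
      have := congrArg (fun t => (e i : ZMod 3) * t) h
      simp only [← mul_assoc, ZA.e_sq' hn, one_mul, mul_zero] at this
      exact this
    have h2 : 2 * ((e i : ZMod 3) * y i.succ) ≠ 0 := by
      generalize (e i : ZMod 3) * y i.succ = a at h1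
      revert a
      decide
    have k1 : ((e i : ZMod 3) * y i.succ).val ≠ 0 := fun h => h1 ((ZMod.val_eq_zero _).1 h)
    have k2 : (2 * ((e i : ZMod 3) * y i.succ)).val ≠ 0 := fun h => h2 ((ZMod.val_eq_zero _).1 h)
    have h3 : (π i).1 ^ ((e i : ZMod 3) * y i.succ).val *
        conj (π i).1 ^ (2 * ((e i : ZMod 3) * y i.succ)).val ∣ zN π e y := by
      unfold zN
      exact Dvd.dvd.mul_left (Finset.dvd_prod_of_mem _ (Finset.mem_univ i)) _
    exact ⟨((dvd_pow_self _ k1).trans (dvd_mul_right _ _)).trans h3,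
      ((dvd_pow_self _ k2).trans (dvd_mul_left _ _)).trans h3⟩
  · intro y'
    have h1 := fun i : Fin m => ZA.carry ((e i : ZMod 3) * y i.succ) ((e i : ZMod 3) * y' i.succ)
    have h2 := fun i : Fin m => ZA.carry (2 * ((e i : ZMod 3) * y i.succ))
      (2 * ((e i : ZMod 3) * y' i.succ))
    obtain ⟨c0, hc0⟩ := ZA.carry (- y 0) (- y' 0)
    choose c hc using h1
    choose d hd using h2
    refine ⟨1, ZA.pr π c0 c d, one_ne_zero, ZA.pr_ne _ _ _ _, ?_⟩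
    rw [one_pow, mul_one, ZA.zN_eq, ZA.zN_eq, ZA.zN_eq, ← ZA.pr_cube, ZA.pr_mul, ZA.pr_mul]
    congr 1
    · rw [hc0]
      congr 2
      rw [Pi.add_apply, neg_add]
    · funext i
      rw [hc i]
      congr 2
      rw [Pi.add_apply, mul_add]
    · funext i
      rw [hd i]
      congr 2
      rw [Pi.add_apply, mul_add, mul_add]
  · rintro ⟨t, ht⟩
    rw [← hyv, ← ht]
    have ht0 : t ≠ 0 := by
      rintro rfl
      have : zN π e y ≠ 0 := by
        rw [ZA.zN_eq]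
        exact ZA.pr_ne _ _ _ _
      apply this
      rw [← ht]
      ring
    funext j
    refine Fin.cases ?_ (fun i => ?_) j
    · change - sl (t ^ 3) 4 = 0
      have h4 : (4 : Eis) ≠ 0 := by
        intro h
        have := congrArg Eis.re h
        rw [ofNat_re, zero_re] at this
        norm_num at this
      have h5 : sl (t ^ 3) 4 = ((3 : ℕ) : ZMod 3) * sl t 4 := (EHYP.add3_sl hSSL h4).pow ht0 3
      rw [h5]
      push_cast
      rw [EHYP.three_zero, neg_zero]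
    · change (e i : ZMod 3) * (V (π i).1 (t ^ 3) : ZMod 3) = 0
      rw [V_pow (π i).2.1 ht0]
      push_cast
      rw [EHYP.three_zero, mul_zero]

end Pool.Agent.PTK


end
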