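import Mathlib
import Pool.Agent.PTDM.C24
import Pool.Agent.PTDM.C27
import Pool.Agent.PTDM.C30
import Pool.Agent.PTDM.C35
import Pool.Agent.PTDM.C39
import Pool.Agent.PTDM.C42
import Pool.Agent.PTDM.C43
import Pool.Agent.PTDM.C46
import Pool.Agent.PTKM.C01
import Pool.Agent.PTKM.C02

/-! Parts: PTKX.IF1, PTKX.JPZ, PTKX.PTN_MAINN, PTKX.MAM, PTKX.MSP, PTKX.NFL, PTKX.PLE, PTKX.PT, PTKX.PTX, PTKX.WSB -/

section

/-!
# PTK_IF1: the identity of the two norm residue symbols over `Z[w]`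
-/

set_option autoImplicit false

namespace Pool.Agent.PTK

open Pool.Agent.Lib_helper18 Pool.Agent.Lib_helper18.Eis Pool.Agent.Lib_helper84.Cub
open Pool.Agent.PT

namespace IF1

open Pool.Agent.PT.IF1 (key degen le_V dvd_V V_le dvd_cancel two_mul_eq_zero three_mul_eq s_one
  s_neg s_cube w_ne dvd_sub3 dvd_add3 w2_cube w_sub_ne)

theorem cast_ne {n : Eis} (h : n ≠ 0) : n ≠ 0 := h

/-- The numbers attached to a solution. -/
theorem consts {b x p q p' q' : Eis} (_hb : b ≠ 0) (hS : SolE b x p q p' q') :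
    p' ^ 3 + b * q' ^ 3 ≠ 0 ∧ x * q' ^ 3 - q ^ 3 ≠ 0 ∧ GfE p q p' q' 1 ≠ 0 ∧
      GfE p q p' q' 2 ≠ 0 := by
  refine ⟨?_, ?_, hS.g1, hS.g2⟩
  · intro h
    apply hS.n1
    rw [hS.eq, h, mul_zero]
  · intro h
    apply hS.n2
    have h3 := hS.eq
    linear_combination h3 + b * h

/-- The linear forms do not vanish, and their valuations are bounded. -/
theorem forms {π : Eis} (hπ : Prime π) {b x p q p' q' : Eis} (hb : b ≠ 0)
    (hS : SolE b x p q p' q') {N : ℕ}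
    (hN1 : V π ((p ^ 3 + b * q ^ 3 : Eis) : Eis) < N)
    (hN2 : V π ((p' ^ 3 + b * q' ^ 3 : Eis) : Eis) < N)
    (hN3 : V π ((p ^ 3 - x * p' ^ 3 : Eis) : Eis) < N)
    (hN4 : V π ((q ^ 3 - x * q' ^ 3 : Eis) : Eis) < N) {r z : Eis}
    (hr : π ^ N ∣ r ^ 3 - (b : Eis)) (hz : π ^ N ∣ z ^ 3 - (x : Eis)) {t : Eis}
    (ht : t ^ 3 = 1) :
    ((p + t * r * q ≠ 0 ∧ V π (p + t * r * q) ≤ V π ((p ^ 3 + b * q ^ 3 : Eis) : Eis)) ∧
    (p' + t * r * q' ≠ 0 ∧ V π (p' + t * r * q') ≤ V π ((p' ^ 3 + b * q' ^ 3 : Eis) : Eis))) ∧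
    ((p - t * z * p' ≠ 0 ∧ V π (p - t * z * p') ≤ V π ((p ^ 3 - x * p' ^ 3 : Eis) : Eis)) ∧
    (q - t * z * q' ≠ 0 ∧ V π (q - t * z * q') ≤ V π ((q ^ 3 - x * q' ^ 3 : Eis) : Eis))) := by
  obtain ⟨c1, c2, -, -⟩ := consts hb hS
  have c3 : q ^ 3 - x * q' ^ 3 ≠ 0 := by
    intro h
    apply c2
    linear_combination -h
  have e1 : ∀ u v : Eis, (u : Eis) + t * r * v = u + t * (r * v) := fun u v => by ring
  have e2 : ∀ u v : Eis, (u : Eis) - t * z * v = u - t * (z * v) := fun u v => by ring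
  refine ⟨⟨?_, ?_⟩, ?_, ?_⟩
  · rw [e1]
    refine V_le (c' := (p : Eis) ^ 3 + (r * q) ^ 3) hπ (cast_ne hS.n1) hN1 ?_ (dvd_add3 ht)
    have e3 : (p : Eis) ^ 3 + (r * q) ^ 3 - ((p ^ 3 + b * q ^ 3 : Eis) : Eis) =
        (r ^ 3 - b) * q ^ 3 := by
      ring
    rw [e3]
    exact Dvd.dvd.mul_right hr _
  · rw [e1]
    refine V_le (c' := (p' : Eis) ^ 3 + (r * q') ^ 3) hπ (cast_ne c1) hN2 ?_ (dvd_add3 ht)
    have e3 : (p' : Eis) ^ 3 + (r * q') ^ 3 - ((p' ^ 3 + b * q' ^ 3 : Eis) : Eis) =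
        (r ^ 3 - b) * q' ^ 3 := by
      ring
    rw [e3]
    exact Dvd.dvd.mul_right hr _
  · rw [e2]
    refine V_le (c' := (p : Eis) ^ 3 - (z * p') ^ 3) hπ (cast_ne hS.n2) hN3 ?_ (dvd_sub3 ht)
    have e3 : (p : Eis) ^ 3 - (z * p') ^ 3 - ((p ^ 3 - x * p' ^ 3 : Eis) : Eis) =
        (z ^ 3 - x) * (-p' ^ 3) := by
      ring
    rw [e3]
    exact Dvd.dvd.mul_right hz _
  · rw [e2]
    refine V_le (c' := (q : Eis) ^ 3 - (z * q') ^ 3) hπ (cast_ne c3) hN4 ?_ (dvd_sub3 ht)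
    have e3 : (q : Eis) ^ 3 - (z * q') ^ 3 - ((q ^ 3 - x * q' ^ 3 : Eis) : Eis) =
        (z ^ 3 - x) * (-q' ^ 3) := by
      ring
    rw [e3]
    exact Dvd.dvd.mul_right hz _

theorem sum_dvd {π : Eis} {b x p q p' q' : Eis} (hS : SolE b x p q p' q') {N : ℕ} {r z : Eis}
    (hr : π ^ N ∣ r ^ 3 - (b : Eis)) (hz : π ^ N ∣ z ^ 3 - (x : Eis)) :
    π ^ N ∣ (p : Eis) ^ 3 + (-(z * p')) ^ 3 + (r * q) ^ 3 + (-(z * (r * q'))) ^ 3 := by
  obtain ⟨u, hu⟩ := hr
  obtain ⟨v, hv⟩ := hz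
  have h1 : (p : Eis) ^ 3 + b * q ^ 3 = x * (p' ^ 3 + b * q' ^ 3) := by
    exact hS.eq
  refine ⟨u * (q ^ 3 - z ^ 3 * q' ^ 3) - v * (p' ^ 3 + b * q' ^ 3), ?_⟩
  linear_combination ((q : Eis) ^ 3 - z ^ 3 * q' ^ 3) * hu -
    ((p' : Eis) ^ 3 + b * q' ^ 3) * hv + h1

/-- The identity for one cube root `z` of `x`, in the nondegenerate case. -/
theorem core {π : Eis} {s : Eis → Eis → ZMod 3} {e : ℕ} (hs : LSym π s e)
    (b x p q p' q' : Eis) (hb : b ≠ 0) (hx : x ≠ 0) (hS : SolE b x p q p' q') :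
    ∃ K : ℕ, ∀ (M N : ℕ), K + 3 * M ≤ N → ∀ r z : Eis, π ^ N ∣ r ^ 3 - (b : Eis) →
      π ^ N ∣ z ^ 3 - (x : Eis) →
      ¬ π ^ M ∣ (p + w * (-(z * p')) + w * (r * q) + -(z * (r * q'))) → ∀ B : Eis, B ≠ 0 →
      s (p - w ^ 2 * z * p') B + s (q - w * z * q') B + s (p + w ^ 2 * r * q) B +
        s (p' + w * r * q') B + s (GfE p q p' q' 2) B =
      s (w ^ 2) B + s (p - w * z * p') B + s (q - w ^ 2 * z * q') B + s (p + w * r * q) B +
        s (p' + w ^ 2 * r * q') B + s (GfE p q p' q' 1) B := by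
  have hπ := hs.prime
  have he := hs.pos
  obtain ⟨c1, c2, cG1, cG2⟩ := consts hb hS
  refine ⟨2 * V π (b : Eis) + 2 * V π (x : Eis) + V π ((p ^ 3 + b * q ^ 3 : Eis) : Eis) +
    V π ((p' ^ 3 + b * q' ^ 3 : Eis) : Eis) + V π ((p ^ 3 - x * p' ^ 3 : Eis) : Eis) +
    V π ((q ^ 3 - x * q' ^ 3 : Eis) : Eis) + V π (GfE p q p' q' 2) + e + 1, ?_⟩
  intro M N hN r z hr hz hE B hB
  obtain ⟨⟨-, vQ1⟩, -, vH1⟩ := forms hπ hb hS (by omega) (by omega) (by omega) (by omega) hr hz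
    w_cube
  obtain ⟨⟨vP2, -⟩, vF2, -⟩ := forms hπ hb hS (by omega) (by omega) (by omega) (by omega) hr hz
    w2_cube
  have vr : r ≠ 0 ∧ V π r ≤ V π (b : Eis) := V_le (c' := r ^ 3) hπ (cast_ne hb)
    (by omega : V π (b : Eis) < N) hr (dvd_pow_self r three_ne_zero)
  have vz : z ≠ 0 ∧ V π z ≤ V π (x : Eis) := V_le (c' := z ^ 3) hπ (cast_ne hx)
    (by omega : V π (x : Eis) < N) hz (dvd_pow_self z three_ne_zero)
  obtain ⟨E1, hE1⟩ : ∃ E1 : Eis, E1 = p + w * (-(z * p')) + w * (r * q) + -(z * (r * q')) :=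
    ⟨_, rfl⟩
  obtain ⟨E2, hE2⟩ : ∃ E2 : Eis,
      E2 = p + w ^ 2 * (-(z * p')) + w ^ 2 * (r * q) + -(z * (r * q')) := ⟨_, rfl⟩
  rw [← hE1] at hE
  have hE0 : E1 ≠ 0 := by
    rintro h
    rw [h] at hE
    exact hE (dvd_zero _)
  have hEV : V π E1 < M := by
    by_contra hcon
    exact hE (dvd_V (not_lt.mp hcon))
  have hkey := (sum_dvd hS hr hz).trans
    (key w_rel (p : Eis) (-(z * p')) (r * q) (-(z * (r * q'))))
  rw [← hE1, ← hE2] at hkey
  obtain ⟨F2, hF2⟩ : ∃ F2 : Eis, F2 = p - w ^ 2 * z * p' := ⟨_, rfl⟩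
  obtain ⟨H1, hH1⟩ : ∃ H1 : Eis, H1 = q - w * z * q' := ⟨_, rfl⟩
  obtain ⟨P2, hP2⟩ : ∃ P2 : Eis, P2 = p + w ^ 2 * r * q := ⟨_, rfl⟩
  obtain ⟨Q1, hQ1⟩ : ∃ Q1 : Eis, Q1 = p' + w * r * q' := ⟨_, rfl⟩
  obtain ⟨F1, hF1⟩ : ∃ F1 : Eis, F1 = p - w * z * p' := ⟨_, rfl⟩
  obtain ⟨H2, hH2⟩ : ∃ H2 : Eis, H2 = q - w ^ 2 * z * q' := ⟨_, rfl⟩
  obtain ⟨P1, hP1⟩ : ∃ P1 : Eis, P1 = p + w * r * q := ⟨_, rfl⟩
  obtain ⟨Q2, hQ2⟩ : ∃ Q2 : Eis, Q2 = p' + w ^ 2 * r * q' := ⟨_, rfl⟩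
  obtain ⟨G1, hG1⟩ : ∃ G1 : Eis, G1 = GfE p q p' q' 1 := ⟨_, rfl⟩
  obtain ⟨G2, hG2⟩ : ∃ G2 : Eis, G2 = GfE p q p' q' 2 := ⟨_, rfl⟩
  have eL : ((p : Eis) + w ^ 2 * (-(z * p'))) * (r * q + w * (-(z * (r * q')))) *
      (((p : Eis) + w ^ 2 * (r * q)) * (-(z * p') + w * (-(z * (r * q'))))) *
      (-(z * p') * (r * q) - w ^ 2 * ((p : Eis) * (-(z * (r * q'))))) * E1 ^ 3 =
      F2 * (r * H1) * (P2 * (-(z * Q1))) * (-(z * (r * G2))) * E1 ^ 3 := by
    rw [hF2, hH1, hP2, hQ1, hG2]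
    unfold GfE
    ring
  have eR : w ^ 2 * (((p : Eis) + w * (-(z * p'))) * (r * q + w ^ 2 * (-(z * (r * q')))) *
      (((p : Eis) + w * (r * q)) * (-(z * p') + w ^ 2 * (-(z * (r * q'))))) *
      (-(z * p') * (r * q) - w * ((p : Eis) * (-(z * (r * q'))))) * E2 ^ 3) =
      w ^ 2 * (F1 * (r * H2) * (P1 * (-(z * Q2))) * (-(z * (r * G1))) * E2 ^ 3) := by
    rw [hF1, hH2, hP1, hQ2, hG1]
    unfold GfE
    ring
  rw [eL, eR] at hkey
  rw [← hF2, ← hH1, ← hP2, ← hQ1, ← hF1, ← hH2, ← hP1, ← hQ2, ← hG1, ← hG2]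
  rw [← hF2] at vF2
  rw [← hH1] at vH1
  rw [← hP2] at vP2
  rw [← hQ1] at vQ1
  rw [← hG2] at hN cG2
  obtain ⟨hr0, hrV⟩ := vr
  obtain ⟨hz0, hzV⟩ := vz
  obtain ⟨hF0, hFV⟩ := vF2
  obtain ⟨hH0, hHV⟩ := vH1
  obtain ⟨hP0, hPV⟩ := vP2
  obtain ⟨hQ0, hQV⟩ := vQ1
  have n1 := mul_ne_zero hr0 hH0
  have n2 := mul_ne_zero hF0 n1
  have n3 := mul_ne_zero hz0 hQ0
  have n3' := neg_ne_zero.mpr n3
  have n4 := mul_ne_zero hP0 n3'
  have n5 := mul_ne_zero n2 n4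
  have n6 := mul_ne_zero hr0 cG2
  have n7 := mul_ne_zero hz0 n6
  have n7' := neg_ne_zero.mpr n7
  have n8 := mul_ne_zero n5 n7'
  have n9 := pow_ne_zero 3 hE0
  have n10 := mul_ne_zero n8 n9
  obtain ⟨L, hL⟩ : ∃ L : Eis, L = F2 * (r * H1) * (P2 * (-(z * Q1))) * (-(z * (r * G2))) *
      E1 ^ 3 := ⟨_, rfl⟩
  have hLV : V π L + e ≤ N := by
    rw [hL, V_mul hπ n8 n9, V_mul hπ n5 n7', V_mul hπ n2 n4, V_mul hπ hF0 n1, V_mul hπ hr0 hH0,
      V_mul hπ hP0 n3', V_neg, V_mul hπ hz0 hQ0, V_neg, V_mul hπ hz0 n6, V_mul hπ hr0 cG2,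
      V_pow hπ hE0]
    omega
  rw [← hL] at hkey n10
  obtain ⟨R, hR⟩ : ∃ R : Eis, R = w ^ 2 * (F1 * (r * H2) * (P1 * (-(z * Q2))) *
      (-(z * (r * G1))) * E2 ^ 3) := ⟨_, rfl⟩
  rw [← hR] at hkey
  have hd : π ^ (V π L + e) ∣ R - L := (pow_dvd_pow π hLV).trans hkey
  have hR0 : R ≠ 0 := (V_le hπ n10 (by omega) hd (dvd_refl R)).1
  have hcont := hs.cont L R B n10 hB hd
  rw [hR] at hR0
  have m1 := right_ne_zero_of_mul hR0
  have m0 := left_ne_zero_of_mul hR0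
  have m2 := right_ne_zero_of_mul m1
  have m3 := left_ne_zero_of_mul m1
  have m4 := right_ne_zero_of_mul m3
  have m5 := left_ne_zero_of_mul m3
  have m6 := right_ne_zero_of_mul m5
  have m7 := left_ne_zero_of_mul m5
  have m8 := right_ne_zero_of_mul m7
  have m9 := left_ne_zero_of_mul m7
  have m10 := right_ne_zero_of_mul m8
  have m11 := left_ne_zero_of_mul m6
  have m12 := right_ne_zero_of_mul m6
  have m13 := neg_ne_zero.mp m12
  have m14 := right_ne_zero_of_mul m13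
  have m15 := neg_ne_zero.mp m4
  have m16 := right_ne_zero_of_mul m15
  have m17 := right_ne_zero_of_mul m16
  have hE20 : E2 ≠ 0 := by
    intro h
    rw [h] at m2
    exact m2 (zero_pow three_ne_zero)
  have hsL : s L B = s F2 B + (s r B + s H1 B) + (s P2 B + (s z B + s Q1 B)) +
      (s z B + (s r B + s G2 B)) := by
    rw [hL, hs.mul _ _ _ n8 n9 hB, hs.mul _ _ _ n5 n7' hB, hs.mul _ _ _ n2 n4 hB,
      hs.mul _ _ _ hF0 n1 hB, hs.mul _ _ _ hr0 hH0 hB, hs.mul _ _ _ hP0 n3' hB,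
      s_neg hs hB n3, hs.mul _ _ _ hz0 hQ0 hB, s_neg hs hB n7, hs.mul _ _ _ hz0 n6 hB,
      hs.mul _ _ _ hr0 cG2 hB, s_cube hs hB hE0, add_zero]
  have hsR : s R B = s (w ^ 2) B + (s F1 B + (s r B + s H2 B) + (s P1 B + (s z B + s Q2 B)) +
      (s z B + (s r B + s G1 B))) := by
    rw [hR, hs.mul _ _ _ m0 m1 hB, hs.mul _ _ _ m3 m2 hB, hs.mul _ _ _ m5 m4 hB,
      hs.mul _ _ _ m7 m6 hB, hs.mul _ _ _ m9 m8 hB, hs.mul _ _ _ hr0 m10 hB,
      hs.mul _ _ _ m11 m12 hB, s_neg hs hB m13, hs.mul _ _ _ hz0 m14 hB, s_neg hs hB m15,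
      hs.mul _ _ _ hz0 m16 hB, hs.mul _ _ _ hr0 m17 hB, s_cube hs hB hE20, add_zero]
  rw [hsL, hsR] at hcont
  linear_combination -hcont

/-- Both roots `z`, `w z` cannot be degenerate. -/
theorem not_both {π : Eis} (hπ : Prime π)
    (b x p q p' q' : Eis) (hb : b ≠ 0) (hx : x ≠ 0) (hS : SolE b x p q p' q') :
    ∃ M0 : ℕ, ∀ N : ℕ, M0 ≤ N → ∀ r z : Eis, π ^ N ∣ r ^ 3 - (b : Eis) →
      π ^ N ∣ z ^ 3 - (x : Eis) →
      π ^ M0 ∣ (p + w * (-(z * p')) + w * (r * q) + -(z * (r * q'))) →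
      π ^ M0 ∣ (p + w * (-((w * z) * p')) + w * (r * q) + -((w * z) * (r * q'))) → False := by
  obtain ⟨c1, c2, cG1, cG2⟩ := consts hb hS
  have h30 : (3 : Eis) ≠ 0 := by
    have h := Pool.Agent.PT.IF1.cast_ne (n := 3) (by norm_num)
    rwa [Int.cast_ofNat] at h
  refine ⟨(V π (3 : Eis) + V π (x : Eis) + V π (b : Eis) + V π (GfE p q p' q' 1)) +
    (V π (w - 1 : Eis) + V π (x : Eis) + V π (b : Eis) + V π (p' : Eis) + V π (q' : Eis) + 1),
    ?_⟩
  intro N hN r z hr hz h1 h2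
  obtain ⟨hr0, hrV⟩ : r ≠ 0 ∧ V π r ≤ V π (b : Eis) := V_le (c' := r ^ 3) hπ (cast_ne hb)
    (by omega : V π (b : Eis) < N) hr (dvd_pow_self r three_ne_zero)
  obtain ⟨hz0, hzV⟩ : z ≠ 0 ∧ V π z ≤ V π (x : Eis) := V_le (c' := z ^ 3) hπ (cast_ne hx)
    (by omega : V π (x : Eis) < N) hz (dvd_pow_self z three_ne_zero)
  have hw0 : (w : Eis) ≠ 0 := w_ne
  have hVw : V π (w : Eis) = 0 := by
    apply V_eq_zero
    intro h
    have h3 : π ∣ 1 := by
      rw [← w_cube]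
      exact h.trans (dvd_pow_self w three_ne_zero)
    exact hπ.not_isUnit (isUnit_of_dvd_one h3)
  have hwz : π ^ N ∣ (w * z) ^ 3 - (x : Eis) := by
    have e1 : (w * z) ^ 3 = z ^ 3 := by
      rw [mul_pow, w_cube, one_mul]
    rw [e1]
    exact hz
  -- one degenerate root
  have key1 : ∀ y : Eis, y ≠ 0 → V π y ≤ V π (x : Eis) → π ^ N ∣ y ^ 3 - (x : Eis) →
      ∀ M : ℕ, M ≤ N → π ^ M ∣ (p + w * (-(y * p')) + w * (r * q) + -(y * (r * q'))) →
      π ^ (M - (V π (3 : Eis) + V π (x : Eis) + V π (b : Eis) + V π (GfE p q p' q' 1))) ∣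
        (-(y * p') + r * q) ∧
      π ^ (M - (V π (3 : Eis) + V π (x : Eis) + V π (b : Eis) + V π (GfE p q p' q' 1))) ∣
        ((p : Eis) - y * (r * q')) := by
    intro y hy hyV hyx M hM hE
    have e1 := degen w_cube (p : Eis) (-(y * p')) (r * q) (-(y * (r * q')))
    have e2 : π ^ M ∣ 3 * (-(y * p') + r * q) *
        (-(y * p') * (r * q) - w * ((p : Eis) * (-(y * (r * q'))))) := by
      rw [e1]
      exact dvd_sub (Dvd.dvd.mul_right hE _) ((pow_dvd_pow π hM).trans (sum_dvd hS hr hyx))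
    have e3 : 3 * (-(y * p') + r * q) *
        (-(y * p') * (r * q) - w * ((p : Eis) * (-(y * (r * q'))))) =
        (-(3 * (y * (r * GfE p q p' q' 1)))) * (-(y * p') + r * q) := by
      unfold GfE
      ring
    rw [e3] at e2
    have f1 := mul_ne_zero hr0 cG1
    have f2 := mul_ne_zero hy f1
    have f3 := mul_ne_zero h30 f2
    have e4 := dvd_cancel hπ (neg_ne_zero.mpr f3) (K := V π (3 : Eis) + V π (x : Eis) +
      V π (b : Eis) + V π (GfE p q p' q' 1)) (by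
        rw [V_neg, V_mul hπ h30 f2, V_mul hπ hy f1, V_mul hπ hr0 cG1]
        omega) e2
    refine ⟨e4, ?_⟩
    have e5 : (p : Eis) - y * (r * q') =
        (p + w * (-(y * p')) + w * (r * q) + -(y * (r * q'))) -
          w * (-(y * p') + r * q) := by ring
    rw [e5]
    exact dvd_sub ((pow_dvd_pow π (by omega)).trans hE) (Dvd.dvd.mul_left e4 _)
  obtain ⟨a1, a2⟩ := key1 z hz0 hzV hz _ hN h1
  obtain ⟨a3, a4⟩ := key1 (w * z) (mul_ne_zero hw0 hz0)
    (by rw [V_mul hπ hw0 hz0, hVw, zero_add]; exact hzV) hwz _ hN h2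
  rw [Nat.add_sub_cancel_left] at a1 a2 a3 a4
  have b1 : π ^ (V π (w - 1 : Eis) + V π (x : Eis) + V π (b : Eis) + V π (p' : Eis) +
      V π (q' : Eis) + 1) ∣ (w - 1) * (z * p') := by
    have := dvd_sub a1 a3
    have e1 : -(z * (p' : Eis)) + r * q - (-(w * z * p') + r * q) = (w - 1) * (z * p') := by ring
    rwa [e1] at this
  have b2 : π ^ (V π (w - 1 : Eis) + V π (x : Eis) + V π (b : Eis) + V π (p' : Eis) +
      V π (q' : Eis) + 1) ∣ (w - 1) * (z * (r * q')) := by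
    have := dvd_sub a2 a4
    have e1 : (p : Eis) - z * (r * q') - (p - w * z * (r * q')) = (w - 1) * (z * (r * q')) := by
      ring
    rwa [e1] at this
  by_cases hp : p' = 0
  · have hq : q' ≠ 0 := by
      rintro rfl
      apply c1
      rw [hp]
      ring
    have hqE := cast_ne hq
    have f1 := mul_ne_zero hr0 hqE
    have f2 := mul_ne_zero hz0 f1
    have h3 := le_V hπ (mul_ne_zero w_sub_ne f2) b2
    rw [V_mul hπ w_sub_ne f2, V_mul hπ hz0 f1, V_mul hπ hr0 hqE] at h3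
    omega
  · have hpE := cast_ne hp
    have f2 := mul_ne_zero hz0 hpE
    have h3 := le_V hπ (mul_ne_zero w_sub_ne f2) b1
    rw [V_mul hπ w_sub_ne f2, V_mul hπ hz0 hpE] at h3
    omega

end IF1

open Pool.Agent.PTK.IF1 (consts core not_both forms sum_dvd cast_ne) in
open Pool.Agent.PT.IF1 (key degen le_V dvd_V V_le dvd_cancel two_mul_eq_zero three_mul_eq s_one
  s_neg s_cube w_ne dvd_sub3 dvd_add3 w2_cube w_sub_ne) in
/-- IF1: `α_b α_x = w⁻¹ k_0` modulo cubes. -/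
theorem IF1_thm : Stmt_IF1 := by
  intro π s e hs b x p q p' q' hb hx hS
  have hπ := hs.prime
  have he := hs.pos
  obtain ⟨c1, c2, cG1, cG2⟩ := consts hb hS
  obtain ⟨K, hK⟩ := core hs b x p q p' q' hb hx hS
  obtain ⟨M0, hM0⟩ := not_both hπ b x p q p' q' hb hx hS
  refine ⟨K + 3 * M0 + M0 + V π (b : Eis) + V π ((p ^ 3 + b * q ^ 3 : Eis) : Eis) +
    V π ((p' ^ 3 + b * q' ^ 3 : Eis) : Eis) + V π ((p ^ 3 - x * p' ^ 3 : Eis) : Eis) +
    V π ((q ^ 3 - x * q' ^ 3 : Eis) : Eis) + e + 1, ?_⟩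
  intro r ξ hr hξ B hB
  obtain ⟨N, hN⟩ : ∃ N : ℕ, N = K + 3 * M0 + M0 + V π (b : Eis) +
    V π ((p ^ 3 + b * q ^ 3 : Eis) : Eis) +
    V π ((p' ^ 3 + b * q' ^ 3 : Eis) : Eis) + V π ((p ^ 3 - x * p' ^ 3 : Eis) : Eis) +
    V π ((q ^ 3 - x * q' ^ 3 : Eis) : Eis) + e + 1 := ⟨_, rfl⟩
  rw [← hN] at hr hξ
  have hw1 := w_cube
  have forms1 := fun (t : Eis) (ht : t ^ 3 = 1) => forms hπ hb hS (N := N) (by omega) (by omega)
    (by omega) (by omega) hr hξ ht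
  obtain ⟨⟨⟨nP0, -⟩, nQ0, -⟩, ⟨nF0, -⟩, nH0, -⟩ := forms1 1 (one_pow 3)
  obtain ⟨⟨⟨nP1, -⟩, nQ1, -⟩, ⟨nF1, -⟩, nH1, -⟩ := forms1 w w_cube
  obtain ⟨⟨⟨nP2, -⟩, nQ2, -⟩, ⟨nF2, -⟩, nH2, -⟩ := forms1 (w ^ 2) w2_cube
  -- the main equation
  have hmain : s (p - w ^ 2 * ξ * p') B + s (q - w * ξ * q') B + s (p + w ^ 2 * r * q) B +
        s (p' + w * r * q') B + s (GfE p q p' q' 2) B =
      s (w ^ 2) B + s (p - w * ξ * p') B + s (q - w ^ 2 * ξ * q') B + s (p + w * r * q) B +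
        s (p' + w ^ 2 * r * q') B + s (GfE p q p' q' 1) B := by
    by_cases h1 : π ^ M0 ∣ ((p : Eis) + w * (-((ξ : Eis) * p')) + w * ((r : Eis) * q) +
        -((ξ : Eis) * (r * q')))
    swap
    · exact hK M0 N (by omega) r ξ hr hξ h1 B hB
    by_cases h2 : π ^ M0 ∣ ((p : Eis) + w * (-((w * (ξ : Eis)) * p')) + w * ((r : Eis) * q) +
        -((w * (ξ : Eis)) * (r * q')))
    · exact absurd (hM0 N (by omega) r ξ hr hξ h1 h2) id
    have hwz : π ^ N ∣ (w * (ξ : Eis)) ^ 3 - (x : Eis) := by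
      have e1 : (w * (ξ : Eis)) ^ 3 = (ξ : Eis) ^ 3 := by
        rw [mul_pow, w_cube, one_mul]
      rw [e1]
      exact hξ
    have h3 := hK M0 N (by omega) r (w * ξ) hr hwz h2 B hB
    have e1 : (p : Eis) - w ^ 2 * (w * ξ) * p' = p - 1 * ξ * p' := by
      linear_combination (-(ξ : Eis) * p') * hw1
    have e2 : (q : Eis) - w * (w * ξ) * q' = q - w ^ 2 * ξ * q' := by ring
    have e3 : (p : Eis) - w * (w * ξ) * p' = p - w ^ 2 * ξ * p' := by ring
    have e4 : (q : Eis) - w ^ 2 * (w * ξ) * q' = q - 1 * ξ * q' := by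
      linear_combination (-(ξ : Eis) * q') * hw1
    rw [e1, e2, e3, e4] at h3
    -- the sums
    have hrel := w_rel
    have g1 : s (p - 1 * ξ * p') B + s (p - w * ξ * p') B + s (p - w ^ 2 * ξ * p') B =
        s ((p ^ 3 - x * p' ^ 3 : Eis) : Eis) B := by
      rw [← hs.mul _ _ _ nF0 nF1 hB, ← hs.mul _ _ _ (mul_ne_zero nF0 nF1) nF2 hB]
      apply hs.cont _ _ _ (cast_ne hS.n2) hB
      have e5 : ((p : Eis) - 1 * ξ * p') * (p - w * ξ * p') * (p - w ^ 2 * ξ * p') -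
          ((p ^ 3 - x * p' ^ 3 : Eis) : Eis) = ((ξ : Eis) ^ 3 - x) * (-p' ^ 3) := by
        linear_combination (-(p : Eis) ^ 2 * (ξ * p') + w * p * (ξ * p') ^ 2 -
          (w - 1) * ((ξ : Eis) * p') ^ 3) * hrel
      rw [e5]
      exact Dvd.dvd.mul_right ((pow_dvd_pow π (by omega)).trans hξ) _
    have c3 : q ^ 3 - x * q' ^ 3 ≠ 0 := by
      intro h
      apply c2
      linear_combination -h
    have g2 : s (q - 1 * ξ * q') B + s (q - w * ξ * q') B + s (q - w ^ 2 * ξ * q') B =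
        s ((q ^ 3 - x * q' ^ 3 : Eis) : Eis) B := by
      rw [← hs.mul _ _ _ nH0 nH1 hB, ← hs.mul _ _ _ (mul_ne_zero nH0 nH1) nH2 hB]
      apply hs.cont _ _ _ (cast_ne c3) hB
      have e5 : ((q : Eis) - 1 * ξ * q') * (q - w * ξ * q') * (q - w ^ 2 * ξ * q') -
          ((q ^ 3 - x * q' ^ 3 : Eis) : Eis) = ((ξ : Eis) ^ 3 - x) * (-q' ^ 3) := by
        linear_combination (-(q : Eis) ^ 2 * (ξ * q') + w * q * (ξ * q') ^ 2 -
          (w - 1) * ((ξ : Eis) * q') ^ 3) * hrel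
      rw [e5]
      exact Dvd.dvd.mul_right ((pow_dvd_pow π (by omega)).trans hξ) _
    have g3 : s ((p ^ 3 - x * p' ^ 3 : Eis) : Eis) B = s ((q ^ 3 - x * q' ^ 3 : Eis) : Eis) B := by
      have e5 : ((p ^ 3 - x * p' ^ 3 : Eis) : Eis) = -((b : Eis) *
          ((q ^ 3 - x * q' ^ 3 : Eis) : Eis)) := by
        have e6 : (p ^ 3 - x * p' ^ 3 : Eis) = -(b * (q ^ 3 - x * q' ^ 3)) := by
          have h6 := hS.eq
          linear_combination h6
        rw [e6]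
      have hbE := cast_ne hb
      have hcE := cast_ne c3
      rw [e5, s_neg hs hB (mul_ne_zero hbE hcE), hs.mul _ _ _ hbE hcE hB]
      have e7 : s (b : Eis) B = 0 := by
        have hr0 : (r : Eis) ≠ 0 := (V_le (c' := (r : Eis) ^ 3) hπ hbE
          (by omega : V π (b : Eis) < N) hr (dvd_pow_self (r : Eis) three_ne_zero)).1
        rw [← hs.cont (b : Eis) ((r : Eis) ^ 3) B hbE hB ((pow_dvd_pow π (by omega)).trans hr),
          s_cube hs hB hr0]
      rw [e7, zero_add]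
    have t1 := three_mul_eq (s ((p : Eis) - w ^ 2 * ξ * p') B)
    have t2 := three_mul_eq (s ((q : Eis) - w ^ 2 * ξ * q') B)
    linear_combination h3 + t1 - t2 - g1 + g2 - g3
  -- conclusion
  have f1 : LfE p q 2 r = p + w ^ 2 * r * q := by
    unfold LfE
    ring
  have f2 : LfE p' q' 1 r = p' + w * r * q' := by
    unfold LfE
    ring
  have f3 : LfE p q 1 r = p + w * r * q := by
    unfold LfE
    ring
  have f4 : LfE p' q' 2 r = p' + w ^ 2 * r * q' := by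
    unfold LfE
    ring
  have f5 : LfE p (-p') 2 ξ = p - w ^ 2 * ξ * p' := by
    unfold LfE
    ring
  have f6 : LfE (-q) q' 1 ξ = -(q - w * ξ * q') := by
    unfold LfE
    ring
  have f7 : LfE p (-p') 1 ξ = p - w * ξ * p' := by
    unfold LfE
    ring
  have f8 : LfE (-q) q' 2 ξ = -(q - w ^ 2 * ξ * q') := by
    unfold LfE
    ring
  unfold ASE
  rw [f1, f2, f3, f4, f5, f6, f7, f8, hs.skew _ _ nP2 hB, hs.skew _ _ nQ1 hB,
    hs.skew _ _ nP1 hB, hs.skew _ _ nQ2 hB, hs.skew _ _ nF2 hB,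
    hs.skew _ _ (neg_ne_zero.mpr nH1) hB, hs.skew _ _ nF1 hB,
    hs.skew _ _ (neg_ne_zero.mpr nH2) hB, s_neg hs hB nH1, s_neg hs hB nH2,
    hs.skew _ _ cG1 hB, hs.skew _ _ cG2 hB]
  have hw2 : s (w ^ 2) B = s w B + s w B := by
    rw [pow_two, hs.mul _ _ _ w_ne w_ne hB]
  rw [hw2] at hmain
  have t3 := three_mul_eq (s w B)
  linear_combination -hmain - t3

end Pool.Agent.PTK


end

section

/-!
# PTK_JPZ: joint averages, `q = 1 (mod 3)`, zero pattern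
-/

set_option autoImplicit false

open NumberField IsDedekindDomain Finset
open scoped nonZeroDivisors Pointwise

namespace Pool.Agent.PTK

open Pool.Agent.Lib_helper18 Pool.Agent.Lib_helper18.Eis Pool.Agent.Lib_helper84.Cub
open Pool.Agent.PT Pool.Agent.PTE Pool.Agent.PT3 Pool.Agent.PTL Pool.Agent.PTN

namespace JPZ

theorem Esk_nonneg (s : ℕ) (F : ℕ → ℝ) (hF : ∀ c, 0 ≤ F c) : 0 ≤ Esk s F := by
  unfold Esk
  haveI := Fintype.ofFinite {M : Matrix (Fin s) (Fin s) (ZMod 3) // M.transpose = -M}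
  rw [finsum_eq_sum_of_fintype]
  exact div_nonneg (Finset.sum_nonneg fun M _ => hF _) (Nat.cast_nonneg _)

end JPZ

open _root_.Pool.Agent.PTK.JPZ in
theorem JPZ_thm (hWSM : Stmt_WSM) (hKUM : Stmt_KUM) (hMTZ : Stmt_MTZ) : Stmt_JPZ := by
  intro h n m k π p e r f w0 c s τ b X Y P Q P' Q' hNF hh hS k₀ F hF hF0
  have hFn : ∀ c, 0 ≤ F c := fun c => hF0.trans (hF (Nat.zero_le c))
  refine hWSM h n m k π p e r f w0 c hNF hh k₀
    (fun E => {q | q % 3 = 1 ∧ InCT E π w0 c q ∧ q ∈ ZP b})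
    (fun E q => F (kS h n b X Y P Q P' Q' E q)) (Esk s F * (1 / 3 ^ s / 3 ^ (m + 1)))
    (mul_nonneg (Esk_nonneg s F hFn) (by positivity)) (fun E q => hFn _) ?_
  intro M N y α β hT
  have h1 := hKUM
    (fun E => {q | q ∈ {q | q % 3 = 1 ∧ InCT E π w0 c q ∧ q ∈ ZP b} ∧
      ∀ j, Occ (BB h n E q) (zN π e (y (α j)))})
    (fun E q => kS h n b X Y P Q P' Q' E q) s 0 (1 / 3 ^ s / 3 ^ N / 3 ^ (m + 1))
    (by positivity) (fun E q _ _ _ _ => Nat.sub_le _ _) ?_ F hF hF0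
  · have e1 : Esk s F * (1 / 3 ^ s / 3 ^ N / 3 ^ (m + 1)) =
        Esk s F * (1 / 3 ^ s / 3 ^ (m + 1)) / 3 ^ N := by
      field_simp
    rw [e1] at h1
    exact h1
  · intro t
    obtain ⟨K, hK⟩ := hMTZ h n m k π p e r f w0 c s τ b X Y P Q P' Q' hNF hh hS M N y α β hT t
    refine ⟨K, fun σ h1 h2 => ?_⟩
    have h3 := hK σ h1 h2
    have hset : ∀ E : ℕ, {q | q ∈ {q | q ∈ {q | q % 3 = 1 ∧ InCT E π w0 c q ∧ q ∈ ZP b} ∧
        ∀ j, Occ (BB h n E q) (zN π e (y (α j)))} ∧ t ≤ kS h n b X Y P Q P' Q' E q} =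
        {q | (q ∈ QM h n π e w0 c y α 1 E ∧ q ∈ ZP b) ∧
          t ≤ kS h n b X Y P Q P' Q' E q} := by
      intro E
      ext q
      refine and_congr_left fun _ => ?_
      constructor
      · rintro ⟨⟨a1, a2, a3⟩, a4⟩
        exact ⟨⟨a1, a2, a4⟩, a3⟩
      · rintro ⟨⟨a1, a2, a4⟩, a3⟩
        exact ⟨⟨a1, a2, a3⟩, a4⟩
    rw [← hset, ← hset] at h3
    exact h3

end Pool.Agent.PTK


end

section

/-!
# The law of the ranks of prime twists for every `n`: the theorem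
-/

set_option autoImplicit false

open NumberField IsDedekindDomain Finset
open scoped nonZeroDivisors Pointwise

namespace Pool.Agent.PTN

open Pool.Agent.Lib_helper18 Pool.Agent.Lib_helper18.Eis Pool.Agent.Lib_helper84.Cub
open Pool.Agent.PT Pool.Agent.PTE Pool.Agent.PT3 Pool.Agent.PTL

namespace MAINN

theorem wt_zero_iff {A : ℤ} (hA : ¬ (3 : ℤ) ∣ A) : wt (A ^ 2) = 0 ↔ A % 9 = 1 ∨ A % 9 = 8 := by
  have h := FIN.cls_iff (a := 1) (A := A) (Or.inl rfl) hA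
  have w1 : wt ((1 : ℤ) ^ 2) = 0 := by rw [one_pow, wt_one]
  rw [w1] at h
  rw [← h]
  unfold PTL.Cls
  norm_num

section

variable {f : ℕ} [NeZero f] {m : ℕ} (π : Fin m → PP)

/-- the class of a unit -/
noncomputable def cl (u : (ZMod f)ˣ) : ZMod 3 × (Fin m → ZMod 3) :=
  (wt ((((u : ZMod f).val : ℕ) : ℤ) ^ 2),
    fun i => sym (π i).1 ((((u : ZMod f).val : ℕ) : ℤ) : Eis))

omit [NeZero f] in
theorem kl_iff (u : (ZMod f)ˣ) (x : ZMod 3 × (Fin m → ZMod 3)) :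
    Kl π x.1 x.2 (((u : ZMod f).val : ℕ) : ℤ) ↔ cl π u = x := by
  unfold Kl cl
  constructor
  · rintro ⟨h1, h2⟩
    exact Prod.ext h1 (funext h2)
  · rintro rfl
    exact ⟨rfl, fun _ => rfl⟩

/-- sums over the units -/
theorem sum_units (C : ℝ)
    (hc : ∀ x : ZMod 3 × (Fin m → ZMod 3), (Nat.card {u : (ZMod f)ˣ // cl π u = x} : ℝ) = C)
    (g : ZMod 3 × (Fin m → ZMod 3) → ℝ) :
    ∑ u : (ZMod f)ˣ, g (cl π u) = C * ∑ x, g x := by
  classical
  rw [← Finset.sum_fiberwise Finset.univ (cl π) (fun u => g (cl π u)), Finset.mul_sum]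
  refine Finset.sum_congr rfl fun x _ => ?_
  rw [Finset.sum_congr rfl (g := fun _ => g x) fun u hu => by
    rw [(Finset.mem_filter.1 hu).2]]
  rw [Finset.sum_const, nsmul_eq_mul, ← hc x, Nat.card_eq_fintype_card, Fintype.card_subtype]

end

/-- finitely many primes contribute a constant -/
theorem aboveA_mono {n : ℤ} {a : ℕ} {W W' : ℤ → Prop} {F : ℤ → ℝ} {x : ℝ} (hF : ∀ A, 0 ≤ F A)
    (M : ℕ) (hW : ∀ q e : ℕ, q.Prime → M < q → (e = 1 ∨ e = 2) → W ((q : ℤ) ^ e) →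
      W' ((q : ℤ) ^ e)) (h : AboveA n a W' F x) : AboveA n a W F x := by
  classical
  obtain ⟨K, hK⟩ := h
  refine ⟨K + ∑ e ∈ ({1, 2} : Finset ℕ), ∑ q ∈ Finset.range (M + 1), F (n * (q : ℤ) ^ e),
    fun σ h1 h2 T => ?_⟩
  have key : SumA n a W F σ T ≤ SumA n a W' F σ T +
      ∑ e ∈ ({1, 2} : Finset ℕ), ∑ q ∈ Finset.range (M + 1), F (n * (q : ℤ) ^ e) := by
    unfold SumA
    rw [← Finset.sum_add_distrib]
    refine Finset.sum_le_sum fun e he => ?_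
    have he' : e = 1 ∨ e = 2 := by simpa using he
    have h3 : ∑ q ∈ T, (if q ∈ Finset.range (M + 1) then F (n * (q : ℤ) ^ e) else 0) ≤
        ∑ q ∈ Finset.range (M + 1), F (n * (q : ℤ) ^ e) := by
      rw [← Finset.sum_filter]
      refine Finset.sum_le_sum_of_subset_of_nonneg ?_ fun q _ _ => hF _
      intro q hq
      exact (Finset.mem_filter.1 hq).2
    refine le_trans ?_ (add_le_add_right h3 _)
    rw [← Finset.sum_add_distrib]
    refine Finset.sum_le_sum fun q _ => ?_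
    by_cases hc : q.Prime ∧ q % 3 = a ∧ W ((q : ℤ) ^ e)
    · rw [if_pos hc]
      by_cases hq : M < q
      · rw [if_pos ⟨hc.1, hc.2.1, hW q e hc.1 hq he' hc.2.2⟩]
        have : (0 : ℝ) ≤ if q ∈ Finset.range (M + 1) then F (n * (q : ℤ) ^ e) else 0 := by
          split_ifs
          · exact hF _
          · exact le_rfl
        linarith
      · have hq' : q ∈ Finset.range (M + 1) := Finset.mem_range.2 (by omega)
        rw [if_pos hq']
        have h4 : (q : ℝ) ^ (-σ) ≤ 1 := by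
          apply Real.rpow_le_one_of_one_le_of_nonpos
          · exact_mod_cast hc.1.one_lt.le
          · linarith
        have h5 : F (n * (q : ℤ) ^ e) * (q : ℝ) ^ (-σ) ≤ F (n * (q : ℤ) ^ e) :=
          mul_le_of_le_one_right (hF _) h4
        have h6 : (0 : ℝ) ≤ if q.Prime ∧ q % 3 = a ∧ W' ((q : ℤ) ^ e) then
            F (n * (q : ℤ) ^ e) * (q : ℝ) ^ (-σ) else 0 := by
          split_ifs
          · exact mul_nonneg (hF _) (Real.rpow_nonneg (Nat.cast_nonneg q) _)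
          · exact le_rfl
        linarith
    · rw [if_neg hc]
      have h6 : (0 : ℝ) ≤ if q.Prime ∧ q % 3 = a ∧ W' ((q : ℤ) ^ e) then
          F (n * (q : ℤ) ^ e) * (q : ℝ) ^ (-σ) else 0 := by
        split_ifs
        · exact mul_nonneg (hF _) (Real.rpow_nonneg (Nat.cast_nonneg q) _)
        · exact le_rfl
      have h7 : (0 : ℝ) ≤ if q ∈ Finset.range (M + 1) then F (n * (q : ℤ) ^ e) else 0 := by
        split_ifs
        · exact hF _
        · exact le_rfl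
      linarith
  have := hK σ h1 h2 T
  linarith

theorem n_three {n m k : ℕ} {π : Fin m → PP} {p e : Fin m → ℕ} {r f : Fin k → ℕ}
    (hN : NF n π p e r f) : ¬ 3 ∣ n := by
  rw [hN.eq]
  intro hd
  rcases (Nat.Prime.dvd_mul Nat.prime_three).1 hd with h1 | h1
  · obtain ⟨i, -, hi⟩ := (Prime.dvd_finsetProd_iff Nat.prime_three.prime _).1 h1
    have h2 := Nat.prime_three.dvd_of_dvd_pow hi
    have := hN.p1 i
    omega
  · obtain ⟨i, -, hi⟩ := (Prime.dvd_finsetProd_iff Nat.prime_three.prime _).1 h1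
    have h2 := Nat.prime_three.dvd_of_dvd_pow hi
    have := hN.r2 i
    omega

end MAINN

open _root_.Pool.Agent.PTN.MAINN in
/-- PTN_MAINN -/
theorem MAINN_thm (hNFE : Stmt_NFE) (hNDIM : Stmt_NDIM) (hNSUM : Stmt_NSUM) (hNZER : Stmt_NZER)
    (hCAB : Stmt_CAB) (hALLA : Stmt_ALLA) (hTRU : Stmt_TRU) (hCLN : Stmt_CLN)
    (hCLU : Stmt_CLU) : Stmt_MAINN := by
  classical
  intro N hN0 hcf m0 k0 hm hk
  obtain ⟨h, n, m, k, π, p, e, r, f, hNF, hh, -, hNeq, hm', hk'⟩ := hNFE N hN0 hcf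
  have hmm : m0 = m := by rw [hm, hm']
  have hkk : k0 = k := by rw [hk, hk']
  clear hm hk hm' hk'
  subst hmm hkk hNeq
  have hn3 : ¬ 3 ∣ n := n_three hNF
  have hn3' : ¬ (3 : ℤ) ∣ (n : ℤ) := by
    intro hd
    exact hn3 (by exact_mod_cast hd)
  have : NeZero (9 * (3 ^ h * n)) := ⟨by positivity⟩
  have d3 : (3 ∣ 3 ^ h * n ∧ ¬ 9 ∣ 3 ^ h * n) ↔ h = 1 := by
    have : h = 0 ∨ h = 1 ∨ h = 2 := by omega
    rcases this with rfl | rfl | rfl
    · simp only [pow_zero, one_mul]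
      constructor
      · intro h1
        exact absurd h1.1 hn3
      · intro h1
        exact absurd h1 (by norm_num)
    · simp only [pow_one, iff_true]
      constructor
      · exact Dvd.intro _ rfl
      · intro hd
        apply hn3
        omega
    · constructor
      · intro h1
        exact absurd (Dvd.dvd.mul_right (by norm_num) _) h1.2
      · intro h1
        exact absurd h1 (by norm_num)
  have d30 : ¬ 3 ∣ 3 ^ h * n ↔ h = 0 := by
    have : h = 0 ∨ h = 1 ∨ h = 2 := by omega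
    rcases this with rfl | rfl | rfl
    · simpa using hn3
    · constructor
      · intro h1
        exact absurd (Dvd.dvd.mul_right (by norm_num) _) h1
      · intro h1
        exact absurd h1 (by norm_num)
    · constructor
      · intro h1
        exact absurd (Dvd.dvd.mul_right (by norm_num) _) h1
      · intro h1
        exact absurd h1 (by norm_num)
  have hcast : ((3 ^ h * n : ℕ) : ℤ) = (3 : ℤ) ^ h * n := by push_cast; rfl
  obtain ⟨T1, T2⟩ := hTRU h n m0 k0 π p e r f hNF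
  have hC : ∀ x : ZMod 3 × (Fin m0 → ZMod 3),
      (Nat.card {u : (ZMod (9 * (3 ^ h * n)))ˣ // cl π u = x} : ℝ) =
        ((9 * (3 ^ h * n)).totient : ℝ) / 3 ^ (m0 + 1) := by
    intro x
    have h1 := T1 x.1 x.2
    have h2 : Nat.card {u : (ZMod (9 * (3 ^ h * n)))ˣ //
        Kl π x.1 x.2 (((u : ZMod (9 * (3 ^ h * n))).val : ℕ) : ℤ)} =
        Nat.card {u : (ZMod (9 * (3 ^ h * n)))ˣ // cl π u = x} :=
      Nat.card_congr (Equiv.subtypeEquivRight fun u => kl_iff π u x)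
    rw [h2] at h1
    rw [eq_div_iff (by positivity)]
    exact_mod_cast h1
  refine ⟨⟨fun u => vN h n π p e r (cl π u).1 (cl π u).2,
    fun u => sN h n π p e r (cl π u).1 (cl π u).2, ?_, ?_, ?_, ?_⟩, ?_, ?_⟩
  · intro u
    have hd := hNDIM h n m0 k0 π p e r (cl π u).1 (cl π u).2
    have hu3 : ¬ (3 : ℤ) ∣ (((u : ZMod (9 * (3 ^ h * n))).val : ℕ) : ℤ) := by
      intro hd
      have hd' : 3 ∣ (u : ZMod (9 * (3 ^ h * n))).val := by exact_mod_cast hd
      have hco := ZMod.val_coe_unit_coprime u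
      have h3 : 3 ∣ 9 * (3 ^ h * n) := Dvd.dvd.mul_right (by norm_num) _
      have := Nat.dvd_gcd hd' h3
      rw [hco] at this
      omega
    have key : h = 0 → ((wt ((n : ℤ) ^ 2) + (cl π u).1 = 0) ↔
        ((3 ^ h * n) * (u : ZMod (9 * (3 ^ h * n))).val) % 9 = 1 ∨
        ((3 ^ h * n) * (u : ZMod (9 * (3 ^ h * n))).val) % 9 = 8) := by
      intro h0
      have h1 : ¬ (3 : ℤ) ∣ (n : ℤ) * (((u : ZMod (9 * (3 ^ h * n))).val : ℕ) : ℤ) := by
        intro hd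
        rcases Int.prime_three.dvd_or_dvd hd with h1 | h1
        · exact hn3' h1
        · exact hu3 h1
      have h2 := wt_zero_iff h1
      rw [mul_pow, wt_mul (sq_mod_three hn3') (sq_mod_three hu3)] at h2
      show wt ((n : ℤ) ^ 2) + wt ((((u : ZMod (9 * (3 ^ h * n))).val : ℕ) : ℤ) ^ 2) = 0 ↔ _
      rw [h2]
      have h3 : (3 : ℕ) ^ h * n = n := by rw [h0, pow_zero, one_mul]
      generalize (u : ZMod (9 * (3 ^ h * n))).val = U
      rw [h3]
      constructor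
      · rintro (h4 | h4)
        · left; zify; exact h4
        · right; zify; exact h4
      · rintro (h4 | h4)
        · left; zify at h4; exact h4
        · right; zify at h4; exact h4
    have hcase : h = 0 ∨ h = 1 ∨ h = 2 := by omega
    rcases hcase with h0 | h0 | h0
    · have e1 : (if h = 0 then 0 else 1) = 0 := if_pos h0
      have e2 : (if 3 ∣ 3 ^ h * n ∧ ¬ 9 ∣ 3 ^ h * n then 1 else 0) = 0 :=
        if_neg fun h1 => by have := d3.1 h1; omega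
      have e3 : (if actR h n (cl π u).1 then 1 else 0) = (if ¬ 3 ∣ 3 ^ h * n ∧
          (((3 ^ h * n) * (u : ZMod (9 * (3 ^ h * n))).val) % 9 = 1 ∨
        ((3 ^ h * n) * (u : ZMod (9 * (3 ^ h * n))).val) % 9 = 8) then 1 else 0) := by
        have : actR h n (cl π u).1 ↔ (¬ 3 ∣ 3 ^ h * n ∧
          (((3 ^ h * n) * (u : ZMod (9 * (3 ^ h * n))).val) % 9 = 1 ∨
        ((3 ^ h * n) * (u : ZMod (9 * (3 ^ h * n))).val) % 9 = 8)) := by
          rw [← key h0, d30]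
          unfold actR
          constructor
          · rintro (h1 | h1)
            · omega
            · exact h1
          · intro h1
            exact Or.inr h1
        by_cases hA : actR h n (cl π u).1
        · rw [if_pos hA, if_pos (this.1 hA)]
        · rw [if_neg hA, if_neg fun h1 => hA (this.2 h1)]
      rw [e1, e3] at hd
      rw [e2]
      exact hd
    · have e1 : (if h = 0 then 0 else 1) = 1 := if_neg (by omega)
      have e2 : (if 3 ∣ 3 ^ h * n ∧ ¬ 9 ∣ 3 ^ h * n then 1 else 0) = 1 := if_pos (d3.2 h0)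
      have e3 : (if actR h n (cl π u).1 then 1 else 0) = 0 := if_neg fun h1 => by
        unfold actR at h1
        omega
      have e4 : (if ¬ 3 ∣ 3 ^ h * n ∧
          (((3 ^ h * n) * (u : ZMod (9 * (3 ^ h * n))).val) % 9 = 1 ∨
        ((3 ^ h * n) * (u : ZMod (9 * (3 ^ h * n))).val) % 9 = 8) then 1 else 0) = 0 :=
        if_neg fun h1 => by
          have := d30.1 h1.1
          omega
      rw [e1, e3] at hd
      rw [e2, e4]
      exact hd
    · have e1 : (if h = 0 then 0 else 1) = 1 := if_neg (by omega)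
      have e2 : (if 3 ∣ 3 ^ h * n ∧ ¬ 9 ∣ 3 ^ h * n then 1 else 0) = 0 :=
        if_neg fun h1 => by have := d3.1 h1; omega
      have e3 : (if actR h n (cl π u).1 then 1 else 0) = 1 := if_pos (Or.inl h0)
      have e4 : (if ¬ 3 ∣ 3 ^ h * n ∧
          (((3 ^ h * n) * (u : ZMod (9 * (3 ^ h * n))).val) % 9 = 1 ∨
        ((3 ^ h * n) * (u : ZMod (9 * (3 ^ h * n))).val) % 9 = 8) then 1 else 0) = 0 :=
        if_neg fun h1 => by
          have := d30.1 h1.1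
          omega
      rw [e1, e3] at hd
      rw [e2, e4]
      exact Nat.succ_injective hd
  · rw [finsum_eq_sum_of_fintype]
    rw [sum_units π _ hC fun x => (3 : ℝ) ^ vN h n π p e r x.1 x.2]
    have h1 := hNSUM h n m0 k0 π p e r f hNF
    have h2 : ∑ x : ZMod 3 × (Fin m0 → ZMod 3), (3 : ℝ) ^ vN h n π p e r x.1 x.2 ≤
        5 ^ (m0 + 1) := by exact_mod_cast h1
    have h3 : (0 : ℝ) ≤ ((9 * (3 ^ h * n)).totient : ℝ) / 3 ^ (m0 + 1) := by positivity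
    calc _ ≤ ((9 * (3 ^ h * n)).totient : ℝ) / 3 ^ (m0 + 1) * 5 ^ (m0 + 1) :=
          mul_le_mul_of_nonneg_left h2 h3
      _ = (5 / 3) ^ (m0 + 1) * ((9 * (3 ^ h * n)).totient : ℝ) := by
          rw [div_pow]
          ring
  · have h1 := hNZER h n m0 k0 π p e r f hNF
    have h2 : (2 : ℝ) ^ (m0 + 1) ≤ ∑ x : ZMod 3 × (Fin m0 → ZMod 3),
        (if vN h n π p e r x.1 x.2 = 0 then (1 : ℝ) else 0) := by
      rw [← Finset.sum_filter, Finset.sum_const, nsmul_eq_mul, mul_one]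
      have h3 : Nat.card {x : ZMod 3 × (Fin m0 → ZMod 3) // vN h n π p e r x.1 x.2 = 0 ∧
          ¬ (h = 0 ∧ wt ((n : ℤ) ^ 2) + x.1 = 0)} ≤ (Finset.univ.filter
            fun x : ZMod 3 × (Fin m0 → ZMod 3) => vN h n π p e r x.1 x.2 = 0).card := by
        rw [Nat.card_eq_fintype_card, Fintype.card_subtype]
        apply Finset.card_le_card
        intro x hx
        rw [Finset.mem_filter] at hx ⊢
        exact ⟨hx.1, hx.2.1⟩
      exact_mod_cast h1.trans h3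
    have h4 : (Nat.card {u : (ZMod (9 * (3 ^ h * n)))ˣ //
        vN h n π p e r (cl π u).1 (cl π u).2 = 0} : ℝ) =
        ∑ u : (ZMod (9 * (3 ^ h * n)))ˣ,
          (if vN h n π p e r (cl π u).1 (cl π u).2 = 0 then (1 : ℝ) else 0) := by
      rw [← Finset.sum_filter, Finset.sum_const, nsmul_eq_mul, mul_one,
        Nat.card_eq_fintype_card, Fintype.card_subtype]
    rw [h4, sum_units π _ hC fun x => if vN h n π p e r x.1 x.2 = 0 then (1 : ℝ) else 0]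
    have h3 : (0 : ℝ) ≤ ((9 * (3 ^ h * n)).totient : ℝ) / 3 ^ (m0 + 1) := by positivity
    calc (2 / 3 : ℝ) ^ (m0 + 1) * ((9 * (3 ^ h * n)).totient : ℝ) =
          ((9 * (3 ^ h * n)).totient : ℝ) / 3 ^ (m0 + 1) * 2 ^ (m0 + 1) := by
          rw [div_pow]
          ring
      _ ≤ _ := mul_le_mul_of_nonneg_left h2 h3
  · intro u F hF hF0
    have hcab := hCAB h n m0 k0 π p e r f (cl π u).1 (cl π u).2 hNF hh F hF hF0
    have hFn : ∀ A : ℤ, 0 ≤ F (CubeRank.rr A) := fun A => hF0.trans (hF (Nat.zero_le _))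
    have hW : ∀ q E : ℕ, q.Prime → 9 * (3 ^ h * n) < q → (E = 1 ∨ E = 2) →
        (∃ x : ℤ, ((9 * (3 ^ h * n) : ℕ) : ℤ) ∣ (q : ℤ) ^ E -
          ((u : ZMod (9 * (3 ^ h * n))).val : ℤ) * x ^ 3) →
        Kl π (cl π u).1 (cl π u).2 ((q : ℤ) ^ E) := by
      rintro q E hq hqN hE ⟨x, hx⟩
      refine T2 u (cl π u).1 (cl π u).2 _ x ((kl_iff π u _).2 rfl) ?_ hx
      have h1 : Nat.Coprime q (9 * (3 ^ h * n)) := by
        rw [Nat.Prime.coprime_iff_not_dvd hq]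
        intro hd
        have := Nat.le_of_dvd (Nat.pos_of_ne_zero (NeZero.ne _)) hd
        omega
      exact (Nat.isCoprime_iff_coprime.2 h1).pow_left
    exact ⟨aboveA_mono hFn _ hW hcab.1, aboveA_mono hFn _ hW hcab.2⟩
  · have h1 : ∀ x : ZMod 3 × (Fin m0 → ZMod 3), ∃ M : ℕ, ∀ E q : ℕ, (E = 1 ∨ E = 2) →
        q.Prime → M < q → InCT E π x.1 x.2 q → ∃ d, CubeRank.GenBy (BB h n E q) d := by
      intro x
      obtain ⟨M1, hM1⟩ := (hCLN h n m0 k0 π p e r f x.1 x.2 hNF hh).1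
      obtain ⟨M2, hM2⟩ := (hCLU h n m0 k0 π p e r f x.1 x.2 hNF hh).1
      refine ⟨M1 + M2 + 3, fun E q hE hq hM hI => ?_⟩
      have h3 : q % 3 = 1 ∨ q % 3 = 2 := by
        have : ¬ 3 ∣ q := fun hd => by
          have := (Nat.prime_dvd_prime_iff_eq Nat.prime_three hq).1 hd
          omega
        omega
      rcases h3 with h3 | h3
      · exact ⟨_, hM2 E q hE hq (by omega) h3 hI⟩
      · exact ⟨_, hM1 E q hE hq (by omega) h3 hI⟩
    choose M hM using h1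
    refine ⟨Finset.univ.sup M, fun q E hq hqM hE => ?_⟩
    obtain ⟨d, hd⟩ := hM (wt (((q : ℤ) ^ E) ^ 2), fun i => (E : ZMod 3) * sym (π i).1 (q : Eis)) E q hE
      hq (lt_of_le_of_lt (Finset.le_sup (Finset.mem_univ _)) hqM) ⟨rfl, fun _ => rfl⟩
    have h2 : ((3 ^ h * n : ℕ) : ℤ) * (q : ℤ) ^ E = BB h n E q := by
      rw [hcast]
      rfl
    rw [h2]
    exact CubeRank.gen_rr hd
  · obtain ⟨a1, a2, a3, a4⟩ := hALLA h n m0 k0 π p e r f hNF hh
    have e1 : (if 3 ∣ 3 ^ h * n ∧ ¬ 9 ∣ 3 ^ h * n then 1 else 0) = if h = 1 then 1 else 0 := by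
      by_cases h1 : h = 1
      · rw [if_pos h1, if_pos (d3.2 h1)]
      · rw [if_neg h1, if_neg fun h2 => h1 (d3.1 h2)]
    rw [e1]
    exact ⟨a1, a2, a3, a4⟩

end Pool.Agent.PTN


end

section

/-!
# PTK_MAM: all moments, the theorem
-/

set_option autoImplicit false

open NumberField IsDedekindDomain Finset
open scoped nonZeroDivisors Pointwise

namespace Pool.Agent.PTK

open Pool.Agent.Lib_helper18 Pool.Agent.Lib_helper18.Eis Pool.Agent.Lib_helper84.Cub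
open Pool.Agent.PT Pool.Agent.PTE Pool.Agent.PT3 Pool.Agent.PTL Pool.Agent.PTN

namespace MAM

open MAINN

theorem aW_le (d : ℕ) : aW d ≤ 335 / 108 := by
  unfold aW
  split_ifs <;> norm_num

theorem aW_one {d : ℕ} (h : d ≤ 1) : aW d = 9 / 4 := by
  unfold aW
  rw [if_pos h]

theorem cM_one {d : ℕ} (h : d ≤ 1) (k : ℕ) : cM k d = MoB k := by
  unfold cM
  rw [if_pos h]

theorem cM_le (hGMB : Stmt_GMB) (k d : ℕ) : cM k d * MoB k ≤ 3 * MoB k ^ 2 := by
  obtain ⟨-, -, -, g2, -, g1, -, -⟩ := hGMB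
  have h1 := g1 k
  have h2 := g2 k
  have h3 : cM k d ≤ 3 * MoB k := by
    unfold cM
    split_ifs
    · linarith
    · exact h2
  have h4 : cM k d * MoB k ≤ 3 * MoB k * MoB k :=
    mul_le_mul_of_nonneg_right h3 (by linarith)
  linarith [h4, (by ring : 3 * MoB k * MoB k = 3 * MoB k ^ 2)]

theorem tail_le (hGMB : Stmt_GMB) (k : ℕ) (c : ℝ) (hc : 0 ≤ c) :
    c * MoB k ^ 2 / 3 ^ (k * (2 * k + 1)) ≤ c * (64 / 25) / 3 ^ k ^ 2 := by
  obtain ⟨-, -, -, -, -, -, -, g⟩ := hGMB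
  have h1 := g k
  have h2 : (3 : ℝ) ^ (k * (2 * k + 1)) = 3 ^ (k * (k + 1)) * 3 ^ k ^ 2 := by
    rw [← pow_add]
    congr 1
    ring
  rw [h2, div_le_div_iff₀ (by positivity) (by positivity)]
  have h3 : c * MoB k ^ 2 ≤ c * (64 / 25 * 3 ^ (k * (k + 1))) := mul_le_mul_of_nonneg_left h1 hc
  calc c * MoB k ^ 2 * 3 ^ k ^ 2 ≤ c * (64 / 25 * 3 ^ (k * (k + 1))) * 3 ^ k ^ 2 :=
        mul_le_mul_of_nonneg_right h3 (by positivity)
    _ = c * (64 / 25) * (3 ^ (k * (k + 1)) * 3 ^ k ^ 2) := by ring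

theorem key {h n m : ℕ} (π : Fin m → PP) [NeZero (9 * (3 ^ h * n))] (hn3 : ¬ 3 ∣ n)
    (u : (ZMod (9 * (3 ^ h * n)))ˣ) (h0 : h = 0) : (wt ((n : ℤ) ^ 2) + (cl π u).1 = 0) ↔
        ((3 ^ h * n) * (u : ZMod (9 * (3 ^ h * n))).val) % 9 = 1 ∨
        ((3 ^ h * n) * (u : ZMod (9 * (3 ^ h * n))).val) % 9 = 8 := by
  have hn3' : ¬ (3 : ℤ) ∣ (n : ℤ) := by
    intro hd
    exact hn3 (by exact_mod_cast hd)
  have hu3 : ¬ (3 : ℤ) ∣ (((u : ZMod (9 * (3 ^ h * n))).val : ℕ) : ℤ) := by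
    intro hd
    have hd' : 3 ∣ (u : ZMod (9 * (3 ^ h * n))).val := by exact_mod_cast hd
    have hco := ZMod.val_coe_unit_coprime u
    have h3 : 3 ∣ 9 * (3 ^ h * n) := Dvd.dvd.mul_right (by norm_num) _
    have := Nat.dvd_gcd hd' h3
    rw [hco] at this
    omega
  have h1 : ¬ (3 : ℤ) ∣ (n : ℤ) * (((u : ZMod (9 * (3 ^ h * n))).val : ℕ) : ℤ) := by
    intro hd
    rcases Int.prime_three.dvd_or_dvd hd with h1 | h1
    · exact hn3' h1
    · exact hu3 h1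
  have h2 := wt_zero_iff h1
  rw [mul_pow, wt_mul (sq_mod_three hn3') (sq_mod_three hu3)] at h2
  show wt ((n : ℤ) ^ 2) + wt ((((u : ZMod (9 * (3 ^ h * n))).val : ℕ) : ℤ) ^ 2) = 0 ↔ _
  rw [h2]
  have h3 : (3 : ℕ) ^ h * n = n := by rw [h0, pow_zero, one_mul]
  generalize (u : ZMod (9 * (3 ^ h * n))).val = U
  rw [h3]
  constructor
  · rintro (h4 | h4)
    · left; zify; exact h4
    · right; zify; exact h4
  · rintro (h4 | h4)
    · left; zify at h4; exact h4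
    · right; zify at h4; exact h4

theorem dvd_iff {h n : ℕ} (hn3 : ¬ 3 ∣ n) : 3 ∣ 3 ^ h * n ↔ h ≠ 0 := by
  constructor
  · rintro h1 rfl
    rw [pow_zero, one_mul] at h1
    exact hn3 h1
  · intro h1
    exact (dvd_pow_self 3 h1).mul_right n

theorem dN_le {h n : ℕ} {w0 : ZMod 3} (H : h ≠ 0 ∨ ¬ wt ((n : ℤ) ^ 2) + w0 = 0) :
    dN h n w0 ≤ 1 := by
  unfold dN
  split_ifs with h1 h2
  · norm_num
  · rcases H with H | H
    · exact absurd h2.1 H
    · exact absurd h2.2 H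
  · exact le_rfl

end MAM

open MAINN in
/-- PTK_MAM -/
theorem MAM_thm (hNFE : Stmt_NFE) (hTRU : Stmt_TRU) (hSUMA : Stmt_SUMA) (hGMB : Stmt_GMB)
    (hMTL : Stmt_MTL) (hAMF : Stmt_AMF) (hAM2 : Stmt_AM2) (hAM1 : Stmt_AM1) : Stmt_MAM := by
  classical
  intro N hN0 hcf m0 hm a ha
  obtain ⟨h, n, m, k, π, p, e, r, f, hNF, hh, -, hNeq, hm', -⟩ := hNFE N hN0 hcf
  have hmm : m0 = m := by rw [hm, hm']
  clear hm hm'
  subst hmm hNeq
  have hn3 : ¬ 3 ∣ n := n_three hNF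
  have : NeZero (9 * (3 ^ h * n)) := ⟨by
    have : n ≠ 0 := by
      rintro rfl
      simp at hN0
    positivity⟩
  obtain ⟨-, T2⟩ := hTRU h n m0 k π p e r f hNF
  obtain ⟨a1, a2, a3, a4⟩ := hAMF h n m0 k π p e r f hNF hh a ha
  have mono : ∀ (F : ℤ → ℝ) (W : ℤ → Prop) (x y : ℝ), x ≤ y →
      AboveA ((3 ^ h * n : ℕ) : ℤ) a W F x → AboveA ((3 ^ h * n : ℕ) : ℤ) a W F y :=
    fun F => (hSUMA ((3 ^ h * n : ℕ) : ℤ) a m0 π F).2.2.1
  refine ⟨a1, a2, a3, fun k₀ => ?_, fun h3 => ?_, fun u => ?_⟩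
  · have h1 := hMTL _ _ _ k₀ (2 * k₀ + 1) _ (a3 k₀)
    refine mono _ _ _ _ ?_ h1
    have h2 := MAM.tail_le hGMB k₀ (5 / 3) (by norm_num)
    refine h2.trans (le_of_eq ?_)
    norm_num
  · obtain ⟨b1, b2⟩ := a4 ((MAM.dvd_iff hn3).1 h3)
    refine ⟨b1, b2, fun k₀ => ?_⟩
    have h1 := hMTL _ _ _ k₀ (2 * k₀ + 1) _ (b2 k₀)
    refine mono _ _ _ _ ?_ h1
    have h2 := MAM.tail_le hGMB k₀ 1 (by norm_num)
    rw [one_mul, one_mul] at h2
    exact h2
  · have hW : ∀ q E : ℕ, q.Prime → 9 * (3 ^ h * n) < q → (E = 1 ∨ E = 2) →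
        (∃ x : ℤ, ((9 * (3 ^ h * n) : ℕ) : ℤ) ∣ (q : ℤ) ^ E -
          ((u : ZMod (9 * (3 ^ h * n))).val : ℤ) * x ^ 3) →
        Kl π (cl π u).1 (cl π u).2 ((q : ℤ) ^ E) := by
      rintro q E hq hqN hE ⟨x, hx⟩
      refine T2 u (cl π u).1 (cl π u).2 _ x ((kl_iff π u _).2 rfl) ?_ hx
      have h1 : Nat.Coprime q (9 * (3 ^ h * n)) := by
        rw [Nat.Prime.coprime_iff_not_dvd hq]
        intro hd
        have := Nat.le_of_dvd (Nat.pos_of_ne_zero (NeZero.ne _)) hd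
        omega
      exact (Nat.isCoprime_iff_coprime.2 h1).pow_left
    have h3 : (0 : ℝ) < 3 ^ (m0 + 1) := by positivity
    obtain ⟨c1, c2⟩ : AboveA ((3 ^ h * n : ℕ) : ℤ) a (Kl π (cl π u).1 (cl π u).2)
        (fun A => (CubeRank.rr A : ℝ)) (aW (dN h n (cl π u).1) / 3 ^ (m0 + 1)) ∧
        ∀ k₀ : ℕ, AboveA ((3 ^ h * n : ℕ) : ℤ) a (Kl π (cl π u).1 (cl π u).2)
          (fun A => 3 ^ (k₀ * CubeRank.rr A))
          (cM k₀ (dN h n (cl π u).1) * MoB k₀ / 3 ^ (m0 + 1)) := by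
      rcases ha with rfl | rfl
      · exact hAM1 h n m0 k π p e r f (cl π u).1 (cl π u).2 hNF hh
      · exact hAM2 h n m0 k π p e r f (cl π u).1 (cl π u).2 hNF hh
    refine ⟨?_, fun k₀ => ?_, fun H => ?_⟩
    · exact aboveA_mono (fun A => Nat.cast_nonneg _) _ hW
        (mono _ _ _ _ (div_le_div_of_nonneg_right (MAM.aW_le _) h3.le) c1)
    · exact aboveA_mono (fun A => by positivity) _ hW
        (mono _ _ _ _ (div_le_div_of_nonneg_right (MAM.cM_le hGMB k₀ _) h3.le) (c2 k₀))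
    · have hd : dN h n (cl π u).1 ≤ 1 := by
        refine MAM.dN_le ?_
        by_cases h0 : h = 0
        · right
          rw [MAM.key π hn3 u h0]
          rcases H with H | H
          · exact absurd h0 ((MAM.dvd_iff hn3).1 H)
          · rintro (h4 | h4)
            · exact H.1 h4
            · exact H.2 h4
        · exact Or.inl h0
      rw [MAM.aW_one hd] at c1
      refine ⟨aboveA_mono (fun A => Nat.cast_nonneg _) _ hW c1, fun k₀ => ?_⟩
      have c3 := c2 k₀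
      rw [MAM.cM_one hd, ← pow_two] at c3
      exact aboveA_mono (fun A => by positivity) _ hW c3

end Pool.Agent.PTK


end

section

/-!
# PTK_MSP: the primes with large corank are in `SP`, `SM`
-/

set_option autoImplicit false

open NumberField IsDedekindDomain Finset
open scoped nonZeroDivisors Pointwise

namespace Pool.Agent.PTK

open Pool.Agent.Lib_helper18 Pool.Agent.Lib_helper18.Eis Pool.Agent.Lib_helper84.Cub
open Pool.Agent.PT Pool.Agent.PTE Pool.Agent.PT3 Pool.Agent.PTL Pool.Agent.PTN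

namespace MSP

theorem neg_of_two {x y : ZMod 3} (h : ((2 : ℕ) : ZMod 3) * x = y) : x = -y := by
  rw [← h]
  clear h y
  revert x
  decide

end MSP

open _root_.Pool.Agent.PTK.MSP in
/-- PTK_MSP: the primes with large corank are in `SP`, `SM`. -/
theorem MSP_thm (hDCOT : DCOT) (hTENT : TENT) (hNADT : Stmt_NADT) : Stmt_MSP := by
  classical
  intro h n m k π p e r f w0 c s τ' b X Y P Q P' Q' hNF hh hPl
  have hn0 : 0 < n := PT.FINA.pos_of_nf hNF
  have hN0 : 0 < 3 ^ h * n := Nat.mul_pos (pow_pos (by norm_num) _) hn0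
  have hBB : ∀ E q : ℕ, BB h n E q = ((3 ^ h * n : ℕ) : ℤ) * (q : ℤ) ^ E := by
    intro E q
    unfold BB
    push_cast
    ring
  have hAdN := hPl.adm
  have hSys := hPl.sys
  have hSw := hPl.sw
  have hLam := hPl.lam
  have hAdC : ∀ i, AdC h n π w0 c (b i) := fun i => (hAdN i).1
  have hb0 : ∀ i, b i ≠ 0 := fun i => (hAdC i).ne
  -- the conductor
  have hD : ∀ j i : Fin s, ∃ f₀ : ℕ, 0 < f₀ ∧ (j ≠ i → ∀ f : ℕ, 0 < f → f₀ ∣ f →
      ∃ (C : ZMod 3) (Φ : (ZMod f)ˣ →* Multiplicative (ZMod 3)),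
        ∀ (E q : ℕ) (hQ : q.Coprime f), q.Prime → q % 3 = 2 →
          AG (BB h n E q) (b i) →
          ∀ r : ℤ, (q : ℤ) ∣ r ^ 3 - b j →
            OT (BB h n E q) (b j) (X j) (Y j) (b i) (P j i) (Q j i) (P' j i) (Q' j i) =
            C + E * ((Φ (ZMod.unitOfCoprime q hQ)).toAdd -
              TAUV q (P j i) (Q j i) (P' j i) (Q' j i) r)) := by
    intro j i
    by_cases hji : j = i
    · exact ⟨1, one_pos, fun h => absurd hji h⟩
    · obtain ⟨f₀, h0, h1⟩ := hDCOT (3 ^ h * n) (b j) (X j) (Y j) (b i) (P j i) (Q j i) (P' j i)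
        (Q' j i) hN0 (hSys.sol j i hji) (hb0 j) (hb0 i)
      refine ⟨f₀, h0, fun _ f hf hd => ?_⟩
      obtain ⟨C, Φ, h2⟩ := h1 f hf hd
      refine ⟨C, Φ, fun E q hQ hq hq3 hAG r hr => ?_⟩
      rw [hBB] at hAG ⊢
      exact h2 E q hQ hq hq3 hAG r hr
  choose F0 hF0 hF1 using hD
  refine ⟨∏ j, ∏ i, F0 j i, Finset.prod_pos fun j _ => Finset.prod_pos fun i _ => hF0 j i, ?_⟩
  intro F hFpos hdF κ hκ
  have hFd : ∀ j i, F0 j i ∣ F := fun j i =>
    ((Finset.dvd_prod_of_mem (fun i => F0 j i) (mem_univ i)).trans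
      (Finset.dvd_prod_of_mem (fun j => ∏ i, F0 j i) (mem_univ j))).trans hdF
  have hC : ∀ j i : Fin s, ∃ (C : ZMod 3) (Φ : (ZMod F)ˣ →* Multiplicative (ZMod 3)),
      j ≠ i → ∀ (E q : ℕ) (hQ : q.Coprime F), q.Prime → q % 3 = 2 →
          AG (BB h n E q) (b i) →
          ∀ r : ℤ, (q : ℤ) ∣ r ^ 3 - b j →
            OT (BB h n E q) (b j) (X j) (Y j) (b i) (P j i) (Q j i) (P' j i) (Q' j i) =
            C + E * ((Φ (ZMod.unitOfCoprime q hQ)).toAdd -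
              TAUV q (P j i) (Q j i) (P' j i) (Q' j i) r) := by
    intro j i
    by_cases hji : j = i
    · exact ⟨0, 1, fun h => absurd hji h⟩
    · obtain ⟨C, Φ, h⟩ := hF1 j i hji F hFpos (hFd j i)
      exact ⟨C, Φ, fun _ => h⟩
  choose C Φ hC using hC
  let Φ' : (ZMod F)ˣ →* Multiplicative (Fin s → Fin s → ZMod 3) := PT.FINA.assemble Φ
  obtain ⟨M, hM⟩ : ∃ M, M = n + F := ⟨_, rfl⟩
  -- the matrix
  have hmat : ∀ (E q : ℕ), (E = 1 ∨ E = 2) → q.Prime → M < q → q % 3 = 2 → InCT E π w0 c q →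
      ∃ hQ : q.Coprime F, ∀ τ : Fin s → Fin s → ZMod 3,
        (∀ j i, j ≠ i → ∀ r : ℤ, (q : ℤ) ∣ r ^ 3 - b j →
          τ j i = TAUV q (P j i) (Q j i) (P' j i) (Q' j i) r) →
        MaT b X Y P Q P' Q' (BB h n E q) = alt fun j i =>
          C j i + E * ((Φ j i (ZMod.unitOfCoprime q hQ)).toAdd - τ j i) := by
    intro E q hE hq hqM hq3 hIn
    have hqn : ¬ q ∣ n := fun h => by
      have := Nat.le_of_dvd hn0 h
      omega
    have hQ : q.Coprime F := by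
      rw [Nat.Prime.coprime_iff_not_dvd hq]
      intro h
      have := Nat.le_of_dvd hFpos h
      omega
    obtain ⟨hBG, hTy, hiff⟩ := hNADT h n m k π p e r f w0 c E q hNF hh hE hq hq3 hIn hqn
    have hAG : ∀ i, AG (BB h n E q) (b i) := fun i =>
      ((hiff (b i) (hAdC i).supp).1 (hAdN i)).1
    refine ⟨hQ, ?_⟩
    intro τ hτ
    have hent : ∀ j i, j ≠ i → MaT b X Y P Q P' Q' (BB h n E q) j i =
        C j i + E * ((Φ j i (ZMod.unitOfCoprime q hQ)).toAdd - τ j i) := by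
      intro j i hji
      obtain ⟨ρ, hρ⟩ := BFINA.exists_root hq hq3 (b j)
      rw [MaT, if_neg hji, hC j i hji E q hQ hq hq3 (hAG i) ρ hρ, ← hτ j i hji ρ hρ]
    have hanti := (hTENT s τ' b X Y P Q P' Q' (BB h n E q) hSys hSw hBG hAG (hLam _ hTy) hb0).1
    ext j i
    rw [alt]
    rcases lt_trichotomy j i with h | h | h
    · rw [if_pos h, hent j i h.ne]
    · subst h
      rw [if_neg (lt_irrefl _), if_neg (lt_irrefl _), MaT, if_pos rfl]
    · rw [if_neg (not_lt.2 h.le), if_pos h, hanti j i, hent i j h.ne]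
  refine ⟨C, Φ', M, ?_⟩
  intro q t hq hqM hq3
  constructor
  · intro hIn hrr
    obtain ⟨hQ, hm⟩ := hmat 1 q (Or.inl rfl) hq hqM hq3 hIn
    refine ⟨hQ, hq3, ?_, ?_⟩
    · rw [hκ]
      funext i
      refine Fin.cases ?_ (fun i => ?_) i
      · rw [Fin.cons_zero, Fin.cons_zero]
        have h5 := hIn.1
        rw [pow_one] at h5
        exact h5
      · rw [Fin.cons_succ, Fin.cons_succ]
        have h5 := hIn.2 i
        rw [Nat.cast_one, one_mul] at h5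
        exact h5
    · intro τ hτ
      have e1 : (fun j i => C j i + ((1 : ℕ) : ZMod 3) *
          ((Φ j i (ZMod.unitOfCoprime q hQ)).toAdd - τ j i)) =
          C + (Φ' (ZMod.unitOfCoprime q hQ)).toAdd - τ := by
        funext j i
        show C j i + ((1 : ℕ) : ZMod 3) * ((Φ j i (ZMod.unitOfCoprime q hQ)).toAdd - τ j i) =
          C j i + (Φ j i (ZMod.unitOfCoprime q hQ)).toAdd - τ j i
        rw [Nat.cast_one]
        ring
      rw [← e1, ← hm τ hτ]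
      exact hrr
  · intro hIn hrr
    obtain ⟨hQ, hm⟩ := hmat 2 q (Or.inr rfl) hq hqM hq3 hIn
    refine ⟨hQ, hq3, ?_, ?_⟩
    · rw [hκ]
      funext i
      refine Fin.cases ?_ (fun i => ?_) i
      · rw [Fin.cons_zero, Pi.neg_apply, Fin.cons_zero]
        have h5 := hIn.1
        rw [CL.wt_sq2 hq3] at h5
        exact neg_of_two h5
      · rw [Fin.cons_succ, Pi.neg_apply, Fin.cons_succ]
        exact neg_of_two (hIn.2 i)
    · intro τ hτ
      have e1 : (fun j i => C j i + ((2 : ℕ) : ZMod 3) *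
          ((Φ j i (ZMod.unitOfCoprime q hQ)).toAdd - τ j i)) =
          C - (Φ' (ZMod.unitOfCoprime q hQ)).toAdd + τ := by
        funext j i
        show C j i + ((2 : ℕ) : ZMod 3) * ((Φ j i (ZMod.unitOfCoprime q hQ)).toAdd - τ j i) =
          C j i - (Φ j i (ZMod.unitOfCoprime q hQ)).toAdd + τ j i
        rw [show ((2 : ℕ) : ZMod 3) = -1 from by decide]
        ring
      rw [← e1, ← hm τ hτ]
      exact hrr

end Pool.Agent.PTK


end

section

/-!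
# PTK_NFL: existence of the field `K(x^(1/3))`
-/

set_option autoImplicit false

open Polynomial

namespace Pool.Agent.PTK

open Pool.Agent.Lib_helper18 Pool.Agent.Lib_helper18.Eis Pool.Agent.Lib_helper84.Cub
open Pool.Agent.PT

namespace NFL

/-- the field `Q(w)` -/
abbrev F : Type := FractionRing Eis

theorem no_root {x : Eis} (hx : ¬ ∃ c : Eis, c ^ 3 = x) (b : F) : b ^ 3 ≠ algebraMap Eis F x := by
  intro hb
  have h1 : IsIntegral Eis b := IsIntegral.of_pow (n := 3) (by norm_num)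
    (by rw [hb]; exact isIntegral_algebraMap)
  obtain ⟨c, hc⟩ := IsIntegrallyClosed.isIntegral_iff.mp h1
  exact hx ⟨c, IsFractionRing.injective Eis F (by rw [map_pow, hc, hb])⟩

/-- From ring endomorphisms to the final statement. -/
theorem build (x : Eis) (L : Type) [Field L] [CharZero L] (ι : Eis →+* L) (θ : L)
    (σ0 : L →+* L) (inj : Function.Injective ι) (cube : θ ^ 3 = ι x)
    (sθ : σ0 θ = ι w * θ) (sι : ∀ a : Eis, σ0 (ι a) = ι a)
    (rep : ∀ z : L, ∃ (m : ℤ) (a b d : Eis), m ≠ 0 ∧ (m : L) * z = ι a + ι b * θ + ι d * θ ^ 2)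
    (lin : ∀ a b d : Eis, ι a + ι b * θ + ι d * θ ^ 2 = 0 → a = 0 ∧ b = 0 ∧ d = 0) :
    ∃ (L : Type) (_ : Field L) (_ : NumberField L) (ι : Eis →+* L) (θ : L) (σ : L ≃ₐ[ℚ] L),
      CubE x L ι θ σ := by
  classical
  have hfin : FiniteDimensional ℚ L := by
    refine Module.finite_def.mpr ⟨(Finset.range 2 ×ˢ Finset.range 3).image
      (fun ij : ℕ × ℕ => ι w ^ ij.1 * θ ^ ij.2), ?_⟩
    rw [eq_top_iff]
    rintro z -
    obtain ⟨m, a, b, d, hm, h⟩ := rep z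
    have hmL : (m : L) ≠ 0 := Int.cast_ne_zero.mpr hm
    have hs : ∀ i < 2, ∀ j < 3, ι w ^ i * θ ^ j ∈ Submodule.span ℚ
        (((Finset.range 2 ×ˢ Finset.range 3).image
          (fun ij : ℕ × ℕ => ι w ^ ij.1 * θ ^ ij.2) : Finset L) : Set L) := by
      intro i hi j hj
      apply Submodule.subset_span
      rw [Finset.mem_coe, Finset.mem_image]
      exact ⟨(i, j), by simp [hi, hj], rfl⟩
    have he : ∀ a : Eis, ι a = (a.re : L) + (a.im : L) * ι w := by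
      intro a
      conv_lhs => rw [eq_re_add_im a]
      simp
    have hz : z = ((a.re : ℚ) / m) • (ι w ^ 0 * θ ^ 0) + ((a.im : ℚ) / m) • (ι w ^ 1 * θ ^ 0) +
        ((b.re : ℚ) / m) • (ι w ^ 0 * θ ^ 1) + ((b.im : ℚ) / m) • (ι w ^ 1 * θ ^ 1) +
        ((d.re : ℚ) / m) • (ι w ^ 0 * θ ^ 2) + ((d.im : ℚ) / m) • (ι w ^ 1 * θ ^ 2) := by
      apply mul_left_cancel₀ hmL
      rw [h, he a, he b, he d]
      simp only [Rat.smul_def]
      push_cast
      field_simp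
      ring
    rw [hz]
    refine Submodule.add_mem _ (Submodule.add_mem _ (Submodule.add_mem _ (Submodule.add_mem _
      (Submodule.add_mem _ ?_ ?_) ?_) ?_) ?_) ?_ <;>
    exact Submodule.smul_mem _ _ (hs _ (by norm_num) _ (by norm_num))
  have hNF : NumberField L := { to_charZero := inferInstance, to_finiteDimensional := hfin }
  have key : ∀ g : L →+* L, ∃ g' : L ≃ₐ[ℚ] L, ∀ z, g' z = g z := by
    intro g
    have hb : Function.Bijective g.toRatAlgHom :=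
      Algebra.IsAlgebraic.algHom_bijective _
    exact ⟨AlgEquiv.ofBijective g.toRatAlgHom hb, fun z => rfl⟩
  obtain ⟨σ, hσ⟩ := key σ0
  exact ⟨L, inferInstance, hNF, ι, θ, σ, inj, cube, by rw [hσ, sθ], fun a => by rw [hσ, sι],
    rep, lin⟩

end NFL

open Pool.Agent.PTK.NFL in
theorem NFL_thm : Stmt_NFL := by
  intro x hx0 hx
  let f : F[X] := X ^ 3 - C (algebraMap Eis F x)
  have hf : Irreducible f :=
    X_pow_sub_C_irreducible_of_prime Nat.prime_three (fun b => no_root hx b)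
  have : Fact (Irreducible f) := ⟨hf⟩
  have hdeg : f.natDegree = 3 := natDegree_X_pow_sub_C
  have hmonic : f.Monic := monic_X_pow_sub_C _ (by norm_num)
  let L := AdjoinRoot f
  let θ : L := AdjoinRoot.root f
  let ι : Eis →+* L := (AdjoinRoot.of f).comp (algebraMap Eis F)
  have hinj : Function.Injective ι :=
    (AdjoinRoot.of f).injective.comp (IsFractionRing.injective Eis F)
  have hchar : CharZero Eis := ⟨fun a b h => by
    have := congrArg Eis.re h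
    simpa using this⟩
  have hcL : CharZero L := charZero_of_injective_ringHom hinj
  have hcube : θ ^ 3 = ι x := by
    have h := AdjoinRoot.eval₂_root f
    simp only [f, eval₂_sub, eval₂_pow, eval₂_X, eval₂_C] at h
    exact sub_eq_zero.mp h
  -- lin
  have hlin : ∀ a b d : Eis, ι a + ι b * θ + ι d * θ ^ 2 = 0 → a = 0 ∧ b = 0 ∧ d = 0 := by
    intro a b d h
    let g : F[X] := C (algebraMap Eis F a) + C (algebraMap Eis F b) * X +
      C (algebraMap Eis F d) * X ^ 2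
    have hg : AdjoinRoot.mk f g = 0 := by
      simp only [g, map_add, map_mul, map_pow, AdjoinRoot.mk_C, AdjoinRoot.mk_X]
      exact h
    rw [AdjoinRoot.mk_eq_zero] at hg
    have hg0 : g = 0 := by
      by_contra hne
      have h1 := natDegree_le_of_dvd hg hne
      have h2 : g.natDegree ≤ 2 := by
        simp only [g]
        compute_degree
      omega
    have c0 := congrArg (fun q => coeff q 0) hg0
    have c1 := congrArg (fun q => coeff q 1) hg0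
    have c2 := congrArg (fun q => coeff q 2) hg0
    simp [g, coeff_X, coeff_C] at c0 c1 c2
    exact ⟨c0, c1, c2⟩
  -- rep
  have hF : ∀ z : F, ∃ (m : ℤ) (a : Eis), m ≠ 0 ∧ (m : F) * z = algebraMap Eis F a := by
    intro z
    obtain ⟨⟨u, v⟩, huv⟩ := IsLocalization.surj (nonZeroDivisors Eis) z
    have hv : (v : Eis) ≠ 0 := nonZeroDivisors.coe_ne_zero v
    simp only at huv
    refine ⟨(v : Eis).norm, u * conj v, fun h => hv (norm_eq_zero.mp h), ?_⟩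
    have h1 : (((v : Eis).norm : ℤ) : F) = algebraMap Eis F ((v : Eis) * conj v) := by
      rw [mul_conj]; simp
    rw [h1, map_mul, map_mul, ← huv]
    ring
  have hrep : ∀ z : L, ∃ (m : ℤ) (a b d : Eis), m ≠ 0 ∧
      (m : L) * z = ι a + ι b * θ + ι d * θ ^ 2 := by
    intro z
    obtain ⟨g0, rfl⟩ := AdjoinRoot.mk_surjective z
    obtain ⟨g, hgd, hgz⟩ : ∃ g : F[X], g.natDegree < 3 ∧ AdjoinRoot.mk f g0 = AdjoinRoot.mk f g := by
      refine ⟨g0 %ₘ f, ?_, ?_⟩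
      · have := natDegree_modByMonic_lt g0 hmonic (fun h => by
          rw [h] at hdeg; simp at hdeg)
        rwa [hdeg] at this
      · rw [AdjoinRoot.mk_eq_mk]
        exact ⟨g0 /ₘ f, by
          have := modByMonic_add_div g0 f
          linear_combination (-1 : F[X]) * this⟩
    obtain ⟨m0, a, hm0, ha⟩ := hF (g.coeff 0)
    obtain ⟨m1, b, hm1, hb⟩ := hF (g.coeff 1)
    obtain ⟨m2, d, hm2, hd⟩ := hF (g.coeff 2)
    refine ⟨m0 * m1 * m2, ((m1 * m2 : ℤ) : Eis) * a, ((m0 * m2 : ℤ) : Eis) * b, ((m0 * m1 : ℤ) : Eis) * d,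
      by simp [hm0, hm1, hm2], ?_⟩
    have hg3 : g = C (g.coeff 0) + C (g.coeff 1) * X + C (g.coeff 2) * X ^ 2 := by
      conv_lhs => rw [g.as_sum_range' 3 hgd]
      simp [Finset.sum_range_succ, ← C_mul_X_pow_eq_monomial]
    have e : AdjoinRoot.mk f g0 = AdjoinRoot.of f (g.coeff 0) + AdjoinRoot.of f (g.coeff 1) * θ +
        AdjoinRoot.of f (g.coeff 2) * θ ^ 2 := by
      rw [hgz]
      conv_lhs => rw [hg3]
      simp only [map_add, map_mul, map_pow, AdjoinRoot.mk_C, AdjoinRoot.mk_X]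
      rfl
    have ha' : (m0 : L) * AdjoinRoot.of f (g.coeff 0) = ι a := by
      have := congrArg (AdjoinRoot.of f) ha
      rw [map_mul, map_intCast] at this
      exact this
    have hb' : (m1 : L) * AdjoinRoot.of f (g.coeff 1) = ι b := by
      have := congrArg (AdjoinRoot.of f) hb
      rw [map_mul, map_intCast] at this
      exact this
    have hd' : (m2 : L) * AdjoinRoot.of f (g.coeff 2) = ι d := by
      have := congrArg (AdjoinRoot.of f) hd
      rw [map_mul, map_intCast] at this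
      exact this
    rw [e, map_mul, map_mul, map_mul, ← ha', ← hb', ← hd']
    have hm : ((m0 * m1 * m2 : ℤ) : L) = (m0 : L) * m1 * m2 := by
      rw [Int.cast_mul, Int.cast_mul]
    have hi : ∀ k l : ℤ, ι ((k * l : ℤ) : Eis) = (k : L) * l := fun k l => by
      rw [map_intCast, Int.cast_mul]
    rw [hm, hi, hi, hi]
    ring
  have hw3 : ι w ^ 3 = 1 := by rw [← map_pow, w_cube, map_one]
  -- sigma
  let σ0 : L →+* L := AdjoinRoot.lift (AdjoinRoot.of f) (ι w * θ) (by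
    simp only [f, eval₂_sub, eval₂_pow, eval₂_X, eval₂_C]
    rw [mul_pow, hw3, hcube, one_mul]
    exact sub_self _)
  exact build x L ι θ σ0 hinj hcube (AdjoinRoot.lift_root _) (fun a => AdjoinRoot.lift_of _)
    hrep hlin

end Pool.Agent.PTK


end

section

/-!
# PTK_PLE: existence of a system for the plus part
-/

set_option autoImplicit false

open NumberField IsDedekindDomain Finset
open scoped nonZeroDivisors Pointwise

namespace Pool.Agent.PTK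

open Pool.Agent.Lib_helper18 Pool.Agent.Lib_helper18.Eis Pool.Agent.Lib_helper84.Cub
open Pool.Agent.PT Pool.Agent.PTE Pool.Agent.PT3 Pool.Agent.PTL Pool.Agent.PTN

theorem PLE_thm (hNBAS : Stmt_NBAS) (hESYT : ESYT) : Stmt_PLE := by
  intro h n m k π p e r f w0 c hNF hh
  obtain ⟨s, τ, b, X, Y, hs, hadm, hV, hind, h3, hlam, hgen⟩ :=
    hNBAS h n m k π p e r f w0 c hNF hh
  obtain ⟨P, Q, P', Q', hSys, hSw⟩ := hESYT h n m k π p e r f w0 c s b hNF
    (fun i => (hadm i).1) hV hind h3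
  exact ⟨s, τ, b, X, Y, P, Q, P', Q', hs, ⟨hadm, hSys, hSw, hlam, hgen⟩⟩

end Pool.Agent.PTK


end

section

/-!
# The average rank of prime twists, PT: a class of a point that is not a cube gives a point of this class over `K`
-/

set_option autoImplicit false

open NumberField IsDedekindDomain Finset
open scoped nonZeroDivisors Pointwise

namespace Pool.Agent.PTK

open Pool.Agent.Lib_helper18 Pool.Agent.Lib_helper18.Eis Pool.Agent.Lib_helper84.Cub
open Pool.Agent.PT Pool.Agent.PTE Pool.Agent.PT3 Pool.Agent.PTL Pool.Agent.PTN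

namespace PTK_PT

theorem int_ne {n : ℤ} (h : n ≠ 0) : ((n : ℤ) : Eis) ≠ 0 := by
  intro e
  apply h
  have := congrArg Eis.re e
  rwa [intCast_re, zero_re] at this

end PTK_PT

theorem PT_thm : Stmt_PT := by
  intro B x hB _ hc h
  obtain ⟨ζ, g, g', hS, hg, hg', e⟩ := h
  rcases hS with rfl | ⟨x0, y0, z0, _, hz, e0, hζ⟩
  · exfalso
    rw [one_mul] at e
    obtain ⟨t, ht⟩ := (IsIntegrallyClosed.pow_dvd_pow_iff (three_ne_zero)).1
      (Dvd.intro_left x e.symm : g' ^ 3 ∣ g ^ 3)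
    rw [ht, mul_pow, mul_comm] at e
    exact hc ⟨t, mul_right_cancel₀ (pow_ne_zero 3 hg') e⟩
  · have hB' := PTK_PT.int_ne hB
    have hz' := PTK_PT.int_ne hz
    have e1 : (x0 : Eis) ^ 3 + (y0 : Eis) ^ 3 = (B : Eis) * (z0 : Eis) ^ 3 := by
      exact_mod_cast congrArg (fun n : ℤ => (n : Eis)) e0
    have hw := w_rel
    -- the three factors
    have e2 : ((x0 : Eis) + y0) * ((x0 : Eis) + w * y0) * ((x0 : Eis) + w ^ 2 * y0) =
        (B : Eis) * (z0 : Eis) ^ 3 := by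
      rw [← e1]
      linear_combination ((x0 : Eis) ^ 2 * y0 + w * (x0 : Eis) * y0 ^ 2 +
        (w - 1) * (y0 : Eis) ^ 3) * hw
    have n1 : ((x0 : Eis) + y0) * ((x0 : Eis) + w * y0) * ((x0 : Eis) + w ^ 2 * y0) ≠ 0 := by
      rw [e2]
      exact mul_ne_zero hB' (pow_ne_zero 3 hz')
    have n2 : (x0 : Eis) + w ^ 2 * y0 ≠ 0 := right_ne_zero_of_mul n1
    have n3 : w ≠ (0 : Eis) := by
      intro h
      have := w_cube
      rw [h] at this
      norm_num at this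
    have hw3 := w_cube
    generalize ha : w ^ 2 * ((x0 : Eis) + w ^ 2 * y0) = a2
    have na : a2 ≠ 0 := by
      rw [← ha]
      exact mul_ne_zero (pow_ne_zero 2 n3) n2
    refine ⟨g' ^ 2 * g * a2, g' ^ 3, ⟨mul_ne_zero (mul_ne_zero (pow_ne_zero 2 hg') hg) na,
      pow_ne_zero 3 hg', g' * g ^ 2 * (-(z0 : Eis) * a2),
      mul_ne_zero (mul_ne_zero hg' (pow_ne_zero 2 hg)) (mul_ne_zero (neg_ne_zero.2 hz') na), ?_⟩⟩
    have e3 : ζ * (a2 ^ 3 + ζ) = (B : Eis) * (-(z0 : Eis) * a2) ^ 3 := by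
      have k1 : ζ = w * ((x0 : Eis) + w * y0) * a2 ^ 2 := by
        rw [hζ, ← ha]
        linear_combination (-(w ^ 2) * ((x0 : Eis) + w * y0) * ((x0 : Eis) + w ^ 2 * y0) ^ 2) * hw3
      have k2 : a2 + w * ((x0 : Eis) + w * y0) = -((x0 : Eis) + y0) := by
        rw [← ha]
        linear_combination ((x0 : Eis) + (w ^ 2 - w + 1) * y0) * hw
      have k3 : w * ((x0 : Eis) + w * y0) * a2 * ((x0 : Eis) + y0) =
          (B : Eis) * (z0 : Eis) ^ 3 := by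
        rw [← ha, ← e2]
        linear_combination (((x0 : Eis) + y0) * ((x0 : Eis) + w * y0) *
          ((x0 : Eis) + w ^ 2 * y0)) * hw3
      calc ζ * (a2 ^ 3 + ζ) = (w * ((x0 : Eis) + w * y0) * a2 ^ 4) *
            (a2 + w * ((x0 : Eis) + w * y0)) := by
            rw [k1]
            ring
        _ = -(w * ((x0 : Eis) + w * y0) * a2 * ((x0 : Eis) + y0)) * a2 ^ 3 := by
            rw [k2]
            ring
        _ = _ := by
            rw [k3]
            ring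
    linear_combination (g' ^ 3 * g ^ 6) * e3 -
      (g' ^ 3 * g ^ 3 * a2 ^ 3 + g' ^ 3 * (x * g' ^ 3 + ζ * g ^ 3)) * e

end Pool.Agent.PTK


end

section

/-!
# All moments for prime twists, PTX: a point with the same symbols of the linear forms at `λ` (helper8)
-/

set_option autoImplicit false

open NumberField IsDedekindDomain Finset
open scoped nonZeroDivisors Pointwise

namespace Pool.Agent.PTK

open Pool.Agent.Lib_helper18 Pool.Agent.Lib_helper18.Eis Pool.Agent.Lib_helper84.Cub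
open Pool.Agent.PT Pool.Agent.PTE Pool.Agent.PT3 Pool.Agent.PTL Pool.Agent.PTN

namespace PTK_PTX

/-! ### Rational integers -/

theorem cube_close {ν m ν' : ℤ} {e K : ℕ} (hν : ν = 3 ^ e * ν') (h3 : ¬ (3 : ℤ) ∣ ν') (hK : 1 ≤ K)
    (h : (3 : ℤ) ^ (3 * e + 1 + K) ∣ m ^ 3 - ν ^ 3) : (3 : ℤ) ^ (e + K) ∣ m - ν := by
  have h1 : ((3 : ℤ) ^ e) ^ 3 ∣ m ^ 3 := by
    have h2 : ((3 : ℤ) ^ e) ^ 3 ∣ m ^ 3 - ν ^ 3 := by
      refine dvd_trans ?_ h
      rw [← pow_mul]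
      exact pow_dvd_pow _ (by omega)
    have h4 : ((3 : ℤ) ^ e) ^ 3 ∣ ν ^ 3 := by
      rw [hν, mul_pow]
      exact dvd_mul_right _ _
    exact (dvd_sub_left h4).1 h2
  obtain ⟨m', hm'⟩ := (Int.pow_dvd_pow_iff (by norm_num)).1 h1
  have h5 : m ^ 3 - ν ^ 3 = (3 : ℤ) ^ (3 * e) * (m' ^ 3 - ν' ^ 3) := by
    rw [hm', hν, pow_mul']
    ring
  have h6 : (3 : ℤ) ^ (1 + K) ∣ m' ^ 3 - ν' ^ 3 := by
    rw [h5, show 3 * e + 1 + K = 3 * e + (1 + K) by ring, pow_add] at h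
    exact (mul_dvd_mul_iff_left (pow_ne_zero _ (by norm_num))).1 h
  have h7 : (3 : ℤ) ∣ m' - ν' := by
    have h8 : (3 : ℤ) ∣ m' ^ 3 - ν' ^ 3 := dvd_trans (dvd_pow_self _ (by omega)) h6
    have h9 : (3 : ℤ) ∣ m' ^ 3 - m' := by
      obtain ⟨k, r, hk, hr⟩ : ∃ k r : ℤ, m' = 3 * k + r ∧ (r = 0 ∨ r = 1 ∨ r = 2) :=
        ⟨m' / 3, m' % 3, by omega, by omega⟩
      rcases hr with rfl | rfl | rfl <;> rw [hk]
      · exact ⟨9 * k ^ 3 - k, by ring⟩
      · exact ⟨9 * k ^ 3 + 9 * k ^ 2 + 2 * k, by ring⟩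
      · exact ⟨9 * k ^ 3 + 18 * k ^ 2 + 11 * k + 2, by ring⟩
    have h10 : (3 : ℤ) ∣ ν' ^ 3 - ν' := by
      obtain ⟨k, r, hk, hr⟩ : ∃ k r : ℤ, ν' = 3 * k + r ∧ (r = 0 ∨ r = 1 ∨ r = 2) :=
        ⟨ν' / 3, ν' % 3, by omega, by omega⟩
      rcases hr with rfl | rfl | rfl <;> rw [hk]
      · exact ⟨9 * k ^ 3 - k, by ring⟩
      · exact ⟨9 * k ^ 3 + 9 * k ^ 2 + 2 * k, by ring⟩
      · exact ⟨9 * k ^ 3 + 18 * k ^ 2 + 11 * k + 2, by ring⟩
    omega
  obtain ⟨t, ht⟩ := h7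
  obtain ⟨K', rfl⟩ : ∃ K', K = K' + 1 := ⟨K - 1, by omega⟩
  have e1 : m' ^ 3 - ν' ^ 3 = 3 ^ 2 * (t * (ν' ^ 2 + 3 * (ν' * t + t ^ 2))) := by
    have e2 : m' = ν' + 3 * t := by linarith
    rw [e2]
    ring
  have e3 : (3 : ℤ) ^ K' ∣ t * (ν' ^ 2 + 3 * (ν' * t + t ^ 2)) := by
    rw [e1, show 1 + (K' + 1) = 2 + K' by ring, pow_add] at h6
    exact (mul_dvd_mul_iff_left (by norm_num)).1 h6
  have e4 : IsCoprime ((3 : ℤ) ^ K') (ν' ^ 2 + 3 * (ν' * t + t ^ 2)) := by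
    apply IsCoprime.pow_left
    rw [Prime.coprime_iff_not_dvd Int.prime_three]
    intro h11
    have h12 : (3 : ℤ) ∣ ν' ^ 2 := (dvd_add_left (dvd_mul_right _ _)).1 h11
    exact h3 (Int.prime_three.dvd_of_dvd_pow h12)
  have e5 : (3 : ℤ) ^ K' ∣ t := e4.dvd_of_dvd_mul_right e3
  have e6 : m - ν = 3 ^ (e + 1) * t := by
    rw [hm', hν, pow_add]
    linear_combination (3 ^ e : ℤ) * ht
  rw [e6, show e + (K' + 1) = (e + 1) + K' by ring, pow_add]
  exact mul_dvd_mul_left _ e5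

theorem three_dvd_of_lam {k : ℕ} {n : ℤ} (h : lam ^ (2 * k) ∣ (n : Eis)) : (3 : ℤ) ^ k ∣ n := by
  have h1 : lam ^ 2 = 3 * (-w) := by decide
  have h2 : (3 : Eis) ^ k ∣ lam ^ (2 * k) := by
    rw [pow_mul, h1, mul_pow]
    exact dvd_mul_right _ _
  have h3 : (((3 : ℤ) ^ k : ℤ) : Eis) ∣ (n : Eis) := by
    push_cast
    exact h2.trans h
  exact intCast_dvd_intCast.1 h3

theorem lam_dvd_of_three {k : ℕ} {n : ℤ} (h : (3 : ℤ) ^ k ∣ n) : lam ^ (2 * k) ∣ (n : Eis) := by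
  obtain ⟨c, rfl⟩ := h
  push_cast
  rw [three_eq, mul_pow, ← pow_mul]
  exact Dvd.dvd.mul_right (dvd_mul_left _ _) _

theorem V_lam_int {n : ℤ} (hn : n ≠ 0) : V lam (n : Eis) = 2 * padicValInt 3 n := by
  obtain ⟨k, c, h1, h2⟩ := LCL.split hn
  have h3 : padicValInt 3 n = k := by rw [h1]; exact LCL.val_eq h2
  rw [h3]
  have h4 : (n : Eis) = lam ^ (2 * k) * ((-w ^ 2) ^ k * (c : Eis)) := by
    rw [h1]
    push_cast
    rw [three_eq, mul_pow, ← pow_mul]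
    ring
  rw [h4]
  apply V_pow_mul prime_lam
  intro h5
  rcases prime_lam.dvd_or_dvd h5 with h6 | h6
  · have h7 := prime_lam.dvd_of_dvd_pow h6
    rw [dvd_neg] at h7
    exact not_dvd_of_isUnit prime_lam isUnit_w (prime_lam.dvd_of_dvd_pow h7)
  · rw [lam_dvd_iff] at h6
    simp at h6
    exact h2 h6

/-! ### Approximation at `λ` -/

theorem conj_lam : conj lam = lam * (1 + w) := by decide

theorem dvd_conj {N : ℕ} {z : Eis} (h : lam ^ N ∣ z) : lam ^ N ∣ conj z := by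
  obtain ⟨c, rfl⟩ := h
  rw [map_mul, map_pow, conj_lam, mul_pow]
  exact Dvd.dvd.mul_right (dvd_mul_right _ _) _

theorem V_conj_lam {z : Eis} (hz : z ≠ 0) : V lam (conj z) = V lam z := by
  obtain ⟨c, hc, hlc⟩ := V_split prime_lam hz
  have h1 : conj z = lam ^ (V lam z) * ((1 + w) ^ (V lam z) * conj c) := by
    conv_lhs => rw [hc]
    rw [map_mul, map_pow, conj_lam, mul_pow]
    ring
  conv_lhs => rw [h1]
  apply V_pow_mul prime_lam
  intro h5
  rcases prime_lam.dvd_or_dvd h5 with h6 | h6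
  · have h7 := prime_lam.dvd_of_dvd_pow h6
    have h8 : IsUnit (1 + w) := isUnit_iff_norm.2 (by decide)
    exact not_dvd_of_isUnit prime_lam h8 h7
  · apply hlc
    have h7 := dvd_conj (N := 1) (z := conj c) (by rwa [pow_one])
    rwa [conj_conj, pow_one] at h7

theorem V_close {a a' : Eis} (ha : a ≠ 0) (h : lam ^ (V lam a + 1) ∣ a' - a) :
    a' ≠ 0 ∧ V lam a' = V lam a := by
  obtain ⟨c, hc, hlc⟩ := V_split prime_lam ha
  obtain ⟨d, hd⟩ := h
  have h1 : a' = lam ^ (V lam a) * (c + lam * d) := by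
    have h2 : a' = a + lam ^ (V lam a + 1) * d := by rw [← hd]; ring
    rw [h2, pow_succ]
    nth_rewrite 1 [hc]
    ring
  have h3 : ¬ lam ∣ c + lam * d := fun h4 => hlc ((dvd_add_left (dvd_mul_right _ _)).1 h4)
  refine ⟨?_, ?_⟩
  · rw [h1]
    refine mul_ne_zero (pow_ne_zero _ prime_lam.ne_zero) ?_
    intro h4
    rw [h4] at h3
    exact h3 (dvd_zero _)
  · rw [h1]
    exact V_pow_mul prime_lam _ h3

/-! ### The rational integers `R i` -/

/-- the rational integers, `n` the norm of `γ`, `z = γ conj η` -/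
def RR (n : ℤ) (z : Eis) : Fin 3 → ℤ :=
  ![n + n + (z.re + z.re - z.im), -n - z.re - z.im, -n - z.re + (z.im + z.im)]

theorem RR_sum (n : ℤ) (z : Eis) : RR n z 0 + RR n z 1 + RR n z 2 = 0 := by
  change (n + n + (z.re + z.re - z.im)) + (-n - z.re - z.im) + (-n - z.re + (z.im + z.im)) = 0
  ring

theorem RR_0 (n : ℤ) (z : Eis) : ((RR n z 0 : ℤ) : Eis) = n + n + (z + conj z) := by
  change ((n + n + (z.re + z.re - z.im) : ℤ) : Eis) = _
  ext
  · rw [intCast_re]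
    simp only [add_re, intCast_re, conj_re]
    ring
  · rw [intCast_im]
    simp only [add_im, intCast_im, conj_im]
    ring

theorem RR_1 (n : ℤ) (z : Eis) : ((RR n z 1 : ℤ) : Eis) = -n + (w * z + w ^ 2 * conj z) := by
  change ((-n - z.re - z.im : ℤ) : Eis) = _
  rw [w_sq]
  ext
  · rw [intCast_re]
    simp only [add_re, sub_re, neg_re, mul_re, intCast_re, conj_re, conj_im, w_re, w_im, one_re, neg_im,
      sub_im, one_im]
    ring
  · rw [intCast_im]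
    simp only [add_im, sub_re, neg_re, mul_im, intCast_im, conj_re, conj_im, w_re, w_im, one_re, neg_im,
      sub_im, one_im]
    ring

theorem RR_2 (n : ℤ) (z : Eis) : ((RR n z 2 : ℤ) : Eis) = -n + (w ^ 2 * z + w * conj z) := by
  change ((-n - z.re + (z.im + z.im) : ℤ) : Eis) = _
  rw [w_sq]
  ext
  · rw [intCast_re]
    simp only [add_re, sub_re, neg_re, mul_re, intCast_re, conj_re, conj_im, w_re, w_im, one_re, neg_im,
      sub_im, one_im]
    ring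
  · rw [intCast_im]
    simp only [add_im, sub_re, neg_re, mul_im, intCast_im, conj_re, conj_im, w_re, w_im, one_re, neg_im,
      sub_im, one_im]
    ring

section

variable (γ η : Eis)

theorem rho_0 : (γ + η) * conj (γ + η) =
    ((RR γ.norm (γ * conj η) 0 : ℤ) : Eis) + ((η.norm - γ.norm : ℤ) : Eis) := by
  rw [RR_0]
  push_cast
  rw [← mul_conj γ, ← mul_conj η, map_mul, map_add, conj_conj]
  ring

theorem rho_1 : w * ((γ + w * η) * conj (γ + η)) =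
    ((RR γ.norm (γ * conj η) 1 : ℤ) : Eis) + w ^ 2 * ((η.norm - γ.norm : ℤ) : Eis) := by
  rw [RR_1]
  push_cast
  rw [← mul_conj γ, ← mul_conj η, map_mul, map_add, conj_conj]
  linear_combination (γ * conj γ) * w_rel

theorem rho_2 : w ^ 2 * ((γ + w ^ 2 * η) * conj (γ + η)) =
    ((RR γ.norm (γ * conj η) 2 : ℤ) : Eis) + w * ((η.norm - γ.norm : ℤ) : Eis) := by
  rw [RR_2]
  push_cast
  rw [← mul_conj γ, ← mul_conj η, map_mul, map_add, conj_conj]
  linear_combination (γ * conj γ) * w_rel + (w * η * (conj γ + conj η)) * w_cube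

theorem cube_prod : (γ + η) * (γ + w * η) * (γ + w ^ 2 * η) = γ ^ 3 + η ^ 3 := by
  linear_combination (γ ^ 2 * η + w * γ * η ^ 2) * w_rel + η ^ 3 * w_cube

end

theorem w_ne0 : w ≠ (0 : Eis) := isUnit_w.ne_zero

theorem conj_ne {z : Eis} (hz : z ≠ 0) : conj z ≠ 0 := by
  intro h0
  apply hz
  have := congrArg conj h0
  rwa [conj_conj, map_zero] at this

/-- the symbol with `w` of a class of norm a cube -/
theorem sl_w_zero (hSSL : SSL) (hSCJ : SCJ) {b : Eis} (hb : b ≠ 0)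
    (hcb : ∃ t : Eis, b * conj b = t ^ 3) : sl w b = 0 := by
  obtain ⟨t, ht⟩ := hcb
  have hb' := conj_ne hb
  have ht0 : t ≠ 0 := by
    rintro rfl
    rw [zero_pow (by norm_num)] at ht
    exact mul_ne_zero hb hb' ht
  have h1 := hSCJ.2.1 w b w_ne0 hb
  rw [conj_w] at h1
  have h2 := (EHYP.add3_sl hSSL hb').pow w_ne0 2
  rw [h2] at h1
  have hA := EHYP.add3_sl hSSL w_ne0
  have h3 := hA b (conj b) hb hb'
  have h4 := hA.pow ht0 3
  simp only at h3 h4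
  rw [ht, h4] at h3
  have h5 := hSSL.2.1 w b w_ne0 hb
  have h6 := hSSL.2.1 w (conj b) w_ne0 hb'
  have h7 := EHYP.three_zero (sl t w)
  have h8 := EHYP.three_zero (sl w b)
  push_cast at h1 h3
  rw [h7, h5, h6] at h3
  linear_combination 2 * h3 - h1

/-- the valuation and the class of the product -/
theorem key (hLRR : Stmt_LRR) (hSSL : SSL) (hSLC : SLC) (hSCJ : SCJ) (hLCL : LCL) {B : ℤ}
    (hB : B ≠ 0) (hlv : lv B ≠ 1) {a0 a1 a2 g : Eis} {z0 : ℤ} (hz : z0 ≠ 0)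
    (hc : conj a2 = a1) (hs : a0 + a1 + a2 = 0) (hp : a0 * a1 * a2 = (B : Eis) * (z0 : Eis) ^ 3)
    (hg : g ≠ 0) {b : Eis} (hb : b ≠ 0) (hcb : ∃ t : Eis, b * conj b = t ^ 3)
    (hbB : sl b (B : Eis) = 0) :
    ∃ N0 : ℕ, ∀ η : Eis, lam ^ N0 ∣ η ^ 3 - a1 * a2 ^ 2 * g ^ 3 →
      g * a2 + w * η ≠ 0 ∧ g * a2 + w ^ 2 * η ≠ 0 ∧
        sl (g * a2 + w * η) b = sl (g * a2 + w ^ 2 * η) b := by
  have hB' := PTK_PT.int_ne hB
  have hz' := PTK_PT.int_ne hz
  have hn : a0 * a1 * a2 ≠ 0 := by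
    rw [hp]
    exact mul_ne_zero hB' (pow_ne_zero 3 hz')
  have ha2 : a2 ≠ 0 := right_ne_zero_of_mul hn
  have ha1 : a1 ≠ 0 := right_ne_zero_of_mul (left_ne_zero_of_mul hn)
  have ha0 : a0 ≠ 0 := left_ne_zero_of_mul (left_ne_zero_of_mul hn)
  have hc' : conj a1 = a2 := by rw [← hc, conj_conj]
  -- the constants
  obtain ⟨γ, hγ⟩ : ∃ γ, γ = g * a2 := ⟨_, rfl⟩
  obtain ⟨E, hE⟩ : ∃ E, E = a1 * a2 ^ 2 * g ^ 3 := ⟨_, rfl⟩
  obtain ⟨D, hD⟩ : ∃ D, D = g ^ 3 * a2 ^ 2 * a0 := ⟨_, rfl⟩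
  have hγ0 : γ ≠ 0 := by rw [hγ]; exact mul_ne_zero hg ha2
  have hE0 : E ≠ 0 := by
    rw [hE]
    exact mul_ne_zero (mul_ne_zero ha1 (pow_ne_zero _ ha2)) (pow_ne_zero _ hg)
  have hD0 : D ≠ 0 := by
    rw [hD]
    exact mul_ne_zero (mul_ne_zero (pow_ne_zero _ hg) (pow_ne_zero _ ha2)) ha0
  obtain ⟨e, ν', hν, h3ν⟩ := LCL.split (norm_pos hγ0).ne'
  obtain ⟨K, hK⟩ : ∃ K, K = V lam D + V lam E + 5 := ⟨_, rfl⟩
  refine ⟨2 * (3 * e + 1 + K), fun η hη => ?_⟩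
  rw [← hγ]
  rw [← hE] at hη
  -- the sum of the cubes
  have h1 : lam ^ (2 * (3 * e + 1 + K)) ∣ (γ ^ 3 + η ^ 3) - (-D) := by
    have e1 : (γ ^ 3 + η ^ 3) - (-D) = η ^ 3 - E := by
      rw [hγ, hE, hD]
      linear_combination (g ^ 3 * a2 ^ 2) * hs
    rwa [e1]
  have hVD : V lam (-D) = V lam D := V_neg
  obtain ⟨h2, h2'⟩ := V_close (neg_ne_zero.2 hD0) ((pow_dvd_pow lam (by rw [hVD]; omega)).trans h1)
  rw [hVD] at h2'
  have h3 := cube_prod γ η
  have n012 : (γ + η) * (γ + w * η) * (γ + w ^ 2 * η) ≠ 0 := by rw [h3]; exact h2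
  have n2 : γ + w ^ 2 * η ≠ 0 := right_ne_zero_of_mul n012
  have n1 : γ + w * η ≠ 0 := right_ne_zero_of_mul (left_ne_zero_of_mul n012)
  have n0 : γ + η ≠ 0 := left_ne_zero_of_mul (left_ne_zero_of_mul n012)
  refine ⟨n1, n2, ?_⟩
  have hVsum : V lam (γ + η) + V lam (γ + w * η) + V lam (γ + w ^ 2 * η) = V lam D := by
    rw [← h2', ← h3, V_mul prime_lam (mul_ne_zero n0 n1) n2, V_mul prime_lam n0 n1]
  -- `η` and its cube
  obtain ⟨h4, h4'⟩ := V_close hE0 ((pow_dvd_pow lam (by omega)).trans hη)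
  have hη0 : η ≠ 0 := by
    rintro rfl
    exact h4 (by rw [zero_pow (by norm_num)])
  -- the norms
  have h5 : lam ^ (2 * (3 * e + 1 + K)) ∣ ((η.norm ^ 3 - γ.norm ^ 3 : ℤ) : Eis) := by
    have e1 : ((η.norm ^ 3 - γ.norm ^ 3 : ℤ) : Eis) = (η ^ 3 - E) * conj (η ^ 3) + E * conj (η ^ 3 - E) := by
      have e2 : E * conj E = (γ * conj γ) ^ 3 := by
        rw [hE, hγ]
        simp only [map_mul, map_pow, hc, hc']
        ring
      push_cast
      rw [← mul_conj γ, ← mul_conj η, ← e2, map_sub, map_pow]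
      ring
    rw [e1]
    exact dvd_add (Dvd.dvd.mul_right hη _) (Dvd.dvd.mul_left (dvd_conj hη) _)
  have h6 := cube_close hν h3ν (by omega) (three_dvd_of_lam h5)
  have h7 := lam_dvd_of_three h6
  -- the symbols and valuations of the `R i`
  have hcn : conj (γ + η) ≠ 0 := conj_ne n0
  have hVc : V lam (conj (γ + η)) = V lam (γ + η) := V_conj_lam n0
  have hVw : V lam w = 0 := V_eq_zero (not_dvd_of_isUnit prime_lam isUnit_w)
  have hVw2 : V lam (w ^ 2) = 0 := by rw [V_pow prime_lam w_ne0, hVw, mul_zero]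
  have close : ∀ {ρ : Eis} {R : ℤ} {u : Eis}, ρ ≠ 0 → ρ = (R : Eis) + u * ((η.norm - γ.norm : ℤ) : Eis) →
      V lam ρ ≤ 2 * V lam D → R ≠ 0 ∧ V lam (R : Eis) = V lam ρ ∧ ∀ c : Eis, c ≠ 0 → sl (R : Eis) c = sl ρ c := by
    intro ρ R u hρ e1 hV
    have e2 : lam ^ (V lam ρ + 4) ∣ (R : Eis) - ρ := by
      have e3 : (R : Eis) - ρ = -(u * ((η.norm - γ.norm : ℤ) : Eis)) := by rw [e1]; ring
      rw [e3, dvd_neg]
      refine Dvd.dvd.mul_left ((pow_dvd_pow lam ?_).trans h7) _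
      omega
    obtain ⟨e4, e5⟩ := V_close hρ ((pow_dvd_pow lam (by omega)).trans e2)
    refine ⟨?_, e5, fun c hc0 => LSym.cont hSLC _ _ _ hρ hc0 e2⟩
    rintro rfl
    exact e4 (by push_cast; rfl)
  obtain ⟨r0, v0, s0⟩ := close (ρ := (γ + η) * conj (γ + η)) (u := 1) (mul_ne_zero n0 hcn)
    (by rw [one_mul]; exact rho_0 γ η) (by rw [V_mul prime_lam n0 hcn, hVc]; omega)
  obtain ⟨r1, v1, s1⟩ := close (ρ := w * ((γ + w * η) * conj (γ + η)))
    (mul_ne_zero w_ne0 (mul_ne_zero n1 hcn)) (rho_1 γ η)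
    (by rw [V_mul prime_lam w_ne0 (mul_ne_zero n1 hcn), V_mul prime_lam n1 hcn, hVc, hVw]; omega)
  obtain ⟨r2, v2, s2⟩ := close (ρ := w ^ 2 * ((γ + w ^ 2 * η) * conj (γ + η)))
    (mul_ne_zero (pow_ne_zero _ w_ne0) (mul_ne_zero n2 hcn)) (rho_2 γ η)
    (by rw [V_mul prime_lam (pow_ne_zero _ w_ne0) (mul_ne_zero n2 hcn), V_mul prime_lam n2 hcn, hVc,
      hVw2]; omega)
  rw [V_mul prime_lam n0 hcn, hVc] at v0
  rw [V_mul prime_lam w_ne0 (mul_ne_zero n1 hcn), V_mul prime_lam n1 hcn, hVc, hVw] at v1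
  rw [V_mul prime_lam (pow_ne_zero _ w_ne0) (mul_ne_zero n2 hcn), V_mul prime_lam n2 hcn, hVc,
    hVw2] at v2
  have t0 : ∀ c : Eis, c ≠ 0 → sl ((RR γ.norm (γ * conj η) 0 : ℤ) : Eis) c =
      sl (γ + η) c + sl (conj (γ + η)) c := fun c hc0 => by
    rw [s0 c hc0, hSSL.1 _ _ _ n0 hcn hc0]
  have t1 : ∀ c : Eis, c ≠ 0 → sl ((RR γ.norm (γ * conj η) 1 : ℤ) : Eis) c =
      sl w c + (sl (γ + w * η) c + sl (conj (γ + η)) c) := fun c hc0 => by
    rw [s1 c hc0, hSSL.1 _ _ _ w_ne0 (mul_ne_zero n1 hcn) hc0, hSSL.1 _ _ _ n1 hcn hc0]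
  have t2 : ∀ c : Eis, c ≠ 0 → sl ((RR γ.norm (γ * conj η) 2 : ℤ) : Eis) c =
      2 * sl w c + (sl (γ + w ^ 2 * η) c + sl (conj (γ + η)) c) := fun c hc0 => by
    rw [s2 c hc0, hSSL.1 _ _ _ (pow_ne_zero _ w_ne0) (mul_ne_zero n2 hcn) hc0,
      hSSL.1 _ _ _ n2 hcn hc0]
    have := (EHYP.add3_sl hSSL hc0).pow w_ne0 2
    rw [this]
    push_cast
    rfl
  -- the product
  obtain ⟨R, hR⟩ : ∃ R : Fin 3 → ℤ, R = RR γ.norm (γ * conj η) := ⟨_, rfl⟩
  rw [← hR] at r0 r1 r2 v0 v1 v2 t0 t1 t2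
  have hRne : ∀ i, R i ≠ 0 := by
    intro i
    fin_cases i
    · exact r0
    · exact r1
    · exact r2
  have hRsum : R 0 + R 1 + R 2 = 0 := by rw [hR]; exact RR_sum _ _
  have q0 := PTK_PT.int_ne r0
  have q1 := PTK_PT.int_ne r1
  have q2 := PTK_PT.int_ne r2
  have hP0 : R 0 * R 1 * R 2 ≠ 0 := mul_ne_zero (mul_ne_zero r0 r1) r2
  have hDE : D * E = (B : Eis) * (g ^ 2 * (z0 : Eis) * a2) ^ 3 := by
    rw [hD, hE]
    linear_combination (g ^ 6 * a2 ^ 3) * hp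
  have hu : g ^ 2 * (z0 : Eis) * a2 ≠ 0 := mul_ne_zero (mul_ne_zero (pow_ne_zero _ hg) hz') ha2
  -- valuations
  have hlvP : lv (R 0 * R 1 * R 2) = lv B := by
    have e1 : V lam ((R 0 * R 1 * R 2 : ℤ) : Eis) = V lam D + 3 * V lam (γ + η) := by
      push_cast
      rw [V_mul prime_lam (mul_ne_zero q0 q1) q2, V_mul prime_lam q0 q1]
      omega
    have e2 : V lam D + V lam E = V lam (B : Eis) + 3 * V lam (g ^ 2 * (z0 : Eis) * a2) := by
      rw [← V_mul prime_lam hD0 hE0, hDE, V_mul prime_lam hB' (pow_ne_zero _ hu), V_pow prime_lam hu]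
    have e3 : V lam E = 3 * V lam η := by rw [← h4', V_pow prime_lam hη0]
    rw [V_lam_int hP0] at e1
    rw [V_lam_int hB] at e2
    unfold lv
    have e4 : (padicValInt 3 (R 0 * R 1 * R 2) + 3 * (V lam η + 2 * V lam (g ^ 2 * (z0 : Eis) * a2) + V lam (γ + η))) % 3 =
        (padicValInt 3 B) % 3 := by omega
    have e5 := (ZMod.natCast_eq_natCast_iff' _ _ 3).2 e4
    push_cast at e5
    rw [← e5, EHYP.three_zero, add_zero]
  have hlwP : lw (R 0 * R 1 * R 2) = lw B := by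
    have e1 := hLCL.2.2.2.2.1 _ hP0
    have e2 := hLCL.2.2.2.2.1 B hB
    have e3 := hSSL.2.1 _ _ (PTK_PT.int_ne hP0) w_ne0
    have e4 := hSSL.2.1 _ _ hB' w_ne0
    have e5 : sl ((R 0 * R 1 * R 2 : ℤ) : Eis) w = sl (γ ^ 3 + η ^ 3) w := by
      push_cast
      rw [hSSL.1 _ _ _ (mul_ne_zero q0 q1) q2 w_ne0, hSSL.1 _ _ _ q0 q1 w_ne0, t0 w w_ne0, t1 w w_ne0,
        t2 w w_ne0, ← h3, hSSL.1 _ _ _ (mul_ne_zero n0 n1) n2 w_ne0, hSSL.1 _ _ _ n0 n1 w_ne0]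
      linear_combination EHYP.three_zero (sl w w) + EHYP.three_zero (sl (conj (γ + η)) w)
    have e6 : sl (γ ^ 3 + η ^ 3) w = sl (-D) w :=
      LSym.cont hSLC _ _ _ (neg_ne_zero.2 hD0) w_ne0 ((pow_dvd_pow lam (by rw [hVD]; omega)).trans h1)
    have hA := EHYP.add3_sl hSSL w_ne0
    have e7 : sl (-D) w = sl D w := by
      have := hA (-1) D (by simp) hD0
      simp only at this
      rw [neg_one_mul] at this
      rw [this]
      have h8 := hA.neg_one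
      rw [h8, zero_add]
    have e8 : sl (η ^ 3) w = sl E w :=
      LSym.cont hSLC _ _ _ hE0 w_ne0 ((pow_dvd_pow lam (by omega)).trans hη)
    have e9 := hA.pow hη0 3
    have e10 := hA _ _ hD0 hE0
    have e11 := hA _ _ hB' (pow_ne_zero 3 hu)
    have e12 := hA.pow hu 3
    simp only at e9 e10 e11 e12
    rw [hDE, e11, e12] at e10
    push_cast at e9 e10
    have e13 := EHYP.three_zero (sl η w)
    have e14 := EHYP.three_zero (sl (g ^ 2 * (z0 : Eis) * a2) w)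
    have e15 : lw (R 0 * R 1 * R 2) = sl ((R 0 * R 1 * R 2 : ℤ) : Eis) w := by
      linear_combination e1 - e3
    have e16 : lw B = sl (B : Eis) w := by
      linear_combination e2 - e4
    rw [e15, e16, e5, e6, e7]
    linear_combination e14 - e10 - e13 - e9 + e8
  obtain ⟨κ, k1, k2⟩ := hLRR R B hRne hB hRsum hlvP hlwP hlv
  have f1 := HYPT.sl_int hSSL hLCL hb (R 1) r1
  have f2 := HYPT.sl_int hSSL hLCL hb (R 2) r2
  have f3 := HYPT.sl_int hSSL hLCL hb B hB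
  rw [hbB] at f3
  have g1 := hSSL.2.1 _ _ hb q1
  have g2 := hSSL.2.1 _ _ hb q2
  have hw := sl_w_zero hSSL hSCJ hb hcb
  have u1 := t1 b hb
  have u2 := t2 b hb
  linear_combination u2 - u1 + g1 - g2 - f1 + f2 - k1 * sl b 3 + k2 * sl b 4 + κ * f3 + hw

end PTK_PTX

theorem PTX_thm (hLRR : Stmt_LRR) (hSSL : SSL) (hSLC : SLC) (hSCJ : SCJ) (hLCL : LCL) :
    Stmt_PTX := by
  intro B x hB hlv hx hcube h
  obtain ⟨ζ, g, g', hS, hg, hg', e⟩ := h
  rcases hS with rfl | ⟨x0, y0, z0, _, hz, e0, hζ⟩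
  · exfalso
    rw [one_mul] at e
    obtain ⟨t, ht⟩ := (IsIntegrallyClosed.pow_dvd_pow_iff (three_ne_zero)).1
      (Dvd.intro_left x e.symm : g' ^ 3 ∣ g ^ 3)
    rw [ht, mul_pow, mul_comm] at e
    exact hcube ⟨t, mul_right_cancel₀ (pow_ne_zero 3 hg') e⟩
  · have hB' := PTK_PT.int_ne hB
    have hz' := PTK_PT.int_ne hz
    have e1 : (x0 : Eis) ^ 3 + (y0 : Eis) ^ 3 = (B : Eis) * (z0 : Eis) ^ 3 := by
      exact_mod_cast congrArg (fun n : ℤ => (n : Eis)) e0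
    have hw := w_rel
    have hw3 := w_cube
    have n3 := PTK_PTX.w_ne0
    obtain ⟨a0, ha0⟩ : ∃ a0 : Eis, a0 = x0 + y0 := ⟨_, rfl⟩
    obtain ⟨a1, ha1⟩ : ∃ a1 : Eis, a1 = w * (x0 + w * y0) := ⟨_, rfl⟩
    obtain ⟨a2, ha2⟩ : ∃ a2 : Eis, a2 = w ^ 2 * (x0 + w ^ 2 * y0) := ⟨_, rfl⟩
    have hc : conj a2 = a1 := by
      rw [ha2, ha1]
      simp only [map_mul, map_add, map_pow, conj_intCast, conj_w]
      linear_combination (w * (x0 : Eis) + (w ^ 5 + w ^ 2) * (y0 : Eis)) * hw3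
    have hs : a0 + a1 + a2 = 0 := by
      rw [ha0, ha1, ha2]
      linear_combination ((x0 : Eis) + (w ^ 2 - w + 1) * y0) * hw
    have hp : a0 * a1 * a2 = (B : Eis) * (z0 : Eis) ^ 3 := by
      rw [ha0, ha1, ha2, ← e1]
      linear_combination (((x0 : Eis) + y0) * ((x0 : Eis) + w * y0) * ((x0 : Eis) + w ^ 2 * y0)) * hw3 +
        ((x0 : Eis) ^ 2 * y0 + w * (x0 : Eis) * y0 ^ 2 + (w - 1) * (y0 : Eis) ^ 3) * hw
    have hζ' : ζ = a1 * a2 ^ 2 := by
      rw [hζ, ha1, ha2]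
      linear_combination (-(w ^ 2) * ((x0 : Eis) + w * y0) * ((x0 : Eis) + w ^ 2 * y0) ^ 2) * hw3
    have hn : a0 * a1 * a2 ≠ 0 := by
      rw [hp]
      exact mul_ne_zero hB' (pow_ne_zero 3 hz')
    have na : a2 ≠ 0 := right_ne_zero_of_mul hn
    have ng : g' ^ 2 ≠ 0 := pow_ne_zero 2 hg'
    refine ⟨g' ^ 2 * g * a2, g' ^ 3, ⟨mul_ne_zero (mul_ne_zero ng hg) na,
      pow_ne_zero 3 hg', g' * g ^ 2 * (-(z0 : Eis) * a2),
      mul_ne_zero (mul_ne_zero hg' (pow_ne_zero 2 hg)) (mul_ne_zero (neg_ne_zero.2 hz') na), ?_⟩, ?_⟩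
    · have e3 : ζ * (a2 ^ 3 + ζ) = (B : Eis) * (-(z0 : Eis) * a2) ^ 3 := by
        rw [hζ']
        linear_combination (a1 * a2 ^ 4) * hs - a2 ^ 3 * hp
      linear_combination (g' ^ 3 * g ^ 6) * e3 -
        (g' ^ 3 * g ^ 3 * a2 ^ 3 + g' ^ 3 * (x * g' ^ 3 + ζ * g ^ 3)) * e
    · intro b hb _ hcb hbB
      obtain ⟨N0, hN⟩ := PTK_PTX.key hLRR hSSL hSLC hSCJ hLCL hB hlv hz hc hs hp hg hb hcb hbB
      refine ⟨N0, fun ξ hξ => ?_⟩
      obtain ⟨m1, m2, m3⟩ := hN (g' * ξ) (by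
        have e4 : (g' * ξ) ^ 3 - a1 * a2 ^ 2 * g ^ 3 = g' ^ 3 * (ξ ^ 3 - x) := by
          rw [← hζ', e]
          ring
        rw [e4]
        exact Dvd.dvd.mul_left hξ _)
      have f : ∀ i : ℕ, LfE (g' ^ 2 * g * a2) (g' ^ 3) i ξ = g' ^ 2 * (g * a2 + w ^ i * (g' * ξ)) := by
        intro i
        unfold LfE
        ring
      rw [f, f, pow_one, hSSL.1 _ _ _ ng m1 hb, hSSL.1 _ _ _ ng m2 hb, m3]

end Pool.Agent.PTK


end

section

/-!
# PTK_WSB (helper44): the vectors of the classes of points form a subspace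
-/

set_option autoImplicit false

open NumberField IsDedekindDomain Finset
open scoped nonZeroDivisors Pointwise

namespace Pool.Agent.PTK

open Pool.Agent.Lib_helper18 Pool.Agent.Lib_helper18.Eis Pool.Agent.Lib_helper84.Cub
open Pool.Agent.PT Pool.Agent.PTE Pool.Agent.PT3 Pool.Agent.PTL Pool.Agent.PTN

namespace WSB

theorem zN_zero {m : ℕ} (π : Fin m → PP) (e : Fin m → ℕ) : zN π e 0 = 1 := by
  unfold zN
  simp

theorem occ_one (B : ℤ) : Occ B 1 :=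
  ⟨1, 1, 1, Or.inl rfl, one_ne_zero, one_ne_zero, rfl⟩

end WSB

theorem WSB_thm (hZA : Stmt_ZA) (hS1G : Stmt_S1G) : Stmt_WSB := by
  intro h n m k π p e r f w0 c E q hNF hh hE hq hq3 hqn
  have : Fact (Nat.Prime 3) := ⟨Nat.prime_three⟩
  have hB0 : BB h n E q ≠ 0 := NBK0.BB_ne hNF hq
  have hcf := NBK0.cubeFree_BB hNF hh hE hq hq3 hqn
  have h3le : 3 ≤ (BB h n E q).natAbs := NBK0.three_le hNF hE hq hq3
  have hnc : ¬ ∃ t : ℤ, t ^ 3 = BB h n E q :=
    CubeRank.GenPf.not_cube hcf (by rw [Int.abs_eq_natAbs]; exact_mod_cast h3le)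
  have hA := hZA n m k π p e r f hNF
  have hsub : ∀ y ∈ WqS h n π p e r w0 c (BB h n E q), ∀ y' ∈ WqS h n π p e r w0 c (BB h n E q),
      y + -y' ∈ WqS h n π p e r w0 c (BB h n E q) := by
    rintro y ⟨hy, ζ, g, g', hζ, hg, hg', e1⟩ y' ⟨hy', ζ', g2, g2', hζ', hg2, hg2', e2⟩
    obtain ⟨ζ'', a, b, hζ'', ha, hb, e3⟩ := hS1G _ hB0 hcf hnc ζ ζ' hζ hζ'
    obtain ⟨-, -, -, -, -, -, -, -, hadd, -⟩ := hA (y + -y')
    obtain ⟨u, v, hu, hv, e4⟩ := hadd y'
    rw [neg_add_cancel_right] at e4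
    refine ⟨add_mem hy (neg_mem hy'), ζ'', g2' * a * g * v, u * g' * b * g2, hζ'',
      mul_ne_zero (mul_ne_zero (mul_ne_zero hg2' ha) hg) hv,
      mul_ne_zero (mul_ne_zero (mul_ne_zero hu hg') hb) hg2, ?_⟩
    have hz' : zN π e y' ≠ 0 := (hA y').1
    apply mul_right_cancel₀ hz'
    linear_combination (a ^ 3 * g ^ 3 * v ^ 3 * ζ'') * (-e2) + (g ^ 3 * g2 ^ 3 * v ^ 3) * e3 +
      (b ^ 3 * g2 ^ 3 * v ^ 3) * e1 - (g' ^ 3 * b ^ 3 * g2 ^ 3) * e4
  have hne : (WqS h n π p e r w0 c (BB h n E q)).Nonempty :=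
    ⟨0, zero_mem _, by rw [WSB.zN_zero]; exact WSB.occ_one _⟩
  let W : AddSubgroup (Fin (m + 1) → ZMod 3) :=
    AddSubgroup.ofSub (WqS h n π p e r w0 c (BB h n E q)) hne hsub
  exact ⟨AddSubgroup.toZModSubmodule 3 W, fun _ => Iff.rfl⟩

end Pool.Agent.PTK


end
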