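import Mathlib
import Pool.Agent.PTDM.C21
import Pool.Agent.PTDM.C24
import Pool.Agent.PTDM.C27
import Pool.Agent.PTDM.C29
import Pool.Agent.PTDM.C32
import Pool.Agent.PTDM.C42
import Pool.Agent.PTDM.C45
import Pool.Agent.PTDM.C46
import Pool.Agent.PTKM.C01
import Pool.Agent.PTKM.C02
import Pool.Agent.PTKM.C04
import Pool.Agent.PTKM.C07

/-! Parts: PTKX.AVA, PTKX.AMF, PTKX.DX2, PTKX.DX3, PTKX.HNE, PTKX.IIAG, PTKX.MAL, PTKX.CTK, PTKX.MSKU, PTKX.MS1, PTKX.MS2, PTKX.SYK, PTKX.MSY, PTKX.MTU, PTKX.MTZ, PTKX.NBU, PTKX.PRB, PTKX.VDIM -/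

section

/-!
# PTK_AVA: the averages over all `A`
-/

set_option autoImplicit false

open NumberField IsDedekindDomain Finset
open scoped nonZeroDivisors Pointwise

namespace Pool.Agent.PTK

open Pool.Agent.Lib_helper18 Pool.Agent.Lib_helper18.Eis Pool.Agent.Lib_helper84.Cub
open Pool.Agent.PT Pool.Agent.PTE Pool.Agent.PT3 Pool.Agent.PTL Pool.Agent.PTN

namespace AVA

/-- the sum of a function of `dN` over the classes -/
theorem sum_dN (h n m : ℕ) (g : ℕ → ℝ) :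
    ∑ x : ZMod 3 × (Fin m → ZMod 3), g (dN h n x.1) = 3 ^ m * ∑ w0 : ZMod 3, g (dN h n w0) := by
  rw [Fintype.sum_prod_type, Finset.mul_sum]
  refine Finset.sum_congr rfl fun w0 _ => ?_
  show ∑ _y : Fin m → ZMod 3, g (dN h n w0) = 3 ^ m * g (dN h n w0)
  rw [Finset.sum_const, Finset.card_univ, Fintype.card_fun, ZMod.card, Fintype.card_fin,
    nsmul_eq_mul]
  push_cast
  rfl

/-- the sum over `w0` -/
theorem sum_w0 (h n : ℕ) (g : ℕ → ℝ) (M : ℝ) (h0 : 3 * g 0 ≤ M) (h1 : 3 * g 1 ≤ M)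
    (h2 : 2 * g 1 + g 2 ≤ M) : ∑ w0 : ZMod 3, g (dN h n w0) ≤ M := by
  by_cases hh : h = 1
  · have : ∀ w0 : ZMod 3, g (dN h n w0) = g 0 := fun w0 => by
      unfold dN
      rw [if_pos hh]
    rw [Finset.sum_congr rfl fun w0 _ => this w0, Finset.sum_const, Finset.card_univ, ZMod.card,
      nsmul_eq_mul]
    push_cast
    exact h0
  · by_cases hh0 : h = 0
    · have h3 : ∀ w0 : ZMod 3, g (dN h n w0) =
          g 1 + (if w0 = - wt ((n : ℤ) ^ 2) then g 2 - g 1 else 0) := fun w0 => by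
        unfold dN
        rw [if_neg hh]
        by_cases hw : w0 = - wt ((n : ℤ) ^ 2)
        · rw [if_pos hw, if_pos ⟨hh0, by rw [hw, add_neg_cancel]⟩]
          ring
        · rw [if_neg hw, if_neg fun h5 => hw (by rw [← add_eq_zero_iff_eq_neg, add_comm]; exact h5.2)]
          ring
      rw [Finset.sum_congr rfl fun w0 _ => h3 w0, Finset.sum_add_distrib, Finset.sum_const,
        Finset.card_univ, ZMod.card, nsmul_eq_mul, Finset.sum_ite_eq' Finset.univ,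
        if_pos (Finset.mem_univ _)]
      push_cast
      linarith
    · have : ∀ w0 : ZMod 3, g (dN h n w0) = g 1 := fun w0 => by
        unfold dN
        rw [if_neg hh, if_neg fun h5 => hh0 h5.1]
      rw [Finset.sum_congr rfl fun w0 _ => this w0, Finset.sum_const, Finset.card_univ, ZMod.card,
        nsmul_eq_mul]
      push_cast
      exact h1

theorem total (h n m : ℕ) (g : ℕ → ℝ) (M : ℝ) (h0 : 3 * g 0 ≤ 3 * M) (h1 : 3 * g 1 ≤ 3 * M)
    (h2 : 2 * g 1 + g 2 ≤ 3 * M) :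
    ∑ x : ZMod 3 × (Fin m → ZMod 3), g (dN h n x.1) / 3 ^ (m + 1) ≤ M := by
  rw [← Finset.sum_div, sum_dN, div_le_iff₀ (by positivity)]
  have h3 := sum_w0 h n g (3 * M) h0 h1 h2
  have h4 : (0 : ℝ) < 3 ^ m := by positivity
  calc (3 : ℝ) ^ m * ∑ w0 : ZMod 3, g (dN h n w0) ≤ 3 ^ m * (3 * M) :=
        mul_le_mul_of_nonneg_left h3 h4.le
    _ = M * 3 ^ (m + 1) := by ring

end AVA

/-- PTK_AVA -/
theorem AVA_thm (hSUMA : Stmt_SUMA) (hAVR : Stmt_AVR) : Stmt_AVA := by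
  intro h n m k π p e r f hN hh
  constructor
  · obtain ⟨s1, -, s3, -⟩ := hSUMA ((3 ^ h * n : ℕ) : ℤ) 2 m π (fun A => (CubeRank.rr A : ℝ))
    have h1 := s1 (fun x => aD' (dN h n x.1) / 3 ^ (m + 1))
      fun y => (hAVR h n m k π p e r f y.1 y.2 hN hh).1
    refine s3 _ _ _ ?_ h1
    apply AVA.total h n m aD'
    · unfold aD'
      rw [if_pos rfl]
      norm_num
    · unfold aD'
      rw [if_neg one_ne_zero, if_pos rfl]
      norm_num
    · unfold aD'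
      rw [if_neg one_ne_zero, if_pos rfl, if_neg two_ne_zero, if_neg (by norm_num)]
      norm_num
  · obtain ⟨s1, -, s3, -⟩ := hSUMA ((3 ^ h * n : ℕ) : ℤ) 2 m π (fun A => √3 ^ CubeRank.rr A)
    have h1 := s1 (fun x => bD' (dN h n x.1) / 3 ^ (m + 1))
      fun y => (hAVR h n m k π p e r f y.1 y.2 hN hh).2
    refine s3 _ _ _ ?_ h1
    apply AVA.total h n m bD'
    · unfold bD'
      rw [if_pos rfl]
      norm_num
    · unfold bD'
      rw [if_neg one_ne_zero, if_pos rfl]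
      norm_num
    · unfold bD'
      rw [if_neg one_ne_zero, if_pos rfl, if_neg two_ne_zero, if_neg (by norm_num)]
      norm_num

end Pool.Agent.PTK


end

section

/-!
# PTK_AMF: the averages over all `A`, all moments
-/

set_option autoImplicit false

open NumberField IsDedekindDomain Finset
open scoped nonZeroDivisors Pointwise

namespace Pool.Agent.PTK

open Pool.Agent.Lib_helper18 Pool.Agent.Lib_helper18.Eis Pool.Agent.Lib_helper84.Cub
open Pool.Agent.PT Pool.Agent.PTE Pool.Agent.PT3 Pool.Agent.PTL Pool.Agent.PTN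

namespace AMF

theorem MoB_nonneg (k : ℕ) : 0 ≤ MoB k := by
  unfold MoB
  positivity

theorem aW0 : aW 0 = 9 / 4 := by
  unfold aW
  rw [if_pos (by norm_num)]

theorem aW1 : aW 1 = 9 / 4 := by
  unfold aW
  rw [if_pos (by norm_num)]

theorem aW2 : aW 2 = 335 / 108 := by
  unfold aW
  rw [if_neg (by norm_num)]

theorem cM0 (k : ℕ) : cM k 0 = MoB k := by
  unfold cM
  rw [if_pos (by norm_num)]

theorem cM1 (k : ℕ) : cM k 1 = MoB k := by
  unfold cM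
  rw [if_pos (by norm_num)]

theorem cM2 (k : ℕ) : cM k 2 = gM k 2 := by
  unfold cM
  rw [if_neg (by norm_num)]

/-- `dN ≤ 1` for `h ≠ 0` -/
theorem dN_le (h n : ℕ) (w0 : ZMod 3) (hh : h ≠ 0) : dN h n w0 = 0 ∨ dN h n w0 = 1 := by
  unfold dN
  split_ifs with h1 h2
  · exact Or.inl rfl
  · exact absurd h2.1 hh
  · exact Or.inr rfl

end AMF

open _root_.Pool.Agent.PTK.AMF in
/-- PTK_AMF -/
theorem AMF_thm (hSUMA : Stmt_SUMA) (hAM2 : Stmt_AM2) (hAM1 : Stmt_AM1) (hGMB : Stmt_GMB) :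
    Stmt_AMF := by
  intro h n m k π p e r f hN hh a ha
  -- the two averages in the classes
  have hr : ∀ (w0 : ZMod 3) (c : Fin m → ZMod 3),
      AboveA ((3 ^ h * n : ℕ) : ℤ) a (Kl π w0 c) (fun A => (CubeRank.rr A : ℝ))
        (aW (dN h n w0) / 3 ^ (m + 1)) := by
    intro w0 c
    rcases ha with rfl | rfl
    · exact (hAM1 h n m k π p e r f w0 c hN hh).1
    · exact (hAM2 h n m k π p e r f w0 c hN hh).1
  have hp : ∀ (k₀ : ℕ) (w0 : ZMod 3) (c : Fin m → ZMod 3),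
      AboveA ((3 ^ h * n : ℕ) : ℤ) a (Kl π w0 c) (fun A => 3 ^ (k₀ * CubeRank.rr A))
        (cM k₀ (dN h n w0) * MoB k₀ / 3 ^ (m + 1)) := by
    intro k₀ w0 c
    rcases ha with rfl | rfl
    · exact (hAM1 h n m k π p e r f w0 c hN hh).2 k₀
    · exact (hAM2 h n m k π p e r f w0 c hN hh).2 k₀
  obtain ⟨-, -, -, hg2, hg12, -, hM1, -⟩ := hGMB
  -- the total of the moments
  have hall : ∀ k₀ : ℕ, ∀ M : ℝ, MoB k₀ * MoB k₀ ≤ M →
      2 * (MoB k₀ * MoB k₀) + gM k₀ 2 * MoB k₀ ≤ 3 * M →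
      AboveA ((3 ^ h * n : ℕ) : ℤ) a (fun _ => True)
        (fun A => 3 ^ (k₀ * CubeRank.rr A)) M := by
    intro k₀ M hM0 hM2
    obtain ⟨s1, -, s3, -⟩ := hSUMA ((3 ^ h * n : ℕ) : ℤ) a m π
      (fun A => 3 ^ (k₀ * CubeRank.rr A))
    have h1 := s1 (fun x => cM k₀ (dN h n x.1) * MoB k₀ / 3 ^ (m + 1))
      fun y => hp k₀ y.1 y.2
    refine s3 _ _ _ ?_ h1
    apply AVA.total h n m (fun d => cM k₀ d * MoB k₀)
    · simp only [cM0]
      linarith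
    · simp only [cM1]
      linarith
    · simp only [cM1, cM2]
      exact hM2
  refine ⟨?_, ?_, ?_, ?_⟩
  · obtain ⟨s1, -, s3, -⟩ := hSUMA ((3 ^ h * n : ℕ) : ℤ) a m π (fun A => (CubeRank.rr A : ℝ))
    have h1 := s1 (fun x => aW (dN h n x.1) / 3 ^ (m + 1)) fun y => hr y.1 y.2
    refine s3 _ _ _ ?_ h1
    apply AVA.total h n m aW
    · rw [aW0]; norm_num
    · rw [aW1]; norm_num
    · rw [aW1, aW2]; norm_num
  · have h1 := hall 1 (208 / 9) (by rw [hM1]; norm_num) (by rw [hM1, hg12]; norm_num)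
    simpa only [one_mul] using h1
  · intro k₀
    have h0 := MoB_nonneg k₀
    have h1 : gM k₀ 2 * MoB k₀ ≤ 3 * MoB k₀ * MoB k₀ := mul_le_mul_of_nonneg_right (hg2 k₀) h0
    have h2 : 0 ≤ MoB k₀ * MoB k₀ := mul_nonneg h0 h0
    refine hall k₀ _ ?_ ?_
    · rw [sq]
      linarith
    · rw [sq]
      linarith
  · intro hh0
    constructor
    · obtain ⟨s1, -, s3, -⟩ := hSUMA ((3 ^ h * n : ℕ) : ℤ) a m π
        (fun A => (CubeRank.rr A : ℝ))
      have h1 := s1 (fun x => aW (dN h n x.1) / 3 ^ (m + 1)) fun y => hr y.1 y.2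
      refine s3 _ _ _ ?_ h1
      have h2 : ∀ w0 : ZMod 3, aW (dN h n w0) = 9 / 4 := fun w0 => by
        rcases dN_le h n w0 hh0 with h3 | h3
        · rw [h3, aW0]
        · rw [h3, aW1]
      simp only [h2]
      have h4 := AVA.total 0 0 m (fun _ => (9 / 4 : ℝ)) (9 / 4) (by norm_num) (by norm_num)
        (by norm_num)
      exact h4
    · intro k₀
      obtain ⟨s1, -, s3, -⟩ := hSUMA ((3 ^ h * n : ℕ) : ℤ) a m π
        (fun A => 3 ^ (k₀ * CubeRank.rr A))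
      have h1 := s1 (fun x => cM k₀ (dN h n x.1) * MoB k₀ / 3 ^ (m + 1))
        fun y => hp k₀ y.1 y.2
      refine s3 _ _ _ ?_ h1
      have h2 : ∀ w0 : ZMod 3, cM k₀ (dN h n w0) = MoB k₀ := fun w0 => by
        rcases dN_le h n w0 hh0 with h3 | h3
        · rw [h3, cM0]
        · rw [h3, cM1]
      simp only [h2]
      have h4 := AVA.total 0 0 m (fun _ => MoB k₀ * MoB k₀) (MoB k₀ ^ 2) (by rw [sq])
        (by rw [sq]) (by rw [sq]; linarith)
      exact h4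

end Pool.Agent.PTK


end

section

/-!
# PTK_DX2: the local term of a good point at the place above `3` (helper91)
-/

set_option autoImplicit false

namespace Pool.Agent.PTK

open Pool.Agent.Lib_helper18 Pool.Agent.Lib_helper18.Eis Pool.Agent.Lib_helper84.Cub
open Pool.Agent.PT

namespace DX2

lemma B_ne {N : ℕ} {b x p q p' q' : Eis} (HX : HypX N b x p q p' q') {E Q : ℕ} {X Y : Eis}
    (HP : HypP N b x p q p' q' E Q X Y) : (N : Eis) * (Q : Eis) ^ E ≠ 0 := by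
  have h1 : (N : Eis) ≠ 0 := by
    have h2 : ((N : ℤ) : Eis) ≠ 0 := DCONST.cast_ne (by have := HX.N0; omega)
    rwa [Int.cast_natCast] at h2
  have h3 : (Q : Eis) ≠ 0 := by
    have h2 : ((Q : ℤ) : Eis) ≠ 0 := DCONST.cast_ne (by have := HP.hQ.pos; omega)
    rwa [Int.cast_natCast] at h2
  exact mul_ne_zero h1 (pow_ne_zero _ h3)

lemma n0_ne {N : ℕ} {b x p q p' q' : Eis} (HX : HypX N b x p q p' q') {E Q : ℕ} {X Y : Eis}
    (HP : HypP N b x p q p' q' E Q X Y) : X ^ 3 + x * Y ^ 3 ≠ 0 := by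
  obtain ⟨c, hc, h⟩ := HP.pt.eq
  intro h0
  rw [h0, mul_zero] at h
  exact mul_ne_zero (B_ne HX HP) (pow_ne_zero _ hc) h.symm

/-- the product formula when all tame symbols vanish -/
lemma sl_zero (hSSL : SSL) {b B : Eis} (hb : b ≠ 0) (hB : B ≠ 0)
    (h : ∀ σ : PP, tm σ.1 b B = 0) : sl b B = 0 := by
  have hE := (hSSL.2.2.2 b B hb hB).2
  have h0 : ∀ v : Pl, v ≠ none → sy v b B = 0 := by
    intro v hv
    match v, hv with
    | none, hv => exact absurd rfl hv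
    | some π, _ => exact h π
  rw [finsum_eq_single _ none h0] at hE
  exact hE

end DX2

open DPA in
/-- PTK_DX2. -/
theorem DX2_thm (hSLC : SLC) (hSSL : SSL) (hLCI : Stmt_LCI) (hIF4 : Stmt_IF4) : Stmt_DX2 := by
  intro N b x p q p' q' HX f hf h9
  have hs : LSym lam sl 4 := hSLC
  have hlamf : lam ^ 4 ∣ (f : Eis) := by
    have h1 : ((9 : ℤ) : Eis) ∣ ((f : ℤ) : Eis) :=
      intCast_dvd_intCast.2 (by exact_mod_cast h9)
    rw [Int.cast_natCast] at h1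
    refine Dvd.dvd.trans ⟨w ^ 4, ?_⟩ h1
    have h2 : ((9 : ℤ) : Eis) = (3 : Eis) ^ 2 := by norm_num
    rw [h2, three_eq]
    ring
  have hN : (N : Eis) ≠ 0 := by
    have h2 : ((N : ℤ) : Eis) ≠ 0 := DCONST.cast_ne (by have := HX.N0; omega)
    rwa [Int.cast_natCast] at h2
  obtain ⟨C, Φ, H⟩ := place_LC hs hN HX.sol.n1 (SolE_n1' HX.sol) HX.lx hf hlamf
  refine ⟨C, Φ, ?_⟩
  intro E Q hQ X Y HP hG
  have hB := DX2.B_ne HX HP
  have hn0 := DX2.n0_ne HX HP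
  obtain ⟨c, hc, hE⟩ := HP.pt.eq
  have hcast : (((N : ℤ) * (Q : ℤ) ^ E : ℤ) : Eis) = (N : Eis) * (Q : Eis) ^ E := by
    push_cast
    rfl
  have hsb : sl b (N * (Q : Eis) ^ E) = 0 := DX2.sl_zero hSSL HX.hb hB HP.sb
  obtain ⟨N1, H1⟩ := exists_ne hs.prime (b := x) HX.sol.n1
  obtain ⟨N2, H2⟩ := exists_ne hs.prime (b := x) (SolE_n1' HX.sol)
  obtain ⟨N3, H3⟩ := hG b HX.hb HX.nb HX.cb (by rw [hcast]; exact hsb)
  obtain ⟨N4, H4⟩ := hIF4 lam sl 4 hs b x p (-p') (-q) q' X Y HX.hb HX.hx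
    (SolE_flip HX.sol) HP.pt.hX HP.pt.hY hn0 HP.dn
  have hx0 : ∀ a : Eis, a ≠ 0 → sl x a = 0 := fun a ha =>
    hLCI.2.2 lam sl 4 x a hs HX.lx HX.hx ha
  have hrel : ∀ a : Eis, a ≠ 0 →
      sl (X ^ 3 + x * Y ^ 3) a = sl ((N : Eis) * (Q : Eis) ^ E) a := by
    intro a ha
    have h1 := s_rel hs HX.hx hn0 hB hc ha hE
    rw [hx0 a ha, zero_add] at h1
    exact h1
  refine H E Q hQ _ (N1 + N2 + N3 + N4) fun ξ hξ => ?_
  have g1 := H1 ξ ((pow_dvd_pow _ (by omega)).trans hξ)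
  have g2 := H2 ξ ((pow_dvd_pow _ (by omega)).trans hξ)
  have g3 := H3 ξ ((pow_dvd_pow _ (by omega)).trans hξ)
  have g4 := H4 ξ ((pow_dvd_pow _ (by omega)).trans hξ)
  rw [g4, neg_neg, neg_neg, g3]
  unfold ASE
  rw [hrel _ (g1 2), hrel _ (g2 1), hrel _ (g1 1), hrel _ (g2 2)]
  ring

end Pool.Agent.PTK


end

section

/-!
# PTK_DX3: the local terms of a point vanish outside, for `HypX`
-/

set_option autoImplicit false

namespace Pool.Agent.PTK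

open Pool.Agent.Lib_helper18 Pool.Agent.Lib_helper18.Eis Pool.Agent.Lib_helper84.Cub
open Pool.Agent.PT

namespace DX3

open DPA

lemma B_ne' {N : ℕ} {b x p q p' q' : Eis} (HD : HypX N b x p q p' q') {E Q : ℕ} {X Y : Eis}
    (HP : HypP N b x p q p' q' E Q X Y) : (N : Eis) * (Q : Eis) ^ E ≠ 0 := by
  have h1 : (N : Eis) ≠ 0 := by
    have h2 : ((N : ℤ) : Eis) ≠ 0 := DCONST.cast_ne (by have := HD.N0; omega)
    rwa [Int.cast_natCast] at h2
  have h3 : (Q : Eis) ≠ 0 := by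
    have h2 : ((Q : ℤ) : Eis) ≠ 0 := DCONST.cast_ne (by have := HP.hQ.pos; omega)
    rwa [Int.cast_natCast] at h2
  exact mul_ne_zero h1 (pow_ne_zero _ h3)

lemma n0_ne' {N : ℕ} {b x p q p' q' : Eis} (HD : HypX N b x p q p' q') {E Q : ℕ} {X Y : Eis}
    (HP : HypP N b x p q p' q' E Q X Y) : X ^ 3 + x * Y ^ 3 ≠ 0 := by
  obtain ⟨c, hc, h⟩ := HP.pt.eq
  intro h0
  rw [h0, mul_zero] at h
  exact mul_ne_zero (B_ne' HD HP) (pow_ne_zero _ hc) h.symm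

/-- The local term at a tame place where `x` is a local cube. -/
lemma core' (hIF4 : Stmt_IF4) (hLCI : Stmt_LCI) {π : PP} (hs : LSym π.1 (tm π.1) 1) {N : ℕ}
    {b x p q p' q' : Eis} (HD : HypX N b x p q p' q') {E Q : ℕ} {X Y : Eis}
    (HP : HypP N b x p q p' q' E Q X Y) (hL : LCE π.1 x) :
    ∃ N0 : ℕ, ∀ ξ : Eis, π.1 ^ N0 ∣ ξ ^ 3 - x →
      (∀ i, LfE X Y i ξ ≠ 0) ∧
      (∀ a : Eis, a ≠ 0 → tm π.1 a (X ^ 3 + x * Y ^ 3) = tm π.1 a ((N : Eis) * (Q : Eis) ^ E)) ∧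
      SVE (tm π.1) x p (-p') (-q) q' X Y =
        ASE (tm π.1) ((N : Eis) * (Q : Eis) ^ E) p q p' q' ξ +
          tm π.1 (LfE X Y 1 ξ) b - tm π.1 (LfE X Y 2 ξ) b := by
  have hB := B_ne' HD HP
  have hn0 := n0_ne' HD HP
  obtain ⟨c, hc, hE⟩ := HP.pt.eq
  obtain ⟨N1, H1⟩ := exists_ne hs.prime (b := x) HD.sol.n1
  obtain ⟨N2, H2⟩ := exists_ne hs.prime (b := x) (SolE_n1' HD.sol)
  obtain ⟨N3, H3⟩ := exists_ne hs.prime (b := x) (p := X) (q := Y) hn0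
  obtain ⟨N4, H4⟩ := hIF4 π.1 (tm π.1) 1 hs b x p (-p') (-q) q' X Y HD.hb HD.hx
    (SolE_flip HD.sol) HP.pt.hX HP.pt.hY hn0 HP.dn
  refine ⟨N1 + N2 + N3 + N4, fun ξ hξ => ?_⟩
  have g1 := H1 ξ ((pow_dvd_pow _ (by omega)).trans hξ)
  have g2 := H2 ξ ((pow_dvd_pow _ (by omega)).trans hξ)
  have g3 := H3 ξ ((pow_dvd_pow _ (by omega)).trans hξ)
  have g4 := H4 ξ ((pow_dvd_pow _ (by omega)).trans hξ)
  have hx0 : ∀ a : Eis, a ≠ 0 → tm π.1 x a = 0 := fun a ha =>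
    hLCI.2.2 π.1 (tm π.1) 1 x a hs hL HD.hx ha
  have hrel : ∀ a : Eis, a ≠ 0 →
      tm π.1 (X ^ 3 + x * Y ^ 3) a = tm π.1 ((N : Eis) * (Q : Eis) ^ E) a := by
    intro a ha
    have h1 := s_rel hs HD.hx hn0 hB hc ha hE
    rw [hx0 a ha, zero_add] at h1
    exact h1
  refine ⟨g3, ?_, ?_⟩
  · intro a ha
    rw [hs.skew (X ^ 3 + x * Y ^ 3) a hn0 ha, hs.skew ((N : Eis) * (Q : Eis) ^ E) a hB ha, hrel a ha]
  · rw [g4, neg_neg, neg_neg]
    unfold ASE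
    rw [hrel _ (g1 2), hrel _ (g2 1), hrel _ (g1 1), hrel _ (g2 2)]

end DX3

open DPA in
/-- PTK_DX3. -/
theorem DX3_thm (hSTM : STM) (hSPP : SPP) (hIF4 : Stmt_IF4) (hF7U : Stmt_F7U)
    (hLFV : Stmt_LFV) (hLCI : Stmt_LCI) : Stmt_DX3 := by
  intro N b x p q p' q' HD π E Q X Y HP hπN hπQ hπM
  have hs : LSym π.1 (tm π.1) 1 := hSTM π.1 π.2.1 (hSPP.2.2.2.1 π).1
  obtain ⟨hπb, hπx⟩ := HD.unr π hπN
  have hVx0 : V π.1 x = 0 := V_eq_zero hπx
  have hVb0 : V π.1 b = 0 := V_eq_zero hπb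
  have hVx : 3 ∣ V π.1 x := by rw [hVx0]; exact dvd_zero 3
  by_cases hcx : ch π.1 x = 0
  · have hL : LCE π.1 x := (hLCI.1 π x HD.hx).2 ⟨hVx, hcx⟩
    have hB := DX3.B_ne' HD HP
    have hn0 := DX3.n0_ne' HD HP
    have hπB : ¬ π.1 ∣ (N : Eis) * (Q : Eis) ^ E := by
      intro h
      rcases π.2.1.dvd_or_dvd h with h1 | h1
      · exact hπN h1
      · exact hπQ (π.2.1.dvd_of_dvd_pow h1)
    have hVB0 : V π.1 ((N : Eis) * (Q : Eis) ^ E) = 0 := V_eq_zero hπB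
    obtain ⟨c, hc, hE⟩ := HP.pt.eq
    have hVn : 3 ∣ V π.1 (X ^ 3 + x * Y ^ 3) := by
      have h1 := congrArg (V π.1) hE
      rw [V_mul π.2.1 HD.hx hn0, V_mul π.2.1 hB (pow_ne_zero _ hc), V_pow π.2.1 hc, hVx0,
        hVB0] at h1
      omega
    obtain ⟨N1, H1⟩ := DX3.core' hIF4 hLCI hs HD HP hL
    obtain ⟨N2, H2⟩ := hLFV π x X Y HD.hx HP.pt.hX HP.pt.hY hn0 hVx hVn
    obtain ⟨ξ, hξ⟩ := hL (N1 + N2 + 1)
    obtain ⟨-, -, h1⟩ := H1 ξ ((pow_dvd_pow _ (by omega)).trans hξ)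
    have h2 := H2 ξ ((pow_dvd_pow _ (by omega)).trans hξ)
    have h3 : π.1 ∣ ξ ^ 3 - x := by
      have h4 : π.1 ^ 1 ∣ ξ ^ 3 - x := (pow_dvd_pow _ (by omega)).trans hξ
      rwa [pow_one] at h4
    have k1 := LfE_ndvd (p := p) (q := q) h3 (fun h => hπM (dvd_mul_of_dvd_left h _))
    have k2 := LfE_ndvd (p := p') (q := q') h3 (fun h => hπM (dvd_mul_of_dvd_right h _))
    have h5 : tm π.1 (LfE X Y 1 ξ) b - tm π.1 (LfE X Y 2 ξ) b = 0 := by
      unfold tm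
      rw [h2, hVb0]
      simp
    rw [h1, add_sub_assoc, h5, add_zero]
    unfold ASE
    rw [DCONST.tm_zero hπB (k1 2), DCONST.tm_zero hπB (k2 1), DCONST.tm_zero hπB (k1 1),
      DCONST.tm_zero hπB (k2 2)]
    simp
  · exact hF7U π b x p (-p') (-q) q' X Y HD.hb HD.hx (SolE_flip HD.sol) HP.pt.hX HP.pt.hY HP.dn
      hVx hcx

end Pool.Agent.PTK


end

section

/-!
# The average rank of prime twists: the Hasse norm theorem for `K(x^(1/3)) / K`, assembly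
-/

set_option autoImplicit false

open NumberField IsDedekindDomain Finset
open scoped nonZeroDivisors Pointwise

namespace Pool.Agent.PTK

open Pool.Agent.Lib_helper18 Pool.Agent.Lib_helper18.Eis Pool.Agent.Lib_helper84.Cub
open Pool.Agent.PT

namespace HNE

theorem cube_of {y a b : Eis} (hb : b ≠ 0) (h : a ^ 3 = y * b ^ 3) : ∃ c : Eis, c ^ 3 = y := by
  have h1 : b ^ 3 ∣ a ^ 3 := ⟨y, by rw [h, mul_comm]⟩
  have h2 : b ∣ a := (IsIntegrallyClosed.pow_dvd_pow_iff (by norm_num : (3 : ℕ) ≠ 0)).1 h1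
  obtain ⟨c, rfl⟩ := h2
  refine ⟨c, mul_right_cancel₀ (pow_ne_zero 3 hb) ?_⟩
  rw [← h]
  ring

theorem sol {x y p q p' q' : Eis} (hx : x ≠ 0) (hy : ¬ ∃ c : Eis, c ^ 3 = y)
    (h : SolWE x y p q p' q') : SolE x y p q p' q' := by
  have hn : p' ^ 3 + x * q' ^ 3 ≠ 0 := by
    intro h1
    apply h.n1
    rw [h.eq, h1, mul_zero]
  have n2 : p ^ 3 - y * p' ^ 3 ≠ 0 := by
    intro h1
    have h2 : p ^ 3 = y * p' ^ 3 := sub_eq_zero.1 h1
    rcases eq_or_ne p' 0 with h3 | h3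
    · have h4 : p = 0 := by
        apply pow_eq_zero_iff (n := 3) (by norm_num) |>.1
        rw [h2, h3]
        ring
      have h5 := h.eq
      have h6 : q ^ 3 = y * q' ^ 3 := by
        apply mul_left_cancel₀ hx
        rw [h3, h4] at h5
        linear_combination h5
      rcases eq_or_ne q' 0 with h7 | h7
      · apply hn
        rw [h3, h7]
        ring
      · exact hy (cube_of h7 h6)
    · exact hy (cube_of h3 h2)
  have g : ∀ i : ℕ, GfE p q p' q' i ≠ 0 := by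
    intro i h1
    unfold GfE at h1
    have h2 : q * p' = w ^ i * p * q' := sub_eq_zero.1 h1
    have h3 : q ^ 3 * p' ^ 3 = p ^ 3 * q' ^ 3 := by
      have h4 : (w ^ i) ^ 3 = 1 := by rw [← pow_mul, mul_comm, pow_mul, w_cube, one_pow]
      calc q ^ 3 * p' ^ 3 = (q * p') ^ 3 := by ring
        _ = (w ^ i) ^ 3 * (p ^ 3 * q' ^ 3) := by rw [h2]; ring
        _ = p ^ 3 * q' ^ 3 := by rw [h4, one_mul]
    have h5 : (p ^ 3 - y * p' ^ 3) * (p' ^ 3 + x * q' ^ 3) = 0 := by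
      linear_combination (- x) * h3 - p' ^ 3 * (- h.eq)
    rcases mul_eq_zero.1 h5 with h6 | h6
    · exact n2 h6
    · exact hn h6
  exact { toSolWE := h, n2 := n2, g1 := g 1, g2 := g 2 }

end HNE

/-- the Hasse norm theorem, with nondegenerate solutions -/
theorem HNE_thm (hNFL : Stmt_NFL) (hNMN : Stmt_NMN) (hNDS : Stmt_NDS) : Stmt_HNE := by
  intro x y hx h9 hxc hV hy hyc htm hd
  obtain ⟨L, _, _, ι, θ, σ, hC⟩ := hNFL x hx hxc
  obtain ⟨z, hz, hN⟩ := hNMN x L ι θ σ hx h9 hV hxc hC y hy htm hd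
  obtain ⟨p, q, p', q', hs⟩ := hNDS x L ι θ σ hx hC y z hy hz hN
  exact ⟨p, q, p', q', HNE.sol hx hyc hs⟩

end Pool.Agent.PTK


end

section

/-!
# The average rank of prime twists: the local term of a point at `λ` when `b` is a cube

Copy of `PT3/IIAG.lean` with `Eis` in place of `ℤ`.
-/

set_option autoImplicit false

namespace Pool.Agent.PTK

open Pool.Agent.Lib_helper18 Pool.Agent.Lib_helper18.Eis Pool.Agent.Lib_helper84.Cub
open Pool.Agent.PT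

namespace IIAG

/-- the right side of the identity -/
noncomputable def RS (s : Eis → Eis → ZMod 3) (n : Eis) (p q p' q' r : Eis) : ZMod 3 :=
  s n (GfE p q p' q' 1) - s n (GfE p q p' q' 2) + s w n - ASE s n p q p' q' r

/-- Linear forms at good approximations of a cube root do not vanish. -/
theorem lf_ne {π : Eis} (hπ : Prime π) {p q r b : Eis} {N : ℕ} (hn : p ^ 3 + b * q ^ 3 ≠ 0)
    (hN : V π (p ^ 3 + b * q ^ 3) < N) (hr : π ^ N ∣ r ^ 3 - b)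
    (i : ℕ) : LfE p q i r ≠ 0 := by
  intro h0
  unfold LfE at h0
  have h1 : q * w ^ i * r = -p := by linear_combination h0
  have h2 : (q * w ^ i * r) ^ 3 = (-p) ^ 3 := by rw [h1]
  have h3 : (w ^ i) ^ 3 = 1 := by rw [← pow_mul, mul_comm, pow_mul, w_cube, one_pow]
  have h4 : p ^ 3 + b * q ^ 3 = (-q ^ 3) * (r ^ 3 - b) := by
    linear_combination h2 - q ^ 3 * r ^ 3 * h3
  have h5 : π ^ N ∣ p ^ 3 + b * q ^ 3 := by
    rw [h4]
    exact Dvd.dvd.mul_left hr _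
  have h6 := (fin hπ hn).le_multiplicity_of_pow_dvd h5
  exact absurd h6 (not_le.2 hN)

/-- the linear forms do not vanish -/
theorem lf_ne' {π : Eis} (hπ : Prime π) {p q r : Eis} (hn : p ^ 3 + r ^ 3 * q ^ 3 ≠ 0) (i : ℕ) :
    LfE p q i r ≠ 0 := by
  refine lf_ne hπ (b := r ^ 3) hn (Nat.lt_succ_self _) ?_ i
  rw [sub_self]
  exact dvd_zero _

theorem sol_n {b x p q p' q' : Eis} (h : SolE b x p q p' q') : p' ^ 3 + b * q' ^ 3 ≠ 0 := by
  intro h0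
  apply h.n1
  rw [h.eq, h0, mul_zero]

section Sym

variable {π : Eis} {s : Eis → Eis → ZMod 3} {e : ℕ} {p q p' q' r x : Eis}

theorem RS_congr (h : LSym π s e) (hS : SolE (r ^ 3) x p q p' q') {n m : Eis} (hn : n ≠ 0)
    (hm : m ≠ 0) (hnm : ∀ A : Eis, A ≠ 0 → s n A = s m A) :
    RS s n p q p' q' r = RS s m p q p' q' r := by
  have l1 := lf_ne' h.prime hS.n1
  have l2 := lf_ne' h.prime (sol_n hS)
  unfold RS ASE
  rw [hnm _ hS.g1, hnm _ hS.g2,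
    h.skew n w hn LEV.w_ne, h.skew m w hm LEV.w_ne, hnm _ LEV.w_ne, hnm _ (l1 2), hnm _ (l2 1),
    hnm _ (l1 1), hnm _ (l2 2)]

theorem RS_zero (h : LSym π s e) (hS : SolE (r ^ 3) x p q p' q') {n : Eis} (hn : n ≠ 0)
    (h0 : ∀ A : Eis, A ≠ 0 → s n A = 0) : RS s n p q p' q' r = 0 := by
  have l1 := lf_ne' h.prime hS.n1
  have l2 := lf_ne' h.prime (sol_n hS)
  unfold RS ASE
  rw [h0 _ hS.g1, h0 _ hS.g2,
    h.skew n w hn LEV.w_ne, h0 _ LEV.w_ne, h0 _ (l1 2), h0 _ (l2 1), h0 _ (l1 1), h0 _ (l2 2)]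
  ring

/-- IF2 -/
theorem RS_x (h : LSym π s e) (hIF2 : Stmt_IF2) (hr : r ≠ 0) (hx : x ≠ 0)
    (hS : SolE (r ^ 3) x p q p' q') : RS s x p q p' q' r = 0 := by
  obtain ⟨N0, h1⟩ := hIF2 π s e h (r ^ 3) x p q p' q' (pow_ne_zero 3 hr) hx hS
  have h2 := h1 r (by rw [sub_self]; exact dvd_zero _)
  unfold RS
  rw [h2, sub_self]

/-- a symbol of a cube on the right -/
theorem cube_right (h : LSym π s e) {c y : Eis} (hc : c ≠ 0) (hy : y ≠ 0) : s y (c ^ 3) = 0 := by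
  rw [h.skew (c ^ 3) y (pow_ne_zero 3 hc) hy, LEV.cube_left h hc hy, neg_zero]

/-- the case where `x` is a local cube -/
theorem case_cube (h : LSym π s e) (hIF1 : Stmt_IF1) (hIF4 : Stmt_IF4) (hr : r ≠ 0) (hx : x ≠ 0)
    (hS : SolE (r ^ 3) x p q p' q') {X Y : Eis} (hX : X ≠ 0) (hY : Y ≠ 0)
    (hn : X ^ 3 + x * Y ^ 3 ≠ 0) (hD : DNE X Y p q p' q') (hL : LCE π x) :
    SVE s x p q p' q' X Y = RS s (X ^ 3 + x * Y ^ 3) p q p' q' r := by
  have hr3 : r ^ 3 ≠ 0 := pow_ne_zero 3 hr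
  obtain ⟨N1, h1⟩ := hIF4 π s e h (r ^ 3) x p q p' q' X Y hr3 hx hS hX hY hn hD
  obtain ⟨N2, h2⟩ := hIF1 π s e h (r ^ 3) x p q p' q' hr3 hx hS
  obtain ⟨ξ, hξ⟩ := hL (N1 + N2 + V π (X ^ 3 + x * Y ^ 3) + 1)
  have a1 := h1 ξ ((pow_dvd_pow _ (by omega)).trans hξ)
  have a2 := h2 r ξ (by rw [sub_self]; exact dvd_zero _)
    ((pow_dvd_pow _ (by omega)).trans hξ) (X ^ 3 + x * Y ^ 3) hn
  have hF := lf_ne h.prime hn (N := N1 + N2 + V π (X ^ 3 + x * Y ^ 3) + 1)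
    (by omega) hξ
  rw [cube_right h hr (hF 1), cube_right h hr (hF 2)] at a1
  unfold RS
  rw [a1]
  linear_combination a2

end Sym

/-- the continuity of the symbol, in terms of valuations -/
theorem s_close {π : Eis} {s : Eis → Eis → ZMod 3} (h : LSym π s 1) {a c : Eis} (ha : a ≠ 0)
    (hc : c ≠ 0) (hV : V π a < V π c) {A : Eis} (hA : A ≠ 0) : s (a + c) A = s a A := by
  refine h.cont a (a + c) A ha hA ?_
  rw [add_sub_cancel_left]
  exact (pow_dvd_pow _ hV).trans (pow_multiplicity_dvd _ _)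

/-- the tame places -/
theorem tame (hSTM : STM) (hSPP : SPP) (hLCI : Stmt_LCI) (hIF1 : Stmt_IF1) (hIF2 : Stmt_IF2)
    (hIF4 : Stmt_IF4) (hF6R : Stmt_F6R) (hF7U : Stmt_F7U) (π : PP) {r x p q p' q' X Y : Eis}
    (hr : r ≠ 0) (hx : x ≠ 0) (hS : SolE (r ^ 3) x p q p' q') (hX : X ≠ 0) (hY : Y ≠ 0)
    (hn : X ^ 3 + x * Y ^ 3 ≠ 0) (hD : DNE X Y p q p' q') :
    SVE (tm π.1) x p q p' q' X Y = RS (tm π.1) (X ^ 3 + x * Y ^ 3) p q p' q' r := by
  have h3 := (hSPP.2.2.2.1 π).1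
  have h : LSym π.1 (tm π.1) 1 := hSTM π.1 π.2.1 h3
  have hπ := π.2.1
  have hr3 : r ^ 3 ≠ 0 := pow_ne_zero 3 hr
  have hX3 : X ^ 3 ≠ 0 := pow_ne_zero 3 hX
  have hY3 : Y ^ 3 ≠ 0 := pow_ne_zero 3 hY
  have hxY : x * Y ^ 3 ≠ 0 := mul_ne_zero hx hY3
  have hsX : ∀ A : Eis, A ≠ 0 → tm π.1 (X ^ 3) A = 0 := fun A hA =>
    LEV.cube_left h hX hA
  have hsx : ∀ A : Eis, A ≠ 0 → tm π.1 (x * Y ^ 3) A = tm π.1 x A :=
    fun A hA => by rw [h.mul _ _ _ hx hY3 hA, LEV.cube_left h hY hA, add_zero]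
  have vX : V π.1 (X ^ 3) = 3 * V π.1 X := V_pow hπ hX 3
  have vx : V π.1 (x * Y ^ 3) = V π.1 x + 3 * V π.1 Y := by
    rw [V_mul hπ hx hY3, V_pow hπ hY]
  by_cases hVx : 3 ∣ V π.1 x
  · by_cases hcx : ch π.1 x = 0
    · exact case_cube h hIF1 hIF4 hr hx hS hX hY hn hD ((hLCI.1 π x hx).2 ⟨hVx, hcx⟩)
    · -- valuation divisible by three, not a cube
      rw [hF7U π (r ^ 3) x p q p' q' X Y hr3 hx hS hX hY hD hVx hcx]
      have hVx0 : (V π.1 x : ZMod 3) = 0 := LEV.cast3.2 hVx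
      have hVw : (V π.1 w : ZMod 3) = 0 := by
        rw [V_eq_zero (not_dvd_w hπ)]; rfl
      -- the valuation of `n0`
      have hVn : 3 ∣ V π.1 (X ^ 3 + x * Y ^ 3) := by
        rcases lt_trichotomy (V π.1 (X ^ 3)) (V π.1 (x * Y ^ 3)) with
          hlt | heq | hlt
        · have e1 : V π.1 (X ^ 3 + x * Y ^ 3) = V π.1 (X ^ 3) := by
            rw [add_comm]
            exact (fin hπ hX3).multiplicity_add_of_gt hlt
          rw [e1, vX]
          exact dvd_mul_right _ _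
        · by_cases hgt : V π.1 (X ^ 3) < V π.1 (X ^ 3 + x * Y ^ 3)
          · exfalso
            apply hcx
            have e1 : tm π.1 (x * Y ^ 3) π.1 = 0 := by
              have e2 := s_close h (a := -(X ^ 3))
                (c := X ^ 3 + x * Y ^ 3) (neg_ne_zero.2 hX3) hn
                (by rw [V_neg]; exact hgt) hπ.ne_zero
              rw [neg_add_cancel_left, LEV.neg_left h hX3 hπ.ne_zero,
                hsX _ hπ.ne_zero] at e2
              exact e2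
            rw [hsx _ hπ.ne_zero] at e1
            unfold tm at e1
            rw [V_self, hVx0] at e1
            simpa using e1
          · have hle : V π.1 (X ^ 3) ≤ V π.1 (X ^ 3 + x * Y ^ 3) := by
              apply (fin hπ hn).le_multiplicity_of_pow_dvd
              refine dvd_add (pow_multiplicity_dvd _ _) ?_
              change π.1 ^ (V π.1 (X ^ 3)) ∣ _
              rw [heq]
              exact pow_multiplicity_dvd _ _
            have e1 : V π.1 (X ^ 3 + x * Y ^ 3) = V π.1 (X ^ 3) := by omega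
            rw [e1, vX]
            exact dvd_mul_right _ _
        · have e1 : V π.1 (X ^ 3 + x * Y ^ 3) = V π.1 (x * Y ^ 3) :=
            (fin hπ hxY).multiplicity_add_of_gt hlt
          rw [e1, vx]
          exact (Nat.dvd_add_right hVx).2 (dvd_mul_right _ _)
      have hVn0 : (V π.1 (X ^ 3 + x * Y ^ 3) : ZMod 3) = 0 := LEV.cast3.2 hVn
      have h2 := RS_x h hIF2 hr hx hS
      unfold RS ASE tm at h2 ⊢
      rw [hVx0, hVw] at h2
      rw [hVn0, hVw]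
      have e1 : ∀ c d t : ZMod 3, c ≠ 0 → c * t = 0 → d * t = 0 := by decide
      have e2 := e1 (ch π.1 x) (ch π.1 (X ^ 3 + x * Y ^ 3))
        ((V π.1 (GfE p q p' q' 1) : ZMod 3) - (V π.1 (GfE p q p' q' 2) : ZMod 3) -
          ((V π.1 (LfE p q 2 r) : ZMod 3) + (V π.1 (LfE p' q' 1 r) : ZMod 3) -
            (V π.1 (LfE p q 1 r) : ZMod 3) - (V π.1 (LfE p' q' 2 r) : ZMod 3))) hcx
        (by linear_combination h2)
      linear_combination -e2
  · -- valuation not divisible by three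
    have hSV : SVE (tm π.1) x p q p' q' X Y = 0 := by
      have h6 := hF6R π (r ^ 3) x p q p' q' X Y hr3 hx hS hX hY hD hVx
      by_cases hVn : 3 ∣ V π.1 (X ^ 3 + x * Y ^ 3)
      · exact h6.1 hVn
      · rw [h6.2 hVn, cube_right h hr LEV.w_ne, neg_zero]
    rw [hSV]
    rcases lt_trichotomy (V π.1 (X ^ 3)) (V π.1 (x * Y ^ 3)) with
      hlt | heq | hlt
    · refine (RS_zero h hS hn fun A hA => ?_).symm
      rw [s_close h hX3 hxY hlt hA, hsX A hA]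
    · exfalso
      omega
    · rw [RS_congr h hS hn hx, RS_x h hIF2 hr hx hS]
      intro A hA
      rw [add_comm, s_close h hxY hX3 hlt hA, hsx A hA]

end IIAG

open _root_.Pool.Agent.PTK.IIAG in
/-- PTK_IIAG: the local term of a point at `λ` when `b` is the cube of an element of `Z[w]`.
Proof (copy of `PT3/IIAG.lean`). Both sides are sums of terms of a symbol at the place `λ`; the sums
of the same terms over all places are `0` (`Stmt_SVF` for the left side, the product formula `SSL`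
for the right side), so it suffices to prove the equality at the tame places `π`. If `x` is a local
cube: `Stmt_IF4` and `Stmt_IF1` (`case_cube`). If `3 ∣ V x` and `ch x ≠ 0`: the left side is `0`
(`Stmt_F7U`), `3 ∣ V n₀` for `n₀ = X³ + x Y³`, so the right side is `ch n₀` times a number which times `ch x` is
`0` by `Stmt_IF2`. If `3 ∤ V x`: the left side is `0` (`Stmt_F6R`, `b` is a cube); `n₀` is close to a
cube or to `x` times a cube, and the right side is `0` (`Stmt_IF2` in the second case). -/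
theorem IIAG_thm (hSTM : STM) (hSPP : SPP) (hSSL : SSL) (hLCI : Stmt_LCI) (hIF1 : Stmt_IF1)
    (hIF2 : Stmt_IF2) (hIF4 : Stmt_IF4) (hF6R : Stmt_F6R) (hF7U : Stmt_F7U)
    (hSVF : Stmt_SVF) : Stmt_IIAG := by
  intro r x p q p' q' X Y hr hx hS hX hY hn hD
  have hr3 : r ^ 3 ≠ 0 := pow_ne_zero 3 hr
  obtain ⟨π0, -⟩ := hSPP.2.2.2.2.1 2 Nat.prime_two (by norm_num)
  have l1 := lf_ne' π0.2.1 hS.n1
  have l2 := lf_ne' π0.2.1 (sol_n hS)
  have key : ∀ a b : Eis, a ≠ 0 → b ≠ 0 → LFIN.FZ (fun v : Pl => sy v a b) :=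
    fun a b ha hb => hSSL.2.2.2 a b ha hb
  have hSV : LFIN.FZ (fun v : Pl => SVE (sy v) x p q p' q' X Y) :=
    hSVF (r ^ 3) x p q p' q' X Y hr3 hx hS hX hY hn hD
  have hG1 := hS.g1
  have hG2 := hS.g2
  have hRS : LFIN.FZ (fun v : Pl => RS (sy v) (X ^ 3 + x * Y ^ 3) p q p' q' r) := by
    unfold RS ASE
    exact (((key _ _ hn hG1).sub (key _ _ hn hG2)).add (key _ _ LEV.w_ne hn)).sub
      ((((key _ _ hn (l1 2)).add (key _ _ hn (l2 1))).sub (key _ _ hn (l1 1))).sub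
        (key _ _ hn (l2 2)))
  have hE := (hSV.sub hRS).2
  have h0 : ∀ v : Pl, v ≠ none → SVE (sy v) x p q p' q' X Y -
      RS (sy v) (X ^ 3 + x * Y ^ 3) p q p' q' r = 0 := by
    intro v hv
    cases v with
    | none => exact absurd rfl hv
    | some π =>
      exact sub_eq_zero.2 (tame hSTM hSPP hLCI hIF1 hIF2 hIF4 hF6R hF7U π hr hx hS hX hY hn hD)
  rw [finsum_eq_single _ none h0] at hE
  exact sub_eq_zero.1 hE

end Pool.Agent.PTK


end

section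

/-!
# MAL: summary of the joint governing field with pairs of classes, `Q = 2 (mod 3)`
-/

set_option autoImplicit false

open NumberField IsDedekindDomain Finset
open scoped nonZeroDivisors Pointwise

namespace Pool.Agent.PTK

open Pool.Agent.Lib_helper18 Pool.Agent.Lib_helper18.Eis Pool.Agent.Lib_helper84.Cub
open Pool.Agent.PT Pool.Agent.PTE Pool.Agent.PT3 Pool.Agent.PTL Pool.Agent.PTN

namespace MAL

/-- one class, with no norm, is a system of stage 1 -/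
theorem sys1 {M N : ℕ} {z : Fin M → Eis} {α β : Fin N → Fin M} {P Q P' Q' : Fin N → Eis}
    (hS : SysZ z α β P Q P' Q') (i : Fin M) :
    SysK (z i) (Fin.elim0 : Fin 0 → Eis) Fin.elim0 Fin.elim0 Fin.elim0 Fin.elim0 := by
  refine ⟨fun c₀ c h hc => ?_, fun j => j.elim0, hS.cz i, fun j => j.elim0⟩
  refine hS.ind (Function.update 0 i c₀) ⟨i, ?_⟩ ?_
  · rw [Function.update_self]
    rcases h with h | ⟨j, _⟩
    · exact h
    · exact j.elim0
  · obtain ⟨t, ht⟩ := hc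
    refine ⟨t, ht.trans ?_⟩
    rw [Finset.univ_eq_empty, Finset.prod_empty, mul_one, Finset.prod_eq_single i,
      Function.update_self]
    · intro j _ hj
      rw [Function.update_of_ne hj, Pi.zero_apply, pow_zero]
    · intro h
      exact absurd (Finset.mem_univ _) h

/-- the governing field for one class -/
theorem gov1 {M N : ℕ} {z : Fin M → Eis} {α : Fin N → Fin M} {P Q P' Q' : Fin N → Eis}
    {f : ℕ} {L : Type} [Field L] [NumberField L] {ζ : L} {ι : Eis →+* L}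
    (hG : GovZ z α P Q P' Q' f L ζ ι) (i : Fin M) :
    GovK (z i) (Fin.elim0 : Fin 0 → Eis) Fin.elim0 Fin.elim0 Fin.elim0 Fin.elim0 f L ζ ι :=
  ⟨hG.gal, hG.prim, hG.nine, hG.hω, hG.rz i, fun j => j.elim0, fun j => j.elim0,
    fun j => j.elim0⟩

end MAL

theorem MAL_thm (hMZF : Stmt_MZF) (hGCHI : GCHI) (hGTG : GTG) (hGFRG : GFRG) (hGTK : Stmt_GTK)
    (hGFK : Stmt_GFK) (hMC1 : Stmt_MC1) (hMC2 : Stmt_MC2) : Stmt_MAL := by
  classical
  intro s b p q p' q' M N z α β P Q P' Q' f hSG hSZ hf h9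
  obtain ⟨L, hF, hN, ζ, ι, hJ⟩ := hMZF s M N b p q p' q' z α β P Q P' Q' f hSG hSZ hf h9
  have hG := hJ.minus
  have hGp := hJ.plus
  haveI := hG.gal
  obtain ⟨χ, hχs, hχζ, hχF⟩ := hGCHI L f ζ hf hG.prim
  obtain ⟨N₁, hFr1⟩ := hGFRG s b p q p' q' f L ζ (ι w) hSG hGp
  choose N₂ hFr2 using fun r : Fin N => hGFK 1 (z (α r)) (fun _ => z (β r)) (fun _ => P r)
    (fun _ => Q r) (fun _ => P' r) (fun _ => Q' r) f L ζ ι (hSZ.one r) (hG.one r)
  choose N₃ hFr3 using fun i : Fin M => hGFK 0 (z i) Fin.elim0 Fin.elim0 Fin.elim0 Fin.elim0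
    Fin.elim0 f L ζ ι (MAL.sys1 hSZ i) (MAL.gov1 hG i)
  have hω3 : ι w ^ 3 = 1 := GC.om3 (GCK.om ι)
  have hf1 : 1 < f := by
    obtain ⟨c, hc⟩ := h9
    omega
  have hTp := hGTG s b p q p' q' f L ζ (ι w) hSG hGp
  have hT := fun r : Fin N => hGTK 1 (z (α r)) (fun _ => z (β r)) (fun _ => P r)
    (fun _ => Q r) (fun _ => P' r) (fun _ => Q' r) f L ζ ι (hSZ.one r) (hG.one r) 0
  -- action on ω
  have hM : ∀ g : L ≃ₐ[ℚ] L, M2 (χ g) → g (ι w) = ι w ^ 2 := by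
    intro g hg
    rw [hG.hω, map_pow, hχζ g, ← pow_mul, mul_comm, pow_mul, ← hG.hω]
    apply GALD.om_congr hω3
    unfold M2 at hg
    omega
  -- the plus part
  let tt : (L ≃ₐ[ℚ] L) → Fin s → Fin s → ZMod 3 := fun g j i =>
    if h : j ≠ i ∧ g (ι w) = ι w ^ 2 then ((hTp j i h.1).1 g h.2).choose else 0
  have htt : ∀ (g : L ≃ₐ[ℚ] L) (j i : Fin s), j ≠ i → g (ι w) = ι w ^ 2 →
      IsT b p q p' q' (ι w) g j i (tt g j i) := by
    intro g j i hji hg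
    have h : j ≠ i ∧ g (ι w) = ι w ^ 2 := ⟨hji, hg⟩
    have e : tt g j i = ((hTp j i h.1).1 g h.2).choose := dif_pos h
    rw [e]
    exact ((hTp j i h.1).1 g h.2).choose_spec.1
  have httu : ∀ (g : L ≃ₐ[ℚ] L) (j i : Fin s) (c : ZMod 3), j ≠ i → g (ι w) = ι w ^ 2 →
      IsT b p q p' q' (ι w) g j i c → tt g j i = c := by
    intro g j i c hji hg hc
    exact ((hTp j i hji).1 g hg).unique (htt g j i hji hg) hc
  -- the minus part
  let F : (L ≃ₐ[ℚ] L) → Prop := fun g => g (ι w) = ι w ^ 2 ∧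
    ∀ (i : Fin M) (ρ : L), ρ ^ 3 = ι (z i) → g (g ρ) = ρ
  have hFx : ∀ (g : L ≃ₐ[ℚ] L), F g → ∀ r : Fin N,
      FxK (z (α r)) (fun _ : Fin 1 => z (β r)) ι g := fun g hg r => ⟨hg.2 _, fun _ => hg.2 _⟩
  let t : (L ≃ₐ[ℚ] L) → Fin N → ZMod 3 := fun g r =>
    if h : F g then ((hT r).1 g h.1 (hFx g h r)).choose else 0
  have ht : ∀ (g : L ≃ₐ[ℚ] L) (r : Fin N), F g → IsTK (z (α r)) (fun _ : Fin 1 => P r)
      (fun _ => Q r) (fun _ => P' r) (fun _ => Q' r) ι g 0 (t g r) := by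
    intro g r h
    have e : t g r = ((hT r).1 g h.1 (hFx g h r)).choose := dif_pos h
    rw [e]
    exact ((hT r).1 g h.1 (hFx g h r)).choose_spec.1
  have htu : ∀ (g : L ≃ₐ[ℚ] L) (r : Fin N) (c : ZMod 3), F g →
      IsTK (z (α r)) (fun _ : Fin 1 => P r) (fun _ => Q r) (fun _ => P' r) (fun _ => Q' r)
        ι g 0 c → t g r = c := by
    intro g r c h hc
    exact ((hT r).1 g h.1 (hFx g h r)).unique (ht g r h) hc
  have hconj : ∀ g τ : L ≃ₐ[ℚ] L, F g → (τ * g * τ⁻¹) (ι w) = ι w ^ 2 := by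
    intro g τ hg
    rcases GAK.cases_om ι τ with hτ | hτ
    · rw [AlgEquiv.mul_apply, AlgEquiv.mul_apply, GAK.inv_fix hτ, hg.1, map_pow, hτ]
    · have h2 : τ⁻¹ (ι w) = ι w ^ 2 := by
        have h1 : τ (ι w ^ 2) = ι w := by rw [map_pow, hτ, GAK.om4]
        conv_lhs => rw [← h1]
        rw [← AlgEquiv.mul_apply, inv_mul_cancel]
        rfl
      rw [AlgEquiv.mul_apply, AlgEquiv.mul_apply, h2, map_pow, hg.1, GAK.om4, hτ]
  have hFk : ∀ (g : L ≃ₐ[ℚ] L), F g → ∀ i : Fin M, FxK (z i) z ι g :=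
    fun g hg i => ⟨hg.2 i, hg.2⟩
  refine ⟨L, hF, hN, hG.gal, χ, tt, F, t,
    max N₁ (max (Finset.univ.sup N₂) (Finset.univ.sup N₃)), hχs, ?_, ?_, ?_, ?_, ?_, ?_⟩
  · intro g τ hg j i hji
    have h1 : χ (τ * g * τ⁻¹) = χ g := by
      rw [map_mul, map_mul, map_inv, mul_comm (χ τ), mul_inv_cancel_right]
    apply httu _ _ _ _ hji
    · apply hM
      rw [h1]
      exact hg
    · exact (hTp j i hji).2.1 g τ _ (hM g hg) (htt g j i hji (hM g hg))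
  · intro g l hg hl j i hji
    apply httu _ _ _ _ hji
    · rw [GALD.pow_om hω3 g (hM g hg) l]
      apply GALD.om_congr hω3
      rw [GALD.two_pow_odd hl]
    · exact (hTp j i hji).2.2 g _ l (hM g hg) hl (htt g j i hji (hM g hg))
  · intro g τ _ hg
    have hF' : F (τ * g * τ⁻¹) :=
      ⟨hconj g τ hg, fun i => (GAK.fxk_conj τ hg.1 (hFk g hg i)).1⟩
    refine ⟨hF', funext fun r => ?_⟩
    exact htu _ _ _ hF' ((hT r).2.1 g τ _ hg.1 (hFx g hg r) (ht g r hg)).2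
  · intro g l _ hg hl
    have hF' : F (g ^ l) := by
      refine ⟨?_, fun i => (GAK.fxk_pow (hFk g hg i) l).1⟩
      rw [GALD.pow_om hω3 g hg.1 l]
      apply GALD.om_congr hω3
      rw [GALD.two_pow_odd hl]
    refine ⟨hF', funext fun r => ?_⟩
    rw [Pi.smul_apply, smul_eq_mul]
    exact htu _ _ _ hF' ((hT r).2.2 g _ l hg.1 (hFx g hg r) hl (ht g r hg)).2
  · intro a v v' y y' ha
    obtain ⟨z₁, h1F, h1p, h1m⟩ := hMC1 s M N b p q p' q' z α β P Q P' Q' f L ζ ι hSG hSZ hJ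
      (fun j => y j - y' j)
    obtain ⟨z₂, h2F, h2p, h2m⟩ := hMC2 s M N b p q p' q' z α β P Q P' Q' f L ζ ι hSG hSZ hJ
      (fun j i => v j i - v' j i)
    obtain ⟨σ, hσ⟩ : ∃ σ, σ = z₁ * z₂ := ⟨_, rfl⟩
    have hza : ∀ y : L, σ y = z₁ (z₂ y) := fun y => by rw [hσ]; rfl
    have hzζ : σ ζ = ζ := by rw [hza, h2F.ze, h1F.ze]
    have hzω : σ (ι w) = ι w := by rw [hG.hω, map_pow, hzζ]
    have h1ω : z₁ (ι w) = ι w := by rw [hG.hω, map_pow, h1F.ze]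
    have hzz : ∀ (i : Fin M) (ρ : L), ρ ^ 3 = ι (z i) → σ ρ = ρ := fun i ρ hρ => by
      rw [hza, h2F.rz i ρ hρ, h1F.rz i ρ hρ]
    have hzb : ∀ (j : Fin s) (ρ : L), ρ ^ 3 = (b j : L) → σ ρ = ρ := fun j ρ hρ => by
      rw [hza, h2F.rb j ρ hρ, h1F.rb j ρ hρ]
    have hzP : ∀ (j i : Fin s), j < i → ∀ (ρ A : L), PrP b p q p' q' ι j i ρ A →
        σ A = ι w ^ (v j i - v' j i).val * A := by
      intro j i hji ρ A hA
      rw [hza, h2p j i ρ A hji hA, map_mul, map_pow, h1ω, h1p j i ρ A hji.ne hA]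
    have hzM : ∀ (j : Fin N) (ρ A : L), PrW z α P Q P' Q' ι j ρ A →
        σ A = ι w ^ (y j - y' j).val * A ∧
        ∀ g : L ≃ₐ[ℚ] L, g (ι w) = ι w ^ 2 → σ (g A) = ι w ^ (- (y j - y' j)).val * g A := by
      intro j ρ A hA
      obtain ⟨e1, e2⟩ := h1m j ρ A hA
      obtain ⟨e3, e4⟩ := h2m j ρ A hA
      refine ⟨by rw [hza, e3, e1], fun g hg => ?_⟩
      rw [hza, e4 g hg, e2 g hg]
    have hχz : χ σ = 1 := by
      have h1 := hχζ σ
      rw [hzζ] at h1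
      haveI : NeZero f := ⟨hf.ne'⟩
      have h2 : ((χ σ : ZMod f)).val = 1 := by
        apply hG.prim.pow_inj (ZMod.val_lt _) hf1
        rw [← h1, pow_one]
      apply Units.ext
      have h3 := ZMod.natCast_zmod_val (χ σ : ZMod f)
      rw [h2] at h3
      rw [← h3]
      simp
    have hFz : ∀ g : L ≃ₐ[ℚ] L, F g → F (g * σ) := by
      intro g hg
      refine ⟨?_, fun i =>
        (GAK.fxk_mul (hSZ.cz i) hSZ.cz hg.1 hzω (hzz i) hzz (hFk g hg i)).1⟩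
      rw [AlgEquiv.mul_apply, hzω, hg.1]
    have hFz' : ∀ g : L ≃ₐ[ℚ] L, F (g * σ) → F g := by
      intro g hg
      have h1 : F (g * σ * σ⁻¹) := by
        refine ⟨?_, fun i => (GAK.fxk_mul (hSZ.cz i) hSZ.cz hg.1 (GAK.inv_fix hzω)
          (fun ρ hρ => GAK.inv_fix (hzz i ρ hρ)) (fun j ρ hρ => GAK.inv_fix (hzz j ρ hρ))
          (hFk _ hg i)).1⟩
        rw [AlgEquiv.mul_apply, GAK.inv_fix hzω, hg.1]
      rwa [mul_inv_cancel_right] at h1
    have key : ∀ g : L ≃ₐ[ℚ] L, F g → ∀ j, t (g * σ) j = t g j - (y j - y' j) := by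
      intro g hg j
      apply htu _ _ _ (hFz g hg)
      intro ρ A hρ hA
      obtain ⟨h1, h2⟩ := hzM j ρ A ⟨hρ, hA⟩
      have h3 := h2 g hg.1
      have h4 := ht g j hg ρ A hρ hA
      rw [AlgEquiv.mul_apply, AlgEquiv.mul_apply, h1, map_mul, map_pow, hg.1, map_mul, map_pow,
        map_pow, hzω, h3, map_mul, map_mul, map_pow, map_pow, map_pow, hg.1, h4]
      rw [← mul_assoc, ← mul_assoc, ← pow_mul, ← pow_mul, ← pow_mul, ← pow_add, ← pow_add]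
      congr 1
      apply GALD.om_congr hω3
      have h5 := GAK.val_calc (y j - y' j) (t g j)
      omega
    have keyp : ∀ g : L ≃ₐ[ℚ] L, g (ι w) = ι w ^ 2 → ∀ j i, j < i →
        tt (g * σ) j i = tt g j i - (v j i - v' j i) := by
      intro g hg j i hji
      have hgz : (g * σ) (ι w) = ι w ^ 2 := by rw [AlgEquiv.mul_apply, hzω, hg]
      apply httu _ _ _ _ hji.ne hgz
      intro ρ A hρ hgρ hA
      rw [AlgEquiv.mul_apply, hzb j ρ hρ] at hgρ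
      have h1 := htt g j i hji.ne hg ρ A hρ hgρ hA
      rw [AlgEquiv.mul_apply, hzP j i hji ρ A ⟨hρ, hA⟩, map_mul, map_pow, hg, mul_assoc, h1,
        ← pow_mul, ← pow_add]
      apply GALD.om_congr hω3
      have : ((2 * (v j i - v' j i).val + (tt g j i).val : ℕ) : ZMod 3) =
          (((tt g j i - (v j i - v' j i)).val : ℕ) : ZMod 3) := by
        push_cast
        rw [ZMod.natCast_zmod_val, ZMod.natCast_zmod_val, ZMod.natCast_zmod_val]
        have h3 : (3 : ZMod 3) = 0 := by decide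
        linear_combination (v j i - v' j i) * h3
      exact (ZMod.natCast_eq_natCast_iff' _ _ 3).mp this
    apply Nat.card_congr
    refine Equiv.subtypeEquiv (Equiv.mulRight σ) ?_
    intro g
    have hχ : χ (g * σ) = χ g := by rw [map_mul, hχz, mul_one]
    show (χ g = a ∧ F g ∧ t g = y ∧ ∀ j i, j < i → tt g j i = v j i) ↔
      (χ (g * σ) = a ∧ F (g * σ) ∧ t (g * σ) = y' ∧ ∀ j i, j < i → tt (g * σ) j i = v' j i)
    rw [hχ]
    constructor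
    · rintro ⟨h1, h2, h3, h4⟩
      refine ⟨h1, hFz g h2, funext fun j => ?_, fun j i hji => ?_⟩
      · rw [key g h2 j, h3]
        ring
      · rw [keyp g (hM g (by rw [h1]; exact ha)) j i hji, h4 j i hji]
        ring
    · rintro ⟨h1, h2, h3, h4⟩
      refine ⟨h1, hFz' g h2, funext fun j => ?_, fun j i hji => ?_⟩
      · have h5 := congrFun h3 j
        rw [key g (hFz' g h2) j] at h5
        linear_combination h5
      · have h5 := h4 j i hji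
        rw [keyp g (hM g (by rw [h1]; exact ha)) j i hji] at h5
        linear_combination h5
  · intro q₀ hq hqp hN₀ I g hI hqI hst
    haveI := hI
    have hN₂ : ∀ r, N₂ r < q₀ := fun r => (Finset.le_sup (f := N₂) (Finset.mem_univ r)).trans_lt
      (((le_max_left _ _).trans (le_max_right _ _)).trans_lt hN₀)
    have hN₃ : ∀ i, N₃ i < q₀ := fun i => (Finset.le_sup (f := N₃) (Finset.mem_univ i)).trans_lt
      (((le_max_right _ _).trans (le_max_right _ _)).trans_lt hN₀)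
    obtain ⟨h1, h2⟩ := hFr1 q₀ hqp ((le_max_left _ _).trans_lt hN₀) I hI hqI
    obtain ⟨l, hl, hfr⟩ := h1 g hst
    refine ⟨l, hl, hχF q₀ hq hqp I (g ^ l) hI hqI hfr, ?_⟩
    intro hq3
    obtain ⟨h3, h4⟩ := h2 (g ^ l) hfr hq3
    refine ⟨fun j i hji r hr => h4 j i hji r _ hr (htt (g ^ l) j i hji h3), fun hz => ?_⟩
    have hF' : F (g ^ l) := ⟨h3, fun i =>
      (((hFr3 i q₀ hqp (hN₃ i) I hI hqI).2 (g ^ l) hfr hq3).2 (hz i)
        (fun j => j.elim0)).1.1⟩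
    refine ⟨hF', fun r ξ hξ => ?_⟩
    exact (((hFr2 r q₀ hqp (hN₂ r) I hI hqI).2 (g ^ l) hfr hq3).2 (hz _)
      (fun _ => hz _)).2 0 ξ _ hξ (ht (g ^ l) r hF')

end Pool.Agent.PTK


end

section

/-!
# PTK_CTK: the number of the primes with a given class
-/

set_option autoImplicit false

open NumberField IsDedekindDomain Finset
open scoped nonZeroDivisors Pointwise

namespace Pool.Agent.PTK

open Pool.Agent.Lib_helper18 Pool.Agent.Lib_helper18.Eis Pool.Agent.Lib_helper84.Cub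
open Pool.Agent.PT Pool.Agent.PTE Pool.Agent.PT3 Pool.Agent.PTL Pool.Agent.PTN

namespace CTK

theorem neg_of_two {x y : ZMod 3} (h : ((2 : ℕ) : ZMod 3) * x = y) : x = -y := by
  rw [← h]
  clear h y
  revert x
  decide

theorem zero_of_mul {E : ℕ} (hE : E = 1 ∨ E = 2) {x : ZMod 3} (h : (E : ZMod 3) * x = 0) :
    x = 0 := by
  rcases hE with rfl | rfl
  · rwa [Nat.cast_one, one_mul] at h
  · rw [neg_of_two h, neg_zero]

/-- The homomorphism with given components. -/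
def assemble {s F : ℕ} (Φ : Fin s → ((ZMod F)ˣ →* Multiplicative (ZMod 3))) :
    (ZMod F)ˣ →* Multiplicative (Fin s → ZMod 3) where
  toFun := fun a => Multiplicative.ofAdd fun j => (Φ j a).toAdd
  map_one' := by
    apply Multiplicative.toAdd.injective
    funext j
    simp
  map_mul' := fun a a' => by
    apply Multiplicative.toAdd.injective
    funext j
    simp

theorem assemble_apply {s F : ℕ} (Φ : Fin s → ((ZMod F)ˣ →* Multiplicative (ZMod 3)))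
    (a : (ZMod F)ˣ) (j : Fin s) : (assemble Φ a).toAdd j = (Φ j a).toAdd := rfl

theorem nat_dvd {a b : ℕ} (h : (a : Eis) ∣ (b : Eis)) : a ∣ b := by
  have h1 : ((a : ℤ) : Eis) ∣ ((b : ℤ) : Eis) := by
    rw [Int.cast_natCast, Int.cast_natCast]
    exact h
  exact Int.natCast_dvd_natCast.1 (intCast_dvd_intCast.1 h1)

/-- the symbol at `q` vanishes -/
theorem sym_zero (hSPP : SPP) {q : ℕ} (hq : q.Prime) (hq3 : q % 3 = 2) {E N : ℕ}
    (hE : E = 1 ∨ E = 2) (hqN : ¬ q ∣ N) {z : Eis} (hz : ¬ (q : Eis) ∣ z)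
    (htm : ∀ σ : PP, tm σ.1 z ((N : Eis) * (q : Eis) ^ E) = 0) : sym (q : Eis) z = 0 := by
  obtain ⟨σ, hσ⟩ := hSPP.2.2.2.2.1 q hq hq3
  have hp : Prime (q : Eis) := hσ ▸ σ.2.1
  have hN : ¬ (q : Eis) ∣ (N : Eis) := fun h => hqN (nat_dvd h)
  have h1 := htm σ
  rw [hσ] at h1
  unfold tm at h1
  rw [V_mul_not_dvd hp hN (pow_ne_zero _ hp.ne_zero), V_pow hp hp.ne_zero, V_self,
    V_eq_zero hz, EHYP.ch_of_not_dvd hp hz, Nat.cast_zero, zero_mul, sub_zero, mul_one] at h1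
  exact zero_of_mul hE h1

end CTK

open _root_.Pool.Agent.PTK.CTK in
/-- PTK_CTK. -/
theorem CTK_thm (hSPP : SPP) (hCLSC : CLSC) (hSYK : Stmt_SYK) (hDCK : Stmt_DCK) (hZS : Stmt_ZS)
    (hPT : Stmt_PT) (hBDK : Stmt_BDK) (hZA : Stmt_ZA) : Stmt_CTK := by
  classical
  intro h n m k π p e r f w0 c hNF hh y hy s u hu hind
  have hn0 : 0 < n := PT.FINA.pos_of_nf hNF
  have hN0 : 0 < 3 ^ h * n := Nat.mul_pos (pow_pos (by norm_num) _) hn0
  have hBB : ∀ E q : ℕ, ((BB h n E q : ℤ) : Eis) = ((3 ^ h * n : ℕ) : Eis) * (q : Eis) ^ E := by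
    intro E q
    unfold BB
    push_cast
    ring
  obtain ⟨P, Q, P', Q', hSys, hHyp⟩ := hSYK h n m k π p e r f w0 c hNF hh y hy s u hu hind
  have hy0 : y ≠ 0 := by
    have h1 := hind.ne_zero 0
    rwa [Fin.cons_zero] at h1
  obtain ⟨hx0, -, -, -, -, -, -, -, -, hxc⟩ := hZA n m k π p e r f hNF y
  have hxnc : ¬ ∃ t : Eis, t ^ 3 = zN π e y := fun ht => hy0 (hxc ht)
  have hnd : ∀ (v : Fin (m + 1) → ZMod 3) (q : ℕ), q.Prime → q % 3 = 2 → ¬ q ∣ n →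
      ¬ (q : Eis) ∣ zN π e v := by
    intro v q hq hq3 hqn
    obtain ⟨-, -, -, h4, -⟩ := hZA n m k π p e r f hNF v
    obtain ⟨σ, hσ⟩ := hSPP.2.2.2.2.1 q hq hq3
    have h5 := h4 σ
    rw [hσ] at h5
    exact h5 fun h6 => hqn (nat_dvd h6)
  -- the conductor
  choose F0 hF0 hF1 using fun j => hDCK (3 ^ h * n) (zN π e (u j)) (zN π e y) (P j) (Q j) (P' j)
    (Q' j) (hHyp j)
  obtain ⟨F, hFpos, hF9, hpF, hFd⟩ : ∃ F : ℕ, 0 < F ∧ 9 ∣ F ∧ (∀ i, p i ∣ F) ∧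
      ∀ j, F0 j ∣ F := by
    refine ⟨9 * (∏ i, p i) * ∏ j, F0 j, ?_, ?_, ?_, ?_⟩
    · have h1 : 0 < ∏ i, p i := Finset.prod_pos fun i _ => (hNF.pp i).pos
      have h2 : 0 < ∏ j, F0 j := Finset.prod_pos fun j _ => hF0 j
      positivity
    · exact Dvd.dvd.mul_right (Dvd.intro _ rfl) _
    · intro i
      exact Dvd.dvd.mul_right (Dvd.dvd.mul_left (Finset.dvd_prod_of_mem p (mem_univ i)) _) _
    · intro j
      exact Dvd.dvd.mul_left (Finset.dvd_prod_of_mem F0 (mem_univ j)) _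
  choose C Φ N₀ hC using fun j => hF1 j F hFpos (hFd j)
  obtain ⟨κ, hκ1, hκ2⟩ := hCLSC m π p hNF.pp hNF.p1 hNF.pπ hNF.pinj F hFpos hF9 hpF
  obtain ⟨M, hM⟩ : ∃ M, M = 3 ^ h * n + F + ∑ j, N₀ j := ⟨_, rfl⟩
  have hMN : ∀ j, N₀ j ≤ ∑ j, N₀ j := fun j =>
    Finset.single_le_sum (f := N₀) (fun i _ => Nat.zero_le _) (mem_univ j)
  have hmain : ∀ (E q : ℕ), (E = 1 ∨ E = 2) → q.Prime → M < q → q ∈ QY h n π e w0 c y E →
      ∃ hQ : q.Coprime F, sym (q : Eis) (zN π e y) = 0 ∧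
        (∀ j, sym (q : Eis) (zN π e (u j)) = 0) ∧
        ∀ (j : Fin s) (ξ : Eis), (q : Eis) ∣ ξ ^ 3 - zN π e y →
          C j + E * ((Φ j (ZMod.unitOfCoprime q hQ)).toAdd -
            TAUE q (P j) (Q j) (P' j) (Q' j) ξ) = 0 := by
    intro E q hE hq hqM ⟨hq3, hIn, hOcc⟩
    have hqN : ¬ q ∣ 3 ^ h * n := fun h => by
      have := Nat.le_of_dvd hN0 h
      omega
    have hqn : ¬ q ∣ n := fun h => hqN (Dvd.dvd.mul_left h _)
    have hQ : q.Coprime F := by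
      rw [Nat.Prime.coprime_iff_not_dvd hq]
      intro h
      have := Nat.le_of_dvd hFpos h
      omega
    have hSel : ∀ v ∈ VS h n π p e r w0 c, ∀ σ : PP,
        tm σ.1 (zN π e v) (((3 ^ h * n : ℕ) : Eis) * (q : Eis) ^ E) = 0 := by
      intro v hv σ
      have h1 := (hZS h n m k π p e r f w0 c E q hNF hh hE hq hq3 hIn hqn v hv).sym σ
      rwa [hBB] at h1
    have hB0 : BB h n E q ≠ 0 := by
      unfold BB
      have h3 : (3 : ℤ) ^ h ≠ 0 := pow_ne_zero _ (by norm_num)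
      have h4 : (n : ℤ) ≠ 0 := by exact_mod_cast hn0.ne'
      have h5 : (q : ℤ) ^ E ≠ 0 := pow_ne_zero _ (by exact_mod_cast hq.ne_zero)
      exact mul_ne_zero (mul_ne_zero h3 h4) h5
    obtain ⟨X, Y, hpt⟩ := hPT (BB h n E q) (zN π e y) hB0 hx0 hxnc hOcc
    rw [hBB] at hpt
    refine ⟨hQ, sym_zero hSPP hq hq3 hE hqN (hnd y q hq hq3 hqn) (hSel y hy),
      fun j => sym_zero hSPP hq hq3 hE hqN (hnd (u j) q hq hq3 hqn) (hSel (u j) (hu j).1), ?_⟩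
    intro j ξ hξ
    exact hC j E q hQ hE hq (by have := hMN j; omega) hq3 (hSel (u j) (hu j).1) (hSel y hy)
      X Y ξ hpt hξ
  obtain ⟨K, hK⟩ := hBDK s (zN π e y) (fun j => zN π e (u j)) P Q P' Q' F m κ (Fin.cons w0 c) C
    (assemble Φ) hSys hFpos hF9 hκ2
  refine ⟨K + 2 * (2 * ((Finset.range (M + 1)).card : ℝ)), fun σ h1 hσ2 => ?_⟩
  have hB := hK σ h1 hσ2
  have hsub1 : ∀ q : ℕ, q.Prime → M < q → q ∈ QY h n π e w0 c y 1 →
      q ∈ SPK (zN π e y) (fun j => zN π e (u j)) P Q P' Q' κ (Fin.cons w0 c) C (assemble Φ) := by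
    intro q hq hqM hqY
    obtain ⟨hQ, h2, h3, h4⟩ := hmain 1 q (Or.inl rfl) hq hqM hqY
    obtain ⟨hq3, hIn, -⟩ := hqY
    refine ⟨hQ, hq3, ?_, h2, h3, ?_⟩
    · rw [hκ1]
      funext i
      refine Fin.cases ?_ (fun i => ?_) i
      · rw [Fin.cons_zero, Fin.cons_zero]
        have h5 := hIn.1
        rw [pow_one] at h5
        exact h5
      · rw [Fin.cons_succ, Fin.cons_succ]
        have h5 := hIn.2 i
        rw [Nat.cast_one, one_mul] at h5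
        exact h5
    · intro j ξ hξ
      have h5 := h4 j ξ hξ
      rw [assemble_apply]
      rw [Nat.cast_one, one_mul] at h5
      linear_combination -h5
  have hsub2 : ∀ q : ℕ, q.Prime → M < q → q ∈ QY h n π e w0 c y 2 →
      q ∈ SMK (zN π e y) (fun j => zN π e (u j)) P Q P' Q' κ (Fin.cons w0 c) C (assemble Φ) := by
    intro q hq hqM hqY
    obtain ⟨hQ, h2, h3, h4⟩ := hmain 2 q (Or.inr rfl) hq hqM hqY
    obtain ⟨hq3, hIn, -⟩ := hqY
    refine ⟨hQ, hq3, ?_, h2, h3, ?_⟩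
    · rw [hκ1]
      funext i
      refine Fin.cases ?_ (fun i => ?_) i
      · rw [Fin.cons_zero, Pi.neg_apply, Fin.cons_zero]
        have h5 := hIn.1
        rw [CL.wt_sq2 hq3] at h5
        exact neg_of_two h5
      · rw [Fin.cons_succ, Pi.neg_apply, Fin.cons_succ]
        exact neg_of_two (hIn.2 i)
    · intro j ξ hξ
      have h5 := h4 j ξ hξ
      rw [assemble_apply]
      rw [show ((2 : ℕ) : ZMod 3) = -1 from by decide] at h5
      linear_combination h5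
  have i1 := CL.sm_le_add _ _ M hsub1 h1
  have i2 := CL.sm_le_add _ _ M hsub2 h1
  linarith

end Pool.Agent.PTK


end

section

/-!
# PTK_MSKU: the primes for which a class is the class of a point, `q = 1 (mod 3)`
-/

set_option autoImplicit false

open NumberField IsDedekindDomain Finset
open scoped nonZeroDivisors Pointwise

namespace Pool.Agent.PTK

open Pool.Agent.Lib_helper18 Pool.Agent.Lib_helper18.Eis Pool.Agent.Lib_helper84.Cub
open Pool.Agent.PT Pool.Agent.PTE Pool.Agent.PT3 Pool.Agent.PTL Pool.Agent.PTN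

namespace MSKU

/-- a prime factor of a prime `q = 1 (mod 3)` divides no number prime to `q` -/
theorem not_dvd {ρ : PP} {q : ℕ} (hq : q.Prime) (hρ : (q : Eis) = ρ.1 * conj ρ.1) {N : ℕ}
    (hqN : ¬ q ∣ N) : ¬ ρ.1 ∣ (N : Eis) := by
  have : Fact q.Prime := ⟨hq⟩
  rw [dvd_natCast_iff (CLSC.norm_of _ _ hρ)]
  exact hqN

/-- the symbol at a prime factor of `q` vanishes -/
theorem sym_zero {ρ : PP} {q : ℕ} (hq : q.Prime) (hq3 : q % 3 = 1)
    (hρ : (q : Eis) = ρ.1 * conj ρ.1) {E N : ℕ}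
    (hE : E = 1 ∨ E = 2) (hqN : ¬ q ∣ N) {z : Eis} (hz : ¬ ρ.1 ∣ z)
    (htm : ∀ σ : PP, tm σ.1 z ((N : Eis) * (q : Eis) ^ E) = 0) : sym ρ.1 z = 0 := by
  have : Fact q.Prime := ⟨hq⟩
  have hn := CLSC.norm_of _ _ hρ
  have hp : Prime ρ.1 := ρ.2.1
  have hN : ¬ ρ.1 ∣ (N : Eis) := not_dvd hq hρ hqN
  have hcp : conj ρ.1 ≠ 0 := fun h => hp.ne_zero (by
    have h1 := congrArg conj h
    rwa [conj_conj, map_zero] at h1)
  have hq0 : (q : Eis) ≠ 0 := by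
    rw [hρ]
    exact mul_ne_zero hp.ne_zero hcp
  have hc : ¬ ρ.1 ∣ conj ρ.1 := not_dvd_conj hq3 hn
  have hV : V ρ.1 (q : Eis) = 1 := by
    rw [hρ, mul_comm, V_mul_not_dvd hp hc hp.ne_zero, V_self]
  have h1 := htm ρ
  unfold tm at h1
  rw [V_mul_not_dvd hp hN (pow_ne_zero _ hq0), V_pow hp hq0, hV,
    V_eq_zero hz, EHYP.ch_of_not_dvd hp hz, Nat.cast_zero, zero_mul, sub_zero, mul_one] at h1
  exact CTK.zero_of_mul hE h1

theorem wt_sq {q : ℕ} (hq : q % 3 = 1) : wt (((q : ℤ) ^ 2) ^ 2) = 2 * wt ((q : ℤ) ^ 2) := by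
  have h : ¬ (3 : ℤ) ∣ (q : ℤ) := by omega
  have h1 := sq_mod_three h
  have h2 : ((q : ℤ) ^ 2) ^ 2 = (q : ℤ) ^ 2 * (q : ℤ) ^ 2 := by ring
  rw [h2, wt_mul h1 h1]
  ring

end MSKU

open _root_.Pool.Agent.PTK.MSKU in
/-- PTK_MSKU. -/
theorem MSKU_thm (hDCKU : Stmt_DCKU) (hZSU : Stmt_ZSU)
    (hPT : Stmt_PT) (hZA : Stmt_ZA) : Stmt_MSKU := by
  classical
  intro h n m k π p e r f w0 c hNF hh y hy s u P Q P' Q' hu hSys hHyp
  have hn0 : 0 < n := PT.FINA.pos_of_nf hNF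
  have hN0 : 0 < 3 ^ h * n := Nat.mul_pos (pow_pos (by norm_num) _) hn0
  have hBB : ∀ E q : ℕ, ((BB h n E q : ℤ) : Eis) = ((3 ^ h * n : ℕ) : Eis) * (q : Eis) ^ E := by
    intro E q
    unfold BB
    push_cast
    ring
  have hxnc : ¬ ∃ t : Eis, t ^ 3 = zN π e y := by
    rintro ⟨t, ht⟩
    exact hSys.ind 1 0 (Or.inl (by norm_num)) ⟨t, by simpa using ht⟩
  obtain ⟨hx0, -⟩ := hZA n m k π p e r f hNF y
  have hnd : ∀ (v : Fin (m + 1) → ZMod 3) (q : ℕ) (ρ : PP), q.Prime →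
      (q : Eis) = ρ.1 * conj ρ.1 → ¬ q ∣ n → ¬ ρ.1 ∣ zN π e v := by
    intro v q ρ hq hρ hqn
    obtain ⟨-, -, -, h4, -⟩ := hZA n m k π p e r f hNF v
    exact h4 ρ (not_dvd hq hρ hqn)
  -- the conductor
  choose F0 hF0 hF1 using fun j => hDCKU (3 ^ h * n) (zN π e (u j)) (zN π e y) (P j) (Q j) (P' j)
    (Q' j) (hHyp j)
  refine ⟨∏ j, F0 j, Finset.prod_pos fun j _ => hF0 j, fun F hFpos hFd κ hκ1 => ?_⟩
  choose C Φ N₀ hC using fun j => hF1 j F hFpos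
    ((Finset.dvd_prod_of_mem F0 (mem_univ j)).trans hFd)
  have hMN : ∀ j, N₀ j ≤ ∑ j, N₀ j := fun j =>
    Finset.single_le_sum (f := N₀) (fun i _ => Nat.zero_le _) (mem_univ j)
  have hmain : ∀ (E q : ℕ), (E = 1 ∨ E = 2) → q.Prime → 3 ^ h * n + F + ∑ j, N₀ j < q →
      q ∈ QYU h n π e w0 c y E →
      ∃ hQ : q.Coprime F, ∀ ρ : PP, (q : Eis) = ρ.1 * conj ρ.1 → sym ρ.1 (zN π e y) = 0 ∧
        (∀ j, sym ρ.1 (zN π e (u j)) = 0) ∧
        ∀ (j : Fin s) (ξ ξ' : Eis), ρ.1 ∣ ξ ^ 3 - zN π e y → conj ρ.1 ∣ ξ' ^ 3 - zN π e y →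
          C j + E * ((Φ j (ZMod.unitOfCoprime q hQ)).toAdd -
            TAUP ρ.1 (P j) (Q j) (P' j) (Q' j) ξ -
            TAUP (conj ρ.1) (P j) (Q j) (P' j) (Q' j) ξ') = 0 := by
    intro E q hE hq hqM ⟨hq3, hIn, hOcc⟩
    have hqN : ¬ q ∣ 3 ^ h * n := fun h => by
      have := Nat.le_of_dvd hN0 h
      omega
    have hqn : ¬ q ∣ n := fun h => hqN (Dvd.dvd.mul_left h _)
    have hQ : q.Coprime F := by
      rw [Nat.Prime.coprime_iff_not_dvd hq]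
      intro h
      have := Nat.le_of_dvd hFpos h
      omega
    have hSel : ∀ v ∈ VS h n π p e r w0 c, ∀ σ : PP,
        tm σ.1 (zN π e v) (((3 ^ h * n : ℕ) : Eis) * (q : Eis) ^ E) = 0 := by
      intro v hv σ
      have h1 := (hZSU h n m k π p e r f w0 c E q hNF hh hE hq hq3 hIn hqn v hv).sym σ
      rwa [hBB] at h1
    have hB0 : BB h n E q ≠ 0 := by
      unfold BB
      have h3 : (3 : ℤ) ^ h ≠ 0 := pow_ne_zero _ (by norm_num)
      have h4 : (n : ℤ) ≠ 0 := by exact_mod_cast hn0.ne'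
      have h5 : (q : ℤ) ^ E ≠ 0 := pow_ne_zero _ (by exact_mod_cast hq.ne_zero)
      exact mul_ne_zero (mul_ne_zero h3 h4) h5
    obtain ⟨X, Y, hpt⟩ := hPT (BB h n E q) (zN π e y) hB0 hx0 hxnc hOcc
    rw [hBB] at hpt
    refine ⟨hQ, fun ρ hρ => ⟨sym_zero hq hq3 hρ hE hqN (hnd y q ρ hq hρ hqn) (hSel y hy),
      fun j => sym_zero hq hq3 hρ hE hqN (hnd (u j) q ρ hq hρ hqn) (hSel (u j) (hu j).1), ?_⟩⟩
    intro j ξ ξ' hξ hξ'
    exact hC j E q hQ ρ hE hq (by have := hMN j; omega) hq3 hρ (hSel (u j) (hu j).1) (hSel y hy)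
      X Y ξ ξ' hpt hξ hξ'
  refine ⟨C, CTK.assemble Φ, 3 ^ h * n + F + ∑ j, N₀ j, fun q hq hqM => ⟨fun hqY => ?_,
    fun hqY => ?_⟩⟩
  · obtain ⟨hQ, h2⟩ := hmain 1 q (Or.inl rfl) hq hqM hqY
    obtain ⟨hq3, hIn, -⟩ := hqY
    refine ⟨hQ, hq3, ?_, fun ρ hρ => ⟨(h2 ρ hρ).1, (h2 ρ hρ).2.1, fun j ξ ξ' hξ hξ' => ?_⟩⟩
    · rw [hκ1]
      funext i
      refine Fin.cases ?_ (fun i => ?_) i
      · rw [Fin.cons_zero, Fin.cons_zero]
        have h5 := hIn.1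
        rw [pow_one] at h5
        exact h5
      · rw [Fin.cons_succ, Fin.cons_succ]
        have h5 := hIn.2 i
        rw [Nat.cast_one, one_mul] at h5
        exact h5
    · have h5 := (h2 ρ hρ).2.2 j ξ ξ' hξ hξ'
      rw [CTK.assemble_apply]
      rw [Nat.cast_one, one_mul] at h5
      linear_combination -h5
  · obtain ⟨hQ, h2⟩ := hmain 2 q (Or.inr rfl) hq hqM hqY
    obtain ⟨hq3, hIn, -⟩ := hqY
    refine ⟨hQ, hq3, ?_, fun ρ hρ => ⟨(h2 ρ hρ).1, (h2 ρ hρ).2.1, fun j ξ ξ' hξ hξ' => ?_⟩⟩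
    · rw [hκ1]
      funext i
      refine Fin.cases ?_ (fun i => ?_) i
      · rw [Fin.cons_zero, Pi.neg_apply, Fin.cons_zero]
        have h5 := hIn.1
        rw [wt_sq hq3] at h5
        exact CTK.neg_of_two h5
      · rw [Fin.cons_succ, Pi.neg_apply, Fin.cons_succ]
        exact CTK.neg_of_two (hIn.2 i)
    · have h5 := (h2 ρ hρ).2.2 j ξ ξ' hξ hξ'
      rw [CTK.assemble_apply]
      rw [show ((2 : ℕ) : ZMod 3) = -1 from by decide] at h5
      linear_combination h5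

end Pool.Agent.PTK


end

section

/-!
# PTK_MS1: the primes of `QM` are in `SPZU`, `SMZU` (`q = 1 (mod 3)`, several base classes)
-/

set_option autoImplicit false

open NumberField IsDedekindDomain Finset
open scoped nonZeroDivisors Pointwise

namespace Pool.Agent.PTK

open Pool.Agent.Lib_helper18 Pool.Agent.Lib_helper18.Eis Pool.Agent.Lib_helper84.Cub
open Pool.Agent.PT Pool.Agent.PTE Pool.Agent.PT3 Pool.Agent.PTL Pool.Agent.PTN

namespace MS1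

/-- a class of a system is no cube -/
theorem not_cube {M N : ℕ} {z : Fin M → Eis} {α β : Fin N → Fin M} {P Q P' Q' : Fin N → Eis}
    (hS : SysZ z α β P Q P' Q') (i : Fin M) : ¬ ∃ t : Eis, t ^ 3 = z i := by
  rintro ⟨t, ht⟩
  refine hS.ind (Pi.single i 1) ⟨i, by rw [Pi.single_eq_same]; norm_num⟩ ⟨t, ?_⟩
  rw [Fintype.prod_eq_single i, Pi.single_eq_same, pow_one, ht]
  intro l hl
  rw [Pi.single_eq_of_ne hl, pow_zero]

/-- `lv B ≠ 1` for `h ≠ 1` -/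
theorem lv_ne (hLCL : LCL) {n m k : ℕ} {π : Fin m → PP} {p e : Fin m → ℕ} {r f : Fin k → ℕ}
    (hNF : NF n π p e r f) {h E q : ℕ} {w0 : ZMod 3} {c : Fin m → ZMod 3} (hh : h ≤ 2)
    (h1 : h ≠ 1) (hq : q.Prime) (hq3 : ¬ 3 ∣ q) (hIn : InCT E π w0 c q) : lv (BB h n E q) ≠ 1 := by
  rw [(HYPT.lvw hLCL hNF hq hq3 hIn.1).1]
  interval_cases h
  · decide
  · exact absurd rfl h1
  · decide

end MS1

open MSKU in
/-- PTK_MS1. -/
theorem MS1_thm (hDCKU : Stmt_DCKU) (hDXL : Stmt_DXL) (hPT : Stmt_PT) (hPTX : Stmt_PTX)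
    (hZSU : Stmt_ZSU) (hZA : Stmt_ZA) (hLCL : LCL) : Stmt_MS1 := by
  classical
  intro h n m k π p e r f w0 c hNF hh M N y α β hT P Q P' Q' hSys hHyp
  have hn0 : 0 < n := PT.FINA.pos_of_nf hNF
  have hN0 : 0 < 3 ^ h * n := Nat.mul_pos (pow_pos (by norm_num) _) hn0
  have hBB : ∀ E q : ℕ, ((BB h n E q : ℤ) : Eis) = ((3 ^ h * n : ℕ) : Eis) * (q : Eis) ^ E := by
    intro E q
    unfold BB
    push_cast
    ring
  have hBZ : ∀ E q : ℕ, BB h n E q = ((3 ^ h * n : ℕ) : ℤ) * (q : ℤ) ^ E := by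
    intro E q
    unfold BB
    push_cast
    ring
  have hxnc : ∀ i, ¬ ∃ t : Eis, t ^ 3 = zN π e (y i) := fun i => MS1.not_cube hSys i
  have hx0 : ∀ i, zN π e (y i) ≠ 0 := fun i => (hZA n m k π p e r f hNF (y i)).1
  have hB0 : ∀ E q : ℕ, q.Prime → BB h n E q ≠ 0 := by
    intro E q hq
    unfold BB
    have h3 : (3 : ℤ) ^ h ≠ 0 := pow_ne_zero _ (by norm_num)
    have h4 : (n : ℤ) ≠ 0 := by exact_mod_cast hn0.ne'
    have h5 : (q : ℤ) ^ E ≠ 0 := pow_ne_zero _ (by exact_mod_cast hq.ne_zero)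
    exact mul_ne_zero (mul_ne_zero h3 h4) h5
  have hnd : ∀ (v : Fin (m + 1) → ZMod 3) (q : ℕ) (ρ : PP), q.Prime →
      (q : Eis) = ρ.1 * conj ρ.1 → ¬ q ∣ n → ¬ ρ.1 ∣ zN π e v := by
    intro v q ρ hq hρ hqn
    obtain ⟨-, -, -, h4, -⟩ := hZA n m k π p e r f hNF v
    exact h4 ρ (not_dvd hq hρ hqn)
  -- the relation for one pair
  have hrel : ∀ j, ∃ f₀ : ℕ, 0 < f₀ ∧ ∀ F : ℕ, 0 < F → f₀ ∣ F →
      ∃ (C : ZMod 3) (Φ : (ZMod F)ˣ →* Multiplicative (ZMod 3)) (N₀ : ℕ),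
      ∀ (E q : ℕ) (hQ : q.Coprime F) (ρ : PP), (E = 1 ∨ E = 2) → q.Prime → N₀ < q → q % 3 = 1 →
        (q : Eis) = ρ.1 * conj ρ.1 → InCT E π w0 c q →
        (∀ σ : PP, tm σ.1 (zN π e (y (β j))) (((3 ^ h * n : ℕ) : Eis) * (q : Eis) ^ E) = 0) →
        (∀ σ : PP, tm σ.1 (zN π e (y (α j))) (((3 ^ h * n : ℕ) : Eis) * (q : Eis) ^ E) = 0) →
        Occ (BB h n E q) (zN π e (y (α j))) →
        ∀ ξ ξ' : Eis, ρ.1 ∣ ξ ^ 3 - zN π e (y (α j)) → conj ρ.1 ∣ ξ' ^ 3 - zN π e (y (α j)) →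
          C + E * ((Φ (ZMod.unitOfCoprime q hQ)).toAdd -
            TAUP ρ.1 (P j) (Q j) (P' j) (Q' j) ξ -
            TAUP (conj ρ.1) (P j) (Q j) (P' j) (Q' j) ξ') = 0 := by
    intro j
    rcases hHyp j with hD | ⟨h1, hX⟩
    · obtain ⟨F0, hF0, hF1⟩ := hDCKU (3 ^ h * n) (zN π e (y (β j))) (zN π e (y (α j))) (P j) (Q j)
        (P' j) (Q' j) hD
      refine ⟨F0, hF0, fun F hF hd => ?_⟩
      obtain ⟨C, Φ, N₀, hC⟩ := hF1 F hF hd
      refine ⟨C, Φ, N₀, fun E q hQ ρ hE hq hN hq3 hρ hIn hb hx hocc ξ ξ' hξ hξ' => ?_⟩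
      obtain ⟨X, Y, hpt⟩ := hPT (BB h n E q) (zN π e (y (α j))) (hB0 E q hq) (hx0 _) (hxnc _) hocc
      rw [hBB] at hpt
      exact hC E q hQ ρ hE hq hN hq3 hρ hb hx X Y ξ ξ' hpt hξ hξ'
    · obtain ⟨F0, hF0, hF1⟩ := hDXL (3 ^ h * n) (zN π e (y (β j))) (zN π e (y (α j))) (P j) (Q j)
        (P' j) (Q' j) hX
      refine ⟨F0, hF0, fun F hF hd => ?_⟩
      obtain ⟨C, Φ, N₀, hC⟩ := hF1 F hF hd
      refine ⟨C, Φ, N₀, fun E q hQ ρ hE hq hN hq3 hρ hIn hb hx hocc ξ ξ' hξ hξ' => ?_⟩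
      obtain ⟨X, Y, hpt, hgp⟩ := hPTX (BB h n E q) (zN π e (y (α j))) (hB0 E q hq)
        (MS1.lv_ne hLCL hNF hh h1 hq (by omega) hIn) (hx0 _) (hxnc _) hocc
      rw [hBB] at hpt
      rw [hBZ] at hgp
      exact hC E q hQ ρ hE hq hN hq3 hρ hb hx X Y ξ ξ' hpt hgp hξ hξ'
  choose F0 hF0 hF1 using hrel
  refine ⟨∏ j, F0 j, Finset.prod_pos fun j _ => hF0 j, fun F hFpos hFd κ hκ1 => ?_⟩
  choose C Φ N₀ hC using fun j => hF1 j F hFpos
    ((Finset.dvd_prod_of_mem F0 (mem_univ j)).trans hFd)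
  have hMN : ∀ j, N₀ j ≤ ∑ j, N₀ j := fun j =>
    Finset.single_le_sum (f := N₀) (fun i _ => Nat.zero_le _) (mem_univ j)
  have hmain : ∀ (E q : ℕ), (E = 1 ∨ E = 2) → q.Prime → 3 ^ h * n + F + ∑ j, N₀ j < q →
      q ∈ QM h n π e w0 c y α 1 E →
      ∃ hQ : q.Coprime F, ∀ ρ : PP, (q : Eis) = ρ.1 * conj ρ.1 →
        (∀ i, sym ρ.1 (zN π e (y i)) = 0) ∧
        ∀ (j : Fin N) (ξ ξ' : Eis), ρ.1 ∣ ξ ^ 3 - zN π e (y (α j)) →
          conj ρ.1 ∣ ξ' ^ 3 - zN π e (y (α j)) →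
          C j + E * ((Φ j (ZMod.unitOfCoprime q hQ)).toAdd -
            TAUP ρ.1 (P j) (Q j) (P' j) (Q' j) ξ -
            TAUP (conj ρ.1) (P j) (Q j) (P' j) (Q' j) ξ') = 0 := by
    intro E q hE hq hqM ⟨hq3, hIn, hOcc⟩
    have hqN : ¬ q ∣ 3 ^ h * n := fun h => by
      have := Nat.le_of_dvd hN0 h
      omega
    have hqn : ¬ q ∣ n := fun h => hqN (Dvd.dvd.mul_left h _)
    have hQ : q.Coprime F := by
      rw [Nat.Prime.coprime_iff_not_dvd hq]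
      intro h
      have := Nat.le_of_dvd hFpos h
      omega
    have hSel : ∀ v ∈ VS h n π p e r w0 c, ∀ σ : PP,
        tm σ.1 (zN π e v) (((3 ^ h * n : ℕ) : Eis) * (q : Eis) ^ E) = 0 := by
      intro v hv σ
      have h1 := (hZSU h n m k π p e r f w0 c E q hNF hh hE hq hq3 hIn hqn v hv).sym σ
      rwa [hBB] at h1
    refine ⟨hQ, fun ρ hρ => ⟨fun i => sym_zero hq hq3 hρ hE hqN (hnd (y i) q ρ hq hρ hqn)
      (hSel (y i) (hT.mem i)), ?_⟩⟩
    intro j ξ ξ' hξ hξ'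
    exact hC j E q hQ ρ hE hq (by have := hMN j; omega) hq3 hρ hIn (hSel _ (hT.mem _))
      (hSel _ (hT.mem _)) (hOcc j) ξ ξ' hξ hξ'
  refine ⟨C, CTK.assemble Φ, 3 ^ h * n + F + ∑ j, N₀ j, fun q hq hqM => ⟨fun hqY => ?_,
    fun hqY => ?_⟩⟩
  · obtain ⟨hQ, h2⟩ := hmain 1 q (Or.inl rfl) hq hqM hqY
    obtain ⟨hq3, hIn, -⟩ := hqY
    refine ⟨hQ, hq3, ?_, fun ρ hρ => ⟨(h2 ρ hρ).1, fun j ξ ξ' hξ hξ' => ?_⟩⟩
    · rw [hκ1]
      funext i
      refine Fin.cases ?_ (fun i => ?_) i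
      · rw [Fin.cons_zero, Fin.cons_zero]
        have h5 := hIn.1
        rw [pow_one] at h5
        exact h5
      · rw [Fin.cons_succ, Fin.cons_succ]
        have h5 := hIn.2 i
        rw [Nat.cast_one, one_mul] at h5
        exact h5
    · have h5 := (h2 ρ hρ).2 j ξ ξ' hξ hξ'
      rw [CTK.assemble_apply]
      rw [Nat.cast_one, one_mul] at h5
      linear_combination -h5
  · obtain ⟨hQ, h2⟩ := hmain 2 q (Or.inr rfl) hq hqM hqY
    obtain ⟨hq3, hIn, -⟩ := hqY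
    refine ⟨hQ, hq3, ?_, fun ρ hρ => ⟨(h2 ρ hρ).1, fun j ξ ξ' hξ hξ' => ?_⟩⟩
    · rw [hκ1]
      funext i
      refine Fin.cases ?_ (fun i => ?_) i
      · rw [Fin.cons_zero, Pi.neg_apply, Fin.cons_zero]
        have h5 := hIn.1
        rw [wt_sq hq3] at h5
        exact CTK.neg_of_two h5
      · rw [Fin.cons_succ, Pi.neg_apply, Fin.cons_succ]
        exact CTK.neg_of_two (hIn.2 i)
    · have h5 := (h2 ρ hρ).2 j ξ ξ' hξ hξ'
      rw [CTK.assemble_apply]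
      rw [show ((2 : ℕ) : ZMod 3) = -1 from by decide] at h5
      linear_combination h5

end Pool.Agent.PTK


end

section

/-!
# PTK_MS2: the primes of `QM` are in `SPZ`, `SMZ`
-/

set_option autoImplicit false

open NumberField IsDedekindDomain Finset
open scoped nonZeroDivisors Pointwise

namespace Pool.Agent.PTK

open Pool.Agent.Lib_helper18 Pool.Agent.Lib_helper18.Eis Pool.Agent.Lib_helper84.Cub
open Pool.Agent.PT Pool.Agent.PTE Pool.Agent.PT3 Pool.Agent.PTL Pool.Agent.PTN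

namespace MS2

theorem BB_eis (h n E q : ℕ) :
    ((BB h n E q : ℤ) : Eis) = ((3 ^ h * n : ℕ) : Eis) * (q : Eis) ^ E := by
  unfold BB
  push_cast
  ring

theorem BB_int (h n E q : ℕ) : ((3 ^ h * n : ℕ) : ℤ) * (q : ℤ) ^ E = BB h n E q := by
  unfold BB
  push_cast
  ring

theorem BB_ne {h n E q : ℕ} (hn : 0 < n) (hq : q.Prime) : BB h n E q ≠ 0 := by
  unfold BB
  have h3 : (3 : ℤ) ^ h ≠ 0 := pow_ne_zero _ (by norm_num)
  have h4 : (n : ℤ) ≠ 0 := by exact_mod_cast hn.ne'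
  have h5 : (q : ℤ) ^ E ≠ 0 := pow_ne_zero _ (by exact_mod_cast hq.ne_zero)
  exact mul_ne_zero (mul_ne_zero h3 h4) h5

theorem lv_BB_ne {n m k : ℕ} {π : Fin m → PP} {p e : Fin m → ℕ} {r f : Fin k → ℕ}
    (hLCL : LCL) (hn : NF n π p e r f) {h E q : ℕ} (hq : q.Prime) (hq3 : ¬ 3 ∣ q)
    (hh : h ≤ 2) (h1 : h ≠ 1) : lv (BB h n E q) ≠ 1 := by
  rw [(HYPT.lvw hLCL hn (h := h) (E := E) hq hq3 rfl).1]
  have h2 : h = 0 ∨ h = 2 := by omega
  rcases h2 with rfl | rfl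
  · rw [Nat.cast_zero]
    decide
  · decide

/-- the relation for one pair -/
theorem pair (hDCK : Stmt_DCK) (hDXK : Stmt_DXK) (hPT : Stmt_PT) (hPTX : Stmt_PTX)
    (hLCL : LCL) {n m k : ℕ} {π : Fin m → PP} {p e : Fin m → ℕ} {r f : Fin k → ℕ}
    (hn : NF n π p e r f) {h : ℕ} (hh : h ≤ 2) {b x P Q P' Q' : Eis} (hx0 : x ≠ 0)
    (hxnc : ¬ ∃ t : Eis, t ^ 3 = x)
    (H : HypD (3 ^ h * n) b x P Q P' Q' ∨ (h ≠ 1 ∧ HypX (3 ^ h * n) b x P Q P' Q')) :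
    ∃ f₀ : ℕ, 0 < f₀ ∧ ∀ f : ℕ, 0 < f → f₀ ∣ f →
    ∃ (C : ZMod 3) (Φ : (ZMod f)ˣ →* Multiplicative (ZMod 3)) (N₀ : ℕ),
    ∀ (E q : ℕ) (hQ : q.Coprime f), (E = 1 ∨ E = 2) → q.Prime → N₀ < q → q % 3 = 2 →
      (∀ σ : PP, tm σ.1 b (((3 ^ h * n : ℕ) : Eis) * (q : Eis) ^ E) = 0) →
      (∀ σ : PP, tm σ.1 x (((3 ^ h * n : ℕ) : Eis) * (q : Eis) ^ E) = 0) →
      Occ (BB h n E q) x → ∀ ξ : Eis, (q : Eis) ∣ ξ ^ 3 - x →
        C + E * ((Φ (ZMod.unitOfCoprime q hQ)).toAdd - TAUE q P Q P' Q' ξ) = 0 := by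
  have hn0 : 0 < n := PT.FINA.pos_of_nf hn
  rcases H with H | ⟨h1, H⟩
  · obtain ⟨f₀, hf₀, hf⟩ := hDCK _ _ _ _ _ _ _ H
    refine ⟨f₀, hf₀, fun f hf1 hf2 => ?_⟩
    obtain ⟨C, Φ, N₀, hC⟩ := hf f hf1 hf2
    refine ⟨C, Φ, N₀, ?_⟩
    intro E q hQ hE hq hqN hq3 hb hx hOcc ξ hξ
    obtain ⟨X, Y, hpt⟩ := hPT (BB h n E q) x (BB_ne hn0 hq) hx0 hxnc hOcc
    rw [BB_eis] at hpt
    exact hC E q hQ hE hq hqN hq3 hb hx X Y ξ hpt hξ
  · obtain ⟨f₀, hf₀, hf⟩ := hDXK _ _ _ _ _ _ _ H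
    refine ⟨f₀, hf₀, fun f hf1 hf2 => ?_⟩
    obtain ⟨C, Φ, N₀, hC⟩ := hf f hf1 hf2
    refine ⟨C, Φ, N₀, ?_⟩
    intro E q hQ hE hq hqN hq3 hb hx hOcc ξ hξ
    obtain ⟨X, Y, hpt, hg⟩ := hPTX (BB h n E q) x (BB_ne hn0 hq)
      (lv_BB_ne hLCL hn hq (by omega) hh h1) hx0 hxnc hOcc
    rw [BB_eis] at hpt
    rw [← BB_int] at hg
    exact hC E q hQ hE hq hqN hq3 hb hx X Y ξ hpt hg hξ

/-- the classes of a system are not cubes -/
theorem SysZ_nc {M N : ℕ} {z : Fin M → Eis} {α β : Fin N → Fin M} {P Q P' Q' : Fin N → Eis}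
    (hS : SysZ z α β P Q P' Q') (i : Fin M) : ¬ ∃ t : Eis, t ^ 3 = z i := by
  rintro ⟨t, ht⟩
  refine hS.ind (Pi.single i 1) ⟨i, ?_⟩ ⟨t, ?_⟩
  · rw [Pi.single_eq_same]
    norm_num
  · have h1 : ∏ j, z j ^ (Pi.single i 1 : Fin M → ℕ) j = z i := by
      rw [Finset.prod_eq_single i]
      · rw [Pi.single_eq_same, pow_one]
      · intro j _ hj
        rw [Pi.single_eq_of_ne hj, pow_zero]
      · intro hi
        exact absurd (mem_univ i) hi
    rw [ht, h1]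

end MS2

open CTK _root_.Pool.Agent.PTK.MS2 in
/-- PTK_MS2. -/
theorem MS2_thm (hSPP : SPP) (hLCL : LCL) (hDCK : Stmt_DCK) (hDXK : Stmt_DXK) (hPT : Stmt_PT)
    (hPTX : Stmt_PTX) (hZS : Stmt_ZS) (hZA : Stmt_ZA) : Stmt_MS2 := by
  classical
  intro h n m k π p e r f w0 c hNF hh M N y α β hT P Q P' Q' hSys hHyp
  have hn0 : 0 < n := PT.FINA.pos_of_nf hNF
  have hN0 : 0 < 3 ^ h * n := Nat.mul_pos (pow_pos (by norm_num) _) hn0
  have hx0 : ∀ i, zN π e (y i) ≠ 0 := fun i => (hZA n m k π p e r f hNF (y i)).1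
  have hnd : ∀ (v : Fin (m + 1) → ZMod 3) (q : ℕ), q.Prime → q % 3 = 2 → ¬ q ∣ n →
      ¬ (q : Eis) ∣ zN π e v := by
    intro v q hq hq3 hqn
    obtain ⟨-, -, -, h4, -⟩ := hZA n m k π p e r f hNF v
    obtain ⟨σ, hσ⟩ := hSPP.2.2.2.2.1 q hq hq3
    have h5 := h4 σ
    rw [hσ] at h5
    exact h5 fun h6 => hqn (nat_dvd h6)
  -- the conductor
  choose F0 hF0 hF1 using fun j => pair hDCK hDXK hPT hPTX hLCL hNF hh (hx0 (α j))
    (SysZ_nc hSys (α j)) (hHyp j)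
  refine ⟨∏ j, F0 j, Finset.prod_pos fun j _ => hF0 j, ?_⟩
  intro F hFpos hFdvd κ hκ1
  have hFd : ∀ j, F0 j ∣ F := fun j => (Finset.dvd_prod_of_mem F0 (mem_univ j)).trans hFdvd
  choose C Φ N₀ hC using fun j => hF1 j F hFpos (hFd j)
  have hMN : ∀ j, N₀ j ≤ ∑ j, N₀ j := fun j =>
    Finset.single_le_sum (f := N₀) (fun i _ => Nat.zero_le _) (mem_univ j)
  have hmain : ∀ (E q : ℕ), (E = 1 ∨ E = 2) → q.Prime → 3 ^ h * n + F + ∑ j, N₀ j < q →
      q ∈ QM h n π e w0 c y α 2 E →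
      ∃ hQ : q.Coprime F, (∀ i, sym (q : Eis) (zN π e (y i)) = 0) ∧
        ∀ (j : Fin N) (ξ : Eis), (q : Eis) ∣ ξ ^ 3 - zN π e (y (α j)) →
          C j + E * ((Φ j (ZMod.unitOfCoprime q hQ)).toAdd -
            TAUE q (P j) (Q j) (P' j) (Q' j) ξ) = 0 := by
    intro E q hE hq hqM ⟨hq3, hIn, hOcc⟩
    have hqN : ¬ q ∣ 3 ^ h * n := fun h => by
      have := Nat.le_of_dvd hN0 h
      omega
    have hqn : ¬ q ∣ n := fun h => hqN (Dvd.dvd.mul_left h _)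
    have hQ : q.Coprime F := by
      rw [Nat.Prime.coprime_iff_not_dvd hq]
      intro h
      have := Nat.le_of_dvd hFpos h
      omega
    have hSel : ∀ i, ∀ σ : PP,
        tm σ.1 (zN π e (y i)) (((3 ^ h * n : ℕ) : Eis) * (q : Eis) ^ E) = 0 := by
      intro i σ
      have h1 := (hZS h n m k π p e r f w0 c E q hNF hh hE hq hq3 hIn hqn (y i)
        (hT.mem i)).sym σ
      rwa [BB_eis] at h1
    refine ⟨hQ, fun i => sym_zero hSPP hq hq3 hE hqN (hnd (y i) q hq hq3 hqn) (hSel i), ?_⟩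
    intro j ξ hξ
    exact hC j E q hQ hE hq (by have := hMN j; omega) hq3 (hSel (β j)) (hSel (α j)) (hOcc j)
      ξ hξ
  refine ⟨C, assemble Φ, 3 ^ h * n + F + ∑ j, N₀ j, ?_⟩
  intro q hq hqM
  constructor
  · intro hqY
    obtain ⟨hQ, h2, h4⟩ := hmain 1 q (Or.inl rfl) hq hqM hqY
    obtain ⟨hq3, hIn, -⟩ := hqY
    refine ⟨hQ, hq3, ?_, h2, ?_⟩
    · rw [hκ1]
      funext i
      refine Fin.cases ?_ (fun i => ?_) i
      · rw [Fin.cons_zero, Fin.cons_zero]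
        have h5 := hIn.1
        rw [pow_one] at h5
        exact h5
      · rw [Fin.cons_succ, Fin.cons_succ]
        have h5 := hIn.2 i
        rw [Nat.cast_one, one_mul] at h5
        exact h5
    · intro j ξ hξ
      have h5 := h4 j ξ hξ
      rw [assemble_apply]
      rw [Nat.cast_one, one_mul] at h5
      linear_combination -h5
  · intro hqY
    obtain ⟨hQ, h2, h4⟩ := hmain 2 q (Or.inr rfl) hq hqM hqY
    obtain ⟨hq3, hIn, -⟩ := hqY
    refine ⟨hQ, hq3, ?_, h2, ?_⟩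
    · rw [hκ1]
      funext i
      refine Fin.cases ?_ (fun i => ?_) i
      · rw [Fin.cons_zero, Pi.neg_apply, Fin.cons_zero]
        have h5 := hIn.1
        rw [CL.wt_sq2 hq3] at h5
        exact neg_of_two h5
      · rw [Fin.cons_succ, Pi.neg_apply, Fin.cons_succ]
        exact neg_of_two (hIn.2 i)
    · intro j ξ hξ
      have h5 := h4 j ξ hξ
      rw [assemble_apply]
      rw [show ((2 : ℕ) : ZMod 3) = -1 from by decide] at h5
      linear_combination h5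

end Pool.Agent.PTK


end

section

/-!
# PTK_SYK: the system for a vector `y` and independent vectors of `V0`
-/

set_option autoImplicit false

open NumberField IsDedekindDomain Finset
open scoped nonZeroDivisors Pointwise

namespace Pool.Agent.PTK

open Pool.Agent.Lib_helper18 Pool.Agent.Lib_helper18.Eis Pool.Agent.Lib_helper84.Cub
open Pool.Agent.PT Pool.Agent.PTE Pool.Agent.PT3 Pool.Agent.PTL Pool.Agent.PTN

namespace SYK

variable {n m k : ℕ} {π : Fin m → PP} {p e : Fin m → ℕ} {r f : Fin k → ℕ}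

/-- exchange of the base and the norm -/
theorem swap {b x P Q P' Q' : Eis} (h : SolE b x P Q P' Q') :
    SolE x b P (-P') (-Q) Q' where
  eq := by
    have := h.eq
    linear_combination this
  n1 := by
    intro h0
    exact h.n2 (by linear_combination h0)
  n2 := by
    intro h0
    exact h.n1 (by linear_combination h0)
  g1 := by
    intro h0
    apply h.g1
    unfold GfE at h0 ⊢
    linear_combination h0
  g2 := by
    intro h0
    apply h.g2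
    unfold GfE at h0 ⊢
    linear_combination h0

theorem natEis_ne {a : ℕ} (ha : a ≠ 0) : (a : Eis) ≠ 0 := by
  intro h0
  have := congrArg Eis.re h0
  simp only [natCast_re, zero_re] at this
  exact ha (by exact_mod_cast this)

theorem lam_two : ¬ lam ∣ (2 : Eis) := by
  rintro ⟨t, ht⟩
  have h1 := congrArg Eis.norm ht
  rw [norm_mul] at h1
  have h2 : (2 : Eis).norm = 4 := by
    have : (2 : Eis) = ((2 : ℕ) : Eis) := by push_cast; rfl
    rw [this, norm_natCast]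
    norm_num
  have h3 : lam.norm = 3 := by
    simp [Eis.norm, lam]
  rw [h2, h3] at h1
  omega

/-- `b` is a local cube at `λ` -/
theorem lc (hLCI : Stmt_LCI) {b : Eis} (h : lam ^ 4 ∣ b ^ 2 - 1) : LCE lam b := by
  have h1 : lam ^ 4 ∣ (b - 1) * (b + 1) := by
    have : b ^ 2 - 1 = (b - 1) * (b + 1) := by ring
    rwa [this] at h
  have h0 : ¬ lam ∣ (1 : Eis) := fun h2 => prime_lam.not_isUnit (isUnit_of_dvd_one h2)
  by_cases h2 : lam ∣ b - 1
  · have h3 : ¬ lam ∣ b + 1 := fun h3 => lam_two (by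
      have h4 := dvd_sub h3 h2
      have h5 : b + 1 - (b - 1) = 2 := by ring
      rwa [h5] at h4)
    have h4 : lam ^ 4 ∣ b - 1 := prime_lam.pow_dvd_of_dvd_mul_right 4 h3 h1
    refine hLCI.2.1 b 1 1 h0 h0 ?_
    have h5 : b * 1 ^ 3 - 1 ^ 3 = b - 1 := by ring
    rw [h5]
    exact h4
  · have h4 : lam ^ 4 ∣ b + 1 := prime_lam.pow_dvd_of_dvd_mul_left 4 h2 h1
    refine hLCI.2.1 b (-1) 1 (fun h5 => h0 (by simpa using h5)) h0 ?_
    have h5 : b * 1 ^ 3 - (-1) ^ 3 = b + 1 := by ring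
    rw [h5]
    exact h4

/-- the valuations of `n` -/
theorem Vn_le (hSPP : SPP) (hn : NF n π p e r f) (σ : PP) : V σ.1 (n : Eis) ≤ 2 := by
  by_cases hd : σ.1 ∣ (n : Eis)
  · rcases HYPS.cls hSPP hn σ.2.1 hd with ⟨i, h1 | h1⟩ | ⟨j, h1⟩
    · rw [EHYP.V_assoc h1, EHYP.V_n_i hSPP hn i]
      have := hn.pe i
      omega
    · have h2 := EHYP.V_conj (π i).2.1 (HYPS.n_ne0 hn)
      rw [conj_natCast] at h2
      rw [EHYP.V_assoc h1, h2, EHYP.V_n_i hSPP hn i]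
      have := hn.pe i
      omega
    · rw [EHYP.V_assoc h1, EHYP.V_n_j hSPP hn j]
      have := hn.rf j
      omega
  · rw [V_eq_zero hd]
    exact Nat.zero_le _

theorem VN_le (hSPP : SPP) (hn : NF n π p e r f) (h : ℕ) (σ : PP) :
    V σ.1 ((3 ^ h * n : ℕ) : Eis) ≤ 2 := by
  have h3 : (3 : Eis) ≠ 0 := HYPT.three_ne
  push_cast
  rw [V_mul σ.2.1 (pow_ne_zero _ h3) (HYPS.n_ne0 hn), V_pow σ.2.1 h3,
    V_eq_zero (hSPP.2.2.2.1 σ).1, mul_zero, zero_add]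
  exact Vn_le hSPP hn σ

end SYK

open _root_.Pool.Agent.PTK.SYK in
theorem SYK_thm (hSPP : SPP) (hLCI : Stmt_LCI) (hHNE : Stmt_HNE) (hZA : Stmt_ZA) (hZI : Stmt_ZI)
    (hZL : Stmt_ZL) (hZT : Stmt_ZT) : Stmt_SYK := by
  intro h n m k π p e r f w0 c hn hh y hy s u hu hli
  have hy0 : y ≠ 0 := by
    have := hli.ne_zero 0
    simpa using this
  have hu0 : ∀ j, u j ≠ 0 := fun j => by
    have := hli.ne_zero j.succ
    simpa using this
  have hAy := hZA n m k π p e r f hn y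
  have hAu := fun j => hZA n m k π p e r f hn (u j)
  have hL : ∀ j, lam ^ 4 ∣ zN π e (u j) ^ 2 - 1 := fun j =>
    hZL n m k π p e r f hn (u j) (hu j).2.1 (hu j).2.2
  have hcy : ¬ ∃ c : Eis, c ^ 3 = zN π e y := fun h1 => hy0 (hAy.2.2.2.2.2.2.2.2.2 h1)
  have hcu : ∀ j, ¬ ∃ c : Eis, c ^ 3 = zN π e (u j) := fun j h1 =>
    hu0 j ((hAu j).2.2.2.2.2.2.2.2.2 h1)
  have hT := fun j => hZT h n m k π p e r f w0 c hn hh (u j) (hu j).1 y hy
  have hsol : ∀ j, ∃ P Q P' Q' : Eis, SolE (zN π e (u j)) (zN π e y) P Q P' Q' := fun j =>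
    hHNE (zN π e (u j)) (zN π e y) (hAu j).1 (hL j) (hcu j) (hAu j).2.2.2.2.1 hAy.1 hcy
      (hT j).1 (hT j).2
  choose P Q P' Q' hS using hsol
  refine ⟨P, fun j => - P' j, fun j => - Q j, Q', ⟨?_, fun j => swap (hS j), hAy.2.2.1,
    fun j => (hAu j).2.2.1⟩, fun j => ⟨?_, swap (hS j), (hAu j).1, hAy.1, lc hLCI (hL j), ?_,
    VN_le hSPP hn h⟩⟩
  · rintro c₀ d hcd ⟨t, ht⟩
    have h1 : ∑ i, ((Fin.cons c₀ d : Fin (s + 1) → ℕ) i : ZMod 3) •
        (Fin.cons y u : Fin (s + 1) → Fin (m + 1) → ZMod 3) i = 0 := by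
      refine hZI n m k π p e r f hn (s + 1) _ _ ⟨t, ?_⟩
      rw [Fin.prod_univ_succ]
      simpa using ht
    have h2 := Fintype.linearIndependent_iff.1 hli _ h1
    rcases hcd with h3 | ⟨i, h3⟩
    · exact h3 ((ZMod.natCast_eq_zero_iff _ 3).1 (by simpa using h2 0))
    · exact h3 ((ZMod.natCast_eq_zero_iff _ 3).1 (by simpa using h2 i.succ))
  · have := EHYP.n_ne hn
    positivity
  · intro σ hσ
    have h1 : ¬ σ.1 ∣ (n : Eis) := fun h2 => hσ (by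
      push_cast
      exact Dvd.dvd.mul_left h2 _)
    exact ⟨(hAu j).2.2.2.1 σ h1, hAy.2.2.2.1 σ h1⟩

end Pool.Agent.PTK


end

section

/-!
# PTK_MSY: the system of a test configuration
-/

set_option autoImplicit false

open NumberField IsDedekindDomain Finset
open scoped nonZeroDivisors Pointwise

namespace Pool.Agent.PTK

open Pool.Agent.Lib_helper18 Pool.Agent.Lib_helper18.Eis Pool.Agent.Lib_helper84.Cub
open Pool.Agent.PT Pool.Agent.PTE Pool.Agent.PT3 Pool.Agent.PTL Pool.Agent.PTN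

namespace MSY

variable {h n m k : ℕ} {π : Fin m → PP} {p e : Fin m → ℕ} {r f : Fin k → ℕ}
  {w0 : ZMod 3} {c : Fin m → ZMod 3}

/-- the solution with the base in `V0` -/
theorem sol (hHNE : Stmt_HNE) (hZA : Stmt_ZA) (hZL : Stmt_ZL) (hZT : Stmt_ZT)
    (hn : NF n π p e r f) (hh : h ≤ 2) {u y : Fin (m + 1) → ZMod 3}
    (hu : u ∈ V0 h n π p e r w0 c) (hy : y ∈ VS h n π p e r w0 c) (hu0 : u ≠ 0) (hy0 : y ≠ 0) :
    ∃ P Q P' Q' : Eis, SolE (zN π e u) (zN π e y) P Q P' Q' := by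
  have hAy := hZA n m k π p e r f hn y
  have hAu := hZA n m k π p e r f hn u
  have hL := hZL n m k π p e r f hn u hu.2.1 hu.2.2
  have hcy : ¬ ∃ c : Eis, c ^ 3 = zN π e y := fun h1 => hy0 (hAy.2.2.2.2.2.2.2.2.2 h1)
  have hcu : ¬ ∃ c : Eis, c ^ 3 = zN π e u := fun h1 => hu0 (hAu.2.2.2.2.2.2.2.2.2 h1)
  have hT := hZT h n m k π p e r f w0 c hn hh u hu.1 y hy
  exact hHNE (zN π e u) (zN π e y) hAu.1 hL hcu hAu.2.2.2.2.1 hAy.1 hcy hT.1 hT.2

/-- `V0 = VS` for `h = 1` -/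
theorem V0_eq (hVDIM : Stmt_VDIM) {y : Fin (m + 1) → ZMod 3} (h1 : h = 1)
    (hy : y ∈ VS h n π p e r w0 c) : y ∈ V0 h n π p e r w0 c := by
  have h2 := hVDIM h n m k π p e r w0 c (by omega)
  have h3 : dN h n w0 = 0 := by simp [dN, h1]
  rw [h3, add_zero] at h2
  have hle : V0 h n π p e r w0 c ≤ VS h n π p e r w0 c := fun x hx => hx.1
  have h4 : V0 h n π p e r w0 c = VS h n π p e r w0 c :=
    Submodule.eq_of_le_of_finrank_le hle h2
  rw [h4]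
  exact hy

end MSY

open _root_.Pool.Agent.PTK.MSY in
theorem MSY_thm (hSPP : SPP) (hLCI : Stmt_LCI) (hHNE : Stmt_HNE) (hZA : Stmt_ZA) (hZI : Stmt_ZI)
    (hZL : Stmt_ZL) (hZT : Stmt_ZT) (hVDIM : Stmt_VDIM) : Stmt_MSY := by
  intro h n m k π p e r f w0 c hn hh M N y α β hT
  have hy0 : ∀ i, y i ≠ 0 := fun i => hT.ind.ne_zero i
  have hA := fun i => hZA n m k π p e r f hn (y i)
  have hN0 : 0 < 3 ^ h * n := by
    have := EHYP.n_ne hn
    positivity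
  have hunr : ∀ (i : Fin M) (σ : PP), ¬ σ.1 ∣ ((3 ^ h * n : ℕ) : Eis) → ¬ σ.1 ∣ zN π e (y i) := by
    intro i σ hσ
    refine (hA i).2.2.2.1 σ fun h2 => hσ ?_
    push_cast
    exact Dvd.dvd.mul_left h2 _
  have hL : ∀ i, y i ∈ V0 h n π p e r w0 c → LCE lam (zN π e (y i)) := fun i hi =>
    SYK.lc hLCI (hZL n m k π p e r f hn (y i) hi.2.1 hi.2.2)
  have hpair : ∀ j : Fin N, ∃ P Q P' Q' : Eis,
      SolE (zN π e (y (α j))) (zN π e (y (β j))) P Q P' Q' ∧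
      (HypD (3 ^ h * n) (zN π e (y (β j))) (zN π e (y (α j))) P Q P' Q' ∨
        (h ≠ 1 ∧ HypX (3 ^ h * n) (zN π e (y (β j))) (zN π e (y (α j))) P Q P' Q')) := by
    intro j
    by_cases hβ : y (β j) ∈ V0 h n π p e r w0 c
    · obtain ⟨P, Q, P', Q', hs⟩ := sol hHNE hZA hZL hZT hn hh hβ (hT.mem (α j)) (hy0 _) (hy0 _)
      have hs' := SYK.swap hs
      exact ⟨P, -P', -Q, Q', hs', Or.inl ⟨hN0, hs', (hA _).1, (hA _).1, hL _ hβ,
        fun σ hσ => ⟨hunr _ σ hσ, hunr _ σ hσ⟩, SYK.VN_le hSPP hn h⟩⟩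
    · have hα : y (α j) ∈ V0 h n π p e r w0 c := (hT.wl j).resolve_right hβ
      obtain ⟨P, Q, P', Q', hs⟩ := sol hHNE hZA hZL hZT hn hh hα (hT.mem (β j)) (hy0 _) (hy0 _)
      exact ⟨P, Q, P', Q', hs, Or.inr ⟨fun h1 => hβ (V0_eq hVDIM h1 (hT.mem _)),
        ⟨hN0, hs, (hA _).1, (hA _).1, hL _ hα, (hA _).2.1, (hA _).2.2.1,
          fun σ hσ => ⟨hunr _ σ hσ, hunr _ σ hσ⟩, SYK.VN_le hSPP hn h⟩⟩⟩
  choose P Q P' Q' hs hH using hpair
  refine ⟨P, Q, P', Q', ⟨?_, fun i => (hA i).2.2.1, hT.lt, hT.inj, hs⟩, hH⟩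
  rintro d ⟨i, hi⟩ hd
  have h1 := hZI n m k π p e r f hn M y d hd
  have h2 := Fintype.linearIndependent_iff.1 hT.ind (fun i => (d i : ZMod 3)) h1 i
  exact hi ((ZMod.natCast_eq_zero_iff _ 3).1 h2)

end Pool.Agent.PTK


end

section

/-!
# PTK_MTU: the joint density of a test configuration, `q = 1 (mod 3)`, generic pattern (helper62)
-/

set_option autoImplicit false

open NumberField IsDedekindDomain Finset
open scoped nonZeroDivisors Pointwise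

namespace Pool.Agent.PTK

open Pool.Agent.Lib_helper18 Pool.Agent.Lib_helper18.Eis Pool.Agent.Lib_helper84.Cub
open Pool.Agent.PT Pool.Agent.PTE Pool.Agent.PT3 Pool.Agent.PTL Pool.Agent.PTN

/-- PTK_MTU. -/
theorem MTU_thm (hCLSC : CLSC) (hCLSCS : CLSCS) (hMSY : Stmt_MSY) (hMSPU : Stmt_MSPU)
    (hMS1 : Stmt_MS1) (hBMU : Stmt_BMU) : Stmt_MTU := by
  classical
  intro h n m k π p e r f w0 c d v δ s τ b X Y P Q P' Q' hNF hh hδ hPl M N y α β hT t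
  obtain ⟨P1, Q1, P1', Q1', hSys, hHyp⟩ := hMSY h n m k π p e r f w0 c hNF hh M N y α β hT
  obtain ⟨f0, hf0, hf1⟩ := hMSPU h n m k π p e r f w0 c d v δ s τ b X Y P Q P' Q' hNF hh hδ hPl
  obtain ⟨g0, hg0, hg1⟩ := hMS1 h n m k π p e r f w0 c hNF hh M N y α β hT P1 Q1 P1' Q1' hSys hHyp
  obtain ⟨F, hF, hF9, hpF, hfF, hgF⟩ : ∃ F : ℕ, 0 < F ∧ 9 ∣ F ∧ (∀ i, p i ∣ F) ∧
      f0 ∣ F ∧ g0 ∣ F := by
    refine ⟨9 * (∏ i, p i) * (f0 * g0), ?_, ?_, ?_, ?_, ?_⟩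
    · have h1 : 0 < ∏ i, p i := Finset.prod_pos fun i _ => (hNF.pp i).pos
      positivity
    · exact Dvd.dvd.mul_right (Dvd.intro _ rfl) _
    · intro i
      exact Dvd.dvd.mul_right (Dvd.dvd.mul_left (Finset.dvd_prod_of_mem p (mem_univ i)) _) _
    · exact Dvd.dvd.mul_left (Dvd.intro _ rfl) _
    · exact Dvd.dvd.mul_left (Dvd.intro_left _ rfl) _
  obtain ⟨κ, hκ1, hκ2⟩ := hCLSC m π p hNF.pp hNF.p1 hNF.pπ hNF.pinj F hF hF9 hpF
  have hκ3 := hCLSCS F m κ hF hF9 hκ2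
  obtain ⟨C, Φ, N1, hN1⟩ := hf1 F hF hfF κ hκ1
  obtain ⟨C', Φ', N2, hN2⟩ := hg1 F hF hgF κ hκ1
  obtain ⟨K, hK⟩ := hBMU s b P Q P' Q' M N (fun i => zN π e (y i)) α β P1 Q1 P1' Q1' F m t
    κ (Fin.cons w0 c) C Φ C' Φ' hPl.sys hSys hF hF9 hκ3
  obtain ⟨M', hM⟩ : ∃ M', M' = N1 + N2 := ⟨_, rfl⟩
  refine ⟨K + 2 * (2 * ((Finset.range (M' + 1)).card : ℝ)), fun σ h1 hσ2 => ?_⟩
  have hB := hK σ h1 hσ2
  have hsub1 : ∀ q : ℕ, q.Prime → M' < q →
      q ∈ {q : ℕ | (q ∈ QM h n π e w0 c y α 1 1 ∧ q ∈ Pat v δ) ∧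
        t ≤ kU h n b X Y P Q P' Q' 1 q} →
      q ∈ SPU b P Q P' Q' t κ (Fin.cons w0 c) C Φ ∩
        SPZU (fun i => zN π e (y i)) α P1 Q1 P1' Q1' κ (Fin.cons w0 c) C' Φ' := by
    intro q hq hqM ⟨⟨hqY, hqP⟩, hqt⟩
    exact ⟨((hN1 q t hq (by omega) hqY.1 hqP).1 hqY.2.1 hqt),
      (hN2 q hq (by omega)).1 hqY⟩
  have hsub2 : ∀ q : ℕ, q.Prime → M' < q →
      q ∈ {q : ℕ | (q ∈ QM h n π e w0 c y α 1 2 ∧ q ∈ Pat v δ) ∧
        t ≤ kU h n b X Y P Q P' Q' 2 q} →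
      q ∈ SMU b P Q P' Q' t κ (Fin.cons w0 c) C Φ ∩
        SMZU (fun i => zN π e (y i)) α P1 Q1 P1' Q1' κ (Fin.cons w0 c) C' Φ' := by
    intro q hq hqM ⟨⟨hqY, hqP⟩, hqt⟩
    exact ⟨((hN1 q t hq (by omega) hqY.1 hqP).2 hqY.2.1 hqt),
      (hN2 q hq (by omega)).2 hqY⟩
  have i1 := CL.sm_le_add _ _ M' hsub1 h1
  have i2 := CL.sm_le_add _ _ M' hsub2 h1
  have e2 : (2 / 3 ^ d / 3 ^ N / 3 ^ (m + 1) * LI s t : ℝ) =
      2 / 3 ^ (s + 1) * LI s t / 3 ^ N / 3 ^ (m + 1) := by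
    rw [← hPl.dim]
    ring
  rw [e2]
  linarith

end Pool.Agent.PTK


end

section

/-!
# PTK_MTZ: the joint density, `q = 1 (mod 3)`, all rational classes cubes modulo `q`
-/

set_option autoImplicit false

open NumberField IsDedekindDomain Finset
open scoped nonZeroDivisors Pointwise

namespace Pool.Agent.PTK

open Pool.Agent.Lib_helper18 Pool.Agent.Lib_helper18.Eis Pool.Agent.Lib_helper84.Cub
open Pool.Agent.PT Pool.Agent.PTE Pool.Agent.PT3 Pool.Agent.PTL Pool.Agent.PTN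

/-- PTK_MTZ. -/
theorem MTZ_thm (hCLSC : CLSC) (hCLSCS : CLSCS) (hMSY : Stmt_MSY) (hMPZ : Stmt_MPZ)
    (hMS1 : Stmt_MS1) (hBMZ : Stmt_BMZ) : Stmt_MTZ := by
  classical
  intro h n m k π p e r f w0 c s τ b X Y P Q P' Q' hNF hh hPl Mm N y α β hT t
  obtain ⟨P1, Q1, P1', Q1', hSys, hHyp⟩ := hMSY h n m k π p e r f w0 c hNF hh Mm N y α β hT
  obtain ⟨f0, hf0, hf1⟩ := hMPZ h n m k π p e r f w0 c s τ b X Y P Q P' Q' hNF hh hPl
  obtain ⟨g0, hg0, hg1⟩ := hMS1 h n m k π p e r f w0 c hNF hh Mm N y α β hT P1 Q1 P1' Q1' hSys hHyp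
  obtain ⟨F, hF, hF9, hpF, hfF, hgF⟩ : ∃ F : ℕ, 0 < F ∧ 9 ∣ F ∧ (∀ i, p i ∣ F) ∧
      f0 ∣ F ∧ g0 ∣ F := by
    refine ⟨9 * (∏ i, p i) * (f0 * g0), ?_, ?_, ?_, ?_, ?_⟩
    · have h1 : 0 < ∏ i, p i := Finset.prod_pos fun i _ => (hNF.pp i).pos
      positivity
    · exact Dvd.dvd.mul_right (Dvd.intro _ rfl) _
    · intro i
      exact Dvd.dvd.mul_right (Dvd.dvd.mul_left (Finset.dvd_prod_of_mem p (mem_univ i)) _) _
    · exact Dvd.dvd.mul_left (Dvd.intro _ rfl) _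
    · exact Dvd.dvd.mul_left (Dvd.intro_left _ rfl) _
  obtain ⟨κ, hκ1, hκ2⟩ := hCLSC m π p hNF.pp hNF.p1 hNF.pπ hNF.pinj F hF hF9 hpF
  have hκ3 := hCLSCS F m κ hF hF9 hκ2
  obtain ⟨C, Φ, N1, hN1⟩ := hf1 F hF hfF κ hκ1
  obtain ⟨C', Φ', N2, hN2⟩ := hg1 F hF hgF κ hκ1
  obtain ⟨K, hK⟩ := hBMZ s b P Q P' Q' Mm N (fun i => zN π e (y i)) α β P1 Q1 P1' Q1' F m t
    κ (Fin.cons w0 c) C Φ C' Φ' hPl.sys hSys hF hF9 hκ3
  obtain ⟨M, hM⟩ : ∃ M, M = N1 + N2 := ⟨_, rfl⟩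
  refine ⟨K + 2 * (2 * ((Finset.range (M + 1)).card : ℝ)), fun σ h1 hσ2 => ?_⟩
  have hB := hK σ h1 hσ2
  have hsub1 : ∀ q : ℕ, q.Prime → M < q →
      q ∈ {q : ℕ | (q ∈ QM h n π e w0 c y α 1 1 ∧ q ∈ ZP b) ∧
        t ≤ kS h n b X Y P Q P' Q' 1 q} →
      q ∈ SPF b P Q P' Q' t κ (Fin.cons w0 c) C Φ ∩
        SPZU (fun i => zN π e (y i)) α P1 Q1 P1' Q1' κ (Fin.cons w0 c) C' Φ' := by
    intro q hq hqM ⟨⟨hqY, hqP⟩, hqt⟩
    exact ⟨((hN1 q t hq (by omega) hqY.1 hqP).1 hqY.2.1 hqt),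
      (hN2 q hq (by omega)).1 hqY⟩
  have hsub2 : ∀ q : ℕ, q.Prime → M < q →
      q ∈ {q : ℕ | (q ∈ QM h n π e w0 c y α 1 2 ∧ q ∈ ZP b) ∧
        t ≤ kS h n b X Y P Q P' Q' 2 q} →
      q ∈ SMF b P Q P' Q' t κ (Fin.cons w0 c) C Φ ∩
        SMZU (fun i => zN π e (y i)) α P1 Q1 P1' Q1' κ (Fin.cons w0 c) C' Φ' := by
    intro q hq hqM ⟨⟨hqY, hqP⟩, hqt⟩
    exact ⟨((hN1 q t hq (by omega) hqY.1 hqP).2 hqY.2.1 hqt),
      (hN2 q hq (by omega)).2 hqY⟩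
  have i1 := CL.sm_le_add _ _ M hsub1 h1
  have i2 := CL.sm_le_add _ _ M hsub2 h1
  have e2 : (1 / 3 ^ s / 3 ^ N / 3 ^ (m + 1) * LI s t : ℝ) =
      1 / 3 ^ s * LI s t / 3 ^ N / 3 ^ (m + 1) := by
    ring
  rw [e2]
  linarith

end Pool.Agent.PTK


end

section

/-!
# PTK_NBU: the bound for the rank, `q = 1 (mod 3)`, generic pattern
-/

set_option autoImplicit false

namespace Pool.Agent.PTK

open Pool.Agent.Lib_helper18 Pool.Agent.Lib_helper18.Eis Pool.Agent.Lib_helper84.Cub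
open Pool.Agent.PT Pool.Agent.PTE Pool.Agent.PT3 Pool.Agent.PTL Pool.Agent.PTN

open Pool.Agent.PTN.NBKU in
/-- PTK_NBU: the bound for the rank, `q = 1 (mod 3)`, generic pattern.
Proof. As `NBKU_thm` (PTN/NBKU.lean) with `WGU` in place of `NPSU`: the index of the points is at most
the product of the numbers of the classes in the minus part, at most `Nat.card WqS` by the second
bound of `WGU` (`b (Fin.last s)` is admissible and has a nonzero symbol at the `ρ` of `Pat v δ`), and in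
the plus part, at most the number of the elements of the kernel of the matrix (`TENT`). -/
theorem NBU_thm (hK : Stmt_KID) (_hI : Stmt_NKIN) (hA : Stmt_NADU) (hL : Stmt_NPLU)
    (hTENT : TENT) (_hSPP : SPP) (hSPLT : SPLT) (hWGU : Stmt_WGU) : Stmt_NBU := by
  classical
  intro h n m k π p e r f w0 c d v₀ δ s τ b X Y P Q P' Q' E q hN hh _ hPl hE hq hq3 hq1 hIn hqn
    hPat
  obtain ⟨ρ, hqρ, hpat⟩ := hPat
  have hρn : ¬ ρ.1 ∣ (n : Eis) := by
    intro h2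
    have h4 := (hSPLT.2 q ρ hq hq1 hqρ).2.2.2.1 (n : ℤ)
    rw [Int.cast_natCast] at h4
    exact hqn (Int.natCast_dvd_natCast.1 (h4.1 h2))
  obtain ⟨hiff, hsp⟩ := hPl.pat ρ hρn
  obtain ⟨h0, h1⟩ := hiff.2 hpat
  have hgen := hsp h0 h1
  have hAd := hPl.adm
  have hSys := hPl.sys
  have hSw := hPl.sw
  have hT := hPl.lam
  have hq3' : q ≠ 3 := by omega
  have hB0 : BB h n E q ≠ 0 := BB_ne hN hq
  have hcf := cubeFree (h := h) hN hh hE hq hq3' hqn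
  have habs := abs_ge (h := h) hN hE hq hq3
  have hnc : ¬ ∃ t : ℤ, t ^ 3 = BB h n E q := by
    apply CubeRank.GenPf.not_cube hcf
    have h2 : ((BB h n E q).natAbs : ℤ) = |BB h n E q| := Int.natCast_natAbs _
    rw [← h2]
    exact_mod_cast habs
  obtain ⟨hBG, hTy, hAdm⟩ := hA h n m k π p e r f w0 c E q ρ hN hh hE hq hq1 hIn hqn hqρ
  obtain ⟨⟨dd, hdd⟩, W, _, Ψ₁, -, hW, hΨ₁⟩ := hWGU h n m k π p e r f w0 c E q ρ hN hh hE hq hq3 hq1
    hIn hqn hqρ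
  replace hW := hW ⟨_, hAd (Fin.last s), h1⟩
  unfold kU
  rw [hdd] at hW ⊢
  rw [Nat.log_pow (by norm_num : 1 < 3)]
  set B := BB h n E q with hBdef
  set M := MaT (rv b) X Y (rs P) (rs Q) (rs P') (rs Q') B with hM
  have hsupp : ∀ i : Fin (s + 1), ∀ l : ℕ, l.Prime → (l : ℤ) ∣ b i → l ∣ 3 * n := fun i =>
    (hAd i).1.supp
  have hAG : ∀ i : Fin s, AG B (rv b i) := fun i =>
    ((hAdm (b i.castSucc) (hsupp _)).1 ⟨hAd _, h0 i⟩).1
  have hne : ∀ i : Fin s, rv b i ≠ 0 := fun i => (hAd i.castSucc).1.ne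
  have hker := (hTENT s τ (rv b) X Y _ _ _ _ B (ECLU.sysG_restr hSys) (ECLU.sw_restr hSw) hBG hAG
    (hT B hTy) hne).2
  -- the class of a point of the isogenous curve
  have hz : ∀ z : ℤ, S2 B z → ∃ (g : Fin s → ℕ) (u v : ℤ) (j : ℕ), u ≠ 0 ∧ v ≠ 0 ∧
      z * B ^ j * u ^ 3 = (∏ i, rv b i ^ g i) * v ^ 3 ∧
      ∀ j, ∑ i, M j i * (g i : ZMod 3) = 0 := by
    rintro z (rfl | ⟨A, m', hA0, hsum, hprod, hcop, rfl⟩)
    · exact ⟨fun _ => 0, 1, 1, 0, one_ne_zero, one_ne_zero, by simp, fun j => by simp⟩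
    · obtain ⟨z', X1, Y1, u, v, j, hu, hv, hz', hPt, hAGz, hLoc, hs⟩ :=
        hL h n m k π p e r f E q A m' hN hh hE hq hq3' hqn hA0 hsum hprod hcop
      obtain ⟨g1, g2⟩ := (hAdm z' hs).2 ⟨hAGz, hLoc⟩
      obtain ⟨g, u', v', hu', hv', hg⟩ := hgen z' g1 g2
      change z' * u' ^ 3 = (∏ i, rv b i ^ g i) * v' ^ 3 at hg
      refine ⟨g, v * u', v' * u, j, mul_ne_zero hv hu', mul_ne_zero hv' hu, ?_, ?_⟩
      · have e1 : A 0 ^ 2 * A 1 * B ^ j * (v * u') ^ 3 =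
            (A 0 ^ 2 * A 1 * B ^ j * v ^ 3) * u' ^ 3 := by ring
        rw [e1, ← hz']
        linear_combination (u ^ 3) * hg
      · by_cases hex : ∃ i, ¬ 3 ∣ g i
        · exact hker g _ _ hex (pt_transport hPt hu' hv' hg)
        · push Not at hex
          intro j
          refine Finset.sum_eq_zero (fun i _ => ?_)
          rw [(ZMod.natCast_eq_zero_iff (g i) 3).2 (hex i), mul_zero]
  choose! g u v j hu hv hzg hzM using hz
  let Ψ₂ : ℤ → LinearMap.ker M.mulVecLin := fun z =>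
    if hS : S2 B z then ⟨fun i => (g z i : ZMod 3), by
      rw [LinearMap.mem_ker]
      funext j'
      exact hzM z hS j'⟩ else 0
  have hΨ₂ : ∀ z z', S2 B z → S2 B z' → Ψ₂ z = Ψ₂ z' →
      ∃ (u v : ℤ) (j : ℕ), u ≠ 0 ∧ v ≠ 0 ∧ z * u ^ 3 = z' * B ^ j * v ^ 3 := by
    intro z z' hS hS' hΨ
    have h2 : ∀ i, (g z i : ZMod 3) = g z' i := by
      intro i
      have h3 := congrArg (fun x : LinearMap.ker M.mulVecLin => (x : Fin s → ZMod 3) i) hΨ
      simp only [Ψ₂, dif_pos hS, dif_pos hS'] at h3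
      exact h3
    obtain ⟨A, A', hA0, hA0', hAA⟩ := BKER.prod_cube (rv b) hne (g z) (g z') h2
    refine ⟨B ^ j z * (u z * A * v z'), u z' * A' * v z, j z' + 2 * j z,
      mul_ne_zero (pow_ne_zero _ hB0) (mul_ne_zero (mul_ne_zero (hu z hS) hA0) (hv z' hS')),
      mul_ne_zero (mul_ne_zero (hu z' hS') hA0') (hv z hS), ?_⟩
    have e1 := hzg z hS
    have e2 := hzg z' hS'
    generalize (∏ i, rv b i ^ g z i) = w1 at *
    generalize (∏ i, rv b i ^ g z' i) = w2 at *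
    rw [pow_add, mul_comm 2 (j z), pow_mul]
    generalize B ^ j z = β at *
    generalize B ^ j z' = β' at *
    linear_combination (β ^ 2 * A ^ 3 * v z' ^ 3) * e1 - (β ^ 2 * A' ^ 3 * v z ^ 3) * e2 +
      (β ^ 2 * v z ^ 3 * v z' ^ 3) * hAA
  obtain ⟨hfin, hidx⟩ := hK B hB0 hcf hnc W (LinearMap.ker M.mulVecLin) Ψ₁ Ψ₂ hΨ₁ hΨ₂
  have hkerd : Module.finrank (ZMod 3) (LinearMap.ker M.mulVecLin) = s - M.rank := by
    have h2 := LinearMap.finrank_range_add_finrank_ker M.mulVecLin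
    rw [Module.finrank_fintype_fun_eq_card, Fintype.card_fin] at h2
    have h3 : Module.finrank (ZMod 3) (LinearMap.range M.mulVecLin) = M.rank := rfl
    omega
  rw [Module.natCard_eq_pow_finrank (K := ZMod 3) (V := LinearMap.ker M.mulVecLin), Nat.card_zmod,
    hkerd] at hidx
  refine CubeRank.gen' B hcf habs _ hfin (hidx.trans ?_)
  rw [pow_add]
  exact Nat.mul_le_mul_right _ hW

end Pool.Agent.PTK


end

section

/-! PTK_PRB (helper3): small ranks, all classes. -/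

set_option autoImplicit false

open Finset

namespace Pool.Agent.PTK

open Pool.Agent.Lib_helper18 Pool.Agent.Lib_helper18.Eis Pool.Agent.Lib_helper84.Cub
open Pool.Agent.PT Pool.Agent.PTE Pool.Agent.PT3 Pool.Agent.PTL Pool.Agent.PTN

namespace PRB

theorem zero_below (n : ℤ) (a : ℕ) (W : ℤ → Prop) (F : ℤ → ℝ) : BelowA n a W F 0 := by
  refine ⟨0, fun σ _ _ => ⟨∅, ?_⟩⟩
  unfold SumA
  simp

/-- the sum of the lower bounds over the classes -/
theorem lower (h n m : ℕ) (g : ℕ → ℝ) (M : ℝ) (h0 : M ≤ g 0) (h1 : M ≤ g 1)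
    (h2 : 3 * M ≤ 2 * g 1 + g 2) :
    M ≤ ∑ x : ZMod 3 × (Fin m → ZMod 3), g (dN h n x.1) / 3 ^ (m + 1) := by
  have h3 := AVA.total h n m (fun d => - g d) (-M) (by linarith) (by linarith) (by linarith)
  have h4 : ∑ x : ZMod 3 × (Fin m → ZMod 3), (fun d => - g d) (dN h n x.1) / 3 ^ (m + 1) =
      - ∑ x : ZMod 3 × (Fin m → ZMod 3), g (dN h n x.1) / 3 ^ (m + 1) := by
    rw [← Finset.sum_neg_distrib]
    exact Finset.sum_congr rfl fun x _ => neg_div _ _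
  linarith

end PRB

open _root_.Pool.Agent.PTK.PRB in
theorem PRB_thm (hNFE : Stmt_NFE) (hSUMA : Stmt_SUMA) (hPR2 : Stmt_PR2) (hPR1 : Stmt_PR1) :
    Stmt_PRB := by
  classical
  intro N hN0 hcf a ha
  obtain ⟨h, n, m, k, π, p, e, r, f, hNF, hh, hfac, hNeq, -, -⟩ := hNFE N hN0 hcf
  have h3N : 3 ∣ N → h ≠ 0 := by
    intro hd h0
    rw [h0] at hfac
    have h1 := (Nat.prime_three.dvd_iff_one_le_factorization hN0.ne').1 hd
    omega
  clear hfac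
  subst hNeq
  have hPR : ∀ (w0 : ZMod 3) (c : Fin m → ZMod 3), dN h n w0 ≤ 1 →
      BelowA ((3 ^ h * n : ℕ) : ℤ) a (Kl π w0 c) (fun A => tf (CubeRank.rr A ≤ 2))
        (1 / 2 / 3 ^ (m + 1)) := by
    intro w0 c hd
    rcases ha with rfl | rfl
    · exact hPR1 h n m k π p e r f w0 c hNF hh hd
    · exact hPR2 h n m k π p e r f w0 c hNF hh hd
  have htf : ∀ A : ℤ, 0 ≤ tf (CubeRank.rr A ≤ 2) := by
    intro A
    unfold tf
    split_ifs <;> norm_num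
  obtain ⟨-, s2, -, s4⟩ := hSUMA ((3 ^ h * n : ℕ) : ℤ) a m π (fun A => tf (CubeRank.rr A ≤ 2))
  constructor
  · have h1 := s2 (fun x => (if dN h n x.1 ≤ 1 then 1 / 2 else 0) / 3 ^ (m + 1)) htf (fun y => by
      by_cases hd : dN h n y.1 ≤ 1
      · simp only [if_pos hd]
        exact hPR y.1 y.2 hd
      · simp only [if_neg hd, zero_div]
        exact zero_below _ _ _ _)
    refine s4 _ _ _ ?_ h1
    refine lower h n m (fun d => if d ≤ 1 then 1 / 2 else 0) (1 / 3) ?_ ?_ ?_ <;> norm_num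
  · intro hd
    have hne := h3N hd
    have hd1 : ∀ w0 : ZMod 3, dN h n w0 ≤ 1 := by
      intro w0
      unfold dN
      split_ifs with h5 h6
      · omega
      · exact absurd h6.1 hne
      · exact le_rfl
    have h1 := s2 (fun _ => 1 / 2 / 3 ^ (m + 1)) htf (fun y => hPR y.1 y.2 (hd1 y.1))
    refine s4 _ _ _ ?_ h1
    refine lower h n m (fun _ => 1 / 2) (1 / 2) ?_ ?_ ?_ <;> norm_num

end Pool.Agent.PTK


end

section

/-! PTK_VDIM (helper87): the codimension of `V0`. -/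

set_option autoImplicit false

namespace Pool.Agent.PTK

open Pool.Agent.Lib_helper18 Pool.Agent.Lib_helper18.Eis Pool.Agent.Lib_helper84.Cub
open Pool.Agent.PT Pool.Agent.PTE Pool.Agent.PT3 Pool.Agent.PTL Pool.Agent.PTN

namespace VDIM

/-- one linear condition lowers the dimension by at most one -/
lemma step {M : ℕ} (S : Submodule (ZMod 3) (Fin M → ZMod 3)) (l : (Fin M → ZMod 3) →ₗ[ZMod 3] ZMod 3) :
    Module.finrank (ZMod 3) S ≤
      Module.finrank (ZMod 3) (S ⊓ LinearMap.ker l : Submodule (ZMod 3) (Fin M → ZMod 3)) + 1 := by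
  have h1 := LinearMap.finrank_range_add_finrank_ker (l.comp S.subtype)
  have h2 : Module.finrank (ZMod 3) (LinearMap.range (l.comp S.subtype)) ≤ 1 := by
    have := Submodule.finrank_le (LinearMap.range (l.comp S.subtype))
    rwa [Module.finrank_self] at this
  have h3 : Module.finrank (ZMod 3) (LinearMap.ker (l.comp S.subtype)) =
      Module.finrank (ZMod 3) (S ⊓ LinearMap.ker l : Submodule (ZMod 3) (Fin M → ZMod 3)) := by
    rw [LinearMap.ker_comp, ← Submodule.map_comap_subtype]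
    exact (Submodule.finrank_map_subtype_eq _ _).symm
  omega

end VDIM

open _root_.Pool.Agent.PTK.VDIM

theorem VDIM_thm : Stmt_VDIM := by
  classical
  intro h n m k π p e r w0 c hh
  unfold vN v0N
  set VSS := VS h n π p e r w0 c with hVSS
  set l1 : (Fin (m + 1) → ZMod 3) →ₗ[ZMod 3] ZMod 3 := LinearMap.proj 0 with hl1
  set l2 : (Fin (m + 1) → ZMod 3) →ₗ[ZMod 3] ZMod 3 :=
    ∑ i : Fin m, ((e i : ZMod 3) * sym (π i).1 3) • LinearMap.proj i.succ with hl2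
  have e1 : ∀ y, l1 y = y 0 := fun y => rfl
  have e2 : ∀ y, l2 y = ∑ i : Fin m, y i.succ * ((e i : ZMod 3) * sym (π i).1 3) := by
    intro y
    rw [hl2, LinearMap.sum_apply]
    refine Finset.sum_congr rfl fun i _ => ?_
    rw [LinearMap.smul_apply, LinearMap.proj_apply, smul_eq_mul, mul_comm]
  have hmem : ∀ y, y ∈ V0 h n π p e r w0 c ↔ y ∈ VSS ∧ l1 y = 0 ∧ l2 y = 0 := by
    intro y
    rw [e1, e2]
    exact Iff.rfl
  -- the column `inl 0`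
  have hcol : ∀ y ∈ VSS, h ≠ 0 → y 0 * (wt ((n : ℤ) ^ 2) + w0) + l2 y = 0 := by
    intro y hy h0
    have h1 := hy.2 (Sum.inl 0) (fun h' => absurd h' h0)
    rw [Matrix.vecMul, dotProduct, Fin.sum_univ_succ] at h1
    rw [e2]
    exact h1
  have hact : ∀ y ∈ VSS, ¬ actR h n w0 → l1 y = 0 := fun y hy ha => hy.1 ha
  unfold dN
  by_cases h1 : h = 1
  · rw [if_pos h1, add_zero]
    apply Submodule.finrank_mono
    intro y hy
    have ha : ¬ actR h n w0 := by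
      rintro (h2 | ⟨h2, -⟩) <;> omega
    have hy0 := hact y hy ha
    have hc := hcol y hy (by omega)
    rw [e1] at hy0
    rw [hy0, zero_mul, zero_add] at hc
    exact (hmem y).mpr ⟨hy, hy0, hc⟩
  rw [if_neg h1]
  by_cases h2 : h = 0 ∧ wt ((n : ℤ) ^ 2) + w0 = 0
  · rw [if_pos h2]
    have s1 := step VSS l1
    have s2 := step (VSS ⊓ LinearMap.ker l1) l2
    have s3 : Module.finrank (ZMod 3) (VSS ⊓ LinearMap.ker l1 ⊓ LinearMap.ker l2 :
        Submodule (ZMod 3) (Fin (m + 1) → ZMod 3)) ≤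
        Module.finrank (ZMod 3) (V0 h n π p e r w0 c) := by
      apply Submodule.finrank_mono
      rintro y ⟨⟨hy, h3⟩, h4⟩
      exact (hmem y).mpr ⟨hy, h3, h4⟩
    omega
  rw [if_neg h2]
  by_cases h3 : h = 0
  · have ha : ¬ actR h n w0 := by
      rintro (h4 | h4)
      · omega
      · exact h2 h4
    have s1 := step VSS l2
    have s3 : Module.finrank (ZMod 3) (VSS ⊓ LinearMap.ker l2 :
        Submodule (ZMod 3) (Fin (m + 1) → ZMod 3)) ≤
        Module.finrank (ZMod 3) (V0 h n π p e r w0 c) := by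
      apply Submodule.finrank_mono
      rintro y ⟨hy, h4⟩
      exact (hmem y).mpr ⟨hy, hact y hy ha, h4⟩
    omega
  · have s1 := step VSS l1
    have s3 : Module.finrank (ZMod 3) (VSS ⊓ LinearMap.ker l1 :
        Submodule (ZMod 3) (Fin (m + 1) → ZMod 3)) ≤
        Module.finrank (ZMod 3) (V0 h n π p e r w0 c) := by
      apply Submodule.finrank_mono
      rintro y ⟨hy, h4⟩
      have hy0 : y 0 = 0 := h4
      have hc := hcol y hy h3
      rw [hy0, zero_mul, zero_add] at hc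
      exact (hmem y).mpr ⟨hy, h4, hc⟩
    omega

end Pool.Agent.PTK


end
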