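import Mathlib
import Pool.Agent.PTDM.C26
import Pool.Agent.PTDM.C31
import Pool.Agent.PTDM.C39
import Pool.Agent.PTDM.C41
import Pool.Agent.PTDM.C43
import Pool.Agent.PTDM.C44
import Pool.Agent.PTDM.C45
import Pool.Agent.PTKM.C01
import Pool.Agent.PTKM.C02
import Pool.Agent.PTKM.C04
import Pool.Agent.PTKM.C07

/-! Parts: PTKX.StX, PTKX.ALV, PTKX.CAV, PTKX.CBV, PTKX.CLV, PTKX.DXK, PTKX.JPG, PTKX.LRR, PTKX.MAV, PTKX.JC1, PTKX.MC1, PTKX.MPZ, PTKX.NBW, PTKX.NCN, PTKX.UPL, PTKX.UPS -/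

section

/-!
# The law of the ranks of prime twists for `q = 1 (mod 3)`: a skew-symmetric matrix of size `s + 1`

Upgrade of the law of `PTN` (hand-in PrimeTwistDistribution): for `q = 1 (mod 3)` the law is that of `v + (s + 1 - rank M)`, `M` a random
skew-symmetric matrix of size `s + 1` (before: size `s - 1`, except with probability `3^-s`, when only `v + s + 1` was known). The new input is the matrix
for the zero pattern (`NBX`, `MTZ` of StW). Everything of the other statement files may be imported or taken as a hypothesis.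
-/

set_option autoImplicit false

open NumberField IsDedekindDomain Finset
open scoped nonZeroDivisors Pointwise

namespace Pool.Agent.PTK

open Pool.Agent.Lib_helper18 Pool.Agent.Lib_helper18.Eis Pool.Agent.Lib_helper84.Cub
open Pool.Agent.PT Pool.Agent.PTE Pool.Agent.PT3 Pool.Agent.PTL Pool.Agent.PTN

/-- PTK_CLV: the distribution of the rank in a class, `q = 1 (mod 3)`.
Proof. `d = sN`, `v` from `NHPT`, the system `b : Fin sN → ℤ` from `PLE`; `τ = t - vN`. (1) Primes not in `ZP v`: as in `CLU_thm` (PTN/CLU.lean; `DLU`, `SMT`, every such prime is in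
`Pat v δ` for two `δ ≠ 0`: `PAT`): `≤ (1 - 1 / 3^d) LI (d - 1) τ / 3^(m+1) log + K`. (2) Primes in `ZP v`, large: `q ∈ ZP b` (`ZPV`), `rr B ≤ vN + 1 + kS` (`NBX`; `WqS ⊆ VS` gives
`Nat.log 3 (card WqS) ≤ vN`; `CubeRank.rr_le`), so `t ≤ rr B` implies `τ - 1 ≤ kS`; `MTZ` for the empty configuration (`M = N = 0`; `QM .. 1 E` is then `q % 3 = 1 ∧ InCT`):
`≤ (1 / 3^d) LI d (τ - 1) / 3^(m+1) log + K`. (3) The sum of the two bounds is `LI (d + 1) τ / 3^(m+1)`: `ESZ` for `F c = [τ ≤ c]` (`Esk_ind` in PTN/LAW.lean;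
`[τ ≤ c + 1] = [τ - 1 ≤ c]`). -/
def Stmt_CLV : Prop := ∀ (h n m k : ℕ) (π : Fin m → PP) (p e : Fin m → ℕ) (r f : Fin k → ℕ)
  (w0 : ZMod 3) (c : Fin m → ZMod 3), NF n π p e r f → h ≤ 2 →
  ∀ t : ℕ, ∃ K : ℝ, ∀ σ : ℝ, 1 < σ → σ ≤ 2 →
    BDENS.sm (WR h n π w0 c 1 1 t) σ + BDENS.sm (WR h n π w0 c 1 2 t) σ ≤
      LI (sN h n π p e r w0 c + 1) (t - vN h n π p e r w0 c) / 3 ^ (m + 1) *
        Real.log (1 / (σ - 1)) + K

/-- PTK_CAV: averages in a class, `q = 1 (mod 3)`. As `CAB_thm` (PTN/CAB.lean), first part, with `CLV` in place of `CLN` (and the first part of `CLU`); `LAW` (first part) for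
`s = sN + 1`. -/
def Stmt_CAV : Prop := ∀ (h n m k : ℕ) (π : Fin m → PP) (p e : Fin m → ℕ) (r f : Fin k → ℕ)
  (w0 : ZMod 3) (c : Fin m → ZMod 3), NF n π p e r f → h ≤ 2 →
  ∀ F : ℕ → ℝ, Monotone F → 0 ≤ F 0 →
  AboveA ((3 ^ h * n : ℕ) : ℤ) 1 (Kl π w0 c) (fun A => F (CubeRank.rr A))
    (Esk (sN h n π p e r w0 c + 1) (fun x => F (vN h n π p e r w0 c + x)) / 3 ^ (m + 1))

/-- PTK_CBV: lower bounds in a class, `q = 1 (mod 3)`. As `CBE_thm` (PTN/CBE.lean), first part, with `CLV`. -/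
def Stmt_CBV : Prop := ∀ (h n m k : ℕ) (π : Fin m → PP) (p e : Fin m → ℕ) (r f : Fin k → ℕ)
  (w0 : ZMod 3) (c : Fin m → ZMod 3), NF n π p e r f → h ≤ 2 → ∀ (t : ℕ) (R : ℤ → Prop),
  (∀ A : ℤ, A ≠ 0 → CubeRank.GenBy A (CubeRank.rr A) → CubeRank.rr A < t → R A) →
  BelowA ((3 ^ h * n : ℕ) : ℤ) 1 (Kl π w0 c) (fun A => tf (R A))
    ((1 - LI (sN h n π p e r w0 c + 1) (t - vN h n π p e r w0 c)) / 3 ^ (m + 1))

open Classical in
/-- PTK_ALV: the averages over all `A`, `q = 1 (mod 3)`. As `ALLQ_thm` (PTN/ALLQ.lean), the parts for `a = 2`, with `CAV`, `CBV`; `LAW` for the size `sN + 1`. -/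
def Stmt_ALV : Prop := ∀ (h n m k : ℕ) (π : Fin m → PP) (p e : Fin m → ℕ) (r f : Fin k → ℕ),
  NF n π p e r f → h ≤ 2 → ∀ μ : ℕ, μ = m + (if h = 1 then 0 else 1) →
  AboveA ((3 ^ h * n : ℕ) : ℤ) 1 (fun _ => True) (fun A => 3 ^ CubeRank.rr A)
    (4 * (5 / 3) ^ μ) ∧
  (Even (k + if h = 1 then 1 else 0) →
    BelowA ((3 ^ h * n : ℕ) : ℤ) 1 (fun _ => True) (fun A => tf (CubeRank.rr A ≤ 1))
      (23 / 24 * (2 / 3) ^ μ)) ∧
  (Odd (k + if h = 1 then 1 else 0) →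
    BelowA ((3 ^ h * n : ℕ) : ℤ) 1 (fun _ => True)
      (fun A => tf (¬ ∃ X Y : ℚ, X ^ 3 + Y ^ 3 = (A : ℚ))) (5 / 8 * (2 / 3) ^ μ))

open Classical in
/-- PTK_MAV: the theorem.
Proof. As `MAINQ_thm` (PTN/MAINQ.lean) with `CAV`, `CBV`, `ALV` for `q = 1 (mod 3)`. (`Stmt_MAINQ` alone does not suffice because the functions `v`, `s` are
existentially quantified: repeat the proof with the new inputs.) -/
def Stmt_MAV : Prop := ∀ N : ℕ, 0 < N → (∀ p : ℕ, p.Prime → ¬ p ^ 3 ∣ N) →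
  ∀ m k δ μ : ℕ, m = (N.primeFactors.filter (fun p => p % 3 = 1)).card →
  k = (N.primeFactors.filter (fun p => p % 3 = 2)).card →
  δ = (if 3 ∣ N ∧ ¬ 9 ∣ N then 1 else 0) → μ + δ = m + 1 →
  (∃ v s : (ZMod (9 * N))ˣ → ℕ,
    (∀ u : (ZMod (9 * N))ˣ, s u + (if Nu1 N u then 1 else 0) = v u + k + δ) ∧
    (∑ᶠ u : (ZMod (9 * N))ˣ, (3 : ℝ) ^ v u ≤ (5 / 3) ^ μ * (9 * N).totient) ∧
    ((2 / 3 : ℝ) ^ μ * (9 * N).totient ≤
      Nat.card {u : (ZMod (9 * N))ˣ // v u = 0 ∧ ¬ Nu1 N u}) ∧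
    (¬ 3 ∣ N → (∃ p : ℕ, p.Prime ∧ p ∣ N ∧ (p % 9 = 2 ∨ p % 9 = 5)) →
      1 / 3 * (2 / 3 : ℝ) ^ m * (9 * N).totient ≤
        Nat.card {u : (ZMod (9 * N))ˣ // v u = 0 ∧ Nu1 N u}) ∧
    (∀ (u : (ZMod (9 * N))ˣ) (F : ℕ → ℝ), Monotone F → 0 ≤ F 0 →
      AboveA N 2 (Cu N u) (fun A => F (CubeRank.rr A))
        (Esk (s u) (fun x => F (v u + x)) / 3 ^ (m + 1)) ∧
      AboveA N 1 (Cu N u) (fun A => F (CubeRank.rr A))
        (Esk (s u + 1) (fun x => F (v u + x)) / 3 ^ (m + 1))) ∧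
    ∀ u : (ZMod (9 * N))ˣ, v u = 0 →
      (Even (s u) →
        BelowA N 2 (Cu N u) (fun A => tf (¬ ∃ X Y : ℚ, X ^ 3 + Y ^ 3 = (A : ℚ)))
          (5 / 8 / 3 ^ (m + 1)) ∧
        BelowA N 1 (Cu N u) (fun A => tf (CubeRank.rr A ≤ 1)) (23 / 24 / 3 ^ (m + 1))) ∧
      (Odd (s u) →
        BelowA N 2 (Cu N u) (fun A => tf (CubeRank.rr A ≤ 1)) (23 / 24 / 3 ^ (m + 1)) ∧
        BelowA N 1 (Cu N u) (fun A => tf (¬ ∃ X Y : ℚ, X ^ 3 + Y ^ 3 = (A : ℚ)))
          (5 / 8 / 3 ^ (m + 1)))) ∧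
  (∃ M : ℕ, ∀ q e : ℕ, q.Prime → M < q → (e = 1 ∨ e = 2) →
    CubeRank.GenBy (N * q ^ e) (CubeRank.rr (N * q ^ e))) ∧
  AboveA N 2 (fun _ => True) (fun A => 3 ^ CubeRank.rr A) (4 * (5 / 3) ^ μ) ∧
  AboveA N 1 (fun _ => True) (fun A => 3 ^ CubeRank.rr A) (4 * (5 / 3) ^ μ) ∧
  (Even (k + δ) →
    BelowA N 2 (fun _ => True)
      (fun A => tf (¬ ∃ X Y : ℚ, X ^ 3 + Y ^ 3 = (A : ℚ))) (5 / 8 * (2 / 3) ^ μ) ∧
    BelowA N 1 (fun _ => True) (fun A => tf (CubeRank.rr A ≤ 1)) (23 / 24 * (2 / 3) ^ μ)) ∧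
  (Odd (k + δ) →
    BelowA N 2 (fun _ => True) (fun A => tf (CubeRank.rr A ≤ 1)) (23 / 24 * (2 / 3) ^ μ) ∧
    BelowA N 1 (fun _ => True)
      (fun A => tf (¬ ∃ X Y : ℚ, X ^ 3 + Y ^ 3 = (A : ℚ))) (5 / 8 * (2 / 3) ^ μ))

end Pool.Agent.PTK


end

section

/-!
# PTK_ALV: the averages over all `A`, `q = 1 (mod 3)`
-/

set_option autoImplicit false

open NumberField IsDedekindDomain Finset
open scoped nonZeroDivisors Pointwise

namespace Pool.Agent.PTK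

open Pool.Agent.Lib_helper18 Pool.Agent.Lib_helper18.Eis Pool.Agent.Lib_helper84.Cub
open Pool.Agent.PT Pool.Agent.PTE Pool.Agent.PT3 Pool.Agent.PTL Pool.Agent.PTN

namespace ALV

theorem hsol : ∀ A : ℤ, A ≠ 0 → CubeRank.GenBy A (CubeRank.rr A) → CubeRank.rr A < 1 →
    ¬ ∃ X Y : ℚ, X ^ 3 + Y ^ 3 = (A : ℚ) := by
  intro A hA h1 h2
  have h3 : CubeRank.rr A = 0 := by omega
  rw [h3] at h1
  exact DOM.no_sol hA h1

theorem hone : ∀ A : ℤ, A ≠ 0 → CubeRank.GenBy A (CubeRank.rr A) → CubeRank.rr A < 2 →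
    CubeRank.rr A ≤ 1 := by
  intro A _ _ h2
  omega

end ALV

/-- PTK_ALV -/
theorem ALV_thm (hCAV : Stmt_CAV) (hCBV : Stmt_CBV) (hLAW : Stmt_LAW) (hSUMA : Stmt_SUMA)
    (hNDIM : Stmt_NDIM) (hNSUM : Stmt_NSUM) (hNZER : Stmt_NZER) (hNSU1 : Stmt_NSU1)
    (hNZE1 : Stmt_NZE1) : Stmt_ALV := by
  classical
  intro h n m k π p e r f hN hh μ hμ
  obtain ⟨-, -, hL3, hL4, -, -, hL7, -⟩ := hLAW
  have hmono : Monotone fun j : ℕ => (3 : ℝ) ^ j := fun i j hij =>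
    pow_le_pow_right₀ (by norm_num) hij
  have hz : (0 : ℝ) ≤ (fun j : ℕ => (3 : ℝ) ^ j) 0 := by norm_num
  have hC := fun y : ZMod 3 × (Fin m → ZMod 3) =>
    hCAV h n m k π p e r f y.1 y.2 hN hh (fun j : ℕ => (3 : ℝ) ^ j) hmono hz
  have hB := fun y : ZMod 3 × (Fin m → ZMod 3) => hCBV h n m k π p e r f y.1 y.2 hN hh
  -- the classes with `v = 0`
  have hdim : ∀ y : ZMod 3 × (Fin m → ZMod 3), (vN h n π p e r y.1 y.2 = 0 ∧
      ¬ (h = 0 ∧ wt ((n : ℤ) ^ 2) + y.1 = 0)) →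
      vN h n π p e r y.1 y.2 = 0 ∧
        sN h n π p e r y.1 y.2 = k + if h = 1 then 1 else 0 := by
    rintro y ⟨h1, h2⟩
    have h3 := hNDIM h n m k π p e r y.1 y.2
    refine ⟨h1, ?_⟩
    rw [h1] at h3
    have hact : actR h n y.1 ↔ h = 2 := by
      unfold actR
      constructor
      · rintro (h4 | h4)
        · exact h4
        · exact absurd h4 h2
      · exact fun h4 => Or.inl h4
    simp only [hact] at h3
    have hcase : h = 0 ∨ h = 1 ∨ h = 2 := by omega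
    rcases hcase with rfl | rfl | rfl
    · simp at h3 ⊢
      omega
    · simp at h3 ⊢
      omega
    · simp at h3 ⊢
      omega
  -- the lower bound in a class
  have low : ∀ (t : ℕ) (R : ℤ → Prop),
      (∀ A : ℤ, A ≠ 0 → CubeRank.GenBy A (CubeRank.rr A) → CubeRank.rr A < t → R A) →
      ∀ d : ℝ, d ≤ 1 - LI ((k + if h = 1 then 1 else 0) + 1) t →
      ∀ y : ZMod 3 × (Fin m → ZMod 3), (vN h n π p e r y.1 y.2 = 0 ∧
        ¬ (h = 0 ∧ wt ((n : ℤ) ^ 2) + y.1 = 0)) →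
      BelowA ((3 ^ h * n : ℕ) : ℤ) 1 (Kl π y.1 y.2) (fun A => tf (R A)) (d / 3 ^ (m + 1)) := by
    intro t R hR d hdl y hy
    obtain ⟨h1, h2⟩ := hdim y hy
    have h3 := hB y t R hR
    rw [h1, h2, Nat.sub_zero] at h3
    exact (hSUMA _ 1 m π _).2.2.2 _ _ _ (div_le_div_of_nonneg_right hdl (by positivity)) h3
  have key : ∀ (t : ℕ) (R : ℤ → Prop),
      (∀ A : ℤ, A ≠ 0 → CubeRank.GenBy A (CubeRank.rr A) → CubeRank.rr A < t → R A) →
      ∀ d : ℝ, 0 ≤ d → d ≤ 1 - LI ((k + if h = 1 then 1 else 0) + 1) t →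
      BelowA ((3 ^ h * n : ℕ) : ℤ) 1 (fun _ => True) (fun A => tf (R A))
        (d * (2 / 3) ^ μ) := by
    intro t R hR d hd hdl
    by_cases h1' : h = 1
    · have hμ1 : μ = m := by rw [hμ, if_pos h1', add_zero]
      rw [hμ1]
      have hZ : 3 * 2 ^ m ≤ Nat.card {x : ZMod 3 × (Fin m → ZMod 3) //
          vN h n π p e r x.1 x.2 = 0} := by
        have h5 := hNZE1 n m k π p e r f hN
        rw [h1']
        exact h5
      exact ALLQ.low hSUMA _ 1 m π _ (fun A => ALLA.tf_nn _) _ d hd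
        (fun y hy => low t R hR d hdl y ⟨hy, fun h6 => by omega⟩) hZ
    · have hμ1 : μ = m + 1 := by rw [hμ, if_neg h1']
      rw [hμ1]
      exact ALLA.low hSUMA _ 1 m π _ (fun A => ALLA.tf_nn _) _ d hd
        (fun y hy => low t R hR d hdl y hy) (hNZER h n m k π p e r f hN)
  refine ⟨?_, fun hk => ?_, fun hk => ?_⟩
  · by_cases h1' : h = 1
    · have hμ1 : μ = m := by rw [hμ, if_pos h1', add_zero]
      rw [hμ1]
      have hS : ∑ x : ZMod 3 × (Fin m → ZMod 3), 3 ^ vN h n π p e r x.1 x.2 ≤ 3 * 5 ^ m := by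
        have h5 := hNSU1 n m k π p e r f hN
        rw [h1']
        exact h5
      exact ALLQ.up hSUMA _ 1 m π _ (fun y => vN h n π p e r y.1 y.2) _ 4 (by norm_num)
        (fun y => hC y) (fun y => hL7 _ _) hS
    · have hμ1 : μ = m + 1 := by rw [hμ, if_neg h1']
      rw [hμ1]
      exact ALLA.up hSUMA _ 1 m π _ (fun y => vN h n π p e r y.1 y.2) _ 4 (by norm_num)
        (fun y => hC y) (fun y => hL7 _ _) (hNSUM h n m k π p e r f hN)
  · refine key 2 _ ALV.hone _ (by norm_num) ?_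
    have := hL4 _ hk.add_one
    linarith
  · refine key 1 _ ALV.hsol _ (by norm_num) ?_
    have := hL3 _ hk.add_one
    linarith

end Pool.Agent.PTK


end

section

/-!
# CAV: averages in a class, primes of the first residue class
-/

set_option autoImplicit false

open NumberField IsDedekindDomain Finset
open scoped nonZeroDivisors Pointwise

namespace Pool.Agent.PTK

open Pool.Agent.Lib_helper18 Pool.Agent.Lib_helper18.Eis Pool.Agent.Lib_helper84.Cub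
open Pool.Agent.PT Pool.Agent.PTE Pool.Agent.PT3 Pool.Agent.PTL Pool.Agent.PTN

theorem CAV_thm (hSPP : SPP) (hCLV : Stmt_CLV) (hCLU : Stmt_CLU) (hDOMG : Stmt_DOMG)
    (hLAW : Stmt_LAW) : Stmt_CAV := by
  classical
  intro h n m k π p e r f w0 c hN hh F hF h0
  obtain ⟨hL1, -⟩ := hLAW
  have hT := hCLV h n m k π p e r f w0 c hN hh
  obtain ⟨⟨M, hM⟩, -⟩ := hCLU h n m k π p e r f w0 c hN hh
  set s := sN h n π p e r w0 c with hs
  set v := vN h n π p e r w0 c with hv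
  refine CAB.above_of hSPP hN w0 c 1 hF h0
    (fun E => {q : ℕ | q % 3 = 1 ∧ InCT E π w0 c q}) (fun E q => Iff.rfl) ?_
  obtain ⟨K, hK⟩ := hDOMG (fun E => {q : ℕ | q % 3 = 1 ∧ InCT E π w0 c q})
    (fun E q => CubeRank.rr (BB h n E q)) (fun t => LI (s + 1) (t - v) / 3 ^ (m + 1)) M
    (v + (s + 1)) F
    (fun E q hE hq hMq hqS =>
      (CubeRank.rr_le (hM E q hE hq hMq hqS.1 hqS.2)).trans (by omega))
    (fun t => by
      obtain ⟨K, hK⟩ := hT t
      refine ⟨K, fun σ h1 h2 => ?_⟩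
      have e1 := hK σ h1 h2
      have e2 : ∀ E : ℕ, {q : ℕ | q ∈ {q : ℕ | q % 3 = 1 ∧ InCT E π w0 c q} ∧
          t ≤ CubeRank.rr (BB h n E q)} = WR h n π w0 c 1 E t := by
        intro E
        ext q
        exact and_assoc
      rw [e2, e2]
      exact e1) hF h0
  refine ⟨K, fun σ h1 h2 T => (hK σ h1 h2 T).trans_eq ?_⟩
  rw [← hL1 (s + 1) v F, add_div, Finset.sum_div]
  simp only [mul_div_assoc]

end Pool.Agent.PTK


end

section

/-!
# PTK_CBV: lower bounds in a class, `q = 1 (mod 3)`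
-/

set_option autoImplicit false

open NumberField IsDedekindDomain Finset
open scoped nonZeroDivisors Pointwise

namespace Pool.Agent.PTK

open Pool.Agent.Lib_helper18 Pool.Agent.Lib_helper18.Eis Pool.Agent.Lib_helper84.Cub
open Pool.Agent.PT Pool.Agent.PTE Pool.Agent.PT3 Pool.Agent.PTL Pool.Agent.PTN

/-- PTK_CBV. -/
theorem CBV_thm (hCLV : Stmt_CLV) (hCLU : Stmt_CLU) (hCLT : Stmt_CLT) (hSPP : SPP) :
    Stmt_CBV := by
  intro h n m k π p e r f w0 c hN hh t R hR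
  obtain ⟨⟨M, hM⟩, -⟩ := hCLU h n m k π p e r f w0 c hN hh
  obtain ⟨K, hK⟩ := hCLT m π p hN.pp hN.p1 hN.pπ hN.pinj w0 c 1 (Or.inl rfl)
  have := CBE.below hSPP hN 1 t R hR
    ⟨M, fun E q hE hq hqM hq3 hqc => ⟨_, hM E q hE hq hqM hq3 hqc⟩⟩ (1 / 3 ^ (m + 1))
    (LI (sN h n π p e r w0 c + 1) (t - vN h n π p e r w0 c) / 3 ^ (m + 1))
    ⟨K, fun σ h1 h2 => (hK σ h1 h2).1⟩ (hCLV h n m k π p e r f w0 c hN hh t)
  rwa [← sub_div] at this

end Pool.Agent.PTK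


end

section

/-!
# PTK_CLV: the distribution of the rank in a class, `q = 1 (mod 3)`
-/

set_option autoImplicit false

open NumberField IsDedekindDomain Finset
open scoped nonZeroDivisors Pointwise

namespace Pool.Agent.PTK

open Pool.Agent.Lib_helper18 Pool.Agent.Lib_helper18.Eis Pool.Agent.Lib_helper84.Cub
open Pool.Agent.PT Pool.Agent.PTE Pool.Agent.PT3 Pool.Agent.PTL Pool.Agent.PTN

namespace CLV

/-- the identity for the tails -/
theorem li_eq (hESZ : Stmt_ESZ) (d τ : ℕ) :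
    (1 - 1 / 3 ^ d) * LI (d - 1) τ + 1 / 3 ^ d * LI d (τ - 1) = LI (d + 1) τ := by
  have h1 := hESZ d (fun c => if τ ≤ c then 1 else 0)
  have h2 : (fun c => (if τ ≤ c + 1 then (1 : ℝ) else 0)) =
      fun c => if τ - 1 ≤ c then (1 : ℝ) else 0 := by
    funext c
    by_cases h : τ ≤ c + 1
    · rw [if_pos h, if_pos (by omega)]
    · rw [if_neg h, if_neg (by omega)]
  simp only [h2] at h1
  rw [LAW.Esk_ind, LAW.Esk_ind, LAW.Esk_ind] at h1
  exact h1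

/-- the empty configuration -/
theorem te0 {M' : ℕ} (V V₀ : Submodule (ZMod 3) (Fin M' → ZMod 3)) :
    TeC V V₀ (Fin.elim0 : Fin 0 → Fin M' → ZMod 3) (Fin.elim0 : Fin 0 → Fin 0) Fin.elim0 where
  ind := linearIndependent_empty_type
  mem i := i.elim0
  lt j := j.elim0
  inj j := j.elim0
  wl j := j.elim0

/-- the number of the classes -/
theorem log_le (h n : ℕ) {m k : ℕ} (π : Fin m → PP) (p e : Fin m → ℕ) (r : Fin k → ℕ)
    (w0 : ZMod 3) (c : Fin m → ZMod 3) (B : ℤ) :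
    Nat.log 3 (Nat.card (WqS h n π p e r w0 c B)) ≤ vN h n π p e r w0 c := by
  have h1 : Nat.card (WqS h n π p e r w0 c B) ≤ Nat.card (VS h n π p e r w0 c) := by
    refine Nat.card_le_card_of_injective
      (fun y => (⟨y.1, y.2.1⟩ : VS h n π p e r w0 c)) ?_
    intro y y' hy
    exact Subtype.ext (congrArg (fun z : VS h n π p e r w0 c => z.1) hy)
  have h2 : Nat.card (VS h n π p e r w0 c) = 3 ^ vN h n π p e r w0 c := by
    rw [Module.natCard_eq_pow_finrank (K := ZMod 3), Nat.card_zmod]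
    rfl
  rw [h2] at h1
  calc Nat.log 3 (Nat.card (WqS h n π p e r w0 c B)) ≤ Nat.log 3 (3 ^ vN h n π p e r w0 c) :=
        Nat.log_mono_right h1
    _ = vN h n π p e r w0 c := Nat.log_pow (by norm_num) _

end CLV

open _root_.Pool.Agent.PTK.CLV BDENS in
/-- CLV: the distribution of the rank in a class, `q = 1 (mod 3)`. -/
theorem CLV_thm (hNHPT : Stmt_NHPT) (hPLE : Stmt_PLE) (hDLU : Stmt_DLU) (hSMT : Stmt_SMT)
    (hPAT : Stmt_PAT) (hZPV : Stmt_ZPV) (hNBX : Stmt_NBX) (hMTZ : Stmt_MTZ)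
    (hESZ : Stmt_ESZ) : Stmt_CLV := by
  classical
  intro h n m k π p e r f w0 c hNF hh t
  have hn0 : 0 < n := by
    rw [hNF.eq]
    exact Nat.mul_pos (Finset.prod_pos fun i _ => pow_pos (hNF.pp i).pos _)
      (Finset.prod_pos fun j _ => pow_pos (hNF.rp j).pos _)
  obtain ⟨d, V, hd, hAd, hspan, hHP⟩ := hNHPT h n m k π p e r f w0 c hNF hh
  have hHB : HB h n π w0 c V := ⟨hAd, hspan, hHP⟩
  obtain ⟨s, ty, b, X, Y, P, Q, P', Q', hs, hPl⟩ := hPLE h n m k π p e r f w0 c hNF hh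
  have hsd : s = d := hs.trans hd.symm
  subst hsd
  rw [← hd]
  obtain ⟨τ, hτ⟩ : ∃ τ, τ = t - vN h n π p e r w0 c := ⟨_, rfl⟩
  rw [← hτ]
  obtain ⟨M1, hM1⟩ := hPAT s V fun i => (hAd i).1.ne
  obtain ⟨M2, hM2⟩ := hZPV h n m k π p e r f w0 c s ty b X Y P Q P' Q' s V hNF hh hPl hHB
  have hU := hDLU h n m k π p e r f w0 c s V hNF hh hHB
  obtain ⟨KM, hKM⟩ := hMTZ h n m k π p e r f w0 c s ty b X Y P Q P' Q' hNF hh hPl 0 0
    Fin.elim0 Fin.elim0 Fin.elim0 (te0 _ _) (τ - 1)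
  -- the primes outside of `ZP V`
  have hA : ∀ E : ℕ, ∃ K : ℝ, ∀ σ : ℝ, 1 < σ → σ ≤ 2 → 2 * sm (WR h n π w0 c 1 E t \ ZP V) σ ≤
      ∑ i : {δ : Fin s → ZMod 3 // δ ≠ 0}, sm (WR h n π w0 c 1 E t ∩ Pat V i.1) σ + K := by
    intro E
    refine (hSMT {δ : Fin s → ZMod 3 // δ ≠ 0} (WR h n π w0 c 1 E t \ ZP V) ∅ ∅
      (fun i => WR h n π w0 c 1 E t ∩ Pat V i.1) M1).1 ?_
    intro q hq hMq hqS
    rcases hM1 q hq hMq hqS.1.1 with h1 | ⟨δ, δ', h1, h2, h3, h4, h5⟩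
    · exact absurd h1 hqS.2
    · exact ⟨⟨δ, h1⟩, ⟨δ', h2⟩, fun h6 => h3 (congrArg Subtype.val h6), ⟨hqS.1, h4⟩,
        ⟨hqS.1, h5⟩⟩
  -- the primes of `ZP V`
  have hB : ∀ E : ℕ, (E = 1 ∨ E = 2) → ∃ K : ℝ, ∀ σ : ℝ, 1 < σ → σ ≤ 2 →
      sm (WR h n π w0 c 1 E t) σ ≤ sm (WR h n π w0 c 1 E t \ ZP V) σ +
        sm {q | (q ∈ QM h n π e w0 c (Fin.elim0 : Fin 0 → Fin (m + 1) → ZMod 3)
          (Fin.elim0 : Fin 0 → Fin 0) 1 E ∧ q ∈ ZP b) ∧
          τ - 1 ≤ kS h n b X Y P Q P' Q' E q} σ + K := by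
    intro E hE
    refine (hSMT PUnit (WR h n π w0 c 1 E t) (WR h n π w0 c 1 E t \ ZP V) _
      (fun _ => ∅) (n + 3 + M2)).2.2 ?_
    intro q hq hMq hqS
    by_cases hZ : q ∈ ZP V
    · right
      have hZb := hM2 q hq (by omega) hZ
      refine ⟨⟨⟨hqS.1, hqS.2.1, fun j => j.elim0⟩, hZb⟩, ?_⟩
      have h1 := CubeRank.rr_le (hNBX h n m k π p e r f w0 c s ty b X Y P Q P' Q' E q hNF hh hPl
        hE hq (by omega) hqS.1 hqS.2.1 (fun hd => by
          have := Nat.le_of_dvd hn0 hd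
          omega) hZb)
      have h2 := log_le h n π p e r w0 c (BB h n E q)
      have h3 := hqS.2.2
      omega
    · left
      exact ⟨hqS, hZ⟩
  obtain ⟨KA1, hA1⟩ := hA 1
  obtain ⟨KA2, hA2⟩ := hA 2
  obtain ⟨KB1, hB1⟩ := hB 1 (Or.inl rfl)
  obtain ⟨KB2, hB2⟩ := hB 2 (Or.inr rfl)
  choose KU hKU using fun δ : {δ : Fin s → ZMod 3 // δ ≠ 0} => hU δ.1 δ.2 t
  have hcard := CLU.card_ne s
  refine ⟨KB1 + KB2 + (KA1 + KA2 + ∑ i, KU i) / 2 + KM, fun σ hσ hσ2 => ?_⟩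
  have a1 := hA1 σ hσ hσ2
  have a2 := hA2 σ hσ hσ2
  have b1 := hB1 σ hσ hσ2
  have b2 := hB2 σ hσ hσ2
  have c0 := hKM σ hσ hσ2
  obtain ⟨Lg, hLg⟩ : ∃ Lg, Lg = Real.log (1 / (σ - 1)) := ⟨_, rfl⟩
  have u1 : ∑ i : {δ : Fin s → ZMod 3 // δ ≠ 0}, sm (WR h n π w0 c 1 1 t ∩ Pat V i.1) σ +
      ∑ i : {δ : Fin s → ZMod 3 // δ ≠ 0}, sm (WR h n π w0 c 1 2 t ∩ Pat V i.1) σ ≤
      (3 ^ s - 1) * (2 / 3 ^ s * LI (s - 1) τ / 3 ^ (m + 1) * Lg) + ∑ i, KU i := by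
    rw [← Finset.sum_add_distrib, ← hcard, ← nsmul_eq_mul, ← Finset.card_univ,
      ← Finset.sum_const, ← Finset.sum_add_distrib, hLg, hτ]
    exact Finset.sum_le_sum fun i _ => hKU i σ hσ hσ2
  rw [← hLg] at c0 ⊢
  have e1 : (3 ^ s - 1 : ℝ) * (2 / 3 ^ s * LI (s - 1) τ / 3 ^ (m + 1) * Lg) =
      2 * ((1 - 1 / 3 ^ s) * LI (s - 1) τ / 3 ^ (m + 1) * Lg) := by
    field_simp
  have e2 : (1 / 3 ^ s / 3 ^ 0 / 3 ^ (m + 1) * LI s (τ - 1) * Lg : ℝ) =
      1 / 3 ^ s * LI s (τ - 1) / 3 ^ (m + 1) * Lg := by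
    rw [pow_zero, div_one]
    ring
  have e3 : LI (s + 1) τ / 3 ^ (m + 1) * Lg = (1 - 1 / 3 ^ s) * LI (s - 1) τ / 3 ^ (m + 1) * Lg +
      1 / 3 ^ s * LI s (τ - 1) / 3 ^ (m + 1) * Lg := by
    rw [← li_eq hESZ s τ]
    ring
  rw [e1] at u1
  rw [e2] at c0
  rw [e3]
  linarith

end Pool.Agent.PTK


end

section

/-!
# PTK_DXK: the relation for the Frobenius invariant of `Q`, `Q = 2 (mod 3)`, for `HypX`
-/

set_option autoImplicit false

namespace Pool.Agent.PTK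

open Pool.Agent.Lib_helper18 Pool.Agent.Lib_helper18.Eis Pool.Agent.Lib_helper84.Cub
open Pool.Agent.PT

namespace DXK

open DPA DCK

lemma B_ne {N : ℕ} {b x p q p' q' : Eis} (HD : HypX N b x p q p' q') {E Q : ℕ} {X Y : Eis}
    (HP : HypP N b x p q p' q' E Q X Y) : (N : Eis) * (Q : Eis) ^ E ≠ 0 :=
  mul_ne_zero (nat_ne HD.N0.ne') (pow_ne_zero _ (nat_ne HP.hQ.ne_zero))

lemma n0_ne {N : ℕ} {b x p q p' q' : Eis} (HD : HypX N b x p q p' q') {E Q : ℕ} {X Y : Eis}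
    (HP : HypP N b x p q p' q' E Q X Y) : X ^ 3 + x * Y ^ 3 ≠ 0 := by
  obtain ⟨c, hc, h⟩ := HP.pt.eq
  intro h0
  rw [h0, mul_zero] at h
  exact mul_ne_zero (DXK.B_ne HD HP) (pow_ne_zero _ hc) h.symm

end DXK

open DPA DCK in
/-- PTK_DXK. -/
theorem DXK_thm (hSPP : SPP) (hSVF : Stmt_SVF) (hDX1 : Stmt_DX1) (hDX2 : Stmt_DX2)
    (hDX3 : Stmt_DX3) (hDX4 : Stmt_DX4) : Stmt_DXK := by
  intro N b x p q p' q' HD
  have hn1 := HD.sol.n1
  have hn2 := SolE_n1' HD.sol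
  obtain ⟨m1, hm1⟩ : ∃ m : ℕ, m = (p ^ 3 + x * q ^ 3).norm.natAbs := ⟨_, rfl⟩
  obtain ⟨m2, hm2⟩ : ∃ m : ℕ, m = (p' ^ 3 + x * q' ^ 3).norm.natAbs := ⟨_, rfl⟩
  have hm1d : p ^ 3 + x * q ^ 3 ∣ (m1 : Eis) := by rw [hm1]; exact dvd_natAbs_norm _
  have hm2d : p' ^ 3 + x * q' ^ 3 ∣ (m2 : Eis) := by rw [hm2]; exact dvd_natAbs_norm _
  have hm1p : 0 < m1 := by
    rw [hm1]
    exact Int.natAbs_pos.2 (norm_pos hn1).ne'
  have hm2p : 0 < m2 := by
    rw [hm2]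
    exact Int.natAbs_pos.2 (norm_pos hn2).ne'
  obtain ⟨M, hMdef⟩ : ∃ M : ℕ, M = N * m1 * m2 := ⟨_, rfl⟩
  have hMp : 0 < M := by
    rw [hMdef]
    exact Nat.mul_pos (Nat.mul_pos HD.N0 hm1p) hm2p
  have hMe : (M : Eis) = (N : Eis) * (m1 : Eis) * (m2 : Eis) := by
    rw [hMdef]
    push_cast
    ring
  have hM0 : (M : Eis) ≠ 0 := nat_ne hMp.ne'
  have dN : (N : Eis) ∣ (M : Eis) := by
    rw [hMe, mul_assoc]
    exact Dvd.intro _ rfl
  have d1 : p ^ 3 + x * q ^ 3 ∣ (M : Eis) := by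
    rw [hMe]
    exact dvd_mul_of_dvd_left (dvd_mul_of_dvd_right hm1d _) _
  have d2 : p' ^ 3 + x * q' ^ 3 ∣ (M : Eis) := by
    rw [hMe]
    exact dvd_mul_of_dvd_right hm2d _
  have hfin := hSPP.2.2.1 (M : Eis) hM0
  refine ⟨9 * M, by omega, ?_⟩
  intro f hf0 hf
  have h9 : 9 ∣ f := (Dvd.intro _ rfl).trans hf
  have hf1 : 1 < f := by
    have := Nat.le_of_dvd hf0 h9
    omega
  have hMf : M ∣ f := (Dvd.intro_left 9 rfl).trans hf
  have hMfe : (M : Eis) ∣ (f : Eis) := by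
    obtain ⟨k, hk⟩ := hMf
    rw [hk]
    push_cast
    exact Dvd.intro _ rfl
  obtain ⟨C₀, Φ₀, H₀⟩ := hDX2 N b x p q p' q' HD f hf1 h9
  have hpl : ∀ π : PP, ∃ (c : ZMod 3) (Φ : (ZMod f)ˣ →* Multiplicative (ZMod 3)),
      π.1 ∣ (M : Eis) → ∀ (E Q : ℕ) (hQ : Q.Coprime f) (X Y : Eis),
        HypP N b x p q p' q' E Q X Y →
        SVE (tm π.1) x p (-p') (-q) q' X Y = c + E * (Φ (ZMod.unitOfCoprime Q hQ)).toAdd := by
    intro π
    by_cases hπM : π.1 ∣ (M : Eis)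
    · obtain ⟨C, Φ, H⟩ := hDX1 N b x p q p' q' HD π f hf1 (hπM.trans hMfe)
      exact ⟨C, Φ, fun _ => H⟩
    · exact ⟨0, 1, fun h => absurd h hπM⟩
  choose c Φ H using hpl
  refine ⟨C₀ + ∑ π ∈ hfin.toFinset, c π, Φ₀ * ∏ π ∈ hfin.toFinset, Φ π, 0, ?_⟩
  intro E Q hQ hE hQp _ hQ3 hsb hsx X Y ξ hpt hgp hξ
  obtain ⟨πQ, hπQ⟩ := hSPP.2.2.2.2.1 Q hQp hQ3
  have hQM : ¬ πQ.1 ∣ (M : Eis) := by
    intro h
    rw [hπQ] at h
    have h1 : ((Q : ℤ) : Eis) ∣ ((M : ℤ) : Eis) := by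
      rw [Int.cast_natCast, Int.cast_natCast]
      exact h
    have h2 : Q ∣ M := Int.natCast_dvd_natCast.1 (intCast_dvd_intCast.1 h1)
    have h3 := Nat.Coprime.eq_one_of_dvd hQ (h2.trans hMf)
    exact hQp.one_lt.ne' h3
  have hQN : ¬ πQ.1 ∣ (N : Eis) := fun h => hQM (h.trans dN)
  obtain ⟨hQb, hQx⟩ := HD.unr πQ hQN
  obtain ⟨k, hk, hkE⟩ := hpt.eq
  have hBe : (N : Eis) * (Q : Eis) ^ E = (N : Eis) * πQ.1 ^ E := by rw [hπQ]
  have hdn : DNE X Y p (-p') (-q) q' := by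
    have hA := fun i => dne_aux (π := πQ) hE (X := X) (Y := Y) (u := q) (v := p) hBe hQN hQx hk
      hpt.hY hkE (fun h => hQM (h.trans d1)) i
    have hA' := fun i => dne_aux (π := πQ) hE (X := X) (Y := Y) (u := q') (v := p') hBe hQN hQx hk
      hpt.hY hkE (fun h => hQM (h.trans d2)) i
    refine ⟨?_, ?_, ?_, ?_⟩
    · intro h
      apply hA 1
      unfold DfE at h
      linear_combination - h
    · intro h
      apply hA 2
      unfold DfE at h
      linear_combination - h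
    · intro h
      apply hA' 1
      unfold DfE at h
      linear_combination h
    · intro h
      apply hA' 2
      unfold DfE at h
      linear_combination h
  have HP : HypP N b x p q p' q' E Q X Y := ⟨hE, hQp, hsb, hsx, hpt, hdn⟩
  have hn0 := DXK.n0_ne HD HP
  obtain ⟨-, hsum0⟩ := hSVF b x p (-p') (-q) q' X Y HD.hb HD.hx (SolE_flip HD.sol) hpt.hX hpt.hY
    hn0 hdn
  -- the place `Q`
  have hTQ : SVE (tm πQ.1) x p (-p') (-q) q' X Y = - (E * TAUE Q p q p' q' ξ) := by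
    refine (hDX4 N b x p q p' q' HD πQ E Q X Y ξ HP hQN ?_).1 hQ3 hπQ hξ
    intro h
    rcases πQ.2.1.dvd_or_dvd h with h1 | h1
    · exact hQM (h1.trans d1)
    · exact hQM (h1.trans d2)
  -- the sum
  have hQS : πQ ∉ hfin.toFinset := by
    rw [Set.Finite.mem_toFinset]
    exact hQM
  classical
  have hsupp : (Function.support fun v : Pl => SVE (sy v) x p (-p') (-q) q' X Y) ⊆
      ((insert none (insert (some πQ) (hfin.toFinset.image some)) : Finset Pl) : Set Pl) := by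
    intro v hv
    by_contra hnv
    apply hv
    rcases v with _ | π
    · exact absurd (Finset.mem_coe.2 (Finset.mem_insert_self _ _)) hnv
    · have hnM : ¬ π.1 ∣ (M : Eis) := by
        intro h
        apply hnv
        rw [Finset.mem_coe]
        refine Finset.mem_insert_of_mem (Finset.mem_insert_of_mem (Finset.mem_image_of_mem _ ?_))
        rw [Set.Finite.mem_toFinset]
        exact h
      have hπne : π ≠ πQ := by
        rintro rfl
        apply hnv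
        rw [Finset.mem_coe]
        exact Finset.mem_insert_of_mem (Finset.mem_insert_self _ _)
      have hπQnd : ¬ π.1 ∣ (Q : Eis) := by
        rw [← hπQ]
        intro h
        exact hπne (hSPP.2.1 π πQ (π.2.1.associated_of_dvd πQ.2.1 h))
      refine hDX3 N b x p q p' q' HD π E Q X Y HP (fun h => hnM (h.trans dN)) hπQnd ?_
      intro h
      rcases π.2.1.dvd_or_dvd h with h1 | h1
      · exact hnM (h1.trans d1)
      · exact hnM (h1.trans d2)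
  have hn_notin : (none : Pl) ∉ insert (some πQ) (hfin.toFinset.image some) := by
    simp
  have hQ_notin : (some πQ : Pl) ∉ hfin.toFinset.image some := by
    intro h
    obtain ⟨y, hy, hy'⟩ := Finset.mem_image.1 h
    rw [Option.some.injEq] at hy'
    rw [hy'] at hy
    exact hQS hy
  have hsum : ∑ π ∈ hfin.toFinset, SVE (sy (some π)) x p (-p') (-q) q' X Y =
      ∑ π ∈ hfin.toFinset, (c π + E * (Φ π (ZMod.unitOfCoprime Q hQ)).toAdd) := by
    refine Finset.sum_congr rfl ?_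
    intro π hπ
    rw [Set.Finite.mem_toFinset] at hπ
    exact H π hπ E Q hQ X Y HP
  rw [finsum_eq_sum_of_support_subset _ hsupp, Finset.sum_insert hn_notin,
    Finset.sum_insert hQ_notin, Finset.sum_image (fun _ _ _ _ h => Option.some_injective _ h),
    hsum] at hsum0
  have e1 : SVE (sy none) x p (-p') (-q) q' X Y =
      C₀ + E * (Φ₀ (ZMod.unitOfCoprime Q hQ)).toAdd := H₀ E Q hQ X Y HP hgp
  have e2 : SVE (sy (some πQ)) x p (-p') (-q) q' X Y = - (E * TAUE Q p q p' q' ξ) := hTQ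
  rw [e1, e2, Finset.sum_add_distrib, ← Finset.mul_sum] at hsum0
  rw [MonoidHom.mul_apply, MonoidHom.finsetProd_apply, toAdd_mul, toAdd_prod]
  linear_combination hsum0

end Pool.Agent.PTK


end

section

/-!
# PTK_JPG: joint averages, `q = 1 (mod 3)`, one pattern
-/

set_option autoImplicit false

open NumberField IsDedekindDomain Finset
open scoped nonZeroDivisors Pointwise

namespace Pool.Agent.PTK

open Pool.Agent.Lib_helper18 Pool.Agent.Lib_helper18.Eis Pool.Agent.Lib_helper84.Cub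
open Pool.Agent.PT Pool.Agent.PTE Pool.Agent.PT3 Pool.Agent.PTL Pool.Agent.PTN

namespace JPG

theorem Esk_nonneg (s : ℕ) (F : ℕ → ℝ) (hF : ∀ c, 0 ≤ F c) : 0 ≤ Esk s F := by
  unfold Esk
  exact div_nonneg (finsum_nonneg fun M => hF _) (Nat.cast_nonneg _)

end JPG

/-- PTK_JPG -/
theorem JPG_thm (hKUM : Stmt_KUM) (hWSM : Stmt_WSM) (hMTU : Stmt_MTU) : Stmt_JPG := by
  intro h n m k π p e r f w0 c d v δ s τ b X Y P Q P' Q' hNF hh hδ hPl k₀ F hF hF0
  have hd : d - 1 = s := by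
    have := hPl.dim
    omega
  have hFn : ∀ c, 0 ≤ F c := fun c => hF0.trans (hF (Nat.zero_le c))
  have hEn : 0 ≤ Esk (d - 1) F := JPG.Esk_nonneg _ _ hFn
  have hkU : ∀ E q : ℕ, kU h n b X Y P Q P' Q' E q ≤ s := fun E q => Nat.sub_le _ _
  refine hWSM h n m k π p e r f w0 c hNF hh k₀
    (fun E => {q | q % 3 = 1 ∧ InCT E π w0 c q ∧ q ∈ Pat v δ})
    (fun E q => F (kU h n b X Y P Q P' Q' E q)) (Esk (d - 1) F * (2 / 3 ^ d / 3 ^ (m + 1)))
    (by positivity) (fun E q => hFn _) ?_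
  intro M N y α β hT
  have hset : ∀ E : ℕ, ∀ t : ℕ,
      {q | q ∈ {q | q ∈ {q | q % 3 = 1 ∧ InCT E π w0 c q ∧ q ∈ Pat v δ} ∧
        ∀ j, Occ (BB h n E q) (zN π e (y (α j)))} ∧ t ≤ kU h n b X Y P Q P' Q' E q} =
      {q | (q ∈ QM h n π e w0 c y α 1 E ∧ q ∈ Pat v δ) ∧
        t ≤ kU h n b X Y P Q P' Q' E q} := by
    intro E t
    ext q
    constructor
    · rintro ⟨⟨⟨h1, h2, h3⟩, h4⟩, h5⟩
      exact ⟨⟨⟨h1, h2, h4⟩, h3⟩, h5⟩
    · rintro ⟨⟨⟨h1, h2, h4⟩, h3⟩, h5⟩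
      exact ⟨⟨⟨h1, h2, h3⟩, h4⟩, h5⟩
  have h1 := hKUM
    (fun E => {q | q ∈ {q | q % 3 = 1 ∧ InCT E π w0 c q ∧ q ∈ Pat v δ} ∧
        ∀ j, Occ (BB h n E q) (zN π e (y (α j)))})
    (fun E q => kU h n b X Y P Q P' Q' E q) s 0 (2 / 3 ^ d / 3 ^ N / 3 ^ (m + 1))
    (by positivity) (fun E q _ _ _ _ => hkU E q)
    (fun t => by
      obtain ⟨K, hK⟩ := hMTU h n m k π p e r f w0 c d v δ s τ b X Y P Q P' Q' hNF hh hδ hPl
        M N y α β hT t
      refine ⟨K, fun σ h1 h2 => ?_⟩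
      have h3 := hK σ h1 h2
      rw [← hset 1 t, ← hset 2 t] at h3
      exact h3) F hF hF0
  have h2 : Esk s F * (2 / 3 ^ d / 3 ^ N / 3 ^ (m + 1)) =
      Esk (d - 1) F * (2 / 3 ^ d / 3 ^ (m + 1)) / (3 : ℝ) ^ N := by
    rw [hd]
    field_simp
  rw [h2] at h1
  exact h1

end Pool.Agent.PTK


end

section

/-!
# PTK_LRR: the class of a point of the isogenous curve at `3`
-/

set_option autoImplicit false

open Finset

namespace Pool.Agent.PTK

open Pool.Agent.Lib_helper18 Pool.Agent.Lib_helper18.Eis Pool.Agent.Lib_helper84.Cub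
open Pool.Agent.PT Pool.Agent.PTE Pool.Agent.PT3 Pool.Agent.PTL Pool.Agent.PTN

namespace LRR

theorem wt_res' {A : ℤ} {c : ℤ} (s t : ℤ) (hA : A % 9 = c) (h : c ^ 2 = 1 + 3 * (3 * s + t)) :
    wt (A ^ 2) = (t : ZMod 3) := by
  obtain ⟨k, hk⟩ : ∃ k : ℤ, A = 9 * k + c := ⟨A / 9, by omega⟩
  have h3 : A ^ 2 = 1 + 3 * (3 * (9 * k ^ 2 + 2 * k * c + s) + t) := by
    rw [hk]
    linear_combination h
  have e : (A ^ 2 - 1) / 3 = 3 * (9 * k ^ 2 + 2 * k * c + s) + t := by omega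
  unfold wt
  rw [e]
  push_cast
  have h4 : (3 : ZMod 3) = 0 := by decide
  rw [h4]
  ring

theorem cls (hLCL : LCL) {A : ℤ} (hA : ¬ (3 : ℤ) ∣ A) : lv A = 0 ∧
    ((A % 9 = 1 ∨ A % 9 = 8) ∧ lw A = 0 ∨ (A % 9 = 2 ∨ A % 9 = 7) ∧ lw A = 1 ∨
      (A % 9 = 4 ∨ A % 9 = 5) ∧ lw A = 2) := by
  obtain ⟨h1, h2⟩ := hLCL.2.2.2.1 A hA
  refine ⟨h1, ?_⟩
  rw [h2]
  have hr : A % 9 = 1 ∨ A % 9 = 2 ∨ A % 9 = 4 ∨ A % 9 = 5 ∨ A % 9 = 7 ∨ A % 9 = 8 := by omega
  rcases hr with h | h | h | h | h | h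
  · exact Or.inl ⟨Or.inl h, by rw [wt_res' 0 0 h (by norm_num)]; decide⟩
  · exact Or.inr (Or.inl ⟨Or.inl h, by rw [wt_res' 0 1 h (by norm_num)]; decide⟩)
  · exact Or.inr (Or.inr ⟨Or.inl h, by rw [wt_res' 1 2 h (by norm_num)]; decide⟩)
  · exact Or.inr (Or.inr ⟨Or.inr h, by rw [wt_res' 2 2 h (by norm_num)]; decide⟩)
  · exact Or.inr (Or.inl ⟨Or.inr h, by rw [wt_res' 5 1 h (by norm_num)]; decide⟩)
  · exact Or.inl ⟨Or.inr h, by rw [wt_res' 7 0 h (by norm_num)]; decide⟩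

/-- two numbers prime to `3` with sum divisible by `9` -/
theorem opp (hLCL : LCL) {A B : ℤ} (hA : ¬ (3 : ℤ) ∣ A) (hB : ¬ (3 : ℤ) ∣ B) (h : (9 : ℤ) ∣ A + B) :
    lw A = lw B := by
  obtain ⟨-, h1⟩ := cls hLCL hA
  obtain ⟨-, h2⟩ := cls hLCL hB
  rcases h1 with ⟨h1, e1⟩ | ⟨h1, e1⟩ | ⟨h1, e1⟩ <;>
  rcases h2 with ⟨h2, e2⟩ | ⟨h2, e2⟩ | ⟨h2, e2⟩ <;>
  first
    | (exfalso; omega)
    | rw [e1, e2]

/-- three numbers prime to `3` with sum zero -/
theorem thr (hLCL : LCL) {A B C : ℤ} (hA : ¬ (3 : ℤ) ∣ A) (hB : ¬ (3 : ℤ) ∣ B) (hC : ¬ (3 : ℤ) ∣ C)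
    (h : A + B + C = 0) : lw A + lw B + lw C = 1 := by
  obtain ⟨-, h1⟩ := cls hLCL hA
  obtain ⟨-, h2⟩ := cls hLCL hB
  obtain ⟨-, h3⟩ := cls hLCL hC
  rcases h1 with ⟨h1, e1⟩ | ⟨h1, e1⟩ | ⟨h1, e1⟩ <;>
  rcases h2 with ⟨h2, e2⟩ | ⟨h2, e2⟩ | ⟨h2, e2⟩ <;>
  rcases h3 with ⟨h3, e3⟩ | ⟨h3, e3⟩ | ⟨h3, e3⟩ <;>
  first
    | (exfalso; omega)
    | (rw [e1, e2, e3]; decide)

/-- `3` divides exactly one of the three numbers -/
theorem one (hLCL : LCL) {A C D B : ℤ} (hA0 : A ≠ 0) (hA : (3 : ℤ) ∣ A) (hC : ¬ (3 : ℤ) ∣ C)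
    (h : A + C + D = 0) (h1 : lv A + lv C + lv D = lv B) (h2 : lw A + lw C + lw D = lw B)
    (h3 : lv B ≠ 1) :
    lv C = 0 ∧ lv D = 0 ∧ lv A = lv B ∧ lw C = lw D ∧ lw A - lw C = lw B := by
  have hD : ¬ (3 : ℤ) ∣ D := by omega
  obtain ⟨c0, -⟩ := cls hLCL hC
  obtain ⟨d0, -⟩ := cls hLCL hD
  rw [c0, d0, add_zero, add_zero] at h1
  have h9 : (9 : ℤ) ∣ A := by
    by_contra hcon
    obtain ⟨a, rfl⟩ := hA
    have ha : ¬ (3 : ℤ) ∣ a := fun h => hcon (by obtain ⟨t, rfl⟩ := h; exact ⟨t, by ring⟩)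
    have ha0 : a ≠ 0 := fun h => ha (h ▸ dvd_zero _)
    have e := (hLCL.2.1 3 a (by norm_num) ha0).1
    rw [hLCL.2.2.1.1, (cls hLCL ha).1, add_zero] at e
    exact h3 (h1.symm.trans e)
  have e : lw C = lw D := opp hLCL hC hD (by omega)
  refine ⟨c0, d0, h1, e, ?_⟩
  rw [← h2, ← e]
  have h4 : (3 : ZMod 3) = 0 := by decide
  linear_combination (-lw C) * h4

theorem main (hLCL : LCL) : ∀ (n : ℕ) (P Q R B : ℤ), P.natAbs ≤ n → P ≠ 0 → Q ≠ 0 → R ≠ 0 →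
    B ≠ 0 → P + Q + R = 0 → lv (P * Q * R) = lv B → lw (P * Q * R) = lw B → lv B ≠ 1 →
    ∃ κ : ZMod 3, lv Q - lv R = κ * lv B ∧ lw Q - lw R = κ * lw B := by
  intro n
  induction n with
  | zero =>
    intro P Q R B hn hP
    exact absurd (Int.natAbs_eq_zero.1 (Nat.le_zero.1 hn)) hP
  | succ n ih =>
    intro P Q R B hn hP hQ hR hB hs h1 h2 h3
    have hPQ : P * Q ≠ 0 := mul_ne_zero hP hQ
    have f1 : lv P + lv Q + lv R = lv B := by
      rw [← h1, (hLCL.2.1 _ _ hPQ hR).1, (hLCL.2.1 _ _ hP hQ).1]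
    have f2 : lw P + lw Q + lw R = lw B := by
      rw [← h2, (hLCL.2.1 _ _ hPQ hR).2, (hLCL.2.1 _ _ hP hQ).2]
    by_cases hp : (3 : ℤ) ∣ P
    · by_cases hq : (3 : ℤ) ∣ Q
      · -- all divisible
        have hr : (3 : ℤ) ∣ R := by omega
        obtain ⟨p, rfl⟩ := hp
        obtain ⟨q, rfl⟩ := hq
        obtain ⟨r, rfl⟩ := hr
        have p0 : p ≠ 0 := fun h => hP (by rw [h, mul_zero])
        have q0 : q ≠ 0 := fun h => hQ (by rw [h, mul_zero])
        have r0 : r ≠ 0 := fun h => hR (by rw [h, mul_zero])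
        have t0 : (3 : ℤ) ≠ 0 := by norm_num
        obtain ⟨a1, b1⟩ := hLCL.2.1 3 p t0 p0
        obtain ⟨a2, b2⟩ := hLCL.2.1 3 q t0 q0
        obtain ⟨a3, b3⟩ := hLCL.2.1 3 r t0 r0
        obtain ⟨c1, c2⟩ := hLCL.2.2.1
        have h4 : (3 : ZMod 3) = 0 := by decide
        rw [a1, a2, a3, c1] at f1
        rw [b1, b2, b3, c2] at f2
        obtain ⟨κ, k1, k2⟩ := ih p q r B (by omega) p0 q0 r0 hB (by omega)
          (by
            rw [(hLCL.2.1 _ _ (mul_ne_zero p0 q0) r0).1, (hLCL.2.1 _ _ p0 q0).1]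
            linear_combination f1 - h4)
          (by
            rw [(hLCL.2.1 _ _ (mul_ne_zero p0 q0) r0).2, (hLCL.2.1 _ _ p0 q0).2]
            linear_combination f2) h3
        refine ⟨κ, ?_, ?_⟩
        · rw [a2, a3, ← k1]
          ring
        · rw [b2, b3, ← k2]
          ring
      · -- only `P`
        obtain ⟨c0, d0, e1, e2, e3⟩ := one hLCL hP hp hq hs f1 f2 h3
        exact ⟨0, by rw [c0, d0]; ring, by rw [e2]; ring⟩
    · by_cases hq : (3 : ℤ) ∣ Q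
      · -- only `Q`
        obtain ⟨c0, d0, e1, e2, e3⟩ := one (D := R) (B := B) hLCL hQ hq hp (by omega)
          (by rw [← f1]; ring) (by rw [← f2]; ring) h3
        refine ⟨1, ?_, ?_⟩
        · rw [d0, e1]
          ring
        · rw [← e3, e2]
          ring
      · by_cases hr : (3 : ℤ) ∣ R
        · -- only `R`
          obtain ⟨c0, d0, e1, e2, e3⟩ := one (D := Q) (B := B) hLCL hR hr hp (by omega)
            (by rw [← f1]; ring) (by rw [← f2]; ring) h3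
          refine ⟨-1, ?_, ?_⟩
          · rw [d0, e1]
            ring
          · rw [← e3, e2]
            ring
        · -- none
          have g := thr hLCL hp hq hr hs
          rw [f2] at g
          refine ⟨lw Q - lw R, ?_, ?_⟩
          · rw [← f1, (cls hLCL hp).1, (cls hLCL hq).1, (cls hLCL hr).1]
            ring
          · rw [g, mul_one]

end LRR

theorem LRR_thm (hLCL : LCL) : Stmt_LRR := by
  intro R B hR hB hs h1 h2 h3
  exact LRR.main hLCL _ (R 0) (R 1) (R 2) B le_rfl (hR 0) (hR 1) (hR 2) hB hs h1 h2 h3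

end Pool.Agent.PTK


end

section

/-!
# PTK_MAV: the law of the ranks of prime twists, the theorem
-/

set_option autoImplicit false

open NumberField IsDedekindDomain Finset
open scoped nonZeroDivisors Pointwise

namespace Pool.Agent.PTK

open Pool.Agent.Lib_helper18 Pool.Agent.Lib_helper18.Eis Pool.Agent.Lib_helper84.Cub
open Pool.Agent.PT Pool.Agent.PTE Pool.Agent.PT3 Pool.Agent.PTL Pool.Agent.PTN

open MAINQ in
/-- PTK_MAV -/
theorem MAV_thm (hCAV : Stmt_CAV) (hCBV : Stmt_CBV) (hALV : Stmt_ALV) (hNFE : Stmt_NFE)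
    (hNDIM : Stmt_NDIM) (hNSUM : Stmt_NSUM) (hNZER : Stmt_NZER)
    (hNSU1 : Stmt_NSU1) (hNZE1 : Stmt_NZE1) (hNZE0 : Stmt_NZE0) (hCAB : Stmt_CAB)
    (hCBE : Stmt_CBE) (hLAW : Stmt_LAW) (hALLQ : Stmt_ALLQ) (hTRU : Stmt_TRU)
    (hTRC : Stmt_TRC) (hCLN : Stmt_CLN) (hCLU : Stmt_CLU) (hSUMA : Stmt_SUMA) :
    Stmt_MAV := by
  classical
  intro N hN0 hcf m k δ μ hm hk hδ hμ
  obtain ⟨h, n, m', k', π, p, e, r, f, hNF, hh, -, hNe, hm', hk'⟩ := hNFE N hN0 hcf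
  have em : m' = m := hm'.trans hm.symm
  have ek : k' = k := hk'.trans hk.symm
  subst em ek
  clear hm hk hm' hk'
  subst hNe
  have hδ' : δ = if h = 1 then 1 else 0 := by
    rw [hδ]
    by_cases h1 : h = 1
    · rw [if_pos ((delta_eq hNF hh).2 h1), if_pos h1]
    · rw [if_neg fun h2 => h1 ((delta_eq hNF hh).1 h2), if_neg h1]
  clear hδ
  subst hδ'
  have hμ' : μ = m' + (if h = 1 then 0 else 1) := by
    split_ifs at hμ ⊢ <;> omega
  have hf0 : 9 * (3 ^ h * n) ≠ 0 := by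
    have := hN0
    omega
  have : NeZero (9 * (3 ^ h * n)) := ⟨hf0⟩
  obtain ⟨hT1, hT2⟩ := hTRU h n m' k' π p e r f hNF
  have hcopq : ∀ q e' : ℕ, q.Prime → 9 * (3 ^ h * n) < q →
      IsCoprime ((q : ℤ) ^ e') ((9 * (3 ^ h * n) : ℕ) : ℤ) := by
    intro q e' hq hlt
    apply IsCoprime.pow_left
    rw [Nat.isCoprime_iff_coprime]
    exact (Nat.Prime.coprime_iff_not_dvd hq).2 fun hd =>
      absurd (Nat.le_of_dvd (Nat.pos_of_ne_zero hf0) hd) (by omega)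
  have hCK : ∀ u : (ZMod (9 * (3 ^ h * n)))ˣ, ∀ e' q : ℕ, (e' = 1 ∨ e' = 2) → q.Prime →
      9 * (3 ^ h * n) < q → Cu (3 ^ h * n) u ((q : ℤ) ^ e') →
      Kl π (clu (9 * (3 ^ h * n)) π u).1 (clu (9 * (3 ^ h * n)) π u).2 ((q : ℤ) ^ e') := by
    rintro u e' q - hq hlt ⟨x, hx⟩
    exact hT2 u _ _ _ x (kl_clu _ π u) (hcopq q e' hq hlt) hx
  have hKC : ∀ u : (ZMod (9 * (3 ^ h * n)))ˣ, ∀ e' q : ℕ, (e' = 1 ∨ e' = 2) → q.Prime →
      9 * (3 ^ h * n) < q →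
      Kl π (clu (9 * (3 ^ h * n)) π u).1 (clu (9 * (3 ^ h * n)) π u).2 ((q : ℤ) ^ e') →
      Cu (3 ^ h * n) u ((q : ℤ) ^ e') := by
    rintro u e' q - hq hlt hy
    exact hTRC h n m' k' π p e r f hNF u _ _ _ (kl_clu _ π u) hy (hcopq q e' hq hlt)
  have hφ : (0 : ℝ) ≤ ((9 * (3 ^ h * n)).totient : ℝ) := Nat.cast_nonneg _
  refine ⟨⟨fun u => vN h n π p e r (clu (9 * (3 ^ h * n)) π u).1 (clu (9 * (3 ^ h * n)) π u).2,
    fun u => sN h n π p e r (clu (9 * (3 ^ h * n)) π u).1 (clu (9 * (3 ^ h * n)) π u).2,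
    ?_, ?_, ?_, ?_, ?_, ?_⟩, ?_, ?_⟩
  · -- the relation of the dimensions
    intro u
    have h1 := dims (π := π) (p := p) (e := e) (r := r) (n := n) hNDIM hh
      (clu (9 * (3 ^ h * n)) π u).1 (clu (9 * (3 ^ h * n)) π u).2
    by_cases h2 : Nu1 (3 ^ h * n) u
    · rw [if_pos h2]
      rw [if_pos ((nu1_iff hNF u).1 h2)] at h1
      exact h1
    · rw [if_neg h2]
      rw [if_neg fun h3 => h2 ((nu1_iff hNF u).2 h3)] at h1
      exact h1
  · -- the average of `3 ^ v`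
    rw [finsum_eq_sum_of_fintype,
      sum_clu π hT1 (fun x => (3 : ℝ) ^ vN h n π p e r x.1 x.2)]
    have hS : ∑ x : ZMod 3 × (Fin m' → ZMod 3), (3 : ℝ) ^ vN h n π p e r x.1 x.2 ≤
        (5 / 3) ^ μ * 3 ^ (m' + 1) := by
      by_cases h1 : h = 1
      · subst h1
        have h2 := hNSU1 n m' k' π p e r f hNF
        have h3 : ∑ x : ZMod 3 × (Fin m' → ZMod 3), (3 : ℝ) ^ vN 1 n π p e r x.1 x.2 ≤
            3 * 5 ^ m' := by exact_mod_cast h2
        rw [hμ', if_pos rfl, add_zero, div_pow, pow_succ]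
        refine h3.trans (le_of_eq ?_)
        field_simp
      · have h2 := hNSUM h n m' k' π p e r f hNF
        have h3 : ∑ x : ZMod 3 × (Fin m' → ZMod 3), (3 : ℝ) ^ vN h n π p e r x.1 x.2 ≤
            5 ^ (m' + 1) := by exact_mod_cast h2
        rw [hμ', if_neg h1, div_pow]
        refine h3.trans (le_of_eq ?_)
        field_simp
    calc _ ≤ ((5 / 3) ^ μ * 3 ^ (m' + 1)) * (((9 * (3 ^ h * n)).totient : ℝ) / 3 ^ (m' + 1)) :=
          mul_le_mul_of_nonneg_right hS (by positivity)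
      _ = (5 / 3) ^ μ * (9 * (3 ^ h * n)).totient := by field_simp
  · -- the units with `v = 0`
    have hC := count π hT1 (fun x => vN h n π p e r x.1 x.2 = 0 ∧
      ¬ (h = 0 ∧ wt ((n : ℤ) ^ 2) + x.1 = 0))
    have e1 : Nat.card {u : (ZMod (9 * (3 ^ h * n)))ˣ //
        vN h n π p e r (clu (9 * (3 ^ h * n)) π u).1 (clu (9 * (3 ^ h * n)) π u).2 = 0 ∧
          ¬ Nu1 (3 ^ h * n) u} =
        Nat.card {u : (ZMod (9 * (3 ^ h * n)))ˣ //
          vN h n π p e r (clu (9 * (3 ^ h * n)) π u).1 (clu (9 * (3 ^ h * n)) π u).2 = 0 ∧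
            ¬ (h = 0 ∧ wt ((n : ℤ) ^ 2) + (clu (9 * (3 ^ h * n)) π u).1 = 0)} :=
      Nat.card_congr (Equiv.subtypeEquivRight fun u => by rw [nu1_iff hNF u])
    rw [e1, hC]
    have hS : (2 / 3 : ℝ) ^ μ * 3 ^ (m' + 1) ≤
        Nat.card {x : ZMod 3 × (Fin m' → ZMod 3) // vN h n π p e r x.1 x.2 = 0 ∧
          ¬ (h = 0 ∧ wt ((n : ℤ) ^ 2) + x.1 = 0)} := by
      by_cases h1 : h = 1
      · subst h1
        have h2 := hNZE1 n m' k' π p e r f hNF
        have e2 : Nat.card {x : ZMod 3 × (Fin m' → ZMod 3) // vN 1 n π p e r x.1 x.2 = 0 ∧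
            ¬ (1 = 0 ∧ wt ((n : ℤ) ^ 2) + x.1 = 0)} =
            Nat.card {x : ZMod 3 × (Fin m' → ZMod 3) // vN 1 n π p e r x.1 x.2 = 0} :=
          Nat.card_congr (Equiv.subtypeEquivRight fun x =>
            ⟨fun h3 => h3.1, fun h3 => ⟨h3, fun h4 => absurd h4.1 one_ne_zero⟩⟩)
        rw [e2, hμ', if_pos rfl, add_zero, div_pow, pow_succ]
        have h3 : (3 : ℝ) * 2 ^ m' ≤
            Nat.card {x : ZMod 3 × (Fin m' → ZMod 3) // vN 1 n π p e r x.1 x.2 = 0} := by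
          exact_mod_cast h2
        refine le_trans (le_of_eq ?_) h3
        field_simp
      · have h2 := hNZER h n m' k' π p e r f hNF
        have h3 : (2 : ℝ) ^ (m' + 1) ≤
            Nat.card {x : ZMod 3 × (Fin m' → ZMod 3) // vN h n π p e r x.1 x.2 = 0 ∧
              ¬ (h = 0 ∧ wt ((n : ℤ) ^ 2) + x.1 = 0)} := by exact_mod_cast h2
        rw [hμ', if_neg h1, div_pow]
        refine le_trans (le_of_eq ?_) h3
        field_simp
    calc (2 / 3 : ℝ) ^ μ * (9 * (3 ^ h * n)).totient =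
        ((2 / 3 : ℝ) ^ μ * 3 ^ (m' + 1)) * (((9 * (3 ^ h * n)).totient : ℝ) / 3 ^ (m' + 1)) := by
          field_simp
      _ ≤ _ := mul_le_mul_of_nonneg_right hS (by positivity)
  · -- the units with `v = 0`, `N u = ± 1`
    rintro h3N ⟨l, hl, hlN, hl9⟩
    have hh0 : h = 0 := by
      by_contra h0
      exact h3N ((dvd_pow_self 3 h0).mul_right _)
    subst hh0
    have hj : ∃ j, wt ((r j : ℤ) ^ 2) ≠ 0 := by
      rw [pow_zero, one_mul] at hlN
      rcases EADM.prime_dvd hNF hl hlN with ⟨i, hi⟩ | ⟨j, hj⟩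
      · have := hNF.p1 i
        omega
      · refine ⟨j, (FIN.p_wt (hNF.r2 j)).2 ?_⟩
        omega
    have h2 := hNZE0 n m' k' π p e r f hNF hj
    have hC := count π hT1 (fun x => vN 0 n π p e r x.1 x.2 = 0 ∧ wt ((n : ℤ) ^ 2) + x.1 = 0)
    have e1 : Nat.card {u : (ZMod (9 * (3 ^ 0 * n)))ˣ //
        vN 0 n π p e r (clu (9 * (3 ^ 0 * n)) π u).1 (clu (9 * (3 ^ 0 * n)) π u).2 = 0 ∧
          Nu1 (3 ^ 0 * n) u} =
        Nat.card {u : (ZMod (9 * (3 ^ 0 * n)))ˣ //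
          vN 0 n π p e r (clu (9 * (3 ^ 0 * n)) π u).1 (clu (9 * (3 ^ 0 * n)) π u).2 = 0 ∧
            wt ((n : ℤ) ^ 2) + (clu (9 * (3 ^ 0 * n)) π u).1 = 0} :=
      Nat.card_congr (Equiv.subtypeEquivRight fun u => by
        rw [nu1_iff hNF u]
        exact ⟨fun h3 => ⟨h3.1, h3.2.2⟩, fun h3 => ⟨h3.1, rfl, h3.2⟩⟩)
    rw [e1, hC]
    have h3 : (2 : ℝ) ^ m' ≤
        Nat.card {x : ZMod 3 × (Fin m' → ZMod 3) // vN 0 n π p e r x.1 x.2 = 0 ∧
          wt ((n : ℤ) ^ 2) + x.1 = 0} := by exact_mod_cast h2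
    calc 1 / 3 * (2 / 3 : ℝ) ^ m' * (9 * (3 ^ 0 * n)).totient =
        2 ^ m' * (((9 * (3 ^ 0 * n)).totient : ℝ) / 3 ^ (m' + 1)) := by
          rw [div_pow, pow_succ]
          field_simp
      _ ≤ _ := mul_le_mul_of_nonneg_right h3 (by positivity)
  · -- averages
    intro u F hF h0
    have hnn : ∀ A : ℤ, 0 ≤ F (CubeRank.rr A) := fun A => h0.trans (hF (Nat.zero_le _))
    have h1 := hCAB h n m' k' π p e r f (clu (9 * (3 ^ h * n)) π u).1
      (clu (9 * (3 ^ h * n)) π u).2 hNF hh F hF h0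
    have h2 := hCAV h n m' k' π p e r f (clu (9 * (3 ^ h * n)) π u).1
      (clu (9 * (3 ^ h * n)) π u).2 hNF hh F hF h0
    exact ⟨above_of hnn (hCK u) h1.1, above_of hnn (hCK u) h2⟩
  · -- lower bounds in a class
    obtain ⟨-, -, hL3, hL4, -, -, -, -⟩ := hLAW
    intro u hv
    have hv' : vN h n π p e r (clu (9 * (3 ^ h * n)) π u).1 (clu (9 * (3 ^ h * n)) π u).2 = 0 :=
      hv
    have hB := hCBE h n m' k' π p e r f (clu (9 * (3 ^ h * n)) π u).1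
      (clu (9 * (3 ^ h * n)) π u).2 hNF hh
    have hB' := hCBV h n m' k' π p e r f (clu (9 * (3 ^ h * n)) π u).1
      (clu (9 * (3 ^ h * n)) π u).2 hNF hh
    rw [hv'] at hB hB'
    have key : ∀ (a : ℕ) (R : ℤ → Prop) (x d : ℝ),
        BelowA ((3 ^ h * n : ℕ) : ℤ) a (Kl π (clu (9 * (3 ^ h * n)) π u).1
          (clu (9 * (3 ^ h * n)) π u).2) (fun A => tf (R A)) ((1 - x) / 3 ^ (m' + 1)) →
        d ≤ 1 - x →
        BelowA ((3 ^ h * n : ℕ) : ℤ) a (Cu (3 ^ h * n) u) (fun A => tf (R A))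
          (d / 3 ^ (m' + 1)) := by
      intro a R x d h1 h2
      refine below_of (fun A => tf_nn _) (hKC u) ?_
      exact (hSUMA _ a m' π _).2.2.2 _ _ _ (div_le_div_of_nonneg_right h2 (by positivity)) h1
    refine ⟨fun hs => ⟨?_, ?_⟩, fun hs => ⟨?_, ?_⟩⟩
    · have h2 := hL3 _ hs
      exact key 2 _ _ _ (hB 1 _ no_sol').1 (by rw [Nat.sub_zero]; linarith)
    · have h2 := hL4 _ hs.add_one
      exact key 1 _ _ _ (hB' 2 _ le_one) (by rw [Nat.sub_zero]; linarith)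
    · have h2 := hL4 _ hs
      exact key 2 _ _ _ (hB 2 _ le_one).1 (by rw [Nat.sub_zero]; linarith)
    · have h2 := hL3 _ hs.add_one
      exact key 1 _ _ _ (hB' 1 _ no_sol') (by rw [Nat.sub_zero]; linarith)
  · -- finite generation
    choose M1 hM1 using fun x : ZMod 3 × (Fin m' → ZMod 3) =>
      (hCLN h n m' k' π p e r f x.1 x.2 hNF hh).1
    choose M2 hM2 using fun x : ZMod 3 × (Fin m' → ZMod 3) =>
      (hCLU h n m' k' π p e r f x.1 x.2 hNF hh).1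
    refine ⟨3 + ∑ x, (M1 x + M2 x), fun q E hq hM hE => ?_⟩
    have hBB : ((3 ^ h * n : ℕ) : ℤ) * (q : ℤ) ^ E = BB h n E q := by
      unfold BB
      push_cast
      ring
    rw [hBB]
    let x : ZMod 3 × (Fin m' → ZMod 3) :=
      (wt (((q : ℤ) ^ E) ^ 2), fun i => (E : ZMod 3) * sym (π i).1 (q : Eis))
    have hcl : InCT E π x.1 x.2 q := ⟨rfl, fun _ => rfl⟩
    have hx : M1 x + M2 x ≤ ∑ x, (M1 x + M2 x) :=
      Finset.single_le_sum (f := fun x => M1 x + M2 x) (fun _ _ => Nat.zero_le _)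
        (Finset.mem_univ x)
    have hq3 : q % 3 = 1 ∨ q % 3 = 2 := by
      have h1 : ¬ 3 ∣ q := by
        intro h3
        have := (Nat.prime_dvd_prime_iff_eq Nat.prime_three hq).1 h3
        omega
      omega
    rcases hq3 with h1 | h2
    · exact CubeRank.gen_rr (hM2 x E q hE hq (by omega) h1 hcl)
    · exact CubeRank.gen_rr (hM1 x E q hE hq (by omega) h2 hcl)
  · -- the averages over all `A`
    obtain ⟨a1, -, a3, a4⟩ := hALLQ h n m' k' π p e r f hNF hh μ hμ'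
    obtain ⟨b1, b2, b3⟩ := hALV h n m' k' π p e r f hNF hh μ hμ'
    exact ⟨a1, b1, fun hk => ⟨(a3 hk).1, b2 hk⟩, fun hk => ⟨(a4 hk).1, b3 hk⟩⟩

end Pool.Agent.PTK


end

section

/-!
# The average of `3^r`: commutators for the minus part which are trivial on the plus part
-/

set_option autoImplicit false

open NumberField IsDedekindDomain Finset
open scoped nonZeroDivisors Pointwise

namespace Pool.Agent.PTK

open Pool.Agent.Lib_helper18 Pool.Agent.Lib_helper18.Eis Pool.Agent.Lib_helper84.Cub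
open Pool.Agent.PT Pool.Agent.PTE Pool.Agent.PT3 Pool.Agent.PTL Pool.Agent.PTN

namespace JC1

variable {L : Type} [Field L] [NumberField L]

/-- two automorphisms which fix `ω` and multiply `A` by powers of `ω` commute on `A` -/
theorem rot {ι : Eis →+* L} (σ τ : L ≃ₐ[ℚ] L) (hσ : σ (ι w) = ι w) (hτ : τ (ι w) = ι w) {A : L}
    {m n : ℕ} (h1 : σ A = ι w ^ m * A) (h2 : τ A = ι w ^ n * A) :
    ((σ * τ)⁻¹ * (τ * σ)) A = A := by
  have h : τ (σ A) = ι w ^ 0 * σ (τ A) := by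
    rw [h1, h2, map_mul, map_mul, map_pow, map_pow, hσ, hτ, h1, h2]
    ring
  rw [GC.comm_apply σ τ 0 hσ hτ A h, pow_zero, one_mul]

/-- an automorphism which fixes `ω` and `ρ` acts by a root of unity on `A` -/
theorem fixP {ω ρ A : L} {p q p' q' : ℤ} (h : L ≃ₐ[ℚ] L) (hω : ω ^ 2 + ω + 1 = 0)
    (hhω : h ω = ω) (hhρ : h ρ = ρ) (hD : aD ω p q p' q' ρ ≠ 0)
    (hA : A ^ 3 * aD ω p q p' q' ρ = aN ω p q p' q' ρ) : ∃ e : ℕ, h A = ω ^ e * A := by
  have h1 : h (aD ω p q p' q' ρ) = aD ω p q p' q' ρ := by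
    unfold aD
    simp only [map_mul, map_add, map_pow, map_intCast, hhω, hhρ]
  have h2 : h (aN ω p q p' q' ρ) = aN ω p q p' q' ρ := by
    unfold aN
    simp only [map_mul, map_add, map_pow, map_intCast, hhω, hhρ]
  have h3 := congrArg h hA
  rw [map_mul, map_pow, h1, h2, ← hA] at h3
  exact GC.cube_eq hω (mul_right_cancel₀ hD h3)

end JC1

/-- the commutators for the minus part -/
theorem JC1_thm (hJKU : Stmt_JKU) : Stmt_JC1 := by
  intro s k b p q p' q' x u P Q P' Q' f L _ _ ζ ι hSG hS hJ v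
  have hG := hJ.minus
  have hGP := hJ.plus
  have hω := GCK.om ι
  have hf : 0 < f := by
    rcases Nat.eq_zero_or_pos f with h | h
    · exfalso
      have h1 := hG.hω
      rw [h, Nat.zero_div, pow_zero] at h1
      rw [h1] at hω
      norm_num at hω
    · exact h
  obtain ⟨σ, s1, s2, s3, s4⟩ :=
    hJKU s k b p q p' q' x u P Q P' Q' f L ζ ι hSG hS hJ 1 0 0
  obtain ⟨τ, t1, t2, t3, t4⟩ :=
    hJKU s k b p q p' q' x u P Q P' Q' f L ζ ι hSG hS hJ 0 v 0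
  have hσ' : GCK.Act ι x u 1 0 σ := ⟨s1, s2, s3⟩
  have hτ' : GCK.Act ι x u 0 v τ := ⟨t1, t2, t3⟩
  have hnz : ∀ j, GCK.Nz ι x (P j) (Q j) (P' j) (Q' j) := fun j ρ hρ => hG.D j ρ hρ
  have hσb : ∀ (i : Fin s) (ρ : L), ρ ^ 3 = (b i : L) → σ ρ = ρ := fun i ρ hρ => by
    rw [s4 i ρ hρ, Pi.zero_apply, ZMod.val_zero, pow_zero, one_mul]
  have hτb : ∀ (i : Fin s) (ρ : L), ρ ^ 3 = (b i : L) → τ ρ = ρ := fun i ρ hρ => by
    rw [t4 i ρ hρ, Pi.zero_apply, ZMod.val_zero, pow_zero, one_mul]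
  refine ⟨(σ * τ)⁻¹ * (τ * σ), ⟨?_, fun ρ hρ => ?_, fun j ρ hρ => ?_, fun i ρ hρ => ?_⟩,
    fun j i ρ A hji hA => ?_, fun j ρ A hA => ⟨?_, ?_⟩⟩
  · have hz : ∀ g : L ≃ₐ[ℚ] L, ∃ i : ℕ, g ζ = ζ ^ i := by
      intro g
      have h1 : (g ζ) ^ f = 1 := by rw [← map_pow, hG.prim.pow_eq_one, map_one]
      haveI : NeZero f := ⟨hf.ne'⟩
      obtain ⟨i, _, hi⟩ := hG.prim.eq_pow_of_pow_eq_one h1
      exact ⟨i, hi.symm⟩
    obtain ⟨i, hi⟩ := hz σ
    obtain ⟨j, hj⟩ := hz τ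
    have h1 : τ (σ ζ) = ι w ^ 0 * σ (τ ζ) := by
      rw [hi, hj, map_pow, map_pow, hi, hj, pow_zero, one_mul, ← pow_mul, ← pow_mul, mul_comm]
    rw [GC.comm_apply σ τ 0 hσ'.1 hτ'.1 ζ h1, pow_zero, one_mul]
  · exact JC1.rot σ τ hσ'.1 hτ'.1 (hσ'.2.1 ρ hρ) (hτ'.2.1 ρ hρ)
  · exact JC1.rot σ τ hσ'.1 hτ'.1 (hσ'.2.2 j ρ hρ) (hτ'.2.2 j ρ hρ)
  · exact JC1.rot σ τ hσ'.1 hτ'.1 (s4 i ρ hρ) (t4 i ρ hρ)
  · obtain ⟨hρ, hA⟩ := hA
    have hD := (hGP.D j i hji ρ hρ).1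
    obtain ⟨m, hm⟩ := JC1.fixP σ hω s1 (hσb j ρ hρ) hD hA
    obtain ⟨n, hn⟩ := JC1.fixP τ hω t1 (hτb j ρ hρ) hD hA
    exact JC1.rot σ τ s1 t1 hm hn
  · exact GCK.com hS.sol hnz hG.rb hσ' hτ' j ρ A hA.1 hA.2
  · intro g hg
    have h1 := GCK.com hS.sol hnz hG.rb (GCK.cjAct hg hS.cx hS.cb hσ')
      (GCK.cjAct hg hS.cx hS.cb hτ') j ρ A hA.1 hA.2
    have h2 : ((g⁻¹ * σ * g) * (g⁻¹ * τ * g))⁻¹ * ((g⁻¹ * τ * g) * (g⁻¹ * σ * g)) =
        g⁻¹ * ((σ * τ)⁻¹ * (τ * σ)) * g := by group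
    rw [h2] at h1
    have h3 := congrArg g h1
    rw [← AlgEquiv.mul_apply, ← mul_assoc, ← mul_assoc, mul_inv_cancel, one_mul,
      AlgEquiv.mul_apply, map_mul, map_pow, hg, ← pow_mul] at h3
    rw [h3, pow_eq_pow_mod _ (GC.om3 hω), GCK.val_neg, ← pow_eq_pow_mod _ (GC.om3 hω)]

end Pool.Agent.PTK


end

section

/-!
# All moments of `3^r`: commutators for the minus part which are trivial on the plus part
-/

set_option autoImplicit false

open NumberField IsDedekindDomain Finset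
open scoped nonZeroDivisors Pointwise

namespace Pool.Agent.PTK

open Pool.Agent.Lib_helper18 Pool.Agent.Lib_helper18.Eis Pool.Agent.Lib_helper84.Cub
open Pool.Agent.PT Pool.Agent.PTE Pool.Agent.PT3 Pool.Agent.PTL Pool.Agent.PTN

namespace MC1

variable {L : Type} [Field L] [NumberField L]

/-- the action of an automorphism on the roots of all classes -/
def Act {M : ℕ} (ι : Eis →+* L) (z : Fin M → Eis) (a : Fin M → ZMod 3) (g : L ≃ₐ[ℚ] L) : Prop :=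
  g (ι w) = ι w ∧ ∀ (i : Fin M) (ρ : L), ρ ^ 3 = ι (z i) → g ρ = ι w ^ (a i).val * ρ

theorem cjAct {M : ℕ} {ι : Eis →+* L} {z : Fin M → Eis} {a : Fin M → ZMod 3}
    {g σ : L ≃ₐ[ℚ] L} (hg : g (ι w) = ι w ^ 2) (hz : ∀ i, ∃ t : Eis, z i * conj (z i) = t ^ 3)
    (h : Act ι z a σ) : Act ι z a (g⁻¹ * σ * g) := by
  refine ⟨?_, fun i ρ hρ => ?_⟩
  · have h1 : σ (ι w ^ 2) = ι w ^ 2 := by rw [map_pow, h.1]
    rw [AlgEquiv.mul_apply, AlgEquiv.mul_apply, hg, h1, ← hg, ← AlgEquiv.mul_apply,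
      inv_mul_cancel]
    rfl
  · obtain ⟨t, ht⟩ := hz i
    exact GCK.cjr hg h.1 ht hρ (h.2 i ρ hρ)

theorem Act.fix {M : ℕ} {ι : Eis →+* L} {z : Fin M → Eis} {k : Fin M} {c : ZMod 3}
    {g : L ≃ₐ[ℚ] L} (h : Act ι z (Pi.single k c) g) {i : Fin M} (hi : i ≠ k) {ρ : L}
    (hρ : ρ ^ 3 = ι (z i)) : g ρ = ρ := by
  rw [h.2 i ρ hρ, Pi.single_eq_of_ne hi, ZMod.val_zero, pow_zero, one_mul]

theorem Act.mov {M : ℕ} {ι : Eis →+* L} {z : Fin M → Eis} {k : Fin M}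
    {g : L ≃ₐ[ℚ] L} (h : Act ι z (Pi.single k 1) g) {ρ : L}
    (hρ : ρ ^ 3 = ι (z k)) : g ρ = ι w * ρ := by
  rw [h.2 k ρ hρ, Pi.single_eq_same, show (1 : ZMod 3).val = 1 from rfl, pow_one]

/-- the commutator of the index `r` -/
theorem com {M N : ℕ} {ι : Eis →+* L} {z : Fin M → Eis} {α β : Fin N → Fin M}
    {P Q P' Q' : Fin N → Eis} (hS : SysZ z α β P Q P' Q')
    (hnz : ∀ r, GCK.Nz ι (z (α r)) (P r) (Q r) (P' r) (Q' r))
    (hr : ∀ i, ∃ θ : L, θ ^ 3 = ι (z i)) {σ τ : L ≃ₐ[ℚ] L} (r : Fin N)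
    (hσ : Act ι z (Pi.single (α r) 1) σ) (hτ : Act ι z (Pi.single (β r) 1) τ)
    (r' : Fin N) (ρ A : L) (hA : PrW z α P Q P' Q' ι r' ρ A) :
    ((σ * τ)⁻¹ * (τ * σ)) A = ι w ^ ((Pi.single r 1 : Fin N → ZMod 3) r').val * A := by
  obtain ⟨hρ, hA⟩ := hA
  obtain ⟨θ, hθ⟩ := hr (β r')
  have hlt := hS.lt r
  have hlt' := hS.lt r'
  by_cases hrr : r' = r
  · subst hrr
    rw [Pi.single_eq_same, show (1 : ZMod 3).val = 1 from rfl]
    apply GC.comm_apply σ τ _ hσ.1 hτ.1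
    refine GCK.mv (hnz r') σ τ _ hρ hθ (hS.sol r') hσ.1 hτ.1 (hσ.mov hρ)
      (hτ.fix (ne_of_lt hlt) hρ) ?_ hA
    rw [hτ.mov hθ, pow_one]
  · rw [Pi.single_eq_of_ne hrr, ZMod.val_zero]
    apply GC.comm_apply σ τ _ hσ.1 hτ.1
    by_cases h1 : α r' = α r
    · have h2 : β r' ≠ β r := fun h => hrr (hS.inj r' r h1 h)
      refine GCK.mv (hnz r') σ τ _ hρ hθ (hS.sol r') hσ.1 hτ.1 ?_
        (hτ.fix (by rw [h1]; exact ne_of_lt hlt) hρ) ?_ hA
      · rw [h1] at hρ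
        exact hσ.mov hρ
      · rw [hτ.fix h2 hθ, pow_zero, one_mul]
    · by_cases h3 : α r' = β r
      · have h4 : β r' ≠ α r := by
          intro h
          rw [h, h3] at hlt'
          exact absurd (hlt.trans hlt') (lt_irrefl _)
        have h5 := GCK.mv (hnz r') τ σ 0 hρ hθ (hS.sol r') hτ.1 hσ.1
          (by rw [h3] at hρ; exact hτ.mov hρ) (hσ.fix h1 hρ)
          (by rw [hσ.fix h4 hθ, pow_zero, one_mul]) hA
        rw [pow_zero, one_mul] at h5 ⊢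
        exact h5.symm
      · obtain ⟨e, he⟩ := GCK.fixA (hnz r') σ hρ hσ.1 (hσ.fix h1 hρ) hA
        obtain ⟨e', he'⟩ := GCK.fixA (hnz r') τ hρ hτ.1 (hτ.fix h3 hρ) hA
        rw [he, he', map_mul, map_mul, map_pow, map_pow, hσ.1, hτ.1, he, he']
        ring

/-- the relation between the automorphism and the vector -/
def R {s M N : ℕ} (b : Fin s → ℤ) (p q p' q' : Fin s → Fin s → ℤ)
    (z : Fin M → Eis) (α : Fin N → Fin M) (P Q P' Q' : Fin N → Eis) (ζ : L) (ι : Eis →+* L)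
    (v : Fin N → ZMod 3) (g : L ≃ₐ[ℚ] L) : Prop :=
  FxW b z ζ ι g ∧
    (∀ (j i : Fin s) (ρ A : L), j ≠ i → PrP b p q p' q' ι j i ρ A → g A = A) ∧
    ∀ (r : Fin N) (ρ A : L), PrW z α P Q P' Q' ι r ρ A → g A = ι w ^ (v r).val * A ∧
      ∀ τ : L ≃ₐ[ℚ] L, τ (ι w) = ι w ^ 2 → g (τ A) = ι w ^ (- v r).val * τ A

section rel

variable {s M N : ℕ} {b : Fin s → ℤ} {p q p' q' : Fin s → Fin s → ℤ}
    {z : Fin M → Eis} {α : Fin N → Fin M} {P Q P' Q' : Fin N → Eis} {ζ : L} {ι : Eis →+* L}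

theorem R_zero : R b p q p' q' z α P Q P' Q' ζ ι 0 (1 : L ≃ₐ[ℚ] L) := by
  refine ⟨⟨rfl, fun _ _ _ => rfl, fun _ _ _ => rfl⟩, fun _ _ _ _ _ _ => rfl,
    fun r ρ A _ => ⟨?_, fun τ _ => ?_⟩⟩
  · rw [Pi.zero_apply, ZMod.val_zero, pow_zero, one_mul]
    rfl
  · rw [Pi.zero_apply, neg_zero, ZMod.val_zero, pow_zero, one_mul]
    rfl

theorem R_add (hζ : ∀ g : L ≃ₐ[ℚ] L, g ζ = ζ → g (ι w) = ι w)
    {v v' : Fin N → ZMod 3} {g g' : L ≃ₐ[ℚ] L}
    (h : R b p q p' q' z α P Q P' Q' ζ ι v g) (h' : R b p q p' q' z α P Q P' Q' ζ ι v' g') :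
    R b p q p' q' z α P Q P' Q' ζ ι (v + v') (g * g') := by
  have hω := GC.om3 (GCK.om ι)
  refine ⟨⟨?_, fun i ρ hρ => ?_, fun i ρ hρ => ?_⟩, fun j i ρ A hji hA => ?_,
    fun r ρ A hA => ⟨?_, fun τ hτ => ?_⟩⟩
  · rw [AlgEquiv.mul_apply, h'.1.ze, h.1.ze]
  · rw [AlgEquiv.mul_apply, h'.1.rz i ρ hρ, h.1.rz i ρ hρ]
  · rw [AlgEquiv.mul_apply, h'.1.rb i ρ hρ, h.1.rb i ρ hρ]
  · rw [AlgEquiv.mul_apply, h'.2.1 j i ρ A hji hA, h.2.1 j i ρ A hji hA]
  · rw [AlgEquiv.mul_apply, (h'.2.2 r ρ A hA).1, map_mul, map_pow, hζ g h.1.ze,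
      (h.2.2 r ρ A hA).1, Pi.add_apply, GC.pow_val_add hω]
    ring
  · rw [AlgEquiv.mul_apply, (h'.2.2 r ρ A hA).2 τ hτ, map_mul, map_pow, hζ g h.1.ze,
      (h.2.2 r ρ A hA).2 τ hτ, Pi.add_apply, neg_add, GC.pow_val_add hω]
    ring

theorem all (hζ : ∀ g : L ≃ₐ[ℚ] L, g ζ = ζ → g (ι w) = ι w)
    (hel : ∀ r : Fin N, ∃ g : L ≃ₐ[ℚ] L,
      R b p q p' q' z α P Q P' Q' ζ ι (Pi.single r 1) g)
    (v : Fin N → ZMod 3) : ∃ g : L ≃ₐ[ℚ] L, R b p q p' q' z α P Q P' Q' ζ ι v g := by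
  let S : AddSubmonoid (Fin N → ZMod 3) :=
    { carrier := {v | ∃ g : L ≃ₐ[ℚ] L, R b p q p' q' z α P Q P' Q' ζ ι v g}
      zero_mem' := ⟨1, R_zero⟩
      add_mem' := by
        rintro v v' ⟨g, hg⟩ ⟨g', hg'⟩
        exact ⟨g * g', R_add hζ hg hg'⟩ }
  have h1 : ∀ r : Fin N, (Pi.single r (v r) : Fin N → ZMod 3) ∈ S := by
    intro r
    have h2 : (Pi.single r (v r) : Fin N → ZMod 3) =
        (v r).val • (Pi.single r 1 : Fin N → ZMod 3) := by
      rw [← Pi.single_smul, nsmul_one, ZMod.natCast_val, ZMod.cast_id', id]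
    rw [h2]
    exact S.nsmul_mem (hel r) _
  have h3 : v = ∑ r, (Pi.single r (v r) : Fin N → ZMod 3) :=
    (Finset.univ_sum_single v).symm
  have h4 : v ∈ S := by
    rw [h3]
    exact S.sum_mem (fun r _ => h1 r)
  exact h4

end rel

end MC1

/-- the commutators for the minus part -/
theorem MC1_thm (hMKU : Stmt_MKU) : Stmt_MC1 := by
  intro s M N b p q p' q' z α β P Q P' Q' f L _ _ ζ ι hSG hS hW v
  have hG := hW.minus
  have hGP := hW.plus
  have hω := GCK.om ι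
  have hf : 0 < f := by
    rcases Nat.eq_zero_or_pos f with h | h
    · exfalso
      have h1 := hG.hω
      rw [h, Nat.zero_div, pow_zero] at h1
      rw [h1] at hω
      norm_num at hω
    · exact h
  have hζ : ∀ g : L ≃ₐ[ℚ] L, g ζ = ζ → g (ι w) = ι w := by
    intro g hg
    rw [hG.hω, map_pow, hg]
  have hnz : ∀ r, GCK.Nz ι (z (α r)) (P r) (Q r) (P' r) (Q' r) := fun r ρ hρ => hG.D r ρ hρ
  apply MC1.all hζ
  intro r
  obtain ⟨σ, s1, s2, s3⟩ := hMKU s M N b p q p' q' z α β P Q P' Q' f L ζ ι hSG hS hW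
    (Pi.single (α r) 1) 0
  obtain ⟨τ, t1, t2, t3⟩ := hMKU s M N b p q p' q' z α β P Q P' Q' f L ζ ι hSG hS hW
    (Pi.single (β r) 1) 0
  have hσ' : MC1.Act ι z (Pi.single (α r) 1) σ := ⟨s1, s2⟩
  have hτ' : MC1.Act ι z (Pi.single (β r) 1) τ := ⟨t1, t2⟩
  have hσb : ∀ (i : Fin s) (ρ : L), ρ ^ 3 = (b i : L) → σ ρ = ρ := fun i ρ hρ => by
    rw [s3 i ρ hρ, Pi.zero_apply, ZMod.val_zero, pow_zero, one_mul]
  have hτb : ∀ (i : Fin s) (ρ : L), ρ ^ 3 = (b i : L) → τ ρ = ρ := fun i ρ hρ => by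
    rw [t3 i ρ hρ, Pi.zero_apply, ZMod.val_zero, pow_zero, one_mul]
  refine ⟨(σ * τ)⁻¹ * (τ * σ), ⟨?_, fun i ρ hρ => ?_, fun i ρ hρ => ?_⟩,
    fun j i ρ A hji hA => ?_, fun r' ρ A hA => ⟨?_, ?_⟩⟩
  · have hz : ∀ g : L ≃ₐ[ℚ] L, ∃ i : ℕ, g ζ = ζ ^ i := by
      intro g
      have h1 : (g ζ) ^ f = 1 := by rw [← map_pow, hG.prim.pow_eq_one, map_one]
      haveI : NeZero f := ⟨hf.ne'⟩
      obtain ⟨i, _, hi⟩ := hG.prim.eq_pow_of_pow_eq_one h1
      exact ⟨i, hi.symm⟩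
    obtain ⟨i, hi⟩ := hz σ
    obtain ⟨j, hj⟩ := hz τ
    have h1 : τ (σ ζ) = ι w ^ 0 * σ (τ ζ) := by
      rw [hi, hj, map_pow, map_pow, hi, hj, pow_zero, one_mul, ← pow_mul, ← pow_mul, mul_comm]
    rw [GC.comm_apply σ τ 0 s1 t1 ζ h1, pow_zero, one_mul]
  · exact JC1.rot σ τ s1 t1 (s2 i ρ hρ) (t2 i ρ hρ)
  · exact JC1.rot σ τ s1 t1 (s3 i ρ hρ) (t3 i ρ hρ)
  · obtain ⟨hρ, hA⟩ := hA
    have hD := (hGP.D j i hji ρ hρ).1
    obtain ⟨m, hm⟩ := JC1.fixP σ hω s1 (hσb j ρ hρ) hD hA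
    obtain ⟨n, hn⟩ := JC1.fixP τ hω t1 (hτb j ρ hρ) hD hA
    exact JC1.rot σ τ s1 t1 hm hn
  · exact MC1.com hS hnz hG.rz r hσ' hτ' r' ρ A hA
  · intro g hg
    have h1 := MC1.com hS hnz hG.rz r (MC1.cjAct hg hS.cz hσ') (MC1.cjAct hg hS.cz hτ') r' ρ A hA
    have h2 : ((g⁻¹ * σ * g) * (g⁻¹ * τ * g))⁻¹ * ((g⁻¹ * τ * g) * (g⁻¹ * σ * g)) =
        g⁻¹ * ((σ * τ)⁻¹ * (τ * σ)) * g := by group
    rw [h2] at h1
    have h3 := congrArg g h1
    rw [← AlgEquiv.mul_apply, ← mul_assoc, ← mul_assoc, mul_inv_cancel, one_mul,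
      AlgEquiv.mul_apply, map_mul, map_pow, hg, ← pow_mul] at h3
    rw [h3, pow_eq_pow_mod _ (GC.om3 hω), GCK.val_neg, ← pow_eq_pow_mod _ (GC.om3 hω)]

end Pool.Agent.PTK


end

section

/-!
# PTK: the primes with large corank, `q = 1 (mod 3)`, all the classes cubes
-/

set_option autoImplicit false

open NumberField IsDedekindDomain Finset
open scoped nonZeroDivisors Pointwise

namespace Pool.Agent.PTK

open Pool.Agent.Lib_helper18 Pool.Agent.Lib_helper18.Eis Pool.Agent.Lib_helper84.Cub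
open Pool.Agent.PT Pool.Agent.PTE Pool.Agent.PT3 Pool.Agent.PTL Pool.Agent.PTN

namespace MPZ

theorem BB_eq (h n E q : ℕ) : BB h n E q = ((3 ^ h * n : ℕ) : ℤ) * (q : ℤ) ^ E := by
  unfold BB
  push_cast
  rfl

theorem cons_eq {m : ℕ} {x y : Fin (m + 1) → ZMod 3} (h0 : x 0 = y 0)
    (h1 : ∀ i : Fin m, x i.succ = y i.succ) : x = y := by
  funext i
  exact Fin.cases h0 h1 i

theorem neg_of_two {x y : ZMod 3} (h : 2 * x = y) : x = -y := by
  revert x y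
  decide

end MPZ

open _root_.Pool.Agent.PTK.MPZ in
/-- PTK_MPZ: the primes with large corank are in `SPF`, `SMF`, `q = 1 (mod 3)`. -/
theorem MPZ_thm (hDCOU : DCOU) (hTENT : TENT) (hNADU : Stmt_NADU) (hSPLT : SPLT) :
    Stmt_MPZ := by
  intro h n m k π p e r f w0 c s τ b X Y P Q P' Q' hNF hh hPl
  have hSys := hPl.sys
  have hSw := hPl.sw
  have hAdN := hPl.adm
  have hn : 0 < n := FINAS.pos_of_nf hNF
  have hN0 : 0 < 3 ^ h * n := Nat.mul_pos (pow_pos (by norm_num) _) hn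
  have hb : ∀ i, b i ≠ 0 := fun i => (hAdN i).1.ne
  have hD : ∀ j i : Fin s, ∃ f₀ : ℕ, 0 < f₀ ∧ ∀ F : ℕ, 0 < F → f₀ ∣ F →
      ∃ (C : ZMod 3) (Φ : (ZMod F)ˣ →* Multiplicative (ZMod 3)) (N₀ : ℕ), j ≠ i →
        ∀ (E q : ℕ) (hQ : q.Coprime F) (ρ : PP), (E = 1 ∨ E = 2) → q.Prime → N₀ < q →
          q % 3 = 1 → (q : Eis) = ρ.1 * conj ρ.1 →
          AG (BB h n E q) (b j) → AG (BB h n E q) (b i) →
          ∀ t : ℤ, (q : ℤ) ∣ t ^ 3 - b j →
          OT (BB h n E q) (b j) (X j) (Y j) (b i) (P j i) (Q j i)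
            (P' j i) (Q' j i) = C + E * ((Φ (ZMod.unitOfCoprime q hQ)).toAdd +
              TAUVS ρ.1 (P j i) (Q j i) (P' j i) (Q' j i) t) := by
    intro j i
    by_cases hji : j = i
    · exact ⟨1, one_pos, fun F _ _ => ⟨0, 1, 0, fun h => absurd hji h⟩⟩
    · obtain ⟨f₀, hf₀, hf⟩ := hDCOU (3 ^ h * n) (b j) (X j) (Y j) (b i)
        (P j i) (Q j i) (P' j i) (Q' j i) hN0
        (hSys.sol j i hji) (hb _) (hb _)
      refine ⟨f₀, hf₀, fun F hF hd => ?_⟩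
      obtain ⟨C, Φ, N₀, h'⟩ := hf F hF hd
      refine ⟨C, Φ, N₀, fun _ E q hQ ρ hE hqp hqN hq3 hqρ hAj hAi t ht => ?_⟩
      rw [BB_eq] at hAj hAi ⊢
      exact h' E q hQ ρ hE hqp hqN hq3 hqρ hAj hAi t ht
  choose f₀ hf₀ hD1 using hD
  refine ⟨∏ j, ∏ i, f₀ j i, Finset.prod_pos fun j _ => Finset.prod_pos fun i _ => hf₀ j i,
    fun F hF hdF κ hκ => ?_⟩
  have hfF : ∀ j i, f₀ j i ∣ F := fun j i =>
    ((Finset.dvd_prod_of_mem (fun i => f₀ j i) (mem_univ i)).trans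
      (Finset.dvd_prod_of_mem (fun j => ∏ i, f₀ j i) (mem_univ j))).trans hdF
  choose C Φ N₀ hD2 using fun j i => hD1 j i F hF (hfF j i)
  have hN : ∀ j i, N₀ j i ≤ ∑ j, ∑ i, N₀ j i := by
    intro j i
    exact (Finset.single_le_sum (f := fun i => N₀ j i) (fun i _ => Nat.zero_le _)
      (mem_univ i)).trans (Finset.single_le_sum (f := fun j => ∑ i, N₀ j i)
        (fun j _ => Nat.zero_le _) (mem_univ j))
  obtain ⟨M, hM⟩ : ∃ M, M = n + F + 3 + ∑ j, ∑ i, N₀ j i := ⟨_, rfl⟩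
  -- the matrix
  have hmat : ∀ (E q t : ℕ), (E = 1 ∨ E = 2) → q.Prime → M < q → q % 3 = 1 → q ∈ ZP b →
      InCT E π w0 c q → t ≤ kS h n b X Y P Q P' Q' E q →
      ∃ (hQ : q.Coprime F) (ρ : PP), (q : Eis) = ρ.1 * conj ρ.1 ∧
        (∀ j : Fin s, sym ρ.1 (b j : Eis) = 0) ∧
        ∀ τ' : Fin s → Fin s → ZMod 3,
        (∀ j i, j ≠ i → ∀ r : ℤ, (q : ℤ) ∣ r ^ 3 - b j →
          τ' j i = TAUVS ρ.1 (P j i) (Q j i) (P' j i) (Q' j i) r) →
        t ≤ s - (alt fun j i =>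
          C j i + E * ((Φ j i (ZMod.unitOfCoprime q hQ)).toAdd + τ' j i)).rank := by
    intro E q t hE hq hqM hq3 hqP hIn htk
    obtain ⟨ρ, hqρ⟩ := hSPLT.1 q hq hq3
    have hb0 : ∀ j : Fin s, sym ρ.1 (b j : Eis) = 0 := hqP ρ hqρ
    have hqn : ¬ q ∣ n := fun h => by
      have := Nat.le_of_dvd hn h
      omega
    have hQ : q.Coprime F := by
      rw [Nat.Prime.coprime_iff_not_dvd hq]
      intro h
      have := Nat.le_of_dvd hF h
      omega
    have h3q : 3 < q := by omega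
    obtain ⟨hBG, hTy, hA⟩ := hNADU h n m k π p e r f w0 c E q ρ hNF hh hE hq hq3 hIn hqn hqρ
    have hAG : ∀ i : Fin s, AG (BB h n E q) (b i) := fun i =>
      ((hA _ (hAdN i).1.supp).1 ⟨hAdN i, hb0 i⟩).1
    have hskew := (hTENT s τ b X Y _ _ _ _ _ hSys hSw hBG
      hAG (hPl.lam _ hTy) (fun i => hb _)).1
    refine ⟨hQ, ρ, hqρ, hb0, fun τ' hτ' => ?_⟩
    have hent : ∀ j i, j ≠ i →
        MaT b X Y P Q P' Q' (BB h n E q) j i =
        C j i + E * ((Φ j i (ZMod.unitOfCoprime q hQ)).toAdd + τ' j i) := by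
      intro j i hji
      have hqb : ¬ (q : ℤ) ∣ b j := fun h => by
        rcases (hq.dvd_mul).1 ((hAdN j).1.supp q hq h) with h1 | h1
        · have := Nat.le_of_dvd (by norm_num) h1
          omega
        · exact hqn h1
      obtain ⟨x, hx⟩ := (hSPLT.2 q ρ hq hq3 hqρ).2.2.2.2.2 _ hqb (hb0 j)
      unfold MaT
      rw [if_neg hji]
      refine (hD2 j i hji E q hQ ρ hE hq (by have := hN j i; omega) hq3 hqρ (hAG j) (hAG i) x
        hx).trans ?_
      rw [← hτ' j i hji x hx]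
    have hMa : MaT b X Y P Q P' Q' (BB h n E q) = alt fun j i =>
        C j i + E * ((Φ j i (ZMod.unitOfCoprime q hQ)).toAdd + τ' j i) := by
      ext j i
      rw [alt]
      rcases lt_trichotomy j i with h | h | h
      · rw [if_pos h, hent j i h.ne]
      · subst h
        rw [if_neg (lt_irrefl _), if_neg (lt_irrefl _), MaT, if_pos rfl]
      · rw [if_neg (not_lt.2 h.le), if_pos h, hskew j i, hent i j h.ne]
    rw [← hMa]
    exact htk
  refine ⟨C, FINAS.assemble Φ, M, fun q t hq hqM hq3 hqP => ⟨fun hIn htk => ?_,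
    fun hIn htk => ?_⟩⟩
  · obtain ⟨hQ, ρ, hqρ, hb0, hm⟩ := hmat 1 q t (Or.inl rfl) hq hqM hq3 hqP hIn htk
    obtain ⟨hw, hc⟩ := hIn
    refine ⟨hQ, ρ, ⟨hq3, ?_, hqρ, hb0⟩, fun τ' hτ' => ?_⟩
    · rw [hκ]
      refine cons_eq ?_ fun i => ?_
      · rw [Fin.cons_zero, Fin.cons_zero]
        rw [pow_one] at hw
        exact hw
      · rw [Fin.cons_succ, Fin.cons_succ, ← hc i, Nat.cast_one, one_mul]
    · have e1 : (fun j i => C j i + ((1 : ℕ) : ZMod 3) *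
          ((Φ j i (ZMod.unitOfCoprime q hQ)).toAdd + τ' j i)) =
          C + (FINAS.assemble Φ (ZMod.unitOfCoprime q hQ)).toAdd + τ' := by
        funext j i
        show C j i + ((1 : ℕ) : ZMod 3) * ((Φ j i (ZMod.unitOfCoprime q hQ)).toAdd + τ' j i) =
          C j i + (Φ j i (ZMod.unitOfCoprime q hQ)).toAdd + τ' j i
        rw [Nat.cast_one]
        ring
      rw [← e1]
      exact hm τ' hτ'
  · obtain ⟨hQ, ρ, hqρ, hb0, hm⟩ := hmat 2 q t (Or.inr rfl) hq hqM hq3 hqP hIn htk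
    obtain ⟨hw, hc⟩ := hIn
    refine ⟨hQ, ρ, ⟨hq3, ?_, hqρ, hb0⟩, fun τ' hτ' => ?_⟩
    · rw [hκ]
      refine cons_eq ?_ fun i => ?_
      · rw [Fin.cons_zero, Pi.neg_apply, Fin.cons_zero]
        have h3 : ¬ (3 : ℤ) ∣ (q : ℤ) := by omega
        have h4 := sq_mod_three h3
        have h5 : ((q : ℤ) ^ 2) ^ 2 = (q : ℤ) ^ 2 * (q : ℤ) ^ 2 := by ring
        rw [h5, wt_mul h4 h4] at hw
        exact neg_of_two (by rw [two_mul]; exact hw)
      · rw [Fin.cons_succ, Pi.neg_apply, Fin.cons_succ]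
        exact neg_of_two (hc i)
    · have e1 : (fun j i => C j i + ((2 : ℕ) : ZMod 3) *
          ((Φ j i (ZMod.unitOfCoprime q hQ)).toAdd + τ' j i)) =
          C - (FINAS.assemble Φ (ZMod.unitOfCoprime q hQ)).toAdd - τ' := by
        funext j i
        show C j i + ((2 : ℕ) : ZMod 3) * ((Φ j i (ZMod.unitOfCoprime q hQ)).toAdd + τ' j i) =
          C j i - (Φ j i (ZMod.unitOfCoprime q hQ)).toAdd - τ' j i
        rw [show ((2 : ℕ) : ZMod 3) = -1 from by decide]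
        ring
      rw [← e1]
      exact hm τ' hτ'

end Pool.Agent.PTK


end

section

/-!
# PTK_NBW: the bound for the rank by the classes of the points and the corank of the matrix
-/

set_option autoImplicit false

namespace Pool.Agent.PTK

open Pool.Agent.Lib_helper18 Pool.Agent.Lib_helper18.Eis Pool.Agent.Lib_helper84.Cub
open Pool.Agent.PT Pool.Agent.PTE Pool.Agent.PT3 Pool.Agent.PTL Pool.Agent.PTN

open Pool.Agent.PTN.NBKN in
/-- PTK_NBW: the bound for the rank. -/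
theorem NBW_thm (hK : Stmt_KID) (hA : Stmt_NADT) (hL : Stmt_NPLU) (hTENT : TENT)
    (hWGR : Stmt_WGR) : Stmt_NBW := by
  classical
  intro h n m k π p e r f w0 c s τ b X Y P Q P' Q' E q hNF hh hAdm hSys hSw hLam hgen hEE hq hq3
    hq2 hInC hqn
  obtain ⟨hBG, hTy, hE⟩ := hA h n m k π p e r f w0 c E q hNF hh hEE hq hq2 hInC hqn
  obtain ⟨⟨d, hd⟩, hY₁⟩ := hWGR h n m k π p e r f w0 c E q hNF hh hEE hq hq3 hq2 hInC hqn
  have H := key hA hL hTENT hNF hh hAdm hSys hSw hLam hgen hEE hq hq3 hq2 hInC hqn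
  have hcf : CubeRank.CubeFree (BB h n E q) := cubeFree_BB hNF hh hEE hq hq3 hqn
  have h3B : 3 ≤ (BB h n E q).natAbs := three_le_BB hNF hEE hq3
  obtain ⟨B, hB⟩ : ∃ B : ℤ, B = BB h n E q := ⟨_, rfl⟩
  rw [← hB] at hBG hTy hE hY₁ H hcf h3B hd ⊢
  have hB0 : B ≠ 0 := hTy.1
  have habs : 3 ≤ |B| := by
    rw [Int.abs_eq_natAbs]
    exact_mod_cast h3B
  have hnc : ¬ ∃ t : ℤ, t ^ 3 = B := CubeRank.GenPf.not_cube hcf habs
  obtain ⟨M, hM⟩ : ∃ M : Matrix (Fin s) (Fin s) (ZMod 3), M = MaT b X Y P Q P' Q' B := ⟨_, rfl⟩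
  rw [← hM] at H ⊢
  choose g u y j hu hy hz hker using H
  let Ψ₂ : ℤ → LinearMap.ker M.mulVecLin := fun z =>
    if hs : S2 B z then ⟨fun i => (g z hs i : ZMod 3), by
      rw [LinearMap.mem_ker]
      funext a
      exact hker z hs a⟩ else 0
  choose yv hyv g₁ g₂ hg₁ hg₂ hyg using hY₁
  let Y₁ : Eis → WqS h n π p e r w0 c B := fun ζ =>
    if hs : S1 B ζ then ⟨yv ζ hs, hyv ζ hs⟩ else ⟨yv 1 (Or.inl rfl), hyv 1 (Or.inl rfl)⟩
  have hidx := hK B hB0 hcf hnc (WqS h n π p e r w0 c B) (LinearMap.ker M.mulVecLin) Y₁ Ψ₂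
    (by
      intro ζ ζ' h1 h2 h12
      have h3 : yv ζ h1 = yv ζ' h2 := by
        have h4 := congrArg (fun x : WqS h n π p e r w0 c B => (x : Fin (m + 1) → ZMod 3)) h12
        simp only [Y₁, dif_pos h1, dif_pos h2] at h4
        exact h4
      have e1 := hyg ζ h1
      have e2 := hyg ζ' h2
      rw [h3] at e1
      refine ⟨g₁ ζ h1 * g₂ ζ' h2, g₁ ζ' h2 * g₂ ζ h1, mul_ne_zero (hg₁ ζ h1) (hg₂ ζ' h2),
        mul_ne_zero (hg₁ ζ' h2) (hg₂ ζ h1), ?_⟩
      linear_combination (g₂ ζ' h2) ^ 3 * e1 - (g₂ ζ h1) ^ 3 * e2)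
    (by
      intro z z' h1 h2 h12
      have h3 : ∀ i, (g z h1 i : ZMod 3) = g z' h2 i := by
        intro i
        have h4 := congrArg (fun x : LinearMap.ker M.mulVecLin => (x : Fin s → ZMod 3) i) h12
        simp only [Ψ₂, dif_pos h1, dif_pos h2] at h4
        exact h4
      obtain ⟨A1, A2, hA1, hA2, hAA⟩ := BKER.prod_cube b (fun i => (hAdm i).1.ne) (g z h1)
        (g z' h2) h3
      have e1 := hz z h1
      have e2 := hz z' h2
      have hu1 := hu z h1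
      have hu2 := hu z' h2
      have hy1 := hy z h1
      have hy2 := hy z' h2
      generalize (∏ i, b i ^ g z h1 i) = P1 at *
      generalize (∏ i, b i ^ g z' h2 i) = P2 at *
      generalize u z h1 = u1 at *
      generalize u z' h2 = u2 at *
      generalize y z h1 = y1 at *
      generalize y z' h2 = y2 at *
      generalize j z h1 = j1 at *
      generalize j z' h2 = j2 at *
      refine ⟨B ^ j1 * y1 * A1 * u2, y2 * A2 * u1, j2 + 2 * j1, ?_, ?_, ?_⟩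
      · exact mul_ne_zero (mul_ne_zero (mul_ne_zero (pow_ne_zero _ hB0) hy1) hA1) hu2
      · exact mul_ne_zero (mul_ne_zero hy2 hA2) hu1
      · have e3 : B ^ (j2 + 2 * j1) = B ^ j2 * (B ^ j1) ^ 2 := by
          rw [pow_add, mul_comm 2 j1, pow_mul]
        rw [e3]
        generalize B ^ j1 = C1 at *
        generalize B ^ j2 = C2 at *
        linear_combination (-(C1 ^ 2 * A1 ^ 3 * u2 ^ 3)) * e1 +
          (C1 ^ 2 * u1 ^ 3 * u2 ^ 3) * hAA + (C1 ^ 2 * A2 ^ 3 * u1 ^ 3) * e2)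
  have hkr : Module.finrank (ZMod 3) (LinearMap.ker M.mulVecLin) = s - M.rank := by
    have h1 := LinearMap.finrank_range_add_finrank_ker M.mulVecLin
    rw [Module.finrank_fintype_fun_eq_card, Fintype.card_fin] at h1
    have h2 : Module.finrank (ZMod 3) (LinearMap.range M.mulVecLin) = M.rank := rfl
    omega
  refine CubeRank.gen' B hcf h3B _ hidx.1 (hidx.2.trans ?_)
  rw [Module.natCard_eq_pow_finrank (K := ZMod 3) (V := LinearMap.ker M.mulVecLin),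
    Nat.card_zmod, hkr, hd, Nat.log_pow (by norm_num : 1 < 3), pow_add]

end Pool.Agent.PTK


end

section

/-!
# PTK_NCN: the number of primes above a place
-/

set_option autoImplicit false

open NumberField IsDedekindDomain Finset
open scoped nonZeroDivisors Pointwise

namespace Pool.Agent.PTK

open Pool.Agent.Lib_helper18 Pool.Agent.Lib_helper18.Eis Pool.Agent.Lib_helper84.Cub
open Pool.Agent.PT

namespace NCN

open Pool.Agent.PT.NCNT

/-- The end of the argument. -/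
theorem local_cube (hLCI : Stmt_LCI) {x : Eis} (hx : x ≠ 0) (h3 : ¬ lam ∣ x) (v : Pl) {a b : Eis}
    (hu : Prime (uni v)) (hb : b ≠ 0)
    (h : uni v ^ (3 * V (uni v) b + V (uni v) x + 4) ∣ x * b ^ 3 - a ^ 3) :
    LCE (uni v) x := by
  obtain ⟨x1, a1, b1, hx1, hV, hux, hua, hub, hd⟩ := reduce hu hx hb h
  cases v with
  | some π =>
    have hπ3 : ¬ π.1 ∣ 3 := by
      intro h
      have h2 := (dvd_three_iff π.2.1).mp h
      have h4 : lam ∣ π.1 := h2.symm.dvd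
      rw [lam_dvd_iff] at h4
      obtain ⟨-, h5, h6⟩ := π.2
      omega
    change LCE π.1 x
    change Prime π.1 at hu
    rw [hLCI.1 π x hx]
    refine ⟨hV, ?_⟩
    have hup : up π.1 x = x1 := by
      unfold up
      conv_lhs => rw [hx1]
      have hne : π.1 ^ V π.1 x ≠ 0 := pow_ne_zero _ hu.ne_zero
      change (π.1 ^ V π.1 x * x1) / π.1 ^ V π.1 (π.1 ^ V π.1 x * x1) = x1
      have hVV : V π.1 (π.1 ^ V π.1 x * x1) = V π.1 x := by
        conv_rhs => rw [show x = π.1 ^ V π.1 x * x1 from hx1]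
      rw [hVV]
      exact mul_div_cancel_left₀ x1 hne
    unfold ch
    rw [hup]
    have hd1 : π.1 ∣ x1 * b1 ^ 3 - a1 ^ 3 :=
      (dvd_pow_self π.1 (by norm_num)).trans hd
    have h1 := sym_congr hd1
    have hb3 : ¬ π.1 ∣ b1 ^ 3 := fun h => hub (hu.dvd_of_dvd_pow h)
    rw [sym_mul hu hπ3 hux hb3, sym_pow hu hπ3 hub, sym_pow hu hπ3 hua] at h1
    have h30 : (3 : ZMod 3) = 0 := by decide
    push_cast at h1
    rw [h30] at h1
    simpa using h1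
  | none =>
    change LCE lam x
    change Prime lam at hu
    have hV0 : V lam x = 0 := V_eq_zero h3
    have hx1' : x = x1 := by
      have h1 : x = lam ^ V lam x * x1 := hx1
      rw [hV0, pow_zero, one_mul] at h1
      exact h1
    rw [← hx1'] at hd
    exact hLCI.2.1 x a1 b1 hua hub hd

/-! ### Valuations of `L` -/

variable {L : Type} [Field L] [NumberField L]

variable {x : Eis} {ι : Eis →+* L} {θ : L} {σ : L ≃ₐ[ℚ] L}

/-- If `x` is a local cube, `σ` does not fix a prime above `v`. -/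
theorem no_fix (h : CubE x L ι θ σ) (hx : x ≠ 0) {v : Pl} {P : HeightOneSpectrum (𝓞 L)}
    (hle : ∀ a : Eis, P.valuation L (ι a) ≤ 1) (hP : P.valuation L (ι (uni v)) < 1)
    (hfix : ∀ z : L, P.valuation L (σ z) = P.valuation L z) (hLC : LCE (uni v) x) : False := by
  have hc0 : (w - 1) ^ 3 * x ≠ 0 :=
    mul_ne_zero (pow_ne_zero _ (by decide)) (hx)
  have hγ : P.valuation L (ι ((w - 1) ^ 3 * x)) ≠ 0 := by
    rw [Valuation.ne_zero_iff]
    exact (map_ne_zero_iff ι h.inj).mpr hc0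
  obtain ⟨N, hN⟩ := exists_pow_lt hP hγ
  obtain ⟨r, t, ht⟩ := hLC N
  have hsmall : P.valuation L (ι (r ^ 3 - x)) ≤
      P.valuation L (ι (uni v)) ^ N := by
    rw [ht, map_mul, map_mul, map_pow, map_pow]
    exact mul_le_of_le_one_right' (hle t)
  have s0 : σ (θ - ι r) = ι w * (θ - ι (w ^ 2 * r)) := by
    rw [map_sub, h.sθ, h.sι, mul_sub, ← map_mul, ← mul_assoc, ← pow_succ', w_cube, one_mul]
  have s1 : σ (θ - ι (w * r)) = ι w * (θ - ι r) := by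
    rw [map_sub, h.sθ, h.sι, mul_sub, ← map_mul]
  have v0 : P.valuation L (θ - ι (w ^ 2 * r)) = P.valuation L (θ - ι r) := by
    rw [← hfix (θ - ι r), s0, Valuation.map_mul, val_w, one_mul]
  have v1 : P.valuation L (θ - ι (w * r)) = P.valuation L (θ - ι r) := by
    rw [← hfix (θ - ι (w * r)), s1, Valuation.map_mul, val_w, one_mul]
  have hprod : (θ - ι r) * (θ - ι (w * r)) * (θ - ι (w ^ 2 * r)) =
      - ι (r ^ 3 - x) := by
    have h1 : (ι w) ^ 2 + ι w + 1 = 0 := by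
      have := congrArg ι w_rel
      simpa using this
    have h2 : (ι w) ^ 3 = 1 := by
      have := congrArg ι w_cube
      simpa using this
    have h3 := h.cube
    simp only [map_sub, map_mul, map_pow]
    linear_combination (-(θ ^ 2 * ι r) + θ * (ι r) ^ 2 * ι w) * h1 -
      ((ι r) ^ 3) * h2 + h3
  have hα : P.valuation L (θ - ι r) ^ 3 ≤ P.valuation L (ι (uni v)) ^ N := by
    have h1 := congrArg (P.valuation L) hprod
    rw [map_mul, map_mul, v0, v1, Valuation.map_neg] at h1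
    calc P.valuation L (θ - ι r) ^ 3 = P.valuation L (θ - ι r) * P.valuation L (θ - ι r) *
        P.valuation L (θ - ι r) := by rw [pow_succ, pow_two]
      _ ≤ _ := by rw [h1]; exact hsmall
  have hdiff : P.valuation L (ι ((w - 1) * r)) ≤ P.valuation L (θ - ι r) := by
    have e1 : ι ((w - 1) * r) = (θ - ι r) - (θ - ι (w * r)) := by
      rw [sub_mul, one_mul, map_sub]
      ring
    rw [e1]
    refine (Valuation.map_sub _ _ _).trans ?_
    rw [v1, max_self]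
  have hcube : P.valuation L (ι (((w - 1) * r) ^ 3)) ≤ P.valuation L (ι (uni v)) ^ N := by
    rw [map_pow, map_pow]
    exact (pow_le_pow_left' hdiff 3).trans hα
  have hfin : P.valuation L (ι ((w - 1) ^ 3 * x)) ≤ P.valuation L (ι (uni v)) ^ N := by
    have e1 : ι ((w - 1) ^ 3 * x) = ι (((w - 1) * r) ^ 3) -
        ι ((w - 1) ^ 3) * ι (r ^ 3 - x) := by
      rw [← map_mul, ← map_sub]
      congr 1
      ring
    rw [e1]
    refine (Valuation.map_sub _ _ _).trans (max_le hcube ?_)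
    rw [map_mul]
    exact (mul_le_of_le_one_left' (hle _)).trans hsmall
  exact absurd hN (not_lt.mpr hfin)

/-- If `σ` does not fix the prime `P`, then `θ` is approximated at `P` by invariant elements. -/
theorem approx (h : CubE x L ι θ σ) (h3 : ∀ z : L, σ (σ (σ z)) = z)
    {P P1 P2 : HeightOneSpectrum (𝓞 L)} (h01 : P ≠ P1) (h02 : P ≠ P2) (h12 : P1 ≠ P2)
    (e1 : ∀ z, P1.valuation L (σ z) = P.valuation L z)
    (e2 : ∀ z, P2.valuation L (σ z) = P1.valuation L z) (N : ℕ) :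
    ∃ T : L, σ T = T ∧ P.valuation L (θ - T) ≤ WithZero.exp (-(N : ℤ)) := by
  have hθ : IsIntegral ℤ θ := by
    refine IsIntegral.of_pow (n := 3) (by norm_num) ?_
    rw [h.cube]
    exact Pool.Agent.PT.NTR.isIntegral_io ι x
  let θ' : 𝓞 L := ⟨θ, hθ⟩
  obtain ⟨z, hz⟩ := IsDedekindDomain.exists_forall_sub_mem_ideal (R := 𝓞 L)
    (s := (univ : Finset (Fin 3))) (![P.asIdeal, P1.asIdeal, P2.asIdeal]) (fun _ => N)
    (by
      intro i _
      fin_cases i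
      · exact P.prime
      · exact P1.prime
      · exact P2.prime)
    (by
      have k01 : P.asIdeal ≠ P1.asIdeal := fun h => h01 (HeightOneSpectrum.ext h)
      have k02 : P.asIdeal ≠ P2.asIdeal := fun h => h02 (HeightOneSpectrum.ext h)
      have k12 : P1.asIdeal ≠ P2.asIdeal := fun h => h12 (HeightOneSpectrum.ext h)
      intro i _ j _ hij
      fin_cases i <;> fin_cases j
      · exact absurd rfl hij
      · exact k01
      · exact k02
      · exact k01.symm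
      · exact absurd rfl hij
      · exact k12
      · exact k02.symm
      · exact k12.symm
      · exact absurd rfl hij)
    (fun i => (![θ', 0, 0] : Fin 3 → 𝓞 L) i.1)
  have z0 : z - θ' ∈ P.asIdeal ^ N := hz 0 (mem_univ _)
  have z1 : z ∈ P1.asIdeal ^ N := by
    have h1 : z - 0 ∈ P1.asIdeal ^ N := hz 1 (mem_univ _)
    rwa [sub_zero] at h1
  have z2 : z ∈ P2.asIdeal ^ N := by
    have h1 : z - 0 ∈ P2.asIdeal ^ N := hz 2 (mem_univ _)
    rwa [sub_zero] at h1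
  have cv : ∀ (Q : HeightOneSpectrum (𝓞 L)) (y : 𝓞 L), y ∈ Q.asIdeal ^ N →
      Q.valuation L (algebraMap (𝓞 L) L y) ≤ WithZero.exp (-(N : ℤ)) := by
    intro Q y hy
    rw [Q.valuation_of_algebraMap, Q.intValuation_le_pow_iff_mem]
    exact hy
  have w0 := cv P _ z0
  have w1 := cv P1 _ z1
  have w2 := cv P2 _ z2
  rw [map_sub] at w0
  have hθ' : algebraMap (𝓞 L) L θ' = θ := rfl
  rw [hθ'] at w0
  set y : L := algebraMap (𝓞 L) L z with hy
  have f1 : ∀ t, P.valuation L (σ t) = P2.valuation L t := by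
    intro t
    rw [← e1 (σ t), ← e2 (σ (σ t)), h3]
  refine ⟨y + σ y + σ (σ y), ?_, ?_⟩
  · rw [map_add, map_add, h3]
    ring
  · have e3 : θ - (y + σ y + σ (σ y)) = -((y - θ) + (σ y + σ (σ y))) := by ring
    rw [e3, Valuation.map_neg]
    refine (Valuation.map_add _ _ _).trans (max_le w0 ?_)
    refine (Valuation.map_add _ _ _).trans (max_le ?_ ?_)
    · rw [f1]
      exact w2
    · rw [f1, e2]
      exact w1

/-- If `σ` does not fix `P`, then `x` is a local cube. -/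
theorem lc_of (hLCI : Stmt_LCI) (h : CubE x L ι θ σ) (hx : x ≠ 0) (hx3 : ¬ lam ∣ x)
    (h3 : ∀ z : L, σ (σ (σ z)) = z)
    (hfixed : ∀ z : L, σ z = z → ∃ a b : Eis, b ≠ 0 ∧ z * ι b = ι a) {v : Pl}
    {P P1 P2 : HeightOneSpectrum (𝓞 L)} (hu : Prime (uni v))
    (hle : ∀ a : Eis, P.valuation L (ι a) ≤ 1) (hP : P.valuation L (ι (uni v)) < 1)
    (hlt : ∀ a : Eis, P.valuation L (ι a) < 1 → uni v ∣ a)
    (h01 : P ≠ P1) (h02 : P ≠ P2) (h12 : P1 ≠ P2)
    (e1 : ∀ z, P1.valuation L (σ z) = P.valuation L z)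
    (e2 : ∀ z, P2.valuation L (σ z) = P1.valuation L z) : LCE (uni v) x := by
  have hρ : P.valuation L (ι (uni v)) ≠ 0 := by
    rw [Valuation.ne_zero_iff]
    exact (map_ne_zero_iff ι h.inj).mpr hu.ne_zero
  set ρ := P.valuation L (ι (uni v)) with hρd
  set M := V (uni v) x + 4 with hM
  obtain ⟨N, hN⟩ := exists_exp_le (pow_ne_zero M hρ)
  obtain ⟨T, hT, hTP⟩ := approx h h3 h01 h02 h12 e1 e2 N
  obtain ⟨a, b, hb, hab⟩ := hfixed T hT
  apply local_cube hLCI hx hx3 v hu hb (a := a)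
  set y := x * b ^ 3 - a ^ 3 with hyd
  by_cases hy0 : y = 0
  · rw [hy0]
    exact dvd_zero _
  rw [pow_dvd_iff hu hy0, add_assoc, ← hM]
  by_contra hcon
  push Not at hcon
  have hθ1 : P.valuation L θ ≤ 1 := by
    have hθ : IsIntegral ℤ θ := by
      refine IsIntegral.of_pow (n := 3) (by norm_num) ?_
      rw [h.cube]
      exact Pool.Agent.PT.NTR.isIntegral_io ι x
    exact P.valuation_le_one (K := L) (⟨θ, hθ⟩ : 𝓞 L)
  have hexp : WithZero.exp (-(N : ℤ)) ≤ (1 : WithZero (Multiplicative ℤ)) := by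
    rw [← WithZero.exp_zero, WithZero.exp_le_exp]
    omega
  have hT1 : P.valuation L T ≤ 1 := by
    have e3 : T = θ - (θ - T) := by ring
    rw [e3]
    exact (Valuation.map_sub _ _ _).trans (max_le hθ1 (hTP.trans hexp))
  have hfac : ι y = (θ - T) * ((ι b) ^ 3 * (θ ^ 2 + θ * T + T ^ 2)) := by
    have h5 := h.cube
    rw [hyd]
    simp only [map_sub, map_mul, map_pow]
    rw [← hab, ← h5]
    ring
  have hquad : P.valuation L (θ ^ 2 + θ * T + T ^ 2) ≤ 1 := by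
    refine (Valuation.map_add _ _ _).trans (max_le ((Valuation.map_add _ _ _).trans
      (max_le ?_ ?_)) ?_)
    · rw [map_pow]
      exact pow_le_one' hθ1 2
    · rw [map_mul]
      exact mul_le_one' hθ1 hT1
    · rw [map_pow]
      exact pow_le_one' hT1 2
  have hval : P.valuation L (ι y) ≤ ρ ^ M * (P.valuation L (ι b)) ^ 3 := by
    rw [hfac, map_mul, map_mul, map_pow]
    refine mul_le_mul' (hTP.trans hN) ?_
    exact mul_le_of_le_one_right' hquad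
  rw [val_eq hu hle hlt hy0, val_eq hu hle hlt hb, ← hρd, ← pow_mul, ← pow_add] at hval
  have h6 : M + V (uni v) b * 3 > V (uni v) y := by omega
  have h7 := pow_lt_pow_right_of_lt_one₀ (zero_lt_iff.mpr hρ) hP h6
  exact absurd hval (not_le.mpr h7)

end NCN

open Pool.Agent.PTK.NCN in
open Pool.Agent.PT.NCNT (pow_dvd_iff reduce ext_val exists_exp_le pow_le_exp exists_pow_lt val_eq
  val_w prime_uni) in
theorem NCN_thm (_hSPP : SPP) (hLCI : Stmt_LCI) (hNHN : Stmt_NHN) (hNTR : Stmt_NTR) :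
    Stmt_NCN := by
  classical
  intro x L _ _ ι θ σ hx hx3 _ h v
  obtain ⟨h3, hfixed, -⟩ := hNHN x L ι θ σ hx h
  obtain ⟨t1, t2, t3, t4, t5, -⟩ := hNTR x L ι θ σ hx hx3 h
  have hu := prime_uni v
  obtain ⟨P, hP⟩ := (t4 v).2
  obtain ⟨P1, e1⟩ := t3 P
  obtain ⟨P2, e2⟩ := t3 P1
  have hP' : P.valuation L (ι (uni v)) < 1 := hP
  have hP1 : P1 ∈ Abv ι v := by
    change P1.valuation L (ι (uni v)) < 1
    rw [← h.sι, e1]
    exact hP'
  have hP2 : P2 ∈ Abv ι v := by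
    change P2.valuation L (ι (uni v)) < 1
    rw [← h.sι, e2]
    exact hP1
  have e0 : ∀ z, P.valuation L (σ z) = P2.valuation L z := by
    intro z
    rw [← e1 (σ z), ← e2 (σ (σ z)), h3]
  have hall : ∀ Q ∈ Abv ι v, Q = P ∨ Q = P1 ∨ Q = P2 := by
    intro Q hQ
    obtain ⟨i, hi⟩ := t5 v P Q hP hQ
    have key : ∀ i : ℕ, ∀ Q : HeightOneSpectrum (𝓞 L),
        (∀ z : L, Q.valuation L ((σ ^ i) z) = P.valuation L z) → Q = P ∨ Q = P1 ∨ Q = P2 := by
      intro i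
      induction i using Nat.strong_induction_on with
      | _ i ih =>
        intro Q hi
        rcases i with _ | _ | _ | i
        · left
          apply ext_val
          intro z
          simpa using hi z
        · right; left
          apply ext_val
          intro z
          obtain ⟨y, rfl⟩ := σ.surjective z
          rw [e1]
          simpa using hi y
        · right; right
          apply ext_val
          intro z
          obtain ⟨y, rfl⟩ := σ.surjective z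
          obtain ⟨y, rfl⟩ := σ.surjective y
          rw [e2, e1]
          have h4 := hi y
          rw [pow_succ, pow_one] at h4
          exact h4
        · refine ih i (by omega) Q fun z => ?_
          have h4 := hi z
          have h5 : (σ ^ (i + 3)) z = (σ ^ i) z := by
            rw [pow_add]
            change (σ ^ i) ((σ ^ 3) z) = _
            congr 1
            exact h3 z
          rw [← h5]
          exact h4
    exact key i Q hi
  have hlt : ∀ a : Eis, P.valuation L (ι a) < 1 → uni v ∣ a := by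
    obtain ⟨v', -, hv'⟩ := t2 P
    intro a ha
    have h4 : uni v' ∣ uni v := hv' _ hP'
    have h5 : Associated (uni v') (uni v) := (prime_uni v').associated_of_dvd hu h4
    exact h5.symm.dvd.trans (hv' a ha)
  by_cases hfix : P = P1
  · have hfix' : ∀ z : L, P.valuation L (σ z) = P.valuation L z := by
      intro z
      conv_lhs => rw [hfix]
      exact e1 z
    have hnot : ¬ LCE (uni v) x := fun hLC => no_fix h hx (t1 P) hP' hfix' hLC
    rw [if_neg hnot]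
    have hP2' : P2 = P := by
      apply ext_val
      intro z
      rw [← e0, hfix']
    have hset : Abv ι v = {P} := by
      ext Q
      rw [Set.mem_singleton_iff]
      constructor
      · intro hQ
        rcases hall Q hQ with h4 | h4 | h4
        · exact h4
        · exact h4.trans hfix.symm
        · exact h4.trans hP2'
      · rintro rfl
        exact hP
    rw [hset]
    simp
  · have h02 : P ≠ P2 := by
      intro h4
      apply hfix
      apply ext_val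
      intro z
      obtain ⟨y, rfl⟩ := σ.surjective z
      rw [e1, e0, ← h4]
    have h12 : P1 ≠ P2 := by
      intro h4
      apply hfix
      apply ext_val
      intro z
      calc P.valuation L z = P1.valuation L (σ z) := (e1 z).symm
        _ = P2.valuation L (σ z) := by rw [h4]
        _ = P1.valuation L z := e2 z
    have hLC : LCE (uni v) x :=
      lc_of hLCI h hx hx3 h3 hfixed hu (t1 P) hP' hlt hfix h02 h12 e1 e2
    rw [if_pos hLC]
    have hset : Abv ι v = {P, P1, P2} := by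
      ext Q
      simp only [Set.mem_insert_iff, Set.mem_singleton_iff]
      constructor
      · exact hall Q
      · rintro (rfl | rfl | rfl)
        · exact hP
        · exact hP1
        · exact hP2
    rw [Nat.card_coe_set_eq, hset, Set.ncard_eq_three]
    exact ⟨P, P1, P2, hfix, h02, h12, rfl⟩

end Pool.Agent.PTK


end

section

/-!
# UPL: from upper bounds to a lower bound
-/

set_option autoImplicit false

open NumberField IsDedekindDomain Finset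
open scoped nonZeroDivisors Pointwise

namespace Pool.Agent.PTK

open Pool.Agent.Lib_helper18 Pool.Agent.Lib_helper18.Eis Pool.Agent.Lib_helper84.Cub
open Pool.Agent.PT Pool.Agent.PTE Pool.Agent.PT3 Pool.Agent.PTL Pool.Agent.PTN

namespace UPL

open BDENS

theorem tf_nonneg (P : Prop) : 0 ≤ tf P := by
  unfold tf
  split_ifs
  · exact zero_le_one
  · exact le_rfl

open Classical in
/-- one exponent, pointwise -/
theorem point (n : ℤ) (a M : ℕ) (W R : ℤ → Prop) (S : Set ℕ) (g : ℕ → ℝ) (c₀ : ℝ) (E : ℕ)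
    (h1 : ∀ q : ℕ, q.Prime → M < q → q ∈ S → q % 3 = a ∧ W ((q : ℤ) ^ E))
    (h2 : ∀ q : ℕ, q.Prime → M < q → q ∈ S → c₀ - g q ≤ tf (R (n * (q : ℤ) ^ E)))
    {σ : ℝ} (hσ : 1 < σ) (q : ℕ) :
    c₀ * ind S σ q - (if q.Prime ∧ q ∈ S then g q * (q : ℝ) ^ (-σ) else 0) ≤
      (if q.Prime ∧ q % 3 = a ∧ W ((q : ℤ) ^ E) then
        tf (R (n * (q : ℤ) ^ E)) * (q : ℝ) ^ (-σ) else 0) +
      (if q ≤ M then |c₀ - g q| else 0) := by
  have hA : 0 ≤ (if q.Prime ∧ q % 3 = a ∧ W ((q : ℤ) ^ E) then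
      tf (R (n * (q : ℤ) ^ E)) * (q : ℝ) ^ (-σ) else 0) := by
    split_ifs
    · exact mul_nonneg (tf_nonneg _) (Real.rpow_nonneg (Nat.cast_nonneg q) _)
    · exact le_rfl
  have hC : 0 ≤ (if q ≤ M then |c₀ - g q| else 0) := by
    split_ifs
    · exact abs_nonneg _
    · exact le_rfl
  by_cases hq : q.Prime ∧ q ∈ S
  · rw [if_pos hq, ind_mem hq.1 hq.2, ← sub_mul]
    have hp0 : 0 ≤ (q : ℝ) ^ (-σ) := Real.rpow_nonneg (Nat.cast_nonneg q) _
    by_cases hqM : q ≤ M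
    · rw [if_pos hqM]
      have hp1 : (q : ℝ) ^ (-σ) ≤ 1 :=
        Real.rpow_le_one_of_one_le_of_nonpos (by exact_mod_cast hq.1.one_lt.le) (by linarith)
      have e1 : (c₀ - g q) * (q : ℝ) ^ (-σ) ≤ |c₀ - g q| * (q : ℝ) ^ (-σ) :=
        mul_le_mul_of_nonneg_right (le_abs_self _) hp0
      have e2 : |c₀ - g q| * (q : ℝ) ^ (-σ) ≤ |c₀ - g q| * 1 :=
        mul_le_mul_of_nonneg_left hp1 (abs_nonneg _)
      linarith
    · rw [if_neg hqM, add_zero]
      rw [not_le] at hqM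
      obtain ⟨e1, e2⟩ := h1 q hq.1 hqM hq.2
      rw [if_pos ⟨hq.1, e1, e2⟩]
      exact mul_le_mul_of_nonneg_right (h2 q hq.1 hqM hq.2) hp0
  · rw [if_neg hq, ind_not hq, mul_zero, sub_zero]
    exact add_nonneg hA hC

open Classical in
/-- one exponent -/
theorem one (n : ℤ) (a M : ℕ) (W R : ℤ → Prop) (S : Set ℕ) (g : ℕ → ℝ) (c₀ : ℝ) (E : ℕ)
    (hc : 0 ≤ c₀)
    (h1 : ∀ q : ℕ, q.Prime → M < q → q ∈ S → q % 3 = a ∧ W ((q : ℤ) ^ E))
    (h2 : ∀ q : ℕ, q.Prime → M < q → q ∈ S → c₀ - g q ≤ tf (R (n * (q : ℤ) ^ E)))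
    {σ : ℝ} (hσ : 1 < σ) (T : Finset ℕ) (hT : sm S σ - 1 ≤ ∑ q ∈ T, ind S σ q) :
    c₀ * (sm S σ - 1) - ∑ q ∈ T, (if q.Prime ∧ q ∈ S then g q * (q : ℝ) ^ (-σ) else 0) ≤
      ∑ q ∈ T, (if q.Prime ∧ q % 3 = a ∧ W ((q : ℤ) ^ E) then
        tf (R (n * (q : ℤ) ^ E)) * (q : ℝ) ^ (-σ) else 0) +
      ∑ q ∈ Finset.range (M + 1), |c₀ - g q| := by
  have e1 := Finset.sum_le_sum fun q (_ : q ∈ T) => point n a M W R S g c₀ E h1 h2 hσ q
  rw [Finset.sum_sub_distrib, Finset.sum_add_distrib, ← Finset.mul_sum] at e1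
  have e2 : ∑ q ∈ T, (if q ≤ M then |c₀ - g q| else 0) ≤
      ∑ q ∈ Finset.range (M + 1), |c₀ - g q| := by
    rw [← Finset.sum_filter]
    refine Finset.sum_le_sum_of_subset_of_nonneg ?_ fun q _ _ => abs_nonneg _
    intro q hq
    rw [Finset.mem_range]
    have := (Finset.mem_filter.1 hq).2
    omega
  have e3 := mul_le_mul_of_nonneg_left hT hc
  linarith

end UPL

open _root_.Pool.Agent.PTK.UPL BDENS in
theorem UPL_thm : Stmt_UPL := by
  classical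
  intro n a M W R S G x y c₀ hc h1 h2 hD hU
  obtain ⟨K0, hK0⟩ := hD
  obtain ⟨K1, hK1⟩ := hU
  refine ⟨c₀ * (K0 + 2) + K1 + ∑ q ∈ Finset.range (M + 1), |c₀ - G 1 q| +
    ∑ q ∈ Finset.range (M + 1), |c₀ - G 2 q|, fun σ hσ hσ2 => ?_⟩
  obtain ⟨T1, hT1⟩ := DOM.approx (S 1) hσ
  obtain ⟨T2, hT2⟩ := DOM.approx (S 2) hσ
  refine ⟨T1 ∪ T2, ?_⟩
  have j1 : ∑ q ∈ T1, ind (S 1) σ q ≤ ∑ q ∈ T1 ∪ T2, ind (S 1) σ q :=
    Finset.sum_le_sum_of_subset_of_nonneg Finset.subset_union_left fun q _ _ =>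
      ind_nonneg _ _ _
  have j2 : ∑ q ∈ T2, ind (S 2) σ q ≤ ∑ q ∈ T1 ∪ T2, ind (S 2) σ q :=
    Finset.sum_le_sum_of_subset_of_nonneg Finset.subset_union_right fun q _ _ =>
      ind_nonneg _ _ _
  have i1 := one n a M W R (S 1) (G 1) c₀ 1 hc (fun q => h1 1 q (Or.inl rfl))
    (fun q => h2 1 q (Or.inl rfl)) hσ (T1 ∪ T2) (hT1.trans j1)
  have i2 := one n a M W R (S 2) (G 2) c₀ 2 hc (fun q => h1 2 q (Or.inr rfl))
    (fun q => h2 2 q (Or.inr rfl)) hσ (T1 ∪ T2) (hT2.trans j2)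
  have e1 := hK1 σ hσ hσ2 (T1 ∪ T2)
  rw [Finset.sum_pair (by norm_num : (1 : ℕ) ≠ 2)] at e1
  have e2 := mul_le_mul_of_nonneg_left (hK0 σ hσ hσ2) hc
  unfold SumA
  rw [Finset.sum_pair (by norm_num : (1 : ℕ) ≠ 2)]
  have e3 : (c₀ * y - x) * Real.log (1 / (σ - 1)) =
      c₀ * (y * Real.log (1 / (σ - 1))) - x * Real.log (1 / (σ - 1)) := by ring
  rw [e3]
  linarith

end Pool.Agent.PTK


end

section

/-!
# Module UPS (helper57): the calculus of `UpS`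
-/

set_option autoImplicit false

open Finset

namespace Pool.Agent.PTK

namespace UPS

theorem log_nn (σ : ℝ) (h1 : 1 < σ) (h2 : σ ≤ 2) : 0 ≤ Real.log (1 / (σ - 1)) := by
  apply Real.log_nonneg
  rw [le_div_iff₀ (by linarith)]
  linarith

theorem rpow_le_one' (q : ℕ) (hq : q.Prime) (σ : ℝ) (h1 : 1 < σ) : (q : ℝ) ^ (-σ) ≤ 1 := by
  apply Real.rpow_le_one_of_one_le_of_nonpos
  · exact_mod_cast hq.one_lt.le
  · linarith

end UPS

open Classical in
theorem UPS_thm : Stmt_UPS := by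
  refine ⟨?_, ?_, ?_⟩
  · intro ι _ S G T G' x c M hc hG' hyp hU
    choose K hK using hU
    refine ⟨(∑ i, K i) / c + ∑ E ∈ ({1, 2} : Finset ℕ), ∑ q ∈ range (M + 1), |G E q|, ?_⟩
    intro σ h1 h2 U
    have term : ∀ E ∈ ({1, 2} : Finset ℕ), ∀ q ∈ U,
        (if q.Prime ∧ q ∈ S E then G E q * (q : ℝ) ^ (-σ) else 0) ≤
        (1 / c) * ∑ i, (if q.Prime ∧ q ∈ T i E then G' i E q * (q : ℝ) ^ (-σ) else 0) +
          (if q ∈ range (M + 1) then |G E q| else 0) := by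
      intro E hE q _
      have hp : 0 ≤ (q : ℝ) ^ (-σ) := Real.rpow_nonneg (Nat.cast_nonneg _) _
      have n1 : 0 ≤ (1 / c) * ∑ i, (if q.Prime ∧ q ∈ T i E then G' i E q * (q : ℝ) ^ (-σ) else 0) := by
        refine mul_nonneg (by positivity) (Finset.sum_nonneg fun i _ => ?_)
        split_ifs
        · exact mul_nonneg (hG' _ _ _) hp
        · exact le_rfl
      have n2 : 0 ≤ (if q ∈ range (M + 1) then |G E q| else 0) := by
        split_ifs
        · exact abs_nonneg _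
        · exact le_rfl
      by_cases hq : q.Prime ∧ q ∈ S E
      · rw [if_pos hq]
        by_cases hM : M < q
        · have hE' : E = 1 ∨ E = 2 := by simpa using hE
          have h3 := hyp E q hE' hq.1 hM hq.2
          have h4 : G E q * (q : ℝ) ^ (-σ) ≤ (1 / c) *
              ∑ i, (if q.Prime ∧ q ∈ T i E then G' i E q * (q : ℝ) ^ (-σ) else 0) := by
            have h5 : ∑ i, (if q.Prime ∧ q ∈ T i E then G' i E q * (q : ℝ) ^ (-σ) else 0) =
                (∑ i, (if q ∈ T i E then G' i E q else 0)) * (q : ℝ) ^ (-σ) := by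
              rw [Finset.sum_mul]
              refine Finset.sum_congr rfl fun i _ => ?_
              by_cases h6 : q ∈ T i E
              · rw [if_pos ⟨hq.1, h6⟩, if_pos h6]
              · rw [if_neg (fun h => h6 h.2), if_neg h6, zero_mul]
            rw [h5, ← mul_assoc]
            refine mul_le_mul_of_nonneg_right ?_ hp
            rw [one_div, ← div_eq_inv_mul, le_div_iff₀ hc, mul_comm]
            exact h3
          linarith
        · have hr : q ∈ range (M + 1) := by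
            rw [mem_range]
            omega
          rw [if_pos hr]
          have h7 : G E q * (q : ℝ) ^ (-σ) ≤ |G E q| := by
            calc G E q * (q : ℝ) ^ (-σ) ≤ |G E q| * (q : ℝ) ^ (-σ) :=
                  mul_le_mul_of_nonneg_right (le_abs_self _) hp
              _ ≤ |G E q| * 1 :=
                  mul_le_mul_of_nonneg_left (UPS.rpow_le_one' q hq.1 σ h1) (abs_nonneg _)
              _ = |G E q| := mul_one _
          linarith
      · rw [if_neg hq]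
        linarith
    have s1 : ∑ E ∈ ({1, 2} : Finset ℕ), ∑ q ∈ U,
        (if q.Prime ∧ q ∈ S E then G E q * (q : ℝ) ^ (-σ) else 0) ≤
        ∑ E ∈ ({1, 2} : Finset ℕ), ∑ q ∈ U,
        ((1 / c) * ∑ i, (if q.Prime ∧ q ∈ T i E then G' i E q * (q : ℝ) ^ (-σ) else 0) +
          (if q ∈ range (M + 1) then |G E q| else 0)) :=
      Finset.sum_le_sum fun E hE => Finset.sum_le_sum fun q hq => term E hE q hq
    have s2 : ∑ E ∈ ({1, 2} : Finset ℕ), ∑ q ∈ U,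
        ((1 / c) * ∑ i, (if q.Prime ∧ q ∈ T i E then G' i E q * (q : ℝ) ^ (-σ) else 0) +
          (if q ∈ range (M + 1) then |G E q| else 0)) =
        (1 / c) * ∑ i, ∑ E ∈ ({1, 2} : Finset ℕ), ∑ q ∈ U,
          (if q.Prime ∧ q ∈ T i E then G' i E q * (q : ℝ) ^ (-σ) else 0) +
        ∑ E ∈ ({1, 2} : Finset ℕ), ∑ q ∈ U, (if q ∈ range (M + 1) then |G E q| else 0) := by
      simp only [Finset.sum_add_distrib, ← Finset.mul_sum]
      congr 2
      have hcomm : ∀ g : ι → ℕ → ℕ → ℝ, ∑ E ∈ ({1, 2} : Finset ℕ), ∑ q ∈ U, ∑ i, g i E q =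
          ∑ i, ∑ E ∈ ({1, 2} : Finset ℕ), ∑ q ∈ U, g i E q := by
        intro g
        have h8 : ∀ E ∈ ({1, 2} : Finset ℕ), ∑ q ∈ U, ∑ i, g i E q = ∑ i, ∑ q ∈ U, g i E q :=
          fun E _ => Finset.sum_comm
        rw [Finset.sum_congr rfl h8]
        exact Finset.sum_comm
      exact hcomm fun i E q => if q.Prime ∧ q ∈ T i E then G' i E q * (q : ℝ) ^ (-σ) else 0
    have s3 : ∑ i, ∑ E ∈ ({1, 2} : Finset ℕ), ∑ q ∈ U,
          (if q.Prime ∧ q ∈ T i E then G' i E q * (q : ℝ) ^ (-σ) else 0) ≤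
        ∑ i, (x i * Real.log (1 / (σ - 1)) + K i) :=
      Finset.sum_le_sum fun i _ => hK i σ h1 h2 U
    have s4 : ∑ E ∈ ({1, 2} : Finset ℕ), ∑ q ∈ U, (if q ∈ range (M + 1) then |G E q| else 0) ≤
        ∑ E ∈ ({1, 2} : Finset ℕ), ∑ q ∈ range (M + 1), |G E q| := by
      refine Finset.sum_le_sum fun E _ => ?_
      rw [← Finset.sum_filter]
      refine Finset.sum_le_sum_of_subset_of_nonneg ?_ fun _ _ _ => abs_nonneg _
      intro q hq
      exact (Finset.mem_filter.1 hq).2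
    have s5 : (1 / c) * ∑ i, ∑ E ∈ ({1, 2} : Finset ℕ), ∑ q ∈ U,
          (if q.Prime ∧ q ∈ T i E then G' i E q * (q : ℝ) ^ (-σ) else 0) ≤
        (1 / c) * ∑ i, (x i * Real.log (1 / (σ - 1)) + K i) :=
      mul_le_mul_of_nonneg_left s3 (by positivity)
    have s6 : (1 / c) * ∑ i, (x i * Real.log (1 / (σ - 1)) + K i) =
        (∑ i, x i) / c * Real.log (1 / (σ - 1)) + (∑ i, K i) / c := by
      rw [Finset.sum_add_distrib, ← Finset.sum_mul]
      ring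
    rw [s2] at s1
    linarith
  · rintro S G x y hxy ⟨K, hK⟩
    refine ⟨K, fun σ h1 h2 U => (hK σ h1 h2 U).trans ?_⟩
    have h3 := mul_le_mul_of_nonneg_right hxy (UPS.log_nn σ h1 h2)
    linarith
  · rintro S G x c hc ⟨K, hK⟩
    refine ⟨c * K, fun σ h1 h2 U => ?_⟩
    have h3 := mul_le_mul_of_nonneg_left (hK σ h1 h2 U) hc
    have h4 : ∑ E ∈ ({1, 2} : Finset ℕ), ∑ q ∈ U,
        (if q.Prime ∧ q ∈ S E then c * G E q * (q : ℝ) ^ (-σ) else 0) =
        c * ∑ E ∈ ({1, 2} : Finset ℕ), ∑ q ∈ U,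
        (if q.Prime ∧ q ∈ S E then G E q * (q : ℝ) ^ (-σ) else 0) := by
      rw [Finset.mul_sum]
      refine Finset.sum_congr rfl fun E _ => ?_
      rw [Finset.mul_sum]
      refine Finset.sum_congr rfl fun q _ => ?_
      split_ifs
      · ring
      · ring
    rw [h4]
    calc _ ≤ c * (x * Real.log (1 / (σ - 1)) + K) := h3
      _ = c * x * Real.log (1 / (σ - 1)) + c * K := by ring

end Pool.Agent.PTK


end
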