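import Mathlib
import Pool.Agent.PTDM.C24
import Pool.Agent.PTDM.C31
import Pool.Agent.PTDM.C40
import Pool.Agent.PTDM.C45
import Pool.Agent.PTKM.C01
import Pool.Agent.PTKM.C02
import Pool.Agent.PTKM.C04

/-! Parts: PTKX.DCKU, PTKX.DXL, PTKX.GTK, PTKX.GTU, PTKX.GKK, PTKX.JKU, PTKX.MKU, PTKX.NGN, PTKX.NHO, PTKX.PLU, PTKX.S1G, PTKX.SVF, PTKX.UPA -/

section

/-!
# PTK_DCKU: the relation for the Frobenius invariant of `Q`, `Q = 1 (mod 3)`
-/

set_option autoImplicit false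

namespace Pool.Agent.PTK

open Pool.Agent.Lib_helper18 Pool.Agent.Lib_helper18.Eis Pool.Agent.Lib_helper84.Cub
open Pool.Agent.PT

namespace DCKU

/-- a place above a split prime is not associated to its conjugate -/
lemma not_assoc (hSPP : SPP) {ρ : PP} {Q : ℕ} (hQ : Q.Prime)
    (hρ : (Q : Eis) = ρ.1 * conj ρ.1) : ¬ Associated ρ.1 (conj ρ.1) := by
  obtain ⟨l, hl, ⟨-, h2⟩ | ⟨-, -, -, h3⟩⟩ := hSPP.2.2.2.2.2 ρ
  · exfalso
    rw [mul_conj, h2, norm_natCast] at hρ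
    have h4 : ((Q : ℤ) : Eis) = (((l : ℤ) ^ 2 : ℤ) : Eis) := by
      rw [Int.cast_natCast]
      exact hρ
    have h5 := congrArg Eis.re h4
    rw [intCast_re, intCast_re] at h5
    have h6 : Q = l ^ 2 := by exact_mod_cast h5
    rw [h6] at hQ
    exact Nat.Prime.not_prime_pow (le_refl 2) hQ
  · exact h3

end DCKU

open DPA DCK _root_.Pool.Agent.PTK.DCKU in
/-- PTK_DCKU. -/
theorem DCKU_thm (hSPP : SPP) (hDP1 : Stmt_DP1) (hDP2 : Stmt_DP2) (hDP3 : Stmt_DP3)
    (hDP4U : Stmt_DP4U) (hSVF : Stmt_SVF) : Stmt_DCKU := by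
  intro N b x p q p' q' HD
  have hn1 := HD.sol.n1
  have hn2 := SolE_n1' HD.sol
  obtain ⟨m1, hm1⟩ : ∃ m : ℕ, m = (p ^ 3 + x * q ^ 3).norm.natAbs := ⟨_, rfl⟩
  obtain ⟨m2, hm2⟩ : ∃ m : ℕ, m = (p' ^ 3 + x * q' ^ 3).norm.natAbs := ⟨_, rfl⟩
  have hm1d : p ^ 3 + x * q ^ 3 ∣ (m1 : Eis) := by rw [hm1]; exact dvd_natAbs_norm _
  have hm2d : p' ^ 3 + x * q' ^ 3 ∣ (m2 : Eis) := by rw [hm2]; exact dvd_natAbs_norm _
  have hm1p : 0 < m1 := by
    rw [hm1]
    exact Int.natAbs_pos.2 (norm_pos hn1).ne'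
  have hm2p : 0 < m2 := by
    rw [hm2]
    exact Int.natAbs_pos.2 (norm_pos hn2).ne'
  obtain ⟨M, hMdef⟩ : ∃ M : ℕ, M = N * m1 * m2 := ⟨_, rfl⟩
  have hMp : 0 < M := by
    rw [hMdef]
    exact Nat.mul_pos (Nat.mul_pos HD.N0 hm1p) hm2p
  have hMe : (M : Eis) = (N : Eis) * (m1 : Eis) * (m2 : Eis) := by
    rw [hMdef]
    push_cast
    ring
  have hM0 : (M : Eis) ≠ 0 := nat_ne hMp.ne'
  have dN : (N : Eis) ∣ (M : Eis) := by
    rw [hMe, mul_assoc]
    exact Dvd.intro _ rfl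
  have d1 : p ^ 3 + x * q ^ 3 ∣ (M : Eis) := by
    rw [hMe]
    exact dvd_mul_of_dvd_left (dvd_mul_of_dvd_right hm1d _) _
  have d2 : p' ^ 3 + x * q' ^ 3 ∣ (M : Eis) := by
    rw [hMe]
    exact dvd_mul_of_dvd_right hm2d _
  have hfin := hSPP.2.2.1 (M : Eis) hM0
  refine ⟨9 * M, by omega, ?_⟩
  intro f hf0 hf
  have h9 : 9 ∣ f := (Dvd.intro _ rfl).trans hf
  have hf1 : 1 < f := by
    have := Nat.le_of_dvd hf0 h9
    omega
  have hMf : M ∣ f := (Dvd.intro_left 9 rfl).trans hf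
  have hMfe : (M : Eis) ∣ (f : Eis) := by
    obtain ⟨k, hk⟩ := hMf
    rw [hk]
    push_cast
    exact Dvd.intro _ rfl
  obtain ⟨C₀, Φ₀, H₀⟩ := hDP2 N b x p q p' q' HD f hf1 h9
  have hpl : ∀ π : PP, ∃ (c : ZMod 3) (Φ : (ZMod f)ˣ →* Multiplicative (ZMod 3)),
      π.1 ∣ (M : Eis) → ∀ (E Q : ℕ) (hQ : Q.Coprime f) (X Y : Eis),
        HypP N b x p q p' q' E Q X Y →
        SVE (tm π.1) x p (-p') (-q) q' X Y = c + E * (Φ (ZMod.unitOfCoprime Q hQ)).toAdd := by
    intro π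
    by_cases hπM : π.1 ∣ (M : Eis)
    · obtain ⟨C, Φ, H⟩ := hDP1 N b x p q p' q' HD π f hf1 (hπM.trans hMfe)
      exact ⟨C, Φ, fun _ => H⟩
    · exact ⟨0, 1, fun h => absurd h hπM⟩
  choose c Φ H using hpl
  refine ⟨C₀ + ∑ π ∈ hfin.toFinset, c π, Φ₀ * ∏ π ∈ hfin.toFinset, Φ π, 0, ?_⟩
  intro E Q hQ πQ hE hQp _ hQ3 hπQ hsb hsx X Y ξ ξ' hpt hξ hξ'
  obtain ⟨πR, hπR⟩ := (hSPP.2.2.2.1 πQ).2
  have hna : ¬ Associated πQ.1 (conj πQ.1) := not_assoc hSPP hQp hπQ
  have hdQ : πQ.1 ∣ (Q : Eis) := by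
    rw [hπQ]
    exact Dvd.intro _ rfl
  have hdR : πR.1 ∣ (Q : Eis) := by
    rw [hπQ, hπR]
    exact Dvd.intro_left _ rfl
  have hQRne : πQ ≠ πR := by
    intro h
    apply hna
    rw [← hπR, ← h]
  have hcop : IsCoprime (Q : Eis) (M : Eis) := by
    have h1 : Nat.Coprime Q M := Nat.Coprime.coprime_dvd_right hMf hQ
    have h2 : IsCoprime (Q : ℤ) (M : ℤ) := Nat.isCoprime_iff_coprime.2 h1
    have h3 := h2.map (Int.castRingHom Eis)
    simpa using h3
  have hnd : ∀ π : PP, π.1 ∣ (Q : Eis) → ¬ π.1 ∣ (M : Eis) := fun π h1 h2 =>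
    π.2.1.not_unit (hcop.isUnit_of_dvd' h1 h2)
  have hQM : ¬ πQ.1 ∣ (M : Eis) := hnd πQ hdQ
  have hRM : ¬ πR.1 ∣ (M : Eis) := hnd πR hdR
  have hQN : ¬ πQ.1 ∣ (N : Eis) := fun h => hQM (h.trans dN)
  have hRN : ¬ πR.1 ∣ (N : Eis) := fun h => hRM (h.trans dN)
  have hQN' : ¬ πQ.1 ∣ (N : Eis) * (conj πQ.1) ^ E := by
    intro h
    rcases πQ.2.1.dvd_or_dvd h with h1 | h1
    · exact hQN h1
    · have h2 := πQ.2.1.dvd_of_dvd_pow h1
      rw [← hπR] at h2
      exact hQRne (hSPP.2.1 πQ πR (πQ.2.1.associated_of_dvd πR.2.1 h2))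
  obtain ⟨hQb, hQx⟩ := HD.unr πQ hQN
  obtain ⟨k, hk, hkE⟩ := hpt.eq
  have hBe : (N : Eis) * (Q : Eis) ^ E = ((N : Eis) * (conj πQ.1) ^ E) * πQ.1 ^ E := by
    rw [hπQ, mul_pow]
    ring
  have hdn : DNE X Y p (-p') (-q) q' := by
    have hA := fun i => dne_aux (π := πQ) hE (X := X) (Y := Y) (u := q) (v := p) hBe hQN' hQx hk
      hpt.hY hkE (fun h => hQM (h.trans d1)) i
    have hA' := fun i => dne_aux (π := πQ) hE (X := X) (Y := Y) (u := q') (v := p') hBe hQN' hQx hk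
      hpt.hY hkE (fun h => hQM (h.trans d2)) i
    refine ⟨?_, ?_, ?_, ?_⟩
    · intro h
      apply hA 1
      unfold DfE at h
      linear_combination - h
    · intro h
      apply hA 2
      unfold DfE at h
      linear_combination - h
    · intro h
      apply hA' 1
      unfold DfE at h
      linear_combination h
    · intro h
      apply hA' 2
      unfold DfE at h
      linear_combination h
  have HP : HypP N b x p q p' q' E Q X Y := ⟨hE, hQp, hsb, hsx, hpt, hdn⟩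
  have hn0 := n0_ne HD HP
  obtain ⟨-, hsum0⟩ := hSVF b x p (-p') (-q) q' X Y HD.hb HD.hx (SolE_flip HD.sol) hpt.hX hpt.hY
    hn0 hdn
  -- the places above `Q`
  have hTQ : SVE (tm πQ.1) x p (-p') (-q) q' X Y = - (E * TAUP πQ.1 p q p' q' ξ) := by
    refine hDP4U N b x p q p' q' HD πQ E Q X Y ξ HP hQ3 hdQ hQN ?_ hξ
    intro h
    rcases πQ.2.1.dvd_or_dvd h with h1 | h1
    · exact hQM (h1.trans d1)
    · exact hQM (h1.trans d2)
  have hTR : SVE (tm πR.1) x p (-p') (-q) q' X Y = - (E * TAUP πR.1 p q p' q' ξ') := by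
    refine hDP4U N b x p q p' q' HD πR E Q X Y ξ' HP hQ3 hdR hRN ?_ ?_
    · intro h
      rcases πR.2.1.dvd_or_dvd h with h1 | h1
      · exact hRM (h1.trans d1)
      · exact hRM (h1.trans d2)
    · rw [hπR]
      exact hξ'
  -- the sum
  have hQS : πQ ∉ hfin.toFinset := by
    rw [Set.Finite.mem_toFinset]
    exact hQM
  have hRS : πR ∉ hfin.toFinset := by
    rw [Set.Finite.mem_toFinset]
    exact hRM
  classical
  have hsupp : (Function.support fun v : Pl => SVE (sy v) x p (-p') (-q) q' X Y) ⊆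
      ((insert none (insert (some πQ) (insert (some πR) (hfin.toFinset.image some))) :
        Finset Pl) : Set Pl) := by
    intro v hv
    by_contra hnv
    apply hv
    rcases v with _ | π
    · exact absurd (Finset.mem_coe.2 (Finset.mem_insert_self _ _)) hnv
    · have hnM : ¬ π.1 ∣ (M : Eis) := by
        intro h
        apply hnv
        rw [Finset.mem_coe]
        refine Finset.mem_insert_of_mem (Finset.mem_insert_of_mem (Finset.mem_insert_of_mem
          (Finset.mem_image_of_mem _ ?_)))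
        rw [Set.Finite.mem_toFinset]
        exact h
      have hπne : π ≠ πQ := by
        rintro rfl
        apply hnv
        rw [Finset.mem_coe]
        exact Finset.mem_insert_of_mem (Finset.mem_insert_self _ _)
      have hπne' : π ≠ πR := by
        rintro rfl
        apply hnv
        rw [Finset.mem_coe]
        exact Finset.mem_insert_of_mem (Finset.mem_insert_of_mem (Finset.mem_insert_self _ _))
      have hπQnd : ¬ π.1 ∣ (Q : Eis) := by
        rw [hπQ]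
        intro h
        rcases π.2.1.dvd_or_dvd h with h1 | h1
        · exact hπne (hSPP.2.1 π πQ (π.2.1.associated_of_dvd πQ.2.1 h1))
        · rw [← hπR] at h1
          exact hπne' (hSPP.2.1 π πR (π.2.1.associated_of_dvd πR.2.1 h1))
      refine hDP3 N b x p q p' q' HD π E Q X Y HP (fun h => hnM (h.trans dN)) hπQnd ?_
      intro h
      rcases π.2.1.dvd_or_dvd h with h1 | h1
      · exact hnM (h1.trans d1)
      · exact hnM (h1.trans d2)
  have hn_notin : (none : Pl) ∉ insert (some πQ) (insert (some πR) (hfin.toFinset.image some)) := by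
    simp
  have hR_notin : (some πR : Pl) ∉ hfin.toFinset.image some := by
    intro h
    obtain ⟨y, hy, hy'⟩ := Finset.mem_image.1 h
    rw [Option.some.injEq] at hy'
    rw [hy'] at hy
    exact hRS hy
  have hQ_notin : (some πQ : Pl) ∉ insert (some πR) (hfin.toFinset.image some) := by
    intro h
    rcases Finset.mem_insert.1 h with h | h
    · rw [Option.some.injEq] at h
      exact hQRne h
    · obtain ⟨y, hy, hy'⟩ := Finset.mem_image.1 h
      rw [Option.some.injEq] at hy'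
      rw [hy'] at hy
      exact hQS hy
  have hsum : ∑ π ∈ hfin.toFinset, SVE (sy (some π)) x p (-p') (-q) q' X Y =
      ∑ π ∈ hfin.toFinset, (c π + E * (Φ π (ZMod.unitOfCoprime Q hQ)).toAdd) := by
    refine Finset.sum_congr rfl ?_
    intro π hπ
    rw [Set.Finite.mem_toFinset] at hπ
    exact H π hπ E Q hQ X Y HP
  rw [finsum_eq_sum_of_support_subset _ hsupp, Finset.sum_insert hn_notin,
    Finset.sum_insert hQ_notin, Finset.sum_insert hR_notin,
    Finset.sum_image (fun _ _ _ _ h => Option.some_injective _ h), hsum] at hsum0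
  have e1 : SVE (sy none) x p (-p') (-q) q' X Y =
      C₀ + E * (Φ₀ (ZMod.unitOfCoprime Q hQ)).toAdd := H₀ E Q hQ X Y HP
  have e2 : SVE (sy (some πQ)) x p (-p') (-q) q' X Y = - (E * TAUP πQ.1 p q p' q' ξ) := hTQ
  have e3 : SVE (sy (some πR)) x p (-p') (-q) q' X Y = - (E * TAUP πR.1 p q p' q' ξ') := hTR
  rw [e1, e2, e3, Finset.sum_add_distrib, ← Finset.mul_sum] at hsum0
  rw [MonoidHom.mul_apply, MonoidHom.finsetProd_apply, toAdd_mul, toAdd_prod, ← hπR]
  linear_combination hsum0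

end Pool.Agent.PTK


end

section

/-!
# PTK_DXL: the relation for the Frobenius invariant of `Q`, `Q = 1 (mod 3)`, base class a local cube
-/

set_option autoImplicit false

namespace Pool.Agent.PTK

open Pool.Agent.Lib_helper18 Pool.Agent.Lib_helper18.Eis Pool.Agent.Lib_helper84.Cub
open Pool.Agent.PT

namespace DXL

lemma x_n0_ne {N : ℕ} {b x p q p' q' : Eis} (HD : HypX N b x p q p' q') {E Q : ℕ} {X Y : Eis}
    (HP : HypP N b x p q p' q' E Q X Y) : X ^ 3 + x * Y ^ 3 ≠ 0 := by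
  obtain ⟨c, hc, h⟩ := HP.pt.eq
  intro h0
  rw [h0, mul_zero] at h
  have h1 : (N : Eis) ≠ 0 := DCK.nat_ne HD.N0.ne'
  have h3 : (Q : Eis) ≠ 0 := DCK.nat_ne HP.hQ.ne_zero
  exact mul_ne_zero (mul_ne_zero h1 (pow_ne_zero _ h3)) (pow_ne_zero _ hc) h.symm

end DXL

open DPA DCK DCKU _root_.Pool.Agent.PTK.DXL in
/-- PTK_DXL. -/
theorem DXL_thm (hSPP : SPP) (hSVF : Stmt_SVF) (hDX1 : Stmt_DX1) (hDX2 : Stmt_DX2)
    (hDX3 : Stmt_DX3) (hDX4 : Stmt_DX4) : Stmt_DXL := by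
  intro N b x p q p' q' HD
  have hn1 := HD.sol.n1
  have hn2 := SolE_n1' HD.sol
  obtain ⟨m1, hm1⟩ : ∃ m : ℕ, m = (p ^ 3 + x * q ^ 3).norm.natAbs := ⟨_, rfl⟩
  obtain ⟨m2, hm2⟩ : ∃ m : ℕ, m = (p' ^ 3 + x * q' ^ 3).norm.natAbs := ⟨_, rfl⟩
  have hm1d : p ^ 3 + x * q ^ 3 ∣ (m1 : Eis) := by rw [hm1]; exact dvd_natAbs_norm _
  have hm2d : p' ^ 3 + x * q' ^ 3 ∣ (m2 : Eis) := by rw [hm2]; exact dvd_natAbs_norm _
  have hm1p : 0 < m1 := by
    rw [hm1]
    exact Int.natAbs_pos.2 (norm_pos hn1).ne'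
  have hm2p : 0 < m2 := by
    rw [hm2]
    exact Int.natAbs_pos.2 (norm_pos hn2).ne'
  obtain ⟨M, hMdef⟩ : ∃ M : ℕ, M = N * m1 * m2 := ⟨_, rfl⟩
  have hMp : 0 < M := by
    rw [hMdef]
    exact Nat.mul_pos (Nat.mul_pos HD.N0 hm1p) hm2p
  have hMe : (M : Eis) = (N : Eis) * (m1 : Eis) * (m2 : Eis) := by
    rw [hMdef]
    push_cast
    ring
  have hM0 : (M : Eis) ≠ 0 := nat_ne hMp.ne'
  have dN : (N : Eis) ∣ (M : Eis) := by
    rw [hMe, mul_assoc]
    exact Dvd.intro _ rfl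
  have d1 : p ^ 3 + x * q ^ 3 ∣ (M : Eis) := by
    rw [hMe]
    exact dvd_mul_of_dvd_left (dvd_mul_of_dvd_right hm1d _) _
  have d2 : p' ^ 3 + x * q' ^ 3 ∣ (M : Eis) := by
    rw [hMe]
    exact dvd_mul_of_dvd_right hm2d _
  have hfin := hSPP.2.2.1 (M : Eis) hM0
  refine ⟨9 * M, by omega, ?_⟩
  intro f hf0 hf
  have h9 : 9 ∣ f := (Dvd.intro _ rfl).trans hf
  have hf1 : 1 < f := by
    have := Nat.le_of_dvd hf0 h9
    omega
  have hMf : M ∣ f := (Dvd.intro_left 9 rfl).trans hf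
  have hMfe : (M : Eis) ∣ (f : Eis) := by
    obtain ⟨k, hk⟩ := hMf
    rw [hk]
    push_cast
    exact Dvd.intro _ rfl
  obtain ⟨C₀, Φ₀, H₀⟩ := hDX2 N b x p q p' q' HD f hf1 h9
  have hpl : ∀ π : PP, ∃ (c : ZMod 3) (Φ : (ZMod f)ˣ →* Multiplicative (ZMod 3)),
      π.1 ∣ (M : Eis) → ∀ (E Q : ℕ) (hQ : Q.Coprime f) (X Y : Eis),
        HypP N b x p q p' q' E Q X Y →
        SVE (tm π.1) x p (-p') (-q) q' X Y = c + E * (Φ (ZMod.unitOfCoprime Q hQ)).toAdd := by
    intro π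
    by_cases hπM : π.1 ∣ (M : Eis)
    · obtain ⟨C, Φ, H⟩ := hDX1 N b x p q p' q' HD π f hf1 (hπM.trans hMfe)
      exact ⟨C, Φ, fun _ => H⟩
    · exact ⟨0, 1, fun h => absurd h hπM⟩
  choose c Φ H using hpl
  refine ⟨C₀ + ∑ π ∈ hfin.toFinset, c π, Φ₀ * ∏ π ∈ hfin.toFinset, Φ π, 0, ?_⟩
  intro E Q hQ πQ hE hQp _ hQ3 hπQ hsb hsx X Y ξ ξ' hpt hgp hξ hξ'
  obtain ⟨πR, hπR⟩ := (hSPP.2.2.2.1 πQ).2
  have hna : ¬ Associated πQ.1 (conj πQ.1) := not_assoc hSPP hQp hπQ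
  have hdQ : πQ.1 ∣ (Q : Eis) := by
    rw [hπQ]
    exact Dvd.intro _ rfl
  have hdR : πR.1 ∣ (Q : Eis) := by
    rw [hπQ, hπR]
    exact Dvd.intro_left _ rfl
  have hQRne : πQ ≠ πR := by
    intro h
    apply hna
    rw [← hπR, ← h]
  have hcop : IsCoprime (Q : Eis) (M : Eis) := by
    have h1 : Nat.Coprime Q M := Nat.Coprime.coprime_dvd_right hMf hQ
    have h2 : IsCoprime (Q : ℤ) (M : ℤ) := Nat.isCoprime_iff_coprime.2 h1
    have h3 := h2.map (Int.castRingHom Eis)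
    simpa using h3
  have hnd : ∀ π : PP, π.1 ∣ (Q : Eis) → ¬ π.1 ∣ (M : Eis) := fun π h1 h2 =>
    π.2.1.not_isUnit (hcop.isUnit_of_dvd' h1 h2)
  have hQM : ¬ πQ.1 ∣ (M : Eis) := hnd πQ hdQ
  have hRM : ¬ πR.1 ∣ (M : Eis) := hnd πR hdR
  have hQN : ¬ πQ.1 ∣ (N : Eis) := fun h => hQM (h.trans dN)
  have hRN : ¬ πR.1 ∣ (N : Eis) := fun h => hRM (h.trans dN)
  have hQN' : ¬ πQ.1 ∣ (N : Eis) * (conj πQ.1) ^ E := by
    intro h
    rcases πQ.2.1.dvd_or_dvd h with h1 | h1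
    · exact hQN h1
    · have h2 := πQ.2.1.dvd_of_dvd_pow h1
      rw [← hπR] at h2
      exact hQRne (hSPP.2.1 πQ πR (πQ.2.1.associated_of_dvd πR.2.1 h2))
  obtain ⟨hQb, hQx⟩ := HD.unr πQ hQN
  obtain ⟨k, hk, hkE⟩ := hpt.eq
  have hBe : (N : Eis) * (Q : Eis) ^ E = ((N : Eis) * (conj πQ.1) ^ E) * πQ.1 ^ E := by
    rw [hπQ, mul_pow]
    ring
  have hdn : DNE X Y p (-p') (-q) q' := by
    have hA := fun i => dne_aux (π := πQ) hE (X := X) (Y := Y) (u := q) (v := p) hBe hQN' hQx hk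
      hpt.hY hkE (fun h => hQM (h.trans d1)) i
    have hA' := fun i => dne_aux (π := πQ) hE (X := X) (Y := Y) (u := q') (v := p') hBe hQN' hQx hk
      hpt.hY hkE (fun h => hQM (h.trans d2)) i
    refine ⟨?_, ?_, ?_, ?_⟩
    · intro h
      apply hA 1
      unfold DfE at h
      linear_combination - h
    · intro h
      apply hA 2
      unfold DfE at h
      linear_combination - h
    · intro h
      apply hA' 1
      unfold DfE at h
      linear_combination h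
    · intro h
      apply hA' 2
      unfold DfE at h
      linear_combination h
  have HP : HypP N b x p q p' q' E Q X Y := ⟨hE, hQp, hsb, hsx, hpt, hdn⟩
  have hn0 := x_n0_ne HD HP
  obtain ⟨-, hsum0⟩ := hSVF b x p (-p') (-q) q' X Y HD.hb HD.hx (SolE_flip HD.sol) hpt.hX hpt.hY
    hn0 hdn
  -- the places above `Q`
  have hTQ : SVE (tm πQ.1) x p (-p') (-q) q' X Y = - (E * TAUP πQ.1 p q p' q' ξ) := by
    refine (hDX4 N b x p q p' q' HD πQ E Q X Y ξ HP hQN ?_).2 hQ3 hdQ hξ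
    intro h
    rcases πQ.2.1.dvd_or_dvd h with h1 | h1
    · exact hQM (h1.trans d1)
    · exact hQM (h1.trans d2)
  have hTR : SVE (tm πR.1) x p (-p') (-q) q' X Y = - (E * TAUP πR.1 p q p' q' ξ') := by
    refine (hDX4 N b x p q p' q' HD πR E Q X Y ξ' HP hRN ?_).2 hQ3 hdR ?_
    · intro h
      rcases πR.2.1.dvd_or_dvd h with h1 | h1
      · exact hRM (h1.trans d1)
      · exact hRM (h1.trans d2)
    · rw [hπR]
      exact hξ'
  -- the sum
  have hQS : πQ ∉ hfin.toFinset := by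
    rw [Set.Finite.mem_toFinset]
    exact hQM
  have hRS : πR ∉ hfin.toFinset := by
    rw [Set.Finite.mem_toFinset]
    exact hRM
  classical
  have hsupp : (Function.support fun v : Pl => SVE (sy v) x p (-p') (-q) q' X Y) ⊆
      ((insert none (insert (some πQ) (insert (some πR) (hfin.toFinset.image some))) :
        Finset Pl) : Set Pl) := by
    intro v hv
    by_contra hnv
    apply hv
    rcases v with _ | π
    · exact absurd (Finset.mem_coe.2 (Finset.mem_insert_self _ _)) hnv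
    · have hnM : ¬ π.1 ∣ (M : Eis) := by
        intro h
        apply hnv
        rw [Finset.mem_coe]
        refine Finset.mem_insert_of_mem (Finset.mem_insert_of_mem (Finset.mem_insert_of_mem
          (Finset.mem_image_of_mem _ ?_)))
        rw [Set.Finite.mem_toFinset]
        exact h
      have hπne : π ≠ πQ := by
        rintro rfl
        apply hnv
        rw [Finset.mem_coe]
        exact Finset.mem_insert_of_mem (Finset.mem_insert_self _ _)
      have hπne' : π ≠ πR := by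
        rintro rfl
        apply hnv
        rw [Finset.mem_coe]
        exact Finset.mem_insert_of_mem (Finset.mem_insert_of_mem (Finset.mem_insert_self _ _))
      have hπQnd : ¬ π.1 ∣ (Q : Eis) := by
        rw [hπQ]
        intro h
        rcases π.2.1.dvd_or_dvd h with h1 | h1
        · exact hπne (hSPP.2.1 π πQ (π.2.1.associated_of_dvd πQ.2.1 h1))
        · rw [← hπR] at h1
          exact hπne' (hSPP.2.1 π πR (π.2.1.associated_of_dvd πR.2.1 h1))
      refine hDX3 N b x p q p' q' HD π E Q X Y HP (fun h => hnM (h.trans dN)) hπQnd ?_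
      intro h
      rcases π.2.1.dvd_or_dvd h with h1 | h1
      · exact hnM (h1.trans d1)
      · exact hnM (h1.trans d2)
  have hn_notin : (none : Pl) ∉ insert (some πQ) (insert (some πR) (hfin.toFinset.image some)) := by
    simp
  have hR_notin : (some πR : Pl) ∉ hfin.toFinset.image some := by
    intro h
    obtain ⟨y, hy, hy'⟩ := Finset.mem_image.1 h
    rw [Option.some.injEq] at hy'
    rw [hy'] at hy
    exact hRS hy
  have hQ_notin : (some πQ : Pl) ∉ insert (some πR) (hfin.toFinset.image some) := by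
    intro h
    rcases Finset.mem_insert.1 h with h | h
    · rw [Option.some.injEq] at h
      exact hQRne h
    · obtain ⟨y, hy, hy'⟩ := Finset.mem_image.1 h
      rw [Option.some.injEq] at hy'
      rw [hy'] at hy
      exact hQS hy
  have hsum : ∑ π ∈ hfin.toFinset, SVE (sy (some π)) x p (-p') (-q) q' X Y =
      ∑ π ∈ hfin.toFinset, (c π + E * (Φ π (ZMod.unitOfCoprime Q hQ)).toAdd) := by
    refine Finset.sum_congr rfl ?_
    intro π hπ
    rw [Set.Finite.mem_toFinset] at hπ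
    exact H π hπ E Q hQ X Y HP
  rw [finsum_eq_sum_of_support_subset _ hsupp, Finset.sum_insert hn_notin,
    Finset.sum_insert hQ_notin, Finset.sum_insert hR_notin,
    Finset.sum_image (fun _ _ _ _ h => Option.some_injective _ h), hsum] at hsum0
  have e1 : SVE (sy none) x p (-p') (-q) q' X Y =
      C₀ + E * (Φ₀ (ZMod.unitOfCoprime Q hQ)).toAdd := H₀ E Q hQ X Y HP hgp
  have e2 : SVE (sy (some πQ)) x p (-p') (-q) q' X Y = - (E * TAUP πQ.1 p q p' q' ξ) := hTQ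
  have e3 : SVE (sy (some πR)) x p (-p') (-q) q' X Y = - (E * TAUP πR.1 p q p' q' ξ') := hTR
  rw [e1, e2, e3, Finset.sum_add_distrib, ← Finset.mul_sum] at hsum0
  rw [MonoidHom.mul_apply, MonoidHom.finsetProd_apply, toAdd_mul, toAdd_prod, ← hπR]
  linear_combination hsum0

end Pool.Agent.PTK


end

section

/-!
# GTK: existence, uniqueness and properties of `t`
-/

set_option autoImplicit false
set_option linter.unusedSectionVars false

open NumberField IsDedekindDomain Finset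
open scoped nonZeroDivisors Pointwise

namespace Pool.Agent.PTK

open Pool.Agent.Lib_helper18 Pool.Agent.Lib_helper18.Eis Pool.Agent.Lib_helper84.Cub
open Pool.Agent.PT Pool.Agent.PTL

namespace GTK

open Pool.Agent.PT.GT (E E_pow E_add E_zero E_inj of_cube map_ω cube_one ω_ne_zero E_ne_zero map_E')

variable {L : Type} [Field L] [NumberField L] {ι : Eis →+* L}

theorem rel (ι : Eis →+* L) : ι w ^ 2 + ι w + 1 = 0 := by
  rw [← map_pow, ← map_add, ← map_one ι, ← map_add, w_rel, map_zero]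

theorem ι_eq (ι : Eis →+* L) (a : Eis) : ι a = (a.re : L) + (a.im : L) * ι w := by
  conv_lhs => rw [eq_re_add_im a]
  rw [map_add, map_mul, map_intCast, map_intCast]

/-- An automorphism which fixes `ω` fixes the image of `Z[w]`. -/
theorem fix_ι {h : L ≃ₐ[ℚ] L} (hh : h (ι w) = ι w) (a : Eis) : h (ι a) = ι a := by
  rw [ι_eq ι a, map_add, map_mul, map_intCast, map_intCast, hh]

theorem map_aD {h : L ≃ₐ[ℚ] L} (hh : h (ι w) = ι w) (p q p' q' : Eis) (ρ : L) :
    h (aDE ι p q p' q' ρ) = aDE ι p q p' q' (h ρ) := by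
  unfold aDE
  simp only [map_mul, map_add, map_pow, fix_ι hh]

theorem map_aN {h : L ≃ₐ[ℚ] L} (hh : h (ι w) = ι w) (p q p' q' : Eis) (ρ : L) :
    h (aNE ι p q p' q' ρ) = aNE ι p q p' q' (h ρ) := by
  unfold aNE
  simp only [map_mul, map_add, map_pow, fix_ι hh]

theorem nrm (ι : Eis →+* L) {ρ : L} {x : Eis} (p q : Eis) (hρ : ρ ^ 3 = ι x) :
    (ι p + ι q * ρ) * ((ι p + ι q * ι w * ρ) * (ι p + ι q * ι w ^ 2 * ρ)) =
      ι (p ^ 3 + x * q ^ 3) := by
  rw [map_add, map_mul, map_pow, map_pow, ← hρ]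
  linear_combination ((ι p) ^ 2 * ι q * ρ + ι p * (ι q) ^ 2 * ρ ^ 2 * ι w +
    (ι q) ^ 3 * ρ ^ 3 * (ι w - 1)) * rel ι

/-- The step from `ρ` to `ω ρ`. -/
theorem step {h : L ≃ₐ[ℚ] L} (hh : h (ι w) = ι w) {x b p q p' q' : Eis}
    (hsol : SolE x b p q p' q') (hb : ∀ θ : L, θ ^ 3 = ι b → h θ = θ) {ρ A A' c : L}
    (hρ : ρ ^ 3 = ι x) (hhρ : h ρ = ρ)
    (hD : aDE ι p q p' q' ρ ≠ 0) (hN : aNE ι p q p' q' ρ ≠ 0)
    (hD' : aDE ι p q p' q' (ι w * ρ) ≠ 0)
    (hA : A ^ 3 * aDE ι p q p' q' ρ = aNE ι p q p' q' ρ)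
    (hA' : A' ^ 3 * aDE ι p q p' q' (ι w * ρ) = aNE ι p q p' q' (ι w * ρ))
    (hc : h A = c * A) : h A' = c * A' := by
  have r := rel ι
  have h3 := cube_one r
  have e1 : ι q * ι w ^ 2 * (ι w * ρ) = ι q * ρ := by linear_combination (ι q * ρ) * h3
  have e2 : ι q' * ι w ^ 2 * (ι w * ρ) = ι q' * ρ := by linear_combination (ι q' * ρ) * h3
  have e3 : ι q * ι w * (ι w * ρ) = ι q * ι w ^ 2 * ρ := by ring
  have e4 : ι q' * ι w * (ι w * ρ) = ι q' * ι w ^ 2 * ρ := by ring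
  have hn := nrm ι p q hρ
  have hn' := nrm ι p' q' hρ
  have heq : ι (p ^ 3 + x * q ^ 3) = ι b * ι (p' ^ 3 + x * q' ^ 3) := by
    rw [hsol.eq, map_mul]
  unfold aDE at hD hD' hA hA'
  unfold aNE at hN hA hA'
  rw [e2, e3] at hD'
  rw [e1, e2, e3, e4] at hA'
  rw [← hn, ← hn'] at heq
  obtain ⟨d1, d2'⟩ := mul_ne_zero_iff.1 hD
  obtain ⟨d2, d1'⟩ := mul_ne_zero_iff.1 hN
  obtain ⟨-, d0'⟩ := mul_ne_zero_iff.1 hD'
  have hA0 : A ≠ 0 := by
    rintro rfl
    apply hN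
    rw [← hA]
    ring
  have hθ : (A' * (ι p + ι q * ι w ^ 2 * ρ) / (A * (ι p' + ι q' * ι w ^ 2 * ρ))) ^ 3 = ι b := by
    rw [div_pow, div_eq_iff (pow_ne_zero _ (mul_ne_zero hA0 d2')), mul_pow, mul_pow]
    apply mul_right_cancel₀ (mul_ne_zero d1 d0')
    generalize ι p + ι q * ρ = l0 at *
    generalize ι p' + ι q' * ρ = l0' at *
    generalize ι p + ι q * ι w * ρ = l1 at *
    generalize ι p' + ι q' * ι w * ρ = l1' at *
    generalize ι p + ι q * ι w ^ 2 * ρ = l2 at *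
    generalize ι p' + ι q' * ι w ^ 2 * ρ = l2' at *
    linear_combination (l2 ^ 2 * l1) * hA' + (l2 * l2') * heq - (ι b * l2' ^ 2 * l0') * hA
  have hfix := hb _ hθ
  simp only [map_div₀, map_mul, map_add, map_pow, fix_ι hh, hhρ, hc] at hfix
  have hc0 : c ≠ 0 := by
    rintro rfl
    rw [zero_mul] at hc
    exact hA0 ((map_eq_zero_iff h h.injective).1 hc)
  rw [div_eq_div_iff (mul_ne_zero (mul_ne_zero hc0 hA0) d2') (mul_ne_zero hA0 d2')] at hfix
  apply mul_right_cancel₀ (mul_ne_zero d2 (mul_ne_zero hA0 d2'))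
  linear_combination hfix

/-- The square of an automorphism which inverts `ω`. -/
theorem sq_ω {g : L ≃ₐ[ℚ] L} (hg : g (ι w) = ι w ^ 2) : (g * g) (ι w) = ι w := by
  have h3 := cube_one (rel ι)
  change g (g (ι w)) = ι w
  rw [hg, map_pow, hg]
  linear_combination (ι w) * h3

end GTK

open _root_.Pool.Agent.PTK.GTK in
open Pool.Agent.PT.GT (E E_pow E_add E_zero E_inj of_cube map_ω cube_one ω_ne_zero E_ne_zero
  map_E') in
/-- GTK: existence, uniqueness and properties of `t`. -/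
theorem GTK_thm : Stmt_GTK := by
  intro s x b p q p' q' f L _ _ ζ ι hS hG j
  have r := rel ι
  have h3 := cube_one r
  have hA0 : ∀ (ρ A : L), ρ ^ 3 = ι x →
      A ^ 3 * aDE ι (p j) (q j) (p' j) (q' j) ρ = aNE ι (p j) (q j) (p' j) (q' j) ρ → A ≠ 0 := by
    rintro ρ A hρ hA rfl
    apply (hG.D j ρ hρ).2
    rw [← hA]
    ring
  -- one witness is enough
  have all : ∀ (h : L ≃ₐ[ℚ] L) (t : ZMod 3) (ρ₀ A₀ : L), h (ι w) = ι w →
      (∀ ρ : L, ρ ^ 3 = ι x → h ρ = ρ) → (∀ θ : L, θ ^ 3 = ι (b j) → h θ = θ) →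
      ρ₀ ^ 3 = ι x →
      A₀ ^ 3 * aDE ι (p j) (q j) (p' j) (q' j) ρ₀ = aNE ι (p j) (q j) (p' j) (q' j) ρ₀ →
      h A₀ = E (ι w) t * A₀ → ∀ ρ A : L, ρ ^ 3 = ι x →
      A ^ 3 * aDE ι (p j) (q j) (p' j) (q' j) ρ = aNE ι (p j) (q j) (p' j) (q' j) ρ →
      h A = E (ι w) t * A := by
    intro h t ρ₀ A₀ hh hx hb hρ₀ hA₀ ht
    have hpow : ∀ n : ℕ, (ι w ^ n * ρ₀) ^ 3 = ι x := by
      intro n
      rw [mul_pow, hρ₀, ← pow_mul, mul_comm n 3, pow_mul, h3, one_pow, one_mul]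
    have key : ∀ n : ℕ, ∀ A : L,
        A ^ 3 * aDE ι (p j) (q j) (p' j) (q' j) (ι w ^ n * ρ₀) =
          aNE ι (p j) (q j) (p' j) (q' j) (ι w ^ n * ρ₀) → h A = E (ι w) t * A := by
      intro n
      induction n with
      | zero =>
        intro A hA
        rw [pow_zero, one_mul] at hA
        have hD := (hG.D j ρ₀ hρ₀).1
        have e2 : A ^ 3 = A₀ ^ 3 := mul_right_cancel₀ hD (hA.trans hA₀.symm)
        obtain ⟨k, hk⟩ := of_cube r e2
        rw [hk, map_mul, map_E' hh, ht]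
        ring
      | succ n ih =>
        intro A' hA'
        obtain ⟨A, hA⟩ := hG.A j _ (hpow n)
        have e1 : ι w ^ (n + 1) * ρ₀ = ι w * (ι w ^ n * ρ₀) := by rw [pow_succ]; ring
        have hD' := (hG.D j _ (hpow (n + 1))).1
        rw [e1] at hA' hD'
        exact step hh (hS.sol j) hb (hpow n) (hx _ (hpow n)) (hG.D j _ (hpow n)).1
          (hG.D j _ (hpow n)).2 hD' hA hA' (ih A hA)
    intro ρ A hρ hA
    obtain ⟨k, hk⟩ := of_cube r (hρ.trans hρ₀.symm)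
    rw [hk] at hA
    exact key k.val A hA
  obtain ⟨ρ₀, hρ₀⟩ := hG.rx
  obtain ⟨A₀, hA₀⟩ := hG.A j ρ₀ hρ₀
  have hA₀0 := hA0 ρ₀ A₀ hρ₀ hA₀
  -- conjugation by an automorphism which fixes `ω`
  have conjA : ∀ (g τ : L ≃ₐ[ℚ] L) (t : ZMod 3), τ (ι w) = ι w → FxK x b ι g →
      IsTK x p q p' q' ι g j t →
      FxK x b ι (τ * g * τ⁻¹) ∧ IsTK x p q p' q' ι (τ * g * τ⁻¹) j t := by
    intro g τ t hτ hF hT
    have hτ' : τ⁻¹ (ι w) = ι w := by
      have h5 : τ⁻¹ (τ (ι w)) = ι w := τ.symm_apply_apply _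
      rwa [hτ] at h5
    have hττ : ∀ y : L, τ (τ⁻¹ y) = y := fun y => τ.apply_symm_apply y
    have hτt : ∀ y : L, τ⁻¹ (τ y) = y := fun y => τ.symm_apply_apply y
    have c1 : ∀ y : L, (τ * g * τ⁻¹) ((τ * g * τ⁻¹) y) = τ (g (g (τ⁻¹ y))) := by
      intro y
      change τ (g (τ⁻¹ (τ (g (τ⁻¹ y))))) = _
      rw [hτt]
    refine ⟨⟨?_, ?_⟩, ?_⟩
    · intro ρ hρ
      rw [c1, hF.1 (τ⁻¹ ρ) (by rw [← map_pow, hρ, fix_ι hτ']), hττ]
    · intro i ρ hρ
      rw [c1, hF.2 i (τ⁻¹ ρ) (by rw [← map_pow, hρ, fix_ι hτ']), hττ]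
    · intro ρ A hρ hA
      have e1 := congrArg (τ⁻¹ : L ≃ₐ[ℚ] L) hA
      rw [map_mul, map_pow, map_aD hτ', map_aN hτ'] at e1
      rw [c1, hT (τ⁻¹ ρ) (τ⁻¹ A) (by rw [← map_pow, hρ, fix_ι hτ']) e1, map_mul, map_pow, hτ, hττ]
  refine ⟨?_, ?_, ?_⟩
  · intro g hg hF
    have hh : (g * g) (ι w) = ι w := sq_ω hg
    have e1 := congrArg (g * g : L ≃ₐ[ℚ] L) hA₀
    rw [map_mul, map_pow, map_aD hh, map_aN hh] at e1
    have e0 : (g * g) ρ₀ = ρ₀ := hF.1 ρ₀ hρ₀
    rw [e0] at e1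
    have e2 : ((g * g) A₀) ^ 3 = A₀ ^ 3 :=
      mul_right_cancel₀ (hG.D j ρ₀ hρ₀).1 (e1.trans hA₀.symm)
    obtain ⟨t, ht⟩ := of_cube r e2
    refine ⟨t, ?_, ?_⟩
    · intro ρ A hρ hA
      exact all (g * g) t ρ₀ A₀ hh hF.1 (hF.2 j) hρ₀ hA₀ ht ρ A hρ hA
    · intro t' ht'
      have h5 : (g * g) A₀ = E (ι w) t' * A₀ := ht' ρ₀ A₀ hρ₀ hA₀
      rw [ht] at h5
      exact (E_inj r (mul_right_cancel₀ hA₀0 h5)).symm
  · intro g τ t hg hF hT
    rcases map_ω r τ with hτ | hτ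
    · exact conjA g τ t hτ hF hT
    · have hgi : g⁻¹ (ι w) = ι w ^ 2 := by
        have h5 : g⁻¹ (g (ι w ^ 2)) = ι w ^ 2 := g.symm_apply_apply _
        have h6 : g (ι w ^ 2) = ι w := by
          rw [map_pow, hg]
          linear_combination (ι w) * h3
        rwa [h6] at h5
      have hτ' : (τ * g⁻¹) (ι w) = ι w := by
        change τ (g⁻¹ (ι w)) = ι w
        rw [hgi, map_pow, hτ]
        linear_combination (ι w) * h3
      have h7 := conjA g (τ * g⁻¹) t hτ' hF hT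
      have h8 : (τ * g⁻¹) * g * (τ * g⁻¹)⁻¹ = τ * g * τ⁻¹ := by group
      rwa [h8] at h7
  · intro g t k hg hF _ hT
    have hh : (g * g) (ι w) = ι w := sq_ω hg
    have hsq : ∀ (n : ℕ) (y : L), (g ^ n) ((g ^ n) y) = ((g * g) ^ n) y := by
      intro n y
      change (g ^ n * g ^ n) y = _
      rw [← (Commute.refl g).mul_pow]
    have hfix : ∀ (n : ℕ) (y : L), g (g y) = y → ((g * g) ^ n) y = y := by
      intro n y hy
      induction n with
      | zero => rfl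
      | succ n ih =>
        rw [pow_succ']
        change g (g (((g * g) ^ n) y)) = y
        rw [ih, hy]
    refine ⟨⟨?_, ?_⟩, ?_⟩
    · intro ρ hρ
      rw [hsq, hfix _ _ (hF.1 ρ hρ)]
    · intro i ρ hρ
      rw [hsq, hfix _ _ (hF.2 i ρ hρ)]
    · intro ρ A hρ hA
      have h5 : ∀ n : ℕ, ((g * g) ^ n) A = E (ι w) ((n : ZMod 3) * t) * A := by
        intro n
        induction n with
        | zero =>
          rw [Nat.cast_zero, zero_mul, E_zero, one_mul]
          rfl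
        | succ n ih =>
          rw [pow_succ']
          change (g * g) (((g * g) ^ n) A) = _
          rw [ih, map_mul, map_E' hh]
          have h6 : (g * g) A = E (ι w) t * A := hT ρ A hρ hA
          rw [h6, Nat.cast_succ, add_mul, one_mul, E_add r]
          ring
      rw [hsq, h5]
      rfl

end Pool.Agent.PTK


end

section

/-!
# GTU (helper9): existence, uniqueness and properties of `t` for `Q = 1 (mod 3)`
-/

set_option autoImplicit false
set_option linter.unusedSectionVars false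

open NumberField IsDedekindDomain Finset
open scoped nonZeroDivisors Pointwise

namespace Pool.Agent.PTK

open Pool.Agent.Lib_helper18 Pool.Agent.Lib_helper18.Eis Pool.Agent.Lib_helper84.Cub
open Pool.Agent.PT Pool.Agent.PTE Pool.Agent.PT3 Pool.Agent.PTL Pool.Agent.PTN

namespace GTU

open Pool.Agent.PT.GT (E E_pow E_add E_zero E_inj of_cube map_ω cube_one ω_ne_zero E_ne_zero map_E')
open GTK (rel ι_eq fix_ι map_aD map_aN)

variable {L : Type} [Field L] [NumberField L] {ι : Eis →+* L}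

/-- An automorphism with `σ ω = ω²` acts on the image of `Z[w]` as the conjugation. -/
theorem conj_ι {h : L ≃ₐ[ℚ] L} (hh : h (ι w) = ι w ^ 2) (a : Eis) : h (ι a) = ι (conj a) := by
  rw [ι_eq ι a, ι_eq ι (conj a), map_add, map_mul, map_intCast, map_intCast, hh, conj_re, conj_im]
  push_cast
  linear_combination (a.im : L) * rel ι

theorem inv_ω {τ : L ≃ₐ[ℚ] L} (hτ : τ (ι w) = ι w) : τ⁻¹ (ι w) = ι w := by
  have h5 : τ⁻¹ (τ (ι w)) = ι w := τ.symm_apply_apply _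
  rwa [hτ] at h5

theorem inv_ω2 {τ : L ≃ₐ[ℚ] L} (hτ : τ (ι w) = ι w ^ 2) : τ⁻¹ (ι w) = ι w ^ 2 := by
  have h3 := cube_one (rel ι)
  have h5 : τ⁻¹ (τ (ι w ^ 2)) = ι w ^ 2 := τ.symm_apply_apply _
  have h6 : τ (ι w ^ 2) = ι w := by
    rw [map_pow, hτ]
    linear_combination (ι w) * h3
  rwa [h6] at h5

/-- `g` fixes the conjugates of the roots of `z`. -/
theorem fix_root {g τ : L ≃ₐ[ℚ] L} (hg : g (ι w) = ι w) {z : Eis}
    (hz : ∃ T : Eis, z * conj z = T ^ 3) (hfix : ∀ ρ : L, ρ ^ 3 = ι z → g ρ = ρ) {ρ : L}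
    (hρ : ρ ^ 3 = ι z) : g (τ⁻¹ ρ) = τ⁻¹ ρ := by
  have r := rel ι
  rcases map_ω r τ with hτ | hτ
  · exact hfix _ (by rw [← map_pow, hρ, fix_ι (inv_ω hτ)])
  · obtain ⟨T, hT⟩ := hz
    by_cases h0 : ρ = 0
    · rw [h0, map_zero, map_zero]
    · have h1 : (τ⁻¹ ρ * ρ) ^ 3 = (ι T) ^ 3 := by
        rw [mul_pow, ← map_pow, hρ, conj_ι (inv_ω2 hτ), ← map_mul, ← map_pow, ← hT, mul_comm]
      obtain ⟨k, hk⟩ := of_cube r h1
      have h2 : g (τ⁻¹ ρ * ρ) = τ⁻¹ ρ * ρ := by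
        rw [hk, map_mul, map_E' hg, fix_ι hg]
      rw [map_mul, hfix ρ hρ] at h2
      exact mul_right_cancel₀ h0 h2

end GTU

open _root_.Pool.Agent.PTK.GTU in
open GTK (rel fix_ι map_aD map_aN step) in
open Pool.Agent.PT.GT (E E_pow E_add E_zero E_inj of_cube map_ω cube_one ω_ne_zero E_ne_zero
  map_E') in
/-- GTU: existence, uniqueness and properties of `t`. -/
theorem GTU_thm : Stmt_GTU := by
  intro k x u P Q P' Q' f L _ _ ζ ι hS hG
  have r := rel ι
  have h3 := cube_one r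
  refine ⟨?_, ?_, ?_⟩
  · intro g τ hg hF
    have hττ : ∀ y : L, τ (τ⁻¹ y) = y := fun y => τ.apply_symm_apply y
    refine ⟨?_, ?_⟩
    · intro ρ hρ
      change τ (g (τ⁻¹ ρ)) = ρ
      rw [fix_root hg hS.cx hF.1 hρ, hττ]
    · intro j ρ hρ
      change τ (g (τ⁻¹ ρ)) = ρ
      rw [fix_root hg (hS.cb j) (hF.2 j) hρ, hττ]
  · intro g l hF
    have hfix : ∀ y : L, g y = y → (g ^ l) y = y := by
      intro y hy
      induction l with
      | zero => rfl
      | succ n ih =>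
        rw [pow_succ']
        change g ((g ^ n) y) = y
        rw [ih, hy]
    exact ⟨fun ρ hρ => hfix _ (hF.1 ρ hρ), fun j ρ hρ => hfix _ (hF.2 j ρ hρ)⟩
  intro j
  have hA0 : ∀ (ρ A : L), ρ ^ 3 = ι x →
      A ^ 3 * aDE ι (P j) (Q j) (P' j) (Q' j) ρ = aNE ι (P j) (Q j) (P' j) (Q' j) ρ → A ≠ 0 := by
    rintro ρ A hρ hA rfl
    apply (hG.D j ρ hρ).2
    rw [← hA]
    ring
  -- one witness is enough
  have all : ∀ (h : L ≃ₐ[ℚ] L) (t : ZMod 3) (ρ₀ A₀ : L), h (ι w) = ι w →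
      (∀ ρ : L, ρ ^ 3 = ι x → h ρ = ρ) → (∀ θ : L, θ ^ 3 = ι (u j) → h θ = θ) →
      ρ₀ ^ 3 = ι x →
      A₀ ^ 3 * aDE ι (P j) (Q j) (P' j) (Q' j) ρ₀ = aNE ι (P j) (Q j) (P' j) (Q' j) ρ₀ →
      h A₀ = E (ι w) t * A₀ → ∀ ρ A : L, ρ ^ 3 = ι x →
      A ^ 3 * aDE ι (P j) (Q j) (P' j) (Q' j) ρ = aNE ι (P j) (Q j) (P' j) (Q' j) ρ →
      h A = E (ι w) t * A := by
    intro h t ρ₀ A₀ hh hx hb hρ₀ hA₀ ht
    have hpow : ∀ n : ℕ, (ι w ^ n * ρ₀) ^ 3 = ι x := by
      intro n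
      rw [mul_pow, hρ₀, ← pow_mul, mul_comm n 3, pow_mul, h3, one_pow, one_mul]
    have key : ∀ n : ℕ, ∀ A : L,
        A ^ 3 * aDE ι (P j) (Q j) (P' j) (Q' j) (ι w ^ n * ρ₀) =
          aNE ι (P j) (Q j) (P' j) (Q' j) (ι w ^ n * ρ₀) → h A = E (ι w) t * A := by
      intro n
      induction n with
      | zero =>
        intro A hA
        rw [pow_zero, one_mul] at hA
        have hD := (hG.D j ρ₀ hρ₀).1
        have e2 : A ^ 3 = A₀ ^ 3 := mul_right_cancel₀ hD (hA.trans hA₀.symm)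
        obtain ⟨k, hk⟩ := of_cube r e2
        rw [hk, map_mul, map_E' hh, ht]
        ring
      | succ n ih =>
        intro A' hA'
        obtain ⟨A, hA⟩ := hG.A j _ (hpow n)
        have e1 : ι w ^ (n + 1) * ρ₀ = ι w * (ι w ^ n * ρ₀) := by rw [pow_succ]; ring
        have hD' := (hG.D j _ (hpow (n + 1))).1
        rw [e1] at hA' hD'
        exact step hh (hS.sol j) hb (hpow n) (hx _ (hpow n)) (hG.D j _ (hpow n)).1
          (hG.D j _ (hpow n)).2 hD' hA hA' (ih A hA)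
    intro ρ A hρ hA
    obtain ⟨k, hk⟩ := of_cube r (hρ.trans hρ₀.symm)
    rw [hk] at hA
    exact key k.val A hA
  obtain ⟨ρ₀, hρ₀⟩ := hG.rx
  obtain ⟨A₀, hA₀⟩ := hG.A j ρ₀ hρ₀
  have hA₀0 := hA0 ρ₀ A₀ hρ₀ hA₀
  refine ⟨?_, ?_, ?_⟩
  · intro g hg hF
    have e1 := congrArg g hA₀
    rw [map_mul, map_pow, map_aD hg, map_aN hg, hF.1 ρ₀ hρ₀] at e1
    have e2 : (g A₀) ^ 3 = A₀ ^ 3 :=
      mul_right_cancel₀ (hG.D j ρ₀ hρ₀).1 (e1.trans hA₀.symm)
    obtain ⟨t, ht⟩ := of_cube r e2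
    refine ⟨t, ?_, ?_⟩
    · intro ρ A hPA
      exact all g t ρ₀ A₀ hg hF.1 (hF.2 j) hρ₀ hA₀ ht ρ A hPA.1 hPA.2
    · intro t' ht'
      have h5 : g A₀ = E (ι w) t' * A₀ := ht' ρ₀ A₀ ⟨hρ₀, hA₀⟩
      rw [ht] at h5
      exact (E_inj r (mul_right_cancel₀ hA₀0 h5)).symm
  · intro g τ t hg hF hτ hT
    have hτ' := inv_ω hτ
    have hττ : ∀ y : L, τ (τ⁻¹ y) = y := fun y => τ.apply_symm_apply y
    intro ρ A hPA
    obtain ⟨hρ, hA⟩ := hPA
    have e1 := congrArg (τ⁻¹ : L ≃ₐ[ℚ] L) hA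
    rw [map_mul, map_pow, map_aD hτ', map_aN hτ'] at e1
    change τ (g (τ⁻¹ A)) = _
    rw [hT (τ⁻¹ ρ) (τ⁻¹ A) ⟨by rw [← map_pow, hρ, fix_ι hτ'], e1⟩, map_mul, map_pow, hτ, hττ]
  · intro g t l hg hT ρ A hPA
    have h5 : ∀ n : ℕ, (g ^ n) A = E (ι w) ((n : ZMod 3) * t) * A := by
      intro n
      induction n with
      | zero =>
        rw [Nat.cast_zero, zero_mul, E_zero, one_mul]
        rfl
      | succ n ih =>
        rw [pow_succ']
        change g ((g ^ n) A) = _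
        rw [ih, map_mul, map_E' hg]
        have h6 : g A = E (ι w) t * A := hT ρ A hPA
        rw [h6, Nat.cast_succ, add_mul, one_mul, E_add r]
        ring
    exact h5 l

end Pool.Agent.PTK


end

section

/-!
# GKK: Kummer theory over `K = Q(w)`
-/

set_option autoImplicit false

open NumberField IsDedekindDomain Finset
open scoped nonZeroDivisors Pointwise

namespace Pool.Agent.PTK

open Pool.Agent.Lib_helper18 Pool.Agent.Lib_helper18.Eis Pool.Agent.Lib_helper84.Cub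
open Pool.Agent.PT Pool.Agent.PTL

namespace GKK

variable {L : Type} [Field L] [NumberField L] {ι : Eis →+* L}

/-- `ι` is injective. -/
theorem inj (ι : Eis →+* L) : Function.Injective ι := by
  rw [injective_iff_map_eq_zero]
  intro a ha
  have h1 : ι (a * conj a) = 0 := by rw [map_mul, ha, zero_mul]
  rw [mul_conj, map_intCast] at h1
  have h2 : a.norm = 0 := by exact_mod_cast h1
  exact norm_eq_zero.1 h2

theorem mem_F (ι : Eis →+* L) (a : Eis) : ι a ∈ IntermediateField.adjoin ℚ {ι w} := by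
  rw [GTK.ι_eq ι a]
  refine add_mem ?_ (mul_mem ?_ (IntermediateField.mem_adjoin_simple_self ℚ (ι w)))
  · exact intCast_mem _ _
  · exact intCast_mem _ _

/-- The elements of `ℚ(ω)` are fractions. -/
theorem frac (ι : Eis →+* L) {y : L} (hy : y ∈ IntermediateField.adjoin ℚ {ι w}) :
    ∃ u v : Eis, v ≠ 0 ∧ y * ι v = ι u := by
  have hi := inj ι
  induction hy using IntermediateField.adjoin_induction with
  | mem x hx =>
    rw [Set.mem_singleton_iff] at hx
    exact ⟨w, 1, one_ne_zero, by rw [hx, map_one, mul_one]⟩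
  | algebraMap q =>
    refine ⟨(q.num : Eis), (q.den : Eis), ?_, ?_⟩
    · intro h
      have h1 := congrArg Eis.re h
      rw [natCast_re, zero_re] at h1
      exact q.den_nz (by exact_mod_cast h1)
    · rw [map_intCast, map_natCast]
      have h1 : (q : ℚ) * q.den = q.num := Rat.mul_den_eq_num q
      have h2 := congrArg (algebraMap ℚ L) h1
      rw [map_mul, map_natCast, map_intCast] at h2
      exact h2
  | add x y _ _ hx hy =>
    obtain ⟨u, v, hv, h1⟩ := hx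
    obtain ⟨u', v', hv', h2⟩ := hy
    refine ⟨u * v' + u' * v, v * v', mul_ne_zero hv hv', ?_⟩
    rw [map_mul, map_add, map_mul, map_mul]
    linear_combination ι v' * h1 + ι v * h2
  | inv x _ hx =>
    obtain ⟨u, v, hv, h1⟩ := hx
    by_cases hx0 : x = 0
    · exact ⟨0, 1, one_ne_zero, by rw [hx0, inv_zero, zero_mul, map_zero]⟩
    · refine ⟨v, u, ?_, ?_⟩
      · rintro rfl
        rw [map_zero] at h1
        rcases mul_eq_zero.1 h1 with h2 | h2
        · exact hx0 h2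
        · exact hv (hi (by rw [h2, map_zero]))
      · rw [← h1, ← mul_assoc, inv_mul_cancel₀ hx0, one_mul]
  | mul x y _ _ hx hy =>
    obtain ⟨u, v, hv, h1⟩ := hx
    obtain ⟨u', v', hv', h2⟩ := hy
    refine ⟨u * u', v * v', mul_ne_zero hv hv', ?_⟩
    rw [map_mul, map_mul, ← h1, ← h2]
    ring

/-- An element of `Z[w]` which is a cube in `ℚ(ω)` is a cube. -/
theorem cube_of (ι : Eis →+* L) {β : L} (hβ : β ∈ IntermediateField.adjoin ℚ {ι w}) {a : Eis}
    (h : ι a = β ^ 3) : ∃ t : Eis, t ^ 3 = a := by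
  obtain ⟨u, v, hv, h1⟩ := frac ι hβ
  have h2 : u ^ 3 = v ^ 3 * a := by
    apply inj ι
    rw [map_pow, ← h1, map_mul, map_pow, h]
    ring
  obtain ⟨t, rfl⟩ := (IsIntegrallyClosed.pow_dvd_pow_iff (R := Eis) three_ne_zero).1
    (⟨a, h2⟩ : v ^ 3 ∣ u ^ 3)
  refine ⟨t, ?_⟩
  apply mul_left_cancel₀ (pow_ne_zero 3 hv)
  rw [← h2]
  ring

end GKK

open _root_.Pool.Agent.PTK.GKK in
/-- GKK: Kummer theory over `K`. -/
theorem GKK_thm (hKUM : KUM) : Stmt_GKK := by
  intro s x b p q p' q' f L _ _ ζ ι hS hG a₀ a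
  have hω := GTK.rel ι
  have := hG.gal
  have hx0 : x ≠ 0 := by
    rintro rfl
    refine hS.ind 1 (fun _ => 0) (Or.inl (by norm_num)) ⟨0, ?_⟩
    rw [pow_one, zero_mul]
    ring
  have hb0 : ∀ j, b j ≠ 0 := by
    intro j hj
    refine hS.ind 0 (fun l => if l = j then 1 else 0) (Or.inr ⟨j, by simp⟩) ⟨0, ?_⟩
    rw [zero_pow three_ne_zero, pow_zero, one_mul]
    symm
    exact Finset.prod_eq_zero (Finset.mem_univ j) (by simp [hj])
  obtain ⟨θ₀, hθ₀⟩ := hG.rx
  choose θ hθ using hG.rb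
  let F := IntermediateField.adjoin ℚ {ι w}
  let c : Option (Fin s) → Eis := fun i => i.elim x b
  have hc0 : ∀ i, c i ≠ 0 := by
    rintro (_ | j)
    · exact hx0
    · exact hb0 j
  let A : Option (Fin s) → L := fun i => i.elim θ₀ θ
  have hA : ∀ i, A i ^ 3 = ι (c i) := by
    rintro (_ | j)
    · exact hθ₀
    · exact hθ j
  obtain ⟨g, hg⟩ := hKUM F L ⟨ι w, mem_F ι w⟩ (Option (Fin s)) (fun i => ⟨ι (c i), mem_F ι _⟩) A
    (by
      apply Subtype.ext
      push_cast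
      exact hω)
    (by
      intro i h
      have h1 : ι (c i) = 0 := congrArg Subtype.val h
      exact hc0 i (inj ι (by rw [h1, map_zero])))
    (fun i => hA i)
    (by
      rintro n ⟨β, hβ⟩
      by_contra hcon
      push Not at hcon
      have h1 : ι (∏ i, c i ^ n i) = (β : L) ^ 3 := by
        have h2 := congrArg (algebraMap F L) hβ
        rw [map_pow, map_prod] at h2
        rw [map_prod]
        refine Eq.trans ?_ h2
        refine Finset.prod_congr rfl fun i _ => ?_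
        rw [map_pow, map_pow]
        rfl
      obtain ⟨t, ht⟩ := cube_of ι β.2 h1
      rw [Fintype.prod_option] at ht
      refine hS.ind (n none) (fun j => n (some j)) ?_ ⟨t, ht⟩
      obtain ⟨i, hi⟩ := hcon
      rcases i with _ | j
      · exact Or.inl hi
      · exact Or.inr ⟨j, hi⟩)
    (fun i => i.elim a₀ a)
  have hgω : g (ι w) = ι w := g.commutes (⟨ι w, mem_F ι w⟩ : F)
  have hroot : ∀ (i : Option (Fin s)) (ρ : L), ρ ^ 3 = ι (c i) →
      g ρ = ι w ^ (i.elim a₀ a : ZMod 3).val * ρ := by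
    intro i ρ hρ
    obtain ⟨k, hk⟩ := Pool.Agent.PT.GT.of_cube hω (hρ.trans (hA i).symm)
    have h2 := hg i
    change g (A i) = ι w ^ (i.elim a₀ a : ZMod 3).val * A i at h2
    rw [hk, map_mul, h2, Pool.Agent.PT.GT.E, map_pow, hgω]
    ring
  refine ⟨g.restrictScalars ℚ, hgω, fun ρ hρ => ?_, fun j ρ hρ => ?_⟩
  · exact hroot none ρ hρ
  · exact hroot (some j) ρ hρ

end Pool.Agent.PTK


end

section

/-!
# JKU: Kummer theory over `K = Q(w)` for all classes together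
-/

set_option autoImplicit false

open NumberField IsDedekindDomain Finset
open scoped nonZeroDivisors Pointwise

namespace Pool.Agent.PTK

open Pool.Agent.Lib_helper18 Pool.Agent.Lib_helper18.Eis Pool.Agent.Lib_helper84.Cub
open Pool.Agent.PT Pool.Agent.PTE Pool.Agent.PT3 Pool.Agent.PTL Pool.Agent.PTN

namespace JKU

/-- A rational integer whose square is a cube in `Eis` is a cube. -/
theorem cube_int {D : ℤ} (hD : D ≠ 0) {r : Eis} (h : r ^ 3 = (D : Eis) ^ 2) :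
    ∃ m : ℤ, m ^ 3 = D := by
  have h1 : r.norm ^ 3 = (D ^ 2) ^ 2 := by
    have h2 := congrArg Eis.norm h
    rw [norm_pow, norm_pow, norm_intCast] at h2
    exact h2
  have h3 : D ^ 3 ∣ r.norm ^ 3 := ⟨D, by rw [h1]; ring⟩
  have h4 : D ∣ r.norm := (Int.pow_dvd_pow_iff three_ne_zero).1 h3
  obtain ⟨m, hm⟩ := h4
  refine ⟨m, ?_⟩
  rw [hm] at h1
  have h5 : D ^ 3 * m ^ 3 = D ^ 3 * D := by rw [← mul_pow, h1]; ring
  exact mul_left_cancel₀ (pow_ne_zero 3 hD) h5

theorem cast_zero {n : ℤ} (h : (n : Eis) = 0) : n = 0 := by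
  have h1 := congrArg Eis.re h
  rw [intCast_re, zero_re] at h1
  exact h1

/-- Divisibility of cubes. -/
theorem dvd_cube {a b : Eis} (h : a ^ 3 ∣ b ^ 3) : a ∣ b :=
  (IsIntegrallyClosed.pow_dvd_pow_iff (R := Eis) three_ne_zero).1 h

theorem x_ne {k : ℕ} {x : Eis} {u P Q P' Q' : Fin k → Eis} (hK : SysK x u P Q P' Q') :
    x ≠ 0 := by
  rintro rfl
  refine hK.ind 1 (fun _ => 0) (Or.inl (by norm_num)) ⟨0, ?_⟩
  rw [pow_one, zero_mul]
  ring

theorem u_ne {k : ℕ} {x : Eis} {u P Q P' Q' : Fin k → Eis} (hK : SysK x u P Q P' Q')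
    (j : Fin k) : u j ≠ 0 := by
  intro hj
  refine hK.ind 0 (fun l => if l = j then 1 else 0) (Or.inr ⟨j, by simp⟩) ⟨0, ?_⟩
  rw [zero_pow three_ne_zero, pow_zero, one_mul]
  symm
  exact Finset.prod_eq_zero (Finset.mem_univ j) (by simp [hj])

theorem b_ne {s : ℕ} {b : Fin s → ℤ} {p q p' q' : Fin s → Fin s → ℤ} (hG : SysG b p q p' q')
    (j : Fin s) : b j ≠ 0 := by
  intro hj
  refine hG.ind (fun l => if l = j then 1 else 0) ⟨j, by simp⟩ ⟨0, ?_⟩
  rw [zero_pow three_ne_zero]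
  symm
  exact Finset.prod_eq_zero (Finset.mem_univ j) (by simp [hj])

/-- Independence of all classes. -/
theorem indep {s k : ℕ} {b : Fin s → ℤ} {p q p' q' : Fin s → Fin s → ℤ}
    {x : Eis} {u P Q P' Q' : Fin k → Eis} (hG : SysG b p q p' q') (hK : SysK x u P Q P' Q')
    (c₀ : ℕ) (c : Fin k → ℕ) (d : Fin s → ℕ) (t : Eis)
    (h : t ^ 3 = (x ^ c₀ * ∏ j, u j ^ c j) * ∏ i, (b i : Eis) ^ d i) :
    3 ∣ c₀ ∧ (∀ j, 3 ∣ c j) ∧ ∀ i, 3 ∣ d i := by
  have hx0 : x ≠ 0 := x_ne hK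
  have hu0 : ∀ j, u j ≠ 0 := u_ne hK
  have hb0 : ∀ i, b i ≠ 0 := b_ne hG
  obtain ⟨tx, htx⟩ := hK.cx
  choose tu htu using hK.cb
  obtain ⟨Z, hZ⟩ : ∃ Z : Eis, Z = x ^ c₀ * ∏ j, u j ^ c j := ⟨_, rfl⟩
  obtain ⟨D, hD⟩ : ∃ D : ℤ, D = ∏ i, b i ^ d i := ⟨_, rfl⟩
  obtain ⟨t₁, ht₁⟩ : ∃ t₁ : Eis, t₁ = tx ^ c₀ * ∏ j, tu j ^ c j := ⟨_, rfl⟩
  have hDE : (∏ i, (b i : Eis) ^ d i) = (D : Eis) := by
    rw [hD, Int.cast_prod]
    exact Finset.prod_congr rfl fun i _ => (Int.cast_pow _ _).symm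
  have hD0 : D ≠ 0 := by
    rw [hD]
    exact Finset.prod_ne_zero_iff.2 fun i _ => pow_ne_zero _ (hb0 i)
  have hZ0 : Z ≠ 0 := by
    rw [hZ]
    exact mul_ne_zero (pow_ne_zero _ hx0)
      (Finset.prod_ne_zero_iff.2 fun i _ => pow_ne_zero _ (hu0 i))
  rw [hDE, ← hZ] at h
  have hZZ : Z * conj Z = t₁ ^ 3 := by
    rw [hZ, ht₁, map_mul, map_pow, map_prod]
    have e1 : ∀ j, conj (u j ^ c j) = conj (u j) ^ c j := fun j => map_pow _ _ _
    calc (x ^ c₀ * ∏ j, u j ^ c j) * (conj x ^ c₀ * ∏ j, conj (u j ^ c j))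
        = (x * conj x) ^ c₀ * ∏ j, (u j * conj (u j)) ^ c j := by
          simp only [e1, mul_pow, Finset.prod_mul_distrib]
          ring
      _ = (tx ^ 3) ^ c₀ * ∏ j, (tu j ^ 3) ^ c j := by
          rw [htx]
          congr 1
          exact Finset.prod_congr rfl fun j _ => by rw [htu j]
      _ = (tx ^ c₀ * ∏ j, tu j ^ c j) ^ 3 := by
          rw [mul_pow, ← Finset.prod_pow]
          congr 1
          · rw [← pow_mul, ← pow_mul, mul_comm]
          · exact Finset.prod_congr rfl fun j _ => by rw [← pow_mul, ← pow_mul, mul_comm]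
  have ht₁0 : t₁ ≠ 0 := by
    rintro rfl
    rw [zero_pow three_ne_zero, mul_conj] at hZZ
    have h2 : Z.norm = 0 := cast_zero hZZ
    exact hZ0 (norm_eq_zero.1 h2)
  have hc : conj t ^ 3 = conj Z * D := by
    rw [← map_pow, h, map_mul, conj_intCast]
  have hNN : (t * conj t) ^ 3 = t₁ ^ 3 * (D : Eis) ^ 2 := by
    rw [mul_pow, h, hc, ← hZZ]
    ring
  obtain ⟨r, hr⟩ := dvd_cube (⟨_, hNN⟩ : t₁ ^ 3 ∣ (t * conj t) ^ 3)
  have hr3 : r ^ 3 = (D : Eis) ^ 2 := by
    apply mul_left_cancel₀ (pow_ne_zero 3 ht₁0)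
    rw [← hNN, hr]
    ring
  obtain ⟨m, hm⟩ := cube_int hD0 hr3
  have hd : ∀ i, 3 ∣ d i := by
    by_contra hcon
    push Not at hcon
    exact hG.ind d hcon ⟨m, by rw [hm, hD]⟩
  have hm0 : (m : Eis) ≠ 0 := by
    intro h0
    have h1 : ((m ^ 3 : ℤ) : Eis) = 0 := by
      rw [Int.cast_pow, h0, zero_pow three_ne_zero]
    rw [hm] at h1
    exact hD0 (cast_zero h1)
  have h3 : t ^ 3 = (m : Eis) ^ 3 * Z := by
    rw [h, ← hm, Int.cast_pow]
    ring
  obtain ⟨t', ht'⟩ := dvd_cube (⟨Z, h3⟩ : (m : Eis) ^ 3 ∣ t ^ 3)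
  have h4 : t' ^ 3 = Z := by
    apply mul_left_cancel₀ (pow_ne_zero 3 hm0)
    rw [← h3, ht']
    ring
  have h5 : ¬ (¬ 3 ∣ c₀ ∨ ∃ j, ¬ 3 ∣ c j) := fun hcon =>
    hK.ind c₀ c hcon ⟨t', by rw [h4, hZ]⟩
  push Not at h5
  exact ⟨h5.1, h5.2, hd⟩

end JKU

open _root_.Pool.Agent.PTK.JKU in
/-- JKU: Kummer theory over `K` for all classes together. -/
theorem JKU_thm (hKUM : KUM) : Stmt_JKU := by
  intro s k b p q p' q' x u P Q P' Q' f L _ _ ζ ι hSG hSK hJ a₀ a v
  have hω := GTK.rel ι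
  have := hJ.minus.gal
  obtain ⟨θ₀, hθ₀⟩ := hJ.minus.rx
  choose θ hθ using hJ.minus.rb
  choose η hη using hJ.plus.root
  let F := IntermediateField.adjoin ℚ {ι w}
  let c : Option (Fin k) ⊕ Fin s → Eis :=
    Sum.elim (fun i => i.elim x u) (fun i => (b i : Eis))
  let V : Option (Fin k) ⊕ Fin s → ZMod 3 := Sum.elim (fun i => i.elim a₀ a) v
  have hc0 : ∀ i, c i ≠ 0 := by
    rintro ((_ | j) | i)
    · exact x_ne hSK
    · exact u_ne hSK j
    · intro h0
      have h1 : (b i : Eis) = 0 := h0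
      exact b_ne hSG i (cast_zero h1)
  let A : Option (Fin k) ⊕ Fin s → L := Sum.elim (fun i => i.elim θ₀ θ) η
  have hA : ∀ i, A i ^ 3 = ι (c i) := by
    rintro ((_ | j) | i)
    · exact hθ₀
    · exact hθ j
    · exact (hη i).trans (map_intCast ι (b i)).symm
  obtain ⟨g, hg⟩ := hKUM F L ⟨ι w, GKK.mem_F ι w⟩ (Option (Fin k) ⊕ Fin s)
    (fun i => ⟨ι (c i), GKK.mem_F ι _⟩) A
    (by
      apply Subtype.ext
      push_cast
      exact hω)
    (by
      intro i h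
      have h1 : ι (c i) = 0 := congrArg Subtype.val h
      exact hc0 i (GKK.inj ι (by rw [h1, map_zero])))
    (fun i => hA i)
    (by
      rintro n ⟨β, hβ⟩
      have h1 : ι (∏ i, c i ^ n i) = (β : L) ^ 3 := by
        have h2 := congrArg (algebraMap F L) hβ
        rw [map_pow, map_prod] at h2
        rw [map_prod]
        refine Eq.trans ?_ h2
        refine Finset.prod_congr rfl fun i _ => ?_
        rw [map_pow, map_pow]
        rfl
      obtain ⟨t, ht⟩ := GKK.cube_of ι β.2 h1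
      rw [Fintype.prod_sum_type, Fintype.prod_option] at ht
      obtain ⟨h3, h4, h5⟩ := indep hSG hSK (n (Sum.inl none)) (fun j => n (Sum.inl (some j)))
        (fun i => n (Sum.inr i)) t ht
      rintro ((_ | j) | i)
      · exact h3
      · exact h4 j
      · exact h5 i)
    V
  have hgω : g (ι w) = ι w := g.commutes (⟨ι w, GKK.mem_F ι w⟩ : F)
  have hroot : ∀ (i : Option (Fin k) ⊕ Fin s) (ρ : L), ρ ^ 3 = ι (c i) →
      g ρ = ι w ^ (V i).val * ρ := by
    intro i ρ hρ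
    obtain ⟨l, hl⟩ := Pool.Agent.PT.GT.of_cube hω (hρ.trans (hA i).symm)
    have h2 := hg i
    change g (A i) = ι w ^ (V i).val * A i at h2
    rw [hl, map_mul, h2, Pool.Agent.PT.GT.E, map_pow, hgω]
    ring
  refine ⟨g.restrictScalars ℚ, hgω, fun ρ hρ => ?_, fun j ρ hρ => ?_, fun i ρ hρ => ?_⟩
  · exact hroot (Sum.inl none) ρ hρ
  · exact hroot (Sum.inl (some j)) ρ hρ
  · exact hroot (Sum.inr i) ρ (hρ.trans (map_intCast ι (b i)).symm)

end Pool.Agent.PTK


end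

section

/-!
# MKU: Kummer theory over `K = Q(w)` for all classes together, several base classes
-/

set_option autoImplicit false

open NumberField IsDedekindDomain Finset
open scoped nonZeroDivisors Pointwise

namespace Pool.Agent.PTK

open Pool.Agent.Lib_helper18 Pool.Agent.Lib_helper18.Eis Pool.Agent.Lib_helper84.Cub
open Pool.Agent.PT Pool.Agent.PTE Pool.Agent.PT3 Pool.Agent.PTL Pool.Agent.PTN

namespace MKU

theorem z_ne {M N : ℕ} {z : Fin M → Eis} {α β : Fin N → Fin M} {P Q P' Q' : Fin N → Eis}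
    (hS : SysZ z α β P Q P' Q') (j : Fin M) : z j ≠ 0 := by
  intro hj
  refine hS.ind (fun l => if l = j then 1 else 0) ⟨j, by simp⟩ ⟨0, ?_⟩
  rw [zero_pow three_ne_zero]
  symm
  exact Finset.prod_eq_zero (Finset.mem_univ j) (by simp [hj])

/-- Independence of all classes. -/
theorem indep {s M N : ℕ} {b : Fin s → ℤ} {p q p' q' : Fin s → Fin s → ℤ}
    {z : Fin M → Eis} {α β : Fin N → Fin M} {P Q P' Q' : Fin N → Eis}
    (hG : SysG b p q p' q') (hS : SysZ z α β P Q P' Q')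
    (c : Fin M → ℕ) (d : Fin s → ℕ) (t : Eis)
    (h : t ^ 3 = (∏ j, z j ^ c j) * ∏ i, (b i : Eis) ^ d i) :
    (∀ j, 3 ∣ c j) ∧ ∀ i, 3 ∣ d i := by
  have hz0 : ∀ j, z j ≠ 0 := z_ne hS
  have hb0 : ∀ i, b i ≠ 0 := JKU.b_ne hG
  choose tz htz using hS.cz
  obtain ⟨Z, hZ⟩ : ∃ Z : Eis, Z = ∏ j, z j ^ c j := ⟨_, rfl⟩
  obtain ⟨D, hD⟩ : ∃ D : ℤ, D = ∏ i, b i ^ d i := ⟨_, rfl⟩
  obtain ⟨t₁, ht₁⟩ : ∃ t₁ : Eis, t₁ = ∏ j, tz j ^ c j := ⟨_, rfl⟩
  have hDE : (∏ i, (b i : Eis) ^ d i) = (D : Eis) := by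
    rw [hD, Int.cast_prod]
    exact Finset.prod_congr rfl fun i _ => (Int.cast_pow _ _).symm
  have hD0 : D ≠ 0 := by
    rw [hD]
    exact Finset.prod_ne_zero_iff.2 fun i _ => pow_ne_zero _ (hb0 i)
  have hZ0 : Z ≠ 0 := by
    rw [hZ]
    exact Finset.prod_ne_zero_iff.2 fun i _ => pow_ne_zero _ (hz0 i)
  rw [hDE, ← hZ] at h
  have hZZ : Z * conj Z = t₁ ^ 3 := by
    rw [hZ, ht₁, map_prod, ← Finset.prod_mul_distrib, ← Finset.prod_pow]
    refine Finset.prod_congr rfl fun j _ => ?_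
    rw [map_pow, ← mul_pow, htz j, ← pow_mul, ← pow_mul, mul_comm]
  have ht₁0 : t₁ ≠ 0 := by
    rintro rfl
    rw [zero_pow three_ne_zero, mul_conj] at hZZ
    have h2 : Z.norm = 0 := JKU.cast_zero hZZ
    exact hZ0 (norm_eq_zero.1 h2)
  have hc : conj t ^ 3 = conj Z * D := by
    rw [← map_pow, h, map_mul, conj_intCast]
  have hNN : (t * conj t) ^ 3 = t₁ ^ 3 * (D : Eis) ^ 2 := by
    rw [mul_pow, h, hc, ← hZZ]
    ring
  obtain ⟨r, hr⟩ := JKU.dvd_cube (⟨_, hNN⟩ : t₁ ^ 3 ∣ (t * conj t) ^ 3)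
  have hr3 : r ^ 3 = (D : Eis) ^ 2 := by
    apply mul_left_cancel₀ (pow_ne_zero 3 ht₁0)
    rw [← hNN, hr]
    ring
  obtain ⟨m, hm⟩ := JKU.cube_int hD0 hr3
  have hd : ∀ i, 3 ∣ d i := by
    by_contra hcon
    push Not at hcon
    exact hG.ind d hcon ⟨m, by rw [hm, hD]⟩
  have hm0 : (m : Eis) ≠ 0 := by
    intro h0
    have h1 : ((m ^ 3 : ℤ) : Eis) = 0 := by
      rw [Int.cast_pow, h0, zero_pow three_ne_zero]
    rw [hm] at h1
    exact hD0 (JKU.cast_zero h1)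
  have h3 : t ^ 3 = (m : Eis) ^ 3 * Z := by
    rw [h, ← hm, Int.cast_pow]
    ring
  obtain ⟨t', ht'⟩ := JKU.dvd_cube (⟨Z, h3⟩ : (m : Eis) ^ 3 ∣ t ^ 3)
  have h4 : t' ^ 3 = Z := by
    apply mul_left_cancel₀ (pow_ne_zero 3 hm0)
    rw [← h3, ht']
    ring
  have h5 : ¬ ∃ j, ¬ 3 ∣ c j := fun hcon => hS.ind c hcon ⟨t', by rw [h4, hZ]⟩
  push Not at h5
  exact ⟨h5, hd⟩

end MKU

open _root_.Pool.Agent.PTK.MKU in
/-- MKU: Kummer theory over `K` for all classes together. -/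
theorem MKU_thm (hKUM : KUM) : Stmt_MKU := by
  intro s M N b p q p' q' z α β P Q P' Q' f L _ _ ζ ι hSG hSZ hJ a v
  have hω := GTK.rel ι
  have := hJ.minus.gal
  choose θ hθ using hJ.minus.rz
  choose η hη using hJ.plus.root
  let F := IntermediateField.adjoin ℚ {ι w}
  let c : Fin M ⊕ Fin s → Eis := Sum.elim z (fun i => (b i : Eis))
  let V : Fin M ⊕ Fin s → ZMod 3 := Sum.elim a v
  have hc0 : ∀ i, c i ≠ 0 := by
    rintro (j | i)
    · exact z_ne hSZ j
    · intro h0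
      have h1 : (b i : Eis) = 0 := h0
      exact JKU.b_ne hSG i (JKU.cast_zero h1)
  let A : Fin M ⊕ Fin s → L := Sum.elim θ η
  have hA : ∀ i, A i ^ 3 = ι (c i) := by
    rintro (j | i)
    · exact hθ j
    · exact (hη i).trans (map_intCast ι (b i)).symm
  obtain ⟨g, hg⟩ := hKUM F L ⟨ι w, GKK.mem_F ι w⟩ (Fin M ⊕ Fin s)
    (fun i => ⟨ι (c i), GKK.mem_F ι _⟩) A
    (by
      apply Subtype.ext
      push_cast
      exact hω)
    (by
      intro i h
      have h1 : ι (c i) = 0 := congrArg Subtype.val h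
      exact hc0 i (GKK.inj ι (by rw [h1, map_zero])))
    (fun i => hA i)
    (by
      rintro n ⟨β', hβ⟩
      have h1 : ι (∏ i, c i ^ n i) = (β' : L) ^ 3 := by
        have h2 := congrArg (algebraMap F L) hβ
        rw [map_pow, map_prod] at h2
        rw [map_prod]
        refine Eq.trans ?_ h2
        refine Finset.prod_congr rfl fun i _ => ?_
        rw [map_pow, map_pow]
        rfl
      obtain ⟨t, ht⟩ := GKK.cube_of ι β'.2 h1
      rw [Fintype.prod_sum_type] at ht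
      obtain ⟨h4, h5⟩ := indep hSG hSZ (fun j => n (Sum.inl j)) (fun i => n (Sum.inr i)) t ht
      rintro (j | i)
      · exact h4 j
      · exact h5 i)
    V
  have hgω : g (ι w) = ι w := g.commutes (⟨ι w, GKK.mem_F ι w⟩ : F)
  have hroot : ∀ (i : Fin M ⊕ Fin s) (ρ : L), ρ ^ 3 = ι (c i) →
      g ρ = ι w ^ (V i).val * ρ := by
    intro i ρ hρ
    obtain ⟨l, hl⟩ := Pool.Agent.PT.GT.of_cube hω (hρ.trans (hA i).symm)
    have h2 := hg i
    change g (A i) = ι w ^ (V i).val * A i at h2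
    rw [hl, map_mul, h2, Pool.Agent.PT.GT.E, map_pow, hgω]
    ring
  refine ⟨g.restrictScalars ℚ, hgω, fun j ρ hρ => ?_, fun i ρ hρ => ?_⟩
  · exact hroot (Sum.inl j) ρ hρ
  · exact hroot (Sum.inr i) ρ (hρ.trans (map_intCast ι (b i)).symm)

end Pool.Agent.PTK


end

section

/-!
# A set of places and sufficiently many units with independent symbols (over `K`)
-/

set_option autoImplicit false

open NumberField IsDedekindDomain Finset
open scoped nonZeroDivisors Pointwise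

namespace Pool.Agent.PTK

open Pool.Agent.Lib_helper18 Pool.Agent.Lib_helper18.Eis Pool.Agent.Lib_helper84.Cub
open Pool.Agent.PT

namespace NGN

open Pool.Agent.PT.NGEN

theorem nine_of {x : Eis} (h : lam ^ 4 ∣ x ^ 2 - 1) :
    ∃ ε : ℤ, (ε = 1 ∨ ε = -1) ∧ (9 : ℤ) ∣ x.re - ε ∧ (9 : ℤ) ∣ x.im := by
  obtain ⟨h1, h2⟩ := Pool.Agent.PT.NCNT.nine_dvd h
  have hre : (x ^ 2 - 1).re = x.re * x.re - x.im * x.im - 1 := by
    rw [pow_two]
    simp
  have him : (x ^ 2 - 1).im = x.im * (2 * x.re - x.im) := by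
    rw [pow_two]
    simp
    ring
  rw [hre] at h1
  rw [him] at h2
  generalize x.re = a at *
  generalize x.im = b at *
  have key : ∀ α β : ZMod 9, α * α - β * β - 1 = 0 → β * (2 * α - β) = 0 →
      (α = 1 ∨ α = -1) ∧ β = 0 := by decide
  have hcast : ∀ n : ℤ, ((n : ZMod 9) = 0 ↔ (9 : ℤ) ∣ n) := fun n => by
    have := ZMod.intCast_zmod_eq_zero_iff_dvd n 9
    simpa using this
  rw [← hcast] at h1 h2
  push_cast at h1 h2
  obtain ⟨h3, h4⟩ := key _ _ h1 h2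
  rw [hcast] at h4
  rcases h3 with h3 | h3
  · refine ⟨1, Or.inl rfl, ?_, h4⟩
    rw [← hcast]
    push_cast
    rw [h3, sub_self]
  · refine ⟨-1, Or.inr rfl, ?_, h4⟩
    rw [← hcast]
    push_cast
    rw [h3, sub_self]

theorem prim_of {x : Eis} (h : lam ^ 4 ∣ x ^ 2 - 1) : Prim x := by
  obtain ⟨ε, hε, h1, h2⟩ := nine_of h
  refine ⟨by omega, ?_⟩
  rcases hε with rfl | rfl <;> omega

theorem dvd_sub_of {x : Eis} {ε : ℤ} (h1 : (9 : ℤ) ∣ x.re - ε) (h2 : (9 : ℤ) ∣ x.im) :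
    lam ^ 4 ∣ x - (ε : Eis) := by
  have h3 : ((9 : ℤ) : Eis) ∣ x - (ε : Eis) := by
    rw [intCast_dvd_iff]
    refine ⟨?_, ?_⟩
    · simpa using h1
    · simpa using h2
  refine dvd_trans ⟨w, ?_⟩ h3
  decide

theorem lce_lam (hLCI : Stmt_LCI) {x : Eis} (h : lam ^ 4 ∣ x ^ 2 - 1) : LCE (uni none) x := by
  obtain ⟨ε, hε, h1, h2⟩ := nine_of h
  have h3 := dvd_sub_of h1 h2
  have hl1 : ¬ lam ∣ 1 := fun h => prime_lam.not_unit (isUnit_of_dvd_one h)
  change LCE lam x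
  refine hLCI.2.1 x (ε : Eis) 1 ?_ hl1 ?_
  · rcases hε with rfl | rfl
    · simpa using hl1
    · intro h4
      apply hl1
      have h5 : (1 : Eis) = (((-1 : ℤ) : Eis)) * (-1) := by decide
      rw [h5]
      exact h4.mul_right _
  · have h4 : (ε : Eis) ^ 3 = (ε : Eis) := by
      rcases hε with rfl | rfl
      · decide
      · decide
    rw [h4, one_pow, mul_one]
    exact h3

/-- the symbol of `x` at a prime not dividing it -/
theorem ch_eqE (hSPP : SPP) (hSREC : SREC) {x : Eis} (hx : Prim x) (D : Finset PP)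
    (hD : ∀ π : PP, π ∈ D ↔ π.1 ∣ x) (ρ : PP) (hρ : ρ ∉ D) :
    ch ρ.1 x = ∑ π ∈ D, (V π.1 x : ZMod 3) * sym π.1 ρ.1 := by
  classical
  have h1 := hSREC.1 ρ.1 x (ppPrim ρ) hx
  have hρx : ¬ ρ.1 ∣ x := fun h => hρ ((hD ρ).2 h)
  rw [sl_eq (insert ρ D) (fun v hv => by
    rcases hv with hv | hv
    · rw [eq_of_dvd hSPP hv]
      exact Finset.mem_insert_self _ _
    · exact Finset.mem_insert_of_mem ((hD v).2 hv)), Finset.sum_insert hρ, neg_eq_zero] at h1
  have h2 : tm ρ.1 ρ.1 x = - ch ρ.1 x := by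
    unfold tm
    rw [V_eq_zero hρx, V_self]
    push_cast
    ring
  have h3' : ∑ π ∈ D, tm π.1 ρ.1 x = ∑ π ∈ D, (V π.1 x : ZMod 3) * sym π.1 ρ.1 := by
    apply Finset.sum_congr rfl
    intro π hπ
    have hne : π ≠ ρ := fun h => hρ (h ▸ hπ)
    have hd1 : ¬ π.1 ∣ ρ.1 := fun hd => hne (eq_of_dvd hSPP hd)
    unfold tm
    rw [V_eq_zero hd1, ch_of_not_dvd hd1]
    push_cast
    ring
  rw [h2, h3'] at h1
  rw [← add_right_inj (-ch ρ.1 x), h1]
  ring

theorem tm_eqE (hSPP : SPP) {x : Eis} {π ρ : PP} (hne : π ≠ ρ) :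
    tm π.1 ρ.1 x = (V π.1 x : ZMod 3) * sym π.1 ρ.1 := by
  have hd1 : ¬ π.1 ∣ ρ.1 := fun hd => hne (eq_of_dvd hSPP hd)
  unfold tm
  rw [V_eq_zero hd1, ch_of_not_dvd hd1]
  push_cast
  ring

/-- `x` is divisible by an element of `PP` -/
theorem exists_dvdE (hSPP : SPP) {x : Eis} (h0 : x ≠ 0) (hx : Prim x)
    (hc : ¬ ∃ c : Eis, c ^ 3 = x) : ∃ π : PP, π.1 ∣ x := by
  have hxu : ¬ IsUnit x := by
    intro h
    have h1 : Prim (1 : Eis) := ⟨by simp, by decide⟩
    rcases Prim.unit h1 h (by rw [one_mul]; exact hx) with h' | h'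
    · exact hc ⟨1, by rw [h']; decide⟩
    · exact hc ⟨-1, by rw [h']; decide⟩
  obtain ⟨l, hl, hlx⟩ := WfDvdMonoid.exists_irreducible_factor hxu h0
  have hlP : Prime l := hl.prime
  have hl3 : ¬ l ∣ 3 := by
    intro h
    rw [dvd_three_iff hlP] at h
    exact hx.not_lam_dvd (h.symm.dvd.trans hlx)
  obtain ⟨π, hπ⟩ := hSPP.1 l hlP hl3
  exact ⟨π, hπ.symm.dvd.trans hlx⟩

open Classical in
/-- from a finite type to `Fin e` -/
theorem transferE {κ : Type} [Fintype κ] (x : Eis) (S₀ S : Finset Pl) (d : κ → Eis) (hS : S₀ ⊆ S)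
    (hLC : ∀ v ∈ S, v ∉ S₀ → LCE (uni v) x)
    (hcard : (S.filter fun v => ¬ LCE (uni v) x).card = Fintype.card κ + 1)
    (hd0 : ∀ i, d i ≠ 0) (hdS : ∀ i (v : Pl), uni v ∣ d i → v ∈ S)
    (hmul : ∀ n m : κ → ℕ, ∏ i, d i ^ n i = ∏ i, d i ^ m i → n = m)
    (hind : ∀ n : κ → ZMod 3, (∀ v : Pl, ∑ i, n i * sy v (d i) x = 0) → n = 0) :
    ∃ (S : Finset Pl) (e : ℕ) (d : Fin e → Eis), S₀ ⊆ S ∧ (∀ v ∈ S, v ∉ S₀ → LCE (uni v) x) ∧
    (S.filter fun v => ¬ LCE (uni v) x).card = e + 1 ∧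
    (∀ i, d i ≠ 0) ∧ (∀ i (v : Pl), uni v ∣ d i → v ∈ S) ∧
    (∀ n m : Fin e → ℕ, ∏ i, d i ^ n i = ∏ i, d i ^ m i → n = m) ∧
    (∀ n : Fin e → ZMod 3, (∀ v : Pl, ∑ i, n i * sy v (d i) x = 0) → n = 0) := by
  let E : Fin (Fintype.card κ) ≃ κ := (Fintype.equivFin κ).symm
  refine ⟨S, Fintype.card κ, fun i => d (E i), hS, hLC, hcard, fun i => hd0 _,
    fun i v h => hdS _ v h, ?_, ?_⟩
  · intro n m h
    have h1 : ∀ n : Fin (Fintype.card κ) → ℕ,
        ∏ i, d (E i) ^ n i = ∏ k, d k ^ n (E.symm k) := by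
      intro n
      rw [← E.prod_comp]
      simp
    rw [h1, h1] at h
    have h2 := hmul _ _ h
    funext i
    have := congrFun h2 (E i)
    simpa using this
  · intro n h
    have h1 := hind (fun k => n (E.symm k)) (fun v => by
      rw [← h v, ← E.sum_comp]
      simp)
    funext i
    have := congrFun h1 (E i)
    simpa using this

theorem V_castE {x : Eis} (π : PP) (h : π.1 ∣ x) (h2 : V π.1 x ≤ 2) :
    (V π.1 x : ZMod 3) * (V π.1 x : ZMod 3) = 1 ∧ ¬ 3 ∣ V π.1 x := by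
  have h1 : V π.1 x ≠ 0 := fun h' => (V_eq_zero_iff.1 h') h
  have h3 : V π.1 x = 1 ∨ V π.1 x = 2 := by omega
  rcases h3 with h3 | h3
  · rw [h3]
    exact ⟨by decide, by decide⟩
  · rw [h3]
    exact ⟨by decide, by decide⟩

end NGN

open Pool.Agent.PT.NGEN _root_.Pool.Agent.PTK.NGN in
open Classical in
/-- a set of places and sufficiently many units with independent symbols -/
theorem NGN_thm (hSPP : SPP) (hSREC : SREC) (hLCI : Stmt_LCI)
    (hNAUX : NAUX) : Stmt_NGN := by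
  intro x S₀ hx0 hx9 hV hcube hnone hS0 hS0'
  have hxP : Prim x := prim_of hx9
  obtain ⟨D, hD⟩ : ∃ D : Finset PP, ∀ π : PP, π ∈ D ↔ π.1 ∣ x := by
    refine ⟨(hSPP.2.2.1 x hx0).toFinset, fun π => ?_⟩
    rw [Set.Finite.mem_toFinset]
    rfl
  obtain ⟨π₀, hπ₀⟩ := exists_dvdE hSPP hx0 hxP hcube
  have hπ₀D : π₀ ∈ D := (hD π₀).2 hπ₀
  have hVD : ∀ π ∈ D, (V π.1 x : ZMod 3) * (V π.1 x : ZMod 3) = 1 ∧
      ¬ 3 ∣ V π.1 x := fun π hπ => V_castE π ((hD π).1 hπ) (hV π)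
  let κ : Type := {k // k ∈ D.erase π₀}
  -- the vectors
  let r : κ → PP → ZMod 3 := fun k π => if π = k.1 then 1 else
    if π = π₀ then - (V k.1.1 x : ZMod 3) * (V π₀.1 x : ZMod 3) else 0
  have hkD : ∀ k : κ, k.1 ∈ D ∧ k.1 ≠ π₀ := fun k =>
    ⟨Finset.mem_of_mem_erase k.2, Finset.ne_of_mem_erase k.2⟩
  have hr0 : ∀ k : κ, ∑ π ∈ D, (V π.1 x : ZMod 3) * r k π = 0 := by
    intro k
    obtain ⟨hk1, hk2⟩ := hkD k
    have h1 : ∑ π ∈ D, (V π.1 x : ZMod 3) * r k π =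
        ∑ π ∈ ({k.1, π₀} : Finset PP), (V π.1 x : ZMod 3) * r k π := by
      symm
      apply Finset.sum_subset
      · intro π hπ
        rcases Finset.mem_insert.1 hπ with rfl | hπ
        · exact hk1
        · rw [Finset.mem_singleton.1 hπ]
          exact hπ₀D
      · intro π _ hπ
        rw [Finset.mem_insert, Finset.mem_singleton, not_or] at hπ
        simp only [r]
        rw [if_neg hπ.1, if_neg hπ.2, mul_zero]
    have hr1 : r k k.1 = 1 := if_pos rfl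
    have hr2 : r k π₀ = - (V k.1.1 x : ZMod 3) * (V π₀.1 x : ZMod 3) := by
      change (if π₀ = k.1 then (1 : ZMod 3) else
        if π₀ = π₀ then - (V k.1.1 x : ZMod 3) * (V π₀.1 x : ZMod 3) else 0) = _
      rw [if_neg hk2.symm, if_pos rfl]
    rw [h1, Finset.sum_pair hk2, hr1, hr2]
    have h2 := (hVD π₀ hπ₀D).1
    calc (V k.1.1 x : ZMod 3) * 1 + (V π₀.1 x : ZMod 3) *
          (- (V k.1.1 x : ZMod 3) * (V π₀.1 x : ZMod 3))
        = (V k.1.1 x : ZMod 3) * (1 - (V π₀.1 x : ZMod 3) *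
          (V π₀.1 x : ZMod 3)) := by ring
      _ = 0 := by rw [h2, sub_self, mul_zero]
  have hrk : ∀ k l : κ, r k l.1 = if l = k then 1 else 0 := by
    intro k l
    simp only [r]
    by_cases h : l = k
    · rw [h, if_pos rfl, if_pos rfl]
    · rw [if_neg (fun h' => h (Subtype.ext h')), if_neg (hkD l).2, if_neg h]
  -- the auxiliary primes
  have hex : ∀ (k : κ) (A : Finset PP), ∃ ρ : PP, ρ ∉ A ∧ ∃ ε : ZMod 3, ε ≠ 0 ∧
      ∀ π ∈ D, sym ρ.1 π.1 = ε * r k π := by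
    intro k A
    obtain ⟨ρ, hρ, ε, hε, h⟩ := hNAUX D.card (fun i => (D.equivFin.symm i).1)
      (fun i => r k (D.equivFin.symm i).1) A (fun i j h => by
        exact D.equivFin.symm.injective (Subtype.ext h))
    refine ⟨ρ, hρ, ε, hε, fun π hπ => ?_⟩
    have := h (D.equivFin ⟨π, hπ⟩)
    simpa using this
  let A₀ : Finset PP := (S₀.biUnion fun v => match v with
    | none => ∅
    | some π => {π})
  have hA₀ : ∀ π : PP, π ∈ A₀ ↔ some π ∈ S₀ := by
    intro π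
    simp only [A₀, Finset.mem_biUnion]
    constructor
    · rintro ⟨v, hv, hπ⟩
      cases v with
      | none => simp at hπ
      | some π' =>
        have : π = π' := by simpa using hπ
        rw [this]
        exact hv
    · intro h
      exact ⟨some π, h, by simp⟩
  obtain ⟨ρ, hρ1, hρ2⟩ := choose_distinct (κ := κ) (α := PP)
    (fun k ρ => ∃ ε : ZMod 3, ε ≠ 0 ∧ ∀ π ∈ D, sym ρ.1 π.1 = ε * r k π) A₀ hex Finset.univ
  have hρS : ∀ k, some (ρ k) ∉ S₀ := fun k h => (hρ1 k (Finset.mem_univ _)).2 ((hA₀ _).2 h)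
  have hρD : ∀ k, ρ k ∉ D := fun k h => hρS k (hS0 _ ((hD _).1 h))
  have hρinj : ∀ k l, ρ k = ρ l → k = l := fun k l h =>
    hρ2 k (Finset.mem_univ _) l (Finset.mem_univ _) h
  choose ε hε hsym using fun k => (hρ1 k (Finset.mem_univ _)).1
  have hsym' : ∀ k, ∀ π ∈ D, sym π.1 (ρ k).1 = ε k * r k π := by
    intro k π hπ
    have hne : π ≠ ρ k := fun h => hρD k (h ▸ hπ)
    rw [← recPP hSPP hSREC hne]
    exact hsym k π hπ
  have htm : ∀ k, ∀ π ∈ D, tm π.1 (ρ k).1 x =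
      (V π.1 x : ZMod 3) * (ε k * r k π) := by
    intro k π hπ
    have hne : π ≠ ρ k := fun h => hρD k (h ▸ hπ)
    rw [tm_eqE hSPP hne, hsym' k π hπ]
  have htm0 : ∀ k, ∑ π ∈ D, tm π.1 (ρ k).1 x = 0 := by
    intro k
    rw [Finset.sum_congr rfl (htm k)]
    have h1 : ∀ π ∈ D, (V π.1 x : ZMod 3) * (ε k * r k π) =
        ε k * ((V π.1 x : ZMod 3) * r k π) := fun π _ => by ring
    rw [Finset.sum_congr rfl h1, ← Finset.mul_sum, hr0 k, mul_zero]
  have hLCρ : ∀ k, LCE (ρ k).1 x := by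
    intro k
    rw [hLCI.1 (ρ k) x hx0]
    have hnd : ¬ (ρ k).1 ∣ x := fun h => hρD k ((hD _).2 h)
    refine ⟨by rw [V_eq_zero hnd]; exact dvd_zero _, ?_⟩
    rw [ch_eqE hSPP hSREC hxP D hD (ρ k) (hρD k)]
    have h1 : ∀ π ∈ D, (V π.1 x : ZMod 3) * sym π.1 (ρ k).1 =
        ε k * ((V π.1 x : ZMod 3) * r k π) := fun π hπ => by
      rw [hsym' k π hπ]
      ring
    rw [Finset.sum_congr rfl h1, ← Finset.mul_sum, hr0 k, mul_zero]
  have hLCD : ∀ π ∈ D, ¬ LCE π.1 x := by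
    intro π hπ h
    exact (hVD π hπ).2 ((hLCI.1 π x hx0).1 h).1
  -- the set of places
  let S : Finset Pl := S₀ ∪ Finset.univ.image (fun k : κ => some (ρ k))
  have hmemS : ∀ v, v ∈ S ↔ v ∈ S₀ ∨ ∃ k, some (ρ k) = v := by
    intro v
    simp [S]
  have hLCS : ∀ v ∈ S, v ∉ S₀ → LCE (uni v) x := by
    intro v hv hv0
    rcases (hmemS v).1 hv with h | ⟨k, rfl⟩
    · exact absurd h hv0
    · exact hLCρ k
  have hSsub : S₀ ⊆ S := fun v hv => (hmemS v).2 (Or.inl hv)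
  have hcκ : Fintype.card κ + 1 = D.card := by
    have h1 : Fintype.card κ = (D.erase π₀).card := Fintype.card_coe _
    rw [h1, Finset.card_erase_of_mem hπ₀D]
    have : 0 < D.card := Finset.card_pos.2 ⟨π₀, hπ₀D⟩
    omega
  have hfilter : ∀ v, v ∈ S.filter (fun v => ¬ LCE (uni v) x) ↔
      v ∈ D.image some := by
    intro v
    rw [Finset.mem_filter, hmemS]
    cases v with
    | none =>
      constructor
      · rintro ⟨_, h⟩
        exact absurd (lce_lam hLCI hx9) h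
      · intro h
        simp at h
    | some π =>
      constructor
      · rintro ⟨h1, h2⟩
        rw [Finset.mem_image]
        rcases h1 with h1 | ⟨k, hk⟩
        · exact ⟨π, (hD π).2 (hS0' π h1 h2), rfl⟩
        · exfalso
          have : ρ k = π := by simpa using hk
          exact h2 (this ▸ hLCρ k)
      · intro h
        rw [Finset.mem_image] at h
        obtain ⟨π', hπ', he⟩ := h
        have : π' = π := by simpa using he
        subst this
        exact ⟨Or.inl (hS0 _ ((hD _).1 hπ')), hLCD _ hπ'⟩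
  have hVρ : ∀ k l, V (ρ k).1 (ρ l).1 = if l = k then 1 else 0 := by
    intro k l
    by_cases h : l = k
    · rw [h, if_pos rfl]
      exact V_self
    · rw [if_neg h]
      apply V_eq_zero
      intro hd
      exact h (hρinj _ _ (eq_of_dvd hSPP hd)).symm
  have hρdS : ∀ (k : κ) (v : Pl), uni v ∣ (ρ k).1 → v ∈ S := by
    intro k v hv
    cases v with
    | none => exact hSsub hnone
    | some π =>
      have : π = ρ k := eq_of_dvd hSPP hv
      rw [this]
      exact (hmemS _).2 (Or.inr ⟨k, rfl⟩)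
  -- independence, first part
  have hsum : ∀ (n : κ → ZMod 3) (l : κ), ∑ k, n k * tm l.1.1 (ρ k).1 x =
      (V l.1.1 x : ZMod 3) * (ε l * n l) := by
    intro n l
    rw [Finset.sum_eq_single l]
    · rw [htm l l.1 (hkD l).1, hrk, if_pos rfl]
      ring
    · intro k _ hk
      rw [htm k l.1 (hkD l).1, hrk, if_neg (fun h => hk h.symm)]
      ring
    · intro h
      exact absurd (Finset.mem_univ _) h
  have hzero : ∀ (l : κ) (a : ZMod 3), (V l.1.1 x : ZMod 3) * (ε l * a) = 0 → a = 0 := by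
    intro l a h
    have h1 := (hVD l.1 (hkD l).1).1
    have h2 : (V l.1.1 x : ZMod 3) ≠ 0 := by
      intro h0
      rw [h0, mul_zero] at h1
      exact zero_ne_one h1
    rcases mul_eq_zero.1 h with h | h
    · exact absurd h h2
    · rcases mul_eq_zero.1 h with h | h
      · exact absurd h (hε l)
      · exact h
  refine transferE (κ := κ) x S₀ S (fun k => (ρ k).1) hSsub hLCS ?_
    (fun k => (ρ k).2.1.ne_zero) hρdS ?_ ?_
  · have h1 : S.filter (fun v => ¬ LCE (uni v) x) = D.image some := by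
      ext v
      rw [hfilter]
    rw [h1, Finset.card_image_of_injective _ (Option.some_injective _), hcκ]
  · apply mul_indep
    · exact fun k => (ρ k).2.1.ne_zero
    · intro k
      refine ⟨(ρ k).1, (ρ k).2.1, ?_, ?_⟩
      · rw [hVρ, if_pos rfl]
        exact one_ne_zero
      · intro l hl
        rw [hVρ, if_neg hl]
  · intro n h
    funext l
    have h1 := h (some l.1)
    change ∑ k, n k * tm l.1.1 (ρ k).1 x = 0 at h1
    rw [hsum] at h1
    exact hzero l _ h1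

end Pool.Agent.PTK


end

section

/-!
# PTK_NHO: the first cohomology of the `S`-units
-/

set_option autoImplicit false

open NumberField IsDedekindDomain Finset
open scoped nonZeroDivisors Pointwise

namespace Pool.Agent.PTK

open Pool.Agent.Lib_helper18 Pool.Agent.Lib_helper18.Eis Pool.Agent.Lib_helper84.Cub
open Pool.Agent.PT hiding NHO

namespace NHO

variable {L : Type} [Field L] [NumberField L]

lemma mem_SU (ι : Eis →+* L) (S : Finset Pl) (u : Lˣ) :
    u ∈ SU ι S ↔ ∀ P : HeightOneSpectrum (𝓞 L), (∀ v ∈ S, P ∉ Abv ι v) →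
      P.valuation L (u : L) = 1 := by
  constructor
  · intro h P hP
    exact h P (by
      intro hmem
      simp only [Set.mem_iUnion] at hmem
      obtain ⟨v, hv, hPv⟩ := hmem
      exact hP v hv hPv)
  · intro h P hP
    refine h P ?_
    intro v hv hPv
    apply hP
    simp only [Set.mem_iUnion]
    exact ⟨v, hv, hPv⟩

lemma supp_fin (y : L) (hy : y ≠ 0) :
    {P : HeightOneSpectrum (𝓞 L) | P.valuation L y ≠ 1}.Finite := by
  have h1 := HeightOneSpectrum.Support.finite (𝓞 L) y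
  have h2 := HeightOneSpectrum.Support.finite (𝓞 L) y⁻¹
  refine (h1.union h2).subset ?_
  intro P hP
  have hP' : P.valuation L y ≠ 1 := hP
  rcases lt_or_gt_of_ne hP' with h | h
  · right
    change 1 < P.valuation L y⁻¹
    rw [map_inv₀]
    have hne : P.valuation L y ≠ 0 := (Valuation.ne_zero_iff _).2 hy
    exact (one_lt_inv₀ (zero_lt_iff.2 hne)).2 h
  · left
    exact h

end NHO

open _root_.Pool.Agent.PTK.NHO in
theorem NHO_thm (hSPP : SPP) (hNHN : Stmt_NHN) (hNTR : Stmt_NTR) : Stmt_NHO := by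
  intro x L _ _ ι θ σ hx h3x hC S hnone hS
  obtain ⟨hN1, hN2, hN3⟩ := hNHN x L ι θ σ hx hC
  obtain ⟨hT1, hT2, hT3, hT4, hT5, hT6⟩ := hNTR x L ι θ σ hx h3x hC
  obtain ⟨-, hP2, -, hP4, -, -⟩ := hSPP
  -- the prime `P2` with `P2 z = P (σ z)`
  have hpull : ∀ P : HeightOneSpectrum (𝓞 L), ∃ P₂ : HeightOneSpectrum (𝓞 L),
      ∀ z : L, P₂.valuation L z = P.valuation L (σ z) := by
    intro P
    obtain ⟨P₁, h₁⟩ := hT3 P
    obtain ⟨P₂, h₂⟩ := hT3 P₁
    refine ⟨P₂, fun z => ?_⟩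
    rw [← h₁ (σ z), ← h₂ (σ (σ z)), hN1]
  have hAbv : ∀ (P P₂ : HeightOneSpectrum (𝓞 L)),
      (∀ z : L, P₂.valuation L z = P.valuation L (σ z)) → ∀ v, P₂ ∈ Abv ι v ↔ P ∈ Abv ι v := by
    intro P P₂ h v
    change P₂.valuation L (ι (uni v)) < 1 ↔ P.valuation L (ι (uni v)) < 1
    rw [h, hC.sι]
  have hsm : ∀ u : Lˣ, ((σ • u : Lˣ) : L) = σ (u : L) := fun u => rfl
  constructor
  · intro u hu
    rw [mem_SU] at hu ⊢
    intro P hP
    obtain ⟨P₂, h₂⟩ := hpull P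
    rw [hsm, ← h₂]
    refine hu P₂ ?_
    intro v hv hmem
    exact hP v hv ((hAbv P P₂ h₂ v).1 hmem)
  · intro u hu hprod
    rw [mem_SU] at hu
    obtain ⟨y, hy⟩ := hN3 u hprod
    -- uniqueness of the place below
    have hlam : ∀ π : PP, ¬ π.1 ∣ lam := by
      intro π h
      exact (hP4 π).1 (h.trans lam_dvd_three)
    have huniq : ∀ (π : PP) (v : Pl) (P : HeightOneSpectrum (𝓞 L)), P ∈ Abv ι (some π) →
        P ∈ Abv ι v → v = some π := by
      intro π v P hP hPv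
      obtain ⟨v₀, -, hv₀⟩ := hT2 P
      have h1 := hv₀ _ hP
      have h2 := hv₀ _ hPv
      have key : ∀ w' : Pl, uni v₀ ∣ uni w' → w' = v₀ := by
        intro w' hd
        cases v₀ with
        | none =>
          cases w' with
          | none => rfl
          | some π' =>
            exfalso
            have : Associated lam π'.1 := prime_lam.associated_of_dvd π'.2.1 hd
            exact hlam π' this.symm.dvd
        | some π₀ =>
          cases w' with
          | none => exact absurd hd (hlam π₀)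
          | some π' =>
            have : Associated π₀.1 π'.1 := π₀.2.1.associated_of_dvd π'.2.1 hd
            rw [hP2 _ _ this]
      exact (key v h2).trans (key (some π) h1).symm
    -- valuations of `y` at the primes above a place outside `S`
    have hval : ∀ P : HeightOneSpectrum (𝓞 L), (∀ v ∈ S, P ∉ Abv ι v) →
        P.valuation L (σ (y : L)) = P.valuation L (y : L) := by
      intro P hP
      have h1 := hu P hP
      rw [hy, Units.val_div_eq_div_val, map_div₀, hsm] at h1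
      have hne : P.valuation L (σ (y : L)) ≠ 0 :=
        (Valuation.ne_zero_iff _).2 (by simp)
      exact ((div_eq_one_iff_eq hne).1 h1).symm
    have hout : ∀ (π : PP), some π ∉ S → ∀ P ∈ Abv ι (some π), ∀ v ∈ S, P ∉ Abv ι v := by
      intro π hπ P hP v hv hPv
      exact hπ (huniq π v P hP hPv ▸ hv)
    have hconst : ∀ (π : PP), some π ∉ S → ∀ i : ℕ, ∀ P ∈ Abv ι (some π),
        P.valuation L ((σ ^ i) (y : L)) = P.valuation L (y : L) := by
      intro π hπ i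
      induction i with
      | zero => intro P _; simp
      | succ i ih =>
        intro P hP
        obtain ⟨P₂, h₂⟩ := hpull P
        have hP₂ : P₂ ∈ Abv ι (some π) := (hAbv P P₂ h₂ _).2 hP
        have e : (σ ^ (i + 1)) (y : L) = σ ((σ ^ i) (y : L)) := by
          rw [pow_succ']; rfl
        rw [e, ← h₂, ih P₂ hP₂, h₂, hval P (hout π hπ P hP)]
    have hsame : ∀ (π : PP), some π ∉ S → ∀ P ∈ Abv ι (some π), ∀ P' ∈ Abv ι (some π),
        P'.valuation L (y : L) = P.valuation L (y : L) := by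
      intro π hπ P hP P' hP'
      obtain ⟨i, hi⟩ := hT5 (some π) P P' hP hP'
      rw [← hi, hconst π hπ i P' hP']
    -- the finite set of places
    have hfin : {π : PP | ∃ P ∈ Abv ι (some π), P.valuation L (y : L) ≠ 1}.Finite := by
      have h1 := supp_fin (y : L) (by simp)
      have h2 : (⋃ P ∈ {P : HeightOneSpectrum (𝓞 L) | P.valuation L (y : L) ≠ 1},
          {π : PP | P ∈ Abv ι (some π)}).Finite := by
        refine h1.biUnion fun P _ => ?_
        refine Set.Subsingleton.finite ?_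
        intro π hπ π' hπ'
        have := huniq π (some π') P hπ hπ'
        exact (Option.some_injective _ this).symm
      refine h2.subset ?_
      rintro π ⟨P, hP, hne⟩
      simp only [Set.mem_iUnion]
      exact ⟨P, hne, hP⟩
    -- the exponents
    have hexp : ∀ π : PP, ∃ n : ℤ, some π ∉ S → ∀ P ∈ Abv ι (some π),
        P.valuation L (y : L) = WithZero.exp n := by
      intro π
      by_cases hπ : some π ∈ S
      · exact ⟨0, fun h => absurd hπ h⟩
      · obtain ⟨P, hP⟩ := (hT4 (some π)).2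
        have hne : P.valuation L (y : L) ≠ 0 := (Valuation.ne_zero_iff _).2 (by simp)
        refine ⟨WithZero.log (P.valuation L (y : L)), fun _ P' hP' => ?_⟩
        rw [hsame π hπ P hP P' hP', WithZero.exp_log hne]
    choose n hn using hexp
    have hι : ∀ π : PP, ι π.1 ≠ 0 := by
      intro π h
      exact π.2.1.ne_zero (hC.inj (h.trans (map_zero ι).symm))
    set T : Finset PP := hfin.toFinset with hT
    set g : Lˣ := ∏ π ∈ T, (Units.mk0 (ι π.1) (hι π)) ^ n π with hg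
    have hσg : σ • g = g := by
      rw [hg, Finset.smul_prod']
      refine Finset.prod_congr rfl fun π _ => ?_
      rw [smul_zpow']
      congr 1
      ext
      rw [hsm]
      exact hC.sι _
    have hvg : ∀ P : HeightOneSpectrum (𝓞 L), P.valuation L (g : L) =
        ∏ π ∈ T, (P.valuation L (ι π.1)) ^ n π := by
      intro P
      rw [hg, Units.coe_prod, map_prod]
      refine Finset.prod_congr rfl fun π _ => ?_
      rw [Units.val_zpow_eq_zpow_val, map_zpow₀]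
      rfl
    refine ⟨y * g, ?_, ?_⟩
    · rw [mem_SU]
      intro P hP
      obtain ⟨v₀, hv₀, -⟩ := hT2 P
      have hv₀S : v₀ ∉ S := fun h => hP v₀ h hv₀
      cases v₀ with
      | none => exact absurd hnone hv₀S
      | some π₀ =>
        have hother : ∀ π : PP, π ≠ π₀ → P.valuation L (ι π.1) = 1 := by
          intro π hπ
          refine le_antisymm (hT1 P π.1) ?_
          by_contra hlt
          have : P ∈ Abv ι (some π) := not_le.1 hlt
          exact hπ (Option.some_injective _ (huniq π₀ (some π) P hv₀ this))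
        have hself : P.valuation L (ι π₀.1) = WithZero.exp (-1 : ℤ) := by
          refine hT6 π₀ P ?_ hv₀
          intro hd
          exact hv₀S (hS π₀ hd)
        rw [Units.val_mul, map_mul, hvg, hn π₀ hv₀S P hv₀]
        by_cases hmem : π₀ ∈ T
        · rw [Finset.prod_eq_single π₀ (fun π _ hπ => by rw [hother π hπ, one_zpow])
            (fun h => absurd hmem h), hself, ← WithZero.exp_zsmul, ← WithZero.exp_add]
          simp
        · rw [Finset.prod_eq_one (fun π hπ => by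
            rw [hother π (fun h => hmem (h ▸ hπ)), one_zpow]), mul_one]
          have h1 : P.valuation L (y : L) = 1 := by
            by_contra hne
            exact hmem (hfin.mem_toFinset.2 ⟨P, hv₀, hne⟩)
          rw [← hn π₀ hv₀S P hv₀, h1]
    · rw [hy, smul_mul', hσg, mul_div_mul_right_eq_div]

end Pool.Agent.PTK


end

section

/-!
# Existence of the systems, `q = 1 (mod 3)`
-/

set_option autoImplicit false

open NumberField IsDedekindDomain Finset
open scoped nonZeroDivisors Pointwise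

namespace Pool.Agent.PTK

open Pool.Agent.Lib_helper18 Pool.Agent.Lib_helper18.Eis Pool.Agent.Lib_helper84.Cub
open Pool.Agent.PT Pool.Agent.PTE Pool.Agent.PT3 Pool.Agent.PTL Pool.Agent.PTN

/-- PTK_PLU: existence of the systems. -/
theorem PLU_thm (hESYT : ESYT) : Stmt_PLU := by
  intro h n m k π p e r f w0 c d v hNF hh hHB δ hδ
  obtain ⟨hv, hspan, hδ'⟩ := hHB
  obtain ⟨s, τ, b, X, Y, hs, hAdN, hV, hind, h3, hLam, hρ⟩ := hδ' δ hδ
  obtain ⟨P, Q, P', Q', hSys, hSw⟩ := hESYT h n m k π p e r f w0 c (s + 1) b hNF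
    (fun i => (hAdN i).1) hV hind h3
  exact ⟨s, τ, b, X, Y, P, Q, P', Q', ⟨hs, hAdN, hSys, hSw, hLam, hρ⟩⟩

end Pool.Agent.PTK


end

section

/-!
# The average rank of prime twists: the classes of the points form a group
-/

set_option autoImplicit false

namespace Pool.Agent.PTK.S1G

open Pool.Agent.Lib_helper18 Pool.Agent.Lib_helper18.Eis Pool.Agent.Lib_helper84.Cub
open Pool.Agent.PT Pool.Agent.PTN WeierstrassCurve.Affine

variable {K : Type} [Field K] [CharZero K] {ι : Eis →+* K} {c : K →ₐ[ℚ] K}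

/-- an identity up to cubes in the field gives one in the ring -/
theorem descend (hK : KF K ι c) {a b : Eis} {u v : K} (hu : u ≠ 0) (hv : v ≠ 0)
    (h : ι a * u ^ 3 = ι b * v ^ 3) :
    ∃ g g' : Eis, g ≠ 0 ∧ g' ≠ 0 ∧ a * g ^ 3 = b * g' ^ 3 := by
  obtain ⟨e1, d1, hd1, h1⟩ := hK.frac u
  obtain ⟨e2, d2, hd2, h2⟩ := hK.frac v
  have hd1K : (d1 : K) ≠ 0 := by exact_mod_cast hd1
  have hd2K : (d2 : K) ≠ 0 := by exact_mod_cast hd2
  have hg : ι (e1 * (d2 : Eis)) = u * d1 * d2 := by rw [map_mul, map_intCast, h1]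
  have hg' : ι (e2 * (d1 : Eis)) = v * d2 * d1 := by rw [map_mul, map_intCast, h2]
  refine ⟨e1 * (d2 : Eis), e2 * (d1 : Eis), fun h0 => ?_, fun h0 => ?_, hK.inj ?_⟩
  · rw [h0, map_zero] at hg
    exact mul_ne_zero (mul_ne_zero hu hd1K) hd2K hg.symm
  · rw [h0, map_zero] at hg'
    exact mul_ne_zero (mul_ne_zero hv hd2K) hd1K hg'.symm
  · rw [map_mul, map_mul, map_pow, map_pow, hg, hg']
    linear_combination (d1 : K) ^ 3 * (d2 : K) ^ 3 * h

end Pool.Agent.PTK.S1G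

namespace Pool.Agent.PTK

open Pool.Agent.Lib_helper18 Pool.Agent.Lib_helper18.Eis Pool.Agent.Lib_helper84.Cub
open Pool.Agent.PT Pool.Agent.PTE Pool.Agent.PT3 Pool.Agent.PTL Pool.Agent.PTN
open WeierstrassCurve.Affine

theorem S1G_thm (h0 : Stmt_KEX) (h2 : Stmt_KEMB) (h4 : Stmt_KAD) (h7 : Stmt_KMI) : Stmt_S1G := by
  classical
  intro B hB hcf hnc ζ ζ' hζ hζ'
  obtain ⟨K, fK, cK, dK, ι, c, hK⟩ := h0
  obtain ⟨cc, j, hcc, hj, -, -, -⟩ := h2 K ι c B hK hB
  obtain ⟨hk0, hadd⟩ := h4 K ι c B hK hB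
  -- a point with the given class
  have hpt : ∀ ζ, S1 B ζ → ∃ (P : CubeRank.GA B) (g : K), g ≠ 0 ∧
      kap ι (j P) = ι ζ * g ^ 3 := by
    rintro ζ (rfl | ⟨x, y, z, hco, hz, he, rfl⟩)
    · exact ⟨0, 1, one_ne_zero, by rw [map_zero, KID.kap_zero, map_one]; ring⟩
    · obtain ⟨P, hP⟩ := (CubeRank.basics B hB).2.1 x y z hz hco he
      obtain ⟨g, hg, e⟩ := h7 K ι c B hK hB j hj P x y z hP
      exact ⟨P, g, hg, e⟩
  -- the class of a point
  have hcl : ∀ P : CubeRank.GA B, ∃ ζ : Eis, S1 B ζ ∧ ∃ g : K, g ≠ 0 ∧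
      kap ι (j P) = ι ζ * g ^ 3 := by
    intro P
    by_cases hP : P = 0
    · refine ⟨1, Or.inl rfl, 1, one_ne_zero, ?_⟩
      rw [hP, map_zero, KID.kap_zero, map_one]; ring
    · obtain ⟨a, b, z, hC⟩ := (CubeRank.basics B hB).1 hcf P hP
      obtain ⟨g, hg, e⟩ := h7 K ι c B hK hB j hj P a b z hC
      exact ⟨_, Or.inr ⟨a, b, z, hC.2.1, hC.1, hC.2.2.1, rfl⟩, g, hg, e⟩
  obtain ⟨P, g1, hg1, e1⟩ := hpt ζ hζ
  obtain ⟨P', g2, hg2, e2⟩ := hpt ζ' hζ'
  obtain ⟨ζ'', hS, g3, hg3, e3⟩ := hcl (P - P')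
  have hp' := hk0 (j P')
  obtain ⟨k, hk, ek⟩ := KID.kap_sub hk0 hadd (j P) (j P')
  have hζ0 : ι ζ' ≠ 0 := by
    intro h
    rw [e2, h, zero_mul] at hp'
    exact hp' rfl
  rw [map_sub, ek, e1, e2] at e3
  have e4 : ι (ζ'' * ζ') * (g3 * g2) ^ 3 = ι ζ * (g1 * k) ^ 3 := by
    rw [map_mul]
    field_simp at e3
    linear_combination -e3
  obtain ⟨g, g', hg, hg', e5⟩ := S1G.descend hK (mul_ne_zero hg3 hg2) (mul_ne_zero hg1 hk) e4
  exact ⟨ζ'', g, g', hS, hg, hg', e5⟩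

end Pool.Agent.PTK


end

section

/-!
# PTK_SVF: the sum of the local terms of a point
-/

set_option autoImplicit false

namespace Pool.Agent.PTK

open Pool.Agent.Lib_helper18 Pool.Agent.Lib_helper18.Eis Pool.Agent.Lib_helper84.Cub
open Pool.Agent.PT

namespace SVF

/-- Finite support and sum zero. -/
def FZ (f : Pl → ZMod 3) : Prop := (Function.support f).Finite ∧ ∑ᶠ v : Pl, f v = 0

lemma FZ.add {f g : Pl → ZMod 3} (hf : FZ f) (hg : FZ g) : FZ (fun v => f v + g v) := by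
  refine ⟨(hf.1.union hg.1).subset (Function.support_add f g), ?_⟩
  rw [finsum_add_distrib hf.1 hg.1, hf.2, hg.2, add_zero]

lemma FZ.sub {f g : Pl → ZMod 3} (hf : FZ f) (hg : FZ g) : FZ (fun v => f v - g v) := by
  refine ⟨(hf.1.union hg.1).subset (Function.support_sub f g), ?_⟩
  rw [finsum_sub_distrib hf.1 hg.1, hf.2, hg.2, sub_zero]

lemma N''_ne {b x p q p' q' : Eis} (h : SolE b x p q p' q') : x * q' ^ 3 - q ^ 3 ≠ 0 := by
  intro h1
  apply h.n2
  have h2 := h.eq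
  have h3 : p ^ 3 - x * p' ^ 3 = b * (x * q' ^ 3 - q ^ 3) := by linear_combination h2
  rw [h3, h1, mul_zero]

end SVF

open _root_.Pool.Agent.PTK.SVF in
/-- PTK_SVF. -/
theorem SVF_thm (hSSL : SSL) : Stmt_SVF := by
  have key : ∀ a b : Eis, a ≠ 0 → b ≠ 0 → FZ (fun v : Pl => sy v a b) :=
    fun a b ha hb => hSSL.2.2.2 a b ha hb
  intro b x p q p' q' X Y _ _ hs _ _ hn hD
  have hN2 := N''_ne hs
  exact (((((key _ _ hD.d1 hs.n2).sub (key _ _ hD.d2 hs.n2)).sub (key _ _ hD.d1 hn)).add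
    (key _ _ hD.d2 hn)).sub ((((key _ _ hD.d3 hN2).sub (key _ _ hD.d4 hN2)).sub
    (key _ _ hD.d3 hn)).add (key _ _ hD.d4 hn)))

end Pool.Agent.PTK


end

section

/-!
# The average of `3^r`: from `UpS` to `AboveA`
-/

set_option autoImplicit false

open NumberField IsDedekindDomain Finset
open scoped nonZeroDivisors Pointwise

namespace Pool.Agent.PTK

open Pool.Agent.Lib_helper18 Pool.Agent.Lib_helper18.Eis Pool.Agent.Lib_helper84.Cub
open Pool.Agent.PT Pool.Agent.PTE Pool.Agent.PT3 Pool.Agent.PTL Pool.Agent.PTN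

namespace UPA

/-- a term with a weight in `[0, 1]` -/
theorem term_le (P : Prop) [Decidable P] (a b : ℝ) (h0 : 0 ≤ b) (h1 : b ≤ 1) :
    |if P then a * b else 0| ≤ |a| := by
  split_ifs
  · rw [abs_mul, abs_of_nonneg h0]
    exact mul_le_of_le_one_right (abs_nonneg a) h1
  · rw [abs_zero]
    exact abs_nonneg a

end UPA

open Classical in
/-- from `UpS` to `AboveA` -/
theorem UPA_thm (hSPP : SPP) : Stmt_UPA := by
  intro h n m k π p e r f w0 c a F x hN hU
  obtain ⟨S, hS⟩ : ∃ S : ℕ → Set ℕ, S = fun E => {q : ℕ | q % 3 = a ∧ InCT E π w0 c q} :=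
    ⟨_, rfl⟩
  rw [← hS] at hU
  obtain ⟨K, hK⟩ := hU
  refine ⟨K + ∑ E ∈ ({1, 2} : Finset ℕ), ∑ q ∈ univ.image p, 2 * |F (BB h n E q)|,
    fun σ h1 h2 T => ?_⟩
  have e1 := hK σ h1 h2 T
  have e2 : SumA ((3 ^ h * n : ℕ) : ℤ) a (Kl π w0 c) F σ T ≤
      ∑ E ∈ ({1, 2} : Finset ℕ), ∑ q ∈ T,
        (if q.Prime ∧ q ∈ S E then
          F (BB h n E q) * (q : ℝ) ^ (-σ) else 0) +
      ∑ E ∈ ({1, 2} : Finset ℕ), ∑ q ∈ univ.image p, 2 * |F (BB h n E q)| := by
    unfold SumA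
    rw [← Finset.sum_add_distrib]
    refine Finset.sum_le_sum fun E _ => ?_
    have hB : ∀ q : ℕ, ((3 ^ h * n : ℕ) : ℤ) * (q : ℤ) ^ E = BB h n E q := by
      intro q
      unfold BB
      push_cast
      ring
    have e3 : ∑ q ∈ T, (if q ∈ univ.image p then 2 * |F (BB h n E q)| else 0) ≤
        ∑ q ∈ univ.image p, 2 * |F (BB h n E q)| := by
      rw [← Finset.sum_filter]
      refine Finset.sum_le_sum_of_subset_of_nonneg ?_ fun q _ _ =>
        mul_nonneg zero_le_two (abs_nonneg _)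
      intro q hq
      exact (Finset.mem_filter.1 hq).2
    refine le_trans ?_ (add_le_add_right e3 _)
    rw [← Finset.sum_add_distrib]
    refine Finset.sum_le_sum fun q _ => ?_
    rw [hB]
    by_cases hqp : q ∈ univ.image p
    · rw [if_pos hqp]
      obtain ⟨i, _, hi⟩ := Finset.mem_image.1 hqp
      have hq : q.Prime := hi ▸ hN.pp i
      have hq0 : 0 ≤ (q : ℝ) ^ (-σ) := Real.rpow_nonneg (Nat.cast_nonneg q) _
      have hq1 : (q : ℝ) ^ (-σ) ≤ 1 :=
        Real.rpow_le_one_of_one_le_of_nonpos (by exact_mod_cast hq.one_lt.le) (by linarith)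
      have t1 := UPA.term_le (q.Prime ∧ q % 3 = a ∧ Kl π w0 c ((q : ℤ) ^ E)) (F (BB h n E q))
        ((q : ℝ) ^ (-σ)) hq0 hq1
      have t2 := UPA.term_le
        (q.Prime ∧ q ∈ S E) (F (BB h n E q))
        ((q : ℝ) ^ (-σ)) hq0 hq1
      have t3 := (abs_le.1 t1).2
      have t4 := (abs_le.1 t2).1
      linarith
    · rw [if_neg hqp, add_zero]
      by_cases hq : q.Prime
      · have hqi : ∀ i, q ≠ p i := fun i hi =>
          hqp (Finset.mem_image.2 ⟨i, mem_univ _, hi.symm⟩)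
        have hiff := CAB.kl_iff hSPP hN w0 c hq hqi E
        refine le_of_eq ?_
        refine if_congr ?_ rfl rfl
        rw [hiff, hS]
        rfl
      · rw [if_neg fun hc => hq hc.1, if_neg fun hc => hq hc.1]
  rw [← add_assoc]
  exact e2.trans (add_le_add e1 (le_refl _))

end Pool.Agent.PTK


end
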