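import Mathlib
import Pool.Agent.PTDM.C43
import Pool.Agent.PTDM.C44
import Pool.Agent.PTDM.C45
import Pool.Agent.PTKM.C02

/-! Parts: PTKX.AV1, PTKX.KUP, PTKX.AM1, PTKX.AVR, PTKX.AV2, PTKX.AM2, PTKX.PR2, PTKX.PR1 -/

section

/-! PTK_AV1 (helper13): the averages in a class, `q = 1 (mod 3)`. -/

set_option autoImplicit false

open Finset

namespace Pool.Agent.PTK

open Pool.Agent.Lib_helper18 Pool.Agent.Lib_helper18.Eis Pool.Agent.Lib_helper84.Cub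
open Pool.Agent.PT Pool.Agent.PTE Pool.Agent.PT3 Pool.Agent.PTL Pool.Agent.PTN

namespace AV1

/-! ### scalar inequalities -/

lemma nat1 (w : ℕ) : (w : ℝ) ≤ 1 / 2 + 1 / 6 * 3 ^ w := by
  induction w with
  | zero => norm_num
  | succ w ih =>
    rcases Nat.eq_zero_or_pos w with rfl | hw
    · norm_num
    · have h1 : (3 : ℝ) ≤ 3 ^ w := by
        calc (3 : ℝ) = 3 ^ 1 := by norm_num
          _ ≤ 3 ^ w := pow_le_pow_right₀ (by norm_num) hw
      rw [pow_succ]; push_cast; linarith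

lemma nat2 (w : ℕ) : (w : ℝ) ≤ 3 / 2 + 1 / 18 * 3 ^ w := by
  induction w with
  | zero => norm_num
  | succ w ih =>
    rcases Nat.lt_or_ge w 2 with hw | hw
    · interval_cases w <;> norm_num
    · have h1 : (9 : ℝ) ≤ 3 ^ w := by
        calc (9 : ℝ) = 3 ^ 2 := by norm_num
          _ ≤ 3 ^ w := pow_le_pow_right₀ (by norm_num) hw
      rw [pow_succ]; push_cast; linarith

/-- the sum of two bounds -/
lemma up_add {S : ℕ → Set ℕ} {G G' : ℕ → ℕ → ℝ} {x y : ℝ} (h1 : UpS S G x) (h2 : UpS S G' y) :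
    UpS S (fun E q => G E q + G' E q) (x + y) := by
  obtain ⟨K, hK⟩ := h1
  obtain ⟨K', hK'⟩ := h2
  refine ⟨K + K', fun σ g1 g2 T => ?_⟩
  have a := add_le_add (hK σ g1 g2 T) (hK' σ g1 g2 T)
  refine le_trans (le_of_eq ?_) (a.trans (le_of_eq (by ring)))
  rw [← Finset.sum_add_distrib]
  refine Finset.sum_congr rfl fun E _ => ?_
  rw [← Finset.sum_add_distrib]
  refine Finset.sum_congr rfl fun q _ => ?_
  split_ifs
  · ring
  · ring

lemma dN_cases (h n : ℕ) (w0 : ZMod 3) : dN h n w0 = 0 ∨ dN h n w0 = 1 ∨ dN h n w0 = 2 := by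
  unfold dN
  split_ifs
  · exact Or.inl rfl
  · exact Or.inr (Or.inr rfl)
  · exact Or.inr (Or.inl rfl)

lemma alg1 (a b D L d x y : ℝ) (hx : x ≠ 0) (hy : y ≠ 0) :
    ((x - 1) * (a * (2 / x / y) + b * ((3 + D) * (2 / x / y)) + L * (2 / x / y)) +
      2 * ((a + 1 + d) * (1 / x / y) + b * ((3 + D) * (1 / x / y)))) / 2 =
      (a + b * (3 + D) + ((1 - 1 / x) * L + (d + 1) / x)) / y := by
  field_simp
  ring

lemma alg2 (D x y : ℝ) (hx : x ≠ 0) (hy : y ≠ 0) :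
    ((x - 1) * ((3 + D) * (4 * (2 / x / y))) + (2 * (3 * x)) * ((3 + D) * (1 / x / y))) / 2 =
      (7 - 4 / x) * (3 + D) / y := by
  field_simp
  ring

/-- the number of the patterns -/
lemma card_pat (d : ℕ) : ((Fintype.card {δ : Fin d → ZMod 3 // δ ≠ 0} : ℕ) : ℝ) = 3 ^ d - 1 := by
  have h1 : Fintype.card {δ : Fin d → ZMod 3 // δ ≠ 0} = 3 ^ d - 1 := by
    rw [Fintype.card_subtype_compl, Fintype.card_subtype_eq, Fintype.card_fun, ZMod.card,
      Fintype.card_fin]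
  rw [h1, Nat.cast_sub (Nat.one_le_pow _ _ (by norm_num))]
  push_cast
  ring

open Classical in
/-- The general bound. `N` is the number of the classes of points, `κ δ` the coranks, `R` the rank. -/
theorem gen (hUPS : Stmt_UPS) {d : ℕ} (S : ℕ → Set ℕ)
    (TP : {δ : Fin d → ZMod 3 // δ ≠ 0} → ℕ → Set ℕ) (TZ : ℕ → Set ℕ)
    (R N : ℕ → ℕ → ℕ) (κ : {δ : Fin d → ZMod 3 // δ ≠ 0} → ℕ → ℕ → ℕ) (M : ℕ)
    (hN : ∀ E q, (E = 1 ∨ E = 2) → q.Prime → M < q → q ∈ S E → ∃ w, N E q = 3 ^ w ∧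
      ((q ∈ TZ E ∧ R E q ≤ w + 1 + d) ∨ ∃ δ δ' : {δ : Fin d → ZMod 3 // δ ≠ 0}, δ ≠ δ' ∧
        q ∈ TP δ E ∧ q ∈ TP δ' E ∧ R E q ≤ w + κ δ E q ∧ R E q ≤ w + κ δ' E q))
    (F : ℕ → ℝ) (hF : Monotone F) (φ : ℕ → ℕ → ℝ) (ψ : ℕ → ℝ) (hφ : ∀ a b, 0 ≤ φ a b)
    (hψ : ∀ a, 0 ≤ ψ a) (h1 : ∀ w a, F (w + a) ≤ φ (3 ^ w) a)
    (h2 : ∀ w, 2 * F (w + 1 + d) ≤ ψ (3 ^ w)) {x y : ℝ}
    (hx : ∀ δ : {δ : Fin d → ZMod 3 // δ ≠ 0},
      UpS (TP δ) (fun E q => φ (N E q) (κ δ E q)) x)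
    (hy : UpS TZ (fun E q => ψ (N E q)) y) :
    UpS S (fun E q => F (R E q)) (((3 ^ d - 1) * x + y) / 2) := by
  have key := hUPS.1 (Option {δ : Fin d → ZMod 3 // δ ≠ 0}) S (fun E q => F (R E q))
    (fun i => Option.rec TZ TP i)
    (fun i => Option.rec (fun E q => ψ (N E q)) (fun δ E q => φ (N E q) (κ δ E q)) i)
    (fun i => Option.rec y (fun _ => x) i) 2 M (by norm_num) ?_ ?_ ?_
  · have e : ∑ i : Option {δ : Fin d → ZMod 3 // δ ≠ 0},
        (Option.rec y (fun _ => x) i : ℝ) = (3 ^ d - 1) * x + y := by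
      rw [Fintype.sum_option]
      simp only [Finset.sum_const, Finset.card_univ, nsmul_eq_mul]
      rw [card_pat, add_comm]
    rw [e] at key
    exact key
  · intro i E q
    cases i with
    | none => exact hψ _
    | some δ => exact hφ _ _
  · intro E q hE hq hM hS
    rw [Fintype.sum_option]
    obtain ⟨w, hw, h | ⟨δ, δ', hne, hP, hP', hR, hR'⟩⟩ := hN E q hE hq hM hS
    · have a1 : 2 * F (R E q) ≤ ψ (N E q) := by
        rw [hw]
        refine le_trans ?_ (h2 w)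
        have := hF h.2
        linarith
      have a2 : 0 ≤ ∑ i : {δ : Fin d → ZMod 3 // δ ≠ 0},
          (if q ∈ TP i E then φ (N E q) (κ i E q) else 0) := by
        refine Finset.sum_nonneg fun i _ => ?_
        split_ifs
        · exact hφ _ _
        · exact le_rfl
      have a3 : (if q ∈ TZ E then ψ (N E q) else 0) = ψ (N E q) := if_pos h.1
      show 2 * F (R E q) ≤ (if q ∈ TZ E then ψ (N E q) else 0) +
        ∑ i : {δ : Fin d → ZMod 3 // δ ≠ 0}, (if q ∈ TP i E then φ (N E q) (κ i E q) else 0)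
      rw [a3]
      linarith
    · have a3 : 0 ≤ (if q ∈ TZ E then ψ (N E q) else 0) := by
        split_ifs
        · exact hψ _
        · exact le_rfl
      have a4 : ∑ i ∈ ({δ, δ'} : Finset {δ : Fin d → ZMod 3 // δ ≠ 0}),
          (if q ∈ TP i E then φ (N E q) (κ i E q) else 0) ≤
          ∑ i : {δ : Fin d → ZMod 3 // δ ≠ 0},
          (if q ∈ TP i E then φ (N E q) (κ i E q) else 0) := by
        refine Finset.sum_le_sum_of_subset_of_nonneg (Finset.subset_univ _) fun i _ _ => ?_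
        split_ifs
        · exact hφ _ _
        · exact le_rfl
      rw [Finset.sum_pair hne] at a4
      have a5 : (if q ∈ TP δ E then φ (N E q) (κ δ E q) else 0) =
          φ (N E q) (κ δ E q) := if_pos hP
      have a6 : (if q ∈ TP δ' E then φ (N E q) (κ δ' E q) else 0) =
          φ (N E q) (κ δ' E q) := if_pos hP'
      rw [a5, a6] at a4
      have b1 := (hF hR).trans (h1 w (κ δ E q))
      have b2 := (hF hR').trans (h1 w (κ δ' E q))
      rw [← hw] at b1 b2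
      show 2 * F (R E q) ≤ (if q ∈ TZ E then ψ (N E q) else 0) +
        ∑ i : {δ : Fin d → ZMod 3 // δ ≠ 0}, (if q ∈ TP i E then φ (N E q) (κ i E q) else 0)
      linarith
  · intro i
    cases i with
    | none => exact hy
    | some δ => exact hx δ

end AV1

open _root_.Pool.Agent.PTK.AV1 in
theorem AV1_thm (hUPS : Stmt_UPS) (hUPA : Stmt_UPA) (hLAM : Stmt_LAM) (hNHPT : Stmt_NHPT)
    (hPLU : Stmt_PLU) (hNBU : Stmt_NBU) (hNBZ : Stmt_NBZ) (hWGU : Stmt_WGU) (hPAT : Stmt_PAT)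
    (hAVG : Stmt_AVG) (hAVZ : Stmt_AVZ) (hSPLT : SPLT) : Stmt_AV1 := by
  intro h n m k π p e r f w0 c hN hh
  obtain ⟨d, v, hd, hHB⟩ := hNHPT h n m k π p e r f w0 c hN hh
  have hHB' : HB h n π w0 c v := hHB
  have hn : 0 < n := by
    rw [hN.eq]
    refine Nat.mul_pos (Finset.prod_pos fun i _ => pow_pos (hN.pp i).pos _)
      (Finset.prod_pos fun j _ => pow_pos (hN.rp j).pos _)
  choose s τ b X Y P Q P' Q' hPl using fun δ : {δ : Fin d → ZMod 3 // δ ≠ 0} =>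
    hPLU h n m k π p e r f w0 c d v hN hh hHB' δ.1 δ.2
  obtain ⟨M, hM⟩ := hPAT d v (fun i => (hHB.1 i).1.ne)
  set S : ℕ → Set ℕ := fun E => {q | q % 3 = 1 ∧ InCT E π w0 c q} with hS
  set κ : {δ : Fin d → ZMod 3 // δ ≠ 0} → ℕ → ℕ → ℕ := fun δ E q =>
    kU h n (b δ) (X δ) (Y δ) (P δ) (Q δ) (P' δ) (Q' δ) E q with hκ
  set N : ℕ → ℕ → ℕ := fun E q => Nat.card (WqS h n π p e r w0 c (BB h n E q)) with hNdef
  set R : ℕ → ℕ → ℕ := fun E q => CubeRank.rr (BB h n E q) with hR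
  set TP : {δ : Fin d → ZMod 3 // δ ≠ 0} → ℕ → Set ℕ := fun δ E =>
    {q | q % 3 = 1 ∧ InCT E π w0 c q ∧ q ∈ Pat v δ.1} with hTP
  set TZ : ℕ → Set ℕ := fun E => {q | q % 3 = 1 ∧ InCT E π w0 c q ∧ q ∈ ZP v} with hTZ
  have main : ∀ E q, (E = 1 ∨ E = 2) → q.Prime → M + n + 3 < q → q ∈ S E → ∃ w, N E q = 3 ^ w ∧
      ((q ∈ TZ E ∧ R E q ≤ w + 1 + d) ∨ ∃ δ δ' : {δ : Fin d → ZMod 3 // δ ≠ 0}, δ ≠ δ' ∧
        q ∈ TP δ E ∧ q ∈ TP δ' E ∧ R E q ≤ w + κ δ E q ∧ R E q ≤ w + κ δ' E q) := by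
    intro E q hE hq hMq hqS
    have hqn : ¬ q ∣ n := fun hdvd => by
      have := Nat.le_of_dvd hn hdvd
      omega
    obtain ⟨ρ, hρ⟩ := hSPLT.1 q hq hqS.1
    obtain ⟨w, hw⟩ := (hWGU h n m k π p e r f w0 c E q ρ hN hh hE hq (by omega) hqS.1 hqS.2 hqn
      hρ).1
    refine ⟨w, hw, ?_⟩
    rcases hM q hq (by omega) hqS.1 with hZ | ⟨δ, δ', hδ, hδ', hne, hP, hP'⟩
    · left
      refine ⟨⟨hqS.1, hqS.2, hZ⟩, ?_⟩
      have g := hNBZ h n m k π p e r f w0 c E q hN hh hE hq (by omega) hqS.1 hqS.2 hqn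
      rw [hw, Nat.log_pow (by norm_num), ← hd] at g
      exact CubeRank.rr_le g
    · right
      refine ⟨⟨δ, hδ⟩, ⟨δ', hδ'⟩, fun hh => hne (congrArg Subtype.val hh), ⟨hqS.1, hqS.2, hP⟩,
        ⟨hqS.1, hqS.2, hP'⟩, ?_, ?_⟩
      · have g := hNBU h n m k π p e r f w0 c d v δ _ _ _ _ _ _ _ _ _ E q hN hh hδ (hPl ⟨δ, hδ⟩)
          hE hq (by omega) hqS.1 hqS.2 hqn hP
        rw [hw, Nat.log_pow (by norm_num)] at g
        exact CubeRank.rr_le g
      · have g := hNBU h n m k π p e r f w0 c d v δ' _ _ _ _ _ _ _ _ _ E q hN hh hδ'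
          (hPl ⟨δ', hδ'⟩) hE hq (by omega) hqS.1 hqS.2 hqn hP'
        rw [hw, Nat.log_pow (by norm_num)] at g
        exact CubeRank.rr_le g
  -- the averages for the patterns
  have hA := fun δ : {δ : Fin d → ZMod 3 // δ ≠ 0} =>
    hAVG h n m k π p e r f w0 c d v δ.1 _ _ _ _ _ _ _ _ _ hN hh δ.2 (hPl δ)
  have hZ := hAVZ h n m k π p e r f w0 c d v hN hh hHB' hd
  set D := dN h n w0 with hD
  have h3d : (0 : ℝ) < 3 ^ d := by positivity
  have h3m : (0 : ℝ) < 3 ^ (m + 1) := by positivity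
  have h3D : (0 : ℝ) < 3 ^ D := by positivity
  constructor
  · -- the rank
    have rank : ∀ α β z : ℝ, 0 ≤ α → 0 ≤ β → (∀ w : ℕ, (w : ℝ) ≤ α + β * 3 ^ w) →
        α + β * (3 + 3 ^ D) + 11 / 9 ≤ z → UpS S (fun E q => (R E q : ℝ)) (z / 3 ^ (m + 1)) := by
      intro α β z hα hβ hw hz
      have g := gen hUPS S TP TZ R N κ (M + n + 3) main (fun a => (a : ℝ)) Nat.mono_cast
        (fun a b => α * 1 + β * (a : ℝ) + (b : ℝ))
        (fun a => 2 * ((α + 1 + d) * 1 + β * (a : ℝ)))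
        (fun a b => by positivity) (fun a => by positivity)
        (fun w a => by
          have := hw w
          push_cast
          linarith)
        (fun w => by
          have := hw w
          push_cast
          linarith)
        (x := α * (2 / 3 ^ d / 3 ^ (m + 1)) + β * ((3 + 3 ^ D) * (2 / 3 ^ d / 3 ^ (m + 1))) +
          Esk (d - 1) (fun c => (c : ℝ)) * (2 / 3 ^ d / 3 ^ (m + 1)))
        (y := 2 * ((α + 1 + d) * (1 / 3 ^ d / 3 ^ (m + 1)) +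
          β * ((3 + 3 ^ D) * (1 / 3 ^ d / 3 ^ (m + 1)))))
        (fun δ => by
          exact up_add (up_add (hUPS.2.2 _ _ _ α hα (hA δ).2.2.2)
            (hUPS.2.2 _ _ _ β hβ (hA δ).2.1)) (hA δ).2.2.1)
        (by
          exact hUPS.2.2 _ _ _ 2 (by norm_num)
            (up_add (hUPS.2.2 _ _ _ (α + 1 + d) (by positivity) hZ.2)
              (hUPS.2.2 _ _ _ β hβ hZ.1)))
      refine hUPS.2.1 _ _ _ _ ?_ g
      have hL := hLAM.2 d
      have e1 := alg1 α β (3 ^ D) (Esk (d - 1) (fun c => (c : ℝ))) d (3 ^ d) (3 ^ (m + 1))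
        h3d.ne' h3m.ne'
      rw [e1]
      refine div_le_div_of_nonneg_right ?_ h3m.le
      linarith
    refine hUPA h n m k π p e r f w0 c 1 (fun A => (CubeRank.rr A : ℝ)) _ hN ?_
    show UpS S (fun E q => (R E q : ℝ)) (cQ D / 3 ^ (m + 1))
    rcases dN_cases h n w0 with hD0 | hD1 | hD2
    · rw [← hD] at hD0
      refine rank (1 / 2) (1 / 6) _ (by norm_num) (by norm_num) nat1 ?_
      rw [cQ, if_pos hD0, hD0]
      norm_num
    · rw [← hD] at hD1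
      refine rank (1 / 2) (1 / 6) _ (by norm_num) (by norm_num) nat1 ?_
      rw [cQ, if_neg (by omega), if_pos hD1, hD1]
      norm_num
    · rw [← hD] at hD2
      refine rank (3 / 2) (1 / 18) _ (by norm_num) (by norm_num) nat2 ?_
      rw [cQ, if_neg (by omega), if_neg (by omega), hD2]
      norm_num
  · -- the powers
    refine hUPA h n m k π p e r f w0 c 1 (fun A => 3 ^ CubeRank.rr A) _ hN ?_
    show UpS S (fun E q => (3 : ℝ) ^ (R E q)) (7 * (3 + 3 ^ D) / 3 ^ (m + 1))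
    have g := gen hUPS S TP TZ R N κ (M + n + 3) main (fun a => (3 : ℝ) ^ a)
      (fun a b hab => pow_le_pow_right₀ (by norm_num) hab)
      (fun a b => (a : ℝ) * 3 ^ b)
      (fun a => (2 * (3 * 3 ^ d)) * (a : ℝ))
      (fun a b => by positivity) (fun a => by positivity)
      (fun w a => by
        push_cast
        rw [pow_add])
      (fun w => by
        push_cast
        rw [pow_add, pow_add, pow_one]
        linarith)
      (x := (3 + 3 ^ D) * (4 * (2 / 3 ^ d / 3 ^ (m + 1))))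
      (y := (2 * (3 * 3 ^ d)) * ((3 + 3 ^ D) * (1 / 3 ^ d / 3 ^ (m + 1))))
      (fun δ => by
        exact (hA δ).1)
      (by
        exact hUPS.2.2 _ _ _ (2 * (3 * 3 ^ d)) (by positivity) hZ.1)
    refine hUPS.2.1 _ _ _ _ ?_ g
    have e1 := alg2 (3 ^ D) (3 ^ d) (3 ^ (m + 1)) h3d.ne' h3m.ne'
    rw [e1]
    refine div_le_div_of_nonneg_right ?_ h3m.le
    refine mul_le_mul_of_nonneg_right ?_ (by positivity)
    have : (0 : ℝ) ≤ 4 / 3 ^ d := by positivity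
    linarith

end Pool.Agent.PTK


end

section

/-!
# PTK_KUP: from tails to averages
-/

set_option autoImplicit false

namespace Pool.Agent.PTK

open Pool.Agent.PT Pool.Agent.PTL Pool.Agent.PTN

namespace KUP

theorem log_nn {σ : ℝ} (h1 : 1 < σ) (h2 : σ ≤ 2) : 0 ≤ Real.log (1 / (σ - 1)) := by
  apply Real.log_nonneg
  rw [le_div_iff₀ (by linarith)]
  linarith

theorem Esk_one (s : ℕ) : Esk s (fun _ => (1 : ℝ)) = 1 := by
  unfold Esk
  have hf : Finite {M : Matrix (Fin s) (Fin s) (ZMod 3) // M.transpose = -M} := inferInstance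
  haveI := Fintype.ofFinite {M : Matrix (Fin s) (Fin s) (ZMod 3) // M.transpose = -M}
  haveI : Nonempty {M : Matrix (Fin s) (Fin s) (ZMod 3) // M.transpose = -M} :=
    ⟨⟨0, by simp⟩⟩
  rw [finsum_eq_sum_of_fintype]
  simp only [Finset.sum_const, Finset.card_univ, Nat.card_eq_fintype_card, nsmul_eq_mul, mul_one]
  have : (Fintype.card {M : Matrix (Fin s) (Fin s) (ZMod 3) // M.transpose = -M} : ℝ) ≠ 0 := by
    exact_mod_cast Fintype.card_ne_zero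
  exact div_self this

end KUP

open _root_.Pool.Agent.PTK.KUP in
theorem KUP_thm (hDOMG : Stmt_DOMG) (hLAW : Stmt_LAW) : Stmt_KUP := by
  intro S R s M x hx hR hT
  have key : ∀ F : ℕ → ℝ, Monotone F → 0 ≤ F 0 →
      UpS S (fun E q => F (R E q)) (Esk s (fun c => F c) * x) := by
    intro F hF h0
    obtain ⟨K, hK⟩ := hDOMG S R (fun t => x * LI s t) M s F hR hT hF h0
    refine ⟨K, fun σ h1 h2 T => ?_⟩
    refine (hK σ h1 h2 T).trans (le_of_eq ?_)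
    have e := hLAW.1 s 0 F
    simp only [Nat.sub_zero, zero_add] at e
    rw [← e]
    have : F 0 * (x * LI s 0) + ∑ t ∈ Finset.range s, (F (t + 1) - F t) * (x * LI s (t + 1)) =
        (F 0 * LI s 0 + ∑ t ∈ Finset.range s, (F (t + 1) - F t) * LI s (t + 1)) * x := by
      rw [add_mul, Finset.sum_mul]
      congr 1
      · ring
      · exact Finset.sum_congr rfl fun t _ => by ring
    rw [this]
  refine ⟨?_, ?_, ?_⟩
  · obtain ⟨K, hK⟩ := key (fun c => (3 : ℝ) ^ c)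
      (fun a b h => pow_le_pow_right₀ (by norm_num) h) (by norm_num)
    refine ⟨K, fun σ h1 h2 T => (hK σ h1 h2 T).trans ?_⟩
    have h4 := hLAW.2.2.2.2.2.2.1 s 0
    simp only [zero_add, pow_zero, mul_one] at h4
    have := mul_le_mul_of_nonneg_right (mul_le_mul_of_nonneg_right h4 hx) (log_nn h1 h2)
    linarith
  · exact key (fun c => (c : ℝ)) (fun a b h => by show (a : ℝ) ≤ (b : ℝ); exact_mod_cast h) (by simp)
  · have := key (fun _ => (1 : ℝ)) monotone_const zero_le_one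
    rwa [Esk_one, one_mul] at this

end Pool.Agent.PTK


end

section

/-!
# PTK_AM1: the averages in a class, `q = 1 (mod 3)`, all moments
-/

set_option autoImplicit false

open Finset

namespace Pool.Agent.PTK

open Pool.Agent.Lib_helper18 Pool.Agent.Lib_helper18.Eis Pool.Agent.Lib_helper84.Cub
open Pool.Agent.PT Pool.Agent.PTE Pool.Agent.PT3 Pool.Agent.PTL Pool.Agent.PTN

namespace AM1

open AV1 in
open Classical in
/-- The general bound. `N` is the number of the classes of points, `κ δ` and `κ₀` the coranks, `R` the rank. -/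
theorem gen (hUPS : Stmt_UPS) {d : ℕ} (S : ℕ → Set ℕ)
    (TP : {δ : Fin d → ZMod 3 // δ ≠ 0} → ℕ → Set ℕ) (TZ : ℕ → Set ℕ)
    (R N : ℕ → ℕ → ℕ) (κ : {δ : Fin d → ZMod 3 // δ ≠ 0} → ℕ → ℕ → ℕ) (κ₀ : ℕ → ℕ → ℕ) (M : ℕ)
    (hN : ∀ E q, (E = 1 ∨ E = 2) → q.Prime → M < q → q ∈ S E → ∃ w, N E q = 3 ^ w ∧
      ((q ∈ TZ E ∧ R E q ≤ w + (κ₀ E q + 1)) ∨ ∃ δ δ' : {δ : Fin d → ZMod 3 // δ ≠ 0}, δ ≠ δ' ∧
        q ∈ TP δ E ∧ q ∈ TP δ' E ∧ R E q ≤ w + κ δ E q ∧ R E q ≤ w + κ δ' E q))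
    (F : ℕ → ℝ) (hF : Monotone F) (φ : ℕ → ℕ → ℝ) (hφ : ∀ a b, 0 ≤ φ a b)
    (h1 : ∀ w a, F (w + a) ≤ φ (3 ^ w) a) {x y : ℝ}
    (hx : ∀ δ : {δ : Fin d → ZMod 3 // δ ≠ 0},
      UpS (TP δ) (fun E q => φ (N E q) (κ δ E q)) x)
    (hy : UpS TZ (fun E q => φ (N E q) (κ₀ E q + 1)) y) :
    UpS S (fun E q => F (R E q)) (((3 ^ d - 1) * x + 2 * y) / 2) := by
  have hy2 := hUPS.2.2 _ _ _ 2 (by norm_num) hy
  have key := hUPS.1 (Option {δ : Fin d → ZMod 3 // δ ≠ 0}) S (fun E q => F (R E q))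
    (fun i => Option.rec TZ TP i)
    (fun i => Option.rec (fun E q => 2 * φ (N E q) (κ₀ E q + 1))
      (fun δ E q => φ (N E q) (κ δ E q)) i)
    (fun i => Option.rec (2 * y) (fun _ => x) i) 2 M (by norm_num) ?_ ?_ ?_
  · have e : ∑ i : Option {δ : Fin d → ZMod 3 // δ ≠ 0},
        (Option.rec (2 * y) (fun _ => x) i : ℝ) = (3 ^ d - 1) * x + 2 * y := by
      rw [Fintype.sum_option]
      simp only [Finset.sum_const, Finset.card_univ, nsmul_eq_mul]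
      rw [card_pat, add_comm]
    rw [e] at key
    exact key
  · intro i E q
    cases i with
    | none => exact mul_nonneg (by norm_num) (hφ _ _)
    | some δ => exact hφ _ _
  · intro E q hE hq hM hS
    rw [Fintype.sum_option]
    obtain ⟨w, hw, h | ⟨δ, δ', hne, hP, hP', hR, hR'⟩⟩ := hN E q hE hq hM hS
    · have a1 : F (R E q) ≤ φ (N E q) (κ₀ E q + 1) := by
        rw [hw]
        exact (hF h.2).trans (h1 w _)
      have a2 : 0 ≤ ∑ i : {δ : Fin d → ZMod 3 // δ ≠ 0},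
          (if q ∈ TP i E then φ (N E q) (κ i E q) else 0) := by
        refine Finset.sum_nonneg fun i _ => ?_
        split_ifs
        · exact hφ _ _
        · exact le_rfl
      have a3 : (if q ∈ TZ E then 2 * φ (N E q) (κ₀ E q + 1) else 0) =
        2 * φ (N E q) (κ₀ E q + 1) := if_pos h.1
      show 2 * F (R E q) ≤ (if q ∈ TZ E then 2 * φ (N E q) (κ₀ E q + 1) else 0) +
        ∑ i : {δ : Fin d → ZMod 3 // δ ≠ 0}, (if q ∈ TP i E then φ (N E q) (κ i E q) else 0)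
      rw [a3]
      linarith
    · have a3 : 0 ≤ (if q ∈ TZ E then 2 * φ (N E q) (κ₀ E q + 1) else 0) := by
        split_ifs
        · exact mul_nonneg (by norm_num) (hφ _ _)
        · exact le_rfl
      have a4 : ∑ i ∈ ({δ, δ'} : Finset {δ : Fin d → ZMod 3 // δ ≠ 0}),
          (if q ∈ TP i E then φ (N E q) (κ i E q) else 0) ≤
          ∑ i : {δ : Fin d → ZMod 3 // δ ≠ 0},
          (if q ∈ TP i E then φ (N E q) (κ i E q) else 0) := by
        refine Finset.sum_le_sum_of_subset_of_nonneg (Finset.subset_univ _) fun i _ _ => ?_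
        split_ifs
        · exact hφ _ _
        · exact le_rfl
      rw [Finset.sum_pair hne] at a4
      have a5 : (if q ∈ TP δ E then φ (N E q) (κ δ E q) else 0) =
          φ (N E q) (κ δ E q) := if_pos hP
      have a6 : (if q ∈ TP δ' E then φ (N E q) (κ δ' E q) else 0) =
          φ (N E q) (κ δ' E q) := if_pos hP'
      rw [a5, a6] at a4
      have b1 := (hF hR).trans (h1 w (κ δ E q))
      have b2 := (hF hR').trans (h1 w (κ δ' E q))
      rw [← hw] at b1 b2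
      show 2 * F (R E q) ≤ (if q ∈ TZ E then 2 * φ (N E q) (κ₀ E q + 1) else 0) +
        ∑ i : {δ : Fin d → ZMod 3 // δ ≠ 0}, (if q ∈ TP i E then φ (N E q) (κ i E q) else 0)
      linarith
  · intro i
    cases i with
    | none => exact hy2
    | some δ => exact hx δ

lemma alg1 (a b G e1 e2 x y : ℝ) (hx : x ≠ 0) (hy : y ≠ 0) :
    ((x - 1) * (a * (1 * (1 * (2 / x / y))) + b * (G * (1 * (2 / x / y))) +
        1 * (e1 * (2 / x / y))) +
      2 * (a * (1 * (1 * (1 / x / y))) + b * (G * (1 * (1 / x / y))) +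
        1 * (e2 * (1 / x / y)))) / 2 =
      (a + b * G + ((1 - 1 / x) * e1 + 1 / x * e2)) / y := by
  field_simp
  ring

lemma alg2 (g e1 e2 x y : ℝ) (hx : x ≠ 0) (hy : y ≠ 0) :
    ((x - 1) * (g * (e1 * (2 / x / y))) + 2 * (g * (e2 * (1 / x / y)))) / 2 =
      g * ((1 - 1 / x) * e1 + 1 / x * e2) / y := by
  field_simp

/-- the bound for the moments of the number of the classes -/
lemma gM_le (hGMB : Stmt_GMB) (k j D : ℕ) (hj : j ≤ D) (hD : D ≤ 2) : gM k j ≤ cM k D := by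
  obtain ⟨g0, g1, g2, -, -, -, -, -⟩ := hGMB
  unfold cM
  split_ifs with h
  · have h3 : j = 0 ∨ j = 1 := by omega
    rcases h3 with rfl | rfl
    · rw [g0]
    · rw [g1]
  · have h3 : j = 0 ∨ j = 1 ∨ j = 2 := by omega
    rcases h3 with rfl | rfl | rfl
    · rw [g0]
      exact g2 k
    · rw [g1]
      exact g2 k
    · exact le_rfl

end AM1

open _root_.Pool.Agent.PTK.AM1 AV1 in
theorem AM1_thm (hUPS : Stmt_UPS) (hUPA : Stmt_UPA) (hLAM : Stmt_LAM) (hNHPT : Stmt_NHPT)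
    (hPLU : Stmt_PLU) (hPLE : Stmt_PLE) (hNBU : Stmt_NBU) (hNBX : Stmt_NBX) (hWGU : Stmt_WGU)
    (hPAT : Stmt_PAT) (hZPV : Stmt_ZPV) (hJPG : Stmt_JPG) (hJPZ : Stmt_JPZ) (hVDIM : Stmt_VDIM)
    (hGMB : Stmt_GMB) (hESZ : Stmt_ESZ) (hESB : Stmt_ESB) (hSPLT : SPLT) : Stmt_AM1 := by
  intro h n m k π p e r f w0 c hN hh
  obtain ⟨d, v, hd, hHB⟩ := hNHPT h n m k π p e r f w0 c hN hh
  have hHB' : HB h n π w0 c v := hHB
  have hn : 0 < n := by
    rw [hN.eq]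
    refine Nat.mul_pos (Finset.prod_pos fun i _ => pow_pos (hN.pp i).pos _)
      (Finset.prod_pos fun j _ => pow_pos (hN.rp j).pos _)
  choose s τ b X Y P Q P' Q' hPl using fun δ : {δ : Fin d → ZMod 3 // δ ≠ 0} =>
    hPLU h n m k π p e r f w0 c d v hN hh hHB' δ.1 δ.2
  obtain ⟨s₀, τ₀, b₀, X₀, Y₀, P₀, Q₀, P₀', Q₀', hs₀, hPl₀⟩ := hPLE h n m k π p e r f w0 c hN hh
  have hsd : s₀ = d := hs₀.trans hd.symm
  subst hsd
  obtain ⟨M, hM⟩ := hPAT s₀ v (fun i => (hHB.1 i).1.ne)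
  obtain ⟨M₁, hM₁⟩ := hZPV h n m k π p e r f w0 c s₀ τ₀ b₀ X₀ Y₀ P₀ Q₀ P₀' Q₀' s₀ v hN hh hPl₀ hHB'
  set S : ℕ → Set ℕ := fun E => {q | q % 3 = 1 ∧ InCT E π w0 c q} with hS
  set κ : {δ : Fin s₀ → ZMod 3 // δ ≠ 0} → ℕ → ℕ → ℕ := fun δ E q =>
    kU h n (b δ) (X δ) (Y δ) (P δ) (Q δ) (P' δ) (Q' δ) E q with hκ
  set κ₀ : ℕ → ℕ → ℕ := fun E q => kS h n b₀ X₀ Y₀ P₀ Q₀ P₀' Q₀' E q with hκ₀
  set N : ℕ → ℕ → ℕ := fun E q => Nat.card (WqS h n π p e r w0 c (BB h n E q)) with hNdef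
  set R : ℕ → ℕ → ℕ := fun E q => CubeRank.rr (BB h n E q) with hR
  set TP : {δ : Fin s₀ → ZMod 3 // δ ≠ 0} → ℕ → Set ℕ := fun δ E =>
    {q | q % 3 = 1 ∧ InCT E π w0 c q ∧ q ∈ Pat v δ.1} with hTP
  set TZ : ℕ → Set ℕ := fun E => {q | q % 3 = 1 ∧ InCT E π w0 c q ∧ q ∈ ZP b₀} with hTZ
  have main : ∀ E q, (E = 1 ∨ E = 2) → q.Prime → M + M₁ + n + 3 < q → q ∈ S E →
      ∃ w, N E q = 3 ^ w ∧ ((q ∈ TZ E ∧ R E q ≤ w + (κ₀ E q + 1)) ∨
        ∃ δ δ' : {δ : Fin s₀ → ZMod 3 // δ ≠ 0}, δ ≠ δ' ∧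
        q ∈ TP δ E ∧ q ∈ TP δ' E ∧ R E q ≤ w + κ δ E q ∧ R E q ≤ w + κ δ' E q) := by
    intro E q hE hq hMq hqS
    have hqn : ¬ q ∣ n := fun hdvd => by
      have := Nat.le_of_dvd hn hdvd
      omega
    obtain ⟨ρ, hρ⟩ := hSPLT.1 q hq hqS.1
    obtain ⟨w, hw⟩ := (hWGU h n m k π p e r f w0 c E q ρ hN hh hE hq (by omega) hqS.1 hqS.2 hqn
      hρ).1
    refine ⟨w, hw, ?_⟩
    rcases hM q hq (by omega) hqS.1 with hZ | ⟨δ, δ', hδ, hδ', hne, hP, hP'⟩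
    · left
      have hZ' : q ∈ ZP b₀ := hM₁ q hq (by omega) hZ
      refine ⟨⟨hqS.1, hqS.2, hZ'⟩, ?_⟩
      have g := hNBX h n m k π p e r f w0 c s₀ τ₀ b₀ X₀ Y₀ P₀ Q₀ P₀' Q₀' E q hN hh hPl₀ hE hq
        (by omega) hqS.1 hqS.2 hqn hZ'
      rw [hw, Nat.log_pow (by norm_num)] at g
      have g2 := CubeRank.rr_le g
      show CubeRank.rr (BB h n E q) ≤ w + (kS h n b₀ X₀ Y₀ P₀ Q₀ P₀' Q₀' E q + 1)
      omega
    · right
      refine ⟨⟨δ, hδ⟩, ⟨δ', hδ'⟩, fun hh => hne (congrArg Subtype.val hh), ⟨hqS.1, hqS.2, hP⟩,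
        ⟨hqS.1, hqS.2, hP'⟩, ?_, ?_⟩
      · have g := hNBU h n m k π p e r f w0 c s₀ v δ _ _ _ _ _ _ _ _ _ E q hN hh hδ (hPl ⟨δ, hδ⟩)
          hE hq (by omega) hqS.1 hqS.2 hqn hP
        rw [hw, Nat.log_pow (by norm_num)] at g
        exact CubeRank.rr_le g
      · have g := hNBU h n m k π p e r f w0 c s₀ v δ' _ _ _ _ _ _ _ _ _ E q hN hh hδ'
          (hPl ⟨δ', hδ'⟩) hE hq (by omega) hqS.1 hqS.2 hqn hP'
        rw [hw, Nat.log_pow (by norm_num)] at g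
        exact CubeRank.rr_le g
  -- the averages for the patterns
  have hA := fun δ : {δ : Fin s₀ → ZMod 3 // δ ≠ 0} =>
    hJPG h n m k π p e r f w0 c s₀ v δ.1 _ _ _ _ _ _ _ _ _ hN hh δ.2 (hPl δ)
  have hZ := hJPZ h n m k π p e r f w0 c s₀ τ₀ b₀ X₀ Y₀ P₀ Q₀ P₀' Q₀' hN hh hPl₀
  set D := dN h n w0 with hD
  set j := vN h n π p e r w0 c - v0N h n π p e r w0 c with hj
  have hjD : j ≤ D := by
    have := hVDIM h n m k π p e r w0 c hh
    omega
  have hDc := dN_cases h n w0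
  rw [← hD] at hDc
  have hD2 : D ≤ 2 := by omega
  have h3d : (0 : ℝ) < 3 ^ s₀ := by positivity
  have h3m : (0 : ℝ) < 3 ^ (m + 1) := by positivity
  have hmo : Monotone fun _ : ℕ => (1 : ℝ) := fun _ _ _ => le_rfl
  have hmid : Monotone fun c : ℕ => (c : ℝ) := Nat.mono_cast
  have hmid1 : Monotone fun c : ℕ => ((c + 1 : ℕ) : ℝ) := fun a b hab => by
    show ((a + 1 : ℕ) : ℝ) ≤ ((b + 1 : ℕ) : ℝ)
    exact_mod_cast Nat.succ_le_succ hab
  constructor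
  · -- the rank
    have rank : ∀ α β z : ℝ, 0 ≤ α → 0 ≤ β → (∀ w : ℕ, (w : ℝ) ≤ α + β * 3 ^ w) →
        α + β * gM 1 j + 13 / 12 ≤ z → UpS S (fun E q => (R E q : ℝ)) (z / 3 ^ (m + 1)) := by
      intro α β z hα hβ hw hz
      have g := gen hUPS S TP TZ R N κ κ₀ (M + M₁ + n + 3) main (fun a => (a : ℝ)) Nat.mono_cast
        (fun a b => α * ((a : ℝ) ^ 0 * 1) + β * ((a : ℝ) ^ 1 * 1) + 1 * ((a : ℝ) ^ 0 * (b : ℝ)))
        (fun a b => by positivity)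
        (fun w a => by
          have := hw w
          push_cast
          linarith)
        (x := α * (1 * (1 * (2 / 3 ^ s₀ / 3 ^ (m + 1)))) +
          β * (gM 1 j * (1 * (2 / 3 ^ s₀ / 3 ^ (m + 1)))) +
          1 * (Esk (s₀ - 1) (fun c => (c : ℝ)) * (2 / 3 ^ s₀ / 3 ^ (m + 1))))
        (y := α * (1 * (1 * (1 / 3 ^ s₀ / 3 ^ (m + 1)))) +
          β * (gM 1 j * (1 * (1 / 3 ^ s₀ / 3 ^ (m + 1)))) +
          1 * (Esk s₀ (fun c => ((c + 1 : ℕ) : ℝ)) * (1 / 3 ^ s₀ / 3 ^ (m + 1))))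
        (fun δ => by
          have a1 := hA δ 0 _ hmo zero_le_one
          have a2 := hA δ 1 _ hmo zero_le_one
          have a3 := hA δ 0 _ hmid (by simp)
          rw [KUP.Esk_one] at a1 a2
          refine up_add (up_add (hUPS.2.2 _ _ _ α hα a1) (hUPS.2.2 _ _ _ β hβ a2)) ?_
          exact a3.elim fun K hK => ⟨K, fun σ g1 g2 T => by
            refine le_trans (le_of_eq ?_) (hK σ g1 g2 T |>.trans (le_of_eq ?_))
            · refine Finset.sum_congr rfl fun E _ => Finset.sum_congr rfl fun q _ => ?_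
              simp only [one_mul]
              rfl
            · simp only [gM, one_mul]⟩)
        (by
          have a1 := hZ 0 _ hmo zero_le_one
          have a2 := hZ 1 _ hmo zero_le_one
          have a3 := hZ 0 _ hmid1 (by simp)
          rw [KUP.Esk_one] at a1 a2
          refine up_add (up_add (hUPS.2.2 _ _ _ α hα a1) (hUPS.2.2 _ _ _ β hβ a2)) ?_
          exact a3.elim fun K hK => ⟨K, fun σ g1 g2 T => by
            refine le_trans (le_of_eq ?_) (hK σ g1 g2 T |>.trans (le_of_eq ?_))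
            · refine Finset.sum_congr rfl fun E _ => Finset.sum_congr rfl fun q _ => ?_
              simp only [one_mul]
              rfl
            · simp only [gM, one_mul]⟩)
      refine hUPS.2.1 _ _ _ _ ?_ g
      have hL := hLAM.1 (s₀ + 1)
      have e1 := AM1.alg1 α β (gM 1 j) (Esk (s₀ - 1) (fun c => (c : ℝ)))
        (Esk s₀ (fun c => ((c + 1 : ℕ) : ℝ))) (3 ^ s₀) (3 ^ (m + 1)) h3d.ne' h3m.ne'
      rw [e1]
      refine div_le_div_of_nonneg_right ?_ h3m.le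
      have e2 := hESZ s₀ (fun c => (c : ℝ))
      rw [e2]
      linarith
    refine hUPA h n m k π p e r f w0 c 1 (fun A => (CubeRank.rr A : ℝ)) _ hN ?_
    show UpS S (fun E q => (R E q : ℝ)) (aW D / 3 ^ (m + 1))
    have hg1 := gM_le hGMB 1 j D hjD hD2
    obtain ⟨-, -, -, -, hg12, -, hM1, -⟩ := hGMB
    by_cases hD1 : D ≤ 1
    · refine rank (1 / 2) (1 / 6) _ (by norm_num) (by norm_num) nat1 ?_
      rw [cM, if_pos hD1, hM1] at hg1
      rw [aW, if_pos hD1]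
      linarith
    · refine rank (3 / 2) (1 / 18) _ (by norm_num) (by norm_num) nat2 ?_
      rw [cM, if_neg hD1, hg12] at hg1
      rw [aW, if_neg hD1]
      linarith
  · -- the powers
    intro k₀
    refine hUPA h n m k π p e r f w0 c 1 (fun A => 3 ^ (k₀ * CubeRank.rr A)) _ hN ?_
    show UpS S (fun E q => (3 : ℝ) ^ (k₀ * R E q)) (cM k₀ D * MoB k₀ / 3 ^ (m + 1))
    have hmp : Monotone fun c : ℕ => (3 : ℝ) ^ (k₀ * c) := fun a b hab =>
      pow_le_pow_right₀ (by norm_num) (Nat.mul_le_mul_left _ hab)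
    have hmp1 : Monotone fun c : ℕ => (3 : ℝ) ^ (k₀ * (c + 1)) := fun a b hab =>
      pow_le_pow_right₀ (by norm_num) (Nat.mul_le_mul_left _ (Nat.succ_le_succ hab))
    have hp0 : (0 : ℝ) ≤ 3 ^ (k₀ * 0) := by positivity
    have hp1 : (0 : ℝ) ≤ 3 ^ (k₀ * (0 + 1)) := by positivity
    have a1 := fun δ => hA δ k₀ (fun c => (3 : ℝ) ^ (k₀ * c)) hmp hp0
    have a2 := hZ k₀ (fun c => (3 : ℝ) ^ (k₀ * (c + 1))) hmp1 hp1
    have g := gen hUPS S TP TZ R N κ κ₀ (M + M₁ + n + 3) main (fun a => (3 : ℝ) ^ (k₀ * a))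
      hmp (fun a b => (a : ℝ) ^ k₀ * 3 ^ (k₀ * b))
      (fun a b => by positivity)
      (fun w a => by
        push_cast
        rw [mul_add, pow_add, ← pow_mul, mul_comm w k₀])
      (x := gM k₀ j * (Esk (s₀ - 1) (fun c => (3 : ℝ) ^ (k₀ * c)) * (2 / 3 ^ s₀ / 3 ^ (m + 1))))
      (y := gM k₀ j * (Esk s₀ (fun c => (3 : ℝ) ^ (k₀ * (c + 1))) * (1 / 3 ^ s₀ / 3 ^ (m + 1))))
      a1 a2
    refine hUPS.2.1 _ _ _ _ ?_ g
    have e1 := AM1.alg2 (gM k₀ j) (Esk (s₀ - 1) (fun c => (3 : ℝ) ^ (k₀ * c)))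
      (Esk s₀ (fun c => (3 : ℝ) ^ (k₀ * (c + 1)))) (3 ^ s₀) (3 ^ (m + 1)) h3d.ne' h3m.ne'
    rw [e1]
    refine div_le_div_of_nonneg_right ?_ h3m.le
    have e2 := hESZ s₀ (fun c => (3 : ℝ) ^ (k₀ * c))
    rw [e2]
    have e3 := hESB (s₀ + 1) k₀
    have hg1 := gM_le hGMB k₀ j D hjD hD2
    have hMB : 1 ≤ MoB k₀ := hGMB.2.2.2.2.2.1 k₀
    have hcM : 0 ≤ cM k₀ D := by
      unfold cM
      split_ifs
      · linarith
      · exact le_trans (by linarith) (hGMB.2.2.1 k₀)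
    have hE0 : 0 ≤ Esk (s₀ + 1) (fun c => (3 : ℝ) ^ (k₀ * c)) := by
      unfold Esk
      exact div_nonneg (finsum_nonneg fun M => by positivity) (Nat.cast_nonneg _)
    exact mul_le_mul hg1 e3 hE0 hcM

end Pool.Agent.PTK


end

section

/-! PTK_AVR (helper87): the average of the rank in a class. -/

set_option autoImplicit false

open Finset

namespace Pool.Agent.PTK

open Pool.Agent.Lib_helper18 Pool.Agent.Lib_helper18.Eis Pool.Agent.Lib_helper84.Cub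
open Pool.Agent.PT Pool.Agent.PTE Pool.Agent.PT3 Pool.Agent.PTL Pool.Agent.PTN

namespace AVR

/-! ### scalar inequalities -/

lemma nat1 (w : ℕ) : (w : ℝ) ≤ 1 / 2 + 3 ^ w / 6 := by
  induction w with
  | zero => norm_num
  | succ w ih =>
    rcases Nat.eq_zero_or_pos w with rfl | hw
    · norm_num
    · have h1 : (3 : ℝ) ≤ 3 ^ w := by
        calc (3 : ℝ) = 3 ^ 1 := by norm_num
          _ ≤ 3 ^ w := pow_le_pow_right₀ (by norm_num) hw
      rw [pow_succ]; push_cast; linarith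

lemma nat2 (w : ℕ) : (w : ℝ) ≤ 3 / 2 + 3 ^ w / 18 := by
  induction w with
  | zero => norm_num
  | succ w ih =>
    rcases Nat.lt_or_ge w 2 with hw | hw
    · interval_cases w <;> norm_num
    · have h1 : (9 : ℝ) ≤ 3 ^ w := by
        calc (9 : ℝ) = 3 ^ 2 := by norm_num
          _ ≤ 3 ^ w := pow_le_pow_right₀ (by norm_num) hw
      rw [pow_succ]; push_cast; linarith

lemma sqrt3 (t : ℝ) (ht : 0 < t) (w κ : ℕ) :
    √3 ^ (w + κ) ≤ t / 2 * 3 ^ w + 1 / (2 * t) * 3 ^ κ := by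
  have h3 : √3 ^ 2 = (3 : ℝ) := Real.sq_sqrt (by norm_num)
  have hw : (3 : ℝ) ^ w = (√3 ^ w) ^ 2 := by rw [← pow_mul, mul_comm, pow_mul, h3]
  have hk : (3 : ℝ) ^ κ = (√3 ^ κ) ^ 2 := by rw [← pow_mul, mul_comm, pow_mul, h3]
  rw [pow_add, hw, hk]
  set a := √3 ^ w
  set b := √3 ^ κ
  have h : 0 ≤ (t * a - b) ^ 2 := sq_nonneg _
  have e : t / 2 * a ^ 2 + 1 / (2 * t) * b ^ 2 - a * b = (t * a - b) ^ 2 / (2 * t) := by
    field_simp
    ring
  have : 0 ≤ (t * a - b) ^ 2 / (2 * t) := by positivity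
  linarith

/-! ### the general average -/

open Classical in
theorem gen (hSPP : SPP) (hAVW : Stmt_AVW) (hAVC : Stmt_AVC) (hCLT : Stmt_CLT)
    {h n m k : ℕ} {π : Fin m → PP} {p e : Fin m → ℕ} {r f : Fin k → ℕ}
    {w0 : ZMod 3} {c : Fin m → ZMod 3} (hN : NF n π p e r f) (hh : h ≤ 2)
    {F : ℕ → ℝ} (hF : Monotone F) (h0 : 0 ≤ F 0) {α β γ x : ℝ} (hα : 0 ≤ α) (hβ : 0 ≤ β)
    (hγ : 0 ≤ γ) (hb : ∀ w κ : ℕ, F (w + κ) ≤ α + β * 3 ^ w + γ * 3 ^ κ)
    (hx : α + β * (3 + 3 ^ dN h n w0) + γ * 4 = x) :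
    AboveA ((3 ^ h * n : ℕ) : ℤ) 2 (Kl π w0 c) (fun A => F (CubeRank.rr A))
      (x / 3 ^ (m + 1)) := by
  refine CAB.above_of hSPP hN w0 c 2 hF h0
    (fun E => {q : ℕ | q % 3 = 2 ∧ InCT E π w0 c q}) (fun E q => Iff.rfl) ?_
  obtain ⟨K1, hK1⟩ := hAVW h n m k π p e r f w0 c hN hh
  obtain ⟨κ₀, ⟨M, hM⟩, K2, hK2⟩ := hAVC h n m k π p e r f w0 c hN hh
  obtain ⟨K3, hK3⟩ := hCLT m π p hN.pp hN.p1 hN.pπ hN.pinj w0 c 2 (Or.inr rfl)
  have hFn : ∀ n, 0 ≤ F n := fun n => h0.trans (hF (Nat.zero_le n))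
  refine ⟨α * K3 + β * K1 + γ * K2 + ∑ E ∈ ({1, 2} : Finset ℕ), ∑ q ∈ range (M + 1),
    F (CubeRank.rr (BB h n E q)), fun σ h1 h2 T => ?_⟩
  have a1 := hK1 σ h1 h2 T
  have a2 := hK2 σ h1 h2 T
  have a3 := (hK3 σ h1 h2).2
  set S : ℕ → Set ℕ := fun E => {q : ℕ | q % 3 = 2 ∧ InCT E π w0 c q} with hS
  -- pointwise
  have key : ∀ E ∈ ({1, 2} : Finset ℕ), ∀ q ∈ T,
      (if q.Prime ∧ q ∈ S E then F (CubeRank.rr (BB h n E q)) * (q : ℝ) ^ (-σ) else 0) ≤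
      α * BDENS.ind (S E) σ q +
      β * (if q.Prime ∧ q % 3 = 2 ∧ InCT E π w0 c q then
        (Nat.card (WqS h n π p e r w0 c (BB h n E q)) : ℝ) * (q : ℝ) ^ (-σ) else 0) +
      γ * (if q.Prime ∧ q % 3 = 2 ∧ InCT E π w0 c q then
        (3 : ℝ) ^ κ₀ (BB h n E q) * (q : ℝ) ^ (-σ) else 0) +
      (if q ≤ M then F (CubeRank.rr (BB h n E q)) else 0) := by
    intro E hE q _
    have hE' : E = 1 ∨ E = 2 := by simpa using hE
    have hq0 : 0 ≤ (q : ℝ) ^ (-σ) := Real.rpow_nonneg (Nat.cast_nonneg q) _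
    by_cases hq : q.Prime ∧ q ∈ S E
    · have hq' : q.Prime ∧ q % 3 = 2 ∧ InCT E π w0 c q := hq
      rw [if_pos hq, if_pos hq', if_pos hq', BDENS.ind_mem hq.1 hq.2]
      by_cases hqM : q ≤ M
      · rw [if_pos hqM]
        have g1 : (q : ℝ) ^ (-σ) ≤ 1 :=
          Real.rpow_le_one_of_one_le_of_nonpos (by exact_mod_cast hq.1.one_lt.le) (by linarith)
        have g2 := mul_le_mul_of_nonneg_left g1 (hFn (CubeRank.rr (BB h n E q)))
        rw [mul_one] at g2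
        have g3 : 0 ≤ α * (q : ℝ) ^ (-σ) + β * ((Nat.card (WqS h n π p e r w0 c (BB h n E q)) : ℝ) *
          (q : ℝ) ^ (-σ)) + γ * ((3 : ℝ) ^ κ₀ (BB h n E q) * (q : ℝ) ^ (-σ)) := by positivity
        linarith
      · rw [if_neg hqM, add_zero]
        push Not at hqM
        obtain ⟨hgen, d, hd⟩ := hM E q hE' hq'.1 hqM hq'.2.1 hq'.2.2
        rw [hd, Nat.log_pow (by norm_num)] at hgen
        have g1 := hF (CubeRank.rr_le hgen)
        have g2 := g1.trans (hb d (κ₀ (BB h n E q)))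
        have g3 := mul_le_mul_of_nonneg_right g2 hq0
        rw [hd]
        push_cast
        refine g3.trans (le_of_eq ?_)
        ring
    · have hq' : ¬ (q.Prime ∧ q % 3 = 2 ∧ InCT E π w0 c q) := hq
      rw [if_neg hq, if_neg hq', if_neg hq', BDENS.ind_not hq]
      have : 0 ≤ (if q ≤ M then F (CubeRank.rr (BB h n E q)) else 0) := by
        split_ifs
        · exact hFn _
        · exact le_rfl
      linarith
  have s1 := Finset.sum_le_sum fun E hE => Finset.sum_le_sum fun q hq => key E hE q hq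
  refine le_trans (le_of_eq ?_) (s1.trans ?_)
  · refine Finset.sum_congr rfl fun E _ => Finset.sum_congr rfl fun q _ => ?_
    congr
  simp only [Finset.sum_add_distrib, ← Finset.mul_sum]
  -- the four sums
  have b1 : ∑ E ∈ ({1, 2} : Finset ℕ), ∑ q ∈ T, BDENS.ind (S E) σ q ≤
      1 / 3 ^ (m + 1) * Real.log (1 / (σ - 1)) + K3 := by
    rw [Finset.sum_pair (by norm_num : (1 : ℕ) ≠ 2)]
    exact (add_le_add (DOMG.sum_ind_le _ h1 T) (DOMG.sum_ind_le _ h1 T)).trans a3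
  have b4 : ∑ E ∈ ({1, 2} : Finset ℕ), ∑ q ∈ T,
      (if q ≤ M then F (CubeRank.rr (BB h n E q)) else 0) ≤
      ∑ E ∈ ({1, 2} : Finset ℕ), ∑ q ∈ range (M + 1), F (CubeRank.rr (BB h n E q)) := by
    refine Finset.sum_le_sum fun E _ => ?_
    rw [← Finset.sum_filter]
    refine Finset.sum_le_sum_of_subset_of_nonneg ?_ fun q _ _ => hFn _
    intro q hq
    rw [Finset.mem_range]
    have := (Finset.mem_filter.1 hq).2
    omega
  have c1 := mul_le_mul_of_nonneg_left b1 hα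
  have c2 := mul_le_mul_of_nonneg_left a1 hβ
  have c3 := mul_le_mul_of_nonneg_left a2 hγ
  have e1 : x / 3 ^ (m + 1) * Real.log (1 / (σ - 1)) =
      α * (1 / 3 ^ (m + 1) * Real.log (1 / (σ - 1))) +
      β * ((3 + 3 ^ dN h n w0) / 3 ^ (m + 1) * Real.log (1 / (σ - 1))) +
      γ * (4 / 3 ^ (m + 1) * Real.log (1 / (σ - 1))) := by
    rw [← hx]; ring
  rw [e1]
  linarith

end AVR

open _root_.Pool.Agent.PTK.AVR in
theorem AVR_thm (hSPP : SPP) (hAVW : Stmt_AVW) (hAVC : Stmt_AVC) (hCLT : Stmt_CLT) :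
    Stmt_AVR := by
  classical
  intro h n m k π p e r f w0 c hN hh
  have hd : dN h n w0 = 0 ∨ dN h n w0 = 1 ∨ dN h n w0 = 2 := by
    unfold dN
    split_ifs <;> simp
  have m1 : Monotone (fun x : ℕ => (x : ℝ)) := Nat.mono_cast
  have m2 : Monotone (fun x : ℕ => √3 ^ x) := by
    refine pow_right_mono₀ ?_
    rw [show (1 : ℝ) = √1 by simp]
    exact Real.sqrt_le_sqrt (by norm_num)
  constructor
  · rcases hd with hd | hd | hd
    · refine gen hSPP hAVW hAVC hCLT hN hh (F := fun x => (x : ℝ)) m1 (by simp) (α := 1)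
        (β := 1 / 6) (γ := 1 / 6) (by norm_num) (by norm_num) (by norm_num) (fun w κ => ?_) ?_
      · have := nat1 w
        have := nat1 κ
        push_cast; linarith
      · rw [hd]; unfold aD'; norm_num
    · refine gen hSPP hAVW hAVC hCLT hN hh (F := fun x => (x : ℝ)) m1 (by simp) (α := 1)
        (β := 1 / 6) (γ := 1 / 6) (by norm_num) (by norm_num) (by norm_num) (fun w κ => ?_) ?_
      · have := nat1 w
        have := nat1 κ
        push_cast; linarith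
      · rw [hd]; unfold aD'; norm_num
    · refine gen hSPP hAVW hAVC hCLT hN hh (F := fun x => (x : ℝ)) m1 (by simp) (α := 2)
        (β := 1 / 18) (γ := 1 / 6) (by norm_num) (by norm_num) (by norm_num) (fun w κ => ?_) ?_
      · have := nat2 w
        have := nat1 κ
        push_cast; linarith
      · rw [hd]; unfold aD'; norm_num
  · rcases hd with hd | hd | hd
    · refine gen hSPP hAVW hAVC hCLT hN hh (F := fun x => √3 ^ x) m2 (by simp) (α := 0)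
        (β := 1 / 2) (γ := 1 / 2) (by norm_num) (by norm_num) (by norm_num) (fun w κ => ?_) ?_
      · have := sqrt3 1 (by norm_num) w κ
        norm_num at this ⊢; linarith
      · rw [hd]; unfold bD'; norm_num
    · refine gen hSPP hAVW hAVC hCLT hN hh (F := fun x => √3 ^ x) m2 (by simp) (α := 0)
        (β := 2 / 5) (γ := 5 / 8) (by norm_num) (by norm_num) (by norm_num) (fun w κ => ?_) ?_
      · have := sqrt3 (4 / 5) (by norm_num) w κ
        norm_num at this ⊢; linarith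
      · rw [hd]; unfold bD'; norm_num
    · refine gen hSPP hAVW hAVC hCLT hN hh (F := fun x => √3 ^ x) m2 (by simp) (α := 0)
        (β := 3 / 10) (γ := 5 / 6) (by norm_num) (by norm_num) (by norm_num) (fun w κ => ?_) ?_
      · have := sqrt3 (3 / 5) (by norm_num) w κ
        norm_num at this ⊢; linarith
      · rw [hd]; unfold bD'; norm_num

end Pool.Agent.PTK


end

section

/-! PTK_AV2 (helper69): the averages in a class, `q = 2 (mod 3)`. -/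

set_option autoImplicit false

open Finset

namespace Pool.Agent.PTK

open Pool.Agent.Lib_helper18 Pool.Agent.Lib_helper18.Eis Pool.Agent.Lib_helper84.Cub
open Pool.Agent.PT Pool.Agent.PTE Pool.Agent.PT3 Pool.Agent.PTL Pool.Agent.PTN

namespace AV2

/-- the three bounds without the classes of points -/
theorem base (hUPS : Stmt_UPS) (hKUP : Stmt_KUP) (hLAM : Stmt_LAM) (hCT0 : Stmt_CT0)
    {h n m k : ℕ} {π : Fin m → PP} {p e : Fin m → ℕ} {r f : Fin k → ℕ}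
    {w0 : ZMod 3} {c : Fin m → ZMod 3} {s : ℕ} {τ : Fin s → Fin 3} {b X Y : Fin s → ℤ}
    {P Q P' Q' : Fin s → Fin s → ℤ} (hN : NF n π p e r f) (hh : h ≤ 2)
    (hS : PlS h n π w0 c τ b X Y P Q P' Q') :
    UpS (fun E => {q | q % 3 = 2 ∧ InCT E π w0 c q})
      (fun E q => 3 ^ kS h n b X Y P Q P' Q' E q) (4 * (1 / 3 ^ (m + 1))) ∧
    UpS (fun E => {q | q % 3 = 2 ∧ InCT E π w0 c q})
      (fun E q => (kS h n b X Y P Q P' Q' E q : ℝ)) (13 / 12 * (1 / 3 ^ (m + 1))) ∧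
    UpS (fun E => {q | q % 3 = 2 ∧ InCT E π w0 c q}) (fun _ _ => 1) (1 / 3 ^ (m + 1)) := by
  obtain ⟨a1, a2, a3⟩ := hKUP (fun E => {q | q % 3 = 2 ∧ InCT E π w0 c q})
    (fun E q => kS h n b X Y P Q P' Q' E q) s 0 (1 / 3 ^ (m + 1)) (by positivity)
    (fun E q _ _ _ _ => Nat.sub_le _ _)
    (hCT0 h n m k π p e r f w0 c s τ b X Y P Q P' Q' hN hh hS)
  refine ⟨a1, hUPS.2.1 _ _ _ _ ?_ a2, a3⟩
  exact mul_le_mul_of_nonneg_right (hLAM.1 s) (by positivity)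

/-- the bounds for the primes with a given class of points -/
theorem withy (hKUP : Stmt_KUP) (hCTJ : Stmt_CTJ)
    {h n m k : ℕ} {π : Fin m → PP} {p e : Fin m → ℕ} {r f : Fin k → ℕ}
    {w0 : ZMod 3} {c : Fin m → ZMod 3} {s : ℕ} {τ : Fin s → Fin 3} {b X Y : Fin s → ℤ}
    {P Q P' Q' : Fin s → Fin s → ℤ} (hN : NF n π p e r f) (hh : h ≤ 2)
    (hS : PlS h n π w0 c τ b X Y P Q P' Q')
    {y : Fin (m + 1) → ZMod 3} (hy : y ∈ VS h n π p e r w0 c) {l : ℕ}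
    {u : Fin l → Fin (m + 1) → ZMod 3} (hu : ∀ j, u j ∈ V0 h n π p e r w0 c)
    (hli : LinearIndependent (ZMod 3) (Fin.cons y u : Fin (l + 1) → Fin (m + 1) → ZMod 3)) :
    UpS (fun E => {q | q ∈ {q | q % 3 = 2 ∧ InCT E π w0 c q} ∧ Occ (BB h n E q) (zN π e y)})
      (fun E q => 3 ^ kS h n b X Y P Q P' Q' E q) (4 * (1 / 3 ^ (m + 1)) / 3 ^ l) ∧
    UpS (fun E => {q | q ∈ {q | q % 3 = 2 ∧ InCT E π w0 c q} ∧ Occ (BB h n E q) (zN π e y)})
      (fun _ _ => 1) (1 / 3 ^ (m + 1) / 3 ^ l) := by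
  have hset : ∀ E t : ℕ, {q | q ∈ {q | q ∈ {q | q % 3 = 2 ∧ InCT E π w0 c q} ∧
      Occ (BB h n E q) (zN π e y)} ∧ t ≤ kS h n b X Y P Q P' Q' E q} =
      {q | q ∈ QY h n π e w0 c y E ∧ t ≤ kS h n b X Y P Q P' Q' E q} := by
    intro E t
    ext q
    refine and_congr_left fun _ => ?_
    exact and_assoc
  obtain ⟨a1, a2, a3⟩ := hKUP
    (fun E => {q | q ∈ {q | q % 3 = 2 ∧ InCT E π w0 c q} ∧ Occ (BB h n E q) (zN π e y)})
    (fun E q => kS h n b X Y P Q P' Q' E q) s 0 (1 / 3 ^ l / 3 ^ (m + 1)) (by positivity)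
    (fun E q _ _ _ _ => Nat.sub_le _ _)
    (fun t => by
      obtain ⟨K, hK⟩ := hCTJ h n m k π p e r f w0 c s τ b X Y P Q P' Q' hN hh hS y hy l u hu hli t
      refine ⟨K, fun σ h1 h2 => ?_⟩
      have e1 := hK σ h1 h2
      rw [← hset, ← hset] at e1
      exact e1)
  have e1 : 4 * ((1 : ℝ) / 3 ^ l / 3 ^ (m + 1)) = 4 * (1 / 3 ^ (m + 1)) / 3 ^ l := by
    field_simp
  have e2 : ((1 : ℝ) / 3 ^ l / 3 ^ (m + 1)) = 1 / 3 ^ (m + 1) / 3 ^ l := by
    field_simp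
  rw [e1] at a1
  rw [e2] at a3
  exact ⟨a1, a3⟩

/-- the two bounds with the number of the classes of points -/
theorem wq (hUPS : Stmt_UPS) (hKUP : Stmt_KUP) (hLAM : Stmt_LAM) (hWSUM : Stmt_WSUM)
    (hCTJ : Stmt_CTJ) (hCT0 : Stmt_CT0)
    {h n m k : ℕ} {π : Fin m → PP} {p e : Fin m → ℕ} {r f : Fin k → ℕ}
    {w0 : ZMod 3} {c : Fin m → ZMod 3} {s : ℕ} {τ : Fin s → Fin 3} {b X Y : Fin s → ℤ}
    {P Q P' Q' : Fin s → Fin s → ℤ} (hN : NF n π p e r f) (hh : h ≤ 2)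
    (hS : PlS h n π w0 c τ b X Y P Q P' Q') :
    UpS (fun E => {q | q % 3 = 2 ∧ InCT E π w0 c q})
      (fun E q => (Nat.card (WqS h n π p e r w0 c (BB h n E q)) : ℝ) *
        3 ^ kS h n b X Y P Q P' Q' E q)
      ((3 + 3 ^ dN h n w0) * (4 * (1 / 3 ^ (m + 1)))) ∧
    UpS (fun E => {q | q % 3 = 2 ∧ InCT E π w0 c q})
      (fun E q => (Nat.card (WqS h n π p e r w0 c (BB h n E q)) : ℝ) * 1)
      ((3 + 3 ^ dN h n w0) * (1 / 3 ^ (m + 1))) := by
  obtain ⟨b1, b2, b3⟩ := base hUPS hKUP hLAM hCT0 hN hh hS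
  constructor
  · exact hWSUM h n m k π p e r f w0 c hN hh (fun E => {q | q % 3 = 2 ∧ InCT E π w0 c q})
      (fun E q => 3 ^ kS h n b X Y P Q P' Q' E q) (4 * (1 / 3 ^ (m + 1))) (by positivity)
      (fun E q => by positivity) b1
      (fun y hy l u hu hli => (withy hKUP hCTJ hN hh hS hy hu hli).1)
  · exact hWSUM h n m k π p e r f w0 c hN hh (fun E => {q | q % 3 = 2 ∧ InCT E π w0 c q})
      (fun _ _ => 1) (1 / 3 ^ (m + 1)) (by positivity)
      (fun E q => by positivity) b3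
      (fun y hy l u hu hli => (withy hKUP hCTJ hN hh hS hy hu hli).2)

theorem nf_pos {n m k : ℕ} {π : Fin m → PP} {p e : Fin m → ℕ} {r f : Fin k → ℕ}
    (hN : NF n π p e r f) : 0 < n := by
  rw [hN.eq]
  exact Nat.mul_pos (Finset.prod_pos fun i _ => pow_pos (hN.pp i).pos _)
    (Finset.prod_pos fun j _ => pow_pos (hN.rp j).pos _)

/-- the rank for large `q` -/
theorem rk (hNBW : Stmt_NBW) (hWGR : Stmt_WGR)
    {h n m k : ℕ} {π : Fin m → PP} {p e : Fin m → ℕ} {r f : Fin k → ℕ}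
    {w0 : ZMod 3} {c : Fin m → ZMod 3} {s : ℕ} {τ : Fin s → Fin 3} {b X Y : Fin s → ℤ}
    {P Q P' Q' : Fin s → Fin s → ℤ} (hN : NF n π p e r f) (hh : h ≤ 2)
    (hS : PlS h n π w0 c τ b X Y P Q P' Q') {E q : ℕ} (hE : E = 1 ∨ E = 2) (hq : q.Prime)
    (hM : max 3 n < q) (hqS : q % 3 = 2 ∧ InCT E π w0 c q) :
    ∃ d : ℕ, Nat.card (WqS h n π p e r w0 c (BB h n E q)) = 3 ^ d ∧
      CubeRank.rr (BB h n E q) ≤ d + kS h n b X Y P Q P' Q' E q := by
  have h3 : 3 < q := lt_of_le_of_lt (le_max_left _ _) hM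
  have hnq : n < q := lt_of_le_of_lt (le_max_right _ _) hM
  have hdv : ¬ q ∣ n := fun hd => absurd (Nat.le_of_dvd (nf_pos hN) hd) (by omega)
  obtain ⟨⟨d, hd⟩, -⟩ := hWGR h n m k π p e r f w0 c E q hN hh hE hq h3 hqS.1 hqS.2 hdv
  have hg := hNBW h n m k π p e r f w0 c s τ b X Y P Q P' Q' E q hN hh hS.adm hS.sys hS.sw
    hS.lam hS.gen hE hq h3 hqS.1 hqS.2 hdv
  rw [hd, Nat.log_pow (by norm_num)] at hg
  exact ⟨d, hd, CubeRank.rr_le hg⟩

/-- the average of the rank from a bound `w ≤ α + β 3 ^ w` -/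
theorem rank_avg (hUPS : Stmt_UPS) (hKUP : Stmt_KUP) (hLAM : Stmt_LAM)
    (hWSUM : Stmt_WSUM) (hCTJ : Stmt_CTJ) (hCT0 : Stmt_CT0) (hNBW : Stmt_NBW) (hWGR : Stmt_WGR)
    {h n m k : ℕ} {π : Fin m → PP} {p e : Fin m → ℕ} {r f : Fin k → ℕ}
    {w0 : ZMod 3} {c : Fin m → ZMod 3} {s : ℕ} {τ : Fin s → Fin 3} {b X Y : Fin s → ℤ}
    {P Q P' Q' : Fin s → Fin s → ℤ} (hN : NF n π p e r f) (hh : h ≤ 2)
    (hS : PlS h n π w0 c τ b X Y P Q P' Q') {α β : ℝ} (hα : 0 ≤ α) (hβ : 0 ≤ β)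
    (hw : ∀ w : ℕ, (w : ℝ) ≤ α + β * 3 ^ w) :
    UpS (fun E => {q | q % 3 = 2 ∧ InCT E π w0 c q})
      (fun E q => (CubeRank.rr (BB h n E q) : ℝ))
      ((α + β * (3 + 3 ^ dN h n w0) + 13 / 12) / 3 ^ (m + 1)) := by
  obtain ⟨b1, b2, b3⟩ := base hUPS hKUP hLAM hCT0 hN hh hS
  obtain ⟨c1, c2⟩ := wq hUPS hKUP hLAM hWSUM hCTJ hCT0 hN hh hS
  have d3 := hUPS.2.2 _ _ _ α hα b3
  have d2 := hUPS.2.2 _ _ _ β hβ c2
  set S : ℕ → Set ℕ := fun E => {q | q % 3 = 2 ∧ InCT E π w0 c q} with hSdef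
  have key := hUPS.1 (Fin 3) S (fun E q => (CubeRank.rr (BB h n E q) : ℝ)) (fun _ => S)
    ![fun _ _ => α * 1,
      fun E q => β * ((Nat.card (WqS h n π p e r w0 c (BB h n E q)) : ℝ) * 1),
      fun E q => (kS h n b X Y P Q P' Q' E q : ℝ)]
    ![α * (1 / 3 ^ (m + 1)), β * ((3 + 3 ^ dN h n w0) * (1 / 3 ^ (m + 1))),
      13 / 12 * (1 / 3 ^ (m + 1))] 1 (max 3 n) one_pos
    (fun i E q => by
      fin_cases i
      · show (0 : ℝ) ≤ α * 1
        linarith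
      · show (0 : ℝ) ≤ β * ((Nat.card (WqS h n π p e r w0 c (BB h n E q)) : ℝ) * 1)
        positivity
      · show (0 : ℝ) ≤ (kS h n b X Y P Q P' Q' E q : ℝ)
        positivity)
    (fun E q hE hq hM hqS => by
      obtain ⟨d, hd, hr⟩ := rk hNBW hWGR hN hh hS hE hq hM hqS
      rw [Fin.sum_univ_three]
      rw [if_pos hqS, if_pos hqS, if_pos hqS]
      show 1 * (CubeRank.rr (BB h n E q) : ℝ) ≤ α * 1 +
        β * ((Nat.card (WqS h n π p e r w0 c (BB h n E q)) : ℝ) * 1) +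
        (kS h n b X Y P Q P' Q' E q : ℝ)
      rw [hd]
      have h1 : (CubeRank.rr (BB h n E q) : ℝ) ≤ (d : ℝ) + (kS h n b X Y P Q P' Q' E q : ℝ) := by
        exact_mod_cast hr
      have h2 := hw d
      push_cast
      linarith)
    (fun i => by
      fin_cases i
      · exact d3
      · exact d2
      · exact b2)
  have e1 : (∑ i : Fin 3, (![α * (1 / 3 ^ (m + 1)),
      β * ((3 + 3 ^ dN h n w0) * (1 / 3 ^ (m + 1))), 13 / 12 * (1 / 3 ^ (m + 1))] : Fin 3 → ℝ) i) / 1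
      = (α + β * (3 + 3 ^ dN h n w0) + 13 / 12) / 3 ^ (m + 1) := by
    rw [Fin.sum_univ_three]
    simp only [Matrix.cons_val_zero, Matrix.cons_val_one, Matrix.cons_val]
    ring
  rw [e1] at key
  exact key

/-- the average of `3 ^ r` -/
theorem pow_avg (hUPS : Stmt_UPS) (hKUP : Stmt_KUP) (hLAM : Stmt_LAM)
    (hWSUM : Stmt_WSUM) (hCTJ : Stmt_CTJ) (hCT0 : Stmt_CT0) (hNBW : Stmt_NBW) (hWGR : Stmt_WGR)
    {h n m k : ℕ} {π : Fin m → PP} {p e : Fin m → ℕ} {r f : Fin k → ℕ}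
    {w0 : ZMod 3} {c : Fin m → ZMod 3} {s : ℕ} {τ : Fin s → Fin 3} {b X Y : Fin s → ℤ}
    {P Q P' Q' : Fin s → Fin s → ℤ} (hN : NF n π p e r f) (hh : h ≤ 2)
    (hS : PlS h n π w0 c τ b X Y P Q P' Q') :
    UpS (fun E => {q | q % 3 = 2 ∧ InCT E π w0 c q})
      (fun E q => (3 : ℝ) ^ CubeRank.rr (BB h n E q))
      (4 * (3 + 3 ^ dN h n w0) / 3 ^ (m + 1)) := by
  obtain ⟨c1, c2⟩ := wq hUPS hKUP hLAM hWSUM hCTJ hCT0 hN hh hS
  set S : ℕ → Set ℕ := fun E => {q | q % 3 = 2 ∧ InCT E π w0 c q} with hSdef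
  have key := hUPS.1 Unit S (fun E q => (3 : ℝ) ^ CubeRank.rr (BB h n E q)) (fun _ => S)
    (fun _ E q => (Nat.card (WqS h n π p e r w0 c (BB h n E q)) : ℝ) *
        3 ^ kS h n b X Y P Q P' Q' E q)
    (fun _ => (3 + 3 ^ dN h n w0) * (4 * (1 / 3 ^ (m + 1)))) 1 (max 3 n) one_pos
    (fun i E q => by positivity)
    (fun E q hE hq hM hqS => by
      obtain ⟨d, hd, hr⟩ := rk hNBW hWGR hN hh hS hE hq hM hqS
      rw [Fintype.sum_unique, if_pos hqS, hd]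
      push_cast
      rw [one_mul, ← pow_add]
      exact pow_le_pow_right₀ (by norm_num) hr)
    (fun i => c1)
  have e1 : (∑ _i : Unit, ((3 + 3 ^ dN h n w0) * (4 * (1 / 3 ^ (m + 1))) : ℝ)) / 1
      = 4 * (3 + 3 ^ dN h n w0) / 3 ^ (m + 1) := by
    rw [Fintype.sum_unique]
    ring
  rw [e1] at key
  exact key

end AV2

open _root_.Pool.Agent.PTK.AV2 in
theorem AV2_thm (hUPS : Stmt_UPS) (hUPA : Stmt_UPA) (hKUP : Stmt_KUP)
    (hLAM : Stmt_LAM) (hWSUM : Stmt_WSUM) (hPLE : Stmt_PLE) (hCTJ : Stmt_CTJ) (hCT0 : Stmt_CT0)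
    (hNBW : Stmt_NBW) (hWGR : Stmt_WGR) : Stmt_AV2 := by
  intro h n m k π p e r f w0 c hN hh
  obtain ⟨s, τ, b, X, Y, P, Q, P', Q', -, hS⟩ := hPLE h n m k π p e r f w0 c hN hh
  have hd : dN h n w0 = 0 ∨ dN h n w0 = 1 ∨ dN h n w0 = 2 := by
    unfold dN
    split_ifs <;> simp
  constructor
  · refine hUPA h n m k π p e r f w0 c 2 (fun A => (CubeRank.rr A : ℝ)) _ hN ?_
    rcases hd with hd | hd | hd
    · have h1 := rank_avg hUPS hKUP hLAM hWSUM hCTJ hCT0 hNBW hWGR hN hh hS (α := 1 / 2)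
        (β := 1 / 6) (by norm_num) (by norm_num) (fun w => (AVR.nat1 w).trans (le_of_eq (by ring)))
      rw [hd] at h1 ⊢
      have e : ((1 : ℝ) / 2 + 1 / 6 * (3 + 3 ^ 0) + 13 / 12) = aQ 0 := by
        unfold aQ; norm_num
      rw [e] at h1
      exact h1
    · have h1 := rank_avg hUPS hKUP hLAM hWSUM hCTJ hCT0 hNBW hWGR hN hh hS (α := 1 / 2)
        (β := 1 / 6) (by norm_num) (by norm_num) (fun w => (AVR.nat1 w).trans (le_of_eq (by ring)))
      rw [hd] at h1 ⊢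
      have e : ((1 : ℝ) / 2 + 1 / 6 * (3 + 3 ^ 1) + 13 / 12) = aQ 1 := by
        unfold aQ; norm_num
      rw [e] at h1
      exact h1
    · have h1 := rank_avg hUPS hKUP hLAM hWSUM hCTJ hCT0 hNBW hWGR hN hh hS (α := 3 / 2)
        (β := 1 / 18) (by norm_num) (by norm_num) (fun w => (AVR.nat2 w).trans (le_of_eq (by ring)))
      rw [hd] at h1 ⊢
      have e : ((3 : ℝ) / 2 + 1 / 18 * (3 + 3 ^ 2) + 13 / 12) = aQ 2 := by
        unfold aQ; norm_num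
      rw [e] at h1
      exact h1
  · refine hUPA h n m k π p e r f w0 c 2 (fun A => (3 : ℝ) ^ CubeRank.rr A) _ hN ?_
    exact pow_avg hUPS hKUP hLAM hWSUM hCTJ hCT0 hNBW hWGR hN hh hS

end Pool.Agent.PTK


end

section

/-! PTK_AM2 (helper3): the averages in a class, `q = 2 (mod 3)`. -/

set_option autoImplicit false

open Finset

namespace Pool.Agent.PTK

open Pool.Agent.Lib_helper18 Pool.Agent.Lib_helper18.Eis Pool.Agent.Lib_helper84.Cub
open Pool.Agent.PT Pool.Agent.PTE Pool.Agent.PT3 Pool.Agent.PTL Pool.Agent.PTN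

namespace AM2

theorem dN_le (h n : ℕ) (w0 : ZMod 3) : dN h n w0 ≤ 2 := by
  unfold dN
  split_ifs <;> omega

/-- the moments depend on the codimension only through its bound -/
theorem gM_le (hGMB : Stmt_GMB) (k₀ : ℕ) {j d : ℕ} (hj : j ≤ d) (hd : d ≤ 2) :
    gM k₀ j ≤ cM k₀ d := by
  obtain ⟨g0, g1, g2, -⟩ := hGMB
  unfold cM
  have hj' : j = 0 ∨ j = 1 ∨ j = 2 := by omega
  rcases hj' with rfl | rfl | rfl
  · rw [g0]
    split_ifs
    · exact le_rfl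
    · exact g2 k₀
  · rw [g1]
    split_ifs
    · exact le_rfl
    · exact g2 k₀
  · rw [if_neg (by omega)]

theorem cM_one (hGMB : Stmt_GMB) (d : ℕ) : cM 1 d = if d ≤ 1 then 4 else 28 / 3 := by
  obtain ⟨-, -, -, -, g5, -, g7, -⟩ := hGMB
  unfold cM
  rw [g5, g7]

theorem cM_pos (hGMB : Stmt_GMB) (k₀ d : ℕ) : 0 ≤ cM k₀ d := by
  obtain ⟨-, -, g2, -, -, g6, -, -⟩ := hGMB
  unfold cM
  split_ifs
  · linarith [g6 k₀]
  · linarith [g6 k₀, g2 k₀]

theorem Esk_nonneg {s : ℕ} {F : ℕ → ℝ} (hF : ∀ c, 0 ≤ F c) : 0 ≤ Esk s F := by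
  unfold Esk
  refine div_nonneg (finsum_nonneg fun M => hF _) (Nat.cast_nonneg _)

/-- the joint averages with explicit constants -/
theorem jp (hUPS : Stmt_UPS) (hJP2 : Stmt_JP2) (hVDIM : Stmt_VDIM) (hGMB : Stmt_GMB)
    {h n m k : ℕ} {π : Fin m → PP} {p e : Fin m → ℕ} {r f : Fin k → ℕ}
    {w0 : ZMod 3} {c : Fin m → ZMod 3} {s : ℕ} {τ : Fin s → Fin 3} {b X Y : Fin s → ℤ}
    {P Q P' Q' : Fin s → Fin s → ℤ} (hN : NF n π p e r f) (hh : h ≤ 2)
    (hS : PlS h n π w0 c τ b X Y P Q P' Q') (k₀ : ℕ) (F : ℕ → ℝ) (hF : Monotone F)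
    (hF0 : 0 ≤ F 0) {M : ℝ} (hM : Esk s F ≤ M) :
    UpS (fun E => {q | q % 3 = 2 ∧ InCT E π w0 c q})
      (fun E q => (Nat.card (WqS h n π p e r w0 c (BB h n E q)) : ℝ) ^ k₀ *
        F (kS h n b X Y P Q P' Q' E q))
      (cM k₀ (dN h n w0) * M / 3 ^ (m + 1)) := by
  refine hUPS.2.1 _ _ _ _ ?_ (hJP2 h n m k π p e r f w0 c s τ b X Y P Q P' Q' hN hh hS k₀ F hF hF0)
  rw [← mul_div_assoc]
  refine div_le_div_of_nonneg_right ?_ (by positivity)
  have h1 : vN h n π p e r w0 c - v0N h n π p e r w0 c ≤ dN h n w0 := by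
    have h2 := hVDIM h n m k π p e r w0 c hh
    omega
  have h3 := gM_le hGMB k₀ h1 (dN_le h n w0)
  have h4 : 0 ≤ Esk s F := Esk_nonneg fun c => hF0.trans (hF (Nat.zero_le c))
  exact mul_le_mul h3 hM h4 (cM_pos hGMB k₀ _)

/-- the average of the rank from a bound `w ≤ α + β 3 ^ w` -/
theorem rank_avg (hUPS : Stmt_UPS) (hLAM : Stmt_LAM) (hJP2 : Stmt_JP2) (hVDIM : Stmt_VDIM)
    (hGMB : Stmt_GMB) (hESB : Stmt_ESB) (hNBW : Stmt_NBW) (hWGR : Stmt_WGR)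
    {h n m k : ℕ} {π : Fin m → PP} {p e : Fin m → ℕ} {r f : Fin k → ℕ}
    {w0 : ZMod 3} {c : Fin m → ZMod 3} {s : ℕ} {τ : Fin s → Fin 3} {b X Y : Fin s → ℤ}
    {P Q P' Q' : Fin s → Fin s → ℤ} (hN : NF n π p e r f) (hh : h ≤ 2)
    (hS : PlS h n π w0 c τ b X Y P Q P' Q') {α β : ℝ} (hα : 0 ≤ α) (hβ : 0 ≤ β)
    (hw : ∀ w : ℕ, (w : ℝ) ≤ α + β * 3 ^ w) :
    UpS (fun E => {q | q % 3 = 2 ∧ InCT E π w0 c q})
      (fun E q => (CubeRank.rr (BB h n E q) : ℝ))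
      ((α + β * cM 1 (dN h n w0) + 13 / 12) / 3 ^ (m + 1)) := by
  have hone : Esk s (fun c => (3 : ℝ) ^ (0 * c)) ≤ 1 := by
    have h1 := hESB s 0
    unfold MoB at h1
    rwa [Finset.range_zero, Finset.prod_empty] at h1
  have hmono : Monotone fun c : ℕ => (3 : ℝ) ^ (0 * c) := by
    intro a b _
    simp
  have hc0 : cM 0 (dN h n w0) = 1 := by
    unfold cM MoB
    split_ifs
    · rw [Finset.range_zero, Finset.prod_empty]
    · rfl
  have b1 := jp hUPS hJP2 hVDIM hGMB hN hh hS 0 (fun c => (3 : ℝ) ^ (0 * c)) hmono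
    (by norm_num) hone
  have b2 := jp hUPS hJP2 hVDIM hGMB hN hh hS 1 (fun c => (3 : ℝ) ^ (0 * c)) hmono
    (by norm_num) hone
  have b3 := jp hUPS hJP2 hVDIM hGMB hN hh hS 0 (fun c => (c : ℝ)) Nat.mono_cast
    (by norm_num) (hLAM.1 s)
  rw [hc0, one_mul] at b1 b3
  rw [mul_one] at b2
  have d1 := hUPS.2.2 _ _ _ α hα b1
  have d2 := hUPS.2.2 _ _ _ β hβ b2
  set S : ℕ → Set ℕ := fun E => {q | q % 3 = 2 ∧ InCT E π w0 c q} with hSdef
  have key := hUPS.1 (Fin 3) S (fun E q => (CubeRank.rr (BB h n E q) : ℝ)) (fun _ => S)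
    ![fun E q => α * ((Nat.card (WqS h n π p e r w0 c (BB h n E q)) : ℝ) ^ 0 *
        3 ^ (0 * kS h n b X Y P Q P' Q' E q)),
      fun E q => β * ((Nat.card (WqS h n π p e r w0 c (BB h n E q)) : ℝ) ^ 1 *
        3 ^ (0 * kS h n b X Y P Q P' Q' E q)),
      fun E q => (Nat.card (WqS h n π p e r w0 c (BB h n E q)) : ℝ) ^ 0 *
        (kS h n b X Y P Q P' Q' E q : ℝ)]
    ![α * (1 / 3 ^ (m + 1)), β * (cM 1 (dN h n w0) / 3 ^ (m + 1)),
      13 / 12 / 3 ^ (m + 1)] 1 (max 3 n) one_pos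
    (fun i E q => by
      fin_cases i
      · show (0 : ℝ) ≤ α * ((Nat.card (WqS h n π p e r w0 c (BB h n E q)) : ℝ) ^ 0 *
          3 ^ (0 * kS h n b X Y P Q P' Q' E q))
        positivity
      · show (0 : ℝ) ≤ β * ((Nat.card (WqS h n π p e r w0 c (BB h n E q)) : ℝ) ^ 1 *
          3 ^ (0 * kS h n b X Y P Q P' Q' E q))
        positivity
      · show (0 : ℝ) ≤ (Nat.card (WqS h n π p e r w0 c (BB h n E q)) : ℝ) ^ 0 *
          (kS h n b X Y P Q P' Q' E q : ℝ)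
        positivity)
    (fun E q hE hq hM hqS => by
      obtain ⟨d, hd, hr⟩ := AV2.rk hNBW hWGR hN hh hS hE hq hM hqS
      rw [Fin.sum_univ_three]
      rw [if_pos hqS, if_pos hqS, if_pos hqS]
      show 1 * (CubeRank.rr (BB h n E q) : ℝ) ≤
        α * ((Nat.card (WqS h n π p e r w0 c (BB h n E q)) : ℝ) ^ 0 *
          3 ^ (0 * kS h n b X Y P Q P' Q' E q)) +
        β * ((Nat.card (WqS h n π p e r w0 c (BB h n E q)) : ℝ) ^ 1 *
          3 ^ (0 * kS h n b X Y P Q P' Q' E q)) +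
        (Nat.card (WqS h n π p e r w0 c (BB h n E q)) : ℝ) ^ 0 *
          (kS h n b X Y P Q P' Q' E q : ℝ)
      rw [hd]
      have h1 : (CubeRank.rr (BB h n E q) : ℝ) ≤ (d : ℝ) + (kS h n b X Y P Q P' Q' E q : ℝ) := by
        exact_mod_cast hr
      have h2 := hw d
      push_cast
      simp only [zero_mul, pow_zero, pow_one, one_mul, mul_one]
      linarith)
    (fun i => by
      fin_cases i
      · exact d1
      · exact d2
      · exact b3)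
  have e1 : (∑ i : Fin 3, (![α * (1 / 3 ^ (m + 1)),
      β * (cM 1 (dN h n w0) / 3 ^ (m + 1)), 13 / 12 / 3 ^ (m + 1)] : Fin 3 → ℝ) i) / 1
      = (α + β * cM 1 (dN h n w0) + 13 / 12) / 3 ^ (m + 1) := by
    rw [Fin.sum_univ_three]
    simp only [Matrix.cons_val_zero, Matrix.cons_val_one, Matrix.cons_val]
    ring
  rw [e1] at key
  exact key

/-- the moments of `3 ^ r` -/
theorem pow_avg (hUPS : Stmt_UPS) (hJP2 : Stmt_JP2) (hVDIM : Stmt_VDIM)
    (hGMB : Stmt_GMB) (hESB : Stmt_ESB) (hNBW : Stmt_NBW) (hWGR : Stmt_WGR)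
    {h n m k : ℕ} {π : Fin m → PP} {p e : Fin m → ℕ} {r f : Fin k → ℕ}
    {w0 : ZMod 3} {c : Fin m → ZMod 3} {s : ℕ} {τ : Fin s → Fin 3} {b X Y : Fin s → ℤ}
    {P Q P' Q' : Fin s → Fin s → ℤ} (hN : NF n π p e r f) (hh : h ≤ 2)
    (hS : PlS h n π w0 c τ b X Y P Q P' Q') (k₀ : ℕ) :
    UpS (fun E => {q | q % 3 = 2 ∧ InCT E π w0 c q})
      (fun E q => (3 : ℝ) ^ (k₀ * CubeRank.rr (BB h n E q)))
      (cM k₀ (dN h n w0) * MoB k₀ / 3 ^ (m + 1)) := by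
  have c1 := jp hUPS hJP2 hVDIM hGMB hN hh hS k₀ (fun c => (3 : ℝ) ^ (k₀ * c))
    (fun a b hab => pow_le_pow_right₀ (by norm_num) (Nat.mul_le_mul_left _ hab))
    (by positivity) (hESB s k₀)
  set S : ℕ → Set ℕ := fun E => {q | q % 3 = 2 ∧ InCT E π w0 c q} with hSdef
  have key := hUPS.1 Unit S (fun E q => (3 : ℝ) ^ (k₀ * CubeRank.rr (BB h n E q))) (fun _ => S)
    (fun _ E q => (Nat.card (WqS h n π p e r w0 c (BB h n E q)) : ℝ) ^ k₀ *
        3 ^ (k₀ * kS h n b X Y P Q P' Q' E q))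
    (fun _ => cM k₀ (dN h n w0) * MoB k₀ / 3 ^ (m + 1)) 1 (max 3 n) one_pos
    (fun i E q => by positivity)
    (fun E q hE hq hM hqS => by
      obtain ⟨d, hd, hr⟩ := AV2.rk hNBW hWGR hN hh hS hE hq hM hqS
      rw [Fintype.sum_unique, if_pos hqS, hd]
      push_cast
      rw [one_mul, ← pow_mul, ← pow_add]
      refine pow_le_pow_right₀ (by norm_num) ?_
      have h1 := Nat.mul_le_mul_left k₀ hr
      rw [Nat.mul_add] at h1
      rw [mul_comm d k₀]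
      exact h1)
    (fun i => c1)
  rw [Fintype.sum_unique, div_one] at key
  exact key

end AM2

open _root_.Pool.Agent.PTK.AM2 in
theorem AM2_thm (hUPS : Stmt_UPS) (hUPA : Stmt_UPA) (hLAM : Stmt_LAM) (hPLE : Stmt_PLE)
    (hJP2 : Stmt_JP2) (hVDIM : Stmt_VDIM) (hGMB : Stmt_GMB) (hESB : Stmt_ESB)
    (hNBW : Stmt_NBW) (hWGR : Stmt_WGR) : Stmt_AM2 := by
  intro h n m k π p e r f w0 c hN hh
  obtain ⟨s, τ, b, X, Y, P, Q, P', Q', -, hS⟩ := hPLE h n m k π p e r f w0 c hN hh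
  refine ⟨?_, fun k₀ => ?_⟩
  · refine hUPA h n m k π p e r f w0 c 2 (fun A => (CubeRank.rr A : ℝ)) _ hN ?_
    by_cases hd : dN h n w0 ≤ 1
    · have h1 := rank_avg hUPS hLAM hJP2 hVDIM hGMB hESB hNBW hWGR hN hh hS (α := 1 / 2)
        (β := 1 / 6) (by norm_num) (by norm_num) (fun w => (AVR.nat1 w).trans (le_of_eq (by ring)))
      have e : ((1 : ℝ) / 2 + 1 / 6 * cM 1 (dN h n w0) + 13 / 12) = aW (dN h n w0) := by
        rw [cM_one hGMB, if_pos hd]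
        unfold aW
        rw [if_pos hd]
        norm_num
      rw [e] at h1
      exact h1
    · have h1 := rank_avg hUPS hLAM hJP2 hVDIM hGMB hESB hNBW hWGR hN hh hS (α := 3 / 2)
        (β := 1 / 18) (by norm_num) (by norm_num) (fun w => (AVR.nat2 w).trans (le_of_eq (by ring)))
      have e : ((3 : ℝ) / 2 + 1 / 18 * cM 1 (dN h n w0) + 13 / 12) = aW (dN h n w0) := by
        rw [cM_one hGMB, if_neg hd]
        unfold aW
        rw [if_neg hd]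
        norm_num
      rw [e] at h1
      exact h1
  · refine hUPA h n m k π p e r f w0 c 2 (fun A => (3 : ℝ) ^ (k₀ * CubeRank.rr A)) _ hN ?_
    exact pow_avg hUPS hJP2 hVDIM hGMB hESB hNBW hWGR hN hh hS k₀

end Pool.Agent.PTK


end

section

/-! PTK_PR2 (helper3): small ranks in a class, `q = 2 (mod 3)`. -/

set_option autoImplicit false

open Finset

namespace Pool.Agent.PTK

open Pool.Agent.Lib_helper18 Pool.Agent.Lib_helper18.Eis Pool.Agent.Lib_helper84.Cub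
open Pool.Agent.PT Pool.Agent.PTE Pool.Agent.PT3 Pool.Agent.PTL Pool.Agent.PTN

namespace PR2

theorem p_ne {n m k : ℕ} {π : Fin m → PP} {p e : Fin m → ℕ} {r f : Fin k → ℕ}
    (hN : NF n π p e r f) {q : ℕ} (hM : n < q) (i : Fin m) : q ≠ p i := by
  rintro rfl
  have h1 : p i ∣ n := by
    rw [hN.eq]
    refine Dvd.dvd.mul_right ?_ _
    refine Dvd.dvd.trans (dvd_pow_self (p i) ?_) (Finset.dvd_prod_of_mem _ (Finset.mem_univ i))
    rcases hN.pe i with h | h <;> rw [h] <;> norm_num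
  exact absurd (Nat.le_of_dvd (AV2.nf_pos hN) h1) (by omega)

/-- the pointwise inequality -/
theorem point {t d κ ρ : ℕ} {D : ℝ} (hD : 0 < D) (hcase : κ < t → 3 ≤ d + κ → D + 1 ≤ 3 ^ d)
    (hr : ρ ≤ d + κ) :
    (1 + 1 / D) - ((if t ≤ κ then 1 else 0) + 1 / D * 3 ^ d) ≤ tf (ρ ≤ 2) := by
  have h1 : (1 : ℝ) ≤ 3 ^ d := one_le_pow₀ (by norm_num)
  have h2 : (0 : ℝ) < 1 / D := by positivity
  have h3 : 1 / D * 1 ≤ 1 / D * 3 ^ d := mul_le_mul_of_nonneg_left h1 h2.le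
  unfold tf
  by_cases hρ : ρ ≤ 2
  · rw [if_pos hρ]
    split_ifs <;> linarith
  · rw [if_neg hρ]
    by_cases ht : t ≤ κ
    · rw [if_pos ht]
      linarith
    · rw [if_neg ht]
      have h4 := hcase (by omega) (by omega)
      have h5 : 1 / D * (D + 1) ≤ 1 / D * 3 ^ d := mul_le_mul_of_nonneg_left h4 h2.le
      have h6 : 1 / D * (D + 1) = 1 + 1 / D := by
        field_simp
      linarith

/-- the lower bound with two parameters -/
theorem low (hUPS : Stmt_UPS) (hUPL : Stmt_UPL) (hCLT : Stmt_CLT) (hSPP : SPP)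
    (hJP2 : Stmt_JP2) (hVDIM : Stmt_VDIM) (hGMB : Stmt_GMB) (hESB : Stmt_ESB)
    (hNBW : Stmt_NBW) (hWGR : Stmt_WGR)
    {h n m k : ℕ} {π : Fin m → PP} {p e : Fin m → ℕ} {r f : Fin k → ℕ}
    {w0 : ZMod 3} {c : Fin m → ZMod 3} {s : ℕ} {τ : Fin s → Fin 3} {b X Y : Fin s → ℤ}
    {P Q P' Q' : Fin s → Fin s → ℤ} (hN : NF n π p e r f) (hh : h ≤ 2) (hd : dN h n w0 ≤ 1)
    (hS : PlS h n π w0 c τ b X Y P Q P' Q') {t : ℕ} {D l : ℝ} (hD : 0 < D)
    (hl : LI s t ≤ l) (hcase : ∀ d κ : ℕ, κ < t → 3 ≤ d + κ → D + 1 ≤ 3 ^ d) :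
    BelowA ((3 ^ h * n : ℕ) : ℤ) 2 (Kl π w0 c) (fun A => tf (CubeRank.rr A ≤ 2))
      ((1 + 1 / D) * (1 / 3 ^ (m + 1)) - (l + 1 / D * 4) / 3 ^ (m + 1)) := by
  have hone : Esk s (fun c => (3 : ℝ) ^ (0 * c)) ≤ 1 := by
    have h1 := hESB s 0
    unfold MoB at h1
    rwa [Finset.range_zero, Finset.prod_empty] at h1
  have hmono : Monotone fun c : ℕ => (3 : ℝ) ^ (0 * c) := by
    intro a b _
    simp
  have hmono' : Monotone fun c : ℕ => (if t ≤ c then (1 : ℝ) else 0) := by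
    intro a b hab
    show (if t ≤ a then (1 : ℝ) else 0) ≤ if t ≤ b then (1 : ℝ) else 0
    split_ifs
    · exact le_rfl
    · omega
    · norm_num
    · exact le_rfl
  have hEl : Esk s (fun c => if t ≤ c then (1 : ℝ) else 0) ≤ l := by
    rw [LAW.Esk_ind]
    exact hl
  have hc0 : cM 0 (dN h n w0) = 1 := by
    unfold cM MoB
    rw [if_pos hd, Finset.range_zero, Finset.prod_empty]
  have hc1 : cM 1 (dN h n w0) = 4 := by
    rw [AM2.cM_one hGMB, if_pos hd]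
  have b1 := AM2.jp hUPS hJP2 hVDIM hGMB hN hh hS 0 _ hmono' (by split_ifs <;> norm_num) hEl
  have b2 := AM2.jp hUPS hJP2 hVDIM hGMB hN hh hS 1 (fun c => (3 : ℝ) ^ (0 * c)) hmono
    (by norm_num) hone
  rw [hc0, one_mul] at b1
  rw [hc1, mul_one] at b2
  have d2 := hUPS.2.2 _ _ _ (1 / D) (by positivity) b2
  set S : ℕ → Set ℕ := fun E => {q | q % 3 = 2 ∧ InCT E π w0 c q} with hSdef
  set G : ℕ → ℕ → ℝ := fun E q => (if t ≤ kS h n b X Y P Q P' Q' E q then (1 : ℝ) else 0) +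
    1 / D * (Nat.card (WqS h n π p e r w0 c (BB h n E q)) : ℝ) with hGdef
  have key := hUPS.1 (Fin 2) S G (fun _ => S)
    ![fun E q => (Nat.card (WqS h n π p e r w0 c (BB h n E q)) : ℝ) ^ 0 *
        (if t ≤ kS h n b X Y P Q P' Q' E q then (1 : ℝ) else 0),
      fun E q => 1 / D * ((Nat.card (WqS h n π p e r w0 c (BB h n E q)) : ℝ) ^ 1 *
        3 ^ (0 * kS h n b X Y P Q P' Q' E q))]
    ![l / 3 ^ (m + 1), 1 / D * (4 / 3 ^ (m + 1))] 1 0 one_pos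
    (fun i E q => by
      fin_cases i
      · show (0 : ℝ) ≤ (Nat.card (WqS h n π p e r w0 c (BB h n E q)) : ℝ) ^ 0 *
          (if t ≤ kS h n b X Y P Q P' Q' E q then (1 : ℝ) else 0)
        positivity
      · show (0 : ℝ) ≤ 1 / D * ((Nat.card (WqS h n π p e r w0 c (BB h n E q)) : ℝ) ^ 1 *
          3 ^ (0 * kS h n b X Y P Q P' Q' E q))
        positivity)
    (fun E q hE hq hM hqS => by
      rw [Fin.sum_univ_two, if_pos hqS, if_pos hqS]
      show 1 * ((if t ≤ kS h n b X Y P Q P' Q' E q then (1 : ℝ) else 0) +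
          1 / D * (Nat.card (WqS h n π p e r w0 c (BB h n E q)) : ℝ)) ≤
        (Nat.card (WqS h n π p e r w0 c (BB h n E q)) : ℝ) ^ 0 *
          (if t ≤ kS h n b X Y P Q P' Q' E q then (1 : ℝ) else 0) +
        1 / D * ((Nat.card (WqS h n π p e r w0 c (BB h n E q)) : ℝ) ^ 1 *
          3 ^ (0 * kS h n b X Y P Q P' Q' E q))
      simp only [zero_mul, pow_zero, pow_one, one_mul, mul_one]
      exact le_rfl)
    (fun i => by
      fin_cases i
      · exact b1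
      · exact d2)
  have e1 : (∑ i : Fin 2, (![l / 3 ^ (m + 1), 1 / D * (4 / 3 ^ (m + 1))] : Fin 2 → ℝ) i) / 1
      = (l + 1 / D * 4) / 3 ^ (m + 1) := by
    rw [Fin.sum_univ_two]
    simp only [Matrix.cons_val_zero, Matrix.cons_val_one]
    ring
  rw [e1] at key
  refine hUPL ((3 ^ h * n : ℕ) : ℤ) 2 (max 3 n) (Kl π w0 c) (fun A => CubeRank.rr A ≤ 2) S G _
    (1 / 3 ^ (m + 1)) (1 + 1 / D) (by positivity) ?_ ?_ ?_ key
  · intro E q hE hq hM hqS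
    exact ⟨hqS.1, (CAB.kl_iff hSPP hN w0 c hq
      (p_ne hN (lt_of_le_of_lt (le_max_right _ _) hM)) E).2 hqS.2⟩
  · intro E q hE hq hM hqS
    obtain ⟨d, hd', hr⟩ := AV2.rk hNBW hWGR hN hh hS hE hq hM hqS
    have hB : ((3 ^ h * n : ℕ) : ℤ) * (q : ℤ) ^ E = BB h n E q := by
      unfold BB
      push_cast
      ring
    have h1 := point (t := t) hD (fun h1 h2 => hcase d (kS h n b X Y P Q P' Q' E q) h1 h2) hr
    show (1 + 1 / D) - ((if t ≤ kS h n b X Y P Q P' Q' E q then (1 : ℝ) else 0) +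
      1 / D * (Nat.card (WqS h n π p e r w0 c (BB h n E q)) : ℝ)) ≤
        tf (CubeRank.rr (((3 ^ h * n : ℕ) : ℤ) * (q : ℤ) ^ E) ≤ 2)
    rw [hB, hd']
    push_cast
    exact h1
  · obtain ⟨K, hK⟩ := hCLT m π p hN.pp hN.p1 hN.pπ hN.pinj w0 c 2 (Or.inr rfl)
    exact ⟨K, fun σ h1 h2 => (hK σ h1 h2).1⟩

end PR2

open _root_.Pool.Agent.PTK.PR2 in
theorem PR2_thm (hUPS : Stmt_UPS) (hUPL : Stmt_UPL) (hSUMA : Stmt_SUMA) (hLAW : Stmt_LAW)
    (hCLT : Stmt_CLT) (hSPP : SPP) (hPLE : Stmt_PLE)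
    (hJP2 : Stmt_JP2) (hVDIM : Stmt_VDIM) (hGMB : Stmt_GMB) (hESB : Stmt_ESB)
    (hNBW : Stmt_NBW) (hWGR : Stmt_WGR) : Stmt_PR2 := by
  intro h n m k π p e r f w0 c hN hh hd
  obtain ⟨s, τ, b, X, Y, P, Q, P', Q', -, hS⟩ := hPLE h n m k π p e r f w0 c hN hh
  have hx : (0 : ℝ) < 1 / 3 ^ (m + 1) := by positivity
  have hmon := (hSUMA ((3 ^ h * n : ℕ) : ℤ) 2 m π (fun A => tf (CubeRank.rr A ≤ 2))).2.2.2
    (Kl π w0 c)
  rcases Nat.even_or_odd s with hs | hs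
  · have h1 := low hUPS hUPL hCLT hSPP hJP2 hVDIM hGMB hESB hNBW hWGR hN hh hd hS (t := 1)
      (D := 26) (l := 3 / 8) (by norm_num) (hLAW.2.2.1 s hs) (fun d κ h1 h2 => by
        have h3 : 3 ≤ d := by omega
        have h4 : (3 : ℝ) ^ 3 ≤ 3 ^ d := pow_le_pow_right₀ (by norm_num) h3
        linarith)
    refine hmon _ _ ?_ h1
    rw [div_eq_mul_one_div (1 / 2 : ℝ), div_eq_mul_one_div (3 / 8 + 1 / 26 * 4 : ℝ), ← sub_mul]
    exact mul_le_mul_of_nonneg_right (by norm_num) hx.le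
  · have h1 := low hUPS hUPL hCLT hSPP hJP2 hVDIM hGMB hESB hNBW hWGR hN hh hd hS (t := 2)
      (D := 8) (l := 1 / 24) (by norm_num) (hLAW.2.2.2.1 s hs) (fun d κ h1 h2 => by
        have h3 : 2 ≤ d := by omega
        have h4 : (3 : ℝ) ^ 2 ≤ 3 ^ d := pow_le_pow_right₀ (by norm_num) h3
        linarith)
    refine hmon _ _ ?_ h1
    rw [div_eq_mul_one_div (1 / 2 : ℝ), div_eq_mul_one_div (1 / 24 + 1 / 8 * 4 : ℝ), ← sub_mul]
    exact mul_le_mul_of_nonneg_right (by norm_num) hx.le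

end Pool.Agent.PTK


end

section

/-! PTK_PR1 (helper99): small ranks in a class, `q = 1 (mod 3)`. -/

set_option autoImplicit false

open Finset

namespace Pool.Agent.PTK

open Pool.Agent.Lib_helper18 Pool.Agent.Lib_helper18.Eis Pool.Agent.Lib_helper84.Cub
open Pool.Agent.PT Pool.Agent.PTE Pool.Agent.PT3 Pool.Agent.PTL Pool.Agent.PTN

namespace PR1

open AV1

open Classical in
/-- The general bound. `N` is the number of the classes of points, `κ δ`, `κ₀ + 1` the coranks,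
`R` the rank. -/
theorem gen (hUPS : Stmt_UPS) {d : ℕ} (S : ℕ → Set ℕ)
    (TP : {δ : Fin d → ZMod 3 // δ ≠ 0} → ℕ → Set ℕ) (TZ : ℕ → Set ℕ)
    (R N : ℕ → ℕ → ℕ) (κ : {δ : Fin d → ZMod 3 // δ ≠ 0} → ℕ → ℕ → ℕ) (κ₀ : ℕ → ℕ → ℕ) (M : ℕ)
    (hN : ∀ E q, (E = 1 ∨ E = 2) → q.Prime → M < q → q ∈ S E → ∃ w, N E q = 3 ^ w ∧
      ((q ∈ TZ E ∧ R E q ≤ w + (κ₀ E q + 1)) ∨ ∃ δ δ' : {δ : Fin d → ZMod 3 // δ ≠ 0}, δ ≠ δ' ∧
        q ∈ TP δ E ∧ q ∈ TP δ' E ∧ R E q ≤ w + κ δ E q ∧ R E q ≤ w + κ δ' E q))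
    (F : ℕ → ℝ) (hF : Monotone F) (φ : ℕ → ℕ → ℝ) (hφ : ∀ a b, 0 ≤ φ a b)
    (h1 : ∀ w a, F (w + a) ≤ φ (3 ^ w) a) {x y : ℝ}
    (hx : ∀ δ : {δ : Fin d → ZMod 3 // δ ≠ 0},
      UpS (TP δ) (fun E q => φ (N E q) (κ δ E q)) x)
    (hy : UpS TZ (fun E q => φ (N E q) (κ₀ E q + 1)) y) :
    UpS S (fun E q => F (R E q)) (((3 ^ d - 1) * x + 2 * y) / 2) := by
  have hy2 := hUPS.2.2 _ _ _ 2 (by norm_num) hy
  have key := hUPS.1 (Option {δ : Fin d → ZMod 3 // δ ≠ 0}) S (fun E q => F (R E q))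
    (fun i => Option.rec TZ TP i)
    (fun i => Option.rec (fun E q => 2 * φ (N E q) (κ₀ E q + 1))
      (fun δ E q => φ (N E q) (κ δ E q)) i)
    (fun i => Option.rec (2 * y) (fun _ => x) i) 2 M (by norm_num) ?_ ?_ ?_
  · have e : ∑ i : Option {δ : Fin d → ZMod 3 // δ ≠ 0},
        (Option.rec (2 * y) (fun _ => x) i : ℝ) = (3 ^ d - 1) * x + 2 * y := by
      rw [Fintype.sum_option]
      simp only [Finset.sum_const, Finset.card_univ, nsmul_eq_mul]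
      rw [card_pat, add_comm]
    rw [e] at key
    exact key
  · intro i E q
    cases i with
    | none => exact mul_nonneg (by norm_num) (hφ _ _)
    | some δ => exact hφ _ _
  · intro E q hE hq hM hS
    rw [Fintype.sum_option]
    obtain ⟨w, hw, h | ⟨δ, δ', hne, hP, hP', hR, hR'⟩⟩ := hN E q hE hq hM hS
    · have a1 : 2 * F (R E q) ≤ 2 * φ (N E q) (κ₀ E q + 1) := by
        rw [hw]
        have := (hF h.2).trans (h1 w (κ₀ E q + 1))
        linarith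
      have a2 : 0 ≤ ∑ i : {δ : Fin d → ZMod 3 // δ ≠ 0},
          (if q ∈ TP i E then φ (N E q) (κ i E q) else 0) := by
        refine Finset.sum_nonneg fun i _ => ?_
        split_ifs
        · exact hφ _ _
        · exact le_rfl
      have a3 : (if q ∈ TZ E then 2 * φ (N E q) (κ₀ E q + 1) else 0) =
          2 * φ (N E q) (κ₀ E q + 1) := if_pos h.1
      show 2 * F (R E q) ≤ (if q ∈ TZ E then 2 * φ (N E q) (κ₀ E q + 1) else 0) +
        ∑ i : {δ : Fin d → ZMod 3 // δ ≠ 0}, (if q ∈ TP i E then φ (N E q) (κ i E q) else 0)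
      rw [a3]
      linarith
    · have a3 : 0 ≤ (if q ∈ TZ E then 2 * φ (N E q) (κ₀ E q + 1) else 0) := by
        split_ifs
        · exact mul_nonneg (by norm_num) (hφ _ _)
        · exact le_rfl
      have a4 : ∑ i ∈ ({δ, δ'} : Finset {δ : Fin d → ZMod 3 // δ ≠ 0}),
          (if q ∈ TP i E then φ (N E q) (κ i E q) else 0) ≤
          ∑ i : {δ : Fin d → ZMod 3 // δ ≠ 0},
          (if q ∈ TP i E then φ (N E q) (κ i E q) else 0) := by
        refine Finset.sum_le_sum_of_subset_of_nonneg (Finset.subset_univ _) fun i _ _ => ?_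
        split_ifs
        · exact hφ _ _
        · exact le_rfl
      rw [Finset.sum_pair hne] at a4
      have a5 : (if q ∈ TP δ E then φ (N E q) (κ δ E q) else 0) =
          φ (N E q) (κ δ E q) := if_pos hP
      have a6 : (if q ∈ TP δ' E then φ (N E q) (κ δ' E q) else 0) =
          φ (N E q) (κ δ' E q) := if_pos hP'
      rw [a5, a6] at a4
      have b1 := (hF hR).trans (h1 w (κ δ E q))
      have b2 := (hF hR').trans (h1 w (κ δ' E q))
      rw [← hw] at b1 b2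
      show 2 * F (R E q) ≤ (if q ∈ TZ E then 2 * φ (N E q) (κ₀ E q + 1) else 0) +
        ∑ i : {δ : Fin d → ZMod 3 // δ ≠ 0}, (if q ∈ TP i E then φ (N E q) (κ i E q) else 0)
      linarith
  · intro i
    cases i with
    | none => exact hy2
    | some δ => exact hx δ

lemma alg (L L' z x y : ℝ) (hx : x ≠ 0) (hy : y ≠ 0) :
    ((x - 1) * (L * (2 / x / y) + z * (2 / x / y)) +
      2 * (L' * (1 / x / y) + z * (1 / x / y))) / 2 =
      ((1 - 1 / x) * L + 1 / x * L' + z) / y := by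
  field_simp
  ring


/-- The lower bound with two parameters. -/
theorem low (hUPS : Stmt_UPS) (hUPL : Stmt_UPL) (hCLT : Stmt_CLT) (hSPP : SPP)
    (hVDIM : Stmt_VDIM) (hGMB : Stmt_GMB) (hESB : Stmt_ESB) (hESZ : Stmt_ESZ)
    (hNHPT : Stmt_NHPT) (hPLU : Stmt_PLU) (hPLE : Stmt_PLE) (hNBU : Stmt_NBU)
    (hNBX : Stmt_NBX) (hZPV : Stmt_ZPV) (hWGU : Stmt_WGU) (hPAT : Stmt_PAT)
    (hJPG : Stmt_JPG) (hJPZ : Stmt_JPZ) (hSPLT : SPLT)
    {h n m k : ℕ} {π : Fin m → PP} {p e : Fin m → ℕ} {r f : Fin k → ℕ}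
    {w0 : ZMod 3} {c : Fin m → ZMod 3} (hN : NF n π p e r f) (hh : h ≤ 2) (hdN : dN h n w0 ≤ 1)
    {t : ℕ} {D l : ℝ} (hD : 0 < D) (hl : LI (sN h n π p e r w0 c + 1) t ≤ l)
    (hcase : ∀ d κ : ℕ, κ < t → 3 ≤ d + κ → D + 1 ≤ 3 ^ d) :
    BelowA ((3 ^ h * n : ℕ) : ℤ) 1 (Kl π w0 c) (fun A => tf (CubeRank.rr A ≤ 2))
      ((1 + 1 / D) * (1 / 3 ^ (m + 1)) - (l + 1 / D * 4) / 3 ^ (m + 1)) := by
  obtain ⟨d, v, hd, hHB⟩ := hNHPT h n m k π p e r f w0 c hN hh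
  have hHB' : HB h n π w0 c v := hHB
  obtain ⟨s₀, τ₀, b₀, X₀, Y₀, P₀, Q₀, P₀', Q₀', hs₀, hS₀⟩ := hPLE h n m k π p e r f w0 c hN hh
  obtain rfl : s₀ = d := hs₀.trans hd.symm
  have hn : 0 < n := AV2.nf_pos hN
  choose s τ b X Y P Q P' Q' hPl using fun δ : {δ : Fin s₀ → ZMod 3 // δ ≠ 0} =>
    hPLU h n m k π p e r f w0 c s₀ v hN hh hHB' δ.1 δ.2
  obtain ⟨M, hM⟩ := hPAT s₀ v (fun i => (hHB.1 i).1.ne)
  obtain ⟨M', hM'⟩ := hZPV h n m k π p e r f w0 c s₀ τ₀ b₀ X₀ Y₀ P₀ Q₀ P₀' Q₀' s₀ v hN hh hS₀ hHB'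
  set S : ℕ → Set ℕ := fun E => {q | q % 3 = 1 ∧ InCT E π w0 c q} with hS
  set κ : {δ : Fin s₀ → ZMod 3 // δ ≠ 0} → ℕ → ℕ → ℕ := fun δ E q =>
    kU h n (b δ) (X δ) (Y δ) (P δ) (Q δ) (P' δ) (Q' δ) E q with hκ
  set κ₀ : ℕ → ℕ → ℕ := fun E q => kS h n b₀ X₀ Y₀ P₀ Q₀ P₀' Q₀' E q with hκ₀
  set N : ℕ → ℕ → ℕ := fun E q => Nat.card (WqS h n π p e r w0 c (BB h n E q)) with hNdef
  set R : ℕ → ℕ → ℕ := fun E q => CubeRank.rr (BB h n E q) with hR
  set TP : {δ : Fin s₀ → ZMod 3 // δ ≠ 0} → ℕ → Set ℕ := fun δ E =>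
    {q | q % 3 = 1 ∧ InCT E π w0 c q ∧ q ∈ Pat v δ.1} with hTP
  set TZ : ℕ → Set ℕ := fun E => {q | q % 3 = 1 ∧ InCT E π w0 c q ∧ q ∈ ZP b₀} with hTZ
  have main : ∀ E q, (E = 1 ∨ E = 2) → q.Prime → M + M' + n + 3 < q → q ∈ S E →
      ∃ w, N E q = 3 ^ w ∧
      ((q ∈ TZ E ∧ R E q ≤ w + (κ₀ E q + 1)) ∨ ∃ δ δ' : {δ : Fin s₀ → ZMod 3 // δ ≠ 0}, δ ≠ δ' ∧
        q ∈ TP δ E ∧ q ∈ TP δ' E ∧ R E q ≤ w + κ δ E q ∧ R E q ≤ w + κ δ' E q) := by
    intro E q hE hq hMq hqS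
    have hqn : ¬ q ∣ n := fun hdvd => by
      have := Nat.le_of_dvd hn hdvd
      omega
    obtain ⟨ρ, hρ⟩ := hSPLT.1 q hq hqS.1
    obtain ⟨w, hw⟩ := (hWGU h n m k π p e r f w0 c E q ρ hN hh hE hq (by omega) hqS.1 hqS.2 hqn
      hρ).1
    refine ⟨w, hw, ?_⟩
    rcases hM q hq (by omega) hqS.1 with hZ | ⟨δ, δ', hδ, hδ', hne, hP, hP'⟩
    · left
      have hZ' := hM' q hq (by omega) hZ
      refine ⟨⟨hqS.1, hqS.2, hZ'⟩, ?_⟩
      have g := hNBX h n m k π p e r f w0 c s₀ τ₀ b₀ X₀ Y₀ P₀ Q₀ P₀' Q₀' E q hN hh hS₀ hE hq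
        (by omega) hqS.1 hqS.2 hqn hZ'
      rw [hw, Nat.log_pow (by norm_num)] at g
      have g' := CubeRank.rr_le g
      show CubeRank.rr (BB h n E q) ≤ w + (kS h n b₀ X₀ Y₀ P₀ Q₀ P₀' Q₀' E q + 1)
      omega
    · right
      refine ⟨⟨δ, hδ⟩, ⟨δ', hδ'⟩, fun hh => hne (congrArg Subtype.val hh), ⟨hqS.1, hqS.2, hP⟩,
        ⟨hqS.1, hqS.2, hP'⟩, ?_, ?_⟩
      · have g := hNBU h n m k π p e r f w0 c s₀ v δ _ _ _ _ _ _ _ _ _ E q hN hh hδ
          (hPl ⟨δ, hδ⟩) hE hq (by omega) hqS.1 hqS.2 hqn hP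
        rw [hw, Nat.log_pow (by norm_num)] at g
        exact CubeRank.rr_le g
      · have g := hNBU h n m k π p e r f w0 c s₀ v δ' _ _ _ _ _ _ _ _ _ E q hN hh hδ'
          (hPl ⟨δ', hδ'⟩) hE hq (by omega) hqS.1 hqS.2 hqn hP'
        rw [hw, Nat.log_pow (by norm_num)] at g
        exact CubeRank.rr_le g
  -- the test functions
  set F : ℕ → ℝ := fun c => if t ≤ c then (1 : ℝ) else 0 with hFdef
  have hmono : Monotone F := by
    intro a b hab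
    show (if t ≤ a then (1 : ℝ) else 0) ≤ if t ≤ b then (1 : ℝ) else 0
    split_ifs
    · exact le_rfl
    · omega
    · norm_num
    · exact le_rfl
  have hF0 : ∀ c, 0 ≤ F c := fun c => by
    show (0 : ℝ) ≤ if t ≤ c then (1 : ℝ) else 0
    split_ifs <;> norm_num
  have hone : ∀ s' : ℕ, Esk s' (fun _ => (1 : ℝ)) ≤ 1 := by
    intro s'
    have h1 := hESB s' 0
    unfold MoB at h1
    rw [Finset.range_zero, Finset.prod_empty] at h1
    simpa using h1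
  have hone0 : ∀ s' : ℕ, 0 ≤ Esk s' (fun _ => (1 : ℝ)) := fun s' =>
    AM2.Esk_nonneg fun _ => zero_le_one
  have hg0 : gM 0 (vN h n π p e r w0 c - v0N h n π p e r w0 c) = 1 := rfl
  have hg1 : gM 1 (vN h n π p e r w0 c - v0N h n π p e r w0 c) ≤ 4 := by
    have h2 : vN h n π p e r w0 c - v0N h n π p e r w0 c ≤ dN h n w0 := by
      have h2 := hVDIM h n m k π p e r w0 c hh
      omega
    have h3 := AM2.gM_le hGMB 1 h2 (AM2.dN_le h n w0)
    rwa [AM2.cM_one hGMB, if_pos hdN] at h3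
  have hg1' : 0 ≤ gM 1 (vN h n π p e r w0 c - v0N h n π p e r w0 c) := by
    rw [show (1 : ℕ) = 0 + 1 from rfl, gM]
    have e1 : (0 : ℝ) ≤ 3 ^ (vN h n π p e r w0 c - v0N h n π p e r w0 c) - 1 := by
      have : (1 : ℝ) ≤ 3 ^ (vN h n π p e r w0 c - v0N h n π p e r w0 c) :=
        one_le_pow₀ (by norm_num)
      linarith
    have e2 : gM 0 (vN h n π p e r w0 c - v0N h n π p e r w0 c - 1) = 1 := rfl
    rw [hg0, e2]
    positivity
  have h3d : (0 : ℝ) < 3 ^ s₀ := by positivity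
  have h3m : (0 : ℝ) < 3 ^ (m + 1) := by positivity
  -- the averages for the patterns
  have hx : ∀ δ : {δ : Fin s₀ → ZMod 3 // δ ≠ 0},
      UpS (TP δ) (fun E q => F (κ δ E q) + 1 / D * (N E q : ℝ))
        (Esk (s₀ - 1) F * (2 / 3 ^ s₀ / 3 ^ (m + 1)) +
          (1 / D * 4) * (2 / 3 ^ s₀ / 3 ^ (m + 1))) := by
    intro δ
    have a1 := hJPG h n m k π p e r f w0 c s₀ v δ.1 _ _ _ _ _ _ _ _ _ hN hh δ.2 (hPl δ) 0 F
      hmono (hF0 0)
    have a2 := hJPG h n m k π p e r f w0 c s₀ v δ.1 _ _ _ _ _ _ _ _ _ hN hh δ.2 (hPl δ) 1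
      (fun _ => (1 : ℝ)) monotone_const zero_le_one
    rw [hg0, one_mul] at a1
    have a3 : UpS (TP δ) (fun E q => (Nat.card (WqS h n π p e r w0 c (BB h n E q)) : ℝ) ^ 1 * 1)
        (4 * (2 / 3 ^ s₀ / 3 ^ (m + 1))) := by
      refine hUPS.2.1 _ _ _ _ ?_ a2
      have e1 : Esk (s₀ - 1) (fun _ => (1 : ℝ)) * (2 / 3 ^ s₀ / 3 ^ (m + 1)) ≤
          1 * (2 / 3 ^ s₀ / 3 ^ (m + 1)) :=
        mul_le_mul_of_nonneg_right (hone _) (by positivity)
      rw [one_mul] at e1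
      exact mul_le_mul hg1 e1 (mul_nonneg (hone0 _) (by positivity)) (by norm_num)
    have a4 := up_add a1 (hUPS.2.2 _ _ _ (1 / D) (by positivity) a3)
    have e2 : (fun E q => (Nat.card (WqS h n π p e r w0 c (BB h n E q)) : ℝ) ^ 0 *
          F (kU h n (b δ) (X δ) (Y δ) (P δ) (Q δ) (P' δ) (Q' δ) E q) +
        1 / D * ((Nat.card (WqS h n π p e r w0 c (BB h n E q)) : ℝ) ^ 1 * 1)) =
        fun E q => F (κ δ E q) + 1 / D * (N E q : ℝ) := by
      funext E q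
      rw [pow_zero, one_mul, pow_one, mul_one]
    rw [e2] at a4
    rw [mul_assoc (1 / D)]
    exact a4
  have hy : UpS TZ (fun E q => F (κ₀ E q + 1) + 1 / D * (N E q : ℝ))
        (Esk s₀ (fun c => F (c + 1)) * (1 / 3 ^ s₀ / 3 ^ (m + 1)) +
          (1 / D * 4) * (1 / 3 ^ s₀ / 3 ^ (m + 1))) := by
    have a1 := hJPZ h n m k π p e r f w0 c s₀ τ₀ b₀ X₀ Y₀ P₀ Q₀ P₀' Q₀' hN hh hS₀ 0
      (fun c => F (c + 1)) (fun a b hab => hmono (by omega)) (hF0 _)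
    have a2 := hJPZ h n m k π p e r f w0 c s₀ τ₀ b₀ X₀ Y₀ P₀ Q₀ P₀' Q₀' hN hh hS₀ 1
      (fun _ => (1 : ℝ)) monotone_const zero_le_one
    rw [hg0, one_mul] at a1
    have a3 : UpS TZ (fun E q => (Nat.card (WqS h n π p e r w0 c (BB h n E q)) : ℝ) ^ 1 * 1)
        (4 * (1 / 3 ^ s₀ / 3 ^ (m + 1))) := by
      refine hUPS.2.1 _ _ _ _ ?_ a2
      have e1 : Esk s₀ (fun _ => (1 : ℝ)) * (1 / 3 ^ s₀ / 3 ^ (m + 1)) ≤
          1 * (1 / 3 ^ s₀ / 3 ^ (m + 1)) :=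
        mul_le_mul_of_nonneg_right (hone _) (by positivity)
      rw [one_mul] at e1
      exact mul_le_mul hg1 e1 (mul_nonneg (hone0 _) (by positivity)) (by norm_num)
    have a4 := up_add a1 (hUPS.2.2 _ _ _ (1 / D) (by positivity) a3)
    have e2 : (fun E q => (Nat.card (WqS h n π p e r w0 c (BB h n E q)) : ℝ) ^ 0 *
          F (kS h n b₀ X₀ Y₀ P₀ Q₀ P₀' Q₀' E q + 1) +
        1 / D * ((Nat.card (WqS h n π p e r w0 c (BB h n E q)) : ℝ) ^ 1 * 1)) =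
        fun E q => F (κ₀ E q + 1) + 1 / D * (N E q : ℝ) := by
      funext E q
      rw [pow_zero, one_mul, pow_one, mul_one]
    rw [e2] at a4
    rw [mul_assoc (1 / D)]
    exact a4
  -- the bound
  have g := gen hUPS S TP TZ R N κ κ₀ (M + M' + n + 3) main
    (fun ρ => (1 + 1 / D) - tf (ρ ≤ 2))
    (fun a b hab => by
      show (1 + 1 / D) - tf (a ≤ 2) ≤ (1 + 1 / D) - tf (b ≤ 2)
      unfold tf
      by_cases hb : b ≤ 2
      · rw [if_pos hb, if_pos (hab.trans hb)]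
      · rw [if_neg hb]
        split_ifs <;> linarith)
    (fun a b => F b + 1 / D * (a : ℝ))
    (fun a b => by
      have := hF0 b
      positivity)
    (fun w a => by
      have h1 := PR2.point (t := t) hD (fun h1 h2 => hcase w a h1 h2) (le_refl (w + a))
      show (1 + 1 / D) - tf (w + a ≤ 2) ≤ (if t ≤ a then (1 : ℝ) else 0) +
        1 / D * ((3 ^ w : ℕ) : ℝ)
      push_cast
      linarith)
    hx hy
  rw [alg _ _ _ _ _ h3d.ne' h3m.ne', hESZ s₀ F, LAW.Esk_ind] at g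
  have g2 := hUPS.2.1 _ _ _ ((l + 1 / D * 4) / 3 ^ (m + 1)) (by
    refine div_le_div_of_nonneg_right ?_ h3m.le
    rw [← hd] at hl
    linarith) g
  refine hUPL ((3 ^ h * n : ℕ) : ℤ) 1 (max 3 n) (Kl π w0 c) (fun A => CubeRank.rr A ≤ 2) S _ _
    (1 / 3 ^ (m + 1)) (1 + 1 / D) (by positivity) ?_ ?_ ?_ g2
  · intro E q hE hq hM hqS
    exact ⟨hqS.1, (CAB.kl_iff hSPP hN w0 c hq
      (PR2.p_ne hN (lt_of_le_of_lt (le_max_right _ _) hM)) E).2 hqS.2⟩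
  · intro E q hE hq hM hqS
    have hB : ((3 ^ h * n : ℕ) : ℤ) * (q : ℤ) ^ E = BB h n E q := by
      unfold BB
      push_cast
      ring
    show (1 + 1 / D) - ((1 + 1 / D) - tf (CubeRank.rr (BB h n E q) ≤ 2)) ≤
        tf (CubeRank.rr (((3 ^ h * n : ℕ) : ℤ) * (q : ℤ) ^ E) ≤ 2)
    rw [hB]
    linarith
  · obtain ⟨K, hK⟩ := hCLT m π p hN.pp hN.p1 hN.pπ hN.pinj w0 c 1 (Or.inl rfl)
    exact ⟨K, fun σ h1 h2 => (hK σ h1 h2).1⟩

end PR1

open _root_.Pool.Agent.PTK.PR1 in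
theorem PR1_thm (hUPS : Stmt_UPS) (hUPL : Stmt_UPL) (hLAW : Stmt_LAW) (hCLT : Stmt_CLT)
    (hSPP : SPP) (hVDIM : Stmt_VDIM) (hGMB : Stmt_GMB) (hESB : Stmt_ESB) (hESZ : Stmt_ESZ)
    (hNHPT : Stmt_NHPT) (hPLU : Stmt_PLU) (hPLE : Stmt_PLE) (hNBU : Stmt_NBU)
    (hNBX : Stmt_NBX) (hZPV : Stmt_ZPV) (hWGU : Stmt_WGU) (hPAT : Stmt_PAT)
    (hJPG : Stmt_JPG) (hJPZ : Stmt_JPZ) (hSPLT : SPLT) (hSUMA : Stmt_SUMA) : Stmt_PR1 := by
  intro h n m k π p e r f w0 c hN hh hd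
  have hx : (0 : ℝ) < 1 / 3 ^ (m + 1) := by positivity
  have hmon := (hSUMA ((3 ^ h * n : ℕ) : ℤ) 1 m π (fun A => tf (CubeRank.rr A ≤ 2))).2.2.2
    (Kl π w0 c)
  rcases Nat.even_or_odd (sN h n π p e r w0 c + 1) with hs | hs
  · have h1 := low hUPS hUPL hCLT hSPP hVDIM hGMB hESB hESZ hNHPT hPLU hPLE hNBU hNBX hZPV hWGU
      hPAT hJPG hJPZ hSPLT hN hh hd (t := 1)
      (D := 26) (l := 3 / 8) (by norm_num) (hLAW.2.2.1 _ hs) (fun d κ h1 h2 => by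
        have h3 : 3 ≤ d := by omega
        have h4 : (3 : ℝ) ^ 3 ≤ 3 ^ d := pow_le_pow_right₀ (by norm_num) h3
        linarith)
    refine hmon _ _ ?_ h1
    rw [div_eq_mul_one_div (1 / 2 : ℝ), div_eq_mul_one_div (3 / 8 + 1 / 26 * 4 : ℝ), ← sub_mul]
    exact mul_le_mul_of_nonneg_right (by norm_num) hx.le
  · have h1 := low hUPS hUPL hCLT hSPP hVDIM hGMB hESB hESZ hNHPT hPLU hPLE hNBU hNBX hZPV hWGU
      hPAT hJPG hJPZ hSPLT hN hh hd (t := 2)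
      (D := 8) (l := 1 / 24) (by norm_num) (hLAW.2.2.2.1 _ hs) (fun d κ h1 h2 => by
        have h3 : 2 ≤ d := by omega
        have h4 : (3 : ℝ) ^ 2 ≤ 3 ^ d := pow_le_pow_right₀ (by norm_num) h3
        linarith)
    refine hmon _ _ ?_ h1
    rw [div_eq_mul_one_div (1 / 2 : ℝ), div_eq_mul_one_div (1 / 24 + 1 / 8 * 4 : ℝ), ← sub_mul]
    exact mul_le_mul_of_nonneg_right (by norm_num) hx.le

end Pool.Agent.PTK


end
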