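import Mathlib
import Pool.Agent.PTDM.C39
import Pool.Agent.PTDM.C45
import Pool.Agent.PTKM.C01
import Pool.Agent.PTKM.C02

/-! Parts: PTKX.BDK, PTKX.BDJ, PTKX.BM2, PTKX.BDJU, PTKX.BMU, PTKX.BMZ -/

section

/-!
# PTK_BDK: the bound for the density, both exponents together
-/

set_option autoImplicit false

open NumberField IsDedekindDomain Finset
open scoped nonZeroDivisors Pointwise

namespace Pool.Agent.PTK

open Pool.Agent.Lib_helper18 Pool.Agent.Lib_helper18.Eis Pool.Agent.Lib_helper84.Cub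
open Pool.Agent.PT Pool.Agent.PTL

namespace BDK

open BDENS

/-- a cube root modulo an inert prime -/
theorem exists_root (hLCI : Stmt_LCI) {x : Eis} (hx : x ≠ 0) {Q : ℕ} (hQ : Q.Prime)
    (h3 : Q % 3 = 2) (hN : x.norm < Q) (hs : sym (Q : Eis) x = 0) :
    ∃ r : Eis, (Q : Eis) ∣ r ^ 3 - x := by
  have hnd : ¬ (Q : Eis) ∣ x := by
    rintro ⟨y, hy⟩
    have hy0 : y ≠ 0 := by
      rintro rfl
      apply hx
      rw [hy, mul_zero]
    have h1 : x.norm = (Q : ℤ) ^ 2 * y.norm := by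
      rw [hy, norm_mul, norm_natCast]
    have h2 := norm_pos hy0
    have h4 : (1 : ℤ) < Q := by exact_mod_cast hQ.one_lt
    nlinarith
  let π : PP := ⟨(Q : Eis), prime_inert hQ h3, by
    rw [natCast_re]
    omega, by simp⟩
  have hV : V π.1 x = 0 := V_eq_zero hnd
  have hc : ch π.1 x = 0 := by
    unfold ch up
    rw [hV, pow_zero, EuclideanDomain.div_one]
    exact hs
  have h1 : LCE π.1 x := by
    rw [hLCI.1 π x hx, hV]
    exact ⟨dvd_zero _, hc⟩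
  obtain ⟨r, hr⟩ := h1 1
  exact ⟨r, by rw [pow_one] at hr; exact hr⟩

section
variable {G : Type} [Group G] {f m s : ℕ} (χ : G →* (ZMod f)ˣ)
    (κ : (ZMod f)ˣ →* Multiplicative (Fin (m + 1) → ZMod 3)) (c : Fin (m + 1) → ZMod 3)
    (C : Fin s → ZMod 3) (Φ : (ZMod f)ˣ →* Multiplicative (Fin s → ZMod 3))
    (F : G → Prop) (t : G → Fin s → ZMod 3)

/-- the elements of class `c` with prescribed `t` -/
def XPK (g : G) : Prop := M2 (χ g) ∧ F g ∧ (κ (χ g)).toAdd = c ∧ t g = C + (Φ (χ g)).toAdd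

/-- the elements of class `-c` with prescribed `t` -/
def XMK (g : G) : Prop := M2 (χ g) ∧ F g ∧ (κ (χ g)).toAdd = -c ∧ t g = - C + (Φ (χ g)).toAdd

theorem three_s (x : Fin s → ZMod 3) : 3 • x = 0 := by
  funext i
  exact three_z (x i)

theorem smul_cast (k : ℕ) (x : Fin s → ZMod 3) : (k : ZMod 3) • x = k • x := by
  funext i
  rw [Pi.smul_apply, Pi.smul_apply, smul_eq_mul, nsmul_eq_mul]

/-- passing to another generator of a conjugate subgroup -/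
theorem transferK [Finite G] (hf : 0 < f) (h3 : 3 ∣ f)
    (hconj : ∀ g τ : G, M2 (χ g) → F g → F (τ * g * τ⁻¹) ∧ t (τ * g * τ⁻¹) = t g)
    (hpow : ∀ (g : G) (k : ℕ), M2 (χ g) → F g → Odd k → F (g ^ k) ∧
      t (g ^ k) = (k : ZMod 3) • t g)
    {g h τ : G} (hz : Subgroup.zpowers h = Subgroup.zpowers (τ * g * τ⁻¹)) :
    ((XPK χ κ c C Φ F t g → XPK χ κ c C Φ F t h) ∧
        (XMK χ κ c C Φ F t g → XMK χ κ c C Φ F t h)) ∨
      ((XPK χ κ c C Φ F t g → XMK χ κ c C Φ F t h) ∧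
        (XMK χ κ c C Φ F t g → XPK χ κ c C Φ F t h)) := by
  by_cases hM : M2 (χ g)
  swap
  · exact Or.inl ⟨fun h => absurd h.1 hM, fun h => absurd h.1 hM⟩
  by_cases hF : F g
  swap
  · exact Or.inl ⟨fun h => absurd h.2.1 hF, fun h => absurd h.2.1 hF⟩
  have hχg : χ (τ * g * τ⁻¹) = χ g := by
    rw [map_mul, map_mul, map_inv, mul_comm (χ τ), mul_inv_cancel_right]
  have hM' : M2 (χ (τ * g * τ⁻¹)) := by
    rw [hχg]
    exact hM
  have he : Even (orderOf (τ * g * τ⁻¹)) := by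
    apply M2_even hf h3 hM'
    rw [← map_pow, pow_orderOf_eq_one, map_one]
  obtain ⟨k, hk, hk3, hh⟩ := exists_pow hz he
  have h1 : χ h = χ g ^ k := by
    rw [hh, map_pow, hχg]
  obtain ⟨h2, h4⟩ := hconj g τ hM hF
  obtain ⟨h5, h6⟩ := hpow _ k hM' h2 hk
  rw [← hh] at h5 h6
  rw [h4, smul_cast] at h6
  have hMh : M2 (χ h) := by
    rw [h1]
    exact M2_pow hf h3 hM hk
  have e1 : (κ (χ h)).toAdd = k • (κ (χ g)).toAdd := by
    rw [h1, map_pow, toAdd_pow]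
  have e2 : (Φ (χ h)).toAdd = k • (Φ (χ g)).toAdd := by
    rw [h1, map_pow, toAdd_pow]
  have hk12 : k % 3 = 1 ∨ k % 3 = 2 := by omega
  rcases hk12 with hk1 | hk2
  · rw [nsmul_one three_f hk1] at e1
    rw [nsmul_one three_s hk1] at e2 h6
    refine Or.inl ⟨?_, ?_⟩
    · rintro ⟨-, -, h7, h8⟩
      refine ⟨hMh, h5, ?_, ?_⟩
      · rw [e1, h7]
      · rw [h6, e2, h8]
    · rintro ⟨-, -, h7, h8⟩
      refine ⟨hMh, h5, ?_, ?_⟩
      · rw [e1, h7]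
      · rw [h6, e2, h8]
  · rw [nsmul_two three_f hk2] at e1
    rw [nsmul_two three_s hk2] at e2 h6
    refine Or.inr ⟨?_, ?_⟩
    · rintro ⟨-, -, h7, h8⟩
      refine ⟨hMh, h5, ?_, ?_⟩
      · rw [e1, h7]
      · rw [h6, e2, h8]
        abel
    · rintro ⟨-, -, h7, h8⟩
      refine ⟨hMh, h5, ?_, ?_⟩
      · rw [e1, h7, neg_neg]
      · rw [h6, e2, h8]
        abel

/-- counting -/
theorem card_K [Finite G] (hf : 0 < f) (hχ : Function.Surjective χ)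
    (heq : ∀ (a : (ZMod f)ˣ) (v v' : Fin s → ZMod 3), M2 a →
      Nat.card {g : G // χ g = a ∧ F g ∧ t g = v} =
        Nat.card {g : G // χ g = a ∧ F g ∧ t g = v'})
    (hκ : ∀ c : Fin (m + 1) → ZMod 3,
      Nat.card {a : (ZMod f)ˣ // M2 a ∧ (κ a).toAdd = c} * (2 * 3 ^ (m + 1)) = f.totient)
    (d : Fin (m + 1) → ZMod 3) (D : Fin s → ZMod 3) :
    3 ^ s * Nat.card {g : G // M2 (χ g) ∧ F g ∧ (κ (χ g)).toAdd = d ∧
      t g = D + (Φ (χ g)).toAdd} * (2 * 3 ^ (m + 1)) ≤ Nat.card G := by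
  classical
  have : NeZero f := ⟨hf.ne'⟩
  obtain ⟨hfib, hcard⟩ := fibre χ hχ
  have hH : Nat.card (ZMod f)ˣ = f.totient := by
    rw [Nat.card_eq_fintype_card, ZMod.card_units_eq_totient]
  rw [hH] at hcard
  have hcls : ∀ (a : (ZMod f)ˣ) (v : Fin s → ZMod 3), M2 a →
      3 ^ s * Nat.card {g : G // χ g = a ∧ F g ∧ t g = v} ≤ Nat.card χ.ker := by
    intro a v ha
    have := Fintype.ofFinite G
    rw [← hfib a]
    have e0 : Nat.card {g : G // χ g = a} = (Finset.univ.filter fun g : G => χ g = a).card := by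
      rw [Nat.card_eq_fintype_card, Fintype.card_subtype]
    have e3 : ∀ v, Nat.card {g : G // χ g = a ∧ F g ∧ t g = v} =
        (Finset.univ.filter fun g : G => χ g = a ∧ F g ∧ t g = v).card := fun v => by
      rw [Nat.card_eq_fintype_card, Fintype.card_subtype]
    have e4 : (Finset.univ.filter fun g : G => χ g = a ∧ F g).card =
        ∑ v : Fin s → ZMod 3, (Finset.univ.filter fun g : G => χ g = a ∧ F g ∧ t g = v).card := by
      rw [Finset.card_eq_sum_card_fiberwise (f := t) (t := Finset.univ)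
        (fun g _ => Finset.mem_coe.2 (Finset.mem_univ _))]
      refine Finset.sum_congr rfl fun v _ => ?_
      congr 1
      ext g
      simp only [Finset.mem_filter, Finset.mem_univ, true_and]
      tauto
    have e5 : ∀ v' : Fin s → ZMod 3,
        (Finset.univ.filter fun g : G => χ g = a ∧ F g ∧ t g = v').card =
        (Finset.univ.filter fun g : G => χ g = a ∧ F g ∧ t g = v).card := by
      intro v'
      rw [← e3, ← e3]
      exact heq a v' v ha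
    rw [Finset.sum_congr rfl fun v' _ => e5 v', Finset.sum_const, smul_eq_mul] at e4
    have e6 : (Finset.univ : Finset (Fin s → ZMod 3)).card = 3 ^ s := by
      rw [Finset.card_univ, Fintype.card_fun, ZMod.card, Fintype.card_fin]
    rw [e6] at e4
    rw [e0, e3, ← e4]
    apply Finset.card_le_card
    intro g hg
    rw [Finset.mem_filter] at hg ⊢
    exact ⟨hg.1, hg.2.1⟩
  have hP : 3 ^ s * Nat.card {g : G // (M2 (χ g) ∧ (κ (χ g)).toAdd = d) ∧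
      (F g ∧ t g = D + (Φ (χ g)).toAdd)} ≤
      Nat.card {a : (ZMod f)ˣ // M2 a ∧ (κ a).toAdd = d} * Nat.card χ.ker := by
    refine count_le χ (fun g => F g ∧ t g = D + (Φ (χ g)).toAdd)
      (fun a => M2 a ∧ (κ a).toAdd = d) _ _ fun a ha => ?_
    refine le_trans (Nat.mul_le_mul_left _ (le_of_eq ?_)) (hcls a (D + (Φ a).toAdd) ha.1)
    refine Nat.card_congr (Equiv.subtypeEquivRight fun g => ?_)
    constructor
    · rintro ⟨rfl, h⟩
      exact ⟨rfl, h⟩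
    · rintro ⟨rfl, h⟩
      exact ⟨rfl, h⟩
  have e1 : Nat.card {g : G // M2 (χ g) ∧ F g ∧ (κ (χ g)).toAdd = d ∧
      t g = D + (Φ (χ g)).toAdd} =
      Nat.card {g : G // (M2 (χ g) ∧ (κ (χ g)).toAdd = d) ∧
      (F g ∧ t g = D + (Φ (χ g)).toAdd)} :=
    Nat.card_congr (Equiv.subtypeEquivRight fun g => by tauto)
  rw [e1]
  have h1 := hκ d
  generalize Nat.card {g : G // (M2 (χ g) ∧ (κ (χ g)).toAdd = d) ∧
      (F g ∧ t g = D + (Φ (χ g)).toAdd)} = nP at *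
  generalize Nat.card {a : (ZMod f)ˣ // M2 a ∧ (κ a).toAdd = d} = cP at *
  generalize 3 ^ (m + 1) = A at *
  generalize Nat.card χ.ker = K at *
  rw [← hcard]
  calc 3 ^ s * nP * (2 * A) ≤ cP * K * (2 * A) := Nat.mul_le_mul_right _ hP
    _ = K * (cP * (2 * A)) := by ring
    _ = K * f.totient := by rw [h1]

end

end BDK

open BDENS BD _root_.Pool.Agent.PTK.BDK in
/-- BDK: the bound for the density, both exponents together. -/
theorem BDK_thm (hLCI : Stmt_LCI) (hGAK : Stmt_GAK) (hDNS : Stmt_DNS) : Stmt_BDK := by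
  classical
  intro s x b p q p' q' f m κ c C Φ hSys hf h9 hκ
  have hx : x ≠ 0 := by
    rintro rfl
    refine hSys.ind 1 (fun _ => 0) (Or.inl (by norm_num)) ⟨0, ?_⟩
    simp
  obtain ⟨L, iF, iN, iG, χ, F, t, N₀, hχ, hconj, hpow, heq, hfrob⟩ :=
    hGAK s x b p q p' q' f hSys hf h9
  have h3 : 3 ∣ f := Dvd.dvd.trans (by norm_num) h9
  have hM : ∀ (Q : ℕ) (hQ : Q.Coprime f), M2 (ZMod.unitOfCoprime Q hQ) ↔ Q % 3 = 2 := by
    intro Q hQ
    unfold M2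
    rw [ZMod.coe_unitOfCoprime, ZMod.val_natCast, Nat.mod_mod_of_dvd _ h3]
  have htr := fun (g h τ : L ≃ₐ[ℚ] L)
    (hz : Subgroup.zpowers h = Subgroup.zpowers (τ * g * τ⁻¹)) =>
    transferK χ κ c C Φ F t hf h3 hconj hpow hz
  -- the Frobenius elements
  have hfr : ∀ (Q : ℕ) (hQ : Q.Coprime f), Q.Prime → max N₀ x.norm.natAbs < Q →
      ∀ (P : Ideal (𝓞 L)) (g : L ≃ₐ[ℚ] L), P.IsPrime → (Q : 𝓞 L) ∈ P →
      MulAction.stabilizer (L ≃ₐ[ℚ] L) P = Subgroup.zpowers g →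
      ∃ k : ℕ, k.Coprime (orderOf g) ∧ χ (g ^ k) = ZMod.unitOfCoprime Q hQ ∧
        (Q ∈ SPK x b p q p' q' κ c C Φ → XPK χ κ c C Φ F t (g ^ k)) ∧
        (Q ∈ SMK x b p q p' q' κ c C Φ → XMK χ κ c C Φ F t (g ^ k)) := by
    intro Q hQ hQp hN P g hP hQP hst
    have hN1 : N₀ < Q := lt_of_le_of_lt (le_max_left _ _) hN
    have hN2 : x.norm < Q := by
      have h1 : x.norm.natAbs < Q := lt_of_le_of_lt (le_max_right _ _) hN
      have h2 := norm_pos hx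
      omega
    obtain ⟨k, hk, hχk, hk2⟩ := hfrob Q hQ hQp hN1 P g hP hQP hst
    refine ⟨k, hk, hχk, ?_, ?_⟩
    · rintro ⟨hQ', h1, h2, h4, h5, h6⟩
      obtain ⟨h7, h8⟩ := hk2 h1 h4 h5
      obtain ⟨r, hr⟩ := exists_root hLCI hx hQp h1 hN2 h4
      refine ⟨?_, h7, ?_, ?_⟩
      · rw [hχk]
        exact (hM Q hQ).2 h1
      · rw [hχk]
        exact h2
      · funext j
        rw [h8 j r hr, h6 j r hr, hχk]
        rfl
    · rintro ⟨hQ', h1, h2, h4, h5, h6⟩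
      obtain ⟨h7, h8⟩ := hk2 h1 h4 h5
      obtain ⟨r, hr⟩ := exists_root hLCI hx hQp h1 hN2 h4
      refine ⟨?_, h7, ?_, ?_⟩
      · rw [hχk]
        exact (hM Q hQ).2 h1
      · rw [hχk]
        exact h2
      · funext j
        rw [h8 j r hr, h6 j r hr, hχk]
        rfl
  have hzk : ∀ (g : L ≃ₐ[ℚ] L) (k : ℕ), k.Coprime (orderOf g) →
      Subgroup.zpowers g = Subgroup.zpowers (1 * g ^ k * 1⁻¹) := by
    intro g k hk
    rw [one_mul, inv_one, mul_one]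
    exact (zpowers_pow_eq hk).symm
  have hor : ∀ g h τ : L ≃ₐ[ℚ] L, (XPK χ κ c C Φ F t g ∨ XMK χ κ c C Φ F t g) →
      Subgroup.zpowers h = Subgroup.zpowers (τ * g * τ⁻¹) →
      (XPK χ κ c C Φ F t h ∨ XMK χ κ c C Φ F t h) := by
    intro g h τ hB hz
    rcases htr g h τ hz with ⟨h4, h5⟩ | ⟨h4, h5⟩
    · rcases hB with h6 | h6
      · exact Or.inl (h4 h6)
      · exact Or.inr (h5 h6)
    · rcases hB with h6 | h6
      · exact Or.inr (h4 h6)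
      · exact Or.inl (h5 h6)
  have hand : ∀ g h τ : L ≃ₐ[ℚ] L, (XPK χ κ c C Φ F t g ∧ XMK χ κ c C Φ F t g) →
      Subgroup.zpowers h = Subgroup.zpowers (τ * g * τ⁻¹) →
      (XPK χ κ c C Φ F t h ∧ XMK χ κ c C Φ F t h) := by
    intro g h τ hB hz
    rcases htr g h τ hz with ⟨h4, h5⟩ | ⟨h4, h5⟩
    · exact ⟨h4 hB.1, h5 hB.2⟩
    · exact ⟨h5 hB.2, h4 hB.1⟩
  obtain ⟨K1, hK1⟩ := hDNS f m κ c L χ
    (fun g => XPK χ κ c C Φ F t g ∨ XMK χ κ c C Φ F t g)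
    (SPK x b p q p' q' κ c C Φ ∪ SMK x b p q p' q' κ c C Φ) (max N₀ x.norm.natAbs) hf h9 hχ hor
    (by
      rintro g (h | h)
      · exact ⟨h.1, Or.inl h.2.2.1⟩
      · exact ⟨h.1, Or.inr h.2.2.1⟩)
    (by
      intro Q hQ hQp hN P g hP hQP hst
      obtain ⟨k, hk, hχk, h1, h2⟩ := hfr Q hQ hQp hN P g hP hQP hst
      refine ⟨⟨k, hk, hχk⟩, ?_⟩
      rintro (h | h)
      · exact hor (g ^ k) g 1 (Or.inl (h1 h)) (hzk g k hk)
      · exact hor (g ^ k) g 1 (Or.inr (h2 h)) (hzk g k hk))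
    (by
      rintro Q hQ hQp hN (⟨hQ', h1, h2, -⟩ | ⟨hQ', h1, h2, -⟩)
      · exact ⟨h1, Or.inl h2⟩
      · exact ⟨h1, Or.inr h2⟩)
  obtain ⟨K2, hK2⟩ := hDNS f m κ c L χ
    (fun g => XPK χ κ c C Φ F t g ∧ XMK χ κ c C Φ F t g)
    (SPK x b p q p' q' κ c C Φ ∩ SMK x b p q p' q' κ c C Φ) (max N₀ x.norm.natAbs) hf h9 hχ hand
    (by
      rintro g ⟨h, -⟩
      exact ⟨h.1, Or.inl h.2.2.1⟩)
    (by
      intro Q hQ hQp hN P g hP hQP hst
      obtain ⟨k, hk, hχk, h1, h2⟩ := hfr Q hQ hQp hN P g hP hQP hst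
      refine ⟨⟨k, hk, hχk⟩, ?_⟩
      rintro ⟨h, h'⟩
      exact hand (g ^ k) g 1 ⟨h1 h, h2 h'⟩ (hzk g k hk))
    (by
      rintro Q hQ hQp hN ⟨⟨hQ', h1, h2, -⟩, -⟩
      exact ⟨h1, Or.inl h2⟩)
  have hX1 := card_K χ κ Φ F t hf hχ heq hκ c C
  have hX2 := card_K χ κ Φ F t hf hχ heq hκ (-c) (-C)
  have hincl := card_incl (fun g => XPK χ κ c C Φ F t g) (fun g => XMK χ κ c C Φ F t g)
  refine ⟨K1 + K2, fun σ h1 h2 => ?_⟩
  have e1 := hK1 σ h1 h2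
  have e2 := hK2 σ h1 h2
  have hlog : 0 ≤ Real.log (1 / (σ - 1)) := by
    apply Real.log_nonneg
    rw [le_div_iff₀ (by linarith)]
    linarith
  rw [sm_union_inter _ _ h1]
  have hG : 0 < Nat.card (L ≃ₐ[ℚ] L) := Nat.card_pos
  have hcnt : (Nat.card {g : L ≃ₐ[ℚ] L // XPK χ κ c C Φ F t g ∨ XMK χ κ c C Φ F t g} : ℝ) /
      Nat.card (L ≃ₐ[ℚ] L) +
      (Nat.card {g : L ≃ₐ[ℚ] L // XPK χ κ c C Φ F t g ∧ XMK χ κ c C Φ F t g} : ℝ) /
      Nat.card (L ≃ₐ[ℚ] L) ≤ 1 / 3 ^ s / 3 ^ (m + 1) := by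
    have hX1' : 3 ^ s * Nat.card {g : L ≃ₐ[ℚ] L // XPK χ κ c C Φ F t g} *
      (2 * 3 ^ (m + 1)) ≤ Nat.card (L ≃ₐ[ℚ] L) := hX1
    have hX2' : 3 ^ s * Nat.card {g : L ≃ₐ[ℚ] L // XMK χ κ c C Φ F t g} *
      (2 * 3 ^ (m + 1)) ≤ Nat.card (L ≃ₐ[ℚ] L) := hX2
    clear hX1 hX2
    generalize Nat.card {g : L ≃ₐ[ℚ] L // XPK χ κ c C Φ F t g ∨ XMK χ κ c C Φ F t g} = n1 at *
    generalize Nat.card {g : L ≃ₐ[ℚ] L // XPK χ κ c C Φ F t g ∧ XMK χ κ c C Φ F t g} = n2 at *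
    generalize Nat.card {g : L ≃ₐ[ℚ] L // XPK χ κ c C Φ F t g} = x1 at *
    generalize Nat.card {g : L ≃ₐ[ℚ] L // XMK χ κ c C Φ F t g} = x2 at *
    generalize Nat.card (L ≃ₐ[ℚ] L) = g0 at *
    have hG' : (0 : ℝ) < g0 := Nat.cast_pos.2 hG
    have hF : (0 : ℝ) < 3 ^ (m + 1) := by positivity
    have hS : (0 : ℝ) < 3 ^ s := by positivity
    have i1 : (3 : ℝ) ^ s * x1 * (2 * 3 ^ (m + 1)) ≤ g0 := by exact_mod_cast hX1'
    have i2 : (3 : ℝ) ^ s * x2 * (2 * 3 ^ (m + 1)) ≤ g0 := by exact_mod_cast hX2'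
    have i3 : (n1 : ℝ) + n2 = x1 + x2 := by exact_mod_cast hincl
    rw [← add_div, i3, div_div, div_le_div_iff₀ hG' (by positivity)]
    nlinarith
  have hmul := mul_le_mul_of_nonneg_right hcnt hlog
  rw [add_mul] at hmul
  linarith

end Pool.Agent.PTK


end

section

/-!
# PTK_BDJ: the bound for the density, both parts and both exponents together
-/

set_option autoImplicit false

open NumberField IsDedekindDomain Finset
open scoped nonZeroDivisors Pointwise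

namespace Pool.Agent.PTK

open Pool.Agent.Lib_helper18 Pool.Agent.Lib_helper18.Eis Pool.Agent.Lib_helper84.Cub
open Pool.Agent.PT Pool.Agent.PTE Pool.Agent.PT3 Pool.Agent.PTL Pool.Agent.PTN

namespace BDJ

open BDENS BDK

/-- fibrewise equality of cardinalities -/
theorem card_fib {G H : Type} [Finite G] [Finite H] (χ : G → H) (P P' : G → Prop)
    (h : ∀ a, Nat.card {g : G // χ g = a ∧ P g} = Nat.card {g : G // χ g = a ∧ P' g}) :
    Nat.card {g : G // P g} = Nat.card {g : G // P' g} := by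
  have := Fintype.ofFinite H
  have key : ∀ R : G → Prop,
      Nat.card {g : G // R g} = ∑ a : H, Nat.card {g : G // χ g = a ∧ R g} := by
    intro R
    rw [Nat.card_congr (Equiv.sigmaFiberEquiv (fun x : {g : G // R g} => χ x)).symm,
      Nat.card_sigma]
    refine Finset.sum_congr rfl fun a _ => ?_
    refine Nat.card_congr ((Equiv.subtypeSubtypeEquivSubtypeInter R (fun g : G => χ g = a)).trans
      (Equiv.subtypeEquivRight fun g => and_comm))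
  rw [key P, key P']
  exact Finset.sum_congr rfl fun a _ => h a

section
variable {G : Type} [Group G] {f m s k : ℕ} (χ : G →* (ZMod f)ˣ)
    (κ : (ZMod f)ˣ →* Multiplicative (Fin (m + 1) → ZMod 3)) (c : Fin (m + 1) → ZMod 3)
    (C : Fin s → Fin s → ZMod 3) (Φ : (ZMod f)ˣ →* Multiplicative (Fin s → Fin s → ZMod 3))
    (C' : Fin k → ZMod 3) (Φ' : (ZMod f)ˣ →* Multiplicative (Fin k → ZMod 3))
    (tn : ℕ) (tt : G → Fin s → Fin s → ZMod 3) (F : G → Prop) (t : G → Fin k → ZMod 3)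

/-- the elements of class `c` with prescribed `t` and large kernel -/
def XPJ (g : G) : Prop := XPK χ κ c C' Φ' F t g ∧
  tn ≤ s - (alt (C + (Φ (χ g)).toAdd - tt g)).rank

/-- the elements of class `-c` with prescribed `t` and large kernel -/
def XMJ (g : G) : Prop := XMK χ κ c C' Φ' F t g ∧
  tn ≤ s - (alt (C - (Φ (χ g)).toAdd + tt g)).rank

/-- passing to another generator of a conjugate subgroup -/
theorem transferJ [Finite G] (hf : 0 < f) (h3 : 3 ∣ f)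
    (hconj1 : ∀ g τ : G, M2 (χ g) → ∀ j i, j ≠ i → tt (τ * g * τ⁻¹) j i = tt g j i)
    (hpow1 : ∀ (g : G) (l : ℕ), M2 (χ g) → Odd l → ∀ j i, j ≠ i →
      tt (g ^ l) j i = l * tt g j i)
    (hconj : ∀ g τ : G, M2 (χ g) → F g → F (τ * g * τ⁻¹) ∧ t (τ * g * τ⁻¹) = t g)
    (hpow : ∀ (g : G) (l : ℕ), M2 (χ g) → F g → Odd l → F (g ^ l) ∧
      t (g ^ l) = (l : ZMod 3) • t g)
    {g h τ : G} (hz : Subgroup.zpowers h = Subgroup.zpowers (τ * g * τ⁻¹)) :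
    ((XPJ χ κ c C Φ C' Φ' tn tt F t g → XPJ χ κ c C Φ C' Φ' tn tt F t h) ∧
        (XMJ χ κ c C Φ C' Φ' tn tt F t g → XMJ χ κ c C Φ C' Φ' tn tt F t h)) ∨
      ((XPJ χ κ c C Φ C' Φ' tn tt F t g → XMJ χ κ c C Φ C' Φ' tn tt F t h) ∧
        (XMJ χ κ c C Φ C' Φ' tn tt F t g → XPJ χ κ c C Φ C' Φ' tn tt F t h)) := by
  by_cases hM : M2 (χ g)
  swap
  · exact Or.inl ⟨fun h => absurd h.1.1 hM, fun h => absurd h.1.1 hM⟩
  by_cases hF : F g
  swap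
  · exact Or.inl ⟨fun h => absurd h.1.2.1 hF, fun h => absurd h.1.2.1 hF⟩
  have hχg : χ (τ * g * τ⁻¹) = χ g := by
    rw [map_mul, map_mul, map_inv, mul_comm (χ τ), mul_inv_cancel_right]
  have hM' : M2 (χ (τ * g * τ⁻¹)) := by
    rw [hχg]
    exact hM
  have he : Even (orderOf (τ * g * τ⁻¹)) := by
    apply M2_even hf h3 hM'
    rw [← map_pow, pow_orderOf_eq_one, map_one]
  obtain ⟨l, hl, hl3, hh⟩ := exists_pow hz he
  have h1 : χ h = χ g ^ l := by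
    rw [hh, map_pow, hχg]
  obtain ⟨h2, h4⟩ := hconj g τ hM hF
  obtain ⟨h5, h6⟩ := hpow _ l hM' h2 hl
  rw [← hh] at h5 h6
  rw [h4, smul_cast] at h6
  have ht : ∀ j i, j ≠ i → tt h j i = l * tt g j i := by
    intro j i hji
    rw [hh, hpow1 _ l hM' hl j i hji, hconj1 g τ hM j i hji]
  have hMh : M2 (χ h) := by
    rw [h1]
    exact M2_pow hf h3 hM hl
  have e1 : (κ (χ h)).toAdd = l • (κ (χ g)).toAdd := by
    rw [h1, map_pow, toAdd_pow]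
  have e2 : (Φ' (χ h)).toAdd = l • (Φ' (χ g)).toAdd := by
    rw [h1, map_pow, toAdd_pow]
  have e0 : (Φ (χ h)).toAdd = l • (Φ (χ g)).toAdd := by
    rw [h1, map_pow, toAdd_pow]
  have hl12 : l % 3 = 1 ∨ l % 3 = 2 := by omega
  rcases hl12 with hk1 | hk2
  · rw [nsmul_one three_f hk1] at e1
    rw [nsmul_one three_s hk1] at e2 h6
    rw [nsmul_one three_ff hk1] at e0
    have e3 : alt (C + (Φ (χ h)).toAdd - tt h) = alt (C + (Φ (χ g)).toAdd - tt g) := by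
      apply alt_congr
      intro j i hji
      rw [Pi.sub_apply, Pi.sub_apply, Pi.sub_apply, Pi.sub_apply, ht j i hji.ne,
        cast_one hk1, e0]
    have e4 : alt (C - (Φ (χ h)).toAdd + tt h) = alt (C - (Φ (χ g)).toAdd + tt g) := by
      apply alt_congr
      intro j i hji
      rw [Pi.add_apply, Pi.add_apply, Pi.add_apply, Pi.add_apply, ht j i hji.ne,
        cast_one hk1, e0]
    refine Or.inl ⟨?_, ?_⟩
    · rintro ⟨⟨-, -, h7, h8⟩, h9⟩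
      refine ⟨⟨hMh, h5, ?_, ?_⟩, ?_⟩
      · rw [e1, h7]
      · rw [h6, e2, h8]
      · rw [e3]
        exact h9
    · rintro ⟨⟨-, -, h7, h8⟩, h9⟩
      refine ⟨⟨hMh, h5, ?_, ?_⟩, ?_⟩
      · rw [e1, h7]
      · rw [h6, e2, h8]
      · rw [e4]
        exact h9
  · rw [nsmul_two three_f hk2] at e1
    rw [nsmul_two three_s hk2] at e2 h6
    rw [nsmul_two three_ff hk2] at e0
    have e3 : alt (C + (Φ (χ h)).toAdd - tt h) = alt (C - (Φ (χ g)).toAdd + tt g) := by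
      apply alt_congr
      intro j i hji
      rw [Pi.sub_apply, Pi.sub_apply, Pi.add_apply, Pi.add_apply, ht j i hji.ne,
        cast_two hk2, e0]
      show C j i + -((Φ (χ g)).toAdd j i) - -tt g j i = C j i - (Φ (χ g)).toAdd j i + tt g j i
      ring
    have e4 : alt (C - (Φ (χ h)).toAdd + tt h) = alt (C + (Φ (χ g)).toAdd - tt g) := by
      apply alt_congr
      intro j i hji
      rw [Pi.add_apply, Pi.add_apply, Pi.sub_apply, Pi.sub_apply, ht j i hji.ne,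
        cast_two hk2, e0]
      show C j i - -((Φ (χ g)).toAdd j i) + -tt g j i = C j i + (Φ (χ g)).toAdd j i - tt g j i
      ring
    refine Or.inr ⟨?_, ?_⟩
    · rintro ⟨⟨-, -, h7, h8⟩, h9⟩
      refine ⟨⟨hMh, h5, ?_, ?_⟩, ?_⟩
      · rw [e1, h7]
      · rw [h6, e2, h8]
        abel
      · rw [e4]
        exact h9
    · rintro ⟨⟨-, -, h7, h8⟩, h9⟩
      refine ⟨⟨hMh, h5, ?_, ?_⟩, ?_⟩
      · rw [e1, h7, neg_neg]
      · rw [h6, e2, h8]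
        abel
      · rw [e3]
        exact h9

/-- the vectors `t` are equidistributed -/
theorem heqK [Finite G]
    (heq : ∀ (a : (ZMod f)ˣ) (v v' : Fin s → Fin s → ZMod 3) (y y' : Fin k → ZMod 3), M2 a →
      Nat.card {g : G // χ g = a ∧ F g ∧ t g = y ∧ ∀ j i, j < i → tt g j i = v j i} =
        Nat.card {g : G // χ g = a ∧ F g ∧ t g = y' ∧ ∀ j i, j < i → tt g j i = v' j i})
    (a : (ZMod f)ˣ) (y y' : Fin k → ZMod 3) (ha : M2 a) :
    Nat.card {g : G // χ g = a ∧ F g ∧ t g = y} =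
      Nat.card {g : G // χ g = a ∧ F g ∧ t g = y'} := by
  classical
  obtain ⟨pr, hpr⟩ : ∃ pr : (Fin s → Fin s → ZMod 3) → (Fin s → Fin s → ZMod 3),
      pr = fun v j i => if j < i then v j i else 0 := ⟨_, rfl⟩
  refine card_fib (fun g => pr (tt g)) _ _ fun v => ?_
  by_cases hv : pr v = v
  · have key : ∀ z : Fin k → ZMod 3, Nat.card {g : G // pr (tt g) = v ∧ χ g = a ∧ F g ∧ t g = z} =
        Nat.card {g : G // χ g = a ∧ F g ∧ t g = z ∧ ∀ j i, j < i → tt g j i = v j i} := by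
      intro z
      refine Nat.card_congr (Equiv.subtypeEquivRight fun g => ?_)
      have h1 : pr (tt g) = v ↔ ∀ j i, j < i → tt g j i = v j i := by
        constructor
        · intro h j i hji
          rw [← h, hpr]
          simp only [if_pos hji]
        · intro h
          rw [← hv, hpr]
          funext j i
          by_cases hji : j < i
          · simp only [if_pos hji]
            exact h j i hji
          · simp only [if_neg hji]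
      rw [h1]
      tauto
    rw [key y, key y']
    exact heq a v v y y' ha
  · have key : ∀ z : Fin k → ZMod 3,
        Nat.card {g : G // pr (tt g) = v ∧ χ g = a ∧ F g ∧ t g = z} = 0 := by
      intro z
      rw [Nat.card_eq_zero]
      left
      constructor
      rintro ⟨g, h, -⟩
      apply hv
      rw [← h, hpr]
      funext j i
      by_cases hji : j < i
      · simp only [if_pos hji]
      · simp only [if_neg hji]
    rw [key y, key y']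

/-- counting for one of the two sets -/
theorem card_one [Finite G] (hEQX : Stmt_EQX) (hf : 0 < f)
    (heq : ∀ (a : (ZMod f)ˣ) (v v' : Fin s → Fin s → ZMod 3) (y y' : Fin k → ZMod 3), M2 a →
      Nat.card {g : G // χ g = a ∧ F g ∧ t g = y ∧ ∀ j i, j < i → tt g j i = v j i} =
        Nat.card {g : G // χ g = a ∧ F g ∧ t g = y' ∧ ∀ j i, j < i → tt g j i = v' j i})
    (D : Fin k → ZMod 3) :
    Nat.card (Fin s → Fin s → ZMod 3) * Nat.card {g : G // (M2 (χ g) ∧ F g ∧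
        (κ (χ g)).toAdd = c ∧ t g = D + (Φ' (χ g)).toAdd) ∧
        tn ≤ s - (alt (C + ((Φ (χ g)).toAdd - tt g))).rank} =
      NK s tn * Nat.card {g : G // M2 (χ g) ∧ F g ∧
        (κ (χ g)).toAdd = c ∧ t g = D + (Φ' (χ g)).toAdd} ∧
    Nat.card (Fin s → Fin s → ZMod 3) * Nat.card {g : G // (M2 (χ g) ∧ F g ∧
        (κ (χ g)).toAdd = c ∧ t g = D + (Φ' (χ g)).toAdd) ∧
        tn ≤ s - (alt (C - ((Φ (χ g)).toAdd - tt g))).rank} =
      NK s tn * Nat.card {g : G // M2 (χ g) ∧ F g ∧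
        (κ (χ g)).toAdd = c ∧ t g = D + (Φ' (χ g)).toAdd} := by
  have : NeZero f := ⟨hf.ne'⟩
  obtain ⟨P, hP⟩ : ∃ P : G → Prop, P = fun g => M2 (χ g) ∧ F g ∧
    (κ (χ g)).toAdd = c ∧ t g = D + (Φ' (χ g)).toAdd := ⟨_, rfl⟩
  have key : ∀ R : G → Prop, Nat.card {x : {g : G // P g} // R x} =
      Nat.card {g : G // P g ∧ R g} := fun R =>
    Nat.card_congr (Equiv.subtypeSubtypeEquivSubtypeInter P R)
  obtain ⟨h1, h2⟩ := hEQX s {g : G // P g} (fun x => (Φ (χ x)).toAdd - tt x) (by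
    intro v v'
    rw [key (fun g => ∀ j i, j < i → ((Φ (χ g)).toAdd - tt g) j i = v j i),
      key (fun g => ∀ j i, j < i → ((Φ (χ g)).toAdd - tt g) j i = v' j i)]
    refine card_fib χ _ _ fun a => ?_
    by_cases ha : M2 a ∧ (κ a).toAdd = c
    · have hc : ∀ z : Fin s → Fin s → ZMod 3,
          Nat.card {g : G // χ g = a ∧ P g ∧
            ∀ j i, j < i → ((Φ (χ g)).toAdd - tt g) j i = z j i} =
          Nat.card {g : G // χ g = a ∧ F g ∧ t g = D + (Φ' a).toAdd ∧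
            ∀ j i, j < i → tt g j i = ((Φ a).toAdd - z) j i} := by
        intro z
        refine Nat.card_congr (Equiv.subtypeEquivRight fun g => ?_)
        rw [hP]
        constructor
        · rintro ⟨rfl, ⟨h1, h2, h4, h5⟩, h6⟩
          refine ⟨rfl, h2, h5, fun j i hji => ?_⟩
          rw [Pi.sub_apply, Pi.sub_apply, ← h6 j i hji, Pi.sub_apply, Pi.sub_apply]
          ring
        · rintro ⟨rfl, h2, h5, h6⟩
          refine ⟨rfl, ⟨ha.1, h2, ha.2, h5⟩, fun j i hji => ?_⟩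
          rw [Pi.sub_apply, Pi.sub_apply, h6 j i hji, Pi.sub_apply, Pi.sub_apply]
          ring
      rw [hc v, hc v']
      exact heq a _ _ _ _ ha.1
    · have hc : ∀ z : Fin s → Fin s → ZMod 3,
          Nat.card {g : G // χ g = a ∧ P g ∧
            ∀ j i, j < i → ((Φ (χ g)).toAdd - tt g) j i = z j i} = 0 := by
        intro z
        rw [Nat.card_eq_zero]
        left
        constructor
        rintro ⟨g, rfl, h, -⟩
        rw [hP] at h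
        exact ha ⟨h.1, h.2.2.1⟩
      rw [hc v, hc v']) C {M | tn ≤ s - M.rank}
  have k1 := key (fun g => tn ≤ s - (alt (C + ((Φ (χ g)).toAdd - tt g))).rank)
  have k2 := key (fun g => tn ≤ s - (alt (C - ((Φ (χ g)).toAdd - tt g))).rank)
  have h1' : Nat.card {g : G // P g ∧ tn ≤ s - (alt (C + ((Φ (χ g)).toAdd - tt g))).rank} *
      Nat.card (Fin s → Fin s → ZMod 3) = NK s tn * Nat.card {g : G // P g} := by
    rw [← k1]
    exact h1
  have h2' : Nat.card {g : G // P g ∧ tn ≤ s - (alt (C - ((Φ (χ g)).toAdd - tt g))).rank} *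
      Nat.card (Fin s → Fin s → ZMod 3) = NK s tn * Nat.card {g : G // P g} := by
    rw [← k2]
    exact h2
  rw [mul_comm] at h1' h2'
  rw [hP] at h1' h2'
  exact ⟨h1', h2'⟩

/-- counting -/
theorem card_J [Finite G] (hEQX : Stmt_EQX) (hf : 0 < f) (hχ : Function.Surjective χ)
    (heq : ∀ (a : (ZMod f)ˣ) (v v' : Fin s → Fin s → ZMod 3) (y y' : Fin k → ZMod 3), M2 a →
      Nat.card {g : G // χ g = a ∧ F g ∧ t g = y ∧ ∀ j i, j < i → tt g j i = v j i} =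
        Nat.card {g : G // χ g = a ∧ F g ∧ t g = y' ∧ ∀ j i, j < i → tt g j i = v' j i})
    (hκ : ∀ c : Fin (m + 1) → ZMod 3,
      Nat.card {a : (ZMod f)ˣ // M2 a ∧ (κ a).toAdd = c} * (2 * 3 ^ (m + 1)) = f.totient) :
    3 ^ k * (Nat.card (Fin s → Fin s → ZMod 3) *
        Nat.card {g : G // XPJ χ κ c C Φ C' Φ' tn tt F t g}) * (2 * 3 ^ (m + 1)) ≤
        NK s tn * Nat.card G ∧
      3 ^ k * (Nat.card (Fin s → Fin s → ZMod 3) *
        Nat.card {g : G // XMJ χ κ c C Φ C' Φ' tn tt F t g}) * (2 * 3 ^ (m + 1)) ≤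
        NK s tn * Nat.card G := by
  have h0 := heqK χ tt F t heq
  have h1 := card_K χ κ Φ' F t hf hχ h0 hκ c C'
  have h2 := card_K χ κ Φ' F t hf hχ h0 hκ (-c) (-C')
  have h4 := (card_one χ κ c C Φ Φ' tn tt F t hEQX hf heq C').1
  have h5 := (card_one χ κ (-c) C Φ Φ' tn tt F t hEQX hf heq (-C')).2
  have e1 : Nat.card {g : G // XPJ χ κ c C Φ C' Φ' tn tt F t g} =
      Nat.card {g : G // (M2 (χ g) ∧ F g ∧
        (κ (χ g)).toAdd = c ∧ t g = C' + (Φ' (χ g)).toAdd) ∧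
        tn ≤ s - (alt (C + ((Φ (χ g)).toAdd - tt g))).rank} :=
    Nat.card_congr (Equiv.subtypeEquivRight fun g => by
      unfold XPJ XPK
      rw [add_sub_assoc])
  have e2 : Nat.card {g : G // XMJ χ κ c C Φ C' Φ' tn tt F t g} =
      Nat.card {g : G // (M2 (χ g) ∧ F g ∧
        (κ (χ g)).toAdd = -c ∧ t g = -C' + (Φ' (χ g)).toAdd) ∧
        tn ≤ s - (alt (C - ((Φ (χ g)).toAdd - tt g))).rank} :=
    Nat.card_congr (Equiv.subtypeEquivRight fun g => by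
      unfold XMJ XMK
      rw [← sub_add])
  rw [e1, e2, h4, h5]
  constructor
  · calc 3 ^ k * (NK s tn * Nat.card {g : G // M2 (χ g) ∧ F g ∧
          (κ (χ g)).toAdd = c ∧ t g = C' + (Φ' (χ g)).toAdd}) * (2 * 3 ^ (m + 1)) =
        NK s tn * (3 ^ k * Nat.card {g : G // M2 (χ g) ∧ F g ∧
          (κ (χ g)).toAdd = c ∧ t g = C' + (Φ' (χ g)).toAdd} * (2 * 3 ^ (m + 1))) := by ring
      _ ≤ NK s tn * Nat.card G := Nat.mul_le_mul_left _ h1
  · calc 3 ^ k * (NK s tn * Nat.card {g : G // M2 (χ g) ∧ F g ∧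
          (κ (χ g)).toAdd = -c ∧ t g = -C' + (Φ' (χ g)).toAdd}) * (2 * 3 ^ (m + 1)) =
        NK s tn * (3 ^ k * Nat.card {g : G // M2 (χ g) ∧ F g ∧
          (κ (χ g)).toAdd = -c ∧ t g = -C' + (Φ' (χ g)).toAdd} * (2 * 3 ^ (m + 1))) := by ring
      _ ≤ NK s tn * Nat.card G := Nat.mul_le_mul_left _ h2

end

end BDJ

open BDENS BD BDK _root_.Pool.Agent.PTK.BDJ in
/-- BDJ: the bound for the density, both parts and both exponents together. -/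
theorem BDJ_thm (hLCI : Stmt_LCI) (hEQX : Stmt_EQX) (hJAL : Stmt_JAL) (hDNS : Stmt_DNS) :
    Stmt_BDJ := by
  classical
  intro s b p q p' q' k x u P Q P' Q' f m tn κ c C Φ C' Φ' hSysG hSysK hf h9 hκ
  have hx : x ≠ 0 := by
    rintro rfl
    refine hSysK.ind 1 (fun _ => 0) (Or.inl (by norm_num)) ⟨0, ?_⟩
    simp
  obtain ⟨L, iF, iN, iG, χ, tt, F, t, N₀, hχ, hconj1, hpow1, hconj, hpow, heq, hfrob⟩ :=
    hJAL s b p q p' q' k x u P Q P' Q' f hSysG hSysK hf h9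
  have h3 : 3 ∣ f := Dvd.dvd.trans (by norm_num) h9
  have hM : ∀ (N : ℕ) (hN : N.Coprime f), M2 (ZMod.unitOfCoprime N hN) ↔ N % 3 = 2 := by
    intro N hN
    unfold M2
    rw [ZMod.coe_unitOfCoprime, ZMod.val_natCast, Nat.mod_mod_of_dvd _ h3]
  obtain ⟨XP, hXP⟩ : ∃ XP : (L ≃ₐ[ℚ] L) → Prop, XP = XPJ χ κ c C Φ C' Φ' tn tt F t := ⟨_, rfl⟩
  obtain ⟨XM, hXM⟩ : ∃ XM : (L ≃ₐ[ℚ] L) → Prop, XM = XMJ χ κ c C Φ C' Φ' tn tt F t := ⟨_, rfl⟩
  have htr : ∀ g h τ : L ≃ₐ[ℚ] L, Subgroup.zpowers h = Subgroup.zpowers (τ * g * τ⁻¹) →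
      ((XP g → XP h) ∧ (XM g → XM h)) ∨ ((XP g → XM h) ∧ (XM g → XP h)) := by
    intro g h τ hz
    rw [hXP, hXM]
    exact transferJ χ κ c C Φ C' Φ' tn tt F t hf h3 hconj1 hpow1 hconj hpow hz
  -- the Frobenius elements
  have hfr : ∀ (N : ℕ) (hN : N.Coprime f), N.Prime → max N₀ x.norm.natAbs < N →
      ∀ (I : Ideal (𝓞 L)) (g : L ≃ₐ[ℚ] L), I.IsPrime → (N : 𝓞 L) ∈ I →
      MulAction.stabilizer (L ≃ₐ[ℚ] L) I = Subgroup.zpowers g →
      ∃ l : ℕ, l.Coprime (orderOf g) ∧ χ (g ^ l) = ZMod.unitOfCoprime N hN ∧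
        (N ∈ SP b p q p' q' tn κ c C Φ ∩ SPK x u P Q P' Q' κ c C' Φ' → XP (g ^ l)) ∧
        (N ∈ SM b p q p' q' tn κ c C Φ ∩ SMK x u P Q P' Q' κ c C' Φ' → XM (g ^ l)) := by
    intro N hN hNp hlt I g hI hNI hst
    have hN1 : N₀ < N := lt_of_le_of_lt (le_max_left _ _) hlt
    have hN2 : x.norm < N := by
      have h1 : x.norm.natAbs < N := lt_of_le_of_lt (le_max_right _ _) hlt
      have h2 := norm_pos hx
      omega
    obtain ⟨l, hl, hχl, hl2⟩ := hfrob N hN hNp hN1 I g hI hNI hst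
    refine ⟨l, hl, hχl, ?_, ?_⟩
    · rintro ⟨⟨hQ, -, -, hτ⟩, ⟨hQ', h1, h2, h4, h5, h6⟩⟩
      obtain ⟨h7, h8⟩ := hl2 h1
      obtain ⟨h9, h10⟩ := h8 h4 h5
      obtain ⟨r, hr⟩ := exists_root hLCI hx hNp h1 hN2 h4
      rw [hXP]
      refine ⟨⟨?_, h9, ?_, ?_⟩, ?_⟩
      · rw [hχl]
        exact (hM N hN).2 h1
      · rw [hχl]
        exact h2
      · funext j
        rw [h10 j r hr, h6 j r hr, hχl]
        rfl
      · rw [hχl]
        exact hτ _ h7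
    · rintro ⟨⟨hQ, -, -, hτ⟩, ⟨hQ', h1, h2, h4, h5, h6⟩⟩
      obtain ⟨h7, h8⟩ := hl2 h1
      obtain ⟨h9, h10⟩ := h8 h4 h5
      obtain ⟨r, hr⟩ := exists_root hLCI hx hNp h1 hN2 h4
      rw [hXM]
      refine ⟨⟨?_, h9, ?_, ?_⟩, ?_⟩
      · rw [hχl]
        exact (hM N hN).2 h1
      · rw [hχl]
        exact h2
      · funext j
        rw [h10 j r hr, h6 j r hr, hχl]
        rfl
      · rw [hχl]
        exact hτ _ h7
  have hzk : ∀ (g : L ≃ₐ[ℚ] L) (l : ℕ), l.Coprime (orderOf g) →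
      Subgroup.zpowers g = Subgroup.zpowers (1 * g ^ l * 1⁻¹) := by
    intro g l hl
    rw [one_mul, inv_one, mul_one]
    exact (zpowers_pow_eq hl).symm
  have hor : ∀ g h τ : L ≃ₐ[ℚ] L, (XP g ∨ XM g) →
      Subgroup.zpowers h = Subgroup.zpowers (τ * g * τ⁻¹) → (XP h ∨ XM h) := by
    intro g h τ hB hz
    rcases htr g h τ hz with ⟨h4, h5⟩ | ⟨h4, h5⟩
    · rcases hB with h6 | h6
      · exact Or.inl (h4 h6)
      · exact Or.inr (h5 h6)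
    · rcases hB with h6 | h6
      · exact Or.inr (h4 h6)
      · exact Or.inl (h5 h6)
  have hand : ∀ g h τ : L ≃ₐ[ℚ] L, (XP g ∧ XM g) →
      Subgroup.zpowers h = Subgroup.zpowers (τ * g * τ⁻¹) → (XP h ∧ XM h) := by
    intro g h τ hB hz
    rcases htr g h τ hz with ⟨h4, h5⟩ | ⟨h4, h5⟩
    · exact ⟨h4 hB.1, h5 hB.2⟩
    · exact ⟨h5 hB.2, h4 hB.1⟩
  have hXP1 : ∀ g, XP g → M2 (χ g) ∧ (κ (χ g)).toAdd = c := by
    intro g h
    rw [hXP] at h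
    exact ⟨h.1.1, h.1.2.2.1⟩
  have hXM1 : ∀ g, XM g → M2 (χ g) ∧ (κ (χ g)).toAdd = -c := by
    intro g h
    rw [hXM] at h
    exact ⟨h.1.1, h.1.2.2.1⟩
  obtain ⟨K1, hK1⟩ := hDNS f m κ c L χ (fun g => XP g ∨ XM g)
    ((SP b p q p' q' tn κ c C Φ ∩ SPK x u P Q P' Q' κ c C' Φ') ∪
      (SM b p q p' q' tn κ c C Φ ∩ SMK x u P Q P' Q' κ c C' Φ')) (max N₀ x.norm.natAbs)
    hf h9 hχ hor
    (by
      rintro g (h | h)
      · exact ⟨(hXP1 g h).1, Or.inl (hXP1 g h).2⟩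
      · exact ⟨(hXM1 g h).1, Or.inr (hXM1 g h).2⟩)
    (by
      intro N hN hNp hlt I g hI hNI hst
      obtain ⟨l, hl, hχl, h1, h2⟩ := hfr N hN hNp hlt I g hI hNI hst
      refine ⟨⟨l, hl, hχl⟩, ?_⟩
      rintro (h | h)
      · exact hor (g ^ l) g 1 (Or.inl (h1 h)) (hzk g l hl)
      · exact hor (g ^ l) g 1 (Or.inr (h2 h)) (hzk g l hl))
    (by
      rintro N hN hNp hlt (⟨-, ⟨hQ', h1, h2, -⟩⟩ | ⟨-, ⟨hQ', h1, h2, -⟩⟩)
      · exact ⟨h1, Or.inl h2⟩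
      · exact ⟨h1, Or.inr h2⟩)
  obtain ⟨K2, hK2⟩ := hDNS f m κ c L χ (fun g => XP g ∧ XM g)
    ((SP b p q p' q' tn κ c C Φ ∩ SPK x u P Q P' Q' κ c C' Φ') ∩
      (SM b p q p' q' tn κ c C Φ ∩ SMK x u P Q P' Q' κ c C' Φ')) (max N₀ x.norm.natAbs)
    hf h9 hχ hand
    (by
      rintro g ⟨h, -⟩
      exact ⟨(hXP1 g h).1, Or.inl (hXP1 g h).2⟩)
    (by
      intro N hN hNp hlt I g hI hNI hst
      obtain ⟨l, hl, hχl, h1, h2⟩ := hfr N hN hNp hlt I g hI hNI hst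
      refine ⟨⟨l, hl, hχl⟩, ?_⟩
      rintro ⟨h, h'⟩
      exact hand (g ^ l) g 1 ⟨h1 h, h2 h'⟩ (hzk g l hl))
    (by
      rintro N hN hNp hlt ⟨⟨-, ⟨hQ', h1, h2, -⟩⟩, -⟩
      exact ⟨h1, Or.inl h2⟩)
  obtain ⟨hX1, hX2⟩ := card_J χ κ c C Φ C' Φ' tn tt F t hEQX hf hχ heq hκ
  rw [← hXP] at hX1
  rw [← hXM] at hX2
  have hincl := card_incl XP XM
  refine ⟨K1 + K2, fun σ h1 h2 => ?_⟩
  have e1 := hK1 σ h1 h2
  have e2 := hK2 σ h1 h2
  have hlog : 0 ≤ Real.log (1 / (σ - 1)) := by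
    apply Real.log_nonneg
    rw [le_div_iff₀ (by linarith)]
    linarith
  rw [sm_union_inter _ _ h1]
  have hG : 0 < Nat.card (L ≃ₐ[ℚ] L) := Nat.card_pos
  have hA : 0 < Nat.card (Fin s → Fin s → ZMod 3) := Nat.card_pos
  have hcnt : (Nat.card {g : L ≃ₐ[ℚ] L // XP g ∨ XM g} : ℝ) / Nat.card (L ≃ₐ[ℚ] L) +
      (Nat.card {g : L ≃ₐ[ℚ] L // XP g ∧ XM g} : ℝ) / Nat.card (L ≃ₐ[ℚ] L) ≤
      LI s tn / 3 ^ k / 3 ^ (m + 1) := by
    unfold LI
    generalize Nat.card {g : L ≃ₐ[ℚ] L // XP g ∨ XM g} = n1 at *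
    generalize Nat.card {g : L ≃ₐ[ℚ] L // XP g ∧ XM g} = n2 at *
    generalize Nat.card {g : L ≃ₐ[ℚ] L // XP g} = x1 at *
    generalize Nat.card {g : L ≃ₐ[ℚ] L // XM g} = x2 at *
    generalize Nat.card (Fin s → Fin s → ZMod 3) = A at *
    generalize Nat.card (L ≃ₐ[ℚ] L) = g0 at *
    have hG' : (0 : ℝ) < g0 := Nat.cast_pos.2 hG
    have hA' : (0 : ℝ) < A := Nat.cast_pos.2 hA
    have hF : (0 : ℝ) < 3 ^ (m + 1) := by positivity
    have hS : (0 : ℝ) < 3 ^ k := by positivity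
    have i1 : (3 : ℝ) ^ k * (A * x1) * (2 * 3 ^ (m + 1)) ≤ NK s tn * g0 := by exact_mod_cast hX1
    have i2 : (3 : ℝ) ^ k * (A * x2) * (2 * 3 ^ (m + 1)) ≤ NK s tn * g0 := by exact_mod_cast hX2
    have i3 : (n1 : ℝ) + n2 = x1 + x2 := by exact_mod_cast hincl
    rw [← add_div, i3, div_div, div_div, div_le_div_iff₀ hG' (by positivity)]
    nlinarith
  have hmul := mul_le_mul_of_nonneg_right hcnt hlog
  rw [add_mul] at hmul
  linarith

end Pool.Agent.PTK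


end

section

/-!
# PTK_BM2: the bound for the density, several base classes, `Q = 2 (mod 3)` (by helper29)
-/

set_option autoImplicit false

open NumberField IsDedekindDomain Finset
open scoped nonZeroDivisors Pointwise

namespace Pool.Agent.PTK

open Pool.Agent.Lib_helper18 Pool.Agent.Lib_helper18.Eis Pool.Agent.Lib_helper84.Cub
open Pool.Agent.PT Pool.Agent.PTE Pool.Agent.PT3 Pool.Agent.PTL Pool.Agent.PTN

open BDENS BD BDK BDJ in
/-- BM2: the bound for the density, several base classes, `Q = 2 (mod 3)`. -/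
theorem BM2_thm (hLCI : Stmt_LCI) (hEQX : Stmt_EQX) (hMAL : Stmt_MAL) (hDNS : Stmt_DNS) :
    Stmt_BM2 := by
  classical
  intro s b p q p' q' M k z α β P Q P' Q' f m tn κ c C Φ C' Φ' hSysG hSysZ hf h9 hκ
  have hz0 : ∀ i, z i ≠ 0 := by
    intro i hi
    refine hSysZ.ind (fun j => if j = i then 1 else 0) ⟨i, by simp⟩ ⟨0, ?_⟩
    rw [zero_pow three_ne_zero]
    refine (Finset.prod_eq_zero (Finset.mem_univ i) ?_).symm
    rw [hi, if_pos rfl, pow_one]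
  obtain ⟨B, hB⟩ : ∃ B : ℕ, B = ∑ i, (z i).norm.natAbs := ⟨_, rfl⟩
  have hBz : ∀ i, (z i).norm.natAbs ≤ B := by
    intro i
    rw [hB]
    exact Finset.single_le_sum (f := fun i => (z i).norm.natAbs) (fun _ _ => Nat.zero_le _)
      (Finset.mem_univ i)
  obtain ⟨L, iF, iN, iG, χ, tt, F, t, N₀, hχ, hconj1, hpow1, hconj, hpow, heq, hfrob⟩ :=
    hMAL s b p q p' q' M k z α β P Q P' Q' f hSysG hSysZ hf h9
  have h3 : 3 ∣ f := Dvd.dvd.trans (by norm_num) h9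
  have hM : ∀ (N : ℕ) (hN : N.Coprime f), M2 (ZMod.unitOfCoprime N hN) ↔ N % 3 = 2 := by
    intro N hN
    unfold M2
    rw [ZMod.coe_unitOfCoprime, ZMod.val_natCast, Nat.mod_mod_of_dvd _ h3]
  obtain ⟨XP, hXP⟩ : ∃ XP : (L ≃ₐ[ℚ] L) → Prop, XP = XPJ χ κ c C Φ C' Φ' tn tt F t := ⟨_, rfl⟩
  obtain ⟨XM, hXM⟩ : ∃ XM : (L ≃ₐ[ℚ] L) → Prop, XM = XMJ χ κ c C Φ C' Φ' tn tt F t := ⟨_, rfl⟩
  have htr : ∀ g h τ : L ≃ₐ[ℚ] L, Subgroup.zpowers h = Subgroup.zpowers (τ * g * τ⁻¹) →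
      ((XP g → XP h) ∧ (XM g → XM h)) ∨ ((XP g → XM h) ∧ (XM g → XP h)) := by
    intro g h τ hz
    rw [hXP, hXM]
    exact transferJ χ κ c C Φ C' Φ' tn tt F t hf h3 hconj1 hpow1 hconj hpow hz
  -- the Frobenius elements
  have hfr : ∀ (N : ℕ) (hN : N.Coprime f), N.Prime → max N₀ B < N →
      ∀ (I : Ideal (𝓞 L)) (g : L ≃ₐ[ℚ] L), I.IsPrime → (N : 𝓞 L) ∈ I →
      MulAction.stabilizer (L ≃ₐ[ℚ] L) I = Subgroup.zpowers g →
      ∃ l : ℕ, l.Coprime (orderOf g) ∧ χ (g ^ l) = ZMod.unitOfCoprime N hN ∧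
        (N ∈ SP b p q p' q' tn κ c C Φ ∩ SPZ z α P Q P' Q' κ c C' Φ' → XP (g ^ l)) ∧
        (N ∈ SM b p q p' q' tn κ c C Φ ∩ SMZ z α P Q P' Q' κ c C' Φ' → XM (g ^ l)) := by
    intro N hN hNp hlt I g hI hNI hst
    have hN1 : N₀ < N := lt_of_le_of_lt (le_max_left _ _) hlt
    have hN2 : ∀ i, (z i).norm < N := by
      intro i
      have h1 : (z i).norm.natAbs < N :=
        lt_of_le_of_lt ((hBz i).trans (le_max_right _ _)) hlt
      have h2 := norm_pos (hz0 i)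
      omega
    obtain ⟨l, hl, hχl, hl2⟩ := hfrob N hN hNp hN1 I g hI hNI hst
    refine ⟨l, hl, hχl, ?_, ?_⟩
    · rintro ⟨⟨hQ, -, -, hτ⟩, ⟨hQ', h1, h2, h4, h6⟩⟩
      obtain ⟨h7, h8⟩ := hl2 h1
      obtain ⟨h9, h10⟩ := h8 h4
      rw [hXP]
      refine ⟨⟨?_, h9, ?_, ?_⟩, ?_⟩
      · rw [hχl]
        exact (hM N hN).2 h1
      · rw [hχl]
        exact h2
      · funext j
        obtain ⟨r, hr⟩ := exists_root hLCI (hz0 (α j)) hNp h1 (hN2 (α j)) (h4 (α j))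
        rw [h10 j r hr, h6 j r hr, hχl]
        rfl
      · rw [hχl]
        exact hτ _ h7
    · rintro ⟨⟨hQ, -, -, hτ⟩, ⟨hQ', h1, h2, h4, h6⟩⟩
      obtain ⟨h7, h8⟩ := hl2 h1
      obtain ⟨h9, h10⟩ := h8 h4
      rw [hXM]
      refine ⟨⟨?_, h9, ?_, ?_⟩, ?_⟩
      · rw [hχl]
        exact (hM N hN).2 h1
      · rw [hχl]
        exact h2
      · funext j
        obtain ⟨r, hr⟩ := exists_root hLCI (hz0 (α j)) hNp h1 (hN2 (α j)) (h4 (α j))
        rw [h10 j r hr, h6 j r hr, hχl]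
        rfl
      · rw [hχl]
        exact hτ _ h7
  have hzk : ∀ (g : L ≃ₐ[ℚ] L) (l : ℕ), l.Coprime (orderOf g) →
      Subgroup.zpowers g = Subgroup.zpowers (1 * g ^ l * 1⁻¹) := by
    intro g l hl
    rw [one_mul, inv_one, mul_one]
    exact (zpowers_pow_eq hl).symm
  have hor : ∀ g h τ : L ≃ₐ[ℚ] L, (XP g ∨ XM g) →
      Subgroup.zpowers h = Subgroup.zpowers (τ * g * τ⁻¹) → (XP h ∨ XM h) := by
    intro g h τ hB hz
    rcases htr g h τ hz with ⟨h4, h5⟩ | ⟨h4, h5⟩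
    · rcases hB with h6 | h6
      · exact Or.inl (h4 h6)
      · exact Or.inr (h5 h6)
    · rcases hB with h6 | h6
      · exact Or.inr (h4 h6)
      · exact Or.inl (h5 h6)
  have hand : ∀ g h τ : L ≃ₐ[ℚ] L, (XP g ∧ XM g) →
      Subgroup.zpowers h = Subgroup.zpowers (τ * g * τ⁻¹) → (XP h ∧ XM h) := by
    intro g h τ hB hz
    rcases htr g h τ hz with ⟨h4, h5⟩ | ⟨h4, h5⟩
    · exact ⟨h4 hB.1, h5 hB.2⟩
    · exact ⟨h5 hB.2, h4 hB.1⟩
  have hXP1 : ∀ g, XP g → M2 (χ g) ∧ (κ (χ g)).toAdd = c := by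
    intro g h
    rw [hXP] at h
    exact ⟨h.1.1, h.1.2.2.1⟩
  have hXM1 : ∀ g, XM g → M2 (χ g) ∧ (κ (χ g)).toAdd = -c := by
    intro g h
    rw [hXM] at h
    exact ⟨h.1.1, h.1.2.2.1⟩
  obtain ⟨K1, hK1⟩ := hDNS f m κ c L χ (fun g => XP g ∨ XM g)
    ((SP b p q p' q' tn κ c C Φ ∩ SPZ z α P Q P' Q' κ c C' Φ') ∪
      (SM b p q p' q' tn κ c C Φ ∩ SMZ z α P Q P' Q' κ c C' Φ')) (max N₀ B)
    hf h9 hχ hor
    (by
      rintro g (h | h)
      · exact ⟨(hXP1 g h).1, Or.inl (hXP1 g h).2⟩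
      · exact ⟨(hXM1 g h).1, Or.inr (hXM1 g h).2⟩)
    (by
      intro N hN hNp hlt I g hI hNI hst
      obtain ⟨l, hl, hχl, h1, h2⟩ := hfr N hN hNp hlt I g hI hNI hst
      refine ⟨⟨l, hl, hχl⟩, ?_⟩
      rintro (h | h)
      · exact hor (g ^ l) g 1 (Or.inl (h1 h)) (hzk g l hl)
      · exact hor (g ^ l) g 1 (Or.inr (h2 h)) (hzk g l hl))
    (by
      rintro N hN hNp hlt (⟨-, ⟨hQ', h1, h2, -⟩⟩ | ⟨-, ⟨hQ', h1, h2, -⟩⟩)
      · exact ⟨h1, Or.inl h2⟩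
      · exact ⟨h1, Or.inr h2⟩)
  obtain ⟨K2, hK2⟩ := hDNS f m κ c L χ (fun g => XP g ∧ XM g)
    ((SP b p q p' q' tn κ c C Φ ∩ SPZ z α P Q P' Q' κ c C' Φ') ∩
      (SM b p q p' q' tn κ c C Φ ∩ SMZ z α P Q P' Q' κ c C' Φ')) (max N₀ B)
    hf h9 hχ hand
    (by
      rintro g ⟨h, -⟩
      exact ⟨(hXP1 g h).1, Or.inl (hXP1 g h).2⟩)
    (by
      intro N hN hNp hlt I g hI hNI hst
      obtain ⟨l, hl, hχl, h1, h2⟩ := hfr N hN hNp hlt I g hI hNI hst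
      refine ⟨⟨l, hl, hχl⟩, ?_⟩
      rintro ⟨h, h'⟩
      exact hand (g ^ l) g 1 ⟨h1 h, h2 h'⟩ (hzk g l hl))
    (by
      rintro N hN hNp hlt ⟨⟨-, ⟨hQ', h1, h2, -⟩⟩, -⟩
      exact ⟨h1, Or.inl h2⟩)
  obtain ⟨hX1, hX2⟩ := card_J χ κ c C Φ C' Φ' tn tt F t hEQX hf hχ heq hκ
  rw [← hXP] at hX1
  rw [← hXM] at hX2
  have hincl := card_incl XP XM
  refine ⟨K1 + K2, fun σ h1 h2 => ?_⟩
  have e1 := hK1 σ h1 h2
  have e2 := hK2 σ h1 h2
  have hlog : 0 ≤ Real.log (1 / (σ - 1)) := by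
    apply Real.log_nonneg
    rw [le_div_iff₀ (by linarith)]
    linarith
  rw [sm_union_inter _ _ h1]
  have hG : 0 < Nat.card (L ≃ₐ[ℚ] L) := Nat.card_pos
  have hA : 0 < Nat.card (Fin s → Fin s → ZMod 3) := Nat.card_pos
  have hcnt : (Nat.card {g : L ≃ₐ[ℚ] L // XP g ∨ XM g} : ℝ) / Nat.card (L ≃ₐ[ℚ] L) +
      (Nat.card {g : L ≃ₐ[ℚ] L // XP g ∧ XM g} : ℝ) / Nat.card (L ≃ₐ[ℚ] L) ≤
      LI s tn / 3 ^ k / 3 ^ (m + 1) := by
    unfold LI
    generalize Nat.card {g : L ≃ₐ[ℚ] L // XP g ∨ XM g} = n1 at *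
    generalize Nat.card {g : L ≃ₐ[ℚ] L // XP g ∧ XM g} = n2 at *
    generalize Nat.card {g : L ≃ₐ[ℚ] L // XP g} = x1 at *
    generalize Nat.card {g : L ≃ₐ[ℚ] L // XM g} = x2 at *
    generalize Nat.card (Fin s → Fin s → ZMod 3) = A at *
    generalize Nat.card (L ≃ₐ[ℚ] L) = g0 at *
    have hG' : (0 : ℝ) < g0 := Nat.cast_pos.2 hG
    have hA' : (0 : ℝ) < A := Nat.cast_pos.2 hA
    have hF : (0 : ℝ) < 3 ^ (m + 1) := by positivity
    have hS : (0 : ℝ) < 3 ^ k := by positivity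
    have i1 : (3 : ℝ) ^ k * (A * x1) * (2 * 3 ^ (m + 1)) ≤ NK s tn * g0 := by exact_mod_cast hX1
    have i2 : (3 : ℝ) ^ k * (A * x2) * (2 * 3 ^ (m + 1)) ≤ NK s tn * g0 := by exact_mod_cast hX2
    have i3 : (n1 : ℝ) + n2 = x1 + x2 := by exact_mod_cast hincl
    rw [← add_div, i3, div_div, div_div, div_le_div_iff₀ hG' (by positivity)]
    nlinarith
  have hmul := mul_le_mul_of_nonneg_right hcnt hlog
  rw [add_mul] at hmul
  linarith

end Pool.Agent.PTK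


end

section

/-!
# PTK_BDJU: the bound for the density, `Q = 1 (mod 3)`, generic pattern (helper85)
-/

set_option autoImplicit false

open NumberField IsDedekindDomain Finset
open scoped nonZeroDivisors Pointwise

namespace Pool.Agent.PTK

open Pool.Agent.Lib_helper18 Pool.Agent.Lib_helper18.Eis Pool.Agent.Lib_helper84.Cub
open Pool.Agent.PT Pool.Agent.PTE Pool.Agent.PT3 Pool.Agent.PTL Pool.Agent.PTN

namespace BDJU

open BDENS

/-! ### Roots modulo the two prime factors -/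

/-- a prime factor of a large prime does not divide `x` -/
theorem not_dvd {x : Eis} (hx : x ≠ 0) {Q : ℕ} {l l' : Eis} (hQ : (Q : Eis) = l * l')
    (hll : l.norm = l'.norm) (hl0 : 0 < l.norm) (hN : x.norm < Q) : ¬ l ∣ x := by
  rintro ⟨y, hy⟩
  have hy0 : y ≠ 0 := by
    rintro rfl
    apply hx
    rw [hy, mul_zero]
  have h1 : x.norm = l.norm * y.norm := by
    rw [hy, norm_mul]
  have h2 := norm_pos hy0
  have h3 : ((Q : ℤ)) ^ 2 = l.norm * l'.norm := by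
    rw [← norm_mul, ← hQ, norm_natCast]
  have h4 : (0 : ℤ) ≤ Q := Int.natCast_nonneg Q
  rw [← hll] at h3
  have h5 : (Q : ℤ) = l.norm := by nlinarith
  rw [h1, h5] at hN
  nlinarith

/-- a cube root modulo a prime -/
theorem exists_root (hLCI : Stmt_LCI) {x : Eis} (hx : x ≠ 0) (ρ : PP) (hnd : ¬ ρ.1 ∣ x)
    (hs : sym ρ.1 x = 0) : ∃ r : Eis, ρ.1 ∣ r ^ 3 - x := by
  have hV : V ρ.1 x = 0 := V_eq_zero hnd
  have hc : ch ρ.1 x = 0 := by
    unfold ch up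
    rw [hV, pow_zero, EuclideanDomain.div_one]
    exact hs
  have h1 : LCE ρ.1 x := by
    rw [hLCI.1 ρ x hx, hV]
    exact ⟨dvd_zero _, hc⟩
  obtain ⟨r, hr⟩ := h1 1
  exact ⟨r, by rw [pow_one] at hr; exact hr⟩

/-- the cube roots of `x` modulo both prime factors of a large prime `= 1 (mod 3)` -/
theorem roots (hSPP : SPP) (hSPLT : SPLT) (hLCI : Stmt_LCI) {x : Eis} (hx : x ≠ 0)
    (hcx : ∃ t : Eis, x * conj x = t ^ 3) {Q : ℕ} (hQ : Q.Prime) (h3 : Q % 3 = 1)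
    (hN : x.norm < Q) (ρ : PP) (hρ : (Q : Eis) = ρ.1 * conj ρ.1) (hs : sym ρ.1 x = 0) :
    ∃ r r' : Eis, ρ.1 ∣ r ^ 3 - x ∧ conj ρ.1 ∣ r' ^ 3 - x := by
  obtain ⟨-, ⟨ρ', hρ'⟩, -, -, hcj, -⟩ := hSPLT.2 Q ρ hQ h3 hρ
  have h0 : 0 < ρ.1.norm := norm_pos ρ.2.1.ne_zero
  have hnc : (conj ρ.1).norm = ρ.1.norm := norm_conj ρ.1
  have hnx : (conj x).norm = x.norm := norm_conj x
  have hx' : conj x ≠ 0 := by
    intro h
    have h1 := norm_pos hx
    rw [← hnx, h] at h1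
    simp at h1
  have n1 : ¬ ρ.1 ∣ x := not_dvd hx hρ hnc.symm h0 hN
  have n2 : ¬ conj ρ.1 ∣ x := not_dvd hx (l := conj ρ.1) (l' := ρ.1)
    (by rw [hρ, mul_comm]) hnc (by rw [hnc]; exact h0) hN
  have n3 : ¬ conj ρ.1 ∣ conj x := not_dvd hx' (l := conj ρ.1) (l' := ρ.1)
    (by rw [hρ, mul_comm]) hnc (by rw [hnc]; exact h0) (by rw [hnx]; exact hN)
  have hp' : Prime (conj ρ.1) := by
    rw [← hρ']
    exact ρ'.2.1
  have h3' : ¬ conj ρ.1 ∣ 3 := by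
    rw [← hρ']
    exact (hSPP.2.2.2.1 ρ').1
  have hs' : sym (conj ρ.1) x = 0 := by
    have e1 := hcj x n1
    rw [hs, neg_zero] at e1
    obtain ⟨t, ht⟩ := hcx
    have e2 := sym_mul hp' h3' n2 n3
    have n4 : ¬ conj ρ.1 ∣ t := by
      intro h
      have h5 : conj ρ.1 ∣ x * conj x := by
        rw [ht]
        exact dvd_pow h (by norm_num)
      exact (hp'.dvd_or_dvd h5).elim n2 n3
    rw [ht, sym_cube hp' h3' n4, e1, add_zero] at e2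
    exact e2.symm
  obtain ⟨r, hr⟩ := exists_root hLCI hx ρ n1 hs
  obtain ⟨r', hr'⟩ := exists_root hLCI hx ρ' (by rw [hρ']; exact n2) (by rw [hρ']; exact hs')
  rw [hρ'] at hr'
  exact ⟨r, r', hr, hr'⟩

section
variable {G : Type} [Group G] {f m s k : ℕ} (χ : G →* (ZMod f)ˣ)
    (κ : (ZMod f)ˣ →* Multiplicative (Fin (m + 1) → ZMod 3)) (c : Fin (m + 1) → ZMod 3)
    (C : Fin s → Fin s → ZMod 3) (Φ : (ZMod f)ˣ →* Multiplicative (Fin s → Fin s → ZMod 3))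
    (C' : Fin k → ZMod 3) (Φ' : (ZMod f)ˣ →* Multiplicative (Fin k → ZMod 3))
    (tn : ℕ) (F : G → Prop) (tt : G → Fin s → Fin s → ZMod 3)
    (F₂ : G → Prop) (T : G → Fin k → ZMod 3)

/-- the elements of class `c` with the pattern, prescribed `T` and large kernel -/
def XPJ (g : G) : Prop := M1 (χ g) ∧ (κ (χ g)).toAdd = c ∧ F g ∧ F₂ g ∧
  T g = C' + (Φ' (χ g)).toAdd ∧ tn ≤ s - (alt (C + (Φ (χ g)).toAdd + tt g)).rank

/-- the elements of class `-c` with the pattern, prescribed `T` and large kernel -/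
def XMJ (g : G) : Prop := M1 (χ g) ∧ (κ (χ g)).toAdd = -c ∧ F g ∧ F₂ g ∧
  T g = - C' + (Φ' (χ g)).toAdd ∧ tn ≤ s - (alt (C - (Φ (χ g)).toAdd - tt g)).rank

/-- passing to another generator of a conjugate subgroup -/
theorem transferJ [Finite G] (hf : 0 < f) (h3 : 3 ∣ f)
    (hconj : ∀ g τ : G, M1 (χ g) → F g →
      F (τ * g * τ⁻¹) ∧ ∀ j i, j ≠ i → tt (τ * g * τ⁻¹) j i = tt g j i)
    (hpow : ∀ (g : G) (l : ℕ), M1 (χ g) → F g → ¬ 3 ∣ l →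
      F (g ^ l) ∧ ∀ j i, j ≠ i → tt (g ^ l) j i = l * tt g j i)
    (hconj2 : ∀ g τ : G, M1 (χ g) → F₂ g → F₂ (τ * g * τ⁻¹) ∧ T (τ * g * τ⁻¹) = T g)
    (hpow2 : ∀ (g : G) (l : ℕ), M1 (χ g) → F₂ g → F₂ (g ^ l) ∧
      T (g ^ l) = (l : ZMod 3) • T g)
    {g h τ : G} (hz : Subgroup.zpowers h = Subgroup.zpowers (τ * g * τ⁻¹)) :
    ((XPJ χ κ c C Φ C' Φ' tn F tt F₂ T g → XPJ χ κ c C Φ C' Φ' tn F tt F₂ T h) ∧
        (XMJ χ κ c C Φ C' Φ' tn F tt F₂ T g → XMJ χ κ c C Φ C' Φ' tn F tt F₂ T h)) ∨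
      ((XPJ χ κ c C Φ C' Φ' tn F tt F₂ T g → XMJ χ κ c C Φ C' Φ' tn F tt F₂ T h) ∧
        (XMJ χ κ c C Φ C' Φ' tn F tt F₂ T g → XPJ χ κ c C Φ C' Φ' tn F tt F₂ T h)) := by
  by_cases hM : M1 (χ g)
  swap
  · exact Or.inl ⟨fun h => absurd h.1 hM, fun h => absurd h.1 hM⟩
  by_cases hF : F g
  swap
  · exact Or.inl ⟨fun h => absurd h.2.2.1 hF, fun h => absurd h.2.2.1 hF⟩
  by_cases hF2 : F₂ g
  swap
  · exact Or.inl ⟨fun h => absurd h.2.2.2.1 hF2, fun h => absurd h.2.2.2.1 hF2⟩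
  have hχg : χ (τ * g * τ⁻¹) = χ g := by
    rw [map_mul, map_mul, map_inv, mul_comm (χ τ), mul_inv_cancel_right]
  have hM' : M1 (χ (τ * g * τ⁻¹)) := by
    rw [hχg]
    exact hM
  obtain ⟨n, hn3, hh⟩ := BDU.exists_pow3 hz
  have h1 : χ h = χ g ^ n := by
    rw [hh, map_pow, hχg]
  have hMh : M1 (χ h) := by
    rw [h1]
    exact BDU.M1_pow hf h3 hM n
  obtain ⟨c1, c2⟩ := hconj g τ hM hF
  obtain ⟨p1, p2⟩ := hpow _ n hM' c1 (by omega)
  obtain ⟨c3, c4⟩ := hconj2 g τ hM hF2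
  obtain ⟨p3, p4⟩ := hpow2 _ n hM' c3
  rw [← hh] at p1 p2 p3 p4
  rw [c4, BDK.smul_cast] at p4
  have e1 : (κ (χ h)).toAdd = n • (κ (χ g)).toAdd := by
    rw [h1, map_pow, toAdd_pow]
  have e2 : (Φ (χ h)).toAdd = n • (Φ (χ g)).toAdd := by
    rw [h1, map_pow, toAdd_pow]
  have e3 : (Φ' (χ h)).toAdd = n • (Φ' (χ g)).toAdd := by
    rw [h1, map_pow, toAdd_pow]
  have hn12 : n % 3 = 1 ∨ n % 3 = 2 := by omega
  rcases hn12 with hn1 | hn2
  · rw [nsmul_one three_f hn1] at e1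
    rw [nsmul_one three_ff hn1] at e2
    rw [nsmul_one BDK.three_s hn1] at e3 p4
    have ht : ∀ j i, j ≠ i → tt h j i = tt g j i := by
      intro j i hji
      rw [p2 j i hji, c2 j i hji, cast_one hn1]
    refine Or.inl ⟨?_, ?_⟩
    · rintro ⟨-, h7, -, -, h8, h9⟩
      refine ⟨hMh, by rw [e1, h7], p1, p3, by rw [p4, e3, h8], ?_⟩
      rw [(DENSS.det_same e2 ht).1]
      exact h9
    · rintro ⟨-, h7, -, -, h8, h9⟩
      refine ⟨hMh, by rw [e1, h7], p1, p3, by rw [p4, e3, h8], ?_⟩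
      rw [(DENSS.det_same e2 ht).2]
      exact h9
  · rw [nsmul_two three_f hn2] at e1
    rw [nsmul_two three_ff hn2] at e2
    rw [nsmul_two BDK.three_s hn2] at e3 p4
    have ht : ∀ j i, j ≠ i → tt h j i = - tt g j i := by
      intro j i hji
      rw [p2 j i hji, c2 j i hji, cast_two hn2]
    refine Or.inr ⟨?_, ?_⟩
    · rintro ⟨-, h7, -, -, h8, h9⟩
      refine ⟨hMh, by rw [e1, h7], p1, p3, ?_, ?_⟩
      · rw [p4, e3, h8]
        abel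
      · rw [(DENSS.det_opp e2 ht).2]
        exact h9
    · rintro ⟨-, h7, -, -, h8, h9⟩
      refine ⟨hMh, by rw [e1, h7, neg_neg], p1, p3, ?_, ?_⟩
      · rw [p4, e3, h8]
        abel
      · rw [(DENSS.det_opp e2 ht).1]
        exact h9

omit [Group G] in
/-- equal numbers from equal numbers in the fibres of `tt` -/
theorem fib_eq [Finite G] (P Q : G → Prop)
    (h : ∀ v : Fin s → Fin s → ZMod 3,
      Nat.card {g : G // P g ∧ ∀ j i, j < i → tt g j i = v j i} =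
        Nat.card {g : G // Q g ∧ ∀ j i, j < i → tt g j i = v j i}) :
    Nat.card {g : G // P g} = Nat.card {g : G // Q g} := by
  classical
  have := Fintype.ofFinite G
  have key : ∀ R : G → Prop, Nat.card {g : G // R g} =
      ∑ w : {p : Fin s × Fin s // p.1 < p.2} → ZMod 3, Nat.card {g : G // R g ∧
        ∀ j i, j < i → tt g j i =
          (fun (j i : Fin s) => if h : j < i then w ⟨(j, i), h⟩ else 0) j i} := by
    intro R
    rw [Nat.card_eq_fintype_card, Fintype.card_subtype, Finset.card_eq_sum_card_fiberwise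
      (f := fun (g : G) (p : {p : Fin s × Fin s // p.1 < p.2}) => tt g p.1.1 p.1.2)
      (t := Finset.univ) (fun g _ => Finset.mem_coe.2 (Finset.mem_univ _))]
    refine Finset.sum_congr rfl fun w _ => ?_
    rw [Nat.card_eq_fintype_card, Fintype.card_subtype]
    congr 1
    ext g
    simp only [Finset.mem_filter, Finset.mem_univ, true_and]
    refine and_congr_right fun _ => ?_
    constructor
    · rintro rfl j i hji
      rw [dif_pos hji]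
    · intro h
      funext p
      have h1 := h p.1.1 p.1.2 p.2
      rw [dif_pos p.2] at h1
      exact h1
  rw [key P, key Q]
  exact Finset.sum_congr rfl fun w _ => h _

omit [Group G] in
/-- the fibres of `T` -/
theorem fib_T [Finite G] (P : G → Prop)
    (h : ∀ y y' : Fin k → ZMod 3,
      Nat.card {g : G // P g ∧ T g = y} = Nat.card {g : G // P g ∧ T g = y'})
    (y : Fin k → ZMod 3) :
    3 ^ k * Nat.card {g : G // P g ∧ T g = y} = Nat.card {g : G // P g} := by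
  classical
  have := Fintype.ofFinite G
  have e0 : Nat.card {g : G // P g} = ∑ y' : Fin k → ZMod 3,
      Nat.card {g : G // P g ∧ T g = y'} := by
    rw [Nat.card_eq_fintype_card, Fintype.card_subtype, Finset.card_eq_sum_card_fiberwise
      (f := T) (t := Finset.univ) (fun g _ => Finset.mem_coe.2 (Finset.mem_univ _))]
    refine Finset.sum_congr rfl fun w _ => ?_
    rw [Nat.card_eq_fintype_card, Fintype.card_subtype]
    congr 1
    ext g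
    simp only [Finset.mem_filter, Finset.mem_univ, true_and]
  rw [e0, Finset.sum_congr rfl fun y' _ => h y' y, Finset.sum_const, smul_eq_mul]
  have e6 : (Finset.univ : Finset (Fin k → ZMod 3)).card = 3 ^ k := by
    rw [Finset.card_univ, Fintype.card_fun, ZMod.card, Fintype.card_fin]
  rw [e6]

/-- counting in one class -/
theorem card_cls [Finite G] (hEQX : Stmt_EQX)
    (heq : ∀ (a : (ZMod f)ˣ) (v v' : Fin s → Fin s → ZMod 3) (y y' : Fin k → ZMod 3), M1 a →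
      Nat.card {g : G // χ g = a ∧ F g ∧ F₂ g ∧ T g = y ∧ ∀ j i, j < i → tt g j i = v j i} =
        Nat.card {g : G //
          χ g = a ∧ F g ∧ F₂ g ∧ T g = y' ∧ ∀ j i, j < i → tt g j i = v' j i})
    (hcF : ∀ a : (ZMod f)ˣ, M1 a → 3 ^ (s + 1) * Nat.card {g : G // χ g = a ∧ F g} =
      2 * Nat.card {g : G // χ g = a})
    (hfib : ∀ a : (ZMod f)ˣ, Nat.card {g : G // χ g = a} = Nat.card χ.ker)
    (a : (ZMod f)ˣ) (D : Fin s → Fin s → ZMod 3) (y : Fin k → ZMod 3) (ha : M1 a) :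
    (3 ^ (s + 1) * 3 ^ k * Nat.card (Fin s → Fin s → ZMod 3)) *
        Nat.card {g : G // χ g = a ∧ F g ∧ F₂ g ∧ T g = y ∧
          tn ≤ s - (alt (D + tt g)).rank} ≤ 2 * NK s tn * Nat.card χ.ker ∧
    (3 ^ (s + 1) * 3 ^ k * Nat.card (Fin s → Fin s → ZMod 3)) *
        Nat.card {g : G // χ g = a ∧ F g ∧ F₂ g ∧ T g = y ∧
          tn ≤ s - (alt (D - tt g)).rank} ≤ 2 * NK s tn * Nat.card χ.ker := by
  classical
  have key : ∀ R : G → Prop,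
      Nat.card {x : {g : G // χ g = a ∧ F g ∧ F₂ g ∧ T g = y} // R x} =
      Nat.card {g : G // χ g = a ∧ F g ∧ F₂ g ∧ T g = y ∧ R g} := fun R =>
    Nat.card_congr ((Equiv.subtypeSubtypeEquivSubtypeInter
      (fun g : G => χ g = a ∧ F g ∧ F₂ g ∧ T g = y) R).trans
      (Equiv.subtypeEquivRight fun g => by tauto))
  obtain ⟨h1, h2⟩ := hEQX s {g : G // χ g = a ∧ F g ∧ F₂ g ∧ T g = y} (fun x => tt x) (by
    intro v v'
    rw [key (fun g => ∀ j i, j < i → tt g j i = v j i),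
      key (fun g => ∀ j i, j < i → tt g j i = v' j i)]
    exact heq a v v' y y ha) D {M | tn ≤ s - M.rank}
  have k1 := key (fun g => tn ≤ s - (alt (D + tt g)).rank)
  have k2 := key (fun g => tn ≤ s - (alt (D - tt g)).rank)
  have h3 := hcF a ha
  rw [hfib a] at h3
  have hT : 3 ^ k * Nat.card {g : G // χ g = a ∧ F g ∧ F₂ g ∧ T g = y} ≤
      Nat.card {g : G // χ g = a ∧ F g} := by
    have e1 : ∀ y : Fin k → ZMod 3, Nat.card {g : G // χ g = a ∧ F g ∧ F₂ g ∧ T g = y} =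
        Nat.card {g : G // (χ g = a ∧ F g ∧ F₂ g) ∧ T g = y} := fun y =>
      Nat.card_congr (Equiv.subtypeEquivRight fun g => by tauto)
    rw [e1 y, fib_T T (fun g => χ g = a ∧ F g ∧ F₂ g) (fun y y' => ?_) y]
    · exact Nat.card_le_card_of_injective
        (fun g : {g : G // χ g = a ∧ F g ∧ F₂ g} => (⟨g.1, g.2.1, g.2.2.1⟩ :
          {g : G // χ g = a ∧ F g})) (fun g h hgh => by
          have h' := Subtype.mk.inj hgh
          exact Subtype.ext h')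
    · rw [← e1, ← e1]
      refine fib_eq tt _ _ fun v => ?_
      refine Eq.trans (Nat.card_congr (Equiv.subtypeEquivRight fun g => by tauto))
        ((heq a v v y y' ha).trans (Nat.card_congr (Equiv.subtypeEquivRight fun g => by tauto)))
  have h1' : Nat.card {g : G // χ g = a ∧ F g ∧ F₂ g ∧ T g = y ∧
      tn ≤ s - (alt (D + tt g)).rank} * Nat.card (Fin s → Fin s → ZMod 3) =
      NK s tn * Nat.card {g : G // χ g = a ∧ F g ∧ F₂ g ∧ T g = y} := by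
    rw [← k1]
    exact h1
  have h2' : Nat.card {g : G // χ g = a ∧ F g ∧ F₂ g ∧ T g = y ∧
      tn ≤ s - (alt (D - tt g)).rank} * Nat.card (Fin s → Fin s → ZMod 3) =
      NK s tn * Nat.card {g : G // χ g = a ∧ F g ∧ F₂ g ∧ T g = y} := by
    rw [← k2]
    exact h2
  clear h1 h2 k1 k2 key heq hcF hfib
  generalize Nat.card {g : G // χ g = a ∧ F g ∧ F₂ g ∧ T g = y ∧
      tn ≤ s - (alt (D + tt g)).rank} = x1 at *
  generalize Nat.card {g : G // χ g = a ∧ F g ∧ F₂ g ∧ T g = y ∧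
      tn ≤ s - (alt (D - tt g)).rank} = x2 at *
  generalize Nat.card {g : G // χ g = a ∧ F g ∧ F₂ g ∧ T g = y} = Y at *
  generalize Nat.card {g : G // χ g = a ∧ F g} = X at *
  generalize Nat.card (Fin s → Fin s → ZMod 3) = A at *
  generalize Nat.card χ.ker = K at *
  generalize 3 ^ (s + 1) = S at *
  generalize 3 ^ k = R at *
  constructor
  · calc (S * R * A) * x1 = S * R * (x1 * A) := by ring
      _ = NK s tn * (S * (R * Y)) := by rw [h1']; ring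
      _ ≤ NK s tn * (S * X) := Nat.mul_le_mul_left _ (Nat.mul_le_mul_left _ hT)
      _ = 2 * NK s tn * K := by rw [h3]; ring
  · calc (S * R * A) * x2 = S * R * (x2 * A) := by ring
      _ = NK s tn * (S * (R * Y)) := by rw [h2']; ring
      _ ≤ NK s tn * (S * X) := Nat.mul_le_mul_left _ (Nat.mul_le_mul_left _ hT)
      _ = 2 * NK s tn * K := by rw [h3]; ring

/-- counting -/
theorem card_X [Finite G] (hEQX : Stmt_EQX) (hf : 0 < f) (hχ : Function.Surjective χ)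
    (heq : ∀ (a : (ZMod f)ˣ) (v v' : Fin s → Fin s → ZMod 3) (y y' : Fin k → ZMod 3), M1 a →
      Nat.card {g : G // χ g = a ∧ F g ∧ F₂ g ∧ T g = y ∧ ∀ j i, j < i → tt g j i = v j i} =
        Nat.card {g : G //
          χ g = a ∧ F g ∧ F₂ g ∧ T g = y' ∧ ∀ j i, j < i → tt g j i = v' j i})
    (hcF : ∀ a : (ZMod f)ˣ, M1 a → 3 ^ (s + 1) * Nat.card {g : G // χ g = a ∧ F g} =
      2 * Nat.card {g : G // χ g = a})
    (hκ : ∀ c : Fin (m + 1) → ZMod 3,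
      Nat.card {a : (ZMod f)ˣ // M1 a ∧ (κ a).toAdd = c} * (2 * 3 ^ (m + 1)) = f.totient) :
    (3 ^ (s + 1) * 3 ^ k * Nat.card (Fin s → Fin s → ZMod 3)) *
        Nat.card {g : G // XPJ χ κ c C Φ C' Φ' tn F tt F₂ T g} *
        (2 * 3 ^ (m + 1)) ≤ 2 * NK s tn * Nat.card G ∧
      (3 ^ (s + 1) * 3 ^ k * Nat.card (Fin s → Fin s → ZMod 3)) *
        Nat.card {g : G // XMJ χ κ c C Φ C' Φ' tn F tt F₂ T g} *
        (2 * 3 ^ (m + 1)) ≤ 2 * NK s tn * Nat.card G := by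
  have : NeZero f := ⟨hf.ne'⟩
  obtain ⟨hfib, hcard⟩ := fibre χ hχ
  have hH : Nat.card (ZMod f)ˣ = f.totient := by
    rw [Nat.card_eq_fintype_card, ZMod.card_units_eq_totient]
  rw [hH] at hcard
  have hcls := card_cls χ tn F tt F₂ T hEQX heq hcF hfib
  have hP : (3 ^ (s + 1) * 3 ^ k * Nat.card (Fin s → Fin s → ZMod 3)) *
      Nat.card {g : G // (M1 (χ g) ∧ (κ (χ g)).toAdd = c) ∧
        F g ∧ F₂ g ∧ T g = C' + (Φ' (χ g)).toAdd ∧
          tn ≤ s - (alt (C + (Φ (χ g)).toAdd + tt g)).rank} ≤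
      Nat.card {a : (ZMod f)ˣ // M1 a ∧ (κ a).toAdd = c} *
        (2 * NK s tn * Nat.card χ.ker) := by
    refine count_le χ (fun g => F g ∧ F₂ g ∧ T g = C' + (Φ' (χ g)).toAdd ∧
      tn ≤ s - (alt (C + (Φ (χ g)).toAdd + tt g)).rank)
      (fun a => M1 a ∧ (κ a).toAdd = c) _ _ fun a ha => ?_
    refine le_trans (Nat.mul_le_mul_left _ (le_of_eq ?_))
      (hcls a (C + (Φ a).toAdd) (C' + (Φ' a).toAdd) ha.1).1
    refine Nat.card_congr (Equiv.subtypeEquivRight fun g => ?_)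
    constructor
    · rintro ⟨rfl, h⟩
      exact ⟨rfl, h⟩
    · rintro ⟨rfl, h⟩
      exact ⟨rfl, h⟩
  have hN : (3 ^ (s + 1) * 3 ^ k * Nat.card (Fin s → Fin s → ZMod 3)) *
      Nat.card {g : G // (M1 (χ g) ∧ (κ (χ g)).toAdd = -c) ∧
        F g ∧ F₂ g ∧ T g = - C' + (Φ' (χ g)).toAdd ∧
          tn ≤ s - (alt (C - (Φ (χ g)).toAdd - tt g)).rank} ≤
      Nat.card {a : (ZMod f)ˣ // M1 a ∧ (κ a).toAdd = -c} *
        (2 * NK s tn * Nat.card χ.ker) := by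
    refine count_le χ (fun g => F g ∧ F₂ g ∧ T g = - C' + (Φ' (χ g)).toAdd ∧
      tn ≤ s - (alt (C - (Φ (χ g)).toAdd - tt g)).rank)
      (fun a => M1 a ∧ (κ a).toAdd = -c) _ _ fun a ha => ?_
    refine le_trans (Nat.mul_le_mul_left _ (le_of_eq ?_))
      (hcls a (C - (Φ a).toAdd) (- C' + (Φ' a).toAdd) ha.1).2
    refine Nat.card_congr (Equiv.subtypeEquivRight fun g => ?_)
    constructor
    · rintro ⟨rfl, h⟩
      exact ⟨rfl, h⟩
    · rintro ⟨rfl, h⟩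
      exact ⟨rfl, h⟩
  have e1 : Nat.card {g : G // XPJ χ κ c C Φ C' Φ' tn F tt F₂ T g} =
      Nat.card {g : G // (M1 (χ g) ∧ (κ (χ g)).toAdd = c) ∧
        F g ∧ F₂ g ∧ T g = C' + (Φ' (χ g)).toAdd ∧
          tn ≤ s - (alt (C + (Φ (χ g)).toAdd + tt g)).rank} :=
    Nat.card_congr (Equiv.subtypeEquivRight fun g => (and_assoc).symm)
  have e2 : Nat.card {g : G // XMJ χ κ c C Φ C' Φ' tn F tt F₂ T g} =
      Nat.card {g : G // (M1 (χ g) ∧ (κ (χ g)).toAdd = -c) ∧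
        F g ∧ F₂ g ∧ T g = - C' + (Φ' (χ g)).toAdd ∧
          tn ≤ s - (alt (C - (Φ (χ g)).toAdd - tt g)).rank} :=
    Nat.card_congr (Equiv.subtypeEquivRight fun g => (and_assoc).symm)
  rw [← e1] at hP
  rw [← e2] at hN
  have h1 := hκ c
  have h2 := hκ (-c)
  generalize Nat.card {g : G // XPJ χ κ c C Φ C' Φ' tn F tt F₂ T g} = nP at *
  generalize Nat.card {g : G // XMJ χ κ c C Φ C' Φ' tn F tt F₂ T g} = nN at *
  generalize Nat.card {a : (ZMod f)ˣ // M1 a ∧ (κ a).toAdd = c} = cP at *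
  generalize Nat.card {a : (ZMod f)ˣ // M1 a ∧ (κ a).toAdd = -c} = cN at *
  generalize 3 ^ (s + 1) * 3 ^ k * Nat.card (Fin s → Fin s → ZMod 3) = A at *
  generalize 3 ^ (m + 1) = R at *
  generalize Nat.card χ.ker = K at *
  rw [← hcard]
  constructor
  · calc A * nP * (2 * R) ≤ cP * (2 * NK s tn * K) * (2 * R) := Nat.mul_le_mul_right _ hP
      _ = 2 * NK s tn * (K * (cP * (2 * R))) := by ring
      _ = 2 * NK s tn * (K * f.totient) := by rw [h1]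
  · calc A * nN * (2 * R) ≤ cN * (2 * NK s tn * K) * (2 * R) := Nat.mul_le_mul_right _ hN
      _ = 2 * NK s tn * (K * (cN * (2 * R))) := by ring
      _ = 2 * NK s tn * (K * f.totient) := by rw [h2]

end

end BDJU

open BDENS _root_.Pool.Agent.PTK.BDJU in
/-- PTK_BDJU: the bound for the density, `Q = 1 (mod 3)`, generic pattern. -/
theorem BDJU_thm (hSPP : SPP) (hSPLT : SPLT) (hLCI : Stmt_LCI) (hEQX : Stmt_EQX)
    (hJAU : Stmt_JAU) (hDNS1 : Stmt_DNS1) : Stmt_BDJU := by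
  classical
  intro s b p q p' q' k x u P Q P' Q' f m tn κ c C Φ C' Φ' hSG hSK hf h9 hκ
  have hx : x ≠ 0 := by
    rintro rfl
    refine hSK.ind 1 (fun _ => 0) (Or.inl (by norm_num)) ⟨0, ?_⟩
    simp
  obtain ⟨L, iF, iN, iG, χ, F, tt, F₂, T, N₀, hχ, hconj, hpow, hconj2, hpow2, heq, hcF, hfrob⟩ :=
    hJAU s b p q p' q' k x u P Q P' Q' f hSG hSK hf h9
  have h3 : 3 ∣ f := Dvd.dvd.trans (by norm_num) h9
  have hM : ∀ (n : ℕ) (hn : n.Coprime f), M1 (ZMod.unitOfCoprime n hn) ↔ n % 3 = 1 := by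
    intro n hn
    unfold M1
    rw [ZMod.coe_unitOfCoprime, ZMod.val_natCast, Nat.mod_mod_of_dvd _ h3]
  obtain ⟨XP, hXP⟩ : ∃ XP : (L ≃ₐ[ℚ] L) → Prop, XP = XPJ χ κ c C Φ C' Φ' tn F tt F₂ T :=
    ⟨_, rfl⟩
  obtain ⟨XM, hXM⟩ : ∃ XM : (L ≃ₐ[ℚ] L) → Prop, XM = XMJ χ κ c C Φ C' Φ' tn F tt F₂ T :=
    ⟨_, rfl⟩
  have htr : ∀ (g h τ : L ≃ₐ[ℚ] L), Subgroup.zpowers h = Subgroup.zpowers (τ * g * τ⁻¹) →
      ((XP g → XP h) ∧ (XM g → XM h)) ∨ ((XP g → XM h) ∧ (XM g → XP h)) := by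
    intro g h τ hz
    rw [hXP, hXM]
    exact transferJ χ κ c C Φ C' Φ' tn F tt F₂ T hf h3 hconj hpow hconj2 hpow2 hz
  obtain ⟨SA, hSA⟩ : ∃ SA : Set ℕ, SA = SPU b p q p' q' tn κ c C Φ ∩
    SPKU x u P Q P' Q' κ c C' Φ' := ⟨_, rfl⟩
  obtain ⟨SB, hSB⟩ : ∃ SB : Set ℕ, SB = SMU b p q p' q' tn κ c C Φ ∩
    SMKU x u P Q P' Q' κ c C' Φ' := ⟨_, rfl⟩
  -- the Frobenius elements
  have hfr : ∀ (n : ℕ) (hn : n.Coprime f), n.Prime → max N₀ x.norm.natAbs < n →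
      ∀ (I : Ideal (𝓞 L)) (g : L ≃ₐ[ℚ] L), I.IsPrime → (n : 𝓞 L) ∈ I →
      MulAction.stabilizer (L ≃ₐ[ℚ] L) I = Subgroup.zpowers g →
      ∃ l : ℕ, l.Coprime (orderOf g) ∧ χ (g ^ l) = ZMod.unitOfCoprime n hn ∧
        (n ∈ SA → XP (g ^ l)) ∧ (n ∈ SB → XM (g ^ l)) := by
    intro n hn hnp hnN I g hI hnI hst
    have hN1 : N₀ < n := lt_of_le_of_lt (le_max_left _ _) hnN
    have hN2 : x.norm < n := by
      have h1 : x.norm.natAbs < n := lt_of_le_of_lt (le_max_right _ _) hnN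
      have h2 := norm_pos hx
      omega
    obtain ⟨l, hl, hχl, hl2⟩ := hfrob n hn hnp hN1 I g hI hnI hst
    refine ⟨l, hl, hχl, ?_, ?_⟩
    · rw [hSA, hXP]
      rintro ⟨⟨hn', ρ, ⟨h1, h2, h5, h6, h7⟩, h4⟩, ⟨hn'', -, -, h8⟩⟩
      obtain ⟨r1, r2, r3⟩ := hl2 h1 ρ h5
      obtain ⟨s1, s2, s3⟩ := h8 ρ h5
      obtain ⟨r, r', hr, hr'⟩ := roots hSPP hSPLT hLCI hx hSK.cx hnp h1 hN2 ρ h5 s1
      obtain ⟨t1, t2⟩ := r3 s1 s2
      have hFg : F (g ^ l) := r1.2 ⟨h6, h7⟩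
      refine ⟨?_, ?_, hFg, t1, ?_, ?_⟩
      · rw [hχl]
        exact (hM n hn).2 h1
      · rw [hχl]
        exact h2
      · funext j
        rw [t2 j r r' hr hr', s3 j r r' hr hr', hχl]
        rfl
      · rw [hχl]
        exact h4 (tt (g ^ l)) (r2 hFg)
    · rw [hSB, hXM]
      rintro ⟨⟨hn', ρ, ⟨h1, h2, h5, h6, h7⟩, h4⟩, ⟨hn'', -, -, h8⟩⟩
      obtain ⟨r1, r2, r3⟩ := hl2 h1 ρ h5
      obtain ⟨s1, s2, s3⟩ := h8 ρ h5
      obtain ⟨r, r', hr, hr'⟩ := roots hSPP hSPLT hLCI hx hSK.cx hnp h1 hN2 ρ h5 s1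
      obtain ⟨t1, t2⟩ := r3 s1 s2
      have hFg : F (g ^ l) := r1.2 ⟨h6, h7⟩
      refine ⟨?_, ?_, hFg, t1, ?_, ?_⟩
      · rw [hχl]
        exact (hM n hn).2 h1
      · rw [hχl]
        exact h2
      · funext j
        rw [t2 j r r' hr hr', s3 j r r' hr hr', hχl]
        rfl
      · rw [hχl]
        exact h4 (tt (g ^ l)) (r2 hFg)
  have hzk : ∀ (g : L ≃ₐ[ℚ] L) (l : ℕ), l.Coprime (orderOf g) →
      Subgroup.zpowers g = Subgroup.zpowers (1 * g ^ l * 1⁻¹) := by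
    intro g l hl
    rw [one_mul, inv_one, mul_one]
    exact (zpowers_pow_eq hl).symm
  have hor : ∀ g h τ : L ≃ₐ[ℚ] L, (XP g ∨ XM g) →
      Subgroup.zpowers h = Subgroup.zpowers (τ * g * τ⁻¹) → (XP h ∨ XM h) := by
    intro g h τ hB hz
    rcases htr g h τ hz with ⟨h4, h5⟩ | ⟨h4, h5⟩
    · rcases hB with h6 | h6
      · exact Or.inl (h4 h6)
      · exact Or.inr (h5 h6)
    · rcases hB with h6 | h6
      · exact Or.inr (h4 h6)
      · exact Or.inl (h5 h6)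
  have hand : ∀ g h τ : L ≃ₐ[ℚ] L, (XP g ∧ XM g) →
      Subgroup.zpowers h = Subgroup.zpowers (τ * g * τ⁻¹) → (XP h ∧ XM h) := by
    intro g h τ hB hz
    rcases htr g h τ hz with ⟨h4, h5⟩ | ⟨h4, h5⟩
    · exact ⟨h4 hB.1, h5 hB.2⟩
    · exact ⟨h5 hB.2, h4 hB.1⟩
  have hA1 : ∀ n ∈ SA, n % 3 = 1 ∧ ∀ hn : n.Coprime f,
      (κ (ZMod.unitOfCoprime n hn)).toAdd = c := by
    rw [hSA]
    rintro n ⟨⟨hn', ρ, ⟨h1, h2, -⟩, -⟩, -⟩
    exact ⟨h1, fun hn => h2⟩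
  have hB1 : ∀ n ∈ SB, n % 3 = 1 ∧ ∀ hn : n.Coprime f,
      (κ (ZMod.unitOfCoprime n hn)).toAdd = -c := by
    rw [hSB]
    rintro n ⟨⟨hn', ρ, ⟨h1, h2, -⟩, -⟩, -⟩
    exact ⟨h1, fun hn => h2⟩
  have hP1 : ∀ g, XP g → M1 (χ g) ∧ (κ (χ g)).toAdd = c := by
    rw [hXP]
    rintro g ⟨h1, h2, -⟩
    exact ⟨h1, h2⟩
  have hM1 : ∀ g, XM g → M1 (χ g) ∧ (κ (χ g)).toAdd = -c := by
    rw [hXM]
    rintro g ⟨h1, h2, -⟩
    exact ⟨h1, h2⟩
  obtain ⟨K1, hK1⟩ := hDNS1 f m κ c L χ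
    (fun g => XP g ∨ XM g) (SA ∪ SB) (max N₀ x.norm.natAbs) hf h9 hχ hor
    (by
      rintro g (h | h)
      · exact ⟨(hP1 g h).1, Or.inl (hP1 g h).2⟩
      · exact ⟨(hM1 g h).1, Or.inr (hM1 g h).2⟩)
    (by
      intro n hn hnp hnN I g hI hnI hst
      obtain ⟨l, hl, hχl, h1, h2⟩ := hfr n hn hnp hnN I g hI hnI hst
      refine ⟨⟨l, hl, hχl⟩, ?_⟩
      rintro (h | h)
      · exact hor (g ^ l) g 1 (Or.inl (h1 h)) (hzk g l hl)
      · exact hor (g ^ l) g 1 (Or.inr (h2 h)) (hzk g l hl))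
    (by
      rintro n hn hnp hnN (h | h)
      · exact ⟨(hA1 n h).1, Or.inl ((hA1 n h).2 hn)⟩
      · exact ⟨(hB1 n h).1, Or.inr ((hB1 n h).2 hn)⟩)
  obtain ⟨K2, hK2⟩ := hDNS1 f m κ c L χ
    (fun g => XP g ∧ XM g) (SA ∩ SB) (max N₀ x.norm.natAbs) hf h9 hχ hand
    (by
      rintro g ⟨h, -⟩
      exact ⟨(hP1 g h).1, Or.inl (hP1 g h).2⟩)
    (by
      intro n hn hnp hnN I g hI hnI hst
      obtain ⟨l, hl, hχl, h1, h2⟩ := hfr n hn hnp hnN I g hI hnI hst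
      refine ⟨⟨l, hl, hχl⟩, ?_⟩
      rintro ⟨h, h'⟩
      exact hand (g ^ l) g 1 ⟨h1 h, h2 h'⟩ (hzk g l hl))
    (by
      rintro n hn hnp hnN ⟨h, -⟩
      exact ⟨(hA1 n h).1, Or.inl ((hA1 n h).2 hn)⟩)
  obtain ⟨hX1, hX2⟩ := card_X χ κ c C Φ C' Φ' tn F tt F₂ T hEQX hf hχ heq hcF hκ
  have hX1' : (3 ^ (s + 1) * 3 ^ k * Nat.card (Fin s → Fin s → ZMod 3)) *
      Nat.card {g : L ≃ₐ[ℚ] L // XP g} * (2 * 3 ^ (m + 1)) ≤
        2 * NK s tn * Nat.card (L ≃ₐ[ℚ] L) := by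
    rw [hXP]
    exact hX1
  have hX2' : (3 ^ (s + 1) * 3 ^ k * Nat.card (Fin s → Fin s → ZMod 3)) *
      Nat.card {g : L ≃ₐ[ℚ] L // XM g} * (2 * 3 ^ (m + 1)) ≤
        2 * NK s tn * Nat.card (L ≃ₐ[ℚ] L) := by
    rw [hXM]
    exact hX2
  clear hX1 hX2
  have hincl := BD.card_incl (fun g => XP g) (fun g => XM g)
  refine ⟨K1 + K2, fun σ h1 h2 => ?_⟩
  have e1 := hK1 σ h1 h2
  have e2 := hK2 σ h1 h2
  have hlog : 0 ≤ Real.log (1 / (σ - 1)) := by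
    apply Real.log_nonneg
    rw [le_div_iff₀ (by linarith)]
    linarith
  rw [← hSA, ← hSB, BD.sm_union_inter _ _ h1]
  have hG : 0 < Nat.card (L ≃ₐ[ℚ] L) := Nat.card_pos
  have hA : 0 < Nat.card (Fin s → Fin s → ZMod 3) := Nat.card_pos
  have hcnt : (Nat.card {g : L ≃ₐ[ℚ] L // XP g ∨ XM g} : ℝ) / Nat.card (L ≃ₐ[ℚ] L) +
      (Nat.card {g : L ≃ₐ[ℚ] L // XP g ∧ XM g} : ℝ) / Nat.card (L ≃ₐ[ℚ] L) ≤
      2 / 3 ^ (s + 1) * LI s tn / 3 ^ k / 3 ^ (m + 1) := by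
    unfold LI
    clear hK1 hK2 e1 e2 hfr hor hand htr hP1 hM1 hfrob heq hcF
    generalize Nat.card {g : L ≃ₐ[ℚ] L // XP g ∨ XM g} = n1 at *
    generalize Nat.card {g : L ≃ₐ[ℚ] L // XP g ∧ XM g} = n2 at *
    generalize Nat.card {g : L ≃ₐ[ℚ] L // XP g} = x1 at *
    generalize Nat.card {g : L ≃ₐ[ℚ] L // XM g} = x2 at *
    generalize Nat.card (Fin s → Fin s → ZMod 3) = A at *
    generalize Nat.card (L ≃ₐ[ℚ] L) = g0 at *
    have hG' : (0 : ℝ) < g0 := Nat.cast_pos.2 hG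
    have hA' : (0 : ℝ) < A := Nat.cast_pos.2 hA
    have hT1 : (0 : ℝ) < 3 ^ (m + 1) := by positivity
    have hT2 : (0 : ℝ) < 3 ^ (s + 1) := by positivity
    have hT3 : (0 : ℝ) < 3 ^ k := by positivity
    have i1 : (3 : ℝ) ^ (s + 1) * 3 ^ k * A * x1 * (2 * 3 ^ (m + 1)) ≤ 2 * NK s tn * g0 := by
      exact_mod_cast hX1'
    have i2 : (3 : ℝ) ^ (s + 1) * 3 ^ k * A * x2 * (2 * 3 ^ (m + 1)) ≤ 2 * NK s tn * g0 := by
      exact_mod_cast hX2'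
    have i3 : (n1 : ℝ) + n2 = x1 + x2 := by exact_mod_cast hincl
    have i4 : (2 : ℝ) / 3 ^ (s + 1) * ((NK s tn : ℝ) / A) / 3 ^ k / 3 ^ (m + 1) =
        2 * NK s tn / (3 ^ (s + 1) * 3 ^ k * A * 3 ^ (m + 1)) := by
      field_simp
    rw [← add_div, i3, i4, div_le_div_iff₀ hG' (by positivity)]
    nlinarith
  have hmul := mul_le_mul_of_nonneg_right hcnt hlog
  rw [add_mul] at hmul
  linarith

end Pool.Agent.PTK


end

section

/-!
# PTK_BMU: the bound for the density, `Q = 1 (mod 3)`, generic pattern, all moments (helper85)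
-/

set_option autoImplicit false

open NumberField IsDedekindDomain Finset
open scoped nonZeroDivisors Pointwise

namespace Pool.Agent.PTK

open Pool.Agent.Lib_helper18 Pool.Agent.Lib_helper18.Eis Pool.Agent.Lib_helper84.Cub
open Pool.Agent.PT Pool.Agent.PTE Pool.Agent.PT3 Pool.Agent.PTL Pool.Agent.PTN

namespace BMU

/-- the classes of a system are not zero -/
theorem ne_zero {M N : ℕ} {z : Fin M → Eis} {α β : Fin N → Fin M} {P Q P' Q' : Fin N → Eis}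
    (hS : SysZ z α β P Q P' Q') (i : Fin M) : z i ≠ 0 := by
  intro h
  refine hS.ind (fun j => if j = i then 1 else 0) ⟨i, by simp⟩ ⟨0, ?_⟩
  rw [Finset.prod_eq_zero (Finset.mem_univ i) (by simp [h])]
  ring

end BMU

open BDENS BDJU in
/-- PTK_BMU: the bound for the density, `Q = 1 (mod 3)`, generic pattern. -/
theorem BMU_thm (hSPP : SPP) (hSPLT : SPLT) (hLCI : Stmt_LCI) (hEQX : Stmt_EQX)
    (hMAU : Stmt_MAU) (hDNS1 : Stmt_DNS1) : Stmt_BMU := by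
  classical
  intro s b p q p' q' M k z α β P Q P' Q' f m tn κ c C Φ C' Φ' hSG hSK hf h9 hκ
  have hz0 : ∀ i, z i ≠ 0 := BMU.ne_zero hSK
  obtain ⟨L, iF, iN, iG, χ, F, tt, F₂, T, N₀, hχ, hconj, hpow, hconj2, hpow2, heq, hcF, hfrob⟩ :=
    hMAU s b p q p' q' M k z α β P Q P' Q' f hSG hSK hf h9
  have h3 : 3 ∣ f := Dvd.dvd.trans (by norm_num) h9
  have hM : ∀ (n : ℕ) (hn : n.Coprime f), M1 (ZMod.unitOfCoprime n hn) ↔ n % 3 = 1 := by
    intro n hn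
    unfold M1
    rw [ZMod.coe_unitOfCoprime, ZMod.val_natCast, Nat.mod_mod_of_dvd _ h3]
  obtain ⟨XP, hXP⟩ : ∃ XP : (L ≃ₐ[ℚ] L) → Prop, XP = XPJ χ κ c C Φ C' Φ' tn F tt F₂ T :=
    ⟨_, rfl⟩
  obtain ⟨XM, hXM⟩ : ∃ XM : (L ≃ₐ[ℚ] L) → Prop, XM = XMJ χ κ c C Φ C' Φ' tn F tt F₂ T :=
    ⟨_, rfl⟩
  have htr : ∀ (g h τ : L ≃ₐ[ℚ] L), Subgroup.zpowers h = Subgroup.zpowers (τ * g * τ⁻¹) →
      ((XP g → XP h) ∧ (XM g → XM h)) ∨ ((XP g → XM h) ∧ (XM g → XP h)) := by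
    intro g h τ hz
    rw [hXP, hXM]
    exact transferJ χ κ c C Φ C' Φ' tn F tt F₂ T hf h3 hconj hpow hconj2 hpow2 hz
  obtain ⟨SA, hSA⟩ : ∃ SA : Set ℕ, SA = SPU b p q p' q' tn κ c C Φ ∩
    SPZU z α P Q P' Q' κ c C' Φ' := ⟨_, rfl⟩
  obtain ⟨SB, hSB⟩ : ∃ SB : Set ℕ, SB = SMU b p q p' q' tn κ c C Φ ∩
    SMZU z α P Q P' Q' κ c C' Φ' := ⟨_, rfl⟩
  -- the Frobenius elements
  have hfr : ∀ (n : ℕ) (hn : n.Coprime f), n.Prime → max N₀ (∑ i, (z i).norm.natAbs) < n →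
      ∀ (I : Ideal (𝓞 L)) (g : L ≃ₐ[ℚ] L), I.IsPrime → (n : 𝓞 L) ∈ I →
      MulAction.stabilizer (L ≃ₐ[ℚ] L) I = Subgroup.zpowers g →
      ∃ l : ℕ, l.Coprime (orderOf g) ∧ χ (g ^ l) = ZMod.unitOfCoprime n hn ∧
        (n ∈ SA → XP (g ^ l)) ∧ (n ∈ SB → XM (g ^ l)) := by
    intro n hn hnp hnN I g hI hnI hst
    have hN1 : N₀ < n := lt_of_le_of_lt (le_max_left _ _) hnN
    have hN2 : ∀ i, (z i).norm < n := by
      intro i
      have h0 : (z i).norm.natAbs ≤ ∑ i, (z i).norm.natAbs :=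
        Finset.single_le_sum (f := fun i => (z i).norm.natAbs) (fun j _ => Nat.zero_le _)
          (Finset.mem_univ i)
      have h1 : (z i).norm.natAbs < n := lt_of_le_of_lt (h0.trans (le_max_right _ _)) hnN
      have h2 := norm_pos (hz0 i)
      omega
    obtain ⟨l, hl, hχl, hl2⟩ := hfrob n hn hnp hN1 I g hI hnI hst
    refine ⟨l, hl, hχl, ?_, ?_⟩
    · rw [hSA, hXP]
      rintro ⟨⟨hn', ρ, ⟨h1, h2, h5, h6, h7⟩, h4⟩, ⟨hn'', -, -, h8⟩⟩
      obtain ⟨r1, r2, r3⟩ := hl2 h1 ρ h5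
      obtain ⟨s1, s3⟩ := h8 ρ h5
      obtain ⟨t1, t2⟩ := r3 s1
      have hFg : F (g ^ l) := r1.2 ⟨h6, h7⟩
      refine ⟨?_, ?_, hFg, t1, ?_, ?_⟩
      · rw [hχl]
        exact (hM n hn).2 h1
      · rw [hχl]
        exact h2
      · funext j
        obtain ⟨r, r', hr, hr'⟩ := roots hSPP hSPLT hLCI (hz0 (α j)) (hSK.cz (α j)) hnp h1
          (hN2 (α j)) ρ h5 (s1 (α j))
        rw [t2 j r r' hr hr', s3 j r r' hr hr', hχl]
        rfl
      · rw [hχl]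
        exact h4 (tt (g ^ l)) (r2 hFg)
    · rw [hSB, hXM]
      rintro ⟨⟨hn', ρ, ⟨h1, h2, h5, h6, h7⟩, h4⟩, ⟨hn'', -, -, h8⟩⟩
      obtain ⟨r1, r2, r3⟩ := hl2 h1 ρ h5
      obtain ⟨s1, s3⟩ := h8 ρ h5
      obtain ⟨t1, t2⟩ := r3 s1
      have hFg : F (g ^ l) := r1.2 ⟨h6, h7⟩
      refine ⟨?_, ?_, hFg, t1, ?_, ?_⟩
      · rw [hχl]
        exact (hM n hn).2 h1
      · rw [hχl]
        exact h2
      · funext j
        obtain ⟨r, r', hr, hr'⟩ := roots hSPP hSPLT hLCI (hz0 (α j)) (hSK.cz (α j)) hnp h1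
          (hN2 (α j)) ρ h5 (s1 (α j))
        rw [t2 j r r' hr hr', s3 j r r' hr hr', hχl]
        rfl
      · rw [hχl]
        exact h4 (tt (g ^ l)) (r2 hFg)
  have hzk : ∀ (g : L ≃ₐ[ℚ] L) (l : ℕ), l.Coprime (orderOf g) →
      Subgroup.zpowers g = Subgroup.zpowers (1 * g ^ l * 1⁻¹) := by
    intro g l hl
    rw [one_mul, inv_one, mul_one]
    exact (zpowers_pow_eq hl).symm
  have hor : ∀ g h τ : L ≃ₐ[ℚ] L, (XP g ∨ XM g) →
      Subgroup.zpowers h = Subgroup.zpowers (τ * g * τ⁻¹) → (XP h ∨ XM h) := by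
    intro g h τ hB hz
    rcases htr g h τ hz with ⟨h4, h5⟩ | ⟨h4, h5⟩
    · rcases hB with h6 | h6
      · exact Or.inl (h4 h6)
      · exact Or.inr (h5 h6)
    · rcases hB with h6 | h6
      · exact Or.inr (h4 h6)
      · exact Or.inl (h5 h6)
  have hand : ∀ g h τ : L ≃ₐ[ℚ] L, (XP g ∧ XM g) →
      Subgroup.zpowers h = Subgroup.zpowers (τ * g * τ⁻¹) → (XP h ∧ XM h) := by
    intro g h τ hB hz
    rcases htr g h τ hz with ⟨h4, h5⟩ | ⟨h4, h5⟩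
    · exact ⟨h4 hB.1, h5 hB.2⟩
    · exact ⟨h5 hB.2, h4 hB.1⟩
  have hA1 : ∀ n ∈ SA, n % 3 = 1 ∧ ∀ hn : n.Coprime f,
      (κ (ZMod.unitOfCoprime n hn)).toAdd = c := by
    rw [hSA]
    rintro n ⟨⟨hn', ρ, ⟨h1, h2, -⟩, -⟩, -⟩
    exact ⟨h1, fun hn => h2⟩
  have hB1 : ∀ n ∈ SB, n % 3 = 1 ∧ ∀ hn : n.Coprime f,
      (κ (ZMod.unitOfCoprime n hn)).toAdd = -c := by
    rw [hSB]
    rintro n ⟨⟨hn', ρ, ⟨h1, h2, -⟩, -⟩, -⟩
    exact ⟨h1, fun hn => h2⟩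
  have hP1 : ∀ g, XP g → M1 (χ g) ∧ (κ (χ g)).toAdd = c := by
    rw [hXP]
    rintro g ⟨h1, h2, -⟩
    exact ⟨h1, h2⟩
  have hM1 : ∀ g, XM g → M1 (χ g) ∧ (κ (χ g)).toAdd = -c := by
    rw [hXM]
    rintro g ⟨h1, h2, -⟩
    exact ⟨h1, h2⟩
  obtain ⟨K1, hK1⟩ := hDNS1 f m κ c L χ
    (fun g => XP g ∨ XM g) (SA ∪ SB) (max N₀ (∑ i, (z i).norm.natAbs)) hf h9 hχ hor
    (by
      rintro g (h | h)
      · exact ⟨(hP1 g h).1, Or.inl (hP1 g h).2⟩
      · exact ⟨(hM1 g h).1, Or.inr (hM1 g h).2⟩)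
    (by
      intro n hn hnp hnN I g hI hnI hst
      obtain ⟨l, hl, hχl, h1, h2⟩ := hfr n hn hnp hnN I g hI hnI hst
      refine ⟨⟨l, hl, hχl⟩, ?_⟩
      rintro (h | h)
      · exact hor (g ^ l) g 1 (Or.inl (h1 h)) (hzk g l hl)
      · exact hor (g ^ l) g 1 (Or.inr (h2 h)) (hzk g l hl))
    (by
      rintro n hn hnp hnN (h | h)
      · exact ⟨(hA1 n h).1, Or.inl ((hA1 n h).2 hn)⟩
      · exact ⟨(hB1 n h).1, Or.inr ((hB1 n h).2 hn)⟩)
  obtain ⟨K2, hK2⟩ := hDNS1 f m κ c L χ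
    (fun g => XP g ∧ XM g) (SA ∩ SB) (max N₀ (∑ i, (z i).norm.natAbs)) hf h9 hχ hand
    (by
      rintro g ⟨h, -⟩
      exact ⟨(hP1 g h).1, Or.inl (hP1 g h).2⟩)
    (by
      intro n hn hnp hnN I g hI hnI hst
      obtain ⟨l, hl, hχl, h1, h2⟩ := hfr n hn hnp hnN I g hI hnI hst
      refine ⟨⟨l, hl, hχl⟩, ?_⟩
      rintro ⟨h, h'⟩
      exact hand (g ^ l) g 1 ⟨h1 h, h2 h'⟩ (hzk g l hl))
    (by
      rintro n hn hnp hnN ⟨h, -⟩
      exact ⟨(hA1 n h).1, Or.inl ((hA1 n h).2 hn)⟩)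
  obtain ⟨hX1, hX2⟩ := card_X χ κ c C Φ C' Φ' tn F tt F₂ T hEQX hf hχ heq hcF hκ
  have hX1' : (3 ^ (s + 1) * 3 ^ k * Nat.card (Fin s → Fin s → ZMod 3)) *
      Nat.card {g : L ≃ₐ[ℚ] L // XP g} * (2 * 3 ^ (m + 1)) ≤
        2 * NK s tn * Nat.card (L ≃ₐ[ℚ] L) := by
    rw [hXP]
    exact hX1
  have hX2' : (3 ^ (s + 1) * 3 ^ k * Nat.card (Fin s → Fin s → ZMod 3)) *
      Nat.card {g : L ≃ₐ[ℚ] L // XM g} * (2 * 3 ^ (m + 1)) ≤
        2 * NK s tn * Nat.card (L ≃ₐ[ℚ] L) := by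
    rw [hXM]
    exact hX2
  clear hX1 hX2
  have hincl := BD.card_incl (fun g => XP g) (fun g => XM g)
  refine ⟨K1 + K2, fun σ h1 h2 => ?_⟩
  have e1 := hK1 σ h1 h2
  have e2 := hK2 σ h1 h2
  have hlog : 0 ≤ Real.log (1 / (σ - 1)) := by
    apply Real.log_nonneg
    rw [le_div_iff₀ (by linarith)]
    linarith
  rw [← hSA, ← hSB, BD.sm_union_inter _ _ h1]
  have hG : 0 < Nat.card (L ≃ₐ[ℚ] L) := Nat.card_pos
  have hA : 0 < Nat.card (Fin s → Fin s → ZMod 3) := Nat.card_pos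
  have hcnt : (Nat.card {g : L ≃ₐ[ℚ] L // XP g ∨ XM g} : ℝ) / Nat.card (L ≃ₐ[ℚ] L) +
      (Nat.card {g : L ≃ₐ[ℚ] L // XP g ∧ XM g} : ℝ) / Nat.card (L ≃ₐ[ℚ] L) ≤
      2 / 3 ^ (s + 1) * LI s tn / 3 ^ k / 3 ^ (m + 1) := by
    unfold LI
    clear hK1 hK2 e1 e2 hfr hor hand htr hP1 hM1 hfrob heq hcF
    generalize Nat.card {g : L ≃ₐ[ℚ] L // XP g ∨ XM g} = n1 at *
    generalize Nat.card {g : L ≃ₐ[ℚ] L // XP g ∧ XM g} = n2 at *
    generalize Nat.card {g : L ≃ₐ[ℚ] L // XP g} = x1 at *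
    generalize Nat.card {g : L ≃ₐ[ℚ] L // XM g} = x2 at *
    generalize Nat.card (Fin s → Fin s → ZMod 3) = A at *
    generalize Nat.card (L ≃ₐ[ℚ] L) = g0 at *
    have hG' : (0 : ℝ) < g0 := Nat.cast_pos.2 hG
    have hA' : (0 : ℝ) < A := Nat.cast_pos.2 hA
    have hT1 : (0 : ℝ) < 3 ^ (m + 1) := by positivity
    have hT2 : (0 : ℝ) < 3 ^ (s + 1) := by positivity
    have hT3 : (0 : ℝ) < 3 ^ k := by positivity
    have i1 : (3 : ℝ) ^ (s + 1) * 3 ^ k * A * x1 * (2 * 3 ^ (m + 1)) ≤ 2 * NK s tn * g0 := by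
      exact_mod_cast hX1'
    have i2 : (3 : ℝ) ^ (s + 1) * 3 ^ k * A * x2 * (2 * 3 ^ (m + 1)) ≤ 2 * NK s tn * g0 := by
      exact_mod_cast hX2'
    have i3 : (n1 : ℝ) + n2 = x1 + x2 := by exact_mod_cast hincl
    have i4 : (2 : ℝ) / 3 ^ (s + 1) * ((NK s tn : ℝ) / A) / 3 ^ k / 3 ^ (m + 1) =
        2 * NK s tn / (3 ^ (s + 1) * 3 ^ k * A * 3 ^ (m + 1)) := by
      field_simp
    rw [← add_div, i3, i4, div_le_div_iff₀ hG' (by positivity)]
    nlinarith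
  have hmul := mul_le_mul_of_nonneg_right hcnt hlog
  rw [add_mul] at hmul
  linarith

end Pool.Agent.PTK


end

section

/-!
# PTK_BMZ: the bound for the density, `Q = 1 (mod 3)`, all `b j` cubes modulo `Q`, with the matrix
(helper70)
-/

set_option autoImplicit false

open NumberField IsDedekindDomain Finset
open scoped nonZeroDivisors Pointwise

namespace Pool.Agent.PTK

open Pool.Agent.Lib_helper18 Pool.Agent.Lib_helper18.Eis Pool.Agent.Lib_helper84.Cub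
open Pool.Agent.PT Pool.Agent.PTE Pool.Agent.PT3 Pool.Agent.PTL Pool.Agent.PTN

namespace BMZ

open BDENS BDJU

/-- the classes are not zero -/
theorem z_ne {M N : ℕ} {z : Fin M → Eis} {α β : Fin N → Fin M} {P Q P' Q' : Fin N → Eis}
    (h : SysZ z α β P Q P' Q') (i : Fin M) : z i ≠ 0 := by
  intro h0
  refine h.ind (fun j => if j = i then 1 else 0) ⟨i, by simp⟩ ⟨0, ?_⟩
  rw [zero_pow (by norm_num)]
  symm
  apply Finset.prod_eq_zero (Finset.mem_univ i)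
  simp [h0]

section
variable {G : Type} [Group G] {f m s k : ℕ} (χ : G →* (ZMod f)ˣ)
    (κ : (ZMod f)ˣ →* Multiplicative (Fin (m + 1) → ZMod 3)) (c : Fin (m + 1) → ZMod 3)
    (C : Fin s → Fin s → ZMod 3) (Φ : (ZMod f)ˣ →* Multiplicative (Fin s → Fin s → ZMod 3))
    (C' : Fin k → ZMod 3) (Φ' : (ZMod f)ˣ →* Multiplicative (Fin k → ZMod 3))
    (tn : ℕ) (F : G → Prop) (tt : G → Fin s → Fin s → ZMod 3)
    (F₂ : G → Prop) (T : G → Fin k → ZMod 3)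

/-- counting in one class -/
theorem card_cls [Finite G] (hEQX : Stmt_EQX)
    (heq : ∀ (a : (ZMod f)ˣ) (v v' : Fin s → Fin s → ZMod 3) (y y' : Fin k → ZMod 3), M1 a →
      Nat.card {g : G // χ g = a ∧ F g ∧ F₂ g ∧ T g = y ∧ ∀ j i, j < i → tt g j i = v j i} =
        Nat.card {g : G //
          χ g = a ∧ F g ∧ F₂ g ∧ T g = y' ∧ ∀ j i, j < i → tt g j i = v' j i})
    (hcF : ∀ a : (ZMod f)ˣ, M1 a → 3 ^ s * Nat.card {g : G // χ g = a ∧ F g} =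
      Nat.card {g : G // χ g = a})
    (hfib : ∀ a : (ZMod f)ˣ, Nat.card {g : G // χ g = a} = Nat.card χ.ker)
    (a : (ZMod f)ˣ) (D : Fin s → Fin s → ZMod 3) (y : Fin k → ZMod 3) (ha : M1 a) :
    (3 ^ s * 3 ^ k * Nat.card (Fin s → Fin s → ZMod 3)) *
        Nat.card {g : G // χ g = a ∧ F g ∧ F₂ g ∧ T g = y ∧
          tn ≤ s - (alt (D + tt g)).rank} ≤ NK s tn * Nat.card χ.ker ∧
    (3 ^ s * 3 ^ k * Nat.card (Fin s → Fin s → ZMod 3)) *
        Nat.card {g : G // χ g = a ∧ F g ∧ F₂ g ∧ T g = y ∧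
          tn ≤ s - (alt (D - tt g)).rank} ≤ NK s tn * Nat.card χ.ker := by
  classical
  have key : ∀ R : G → Prop,
      Nat.card {x : {g : G // χ g = a ∧ F g ∧ F₂ g ∧ T g = y} // R x} =
      Nat.card {g : G // χ g = a ∧ F g ∧ F₂ g ∧ T g = y ∧ R g} := fun R =>
    Nat.card_congr ((Equiv.subtypeSubtypeEquivSubtypeInter
      (fun g : G => χ g = a ∧ F g ∧ F₂ g ∧ T g = y) R).trans
      (Equiv.subtypeEquivRight fun g => by tauto))
  obtain ⟨h1, h2⟩ := hEQX s {g : G // χ g = a ∧ F g ∧ F₂ g ∧ T g = y} (fun x => tt x) (by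
    intro v v'
    rw [key (fun g => ∀ j i, j < i → tt g j i = v j i),
      key (fun g => ∀ j i, j < i → tt g j i = v' j i)]
    exact heq a v v' y y ha) D {M | tn ≤ s - M.rank}
  have k1 := key (fun g => tn ≤ s - (alt (D + tt g)).rank)
  have k2 := key (fun g => tn ≤ s - (alt (D - tt g)).rank)
  have h3 := hcF a ha
  rw [hfib a] at h3
  have hT : 3 ^ k * Nat.card {g : G // χ g = a ∧ F g ∧ F₂ g ∧ T g = y} ≤
      Nat.card {g : G // χ g = a ∧ F g} := by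
    have e1 : ∀ y : Fin k → ZMod 3, Nat.card {g : G // χ g = a ∧ F g ∧ F₂ g ∧ T g = y} =
        Nat.card {g : G // (χ g = a ∧ F g ∧ F₂ g) ∧ T g = y} := fun y =>
      Nat.card_congr (Equiv.subtypeEquivRight fun g => by tauto)
    rw [e1 y, fib_T T (fun g => χ g = a ∧ F g ∧ F₂ g) (fun y y' => ?_) y]
    · exact Nat.card_le_card_of_injective
        (fun g : {g : G // χ g = a ∧ F g ∧ F₂ g} => (⟨g.1, g.2.1, g.2.2.1⟩ :
          {g : G // χ g = a ∧ F g})) (fun g h hgh => by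
          have h' := Subtype.mk.inj hgh
          exact Subtype.ext h')
    · rw [← e1, ← e1]
      refine fib_eq tt _ _ fun v => ?_
      refine Eq.trans (Nat.card_congr (Equiv.subtypeEquivRight fun g => by tauto))
        ((heq a v v y y' ha).trans (Nat.card_congr (Equiv.subtypeEquivRight fun g => by tauto)))
  have h1' : Nat.card {g : G // χ g = a ∧ F g ∧ F₂ g ∧ T g = y ∧
      tn ≤ s - (alt (D + tt g)).rank} * Nat.card (Fin s → Fin s → ZMod 3) =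
      NK s tn * Nat.card {g : G // χ g = a ∧ F g ∧ F₂ g ∧ T g = y} := by
    rw [← k1]
    exact h1
  have h2' : Nat.card {g : G // χ g = a ∧ F g ∧ F₂ g ∧ T g = y ∧
      tn ≤ s - (alt (D - tt g)).rank} * Nat.card (Fin s → Fin s → ZMod 3) =
      NK s tn * Nat.card {g : G // χ g = a ∧ F g ∧ F₂ g ∧ T g = y} := by
    rw [← k2]
    exact h2
  clear h1 h2 k1 k2 key heq hcF hfib
  generalize Nat.card {g : G // χ g = a ∧ F g ∧ F₂ g ∧ T g = y ∧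
      tn ≤ s - (alt (D + tt g)).rank} = x1 at *
  generalize Nat.card {g : G // χ g = a ∧ F g ∧ F₂ g ∧ T g = y ∧
      tn ≤ s - (alt (D - tt g)).rank} = x2 at *
  generalize Nat.card {g : G // χ g = a ∧ F g ∧ F₂ g ∧ T g = y} = Y at *
  generalize Nat.card {g : G // χ g = a ∧ F g} = X at *
  generalize Nat.card (Fin s → Fin s → ZMod 3) = A at *
  generalize Nat.card χ.ker = K at *
  generalize 3 ^ s = S at *
  generalize 3 ^ k = R at *
  constructor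
  · calc (S * R * A) * x1 = S * R * (x1 * A) := by ring
      _ = NK s tn * (S * (R * Y)) := by rw [h1']; ring
      _ ≤ NK s tn * (S * X) := Nat.mul_le_mul_left _ (Nat.mul_le_mul_left _ hT)
      _ = NK s tn * K := by rw [h3]
  · calc (S * R * A) * x2 = S * R * (x2 * A) := by ring
      _ = NK s tn * (S * (R * Y)) := by rw [h2']; ring
      _ ≤ NK s tn * (S * X) := Nat.mul_le_mul_left _ (Nat.mul_le_mul_left _ hT)
      _ = NK s tn * K := by rw [h3]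

/-- counting -/
theorem card_X [Finite G] (hEQX : Stmt_EQX) (hf : 0 < f) (hχ : Function.Surjective χ)
    (heq : ∀ (a : (ZMod f)ˣ) (v v' : Fin s → Fin s → ZMod 3) (y y' : Fin k → ZMod 3), M1 a →
      Nat.card {g : G // χ g = a ∧ F g ∧ F₂ g ∧ T g = y ∧ ∀ j i, j < i → tt g j i = v j i} =
        Nat.card {g : G //
          χ g = a ∧ F g ∧ F₂ g ∧ T g = y' ∧ ∀ j i, j < i → tt g j i = v' j i})
    (hcF : ∀ a : (ZMod f)ˣ, M1 a → 3 ^ s * Nat.card {g : G // χ g = a ∧ F g} =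
      Nat.card {g : G // χ g = a})
    (hκ : ∀ c : Fin (m + 1) → ZMod 3,
      Nat.card {a : (ZMod f)ˣ // M1 a ∧ (κ a).toAdd = c} * (2 * 3 ^ (m + 1)) = f.totient) :
    (3 ^ s * 3 ^ k * Nat.card (Fin s → Fin s → ZMod 3)) *
        Nat.card {g : G // XPJ χ κ c C Φ C' Φ' tn F tt F₂ T g} *
        (2 * 3 ^ (m + 1)) ≤ NK s tn * Nat.card G ∧
      (3 ^ s * 3 ^ k * Nat.card (Fin s → Fin s → ZMod 3)) *
        Nat.card {g : G // XMJ χ κ c C Φ C' Φ' tn F tt F₂ T g} *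
        (2 * 3 ^ (m + 1)) ≤ NK s tn * Nat.card G := by
  have : NeZero f := ⟨hf.ne'⟩
  obtain ⟨hfib, hcard⟩ := fibre χ hχ
  have hH : Nat.card (ZMod f)ˣ = f.totient := by
    rw [Nat.card_eq_fintype_card, ZMod.card_units_eq_totient]
  rw [hH] at hcard
  have hcls := card_cls χ tn F tt F₂ T hEQX heq hcF hfib
  have hP : (3 ^ s * 3 ^ k * Nat.card (Fin s → Fin s → ZMod 3)) *
      Nat.card {g : G // (M1 (χ g) ∧ (κ (χ g)).toAdd = c) ∧
        F g ∧ F₂ g ∧ T g = C' + (Φ' (χ g)).toAdd ∧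
          tn ≤ s - (alt (C + (Φ (χ g)).toAdd + tt g)).rank} ≤
      Nat.card {a : (ZMod f)ˣ // M1 a ∧ (κ a).toAdd = c} *
        (NK s tn * Nat.card χ.ker) := by
    refine count_le χ (fun g => F g ∧ F₂ g ∧ T g = C' + (Φ' (χ g)).toAdd ∧
      tn ≤ s - (alt (C + (Φ (χ g)).toAdd + tt g)).rank)
      (fun a => M1 a ∧ (κ a).toAdd = c) _ _ fun a ha => ?_
    refine le_trans (Nat.mul_le_mul_left _ (le_of_eq ?_))
      (hcls a (C + (Φ a).toAdd) (C' + (Φ' a).toAdd) ha.1).1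
    refine Nat.card_congr (Equiv.subtypeEquivRight fun g => ?_)
    constructor
    · rintro ⟨rfl, h⟩
      exact ⟨rfl, h⟩
    · rintro ⟨rfl, h⟩
      exact ⟨rfl, h⟩
  have hN : (3 ^ s * 3 ^ k * Nat.card (Fin s → Fin s → ZMod 3)) *
      Nat.card {g : G // (M1 (χ g) ∧ (κ (χ g)).toAdd = -c) ∧
        F g ∧ F₂ g ∧ T g = - C' + (Φ' (χ g)).toAdd ∧
          tn ≤ s - (alt (C - (Φ (χ g)).toAdd - tt g)).rank} ≤
      Nat.card {a : (ZMod f)ˣ // M1 a ∧ (κ a).toAdd = -c} *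
        (NK s tn * Nat.card χ.ker) := by
    refine count_le χ (fun g => F g ∧ F₂ g ∧ T g = - C' + (Φ' (χ g)).toAdd ∧
      tn ≤ s - (alt (C - (Φ (χ g)).toAdd - tt g)).rank)
      (fun a => M1 a ∧ (κ a).toAdd = -c) _ _ fun a ha => ?_
    refine le_trans (Nat.mul_le_mul_left _ (le_of_eq ?_))
      (hcls a (C - (Φ a).toAdd) (- C' + (Φ' a).toAdd) ha.1).2
    refine Nat.card_congr (Equiv.subtypeEquivRight fun g => ?_)
    constructor
    · rintro ⟨rfl, h⟩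
      exact ⟨rfl, h⟩
    · rintro ⟨rfl, h⟩
      exact ⟨rfl, h⟩
  have e1 : Nat.card {g : G // XPJ χ κ c C Φ C' Φ' tn F tt F₂ T g} =
      Nat.card {g : G // (M1 (χ g) ∧ (κ (χ g)).toAdd = c) ∧
        F g ∧ F₂ g ∧ T g = C' + (Φ' (χ g)).toAdd ∧
          tn ≤ s - (alt (C + (Φ (χ g)).toAdd + tt g)).rank} :=
    Nat.card_congr (Equiv.subtypeEquivRight fun g => (and_assoc).symm)
  have e2 : Nat.card {g : G // XMJ χ κ c C Φ C' Φ' tn F tt F₂ T g} =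
      Nat.card {g : G // (M1 (χ g) ∧ (κ (χ g)).toAdd = -c) ∧
        F g ∧ F₂ g ∧ T g = - C' + (Φ' (χ g)).toAdd ∧
          tn ≤ s - (alt (C - (Φ (χ g)).toAdd - tt g)).rank} :=
    Nat.card_congr (Equiv.subtypeEquivRight fun g => (and_assoc).symm)
  rw [← e1] at hP
  rw [← e2] at hN
  have h1 := hκ c
  have h2 := hκ (-c)
  generalize Nat.card {g : G // XPJ χ κ c C Φ C' Φ' tn F tt F₂ T g} = nP at *
  generalize Nat.card {g : G // XMJ χ κ c C Φ C' Φ' tn F tt F₂ T g} = nN at *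
  generalize Nat.card {a : (ZMod f)ˣ // M1 a ∧ (κ a).toAdd = c} = cP at *
  generalize Nat.card {a : (ZMod f)ˣ // M1 a ∧ (κ a).toAdd = -c} = cN at *
  generalize 3 ^ s * 3 ^ k * Nat.card (Fin s → Fin s → ZMod 3) = A at *
  generalize 3 ^ (m + 1) = R at *
  generalize Nat.card χ.ker = K at *
  rw [← hcard]
  constructor
  · calc A * nP * (2 * R) ≤ cP * (NK s tn * K) * (2 * R) := Nat.mul_le_mul_right _ hP
      _ = NK s tn * (K * (cP * (2 * R))) := by ring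
      _ = NK s tn * (K * f.totient) := by rw [h1]
  · calc A * nN * (2 * R) ≤ cN * (NK s tn * K) * (2 * R) := Nat.mul_le_mul_right _ hN
      _ = NK s tn * (K * (cN * (2 * R))) := by ring
      _ = NK s tn * (K * f.totient) := by rw [h2]

end

end BMZ

open BDENS BDJU _root_.Pool.Agent.PTK.BMZ in
/-- PTK_BMZ: the bound for the density, `Q = 1 (mod 3)`, all `b j` cubes modulo `Q`, with the
matrix. -/
theorem BMZ_thm (hSPP : SPP) (hSPLT : SPLT) (hLCI : Stmt_LCI) (hEQX : Stmt_EQX)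
    (hMAZ : Stmt_MAZ) (hDNS1 : Stmt_DNS1) : Stmt_BMZ := by
  classical
  intro s b p q p' q' M k z α β P Q P' Q' f m tn κ c C Φ C' Φ' hSG hSZ hf h9 hκ
  have hz : ∀ i, z i ≠ 0 := z_ne hSZ
  obtain ⟨L, iF, iN, iG, χ, F, tt, F₂, T, N₀, hχ, hconj, hpow, hconj2, hpow2, heq, hcF, hfrob⟩ :=
    hMAZ s b p q p' q' M k z α β P Q P' Q' f hSG hSZ hf h9
  obtain ⟨N₁, hN₁⟩ : ∃ N₁ : ℕ, ∀ i, (z i).norm.natAbs ≤ N₁ :=
    ⟨Finset.univ.sup fun i => (z i).norm.natAbs, fun i =>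
      Finset.le_sup (f := fun i => (z i).norm.natAbs) (Finset.mem_univ i)⟩
  have h3 : 3 ∣ f := Dvd.dvd.trans (by norm_num) h9
  have hM : ∀ (n : ℕ) (hn : n.Coprime f), M1 (ZMod.unitOfCoprime n hn) ↔ n % 3 = 1 := by
    intro n hn
    unfold M1
    rw [ZMod.coe_unitOfCoprime, ZMod.val_natCast, Nat.mod_mod_of_dvd _ h3]
  obtain ⟨XP, hXP⟩ : ∃ XP : (L ≃ₐ[ℚ] L) → Prop, XP = XPJ χ κ c C Φ C' Φ' tn F tt F₂ T :=
    ⟨_, rfl⟩
  obtain ⟨XM, hXM⟩ : ∃ XM : (L ≃ₐ[ℚ] L) → Prop, XM = XMJ χ κ c C Φ C' Φ' tn F tt F₂ T :=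
    ⟨_, rfl⟩
  have htr : ∀ (g h τ : L ≃ₐ[ℚ] L), Subgroup.zpowers h = Subgroup.zpowers (τ * g * τ⁻¹) →
      ((XP g → XP h) ∧ (XM g → XM h)) ∨ ((XP g → XM h) ∧ (XM g → XP h)) := by
    intro g h τ hz
    rw [hXP, hXM]
    exact transferJ χ κ c C Φ C' Φ' tn F tt F₂ T hf h3 hconj
      (fun g l hg hF _ => hpow g l hg hF) hconj2 hpow2 hz
  obtain ⟨SA, hSA⟩ : ∃ SA : Set ℕ, SA = SPF b p q p' q' tn κ c C Φ ∩
    SPZU z α P Q P' Q' κ c C' Φ' := ⟨_, rfl⟩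
  obtain ⟨SB, hSB⟩ : ∃ SB : Set ℕ, SB = SMF b p q p' q' tn κ c C Φ ∩
    SMZU z α P Q P' Q' κ c C' Φ' := ⟨_, rfl⟩
  -- the Frobenius elements
  have hfr : ∀ (n : ℕ) (hn : n.Coprime f), n.Prime → max N₀ N₁ < n →
      ∀ (I : Ideal (𝓞 L)) (g : L ≃ₐ[ℚ] L), I.IsPrime → (n : 𝓞 L) ∈ I →
      MulAction.stabilizer (L ≃ₐ[ℚ] L) I = Subgroup.zpowers g →
      ∃ l : ℕ, l.Coprime (orderOf g) ∧ χ (g ^ l) = ZMod.unitOfCoprime n hn ∧
        (n ∈ SA → XP (g ^ l)) ∧ (n ∈ SB → XM (g ^ l)) := by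
    intro n hn hnp hnN I g hI hnI hst
    have hN1 : N₀ < n := lt_of_le_of_lt (le_max_left _ _) hnN
    have hN2 : ∀ i, (z i).norm < n := by
      intro i
      have h1 : (z i).norm.natAbs < n := lt_of_le_of_lt ((hN₁ i).trans (le_max_right _ _)) hnN
      have h2 := norm_pos (hz i)
      omega
    obtain ⟨l, hl, hχl, hl2⟩ := hfrob n hn hnp hN1 I g hI hnI hst
    refine ⟨l, hl, hχl, ?_, ?_⟩
    · rw [hSA, hXP]
      rintro ⟨⟨hn', ρ, ⟨h1, h2, h5, h6⟩, h4⟩, ⟨hn'', -, -, h8⟩⟩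
      obtain ⟨r1, r3⟩ := hl2 h1 ρ h5
      obtain ⟨s1, s3⟩ := h8 ρ h5
      obtain ⟨t1, t2⟩ := r3 s1
      obtain ⟨hFg, r2⟩ := r1 h6
      refine ⟨?_, ?_, hFg, t1, ?_, ?_⟩
      · rw [hχl]
        exact (hM n hn).2 h1
      · rw [hχl]
        exact h2
      · funext j
        obtain ⟨r, r', hr, hr'⟩ := roots hSPP hSPLT hLCI (hz (α j)) (hSZ.cz (α j)) hnp h1
          (hN2 (α j)) ρ h5 (s1 (α j))
        rw [t2 j r r' hr hr', s3 j r r' hr hr', hχl]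
        rfl
      · rw [hχl]
        exact h4 (tt (g ^ l)) r2
    · rw [hSB, hXM]
      rintro ⟨⟨hn', ρ, ⟨h1, h2, h5, h6⟩, h4⟩, ⟨hn'', -, -, h8⟩⟩
      obtain ⟨r1, r3⟩ := hl2 h1 ρ h5
      obtain ⟨s1, s3⟩ := h8 ρ h5
      obtain ⟨t1, t2⟩ := r3 s1
      obtain ⟨hFg, r2⟩ := r1 h6
      refine ⟨?_, ?_, hFg, t1, ?_, ?_⟩
      · rw [hχl]
        exact (hM n hn).2 h1
      · rw [hχl]
        exact h2
      · funext j
        obtain ⟨r, r', hr, hr'⟩ := roots hSPP hSPLT hLCI (hz (α j)) (hSZ.cz (α j)) hnp h1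
          (hN2 (α j)) ρ h5 (s1 (α j))
        rw [t2 j r r' hr hr', s3 j r r' hr hr', hχl]
        rfl
      · rw [hχl]
        exact h4 (tt (g ^ l)) r2
  have hzk : ∀ (g : L ≃ₐ[ℚ] L) (l : ℕ), l.Coprime (orderOf g) →
      Subgroup.zpowers g = Subgroup.zpowers (1 * g ^ l * 1⁻¹) := by
    intro g l hl
    rw [one_mul, inv_one, mul_one]
    exact (zpowers_pow_eq hl).symm
  have hor : ∀ g h τ : L ≃ₐ[ℚ] L, (XP g ∨ XM g) →
      Subgroup.zpowers h = Subgroup.zpowers (τ * g * τ⁻¹) → (XP h ∨ XM h) := by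
    intro g h τ hB hz
    rcases htr g h τ hz with ⟨h4, h5⟩ | ⟨h4, h5⟩
    · rcases hB with h6 | h6
      · exact Or.inl (h4 h6)
      · exact Or.inr (h5 h6)
    · rcases hB with h6 | h6
      · exact Or.inr (h4 h6)
      · exact Or.inl (h5 h6)
  have hand : ∀ g h τ : L ≃ₐ[ℚ] L, (XP g ∧ XM g) →
      Subgroup.zpowers h = Subgroup.zpowers (τ * g * τ⁻¹) → (XP h ∧ XM h) := by
    intro g h τ hB hz
    rcases htr g h τ hz with ⟨h4, h5⟩ | ⟨h4, h5⟩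
    · exact ⟨h4 hB.1, h5 hB.2⟩
    · exact ⟨h5 hB.2, h4 hB.1⟩
  have hA1 : ∀ n ∈ SA, n % 3 = 1 ∧ ∀ hn : n.Coprime f,
      (κ (ZMod.unitOfCoprime n hn)).toAdd = c := by
    rw [hSA]
    rintro n ⟨⟨hn', ρ, ⟨h1, h2, -⟩, -⟩, -⟩
    exact ⟨h1, fun hn => h2⟩
  have hB1 : ∀ n ∈ SB, n % 3 = 1 ∧ ∀ hn : n.Coprime f,
      (κ (ZMod.unitOfCoprime n hn)).toAdd = -c := by
    rw [hSB]
    rintro n ⟨⟨hn', ρ, ⟨h1, h2, -⟩, -⟩, -⟩
    exact ⟨h1, fun hn => h2⟩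
  have hP1 : ∀ g, XP g → M1 (χ g) ∧ (κ (χ g)).toAdd = c := by
    rw [hXP]
    rintro g ⟨h1, h2, -⟩
    exact ⟨h1, h2⟩
  have hM1 : ∀ g, XM g → M1 (χ g) ∧ (κ (χ g)).toAdd = -c := by
    rw [hXM]
    rintro g ⟨h1, h2, -⟩
    exact ⟨h1, h2⟩
  obtain ⟨K1, hK1⟩ := hDNS1 f m κ c L χ
    (fun g => XP g ∨ XM g) (SA ∪ SB) (max N₀ N₁) hf h9 hχ hor
    (by
      rintro g (h | h)
      · exact ⟨(hP1 g h).1, Or.inl (hP1 g h).2⟩
      · exact ⟨(hM1 g h).1, Or.inr (hM1 g h).2⟩)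
    (by
      intro n hn hnp hnN I g hI hnI hst
      obtain ⟨l, hl, hχl, h1, h2⟩ := hfr n hn hnp hnN I g hI hnI hst
      refine ⟨⟨l, hl, hχl⟩, ?_⟩
      rintro (h | h)
      · exact hor (g ^ l) g 1 (Or.inl (h1 h)) (hzk g l hl)
      · exact hor (g ^ l) g 1 (Or.inr (h2 h)) (hzk g l hl))
    (by
      rintro n hn hnp hnN (h | h)
      · exact ⟨(hA1 n h).1, Or.inl ((hA1 n h).2 hn)⟩
      · exact ⟨(hB1 n h).1, Or.inr ((hB1 n h).2 hn)⟩)
  obtain ⟨K2, hK2⟩ := hDNS1 f m κ c L χ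
    (fun g => XP g ∧ XM g) (SA ∩ SB) (max N₀ N₁) hf h9 hχ hand
    (by
      rintro g ⟨h, -⟩
      exact ⟨(hP1 g h).1, Or.inl (hP1 g h).2⟩)
    (by
      intro n hn hnp hnN I g hI hnI hst
      obtain ⟨l, hl, hχl, h1, h2⟩ := hfr n hn hnp hnN I g hI hnI hst
      refine ⟨⟨l, hl, hχl⟩, ?_⟩
      rintro ⟨h, h'⟩
      exact hand (g ^ l) g 1 ⟨h1 h, h2 h'⟩ (hzk g l hl))
    (by
      rintro n hn hnp hnN ⟨h, -⟩
      exact ⟨(hA1 n h).1, Or.inl ((hA1 n h).2 hn)⟩)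
  obtain ⟨hX1, hX2⟩ := BMZ.card_X χ κ c C Φ C' Φ' tn F tt F₂ T hEQX hf hχ heq hcF hκ
  have hX1' : (3 ^ s * 3 ^ k * Nat.card (Fin s → Fin s → ZMod 3)) *
      Nat.card {g : L ≃ₐ[ℚ] L // XP g} * (2 * 3 ^ (m + 1)) ≤
        NK s tn * Nat.card (L ≃ₐ[ℚ] L) := by
    rw [hXP]
    exact hX1
  have hX2' : (3 ^ s * 3 ^ k * Nat.card (Fin s → Fin s → ZMod 3)) *
      Nat.card {g : L ≃ₐ[ℚ] L // XM g} * (2 * 3 ^ (m + 1)) ≤
        NK s tn * Nat.card (L ≃ₐ[ℚ] L) := by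
    rw [hXM]
    exact hX2
  clear hX1 hX2
  have hincl := BD.card_incl (fun g => XP g) (fun g => XM g)
  refine ⟨K1 + K2, fun σ h1 h2 => ?_⟩
  have e1 := hK1 σ h1 h2
  have e2 := hK2 σ h1 h2
  have hlog : 0 ≤ Real.log (1 / (σ - 1)) := by
    apply Real.log_nonneg
    rw [le_div_iff₀ (by linarith)]
    linarith
  rw [← hSA, ← hSB, BD.sm_union_inter _ _ h1]
  have hG : 0 < Nat.card (L ≃ₐ[ℚ] L) := Nat.card_pos
  have hA : 0 < Nat.card (Fin s → Fin s → ZMod 3) := Nat.card_pos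
  have hcnt : (Nat.card {g : L ≃ₐ[ℚ] L // XP g ∨ XM g} : ℝ) / Nat.card (L ≃ₐ[ℚ] L) +
      (Nat.card {g : L ≃ₐ[ℚ] L // XP g ∧ XM g} : ℝ) / Nat.card (L ≃ₐ[ℚ] L) ≤
      1 / 3 ^ s * LI s tn / 3 ^ k / 3 ^ (m + 1) := by
    unfold LI
    clear hK1 hK2 e1 e2 hfr hor hand htr hP1 hM1 hfrob heq hcF
    generalize Nat.card {g : L ≃ₐ[ℚ] L // XP g ∨ XM g} = n1 at *
    generalize Nat.card {g : L ≃ₐ[ℚ] L // XP g ∧ XM g} = n2 at *
    generalize Nat.card {g : L ≃ₐ[ℚ] L // XP g} = x1 at *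
    generalize Nat.card {g : L ≃ₐ[ℚ] L // XM g} = x2 at *
    generalize Nat.card (Fin s → Fin s → ZMod 3) = A at *
    generalize Nat.card (L ≃ₐ[ℚ] L) = g0 at *
    have hG' : (0 : ℝ) < g0 := Nat.cast_pos.2 hG
    have hA' : (0 : ℝ) < A := Nat.cast_pos.2 hA
    have hT1 : (0 : ℝ) < 3 ^ (m + 1) := by positivity
    have hT2 : (0 : ℝ) < 3 ^ s := by positivity
    have hT3 : (0 : ℝ) < 3 ^ k := by positivity
    have i1 : (3 : ℝ) ^ s * 3 ^ k * A * x1 * (2 * 3 ^ (m + 1)) ≤ NK s tn * g0 := by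
      exact_mod_cast hX1'
    have i2 : (3 : ℝ) ^ s * 3 ^ k * A * x2 * (2 * 3 ^ (m + 1)) ≤ NK s tn * g0 := by
      exact_mod_cast hX2'
    have i3 : (n1 : ℝ) + n2 = x1 + x2 := by exact_mod_cast hincl
    have i4 : (1 : ℝ) / 3 ^ s * ((NK s tn : ℝ) / A) / 3 ^ k / 3 ^ (m + 1) =
        NK s tn / (3 ^ s * 3 ^ k * A * 3 ^ (m + 1)) := by
      field_simp
    rw [← add_div, i3, i4, div_le_div_iff₀ hG' (by positivity)]
    nlinarith
  have hmul := mul_le_mul_of_nonneg_right hcnt hlog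
  rw [add_mul] at hmul
  linarith

end Pool.Agent.PTK


end
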