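import Pool.Agent.PTDM.C48
import Pool.Agent.PTKM.C01
import Pool.Agent.PTKM.C02
import Pool.Agent.PTKM.C03
import Pool.Agent.PTKM.C04
import Pool.Agent.PTKM.C05
import Pool.Agent.PTKM.C06
import Pool.Agent.PTKM.C07
import Pool.Agent.PTKM.C08
import Pool.Agent.PTKM.C09
import Pool.Agent.PTKM.C10
import Pool.Agent.PTKM.C11
import Pool.Agent.PTKM.C12
import Pool.Agent.PTKM.C13
import Pool.Agent.PTKM.C14
import Pool.Agent.PTKM.C15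


/-!
# The averages of the rank and of `3 ^ r` for prime twists: assembly
-/

namespace Pool.Agent.PTK.FinalM

open Pool.Agent.PTK

theorem jGMB : Stmt_GMB := GMB_thm 

theorem jMTL : Stmt_MTL := MTL_thm 

theorem jUPS : Stmt_UPS := UPS_thm 

theorem jUPA : Stmt_UPA := UPA_thm Pool.Agent.PT.Final.fSPP

theorem jLAM : Stmt_LAM := LAM_thm 

theorem jPLE : Stmt_PLE := PLE_thm Pool.Agent.PTN.Final.fNBAS Pool.Agent.PT3.Final.fESYT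

theorem jZA : Stmt_ZA := ZA_thm Pool.Agent.PT.Final.fSPP Pool.Agent.PT.Final.fSSL Pool.Agent.PT.Final.fSREC Pool.Agent.PT3.Final.fLCL

theorem jS1G : Stmt_S1G := S1G_thm Pool.Agent.PTN.Final.fKEX Pool.Agent.PTN.Final.fKEMB Pool.Agent.PTN.Final.fKAD Pool.Agent.PTN.Final.fKMI

theorem jWSB : Stmt_WSB := WSB_thm jZA jS1G

theorem jLTE : Stmt_LTE := LTE_thm 

theorem jLSM : Stmt_LSM := LSM_thm 

theorem jWSM : Stmt_WSM := WSM_thm jUPS jWSB jLTE jLSM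

theorem jKUM : Stmt_KUM := KUM_thm Pool.Agent.PTN.Final.fDOMG Pool.Agent.PTN.Final.fLAW

theorem jLCI : Stmt_LCI := LCI_thm Pool.Agent.PT.Final.fSPP

theorem jNFL : Stmt_NFL := NFL_thm 

theorem jNRK : Stmt_NRK := NRK_thm 

theorem jNHN : Stmt_NHN := NHN_thm 

theorem jNTR : Stmt_NTR := NTR_thm Pool.Agent.PT.Final.fSPP jNHN

theorem jNCN : Stmt_NCN := NCN_thm Pool.Agent.PT.Final.fSPP jLCI jNHN jNTR

theorem jNFX : Stmt_NFX := NFX_thm Pool.Agent.PT.Final.fSPP jNHN jNTR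

theorem jNHO : Stmt_NHO := NHO_thm Pool.Agent.PT.Final.fSPP jNHN jNTR

theorem jNNS : Stmt_NNS := NNS_thm 

theorem jNGN : Stmt_NGN := NGN_thm Pool.Agent.PT.Final.fSPP Pool.Agent.PT.Final.fSREC jLCI Pool.Agent.PT.Final.fNAUX

theorem jNMN : Stmt_NMN := NMN_thm Pool.Agent.PT.Final.fSTM Pool.Agent.PT.Final.fSPP Pool.Agent.PT.Final.fSSL Pool.Agent.PT.Final.fSLC Pool.Agent.PT.Final.fHERBQ Pool.Agent.PT.Final.fSUN jNRK jNHN jNTR jNCN jNFX jNHO jNNS jNGN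

theorem jNDS : Stmt_NDS := NDS_thm 

theorem jHNE : Stmt_HNE := HNE_thm jNFL jNMN jNDS

theorem jZI : Stmt_ZI := ZI_thm jZA

theorem jZL : Stmt_ZL := ZL_thm Pool.Agent.PT.Final.fSPP Pool.Agent.PT.Final.fSSL Pool.Agent.PT.Final.fSREC Pool.Agent.PT.Final.fSCJ

theorem jZC : Stmt_ZC := ZC_thm Pool.Agent.PT.Final.fSTM Pool.Agent.PT.Final.fSPP Pool.Agent.PT.Final.fSSL Pool.Agent.PT.Final.fSCJ Pool.Agent.PT3.Final.fLCL jZA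

theorem jZT : Stmt_ZT := ZT_thm Pool.Agent.PT.Final.fSTM Pool.Agent.PT.Final.fSPP Pool.Agent.PT.Final.fSCJ jLCI jZA jZC

theorem jVDIM : Stmt_VDIM := VDIM_thm 

theorem jMSY : Stmt_MSY := MSY_thm Pool.Agent.PT.Final.fSPP jLCI jHNE jZA jZI jZL jZT jVDIM

theorem jMSP : Stmt_MSP := MSP_thm Pool.Agent.PT3.Final.fDCOT Pool.Agent.PT3.Final.fTENT Pool.Agent.PTN.Final.fNADT

theorem jIF4 : Stmt_IF4 := IF4_thm Pool.Agent.PT.Final.fSTAR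

theorem jIF4B : Stmt_IF4B := IF4B_thm Pool.Agent.PT.Final.fSTAR

theorem jF6R : Stmt_F6R := F6R_thm Pool.Agent.PT.Final.fSTM

theorem jF7U : Stmt_F7U := F7U_thm Pool.Agent.PT.Final.fSTM

theorem jLFV : Stmt_LFV := LFV_thm Pool.Agent.PT.Final.fSPP

theorem jDP1 : Stmt_DP1 := DP1_thm Pool.Agent.PT.Final.fSTM Pool.Agent.PT.Final.fSPP jIF4 jIF4B jF6R jF7U jLFV jLCI

theorem jIF2 : Stmt_IF2 := IF2_thm Pool.Agent.PT.Final.fSTAR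

theorem jIF1 : Stmt_IF1 := IF1_thm 

theorem jSVF : Stmt_SVF := SVF_thm Pool.Agent.PT.Final.fSSL

theorem jIIAG : Stmt_IIAG := IIAG_thm Pool.Agent.PT.Final.fSTM Pool.Agent.PT.Final.fSPP Pool.Agent.PT.Final.fSSL jLCI jIF1 jIF2 jIF4 jF6R jF7U jSVF

theorem jIIA : Stmt_IIA := IIA_thm Pool.Agent.PT.Final.fSLC jIIAG

theorem jDP2 : Stmt_DP2 := DP2_thm Pool.Agent.PT.Final.fSLC jIF2 jIIA

theorem jDP3 : Stmt_DP3 := DP3_thm Pool.Agent.PT.Final.fSTM Pool.Agent.PT.Final.fSPP jIF4 jF7U jLFV jLCI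

theorem jDP4 : Stmt_DP4 := DP4_thm Pool.Agent.PT.Final.fSTM Pool.Agent.PT.Final.fSPP jIF4 jLCI

theorem jDCK : Stmt_DCK := DCK_thm Pool.Agent.PT.Final.fSPP jDP1 jDP2 jDP3 jDP4 jSVF

theorem jDX1 : Stmt_DX1 := DX1_thm Pool.Agent.PT.Final.fSTM Pool.Agent.PT.Final.fSPP jIF4 jIF4B jF6R jF7U jLFV jLCI

theorem jDX2 : Stmt_DX2 := DX2_thm Pool.Agent.PT.Final.fSLC Pool.Agent.PT.Final.fSSL jLCI jIF4

theorem jDX3 : Stmt_DX3 := DX3_thm Pool.Agent.PT.Final.fSTM Pool.Agent.PT.Final.fSPP jIF4 jF7U jLFV jLCI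

theorem jDX4 : Stmt_DX4 := DX4_thm Pool.Agent.PT.Final.fSTM Pool.Agent.PT.Final.fSPP jIF4 jLCI

theorem jDXK : Stmt_DXK := DXK_thm Pool.Agent.PT.Final.fSPP jSVF jDX1 jDX2 jDX3 jDX4

theorem jPT : Stmt_PT := PT_thm 

theorem jLRR : Stmt_LRR := LRR_thm Pool.Agent.PT3.Final.fLCL

theorem jPTX : Stmt_PTX := PTX_thm jLRR Pool.Agent.PT.Final.fSSL Pool.Agent.PT.Final.fSLC Pool.Agent.PT.Final.fSCJ Pool.Agent.PT3.Final.fLCL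

theorem jZS : Stmt_ZS := ZS_thm Pool.Agent.PT.Final.fSTM Pool.Agent.PT.Final.fSPP Pool.Agent.PT.Final.fSSL Pool.Agent.PT.Final.fSCJ Pool.Agent.PT3.Final.fLCL jZA jZC

theorem jMS2 : Stmt_MS2 := MS2_thm Pool.Agent.PT.Final.fSPP Pool.Agent.PT3.Final.fLCL jDCK jDXK jPT jPTX jZS jZA

theorem jMZF : Stmt_MZF := MZF_thm 

theorem jGTK : Stmt_GTK := GTK_thm 

theorem jGFK : Stmt_GFK := GFK_thm 

theorem jMKU : Stmt_MKU := MKU_thm Pool.Agent.PT.Final.fKUM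

theorem jMC1 : Stmt_MC1 := MC1_thm jMKU

theorem jMC2 : Stmt_MC2 := MC2_thm jMKU

theorem jMAL : Stmt_MAL := MAL_thm jMZF Pool.Agent.PT.Final.fGCHI Pool.Agent.PT3.Final.fGTG Pool.Agent.PT3.Final.fGFRG jGTK jGFK jMC1 jMC2

theorem jDNS : Stmt_DNS := DNS_thm Pool.Agent.PT.Final.fDIR

theorem jBM2 : Stmt_BM2 := BM2_thm jLCI Pool.Agent.PTN.Final.fEQX jMAL jDNS

theorem jMT2 : Stmt_MT2 := MT2_thm Pool.Agent.PT.Final.fCLSC jMSY jMSP jMS2 jBM2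

theorem jJP2 : Stmt_JP2 := JP2_thm jWSM jKUM jMT2

theorem jESR : Stmt_ESR := ESR_thm 

theorem jESB : Stmt_ESB := ESB_thm jESR

theorem jWGR : Stmt_WGR := WGR_thm Pool.Agent.PT.Final.fSPP Pool.Agent.PT.Final.fSSL Pool.Agent.PT.Final.fSCJ Pool.Agent.PT3.Final.fLCL Pool.Agent.PTN.Final.fNKIN jZA jZS jS1G

theorem jNBW : Stmt_NBW := NBW_thm Pool.Agent.PTN.Final.fKID Pool.Agent.PTN.Final.fNADT Pool.Agent.PTN.Final.fNPLU Pool.Agent.PT3.Final.fTENT jWGR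

theorem jAM2 : Stmt_AM2 := AM2_thm jUPS jUPA jLAM jPLE jJP2 jVDIM jGMB jESB jNBW jWGR

theorem jPLU : Stmt_PLU := PLU_thm Pool.Agent.PT3.Final.fESYT

theorem jZSU : Stmt_ZSU := ZSU_thm Pool.Agent.PT.Final.fSTM Pool.Agent.PT.Final.fSPP Pool.Agent.PT.Final.fSSL Pool.Agent.PT.Final.fSCJ Pool.Agent.PT3.Final.fLCL jZA jZC

theorem jWGU : Stmt_WGU := WGU_thm Pool.Agent.PT.Final.fSTM Pool.Agent.PT.Final.fSPP Pool.Agent.PT.Final.fSSL Pool.Agent.PT.Final.fSCJ Pool.Agent.PT3.Final.fLCL Pool.Agent.PTN.Final.fNVEC Pool.Agent.PTN.Final.fNKIN jZA jZSU jS1G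

theorem jNBU : Stmt_NBU := NBU_thm Pool.Agent.PTN.Final.fKID Pool.Agent.PTN.Final.fNKIN Pool.Agent.PTN.Final.fNADU Pool.Agent.PTN.Final.fNPLU Pool.Agent.PT3.Final.fTENT Pool.Agent.PT.Final.fSPP Pool.Agent.PTE.Final.fSPLT jWGU

theorem jNBX : Stmt_NBX := NBX_thm Pool.Agent.PTN.Final.fKID Pool.Agent.PTN.Final.fNKIN Pool.Agent.PTN.Final.fNADU Pool.Agent.PTN.Final.fNPLU Pool.Agent.PT3.Final.fTENT Pool.Agent.PT.Final.fSPP Pool.Agent.PTE.Final.fSPLT jWGU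

theorem jPAT : Stmt_PAT := PAT_thm 

theorem jZPV : Stmt_ZPV := ZPV_thm Pool.Agent.PTE.Final.fSPLT Pool.Agent.PT.Final.fSPP

theorem jMSPU : Stmt_MSPU := MSPU_thm Pool.Agent.PT3.Final.fDCOU Pool.Agent.PT3.Final.fTENT Pool.Agent.PTN.Final.fNADU Pool.Agent.PTE.Final.fSPLT

theorem jDP4U : Stmt_DP4U := DP4U_thm Pool.Agent.PT.Final.fSTM Pool.Agent.PT.Final.fSPP jIF4 jLCI

theorem jDCKU : Stmt_DCKU := DCKU_thm Pool.Agent.PT.Final.fSPP jDP1 jDP2 jDP3 jDP4U jSVF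

theorem jDXL : Stmt_DXL := DXL_thm Pool.Agent.PT.Final.fSPP jSVF jDX1 jDX2 jDX3 jDX4

theorem jMS1 : Stmt_MS1 := MS1_thm jDCKU jDXL jPT jPTX jZSU jZA Pool.Agent.PT3.Final.fLCL

theorem jGTU : Stmt_GTU := GTU_thm 

theorem jGFKU : Stmt_GFKU := GFKU_thm Pool.Agent.PT.Final.fSPP Pool.Agent.PT.Final.fSCJ Pool.Agent.PTE.Final.fSPLT

theorem jMAU : Stmt_MAU := MAU_thm jMZF Pool.Agent.PT.Final.fGCHI Pool.Agent.PTE.Final.fGTS Pool.Agent.PTE.Final.fGKUM Pool.Agent.PTN.Final.fGFRU jGTU jGFKU jMC1 jMC2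

theorem jDNS1 : Stmt_DNS1 := DNS1_thm Pool.Agent.PT.Final.fDIR

theorem jBMU : Stmt_BMU := BMU_thm Pool.Agent.PT.Final.fSPP Pool.Agent.PTE.Final.fSPLT jLCI Pool.Agent.PTN.Final.fEQX jMAU jDNS1

theorem jMTU : Stmt_MTU := MTU_thm Pool.Agent.PT.Final.fCLSC Pool.Agent.PTE.Final.fCLSCS jMSY jMSPU jMS1 jBMU

theorem jJPG : Stmt_JPG := JPG_thm jKUM jWSM jMTU

theorem jMPZ : Stmt_MPZ := MPZ_thm Pool.Agent.PT3.Final.fDCOU Pool.Agent.PT3.Final.fTENT Pool.Agent.PTN.Final.fNADU Pool.Agent.PTE.Final.fSPLT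

theorem jGTZ : Stmt_GTZ := GTZ_thm 

theorem jGFZ : Stmt_GFZ := GFZ_thm Pool.Agent.PTE.Final.fSPLT

theorem jMAZ : Stmt_MAZ := MAZ_thm jMZF jMC1 jMC2 jGTZ jGFZ jGTU jGFKU Pool.Agent.PT.Final.fGCHI Pool.Agent.PTE.Final.fGKUM

theorem jBMZ : Stmt_BMZ := BMZ_thm Pool.Agent.PT.Final.fSPP Pool.Agent.PTE.Final.fSPLT jLCI Pool.Agent.PTN.Final.fEQX jMAZ jDNS1

theorem jMTZ : Stmt_MTZ := MTZ_thm Pool.Agent.PT.Final.fCLSC Pool.Agent.PTE.Final.fCLSCS jMSY jMPZ jMS1 jBMZ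

theorem jJPZ : Stmt_JPZ := JPZ_thm jWSM jKUM jMTZ

theorem jESZ : Stmt_ESZ := ESZ_thm jESR

theorem jAM1 : Stmt_AM1 := AM1_thm jUPS jUPA jLAM Pool.Agent.PTN.Final.fNHPT jPLU jPLE jNBU jNBX jWGU jPAT jZPV jJPG jJPZ jVDIM jGMB jESZ jESB Pool.Agent.PTE.Final.fSPLT

theorem jAMF : Stmt_AMF := AMF_thm Pool.Agent.PTN.Final.fSUMA jAM2 jAM1 jGMB

theorem jMAM : Stmt_MAM := MAM_thm Pool.Agent.PTN.Final.fNFE Pool.Agent.PTN.Final.fTRU Pool.Agent.PTN.Final.fSUMA jGMB jMTL jAMF jAM2 jAM1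

theorem jUPL : Stmt_UPL := UPL_thm 

theorem jPR2 : Stmt_PR2 := PR2_thm jUPS jUPL Pool.Agent.PTN.Final.fSUMA Pool.Agent.PTN.Final.fLAW Pool.Agent.PTN.Final.fCLT Pool.Agent.PT.Final.fSPP jPLE jJP2 jVDIM jGMB jESB jNBW jWGR

theorem jPR1 : Stmt_PR1 := PR1_thm jUPS jUPL Pool.Agent.PTN.Final.fLAW Pool.Agent.PTN.Final.fCLT Pool.Agent.PT.Final.fSPP jVDIM jGMB jESB jESZ Pool.Agent.PTN.Final.fNHPT jPLU jPLE jNBU jNBX jZPV jWGU jPAT jJPG jJPZ Pool.Agent.PTE.Final.fSPLT Pool.Agent.PTN.Final.fSUMA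

theorem jPRB : Stmt_PRB := PRB_thm Pool.Agent.PTN.Final.fNFE Pool.Agent.PTN.Final.fSUMA jPR2 jPR1

theorem jCLV : Stmt_CLV := CLV_thm Pool.Agent.PTN.Final.fNHPT jPLE Pool.Agent.PTN.Final.fDLU Pool.Agent.PTN.Final.fSMT jPAT jZPV jNBX jMTZ jESZ

theorem jCAV : Stmt_CAV := CAV_thm Pool.Agent.PT.Final.fSPP jCLV Pool.Agent.PTN.Final.fCLU Pool.Agent.PTN.Final.fDOMG Pool.Agent.PTN.Final.fLAW

theorem jCBV : Stmt_CBV := CBV_thm jCLV Pool.Agent.PTN.Final.fCLU Pool.Agent.PTN.Final.fCLT Pool.Agent.PT.Final.fSPP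

theorem jALV : Stmt_ALV := ALV_thm jCAV jCBV Pool.Agent.PTN.Final.fLAW Pool.Agent.PTN.Final.fSUMA Pool.Agent.PTN.Final.fNDIM Pool.Agent.PTN.Final.fNSUM Pool.Agent.PTN.Final.fNZER Pool.Agent.PTN.Final.fNSU1 Pool.Agent.PTN.Final.fNZE1

theorem jMAV : Stmt_MAV := MAV_thm jCAV jCBV jALV Pool.Agent.PTN.Final.fNFE Pool.Agent.PTN.Final.fNDIM Pool.Agent.PTN.Final.fNSUM Pool.Agent.PTN.Final.fNZER Pool.Agent.PTN.Final.fNSU1 Pool.Agent.PTN.Final.fNZE1 Pool.Agent.PTN.Final.fNZE0 Pool.Agent.PTN.Final.fCAB Pool.Agent.PTN.Final.fCBE Pool.Agent.PTN.Final.fLAW Pool.Agent.PTN.Final.fALLQ Pool.Agent.PTN.Final.fTRU Pool.Agent.PTN.Final.fTRC Pool.Agent.PTN.Final.fCLN Pool.Agent.PTN.Final.fCLU Pool.Agent.PTN.Final.fSUMA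

end Pool.Agent.PTK.FinalM
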